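import Mathlib
import Pool.Graph.R_seed8.Y742.DI.Ech

/-!
Triangular bases of a coordinate space which contain an echelon basis of a subspace.
-/

set_option autoImplicit false

open Finset Module

namespace Pool.Agent.H434

variable {k : Type} [Field k] {B : Type} [Fintype B]

theorem tri_li (o : B → ℕ) (ho : Function.Injective o) (f : B → (B → k))
    (h1 : ∀ a, f a a ≠ 0) (h2 : ∀ a b, o a < o b → f a b = 0) : LinearIndependent k f := by
  classical
  rw [Fintype.linearIndependent_iff]
  intro c hc
  by_contra hne
  push Not at hne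
  obtain ⟨b0, hb0⟩ := hne
  obtain ⟨b, hb, hmax⟩ := Finset.exists_max_image
    (Finset.univ.filter fun b : B => c b ≠ 0) (fun b => o b)
    ⟨b0, Finset.mem_filter.2 ⟨Finset.mem_univ _, hb0⟩⟩
  have h3 := congrFun hc b
  rw [Finset.sum_apply, Finset.sum_eq_single b] at h3
  · simp only [Pi.smul_apply, smul_eq_mul, Pi.zero_apply] at h3
    exact mul_ne_zero (Finset.mem_filter.1 hb).2 (h1 b) h3
  · intro b' _ hbb
    by_cases hc' : c b' = 0
    · simp [hc']
    · have h4 := hmax b' (Finset.mem_filter.2 ⟨Finset.mem_univ _, hc'⟩)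
      have h5 : o b' ≠ o b := fun h => hbb (ho h)
      rw [Pi.smul_apply, h2 b' b (lt_of_le_of_ne h4 h5), smul_zero]
  · intro h
    exact absurd (Finset.mem_univ _) h

theorem ech2 [DecidableEq B] (o : B → ℕ) (ho : Function.Injective o) (W : Submodule k (B → k)) :
    ∃ (T : Finset B) (f : B → (B → k)), T.card = finrank k W ∧ (∀ a ∈ T, f a ∈ W) ∧
      (∀ a, a ∉ T → f a = fun b => if b = a then 1 else 0) ∧ (∀ a, f a a ≠ 0) ∧
      ∀ a b, o a < o b → f a b = 0 := by
  classical
  let P : B → Prop := fun b => ∃ g ∈ W, g b ≠ 0 ∧ ∀ b', o b < o b' → g b' = 0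
  let T : Finset B := Finset.univ.filter P
  have hT : ∀ b, b ∈ T ↔ P b := fun b => by simp [T]
  let g : B → (B → k) := fun b => if h : P b then h.choose else fun b' => if b' = b then 1 else 0
  have hg : ∀ b, b ∈ T → g b ∈ W ∧ g b b ≠ 0 ∧ ∀ b', o b < o b' → g b b' = 0 := by
    intro b hb
    have h1 : P b := (hT b).1 hb
    have h2 : g b = h1.choose := by simp only [g]; rw [dif_pos h1]
    rw [h2]
    exact h1.choose_spec
  have hg' : ∀ b, b ∉ T → g b = fun b' => if b' = b then 1 else 0 := by
    intro b hb
    have h1 : ¬ P b := fun h => hb ((hT b).2 h)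
    simp only [g]
    rw [dif_neg h1]
  have hgd : ∀ b, g b b ≠ 0 := by
    intro b
    by_cases hb : b ∈ T
    · exact (hg b hb).2.1
    · rw [hg' b hb]
      simp
  have hgz : ∀ a b, o a < o b → g a b = 0 := by
    intro a b hab
    by_cases ha : a ∈ T
    · exact (hg a ha).2.2 b hab
    · rw [hg' a ha]
      have : b ≠ a := fun h => by rw [h] at hab; exact lt_irrefl _ hab
      simp [this]
  have hli := tri_li o ho g hgd hgz
  have hspan : ∀ n : ℕ, ∀ f ∈ W, (∀ b, f b ≠ 0 → o b < n) →
      f ∈ Submodule.span k (g '' (T : Set B)) := by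
    intro n
    induction n with
    | zero =>
      intro f _ hf
      have : f = 0 := by
        funext b
        by_contra h
        exact absurd (hf b h) (Nat.not_lt_zero _)
      rw [this]
      exact Submodule.zero_mem _
    | succ n ih =>
      intro f hfW hf
      by_cases h : ∃ b, o b = n ∧ f b ≠ 0
      · obtain ⟨b, hbn, hfb⟩ := h
        have hz : ∀ b', o b < o b' → f b' = 0 := by
          intro b' hb'
          by_contra hne
          have := hf b' hne
          omega
        have hbT : b ∈ T := (hT b).2 ⟨f, hfW, hfb, hz⟩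
        have h1 : f - (f b / g b b) • g b ∈ Submodule.span k (g '' (T : Set B)) := by
          refine ih _ (W.sub_mem hfW (W.smul_mem _ (hg b hbT).1)) ?_
          intro b' hb'
          by_contra hlt
          push Not at hlt
          apply hb'
          rcases Nat.lt_or_ge n (o b') with h2 | h2
          · have h3 : o b < o b' := by omega
            rw [Pi.sub_apply, Pi.smul_apply, hz b' h3, hgz b b' h3, smul_zero, sub_zero]
          · have h3 : o b' = o b := by omega
            have h4 : b' = b := ho h3
            rw [h4, Pi.sub_apply, Pi.smul_apply, smul_eq_mul, div_mul_cancel₀ _ (hgd b), sub_self]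
        have h2 : f = (f - (f b / g b b) • g b) + (f b / g b b) • g b := by abel
        rw [h2]
        exact Submodule.add_mem _ h1 (Submodule.smul_mem _ _ (Submodule.subset_span ⟨b, hbT, rfl⟩))
      · push Not at h
        refine ih f hfW fun b hb => ?_
        have h1 := hf b hb
        have h2 : o b ≠ n := fun h' => hb (h b h')
        omega
  have hspan' : Submodule.span k (g '' (T : Set B)) = W := by
    apply le_antisymm
    · rw [Submodule.span_le]
      rintro _ ⟨b, hb, rfl⟩
      exact (hg b hb).1
    · intro f hf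
      refine hspan (∑ b, o b + 1) f hf fun b _ => ?_
      have := Finset.single_le_sum (f := o) (fun _ _ => Nat.zero_le _) (Finset.mem_univ b)
      omega
  have hcard : T.card = finrank k W := by
    have h0 : LinearIndependent k (fun b : T => g b.1) :=
      hli.comp (fun b : T => b.1) Subtype.val_injective
    have h1 := finrank_span_eq_card h0
    have h3 : Set.range (fun b : T => g b.1) = g '' (T : Set B) := by
      ext x
      constructor
      · rintro ⟨b, rfl⟩
        exact ⟨b.1, b.2, rfl⟩
      · rintro ⟨b, hb, rfl⟩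
        exact ⟨⟨b, hb⟩, rfl⟩
    rw [h3, hspan', Fintype.card_coe] at h1
    exact h1.symm
  exact ⟨T, g, hcard, fun a ha => (hg a ha).1, hg', hgd, hgz⟩

/-- the number of monomials of degree at most `2 e` compared with the number of those of degree at
most `e` -/
theorem Sx_double (r e : ℕ) (hr : 1 ≤ r) :
    (Pool.Agent.Y742.DI.Sx r (e + e)).card ≤ (2 * r) ^ r * (Pool.Agent.Y742.DI.Sx r e).card := by
  have h1 := Pool.Agent.Y742.DI.Sx_lower r e hr
  have h2 : (Pool.Agent.Y742.DI.Sx r (e + e)).card ≤ (e + e + 1) ^ r := by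
    unfold Pool.Agent.Y742.DI.Sx
    refine (Finset.card_filter_le _ _).trans ?_
    rw [Fintype.card_piFinset]
    simp
  calc (Pool.Agent.Y742.DI.Sx r (e + e)).card ≤ (e + e + 1) ^ r := h2
    _ ≤ (2 * (e + 1)) ^ r := Nat.pow_le_pow_left (by omega) r
    _ = 2 ^ r * (e + 1) ^ r := mul_pow _ _ _
    _ ≤ 2 ^ r * (r ^ r * (Pool.Agent.Y742.DI.Sx r e).card) := Nat.mul_le_mul_left _ h1
    _ = (2 * r) ^ r * (Pool.Agent.Y742.DI.Sx r e).card := by rw [mul_pow]; ring

end Pool.Agent.H434
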