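import Mathlib
import Pool.Graph.R_pool_sql_team_seeded_63374d34.N754.LT.Low

/-!
Maxima of linear forms with given exponents, and the sizes of polynomials in units.
-/

set_option autoImplicit false
set_option linter.unusedSectionVars false

open Finset Filter Module MvPolynomial

namespace Pool.Agent.H434

open Pool.Agent.N754.LT

section mx

variable {r : ℕ}

/-- the value of the linear form with exponent `b` -/
noncomputable def lin (b : Fin r →₀ ℕ) (l : Fin r → ℝ) : ℝ := ∑ i, (b i : ℝ) * l i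

/-- the largest value of the linear forms with exponents in `s` -/
noncomputable def mx (s : Finset (Fin r →₀ ℕ)) (l : Fin r → ℝ) : ℝ :=
  if h : s.Nonempty then s.sup' h (fun b => lin b l) else 0

theorem le_mx {s : Finset (Fin r →₀ ℕ)} {b : Fin r →₀ ℕ} (hb : b ∈ s) (l : Fin r → ℝ) :
    lin b l ≤ mx s l := by
  unfold mx
  rw [dif_pos ⟨b, hb⟩]
  exact Finset.le_sup' (fun b => lin b l) hb

theorem exists_mx {s : Finset (Fin r →₀ ℕ)} (hs : s.Nonempty) (l : Fin r → ℝ) :
    ∃ b ∈ s, mx s l = lin b l := by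
  unfold mx
  rw [dif_pos hs]
  obtain ⟨b, hb, h⟩ := Finset.exists_mem_eq_sup' hs (fun b => lin b l)
  exact ⟨b, hb, h⟩

theorem mx_le {s : Finset (Fin r →₀ ℕ)} (hs : s.Nonempty) {l : Fin r → ℝ} {c : ℝ}
    (h : ∀ b ∈ s, lin b l ≤ c) : mx s l ≤ c := by
  obtain ⟨b, hb, h1⟩ := exists_mx hs l
  rw [h1]
  exact h b hb

theorem lin_abs (b : Fin r →₀ ℕ) (l : Fin r → ℝ) :
    |lin b l| ≤ (∑ i, (b i : ℝ)) * ∑ i, |l i| := by
  unfold lin
  refine (Finset.abs_sum_le_sum_abs _ _).trans ?_
  rw [Finset.sum_mul]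
  refine Finset.sum_le_sum fun i _ => ?_
  rw [abs_mul, abs_of_nonneg (Nat.cast_nonneg _)]
  exact mul_le_mul_of_nonneg_left (Finset.single_le_sum (f := fun j => |l j|)
    (fun _ _ => abs_nonneg _) (Finset.mem_univ i)) (Nat.cast_nonneg _)

theorem mx_abs (s : Finset (Fin r →₀ ℕ)) (l : Fin r → ℝ) :
    |mx s l| ≤ (∑ b ∈ s, ∑ i, (b i : ℝ)) * ∑ i, |l i| := by
  have h0 : 0 ≤ ∑ i, |l i| := Finset.sum_nonneg fun _ _ => abs_nonneg _
  by_cases hs : s.Nonempty
  · obtain ⟨b, hb, h1⟩ := exists_mx hs l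
    rw [h1]
    refine (lin_abs b l).trans (mul_le_mul_of_nonneg_right ?_ h0)
    exact Finset.single_le_sum (f := fun b : Fin r →₀ ℕ => ∑ i, (b i : ℝ))
      (fun _ _ => Finset.sum_nonneg fun _ _ => Nat.cast_nonneg _) hb
  · unfold mx
    rw [dif_neg hs, abs_zero]
    exact mul_nonneg (Finset.sum_nonneg fun _ _ => Finset.sum_nonneg fun _ _ => Nat.cast_nonneg _) h0

end mx

variable {k R : Type} [Field k] [CommRing R] [IsDomain R] [Algebra k R] (D : Dc k R) {r : ℕ}

/-- the subspace theorem for images of bases under an injective linear map -/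
theorem smt_basis {V : Type} [AddCommGroup V] [Module k V] [FiniteDimensional k V]
    {I : Type} [Fintype I] (hI : Fintype.card I = finrank k V) (Ψ : V →ₗ[k] R)
    (hΨ : Function.Injective Ψ) {κ : Type} [Finite κ] (v : κ → I → V)
    (hv : ∀ c, LinearIndependent k (v c)) (s : D.Ω → κ) :
    D.Neg (fun ω => -∑ i, D.lg (Ψ (v (s ω) i)) ω) := by
  classical
  let e : Fin (Fintype.card I) ≃ I := (Fintype.equivFin I).symm
  have h1 := D.smt (Fintype.card I) κ (fun c i => Ψ (v c (e i)))
    (fun c => by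
      have h2 : LinearIndependent k (fun i => v c (e i)) := (hv c).comp e e.injective
      exact h2.map' Ψ (LinearMap.ker_eq_bot.2 hΨ))
    (fun c c' => by
      have h3 : ∀ c, Submodule.span k (Set.range fun i => Ψ (v c (e i))) = LinearMap.range Ψ := by
        intro c
        have h4 : Submodule.span k (Set.range (v c)) = ⊤ :=
          (hv c).span_eq_top_of_card_eq_finrank' hI
        have h5 : (Set.range fun i => Ψ (v c (e i))) = Ψ '' Set.range (v c) := by
          ext x
          constructor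
          · rintro ⟨i, rfl⟩
            exact ⟨_, ⟨e i, rfl⟩, rfl⟩
          · rintro ⟨_, ⟨i, rfl⟩, rfl⟩
            exact ⟨e.symm i, by simp⟩
        rw [h5, Submodule.span_image, h4, Submodule.map_top]
      rw [h3, h3]) s
  refine D.neg_mono _ _ (Filter.Eventually.of_forall fun ω => ?_) h1
  refine le_of_eq ?_
  congr 1
  exact (Equiv.sum_comp e (fun i => D.lg (Ψ (v (s ω) i)) ω)).symm

/-- the vector of the logarithms -/
noncomputable def lgv (u : Fin r → Rˣ) (ω : D.Ω) : Fin r → ℝ := fun i => D.lg (u i : R) ω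

theorem lg_mon' (u : Fin r → Rˣ) (b : Fin r →₀ ℕ) :
    ∀ᶠ ω in D.ev, D.lg (mon u (fun i => b i) : Rˣ) ω = lin b (lgv D u ω) :=
  lg_mon D u (fun i => b i)

theorem aeval_eq_sum (u : Fin r → Rˣ) (p : MvPolynomial (Fin r) k) :
    aeval (fun i => (u i : R)) p =
      ∑ b : p.support, algebraMap k R (coeff b.1 p) * (mon u (fun i => b.1 i) : Rˣ) := by
  rw [MvPolynomial.aeval_def, MvPolynomial.eval₂_eq', ← Finset.sum_coe_sort]
  refine Finset.sum_congr rfl fun s _ => ?_
  rw [mon_val]

theorem poly_mx (u : Fin r → Rˣ) (p : MvPolynomial (Fin r) k)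
    (hp : aeval (fun i => (u i : R)) p ≠ 0) :
    ∃ C : ℝ, 0 ≤ C ∧ ∀ᶠ ω in D.ev,
      D.lg (aeval (fun i => (u i : R)) p) ω ≤ C + mx p.support (lgv D u ω) := by
  classical
  obtain ⟨C, hC⟩ := D.lg_sum_le (fun s : p.support => coeff s.1 p)
    (fun s : p.support => ((mon u (fun i => s.1 i) : Rˣ) : R)) (fun s => Units.ne_zero _)
    (by rw [← aeval_eq_sum]; exact hp)
  refine ⟨|C|, abs_nonneg _, ?_⟩
  have h2 : ∀ᶠ ω in D.ev, ∀ s ∈ (Finset.univ : Finset p.support),
      D.lg ((mon u (fun i => s.1 i) : Rˣ) : R) ω = lin s.1 (lgv D u ω) :=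
    (Filter.eventually_all_finset _).2 fun s _ => lg_mon' D u _
  filter_upwards [hC, h2] with ω g1 g2
  rw [aeval_eq_sum]
  refine (g1 (mx p.support (lgv D u ω)) fun s _ => ?_).trans (by linarith [le_abs_self C])
  rw [g2 s (Finset.mem_univ _)]
  exact le_mx s.2 _

theorem mx_neg (u : Fin r → Rˣ) (hu : AlgebraicIndependent k (fun i => (u i : R)))
    (p : MvPolynomial (Fin r) k) (hp : p ≠ 0) :
    D.Neg (fun ω => mx p.support (lgv D u ω) - D.lg (aeval (fun i => (u i : R)) p) ω) := by
  classical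
  set T : Finset (Fin r →₀ ℕ) := p.support with hT
  have hTne : T.Nonempty := MvPolynomial.support_nonempty.2 hp
  let Ψ : (T → k) →ₗ[k] R :=
    { toFun := fun x => ∑ b : T, algebraMap k R (x b) * (mon u (fun i => b.1 i) : Rˣ)
      map_add' := fun x y => by
        simp only [Pi.add_apply, map_add, add_mul, Finset.sum_add_distrib]
      map_smul' := fun c x => by
        simp only [Pi.smul_apply, smul_eq_mul, map_mul, RingHom.id_apply, Algebra.smul_def,
          Finset.mul_sum, mul_assoc] }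
  have hΨ : Function.Injective Ψ := by
    rw [injective_iff_map_eq_zero]
    intro x hx
    exact mon_li u hu T x hx
  have hcoef : ∀ a : T, coeff a.1 p ≠ 0 := fun a => mem_support_iff.1 a.2
  let v : T → T → (T → k) := fun c a => if a = c then (fun b => coeff b.1 p) else Pi.single a 1
  have hv : ∀ c, LinearIndependent k (v c) := by
    intro c
    rw [Fintype.linearIndependent_iff]
    intro x hx
    have h1 : ∀ b, x c * coeff b.1 p + (if b = c then 0 else x b) = 0 := by
      intro b
      have h2 := congrFun hx b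
      rw [Finset.sum_apply, ← Finset.add_sum_erase _ _ (Finset.mem_univ c)] at h2
      simp only [v, Pi.smul_apply, smul_eq_mul, if_true, Pi.zero_apply] at h2
      refine Eq.trans ?_ h2
      congr 1
      by_cases hb : b = c
      · rw [if_pos hb]
        symm
        apply Finset.sum_eq_zero
        intro a ha
        rw [if_neg (Finset.ne_of_mem_erase ha), Pi.single_apply, if_neg, mul_zero]
        rw [hb]
        exact (Finset.ne_of_mem_erase ha).symm
      · rw [if_neg hb, Finset.sum_eq_single b]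
        · rw [if_neg hb, Pi.single_eq_same, mul_one]
        · intro a ha hab
          rw [if_neg (Finset.ne_of_mem_erase ha), Pi.single_apply, if_neg (Ne.symm hab), mul_zero]
        · intro h
          exact absurd (Finset.mem_erase.2 ⟨hb, Finset.mem_univ _⟩) h
    have h3 : x c = 0 := by
      have h4 := h1 c
      rw [if_pos rfl, add_zero] at h4
      exact (mul_eq_zero.1 h4).resolve_right (hcoef c)
    intro i
    by_cases hi : i = c
    · rw [hi, h3]
    · have h4 := h1 i
      rw [h3, zero_mul, if_neg hi, zero_add] at h4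
      exact h4
  have hsel : ∀ ω : D.Ω, ∃ c : T, mx T (lgv D u ω) = lin c.1 (lgv D u ω) := fun ω => by
    obtain ⟨b, hb, h⟩ := exists_mx hTne (lgv D u ω)
    exact ⟨⟨b, hb⟩, h⟩
  choose s hs using hsel
  have hI : Fintype.card T = finrank k (T → k) := by
    rw [Module.finrank_fintype_fun_eq_card]
  have h1 := smt_basis D hI Ψ hΨ v hv s
  have h2 : D.Neg (fun ω => ∑ a : T, D.lg (mon u (fun i => a.1 i) : Rˣ) ω) :=
    D.neg_sum _ _ fun a _ => D.unit_neg' _
  refine D.neg_mono _ _ ?_ (D.neg_add _ _ h1 h2)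
  have h4 : ∀ᶠ ω in D.ev, ∀ a : T,
      D.lg ((mon u (fun i => a.1 i) : Rˣ) : R) ω = lin a.1 (lgv D u ω) :=
    (Filter.eventually_all).2 fun a => lg_mon' D u _
  filter_upwards [h4] with ω g4
  have hΨc : Ψ (fun b => coeff b.1 p) = aeval (fun i => (u i : R)) p := (aeval_eq_sum u p).symm
  have hΨs : ∀ a : T, Ψ (Pi.single a 1) = (mon u (fun i => a.1 i) : Rˣ) := by
    intro a
    show ∑ b : T, algebraMap k R ((Pi.single a 1 : T → k) b) * (mon u (fun i => b.1 i) : Rˣ) = _
    rw [Finset.sum_eq_single a]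
    · rw [Pi.single_eq_same, map_one, one_mul]
    · intro b _ hb
      rw [Pi.single_eq_of_ne hb, map_zero, zero_mul]
    · intro h
      exact absurd (Finset.mem_univ _) h
  have h5 : ∑ i, D.lg (Ψ (v (s ω) i)) ω = D.lg (aeval (fun i => (u i : R)) p) ω +
      ∑ a ∈ Finset.univ.erase (s ω), D.lg (mon u (fun i => a.1 i) : Rˣ) ω := by
    rw [← Finset.add_sum_erase _ _ (Finset.mem_univ (s ω))]
    congr 1
    · simp only [v, if_true]
      rw [hΨc]
    · refine Finset.sum_congr rfl fun a ha => ?_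
      simp only [v]
      rw [if_neg (Finset.ne_of_mem_erase ha), hΨs]
  rw [h5, hs ω, ← g4 (s ω), ← Finset.add_sum_erase _ (fun a : T =>
    D.lg (mon u (fun i => a.1 i) : Rˣ) ω) (Finset.mem_univ (s ω))]
  linarith

end Pool.Agent.H434
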