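import Mathlib

/-!
Taylor polynomials of the `m`-th root of `1 + Z`, homogenized.
-/

set_option autoImplicit false

open Finset Polynomial

namespace Pool.Agent.H434

theorem exists_root_poly {k : Type} [Field k] [CharZero k] (m : ℕ) (hm : 1 ≤ m) (N : ℕ) :
    ∃ P S : k[X], P.natDegree ≤ N ∧ P.coeff 0 = 1 ∧ 1 + X = P ^ m + X ^ (N + 1) * S := by
  induction N with
  | zero =>
    exact ⟨1, 1, by simp, by simp, by simp⟩
  | succ N ih =>
    obtain ⟨P, S, h1, h2, h3⟩ := ih
    set c : k := S.coeff 0 / m with hc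
    have hm0 : (m : k) ≠ 0 := Nat.cast_ne_zero.2 (by omega)
    -- `(P + c X^(N+1))^m = P^m + m P^(m-1) c X^(N+1) + X^(2N+2) *`
    obtain ⟨T, hT⟩ : ∃ T : k[X], (P + C c * X ^ (N + 1)) ^ m =
        P ^ m + (m : k[X]) * P ^ (m - 1) * (C c * X ^ (N + 1)) + (C c * X ^ (N + 1)) ^ 2 * T := by
      have h4 := add_pow_two_dvd (k := k) P (C c * X ^ (N + 1)) m
      obtain ⟨T, hT⟩ := h4
      exact ⟨T, by linear_combination hT⟩
    have hP : X ∣ P ^ (m - 1) - 1 := by
      rw [X_dvd_iff, coeff_sub, coeff_zero_eq_eval_zero, eval_pow, ← coeff_zero_eq_eval_zero, h2]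
      simp
    obtain ⟨P', hP'⟩ := hP
    have hS : X ∣ S - C (S.coeff 0) := by
      rw [X_dvd_iff, coeff_sub, coeff_C_zero, sub_self]
    obtain ⟨S', hS'⟩ := hS
    refine ⟨P + C c * X ^ (N + 1), S' - (m : k[X]) * C c * P' - C c ^ 2 * X ^ N * T, ?_, ?_, ?_⟩
    · refine (natDegree_add_le _ _).trans (max_le (by omega) ?_)
      exact (natDegree_C_mul_X_pow_le _ _)
    · rw [coeff_add, h2, coeff_C_mul, coeff_X_pow]
      simp
    · rw [hT, h3]
      have e1 : P ^ (m - 1) = 1 + X * P' := by linear_combination hP'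
      have e2 : S = C (S.coeff 0) + X * S' := by linear_combination hS'
      have e3 : C (S.coeff 0) = (m : k[X]) * C c := by
        rw [hc, ← C_eq_natCast, ← C_mul]
        congr 1
        field_simp
      rw [e1]
      have e4 : (C c * X ^ (N + 1)) ^ 2 * T = X ^ (N + 1 + 1) * (C c ^ 2 * X ^ N * T) := by ring
      rw [e4]
      have e5 : X ^ (N + 1) * S = X ^ (N + 1) * ((m : k[X]) * C c + X * S') := by
        rw [e2, e3]
      rw [e5]
      ring
  where
  add_pow_two_dvd {k : Type} [Field k] (x y : k[X]) (m : ℕ) :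
      y ^ 2 ∣ (x + y) ^ m - (x ^ m + (m : k[X]) * x ^ (m - 1) * y) := by
    obtain ⟨T, hT⟩ := (Polynomial.binomExpansion (X ^ m : k[X][X]) x y)
    refine ⟨T, ?_⟩
    simp only [eval_pow, eval_X, derivative_X_pow, eval_mul] at hT
    rw [hT]
    simp
    ring

/-- the homogenization of `A` of degree `D` -/
noncomputable def hz {k : Type} [Field k] {R : Type} [CommRing R] [Algebra k R] (D : ℕ) (A : k[X])
    (x y : R) : R := ∑ i ∈ range (D + 1), algebraMap k R (A.coeff i) * (x ^ i * y ^ (D - i))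

theorem hz_map {k : Type} [Field k] {R R' : Type} [CommRing R] [Algebra k R] [CommRing R']
    [Algebra k R'] (φ : R →ₐ[k] R') (D : ℕ) (A : k[X]) (x y : R) :
    φ (hz D A x y) = hz D A (φ x) (φ y) := by
  unfold hz
  rw [map_sum]
  refine Finset.sum_congr rfl fun i _ => ?_
  rw [map_mul, map_mul, map_pow, map_pow, AlgHom.commutes]

theorem hz_eq {k E : Type} [Field k] [Field E] [Algebra k E] (D : ℕ) (A : k[X])
    (hA : A.natDegree ≤ D) (x y : E) (hy : y ≠ 0) : hz D A x y = y ^ D * aeval (x / y) A := by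
  unfold hz
  rw [aeval_eq_sum_range' (n := D + 1) (by omega), Finset.mul_sum]
  refine Finset.sum_congr rfl fun i hi => ?_
  have h1 : i ≤ D := by
    have := Finset.mem_range.1 hi
    omega
  have h2 : y ^ D = y ^ i * y ^ (D - i) := by rw [← pow_add]; congr 1; omega
  rw [h2, Algebra.smul_def, div_pow]
  have h3 : y ^ i ≠ 0 := pow_ne_zero _ hy
  field_simp

theorem aux1 {E : Type} [Field E] (X Y : E) (hY : Y ≠ 0) (n : ℕ) (hn : 1 ≤ n) :
    Y ^ (n - 1) * (Y + X) = Y ^ n * (1 + X / Y) := by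
  have : Y ^ n = Y ^ (n - 1) * Y := by rw [← pow_succ]; congr 1; omega
  rw [this]
  field_simp

theorem aux2 {E : Type} [Field E] (X Y s : E) (hY : Y ≠ 0) (n l : ℕ) (hn : l ≤ n) :
    X ^ l * (Y ^ (n - l) * s) = Y ^ n * ((X / Y) ^ l * s) := by
  have h6 : Y ^ n = Y ^ l * Y ^ (n - l) := by
    rw [← pow_add]; congr 1; omega
  rw [h6, div_pow]
  have h7 : Y ^ l ≠ 0 := pow_ne_zero _ hY
  field_simp

/-- the homogeneous form of the identity -/
theorem root_identity {k : Type} [Field k] {m N : ℕ} (hm : 2 ≤ m) (hN : 1 ≤ N)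
    (P S : k[X]) (hP : P.natDegree ≤ N) (h : 1 + X = P ^ m + X ^ (N + 1) * S) {A : Type}
    [CommRing A] [IsDomain A] [Algebra k A] (x y : A) (hy : y ≠ 0) :
    y ^ (m * N - 1) * (y + x) = (hz N P x y) ^ m +
      x ^ (N + 1) * hz (m * N - (N + 1)) S x y := by
  have hmN : N + 1 ≤ m * N := by nlinarith
  have hS : S.natDegree ≤ m * N - (N + 1) := by
    by_cases hS0 : S = 0
    · rw [hS0, natDegree_zero]
      exact Nat.zero_le _
    have h1 : X ^ (N + 1) * S = 1 + X - P ^ m := by linear_combination -h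
    have h2 : (X ^ (N + 1) * S).natDegree = N + 1 + S.natDegree := by
      rw [natDegree_mul (pow_ne_zero _ X_ne_zero) hS0, natDegree_X_pow]
    have h3 : (1 + X - P ^ m : k[X]).natDegree ≤ m * N := by
      refine (natDegree_sub_le _ _).trans (max_le ?_ ?_)
      · refine (natDegree_add_le _ _).trans (max_le ?_ ?_)
        · rw [natDegree_one]; exact Nat.zero_le _
        · rw [natDegree_X]; omega
      · refine (natDegree_pow_le).trans ?_
        exact Nat.mul_le_mul_left _ hP
    rw [← h1, h2] at h3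
    omega
  let E : Type := FractionRing A
  have hinj : Function.Injective (algebraMap A E) := IsFractionRing.injective A E
  apply hinj
  have hy' : algebraMap A E y ≠ 0 := (map_ne_zero_iff _ hinj).2 hy
  have e1 : algebraMap A E (hz N P x y) = hz N P (algebraMap A E x) (algebraMap A E y) :=
    hz_map (IsScalarTower.toAlgHom k A E) N P x y
  have e2 : algebraMap A E (hz (m * N - (N + 1)) S x y) =
      hz (m * N - (N + 1)) S (algebraMap A E x) (algebraMap A E y) :=
    hz_map (IsScalarTower.toAlgHom k A E) _ S x y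
  rw [map_add, map_mul, map_mul, map_pow, map_pow, map_pow, map_add, e1, e2, hz_eq _ _ hP _ _ hy',
    hz_eq _ _ hS _ _ hy']
  set X' := algebraMap A E x
  set Y := algebraMap A E y
  have h4 := congrArg (aeval (X' / Y)) h
  simp only [map_add, map_one, map_mul, map_pow, aeval_X] at h4
  have e3 : Y ^ (m * N - 1) * (Y + X') = Y ^ (m * N) * (1 + X' / Y) :=
    aux1 X' Y hy' _ (by omega)
  have e4 : (Y ^ N * aeval (X' / Y) P) ^ m = Y ^ (m * N) * (aeval (X' / Y) P) ^ m := by
    rw [mul_pow, ← pow_mul, mul_comm N m]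
  have e5 : X' ^ (N + 1) * (Y ^ (m * N - (N + 1)) * aeval (X' / Y) S) =
      Y ^ (m * N) * ((X' / Y) ^ (N + 1) * aeval (X' / Y) S) :=
    aux2 X' Y _ hy' _ _ hmN
  rw [e3, e4, e5, h4]
  ring

end Pool.Agent.H434
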