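import Mathlib
import Pool.Agent.H434.Ech2
import Pool.Agent.H434.Root
import Pool.Agent.H434.Mx

/-!
The main estimate: if `w ^ m = g(u) ^ m + h(u)` for independent units `u` and an integral element `w`
which is not a rational function of the units, then `g(u) ^ m` does not dominate `h(u)`.
-/

set_option autoImplicit false
set_option linter.unusedSectionVars false

open Finset Filter Module MvPolynomial

namespace Pool.Agent.H434

open Pool.Agent.N754.LT Pool.Agent.Y742.DI

theorem li_block {k V W A B : Type} [Field k] [AddCommGroup V] [Module k V] [AddCommGroup W]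
    [Module k W] [Fintype A] [Fintype B] (f : A → V) (hf : LinearIndependent k f) (c : A → W)
    (g : B → W) (hg : LinearIndependent k g) :
    LinearIndependent k (Sum.elim (fun a => ((f a, c a) : V × W)) (fun b => (0, g b))) := by
  rw [Fintype.linearIndependent_iff]
  intro x hx
  rw [Fintype.sum_sum_type] at hx
  simp only [Sum.elim_inl, Sum.elim_inr, Prod.smul_mk, smul_zero] at hx
  have h1 := congrArg Prod.fst hx
  have h2 := congrArg Prod.snd hx
  rw [Prod.fst_add, Prod.fst_sum, Prod.fst_sum, Prod.fst_zero] at h1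
  simp only [Finset.sum_const_zero, add_zero] at h1
  have h3 := Fintype.linearIndependent_iff.1 hf _ h1
  rw [Prod.snd_add, Prod.snd_sum, Prod.snd_sum, Prod.snd_zero] at h2
  simp only [h3, zero_smul, Finset.sum_const_zero, zero_add] at h2
  have h4 := Fintype.linearIndependent_iff.1 hg _ h2
  rintro (a | b)
  · exact h3 a
  · exact h4 b

variable {k R : Type} [Field k] [CharZero k] [CommRing R] [IsDomain R] [Algebra k R] (D : Dc k R)
  {r : ℕ}

/-- the pairs of polynomials as elements of `R + R w` -/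
noncomputable def psi (φ : MvPolynomial (Fin r) k →ₐ[k] R) (w : R) (L L' : ℕ) :
    ((Sx r L) → k) × ((Sx r L') → k) →ₗ[k] R :=
  ((LinearMap.mulRight k w) ∘ₗ φ.toLinearMap ∘ₗ toPol k r L).coprod
    (φ.toLinearMap ∘ₗ toPol k r L')

theorem psi_apply (φ : MvPolynomial (Fin r) k →ₐ[k] R) (w : R) (L L' : ℕ)
    (x : ((Sx r L) → k) × ((Sx r L') → k)) :
    psi φ w L L' x = φ (toPol k r L x.1) * w + φ (toPol k r L' x.2) := rfl

theorem size_bdd (u : Fin r → Rˣ) : ∃ C1 : ℝ, 0 ≤ C1 ∧
    D.Neg (fun ω => ∑ i, |D.lg (u i : R) ω| - C1 * D.one ω) := by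
  choose C hC0 hC using fun i => D.bdd (u i)
  refine ⟨∑ i, C i, Finset.sum_nonneg fun i _ => hC0 i, ?_⟩
  refine D.neg_mono _ _ ?_ (D.neg_sum Finset.univ _ fun i _ => hC i)
  refine Filter.Eventually.of_forall fun ω => ?_
  rw [Finset.sum_sub_distrib, Finset.sum_mul]
  exact le_refl _

/-- products of powers -/
theorem lg_pow_mul (x y : R) (hx : x ≠ 0) (hy : y ≠ 0) (a b : ℕ) :
    ∀ᶠ ω in D.ev, D.lg (x ^ a * y ^ b) ω = a * D.lg x ω + b * D.lg y ω := by
  filter_upwards [D.lg_mul _ _ (pow_ne_zero a hx) (pow_ne_zero b hy), D.lg_pow x a,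
    D.lg_pow y b] with ω h1 h2 h3
  rw [h1, h2, h3]

/-- the size of the error term -/
theorem err_le (u : Fin r → Rˣ) (g h : MvPolynomial (Fin r) k)
    (hg : aeval (fun i => (u i : R)) g ≠ 0) (hh : aeval (fun i => (u i : R)) h ≠ 0) (m N D' : ℕ)
    (S : Polynomial k)
    (hZ : aeval (fun i => (u i : R)) (h ^ (N + 1) * hz D' S h (g ^ m)) ≠ 0) :
    ∃ C : ℝ, ∀ᶠ ω in D.ev, 0 ≤ m * mx g.support (lgv D u ω) - mx h.support (lgv D u ω) →
      D.lg (aeval (fun i => (u i : R)) (h ^ (N + 1) * hz D' S h (g ^ m))) ω ≤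
        C + m * (N + 1 + D') * mx g.support (lgv D u ω) -
          (N + 1) * (m * mx g.support (lgv D u ω) - mx h.support (lgv D u ω)) := by
  classical
  set φ : MvPolynomial (Fin r) k →ₐ[k] R := aeval (fun i => (u i : R)) with hφ
  have hsum : φ (h ^ (N + 1) * hz D' S h (g ^ m)) = ∑ i : Fin (D' + 1),
      algebraMap k R (S.coeff i) * (φ h ^ (N + 1 + i) * φ g ^ (m * (D' - i))) := by
    rw [map_mul, hz_map, map_pow, map_pow]
    unfold hz
    rw [Finset.mul_sum, Finset.sum_range]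
    refine Finset.sum_congr rfl fun i _ => ?_
    rw [pow_add, ← pow_mul]
    ring
  obtain ⟨Ch, hCh0, hCh⟩ := poly_mx D u h hh
  obtain ⟨Cg, hCg0, hCg⟩ := poly_mx D u g hg
  obtain ⟨C, hC⟩ := D.lg_sum_le (fun i : Fin (D' + 1) => S.coeff i)
    (fun i : Fin (D' + 1) => φ h ^ (N + 1 + i) * φ g ^ (m * (D' - i)))
    (fun i => mul_ne_zero (pow_ne_zero _ hh) (pow_ne_zero _ hg)) (by rw [← hsum]; exact hZ)
  refine ⟨C + (N + 1 + D') * Ch + m * D' * Cg, ?_⟩
  have e1 : ∀ᶠ ω in D.ev, ∀ i : Fin (D' + 1),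
      D.lg (φ h ^ (N + 1 + i) * φ g ^ (m * (D' - i))) ω =
        ((N + 1 + i : ℕ) : ℝ) * D.lg (φ h) ω + ((m * (D' - i) : ℕ) : ℝ) * D.lg (φ g) ω :=
    (Filter.eventually_all).2 fun i => lg_pow_mul D _ _ hh hg _ _
  filter_upwards [hCh, hCg, hC, e1] with ω g1 g2 g3 g4 hgap
  rw [hsum]
  set Mg := mx g.support (lgv D u ω)
  set Mh := mx h.support (lgv D u ω)
  refine (g3 ((N + 1 + D') * Ch + m * D' * Cg + m * (N + 1 + D') * Mg - (N + 1) * (m * Mg - Mh))
    fun i _ => ?_).trans (by linarith)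
  rw [g4 i]
  have hi : (i : ℕ) ≤ D' := by have := i.2; omega
  have hi' : ((i : ℕ) : ℝ) ≤ D' := by exact_mod_cast hi
  push_cast [Nat.cast_sub hi]
  have hi0 : (0 : ℝ) ≤ (i : ℕ) := Nat.cast_nonneg _
  have hN0 : (0 : ℝ) ≤ N := Nat.cast_nonneg _
  have hm0 : (0 : ℝ) ≤ m := Nat.cast_nonneg _
  have i1 : ((N : ℝ) + 1 + (i : ℕ)) * D.lg (φ h) ω ≤ (N + 1 + (i : ℕ)) * (Ch + Mh) :=
    mul_le_mul_of_nonneg_left g1 (by positivity)
  have i2 : (m : ℝ) * (D' - (i : ℕ)) * D.lg (φ g) ω ≤ m * (D' - (i : ℕ)) * (Cg + Mg) :=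
    mul_le_mul_of_nonneg_left g2 (mul_nonneg hm0 (by linarith))
  have i3 : ((N : ℝ) + 1 + (i : ℕ)) * Ch ≤ (N + 1 + D') * Ch :=
    mul_le_mul_of_nonneg_right (by linarith) hCh0
  have i4 : (m : ℝ) * (D' - (i : ℕ)) * Cg ≤ m * D' * Cg :=
    mul_le_mul_of_nonneg_right (mul_le_mul_of_nonneg_left (by linarith) hm0) hCg0
  have i5 : 0 ≤ ((i : ℕ) : ℝ) * (m * Mg - Mh) := mul_nonneg hi0 hgap
  nlinarith

theorem core_step (hr : 1 ≤ r) (u : Fin r → Rˣ)
    (hu : AlgebraicIndependent k (fun i => (u i : R))) {m : ℕ} (hm : 2 ≤ m) (ζ : k)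
    (hζ : IsPrimitiveRoot ζ m) (g h : MvPolynomial (Fin r) k) (hg : g ≠ 0) (hh : h ≠ 0) (w : R)
    (hw : w ^ m = aeval (fun i => (u i : R)) (g ^ m + h))
    (hirr : ∀ p q : MvPolynomial (Fin r) k,
      aeval (fun i => (u i : R)) p * w = aeval (fun i => (u i : R)) q → p = 0) :
    ∃ C : ℝ, 0 ≤ C ∧ ∀ N : ℕ, 1 ≤ N → D.Neg (fun ω =>
      max (m * mx g.support (lgv D u ω) - mx h.support (lgv D u ω)) 0 -
        m * C / (N + 1) * D.one ω) := by
  classical
  set φ : MvPolynomial (Fin r) k →ₐ[k] R := aeval (fun i => (u i : R)) with hφ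
  have hinj : Function.Injective φ := hu
  have hφg : φ g ≠ 0 := fun h0 => hg (hinj (by rw [h0, map_zero]))
  have hφh : φ h ≠ 0 := fun h0 => hh (hinj (by rw [h0, map_zero]))
  have hw0 : w ≠ 0 := by
    intro h0
    have h1 := hirr 1 0 (by rw [h0, mul_zero, map_zero])
    exact one_ne_zero h1
  have hmR : (0 : ℝ) < m := by exact_mod_cast (by omega : 0 < m)
  have hφF : φ (g ^ m + h) ≠ 0 := by rw [← hw]; exact pow_ne_zero _ hw0
  obtain ⟨CF, hCF0, hCF⟩ := poly_mx D u (g ^ m + h) hφF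
  obtain ⟨Cg, hCg0, hCg⟩ := poly_mx D u g hφg
  obtain ⟨C1, hC1, hΛ⟩ := size_bdd D u
  set cF : ℝ := ∑ b ∈ (g ^ m + h).support, ∑ i, (b i : ℝ) with hcF
  set cg : ℝ := ∑ b ∈ g.support, ∑ i, (b i : ℝ) with hcg
  have hcF0 : 0 ≤ cF := Finset.sum_nonneg fun _ _ => Finset.sum_nonneg fun _ _ => Nat.cast_nonneg _
  have hcg0 : 0 ≤ cg := Finset.sum_nonneg fun _ _ => Finset.sum_nonneg fun _ _ => Nat.cast_nonneg _
  set ρ : ℝ := (((2 * r) ^ r : ℕ) : ℝ) with hρ
  have hρ0 : 0 ≤ ρ := Nat.cast_nonneg _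
  set K : ℝ := cg + ρ * cF with hK
  have hK0 : 0 ≤ K := add_nonneg hcg0 (mul_nonneg hρ0 hcF0)
  refine ⟨K * C1, mul_nonneg hK0 hC1, fun N hN => ?_⟩
  -- Taylor polynomials
  obtain ⟨P, S, hP, -, hPS⟩ := exists_root_poly (k := k) m (by omega) N
  set D' : ℕ := m * N - (N + 1) with hD'
  have hmN : N + 1 ≤ m * N := by nlinarith
  set γ : MvPolynomial (Fin r) k := g ^ (m * N - 1) with hγ
  set Q : MvPolynomial (Fin r) k := hz N P h (g ^ m) with hQ
  set Z : MvPolynomial (Fin r) k := h ^ (N + 1) * hz D' S h (g ^ m) with hZ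
  have hγ0 : γ ≠ 0 := pow_ne_zero _ hg
  have hid : (g ^ m) ^ (m * N - 1) * (g ^ m + h) = Q ^ m + Z :=
    root_identity hm hN P S hP hPS h (g ^ m) (pow_ne_zero _ hg)
  -- the roots of unity
  have hζR : IsPrimitiveRoot (algebraMap k R ζ) m :=
    hζ.map_of_injective (algebraMap k R).injective
  let κ2 : Type := {x : R // x ∈ Polynomial.nthRootsFinset m (1 : R)}
  have hκ2 : ∀ x : κ2, ∃ c : k, algebraMap k R c = x.1 := by
    intro x
    have h1 : x.1 ^ m = 1 := (Polynomial.mem_nthRootsFinset (by omega) _).1 x.2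
    have : NeZero m := ⟨by omega⟩
    obtain ⟨i, -, hi⟩ := hζR.eq_pow_of_pow_eq_one h1
    exact ⟨ζ ^ i, by rw [map_pow, hi]⟩
  choose ξ hξ using hκ2
  let E : κ2 → R := fun x => φ γ * w - x.1 * φ Q
  have hE0 : ∀ x, E x ≠ 0 := by
    intro x h0
    have h1 : φ γ * w = φ (C (ξ x) * Q) := by
      rw [map_mul, ← MvPolynomial.algebraMap_eq, AlgHom.commutes, hξ]
      exact sub_eq_zero.1 h0
    exact hγ0 (hirr _ _ h1)
  have hprod : ∏ x : κ2, E x = φ Z := by
    have h1 := hζR.pow_sub_pow_eq_prod_sub_mul (φ γ * w) (φ Q) (by omega)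
    have h2 : ∏ x : κ2, E x = ∏ x ∈ Polynomial.nthRootsFinset m (1 : R), (φ γ * w - x * φ Q) :=
      Finset.prod_coe_sort (Polynomial.nthRootsFinset m (1 : R)) (fun x => φ γ * w - x * φ Q)
    rw [h2, ← h1]
    have h3 : φ ((g ^ m) ^ (m * N - 1)) * φ (g ^ m + h) = φ Q ^ m + φ Z := by
      rw [← map_mul, hid, map_add, map_pow]
    rw [← hw] at h3
    have h4 : φ ((g ^ m) ^ (m * N - 1)) = φ γ ^ m := by
      rw [hγ, ← map_pow, ← pow_mul, ← pow_mul, mul_comm m]
    rw [h4] at h3
    rw [mul_pow, h3]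
    ring
  have hφZ : φ Z ≠ 0 := by
    rw [← hprod]
    exact Finset.prod_ne_zero_iff.2 fun x _ => hE0 x
  obtain ⟨CZ, hCZ⟩ := err_le D u g h hφg hφh m N D' S hφZ
  have hcardκ : (Finset.univ : Finset κ2).card = m := by
    rw [Finset.card_univ, Fintype.card_coe]
    exact hζR.card_nthRootsFinset
  have hκne : (Finset.univ : Finset κ2).Nonempty := by
    rw [← Finset.card_pos, hcardκ]
    omega
  -- the spaces of polynomials
  set e : ℕ := (m * N - 1) * g.totalDegree with he
  set L : ℕ := e + e with hL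
  set L' : ℕ := L + Q.totalDegree with hL'
  have hγd : γ.totalDegree ≤ e := totalDegree_pow _ _
  set Ψ : ((Sx r L) → k) × ((Sx r L') → k) →ₗ[k] R := psi φ w L L' with hΨ
  have hΨap : ∀ x : ((Sx r L) → k) × ((Sx r L') → k),
      Ψ x = φ (toPol k r L x.1) * w + φ (toPol k r L' x.2) := fun x => psi_apply φ w L L' x
  have htpinj : ∀ {M : ℕ} (f : (Sx r M) → k), toPol k r M f = 0 → f = 0 := by
    intro M f hf
    rw [← coef_toPol f, hf, map_zero]
  have hΨinj : Function.Injective Ψ := by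
    rw [injective_iff_map_eq_zero]
    intro x hx
    rw [hΨap] at hx
    have h1 : toPol k r L x.1 = 0 := by
      refine hirr _ (-toPol k r L' x.2) ?_
      rw [map_neg]
      exact eq_neg_of_add_eq_zero_left hx
    have h2 : toPol k r L' x.2 = 0 := by
      apply hinj
      rw [h1, map_zero, zero_mul, zero_add] at hx
      rw [hx, map_zero]
    exact Prod.ext (htpinj _ h1) (htpinj _ h2)
  let Wg : Submodule k ((Sx r L) → k) :=
    { carrier := {f | γ ∣ toPol k r L f}
      add_mem' := by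
        intro a b ha hb
        show γ ∣ _
        rw [map_add]
        exact dvd_add ha hb
      zero_mem' := by
        show γ ∣ _
        rw [map_zero]
        exact dvd_zero _
      smul_mem' := by
        intro c x hx
        show γ ∣ _
        rw [map_smul, MvPolynomial.smul_eq_C_mul]
        exact Dvd.dvd.mul_left hx _ }
  set n : ℕ := finrank k Wg with hn
  have hnlow : (Sx r e).card ≤ n := by
    let Θ : ((Sx r e) → k) →ₗ[k] Wg :=
      { toFun := fun f => ⟨coef k r L (γ * toPol k r e f), by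
          show γ ∣ _
          rw [toPol_coef]
          · exact Dvd.intro _ rfl
          · refine (totalDegree_mul _ _).trans ?_
            have := toPol_deg f
            omega⟩
        map_add' := fun x y => Subtype.ext (by
          show coef k r L (γ * toPol k r e (x + y)) = _
          rw [map_add, mul_add, map_add]
          rfl)
        map_smul' := fun c x => Subtype.ext (by
          show coef k r L (γ * toPol k r e (c • x)) = _
          rw [map_smul, mul_smul_comm, map_smul]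
          rfl) }
    have hΘ : Function.Injective Θ := by
      rw [injective_iff_map_eq_zero]
      intro f hf
      have h1 : coef k r L (γ * toPol k r e f) = 0 := congrArg Subtype.val hf
      have h2 : γ * toPol k r e f = 0 := by
        rw [← toPol_coef (γ * toPol k r e f) (n := L), h1, map_zero]
        refine (totalDegree_mul _ _).trans ?_
        have := toPol_deg f
        omega
      exact htpinj _ ((mul_eq_zero.1 h2).resolve_left hγ0)
    have h1 := LinearMap.finrank_le_finrank_of_injective hΘ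
    rwa [Module.finrank_fintype_fun_eq_card, Fintype.card_coe] at h1
  have hnpos : 0 < n := by
    refine lt_of_lt_of_le (Finset.card_pos.2 ⟨0, ?_⟩) hnlow
    rw [mem_Sx]
    simp
  have hcardL : ((Sx r L).card : ℝ) ≤ ρ * n := by
    have h1 := Sx_double r e hr
    have h2 : (Sx r L).card ≤ (2 * r) ^ r * n := h1.trans (Nat.mul_le_mul_left _ hnlow)
    rw [hρ]
    exact_mod_cast h2
  -- echelon bases
  let κ1 : Type := (Sx r L) ≃ Fin (Fintype.card (Sx r L))
  have hech := fun o : κ1 => ech2 (k := k) (fun b => (o b : ℕ))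
    (fun a b h => o.injective (Fin.ext h)) Wg
  choose T f hTcard hTW hTs hfd hftri using hech
  have hfW : ∀ o, ∀ a ∈ T o, γ ∣ toPol k r L (f o a) := fun o a ha => hTW o a ha
  let p' : ∀ (o : κ1) (a : Sx r L), MvPolynomial (Fin r) k := fun o a =>
    if h : a ∈ T o then (hfW o a h).choose else 0
  have hp' : ∀ o, ∀ a ∈ T o, toPol k r L (f o a) = γ * p' o a := by
    intro o a ha
    simp only [p']
    rw [dif_pos ha]
    exact (hfW o a ha).choose_spec
  have hfli : ∀ o, LinearIndependent k (f o) := fun o =>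
    tri_li (fun b => (o b : ℕ)) (fun a b h => o.injective (Fin.ext h)) (f o) (hfd o) (hftri o)
  have hf0 : ∀ o a, toPol k r L (f o a) ≠ 0 := fun o a h0 =>
    (hfli o).ne_zero a (htpinj _ h0)
  have hp'0 : ∀ o, ∀ a ∈ T o, p' o a ≠ 0 := by
    intro o a ha h0
    apply hf0 o a
    rw [hp' o a ha, h0, mul_zero]
  have hp'd : ∀ o, ∀ a ∈ T o, (p' o a).totalDegree ≤ L := by
    intro o a ha
    have h1 := toPol_deg (f o a)
    rw [hp' o a ha, totalDegree_mul_of_isDomain hγ0 (hp'0 o a ha)] at h1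
    omega
  -- the bases
  let κ : Type := Option (κ1 × κ2)
  have hsgli : ∀ M : ℕ, LinearIndependent k (fun a : Sx r M => (Pi.single a 1 : (Sx r M) → k)) :=
    fun M => Pi.linearIndependent_single_one (Sx r M) k
  let cc : κ1 × κ2 → (Sx r L) → ((Sx r L') → k) := fun ox a =>
    if a ∈ T ox.1 then coef k r L' (-(C (ξ ox.2) * p' ox.1 a * Q)) else 0
  let v : κ → ((Sx r L) ⊕ (Sx r L')) → ((Sx r L) → k) × ((Sx r L') → k) := fun c =>
    match c with
    | none => Sum.elim (fun a => (Pi.single a 1, 0)) (fun b => (0, Pi.single b 1))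
    | some ox => Sum.elim (fun a => (f ox.1 a, cc ox a)) (fun b => (0, Pi.single b 1))
  have hv : ∀ c, LinearIndependent k (v c) := by
    intro c
    match c with
    | none => exact li_block _ (hsgli L) _ _ (hsgli L')
    | some ox => exact li_block _ (hfli ox.1) _ _ (hsgli L')
  have hI : Fintype.card ((Sx r L) ⊕ (Sx r L')) =
      finrank k (((Sx r L) → k) × ((Sx r L') → k)) := by
    rw [Fintype.card_sum, Module.finrank_prod, Module.finrank_fintype_fun_eq_card,
      Module.finrank_fintype_fun_eq_card]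
  -- monomials
  have htps : ∀ {M : ℕ} (a : Sx r M), φ (toPol k r M (Pi.single a 1)) = (mon u a.1 : Rˣ) := by
    intro M a
    rw [hφ, aeval_toPol, Finset.sum_eq_single a]
    · rw [Pi.single_eq_same, map_one, one_mul]
    · intro b _ hb
      rw [Pi.single_eq_of_ne hb, map_zero, zero_mul]
    · intro h
      exact absurd (Finset.mem_univ _) h
  -- selections
  let gap : D.Ω → ℝ := fun ω => m * mx g.support (lgv D u ω) - mx h.support (lgv D u ω)
  choose so hso using fun ω : D.Ω => exists_order (fun b : Sx r L => D.lg (mon u b.1 : Rˣ) ω)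
  choose sx hsx hsx2 using fun ω : D.Ω =>
    Finset.exists_min_image (Finset.univ : Finset κ2) (fun x => D.lg (E x) ω) hκne
  let s : D.Ω → κ := fun ω => if 0 < gap ω then some (so ω, sx ω) else none
  have hsmt := smt_basis D hI Ψ hΨinj v hv s
  -- upper bounds
  have hub : ∀ (o : κ1) a, ∃ C : ℝ, ∀ᶠ ω in D.ev, ∀ v : ℝ,
      (∀ b, f o a b ≠ 0 → D.lg (mon u b.1 : Rˣ) ω ≤ v) →
      D.lg (φ (toPol k r L (f o a))) ω ≤ C + v := by
    intro o a
    obtain ⟨C, hC⟩ := D.lg_sum_le (f o a) (fun b : Sx r L => ((mon u b.1 : Rˣ) : R))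
      (fun b => Units.ne_zero _) (by
        intro h1
        apply hf0 o a
        apply hinj
        rw [map_zero, hφ, aeval_toPol]
        exact h1)
    refine ⟨C, ?_⟩
    filter_upwards [hC] with ω h v hv
    rw [hφ, aeval_toPol]
    exact h v hv
  choose Cf hCf using hub
  set C2 : ℝ := ∑ o : κ1, ∑ a, |Cf o a| with hC2
  have hC2le : ∀ o a, Cf o a ≤ C2 := by
    intro o a
    refine (le_abs_self _).trans ?_
    refine (Finset.single_le_sum (f := fun a => |Cf o a|) (fun a _ => abs_nonneg _)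
      (Finset.mem_univ a)).trans ?_
    exact Finset.single_le_sum (f := fun o : κ1 => ∑ a, |Cf o a|)
      (fun o _ => Finset.sum_nonneg fun a _ => abs_nonneg _) (Finset.mem_univ o)
  set C3 : ℝ := |C2| + |CZ| with hC3
  have hC30 : 0 ≤ C3 := add_nonneg (abs_nonneg _) (abs_nonneg _)
  have hNpos : (0 : ℝ) < (N : ℝ) + 1 := Nat.cast_add_one_pos N
  have hCZm : CZ ≤ m * |CZ| := by
    have h7 : (1 : ℝ) ≤ m := by exact_mod_cast (by omega : 1 ≤ m)
    exact (le_abs_self CZ).trans (le_mul_of_one_le_left (abs_nonneg _) h7)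
  have hm1 : (1 : ℝ) ≤ m := by exact_mod_cast (by omega : 1 ≤ m)
  have hnR : (0 : ℝ) < n := by exact_mod_cast hnpos
  have hLn : (n : ℝ) ≤ (Sx r L).card := by
    have h1 := Submodule.finrank_le Wg
    rw [Module.finrank_fintype_fun_eq_card, Fintype.card_coe] at h1
    exact_mod_cast h1
  have hN1 : (0 : ℝ) ≤ ((m * N - 1 : ℕ) : ℝ) := Nat.cast_nonneg _
  have hN1' : ((m * N - 1 : ℕ) : ℝ) = m * N - 1 := by
    rw [Nat.cast_sub (by omega)]
    push_cast
    ring
  have hmain : ∀ᶠ ω in D.ev, ∑ i, D.lg (Ψ (v (s ω) i)) ω ≤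
      ∑ a : Sx r L, D.lg (mon u a.1 : Rˣ) ω + ∑ b : Sx r L', D.lg (mon u b.1 : Rˣ) ω +
      n * (C3 + |mx g.support (lgv D u ω)|) +
      n * (((m * N - 1 : ℕ) : ℝ) * (mx g.support (lgv D u ω) - D.lg (φ g) ω + Cg)) +
      (Sx r L).card * max (D.lg w ω) 0 - n * ((N + 1) / m) * max (gap ω) 0 := by
    have g1 : ∀ᶠ ω in D.ev, ∀ (o : κ1) a, ∀ v : ℝ,
        (∀ b, f o a b ≠ 0 → D.lg (mon u b.1 : Rˣ) ω ≤ v) →
        D.lg (φ (toPol k r L (f o a))) ω ≤ Cf o a + v :=
      (Filter.eventually_all).2 fun o => (Filter.eventually_all).2 fun a => hCf o a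
    have g2 : ∀ᶠ ω in D.ev, ∀ (o : κ1) (a : Sx r L), a ∈ T o →
        D.lg (φ (toPol k r L (f o a))) ω = D.lg (φ γ) ω + D.lg (φ (p' o a)) ω := by
      refine (Filter.eventually_all).2 fun o => (Filter.eventually_all).2 fun a => ?_
      by_cases ha : a ∈ T o
      · have h1 : φ γ ≠ 0 := fun h0 => hγ0 (hinj (by rw [h0, map_zero]))
        have h2 : φ (p' o a) ≠ 0 := fun h0 => hp'0 o a ha (hinj (by rw [h0, map_zero]))
        filter_upwards [D.lg_mul _ _ h1 h2] with ω h3 _
        rw [hp' o a ha, map_mul, h3]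
      · exact Filter.Eventually.of_forall fun ω h => absurd h ha
    have g3 : ∀ᶠ ω in D.ev, ∀ (o : κ1) (a : Sx r L) (x : κ2), a ∈ T o →
        D.lg (φ (p' o a) * E x) ω = D.lg (φ (p' o a)) ω + D.lg (E x) ω := by
      refine (Filter.eventually_all).2 fun o => (Filter.eventually_all).2 fun a =>
        (Filter.eventually_all).2 fun x => ?_
      by_cases ha : a ∈ T o
      · have h2 : φ (p' o a) ≠ 0 := fun h0 => hp'0 o a ha (hinj (by rw [h0, map_zero]))
        filter_upwards [D.lg_mul _ _ h2 (hE0 x)] with ω h3 _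
        exact h3
      · exact Filter.Eventually.of_forall fun ω h => absurd h ha
    have g4 : ∀ᶠ ω in D.ev, ∀ a : Sx r L, D.lg ((mon u a.1 : Rˣ) * w) ω =
        D.lg (mon u a.1 : Rˣ) ω + D.lg w ω :=
      (Filter.eventually_all).2 fun a => D.lg_mul _ _ (Units.ne_zero _) hw0
    have g5 : ∀ᶠ ω in D.ev, D.lg (φ Z) ω = ∑ x : κ2, D.lg (E x) ω := by
      rw [← hprod]
      exact D.lg_prod _ _ fun x _ => hE0 x
    have g6 : ∀ᶠ ω in D.ev, D.lg (φ γ) ω = ((m * N - 1 : ℕ) : ℝ) * D.lg (φ g) ω := by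
      rw [hγ, map_pow]
      exact D.lg_pow _ _
    filter_upwards [g1, g2, g3, g4, g5, g6, hCZ, hCg] with ω k1 k2 k3 k4 k5 k6 k7 k8
    set Mg := mx g.support (lgv D u ω) with hMg
    have hV : 0 ≤ Mg - D.lg (φ g) ω + Cg := by linarith
    have hinr : ∀ c b, D.lg (Ψ (v c (Sum.inr b))) ω = D.lg (mon u b.1 : Rˣ) ω := by
      intro c b
      have h1 : v c (Sum.inr b) = (0, Pi.single b 1) := by
        match c with
        | none => rfl
        | some ox => rfl
      rw [h1, hΨap]
      simp only [map_zero, zero_mul, zero_add]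
      rw [htps]
    rw [Fintype.sum_sum_type]
    simp only [hinr]
    have hsg : ∀ a : Sx r L, D.lg (Ψ ((Pi.single a 1 : (Sx r L) → k), (0 : (Sx r L') → k))) ω =
        D.lg (mon u a.1 : Rˣ) ω + D.lg w ω := by
      intro a
      rw [hΨap]
      simp only [map_zero, add_zero]
      rw [htps, k4]
    have hwmax : D.lg w ω ≤ max (D.lg w ω) 0 := le_max_left _ _
    have hwmax0 : 0 ≤ max (D.lg w ω) 0 := le_max_right _ _
    have hb1 : 0 ≤ (n : ℝ) * (C3 + |Mg|) := mul_nonneg hnR.le (add_nonneg hC30 (abs_nonneg _))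
    have hb2 : 0 ≤ (n : ℝ) * (((m * N - 1 : ℕ) : ℝ) * (Mg - D.lg (φ g) ω + Cg)) :=
      mul_nonneg hnR.le (mul_nonneg hN1 hV)
    by_cases hgap : 0 < gap ω
    · have hs1 : s ω = some (so ω, sx ω) := if_pos hgap
      rw [hs1]
      set o := so ω with ho
      set x := sx ω with hx
      -- the good elements
      have hEx : D.lg (E x) ω ≤ |CZ| + m * N * Mg - (N + 1) / m * gap ω := by
        have h1 : (m : ℝ) * D.lg (E x) ω ≤ ∑ x : κ2, D.lg (E x) ω := by
          have h2 := Finset.card_nsmul_le_sum (Finset.univ : Finset κ2) (fun y => D.lg (E y) ω)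
            (D.lg (E x) ω) (fun y hy => hsx2 ω y hy)
          rw [hcardκ, nsmul_eq_mul] at h2
          exact h2
        have h2 := k7 hgap.le
        rw [k5] at h2
        have h3 : (m : ℝ) * D.lg (E x) ω ≤ m * (|CZ| + m * N * Mg - (N + 1) / m * gap ω) := by
          have h4 : (m : ℝ) * (|CZ| + m * N * Mg - (N + 1) / m * gap ω) =
              m * |CZ| + m * (m * N) * Mg - (N + 1) * gap ω := by
            have h4a : (m : ℝ) * ((N + 1) / m * gap ω) = (N + 1) * gap ω := by
              rw [← mul_assoc, mul_div_cancel₀ _ hmR.ne']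
            rw [mul_sub, mul_add, h4a]
            ring
          have h5 : (m : ℝ) * (N + 1 + D') = m * (m * N) := by
            rw [hD', Nat.cast_sub hmN]
            push_cast
            ring
          rw [h5] at h2
          have h8 : (N + 1 : ℝ) * (m * Mg - mx h.support (lgv D u ω)) = (N + 1) * gap ω := rfl
          linarith
        exact le_of_mul_le_mul_left h3 hmR
      have hinl : ∀ a : Sx r L, D.lg (Ψ (v (some (o, x)) (Sum.inl a))) ω ≤
          D.lg (mon u a.1 : Rˣ) ω + (if a ∈ T o then (C3 + |Mg| +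
            ((m * N - 1 : ℕ) : ℝ) * (Mg - D.lg (φ g) ω + Cg) - (N + 1) / m * gap ω) else
            max (D.lg w ω) 0) := by
        intro a
        by_cases ha : a ∈ T o
        · rw [if_pos ha]
          have h1 : Ψ (v (some (o, x)) (Sum.inl a)) = φ (p' o a) * E x := by
            have h2 : v (some (o, x)) (Sum.inl a) =
                (f o a, coef k r L' (-(C (ξ x) * p' o a * Q))) := by
              show (f o a, cc (o, x) a) = _
              simp only [cc]
              rw [if_pos ha]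
            rw [h2, hΨap]
            simp only
            rw [toPol_coef, hp' o a ha, map_neg, map_mul, map_mul, map_mul,
              ← MvPolynomial.algebraMap_eq, AlgHom.commutes, hξ]
            · simp only [E]
              ring
            · rw [totalDegree_neg]
              refine (totalDegree_mul _ _).trans ?_
              have h3 := totalDegree_mul (C (ξ x)) (p' o a)
              rw [totalDegree_C] at h3
              have h4 := hp'd o a ha
              omega
          rw [h1, k3 o a x ha]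
          have h3 := k2 o a ha
          have h4 := k1 o a (D.lg (mon u a.1 : Rˣ) ω) (fun b hb => by
            refine hso ω _ _ ?_
            by_contra hlt
            exact hb (hftri o a b (not_le.1 hlt)))
          have h5 := hC2le o a
          have h6 := le_abs_self C2
          have h7 := le_abs_self Mg
          rw [h3, k6] at h4
          rw [hN1'] at h4 ⊢
          have h8 : 0 ≤ ((m : ℝ) * N - 1) * Cg := by
            rw [← hN1']
            exact mul_nonneg hN1 hCg0
          have h9 : (m : ℝ) * N * Mg - (m * N - 1) * D.lg (φ g) ω =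
              Mg + (m * N - 1) * (Mg - D.lg (φ g) ω) := by ring
          rw [hC3]
          linarith
        · rw [if_neg ha]
          have h2 : v (some (o, x)) (Sum.inl a) =
              ((Pi.single a 1 : (Sx r L) → k), (0 : (Sx r L') → k)) := by
            show (f o a, cc (o, x) a) = _
            simp only [cc]
            rw [if_neg ha, hTs o a ha]
            congr 1
            funext b
            rw [Pi.single_apply]
          rw [h2, hsg]
          linarith
      have hsum := Finset.sum_le_sum fun a (_ : a ∈ (Finset.univ : Finset (Sx r L))) => hinl a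
      rw [Finset.sum_add_distrib] at hsum
      have hsum2 : ∑ a : Sx r L, (if a ∈ T o then (C3 + |Mg| +
            ((m * N - 1 : ℕ) : ℝ) * (Mg - D.lg (φ g) ω + Cg) - (N + 1) / m * gap ω) else
            max (D.lg w ω) 0) = n * (C3 + |Mg| +
            ((m * N - 1 : ℕ) : ℝ) * (Mg - D.lg (φ g) ω + Cg) - (N + 1) / m * gap ω) +
            ((Sx r L).card - n) * max (D.lg w ω) 0 := by
        rw [Finset.sum_ite, Finset.sum_const, Finset.sum_const, nsmul_eq_mul, nsmul_eq_mul]
        have h1 : (Finset.univ.filter fun a => a ∈ T o) = T o := by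
          ext a
          simp
        have h2 : (Finset.univ.filter fun a => a ∉ T o).card = (Sx r L).card - n := by
          have h3 : (Finset.univ.filter fun a => a ∉ T o) = (T o)ᶜ := by
            ext a
            simp
          rw [h3, Finset.card_compl, Fintype.card_coe, hTcard]
        have h4 : n ≤ (Sx r L).card := by exact_mod_cast hLn
        rw [h1, h2, hTcard, Nat.cast_sub h4]
      rw [hsum2] at hsum
      rw [max_eq_left hgap.le]
      have h10 : 0 ≤ (n : ℝ) * max (D.lg w ω) 0 := mul_nonneg hnR.le hwmax0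
      have h11 : (n : ℝ) * (C3 + |Mg| +
            ((m * N - 1 : ℕ) : ℝ) * (Mg - D.lg (φ g) ω + Cg) - (N + 1) / m * gap ω) =
          n * (C3 + |Mg|) + n * (((m * N - 1 : ℕ) : ℝ) * (Mg - D.lg (φ g) ω + Cg)) -
            n * ((N + 1) / m) * gap ω := by ring
      have h12 : (((Sx r L).card : ℝ) - n) * max (D.lg w ω) 0 =
          (Sx r L).card * max (D.lg w ω) 0 - n * max (D.lg w ω) 0 := by ring
      rw [h11, h12] at hsum
      linarith
    · have hs1 : s ω = none := if_neg hgap
      rw [hs1]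
      have hinl : ∀ a : Sx r L, D.lg (Ψ (v none (Sum.inl a))) ω =
          D.lg (mon u a.1 : Rˣ) ω + D.lg w ω := fun a => hsg a
      simp only [hinl]
      rw [Finset.sum_add_distrib, Finset.sum_const, nsmul_eq_mul, max_eq_right (not_lt.1 hgap),
        mul_zero, sub_zero, Finset.card_univ, Fintype.card_coe]
      have h1 : ((Sx r L).card : ℝ) * D.lg w ω ≤ (Sx r L).card * max (D.lg w ω) 0 :=
        mul_le_mul_of_nonneg_left hwmax (Nat.cast_nonneg _)
      linarith
  -- the size of `w`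
  have hwle : ∀ᶠ ω in D.ev, max (D.lg w ω) 0 ≤ CF + cF * ∑ i, |D.lg (u i : R) ω| := by
    filter_upwards [hCF, D.lg_pow w m] with ω h1 h2
    rw [← hw, h2] at h1
    have h3 := mx_abs (g ^ m + h).support (lgv D u ω)
    have h4 := le_abs_self (mx (g ^ m + h).support (lgv D u ω))
    have h5 : 0 ≤ ∑ i, |D.lg (u i : R) ω| := Finset.sum_nonneg fun _ _ => abs_nonneg _
    have h6 : 0 ≤ cF * ∑ i, |D.lg (u i : R) ω| := mul_nonneg hcF0 h5
    have h7 : mx (g ^ m + h).support (lgv D u ω) ≤ cF * ∑ i, |D.lg (u i : R) ω| := h4.trans h3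
    refine max_le ?_ (by linarith)
    have h8 : (m : ℝ) * D.lg w ω ≤ CF + cF * ∑ i, |D.lg (u i : R) ω| := by linarith
    by_cases h9 : D.lg w ω ≤ 0
    · linarith
    · exact (le_mul_of_one_le_left (not_le.1 h9).le hm1).trans h8
  -- assembling
  have hMgneg := mx_neg D u hu g hg
  have hfin : D.Neg (fun ω => (((((-∑ i, D.lg (Ψ (v (s ω) i)) ω) +
      ∑ a : Sx r L, D.lg (mon u a.1 : Rˣ) ω) + ∑ b : Sx r L', D.lg (mon u b.1 : Rˣ) ω) +
      (n * C3 + n * (((m * N - 1 : ℕ) : ℝ) * Cg) + (Sx r L).card * CF)) +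
      (n * ((m * N - 1 : ℕ) : ℝ)) * (mx g.support (lgv D u ω) - D.lg (φ g) ω)) +
      (n * K) * (∑ i, |D.lg (u i : R) ω| - C1 * D.one ω)) := by
    refine D.neg_add _ _ (D.neg_add _ _ (D.neg_add _ _ (D.neg_add _ _ (D.neg_add _ _ hsmt ?_) ?_)
      (D.neg_const _)) (D.neg_smul _ _ (mul_nonneg hnR.le hN1) hMgneg))
      (D.neg_smul _ _ (mul_nonneg hnR.le hK0) hΛ)
    · exact D.neg_sum _ _ fun a _ => D.unit_neg' _
    · exact D.neg_sum _ _ fun a _ => D.unit_neg' _
  have hpos : (0 : ℝ) < n * (N + 1) := mul_pos hnR hNpos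
  have hfin2 := D.neg_smul _ (m / (n * (N + 1))) (div_nonneg hmR.le hpos.le) hfin
  refine D.neg_mono _ _ ?_ hfin2
  filter_upwards [hmain, hwle] with ω k1 k2
  set Mg := mx g.support (lgv D u ω) with hMg
  set sz := ∑ i, |D.lg (u i : R) ω| with hsz
  have hsz0 : 0 ≤ sz := Finset.sum_nonneg fun _ _ => abs_nonneg _
  have h1 : |Mg| ≤ cg * sz := mx_abs g.support (lgv D u ω)
  have h2 : ((Sx r L).card : ℝ) * max (D.lg w ω) 0 ≤ (Sx r L).card * CF + ρ * n * (cF * sz) := by
    have h3 : ((Sx r L).card : ℝ) * max (D.lg w ω) 0 ≤ (Sx r L).card * (CF + cF * sz) :=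
      mul_le_mul_of_nonneg_left k2 (Nat.cast_nonneg _)
    have h4 : ((Sx r L).card : ℝ) * (cF * sz) ≤ ρ * n * (cF * sz) :=
      mul_le_mul_of_nonneg_right hcardL (mul_nonneg hcF0 hsz0)
    linarith
  have h3 : (n : ℝ) * |Mg| ≤ n * (cg * sz) := mul_le_mul_of_nonneg_left h1 hnR.le
  have h4 : (n : ℝ) * ((N + 1) / m) * max (gap ω) 0 - n * K * (C1 * D.one ω) ≤
      (((((-∑ i, D.lg (Ψ (v (s ω) i)) ω) +
      ∑ a : Sx r L, D.lg (mon u a.1 : Rˣ) ω) + ∑ b : Sx r L', D.lg (mon u b.1 : Rˣ) ω) +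
      (n * C3 + n * (((m * N - 1 : ℕ) : ℝ) * Cg) + (Sx r L).card * CF)) +
      (n * ((m * N - 1 : ℕ) : ℝ)) * (mx g.support (lgv D u ω) - D.lg (φ g) ω)) +
      (n * K) * (sz - C1 * D.one ω) := by
    have e1 : (n : ℝ) * K * sz = n * (cg * sz) + ρ * n * (cF * sz) := by rw [hK]; ring
    have e2 : (n : ℝ) * (C3 + |Mg|) = n * C3 + n * |Mg| := by ring
    have e3 : (n : ℝ) * (((m * N - 1 : ℕ) : ℝ) * (Mg - D.lg (φ g) ω + Cg)) =
      n * ((m * N - 1 : ℕ) : ℝ) * (Mg - D.lg (φ g) ω) + n * (((m * N - 1 : ℕ) : ℝ) * Cg) := by ring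
    rw [e2, e3] at k1
    have e4 : (n : ℝ) * K * (sz - C1 * D.one ω) = n * K * sz - n * K * (C1 * D.one ω) := by ring
    rw [e4, e1]
    linarith
  have h5 := mul_le_mul_of_nonneg_left h4 (div_nonneg hmR.le hpos.le)
  refine le_trans (le_of_eq ?_) h5
  have hN10 : (N + 1 : ℝ) ≠ 0 := hNpos.ne'
  show max (gap ω) 0 - m * (K * C1) / (N + 1) * D.one ω = _
  field_simp

end Pool.Agent.H434
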