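import Mathlib
import Pool.Agent.H434.Core

/-!
The half-space criterion: the units are bounded if the dominated directions cover a half-space.
-/

set_option autoImplicit false
set_option linter.unusedSectionVars false

open Finset Filter Module MvPolynomial

namespace Pool.Agent.H434

open Pool.Agent.N754.LT Pool.Agent.Y742.DI

section real

variable {r : ℕ}

theorem lin_cont (b : Fin r →₀ ℕ) : Continuous (lin b) := by
  unfold lin
  fun_prop

theorem mx_cont (s : Finset (Fin r →₀ ℕ)) : Continuous (mx s) := by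
  by_cases hs : s.Nonempty
  · have h1 : mx s = s.sup' hs (fun b => lin b) := by
      funext l
      unfold mx
      rw [dif_pos hs, Finset.sup'_apply]
    rw [h1]
    exact Continuous.finset_sup' hs fun b _ => lin_cont b
  · have h1 : mx s = fun _ => 0 := by
      funext l
      unfold mx
      rw [dif_neg hs]
    rw [h1]
    exact continuous_const

theorem lin_smul (b : Fin r →₀ ℕ) (c : ℝ) (l : Fin r → ℝ) : lin b (c • l) = c * lin b l := by
  unfold lin
  rw [Finset.mul_sum]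
  refine Finset.sum_congr rfl fun i _ => ?_
  rw [Pi.smul_apply, smul_eq_mul]
  ring

theorem mx_smul (s : Finset (Fin r →₀ ℕ)) (c : ℝ) (hc : 0 ≤ c) (l : Fin r → ℝ) :
    mx s (c • l) = c * mx s l := by
  by_cases hs : s.Nonempty
  · apply le_antisymm
    · refine mx_le hs fun b hb => ?_
      rw [lin_smul]
      exact mul_le_mul_of_nonneg_left (le_mx hb l) hc
    · obtain ⟨b, hb, h⟩ := exists_mx hs l
      rw [h, ← lin_smul]
      exact le_mx hb _
  · unfold mx
    rw [dif_neg hs, dif_neg hs, mul_zero]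

/-- a family of positively homogeneous functions, one of which is positive at each point of a
half-space -/
theorem half_space {S : Type} (G : S → (Fin r → ℝ) → ℝ) (hc : ∀ s, Continuous (G s))
    (hh : ∀ s (c : ℝ) (l : Fin r → ℝ), 0 ≤ c → G s (c • l) = c * G s l) (μ : Fin r → ℝ)
    (hT : ∀ l : Fin r → ℝ, l ≠ 0 → 0 ≤ ∑ i, μ i * l i → ∃ s, 0 < G s l) :
    ∃ (t : Finset S) (C δ : ℝ), 0 ≤ C ∧ 0 < δ ∧ ∀ l : Fin r → ℝ,
      δ * ∑ i, |l i| ≤ C * ∑ s ∈ t, max (G s l) 0 - ∑ i, μ i * l i := by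
  classical
  let K : Set (Fin r → ℝ) := {l | ∑ i, |l i| = 1}
  have hKc : IsCompact K := by
    have h1 : IsClosed K := isClosed_eq (by fun_prop) continuous_const
    refine Metric.isCompact_of_isClosed_isBounded h1 ?_
    rw [isBounded_iff_forall_norm_le]
    refine ⟨1, fun l hl => ?_⟩
    rw [pi_norm_le_iff_of_nonneg zero_le_one]
    intro i
    rw [Real.norm_eq_abs]
    have h2 : ∑ i, |l i| = 1 := hl
    rw [← h2]
    exact Finset.single_le_sum (f := fun i => |l i|) (fun _ _ => abs_nonneg _) (Finset.mem_univ i)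
  let M : (Fin r → ℝ) → ℝ := fun l => ∑ i, μ i * l i
  have hMc : Continuous M := by
    show Continuous fun l : Fin r → ℝ => ∑ i, μ i * l i
    fun_prop
  let V : Finset S × ℕ → Set (Fin r → ℝ) := fun tn =>
    {l | 0 < (tn.2 : ℝ) * ∑ s ∈ tn.1, max (G s l) 0 - M l}
  have hVo : ∀ tn, IsOpen (V tn) := by
    intro tn
    refine isOpen_lt continuous_const ?_
    refine Continuous.sub (Continuous.mul continuous_const ?_) hMc
    exact continuous_finset_sum _ fun s _ => (hc s).max continuous_const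
  have hcov : K ⊆ ⋃ tn, V tn := by
    intro l hl
    have hl0 : l ≠ 0 := by
      intro h0
      have h2 : ∑ i, |l i| = 1 := hl
      rw [h0] at h2
      simp at h2
    rw [Set.mem_iUnion]
    by_cases hM : 0 ≤ M l
    · obtain ⟨s, hs⟩ := hT l hl0 hM
      obtain ⟨n, hn⟩ := exists_nat_gt (M l / G s l)
      refine ⟨({s}, n), ?_⟩
      show 0 < (n : ℝ) * ∑ s ∈ {s}, max (G s l) 0 - M l
      rw [Finset.sum_singleton, max_eq_left hs.le]
      rw [div_lt_iff₀ hs] at hn
      linarith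
    · refine ⟨(∅, 0), ?_⟩
      show 0 < ((0 : ℕ) : ℝ) * ∑ s ∈ (∅ : Finset S), max (G s l) 0 - M l
      rw [Nat.cast_zero, zero_mul]
      linarith [not_le.1 hM]
  obtain ⟨T, hT2⟩ := hKc.elim_finite_subcover V hVo hcov
  let t : Finset S := T.biUnion fun tn => tn.1
  let C : ℝ := ∑ tn ∈ T, (tn.2 : ℝ)
  have hC0 : 0 ≤ C := Finset.sum_nonneg fun _ _ => Nat.cast_nonneg _
  let Φ : (Fin r → ℝ) → ℝ := fun l => C * ∑ s ∈ t, max (G s l) 0 - M l
  have hΦc : Continuous Φ := by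
    refine Continuous.sub (Continuous.mul continuous_const ?_) hMc
    exact continuous_finset_sum _ fun s _ => (hc s).max continuous_const
  have hΦpos : ∀ l ∈ K, 0 < Φ l := by
    intro l hl
    have h1 := hT2 hl
    simp only [Set.mem_iUnion] at h1
    obtain ⟨tn, htn, h2⟩ := h1
    have h3 : 0 < (tn.2 : ℝ) * ∑ s ∈ tn.1, max (G s l) 0 - M l := h2
    refine lt_of_lt_of_le h3 ?_
    show _ ≤ C * ∑ s ∈ t, max (G s l) 0 - M l
    have h4 : ∑ s ∈ tn.1, max (G s l) 0 ≤ ∑ s ∈ t, max (G s l) 0 :=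
      Finset.sum_le_sum_of_subset_of_nonneg (Finset.subset_biUnion_of_mem (fun tn => tn.1) htn)
        fun _ _ _ => le_max_right _ _
    have h5 : (tn.2 : ℝ) ≤ C :=
      Finset.single_le_sum (f := fun tn : Finset S × ℕ => (tn.2 : ℝ))
        (fun _ _ => Nat.cast_nonneg _) htn
    have h6 : (tn.2 : ℝ) * ∑ s ∈ tn.1, max (G s l) 0 ≤ C * ∑ s ∈ t, max (G s l) 0 :=
      mul_le_mul h5 h4 (Finset.sum_nonneg fun _ _ => le_max_right _ _) hC0
    linarith
  have hhom : ∀ (c : ℝ) (l : Fin r → ℝ), 0 ≤ c → Φ (c • l) = c * Φ l := by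
    intro c l hc0
    show C * ∑ s ∈ t, max (G s (c • l)) 0 - ∑ i, μ i * (c • l) i = c * (C * ∑ s ∈ t, max (G s l) 0 -
      ∑ i, μ i * l i)
    have h1 : ∑ s ∈ t, max (G s (c • l)) 0 = c * ∑ s ∈ t, max (G s l) 0 := by
      rw [Finset.mul_sum]
      refine Finset.sum_congr rfl fun s _ => ?_
      rw [hh s c l hc0, mul_max_of_nonneg _ _ hc0, mul_zero]
    have h2 : ∑ i, μ i * (c • l) i = c * ∑ i, μ i * l i := by
      rw [Finset.mul_sum]
      refine Finset.sum_congr rfl fun i _ => ?_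
      rw [Pi.smul_apply, smul_eq_mul]
      ring
    rw [h1, h2]
    ring
  obtain ⟨δ, hδ, hδ2⟩ : ∃ δ : ℝ, 0 < δ ∧ ∀ l ∈ K, δ ≤ Φ l := by
    by_cases hK : K.Nonempty
    · obtain ⟨l0, hl0, hmin⟩ := hKc.exists_isMinOn hK hΦc.continuousOn
      exact ⟨Φ l0, hΦpos l0 hl0, fun l hl => hmin hl⟩
    · exact ⟨1, one_pos, fun l hl => absurd ⟨l, hl⟩ hK⟩
  refine ⟨t, C, δ, hC0, hδ, fun l => ?_⟩
  show δ * ∑ i, |l i| ≤ Φ l
  by_cases hl : l = 0
  · have h1 := hhom 0 0 le_rfl
    rw [zero_smul, zero_mul] at h1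
    rw [hl, h1]
    simp
  · have hpos : 0 < ∑ i, |l i| := by
      obtain ⟨i, hi⟩ := Function.ne_iff.1 hl
      exact lt_of_lt_of_le (abs_pos.2 hi) (Finset.single_le_sum (f := fun i => |l i|)
        (fun _ _ => abs_nonneg _) (Finset.mem_univ i))
    set c : ℝ := ∑ i, |l i| with hcdef
    have h1 : l = c • (c⁻¹ • l) := by
      rw [smul_smul, mul_inv_cancel₀ hpos.ne', one_smul]
    have h2 : c⁻¹ • l ∈ K := by
      show ∑ i, |(c⁻¹ • l) i| = 1
      have h3 : ∀ i, |(c⁻¹ • l) i| = c⁻¹ * |l i| := by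
        intro i
        rw [Pi.smul_apply, smul_eq_mul, abs_mul, abs_of_nonneg (inv_nonneg.2 hpos.le)]
      simp only [h3]
      rw [← Finset.mul_sum, ← hcdef, inv_mul_cancel₀ hpos.ne']
    have h3 := hδ2 _ h2
    have h4 := hhom c (c⁻¹ • l) hpos.le
    rw [← h1] at h4
    rw [h4, mul_comm]
    exact mul_le_mul_of_nonneg_left h3 hpos.le

end real

variable {k R : Type} [Field k] [CharZero k] [CommRing R] [IsDomain R] [Algebra k R] (D : Dc k R)
  {r : ℕ}

theorem core (hr : 1 ≤ r) (u : Fin r → Rˣ)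
    (hu : AlgebraicIndependent k (fun i => (u i : R))) {m : ℕ} (hm : 2 ≤ m) (ζ : k)
    (hζ : IsPrimitiveRoot ζ m) (g h : MvPolynomial (Fin r) k) (hg : g ≠ 0) (hh : h ≠ 0) (w : R)
    (hw : w ^ m = aeval (fun i => (u i : R)) (g ^ m + h))
    (hirr : ∀ p q : MvPolynomial (Fin r) k,
      aeval (fun i => (u i : R)) p * w = aeval (fun i => (u i : R)) q → p = 0) :
    D.Neg (fun ω => max (m * mx g.support (lgv D u ω) - mx h.support (lgv D u ω)) 0) := by
  obtain ⟨C, hC, hN⟩ := core_step D hr u hu hm ζ hζ g h hg hh w hw hirr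
  refine D.arch _ fun ε hε => ?_
  obtain ⟨N, hN2⟩ := exists_nat_ge (m * C / ε)
  refine D.neg_mono _ _ ?_ (hN (N + 1) (by omega))
  filter_upwards [D.one_nonneg] with ω h1
  have h2 : m * C / ((N + 1 : ℕ) + 1 : ℝ) ≤ ε := by
    rw [div_le_iff₀ (by positivity)]
    rw [div_le_iff₀ hε] at hN2
    push_cast
    nlinarith
  have h3 := mul_le_mul_of_nonneg_right h2 h1
  linarith

theorem unit_scale (u : Fin r → Rˣ) (μ : Fin r → ℝ) :
    D.Neg (fun ω => ∑ i, μ i * D.lg (u i : R) ω) := by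
  refine D.neg_sum _ _ fun i _ => ?_
  rcases le_total 0 (μ i) with h | h
  · exact D.neg_smul _ _ h (D.unit_neg' (u i))
  · have h1 := D.neg_smul _ (-μ i) (by linarith) (D.unit_neg_inv (u i))
    refine D.neg_mono _ _ (Filter.Eventually.of_forall fun ω => ?_) h1
    exact le_of_eq (by ring)

theorem size_neg (u : Fin r → Rˣ) {S : Type} (G : S → (Fin r → ℝ) → ℝ)
    (hc : ∀ s, Continuous (G s))
    (hh : ∀ s (c : ℝ) (l : Fin r → ℝ), 0 ≤ c → G s (c • l) = c * G s l) (μ : Fin r → ℝ)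
    (hT : ∀ l : Fin r → ℝ, l ≠ 0 → 0 ≤ ∑ i, μ i * l i → ∃ s, 0 < G s l)
    (hneg : ∀ s, D.Neg (fun ω => max (G s (lgv D u ω)) 0)) :
    D.Neg (fun ω => ∑ i, |D.lg (u i : R) ω|) := by
  obtain ⟨t, C, δ, hC, hδ, h1⟩ := half_space G hc hh μ hT
  have h2 : D.Neg (fun ω => ∑ s ∈ t, max (G s (lgv D u ω)) 0) := D.neg_sum _ _ fun s _ => hneg s
  have h3 := D.neg_smul _ δ⁻¹ (inv_nonneg.2 hδ.le) (D.neg_add _ _ (D.neg_smul _ C hC h2)
    (unit_scale D u fun i => -μ i))
  refine D.neg_mono _ _ (Filter.Eventually.of_forall fun ω => ?_) h3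
  have h4 := h1 (lgv D u ω)
  have h5 : ∑ i, |D.lg (u i : R) ω| = ∑ i, |lgv D u ω i| := rfl
  have h6 : ∑ i, -μ i * D.lg (u i : R) ω = -∑ i, μ i * lgv D u ω i := by
    rw [← Finset.sum_neg_distrib]
    refine Finset.sum_congr rfl fun i _ => ?_
    show _ = -(μ i * D.lg (u i : R) ω)
    ring
  rw [h5, h6, ← div_eq_inv_mul, le_div_iff₀ hδ]
  linarith

end Pool.Agent.H434
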