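import Mathlib
import Pool.Agent.H434.Crit

/-!
The main estimate for equations `z ^ m = P(u ^ M)`, and powers in power coordinates.
-/

set_option autoImplicit false
set_option linter.unusedSectionVars false

open Finset Filter MvPolynomial

namespace Pool.Agent.H434

open Pool.Agent.N754.LT Pool.Agent.Y742.DI

section pol

variable {k : Type} [Field k] {r : ℕ}

theorem lin_add (a b : Fin r →₀ ℕ) (l : Fin r → ℝ) : lin (a + b) l = lin a l + lin b l := by
  unfold lin
  rw [← Finset.sum_add_distrib]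
  refine Finset.sum_congr rfl fun i _ => ?_
  rw [Finsupp.add_apply]
  push_cast
  ring

theorem lin_nsmul (M : ℕ) (b : Fin r →₀ ℕ) (l : Fin r → ℝ) : lin (M • b) l = M * lin b l := by
  unfold lin
  rw [Finset.mul_sum]
  refine Finset.sum_congr rfl fun i _ => ?_
  rw [Finsupp.smul_apply, smul_eq_mul]
  push_cast
  ring

theorem mx_expand (M : ℕ) (hM : M ≠ 0) (p : MvPolynomial (Fin r) k) (l : Fin r → ℝ) :
    mx (expand M p).support l = M * mx p.support l := by
  classical
  by_cases hp : p = 0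
  · subst hp
    rw [map_zero, support_zero]
    unfold mx
    simp
  have hp1 : p.support.Nonempty := support_nonempty.2 hp
  have hs := support_expand p hM
  rw [hs]
  have hne : (p.support.image (M • ·)).Nonempty := hp1.image _
  apply le_antisymm
  · refine mx_le hne fun b hb => ?_
    obtain ⟨b', hb', rfl⟩ := Finset.mem_image.1 hb
    rw [lin_nsmul]
    exact mul_le_mul_of_nonneg_left (le_mx hb' l) (Nat.cast_nonneg _)
  · obtain ⟨b, hb, h⟩ := exists_mx hp1 l
    rw [h, ← lin_nsmul]
    exact le_mx (Finset.mem_image.2 ⟨b, hb, rfl⟩) l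

theorem mx_monomial_mul (e : Fin r →₀ ℕ) (p : MvPolynomial (Fin r) k) (hp : p ≠ 0)
    (l : Fin r → ℝ) : mx (monomial e 1 * p).support l = lin e l + mx p.support l := by
  classical
  have hs : (monomial e (1 : k) * p).support = p.support.image (e + ·) := by
    ext b
    rw [mem_support_iff, coeff_monomial_mul', Finset.mem_image]
    constructor
    · intro h
      by_cases hb : e ≤ b
      · rw [if_pos hb, one_mul] at h
        refine ⟨b - e, mem_support_iff.2 h, ?_⟩
        exact add_tsub_cancel_of_le hb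
      · rw [if_neg hb] at h
        exact absurd rfl h
    · rintro ⟨b', hb', rfl⟩
      rw [if_pos le_self_add, add_tsub_cancel_left, one_mul]
      exact mem_support_iff.1 hb'
  have hp1 : p.support.Nonempty := support_nonempty.2 hp
  rw [hs]
  apply le_antisymm
  · refine mx_le (hp1.image _) fun b hb => ?_
    obtain ⟨b', hb', rfl⟩ := Finset.mem_image.1 hb
    rw [lin_add]
    linarith [le_mx hb' l]
  · obtain ⟨b, hb, h⟩ := exists_mx hp1 l
    rw [h, ← lin_add]
    exact le_mx (Finset.mem_image.2 ⟨b, hb, rfl⟩) l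

/-- `P` is a monomial times an `m`-th power -/
def PowForm (m : ℕ) {σ : Type} {k : Type} [CommSemiring k] (P : MvPolynomial σ k) : Prop :=
  ∃ (e : σ →₀ ℕ) (h : MvPolynomial σ k), P = monomial e 1 * h ^ m

/-- the amount by which the form `x ^ e g ^ m` dominates the rest of `P` in the direction `l` -/
noncomputable def gp (m : ℕ) (P g : MvPolynomial (Fin r) k) (e : Fin r →₀ ℕ) (l : Fin r → ℝ) : ℝ :=
  lin e l + m * mx g.support l - mx (P - monomial e 1 * g ^ m).support l

theorem gp_cont (m : ℕ) (P g : MvPolynomial (Fin r) k) (e : Fin r →₀ ℕ) :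
    Continuous (gp m P g e) :=
  ((lin_cont e).add (continuous_const.mul (mx_cont _))).sub (mx_cont _)

theorem gp_smul (m : ℕ) (P g : MvPolynomial (Fin r) k) (e : Fin r →₀ ℕ) (c : ℝ) (l : Fin r → ℝ)
    (hc : 0 ≤ c) : gp m P g e (c • l) = c * gp m P g e l := by
  unfold gp
  rw [lin_smul, mx_smul _ _ hc, mx_smul _ _ hc]
  ring

theorem modEq_of_pow_le {M : ℕ} {ζ : k} (hζ : IsPrimitiveRoot ζ M) (hM : M ≠ 0) {a b : ℕ}
    (hab : a ≤ b) (h : ζ ^ a = ζ ^ b) : a ≡ b [MOD M] := by
  have h0 : ζ ^ a ≠ 0 := pow_ne_zero _ (hζ.ne_zero hM)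
  have h1 : ζ ^ b = ζ ^ a * ζ ^ (b - a) := by
    rw [← pow_add]
    congr 1
    omega
  have h2 : ζ ^ (b - a) = 1 := by
    have h3 : ζ ^ a * ζ ^ (b - a) = ζ ^ a * 1 := by rw [← h1, ← h, mul_one]
    exact mul_left_cancel₀ h0 h3
  exact (Nat.modEq_iff_dvd' hab).2 (hζ.dvd_of_pow_eq_one _ h2)

theorem modEq_of_pow {M : ℕ} {ζ : k} (hζ : IsPrimitiveRoot ζ M) (hM : M ≠ 0) {a b : ℕ}
    (h : ζ ^ a = ζ ^ b) : a ≡ b [MOD M] := by
  rcases le_total a b with hab | hab
  · exact modEq_of_pow_le hζ hM hab h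
  · exact (modEq_of_pow_le hζ hM hab h.symm).symm

/-- if a polynomial in the `M`-th powers of the variables is an `m`-th power, `m ∣ M`, then it is of
the form `PowForm` -/
theorem powForm_of_expand {m M : ℕ} (hm : 1 ≤ m) (hM : 1 ≤ M) (hmM : m ∣ M) {ζ : k}
    (hζ : IsPrimitiveRoot ζ M) (P h0 : MvPolynomial (Fin r) k) (hP : P ≠ 0)
    (h : h0 ^ m = expand M P) : PowForm m P := by
  classical
  have hM0 : M ≠ 0 := by omega
  have hexp0 : expand M P ≠ 0 := (expand_ne_zero (by omega)).2 hP
  have hh0 : h0 ≠ 0 := by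
    intro h1
    rw [h1, zero_pow (by omega)] at h
    exact hexp0 h.symm
  obtain ⟨q, hq⟩ := hmM
  have hζm : IsPrimitiveRoot (ζ ^ q) m := hζ.pow (by omega) (by rw [hq, mul_comm])
  -- exponents are congruent
  have hcong : ∀ i, ∀ b ∈ h0.support, ∀ b' ∈ h0.support, b i ≡ b' i [MOD M] := by
    intro i b hb b' hb'
    let τ : MvPolynomial (Fin r) k →ₐ[k] MvPolynomial (Fin r) k :=
      aeval fun j => if j = i then C ζ * X j else X j
    have hτm : ∀ (s : Fin r →₀ ℕ) (c : k), τ (monomial s c) = monomial s (c * ζ ^ s i) := by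
      intro s c
      simp only [τ]
      rw [aeval_monomial, Finsupp.prod_fintype _ _ (fun _ => pow_zero _),
        MvPolynomial.algebraMap_eq]
      have h1 : ∏ j, (if j = i then C ζ * X j else X j : MvPolynomial (Fin r) k) ^ s j =
          C (ζ ^ s i) * ∏ j, (X j : MvPolynomial (Fin r) k) ^ s j := by
        rw [← Finset.mul_prod_erase _ _ (Finset.mem_univ i), if_pos rfl, mul_pow,
          ← Finset.mul_prod_erase _ (fun j => (X j : MvPolynomial (Fin r) k) ^ s j)
            (Finset.mem_univ i)]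
        rw [Finset.prod_congr rfl fun j hj => by rw [if_neg (Finset.ne_of_mem_erase hj)]]
        rw [C_pow]
        ring
      rw [h1, ← mul_assoc, ← C_mul]
      have h2 : (∏ j, (X j : MvPolynomial (Fin r) k) ^ s j) = monomial s 1 := by
        rw [monomial_eq, C_1, one_mul, Finsupp.prod_fintype _ _ (fun _ => pow_zero _)]
      rw [h2, C_mul_monomial, mul_one]
    have hτc : ∀ (p : MvPolynomial (Fin r) k) (s : Fin r →₀ ℕ),
        coeff s (τ p) = coeff s p * ζ ^ s i := by
      intro p s
      conv_lhs => rw [p.as_sum]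
      rw [map_sum, coeff_sum]
      simp only [hτm]
      by_cases hs : s ∈ p.support
      · rw [Finset.sum_eq_single s]
        · rw [coeff_monomial, if_pos rfl]
        · intro s' _ hs'
          rw [coeff_monomial, if_neg hs']
        · intro h1
          exact absurd hs h1
      · rw [Finset.sum_eq_zero]
        · rw [notMem_support_iff.1 hs, zero_mul]
        · intro s' hs'
          rw [coeff_monomial, if_neg]
          rintro rfl
          exact hs hs'
    have hτe : τ (expand M P) = expand M P := by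
      ext s
      rw [hτc]
      by_cases hs : M ∣ s i
      · obtain ⟨n, hn⟩ := hs
        rw [hn, pow_mul, hζ.pow_eq_one, one_pow, mul_one]
      · rw [coeff_expand_of_not_dvd _ hs, zero_mul]
    have h1 : (τ h0) ^ m = h0 ^ m := by
      rw [← map_pow, h, hτe]
    -- `τ h0 = χ h0`
    have hζM : IsPrimitiveRoot (C (ζ ^ q) : MvPolynomial (Fin r) k) m :=
      hζm.map_of_injective (C_injective (Fin r) k)
    have h2 := hζM.pow_sub_pow_eq_prod_sub_mul (τ h0) h0 (by omega)
    rw [h1, sub_self] at h2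
    obtain ⟨χ, hχ, hχ2⟩ := Finset.prod_eq_zero_iff.1 h2.symm
    have hχ1 : χ ^ m = 1 := (Polynomial.mem_nthRootsFinset (by omega) _).1 hχ
    have : NeZero m := ⟨by omega⟩
    obtain ⟨n, -, hn⟩ := hζM.eq_pow_of_pow_eq_one hχ1
    have h3 : τ h0 = C ((ζ ^ q) ^ n) * h0 := by
      rw [C_pow, hn]
      exact sub_eq_zero.1 hχ2
    have h4 : ∀ s ∈ h0.support, ζ ^ s i = (ζ ^ q) ^ n := by
      intro s hs
      have h5 := congrArg (coeff s) h3
      rw [hτc, coeff_C_mul, mul_comm] at h5
      exact mul_right_cancel₀ (mem_support_iff.1 hs) h5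
    have h6 : ζ ^ b i = ζ ^ b' i := by rw [h4 b hb, h4 b' hb']
    exact modEq_of_pow hζ hM0 h6
  obtain ⟨b0, hb0⟩ := support_nonempty.2 hh0
  let ρ : Fin r →₀ ℕ := Finsupp.equivFunOnFinite.symm fun i => b0 i % M
  have hρ : ∀ b ∈ h0.support, ∀ i, b i % M = ρ i := fun b hb i => hcong i b hb b0 hb0
  -- divide by `X ^ ρ` and take roots of the exponents
  let h' : MvPolynomial (Fin r) k := ∑ b ∈ h0.support,
    monomial (Finsupp.equivFunOnFinite.symm fun i => b i / M) (coeff b h0)
  have hh' : h0 = monomial ρ 1 * expand M h' := by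
    conv_lhs => rw [h0.as_sum]
    simp only [h']
    rw [map_sum, Finset.mul_sum]
    refine Finset.sum_congr rfl fun b hb => ?_
    rw [expand_monomial, monomial_mul, one_mul]
    congr 2
    ext i
    rw [Finsupp.add_apply, Finsupp.smul_apply, smul_eq_mul]
    show b i = ρ i + M * (b i / M)
    rw [← hρ b hb i]
    exact (Nat.mod_add_div _ _).symm
  -- the exponent `m ρ` is divisible by `M`
  have hdiv : ∀ i, M ∣ m * ρ i := by
    intro i
    have h1 : expand M P = monomial (m • ρ) 1 * expand M (h' ^ m) := by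
      rw [← h, hh', mul_pow, monomial_pow, one_pow, map_pow]
    have h2 : expand M (h' ^ m) ≠ 0 := by
      intro h3
      rw [h3, mul_zero] at h1
      exact hexp0 h1
    obtain ⟨s, hs⟩ := support_nonempty.2 h2
    have h3 : m • ρ + s ∈ (expand M P).support := by
      rw [h1, mem_support_iff, coeff_monomial_mul', if_pos le_self_add, add_tsub_cancel_left,
        one_mul]
      exact mem_support_iff.1 hs
    have h4 : M ∣ (m • ρ + s) i := by
      by_contra hcon
      exact (mem_support_iff.1 h3) (coeff_expand_of_not_dvd _ hcon)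
    have h5 : M ∣ s i := by
      by_contra hcon
      exact (mem_support_iff.1 hs) (coeff_expand_of_not_dvd _ hcon)
    rw [Finsupp.add_apply, Finsupp.smul_apply, smul_eq_mul] at h4
    exact (Nat.dvd_add_left h5).1 h4
  choose ε hε using hdiv
  refine ⟨Finsupp.equivFunOnFinite.symm ε, h', ?_⟩
  apply expand_injective (R := k) (σ := Fin r) (show 0 < M by omega)
  rw [← h, map_mul, map_pow, expand_monomial]
  conv_lhs => rw [hh']
  rw [mul_pow, monomial_pow, one_pow]
  congr 2
  congr 1
  ext i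
  rw [Finsupp.smul_apply, Finsupp.smul_apply, smul_eq_mul, smul_eq_mul, hε i]
  rfl

end pol

variable {k R : Type} [Field k] [CharZero k] [CommRing R] [IsDomain R] [Algebra k R]
  {r : ℕ}

/-- a root of a polynomial in powers of independent elements which is a rational function of them
gives the form `PowForm` -/
theorem powForm_of_rat {m M : ℕ} (hm : 1 ≤ m) (hM : 1 ≤ M) (hmM : m ∣ M) {ζ : k}
    (hζ : IsPrimitiveRoot ζ M) (u : Fin r → R) (hu : AlgebraicIndependent k u)
    (P : MvPolynomial (Fin r) k) (hP : P ≠ 0) (z : R) (hz : z ^ m = aeval (fun i => u i ^ M) P)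
    (p q : MvPolynomial (Fin r) k) (hp : p ≠ 0) (hpq : aeval u p * z = aeval u q) :
    PowForm m P := by
  have hinj : Function.Injective (aeval (R := k) u) := hu
  have h1 : aeval (fun i => u i ^ M) P = aeval u (expand M P) := by
    rw [aeval_expand]
    rfl
  have h2 : q ^ m = p ^ m * expand M P := by
    apply hinj
    rw [map_pow, map_mul, map_pow, ← h1, ← hz, ← hpq, mul_pow]
  have h3 : p ∣ q := by
    have h4 : p ^ m ∣ q ^ m := ⟨_, h2⟩
    exact (UniqueFactorizationMonoid.pow_dvd_pow_iff_dvd (by omega : m ≠ 0)).1 h4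
  obtain ⟨h0, rfl⟩ := h3
  refine powForm_of_expand hm hM hmM hζ P h0 hP ?_
  rw [mul_pow] at h2
  exact mul_left_cancel₀ (pow_ne_zero _ hp) h2

theorem core_expand (D : Dc k R) (hr : 1 ≤ r) (u : Fin r → Rˣ)
    (hu : AlgebraicIndependent k (fun i => (u i : R))) {m M : ℕ} (hm : 2 ≤ m) (hM : 1 ≤ M)
    (hmM : m ∣ M) (ζ : k) (hζ : IsPrimitiveRoot ζ M) (P g : MvPolynomial (Fin r) k) (hg : g ≠ 0)
    (e : Fin r →₀ ℕ) (z : R) (hz : z ^ m = aeval (fun i => (u i : R) ^ M) P)
    (hirr : ∀ p q : MvPolynomial (Fin r) k,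
      aeval (fun i => (u i : R)) p * z = aeval (fun i => (u i : R)) q → p = 0) :
    D.Neg (fun ω => max (gp m P g e (lgv D u ω)) 0) := by
  classical
  obtain ⟨q, hq⟩ := hmM
  have hζm : IsPrimitiveRoot (ζ ^ q) m := hζ.pow (by omega) (by rw [hq, mul_comm])
  set H : MvPolynomial (Fin r) k := P - monomial e 1 * g ^ m with hH
  set G' : MvPolynomial (Fin r) k := monomial (q • e) 1 * expand M g with hG'
  have hM0 : M ≠ 0 := by omega
  have hexp0 : expand M g ≠ 0 := (expand_ne_zero (by omega)).2 hg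
  have hG0 : G' ≠ 0 := by
    rw [hG']
    refine mul_ne_zero ?_ hexp0
    rw [Ne, monomial_eq_zero]
    exact one_ne_zero
  have hid : G' ^ m + expand M H = expand M P := by
    rw [hG', hH, map_sub, map_mul, map_pow, expand_monomial, mul_pow, monomial_pow, one_pow]
    have h1 : m • q • e = M • e := by rw [smul_smul, hq]
    rw [h1]
    ring
  have hz2 : z ^ m = aeval (fun i => (u i : R)) (G' ^ m + expand M H) := by
    rw [hid, hz, aeval_expand]
    rfl
  have hH0 : H ≠ 0 := by
    intro h0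
    rw [h0, map_zero, add_zero, map_pow] at hz2
    have hζR : IsPrimitiveRoot (algebraMap k R (ζ ^ q)) m :=
      hζm.map_of_injective (algebraMap k R).injective
    have h2 := hζR.pow_sub_pow_eq_prod_sub_mul z (aeval (fun i => (u i : R)) G') (by omega)
    rw [hz2, sub_self] at h2
    obtain ⟨χ, hχ, hχ2⟩ := Finset.prod_eq_zero_iff.1 h2.symm
    have hχ1 : χ ^ m = 1 := (Polynomial.mem_nthRootsFinset (by omega) _).1 hχ
    have : NeZero m := ⟨by omega⟩
    obtain ⟨n, -, hn⟩ := hζR.eq_pow_of_pow_eq_one hχ1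
    have h3 := hirr 1 (C ((ζ ^ q) ^ n) * G') (by
      rw [map_one, one_mul, map_mul, ← MvPolynomial.algebraMap_eq, AlgHom.commutes, map_pow, hn]
      exact sub_eq_zero.1 hχ2)
    exact one_ne_zero h3
  have hE0 : expand M H ≠ 0 := (expand_ne_zero (by omega)).2 hH0
  have h1 := core D hr u hu hm (ζ ^ q) hζm G' (expand M H) hG0 hE0 z hz2 hirr
  have hMR : (0 : ℝ) < M := by exact_mod_cast (by omega : 0 < M)
  have h2 := D.neg_smul _ (M : ℝ)⁻¹ (inv_nonneg.2 hMR.le) h1
  refine D.neg_mono _ _ (Filter.Eventually.of_forall fun ω => le_of_eq ?_) h2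
  rw [hG', mx_monomial_mul _ _ hexp0, mx_expand M hM0, mx_expand M hM0, lin_nsmul]
  have h3 : (m : ℝ) * (q * lin e (lgv D u ω) + M * mx g.support (lgv D u ω)) -
      M * mx H.support (lgv D u ω) = M * gp m P g e (lgv D u ω) := by
    unfold gp
    have h4 : (M : ℝ) = m * q := by rw [hq]; push_cast; ring
    rw [h4]
    ring
  rw [h3]
  show max (gp m P g e (lgv D u ω)) 0 = (M : ℝ)⁻¹ * max (M * gp m P g e (lgv D u ω)) 0
  rw [← mul_zero (M : ℝ), ← mul_max_of_nonneg _ _ hMR.le, mul_zero, ← mul_assoc,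
    inv_mul_cancel₀ hMR.ne', one_mul]

end Pool.Agent.H434
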