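import Mathlib
import Pool.Agent.H434.Expand
import Pool.Graph.R_pool_sql_team_seeded_63374d34.N754.LT.Cur

/-!
Rings in which the subspace theorem can be applied to finitely many elements, and the consequences of
the main estimate.
-/

set_option autoImplicit false
set_option linter.unusedSectionVars false

open Finset Filter MvPolynomial

namespace Pool.Agent.H434

open Pool.Agent.N754.LT

/-- an instance of the subspace theorem for given units and integral elements -/
structure Inst (k : Type) {B : Type} [Field k] [CommRing B] [IsDomain B] [Algebra k B] {r n : ℕ}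
    (w : Fin r → Bˣ) (y : Fin n → B) where
  R : Type
  cr : CommRing R
  dom : IsDomain R
  alg : Algebra k R
  D : Dc k R
  ψ : R →ₐ[k] B
  hψ : Function.Injective ψ
  wR : Fin r → Rˣ
  hwR : ∀ j, ψ (wR j : R) = w j
  yR : Fin n → R
  hyR : ∀ i, ψ (yR i) = y i
  hone : ∃ C : ℝ, 0 ≤ C ∧ D.Neg (fun ω => D.one ω -
    C * (∑ j, |D.lg (wR j : R) ω| + ∑ i, max (D.lg (yR i) ω) 0))
  hnn : ¬ D.Neg D.one

attribute [instance] Inst.cr Inst.dom Inst.alg

/-- a ring with a group of units and integral elements to which the subspace theorem applies -/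
structure Geo (k B : Type) [Field k] [CommRing B] [IsDomain B] [Algebra k B] where
  W : Subgroup Bˣ
  I : Subring B
  W_I : ∀ u ∈ W, (u : B) ∈ I
  I_W : ∀ u : Bˣ, (u : B) ∈ I → ((u⁻¹ : Bˣ) : B) ∈ I → u ∈ W
  I_const : ∀ c : k, algebraMap k B c ∈ I
  hunit : ∀ (m : ℕ) (g : Fin m → Bˣ), (∀ i, g i ∈ W) →
      (∀ i j, i ≠ j → ∀ c : k, (g i : B) ≠ algebraMap k B c * g j) →
      ∀ c : Fin m → k, ∑ i, algebraMap k B (c i) * g i = 0 → c = 0
  htf : ∀ g ∈ W, ∀ m : ℕ, 0 < m → (∃ c : k, ((g ^ m : Bˣ) : B) = algebraMap k B c) →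
      ∃ c : k, (g : B) = algebraMap k B c
  inst : ∀ (r n : ℕ) (w : Fin r → Bˣ) (y : Fin n → B), 1 ≤ r → (∀ j, w j ∈ W) →
    (∀ j, ∀ c : k, (w j : B) ≠ algebraMap k B c) → (∀ i, y i ∈ I) → Nonempty (Inst k w y)

variable {k B : Type} [Field k] [CharZero k] [CommRing B] [IsDomain B] [Algebra k B]

theorem nonconst_of_algInd {r : ℕ} (w : Fin r → B) (hw : AlgebraicIndependent k w) (j : Fin r)
    (c : k) : w j ≠ algebraMap k B c := by
  intro h
  have hinj : Function.Injective (aeval (R := k) w) := hw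
  have h1 : (X j : MvPolynomial (Fin r) k) = C c := by
    apply hinj
    rw [aeval_X, ← MvPolynomial.algebraMap_eq, AlgHom.commutes, h]
  have h2 := congrArg (coeff (Finsupp.single j 1)) h1
  have h3 : coeff (Finsupp.single j 1) (X j : MvPolynomial (Fin r) k) = 1 := by simp
  have h4 : coeff (Finsupp.single j 1) (C c : MvPolynomial (Fin r) k) = 0 := by
    rw [coeff_C, if_neg]
    intro h5
    have h6 := DFunLike.congr_fun h5 j
    simp at h6
  rw [h3, h4] at h2
  exact one_ne_zero h2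

/-- the half-space condition -/
def HalfSpace {J : Type} {r : ℕ} (m : J → ℕ) (P : J → MvPolynomial (Fin r) k) : Prop :=
  ∃ μ : Fin r → ℝ, ∀ l : Fin r → ℝ, l ≠ 0 → 0 ≤ ∑ i, μ i * l i →
    ∃ (j : J) (e : Fin r →₀ ℕ) (g : MvPolynomial (Fin r) k), g ≠ 0 ∧ 0 < gp (m j) (P j) g e l

/-- roots which are not rational functions of the units contradict the half-space condition -/
theorem ram_false (Γ : Geo k B) {r : ℕ} (hr : 1 ≤ r) (w : Fin r → Bˣ) (hwW : ∀ j, w j ∈ Γ.W)
    (hw : AlgebraicIndependent k (fun j => (w j : B))) {M : ℕ} (hM : 1 ≤ M) (ζ : k)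
    (hζ : IsPrimitiveRoot ζ M) {q : ℕ} (m : Fin q → ℕ) (hm : ∀ j, 2 ≤ m j) (hmM : ∀ j, m j ∣ M)
    (P : Fin q → MvPolynomial (Fin r) k) (z : Fin q → B) (hzI : ∀ j, z j ∈ Γ.I)
    (hz : ∀ j, z j ^ m j = aeval (fun i => (w i : B) ^ M) (P j))
    (hirr : ∀ j, ∀ p q : MvPolynomial (Fin r) k,
      aeval (fun i => (w i : B)) p * z j = aeval (fun i => (w i : B)) q → p = 0)
    (hT : HalfSpace m P) : False := by
  classical
  obtain ⟨In⟩ := Γ.inst r q w z hr hwW (fun j c => nonconst_of_algInd _ hw j c) hzI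
  let D := In.D
  have hψP : ∀ (P : MvPolynomial (Fin r) k), In.ψ (aeval (fun j => (In.wR j : In.R)) P) =
      aeval (fun j => (w j : B)) P := by
    intro P
    have h3 : (In.ψ.comp (aeval fun j => (In.wR j : In.R))) = aeval (fun j => (w j : B)) := by
      ext i
      simp [In.hwR]
    exact DFunLike.congr_fun h3 P
  have hwRAI : AlgebraicIndependent k (fun j => (In.wR j : In.R)) := by
    have h1 : Function.Injective (aeval (R := k) fun j => (w j : B)) := hw
    have h2 : Function.Injective (aeval (R := k) fun j => (In.wR j : In.R)) := fun P Q h =>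
      h1 (by rw [← hψP, ← hψP, h])
    exact h2
  have hexp : ∀ P : MvPolynomial (Fin r) k, aeval (fun i => (In.wR i : In.R) ^ M) P =
      aeval (fun j => (In.wR j : In.R)) (expand M P) := by
    intro P
    rw [aeval_expand]
    rfl
  have hzR : ∀ j, In.yR j ^ m j = aeval (fun i => (In.wR i : In.R) ^ M) (P j) := by
    intro j
    apply In.hψ
    rw [map_pow, In.hyR, hz, hexp, hψP, aeval_expand]
    rfl
  have hirrR : ∀ j, ∀ p q : MvPolynomial (Fin r) k,
      aeval (fun i => (In.wR i : In.R)) p * In.yR j = aeval (fun i => (In.wR i : In.R)) q →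
      p = 0 := by
    intro j p q h
    apply hirr j p q
    rw [← hψP, ← hψP, ← h, map_mul, In.hyR]
  obtain ⟨μ, hμ⟩ := hT
  let S : Type := Fin q × (Fin r →₀ ℕ) × {g : MvPolynomial (Fin r) k // g ≠ 0}
  have h1 : D.Neg (fun ω => ∑ i, |D.lg (In.wR i : In.R) ω|) := by
    refine size_neg D In.wR (S := S) (fun s => gp (m s.1) (P s.1) s.2.2.1 s.2.1)
      (fun s => gp_cont _ _ _ _) (fun s c l hc => gp_smul _ _ _ _ c l hc) μ ?_ ?_
    · intro l hl hl2
      obtain ⟨j, e, g, hg, h⟩ := hμ l hl hl2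
      exact ⟨(j, e, ⟨g, hg⟩), h⟩
    · intro s
      exact core_expand D hr In.wR hwRAI (hm s.1) hM (hmM s.1) ζ hζ (P s.1) s.2.2.1 s.2.2.2 s.2.1
        (In.yR s.1) (hzR s.1) (hirrR s.1)
  -- the roots are bounded by the units
  have h2 : ∀ j, D.Neg (fun ω => max (D.lg (In.yR j) ω) 0) := by
    intro j
    by_cases hP : expand M (P j) = 0
    · have h3 : In.yR j = 0 := by
        have h4 := hzR j
        rw [hexp, hP, map_zero] at h4
        exact pow_eq_zero_iff (by have := hm j; omega) |>.1 h4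
      refine D.neg_mono _ _ ?_ (D.neg_const 0)
      filter_upwards [D.A_zero] with ω h
      unfold Dc.lg
      rw [h3, h, Real.log_zero]
      simp
    · have h4 : aeval (fun i => (In.wR i : In.R)) (expand M (P j)) ≠ 0 := fun h0 =>
        hP (hwRAI (by rw [h0, map_zero]))
      obtain ⟨C, M', hC, hM', h5⟩ := poly_le D In.wR (expand M (P j)) h4
      refine D.neg_mono _ _ ?_ (D.neg_add _ _ (D.neg_const C) (D.neg_smul _ M' hM' h1))
      filter_upwards [h5, D.lg_pow (In.yR j) (m j)] with ω g1 g2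
      have g3 : (m j : ℝ) * D.lg (In.yR j) ω ≤
          C + M' * ∑ i, |D.lg (In.wR i : In.R) ω| := by
        rw [← g2, hzR, hexp]
        exact (le_max_left _ _).trans g1
      have g4 : 0 ≤ C + M' * ∑ i, |D.lg (In.wR i : In.R) ω| := (le_max_right _ _).trans g1
      refine max_le ?_ g4
      have g5 : (1 : ℝ) ≤ m j := by exact_mod_cast (by have := hm j; omega : 1 ≤ m j)
      by_cases g6 : D.lg (In.yR j) ω ≤ 0
      · linarith
      · exact (le_mul_of_one_le_left (not_le.1 g6).le g5).trans g3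
  obtain ⟨C, hC, h5⟩ := In.hone
  apply In.hnn
  refine D.neg_mono _ _ (Filter.Eventually.of_forall fun ω => ?_)
    (D.neg_add _ _ h5 (D.neg_smul _ C hC (D.neg_add _ _ h1 (D.neg_sum Finset.univ _
      fun i _ => h2 i))))
  show D.one ω ≤ _
  linarith

/-- coordinates which are monomials in independent units -/
structure DatU (k : Type) {B : Type} [Field k] [CommRing B] [Algebra k B] {N n : ℕ}
    (U : Fin n → Fin N) (y : Fin N → B) (M : ℕ) (W : Subgroup Bˣ) where
  r : ℕ
  hr : 1 ≤ r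
  w : Fin r → Bˣ
  hwW : ∀ j, w j ∈ W
  hw : AlgebraicIndependent k (fun j => (w j : B))
  a : Fin n → Fin r → ℤ
  c : Fin n → k
  hc : ∀ i, c i ≠ 0
  hU : ∀ i, y (U i) = algebraMap k B (c i) * (∏ j, w j ^ ((M : ℤ) * a i j) : Bˣ)
  hspan : ∀ j, Pi.single j 1 ∈ Submodule.span ℤ (Set.range a)

/-- curves through the specialisations -/
theorem curve_of_dat' (Γ : Geo k B) (ρ : Rp k B) {N n : ℕ} {U : Fin n → Fin N} {y : Fin N → B}
    {M : ℕ} (hM : 1 ≤ M) (d : DatU k U y M Γ.W) (hyI : ∀ i, y i ∈ Γ.I)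
    (p q : Fin N → MvPolynomial (Fin d.r) k) (hpq : ∀ i, IsRelPrime (q i) (p i))
    (hq : ∀ i, q i ≠ 0)
    (hqp : ∀ i, aeval (fun j => (d.w j : B)) (q i) * y i = aeval (fun j => (d.w j : B)) (p i))
    {ι : Type} [Finite ι] (F : ι → MvPolynomial (Fin N) k) (hF : ∀ l, aeval y (F l) = 0) :
    ∀ᶠ t in ρ.G, CurveAt ρ F y t := by
  classical
  obtain ⟨In⟩ := Γ.inst d.r N d.w y d.hr d.hwW (fun j c => nonconst_of_algInd _ d.hw j c) hyI
  let D := In.D
  have hψP : ∀ (P : MvPolynomial (Fin d.r) k), In.ψ (aeval (fun j => (In.wR j : In.R)) P) =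
      aeval (fun j => (d.w j : B)) P := by
    intro P
    have h3 : (In.ψ.comp (aeval fun j => (In.wR j : In.R))) = aeval (fun j => (d.w j : B)) := by
      ext i
      simp [In.hwR]
    exact DFunLike.congr_fun h3 P
  have hwRAI : AlgebraicIndependent k (fun j => (In.wR j : In.R)) := by
    have h1 : Function.Injective (aeval (R := k) fun j => (d.w j : B)) := d.hw
    have h2 : Function.Injective (aeval (R := k) fun j => (In.wR j : In.R)) := fun P Q h =>
      h1 (by rw [← hψP, ← hψP, h])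
    exact h2
  have hqR : ∀ i, aeval (fun j => (In.wR j : In.R)) (q i) * In.yR i =
      aeval (fun j => (In.wR j : In.R)) (p i) := by
    intro i
    apply In.hψ
    rw [map_mul, hψP, hψP, In.hyR, hqp]
  -- low support
  have hlow : ∀ i, ∀ b ∈ (q i).support, ∀ b' ∈ (q i).support,
      (fun j => (b j : ℤ) - b' j) ∈ lowSub D In.wR := by
    intro i b hb b' hb'
    have h1 := quot_neg D In.wR hwRAI (p i) (q i) (hq i) (hpq i) (In.yR i) (hqR i) d.hr
    have h2 := supp_low D In.wR hwRAI (q i) h1 b b' hb hb'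
    rw [mem_lowSub]
    refine D.neg_mono _ _ ?_ h2
    filter_upwards [lg_mon D In.wR (fun j => b j), lg_mon D In.wR (fun j => b' j)] with ω g1 g2
    rw [g1, g2, ← Finset.sum_sub_distrib]
    refine le_of_eq (congrArg _ (Finset.sum_congr rfl fun j _ => ?_))
    push_cast
    ring
  -- a high unit
  have hhigh : ∃ i, d.a i ∉ lowSub D In.wR := by
    by_contra hcon
    push Not at hcon
    have h1 : ∀ j, (Pi.single j 1 : Fin d.r → ℤ) ∈ lowSub D In.wR := by
      intro j
      refine Submodule.span_le.2 ?_ (d.hspan j)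
      rintro _ ⟨i, rfl⟩
      exact hcon i
    have h2 : ∀ j, D.Neg (fun ω => |D.lg (In.wR j : In.R) ω|) := by
      intro j
      refine D.neg_mono _ _ (Filter.Eventually.of_forall fun ω => ?_)
        ((mem_lowSub D In.wR _).1 (h1 j))
      rw [Finset.sum_eq_single j]
      · rw [Pi.single_eq_same]
        simp
      · intro l _ hl
        rw [Pi.single_eq_of_ne hl]
        simp
      · intro h
        exact absurd (Finset.mem_univ _) h
    have h3 : D.Neg (fun ω => ∑ j, |D.lg (In.wR j : In.R) ω|) := D.neg_sum _ _ fun j _ => h2 j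
    have h4 : ∀ i, D.Neg (fun ω => max (D.lg (In.yR i) ω) 0) := by
      intro i
      obtain ⟨M, hM, h5⟩ := quot_le D In.wR hwRAI (p i) (q i) (hq i) (In.yR i) (hqR i)
      refine D.neg_mono _ _ (Filter.Eventually.of_forall fun ω => ?_)
        (D.neg_add _ _ h5 (D.neg_smul _ M hM h3))
      linarith
    obtain ⟨C, hC, h5⟩ := In.hone
    apply In.hnn
    refine D.neg_mono _ _ (Filter.Eventually.of_forall fun ω => ?_)
      (D.neg_add _ _ h5 (D.neg_smul _ C hC (D.neg_add _ _ h3 (D.neg_sum Finset.univ _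
        fun i _ => h4 i))))
    show D.one ω ≤ _
    linarith
  obtain ⟨i0, hai0⟩ := hhigh
  obtain ⟨l, hl, hl0⟩ := exists_functional (lowSub D In.wR) (fun m b => lowSub_sat D In.wR m b)
    (d.a i0) hai0
  have hom : ∀ i, ∀ b ∈ (q i).support, ∀ b' ∈ (q i).support,
      ∑ j, l j * (b j : ℤ) = ∑ j, l j * (b' j : ℤ) := by
    intro i b hb b' hb'
    have h1 := hl _ (hlow i b hb b' hb')
    rw [← sub_eq_zero, ← Finset.sum_sub_distrib, ← h1]
    exact Finset.sum_congr rfl fun j _ => (mul_sub _ _ _).symm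
  -- the eventual conditions
  have e1 : ∀ᶠ t in ρ.G, ∀ j, ρ.rep (d.w j : B) t ≠ 0 :=
    (Filter.eventually_all).2 fun j => ρ.rep_ne _ (Units.ne_zero _)
  have e2 : ∀ᶠ t in ρ.G, ∀ i, eval (fun j => ρ.rep (d.w j : B) t) (q i) ≠ 0 := by
    refine (Filter.eventually_all).2 fun i => ?_
    have h1 : aeval (fun j => (d.w j : B)) (q i) ≠ 0 := by
      intro h
      exact hq i (d.hw (by rw [h, map_zero]))
    filter_upwards [ρ.rep_ne _ h1, ρ.rep_aeval (fun j => (d.w j : B)) (q i)] with t g1 g2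
    rwa [← g2]
  have e3 : ∀ᶠ t in ρ.G, ∀ i, eval (fun j => ρ.rep (d.w j : B) t) (q i) * ρ.rep (y i) t =
      eval (fun j => ρ.rep (d.w j : B) t) (p i) := by
    refine (Filter.eventually_all).2 fun i => ?_
    filter_upwards [ρ.rep_aeval (fun j => (d.w j : B)) (q i),
      ρ.rep_aeval (fun j => (d.w j : B)) (p i),
      ρ.rep_mul (aeval (fun j => (d.w j : B)) (q i)) (y i)] with t g1 g2 g3
    rw [← g1, ← g2, ← g3, hqp]
  -- relation between the polynomials of a unit coordinate
  let A : Fin d.r → ℤ := fun j => (M : ℤ) * d.a i0 j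
  let em : Fin d.r →₀ ℕ := Finsupp.equivFunOnFinite.symm fun j => (-A j).toNat
  let ep : Fin d.r →₀ ℕ := Finsupp.equivFunOnFinite.symm fun j => (A j).toNat
  have hrel : q (U i0) * monomial ep (d.c i0) = p (U i0) * monomial em 1 := by
    apply d.hw
    rw [map_mul, map_mul, aeval_monomial, aeval_monomial,
      Finsupp.prod_fintype _ _ (fun _ => pow_zero _),
      Finsupp.prod_fintype _ _ (fun _ => pow_zero _), map_one, one_mul, ← hqp, d.hU i0]
    have hmonB : ∀ (e : Fin d.r → ℕ), (∏ j, (d.w j : B) ^ e j) =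
        ((∏ j, d.w j ^ e j : Bˣ) : B) := fun e => by
      rw [Units.coe_prod]
      exact Finset.prod_congr rfl fun j _ => (Units.val_pow_eq_pow_val _ _).symm
    rw [hmonB, hmonB]
    have h1 : (∏ j, d.w j ^ em j) * (∏ j, d.w j ^ A j) = ∏ j, d.w j ^ ep j := by
      rw [← Finset.prod_mul_distrib]
      refine Finset.prod_congr rfl fun j _ => ?_
      rw [← zpow_natCast, ← zpow_natCast, ← zpow_add]
      congr 1
      have h2 : em j = (-A j).toNat := rfl
      have h3 : ep j = (A j).toNat := rfl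
      rw [h2, h3]
      omega
    rw [← h1, Units.val_mul]
    ring
  filter_upwards [e1, e2, e3] with t h1 h2 h3
  set w0 : Fin d.r → k := fun j => ρ.rep (d.w j : B) t with hw0
  obtain ⟨v, hv1, hv2, hv3⟩ := curve_of_data l p q hom hq F (fun j => (d.w j : B)) d.hw y
    hqp hF w0 h1 h2
  have hs1 : (fun j => w0 j * (1 : k) ^ l j) = w0 := by
    funext j
    rw [one_zpow, mul_one]
  refine ⟨v, hv1, hv2, ?_, U i0, ?_⟩
  · funext i
    have h4 := hv3 1 one_ne_zero i
    rw [hs1, ← h3 i] at h4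
    exact mul_left_cancel₀ (h2 i) h4
  · intro heq
    have h5 : ∀ s : k, s ≠ 0 → eval (fun j => w0 j * s ^ l j) (q (U i0)) ≠ 0 := by
      intro s hs
      obtain ⟨b, hb⟩ := MvPolynomial.support_nonempty.2 (hq (U i0))
      rw [eval_hom l (q (U i0)) (∑ j, l j * (b j : ℤ)) (fun b' hb' => hom (U i0) b' hb' b hb) w0
        s hs]
      exact mul_ne_zero (zpow_ne_zero _ hs) (h2 (U i0))
    have h6 : ∀ s : k, s ≠ 0 → v s (U i0) * ∏ j, (w0 j * s ^ l j) ^ em j =
        d.c i0 * ∏ j, (w0 j * s ^ l j) ^ ep j := by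
      intro s hs
      have h7 := congrArg (eval (fun j => w0 j * s ^ l j)) hrel
      rw [map_mul, map_mul, eval_monomial, eval_monomial,
        Finsupp.prod_fintype _ _ (fun _ => pow_zero _),
        Finsupp.prod_fintype _ _ (fun _ => pow_zero _), one_mul, ← hv3 s hs (U i0),
        mul_assoc] at h7
      exact (mul_left_cancel₀ (h5 s hs) h7).symm
    have h7 : ∀ s : k, s ≠ 0 → ∀ e : Fin d.r → ℕ, ∏ j, (w0 j * s ^ l j) ^ e j =
        (∏ j, w0 j ^ e j) * s ^ (∑ j, l j * (e j : ℤ)) := by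
      intro s hs e
      simp only [mul_pow]
      rw [Finset.prod_mul_distrib]
      congr 1
      have h8 : ∀ T : Finset (Fin d.r), ∏ j ∈ T, (s ^ l j) ^ e j =
          s ^ (∑ j ∈ T, l j * (e j : ℤ)) := by
        intro T
        induction T using Finset.induction_on with
        | empty => simp
        | insert i T hi ih =>
          rw [Finset.prod_insert hi, Finset.sum_insert hi, zpow_add₀ hs, ih, zpow_mul,
            zpow_natCast]
      exact h8 _
    have h20 : (2 : k) ≠ 0 := two_ne_zero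
    have g1 := h6 1 one_ne_zero
    have g2 := h6 2 h20
    rw [h7 _ h20, h7 _ h20, heq] at g2
    rw [h7 _ one_ne_zero, h7 _ one_ne_zero, one_zpow, one_zpow, mul_one, mul_one] at g1
    have hE : ∑ j, l j * (ep j : ℤ) - ∑ j, l j * (em j : ℤ) = M * ∑ j, l j * d.a i0 j := by
      rw [← Finset.sum_sub_distrib, Finset.mul_sum]
      refine Finset.sum_congr rfl fun j _ => ?_
      have e2 : em j = (-A j).toNat := rfl
      have e3 : ep j = (A j).toNat := rfl
      have e4 : (((A j).toNat : ℤ) - ((-A j).toNat : ℤ)) = A j := by omega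
      rw [← mul_sub, e2, e3, e4]
      show l j * ((M : ℤ) * d.a i0 j) = _
      ring
    have hne : d.c i0 * ∏ j, w0 j ^ ep j ≠ 0 :=
      mul_ne_zero (d.hc i0) (Finset.prod_ne_zero_iff.2 fun j _ => pow_ne_zero _ (h1 j))
    have g3 : (2 : k) ^ (∑ j, l j * (em j : ℤ)) = (2 : k) ^ (∑ j, l j * (ep j : ℤ)) := by
      have g4 : (d.c i0 * ∏ j, w0 j ^ ep j) * (2 : k) ^ (∑ j, l j * (em j : ℤ)) =
          (d.c i0 * ∏ j, w0 j ^ ep j) * (2 : k) ^ (∑ j, l j * (ep j : ℤ)) := by
        rw [← g1]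
        linear_combination g2 - (2 : k) ^ (∑ j, l j * (ep j : ℤ)) * g1
      exact mul_left_cancel₀ hne g4
    have g5 : (2 : k) ^ ((M : ℤ) * ∑ j, l j * d.a i0 j) = 1 := by
      rw [← hE, zpow_sub₀ h20, g3, div_self (zpow_ne_zero _ h20)]
    refine two_zpow_ne _ (mul_ne_zero ?_ hl0) g5
    exact_mod_cast (by omega : M ≠ 0)

end Pool.Agent.H434
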