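import Mathlib
import Pool.Agent.H434.Geo
import Pool.Graph.R_pool_sql_team_seeded_63374d34.N754.LT.Gen

/-!
Roots of polynomials in few units: the alternatives.
-/

set_option autoImplicit false
set_option linter.unusedSectionVars false

open Finset Filter MvPolynomial

namespace Pool.Agent.H434

open Pool.Agent.N754.LT

section subst

variable {k : Type} [Field k] {n r : ℕ}

/-- the exponent of the image of a monomial -/
noncomputable def shiftExp (κ : Fin r → ℕ) (a : Fin n → Fin r → ℤ) (b : Fin n →₀ ℕ) :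
    Fin r →₀ ℕ := Finsupp.equivFunOnFinite.symm fun j => ((κ j : ℤ) + ∑ i, (b i : ℤ) * a i j).toNat

/-- the polynomial `t ^ κ f(c t ^ a)` -/
noncomputable def PP (κ : Fin r → ℕ) (a : Fin n → Fin r → ℤ) (c : Fin n → k)
    (f : MvPolynomial (Fin n) k) : MvPolynomial (Fin r) k :=
  ∑ b ∈ f.support, monomial (shiftExp κ a b) (coeff b f * ∏ i, c i ^ b i)

/-- the shift is large enough -/
def GoodShift (κ : Fin r → ℕ) (a : Fin n → Fin r → ℤ) (f : MvPolynomial (Fin n) k) : Prop :=
  ∀ b ∈ f.support, ∀ j, 0 ≤ (κ j : ℤ) + ∑ i, (b i : ℤ) * a i j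

theorem exists_shift (m : ℕ) (hm : 1 ≤ m) (a : Fin n → Fin r → ℤ) (f : MvPolynomial (Fin n) k) :
    ∃ κ : Fin r → ℕ, GoodShift (fun j => m * κ j) a f := by
  classical
  refine ⟨fun j => ∑ b ∈ f.support, ∑ i, b i * (a i j).natAbs, fun b hb j => ?_⟩
  have h1 : ∑ i, b i * (a i j).natAbs ≤ ∑ b ∈ f.support, ∑ i, b i * (a i j).natAbs :=
    Finset.single_le_sum (f := fun b : Fin n →₀ ℕ => ∑ i, b i * (a i j).natAbs)
      (fun _ _ => Nat.zero_le _) hb
  have h2 : ∑ i, b i * (a i j).natAbs ≤ m * ∑ b ∈ f.support, ∑ i, b i * (a i j).natAbs :=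
    h1.trans (Nat.le_mul_of_pos_left _ (by omega))
  have h3 : -((∑ i, b i * (a i j).natAbs : ℕ) : ℤ) ≤ ∑ i, (b i : ℤ) * a i j := by
    push_cast
    rw [← Finset.sum_neg_distrib]
    refine Finset.sum_le_sum fun i _ => ?_
    have h4 : -|a i j| ≤ a i j := neg_abs_le _
    have h5 : (0 : ℤ) ≤ b i := by exact_mod_cast Nat.zero_le _
    nlinarith
  have h4 : ((∑ i, b i * (a i j).natAbs : ℕ) : ℤ) ≤
      ((m * ∑ b ∈ f.support, ∑ i, b i * (a i j).natAbs : ℕ) : ℤ) := by exact_mod_cast h2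
  linarith

theorem mon_zpow {B : Type} [CommRing B] [Algebra k B] (w : Fin r → Bˣ) (M : ℕ)
    (κ : Fin r → ℕ) (a : Fin n → Fin r → ℤ) (c : Fin n → k) (f : MvPolynomial (Fin n) k)
    (hκ : GoodShift κ a f) (y : Fin n → B)
    (hy : ∀ i, y i = algebraMap k B (c i) * (∏ j, w j ^ ((M : ℤ) * a i j) : Bˣ)) :
    ((∏ j, w j ^ (M * κ j) : Bˣ) : B) * aeval y f =
      aeval (fun j => (w j : B) ^ M) (PP κ a c f) := by
  classical
  unfold PP
  rw [MvPolynomial.aeval_def, MvPolynomial.eval₂_eq', Finset.mul_sum, map_sum]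
  refine Finset.sum_congr rfl fun b hb => ?_
  rw [aeval_monomial, Finsupp.prod_fintype _ _ (fun _ => pow_zero _)]
  have h1 : ∏ i, y i ^ b i = algebraMap k B (∏ i, c i ^ b i) *
      ((∏ j, w j ^ ((M : ℤ) * ∑ i, (b i : ℤ) * a i j) : Bˣ) : B) := by
    have h2 : ∀ i, y i ^ b i = algebraMap k B (c i ^ b i) *
        ((∏ j, w j ^ ((M : ℤ) * ((b i : ℤ) * a i j)) : Bˣ) : B) := by
      intro i
      rw [hy i, mul_pow, map_pow]
      congr 1
      rw [← Units.val_pow_eq_pow_val, ← Finset.prod_pow]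
      congr 1
      refine Finset.prod_congr rfl fun j _ => ?_
      rw [← zpow_natCast, ← zpow_mul]
      congr 1
      ring
    simp only [h2]
    rw [Finset.prod_mul_distrib, map_prod, ← Units.coe_prod]
    congr 2
    rw [Finset.prod_comm]
    refine Finset.prod_congr rfl fun j _ => ?_
    have h3 : ∀ T : Finset (Fin n), ∏ i ∈ T, w j ^ ((M : ℤ) * ((b i : ℤ) * a i j)) =
        w j ^ ((M : ℤ) * ∑ i ∈ T, (b i : ℤ) * a i j) := by
      intro T
      induction T using Finset.induction_on with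
      | empty => simp
      | insert i T hi ih =>
        rw [Finset.prod_insert hi, Finset.sum_insert hi, ih, mul_add, zpow_add]
    exact h3 _
  have h4 : ∏ j, ((w j : B) ^ M) ^ shiftExp κ a b j =
      ((∏ j, w j ^ (M * κ j) * w j ^ ((M : ℤ) * ∑ i, (b i : ℤ) * a i j) : Bˣ) : B) := by
    rw [Units.coe_prod]
    refine Finset.prod_congr rfl fun j _ => ?_
    rw [← pow_mul, ← Units.val_pow_eq_pow_val]
    congr 1
    rw [← zpow_natCast, ← zpow_natCast (w j) (M * κ j), ← zpow_add]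
    congr 1
    have h5 : ((shiftExp κ a b j : ℕ) : ℤ) = (κ j : ℤ) + ∑ i, (b i : ℤ) * a i j :=
      Int.toNat_of_nonneg (hκ b hb j)
    push_cast
    rw [h5]
    ring
  rw [h1, h4, Finset.prod_mul_distrib, Units.val_mul, map_mul]
  ring

end subst

variable {k : Type} [Field k] [CharZero k]

/-- in one variable every polynomial with two monomials is dominated -/
theorem halfSpace_one {J : Type} (m : J → ℕ) (hm : ∀ j, 1 ≤ m j)
    (P : J → MvPolynomial (Fin 1) k) (j : J)
    (hroot : ∀ b, ∃ γ : k, γ ^ m j = coeff b (P j)) (hP : ¬ PowForm (m j) (P j)) :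
    HalfSpace m P := by
  classical
  have hP0 : P j ≠ 0 := by
    intro h0
    apply hP
    exact ⟨0, 0, by rw [h0, zero_pow (by have := hm j; omega), mul_zero]⟩
  have hne : (P j).support.Nonempty := support_nonempty.2 hP0
  refine ⟨0, fun l hl _ => ?_⟩
  -- the dominating exponent
  obtain ⟨b, hb, hbmax⟩ := Finset.exists_max_image (P j).support (fun b => lin b l) hne
  obtain ⟨γ, hγ⟩ := hroot b
  have hcb : coeff b (P j) ≠ 0 := mem_support_iff.1 hb
  have hγ0 : γ ≠ 0 := by
    intro h0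
    rw [h0, zero_pow (by have := hm j; omega)] at hγ
    exact hcb hγ.symm
  have hl0 : l 0 ≠ 0 := by
    intro h0
    apply hl
    funext i
    rw [Subsingleton.elim i 0, h0]
    rfl
  have hlin : ∀ s : Fin 1 →₀ ℕ, lin s l = (s 0 : ℝ) * l 0 := fun s => by
    unfold lin
    rw [Fin.sum_univ_one]
  have hdiff : P j - monomial b 1 * (C γ) ^ m j = P j - monomial b (coeff b (P j)) := by
    rw [← C_pow, hγ, mul_comm, C_mul_monomial, mul_one]
  have hsupp : ∀ s, s ∈ (P j - monomial b (coeff b (P j))).support ↔ s ∈ (P j).support ∧ s ≠ b := by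
    intro s
    rw [mem_support_iff, mem_support_iff, coeff_sub, coeff_monomial]
    by_cases hs : b = s
    · rw [if_pos hs, ← hs, sub_self]
      simp
    · rw [if_neg hs, sub_zero]
      constructor
      · exact fun h => ⟨h, fun h' => hs h'.symm⟩
      · exact fun h => h.1
  refine ⟨j, b, C γ, ?_, ?_⟩
  · rw [Ne, C_eq_zero]
    exact hγ0
  · unfold gp
    rw [hdiff]
    have h1 : mx (C γ : MvPolynomial (Fin 1) k).support l = 0 := by
      have h2 : (C γ : MvPolynomial (Fin 1) k).support = {0} := by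
        ext s
        rw [mem_support_iff, coeff_C, Finset.mem_singleton]
        by_cases hs : 0 = s
        · rw [if_pos hs]
          exact ⟨fun _ => hs.symm, fun _ => hγ0⟩
        · rw [if_neg hs]
          exact ⟨fun h => absurd rfl h, fun h => absurd h.symm hs⟩
      rw [h2]
      obtain ⟨s, hs, h3⟩ := exists_mx (Finset.singleton_nonempty (0 : Fin 1 →₀ ℕ)) l
      rw [h3, Finset.mem_singleton.1 hs, hlin]
      simp
    have h2 : (P j - monomial b (coeff b (P j))).support.Nonempty := by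
      by_contra hcon
      rw [Finset.not_nonempty_iff_eq_empty] at hcon
      apply hP
      refine ⟨b, C γ, ?_⟩
      rw [← C_pow, hγ, mul_comm, C_mul_monomial, mul_one]
      exact sub_eq_zero.1 (support_eq_empty.1 hcon)
    obtain ⟨s, hs, h3⟩ := exists_mx h2 l
    rw [h1, h3, hlin, hlin]
    obtain ⟨hs1, hs2⟩ := (hsupp s).1 hs
    have h4 := hbmax s hs1
    rw [hlin, hlin] at h4
    have h5 : (s 0 : ℝ) * l 0 ≠ (b 0 : ℝ) * l 0 := by
      intro h6
      apply hs2
      have h7 := mul_right_cancel₀ hl0 h6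
      refine Finsupp.ext fun i => ?_
      rw [Subsingleton.elim i 0]
      exact_mod_cast h7
    have h6 := lt_of_le_of_ne h4 h5
    linarith

variable {B : Type} [CommRing B] [IsDomain B] [Algebra k B]

/-- roots of forms of the type `PowForm` are polynomials -/
theorem rat_of_powForm {m M r : ℕ} (hm : 1 ≤ m) (hM : 1 ≤ M) (hmM : m ∣ M) {ζ : k}
    (hζ : IsPrimitiveRoot ζ M) (u : Fin r → B)
    (P : MvPolynomial (Fin r) k) (z : B) (hz : z ^ m = aeval (fun i => u i ^ M) P)
    (h : PowForm m P) : ∃ p : MvPolynomial (Fin r) k, z = aeval u p := by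
  classical
  obtain ⟨e, g, rfl⟩ := h
  obtain ⟨q, hq⟩ := hmM
  have hζm : IsPrimitiveRoot (ζ ^ q) m := hζ.pow (by omega) (by rw [hq, mul_comm])
  set G' : MvPolynomial (Fin r) k := monomial (q • e) 1 * expand M g with hG'
  have hz2 : z ^ m = (aeval u G') ^ m := by
    rw [hz, ← map_pow]
    have h1 : (fun i => u i ^ M) = u ^ M := rfl
    rw [h1, ← aeval_expand, hG', mul_pow, monomial_pow, one_pow, map_mul (expand M),
      map_pow (expand M), expand_monomial, smul_smul, ← hq]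
  have hζR : IsPrimitiveRoot (algebraMap k B (ζ ^ q)) m :=
    hζm.map_of_injective (algebraMap k B).injective
  have h2 := hζR.pow_sub_pow_eq_prod_sub_mul z (aeval u G') (by omega)
  rw [hz2, sub_self] at h2
  obtain ⟨χ, hχ, hχ2⟩ := Finset.prod_eq_zero_iff.1 h2.symm
  have hχ1 : χ ^ m = 1 := (Polynomial.mem_nthRootsFinset (by omega) _).1 hχ
  have : NeZero m := ⟨by omega⟩
  obtain ⟨n, -, hn⟩ := hζR.eq_pow_of_pow_eq_one hχ1
  refine ⟨C ((ζ ^ q) ^ n) * G', ?_⟩
  rw [map_mul, ← MvPolynomial.algebraMap_eq, AlgHom.commutes, map_pow, hn]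
  exact sub_eq_zero.1 hχ2

/-- `ram_false` for a finite family -/
theorem ram_false' (Γ : Geo k B) {r : ℕ} (hr : 1 ≤ r) (w : Fin r → Bˣ) (hwW : ∀ j, w j ∈ Γ.W)
    (hw : AlgebraicIndependent k (fun j => (w j : B))) {M : ℕ} (hM : 1 ≤ M) (ζ : k)
    (hζ : IsPrimitiveRoot ζ M) {J : Type} [Fintype J] (m : J → ℕ) (hm : ∀ j, 2 ≤ m j)
    (hmM : ∀ j, m j ∣ M) (P : J → MvPolynomial (Fin r) k) (z : J → B) (hzI : ∀ j, z j ∈ Γ.I)
    (hz : ∀ j, z j ^ m j = aeval (fun i => (w i : B) ^ M) (P j))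
    (hP : ∀ j, ¬ PowForm (m j) (P j)) (hT : HalfSpace m P) : False := by
  classical
  let e := (Fintype.equivFin J).symm
  refine ram_false Γ hr w hwW hw hM ζ hζ (fun j => m (e j)) (fun j => hm _) (fun j => hmM _)
    (fun j => P (e j)) (fun j => z (e j)) (fun j => hzI _) (fun j => hz _) ?_ ?_
  · intro j p q h
    by_contra hp
    have hm1 : 1 ≤ m (e j) := by have := hm (e j); omega
    refine hP (e j) (powForm_of_rat hm1 hM (hmM _) hζ (fun i => (w i : B)) hw (P (e j)) ?_
      (z (e j)) (hz _) p q hp h)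
    intro h0
    apply hP (e j)
    exact ⟨0, 0, by rw [h0, zero_pow (by omega), mul_zero]⟩
  · obtain ⟨μ, hμ⟩ := hT
    refine ⟨μ, fun l hl hl2 => ?_⟩
    obtain ⟨j, e', g, hg, h⟩ := hμ l hl hl2
    refine ⟨e.symm j, e', g, hg, ?_⟩
    have h1 : e (e.symm j) = j := Equiv.apply_symm_apply _ _
    simp only [h1]
    exact h

/-- either a second point in the fibre, or curves -/
theorem alt_curve (Γ : Geo k B) (ρ : Rp k B) {N n : ℕ} {U : Fin n → Fin N} {y : Fin N → B}
    {M : ℕ} (hM : 1 ≤ M) (d : DatU k U y M Γ.W) (hyI : ∀ i, y i ∈ Γ.I) {ι : Type} [Finite ι]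
    (F : ι → MvPolynomial (Fin N) k) (hF : ∀ l, aeval y (F l) = 0) (U' : Finset (Fin N))
    (hrat : ∀ i ∈ U', ∃ p q : MvPolynomial (Fin d.r) k, q ≠ 0 ∧
      aeval (fun j => (d.w j : B)) q * y i = aeval (fun j => (d.w j : B)) p)
    {E : Type} [Field E] [IsAlgClosed E] (θ : B →+* E) (hθ : Function.Injective θ) :
    (∃ z : Fin N → E, (∀ l, eval₂ (θ.comp (algebraMap k B)) z (F l) = 0) ∧
      (∀ i ∈ U', z i = θ (y i)) ∧ z ≠ fun j => θ (y j)) ∨ ∀ᶠ t in ρ.G, CurveAt ρ F y t := by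
  classical
  choose! p q hq hpq using hrat
  rcases second_point U' F y hF (fun j => (d.w j : B)) d.hw p q hq hpq θ hθ with h | h
  · exact Or.inl h
  · right
    choose p1 q1 h1 h2 h3 using h
    exact curve_of_dat' Γ ρ hM d hyI p1 q1 h1 h2 h3 F hF

end Pool.Agent.H434
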