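import Mathlib
import Pool.Agent.H434.Main

/-!
Roots of polynomials in units: the abstract form of the theorem.
-/

set_option autoImplicit false
set_option linter.unusedSectionVars false

open Finset Filter MvPolynomial

namespace Pool.Agent.H434

open Pool.Agent.N754.LT

variable {k B : Type} [Field k] [CharZero k] [CommRing B] [IsDomain B] [Algebra k B]

theorem halfSpace_one' {r : ℕ} (hr : r = 1) {J : Type} (m : J → ℕ) (hm : ∀ j, 1 ≤ m j)
    (P : J → MvPolynomial (Fin r) k) (j : J)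
    (hroot : ∀ b, ∃ γ : k, γ ^ m j = coeff b (P j)) (hP : ¬ PowForm (m j) (P j)) :
    HalfSpace m P := by
  subst hr
  exact halfSpace_one m hm P j hroot hP

/-- monomials in independent units are not constant -/
theorem zpow_const {r : ℕ} (w : Fin r → Bˣ) (hw : AlgebraicIndependent k (fun j => (w j : B)))
    (e : Fin r → ℤ) (h : ∃ c : k, ((∏ j, w j ^ e j : Bˣ) : B) = algebraMap k B c) : e = 0 := by
  classical
  obtain ⟨c, hc⟩ := h
  have hinj : Function.Injective (aeval (R := k) fun j => (w j : B)) := hw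
  have hc0 : c ≠ 0 := fun h0 => by
    rw [h0, map_zero] at hc
    exact (∏ j, w j ^ e j : Bˣ).ne_zero hc
  let em : Fin r →₀ ℕ := Finsupp.equivFunOnFinite.symm fun j => (-e j).toNat
  let ep : Fin r →₀ ℕ := Finsupp.equivFunOnFinite.symm fun j => (e j).toNat
  have hmonB : ∀ (e : Fin r → ℕ), (∏ j, (w j : B) ^ e j) =
      ((∏ j, w j ^ e j : Bˣ) : B) := fun e => by
    rw [Units.coe_prod]
    exact Finset.prod_congr rfl fun j _ => (Units.val_pow_eq_pow_val _ _).symm
  have h1 : (∏ j, w j ^ em j) * (∏ j, w j ^ e j) = ∏ j, w j ^ ep j := by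
    rw [← Finset.prod_mul_distrib]
    refine Finset.prod_congr rfl fun j _ => ?_
    rw [← zpow_natCast, ← zpow_natCast, ← zpow_add]
    congr 1
    have h2 : em j = (-e j).toNat := rfl
    have h3 : ep j = (e j).toNat := rfl
    rw [h2, h3]
    omega
  have h2 : (monomial em c : MvPolynomial (Fin r) k) = monomial ep 1 := by
    apply hinj
    rw [aeval_monomial, aeval_monomial,
      Finsupp.prod_fintype _ _ (fun _ => pow_zero _),
      Finsupp.prod_fintype _ _ (fun _ => pow_zero _), map_one, one_mul, hmonB, hmonB, ← h1,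
      Units.val_mul, hc]
    ring
  have h3 : em = ep := by
    rcases (monomial_eq_monomial_iff em ep c 1).1 h2 with h4 | h4
    · exact h4.1
    · exact absurd h4.1 hc0
  funext j
  have h4 := DFunLike.congr_fun h3 j
  have h5 : em j = (-e j).toNat := rfl
  have h6 : ep j = (e j).toNat := rfl
  rw [h5, h6] at h4
  show e j = 0
  omega

/-- a square integral matrix whose rows span has independent rows -/
theorem rows_indep {n : ℕ} (a : Fin n → Fin n → ℤ)
    (h : ∀ j, Pi.single j 1 ∈ Submodule.span ℤ (Set.range a)) (b : Fin n → ℤ)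
    (hb : ∀ j, ∑ i, b i * a i j = 0) : b = 0 := by
  classical
  let T : (Fin n → ℤ) →ₗ[ℤ] (Fin n → ℤ) :=
    { toFun := fun b j => ∑ i, b i * a i j
      map_add' := fun x y => by
        funext j
        simp only [Pi.add_apply, add_mul, Finset.sum_add_distrib]
      map_smul' := fun c x => by
        funext j
        simp only [Pi.smul_apply, smul_eq_mul, RingHom.id_apply, Finset.mul_sum, mul_assoc] }
  have hT : ∀ b j, T b j = ∑ i, b i * a i j := fun b j => rfl
  have hsurj : Function.Surjective T := by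
    rw [← LinearMap.range_eq_top, eq_top_iff]
    intro v _
    have h1 : Submodule.span ℤ (Set.range a) ≤ LinearMap.range T := by
      rw [Submodule.span_le]
      rintro _ ⟨i, rfl⟩
      refine ⟨Pi.single i 1, ?_⟩
      funext j
      rw [hT, Finset.sum_eq_single i]
      · rw [Pi.single_eq_same, one_mul]
      · intro l _ hl
        rw [Pi.single_eq_of_ne hl, zero_mul]
      · intro h
        exact absurd (Finset.mem_univ _) h
    have h2 : v = ∑ j, v j • (Pi.single j 1 : Fin n → ℤ) := by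
      funext i
      rw [Finset.sum_apply, Finset.sum_eq_single i]
      · simp
      · intro j _ hj
        rw [Pi.smul_apply, Pi.single_eq_of_ne (Ne.symm hj), smul_zero]
      · intro h
        exact absurd (Finset.mem_univ _) h
    rw [h2]
    exact Submodule.sum_mem _ fun j _ => Submodule.smul_mem _ _ (h1 (h j))
  have hinj := OrzechProperty.injective_of_surjective_endomorphism T hsurj
  apply hinj
  rw [map_zero]
  funext j
  exact hb j

theorem exists_gamma (Γ : Geo k B) {n : ℕ} {M : ℕ} (hM : 1 ≤ M) (c : Fin n → k)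
    (hc : ∀ i, c i ≠ 0) (hrc : ∀ i, ∃ γ : k, γ ^ M = c i) :
    ∃ γu : Fin n → Bˣ, (∀ i, γu i ∈ Γ.W) ∧ (∀ i, γu i ∈ constU k B) ∧
      ∀ i, (γu i : B) ^ M = algebraMap k B (c i) := by
  choose γ hγ using hrc
  have hγ0 : ∀ i, γ i ≠ 0 := by
    intro i h0
    have h1 := hγ i
    rw [h0, zero_pow (by omega)] at h1
    exact hc i h1.symm
  have hγB : ∀ i, IsUnit (algebraMap k B (γ i)) := fun i => (IsUnit.mk0 _ (hγ0 i)).map _
  choose γu hγu using hγB
  refine ⟨γu, fun i => ?_, fun i => ⟨γ i, hγu i⟩, fun i => by rw [hγu, ← map_pow, hγ]⟩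
  refine Γ.I_W _ (by rw [hγu]; exact Γ.I_const _) ?_
  have h1 : ((γu i)⁻¹ : Bˣ) =
      Units.map (algebraMap k B).toMonoidHom (Units.mk0 (γ i) (hγ0 i))⁻¹ := by
    rw [map_inv]
    congr 1
    apply Units.ext
    rw [hγu]
    rfl
  rw [h1]
  exact Γ.I_const _

theorem exists_roots (Γ : Geo k B) {N n : ℕ} (U : Fin n → Fin N) {M : ℕ} (hM : 1 ≤ M)
    (y : Fin N → B) (d : DatU k U y M Γ.W) (hrc : ∀ i, ∃ γ : k, γ ^ M = d.c i) :
    ∃ γu : Fin n → Bˣ, (∀ i, γu i ∈ Γ.W) ∧ (∀ i, γu i ∈ constU k B) ∧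
      ∀ i, (((γu i * ∏ j, d.w j ^ d.a i j : Bˣ) : Bˣ) : B) ^ M = y (U i) := by
  obtain ⟨γu, h1, h2, h3⟩ := exists_gamma Γ hM d.c d.hc hrc
  refine ⟨γu, h1, h2, fun i => ?_⟩
  rw [Units.val_mul, mul_pow, h3, d.hU, ← Units.val_pow_eq_pow_val, ← Finset.prod_pow]
  congr 2
  refine Finset.prod_congr rfl fun j _ => ?_
  rw [← zpow_natCast, ← zpow_mul, mul_comm]

theorem main_full (Γ : Geo k B) {N n : ℕ} {Q : Type} [Fintype Q] (U : Fin n → Fin N)
    (J : Q → Fin N) (m : Q → ℕ) (hm : ∀ j, 2 ≤ m j) {M : ℕ} (hM : 1 ≤ M)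
    (hmM : ∀ j, m j ∣ M) (ζ : k) (hζ : IsPrimitiveRoot ζ M) (f : Q → MvPolynomial (Fin n) k)
    (y : Fin N → B) (hyI : ∀ i, y i ∈ Γ.I)
    (d : DatU k U y M Γ.W) (hJ : ∀ j, y (J j) ^ m j = aeval (fun i => y (U i)) (f j))
    (hrc : ∀ i, ∃ γ : k, γ ^ M = d.c i) (hdr : d.r = n)
    (hnp : ∀ j, ¬ PowForm (m j) (f j)) (hT : HalfSpace m f) : False := by
  classical
  obtain ⟨γu, hγW, hγc, hxM⟩ := exists_roots Γ U hM y d hrc
  obtain ⟨r, hr, w, hwW, hw, a, c, hc, hU, hspan⟩ := d
  simp only at hdr hxM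
  subst hdr
  let x : Fin r → Bˣ := fun i => γu i * ∏ j, w j ^ a i j
  have hxW : ∀ i, x i ∈ Γ.W := fun i =>
    Γ.W.mul_mem (hγW i) (Subgroup.prod_mem _ fun j _ => Subgroup.zpow_mem _ (hwW j) _)
  have hx : AlgebraicIndependent k (fun i => (x i : B)) := by
    refine algInd_of_units Γ.W Γ.hunit x hxW fun b hb => ?_
    obtain ⟨c', hc'⟩ := hb
    have h1 : ∏ i, x i ^ b i = (∏ i, γu i ^ b i) * ∏ j, w j ^ (∑ i, b i * a i j) := by
      simp only [x, mul_zpow]
      rw [Finset.prod_mul_distrib]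
      congr 1
      have h2 : ∀ i, (∏ j, w j ^ a i j) ^ b i = ∏ j, w j ^ (b i * a i j) := by
        intro i
        rw [← Finset.prod_zpow]
        refine Finset.prod_congr rfl fun j _ => ?_
        rw [← zpow_mul, mul_comm]
      simp only [h2]
      rw [Finset.prod_comm]
      refine Finset.prod_congr rfl fun j _ => ?_
      have h3 : ∀ T : Finset (Fin r), ∏ i ∈ T, w j ^ (b i * a i j) =
          w j ^ (∑ i ∈ T, b i * a i j) := by
        intro T
        induction T using Finset.induction_on with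
        | empty => simp
        | insert i T hi ih => rw [Finset.prod_insert hi, Finset.sum_insert hi, ih, zpow_add]
      exact h3 _
    have h2 : (∏ i, γu i ^ b i) ∈ constU k B :=
      Subgroup.prod_mem _ fun i _ => Subgroup.zpow_mem _ (hγc i) _
    have h3 : (∏ i, x i ^ b i) ∈ constU k B := ⟨c', hc'⟩
    have h4 : (∏ j, w j ^ (∑ i, b i * a i j)) ∈ constU k B := by
      rw [h1] at h3
      exact (Subgroup.mul_mem_cancel_left _ h2).1 h3
    have h5 := zpow_const w hw (fun j => ∑ i, b i * a i j) h4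
    exact rows_indep a hspan b fun j => congrFun h5 j
  refine ram_false' Γ hr x hxW hx hM ζ hζ m hm hmM f (fun j => y (J j)) (fun j => hyI _) ?_ hnp hT
  intro j
  rw [hJ]
  congr 1
  congr 1
  funext i
  exact (hxM i).symm

end Pool.Agent.H434
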