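import Mathlib
import Pool.Agent.H434.Main2

/-!
The alternatives for solutions whose coordinates lie in a coset of a torus.
-/

set_option autoImplicit false
set_option linter.unusedSectionVars false

open Finset Filter MvPolynomial

namespace Pool.Agent.H434

open Pool.Agent.N754.LT

variable {k B : Type} [Field k] [CharZero k] [CommRing B] [IsDomain B] [Algebra k B]

/-- either all polynomials are powers up to monomials, or those which are not satisfy the half-space
condition -/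
def TameK {J : Type} {r : ℕ} (m : J → ℕ) (P : J → MvPolynomial (Fin r) k) : Prop :=
  (∀ j, PowForm (m j) (P j)) ∨ ∃ μ : Fin r → ℝ, ∀ l : Fin r → ℝ, l ≠ 0 → 0 ≤ ∑ i, μ i * l i →
    ∃ j, ¬ PowForm (m j) (P j) ∧ ∃ (e : Fin r →₀ ℕ) (g : MvPolynomial (Fin r) k), g ≠ 0 ∧
      0 < gp (m j) (P j) g e l

/-- in the second case the half-space condition holds for a subfamily -/
theorem TameK.sub {J : Type} {r : ℕ} {m : J → ℕ} {P : J → MvPolynomial (Fin r) k}
    (h : TameK m P) (hno : ∃ j, ¬ PowForm (m j) (P j)) :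
    HalfSpace (fun j : {j // ¬ PowForm (m j) (P j)} => m j.1) (fun j => P j.1) := by
  rcases h with h | ⟨μ, hμ⟩
  · obtain ⟨j, hj⟩ := hno
    exact absurd (h j) hj
  · refine ⟨μ, fun l hl hl2 => ?_⟩
    obtain ⟨j, hj, e, g, hg, h⟩ := hμ l hl hl2
    exact ⟨⟨j, hj⟩, e, g, hg, h⟩

theorem tameK_one {r : ℕ} (hr : r = 1) {J : Type} (m : J → ℕ) (hm : ∀ j, 1 ≤ m j)
    (P : J → MvPolynomial (Fin r) k) (hroot : ∀ j b, ∃ γ : k, γ ^ m j = coeff b (P j)) :
    TameK m P := by
  by_cases h : ∀ j, PowForm (m j) (P j)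
  · exact Or.inl h
  · push Not at h
    obtain ⟨j, hj⟩ := h
    obtain ⟨μ, hμ⟩ := halfSpace_one' hr (fun _ : Unit => m j) (fun _ => hm j) (fun _ => P j) ()
      (hroot j) hj
    refine Or.inr ⟨μ, fun l hl hl2 => ?_⟩
    obtain ⟨_, e, g, hg, h⟩ := hμ l hl hl2
    exact ⟨j, hj, e, g, hg, h⟩

/-- elements which are rational functions of units -/
def RatSub {r : ℕ} (w : Fin r → B) (hw : AlgebraicIndependent k w) : Subalgebra k B where
  carrier := {y | ∃ p q : MvPolynomial (Fin r) k, q ≠ 0 ∧ aeval w q * y = aeval w p}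
  mul_mem' := by
    rintro a b ⟨p, q, hq, h⟩ ⟨p', q', hq', h'⟩
    refine ⟨p * p', q * q', mul_ne_zero hq hq', ?_⟩
    rw [map_mul, map_mul, ← h, ← h']
    ring
  add_mem' := by
    rintro a b ⟨p, q, hq, h⟩ ⟨p', q', hq', h'⟩
    refine ⟨p * q' + p' * q, q * q', mul_ne_zero hq hq', ?_⟩
    rw [map_mul, map_add, map_mul, map_mul, ← h, ← h']
    ring
  algebraMap_mem' := by
    intro c
    refine ⟨C c, 1, one_ne_zero, ?_⟩
    rw [map_one, one_mul, ← MvPolynomial.algebraMap_eq, AlgHom.commutes]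

theorem mem_RatSub {r : ℕ} (w : Fin r → B) (hw : AlgebraicIndependent k w) (y : B) :
    y ∈ RatSub w hw ↔ ∃ p q : MvPolynomial (Fin r) k, q ≠ 0 ∧ aeval w q * y = aeval w p := Iff.rfl

theorem zpow_mem_RatSub {r : ℕ} (w : Fin r → Bˣ)
    (hw : AlgebraicIndependent k (fun j => (w j : B))) (j : Fin r) (a : ℤ) :
    ((w j ^ a : Bˣ) : B) ∈ RatSub (fun j => (w j : B)) hw := by
  have h1 : (w j : B) ∈ RatSub (fun j => (w j : B)) hw :=
    ⟨X j, 1, one_ne_zero, by rw [map_one, one_mul, aeval_X]⟩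
  have h2 : (((w j)⁻¹ : Bˣ) : B) ∈ RatSub (fun j => (w j : B)) hw :=
    ⟨1, X j, X_ne_zero j, by rw [map_one, aeval_X, Units.mul_inv]⟩
  obtain ⟨n, rfl | rfl⟩ := Int.eq_nat_or_neg a
  · rw [zpow_natCast, Units.val_pow_eq_pow_val]
    exact Subalgebra.pow_mem _ h1 n
  · rw [zpow_neg, zpow_natCast, ← inv_pow, Units.val_pow_eq_pow_val]
    exact Subalgebra.pow_mem _ h2 n

theorem prod_mem_RatSub {r : ℕ} (w : Fin r → Bˣ)
    (hw : AlgebraicIndependent k (fun j => (w j : B))) (a : Fin r → ℤ) :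
    ((∏ j, w j ^ a j : Bˣ) : B) ∈ RatSub (fun j => (w j : B)) hw := by
  rw [Units.coe_prod]
  exact Subalgebra.prod_mem _ fun j _ => zpow_mem_RatSub w hw j _

theorem U_mem_RatSub {N n : ℕ} {U : Fin n → Fin N} {M : ℕ} {W : Subgroup Bˣ}
    {y : Fin N → B} (d : DatU k U y M W) (i : Fin n) :
    y (U i) ∈ RatSub (fun j => (d.w j : B)) d.hw := by
  rw [d.hU]
  exact Subalgebra.mul_mem _ (Subalgebra.algebraMap_mem _ _) (prod_mem_RatSub d.w d.hw _)

/-- the alternative for solutions in a coset of a subtorus -/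
theorem coset_alt (Γ : Geo k B) (ρ : Rp k B) {N n : ℕ} {Q : Type} [Fintype Q]
    (U : Fin n → Fin N) (J : Q → Fin N)
    (m : Q → ℕ) (hm : ∀ j, 2 ≤ m j) {M : ℕ} (hM : 1 ≤ M) (hmM : ∀ j, m j ∣ M) (ζ : k)
    (hζ : IsPrimitiveRoot ζ M) (f : Q → MvPolynomial (Fin n) k) (y : Fin N → B)
    (hyI : ∀ i, y i ∈ Γ.I) {ι : Type} [Finite ι] (F : ι → MvPolynomial (Fin N) k)
    (hF : ∀ l, aeval y (F l) = 0) (d : DatU k U y M Γ.W)
    (hJ : ∀ j, y (J j) ^ m j = aeval (fun i => y (U i)) (f j))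
    (κ : Q → Fin d.r → ℕ) (hκ : ∀ j, GoodShift (fun l => m j * κ j l) d.a (f j))
    (hT : TameK m (fun j => PP (fun l => m j * κ j l) d.a d.c (f j)))
    {E : Type} [Field E] [IsAlgClosed E] (θ : B →+* E) (hθ : Function.Injective θ) :
    (∃ z : Fin N → E, (∀ l, eval₂ (θ.comp (algebraMap k B)) z (F l) = 0) ∧
      (∀ i, z (U i) = θ (y (U i))) ∧ (∀ j, z (J j) = θ (y (J j))) ∧ z ≠ fun j => θ (y j)) ∨
    ∀ᶠ t in ρ.G, CurveAt ρ F y t := by
  classical
  let P : Q → MvPolynomial (Fin d.r) k := fun j => PP (fun l => m j * κ j l) d.a d.c (f j)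
  let mo : Q → Bˣ := fun j => ∏ l, d.w l ^ (M * κ j l)
  let z : Q → B := fun j => (mo j : B) * y (J j)
  have hz : ∀ j, z j ^ m j = aeval (fun i => (d.w i : B) ^ M) (P j) := by
    intro j
    simp only [P, z]
    rw [← mon_zpow d.w M (fun l => m j * κ j l) d.a d.c (f j) (hκ j) (fun i => y (U i)) d.hU,
      ← hJ, mul_pow]
    congr 1
    rw [← Units.val_pow_eq_pow_val, ← Finset.prod_pow]
    congr 1
    refine Finset.prod_congr rfl fun l _ => ?_
    rw [← pow_mul]
    congr 1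
    ring
  have hzI : ∀ j, z j ∈ Γ.I := fun j =>
    Γ.I.mul_mem (Γ.W_I _ (Subgroup.prod_mem _ fun l _ => Subgroup.pow_mem _ (d.hwW l) _)) (hyI _)
  have hall : ∀ j, PowForm (m j) (P j) := by
    by_contra hcon
    push Not at hcon
    have hT2 := TameK.sub hT hcon
    exact ram_false' Γ d.hr d.w d.hwW d.hw hM ζ hζ
      (J := {j // ¬ PowForm (m j) (P j)}) (fun j => m j.1) (fun j => hm j.1)
      (fun j => hmM j.1) (fun j => P j.1) (fun j => z j.1) (fun j => hzI j.1)
      (fun j => hz j.1) (fun j => j.2) hT2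
  -- the roots are rational functions
  have hratJ : ∀ j, y (J j) ∈ RatSub (fun j => (d.w j : B)) d.hw := by
    intro j
    obtain ⟨p, hp⟩ := rat_of_powForm (by have := hm j; omega) hM (hmM j) hζ
      (fun i => (d.w i : B)) (P j) (z j) (hz j) (hall j)
    have h1 : z j ∈ RatSub (fun j => (d.w j : B)) d.hw :=
      ⟨p, 1, one_ne_zero, by rw [map_one, one_mul, hp]⟩
    have h2 : y (J j) = ((∏ l, d.w l ^ (-((M * κ j l : ℕ) : ℤ)) : Bˣ) : B) * z j := by
      have h3 : (∏ l, d.w l ^ (-((M * κ j l : ℕ) : ℤ)) : Bˣ) = (mo j)⁻¹ := by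
        simp only [mo]
        rw [← Finset.prod_inv_distrib]
        refine Finset.prod_congr rfl fun l _ => ?_
        rw [zpow_neg, zpow_natCast]
      rw [h3]
      simp only [z]
      rw [← mul_assoc, Units.inv_mul, one_mul]
    rw [h2]
    exact Subalgebra.mul_mem _ (prod_mem_RatSub d.w d.hw _) h1
  rcases alt_curve Γ ρ hM d hyI F hF (Finset.univ.image U ∪ Finset.univ.image J) (by
    intro i hi
    rcases Finset.mem_union.1 hi with h | h
    · obtain ⟨l, -, rfl⟩ := Finset.mem_image.1 h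
      exact U_mem_RatSub d l
    · obtain ⟨l, -, rfl⟩ := Finset.mem_image.1 h
      exact hratJ l) θ hθ with ⟨z, h1, h2, h3⟩ | h
  · left
    refine ⟨z, h1, fun i => h2 _ ?_, fun j => h2 _ ?_, h3⟩
    · exact Finset.mem_union_left _ (Finset.mem_image_of_mem _ (Finset.mem_univ _))
    · exact Finset.mem_union_right _ (Finset.mem_image_of_mem _ (Finset.mem_univ _))
  · exact Or.inr h

/-- the alternative for solutions which are not in a coset of a subtorus -/
theorem full_alt (Γ : Geo k B) (ρ : Rp k B) {N n : ℕ} {Q : Type} [Fintype Q]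
    (U : Fin n → Fin N) (J : Q → Fin N)
    (m : Q → ℕ) (hm : ∀ j, 2 ≤ m j) {M : ℕ} (hM : 1 ≤ M) (hmM : ∀ j, m j ∣ M) (ζ : k)
    (hζ : IsPrimitiveRoot ζ M) (f : Q → MvPolynomial (Fin n) k) (y : Fin N → B)
    (hyI : ∀ i, y i ∈ Γ.I) {ι : Type} [Finite ι] (F : ι → MvPolynomial (Fin N) k)
    (hF : ∀ l, aeval y (F l) = 0) (d : DatU k U y M Γ.W)
    (hJ : ∀ j, y (J j) ^ m j = aeval (fun i => y (U i)) (f j))
    (hrc : ∀ i, ∃ γ : k, γ ^ M = d.c i) (hdr : d.r = n) (hT : TameK m f)
    {E : Type} [Field E] [IsAlgClosed E] (θ : B →+* E) (hθ : Function.Injective θ) :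
    (∃ z : Fin N → E, (∀ l, eval₂ (θ.comp (algebraMap k B)) z (F l) = 0) ∧
      (∀ i, z (U i) = θ (y (U i))) ∧ (∀ j, z (J j) = θ (y (J j))) ∧ z ≠ fun j => θ (y j)) ∨
    ∀ᶠ t in ρ.G, CurveAt ρ F y t := by
  classical
  have hall : ∀ j, PowForm (m j) (f j) := by
    by_contra hcon
    push Not at hcon
    have hT2 := TameK.sub hT hcon
    exact main_full Γ U (fun j : {j // ¬ PowForm (m j) (f j)} => J j.1) (fun j => m j.1)
      (fun j => hm j.1) hM (fun j => hmM j.1) ζ hζ (fun j => f j.1) y hyI d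
      (fun j => hJ j.1) hrc hdr (fun j => j.2) hT2
  obtain ⟨γu, hγW, hγc, hxM⟩ := exists_roots Γ U hM y d hrc
  let x : Fin n → Bˣ := fun i => γu i * ∏ j, d.w j ^ d.a i j
  have hx : ∀ i, (x i : B) ∈ RatSub (fun j => (d.w j : B)) d.hw := by
    intro i
    obtain ⟨c, hc⟩ := hγc i
    simp only [x]
    rw [Units.val_mul, hc]
    exact Subalgebra.mul_mem _ (Subalgebra.algebraMap_mem _ _) (prod_mem_RatSub d.w d.hw _)
  have hratJ : ∀ j, y (J j) ∈ RatSub (fun j => (d.w j : B)) d.hw := by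
    intro j
    obtain ⟨p, hp⟩ := rat_of_powForm (by have := hm j; omega) hM (hmM j) hζ
      (fun i => (x i : B)) (f j) (y (J j)) (by
        rw [hJ]
        congr 1
        congr 1
        funext i
        exact (hxM i).symm) (hall j)
    rw [hp]
    have h1 : ∀ p : MvPolynomial (Fin n) k, aeval (fun i => (x i : B)) p ∈
        RatSub (fun j => (d.w j : B)) d.hw := by
      intro p
      induction p using MvPolynomial.induction_on with
      | C a =>
        rw [← MvPolynomial.algebraMap_eq, AlgHom.commutes]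
        exact Subalgebra.algebraMap_mem _ _
      | add p q hp hq =>
        rw [map_add]
        exact Subalgebra.add_mem _ hp hq
      | mul_X p j hp =>
        rw [map_mul, aeval_X]
        exact Subalgebra.mul_mem _ hp (hx j)
    exact h1 p
  rcases alt_curve Γ ρ hM d hyI F hF (Finset.univ.image U ∪ Finset.univ.image J) (by
    intro i hi
    rcases Finset.mem_union.1 hi with h | h
    · obtain ⟨l, -, rfl⟩ := Finset.mem_image.1 h
      exact U_mem_RatSub d l
    · obtain ⟨l, -, rfl⟩ := Finset.mem_image.1 h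
      exact hratJ l) θ hθ with ⟨z, h1, h2, h3⟩ | h
  · left
    refine ⟨z, h1, fun i => h2 _ ?_, fun j => h2 _ ?_, h3⟩
    · exact Finset.mem_union_left _ (Finset.mem_image_of_mem _ (Finset.mem_univ _))
    · exact Finset.mem_union_right _ (Finset.mem_image_of_mem _ (Finset.mem_univ _))
  · exact Or.inr h

/-- the data of the units -/
theorem exists_datU (Γ : Geo k B) {N n : ℕ} (U : Fin n → Fin N) (M : ℕ) (y : Fin N → B)
    (v : Fin n → Bˣ) (hvW : ∀ i, v i ∈ Γ.W) (hv : ∀ i, (v i : B) ^ M = y (U i)) :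
    (∀ i, ∃ c : k, y (U i) = algebraMap k B c) ∨
    ∃ d : DatU k U y M Γ.W, ∀ i, ∃ γ : k, γ ^ M = d.c i := by
  classical
  let C : Subgroup Γ.W := (constU k B).subgroupOf Γ.W
  obtain ⟨r, w', a, c', hc', hu', hind', hspan⟩ := exists_basis C
    (fun g m hm h => by
      obtain ⟨c, hc⟩ := Γ.htf g.1 g.2 m hm h
      exact ⟨c, hc⟩) (fun i : Fin n => (⟨v i, hvW i⟩ : Γ.W))
  let w : Fin r → Bˣ := fun j => (w' j).1
  have hwW : ∀ j, w j ∈ Γ.W := fun j => (w' j).2
  have hprod : ∀ b : Fin r → ℤ, ((∏ j, w' j ^ b j : Γ.W) : Bˣ) = ∏ j, w j ^ b j := by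
    intro b
    rw [Subgroup.val_finsetProd]
    exact Finset.prod_congr rfl fun j _ => rfl
  have hind : ∀ b : Fin r → ℤ, (∃ c : k, ((∏ j, w j ^ b j : Bˣ) : B) = algebraMap k B c) →
      b = 0 := by
    intro b ⟨c, hc⟩
    apply hind'
    refine ⟨c, ?_⟩
    have h1 : (Γ.W.subtype (∏ j, w' j ^ b j) : Bˣ) = ∏ j, w j ^ b j := hprod b
    rw [h1]
    exact hc
  have hw := algInd_of_units Γ.W Γ.hunit w hwW hind
  have hc2 : ∀ i, ∃ c : k, ((c' i).1 : B) = algebraMap k B c := fun i => hc' i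
  choose c hc using hc2
  have hc0 : ∀ i, c i ≠ 0 := by
    intro i h
    have h1 := hc i
    rw [h, map_zero] at h1
    exact (c' i).1.ne_zero h1
  have hvi : ∀ i, (v i : B) = algebraMap k B (c i) * (∏ j, w j ^ a i j : Bˣ) := by
    intro i
    have h1 := congrArg (fun g : Γ.W => ((g : Bˣ) : B)) (hu' i)
    simp only [Subgroup.coe_mul, Units.val_mul] at h1
    rw [hprod, hc] at h1
    exact h1
  by_cases hr : r = 0
  · left
    intro i
    refine ⟨c i ^ M, ?_⟩
    subst hr
    rw [← hv, hvi, Finset.univ_eq_empty, Finset.prod_empty, Units.val_one, mul_one, map_pow]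
  · right
    refine ⟨{ r := r, hr := by omega, w := w, hwW := hwW, hw := hw, a := a, c := fun i => c i ^ M,
              hc := fun i => pow_ne_zero _ (hc0 i), hU := ?_, hspan := hspan }, fun i => ⟨c i, rfl⟩⟩
    intro i
    rw [← hv, hvi, mul_pow, map_pow]
    congr 1
    rw [← Units.val_pow_eq_pow_val, ← Finset.prod_pow]
    congr 1
    refine Finset.prod_congr rfl fun j _ => ?_
    rw [← zpow_natCast, ← zpow_mul, mul_comm]

theorem DatU.rank_le {N n : ℕ} {U : Fin n → Fin N} {M : ℕ} {W : Subgroup Bˣ}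
    {y : Fin N → B} (d : DatU k U y M W) : d.r ≤ n := by
  classical
  let T : (Fin n → ℤ) →ₗ[ℤ] (Fin d.r → ℤ) :=
    { toFun := fun b j => ∑ i, b i * d.a i j
      map_add' := fun x y => by
        funext j
        simp only [Pi.add_apply, add_mul, Finset.sum_add_distrib]
      map_smul' := fun c x => by
        funext j
        simp only [Pi.smul_apply, smul_eq_mul, RingHom.id_apply, Finset.mul_sum, mul_assoc] }
  have hT : ∀ b j, T b j = ∑ i, b i * d.a i j := fun b j => rfl
  have hsurj : Function.Surjective T := by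
    rw [← LinearMap.range_eq_top, eq_top_iff]
    intro v _
    have h1 : Submodule.span ℤ (Set.range d.a) ≤ LinearMap.range T := by
      rw [Submodule.span_le]
      rintro _ ⟨i, rfl⟩
      refine ⟨Pi.single i 1, ?_⟩
      funext j
      rw [hT, Finset.sum_eq_single i]
      · rw [Pi.single_eq_same, one_mul]
      · intro l _ hl
        rw [Pi.single_eq_of_ne hl, zero_mul]
      · intro h
        exact absurd (Finset.mem_univ _) h
    have h2 : v = ∑ j, v j • (Pi.single j 1 : Fin d.r → ℤ) := by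
      funext i
      rw [Finset.sum_apply, Finset.sum_eq_single i]
      · simp
      · intro j _ hj
        rw [Pi.smul_apply, Pi.single_eq_of_ne (Ne.symm hj), smul_zero]
      · intro h
        exact absurd (Finset.mem_univ _) h
    rw [h2]
    exact Submodule.sum_mem _ fun j _ => Submodule.smul_mem _ _ (h1 (d.hspan j))
  exact le_of_fin_surjective (R := ℤ) (f := T) hsurj

/-- the alternative for solutions with constant unit coordinates -/
theorem const_alt (Γ : Geo k B) {N n : ℕ} {Q : Type} [Fintype Q]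
    (U : Fin n → Fin N) (J : Q → Fin N) (m : Q → ℕ) (hm : ∀ j, 2 ≤ m j)
    (f : Q → MvPolynomial (Fin n) k) (y : Fin N → B)
    (hyI : ∀ i, y i ∈ Γ.I) {ι : Type} (F : ι → MvPolynomial (Fin N) k)
    (hF : ∀ l, aeval y (F l) = 0)
    (hJ : ∀ j, y (J j) ^ m j = aeval (fun i => y (U i)) (f j))
    (hc : ∀ i, ∃ c : k, y (U i) = algebraMap k B c)
    (hync : ∃ i, ∀ c : k, y i ≠ algebraMap k B c)
    {E : Type} [Field E] [IsAlgClosed E] (θ : B →+* E) (hθ : Function.Injective θ) :
    (∃ z : Fin N → E, (∀ l, eval₂ (θ.comp (algebraMap k B)) z (F l) = 0) ∧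
      (∀ i, z (U i) = θ (y (U i))) ∧ (∀ j, z (J j) = θ (y (J j))) ∧ z ≠ fun j => θ (y j)) := by
  classical
  choose c hc using hc
  have hcJ : ∀ j, ∃ c : k, y (J j) = algebraMap k B c := by
    intro j
    have hm2 := hm j
    obtain ⟨m', hm'⟩ : ∃ m', m j = m' + 1 := ⟨m j - 1, by omega⟩
    have h1 : y (J j) ^ m j = algebraMap k B (aeval c (f j)) := by
      rw [hJ]
      have h2 : (fun i => y (U i)) = fun i => algebraMap k B (c i) := funext hc
      rw [h2]
      have h3 : ((Algebra.ofId k B).comp (aeval c) : MvPolynomial (Fin n) k →ₐ[k] B) =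
          aeval (fun i => algebraMap k B (c i)) := by
        ext i
        simp [Algebra.ofId_apply]
      rw [← h3]
      rfl
    by_cases h0 : aeval c (f j) = 0
    · refine ⟨0, ?_⟩
      rw [h0, map_zero] at h1
      rw [map_zero]
      exact (pow_eq_zero_iff (by omega)).1 h1
    · set e := aeval c (f j) with he
      have h2 : y (J j) * (algebraMap k B e⁻¹ * y (J j) ^ m') = 1 := by
        have h3 : y (J j) * (algebraMap k B e⁻¹ * y (J j) ^ m') =
            algebraMap k B e⁻¹ * y (J j) ^ m j := by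
          rw [hm', pow_succ]
          ring
        rw [h3, h1, ← map_mul, inv_mul_cancel₀ h0, map_one]
      let u : Bˣ := ⟨y (J j), algebraMap k B e⁻¹ * y (J j) ^ m', h2, by rw [mul_comm]; exact h2⟩
      have hu : u ∈ Γ.W := Γ.I_W u (hyI _) (Γ.I.mul_mem (Γ.I_const _) (Γ.I.pow_mem (hyI _) _))
      obtain ⟨c', hc'⟩ := Γ.htf u hu (m j) (by omega) ⟨e, by
        rw [Units.val_pow_eq_pow_val]
        exact h1⟩
      exact ⟨c', hc'⟩
  choose cJ hcJ using hcJ
  have hw0 : AlgebraicIndependent k (fun j : Fin 0 => (j.elim0 : B)) := by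
    have h1 : Function.Injective (aeval (R := k) fun j : Fin 0 => (j.elim0 : B)) := by
      intro P Q h
      have h5 : ∀ P : MvPolynomial (Fin 0) k, P = MvPolynomial.C (coeff 0 P) := fun P =>
        eq_C_of_isEmpty P
      rw [h5 P, h5 Q, ← MvPolynomial.algebraMap_eq, AlgHom.commutes, AlgHom.commutes] at h
      rw [h5 P, h5 Q, (algebraMap k B).injective h]
    exact h1
  have hconst : ∀ i ∈ (Finset.univ.image U ∪ Finset.univ.image J), ∃ c : k,
      y i = algebraMap k B c := by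
    intro i hi
    rcases Finset.mem_union.1 hi with h | h
    · obtain ⟨l, -, rfl⟩ := Finset.mem_image.1 h
      exact ⟨_, hc l⟩
    · obtain ⟨l, -, rfl⟩ := Finset.mem_image.1 h
      exact ⟨_, hcJ l⟩
  choose! c2 hc2 using hconst
  rcases second_point (Finset.univ.image U ∪ Finset.univ.image J) F y hF
    (fun j : Fin 0 => (j.elim0 : B)) hw0 (fun i => C (c2 i)) (fun _ => 1)
    (fun i _ => one_ne_zero) (fun i hi => by
      rw [map_one, one_mul, hc2 i hi, ← MvPolynomial.algebraMap_eq, AlgHom.commutes]) θ hθ with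
    ⟨z, h1, h2, h3⟩ | h
  · refine ⟨z, h1, fun i => h2 _ ?_, fun j => h2 _ ?_, h3⟩
    · exact Finset.mem_union_left _ (Finset.mem_image_of_mem _ (Finset.mem_univ _))
    · exact Finset.mem_union_right _ (Finset.mem_image_of_mem _ (Finset.mem_univ _))
  · exfalso
    obtain ⟨i, hi⟩ := hync
    obtain ⟨p, q, -, hq, h4⟩ := h i
    have h5 : ∀ P : MvPolynomial (Fin 0) k, P = MvPolynomial.C (coeff 0 P) := fun P =>
      eq_C_of_isEmpty P
    rw [h5 q, h5 p, ← MvPolynomial.algebraMap_eq, AlgHom.commutes, AlgHom.commutes] at h4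
    have h6 : coeff 0 q ≠ 0 := by
      intro h
      apply hq
      rw [h5 q, h, C_0]
    apply hi ((coeff 0 q)⁻¹ * coeff 0 p)
    rw [map_mul, ← h4, ← mul_assoc, ← map_mul, inv_mul_cancel₀ h6, map_one, one_mul]

end Pool.Agent.H434
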