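import Mathlib
import Pool.Agent.H434.Eng

/-!
Leading forms, and the field of definition of the conditions.
-/

set_option autoImplicit false
set_option linter.unusedSectionVars false

open Finset Filter MvPolynomial

namespace Pool.Agent.H434

open Pool.Agent.N754.LT

section lead

variable {k : Type} [Field k] {r : ℕ}

/-- the part of a polynomial with exponents in a set -/
noncomputable def trunc (S : Finset (Fin r →₀ ℕ)) (P : MvPolynomial (Fin r) k) :
    MvPolynomial (Fin r) k := ∑ s ∈ S, monomial s (coeff s P)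

theorem coeff_trunc (S : Finset (Fin r →₀ ℕ)) (P : MvPolynomial (Fin r) k) (s : Fin r →₀ ℕ) :
    coeff s (trunc S P) = if s ∈ S then coeff s P else 0 := by
  classical
  unfold trunc
  rw [coeff_sum]
  simp only [coeff_monomial]
  rw [Finset.sum_ite_eq' S s (fun s => coeff s P)]

/-- the exponents which are maximal in the direction `l` -/
noncomputable def leadSet (l : Fin r → ℝ) (S : Finset (Fin r →₀ ℕ)) : Finset (Fin r →₀ ℕ) :=
  open Classical in S.filter fun s => ∀ t ∈ S, ∑ i, (t i : ℝ) * l i ≤ ∑ i, (s i : ℝ) * l i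

theorem mem_leadSet (l : Fin r → ℝ) (S : Finset (Fin r →₀ ℕ)) (s : Fin r →₀ ℕ) :
    s ∈ leadSet l S ↔ s ∈ S ∧ ∀ t ∈ S, lin t l ≤ lin s l := by
  classical
  unfold leadSet
  rw [Finset.mem_filter]
  rfl

/-- the leading form of a polynomial in the direction `l` -/
noncomputable def lead (l : Fin r → ℝ) (P : MvPolynomial (Fin r) k) : MvPolynomial (Fin r) k :=
  trunc (leadSet l P.support) P

theorem mx_monomial_mul_pow_le (e : Fin r →₀ ℕ) (g : MvPolynomial (Fin r) k) (m : ℕ)
    (l : Fin r → ℝ) (s : Fin r →₀ ℕ) (hs : s ∈ (monomial e 1 * g ^ m).support) :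
    lin s l ≤ lin e l + m * mx g.support l := by
  classical
  have h1 : ∀ m : ℕ, ∀ s ∈ (g ^ m).support, lin s l ≤ m * mx g.support l := by
    intro m
    induction m with
    | zero =>
      intro s hs
      rw [pow_zero] at hs
      have h2 : s = 0 := by
        rw [mem_support_iff, coeff_one] at hs
        by_contra hne
        exact hs (if_neg fun h => hne h.symm)
      rw [h2]
      unfold lin
      simp
    | succ m ih =>
      intro s hs
      rw [pow_succ] at hs
      have h2 := support_mul _ _ hs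
      obtain ⟨a, ha, b, hb, rfl⟩ := Finset.mem_add.1 h2
      rw [lin_add]
      have h3 := ih a ha
      have h4 := le_mx hb l
      push_cast
      linarith
  have h2 := support_mul _ _ hs
  obtain ⟨a, ha, b, hb, rfl⟩ := Finset.mem_add.1 h2
  have h3 := support_monomial_subset ha
  rw [Finset.mem_singleton] at h3
  rw [lin_add, h3]
  linarith [h1 m b hb]

theorem gp_lead {m : ℕ} (hm : 1 ≤ m) (P : MvPolynomial (Fin r) k) (l : Fin r → ℝ)
    (hP : ¬ PowForm m P) (h : PowForm m (lead l P)) :
    ∃ (e : Fin r →₀ ℕ) (g : MvPolynomial (Fin r) k), g ≠ 0 ∧ 0 < gp m P g e l := by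
  classical
  have hP0 : P ≠ 0 := by
    intro h0
    exact hP ⟨0, 0, by rw [h0, zero_pow (by omega), mul_zero]⟩
  have hne : P.support.Nonempty := support_nonempty.2 hP0
  obtain ⟨b, hb, hbm⟩ := exists_mx hne l
  have hbL : b ∈ leadSet l P.support := (mem_leadSet l _ _).2 ⟨hb, fun t ht => by
    rw [← hbm]
    exact le_mx ht l⟩
  obtain ⟨e, g, hg⟩ := h
  have hcb : coeff b (lead l P) ≠ 0 := by
    unfold lead
    rw [coeff_trunc, if_pos hbL]
    exact mem_support_iff.1 hb
  have hg0 : g ≠ 0 := by
    intro h0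
    apply hcb
    rw [hg, h0, zero_pow (by omega), mul_zero, coeff_zero]
  refine ⟨e, g, hg0, ?_⟩
  unfold gp
  rw [← hg]
  have h1 : lin b l ≤ lin e l + m * mx g.support l := by
    refine mx_monomial_mul_pow_le e g m l b ?_
    rw [← hg]
    exact mem_support_iff.2 hcb
  have h2 : (P - lead l P).support.Nonempty := by
    by_contra hcon
    rw [Finset.not_nonempty_iff_eq_empty] at hcon
    apply hP
    exact ⟨e, g, (sub_eq_zero.1 (support_eq_empty.1 hcon)).trans hg⟩
  obtain ⟨s, hs, h3⟩ := exists_mx h2 l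
  rw [h3]
  have h4 : s ∈ P.support ∧ s ∉ leadSet l P.support := by
    rw [mem_support_iff, coeff_sub] at hs
    unfold lead at hs
    rw [coeff_trunc] at hs
    by_cases h5 : s ∈ leadSet l P.support
    · rw [if_pos h5, sub_self] at hs
      exact absurd rfl hs
    · rw [if_neg h5, sub_zero] at hs
      exact ⟨mem_support_iff.2 hs, h5⟩
  have h5 : lin s l < lin b l := by
    refine lt_of_le_of_ne ?_ fun h6 => h4.2 ?_
    · rw [← hbm]
      exact le_mx h4.1 l
    · rw [mem_leadSet]
      refine ⟨h4.1, fun t ht => ?_⟩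
      rw [h6, ← hbm]
      exact le_mx ht l
  linarith

theorem support_map_eq {k' : Type} [Field k'] (φ : k →+* k') (P : MvPolynomial (Fin r) k) :
    (MvPolynomial.map φ P).support = P.support := support_map_of_injective P φ.injective

theorem map_trunc {k' : Type} [Field k'] (φ : k →+* k') (S : Finset (Fin r →₀ ℕ))
    (P : MvPolynomial (Fin r) k) :
    MvPolynomial.map φ (trunc S P) = trunc S (MvPolynomial.map φ P) := by
  unfold trunc
  rw [map_sum]
  refine Finset.sum_congr rfl fun s _ => ?_
  rw [map_monomial, coeff_map]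

theorem map_lead {k' : Type} [Field k'] (φ : k →+* k') (l : Fin r → ℝ)
    (P : MvPolynomial (Fin r) k) :
    MvPolynomial.map φ (lead l P) = lead l (MvPolynomial.map φ P) := by
  unfold lead
  rw [map_trunc, support_map_eq]

theorem PowForm.map {k' : Type} [Field k'] (φ : k →+* k') {m : ℕ} {P : MvPolynomial (Fin r) k}
    (h : PowForm m P) : PowForm m (MvPolynomial.map φ P) := by
  obtain ⟨e, g, rfl⟩ := h
  exact ⟨e, MvPolynomial.map φ g, by rw [map_mul, map_pow, map_monomial, map_one]⟩

end lead

/-- descent to algebraically closed fields -/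
theorem PowForm.descend {k E : Type} [Field k] [IsAlgClosed k] [Field E] (φ : k →+* E) {r m : ℕ}
    (P : MvPolynomial (Fin r) k) (h : PowForm m (MvPolynomial.map φ P)) : PowForm m P := by
  classical
  obtain ⟨e, g, hg⟩ := h
  -- the coefficients of `g` as variables
  let S : Type := g.support
  let A : Type := MvPolynomial S k
  let gen : MvPolynomial (Fin r) A := ∑ s : S, monomial s.1 (X s : A)
  let Eq : MvPolynomial (Fin r) A := monomial e 1 * gen ^ m - MvPolynomial.map C P
  let I : Ideal A := Ideal.span (Set.range fun b => coeff b Eq)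
  -- the solution over `E`
  let ev : A →+* E := eval₂Hom φ (fun s : S => coeff s.1 g)
  have hevg : MvPolynomial.map ev gen = g := by
    simp only [gen]
    rw [map_sum]
    have h1 : ∀ s : S, MvPolynomial.map ev (monomial s.1 (X s : A)) =
        monomial s.1 (coeff s.1 g) := by
      intro s
      rw [map_monomial]
      congr 1
      exact eval₂_X _ _ _
    simp only [h1]
    rw [Finset.sum_coe_sort g.support (fun s => monomial s (coeff s g))]
    exact g.support_sum_monomial_coeff
  have hevP : MvPolynomial.map ev (MvPolynomial.map C P) = MvPolynomial.map φ P := by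
    rw [MvPolynomial.map_map]
    have h3 : ev.comp C = φ := by
      ext c
      exact eval₂_C _ _ _
    rw [h3]
  have hev : ∀ b, ev (coeff b Eq) = 0 := by
    intro b
    rw [← coeff_map]
    simp only [Eq]
    rw [map_sub, map_mul, map_pow, hevg, map_monomial, map_one, hevP, ← hg, sub_self, coeff_zero]
  have hI : I ≠ ⊤ := by
    intro hI
    have h1 : I ≤ RingHom.ker ev := by
      rw [Ideal.span_le]
      rintro _ ⟨b, rfl⟩
      exact hev b
    have h2 : (1 : A) ∈ RingHom.ker ev := h1 (by rw [hI]; trivial)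
    rw [RingHom.mem_ker, map_one] at h2
    exact one_ne_zero h2
  -- a solution over `k`
  have hne : (zeroLocus k I).Nonempty := by
    by_contra hcon
    rw [Set.not_nonempty_iff_eq_empty] at hcon
    have h1 : (1 : A) ∈ vanishingIdeal k (zeroLocus k I) := by
      rw [hcon, mem_vanishingIdeal_iff]
      intro x hx
      exact absurd hx (Set.notMem_empty _)
    rw [vanishingIdeal_zeroLocus_eq_radical] at h1
    obtain ⟨n, hn⟩ := h1
    rw [one_pow] at hn
    exact hI ((Ideal.eq_top_iff_one _).2 hn)
  obtain ⟨z, hz⟩ := hne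
  let ez : A →+* k := eval₂Hom (RingHom.id k) z
  have hez : ∀ b, ez (coeff b Eq) = 0 := fun b => by
    have h1 := hz _ (Ideal.subset_span ⟨b, rfl⟩)
    rw [aeval_def] at h1
    exact h1
  refine ⟨e, MvPolynomial.map ez gen, ?_⟩
  have h1 : MvPolynomial.map ez Eq = 0 := by
    ext b
    rw [coeff_map, hez, coeff_zero]
  simp only [Eq] at h1
  have h2 : MvPolynomial.map ez (MvPolynomial.map C P) = P := by
    rw [MvPolynomial.map_map]
    have h3 : ez.comp C = RingHom.id k := by
      ext c
      exact eval₂_C _ _ _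
    rw [h3, MvPolynomial.map_id]
  rw [map_sub, map_mul, map_pow, map_monomial, map_one, h2, sub_eq_zero] at h1
  exact h1.symm

/-- either all polynomials are powers up to monomials, or there is a linear form such that for every
nonzero direction where it is not negative the leading form of some polynomial which is not a power up
to a monomial is such a power -/
def Tame {J : Type} {r : ℕ} (m : J → ℕ) (P : J → MvPolynomial (Fin r) ℂ) : Prop :=
  (∀ j, PowForm (m j) (P j)) ∨ ∃ μ : Fin r → ℝ, ∀ l : Fin r → ℝ, l ≠ 0 → 0 ≤ ∑ i, μ i * l i →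
    ∃ j, ¬ PowForm (m j) (P j) ∧ PowForm (m j) (lead l (P j))

theorem Tame.tameK {J : Type} {r : ℕ} {m : J → ℕ} (hm : ∀ j, 1 ≤ m j)
    {P : J → MvPolynomial (Fin r) ℂ} (h : Tame m P) : TameK m P := by
  rcases h with h | ⟨μ, hμ⟩
  · exact Or.inl h
  · refine Or.inr ⟨μ, fun l hl hl2 => ?_⟩
    obtain ⟨j, hj, h⟩ := hμ l hl hl2
    exact ⟨j, hj, gp_lead (hm j) (P j) l hj h⟩

/-- a field of definition for powers -/
theorem exists_field_pow {r m : ℕ} (P : MvPolynomial (Fin r) ℂ)
    (hP : ∀ s, IsAlgebraic ℚ (coeff s P)) (h : PowForm m P) :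
    ∃ T : Finset ℂ, (∀ a ∈ T, IsAlgebraic ℚ a) ∧ ∀ (M : Type) [Field M] (τ : M →+* ℂ)
      (Q : MvPolynomial (Fin r) M), MvPolynomial.map τ Q = P → (∀ a ∈ T, a ∈ τ.range) →
        PowForm m Q := by
  classical
  let A : IntermediateField ℚ ℂ := algebraicClosure ℚ ℂ
  have hA : IsAlgClosed A := (algebraicClosure.isAlgClosure ℚ ℂ).isAlgClosed
  have h1 : ∃ PA : MvPolynomial (Fin r) A, MvPolynomial.map (algebraMap A ℂ) PA = P := by
    refine ⟨∑ s ∈ P.support, monomial s (⟨coeff s P, mem_algebraicClosure_iff.2 (hP s)⟩ : A), ?_⟩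
    rw [map_sum]
    simp only [map_monomial]
    exact P.support_sum_monomial_coeff
  obtain ⟨PA, rfl⟩ := h1
  obtain ⟨e, g, hg⟩ := PowForm.descend (algebraMap A ℂ) PA h
  refine ⟨g.support.image fun s => ((coeff s g : A) : ℂ), ?_, ?_⟩
  · intro a ha
    obtain ⟨s, -, rfl⟩ := Finset.mem_image.1 ha
    exact mem_algebraicClosure_iff.1 (coeff s g).2
  · intro M _ τ Q hQ hT
    have h2 : ∀ s, ∃ c : M, τ c = ((coeff s g : A) : ℂ) := by
      intro s
      by_cases hs : s ∈ g.support
      · exact hT _ (Finset.mem_image.2 ⟨s, hs, rfl⟩)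
      · refine ⟨0, ?_⟩
        rw [notMem_support_iff.1 hs, map_zero]
        rfl
    choose c hc using h2
    refine ⟨e, ∑ s ∈ g.support, monomial s (c s), ?_⟩
    apply MvPolynomial.map_injective τ τ.injective
    have h3 : MvPolynomial.map (algebraMap A ℂ) g =
        MvPolynomial.map τ (∑ s ∈ g.support, monomial s (c s)) := by
      rw [map_sum]
      simp only [map_monomial, hc]
      conv_lhs => rw [← g.support_sum_monomial_coeff]
      rw [map_sum]
      refine Finset.sum_congr rfl fun s _ => ?_
      rw [map_monomial]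
      rfl
    rw [hQ, hg, map_mul, map_mul, map_pow, map_pow, map_monomial, map_monomial, map_one τ,
      map_one (algebraMap A ℂ), h3]

/-- a field of definition for the condition -/
theorem exists_field_tame {J : Type} [Finite J] {r : ℕ} {m : J → ℕ} (hm : ∀ j, 1 ≤ m j)
    (P : J → MvPolynomial (Fin r) ℂ) (hP : ∀ j s, IsAlgebraic ℚ (coeff s (P j)))
    (h : Tame m P) :
    ∃ T : Finset ℂ, (∀ a ∈ T, IsAlgebraic ℚ a) ∧ ∀ (M : Type) [Field M] [CharZero M]
      (τ : M →+* ℂ) (Q : J → MvPolynomial (Fin r) M), (∀ j, MvPolynomial.map τ (Q j) = P j) →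
        (∀ a ∈ T, a ∈ τ.range) → TameK m Q := by
  classical
  have := Fintype.ofFinite J
  have h1 : ∀ (j : J) (S : Finset (Fin r →₀ ℕ)), ∃ T : Finset ℂ, (∀ a ∈ T, IsAlgebraic ℚ a) ∧
      (PowForm (m j) (trunc S (P j)) → ∀ (M : Type) [Field M] (τ : M →+* ℂ)
      (Q : MvPolynomial (Fin r) M), MvPolynomial.map τ Q = trunc S (P j) →
      (∀ a ∈ T, a ∈ τ.range) → PowForm (m j) Q) := by
    intro j S
    by_cases hpf : PowForm (m j) (trunc S (P j))
    · obtain ⟨T, hT1, hT2⟩ := exists_field_pow (trunc S (P j)) (fun s => by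
        rw [coeff_trunc]
        split_ifs
        · exact hP j s
        · exact isAlgebraic_zero) hpf
      exact ⟨T, hT1, fun _ => hT2⟩
    · exact ⟨∅, fun a ha => absurd ha (Finset.notMem_empty a), fun h => absurd h hpf⟩
  choose T hT1 hT2 using h1
  refine ⟨Finset.univ.biUnion fun j => (P j).support.powerset.biUnion fun S => T j S, ?_, ?_⟩
  · intro a ha
    obtain ⟨j, -, ha⟩ := Finset.mem_biUnion.1 ha
    obtain ⟨S, -, ha⟩ := Finset.mem_biUnion.1 ha
    exact hT1 j S a ha
  · intro M _ _ τ Q hQ hT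
    have hTj : ∀ j, ∀ S ⊆ (P j).support, ∀ a ∈ T j S, a ∈ τ.range := fun j S hS a ha =>
      hT a (Finset.mem_biUnion.2 ⟨j, Finset.mem_univ _, Finset.mem_biUnion.2
        ⟨S, Finset.mem_powerset.2 hS, ha⟩⟩)
    have hno : ∀ j, PowForm (m j) (Q j) → PowForm (m j) (P j) := by
      intro j h
      rw [← hQ]
      exact h.map τ
    have hfull : ∀ j, trunc (P j).support (P j) = P j := fun j => (P j).support_sum_monomial_coeff
    rcases h with h | ⟨μ, hμ⟩
    · refine Or.inl fun j => ?_
      exact hT2 j (P j).support (by rw [hfull]; exact h j) M τ (Q j) (by rw [hfull, hQ])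
        (hTj j _ (Finset.Subset.refl _))
    · refine Or.inr ⟨μ, fun l hl hl2 => ?_⟩
      obtain ⟨j, hj, h⟩ := hμ l hl hl2
      have hj2 : ¬ PowForm (m j) (Q j) := fun h' => hj (hno j h')
      refine ⟨j, hj2, gp_lead (hm j) (Q j) l hj2 ?_⟩
      have hsub : leadSet l (P j).support ⊆ (P j).support := by
        intro s hs
        exact ((mem_leadSet l _ _).1 hs).1
      refine hT2 j (leadSet l (P j).support) h M τ (lead l (Q j)) ?_ (hTj j _ hsub)
      rw [map_lead, hQ]
      rfl

end Pool.Agent.H434
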