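import Mathlib
import Pool.Agent.H434.Desc

/-!
The condition on cosets.
-/

set_option autoImplicit false
set_option linter.unusedSectionVars false

open Finset Filter MvPolynomial

namespace Pool.Agent.H434

open Pool.Agent.N754.LT

theorem map_PP {k k' : Type} [Field k] [Field k'] (φ : k →+* k') {n r : ℕ} (κ : Fin r → ℕ)
    (a : Fin n → Fin r → ℤ) (c : Fin n → k) (f : MvPolynomial (Fin n) k) :
    MvPolynomial.map φ (PP κ a c f) = PP κ a (fun i => φ (c i)) (MvPolynomial.map φ f) := by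
  unfold PP
  rw [map_sum, support_map_eq]
  refine Finset.sum_congr rfl fun b _ => ?_
  rw [map_monomial, coeff_map, map_mul, map_prod]
  simp only [map_pow]

/-- the condition for the torus and for the translates of its subtori of dimension at least two -/
def TameCosets {q n : ℕ} (m : Fin q → ℕ) (f : Fin q → MvPolynomial (Fin n) ℂ) : Prop :=
  Tame m f ∧ ∀ r : ℕ, 2 ≤ r → r < n → ∀ (a : Fin n → Fin r → ℤ) (c : Fin n → ℂ),
    (∀ j, Pi.single j 1 ∈ Submodule.span ℤ (Set.range a)) → (∀ i, c i ≠ 0) →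
    ∀ κ : Fin q → Fin r → ℕ, (∀ j, GoodShift (κ j) a (f j)) → Tame m fun j => PP (κ j) a c (f j)

theorem goodShift_map {k k' : Type} [Field k] [Field k'] (φ : k →+* k') {n r : ℕ} {κ : Fin r → ℕ}
    {a : Fin n → Fin r → ℤ} {f : MvPolynomial (Fin n) k} (h : GoodShift κ a f) :
    GoodShift κ a (MvPolynomial.map φ f) := by
  unfold GoodShift at *
  rw [support_map_eq]
  exact h

theorem exists_root_C {m : ℕ} (hm : 1 ≤ m) (x : ℂ) : ∃ γ : ℂ, γ ^ m = x :=
  IsAlgClosed.exists_pow_nat_eq x (by omega)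

theorem cond_C {q n r : ℕ} (hr : 1 ≤ r) (hrn : r ≤ n) (a : Fin n → Fin r → ℤ)
    (hspan : ∀ j, Pi.single j 1 ∈ Submodule.span ℤ (Set.range a)) (c : Fin n → ℂ)
    (hc : ∀ i, c i ≠ 0) (m : Fin q → ℕ) (hm : ∀ j, 2 ≤ m j)
    (f : Fin q → MvPolynomial (Fin n) ℂ) (hT : TameCosets m f) :
    (r = n ∧ TameK m f) ∨ ∃ κ : Fin q → Fin r → ℕ,
      (∀ j, GoodShift (fun l => m j * κ j l) a (f j)) ∧
      TameK m fun j => PP (fun l => m j * κ j l) a c (f j) := by
  have hm1 : ∀ j, 1 ≤ m j := fun j => by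
    have := hm j
    omega
  by_cases h1 : r = n
  · exact Or.inl ⟨h1, hT.1.tameK hm1⟩
  · right
    choose κ hκ using fun j => exists_shift (m j) (hm1 j) a (f j)
    refine ⟨κ, hκ, ?_⟩
    by_cases h2 : r = 1
    · exact tameK_one h2 m hm1 _ fun j b => exists_root_C (hm1 j) _
    · exact (hT.2 r (by omega) (by omega) a c hspan hc (fun j l => m j * κ j l) hκ).tameK hm1

theorem cond_M {M1 : Type} [Field M1] [CharZero M1] (ψ1 : M1 →+* ℂ)
    (halg : ∀ x : M1, IsAlgebraic ℚ (ψ1 x)) {q n r : ℕ} (hr : 1 ≤ r) (hrn : r ≤ n)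
    (a : Fin n → Fin r → ℤ)
    (hspan : ∀ j, Pi.single j 1 ∈ Submodule.span ℤ (Set.range a)) (c : Fin n → M1)
    (hc : ∀ i, c i ≠ 0) (m : Fin q → ℕ) (hm : ∀ j, 2 ≤ m j)
    (f : Fin q → MvPolynomial (Fin n) M1)
    (hT : TameCosets m fun j => MvPolynomial.map ψ1 (f j)) :
    ∃ T : Finset ℂ, (∀ x ∈ T, IsAlgebraic ℚ x) ∧ ∀ (M2 : Type) [Field M2] [CharZero M2]
      (ψ2 : M2 →+* ℂ) (τ : M1 →+* M2), ψ2.comp τ = ψ1 → (∀ x ∈ T, x ∈ ψ2.range) →
      (r = n ∧ TameK m fun j => MvPolynomial.map τ (f j)) ∨ ∃ κ : Fin q → Fin r → ℕ,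
        (∀ j, GoodShift (fun l => m j * κ j l) a (MvPolynomial.map τ (f j))) ∧
        TameK m fun j => PP (fun l => m j * κ j l) a (fun i => τ (c i))
          (MvPolynomial.map τ (f j)) := by
  classical
  have hm1 : ∀ j, 1 ≤ m j := fun j => by
    have := hm j
    omega
  have hcoe : ∀ (P : MvPolynomial (Fin n) M1) s, IsAlgebraic ℚ (coeff s (MvPolynomial.map ψ1 P)) :=
    fun P s => by
      rw [coeff_map]
      exact halg _
  by_cases h1 : r = n
  · obtain ⟨T, hT1, hT2⟩ := exists_field_tame hm1 (fun j => MvPolynomial.map ψ1 (f j))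
      (fun j s => hcoe _ s) hT.1
    refine ⟨T, hT1, fun M2 _ _ ψ2 τ hψ hT3 => Or.inl ⟨h1, ?_⟩⟩
    refine hT2 M2 ψ2 _ (fun j => ?_) hT3
    rw [MvPolynomial.map_map, hψ]
  · choose κ hκ using fun j => exists_shift (m j) (hm1 j) a (f j)
    let P : Fin q → MvPolynomial (Fin r) M1 := fun j => PP (fun l => m j * κ j l) a c (f j)
    have hPc : ∀ j s, IsAlgebraic ℚ (coeff s (MvPolynomial.map ψ1 (P j))) := fun j s => by
      rw [coeff_map]
      exact halg _
    by_cases h2 : r = 1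
    · choose γ hγ using fun (j : Fin q) (x : ℂ) => exists_root_C (hm1 j) x
      refine ⟨Finset.univ.biUnion fun j => (P j).support.image fun s => γ j (ψ1 (coeff s (P j))),
        ?_, ?_⟩
      · intro x hx
        obtain ⟨j, -, hx⟩ := Finset.mem_biUnion.1 hx
        obtain ⟨s, -, rfl⟩ := Finset.mem_image.1 hx
        refine IsAlgebraic.of_pow (n := m j) (by have := hm1 j; omega) ?_
        rw [hγ]
        exact halg _
      · intro M2 _ _ ψ2 τ hψ hT3
        refine Or.inr ⟨κ, fun j => goodShift_map τ (hκ j), ?_⟩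
        refine tameK_one h2 m hm1 _ fun j b => ?_
        rw [← map_PP, coeff_map]
        by_cases hb : b ∈ (P j).support
        · obtain ⟨δ, hδ⟩ := hT3 (γ j (ψ1 (coeff b (P j)))) (Finset.mem_biUnion.2
            ⟨j, Finset.mem_univ _, Finset.mem_image.2 ⟨b, hb, rfl⟩⟩)
          refine ⟨δ, ?_⟩
          apply ψ2.injective
          rw [map_pow, hδ, hγ, ← hψ]
          rfl
        · refine ⟨0, ?_⟩
          have h3 : coeff b (P j) = 0 := notMem_support_iff.1 hb
          simp only [P] at h3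
          rw [h3, map_zero, zero_pow (by have := hm1 j; omega)]
    · have hPmap : ∀ j, MvPolynomial.map ψ1 (P j) = PP (fun l => m j * κ j l) a
          (fun i => ψ1 (c i)) (MvPolynomial.map ψ1 (f j)) := fun j => map_PP _ _ _ _ _
      have hTP : Tame m fun j => MvPolynomial.map ψ1 (P j) := by
        simp only [hPmap]
        exact hT.2 r (by omega) (by omega) a (fun i => ψ1 (c i)) hspan
          (fun i => (map_ne_zero ψ1).2 (hc i)) (fun j l => m j * κ j l)
          (fun j => goodShift_map ψ1 (hκ j))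
      obtain ⟨T, hT1, hT2⟩ := exists_field_tame hm1 (fun j => MvPolynomial.map ψ1 (P j)) hPc hTP
      refine ⟨T, hT1, fun M2 _ _ ψ2 τ hψ hT3 => Or.inr ⟨κ, fun j => goodShift_map τ (hκ j), ?_⟩⟩
      refine hT2 M2 ψ2 _ (fun j => ?_) hT3
      rw [map_PP, MvPolynomial.map_map, hψ, hPmap]
      congr 1
      funext i
      rw [← hψ]
      rfl

end Pool.Agent.H434
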