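import Mathlib
import Pool.Agent.H434.Geo
import Pool.Graph.R_pool_sql_team_seeded_63374d34.N754.LT.Ana

/-!
The ring of entire functions.
-/

set_option autoImplicit false
set_option linter.unusedSectionVars false

open Finset Filter Metric MvPolynomial

namespace Pool.Agent.H434

open Pool.Agent.N754.LT
open Pool.Agent.H159R3.NV Pool.Agent.W602.NC
open NumberField Pool.Agent.W235.RM Pool.Agent.H159R3.Exp

/-- the subspace theorem for entire functions -/
theorem instN (r n : ℕ) (w : Fin r → Entˣ) (y : Fin n → Ent) (hr : 1 ≤ r)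
    (hnc : ∀ j, ∀ c : ℂ, (w j : Ent) ≠ algebraMap ℂ Ent c) : Nonempty (Inst ℂ w y) := by
  classical
  let mw : Fin r → ℝ → ℝ := fun j s =>
    mm ((w j : Ent) : ℂ → ℂ) s + mm ((((w j)⁻¹ : Entˣ) : Ent) : ℂ → ℂ) s
  let A : ℝ → ℝ := fun s => ∑ j, mw j s + ∑ i, mm (y i : ℂ → ℂ) s
  have hmw0 : ∀ j s, 0 ≤ mw j s := fun j s => add_nonneg (mm_nonneg _ _) (mm_nonneg _ _)
  let T : ℝ → ℝ := fun s => 1 + s + A s
  have hA0 : ∀ s, 0 ≤ A s := fun s => add_nonneg (Finset.sum_nonneg fun _ _ => hmw0 _ _)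
    (Finset.sum_nonneg fun _ _ => mm_nonneg _ _)
  have hT : Sc T :=
    { le := fun s _ => by
        have := hA0 s
        simp only [T]
        linarith
      mono := fun r s hr hrs => by
        have h1 : A r ≤ A s := by
          refine add_le_add (Finset.sum_le_sum fun j _ => add_le_add ?_ ?_)
            (Finset.sum_le_sum fun i _ => ?_)
          · exact mm_mono (w j : Ent).2 (by linarith) hrs
          · exact mm_mono (((w j)⁻¹ : Entˣ) : Ent).2 (by linarith) hrs
          · exact mm_mono (y i).2 (by linarith) hrs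
        simp only [T]
        linarith }
  have hmwT : ∀ j s, 1 ≤ s → mw j s ≤ T s := by
    intro j s hs
    have h1 : mw j s ≤ ∑ j, mw j s :=
      Finset.single_le_sum (f := fun j => mw j s) (fun _ _ => hmw0 _ _) (Finset.mem_univ j)
    have h2 : 0 ≤ ∑ i, mm (y i : ℂ → ℂ) s := Finset.sum_nonneg fun _ _ => mm_nonneg _ _
    simp only [T, A]
    linarith
  have hwB : ∀ j, BG T ((w j : Ent) : ℂ → ℂ) := fun j => ⟨1, fun s hs => by
    have h1 := hmwT j s hs
    have h2 := mm_nonneg ((((w j)⁻¹ : Entˣ) : Ent) : ℂ → ℂ) s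
    simp only [mw] at h1
    linarith⟩
  have hwB' : ∀ j, BG T ((((w j)⁻¹ : Entˣ) : Ent) : ℂ → ℂ) := fun j => ⟨1, fun s hs => by
    have h1 := hmwT j s hs
    have h2 := mm_nonneg ((w j : Ent) : ℂ → ℂ) s
    simp only [mw] at h1
    linarith⟩
  have hyB : ∀ i, BG T (y i : ℂ → ℂ) := fun i => ⟨1, fun s hs => by
    have h1 : mm (y i : ℂ → ℂ) s ≤ ∑ i, mm (y i : ℂ → ℂ) s :=
      Finset.single_le_sum (f := fun i => mm (y i : ℂ → ℂ) s) (fun _ _ => mm_nonneg _ _)
        (Finset.mem_univ i)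
    have h2 : 0 ≤ ∑ j, mw j s := Finset.sum_nonneg fun _ _ => hmw0 _ _
    simp only [T, A]
    linarith⟩
  let wR : Fin r → (RN T hT)ˣ := fun j =>
    { val := mkN (w j : Ent) (hwB j)
      inv := mkN (((w j)⁻¹ : Entˣ) : Ent) (hwB' j)
      val_inv := by
        apply eN_inj
        rw [map_mul, eN_mkN, eN_mkN, map_one]
        exact Units.mul_inv (w j)
      inv_val := by
        apply eN_inj
        rw [map_mul, eN_mkN, eN_mkN, map_one]
        exact Units.inv_mul (w j) }
  let yR : Fin n → RN T hT := fun i => mkN (y i) (hyB i)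
  obtain ⟨c, s0, hc, hs0, hgr⟩ := unit_growth (w ⟨0, hr⟩) (hnc ⟨0, hr⟩)
  let C : ℝ := 1 + 1 / c
  have hC : 0 ≤ C := by positivity
  refine ⟨{ R := RN T hT
            cr := inferInstance
            dom := inferInstance
            alg := inferInstance
            D := DcN hT
            ψ := eN T hT
            hψ := eN_inj
            wR := wR
            hwR := fun j => rfl
            yR := yR
            hyR := fun i => rfl
            hone := ⟨C, hC, ?_⟩
            hnn := not_neg_oneN hT }⟩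
  intro ε hε
  filter_upwards [FF_ge (T := T) s0, FF_big hT (1 / ε)] with s hs hb
  rw [div_le_iff₀ hε] at hb
  have hs1 : 1 ≤ s := hs0.trans hs
  have iw : ∀ j, CircleIntegrable (fun z => Real.posLog ‖((w j : Ent) : ℂ → ℂ) z‖ +
      Real.posLog ‖((((w j)⁻¹ : Entˣ) : Ent) : ℂ → ℂ) z‖) 0 s := fun j =>
    (ci_posLog (mero_of_diff (w j : Ent).2) s).add
      (ci_posLog (mero_of_diff (((w j)⁻¹ : Entˣ) : Ent).2) s)
  have iy : ∀ i, CircleIntegrable (fun z => Real.posLog ‖(y i : ℂ → ℂ) z‖) 0 s := fun i =>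
    ci_posLog (mero_of_diff (y i).2) s
  let W : ℂ → ℝ := fun z => ∑ j, (Real.posLog ‖((w j : Ent) : ℂ → ℂ) z‖ +
      Real.posLog ‖((((w j)⁻¹ : Entˣ) : Ent) : ℂ → ℂ) z‖)
  let Y : ℂ → ℝ := fun z => ∑ i, Real.posLog ‖(y i : ℂ → ℂ) z‖
  have iW : CircleIntegrable W 0 s := by
    have h1 := CircleIntegrable.sum Finset.univ (fun j _ => iw j)
    have h2 : W = ∑ j, fun z => (Real.posLog ‖((w j : Ent) : ℂ → ℂ) z‖ +
      Real.posLog ‖((((w j)⁻¹ : Entˣ) : Ent) : ℂ → ℂ) z‖) := by
      funext z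
      rw [Finset.sum_apply]
    rw [h2]
    exact h1
  have iY : CircleIntegrable Y 0 s := by
    have h1 := CircleIntegrable.sum Finset.univ (fun i _ => iy i)
    have h2 : Y = ∑ i, fun z => Real.posLog ‖(y i : ℂ → ℂ) z‖ := by
      funext z
      rw [Finset.sum_apply]
    rw [h2]
    exact h1
  have iWY : CircleIntegrable (fun z => W z + Y z) 0 s := iW.add iY
  have iCWY : CircleIntegrable (fun z => C • (W z + Y z)) 0 s := iWY.const_smul
  refine ⟨fun z => T s - C • (W z + Y z), (circleIntegrable_const _ _ _).sub iCWY, ?_, ?_⟩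
  · refine cod_of_all (by linarith) fun z hz => ?_
    have h1 : ∀ j, |Real.log ‖((w j : Ent) : ℂ → ℂ) z‖| =
        Real.posLog ‖((w j : Ent) : ℂ → ℂ) z‖ +
        Real.posLog ‖((((w j)⁻¹ : Entˣ) : Ent) : ℂ → ℂ) z‖ := by
      intro j
      have h4 := (unit_val (w j) z).2
      rw [h4, norm_inv, Real.posLog_apply, Real.posLog_apply, Real.log_inv]
      rcases abs_cases (Real.log ‖((w j : Ent) : ℂ → ℂ) z‖) with ⟨h5, h6⟩ | ⟨h5, h6⟩
      · rw [h5, max_eq_right h6, max_eq_left (by linarith), add_zero]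
      · rw [h5, max_eq_left h6.le, max_eq_right (by linarith), zero_add]
    have h2 : ∀ i, max (Real.log ‖(y i : ℂ → ℂ) z‖) 0 = Real.posLog ‖(y i : ℂ → ℂ) z‖ := by
      intro i
      rw [Real.posLog_apply, max_comm]
    show T ‖z‖ - C * (∑ j, |Real.log ‖((w j : Ent) : ℂ → ℂ) z‖| +
      ∑ i, max (Real.log ‖(y i : ℂ → ℂ) z‖) 0) ≤ T s - C * (W z + Y z)
    rw [hz]
    simp only [h1, h2]
    exact le_refl _
  · rw [Real.circleAverage_fun_sub (circleIntegrable_const _ _ _) iCWY, Real.circleAverage_const,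
      Real.circleAverage_fun_smul, Real.circleAverage_fun_add iW iY, smul_eq_mul]
    have h1 : Real.circleAverage W 0 s = ∑ j, mw j s := by
      simp only [W]
      rw [Real.circleAverage_fun_sum (fun j _ => iw j)]
      refine Finset.sum_congr rfl fun j _ => ?_
      exact Real.circleAverage_fun_add (ci_posLog (mero_of_diff (w j : Ent).2) s)
        (ci_posLog (mero_of_diff (((w j)⁻¹ : Entˣ) : Ent).2) s)
    have h2 : Real.circleAverage Y 0 s = ∑ i, mm (y i : ℂ → ℂ) s := by
      simp only [Y]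
      rw [Real.circleAverage_fun_sum (fun i _ => iy i)]
      rfl
    rw [h1, h2]
    have h3 : ∑ j, mw j s + ∑ i, mm (y i : ℂ → ℂ) s = A s := rfl
    rw [h3]
    have h4 : c * s ≤ A s := by
      refine (hgr s hs).trans ?_
      have h5 : mw ⟨0, hr⟩ s ≤ ∑ j, mw j s :=
        Finset.single_le_sum (f := fun j => mw j s) (fun _ _ => hmw0 _ _) (Finset.mem_univ _)
      have h6 : 0 ≤ ∑ i, mm (y i : ℂ → ℂ) s := Finset.sum_nonneg fun _ _ => mm_nonneg _ _
      have h7 : mw ⟨0, hr⟩ s = mm ((w ⟨0, hr⟩ : Ent) : ℂ → ℂ) s +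
        mm ((((w ⟨0, hr⟩)⁻¹ : Entˣ) : Ent) : ℂ → ℂ) s := rfl
      linarith
    have h5 : T s - C * A s ≤ 1 := by
      have h6 : T s - C * A s = 1 + s - (1 / c) * A s := by
        simp only [T, C]
        ring
      rw [h6]
      have h7 : (1 / c) * (c * s) ≤ (1 / c) * A s := mul_le_mul_of_nonneg_left h4 (by positivity)
      have h8 : (1 / c) * (c * s) = s := by field_simp
      linarith
    linarith

/-- entire functions -/
noncomputable def geoN : Geo ℂ Ent where
  W := ⊤
  I := ⊤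
  W_I := fun _ _ => trivial
  I_W := fun _ _ _ => trivial
  I_const := fun _ => trivial
  hunit := fun m g _ => unitN m g
  htf := fun g _ => tfN g
  inst := fun r n w y hr _ hnc _ => instN r n w y hr hnc

end Pool.Agent.H434
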