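import Mathlib
import Pool.Agent.H434.Cond
import Pool.Agent.H434.GeoN
import Pool.Graph.R_pool_sql_team_seeded_63374d34.N754.LT.Fin

/-!
The analytic half for covers of tori.
-/

set_option autoImplicit false
set_option linter.unusedSectionVars false

open Finset MvPolynomial Filter Metric

namespace Pool.Agent.H434

open Pool.Agent.N754.LT
open NumberField IsDedekindDomain
open Pool.Agent.W235.RM Pool.Agent.H159R3.Exp Pool.Agent.H159R3.NV

/-- roots of units -/
theorem unit_root (e : ℕ) (he : 1 ≤ e) (u : Entˣ) : ∃ v : Entˣ, (v : Ent) ^ e = (u : Ent) := by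
  obtain ⟨G, hG, hgG⟩ := entire_log ((u : Ent) : ℂ → ℂ) (u : Ent).2 (fun z => (unit_val u z).1)
  have hd : Differentiable ℂ fun z => Complex.exp (G z / e) := (hG.div_const _).cexp
  have hd' : Differentiable ℂ fun z => Complex.exp (-(G z / e)) := (hG.div_const _).neg.cexp
  let a : Ent := ⟨fun z => Complex.exp (G z / e), hd⟩
  let b : Ent := ⟨fun z => Complex.exp (-(G z / e)), hd'⟩
  have hab : a * b = 1 := by
    apply Subtype.ext
    funext z
    show Complex.exp (G z / e) * Complex.exp (-(G z / e)) = 1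
    rw [← Complex.exp_add, add_neg_cancel, Complex.exp_zero]
  refine ⟨⟨a, b, hab, by rw [mul_comm]; exact hab⟩, ?_⟩
  apply Subtype.ext
  funext z
  have h1 : ((((⟨a, b, hab, by rw [mul_comm]; exact hab⟩ : Entˣ) : Ent) ^ e : Ent) : ℂ → ℂ) z =
      (Complex.exp (G z / e)) ^ e := rfl
  rw [h1, ← Complex.exp_nat_mul, hgG]
  congr 1
  have h2 : (e : ℂ) ≠ 0 := Nat.cast_ne_zero.2 (by omega)
  field_simp

theorem entire_cov {K : Type} [Field K] [NumberField K] (σ : K →+* ℂ) {ι κ : Type}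
    [Finite ι] {N n q : ℕ} (F : ι → MvPolynomial (Fin N) (𝓞 K))
    (G : κ → MvPolynomial (Fin N) (𝓞 K))
    (U : Fin n → Fin N) (J : Fin q → Fin N) (m : Fin q → ℕ) (hm : ∀ j, 2 ≤ m j)
    (f : Fin q → MvPolynomial (Fin n) (𝓞 K))
    (hU : ∀ z : Fin N → ℂ, (∀ l, eval₂ (σ.comp (algebraMap (𝓞 K) K)) z (F l) = 0) →
      ∀ i, z (U i) ≠ 0)
    (hJ : ∀ z : Fin N → ℂ, (∀ l, eval₂ (σ.comp (algebraMap (𝓞 K) K)) z (F l) = 0) →
      ∀ j, z (J j) ^ m j = eval₂ (σ.comp (algebraMap (𝓞 K) K)) (fun i => z (U i)) (f j))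
    (hT : TameCosets m fun j => MvPolynomial.map (σ.comp (algebraMap (𝓞 K) K)) (f j))
    (hal : Alone σ F G (Finset.univ.image U ∪ Finset.univ.image J))
    (h : GmCurvesIn σ F G) : EntireCurvesIn σ F G := by
  classical
  intro g hg hF hnc z1 l
  by_contra hG
  let τ : 𝓞 K →+* ℂ := σ.comp (algebraMap (𝓞 K) K)
  have hgj : ∀ j, Differentiable ℂ (fun z => g z j) := fun j => (differentiable_pi.1 hg) j
  let y : Fin N → Ent := fun j => ⟨fun z => g z j, hgj j⟩
  let FC : ι → MvPolynomial (Fin N) ℂ := fun i => MvPolynomial.map τ (F i)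
  have hev' : ∀ {s : ℕ} (u : Fin s → Ent) (P : MvPolynomial (Fin s) ℂ) (z : ℂ),
      ((aeval u P : Ent) : ℂ → ℂ) z = eval (fun i => (u i : ℂ → ℂ) z) P := by
    intro s u P z
    let ev : Ent →ₐ[ℂ] ℂ := (Pi.evalAlgHom ℂ (fun _ : ℂ => ℂ) z).comp Ent.val
    have h1 : ev (aeval u P) = aeval (fun j => ev (u j)) P := by
      have h3 : (ev.comp (aeval u)) = aeval (fun j => ev (u j)) := by
        ext i
        simp
      exact DFunLike.congr_fun h3 P
    have h2 : aeval (fun j => ev (u j)) P = eval (fun i => (u i : ℂ → ℂ) z) P := by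
      rw [ae_eval]
      rfl
    rw [← h2, ← h1]
    rfl
  have hev : ∀ (P : MvPolynomial (Fin N) ℂ) (z : ℂ), ((aeval y P : Ent) : ℂ → ℂ) z =
      eval (g z) P := fun P z => hev' y P z
  have hFC : ∀ i, aeval y (FC i) = 0 := by
    intro i
    apply Subtype.ext
    funext z
    rw [hev]
    simp only [FC]
    rw [eval_map]
    exact hF z i
  have hJy : ∀ j, y (J j) ^ m j = aeval (fun i => y (U i)) (MvPolynomial.map τ (f j)) := by
    intro j
    apply Subtype.ext
    funext z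
    rw [hev', eval_map]
    exact hJ (g z) (fun l => hF z l) j
  have hyU : ∀ i, ∃ u : Entˣ, (u : Ent) = y (U i) := by
    intro i
    have h0 : ∀ z, g z (U i) ≠ 0 := fun z => hU (g z) (fun l => hF z l) i
    let v : Ent := ⟨fun z => (g z (U i))⁻¹, (hgj _).inv h0⟩
    have h1 : y (U i) * v = 1 := by
      apply Subtype.ext
      funext z
      exact mul_inv_cancel₀ (h0 z)
    exact ⟨⟨y (U i), v, h1, by rw [mul_comm]; exact h1⟩, rfl⟩
  have hync : ∃ i, ∀ c : ℂ, y i ≠ algebraMap ℂ Ent c := by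
    by_contra hcon
    push Not at hcon
    obtain ⟨z, w, hzw⟩ := hnc
    apply hzw
    funext j
    obtain ⟨c, hc⟩ := hcon j
    have h1 : ∀ z, g z j = c := fun z => by
      have h2 := congrArg (fun g : Ent => (g : ℂ → ℂ) z) hc
      exact h2
    rw [h1, h1]
  have hGc : ∀ᶠ z in nhdsWithin z1 {z1}ᶜ, eval₂ τ (g z) (G l) ≠ 0 := by
    have h1 : Differentiable ℂ (fun z => eval₂ τ (g z) (G l)) := by
      have h2 : (fun z => eval₂ τ (g z) (G l)) =
          ((aeval y (MvPolynomial.map τ (G l)) : Ent) : ℂ → ℂ) := by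
        funext z
        rw [hev, eval_map]
      rw [h2]
      exact (aeval y (MvPolynomial.map τ (G l)) : Ent).2
    exact ev_ne h1 hG z1
  let 𝒰 : Ultrafilter ℂ := Ultrafilter.of (nhdsWithin z1 ({z1}ᶜ : Set ℂ))
  have h𝒰 : (𝒰 : Filter ℂ) ≤ nhdsWithin z1 ({z1}ᶜ : Set ℂ) := Ultrafilter.of_le _
  let θ : Ent →+* GC ℂ 𝒰 := (gc 𝒰).comp Ent.val.toRingHom
  have hθ : Function.Injective θ := by
    rw [injective_iff_map_eq_zero]
    intro x hx
    by_contra hx0
    have h1 : ∀ᶠ z in (𝒰 : Filter ℂ), (x : ℂ → ℂ) z = 0 := (gc_zero 𝒰 _).1 hx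
    have h2 : ∀ᶠ z in (𝒰 : Filter ℂ), (x : ℂ → ℂ) z ≠ 0 := h𝒰 ((rpN z1).rep_ne x hx0)
    obtain ⟨z, h3, h4⟩ := (h1.and h2).exists
    exact h4 h3
  -- roots of the units
  let e : ℕ := ∏ j, m j
  have he : 1 ≤ e := Finset.one_le_prod' fun j _ => by
    have := hm j
    omega
  have hme : ∀ j, m j ∣ e := fun j => Finset.dvd_prod_of_mem m (Finset.mem_univ j)
  choose u hu using hyU
  choose v hv using fun i => unit_root e he (u i)
  have hprim : IsPrimitiveRoot (Complex.exp (2 * Real.pi * Complex.I / e)) e :=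
    Complex.isPrimitiveRoot_exp e (by omega)
  -- the alternatives
  have halt : (∃ z : Fin N → GC ℂ 𝒰, (∀ l, eval₂ (θ.comp (algebraMap ℂ Ent)) z (FC l) = 0) ∧
      (∀ i, z (U i) = θ (y (U i))) ∧ (∀ j, z (J j) = θ (y (J j))) ∧ z ≠ fun j => θ (y j)) ∨
      ∀ᶠ t in (rpN z1).G, CurveAt (rpN z1) FC y t := by
    rcases exists_datU geoN U e y v (fun _ => trivial) (fun i => by rw [hv, hu]) with
      hcon | ⟨d, hd⟩
    · left
      exact const_alt geoN U J m hm (fun j => MvPolynomial.map τ (f j)) y (fun _ => trivial)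
        FC hFC hJy hcon hync θ hθ
    · rcases cond_C d.hr d.rank_le d.a d.hspan d.c d.hc m hm
        (fun j => MvPolynomial.map τ (f j)) hT with ⟨hrn, hTK⟩ | ⟨κ', hκ', hTK⟩
      · exact full_alt geoN (rpN z1) U J m hm he hme _ hprim (fun j => MvPolynomial.map τ (f j))
          y (fun _ => trivial) FC hFC d hJy hd hrn hTK θ hθ
      · exact coset_alt geoN (rpN z1) U J m hm he hme _ hprim (fun j => MvPolynomial.map τ (f j))
          y (fun _ => trivial) FC hFC d hJy κ' hκ' hTK θ hθ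
  rcases halt with ⟨z, h1, h2, h3, h4⟩ | hcurve
  · have hsec : ∃ z : Fin N → GC ℂ 𝒰, (∀ l, eval₂ (θ.comp (algebraMap ℂ Ent)) z (FC l) = 0) ∧
        (∀ i ∈ Finset.univ.image U ∪ Finset.univ.image J, z i = θ (y i)) ∧
        z ≠ fun j => θ (y j) := by
      refine ⟨z, h1, fun i hi => ?_, h4⟩
      rcases Finset.mem_union.1 hi with h | h
      · obtain ⟨l, -, rfl⟩ := Finset.mem_image.1 h
        exact h2 l
      · obtain ⟨l, -, rfl⟩ := Finset.mem_image.1 h
        exact h3 l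
    have hsec2 := gc_second 𝒰 (RingHom.id ℂ) (Finset.univ.image U ∪ Finset.univ.image J) FC g hsec
    obtain ⟨z, ⟨z', hz1, hz2, hz3⟩, hz4⟩ := (hsec2.and (h𝒰 hGc)).exists
    apply hz3
    refine hal (g z) z' (fun l => hF z l) (fun l => ?_) hz2 ⟨l, hz4⟩
    have h1 := hz1 l
    simp only [FC] at h1
    rw [eval₂_map, RingHom.id_comp] at h1
    exact h1
  · have hcurve' : ∀ᶠ z : ℂ in nhdsWithin z1 ({z1}ᶜ : Set ℂ),
        CurveAt (rpN z1) FC y (show (rpN z1).T from z) := hcurve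
    obtain ⟨z, ⟨v, hv1, hv2, hv3, j0, hj0⟩, hz⟩ := (hcurve'.and hGc).exists
    have h1 := h v hv1 (fun i t ht => by
      have h2 := hv2 i t ht
      simp only [FC] at h2
      rw [eval_map] at h2
      exact h2) ⟨2, 1, two_ne_zero, one_ne_zero, fun h2 => hj0 (congrFun h2 j0)⟩ l 1 one_ne_zero
    rw [hv3] at h1
    exact hz h1

end Pool.Agent.H434
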