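import Mathlib
import Pool.Agent.H434.Cond
import Pool.Agent.H434.GeoA
import Pool.Graph.R_seed8.H39R3.Tor.SUnit
import Pool.Graph.R_pool_sql_team_seeded_63374d34.N754.LT.Fin

/-!
Change of the number field.
-/

set_option autoImplicit false
set_option linter.unusedSectionVars false

open Finset MvPolynomial Filter

namespace Pool.Agent.H434

open Pool.Agent.N754.LT
open NumberField IsDedekindDomain
open Pool.Agent.Y742.SF Pool.Agent.Y742.AR
open Pool.Agent.W235.RM Pool.Agent.H159R3.Exp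

section germs

variable {M1 M2 : Type} [Field M1] [NumberField M1] [Field M2] [NumberField M2] (τ : M1 →+* M2)
  (𝒰 : Ultrafilter ℕ)

/-- germs over a larger field -/
noncomputable def bc : BA M1 𝒰 →+* BA M2 𝒰 where
  toFun x := (gm 𝒰 (fun t => τ (rep (K := M1) (𝒰 := 𝒰) x t)) : GK M2 𝒰)
  map_one' := by
    show (gm 𝒰 (fun t => τ (rep (K := M1) (𝒰 := 𝒰) (1 : BA M1 𝒰) t)) : GK M2 𝒰) = 1
    rw [← map_one (gm (K := M2) 𝒰), gm_eq]
    filter_upwards [Pool.Agent.Y742.AR.rep_one (K := M1) (𝒰 := 𝒰)] with t h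
    have h1 : rep (K := M1) (𝒰 := 𝒰) (1 : BA M1 𝒰) t = 1 := h
    rw [h1, map_one]
    rfl
  map_zero' := by
    show (gm 𝒰 (fun t => τ (rep (K := M1) (𝒰 := 𝒰) (0 : BA M1 𝒰) t)) : GK M2 𝒰) = 0
    rw [← map_zero (gm (K := M2) 𝒰), gm_eq]
    filter_upwards [Pool.Agent.Y742.AR.rep_zero (K := M1) (𝒰 := 𝒰)] with t h
    have h1 : rep (K := M1) (𝒰 := 𝒰) (0 : BA M1 𝒰) t = 0 := h
    rw [h1, map_zero]
    rfl
  map_mul' x y := by
    show (gm 𝒰 (fun t => τ (rep (K := M1) (𝒰 := 𝒰) (x * y : BA M1 𝒰) t)) : GK M2 𝒰) =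
      gm 𝒰 (fun t => τ (rep (K := M1) (𝒰 := 𝒰) x t)) *
        gm 𝒰 (fun t => τ (rep (K := M1) (𝒰 := 𝒰) y t))
    rw [← map_mul (gm (K := M2) 𝒰), gm_eq]
    filter_upwards [Pool.Agent.Y742.AR.rep_mul (K := M1) (𝒰 := 𝒰) x y] with t h
    have h1 : rep (K := M1) (𝒰 := 𝒰) (x * y : BA M1 𝒰) t =
      rep (K := M1) (𝒰 := 𝒰) x t * rep (K := M1) (𝒰 := 𝒰) y t := h
    rw [h1, map_mul]
    rfl
  map_add' x y := by
    show (gm 𝒰 (fun t => τ (rep (K := M1) (𝒰 := 𝒰) (x + y : BA M1 𝒰) t)) : GK M2 𝒰) =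
      gm 𝒰 (fun t => τ (rep (K := M1) (𝒰 := 𝒰) x t)) +
        gm 𝒰 (fun t => τ (rep (K := M1) (𝒰 := 𝒰) y t))
    rw [← map_add (gm (K := M2) 𝒰), gm_eq]
    filter_upwards [Pool.Agent.Y742.AR.rep_add (K := M1) (𝒰 := 𝒰) x y] with t h
    have h1 : rep (K := M1) (𝒰 := 𝒰) (x + y : BA M1 𝒰) t =
      rep (K := M1) (𝒰 := 𝒰) x t + rep (K := M1) (𝒰 := 𝒰) y t := h
    rw [h1, map_add]
    rfl

theorem rep_bc (x : BA M1 𝒰) : ∀ᶠ t in (𝒰 : Filter ℕ),
    rep (K := M2) (𝒰 := 𝒰) (bc τ 𝒰 x) t = τ (rep (K := M1) (𝒰 := 𝒰) x t) :=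
  rep_gm (K := M2) (fun t => τ (rep (K := M1) (𝒰 := 𝒰) x t))

theorem bc_const (c : M1) :
    bc τ 𝒰 (algebraMap M1 (BA M1 𝒰) c) = algebraMap M2 (BA M2 𝒰) (τ c) := by
  show (gm 𝒰 (fun t => τ (rep (K := M1) (𝒰 := 𝒰) (algebraMap M1 (BA M1 𝒰) c) t)) : GK M2 𝒰) =
    gm 𝒰 (fun _ => τ c)
  rw [gm_eq]
  filter_upwards [Pool.Agent.Y742.AR.rep_cg (K := M1) (𝒰 := 𝒰) c] with t h
  have h1 : rep (K := M1) (𝒰 := 𝒰) (algebraMap M1 (BA M1 𝒰) c) t = c := h
  rw [h1]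

theorem const_of_bc (x : BA M1 𝒰) (c : M2) (h : bc τ 𝒰 x = algebraMap M2 (BA M2 𝒰) c) :
    ∃ c1 : M1, x = algebraMap M1 (BA M1 𝒰) c1 := by
  have h1 : ∀ᶠ t in (𝒰 : Filter ℕ), τ (rep (K := M1) (𝒰 := 𝒰) x t) = c := by
    filter_upwards [rep_bc τ 𝒰 x, Pool.Agent.Y742.AR.rep_cg (K := M2) (𝒰 := 𝒰) c] with t g1 g2
    rw [← g1, h]
    exact g2
  obtain ⟨t0, ht0⟩ := h1.exists
  refine ⟨rep (K := M1) (𝒰 := 𝒰) x t0, ?_⟩
  have h3 : gm (K := M1) 𝒰 (rep (K := M1) (𝒰 := 𝒰) x) =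
      gm (K := M1) 𝒰 (fun _ => rep (K := M1) (𝒰 := 𝒰) x t0) := by
    refine (gm_eq (K := M1) 𝒰 _ _).2 ?_
    filter_upwards [h1] with t ht
    apply τ.injective
    rw [ht, ht0]
  exact (gm_rep (K := M1) (𝒰 := 𝒰) x).symm.trans h3

theorem bc_aeval {n : ℕ} (y : Fin n → BA M1 𝒰) (P : MvPolynomial (Fin n) M1) :
    aeval (fun i => bc τ 𝒰 (y i)) (MvPolynomial.map τ P) = bc τ 𝒰 (aeval y P) := by
  rw [aeval_def, eval₂_map, aeval_def, hom_eval₂]
  congr 1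
  ext c
  exact (bc_const τ 𝒰 c).symm

variable {τ 𝒰}

/-- base change of the data of the units -/
noncomputable def DatU.bc {N n : ℕ} {U : Fin n → Fin N} {y : Fin N → BA M1 𝒰} {e : ℕ}
    {W1 : Subgroup (BA M1 𝒰)ˣ} {W2 : Subgroup (BA M2 𝒰)ˣ} (d : DatU M1 U y e W1)
    (hW : ∀ u ∈ W1, Units.map (Pool.Agent.H434.bc τ 𝒰).toMonoidHom u ∈ W2)
    (hunit : ∀ (m : ℕ) (g : Fin m → (BA M2 𝒰)ˣ), (∀ i, g i ∈ W2) →
      (∀ i j, i ≠ j → ∀ c : M2, (g i : BA M2 𝒰) ≠ algebraMap M2 (BA M2 𝒰) c * g j) →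
      ∀ c : Fin m → M2, ∑ i, algebraMap M2 (BA M2 𝒰) (c i) * g i = 0 → c = 0) :
    DatU M2 U (fun i => Pool.Agent.H434.bc τ 𝒰 (y i)) e W2 where
  r := d.r
  hr := d.hr
  w := fun j => Units.map (Pool.Agent.H434.bc τ 𝒰).toMonoidHom (d.w j)
  hwW := fun j => hW _ (d.hwW j)
  hw := by
    refine algInd_of_units W2 hunit _ (fun j => hW _ (d.hwW j)) fun b hb => ?_
    obtain ⟨c, hc⟩ := hb
    have h1 : ∏ j, Units.map (Pool.Agent.H434.bc τ 𝒰).toMonoidHom (d.w j) ^ b j =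
        Units.map (Pool.Agent.H434.bc τ 𝒰).toMonoidHom (∏ j, d.w j ^ b j) := by
      rw [map_prod]
      simp only [map_zpow]
    rw [h1] at hc
    exact zpow_const d.w d.hw b (const_of_bc τ 𝒰 _ c hc)
  a := d.a
  c := fun i => τ (d.c i)
  hc := fun i => (map_ne_zero τ).2 (d.hc i)
  hU := by
    intro i
    rw [d.hU, map_mul, bc_const]
    congr 1
    have h1 : ∏ j, Units.map (Pool.Agent.H434.bc τ 𝒰).toMonoidHom (d.w j) ^ ((e : ℤ) * d.a i j) =
        Units.map (Pool.Agent.H434.bc τ 𝒰).toMonoidHom (∏ j, d.w j ^ ((e : ℤ) * d.a i j)) := by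
      rw [map_prod]
      simp only [map_zpow]
    rw [h1]
    rfl
  hspan := d.hspan

theorem TIR_bc [IsGalois ℚ M1] [IsGalois ℚ M2] [Algebra M1 M2] (D1 : PD M1) (D2 : PD M2)
    (hD : ∀ x : M1, D1.TInt x → D2.TInt (algebraMap M1 M2 x)) (x : BA M1 𝒰)
    (hx : x ∈ TIR D1 𝒰) : bc (algebraMap M1 M2) 𝒰 x ∈ TIR D2 𝒰 := by
  obtain ⟨c, hc, h⟩ := hx
  refine ⟨algebraMap (𝓞 M1) (𝓞 M2) c, ?_, ?_⟩
  · rw [Ne, FaithfulSMul.algebraMap_eq_zero_iff]
    exact hc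
  · filter_upwards [h, rep_bc (algebraMap M1 M2) 𝒰 x] with t h1 h2
    rw [h2]
    have h3 := hD _ h1
    rw [map_mul] at h3
    exact h3

theorem WA_bc [IsGalois ℚ M1] [IsGalois ℚ M2] [Algebra M1 M2] (D1 : PD M1) (D2 : PD M2)
    (hD : ∀ x : M1, D1.TInt x → D2.TInt (algebraMap M1 M2 x)) (u : (BA M1 𝒰)ˣ)
    (hu : u ∈ WA D1 𝒰) :
    Units.map (bc (algebraMap M1 M2) 𝒰).toMonoidHom u ∈ WA D2 𝒰 := by
  refine ⟨?_, ?_⟩
  · exact TIR_bc D1 D2 hD _ hu.1
  · rw [← map_inv]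
    exact TIR_bc D1 D2 hD _ hu.2

end germs

section fields

theorem exists_PD2 (M1 M2 : Type) [Field M1] [NumberField M1] [IsGalois ℚ M1] [Field M2]
    [NumberField M2] [IsGalois ℚ M2] [Algebra M1 M2] (hi : ∃ z : M2, z ^ 2 = -1) (D1 : PD M1) :
    ∃ D2 : PD M2, ∀ x : M1, D1.TInt x → D2.TInt (algebraMap M1 M2 x) := by
  obtain ⟨S', hS', hSS'⟩ := ext_int M1 M2 (Set.range D1.P) (Set.finite_range _)
  obtain ⟨D2, hD2⟩ := exists_PD hi S' hS'
  refine ⟨D2, fun x hx w hw => ?_⟩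
  have h1 : x ∈ (Set.range D1.P).integer M1 := by
    rw [mem_integer_iff]
    intro v hv
    exact hx v fun w hw => hv ⟨w, hw.symm⟩
  refine (mem_integer_iff S' _).1 (hSS' x h1) w fun hwS => ?_
  obtain ⟨v, hv⟩ := hD2 w hwS
  exact hw v hv

theorem exists_field {L : Type} [Field L] [NumberField L] (φ : L →+* ℂ) (T : Finset ℂ)
    (hT : ∀ a ∈ T, IsAlgebraic ℚ a) :
    ∃ (M : Type) (_ : Field M) (_ : NumberField M) (_ : Algebra L M), IsGalois ℚ M ∧
      (∃ z : M, z ^ 2 = -1) ∧ ∃ ψ : M →+* ℂ, ψ.comp (algebraMap L M) = φ ∧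
        ∀ a ∈ T, a ∈ ψ.range := by
  classical
  let b := Module.finBasis ℚ L
  let S : Finset ℂ := T ∪ insert Complex.I (Finset.univ.image fun i => φ (b i))
  obtain ⟨L', hfd, hgal, hmem⟩ := galois_sub S (by
    intro a ha
    rcases Finset.mem_union.1 ha with ha | ha
    · exact hT a ha
    rcases Finset.mem_insert.1 ha with rfl | ha
    · refine ⟨Polynomial.X ^ 2 + 1, ?_, by simp⟩
      intro h
      have h1 : (Polynomial.X ^ 2 + 1 : Polynomial ℚ).Monic := by monicity!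
      exact h1.ne_zero h
    · obtain ⟨i, -, rfl⟩ := Finset.mem_image.1 ha
      have h1 : IsIntegral ℚ (b i) := Algebra.IsIntegral.isIntegral _
      exact (h1.map (φ.toRatAlgHom : L →ₐ[ℚ] ℂ)).isAlgebraic)
  have hφmem : ∀ x : L, φ x ∈ L' := by
    intro x
    rw [← b.sum_repr x, map_sum]
    refine sum_mem fun i _ => ?_
    rw [map_rat_smul φ]
    refine L'.smul_mem (hmem _ ?_)
    exact Finset.mem_union_right _ (Finset.mem_insert_of_mem
      (Finset.mem_image.2 ⟨i, Finset.mem_univ _, rfl⟩))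
  have hnf : NumberField L' := NumberField.mk
  let ψ : L →+* L' :=
    { toFun := fun x => ⟨φ x, hφmem x⟩
      map_one' := Subtype.ext (map_one φ)
      map_mul' := fun a b => Subtype.ext (map_mul φ a b)
      map_zero' := Subtype.ext (map_zero φ)
      map_add' := fun a b => Subtype.ext (map_add φ a b) }
  refine ⟨L', inferInstance, hnf, ψ.toAlgebra, ?_, ⟨⟨Complex.I, hmem _
    (Finset.mem_union_right _ (Finset.mem_insert_self _ _))⟩, ?_⟩, (algebraMap L' ℂ), ?_, ?_⟩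
  · convert hgal
  · apply Subtype.ext
    simp
  · ext x
    rfl
  · intro a ha
    exact ⟨⟨a, hmem a (Finset.mem_union_left _ ha)⟩, rfl⟩

/-- roots of units -/
theorem sunit_roots {L : Type} [Field L] [NumberField L] (φ : L →+* ℂ)
    (S : Set (HeightOneSpectrum (𝓞 L))) (hS : S.Finite) (e : ℕ) (he : 1 ≤ e) :
    ∃ T : Finset ℂ, (∀ a ∈ T, IsAlgebraic ℚ a) ∧ ∀ (M : Type) [Field M] [Algebra L M]
      (ψ : M →+* ℂ), ψ.comp (algebraMap L M) = φ → (∀ a ∈ T, a ∈ ψ.range) →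
        ∀ x : Lˣ, x ∈ S.unit L → ∃ v : M, v ^ e = algebraMap L M x := by
  classical
  obtain ⟨g, hg⟩ := Pool.Agent.H39R3.Tor.sunit_fg L S hS
  choose γ hγ using fun x : ℂ => exists_root_C he x
  refine ⟨g.image fun x : Lˣ => γ (φ (x : L)), ?_, ?_⟩
  · intro a ha
    obtain ⟨x, -, rfl⟩ := Finset.mem_image.1 ha
    refine IsAlgebraic.of_pow (n := e) (by omega) ?_
    rw [hγ]
    have h1 : IsIntegral ℚ (x : L) := Algebra.IsIntegral.isIntegral _
    exact (h1.map (φ.toRatAlgHom : L →ₐ[ℚ] ℂ)).isAlgebraic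
  · intro M _ _ ψ hψ hT
    let H : Subgroup Lˣ :=
      { carrier := {x | ∃ v : M, v ^ e = algebraMap L M x}
        mul_mem' := by
          rintro x y ⟨v, hv⟩ ⟨w, hw⟩
          exact ⟨v * w, by rw [mul_pow, hv, hw, Units.val_mul, map_mul]⟩
        one_mem' := ⟨1, by rw [one_pow, Units.val_one, map_one]⟩
        inv_mem' := by
          rintro x ⟨v, hv⟩
          exact ⟨v⁻¹, by rw [inv_pow, hv, Units.val_inv_eq_inv_val, map_inv₀]⟩ }
    have h1 : S.unit L ≤ H := by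
      rw [← hg, Subgroup.closure_le]
      intro x hx
      obtain ⟨v, hv⟩ := hT (γ (φ x)) (Finset.mem_image.2 ⟨x, hx, rfl⟩)
      refine ⟨v, ?_⟩
      apply ψ.injective
      rw [map_pow, hv, hγ, ← hψ]
      rfl
    exact fun x hx => h1 hx

/-- coordinates which are units after enlarging the set of places -/
theorem unit_points {K : Type} [Field K] [NumberField K] (σ : K →+* ℂ) {ι : Type} {N : ℕ}
    (F : ι → MvPolynomial (Fin N) (𝓞 K)) (U' : Finset (Fin N))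
    (hU : ∀ z : Fin N → ℂ, (∀ l, eval₂ (σ.comp (algebraMap (𝓞 K) K)) z (F l) = 0) →
      ∀ i ∈ U', z i ≠ 0) (L : Type) [Field L] [NumberField L] [Algebra K L]
    (S : Set (HeightOneSpectrum (𝓞 L))) (hS : S.Finite) :
    ∃ S' : Set (HeightOneSpectrum (𝓞 L)), S'.Finite ∧ S ⊆ S' ∧ ∀ x ∈ intPoints F L S,
      ∀ i ∈ U', ∃ u : Lˣ, u ∈ S'.unit L ∧ (u : L) = x i := by
  classical
  have h1 : ∀ i ∈ U', ∃ B : MvPolynomial (Fin N) K, B * X i - 1 ∈
      Ideal.span (Set.range fun l => MvPolynomial.map (algebraMap (𝓞 K) K) (F l)) := fun i hi =>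
    unit_cert σ (fun l => MvPolynomial.map (algebraMap (𝓞 K) K) (F l)) i
      (fun z hz => hU z (fun l => by
        have := hz l
        rwa [eval₂_map] at this) i hi)
  choose! B hB using h1
  let S' : Set (HeightOneSpectrum (𝓞 L)) := S ∪ ⋃ i ∈ U', ⋃ s ∈ (B i).support,
    HeightOneSpectrum.Support (𝓞 L) (algebraMap K L (coeff s (B i)))
  have hS' : S'.Finite := hS.union (Set.Finite.biUnion (Finset.finite_toSet U') fun i _ =>
    Set.Finite.biUnion (Finset.finite_toSet (B i).support) fun s _ =>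
      HeightOneSpectrum.Support.finite _ _)
  refine ⟨S', hS', Set.subset_union_left, fun x hx i hi => ?_⟩
  have hxi : ∀ j, x j ∈ S'.integer L := by
    intro j
    rw [mem_integer_iff]
    intro v hv
    exact (mem_integer_iff S _).1 (hx.1 j) v fun h => hv (Set.subset_union_left h)
  have hBi : eval₂ (algebraMap K L) x (B i) ∈ S'.integer L := by
    rw [eval₂_eq']
    refine Subalgebra.sum_mem _ fun s hs => Subalgebra.mul_mem _ ?_
      (Subalgebra.prod_mem _ fun j _ => Subalgebra.pow_mem _ (hxi j) _)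
    rw [mem_integer_iff]
    intro v hv
    rw [fv_le_one_iff]
    by_contra hcon
    apply hv
    refine Set.subset_union_right (Set.mem_biUnion hi (Set.mem_biUnion hs ?_))
    exact not_le.1 hcon
  have hmul : eval₂ (algebraMap K L) x (B i) * x i = 1 := by
    let Θ : MvPolynomial (Fin N) K →+* L := eval₂Hom (algebraMap K L) x
    have h2 : Ideal.span (Set.range fun l => MvPolynomial.map (algebraMap (𝓞 K) K) (F l)) ≤
        RingHom.ker Θ := by
      rw [Ideal.span_le]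
      rintro _ ⟨l, rfl⟩
      show eval₂ (algebraMap K L) x (MvPolynomial.map (algebraMap (𝓞 K) K) (F l)) = 0
      rw [eval₂_map]
      exact hx.2 l
    have h3 : Θ (B i * X i - 1) = 0 := h2 (hB i hi)
    rw [map_sub, map_mul, map_one, sub_eq_zero] at h3
    have h4 : Θ (X i) = x i := eval₂_X _ _ _
    rw [h4] at h3
    exact h3
  refine ⟨⟨x i, eval₂ (algebraMap K L) x (B i), by rw [mul_comm]; exact hmul, hmul⟩, ?_, rfl⟩
  intro v hv
  show v.valuation L (x i) = 1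
  have h5 := hxi i v hv
  have h6 := hBi v hv
  have h7 : v.valuation L (eval₂ (algebraMap K L) x (B i)) * v.valuation L (x i) = 1 := by
    rw [← map_mul, hmul, map_one]
  refine le_antisymm h5 ?_
  by_contra hcon
  rw [not_le] at hcon
  have h8 : v.valuation L (eval₂ (algebraMap K L) x (B i)) * v.valuation L (x i) ≤
      v.valuation L (x i) := mul_le_of_le_one_left' h6
  rw [h7] at h8
  exact absurd (lt_of_le_of_lt h8 hcon) (lt_irrefl _)

end fields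

end Pool.Agent.H434
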