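import Mathlib
import Pool.Agent.H434.Bc

/-!
The arithmetic half for covers of tori.
-/

set_option autoImplicit false
set_option linter.unusedSectionVars false

open Finset MvPolynomial Filter

namespace Pool.Agent.H434

open Pool.Agent.N754.LT
open NumberField IsDedekindDomain
open Pool.Agent.Y742.SF Pool.Agent.Y742.AR
open Pool.Agent.W235.RM Pool.Agent.H159R3.Exp

/-- the polynomials over a field `M` -/
noncomputable def fm {K : Type} [Field K] {M : Type} [Field M] (τ : K →+* M) {N : ℕ}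
    (P : MvPolynomial (Fin N) (𝓞 K)) : MvPolynomial (Fin N) M :=
  MvPolynomial.map (τ.comp (algebraMap (𝓞 K) K)) P

theorem map_fm {K : Type} [Field K] {M M' : Type} [Field M] [Field M'] (τ : K →+* M)
    (φ : M →+* M') {N : ℕ} (P : MvPolynomial (Fin N) (𝓞 K)) :
    MvPolynomial.map φ (fm τ P) = fm (φ.comp τ) P := by
  unfold fm
  rw [MvPolynomial.map_map]
  rfl

section setup

variable {K : Type} [Field K] [NumberField K] {ι : Type} {N : ℕ}
  {L : Type} [Field L] [NumberField L] [Algebra K L] {M : Type} [Field M] [NumberField M]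
  [Algebra L M] (𝒰 : Ultrafilter ℕ) (xs : ℕ → Fin N → L)

/-- the germs of a sequence of points -/
noncomputable def ys (M : Type) [Field M] [NumberField M] [Algebra L M] (j : Fin N) : BA M 𝒰 :=
  (gm 𝒰 (fun t => algebraMap L M (xs t j)) : GK M 𝒰)

theorem rep_ys (j : Fin N) : ∀ᶠ t in (𝒰 : Filter ℕ),
    rep (K := M) (𝒰 := 𝒰) (ys 𝒰 xs M j) t = algebraMap L M (xs t j) :=
  rep_gm (K := M) (𝒰 := 𝒰) (fun t => algebraMap L M (xs t j))

theorem rep_ys_all : ∀ᶠ t in (𝒰 : Filter ℕ), ∀ j,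
    rep (K := M) (𝒰 := 𝒰) (ys 𝒰 xs M j) t = algebraMap L M (xs t j) :=
  (Filter.eventually_all).2 fun j => rep_ys 𝒰 xs j

omit [NumberField M] [NumberField L] [NumberField K] in
theorem eval_fm (x : Fin N → L) (P : MvPolynomial (Fin N) (𝓞 K)) :
    eval (fun j => algebraMap L M (x j)) (fm ((algebraMap L M).comp (algebraMap K L)) P) =
    algebraMap L M (eval₂ ((algebraMap K L).comp (algebraMap (𝓞 K) K)) x P) := by
  unfold fm
  rw [eval_map, RingHom.comp_assoc]
  exact (MvPolynomial.hom_eval₂ P ((algebraMap K L).comp (algebraMap (𝓞 K) K))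
    (algebraMap L M) x).symm

theorem aeval_ys [IsGalois ℚ M] (P : MvPolynomial (Fin N) (𝓞 K))
    (h : ∀ t, eval₂ ((algebraMap K L).comp (algebraMap (𝓞 K) K)) (xs t) P = 0) :
    aeval (ys 𝒰 xs M) (fm ((algebraMap L M).comp (algebraMap K L)) P) = 0 := by
  apply zero_of_rep 𝒰
  have h2 : ∀ᶠ t in (𝒰 : Filter ℕ), rep (K := M) (𝒰 := 𝒰) (aeval (ys 𝒰 xs M)
      (fm ((algebraMap L M).comp (algebraMap K L)) P)) t =
      eval (fun i => rep (K := M) (𝒰 := 𝒰) (ys 𝒰 xs M i) t)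
        (fm ((algebraMap L M).comp (algebraMap K L)) P) :=
    (rpA M 𝒰).rep_aeval (ys 𝒰 xs M) (fm ((algebraMap L M).comp (algebraMap K L)) P)
  filter_upwards [h2, rep_ys_all (M := M) 𝒰 xs] with t g1 g2
  rw [g1]
  have g3 : (fun i => rep (K := M) (𝒰 := 𝒰) (ys 𝒰 xs M i) t) = fun j => algebraMap L M (xs t j) :=
    funext g2
  rw [g3, eval_fm, h t, map_zero]

end setup

theorem arith_finish {K : Type} [Field K] [NumberField K] (σ : K →+* ℂ) {ι κ : Type}
    [Finite ι] {N : ℕ} (F : ι → MvPolynomial (Fin N) (𝓞 K)) (G : κ → MvPolynomial (Fin N) (𝓞 K))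
    (U' : Finset (Fin N)) (hal : Alone σ F G U') (h0 : ¬ HasLaurent F G)
    {L : Type} [Field L] [NumberField L] [Algebra K L] (S : Set (HeightOneSpectrum (𝓞 L)))
    (𝒰 : Ultrafilter ℕ) (xs : ℕ → Fin N → L)
    (hxs : ∀ t, xs t ∈ intPoints F L S \ intPoints G L S)
    {M : Type} [hM1 : Field M] [hM2 : NumberField M] [Algebra L M] (ψ : M →+* ℂ)
    (hψ : ψ.comp ((algebraMap L M).comp (algebraMap K L)) = σ)
    (halt : (∃ z : Fin N → GC ℕ 𝒰,
        (∀ l, eval₂ ((thA 𝒰 ψ).comp (algebraMap M (BA M 𝒰))) z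
          (fm ((algebraMap L M).comp (algebraMap K L)) (F l)) = 0) ∧
        (∀ i ∈ U', z i = thA 𝒰 ψ (ys 𝒰 xs M i)) ∧ z ≠ fun j => thA 𝒰 ψ (ys 𝒰 xs M j)) ∨
      ∀ᶠ t in (𝒰 : Filter ℕ), CurveAt (rpA M 𝒰)
        (fun l => fm ((algebraMap L M).comp (algebraMap K L)) (F l)) (ys 𝒰 xs M) t) : False := by
  classical
  let τ : K →+* M := (algebraMap L M).comp (algebraMap K L)
  let : Algebra K M := τ.toAlgebra
  let FM : ι → MvPolynomial (Fin N) M := fun l => fm τ (F l)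
  have hyrep := rep_ys_all (M := M) 𝒰 xs
  have hG : ∀ t, ∃ l, eval₂ ((algebraMap K L).comp (algebraMap (𝓞 K) K)) (xs t) (G l) ≠ 0 := by
    intro t
    by_contra hcon
    push Not at hcon
    exact (hxs t).2 ⟨(hxs t).1.1, hcon⟩
  rcases halt with hsec | hcurve
  · rw [thA_const] at hsec
    have hsec2 := gc_second 𝒰 ψ U' FM (fun t j => ψ (rep (K := M) (𝒰 := 𝒰) (ys 𝒰 xs M j) t)) hsec
    obtain ⟨t, ⟨z', hz1, hz2, hz3⟩, ht⟩ := (hsec2.and hyrep).exists
    have hev : ∀ P : MvPolynomial (Fin N) (𝓞 K),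
        eval₂ (σ.comp (algebraMap (𝓞 K) K))
          (fun j => ψ (rep (K := M) (𝒰 := 𝒰) (ys 𝒰 xs M j) t)) P =
        ψ (algebraMap L M (eval₂ ((algebraMap K L).comp (algebraMap (𝓞 K) K)) (xs t) P)) := by
      intro P
      have g3 : (fun j => ψ (rep (K := M) (𝒰 := 𝒰) (ys 𝒰 xs M j) t)) =
          fun j => ψ (algebraMap L M (xs t j)) := funext fun j => by rw [ht]
      rw [g3, ← hψ, ← eval_fm]
      unfold fm
      rw [eval_map]
      exact (MvPolynomial.hom_eval₂ P (τ.comp (algebraMap (𝓞 K) K)) ψ _).symm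
    apply hz3
    refine hal _ _ (fun l => ?_) (fun l => ?_) (fun i hi => hz2 i hi) ?_
    · rw [hev, (hxs t).1.2 l, map_zero, map_zero]
    · have h1 := hz1 l
      simp only [FM, fm] at h1
      rw [eval₂_map] at h1
      rw [← hψ]
      exact h1
    · obtain ⟨l, hl⟩ := hG t
      refine ⟨l, ?_⟩
      rw [hev]
      exact (map_ne_zero _).2 ((map_ne_zero _).2 hl)
  · obtain ⟨t, ⟨v, hv1, hv2, hv3, j0, hj0⟩, ht⟩ := (hcurve.and hyrep).exists
    have hv1' : v 1 = fun j => algebraMap L M (xs t j) := by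
      rw [hv3]
      exact funext ht
    apply h0
    refine ⟨M, hM1, hM2, inferInstance, v, hv1, ?_, ?_, 1, j0, ?_⟩
    · intro l s hs
      have h1 := hv2 l s hs
      simp only [fm] at h1
      rw [eval_map] at h1
      exact h1
    · obtain ⟨l, hl⟩ := hG t
      refine ⟨l, ?_⟩
      have h3 := eval_fm (M := M) (xs t) (G l)
      unfold fm at h3
      rw [eval_map] at h3
      rw [hv1']
      intro h4
      apply hl
      apply (algebraMap L M).injective
      rw [map_zero, ← h3]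
      exact h4
    · rw [pow_one]
      exact hj0

theorem integral_cov {K : Type} [Field K] [NumberField K] (σ : K →+* ℂ) {ι κ : Type}
    [Finite ι] {N n q : ℕ} (F : ι → MvPolynomial (Fin N) (𝓞 K))
    (G : κ → MvPolynomial (Fin N) (𝓞 K))
    (U : Fin n → Fin N) (J : Fin q → Fin N) (m : Fin q → ℕ) (hm : ∀ j, 2 ≤ m j)
    (f : Fin q → MvPolynomial (Fin n) (𝓞 K))
    (hU : ∀ z : Fin N → ℂ, (∀ l, eval₂ (σ.comp (algebraMap (𝓞 K) K)) z (F l) = 0) →
      ∀ i, z (U i) ≠ 0)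
    (hJ : ∀ z : Fin N → ℂ, (∀ l, eval₂ (σ.comp (algebraMap (𝓞 K) K)) z (F l) = 0) →
      ∀ j, z (J j) ^ m j = eval₂ (σ.comp (algebraMap (𝓞 K) K)) (fun i => z (U i)) (f j))
    (hT : TameCosets m fun j => fm σ (f j))
    (hal : Alone σ F G (Finset.univ.image U ∪ Finset.univ.image J)) (h0 : ¬ HasLaurent F G) :
    FinitelyManyIntegral F G := by
  classical
  by_contra h
  unfold FinitelyManyIntegral at h
  push Not at h
  obtain ⟨L, hL1, hL2, hL3, S, hS, hinf⟩ := h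
  -- embeddings
  let : Algebra K ℂ := σ.toAlgebra
  have : Algebra.IsAlgebraic K L := by
    have h1 : Algebra.IsAlgebraic ℚ L := inferInstance
    exact Algebra.IsAlgebraic.tower_top (K := ℚ) K
  let φ0 : L →ₐ[K] ℂ := IsAlgClosed.lift
  let φ : L →+* ℂ := φ0
  have hφ : φ.comp (algebraMap K L) = σ := by
    ext c
    exact φ0.commutes _
  -- the units
  obtain ⟨S', hS', hSS', hunits⟩ := unit_points σ F (Finset.univ.image U) (by
    intro z hz i hi
    obtain ⟨l, -, rfl⟩ := Finset.mem_image.1 hi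
    exact hU z hz l) L S hS
  let e : ℕ := ∏ j, m j
  have he : 1 ≤ e := Finset.one_le_prod' fun j _ => by
    have := hm j
    omega
  have hme : ∀ j, m j ∣ e := fun j => Finset.dvd_prod_of_mem m (Finset.mem_univ j)
  obtain ⟨T1, hT1a, hT1⟩ := sunit_roots φ S' hS' e he
  obtain ⟨M1, hM1a, hM1b, hM1c, hgal1, hi1, ψ1, hψ1, hT1r⟩ := exists_field φ T1 hT1a
  obtain ⟨S1, hS1, hSS1⟩ := ext_int L M1 S' hS'
  obtain ⟨D1, hD1⟩ := exists_PD hi1 S1 hS1
  have hTInt : ∀ x ∈ S'.integer L, D1.TInt (algebraMap L M1 x) := by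
    intro x hx w hw
    refine (mem_integer_iff S1 _).1 (hSS1 x hx) w fun hwS => ?_
    obtain ⟨v, hv⟩ := hD1 w hwS
    exact hw v hv
  -- the points
  let 𝒰 : Ultrafilter ℕ := Filter.hyperfilter ℕ
  have hinf2 : (intPoints F L S \ intPoints G L S).Infinite := hinf
  let en := hinf2.natEmbedding
  let xs : ℕ → Fin N → L := fun t => (en t).1
  have hxs : ∀ t, xs t ∈ intPoints F L S \ intPoints G L S := fun t => (en t).2
  have hxs' : ∀ t j, xs t j ∈ S'.integer L := by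
    intro t j
    rw [mem_integer_iff]
    intro v hv
    exact (mem_integer_iff S _).1 ((hxs t).1.1 j) v fun h => hv (hSS' h)
  have hroot : ∀ (i : Fin n) (t : ℕ), ∃ v : M1, v ^ e = algebraMap L M1 (xs t (U i)) ∧ v ≠ 0 ∧
      D1.TInt v ∧ D1.TInt v⁻¹ := by
    intro i t
    obtain ⟨u, hu, hux⟩ := hunits (xs t) (hxs t).1 (U i)
      (Finset.mem_image_of_mem _ (Finset.mem_univ _))
    obtain ⟨v, hv⟩ := hT1 M1 ψ1 hψ1 hT1r u hu
    have hu0 : algebraMap L M1 (u : L) ≠ 0 := (map_ne_zero _).2 (Units.ne_zero u)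
    have hv0 : v ≠ 0 := by
      intro h0
      rw [h0, zero_pow (by omega)] at hv
      exact hu0 hv.symm
    have huinv : (u : L)⁻¹ ∈ S'.integer L := by
      rw [mem_integer_iff]
      intro w hw
      rw [fv_le_one_iff, map_inv₀]
      have h1 : w.valuation L (u : L) = 1 := hu w hw
      rw [h1, inv_one]
    refine ⟨v, by rw [hv, hux], hv0, fun w hw => ?_, fun w hw => ?_⟩
    · have h1 : fv w (v ^ e) ≤ 1 := by
        rw [hv]
        have h2 : (u : L) ∈ S'.integer L := by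
          rw [hux]
          exact hxs' t _
        exact hTInt _ h2 w hw
      rw [fv_pow] at h1
      exact (pow_le_one_iff_of_nonneg (fv_nonneg _ _) (by omega)).1 h1
    · have h1 : fv w (v⁻¹ ^ e) ≤ 1 := by
        rw [inv_pow, hv, ← map_inv₀]
        exact hTInt _ huinv w hw
      rw [fv_pow] at h1
      exact (pow_le_one_iff_of_nonneg (fv_nonneg _ _) (by omega)).1 h1
  choose v hv hv0 hvT hvT' using hroot
  let τ1 : K →+* M1 := (algebraMap L M1).comp (algebraMap K L)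
  have hτ1 : ψ1.comp τ1 = σ := by
    rw [← hφ, ← hψ1]
    rfl
  let y1 : Fin N → BA M1 𝒰 := ys 𝒰 xs M1
  have hy1I : ∀ j, y1 j ∈ TIR D1 𝒰 := by
    intro j
    rw [mem_TIR]
    refine ⟨1, one_ne_zero, ?_⟩
    filter_upwards [rep_ys (M := M1) 𝒰 xs j] with t ht
    rw [ht]
    have h1 : ((1 : 𝓞 M1) : M1) = 1 := rfl
    rw [h1, one_mul]
    exact hTInt _ (hxs' t j)
  have hv1 : ∀ i, ∀ᶠ t in (𝒰 : Filter ℕ),
      rep (K := M1) (𝒰 := 𝒰) (gm 𝒰 (fun t => v i t) : GK M1 𝒰) t = v i t := fun i =>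
    rep_gm (K := M1) (𝒰 := 𝒰) (fun t => v i t)
  have hv2 : ∀ i, ∀ᶠ t in (𝒰 : Filter ℕ),
      rep (K := M1) (𝒰 := 𝒰) (gm 𝒰 (fun t => (v i t)⁻¹) : GK M1 𝒰) t = (v i t)⁻¹ := fun i =>
    rep_gm (K := M1) (𝒰 := 𝒰) (fun t => (v i t)⁻¹)
  have hvmul : ∀ i, (gm 𝒰 (fun t => v i t) : GK M1 𝒰) * gm 𝒰 (fun t => (v i t)⁻¹) = 1 := by
    intro i
    rw [← map_mul, ← map_one (gm (K := M1) 𝒰)]
    congr 1
    funext t
    exact mul_inv_cancel₀ (hv0 i t)
  let vu : Fin n → (BA M1 𝒰)ˣ := fun i =>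
    { val := (gm 𝒰 (fun t => v i t) : GK M1 𝒰)
      inv := (gm 𝒰 (fun t => (v i t)⁻¹) : GK M1 𝒰)
      val_inv := hvmul i
      inv_val := by
        have h1 := hvmul i
        rw [mul_comm] at h1
        exact h1 }
  have hvuW : ∀ i, vu i ∈ WA D1 𝒰 := by
    intro i
    rw [mem_WA, mem_TIR, mem_TIR]
    refine ⟨⟨1, one_ne_zero, ?_⟩, ⟨1, one_ne_zero, ?_⟩⟩
    · filter_upwards [hv1 i] with t ht
      have h1 : ((1 : 𝓞 M1) : M1) = 1 := rfl
      have h2 : rep (K := M1) (𝒰 := 𝒰) ((vu i : (BA M1 𝒰)ˣ) : BA M1 𝒰) t = v i t := ht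
      rw [h1, one_mul, h2]
      exact hvT i t
    · filter_upwards [hv2 i] with t ht
      have h1 : ((1 : 𝓞 M1) : M1) = 1 := rfl
      have h2 : rep (K := M1) (𝒰 := 𝒰) (((vu i)⁻¹ : (BA M1 𝒰)ˣ) : BA M1 𝒰) t = (v i t)⁻¹ := ht
      rw [h1, one_mul, h2]
      exact hvT' i t
  have hvue : ∀ i, ((vu i : (BA M1 𝒰)ˣ) : BA M1 𝒰) ^ e = y1 (U i) := by
    intro i
    show (gm 𝒰 (fun t => v i t) : GK M1 𝒰) ^ e = gm 𝒰 (fun t => algebraMap L M1 (xs t (U i)))
    rw [← map_pow]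
    congr 1
    funext t
    exact hv i t
  have hFz : ∀ {M : Type} [Field M] [NumberField M] [Algebra L M] [IsGalois ℚ M] (l : ι),
      aeval (ys 𝒰 xs M) (fm ((algebraMap L M).comp (algebraMap K L)) (F l)) = 0 :=
    fun l => aeval_ys 𝒰 xs (F l) fun t => (hxs t).1.2 l
  -- the equations of the roots hold on the points
  have hJz : ∀ {M : Type} [Field M] [NumberField M] [Algebra L M] [IsGalois ℚ M] (j : Fin q),
      ys 𝒰 xs M (J j) ^ m j = aeval (fun i => ys 𝒰 xs M (U i))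
        (fm ((algebraMap L M).comp (algebraMap K L)) (f j)) := by
    intro M _ _ _ _ j
    have h1 : ∀ t, eval₂ ((algebraMap K L).comp (algebraMap (𝓞 K) K)) (xs t)
        (X (J j) ^ m j - rename U (f j)) = 0 := by
      intro t
      have h2 := hJ (fun i => φ (xs t i)) (fun l => by
        have h3 := congrArg φ ((hxs t).1.2 l)
        rw [map_zero, MvPolynomial.hom_eval₂, ← RingHom.comp_assoc, hφ] at h3
        exact h3) j
      rw [eval₂_sub, eval₂_pow, eval₂_X, eval₂_rename, sub_eq_zero]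
      apply φ.injective
      rw [map_pow, h2, MvPolynomial.hom_eval₂, ← RingHom.comp_assoc, hφ]
      rfl
    have h2 := aeval_ys (M := M) 𝒰 xs (X (J j) ^ m j - rename U (f j)) h1
    have h3 : fm ((algebraMap L M).comp (algebraMap K L)) (X (J j) ^ m j - rename U (f j)) =
        X (J j) ^ m j - rename U (fm ((algebraMap L M).comp (algebraMap K L)) (f j)) := by
      unfold fm
      rw [map_sub, map_pow, map_X, map_rename]
    rw [h3, map_sub, map_pow, aeval_X, aeval_rename, sub_eq_zero] at h2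
    exact h2
  have hnc : ∃ i, ∀ c : M1, y1 i ≠ algebraMap M1 (BA M1 𝒰) c := by
    by_contra hcon
    push Not at hcon
    choose c hc using hcon
    have h1 : ∀ᶠ t in (𝒰 : Filter ℕ), ∀ j, algebraMap L M1 (xs t j) = c j := by
      refine (Filter.eventually_all).2 fun j => ?_
      have h2 : ∀ᶠ t in (𝒰 : Filter ℕ), rep (K := M1) (𝒰 := 𝒰) (y1 j) t = c j := by
        rw [hc j]
        exact Pool.Agent.Y742.AR.rep_cg (K := M1) (𝒰 := 𝒰) (c j)
      filter_upwards [h2, rep_ys (M := M1) 𝒰 xs j] with t g1 g2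
      rw [← g2, ← g1]
    have h2 : {t : ℕ | ∀ j, algebraMap L M1 (xs t j) = c j}.Subsingleton := by
      intro t ht t' ht'
      apply en.injective
      apply Subtype.ext
      funext j
      apply (algebraMap L M1).injective
      exact (ht j).trans (ht' j).symm
    exact Filter.notMem_hyperfilter_of_finite h2.finite h1
  have hfin : ∀ {M : Type} [Field M] [NumberField M] [Algebra L M] (ψ : M →+* ℂ)
      (hψ : ψ.comp ((algebraMap L M).comp (algebraMap K L)) = σ),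
      ((∃ z : Fin N → GC ℕ 𝒰,
        (∀ l, eval₂ ((thA 𝒰 ψ).comp (algebraMap M (BA M 𝒰))) z
          (fm ((algebraMap L M).comp (algebraMap K L)) (F l)) = 0) ∧
        (∀ i, z (U i) = thA 𝒰 ψ (ys 𝒰 xs M (U i))) ∧
        (∀ j, z (J j) = thA 𝒰 ψ (ys 𝒰 xs M (J j))) ∧
        z ≠ fun j => thA 𝒰 ψ (ys 𝒰 xs M j)) ∨
      ∀ᶠ t in (𝒰 : Filter ℕ), CurveAt (rpA M 𝒰)
        (fun l => fm ((algebraMap L M).comp (algebraMap K L)) (F l)) (ys 𝒰 xs M) t) → False := by
    intro M _ _ _ ψ hψ halt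
    refine arith_finish σ F G (Finset.univ.image U ∪ Finset.univ.image J) hal h0 S 𝒰 xs hxs ψ hψ ?_
    rcases halt with ⟨z, h1, h2, h3, h4⟩ | h
    · left
      refine ⟨z, h1, fun i hi => ?_, h4⟩
      rcases Finset.mem_union.1 hi with h | h
      · obtain ⟨l, -, rfl⟩ := Finset.mem_image.1 h
        exact h2 l
      · obtain ⟨l, -, rfl⟩ := Finset.mem_image.1 h
        exact h3 l
    · exact Or.inr h
  rcases exists_datU (geoA D1 𝒰) U e y1 vu hvuW hvue with hcon | ⟨d, hd⟩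
  · -- constant units
    refine hfin ψ1 hτ1 (Or.inl ?_)
    exact const_alt (geoA D1 𝒰) U J m hm (fun j => fm τ1 (f j)) y1 hy1I
      (fun l => fm τ1 (F l)) hFz hJz hcon hnc (thA 𝒰 ψ1) (thA 𝒰 ψ1).injective
  · have halg1 : ∀ x : M1, IsAlgebraic ℚ (ψ1 x) := by
      intro x
      have h1 : IsIntegral ℚ x := Algebra.IsIntegral.isIntegral _
      exact (h1.map (ψ1.toRatAlgHom : M1 →ₐ[ℚ] ℂ)).isAlgebraic
    obtain ⟨T2, hT2a, hT2⟩ := cond_M ψ1 halg1 d.hr d.rank_le d.a d.hspan d.c d.hc m hm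
      (fun j => fm τ1 (f j)) (by
        have h1 : (fun j => MvPolynomial.map ψ1 (fm τ1 (f j))) = fun j => fm σ (f j) := by
          funext j
          rw [map_fm, hτ1]
        rw [h1]
        exact hT)
    have hprim : IsPrimitiveRoot (Complex.exp (2 * Real.pi * Complex.I / e)) e :=
      Complex.isPrimitiveRoot_exp e (by omega)
    obtain ⟨M2, hM2a, hM2b, hM2c, hgal2, hi2, ψ2, hψ2, hT2r⟩ := exists_field ψ1
      (insert (Complex.exp (2 * Real.pi * Complex.I / e)) T2) (by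
        intro a ha
        rcases Finset.mem_insert.1 ha with rfl | ha
        · refine IsAlgebraic.of_pow (n := e) (by omega) ?_
          rw [hprim.pow_eq_one]
          exact isAlgebraic_one
        · exact hT2a a ha)
    let τ2 : M1 →+* M2 := algebraMap M1 M2
    let : Algebra L M2 := (τ2.comp (algebraMap L M1)).toAlgebra
    obtain ⟨D2, hD2⟩ := exists_PD2 M1 M2 hi2 D1
    obtain ⟨ζ, hζ⟩ := hT2r _ (Finset.mem_insert_self _ _)
    have hζp : IsPrimitiveRoot ζ e := by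
      have h1 : IsPrimitiveRoot (ψ2 ζ) e := by
        rw [hζ]
        exact hprim
      exact h1.of_map_of_injective ψ2.injective
    let d2 := d.bc (τ := τ2) (fun u hu => WA_bc D1 D2 hD2 u hu) (unitA D2 𝒰)
    have hy2 : (fun i => bc τ2 𝒰 (y1 i)) = ys 𝒰 xs M2 := by
      funext i
      show (gm 𝒰 (fun t => τ2 (rep (K := M1) (𝒰 := 𝒰) (y1 i) t)) : GK M2 𝒰) =
        gm 𝒰 (fun t => algebraMap L M2 (xs t i))
      rw [gm_eq]
      filter_upwards [rep_ys (M := M1) 𝒰 xs i] with t ht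
      have h1 : rep (K := M1) (𝒰 := 𝒰) (y1 i) t = algebraMap L M1 (xs t i) := ht
      rw [h1]
      rfl
    have hy2I : ∀ i, bc τ2 𝒰 (y1 i) ∈ (geoA D2 𝒰).I := fun i => TIR_bc D1 D2 hD2 _ (hy1I i)
    have hτ2 : ψ2.comp ((algebraMap L M2).comp (algebraMap K L)) = σ := by
      rw [← hτ1, ← hψ2]
      rfl
    have hfm2 : ∀ {N : ℕ} (P : MvPolynomial (Fin N) (𝓞 K)), MvPolynomial.map τ2 (fm τ1 P) =
        fm ((algebraMap L M2).comp (algebraMap K L)) P := fun P => by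
      rw [map_fm]
      rfl
    have hJ2 : ∀ j, bc τ2 𝒰 (y1 (J j)) ^ m j = aeval (fun i => bc τ2 𝒰 (y1 (U i)))
        (MvPolynomial.map τ2 (fm τ1 (f j))) := by
      intro j
      have h1 := hJz (M := M2) j
      rw [← hy2] at h1
      rw [hfm2]
      exact h1
    have hF2 : ∀ l, aeval (fun i => bc τ2 𝒰 (y1 i)) (MvPolynomial.map τ2 (fm τ1 (F l))) = 0 := by
      intro l
      have h1 := hFz (M := M2) l
      rw [← hy2] at h1
      rw [hfm2]
      exact h1
    apply hfin ψ2 hτ2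
    rw [← hy2]
    have hFM : (fun l => fm ((algebraMap L M2).comp (algebraMap K L)) (F l)) =
        fun l => MvPolynomial.map τ2 (fm τ1 (F l)) := funext fun l => (hfm2 (F l)).symm
    have hFM' : ∀ l, fm ((algebraMap L M2).comp (algebraMap K L)) (F l) =
        MvPolynomial.map τ2 (fm τ1 (F l)) := fun l => (hfm2 (F l)).symm
    rw [hFM]
    simp only [hFM']
    rcases hT2 M2 ψ2 τ2 hψ2 (fun a ha => hT2r a (Finset.mem_insert_of_mem ha)) with
      ⟨hrn, hTK⟩ | ⟨κ', hκ', hTK⟩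
    · exact full_alt (geoA D2 𝒰) (rpA M2 𝒰) U J m hm he hme ζ hζp
        (fun j => MvPolynomial.map τ2 (fm τ1 (f j))) (fun i => bc τ2 𝒰 (y1 i)) hy2I
        (fun l => MvPolynomial.map τ2 (fm τ1 (F l))) hF2 d2 hJ2 (fun i => by
          obtain ⟨γ, hγ⟩ := hd i
          exact ⟨τ2 γ, by rw [← map_pow, hγ]; rfl⟩) hrn hTK (thA 𝒰 ψ2) (thA 𝒰 ψ2).injective
    · exact coset_alt (geoA D2 𝒰) (rpA M2 𝒰) U J m hm he hme ζ hζp
        (fun j => MvPolynomial.map τ2 (fm τ1 (f j))) (fun i => bc τ2 𝒰 (y1 i)) hy2I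
        (fun l => MvPolynomial.map τ2 (fm τ1 (F l))) hF2 d2 hJ2 κ' hκ' hTK
        (thA 𝒰 ψ2) (thA 𝒰 ψ2).injective

end Pool.Agent.H434
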