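import Mathlib

/-!
Interpolation determinants of analytic functions of several variables on a polydisc.
-/

set_option autoImplicit false

open Metric Set Filter Topology Finset

namespace Pool.Agent.H434.Disc

/-- the monomials of partial degrees less than `K`, evaluated at the points `α ν` -/
def monRow {p D : ℕ} (α : Fin D → Fin p → ℂ) (K : ℕ) (β : Fin p → Fin K) : Fin D → ℂ :=
  fun ν => ∏ i, α ν i ^ (β i : ℕ)

theorem mem_span_monRow {p D : ℕ} (α : Fin D → Fin p → ℂ) (K n : ℕ) (hn : n < K)
    (q : ContinuousMultilinearMap ℂ (fun _ : Fin n => (Fin p → ℂ)) ℂ) :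
    (fun ν => q (fun _ => α ν)) ∈ Submodule.span ℂ (Set.range (monRow α K)) := by
  classical
  have h1 : ∀ ν, q (fun _ => α ν) = ∑ s : Fin n → Fin p,
      q (fun j => (Pi.single (s j) 1 : Fin p → ℂ)) * ∏ j, α ν (s j) := by
    intro ν
    have h2 : (fun _ : Fin n => α ν) = fun _ : Fin n => ∑ i : Fin p, α ν i • (Pi.single i 1 : Fin p → ℂ) := by
      funext _
      funext l
      rw [Finset.sum_apply, Finset.sum_eq_single l]
      · simp
      · intro b _ hb
        simp [Ne.symm hb]
      · intro h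
        exact absurd (Finset.mem_univ _) h
    rw [h2]
    have h3 := q.toMultilinearMap.map_sum (fun (_ : Fin n) (i : Fin p) =>
      α ν i • (Pi.single i 1 : Fin p → ℂ))
    refine h3.trans ?_
    refine Finset.sum_congr rfl fun s _ => ?_
    have h4 := q.toMultilinearMap.map_smul_univ (fun j : Fin n => α ν (s j))
      (fun j => (Pi.single (s j) 1 : Fin p → ℂ))
    refine h4.trans ?_
    rw [smul_eq_mul, mul_comm]
    rfl
  have h5 : (fun ν => q (fun _ => α ν)) = ∑ s : Fin n → Fin p,
      q (fun j => (Pi.single (s j) 1 : Fin p → ℂ)) •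
        monRow α K (fun i => ⟨(Finset.univ.filter fun j => s j = i).card,
          lt_of_le_of_lt ((Finset.card_filter_le _ _).trans (by simp)) hn⟩) := by
    funext ν
    rw [h1, Finset.sum_apply]
    refine Finset.sum_congr rfl fun s _ => ?_
    rw [Pi.smul_apply, smul_eq_mul]
    congr 1
    unfold monRow
    rw [← Finset.prod_fiberwise_of_maps_to (s := Finset.univ) (t := Finset.univ) (g := s)
      (fun _ _ => Finset.mem_univ _)]
    refine Finset.prod_congr rfl fun i _ => ?_
    rw [Finset.prod_congr rfl (g := fun _ => α ν i)]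
    · rw [Finset.prod_const]
    · intro j hj
      rw [(Finset.mem_filter.1 hj).2]
  rw [h5]
  exact Submodule.sum_mem _ fun s _ => Submodule.smul_mem _ _
    (Submodule.subset_span (Set.mem_range_self _))

/-- too many rows in a small space -/
theorem det_zero {p D : ℕ} (α : Fin D → Fin p → ℂ) (K : ℕ) (v : Fin D → Fin D → ℂ)
    (T : Finset (Fin D)) (hT : K ^ p < T.card)
    (hv : ∀ μ ∈ T, v μ ∈ Submodule.span ℂ (Set.range (monRow α K))) :
    Matrix.det (Matrix.of v) = 0 := by
  classical
  apply Matrix.det_eq_zero_of_not_linearIndependent_rows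
  intro hli
  have h1 : LinearIndependent ℂ (fun μ : T => v μ) := hli.comp (fun μ : T => (μ : Fin D))
    Subtype.val_injective
  let S := Submodule.span ℂ (Set.range (monRow α K))
  have h2 : LinearIndependent ℂ (fun μ : T => (⟨v μ, hv μ μ.2⟩ : S)) := by
    have h3 : (fun μ : T => v μ) = S.subtype ∘ fun μ : T => (⟨v μ, hv μ μ.2⟩ : S) := rfl
    rw [h3] at h1
    exact LinearIndependent.of_comp _ h1
  have h3 := h2.fintype_card_le_finrank
  have h4 : Module.finrank ℂ S ≤ Fintype.card (Fin p → Fin K) := by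
    exact finrank_range_le_card (monRow α K)
  rw [Fintype.card_coe] at h3
  rw [Fintype.card_fun, Fintype.card_fin, Fintype.card_fin] at h4
  omega

/-- Taylor's formula -/
theorem taylor {h : ℂ → ℂ} {q : FormalMultilinearSeries ℂ ℂ ℂ} (hq : HasFPowerSeriesAt h q 0)
    (T : ℕ) : ∃ R : ℂ → ℂ, AnalyticAt ℂ R 0 ∧
      ∀ t, h t = ∑ n ∈ range T, t ^ n * q.coeff n + t ^ T * R t := by
  refine ⟨(Function.swap dslope 0)^[T] h, (hq.has_fpower_series_iterate_dslope_fslope T).analyticAt,
    ?_⟩
  induction T with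
  | zero => intro t; simp
  | succ T ih =>
    intro t
    rw [ih t, Finset.sum_range_succ, Function.iterate_succ_apply']
    have h1 := (hq.has_fpower_series_iterate_dslope_fslope T).coeff_zero (fun _ => 1)
    set g := (Function.swap dslope 0)^[T] h with hg
    have h2 : q.coeff T = g 0 := by
      rw [← h1]
      have h3 := FormalMultilinearSeries.coeff_iterate_fslope (p := q) T 0
      rw [zero_add] at h3
      rw [← h3]
      rfl
    have h3 := sub_smul_dslope g 0 t
    rw [sub_zero, smul_eq_mul] at h3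
    have h4 : g t = g 0 + t * dslope g 0 t := by rw [h3]; ring
    rw [h4, h2]
    show _ = _ + t ^ (T + 1) * dslope g 0 t
    ring

/-- The determinant vanishes to a high order at `0`. -/
theorem order {p D : ℕ} (G : Fin D → (Fin p → ℂ) → ℂ) (hG : ∀ μ, AnalyticAt ℂ (G μ) 0)
    (α : Fin D → Fin p → ℂ) (K : ℕ) :
    ∃ g : ℂ → ℂ, ContinuousAt g 0 ∧ ∀ t, Matrix.det (Matrix.of fun μ ν => G μ (t • α ν)) =
      t ^ (K * (D - K ^ p)) * g t := by
  classical
  set e := K * (D - K ^ p) with he
  have h1 : ∀ μ, ∃ Q : FormalMultilinearSeries ℂ (Fin p → ℂ) ℂ, HasFPowerSeriesAt (G μ) Q 0 :=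
    fun μ => hG μ
  choose Q hQ using h1
  have h2 : ∀ μ ν, HasFPowerSeriesAt (fun t : ℂ => G μ (t • α ν))
      ((Q μ).compContinuousLinearMap (ContinuousLinearMap.toSpanSingleton ℂ (α ν))) 0 := by
    intro μ ν
    have h3 : HasFPowerSeriesAt (G μ) (Q μ)
        ((ContinuousLinearMap.toSpanSingleton ℂ (α ν)) 0) := by
      rw [map_zero]
      exact hQ μ
    exact h3.compContinuousLinearMap
  have h3 : ∀ μ ν, ∃ R : ℂ → ℂ, AnalyticAt ℂ R 0 ∧ ∀ t, G μ (t • α ν) =
      ∑ n ∈ range e, t ^ n * (Q μ n fun _ => α ν) + t ^ e * R t := by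
    intro μ ν
    obtain ⟨R, hR, h⟩ := taylor (h2 μ ν) e
    refine ⟨R, hR, fun t => ?_⟩
    rw [h t]
    congr 1
    refine Finset.sum_congr rfl fun n _ => ?_
    congr 1
    show ((Q μ).compContinuousLinearMap (ContinuousLinearMap.toSpanSingleton ℂ (α ν)) n)
      (1 : Fin n → ℂ) = _
    rw [FormalMultilinearSeries.compContinuousLinearMap_apply]
    congr 1
    funext j
    simp [ContinuousLinearMap.toSpanSingleton_apply]
  choose R hR hG' using h3
  -- the rows
  let w : Fin D → Fin (e + 1) → ℂ → Fin D → ℂ := fun μ n t ν =>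
    if (n : ℕ) < e then Q μ n fun _ => α ν else R μ ν t
  have hrow : ∀ μ t, (fun ν => G μ (t • α ν)) = ∑ n : Fin (e + 1), (t ^ (n : ℕ)) • w μ n t := by
    intro μ t
    funext ν
    rw [hG' μ ν t, Finset.sum_apply, Fin.sum_univ_castSucc, Finset.sum_range]
    congr 1
    · refine Finset.sum_congr rfl fun n _ => ?_
      rw [Pi.smul_apply, smul_eq_mul]
      simp only [w, Fin.val_castSucc]
      rw [if_pos n.2]
    · rw [Pi.smul_apply, smul_eq_mul]
      simp only [w, Fin.val_last, lt_irrefl, if_false]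
  have hdet : ∀ t, Matrix.det (Matrix.of fun μ ν => G μ (t • α ν)) =
      ∑ κ : Fin D → Fin (e + 1), (∏ μ, t ^ (κ μ : ℕ)) *
        Matrix.det (Matrix.of fun μ => w μ (κ μ) t) := by
    intro t
    have h4 : (Matrix.of fun μ ν => G μ (t • α ν)) =
        fun μ => ∑ n : Fin (e + 1), (t ^ (n : ℕ)) • w μ n t := by
      funext μ
      exact hrow μ t
    rw [h4]
    have h5 := (Matrix.detRowAlternating (n := Fin D) (R := ℂ)).toMultilinearMap.map_sum
      (fun (μ : Fin D) (n : Fin (e + 1)) => (t ^ (n : ℕ)) • w μ n t)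
    refine h5.trans ?_
    refine Finset.sum_congr rfl fun κ _ => ?_
    have h6 := (Matrix.detRowAlternating (n := Fin D) (R := ℂ)).toMultilinearMap.map_smul_univ
      (fun μ : Fin D => t ^ (κ μ : ℕ)) (fun μ => w μ (κ μ) t)
    refine h6.trans ?_
    rw [smul_eq_mul]
    rfl
  refine ⟨fun t => ∑ κ : Fin D → Fin (e + 1), if e ≤ ∑ μ, (κ μ : ℕ) then
    t ^ (∑ μ, (κ μ : ℕ) - e) * Matrix.det (Matrix.of fun μ => w μ (κ μ) t) else 0, ?_, ?_⟩
  · refine tendsto_finsetSum _ fun κ _ => ?_
    by_cases hκ : e ≤ ∑ μ, (κ μ : ℕ)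
    · simp only [hκ, if_true]
      have hw : ∀ μ, ContinuousAt (fun t => w μ (κ μ) t) 0 := by
        intro μ
        rw [continuousAt_pi]
        intro ν
        by_cases h : (κ μ : ℕ) < e
        · simp only [w, h, if_true]
          exact continuousAt_const
        · simp only [w, h, if_false]
          exact (hR μ ν).continuousAt
      have hM : ContinuousAt (fun t => (Matrix.of fun μ => w μ (κ μ) t : Matrix (Fin D) (Fin D) ℂ)) 0 :=
        continuousAt_pi.2 hw
      have h7 : ContinuousAt (fun t => Matrix.det (Matrix.of fun μ => w μ (κ μ) t)) 0 := by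
        have h8 : Continuous fun A : Matrix (Fin D) (Fin D) ℂ => A.det := continuous_id.matrix_det
        exact h8.continuousAt.comp hM
      exact (continuousAt_id.pow _).mul h7
    · simp only [hκ, if_false]
      exact tendsto_const_nhds
  · intro t
    rw [hdet, Finset.mul_sum]
    refine Finset.sum_congr rfl fun κ _ => ?_
    by_cases hκ : e ≤ ∑ μ, (κ μ : ℕ)
    · simp only [hκ, if_true]
      rw [Finset.prod_pow_eq_pow_sum, ← mul_assoc, ← pow_add]
      congr 3
      omega
    · simp only [hκ, if_false, mul_zero]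
      rw [not_le] at hκ
      have hlt : ∀ μ, (κ μ : ℕ) < e := fun μ =>
        lt_of_le_of_lt (Finset.single_le_sum (f := fun μ => (κ μ : ℕ)) (fun _ _ => Nat.zero_le _)
          (Finset.mem_univ μ)) hκ
      have hz : Matrix.det (Matrix.of fun μ => w μ (κ μ) t) = 0 := by
        refine det_zero α K _ (Finset.univ.filter fun μ => (κ μ : ℕ) < K) ?_ ?_
        · by_contra hcon
          rw [not_lt] at hcon
          have h8 : (Finset.univ.filter fun μ => (κ μ : ℕ) < K).card +
              (Finset.univ.filter fun μ => ¬ (κ μ : ℕ) < K).card = D := by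
            rw [Finset.card_filter_add_card_filter_not]
            simp
          have h9 : K * (Finset.univ.filter fun μ => ¬ (κ μ : ℕ) < K).card ≤
              ∑ μ, (κ μ : ℕ) := by
            calc K * (Finset.univ.filter fun μ => ¬ (κ μ : ℕ) < K).card
                = ∑ μ ∈ Finset.univ.filter (fun μ => ¬ (κ μ : ℕ) < K), K := by
                  rw [Finset.sum_const, smul_eq_mul, mul_comm]
              _ ≤ ∑ μ ∈ Finset.univ.filter (fun μ => ¬ (κ μ : ℕ) < K), (κ μ : ℕ) := by
                  refine Finset.sum_le_sum fun μ hμ => ?_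
                  exact not_lt.1 (Finset.mem_filter.1 hμ).2
              _ ≤ ∑ μ, (κ μ : ℕ) :=
                  Finset.sum_le_sum_of_subset (Finset.filter_subset _ _)
          have h10 : D - K ^ p ≤ (Finset.univ.filter fun μ => ¬ (κ μ : ℕ) < K).card := by omega
          have h11 := Nat.mul_le_mul_left K h10
          omega
        · intro μ hμ
          have h8 : w μ (κ μ) t = fun ν => Q μ (κ μ) fun _ => α ν := by
            funext ν
            simp only [w]
            rw [if_pos (hlt μ)]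
          rw [h8]
          exact mem_span_monRow α K (κ μ) (Finset.mem_filter.1 hμ).2 _
      rw [hz, mul_zero]

/-- Schwarz lemma for functions with a zero of high order -/
theorem schwarz {e : ℕ} : ∀ {F : ℂ → ℂ} {R M : ℝ}, 1 < R → DifferentiableOn ℂ F (ball 0 R) →
    (∀ t ∈ ball (0 : ℂ) R, ‖F t‖ ≤ M) → (∃ g : ℂ → ℂ, ContinuousAt g 0 ∧
      ∀ᶠ t in 𝓝[≠] (0 : ℂ), F t = t ^ e * g t) → ‖F 1‖ ≤ M / R ^ e := by
  induction e with
  | zero =>
    intro F R M hR _ hM _
    rw [pow_zero, div_one]
    exact hM 1 (by simpa using hR)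
  | succ e ih =>
    intro F R M hR hF hM ⟨g, hg, hgF⟩
    have hR0 : 0 < R := by linarith
    have hF0 : F 0 = 0 := by
      have hc : ContinuousAt F 0 := (hF.differentiableAt (isOpen_ball.mem_nhds
        (mem_ball_self hR0))).continuousAt
      have h1 : Tendsto F (𝓝[≠] 0) (𝓝 (F 0)) := hc.tendsto.mono_left nhdsWithin_le_nhds
      have h2 : Tendsto (fun t : ℂ => t ^ (e + 1) * g t) (𝓝[≠] 0) (𝓝 (0 ^ (e + 1) * g 0)) :=
        ((continuousAt_id.pow (e + 1)).mul hg).tendsto.mono_left nhdsWithin_le_nhds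
      have h3 := h2.congr' (hgF.mono fun t ht => ht.symm)
      rw [zero_pow (Nat.succ_ne_zero e), zero_mul] at h3
      exact tendsto_nhds_unique h1 h3
    have hb : ∀ t ∈ ball (0 : ℂ) R, ‖dslope F 0 t‖ ≤ M / R := by
      intro t ht
      refine Complex.norm_dslope_le_div_of_mapsTo_ball hF ?_ ht
      intro z hz
      rw [hF0, mem_closedBall_zero_iff]
      exact hM z hz
    have hd : DifferentiableOn ℂ (dslope F 0) (ball 0 R) :=
      (Complex.differentiableOn_dslope (isOpen_ball.mem_nhds (mem_ball_self hR0))).2 hF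
    have h1 := ih hR hd hb ⟨g, hg, by
      filter_upwards [hgF, self_mem_nhdsWithin] with t ht ht0
      have ht0' : t ≠ 0 := ht0
      rw [dslope_of_ne _ ht0', slope_def_field, hF0, ht, sub_zero, sub_zero]
      field_simp
      ring⟩
    have h2 : dslope F 0 1 = F 1 := by
      rw [dslope_of_ne _ one_ne_zero, slope_def_field, hF0]
      simp
    rw [h2] at h1
    rw [pow_succ']
    refine h1.trans (le_of_eq ?_)
    field_simp

/-- **The bound for interpolation determinants.** -/
theorem det_bound {p D : ℕ} (G : Fin D → (Fin p → ℂ) → ℂ)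
    (hG : ∀ μ, AnalyticOnNhd ℂ (G μ) (ball 0 1)) {A : ℝ} (hA : ∀ μ, ∀ z ∈ ball (0 : Fin p → ℂ) 1,
      ‖G μ z‖ ≤ A) (α : Fin D → Fin p → ℂ) (hα : ∀ ν, ‖α ν‖ ≤ 1 / 2) (K : ℕ) :
    ‖Matrix.det (Matrix.of fun μ ν => G μ (α ν))‖ ≤
      (Nat.factorial D) * A ^ D / 2 ^ (K * (D - K ^ p)) := by
  classical
  obtain ⟨g, hg, hF⟩ := order G (fun μ => hG μ 0 (mem_ball_self one_pos)) α K
  let F : ℂ → ℂ := fun t => Matrix.det (Matrix.of fun μ ν => G μ (t • α ν))
  have hmem : ∀ t ∈ ball (0 : ℂ) 2, ∀ ν, t • α ν ∈ ball (0 : Fin p → ℂ) 1 := by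
    intro t ht ν
    rw [mem_ball_zero_iff] at ht ⊢
    rw [norm_smul]
    have := hα ν
    have h0 := norm_nonneg (α ν)
    have h1 := norm_nonneg t
    nlinarith
  have hFd : DifferentiableOn ℂ F (ball 0 2) := by
    intro t ht
    refine DifferentiableAt.differentiableWithinAt ?_
    have hent : ∀ μ ν, DifferentiableAt ℂ (fun t : ℂ => G μ (t • α ν)) t := by
      intro μ ν
      have h1 : DifferentiableAt ℂ (G μ) (t • α ν) := (hG μ _ (hmem t ht ν)).differentiableAt
      have h2 : DifferentiableAt ℂ (fun t : ℂ => t • α ν) t :=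
        differentiableAt_id.smul_const (α ν)
      exact h1.comp t h2
    show DifferentiableAt ℂ (fun t => Matrix.det (Matrix.of fun μ ν => G μ (t • α ν))) t
    have h3 : (fun t : ℂ => Matrix.det (Matrix.of fun μ ν => G μ (t • α ν))) = fun t : ℂ =>
        ∑ σ : Equiv.Perm (Fin D), ((Equiv.Perm.sign σ : ℤ) : ℂ) * ∏ i, G (σ i) (t • α i) := by
      funext t
      rw [Matrix.det_apply']
      rfl
    rw [h3]
    refine DifferentiableAt.fun_sum fun σ _ => ?_
    refine DifferentiableAt.const_mul ?_ _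
    exact DifferentiableAt.fun_finsetProd fun i _ => hent _ _
  have hFb : ∀ t ∈ ball (0 : ℂ) 2, ‖F t‖ ≤ (Nat.factorial D) * A ^ D := by
    intro t ht
    have h1 := Matrix.det_le (A := Matrix.of fun μ ν => G μ (t • α ν))
      (abv := (NormedField.toAbsoluteValue ℂ)) (x := A) (fun μ ν => by
        show ‖G μ (t • α ν)‖ ≤ A
        exact hA μ _ (hmem t ht ν))
    rw [Fintype.card_fin, nsmul_eq_mul] at h1
    exact h1
  have h1 := schwarz (e := K * (D - K ^ p)) (R := 2) (by norm_num) hFd hFb
    ⟨g, hg, Eventually.of_forall hF⟩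
  have h2 : F 1 = Matrix.det (Matrix.of fun μ ν => G μ (α ν)) := by
    show Matrix.det (Matrix.of fun μ ν => G μ ((1 : ℂ) • α ν)) = _
    simp only [one_smul]
  rwa [h2] at h1

end Pool.Agent.H434.Disc
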