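import Mathlib

/-!
Liouville's inequality, in terms of the heights of Mathlib.
-/

set_option autoImplicit false

open Height Height.AdmissibleAbsValues Function

namespace Pool.Agent.H434.Disc

theorem hfin {K ι : Type} [Field K] [AdmissibleAbsValues K] [Finite ι] {x : ι → K} (hx : x ≠ 0) :
    (fun v : nonarchAbsVal (K := K) => ⨆ i, v.val (x i)).HasFiniteMulSupport := by
  have : Nonempty {j // x j ≠ 0} := nonempty_subtype.mpr <| ne_iff.mp hx
  suffices (fun v : nonarchAbsVal (K := K) ↦ ⨆ i : {j // x j ≠ 0}, v.val (x i)).HasFiniteMulSupport by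
    convert! this with v
    obtain ⟨i, hi⟩ : ∃ j, x j ≠ 0 := Function.ne_iff.mp hx
    have : Nonempty ι := .intro i
    refine le_antisymm (ciSup_le fun j ↦ ?_) (ciSup_le fun ⟨j, hj⟩ ↦ Finite.le_ciSup_of_le j le_rfl)
    rcases eq_or_ne (x j) 0 with h | h
    · rw [h, v.val.map_zero]
      exact Real.iSup_nonneg' ⟨⟨i, hi⟩, v.val.nonneg ..⟩
    · exact Finite.le_ciSup_of_le ⟨j, h⟩ le_rfl
  fun_prop (disch := grind)

/-- Liouville's inequality -/
theorem liouville {L : Type} [Field L] [NumberField L] (σ : L →+* ℂ) {ι : Type} [Finite ι]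
    (Y : ι → L) (hY : Y ≠ 0) (Δ : L) (hΔ : Δ ≠ 0) (B η : ℝ) (hB : 1 ≤ B) (hη : 0 ≤ η)
    (hfin' : ∀ v ∈ nonarchAbsVal (K := L), v Δ ≤ ⨆ i, v (Y i))
    (harch : ∀ v ∈ archAbsVal (K := L), v Δ ≤ B * ⨆ i, v (Y i))
    (hσ : ‖σ Δ‖ ≤ η * ⨆ i, ‖σ (Y i)‖) :
    1 ≤ B ^ (Module.finrank ℚ L - 1) * η * mulHeight Y := by
  classical
  have hmem : (NumberField.InfinitePlace.mk σ).1 ∈ archAbsVal (K := L) := by
    show _ ∈ NumberField.multisetInfinitePlace L
    rw [NumberField.mem_multisetInfinitePlace]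
    exact (NumberField.InfinitePlace.mk σ).2
  obtain ⟨rest, hrest⟩ := Multiset.exists_cons_of_mem hmem
  have hcard : rest.card = Module.finrank ℚ L - 1 := by
    have h1 : (archAbsVal (K := L)).card = Module.finrank ℚ L :=
      NumberField.totalWeight_eq_finrank L
    rw [hrest, Multiset.card_cons] at h1
    omega
  have hmk : ∀ x : L, (NumberField.InfinitePlace.mk σ).1 x = ‖σ x‖ := fun x => rfl
  have hsup0 : ∀ v : AbsoluteValue L ℝ, 0 ≤ ⨆ i, v (Y i) := fun v =>
    Real.iSup_nonneg fun i => v.nonneg _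
  have hpf := product_formula (K := L) hΔ
  rw [← hpf, mulHeight_eq hY]
  have h1 : (archAbsVal.map (fun v : AbsoluteValue L ℝ => v Δ)).prod ≤
      B ^ (Module.finrank ℚ L - 1) * η * (archAbsVal.map fun v : AbsoluteValue L ℝ => ⨆ i, v (Y i)).prod := by
    rw [hrest, Multiset.map_cons, Multiset.prod_cons, Multiset.map_cons, Multiset.prod_cons]
    have h2 : (rest.map (fun v : AbsoluteValue L ℝ => v Δ)).prod ≤
        (rest.map (fun v : AbsoluteValue L ℝ => B * ⨆ i, v (Y i))).prod := by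
      refine Multiset.prod_map_le_prod_map₀ _ _ (fun v _ => v.nonneg _) fun v hv => harch v ?_
      rw [hrest]
      exact Multiset.mem_cons_of_mem hv
    rw [Multiset.prod_map_mul, Multiset.map_const', Multiset.prod_replicate, hcard] at h2
    rw [hmk]
    have h3 : 0 ≤ (rest.map (fun v : AbsoluteValue L ℝ => v Δ)).prod :=
      Multiset.prod_nonneg fun a ha => by
        obtain ⟨v, _, rfl⟩ := Multiset.mem_map.1 ha
        exact v.nonneg _
    have h4 : 0 ≤ η * ⨆ i, ‖σ (Y i)‖ := (norm_nonneg _).trans hσ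
    calc ‖σ Δ‖ * (rest.map (fun v : AbsoluteValue L ℝ => v Δ)).prod ≤
        (η * ⨆ i, ‖σ (Y i)‖) * (B ^ (Module.finrank ℚ L - 1) *
          (rest.map (fun v : AbsoluteValue L ℝ => ⨆ i, v (Y i))).prod) :=
          mul_le_mul hσ h2 h3 h4
      _ = _ := by
          simp only [hmk]
          ring
  have h2 : ∏ᶠ v : nonarchAbsVal (K := L), v.val Δ ≤
      ∏ᶠ v : nonarchAbsVal (K := L), ⨆ i, v.val (Y i) :=
    finprod_le_finprod (hasFiniteMulSupport hΔ) (fun v => v.val.nonneg _) (hfin hY)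
      fun v => hfin' v.1 v.2
  have h3 : 0 ≤ ∏ᶠ v : nonarchAbsVal (K := L), v.val Δ := finprod_nonneg fun v => v.val.nonneg _
  have h4 : 0 ≤ (archAbsVal.map fun v : AbsoluteValue L ℝ => ⨆ i, v (Y i)).prod :=
    Multiset.prod_nonneg fun a ha => by
      obtain ⟨v, _, rfl⟩ := Multiset.mem_map.1 ha
      exact hsup0 v
  have h5 : (0 : ℝ) ≤ B ^ (Module.finrank ℚ L - 1) * η := mul_nonneg (by positivity) hη
  calc _ ≤ (B ^ (Module.finrank ℚ L - 1) * η *
        (archAbsVal.map fun v : AbsoluteValue L ℝ => ⨆ i, v (Y i)).prod) *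
        ∏ᶠ v : nonarchAbsVal (K := L), ⨆ i, v.val (Y i) :=
        mul_le_mul h1 h2 h3 (mul_nonneg h5 h4)
    _ = _ := by ring

/-- The height of the products of the coordinates of several points. -/
theorem height_prod {L : Type} [Field L] [NumberField L] {J ι : Type} [Fintype J] [Finite ι]
    (x : J → ι → L) (hx : ∀ ν, x ν ≠ 0) (d : ℕ) :
    mulHeight (fun I : J × Fin d → ι => ∏ a, x a.1 (I a)) = ∏ ν, mulHeight (x ν) ^ d := by
  classical
  have h1 := mulHeight_fun_prod_eq (K := L) (α := J × Fin d) (ι := fun _ => ι)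
    (x := fun a => x a.1) fun a => hx a.1
  rw [h1, Fintype.prod_prod_type]
  refine Finset.prod_congr rfl fun ν _ => ?_
  simp

theorem sup_prod {J ι L : Type} [Field L] [Fintype J] [Finite ι] (v : L → ℝ)
    (hv : ∀ x, 0 ≤ v x) (x : J → ι → L) (d : ℕ) :
    ⨆ I : J × Fin d → ι, ∏ a, v (x a.1 (I a)) = ∏ ν, (⨆ i, v (x ν i)) ^ d := by
  classical
  have h1 := Real.iSup_prod_eq_prod_iSup_of_nonneg (α := J × Fin d) (ι := fun _ => ι)
    (f := fun a i => v (x a.1 i)) (fun a i => hv _)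
  rw [h1, Fintype.prod_prod_type]
  refine Finset.prod_congr rfl fun ν _ => ?_
  simp

end Pool.Agent.H434.Disc
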