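import Mathlib
import Pool.Agent.H434.D1
import Pool.Agent.H434.D2

/-!
Rational points on a small polydisc lie on a hypersurface of small degree.
-/

set_option autoImplicit false

open Metric Set Filter Topology Finset MvPolynomial
open Height Height.AdmissibleAbsValues

namespace Pool.Agent.H434.Disc

/-- the exponents of the monomials of degree `m * s` in `m + 1` variables -/
def ex {m : ℕ} (s : ℕ) (μ : Fin m → Fin (s + 1)) : Fin (m + 1) → ℕ :=
  Fin.cons (m * s - ∑ l, (μ l : ℕ)) fun l => (μ l : ℕ)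

theorem ex_sum {m : ℕ} (s : ℕ) (μ : Fin m → Fin (s + 1)) : ∑ l, ex s μ l = m * s := by
  have h1 : ∑ l, (μ l : ℕ) ≤ m * s := by
    calc ∑ l, (μ l : ℕ) ≤ ∑ _l : Fin m, s := Finset.sum_le_sum fun l _ => by
          have := (μ l).2
          omega
      _ = m * s := by simp
  rw [Fin.sum_univ_succ]
  simp only [ex, Fin.cons_zero, Fin.cons_succ]
  omega

theorem ex_inj {m s : ℕ} : Function.Injective (ex s : (Fin m → Fin (s + 1)) → Fin (m + 1) → ℕ) := by
  intro μ ν h
  funext l
  have h1 := congrFun h l.succ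
  simp only [ex, Fin.cons_succ] at h1
  exact Fin.ext h1

/-- the monomials -/
noncomputable def ph (R : Type) [CommSemiring R] {m : ℕ} (s : ℕ) (μ : Fin m → Fin (s + 1)) :
    MvPolynomial (Fin (m + 1)) R :=
  monomial (Finsupp.equivFunOnFinite.symm (ex s μ)) 1

theorem eval_ph {R : Type} [CommSemiring R] {m : ℕ} (s : ℕ) (μ : Fin m → Fin (s + 1))
    (x : Fin (m + 1) → R) : eval x (ph R s μ) = ∏ l, x l ^ ex s μ l := by
  rw [ph, eval_monomial, one_mul, Finsupp.prod_fintype _ _ (fun i => pow_zero _)]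
  rfl

theorem ph_hom (R : Type) [CommSemiring R] {m : ℕ} (s : ℕ) (μ : Fin m → Fin (s + 1)) :
    (ph R s μ).IsHomogeneous (m * s) := by
  apply isHomogeneous_monomial
  rw [Finsupp.degree_eq_sum]
  exact ex_sum s μ

/-- the form with the coefficients `c` -/
noncomputable def frm {R : Type} [CommSemiring R] {m s : ℕ} (c : (Fin m → Fin (s + 1)) → R) :
    MvPolynomial (Fin (m + 1)) R := ∑ μ, MvPolynomial.C (c μ) * ph R s μ

theorem frm_hom {R : Type} [CommSemiring R] {m s : ℕ} (c : (Fin m → Fin (s + 1)) → R) :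
    (frm c).IsHomogeneous (m * s) := by
  refine IsHomogeneous.sum _ _ _ fun μ _ => ?_
  have h1 := (isHomogeneous_C (Fin (m + 1)) (c μ)).mul (ph_hom R s μ)
  rwa [zero_add] at h1

theorem eval_frm {R : Type} [CommSemiring R] {m s : ℕ} (c : (Fin m → Fin (s + 1)) → R)
    (x : Fin (m + 1) → R) : eval x (frm c) = ∑ μ, c μ * ∏ l, x l ^ ex s μ l := by
  rw [frm, map_sum]
  refine Finset.sum_congr rfl fun μ _ => ?_
  rw [map_mul, eval_C, eval_ph]

theorem frm_ne {R : Type} [CommSemiring R] {m s : ℕ} (c : (Fin m → Fin (s + 1)) → R)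
    (hc : c ≠ 0) : frm c ≠ 0 := by
  classical
  intro h
  apply hc
  funext μ
  have h1 := congrArg (coeff (Finsupp.equivFunOnFinite.symm (ex s μ))) h
  rw [frm, coeff_sum, Finset.sum_eq_single μ] at h1
  · rw [coeff_C_mul, ph, coeff_monomial, if_pos rfl, mul_one, coeff_zero] at h1
    exact h1
  · intro ν _ hν
    rw [coeff_C_mul, ph, coeff_monomial, if_neg, mul_zero]
    intro h2
    exact hν (ex_inj (Finsupp.equivFunOnFinite.symm.injective h2))
  · intro h2
    exact absurd (Finset.mem_univ _) h2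

/-- bound for the monomials -/
theorem mon_le {L : Type} [Field L] {N m : ℕ} (v : AbsoluteValue L ℝ) (i : Fin (m + 1) → Fin (N + 1))
    (s : ℕ) (μ : Fin m → Fin (s + 1)) (x : Fin (N + 1) → L) :
    v (∏ l, x (i l) ^ ex s μ l) ≤ (⨆ j, v (x j)) ^ (m * s) := by
  rw [map_prod, ← ex_sum s μ, ← Finset.prod_pow_eq_pow_sum]
  refine Finset.prod_le_prod (fun l _ => v.nonneg _) fun l _ => ?_
  rw [map_pow]
  exact pow_le_pow_left₀ (v.nonneg _) (le_ciSup_of_le (Set.finite_range _).bddAbove (i l) le_rfl) _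

/-- **Rational points on a small polydisc.** -/
theorem loc {p m N s K κ : ℕ} {A h : ℝ} (hA : 1 ≤ A) (c : Fin (N + 1) → (Fin p → ℂ) → ℂ)
    (hc : ∀ j, AnalyticOnNhd ℂ (c j) (ball 0 1)) (hcA : ∀ j, ∀ z ∈ ball (0 : Fin p → ℂ) 1, ‖c j z‖ ≤ A)
    (i : Fin (m + 1) → Fin (N + 1)) {L : Type} [Field L] [NumberField L] (σ : L →+* ℂ)
    (hκ : Module.finrank ℚ L ≤ κ) (hKD : 2 * K ^ p ≤ (s + 1) ^ m)
    (hnum : κ * Real.log ((s + 1) ^ m : ℕ) + (m * s : ℕ) * (Real.log A + h) < K / 2 * Real.log 2) :
    ∃ G : MvPolynomial (Fin (m + 1)) L, G.IsHomogeneous (m * s) ∧ G ≠ 0 ∧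
      ∀ x : Fin (N + 1) → L, x ≠ 0 → logHeight x ≤ h →
        (∃ (z : Fin p → ℂ) (lam : ℂ), ‖z‖ ≤ 1 / 2 ∧ ‖lam‖ ≤ (⨆ j, ‖σ (x j)‖) ∧
          ∀ j, σ (x j) = lam * c j z) → eval (fun l => x (i l)) G = 0 := by
  classical
  set D : ℕ := (s + 1) ^ m with hD
  set d : ℕ := m * s with hd
  have hcard : Fintype.card (Fin m → Fin (s + 1)) = D := by simp [hD]
  let e : Fin D ≃ (Fin m → Fin (s + 1)) := (Fintype.equivFinOfCardEq hcard).symm
  let Φ : (Fin (N + 1) → L) → Fin D → L := fun x μ => ∏ l, x (i l) ^ ex s (e μ) l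
  let E : Set (Fin (N + 1) → L) := {x | x ≠ 0 ∧ logHeight x ≤ h ∧
    ∃ (z : Fin p → ℂ) (lam : ℂ), ‖z‖ ≤ 1 / 2 ∧ ‖lam‖ ≤ (⨆ j, ‖σ (x j)‖) ∧
          ∀ j, σ (x j) = lam * c j z}
  let S : Submodule L (Fin D → L) := Submodule.span L (Φ '' E)
  by_cases hS : S = ⊤
  · exfalso
    -- choose a basis among the points
    obtain ⟨b, hbS, hbspan, hbli⟩ := exists_linearIndependent L (Φ '' E)
    have hbtop : Submodule.span L b = ⊤ := by rw [hbspan]; exact hS
    let bas : Module.Basis b L (Fin D → L) := Module.Basis.mk (v := Subtype.val) hbli (by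
      rw [Subtype.range_coe, hbtop])
    have hfin : Finite b := Module.Finite.finite_basis bas
    have : Fintype b := Fintype.ofFinite b
    have hbc : Fintype.card b = D := by
      have h1 := Module.finrank_eq_card_basis bas
      rw [Module.finrank_fintype_fun_eq_card, Fintype.card_fin] at h1
      exact h1.symm
    let eb : Fin D ≃ b := (Fintype.equivFinOfCardEq hbc).symm
    have hx : ∀ ν : Fin D, ∃ x ∈ E, Φ x = (eb ν : Fin D → L) := fun ν => hbS (eb ν).2
    choose x hxE hxΦ using hx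
    have hxli : LinearIndependent L (fun ν => Φ (x ν)) := by
      have h1 : (fun ν => Φ (x ν)) = (fun y : b => (y : Fin D → L)) ∘ eb := by
        funext ν
        exact hxΦ ν
      rw [h1]
      exact hbli.comp _ eb.injective
    let M : Matrix (Fin D) (Fin D) L := Matrix.of fun μ ν => Φ (x ν) μ
    have hM : M.det ≠ 0 := by
      have h1 : M.transpose = Matrix.of fun ν => Φ (x ν) := rfl
      rw [← Matrix.det_transpose, h1]
      have h2 := (Matrix.linearIndependent_rows_iff_isUnit (A := Matrix.of fun ν => Φ (x ν))).1 hxli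
      exact ((Matrix.isUnit_iff_isUnit_det _).1 h2).ne_zero
    -- the three bounds
    let Y : (Fin D × Fin d → Fin (N + 1)) → L := fun I => ∏ a, x a.1 (I a)
    have hx0 : ∀ ν, x ν ≠ 0 := fun ν => (hxE ν).1
    have hYh : mulHeight Y = ∏ ν, mulHeight (x ν) ^ d := height_prod x hx0 d
    have hYsup : ∀ v : AbsoluteValue L ℝ, ⨆ I, v (Y I) = ∏ ν, (⨆ j, v (x ν j)) ^ d := by
      intro v
      have h1 := sup_prod (J := Fin D) (ι := Fin (N + 1)) v v.nonneg x d
      rw [← h1]
      refine iSup_congr fun I => ?_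
      exact map_prod v _ _
    have hY0 : Y ≠ 0 := by
      have h1 : ∀ ν, ∃ j, x ν j ≠ 0 := fun ν => Function.ne_iff.1 (hx0 ν)
      choose j hj using h1
      intro h0
      have h2 := congrFun h0 (fun a => j a.1)
      exact Finset.prod_ne_zero_iff.2 (fun a _ => hj a.1) h2
    have hterm : ∀ (v : AbsoluteValue L ℝ) (π : Equiv.Perm (Fin D)),
        v (∏ ν, M (π ν) ν) ≤ ⨆ I, v (Y I) := by
      intro v π
      rw [hYsup, map_prod]
      exact Finset.prod_le_prod (fun ν _ => v.nonneg _) fun ν _ => mon_le v i s _ (x ν)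
    have hsg : ∀ (v : AbsoluteValue L ℝ) (π : Equiv.Perm (Fin D)),
        v ((((Equiv.Perm.sign π : ℤˣ) : ℤ) : L) * ∏ ν, M (π ν) ν) = v (∏ ν, M (π ν) ν) := by
      intro v π
      rw [map_mul]
      rcases Int.units_eq_one_or (Equiv.Perm.sign π) with h1 | h1
      · rw [h1]; simp
      · rw [h1]; simp
    have hnon : ∀ v ∈ nonarchAbsVal (K := L), v M.det ≤ ⨆ I, v (Y I) := by
      intro v hv
      rw [Matrix.det_apply']
      have h1 := IsNonarchimedean.apply_sum_univ_le (isNonarchimedean v hv) (l := fun π : Equiv.Perm (Fin D) =>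
        (((Equiv.Perm.sign π : ℤˣ) : ℤ) : L) * ∏ ν, M (π ν) ν)
      refine h1.trans ?_
      refine ciSup_le fun π => ?_
      rw [hsg]
      exact hterm v π
    have harch : ∀ v ∈ archAbsVal (K := L), v M.det ≤ (Nat.factorial D : ℝ) * ⨆ I, v (Y I) := by
      intro v _
      rw [Matrix.det_apply']
      calc v (∑ π : Equiv.Perm (Fin D), (((Equiv.Perm.sign π : ℤˣ) : ℤ) : L) * ∏ ν, M (π ν) ν) ≤
          ∑ π : Equiv.Perm (Fin D), v ((((Equiv.Perm.sign π : ℤˣ) : ℤ) : L) * ∏ ν, M (π ν) ν) :=
            v.sum_le _ _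
        _ ≤ ∑ _π : Equiv.Perm (Fin D), ⨆ I, v (Y I) := Finset.sum_le_sum fun π _ => by
            rw [hsg]
            exact hterm v π
        _ = _ := by
            rw [Finset.sum_const, nsmul_eq_mul, Finset.card_univ, Fintype.card_perm,
              Fintype.card_fin]
    choose z lam hz hlam hzx using fun ν => (hxE ν).2.2
    have hσ : ‖σ M.det‖ ≤ ((Nat.factorial D : ℝ) * (A ^ d) ^ D / 2 ^ (K * (D - K ^ p))) *
        ⨆ I, ‖σ (Y I)‖ := by
      have h1 : ⨆ I, ‖σ (Y I)‖ = ∏ ν, (⨆ j, ‖σ (x ν j)‖) ^ d := by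
        have h2 := sup_prod (J := Fin D) (ι := Fin (N + 1)) (fun y : L => ‖σ y‖)
          (fun y => norm_nonneg _) x d
        rw [← h2]
        refine iSup_congr fun I => ?_
        show ‖σ (∏ a, x a.1 (I a))‖ = _
        rw [map_prod, norm_prod]
      rw [h1]
      let G : Fin D → (Fin p → ℂ) → ℂ := fun μ y => ∏ l, c (i l) y ^ ex s (e μ) l
      have h2 : σ M.det = (∏ ν, lam ν ^ d) * Matrix.det (Matrix.of fun μ ν => G μ (z ν)) := by
        rw [RingHom.map_det, ← Matrix.det_mul_row]
        congr 1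
        funext μ ν
        show σ (∏ l, x ν (i l) ^ ex s (e μ) l) = lam ν ^ d * ∏ l, c (i l) (z ν) ^ ex s (e μ) l
        rw [map_prod]
        simp only [map_pow, hzx, mul_pow]
        rw [Finset.prod_mul_distrib, Finset.prod_pow_eq_pow_sum, ex_sum]
      have h3 : ‖Matrix.det (Matrix.of fun μ ν => G μ (z ν))‖ ≤
          (Nat.factorial D) * (A ^ d) ^ D / 2 ^ (K * (D - K ^ p)) := by
        refine det_bound G ?_ ?_ z hz K
        · intro μ
          show AnalyticOnNhd ℂ (fun y => ∏ l, c (i l) y ^ ex s (e μ) l) (ball 0 1)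
          exact Finset.analyticOnNhd_fun_prod _ fun l _ => (hc (i l)).pow _
        · intro μ y hy
          show ‖∏ l, c (i l) y ^ ex s (e μ) l‖ ≤ A ^ d
          rw [norm_prod, hd, ← ex_sum s (e μ), ← Finset.prod_pow_eq_pow_sum]
          refine Finset.prod_le_prod (fun l _ => norm_nonneg _) fun l _ => ?_
          rw [norm_pow]
          exact pow_le_pow_left₀ (norm_nonneg _) (hcA _ _ hy) _
      rw [h2, norm_mul, norm_prod, mul_comm]
      refine mul_le_mul h3 ?_ (Finset.prod_nonneg fun _ _ => norm_nonneg _) (by positivity)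
      refine Finset.prod_le_prod (fun ν _ => norm_nonneg _) fun ν _ => ?_
      rw [norm_pow]
      exact pow_le_pow_left₀ (norm_nonneg _) (hlam ν) _
    have hfac1 : (1 : ℝ) ≤ (Nat.factorial D : ℝ) := by exact_mod_cast Nat.factorial_pos D
    have hL := liouville σ Y hY0 M.det hM (Nat.factorial D) _ hfac1 (by positivity) hnon harch hσ
    rw [hYh] at hL
    -- the height of the points
    have hHt : ∏ ν, mulHeight (x ν) ^ d ≤ Real.exp (h * (d * D)) := by
      have h1 : ∀ ν, mulHeight (x ν) ^ d ≤ Real.exp (h * d) := by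
        intro ν
        have h2 : mulHeight (x ν) = Real.exp (logHeight (x ν)) := by
          rw [logHeight, Real.exp_log (mulHeight_pos _)]
        rw [h2, ← Real.exp_nat_mul]
        apply Real.exp_le_exp.2
        rw [mul_comm]
        exact mul_le_mul_of_nonneg_right (hxE ν).2.1 (Nat.cast_nonneg _)
      calc ∏ ν, mulHeight (x ν) ^ d ≤ ∏ _ν : Fin D, Real.exp (h * d) :=
            Finset.prod_le_prod (fun ν _ => pow_nonneg (mulHeight_pos _).le _) fun ν _ => h1 ν
        _ = Real.exp (h * (d * D)) := by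
            rw [Finset.prod_const, Finset.card_univ, Fintype.card_fin, ← Real.exp_nat_mul]
            congr 1
            ring
    have hD1 : 1 ≤ D := Nat.one_le_pow _ _ (by omega)
    have hDR : (1 : ℝ) ≤ D := by exact_mod_cast hD1
    have hfrk : 1 ≤ Module.finrank ℚ L := Module.finrank_pos
    have hfac : (Nat.factorial D : ℝ) ^ (Module.finrank ℚ L - 1) * (Nat.factorial D : ℝ) ≤
        Real.exp (κ * Real.log D * D) := by
      rw [← pow_succ, Nat.sub_add_cancel hfrk]
      calc (Nat.factorial D : ℝ) ^ Module.finrank ℚ L ≤ (Nat.factorial D : ℝ) ^ κ :=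
            pow_le_pow_right₀ hfac1 hκ
        _ ≤ ((D : ℝ) ^ D) ^ κ := by
            refine pow_le_pow_left₀ (by positivity) ?_ _
            exact_mod_cast Nat.factorial_le_pow D
        _ = Real.exp (κ * Real.log D * D) := by
            rw [← pow_mul, ← Real.exp_log (pow_pos (by linarith : (0 : ℝ) < D) _), Real.log_pow]
            congr 1
            push_cast
            ring
    have hApow : (A ^ d) ^ D = Real.exp (d * Real.log A * D) := by
      rw [← pow_mul, ← Real.exp_log (pow_pos (by linarith : (0 : ℝ) < A) _), Real.log_pow]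
      congr 1
      push_cast
      ring
    have h2e : (2 : ℝ) ^ (K * (D - K ^ p)) ≥ Real.exp (K / 2 * Real.log 2 * D) := by
      rw [ge_iff_le, ← Real.exp_log (pow_pos (by norm_num : (0 : ℝ) < 2) _), Real.log_pow]
      apply Real.exp_le_exp.2
      have h3 : (K : ℝ) / 2 * D ≤ ((K * (D - K ^ p) : ℕ) : ℝ) := by
        have h4 : D ≤ 2 * (D - K ^ p) := by omega
        have h5 : K * D ≤ 2 * (K * (D - K ^ p)) := by
          calc K * D ≤ K * (2 * (D - K ^ p)) := Nat.mul_le_mul_left _ h4
            _ = _ := by ring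
        have h6 : ((K * D : ℕ) : ℝ) ≤ ((2 * (K * (D - K ^ p)) : ℕ) : ℝ) := by exact_mod_cast h5
        push_cast at h6 ⊢
        linarith
      have h4 : 0 ≤ Real.log 2 := Real.log_nonneg (by norm_num)
      have h5 := mul_le_mul_of_nonneg_right h3 h4
      linarith
    have hfinal : (Nat.factorial D : ℝ) ^ (Module.finrank ℚ L - 1) *
        ((Nat.factorial D) * (A ^ d) ^ D / 2 ^ (K * (D - K ^ p))) *
        ∏ ν, mulHeight (x ν) ^ d ≤ Real.exp ((κ * Real.log D + d * (Real.log A + h) -
          K / 2 * Real.log 2) * D) := by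
      have h3 : (Nat.factorial D : ℝ) ^ (Module.finrank ℚ L - 1) *
        ((Nat.factorial D) * (A ^ d) ^ D / 2 ^ (K * (D - K ^ p))) *
        ∏ ν, mulHeight (x ν) ^ d = ((Nat.factorial D : ℝ) ^ (Module.finrank ℚ L - 1) *
        (Nat.factorial D)) * (A ^ d) ^ D * (∏ ν, mulHeight (x ν) ^ d) / 2 ^ (K * (D - K ^ p)) := by
        ring
      rw [h3, div_le_iff₀ (by positivity)]
      have h4 : 0 ≤ ∏ ν, mulHeight (x ν) ^ d :=
        Finset.prod_nonneg fun ν _ => pow_nonneg (mulHeight_pos _).le _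
      calc ((Nat.factorial D : ℝ) ^ (Module.finrank ℚ L - 1) * (Nat.factorial D)) *
            (A ^ d) ^ D * (∏ ν, mulHeight (x ν) ^ d) ≤
          Real.exp (κ * Real.log D * D) * Real.exp (d * Real.log A * D) *
            Real.exp (h * (d * D)) := by
            rw [hApow]
            refine mul_le_mul ?_ hHt h4 (by positivity)
            exact mul_le_mul_of_nonneg_right hfac (Real.exp_nonneg _)
        _ = Real.exp ((κ * Real.log D + d * (Real.log A + h) - K / 2 * Real.log 2) * D) *
            Real.exp (K / 2 * Real.log 2 * D) := by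
            rw [← Real.exp_add, ← Real.exp_add, ← Real.exp_add]
            congr 1
            ring
        _ ≤ _ := mul_le_mul_of_nonneg_left h2e (Real.exp_nonneg _)
    have h5 : Real.exp ((κ * Real.log D + d * (Real.log A + h) - K / 2 * Real.log 2) * D) < 1 := by
      rw [Real.exp_lt_one_iff]
      have h6 : κ * Real.log D + d * (Real.log A + h) - K / 2 * Real.log 2 < 0 := by
        have := hnum
        push_cast at this ⊢
        linarith
      exact mul_neg_of_neg_of_pos h6 (by linarith)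
    linarith
  · -- a linear form which vanishes at all points
    obtain ⟨f, hf0, hf⟩ := Submodule.exists_le_ker_of_lt_top S (lt_top_iff_ne_top.2 hS)
    let cf : (Fin m → Fin (s + 1)) → L := fun μ => f (Pi.single (e.symm μ) 1)
    have hfs : ∀ y : Fin D → L, f y = ∑ μ : Fin D, y μ * f (Pi.single μ 1) := by
      intro y
      have h1 : y = ∑ μ : Fin D, y μ • (Pi.single μ 1 : Fin D → L) := by
        funext l
        rw [Finset.sum_apply, Finset.sum_eq_single l]
        · simp
        · intro b _ hb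
          simp [Ne.symm hb]
        · intro h
          exact absurd (Finset.mem_univ _) h
      conv_lhs => rw [h1]
      rw [map_sum]
      refine Finset.sum_congr rfl fun μ _ => ?_
      rw [map_smul, smul_eq_mul]
    refine ⟨frm cf, frm_hom cf, frm_ne cf ?_, ?_⟩
    · intro h0
      apply hf0
      ext y
      have h1 : f (Pi.single y 1) = 0 := by
        have h2 := congrFun h0 (e y)
        simp only [cf, Equiv.symm_apply_apply, Pi.zero_apply] at h2
        exact h2
      simpa using h1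
    · intro x hx0 hxh hxz
      have h1 : Φ x ∈ S := Submodule.subset_span ⟨x, ⟨hx0, hxh, hxz⟩, rfl⟩
      have h2 : f (Φ x) = 0 := hf h1
      rw [hfs] at h2
      rw [eval_frm, ← h2, ← Equiv.sum_comp e]
      refine Finset.sum_congr rfl fun μ _ => ?_
      simp only [cf, Equiv.symm_apply_apply, Φ]
      ring

end Pool.Agent.H434.Disc
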