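import Mathlib

/-!
The choice of the parameters.
-/

set_option autoImplicit false

namespace Pool.Agent.H434.Disc

theorem params {p m : ℕ} (hpm : p < m) (κ : ℕ) {A : ℝ} (hA : 1 ≤ A) :
    ∃ C : ℝ, 0 ≤ C ∧ ∀ h : ℝ, 0 ≤ h → ∃ s K : ℕ, 2 * K ^ p ≤ (s + 1) ^ m ∧
      κ * Real.log ((s + 1) ^ m : ℕ) + (m * s : ℕ) * (Real.log A + h) < K / 2 * Real.log 2 ∧
      ((m * s : ℕ) : ℝ) ≤ C * (1 + h) ^ ((p : ℝ) / (m - p : ℕ)) := by
  have hl2 : 0 < Real.log 2 := Real.log_pos (by norm_num)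
  have hlA : 0 ≤ Real.log A := Real.log_nonneg hA
  set c : ℝ := 2 * m * (κ + Real.log A + 1) / Real.log 2 with hc
  have hc0 : 0 ≤ c := by positivity
  set q : ℕ := m - p with hq
  have hq0 : 0 < q := by omega
  have hqR : (0 : ℝ) < q := by exact_mod_cast hq0
  refine ⟨2 * m * (2 * (c + 1) ^ p) ^ ((1 : ℝ) / q), by positivity, fun h hh => ?_⟩
  set Λ : ℝ := c * (1 + h) + 1 with hΛ
  have hΛ1 : 1 ≤ Λ := by
    have : 0 ≤ c * (1 + h) := mul_nonneg hc0 (by linarith)
    linarith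
  have hΛ2 : Λ ≤ (c + 1) * (1 + h) := by
    rw [hΛ]; nlinarith
  set T : ℝ := (2 * Λ ^ p) ^ ((1 : ℝ) / q) with hT
  have hbase : (1 : ℝ) ≤ 2 * Λ ^ p := by
    have : (1 : ℝ) ≤ Λ ^ p := one_le_pow₀ hΛ1
    linarith
  have hT1 : 1 ≤ T := Real.one_le_rpow hbase (by positivity)
  have hTq : T ^ q = 2 * Λ ^ p := by
    rw [hT, ← Real.rpow_natCast, ← Real.rpow_mul (by linarith)]
    rw [one_div, inv_mul_cancel₀ hqR.ne', Real.rpow_one]
  set s : ℕ := ⌈T⌉₊ with hs
  have hsT : T ≤ s := Nat.le_ceil T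
  have hs1 : 1 ≤ s := by
    have h1 : (1 : ℝ) ≤ s := hT1.trans hsT
    exact_mod_cast h1
  have hsR : (1 : ℝ) ≤ s := by exact_mod_cast hs1
  have hs2 : (s : ℝ) ≤ 2 * T := by
    have := (Nat.ceil_lt_add_one (by linarith : 0 ≤ T)).le
    linarith
  set K : ℕ := ⌈Λ * s⌉₊ with hK
  have hK1 : Λ * s ≤ K := Nat.le_ceil _
  have hK2 : (K : ℝ) ≤ Λ * (s + 1) := by
    have := (Nat.ceil_lt_add_one (by positivity : 0 ≤ Λ * s)).le
    linarith
  refine ⟨s, K, ?_, ?_, ?_⟩
  · have h1 : (2 : ℝ) * K ^ p ≤ (s + 1) ^ m := by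
      have h2 : (K : ℝ) ^ p ≤ (Λ * (s + 1)) ^ p := pow_le_pow_left₀ (Nat.cast_nonneg _) hK2 _
      have h3 : (2 : ℝ) * Λ ^ p ≤ (s + 1) ^ q := by
        rw [← hTq]
        exact pow_le_pow_left₀ (by linarith) (by linarith) _
      calc (2 : ℝ) * K ^ p ≤ 2 * (Λ * (s + 1)) ^ p := by linarith
        _ = (2 * Λ ^ p) * (s + 1) ^ p := by rw [mul_pow]; ring
        _ ≤ (s + 1) ^ q * (s + 1) ^ p := mul_le_mul_of_nonneg_right h3 (by positivity)
        _ = (s + 1) ^ m := by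
            rw [← pow_add]
            congr 1
            omega
    exact_mod_cast h1
  · have h1 : Real.log (((s + 1) ^ m : ℕ) : ℝ) ≤ m * s := by
      push_cast
      rw [Real.log_pow]
      have h2 : Real.log ((s : ℝ) + 1) ≤ s := by
        have := Real.log_le_sub_one_of_pos (by positivity : (0 : ℝ) < (s : ℝ) + 1)
        linarith
      exact mul_le_mul_of_nonneg_left h2 (Nat.cast_nonneg _)
    have h2 : (κ : ℝ) * Real.log (((s + 1) ^ m : ℕ) : ℝ) ≤ κ * (m * s) :=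
      mul_le_mul_of_nonneg_left h1 (Nat.cast_nonneg _)
    have h3 : (κ : ℝ) * (m * s) + ((m * s : ℕ) : ℝ) * (Real.log A + h) ≤
        m * s * ((κ + Real.log A + 1) * (1 + h)) := by
      push_cast
      have h4 : (0 : ℝ) ≤ m * s := by positivity
      have h5 : (κ : ℝ) + (Real.log A + h) ≤ (κ + Real.log A + 1) * (1 + h) := by
        have : (0 : ℝ) ≤ κ := Nat.cast_nonneg _
        nlinarith
      calc (κ : ℝ) * (m * s) + m * s * (Real.log A + h) =
          m * s * (κ + (Real.log A + h)) := by ring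
        _ ≤ _ := mul_le_mul_of_nonneg_left h5 h4
    have h4 : m * s * ((κ + Real.log A + 1) * (1 + h)) = c * (1 + h) * s / 2 * Real.log 2 := by
      rw [hc]
      field_simp
    have h5 : c * (1 + h) * s < K := by
      have h6 : c * (1 + h) * s + s ≤ K := by
        have : Λ * s = c * (1 + h) * s + s := by rw [hΛ]; ring
        linarith
      linarith
    have h6 : c * (1 + h) * s / 2 * Real.log 2 < K / 2 * Real.log 2 :=
      mul_lt_mul_of_pos_right (by linarith) hl2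
    linarith
  · have h1 : T ≤ (2 * (c + 1) ^ p) ^ ((1 : ℝ) / q) * (1 + h) ^ ((p : ℝ) / q) := by
      have h2 : 2 * Λ ^ p ≤ (2 * (c + 1) ^ p) * (1 + h) ^ p := by
        have h3 : Λ ^ p ≤ ((c + 1) * (1 + h)) ^ p := pow_le_pow_left₀ (by linarith) hΛ2 _
        rw [mul_pow] at h3
        linarith
      calc T ≤ ((2 * (c + 1) ^ p) * (1 + h) ^ p) ^ ((1 : ℝ) / q) :=
            Real.rpow_le_rpow (by linarith) h2 (by positivity)
        _ = _ := by
            rw [Real.mul_rpow (by positivity) (by positivity)]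
            congr 1
            rw [← Real.rpow_natCast, ← Real.rpow_mul (by linarith)]
            congr 1
            ring
    push_cast
    calc (m : ℝ) * s ≤ m * (2 * T) := mul_le_mul_of_nonneg_left hs2 (Nat.cast_nonneg _)
      _ ≤ m * (2 * ((2 * (c + 1) ^ p) ^ ((1 : ℝ) / q) * (1 + h) ^ ((p : ℝ) / q))) := by
          gcongr
      _ = _ := by ring

end Pool.Agent.H434.Disc
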