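import Mathlib
import Pool.Graph.R_pool_sql_team_seeded_3dad9d7b.NH29.GK.Brody

/-!
Holomorphic maps from polydiscs to hyperbolic projective varieties are contained in charts, locally
uniformly.
-/

set_option autoImplicit false

open Metric Set Filter Topology
open scoped LinearAlgebra.Projectivization
open Pool.Agent.NH29.GK

namespace Pool.Agent.H434.Disc

/-- `f` is a holomorphic map from the open set `U` to projective space. -/
def Holo {E : Type} [NormedAddCommGroup E] [NormedSpace ℂ E] {N : ℕ} (U : Set E)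
    (f : E → ℙ ℂ (Fin (N + 1) → ℂ)) : Prop :=
  ∀ t ∈ U, ∃ (W : Set E) (g : E → Fin (N + 1) → ℂ), IsOpen W ∧ t ∈ W ∧ AnalyticOnNhd ℂ g W ∧
    ∀ t' ∈ W, ∃ h : g t' ≠ 0, f t' = Projectivization.mk ℂ (g t') h

/-- The projective algebraic set given by the forms in `F`. -/
def Zeros {N : ℕ} (F : Set (MvPolynomial (Fin (N + 1)) ℂ)) : Set (ℙ ℂ (Fin (N + 1) → ℂ)) :=
  {P | ∀ G ∈ F, MvPolynomial.eval P.rep G = 0}

variable {N : ℕ}

theorem rep_mk {u : Fin (N + 1) → ℂ} (hu : u ≠ 0) :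
    ∃ c : ℂ, c ≠ 0 ∧ (Projectivization.mk ℂ u hu).rep = c • u := by
  obtain ⟨a, ha⟩ := Projectivization.exists_smul_eq_mk_rep ℂ u hu
  exact ⟨a, a.ne_zero, ha.symm⟩

theorem Phi_rep {u : Fin (N + 1) → ℂ} (hu : u ≠ 0) :
    Phi (Projectivization.mk ℂ u hu).rep = Phi u := by
  obtain ⟨c, hc, h⟩ := rep_mk hu
  rw [h, Phi_smul hc]

theorem norm_Phi_le (u : Fin (N + 1) → ℂ) : ‖Phi u‖ ≤ 1 := by
  rw [pi_norm_le_iff_of_nonneg zero_le_one]
  intro j
  rw [pi_norm_le_iff_of_nonneg zero_le_one]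
  intro k
  unfold Phi
  rw [norm_div, norm_mul, nsq_eq, Complex.norm_real, RCLike.norm_conj]
  have hS : ∀ l, ‖u l‖ ^ 2 ≤ ∑ l, ‖u l‖ ^ 2 := fun l =>
    Finset.single_le_sum (f := fun l => ‖u l‖ ^ 2) (fun i _ => by positivity) (Finset.mem_univ l)
  have h0 : 0 ≤ ∑ l, ‖u l‖ ^ 2 := Finset.sum_nonneg fun i _ => by positivity
  rw [Real.norm_of_nonneg h0]
  apply div_le_one_of_le₀ _ h0
  have h1 := hS j
  have h2 := hS k
  nlinarith [sq_nonneg (‖u j‖ - ‖u k‖)]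

theorem disc0 {S : Set (Mat N)} (hD : ∀ A ∈ S, ‖A‖ ≤ 1) {C : ℝ}
    (hb : ∀ Ψ : ℂ → Mat N, HolP (ball 0 1) Ψ → (∀ z ∈ ball (0 : ℂ) 1, Ψ z ∈ S) →
      ‖fderiv ℝ Ψ 0‖ ≤ C) (h : ℂ → Mat N) (hH : HolP (ball 0 1) h)
    (hHS : ∀ z ∈ ball (0 : ℂ) 1, h z ∈ S) {ζ : ℂ} (hζ : ζ ∈ ball (0 : ℂ) 1) :
    ‖h ζ - h 0‖ ≤ max (2 * C) 4 * ‖ζ‖ := by
  rcases le_or_gt ‖ζ‖ (1 / 2) with hle | hgt
  · have hder : ∀ z ∈ closedBall (0 : ℂ) (1 / 2), ‖fderiv ℝ h z‖ ≤ 2 * C := by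
      intro z hz
      have hz' : ‖z‖ ≤ 1 / 2 := mem_closedBall_zero_iff.1 hz
      have hz1 : z ∈ ball (0 : ℂ) 1 := mem_ball_zero_iff.2 (by linarith)
      have hsub : ball (0 : ℂ) 1 ⊆ aff z (1 / 2) ⁻¹' ball (0 : ℂ) 1 := by
        intro w hw
        rw [mem_preimage, mem_ball_zero_iff]
        rw [mem_ball_zero_iff] at hw
        unfold aff
        refine lt_of_le_of_lt (norm_add_le _ _) ?_
        rw [norm_mul, Complex.norm_real, Real.norm_of_nonneg (by norm_num)]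
        linarith
      have h2 := hb (fun w => h (aff z (1 / 2) w)) ((hH.aff z (1 / 2)).mono hsub)
        (fun w hw => hHS _ (hsub hw))
      have h3 : aff z (1 / 2) 0 = z := by simp [aff]
      rw [norm_fderiv_aff (by norm_num) (by rw [h3]; exact hH.differentiableAt hz1), h3] at h2
      linarith
    have h4 := (convex_closedBall (0 : ℂ) (1 / 2)).norm_image_sub_le_of_norm_fderiv_le
      (fun x hx => hH.differentiableAt (closedBall_subset_ball (by norm_num) hx)) hder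
      (mem_closedBall_self (by norm_num)) (mem_closedBall_zero_iff.2 hle)
    rw [sub_zero] at h4
    exact h4.trans (mul_le_mul_of_nonneg_right (le_max_left _ _) (norm_nonneg _))
  · have h2 := hD _ (hHS ζ hζ)
    have h3 := hD _ (hHS 0 (mem_ball_self one_pos))
    have h4 := norm_sub_le (h ζ) (h 0)
    calc ‖h ζ - h 0‖ ≤ 4 * (1 / 2) := by linarith
      _ ≤ 4 * ‖ζ‖ := by linarith
      _ ≤ _ := mul_le_mul_of_nonneg_right (le_max_right _ _) (norm_nonneg _)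

/-- the projection matrices of the points of the variety -/
def SF (F : Set (MvPolynomial (Fin (N + 1)) ℂ)) : Set (Mat N) :=
  Phi '' {u | u ∈ sphere (0 : Fin (N + 1) → ℂ) 1 ∧ ∀ G ∈ F, MvPolynomial.eval u G = 0}

theorem SF_compact (F : Set (MvPolynomial (Fin (N + 1)) ℂ)) : IsCompact (SF F) := by
  refine IsCompact.image_of_continuousOn ?_ ?_
  · refine (isCompact_sphere (0 : Fin (N + 1) → ℂ) 1).inter_right ?_
    have h2 : {u : Fin (N + 1) → ℂ | ∀ G ∈ F, MvPolynomial.eval u G = 0} =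
        ⋂ G ∈ F, {u | MvPolynomial.eval u G = 0} := by
      ext u
      simp only [mem_ofPred_eq, mem_iInter]
    show IsClosed {u : Fin (N + 1) → ℂ | ∀ G ∈ F, MvPolynomial.eval u G = 0}
    rw [h2]
    exact isClosed_biInter fun G _ => isClosed_eq (MvPolynomial.continuous_eval _) continuous_const
  · intro u hu
    refine (continuousAt_Phi ?_).continuousWithinAt
    rintro rfl
    have h1 := hu.1
    simp at h1

theorem SF_PM (F : Set (MvPolynomial (Fin (N + 1)) ℂ)) : SF F ⊆ PM N := by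
  rintro _ ⟨u, hu, rfl⟩
  refine ⟨u, ?_, rfl⟩
  rintro rfl
  have h1 := hu.1
  simp at h1

theorem eval_smul_zero {G : MvPolynomial (Fin (N + 1)) ℂ} {e : ℕ} (hG : G.IsHomogeneous e) {c : ℂ}
    (hc : c ≠ 0) (u : Fin (N + 1) → ℂ) :
    MvPolynomial.eval (c • u) G = 0 ↔ MvPolynomial.eval u G = 0 := by
  rw [eval_smul_form hG, mul_eq_zero, or_iff_right (pow_ne_zero _ hc)]

theorem mem_SF {F : Set (MvPolynomial (Fin (N + 1)) ℂ)} (hF : ∀ G ∈ F, ∃ e, G.IsHomogeneous e)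
    {u : Fin (N + 1) → ℂ} (hu : u ≠ 0) :
    Phi u ∈ SF F ↔ ∀ G ∈ F, MvPolynomial.eval u G = 0 := by
  constructor
  · rintro ⟨v, ⟨hv1, hv2⟩, h⟩
    have hv : v ≠ 0 := by
      rintro rfl
      simp at hv1
    obtain ⟨c, hc, rfl⟩ := Phi_inj hv hu h
    intro G hG
    obtain ⟨e, he⟩ := hF G hG
    exact (eval_smul_zero he hc v).2 (hv2 G hG)
  · intro h1
    have hn : (‖u‖ : ℂ) ≠ 0 := by
      rw [Ne, Complex.ofReal_eq_zero, norm_eq_zero]
      exact hu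
    refine ⟨((‖u‖ : ℂ)⁻¹) • u, ⟨?_, fun G hG => ?_⟩, Phi_smul (inv_ne_zero hn) u⟩
    · rw [mem_sphere_zero_iff_norm, norm_smul, norm_inv, Complex.norm_real, norm_norm]
      exact inv_mul_cancel₀ (norm_ne_zero_iff.2 hu)
    · obtain ⟨e, he⟩ := hF G hG
      exact (eval_smul_zero he (inv_ne_zero hn) u).2 (h1 G hG)

/-- discs have bounded derivatives -/
theorem bounded {F : Set (MvPolynomial (Fin (N + 1)) ℂ)} (hF : ∀ G ∈ F, ∃ e, G.IsHomogeneous e)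
    (hX : ∀ g : ℂ → ℙ ℂ (Fin (N + 1) → ℂ), Holo univ g → (∀ t, g t ∈ Zeros F) → ∀ t, g t = g 0) :
    ∃ C : ℝ, 0 < C ∧ ∀ Ψ : ℂ → Mat N, HolP (ball 0 1) Ψ → (∀ z ∈ ball (0 : ℂ) 1, Ψ z ∈ SF F) →
      ‖fderiv ℝ Ψ 0‖ ≤ C := by
  refine green (S := SF F) (W := SF F) (SF_compact F) (SF_PM F) subset_rfl (β := Empty)
    (P := fun b => b.elim) (e := fun b => b.elim) (fun b => b.elim) (fun b => b.elim) ?_
  intro H hH hHS _
  have h1 : ∀ z, ∃ u : Fin (N + 1) → ℂ, u ≠ 0 ∧ H z = Phi u := fun z => SF_PM F (hHS z)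
  choose u hu hHu using h1
  let g : ℂ → ℙ ℂ (Fin (N + 1) → ℂ) := fun z => Projectivization.mk ℂ (u z) (hu z)
  have hg : Holo univ g := by
    intro z _
    obtain ⟨V, f, hV, hzV, hd, hf⟩ := hH z (mem_univ z)
    refine ⟨V, f, hV, hzV, hd.analyticOnNhd hV, fun w hw => ⟨(hf w hw).1, ?_⟩⟩
    have h2 : Phi (u w) = Phi (f w) := by rw [← hHu, (hf w hw).2]
    obtain ⟨c, hc, h3⟩ := Phi_inj (hu w) (hf w hw).1 h2
    show Projectivization.mk ℂ (u w) (hu w) = Projectivization.mk ℂ (f w) (hf w hw).1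
    rw [Projectivization.mk_eq_mk_iff']
    refine ⟨c⁻¹, ?_⟩
    rw [h3, smul_smul, inv_mul_cancel₀ hc, one_smul]
  have hgF : ∀ t, g t ∈ Zeros F := by
    intro t G hG
    have h2 : Phi (u t) ∈ SF F := by rw [← hHu]; exact hHS t
    obtain ⟨c, hc, h3⟩ := rep_mk (hu t)
    obtain ⟨e, he⟩ := hF G hG
    show MvPolynomial.eval (Projectivization.mk ℂ (u t) (hu t)).rep G = 0
    rw [h3]
    exact (eval_smul_zero he hc _).2 ((mem_SF hF (hu t)).1 h2 G hG)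
  have h2 := hX g hg hgF
  intro z
  rw [hHu, hHu, ← Phi_rep (hu z), ← Phi_rep (hu 0)]
  exact congrArg (fun P : ℙ ℂ (Fin (N + 1) → ℂ) => Phi P.rep) (h2 z)

/-- the chart lemma -/
theorem chart_lemma {F : Set (MvPolynomial (Fin (N + 1)) ℂ)}
    (hF : ∀ G ∈ F, ∃ e, G.IsHomogeneous e)
    (hX : ∀ g : ℂ → ℙ ℂ (Fin (N + 1) → ℂ), Holo univ g → (∀ t, g t ∈ Zeros F) → ∀ t, g t = g 0) :
    ∃ δ A : ℝ, 0 < δ ∧ δ ≤ 1 ∧ 1 ≤ A ∧ ∀ (p : ℕ) (f : (Fin p → ℂ) → ℙ ℂ (Fin (N + 1) → ℂ)),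
      Holo (ball 0 1) f → (∀ z ∈ ball (0 : Fin p → ℂ) 1, f z ∈ Zeros F) →
      ∃ i : Fin (N + 1), ∀ z ∈ ball (0 : Fin p → ℂ) δ, (f z).rep i ≠ 0 ∧
        (∀ j, ‖(f z).rep j / (f z).rep i‖ ≤ A) ∧
        ∀ j, AnalyticAt ℂ (fun z => (f z).rep j / (f z).rep i) z := by
  obtain ⟨C, hC, hb⟩ := bounded hF hX
  set C' : ℝ := max (2 * C) 4 with hC'
  have hC'4 : 4 ≤ C' := le_max_right _ _
  have hN : (0 : ℝ) < N + 1 := by positivity
  refine ⟨1 / (2 * (N + 1) * C'), 2 * (N + 1), by positivity, ?_, ?_, ?_⟩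
  · rw [div_le_one (by positivity)]
    nlinarith [(Nat.cast_nonneg N : (0 : ℝ) ≤ N)]
  · nlinarith [(Nat.cast_nonneg N : (0 : ℝ) ≤ N)]
  intro p f hf hfF
  set δ : ℝ := 1 / (2 * (N + 1) * C') with hδ
  have hδ1 : δ ≤ 1 := by
    rw [hδ, div_le_one (by positivity)]
    nlinarith [(Nat.cast_nonneg N : (0 : ℝ) ≤ N)]
  have hPhiF : ∀ z ∈ ball (0 : Fin p → ℂ) 1, Phi (f z).rep ∈ SF F := fun z hz =>
    (mem_SF hF (f z).rep_nonzero).2 (hfF z hz)
  have hdist : ∀ z ∈ ball (0 : Fin p → ℂ) 1, ‖Phi (f z).rep - Phi (f 0).rep‖ ≤ C' * ‖z‖ := by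
    intro z hz
    rcases eq_or_ne z 0 with rfl | hz0
    · simp
    have hzn : 0 < ‖z‖ := norm_pos_iff.2 hz0
    let ℓ : ℂ → (Fin p → ℂ) := fun ζ => ζ • (((‖z‖ : ℂ)⁻¹) • z)
    have hℓn : ∀ ζ, ‖ℓ ζ‖ = ‖ζ‖ := by
      intro ζ
      simp only [ℓ]
      rw [norm_smul, norm_smul, norm_inv, Complex.norm_real, norm_norm,
        inv_mul_cancel₀ hzn.ne', mul_one]
    have hℓd : Differentiable ℂ ℓ := by
      intro ζ
      exact differentiableAt_id.smul_const _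
    let Ψ : ℂ → Mat N := fun ζ => Phi (f (ℓ ζ)).rep
    have hΨ : HolP (ball 0 1) Ψ := by
      intro ζ hζ
      have h1 : ℓ ζ ∈ ball (0 : Fin p → ℂ) 1 := by
        rw [mem_ball_zero_iff] at hζ ⊢
        rw [hℓn]; exact hζ
      obtain ⟨W, g, hW, hζW, hg, hgf⟩ := hf _ h1
      refine ⟨ℓ ⁻¹' W, fun ζ => g (ℓ ζ), hW.preimage hℓd.continuous, hζW, ?_, ?_⟩
      · exact hg.differentiableOn.comp hℓd.differentiableOn (fun w hw => hw)
      · intro w hw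
        obtain ⟨h2, h3⟩ := hgf _ hw
        refine ⟨h2, ?_⟩
        show Phi (f (ℓ w)).rep = _
        rw [h3, Phi_rep]
    have hΨS : ∀ ζ ∈ ball (0 : ℂ) 1, Ψ ζ ∈ SF F := by
      intro ζ hζ
      apply hPhiF
      rw [mem_ball_zero_iff] at hζ ⊢
      rw [hℓn]; exact hζ
    have h1 := disc0 (S := SF F) (fun A hA => by
      obtain ⟨u, -, rfl⟩ := hA
      exact norm_Phi_le u) hb Ψ hΨ hΨS (ζ := (‖z‖ : ℂ)) (by
        rw [mem_ball_zero_iff] at hz ⊢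
        rw [Complex.norm_real, norm_norm]; exact hz)
    have h2 : ℓ (‖z‖ : ℂ) = z := by
      simp only [ℓ]
      rw [smul_smul, mul_inv_cancel₀, one_smul]
      rw [Ne, Complex.ofReal_eq_zero]
      exact hzn.ne'
    have h3 : ℓ 0 = 0 := by simp [ℓ]
    rw [Complex.norm_real, norm_norm] at h1
    have h4 : Ψ (‖z‖ : ℂ) = Phi (f z).rep := by
      show Phi (f (ℓ (‖z‖ : ℂ))).rep = _
      rw [h2]
    have h5 : Ψ 0 = Phi (f 0).rep := by
      show Phi (f (ℓ 0)).rep = _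
      rw [h3]
    rwa [h4, h5] at h1
  -- the chart
  set u := (f 0).rep with hu
  have hu0 : u ≠ 0 := (f 0).rep_nonzero
  obtain ⟨i, -, hi⟩ := Finset.exists_max_image (Finset.univ : Finset (Fin (N + 1)))
    (fun l => ‖u l‖) ⟨0, Finset.mem_univ _⟩
  have hii : 1 / (N + 1 : ℝ) ≤ ‖Phi u i i‖ := by
    unfold Phi
    rw [norm_div, norm_mul, nsq_eq, Complex.norm_real, RCLike.norm_conj]
    have h0 : 0 ≤ ∑ l, ‖u l‖ ^ 2 := Finset.sum_nonneg fun i _ => by positivity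
    have hpos : 0 < ∑ l, ‖u l‖ ^ 2 := by
      refine lt_of_le_of_ne h0 fun h => nsq_ne hu0 ?_
      rw [nsq_eq, ← h, Complex.ofReal_zero]
    rw [Real.norm_of_nonneg h0, div_le_div_iff₀ hN hpos, one_mul]
    calc ∑ l, ‖u l‖ ^ 2 ≤ ∑ _l : Fin (N + 1), ‖u i‖ ^ 2 :=
          Finset.sum_le_sum fun l _ => pow_le_pow_left₀ (norm_nonneg _) (hi l (Finset.mem_univ _)) 2
      _ = ‖u i‖ * ‖u i‖ * (N + 1) := by
          rw [Finset.sum_const, Finset.card_univ, Fintype.card_fin, nsmul_eq_mul]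
          push_cast
          ring
  refine ⟨i, fun z hz => ?_⟩
  have hzδ : ‖z‖ < δ := mem_ball_zero_iff.1 hz
  have hz1 : z ∈ ball (0 : Fin p → ℂ) 1 := mem_ball_zero_iff.2 (by linarith)
  have hzi : 1 / (2 * (N + 1 : ℝ)) ≤ ‖Phi (f z).rep i i‖ := by
    have h1 := hdist z hz1
    have h2 : ‖Phi (f z).rep i i - Phi u i i‖ ≤ ‖Phi (f z).rep - Phi u‖ := by
      exact (norm_le_pi_norm (Phi (f z).rep i - Phi u i) i).trans
        (norm_le_pi_norm (Phi (f z).rep - Phi u) i)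
    have h3 : C' * ‖z‖ ≤ 1 / (2 * (N + 1 : ℝ)) := by
      have h4 : C' * ‖z‖ ≤ C' * δ := mul_le_mul_of_nonneg_left hzδ.le (by linarith)
      refine h4.trans (le_of_eq ?_)
      rw [hδ]
      field_simp
    have h4 := norm_sub_norm_le (Phi u i i) (Phi (f z).rep i i)
    rw [norm_sub_rev] at h4
    have h5 : 1 / (N + 1 : ℝ) = 1 / (2 * (N + 1 : ℝ)) + 1 / (2 * (N + 1 : ℝ)) := by
      field_simp
      norm_num
    linarith
  have hne : Phi (f z).rep i i ≠ 0 := by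
    intro h0
    rw [h0, norm_zero] at hzi
    have : 0 < 1 / (2 * (N + 1 : ℝ)) := by positivity
    linarith
  have hri : (f z).rep i ≠ 0 := (Phi_diag_ne (f z).rep_nonzero).1 hne
  refine ⟨hri, fun j => ?_, fun j => ?_⟩
  · rw [← Phi_ratio (f z).rep_nonzero hri, norm_div]
    have h1 : ‖Phi (f z).rep j i‖ ≤ 1 := ((norm_le_pi_norm (Phi (f z).rep j) i).trans
      (norm_le_pi_norm (Phi (f z).rep) j)).trans (norm_Phi_le _)
    rw [div_le_iff₀ (norm_pos_iff.2 hne)]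
    have h2 : 2 * ((N : ℝ) + 1) * (1 / (2 * (N + 1))) = 1 := by
      field_simp
    have h3 := mul_le_mul_of_nonneg_left hzi (by positivity : (0 : ℝ) ≤ 2 * (N + 1))
    linarith
  · obtain ⟨W, g, hW, hzW, hg, hgf⟩ := hf z hz1
    have hga : ∀ l, AnalyticAt ℂ (fun w => g w l) z := by
      intro l
      exact ((analyticAt_pi_iff (f := fun l w => g w l)).1 (by
        have h1 := hg z hzW
        exact h1)) l
    have hgi : g z i ≠ 0 := by
      obtain ⟨h1, h2⟩ := hgf z hzW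
      obtain ⟨c, hc, h3⟩ := rep_mk h1
      intro h0
      apply hri
      rw [h2, h3, Pi.smul_apply, h0, smul_zero]
    refine ((hga j).div (hga i) hgi).congr ?_
    filter_upwards [hW.mem_nhds hzW] with w hw
    obtain ⟨h1, h2⟩ := hgf w hw
    obtain ⟨c, hc, h3⟩ := rep_mk h1
    rw [h2, h3]
    show g w j / g w i = (c • g w) j / (c • g w) i
    rw [Pi.smul_apply, Pi.smul_apply, smul_eq_mul, smul_eq_mul, mul_div_mul_left _ _ hc]

end Pool.Agent.H434.Disc
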