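import Mathlib
import Pool.Agent.H434.D3
import Pool.Agent.H434.D4
import Pool.Agent.H434.D5

/-!
Rational points on polydiscs in hyperbolic projective varieties lie on hypersurfaces of small degree,
uniformly in the polydisc.
-/

set_option autoImplicit false

open Metric Set Filter Topology MvPolynomial
open scoped LinearAlgebra.Projectivization

namespace Pool.Agent.H434.Disc

variable {N : ℕ}

theorem Holo.aff {p : ℕ} {f : (Fin p → ℂ) → ℙ ℂ (Fin (N + 1) → ℂ)} {U U' : Set (Fin p → ℂ)}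
    (hf : Holo U f) (t : Fin p → ℂ) (ρ : ℂ) (hU : ∀ z ∈ U', t + ρ • z ∈ U) :
    Holo U' (fun z => f (t + ρ • z)) := by
  intro z hz
  obtain ⟨W, g, hW, hzW, hg, hgf⟩ := hf _ (hU z hz)
  have hcont : Continuous fun z : Fin p → ℂ => t + ρ • z := by fun_prop
  have han : ∀ z, AnalyticAt ℂ (fun z : Fin p → ℂ => t + ρ • z) z := by
    intro z
    exact analyticAt_const.add ((analyticAt_const (v := ρ)).smul analyticAt_id)
  refine ⟨(fun z => t + ρ • z) ⁻¹' W, fun z => g (t + ρ • z), hW.preimage hcont, hzW, ?_,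
    fun w hw => hgf _ hw⟩
  intro w hw
  exact AnalyticAt.comp (f := fun z : Fin p → ℂ => t + ρ • z) (hg _ hw) (han w)

theorem main {F : Set (MvPolynomial (Fin (N + 1)) ℂ)} (hF : ∀ G ∈ F, ∃ e, G.IsHomogeneous e)
    (hX : ∀ g : ℂ → ℙ ℂ (Fin (N + 1) → ℂ), Holo univ g → (∀ t, g t ∈ Zeros F) → ∀ t, g t = g 0)
    {p m : ℕ} (hpm : p < m) (κ : ℕ) {U K₀ : Set (Fin p → ℂ)} (hU : IsOpen U) (hK₀ : IsCompact K₀)
    (hKU : K₀ ⊆ U) :
    ∃ C : ℝ, ∀ f : (Fin p → ℂ) → ℙ ℂ (Fin (N + 1) → ℂ), Holo U f → (∀ z ∈ U, f z ∈ Zeros F) →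
      (∃ i : Fin (m + 1) → Fin (N + 1), ∀ (Q : MvPolynomial (Fin (m + 1)) ℂ) (d : ℕ),
        Q.IsHomogeneous d → Q ≠ 0 → ∃ z ∈ U, eval (fun l => (f z).rep (i l)) Q ≠ 0) →
      ∀ (L : Type) [Field L] [NumberField L] (σ : L →+* ℂ), Module.finrank ℚ L ≤ κ →
      ∀ h : ℝ, 0 ≤ h → ∃ (d : ℕ) (G : MvPolynomial (Fin (N + 1)) L), G.IsHomogeneous d ∧
        (d : ℝ) ≤ C * (1 + h) ^ ((p : ℝ) / (m - p : ℕ)) ∧
        (∃ z ∈ U, eval (f z).rep (map σ G) ≠ 0) ∧
        ∀ (x : Fin (N + 1) → L) (hx : (fun j => σ (x j)) ≠ 0), Height.logHeight x ≤ h →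
          (∃ z ∈ K₀, f z = Projectivization.mk ℂ (fun j => σ (x j)) hx) → eval x G = 0 := by
  classical
  obtain ⟨δ, A, hδ, hδ1, hA, hch⟩ := chart_lemma hF hX
  obtain ⟨C, hC, hpar⟩ := params hpm κ hA
  obtain ⟨ε, hε, hεU⟩ := hK₀.exists_thickening_subset_open hU hKU
  set ρ : ℝ := ε * δ / 2 with hρ
  have hρ0 : 0 < ρ := by positivity
  obtain ⟨T, hTs, hTfin, hTc⟩ := hK₀.finite_cover_balls hρ0
  let T' : Finset (Fin p → ℂ) := hTfin.toFinset
  refine ⟨T'.card * C, fun f hf hfF ⟨i, hi⟩ L _ _ σ hκ h hh => ?_⟩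
  obtain ⟨s, K, hKD, hnum, hdeg⟩ := hpar h hh
  -- one small polydisc
  have hloc : ∀ t ∈ K₀, ∃ G : MvPolynomial (Fin (m + 1)) L,
      G.IsHomogeneous (m * s) ∧ G ≠ 0 ∧ ∀ (x : Fin (N + 1) → L) (hx : (fun j => σ (x j)) ≠ 0),
        Height.logHeight x ≤ h → (∃ z ∈ ball t ρ,
          f z = Projectivization.mk ℂ (fun j => σ (x j)) hx) → eval (fun l => x (i l)) G = 0 := by
    intro t ht
    have hsub : ∀ z ∈ ball (0 : Fin p → ℂ) 1, t + (ε : ℂ) • z ∈ U := by
      intro z hz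
      apply hεU
      rw [mem_thickening_iff]
      refine ⟨t, ht, ?_⟩
      rw [mem_ball_zero_iff] at hz
      rw [dist_eq_norm, add_sub_cancel_left, norm_smul, Complex.norm_real,
        Real.norm_of_nonneg hε.le]
      nlinarith [norm_nonneg z]
    obtain ⟨i0, hi0⟩ := hch p (fun z => f (t + (ε : ℂ) • z)) (hf.aff t _ hsub)
      (fun z hz => hfF _ (hsub z hz))
    let φ : (Fin p → ℂ) → ℙ ℂ (Fin (N + 1) → ℂ) := fun z => f (t + (ε : ℂ) • z)
    let c : Fin (N + 1) → (Fin p → ℂ) → ℂ := fun j z =>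
      (φ ((δ : ℂ) • z)).rep j / (φ ((δ : ℂ) • z)).rep i0
    have hδz : ∀ z ∈ ball (0 : Fin p → ℂ) 1, (δ : ℂ) • z ∈ ball (0 : Fin p → ℂ) δ := by
      intro z hz
      rw [mem_ball_zero_iff] at hz ⊢
      rw [norm_smul, Complex.norm_real, Real.norm_of_nonneg hδ.le]
      nlinarith [norm_nonneg z]
    have hcan : ∀ j, AnalyticOnNhd ℂ (c j) (ball 0 1) := by
      intro j z hz
      have h1 := (hi0 _ (hδz z hz)).2.2 j
      have h2 : AnalyticAt ℂ (fun z : Fin p → ℂ => (δ : ℂ) • z) z :=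
        (analyticAt_const (v := (δ : ℂ))).smul analyticAt_id
      exact h1.comp h2
    obtain ⟨G, hG, hG0, hGx⟩ := loc hA c hcan (fun j z hz => (hi0 _ (hδz z hz)).2.1 j) i σ hκ
      hKD hnum
    refine ⟨G, hG, hG0, fun x hx hxh ⟨w, hw, hfw⟩ => ?_⟩
    have hx0 : x ≠ 0 := by
      rintro rfl
      apply hx
      funext j
      simp
    refine hGx x hx0 hxh ?_
    have hρne : (ε : ℂ) * (δ : ℂ) ≠ 0 := by
      rw [← Complex.ofReal_mul, Ne, Complex.ofReal_eq_zero]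
      positivity
    let z : Fin p → ℂ := ((ε : ℂ) * (δ : ℂ))⁻¹ • (w - t)
    have hzn : ‖z‖ ≤ 1 / 2 := by
      simp only [z]
      rw [norm_smul, norm_inv, norm_mul, Complex.norm_real, Complex.norm_real,
        Real.norm_of_nonneg hε.le, Real.norm_of_nonneg hδ.le]
      have h2 : ‖w - t‖ < ρ := by rw [← dist_eq_norm]; exact hw
      have h3 : 0 < ε * δ := by positivity
      rw [inv_mul_le_iff₀ h3]
      rw [hρ] at h2
      linarith
    have hzw : t + (ε : ℂ) • ((δ : ℂ) • z) = w := by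
      simp only [z]
      rw [smul_smul, smul_smul, mul_inv_cancel₀ hρne, one_smul]
      abel
    have hz1 : z ∈ ball (0 : Fin p → ℂ) 1 := by
      rw [mem_ball_zero_iff]
      linarith
    have hφz : φ ((δ : ℂ) • z) = Projectivization.mk ℂ (fun j => σ (x j)) hx := by
      show f (t + (ε : ℂ) • ((δ : ℂ) • z)) = _
      rw [hzw, hfw]
    obtain ⟨a, ha, hrep⟩ := rep_mk hx
    have hne := (hi0 _ (hδz z hz1)).1
    have hrepj : ∀ j, (φ ((δ : ℂ) • z)).rep j = a * σ (x j) := by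
      intro j
      rw [hφz, hrep]
      rfl
    have hsi : σ (x i0) ≠ 0 := by
      intro h0
      apply hne
      show (φ ((δ : ℂ) • z)).rep i0 = 0
      rw [hrepj, h0, mul_zero]
    refine ⟨z, σ (x i0), hzn, ?_, fun j => ?_⟩
    · exact le_ciSup (f := fun j => ‖σ (x j)‖) (Set.finite_range _).bddAbove i0
    · show σ (x j) = σ (x i0) * ((φ ((δ : ℂ) • z)).rep j / (φ ((δ : ℂ) • z)).rep i0)
      rw [hrepj, hrepj]
      field_simp
  choose! G hG hG0 hGx using hloc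
  have hTmem : ∀ t ∈ T', t ∈ K₀ := fun t ht => hTs (hTfin.mem_toFinset.1 ht)
  refine ⟨T'.card * (m * s), ∏ t ∈ T', rename i (G t), ?_, ?_, ?_, ?_⟩
  · have h1 := IsHomogeneous.prod T' (fun t => rename i (G t)) (fun _ => m * s)
      (fun t ht => (hG t (hTmem t ht)).rename_isHomogeneous)
    rwa [Finset.sum_const, smul_eq_mul] at h1
  · rw [Nat.cast_mul, mul_assoc]
    exact mul_le_mul_of_nonneg_left hdeg (Nat.cast_nonneg _)
  · have hQ : (∏ t ∈ T', map σ (G t)) ≠ 0 := by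
      rw [Finset.prod_ne_zero_iff]
      intro t ht h0
      exact hG0 t (hTmem t ht) ((map_injective σ σ.injective) (by rw [h0, map_zero]))
    obtain ⟨z, hz, hne⟩ := hi (∏ t ∈ T', map σ (G t)) (T'.card * (m * s)) (by
      have h1 := IsHomogeneous.prod T' (fun t => map σ (G t)) (fun _ => m * s)
        (fun t ht => (hG t (hTmem t ht)).map σ)
      rwa [Finset.sum_const, smul_eq_mul] at h1) hQ
    refine ⟨z, hz, ?_⟩
    have h1 : eval (f z).rep (map σ (∏ t ∈ T', rename i (G t))) =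
        eval (fun l => (f z).rep (i l)) (∏ t ∈ T', map σ (G t)) := by
      rw [map_prod, map_prod, map_prod]
      refine Finset.prod_congr rfl fun t _ => ?_
      rw [map_rename, eval_rename]
      rfl
    rw [h1]
    exact hne
  · rintro x hx hxh ⟨z, hz, hfz⟩
    have h1 := hTc hz
    simp only [mem_iUnion] at h1
    obtain ⟨t, ht, hzt⟩ := h1
    have ht' : t ∈ T' := hTfin.mem_toFinset.2 ht
    rw [map_prod]
    refine Finset.prod_eq_zero ht' ?_
    rw [eval_rename]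
    exact hGx t (hTmem t ht') x hx hxh ⟨z, hzt, hfz⟩

end Pool.Agent.H434.Disc
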