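import Mathlib
import Pool.Graph.R_seed8.Y731.FG.All

/-!
Sequences of units of a function field: the choice of the size function.
-/

set_option autoImplicit false
set_option linter.unusedSectionVars false
set_option linter.unusedVariables false

namespace Pool.Agent.H434.Fun

open FF Filter Pool.Agent.W603.LV Pool.Agent.W603.PV Pool.Agent.W603.CZ
open Pool.Agent.Y731.FG Pool.Agent.Y664.FG

variable {𝒰 : Ultrafilter ℕ} {k F : Type} [Field k] [IsAlgClosed k] [CharZero k]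
  [Field F] [Algebra k F] [IsFF k F]

/-- the ultrapower of `F` -/
abbrev UF (𝒰 : Ultrafilter ℕ) (F : Type) [Field F] : Type := UL 𝒰 (fun _ : ℕ => F)

omit [IsAlgClosed k] [CharZero k] [Algebra k F] [IsFF k F] [Field k] in
theorem um_zpow (x : ℕ → F) (n : ℤ) :
    um 𝒰 (L := fun _ : ℕ => F) (fun i => x i ^ n) = um 𝒰 (L := fun _ : ℕ => F) x ^ n := by
  cases n with
  | ofNat n =>
    simp only [Int.ofNat_eq_natCast, zpow_natCast]
    exact um_pow 𝒰 (L := fun _ : ℕ => F) x n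
  | negSucc n =>
    simp only [zpow_negSucc]
    have h1 := um_inv 𝒰 (L := fun _ : ℕ => F) (fun i => x i ^ (n + 1))
    rw [h1]
    congr 1

omit [IsAlgClosed k] [CharZero k] [Algebra k F] [IsFF k F] [Field k] in
theorem um_prod {J : Type} (s : Finset J) (x : J → ℕ → F) :
    um 𝒰 (L := fun _ : ℕ => F) (fun i => ∏ j ∈ s, x j i) =
      ∏ j ∈ s, um 𝒰 (L := fun _ : ℕ => F) (x j) := by
  have h : (fun i => ∏ j ∈ s, x j i) = ∏ j ∈ s, x j := by
    funext i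
    rw [Finset.prod_apply]
  rw [h]
  exact map_prod (Ideal.Quotient.mk (ui 𝒰 fun _ : ℕ => F)) x s

omit [IsAlgClosed k] [CharZero k] [Algebra k F] [IsFF k F] [Field k] in
theorem um_mon {n : ℕ} (x : Fin n → ℕ → F) (β : Fin n → ℤ) :
    um 𝒰 (L := fun _ : ℕ => F) (fun i => ∏ l, x l i ^ β l) =
      ∏ l, um 𝒰 (L := fun _ : ℕ => F) (x l) ^ β l := by
  rw [um_prod Finset.univ fun l i => x l i ^ β l]
  exact Finset.prod_congr rfl fun l _ => um_zpow (x l) (β l)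

/-- heights of monomials -/
theorem hgt_mon_le {n : ℕ} (x : Fin n → F) (hx : ∀ l, x l ≠ 0) (β : Fin n → ℤ) :
    hgt k (∏ l, x l ^ β l) ≤ (∑ l, |β l|) * ∑ l, hgt k (x l) := by
  refine (hgt_prod_le (k := k) Finset.univ (fun l => x l ^ β l)
    (fun l _ => zpow_ne_zero _ (hx l))).trans ?_
  rw [Finset.sum_mul]
  refine Finset.sum_le_sum fun l _ => ?_
  rw [hgt_zpow (hx l)]
  exact mul_le_mul_of_nonneg_left (Finset.single_le_sum (f := fun l => hgt k (x l))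
    (fun l _ => hgt_nonneg _) (Finset.mem_univ l)) (abs_nonneg _)

/-- the exponents of the monomials of small height -/
def Low (𝒰 : Ultrafilter ℕ) (k : Type) {F : Type} [Field k] [IsAlgClosed k] [CharZero k]
    [Field F] [Algebra k F] [IsFF k F] {n : ℕ} (x : Fin n → ℕ → F) (hx : ∀ l i, x l i ≠ 0)
    (H : ℕ → ℤ) (hH : ∀ i, 0 ≤ H i) : Submodule ℤ (Fin n → ℤ) where
  carrier := {β | ∀ ε : ℝ, 0 < ε → ∀ᶠ i in (𝒰 : Filter ℕ),
    ((hgt k (∏ l, x l i ^ β l) : ℤ) : ℝ) ≤ ε * H i}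
  zero_mem' := by
    intro ε hε
    refine Eventually.of_forall fun i => ?_
    have h1 : (∏ l, x l i ^ (0 : Fin n → ℤ) l) = 1 := by simp
    rw [h1, hgt_one, Int.cast_zero]
    have : (0 : ℝ) ≤ H i := by exact_mod_cast hH i
    positivity
  add_mem' := by
    intro a b ha hb ε hε
    filter_upwards [ha (ε / 2) (by positivity), hb (ε / 2) (by positivity)] with i h1 h2
    have h3 : (∏ l, x l i ^ (a + b) l) = (∏ l, x l i ^ a l) * ∏ l, x l i ^ b l := by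
      rw [← Finset.prod_mul_distrib]
      exact Finset.prod_congr rfl fun l _ => zpow_add₀ (hx l i) _ _
    have h4 := hgt_mul (k := k) (f := ∏ l, x l i ^ a l) (g := ∏ l, x l i ^ b l)
      (Finset.prod_ne_zero_iff.2 fun l _ => zpow_ne_zero _ (hx l i))
      (Finset.prod_ne_zero_iff.2 fun l _ => zpow_ne_zero _ (hx l i))
    rw [h3]
    have h5 : ((hgt k ((∏ l, x l i ^ a l) * ∏ l, x l i ^ b l) : ℤ) : ℝ) ≤
        (hgt k (∏ l, x l i ^ a l) : ℤ) + (hgt k (∏ l, x l i ^ b l) : ℤ) := by exact_mod_cast h4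
    linarith
  smul_mem' := by
    intro c a ha ε hε
    have hc : (0 : ℝ) < |(c : ℝ)| + 1 := by positivity
    filter_upwards [ha (ε / (|(c : ℝ)| + 1)) (by positivity)] with i h1
    have h3 : (∏ l, x l i ^ (c • a) l) = (∏ l, x l i ^ a l) ^ c := by
      rw [← Finset.prod_zpow]
      refine Finset.prod_congr rfl fun l _ => ?_
      rw [Pi.smul_apply, smul_eq_mul, mul_comm, zpow_mul]
    rw [h3, hgt_zpow (Finset.prod_ne_zero_iff.2 fun l _ => zpow_ne_zero _ (hx l i))]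
    push_cast
    have h4 : (0 : ℝ) ≤ H i := by exact_mod_cast hH i
    have h5 : (0 : ℝ) ≤ (hgt k (∏ l, x l i ^ a l) : ℤ) := by exact_mod_cast hgt_nonneg _
    calc |(c : ℝ)| * (hgt k (∏ l, x l i ^ a l) : ℤ)
        ≤ (|(c : ℝ)| + 1) * (hgt k (∏ l, x l i ^ a l) : ℤ) :=
          mul_le_mul_of_nonneg_right (by linarith) h5
      _ ≤ (|(c : ℝ)| + 1) * (ε / (|(c : ℝ)| + 1) * H i) := mul_le_mul_of_nonneg_left h1 hc.le
      _ = ε * H i := by field_simp

theorem mem_Low {n : ℕ} (x : Fin n → ℕ → F) (hx : ∀ l i, x l i ≠ 0) (H : ℕ → ℤ)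
    (hH : ∀ i, 0 ≤ H i) (β : Fin n → ℤ) : β ∈ Low 𝒰 k x hx H hH ↔ ∀ ε : ℝ, 0 < ε →
      ∀ᶠ i in (𝒰 : Filter ℕ), ((hgt k (∏ l, x l i ^ β l) : ℤ) : ℝ) ≤ ε * H i := Iff.rfl

/-- the height of the sequence -/
noncomputable def HH (k : Type) {F : Type} [Field k] [Field F] [Algebra k F] {n : ℕ}
    (x : Fin n → ℕ → F) (i : ℕ) : ℤ := ∑ l, hgt k (x l i)

theorem HH_nonneg {n : ℕ} (x : Fin n → ℕ → F) (i : ℕ) : 0 ≤ HH k x i :=
  Finset.sum_nonneg fun _ _ => hgt_nonneg _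

/-- **The choice of the size function.** -/
theorem exists_scale {n : ℕ} (x : Fin n → ℕ → F) (hx : ∀ l i, x l i ≠ 0)
    (S : Finset (Place k F)) (hS : ∀ l i, ∀ P : Place k F, P ∉ S → P.ord (x l i) = 0)
    (hunb : ∀ B : ℤ, ∀ᶠ i in (𝒰 : Filter ℕ), B < HH k x i) :
    ∃ (Δ : Dt 𝒰 k F (fun _ : ℕ => F)) (t : ℕ) (u : Fin t → (UF 𝒰 F)ˣ)
      (a : Fin n → UF 𝒰 F) (M : Fin n → Fin t → ℤ), Δ.IsU (fun j => (u j : UF 𝒰 F)) ∧
      (∀ l, a l ∈ Δ.E ∧ a l ≠ 0 ∧ um 𝒰 (L := fun _ : ℕ => F) (x l) =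
        a l * ((∏ j, u j ^ M l j : (UF 𝒰 F)ˣ) : UF 𝒰 F)) ∧
      0 < t ∧ (∀ j0, ∃ l, M l j0 ≠ 0) ∧
      ∀ ν : Fin t → ℤ, ν ≠ 0 → ¬ (∀ ε : ℝ, 0 < ε → ∃ B : ℝ, ∀ᶠ i in (𝒰 : Filter ℕ),
        ((ht k ((∏ j, u j ^ ν j : (UF 𝒰 F)ˣ) : UF 𝒰 F) i : ℤ) : ℝ) ≤
          ε * Hu k (fun j => (u j : UF 𝒰 F)) i + B * Δ.χ i) := by
  classical
  obtain ⟨T, hT⟩ := (IsNoetherian.noetherian (Low 𝒰 k x hx (HH k x) (HH_nonneg x)) :
    (Low 𝒰 k x hx (HH k x) (HH_nonneg x)).FG)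
  have hTL : ∀ β ∈ T, β ∈ Low 𝒰 k x hx (HH k x) (HH_nonneg x) := fun β hβ => by
    rw [← hT]
    exact Submodule.subset_span hβ
  obtain ⟨C0, hC0⟩ : ∃ C0 : ℕ, C0 = 1 + (disc k F F).natAbs + S.card := ⟨_, rfl⟩
  obtain ⟨χ, hχ⟩ : ∃ χ : ℕ → ℤ, χ = fun i => (C0 : ℤ) + ∑ β ∈ T, hgt k (∏ l, x l i ^ β l) :=
    ⟨_, rfl⟩
  have hsum0 : ∀ i, 0 ≤ ∑ β ∈ T, hgt k (∏ l, x l i ^ β l) := fun i =>
    Finset.sum_nonneg fun _ _ => hgt_nonneg _
  have hχC : ∀ i, (C0 : ℤ) ≤ χ i := fun i => by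
    rw [hχ]
    have := hsum0 i
    show (C0 : ℤ) ≤ C0 + _
    linarith
  -- the size function is small compared with the height
  have hχs : ∀ ε : ℝ, 0 < ε → ∀ᶠ i in (𝒰 : Filter ℕ), (χ i : ℝ) ≤ ε * HH k x i := by
    intro ε hε
    have hT1 : (0 : ℝ) < T.card + 1 := by positivity
    have h1 : ∀ᶠ i in (𝒰 : Filter ℕ), ∀ β ∈ T, ((hgt k (∏ l, x l i ^ β l) : ℤ) : ℝ) ≤
        ε / (2 * (T.card + 1)) * HH k x i :=
      (eventually_all_finset T).2 fun β hβ => hTL β hβ _ (by positivity)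
    filter_upwards [h1, hunb ⌈2 * C0 / ε⌉] with i h2 h3
    have h4 : (2 * C0 / ε : ℝ) ≤ HH k x i := by
      refine (Int.le_ceil _).trans ?_
      exact_mod_cast h3.le
    have h5 : (C0 : ℝ) ≤ ε / 2 * HH k x i := by
      rw [div_le_iff₀ hε] at h4
      linarith
    have h6 : ((∑ β ∈ T, hgt k (∏ l, x l i ^ β l) : ℤ) : ℝ) ≤ ε / 2 * HH k x i := by
      push_cast
      refine (Finset.sum_le_sum h2).trans ?_
      rw [Finset.sum_const, nsmul_eq_mul]
      have h7 : (0 : ℝ) ≤ HH k x i := by exact_mod_cast HH_nonneg x i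
      calc (T.card : ℝ) * (ε / (2 * (T.card + 1)) * HH k x i)
          ≤ (T.card + 1) * (ε / (2 * (T.card + 1)) * HH k x i) :=
            mul_le_mul_of_nonneg_right (by linarith) (by positivity)
        _ = ε / 2 * HH k x i := by field_simp
    rw [hχ]
    push_cast at h6 ⊢
    linarith
  obtain ⟨Δ, hΔ⟩ := allDT (𝒰 := 𝒰) (k := k) (F := F) (L := fun _ : ℕ => F) χ (by
    intro i
    rw [Module.finrank_self]
    have h1 := hχC i
    have h2 : disc k F F ≤ |disc k F F| := le_abs_self _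
    rw [hC0] at h1
    push_cast at h1 ⊢
    have h3 : (0 : ℤ) ≤ S.card := by positivity
    linarith)
  -- the sequences are units outside few places
  let X : Fin n → UF 𝒰 F := fun l => um 𝒰 (L := fun _ : ℕ => F) (x l)
  have hX0 : ∀ l, X l ≠ 0 := fun l => um_ne_iff.2 (Eventually.of_forall fun i => hx l i)
  have hLU : ∀ l, LU Δ (X l) := by
    intro l
    refine ⟨hX0 l, 1, ?_⟩
    have h0 := ev_iff.1 (oo_um (𝒰 := 𝒰) (k := k) (L := fun _ : ℕ => F) (x l))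
    filter_upwards [h0] with i h1 U
    have h2 : ∀ P : Place k F, (if oo (X l) (⟨i, P⟩ : Om k (fun _ : ℕ => F)) = 0 then (0 : ℤ)
        else 1) ≤ if P ∈ S then 1 else 0 := by
      intro P
      have h3 : oo (X l) (⟨i, P⟩ : Om k (fun _ : ℕ => F)) = P.ord (x l i) := h1 P
      rw [h3]
      by_cases hP : P ∈ S
      · rw [if_pos hP]
        split_ifs <;> norm_num
      · rw [if_neg hP, hS l i P hP, if_pos rfl]
    refine (Finset.sum_le_sum fun P _ => h2 P).trans ?_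
    have h4 : ∑ P ∈ U, (if P ∈ S then (1 : ℤ) else 0) ≤ S.card := by
      rw [Finset.sum_ite, Finset.sum_const_zero, add_zero, Finset.sum_const, nsmul_eq_mul,
        mul_one]
      exact_mod_cast Finset.card_le_card fun P hP => (Finset.mem_filter.1 hP).2
    refine h4.trans ?_
    have h5 := hχC i
    rw [hC0] at h5
    rw [hΔ]
    push_cast at h5 ⊢
    have h6 : (0 : ℤ) ≤ |disc k F F| := abs_nonneg _
    linarith
  let U : Fin n → (UF 𝒰 F)ˣ := fun l => Units.mk0 (X l) (hX0 l)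
  obtain ⟨t, Q, M, h1, h2⟩ := exists_basis U (eG Δ) (by
    intro y d hd hy
    have hy' : ((y ^ d : (UF 𝒰 F)ˣ) : UF 𝒰 F) ∈ Δ.E := hy
    rw [Units.val_pow_eq_pow_val] at hy'
    exact Δ.hE.root _ d hd hy')
  let u : Fin t → (UF 𝒰 F)ˣ := fun j => ∏ l, U l ^ Q j l
  have hmem : ∀ j : Fin t, u j ∈ luG Δ := fun j =>
    (luG Δ).prod_mem fun l _ => (luG Δ).zpow_mem (show U l ∈ luG Δ from hLU l) _
  have hIsU : Δ.IsU (fun j => (u j : UF 𝒰 F)) :=
    ⟨fun j => hmem j, algIndep Δ _ (fun j => hmem j) fun ν hν => h2 ν hν⟩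
  have hval : ∀ β : Fin n → ℤ, ((∏ l, U l ^ β l : (UF 𝒰 F)ˣ) : UF 𝒰 F) =
      um 𝒰 (L := fun _ : ℕ => F) (fun i => ∏ l, x l i ^ β l) := by
    intro β
    rw [um_mon, Units.coe_prod]
    exact Finset.prod_congr rfl fun l _ => Units.val_zpow_eq_zpow_val _ _
  -- monomials of small height are in `E`
  have hlowE : ∀ β ∈ Low 𝒰 k x hx (HH k x) (HH_nonneg x), ∏ l, U l ^ β l ∈ eG Δ := by
    have h3 : Submodule.span ℤ (T : Set (Fin n → ℤ)) ≤ Rl U (eG Δ) := by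
      rw [Submodule.span_le]
      intro β hβ
      show ((∏ l, U l ^ β l : (UF 𝒰 F)ˣ) : UF 𝒰 F) ∈ Δ.E
      rw [hval, Δ.hE.2]
      refine ⟨1, Eventually.of_forall fun i => ?_⟩
      have h4 := Finset.single_le_sum (f := fun β : Fin n → ℤ => hgt k (∏ l, x l i ^ β l))
        (fun _ _ => hgt_nonneg _) hβ
      rw [hΔ, hχ]
      push_cast
      have h5 : (0 : ℤ) ≤ C0 := by positivity
      show hgt k (∏ l, x l i ^ β l) ≤ 1 * (C0 + ∑ β ∈ T, hgt k (∏ l, x l i ^ β l))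
      have h6 : hgt k (∏ l, x l i ^ β l) ≤ ∑ β ∈ T, hgt k (∏ l, x l i ^ β l) := h4
      linarith
    intro β hβ
    rw [← hT] at hβ
    exact h3 hβ
  -- heights of the new units
  have hhtu : ∀ β : Fin n → ℤ, ∀ᶠ i in (𝒰 : Filter ℕ),
      ht k ((∏ l, U l ^ β l : (UF 𝒰 F)ˣ) : UF 𝒰 F) i = hgt k (∏ l, x l i ^ β l) := by
    intro β
    rw [hval]
    filter_upwards [rep_um (𝒰 := 𝒰) (L := fun _ : ℕ => F) (fun i => ∏ l, x l i ^ β l)] with i h3
    unfold ht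
    rw [h3]
  have hnl : ∀ ν : Fin t → ℤ, ν ≠ 0 → ¬ (∀ ε : ℝ, 0 < ε → ∃ B : ℝ, ∀ᶠ i in (𝒰 : Filter ℕ),
        ((ht k ((∏ j, u j ^ ν j : (UF 𝒰 F)ˣ) : UF 𝒰 F) i : ℤ) : ℝ) ≤
          ε * Hu k (fun j => (u j : UF 𝒰 F)) i + B * Δ.χ i) := by
    intro ν hν hcon
    apply hν
    apply h2
    have h3 : ∏ j, (∏ l, U l ^ Q j l) ^ ν j = ∏ l, U l ^ (∑ j, ν j • Q j) l :=
      prod_sum_zpow U Q ν
    rw [h3]
    apply hlowE
    rw [mem_Low]
    intro ε hε
    -- a bound for the heights of the units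
    obtain ⟨C, hC⟩ : ∃ C : ℝ, C = ∑ j, ((∑ l, |Q j l| : ℤ) : ℝ) := ⟨_, rfl⟩
    have hC0' : 0 ≤ C := by
      rw [hC]
      refine Finset.sum_nonneg fun j _ => ?_
      exact_mod_cast Finset.sum_nonneg fun l _ => abs_nonneg _
    obtain ⟨B, hB⟩ := hcon (ε / (2 * (C + 1))) (by positivity)
    have h4 : ∀ᶠ i in (𝒰 : Filter ℕ), ∀ j, ht k ((u j : (UF 𝒰 F)ˣ) : UF 𝒰 F) i =
        hgt k (∏ l, x l i ^ Q j l) := eventually_all.2 fun j => hhtu (Q j)
    filter_upwards [hB, h4, hhtu (∑ j, ν j • Q j), hχs (ε / (2 * (|B| + 1))) (by positivity)]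
      with i h5 h6 h7 h8
    have h9 : (0 : ℝ) ≤ HH k x i := by exact_mod_cast HH_nonneg x i
    have h10 : (Hu k (fun j => (u j : UF 𝒰 F)) i : ℝ) ≤ C * HH k x i := by
      unfold Hu
      push_cast
      rw [hC, Finset.sum_mul]
      refine Finset.sum_le_sum fun j _ => ?_
      rw [h6 j]
      exact_mod_cast hgt_mon_le (k := k) (fun l => x l i) (fun l => hx l i) (Q j)
    have h11 : ((hgt k (∏ l, x l i ^ (∑ j, ν j • Q j) l) : ℤ) : ℝ) ≤
        ε / (2 * (C + 1)) * Hu k (fun j => (u j : UF 𝒰 F)) i + B * Δ.χ i := by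
      rw [← h7]
      have h12 : ((∏ j, u j ^ ν j : (UF 𝒰 F)ˣ) : UF 𝒰 F) =
          ((∏ l, U l ^ (∑ j, ν j • Q j) l : (UF 𝒰 F)ˣ) : UF 𝒰 F) := by
        exact congrArg _ h3
      rw [← h12]
      exact h5
    have h13 : ε / (2 * (C + 1)) * Hu k (fun j => (u j : UF 𝒰 F)) i ≤ ε / 2 * HH k x i := by
      calc ε / (2 * (C + 1)) * Hu k (fun j => (u j : UF 𝒰 F)) i
          ≤ ε / (2 * (C + 1)) * (C * HH k x i) :=
            mul_le_mul_of_nonneg_left h10 (by positivity)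
        _ ≤ ε / (2 * (C + 1)) * ((C + 1) * HH k x i) :=
            mul_le_mul_of_nonneg_left (mul_le_mul_of_nonneg_right (by linarith) h9)
              (by positivity)
        _ = ε / 2 * HH k x i := by field_simp
    have h14 : B * Δ.χ i ≤ ε / 2 * HH k x i := by
      rw [hΔ]
      have h15 : (0 : ℝ) ≤ χ i := by
        have := hχC i
        have h16 : (0 : ℤ) ≤ χ i := le_trans (by positivity) this
        exact_mod_cast h16
      calc B * χ i ≤ (|B| + 1) * χ i :=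
            mul_le_mul_of_nonneg_right (by linarith [le_abs_self B]) h15
        _ ≤ (|B| + 1) * (ε / (2 * (|B| + 1)) * HH k x i) :=
            mul_le_mul_of_nonneg_left h8 (by positivity)
        _ = ε / 2 * HH k x i := by field_simp
    linarith
  -- the factors
  have hdiv : ∀ l, X l = ((U l / ∏ j, u j ^ M l j : (UF 𝒰 F)ˣ) : UF 𝒰 F) *
      ((∏ j, u j ^ M l j : (UF 𝒰 F)ˣ) : UF 𝒰 F) := by
    intro l
    rw [← Units.val_mul, div_mul_cancel]
    rfl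
  refine ⟨Δ, t, u, fun l => ((U l / ∏ j, u j ^ M l j : (UF 𝒰 F)ˣ) : UF 𝒰 F), M, hIsU,
    fun l => ⟨h1 l, Units.ne_zero _, hdiv l⟩, ?_, ?_, hnl⟩
  · by_contra ht0
    have ht0' : t = 0 := by omega
    subst ht0'
    have h3 : ∀ l, U l ∈ eG Δ := by
      intro l
      have h4 := h1 l
      rwa [Fin.prod_univ_zero, div_one] at h4
    have h5 : ∀ l, ∃ B : ℕ, ∀ᶠ i in (𝒰 : Filter ℕ), hgt k (x l i) ≤ B * Δ.χ i := fun l =>
      (Δ.hE.2 (x l)).1 (h3 l)
    choose B hB using h5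
    have h6 : (0 : ℝ) < (∑ l, (B l : ℝ)) + 1 := by positivity
    have h7 := hχs (1 / (2 * ((∑ l, (B l : ℝ)) + 1))) (by positivity)
    obtain ⟨i, h8, h9, h10⟩ := ((eventually_all.2 hB).and (h7.and (hunb 0))).exists
    have h11 : (0 : ℝ) < HH k x i := by exact_mod_cast h10
    have h12 : (HH k x i : ℝ) ≤ (∑ l, (B l : ℝ)) * χ i := by
      unfold HH
      push_cast
      rw [Finset.sum_mul]
      refine Finset.sum_le_sum fun l _ => ?_
      have := h8 l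
      rw [hΔ] at this
      exact_mod_cast this
    have h13 : (0 : ℝ) ≤ χ i := by
      have h16 : (0 : ℤ) ≤ χ i := le_trans (by positivity) (hχC i)
      exact_mod_cast h16
    have h14 : (∑ l, (B l : ℝ)) * χ i ≤ 1 / 2 * HH k x i := by
      calc (∑ l, (B l : ℝ)) * χ i ≤ ((∑ l, (B l : ℝ)) + 1) * χ i :=
            mul_le_mul_of_nonneg_right (by linarith) h13
        _ ≤ ((∑ l, (B l : ℝ)) + 1) * (1 / (2 * ((∑ l, (B l : ℝ)) + 1)) * HH k x i) :=
            mul_le_mul_of_nonneg_left h9 h6.le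
        _ = 1 / 2 * HH k x i := by field_simp
    linarith
  · intro j0
    by_contra hcon
    push Not at hcon
    have h3 : (Pi.single j0 1 : Fin t → ℤ) - ∑ l, Q j0 l • M l = 0 := by
      apply h2
      have h4 : ∏ j, (∏ l, U l ^ Q j l) ^ ((Pi.single j0 1 : Fin t → ℤ) - ∑ l, Q j0 l • M l) j =
          ∏ l, (U l / ∏ j, u j ^ M l j) ^ Q j0 l := by
        have h5 : ∏ l, (U l / ∏ j, u j ^ M l j) ^ Q j0 l = u j0 / ∏ l, (∏ j, u j ^ M l j) ^ Q j0 l
            := by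
          rw [← Finset.prod_div_distrib]
          exact Finset.prod_congr rfl fun l _ => div_zpow _ _ _
        rw [h5, prod_sum_zpow u M (Q j0)]
        rw [Finset.prod_congr rfl fun j _ => by rw [Pi.sub_apply, zpow_sub, ← div_eq_mul_inv],
          Finset.prod_div_distrib]
        congr 1
        rw [Finset.prod_eq_single j0]
        · rw [Pi.single_eq_same, zpow_one]
        · intro j _ hj
          rw [Pi.single_eq_of_ne hj, zpow_zero]
        · intro h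
          exact absurd (Finset.mem_univ _) h
      rw [h4]
      exact (eG Δ).prod_mem fun l _ => (eG Δ).zpow_mem (h1 l) _
    have h4 := congrFun h3 j0
    rw [Pi.sub_apply, Finset.sum_apply, Pi.single_eq_same] at h4
    have h5 : ∑ l, (Q j0 l • M l) j0 = 0 := Finset.sum_eq_zero fun l _ => by
      rw [Pi.smul_apply, hcon l, smul_zero]
    rw [h5] at h4
    norm_num at h4

end Pool.Agent.H434.Fun
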