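import Mathlib
import Pool.Agent.H434.F1

/-!
Ramification over a polynomial with at least two terms is impossible.
-/

set_option autoImplicit false
set_option linter.unusedSectionVars false
set_option linter.unusedVariables false

namespace Pool.Agent.H434.Fun

open FF Filter MvPolynomial Pool.Agent.W603.LV Pool.Agent.W603.PV Pool.Agent.W603.CZ
open Pool.Agent.Y731.FG Pool.Agent.Y664.FG
open scoped Classical

variable {𝒰 : Ultrafilter ℕ} {k F : Type} [Field k] [IsAlgClosed k] [CharZero k]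
  [Field F] [Algebra k F] [IsFF k F]

/-- If the zeros of a value of a polynomial outside of the zeros and poles of the units are
negligible then the quotients of its monomials have small height. -/
theorem low_of_Ng (Δ : Dt 𝒰 k F (fun _ : ℕ => F)) {t : ℕ} (u : Fin t → (UF 𝒰 F)ˣ)
    (hu : Δ.IsU (fun j => (u j : UF 𝒰 F))) (p : MvPolynomial (Fin t) Δ.E) (hp : p ≠ 0)
    (hN : Ng 𝒰 Δ.χ (Hu k (fun j => (u j : UF 𝒰 F))) (fun ω : Om k (fun _ : ℕ => F) =>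
      if ω ∈ Tu (fun j => (u j : UF 𝒰 F)) then 0 else
        oo (aeval (fun j => (u j : UF 𝒰 F)) p) ω))
    (s s' : Fin t →₀ ℕ) (hs : s ∈ p.support) (hs' : s' ∈ p.support) (ε : ℝ) (hε : 0 < ε) :
    ∃ B : ℝ, ∀ᶠ i in (𝒰 : Filter ℕ),
      ((ht k ((∏ j, u j ^ ((s j : ℤ) - s' j) : (UF 𝒰 F)ˣ) : UF 𝒰 F) i : ℤ) : ℝ) ≤
          ε * Hu k (fun j => (u j : UF 𝒰 F)) i + B * Δ.χ i := by
  obtain ⟨e, he, hC⟩ := allC Δ t (fun j => (u j : UF 𝒰 F)) hu p hp
  have hu0 : ∀ j, (u j : UF 𝒰 F) ≠ 0 := fun j => Units.ne_zero _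
  have hA : aeval (fun j => (u j : UF 𝒰 F)) p ≠ 0 := by
    intro h
    exact hp (hu.2 (by rw [h, map_zero]))
  have hmon : ∀ v : Fin t →₀ ℕ, mon (fun j => (u j : UF 𝒰 F)) v ≠ 0 := fun v =>
    Finset.prod_ne_zero_iff.2 fun j _ => pow_ne_zero _ (hu0 j)
  have hmo : ∀ v : Fin t →₀ ℕ, ∀ᶠ ω in EV 𝒰 k (fun _ : ℕ => F),
      oo (mon (fun j => (u j : UF 𝒰 F)) v) ω = ∑ j, (v j : ℤ) * oo (u j : UF 𝒰 F) ω := by
    intro v
    have h1 := oo_prod (𝒰 := 𝒰) (k := k) Finset.univ (fun j => (u j : UF 𝒰 F) ^ v j)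
      (fun j _ => pow_ne_zero _ (hu0 j))
    have h2 : ∀ᶠ ω in EV 𝒰 k (fun _ : ℕ => F), ∀ j,
        oo ((u j : UF 𝒰 F) ^ v j) ω = (v j : ℤ) * oo (u j : UF 𝒰 F) ω :=
      eventually_all.2 fun j => oo_pow (u j : UF 𝒰 F) (v j)
    filter_upwards [h1, h2] with ω h3 h4
    unfold mon
    rw [h3]
    exact Finset.sum_congr rfl fun j _ => h4 j
  have hH : ∀ᶠ i in (𝒰 : Filter ℕ), 0 ≤ Hu k (fun j => (u j : UF 𝒰 F)) i :=
    Eventually.of_forall fun i => Hu_nonneg _ i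
  have hg := hN.pos.add (he.ng hH).pos
  obtain ⟨B, hB⟩ := hg ε hε
  refine ⟨B, ?_⟩
  let Z : UF 𝒰 F := mon (fun j => (u j : UF 𝒰 F)) s / mon (fun j => (u j : UF 𝒰 F)) s'
  have hZ : ((∏ j, u j ^ ((s j : ℤ) - s' j) : (UF 𝒰 F)ˣ) : UF 𝒰 F) = Z := by
    simp only [Z]
    unfold mon
    rw [Units.coe_prod, ← Finset.prod_div_distrib]
    refine Finset.prod_congr rfl fun j _ => ?_
    rw [Units.val_zpow_eq_zpow_val, zpow_sub₀ (hu0 j), zpow_natCast, zpow_natCast]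
  rw [hZ]
  have hZo := oo_div (𝒰 := 𝒰) (k := k) (hmon s) (hmon s')
  filter_upwards [hB, ev_iff.1 hC, ev_iff.1 (hmo s), ev_iff.1 (hmo s'), ev_iff.1 hZo] with i h1 h2
    h3 h4 h5
  obtain ⟨T, hT⟩ := exists_supp (k := k) (Finset.univ : Finset (Fin 3))
    ![rep (aeval (fun j => (u j : UF 𝒰 F)) p) i, rep (mon (fun j => (u j : UF 𝒰 F)) s') i, rep Z i]
  have hT0 : ∀ P : Place k F, P.ord (rep (aeval (fun j => (u j : UF 𝒰 F)) p) i) ≠ 0 → P ∈ T :=
    fun P hP => hT 0 (Finset.mem_univ _) P hP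
  have hT1 : ∀ P : Place k F, P.ord (rep (mon (fun j => (u j : UF 𝒰 F)) s') i) ≠ 0 → P ∈ T :=
    fun P hP => hT 1 (Finset.mem_univ _) P hP
  have hT2 : ∀ P : Place k F, P.ord (rep Z i) ≠ 0 → P ∈ T :=
    fun P hP => hT 2 (Finset.mem_univ _) P hP
  have s0 := sum_ord_finset (k := k) _ T hT0
  have s1 := sum_ord_finset (k := k) _ T hT1
  have s2 := hgt_finset (k := k) _ T hT2
  have key : ∀ P ∈ T, P.ord (rep (aeval (fun j => (u j : UF 𝒰 F)) p) i) +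
      max (-P.ord (rep Z i)) 0 ≤ P.ord (rep (mon (fun j => (u j : UF 𝒰 F)) s') i) +
      (max (if (⟨i, P⟩ : Om k (fun _ : ℕ => F)) ∈ Tu (fun j => (u j : UF 𝒰 F)) then 0 else
        oo (aeval (fun j => (u j : UF 𝒰 F)) p) (⟨i, P⟩ : Om k (fun _ : ℕ => F))) 0 +
        max (e ⟨i, P⟩) 0) := by
    intro P _
    have g3 : P.ord (rep (mon (fun j => (u j : UF 𝒰 F)) s) i) =
      ∑ j, (s j : ℤ) * oo (u j : UF 𝒰 F) (⟨i, P⟩ : Om k (fun _ : ℕ => F)) := h3 P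
    have g4 : P.ord (rep (mon (fun j => (u j : UF 𝒰 F)) s') i) =
      ∑ j, (s' j : ℤ) * oo (u j : UF 𝒰 F) (⟨i, P⟩ : Om k (fun _ : ℕ => F)) := h4 P
    have g5 : P.ord (rep Z i) = P.ord (rep (mon (fun j => (u j : UF 𝒰 F)) s) i) -
      P.ord (rep (mon (fun j => (u j : UF 𝒰 F)) s') i) := h5 P
    by_cases hω : (⟨i, P⟩ : Om k (fun _ : ℕ => F)) ∈ Tu (fun j => (u j : UF 𝒰 F))
    · rw [if_pos hω]
      have g1 : P.ord (rep (aeval (fun j => (u j : UF 𝒰 F)) p) i) ≤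
        P.ord (rep (mon (fun j => (u j : UF 𝒰 F)) s) i) + e ⟨i, P⟩ := h2 P hω s hs
      have g2 : P.ord (rep (aeval (fun j => (u j : UF 𝒰 F)) p) i) ≤
        P.ord (rep (mon (fun j => (u j : UF 𝒰 F)) s') i) + e ⟨i, P⟩ := h2 P hω s' hs'
      omega
    · rw [if_neg hω]
      have g6 : ∀ j, oo (u j : UF 𝒰 F) (⟨i, P⟩ : Om k (fun _ : ℕ => F)) = 0 := by
        intro j
        by_contra hj
        exact hω ⟨j, hj⟩
      simp only [g6, mul_zero, Finset.sum_const_zero] at g3 g4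
      have g7 : oo (aeval (fun j => (u j : UF 𝒰 F)) p) (⟨i, P⟩ : Om k (fun _ : ℕ => F)) =
        P.ord (rep (aeval (fun j => (u j : UF 𝒰 F)) p) i) := rfl
      rw [g7]
      omega
  have h6 := Finset.sum_le_sum key
  rw [Finset.sum_add_distrib, Finset.sum_add_distrib, s0, s1, ← s2, zero_add, zero_add] at h6
  have h7 := h1 T
  have h8 : ((ht k Z i : ℤ) : ℝ) ≤ ((∑ P ∈ T, (max (if (⟨i, P⟩ : Om k (fun _ : ℕ => F)) ∈
      Tu (fun j => (u j : UF 𝒰 F)) then 0 else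
        oo (aeval (fun j => (u j : UF 𝒰 F)) p) (⟨i, P⟩ : Om k (fun _ : ℕ => F))) 0 +
        max (e ⟨i, P⟩) 0) : ℤ) : ℝ) := by
    exact_mod_cast h6
  exact h8.trans h7

/-- **Ramification.** If `p` is irreducible with at least two terms, `Q = p ^ e g`, `1 ≤ e < m` and
`p` does not divide `g`, then the value of `Q` is not the product of an `m`-th power and a monomial,
for units such that the monomials have large height. -/
theorem ram_ff (Δ : Dt 𝒰 k F (fun _ : ℕ => F)) {t : ℕ} (u : Fin t → (UF 𝒰 F)ˣ)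
    (hu : Δ.IsU (fun j => (u j : UF 𝒰 F)))
    (hnl : ∀ ν : Fin t → ℤ, ν ≠ 0 → ¬ (∀ ε : ℝ, 0 < ε → ∃ B : ℝ, ∀ᶠ i in (𝒰 : Filter ℕ),
        ((ht k ((∏ j, u j ^ ν j : (UF 𝒰 F)ˣ) : UF 𝒰 F) i : ℤ) : ℝ) ≤
          ε * Hu k (fun j => (u j : UF 𝒰 F)) i + B * Δ.χ i))
    (p g : MvPolynomial (Fin t) Δ.E) (hp : Irreducible p) (hg : g ≠ 0) (hpg : ¬ p ∣ g)
    (e m : ℕ) (he : 1 ≤ e) (hem : e < m) (z : UF 𝒰 F) (β : Fin t → ℤ)
    (hz : z ^ m * ((∏ j, u j ^ β j : (UF 𝒰 F)ˣ) : UF 𝒰 F) =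
      aeval (fun j => (u j : UF 𝒰 F)) (p ^ e * g)) (s s' : Fin t →₀ ℕ) (hs : s ∈ p.support)
    (hs' : s' ∈ p.support) (hss : s ≠ s') : False := by
  have hu0 : ∀ j, (u j : UF 𝒰 F) ≠ 0 := fun j => Units.ne_zero _
  have hne : ∀ f : MvPolynomial (Fin t) Δ.E, f ≠ 0 → aeval (fun j => (u j : UF 𝒰 F)) f ≠ 0 := by
    intro f hf h
    exact hf (hu.2 (by rw [h, map_zero]))
  have hA := hne p hp.ne_zero
  have hG := hne g hg
  have hz0 : z ≠ 0 := by
    intro h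
    rw [h, zero_pow (by omega), zero_mul] at hz
    exact hne (p ^ e * g) (mul_ne_zero (pow_ne_zero _ hp.ne_zero) hg) hz.symm
  have hH : ∀ᶠ i in (𝒰 : Filter ℕ), 0 ≤ Hu k (fun j => (u j : UF 𝒰 F)) i :=
    Eventually.of_forall fun i => Hu_nonneg _ i
  obtain ⟨hb1, hb2⟩ := allB Δ t (fun j => (u j : UF 𝒰 F)) hu p hp
  have hb3 := hb2 g hg hpg
  obtain ⟨el, hel, hlow⟩ := Pool.Agent.Y141.FG.low Δ t (fun j => (u j : UF 𝒰 F)) hu0 g
  have hmono : ∀ v : Fin t →₀ ℕ, ∀ᶠ ω in EV 𝒰 k (fun _ : ℕ => F),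
      ω ∉ Tu (fun j => (u j : UF 𝒰 F)) → oo (mon (fun j => (u j : UF 𝒰 F)) v) ω = 0 := by
    intro v
    have h1 := oo_prod (𝒰 := 𝒰) (k := k) Finset.univ (fun j => (u j : UF 𝒰 F) ^ v j)
      (fun j _ => pow_ne_zero _ (hu0 j))
    have h2 : ∀ᶠ ω in EV 𝒰 k (fun _ : ℕ => F), ∀ j,
        oo ((u j : UF 𝒰 F) ^ v j) ω = (v j : ℤ) * oo (u j : UF 𝒰 F) ω :=
      eventually_all.2 fun j => oo_pow (u j : UF 𝒰 F) (v j)
    filter_upwards [h1, h2] with ω h3 h4 hω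
    unfold mon
    rw [h3]
    refine Finset.sum_eq_zero fun j _ => ?_
    rw [h4 j]
    have : oo (u j : UF 𝒰 F) ω = 0 := by
      by_contra hj
      exact hω ⟨j, hj⟩
    rw [this, mul_zero]
  have hmonz : ∀ᶠ ω in EV 𝒰 k (fun _ : ℕ => F), ω ∉ Tu (fun j => (u j : UF 𝒰 F)) →
      oo ((∏ j, u j ^ β j : (UF 𝒰 F)ˣ) : UF 𝒰 F) ω = 0 := by
    let v1 : Fin t →₀ ℕ := Finsupp.equivFunOnFinite.symm fun j => (β j).toNat
    let v2 : Fin t →₀ ℕ := Finsupp.equivFunOnFinite.symm fun j => (-β j).toNat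
    have h1 : ((∏ j, u j ^ β j : (UF 𝒰 F)ˣ) : UF 𝒰 F) =
        mon (fun j => (u j : UF 𝒰 F)) v1 / mon (fun j => (u j : UF 𝒰 F)) v2 := by
      unfold mon
      rw [Units.coe_prod, ← Finset.prod_div_distrib]
      refine Finset.prod_congr rfl fun j _ => ?_
      have h2 : v1 j = (β j).toNat := rfl
      have h3 : v2 j = (-β j).toNat := rfl
      rw [Units.val_zpow_eq_zpow_val, h2, h3, ← zpow_natCast, ← zpow_natCast,
        ← zpow_sub₀ (hu0 j)]
      congr 1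
      omega
    have hmon : ∀ v : Fin t →₀ ℕ, mon (fun j => (u j : UF 𝒰 F)) v ≠ 0 := fun v =>
      Finset.prod_ne_zero_iff.2 fun j _ => pow_ne_zero _ (hu0 j)
    rw [h1]
    filter_upwards [oo_div (𝒰 := 𝒰) (k := k) (hmon v1) (hmon v2), hmono v1, hmono v2] with ω g1 g2
      g3 hω
    rw [g1, g2 hω, g3 hω, sub_zero]
  have hord : ∀ᶠ ω in EV 𝒰 k (fun _ : ℕ => F), ω ∉ Tu (fun j => (u j : UF 𝒰 F)) →
      (m : ℤ) * oo z ω = e * oo (aeval (fun j => (u j : UF 𝒰 F)) p) ω +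
        oo (aeval (fun j => (u j : UF 𝒰 F)) g) ω := by
    have e1 := oo_pow (𝒰 := 𝒰) (k := k) z m
    have e2 := oo_mul (𝒰 := 𝒰) (k := k) (pow_ne_zero m hz0)
      (Units.ne_zero (∏ j, u j ^ β j : (UF 𝒰 F)ˣ))
    have e3 := oo_pow (𝒰 := 𝒰) (k := k) (aeval (fun j => (u j : UF 𝒰 F)) p) e
    have e4 := oo_mul (𝒰 := 𝒰) (k := k) (pow_ne_zero e hA) hG
    rw [map_mul, map_pow] at hz
    rw [hz] at e2
    filter_upwards [e1, e2, e3, e4, hmonz] with ω g1 g2 g3 g4 g5 hω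
    rw [g4, g3, g1, g5 hω, add_zero] at g2
    exact g2.symm
  have hbd : Ng 𝒰 Δ.χ (Hu k (fun j => (u j : UF 𝒰 F))) (fun ω : Om k (fun _ : ℕ => F) =>
      if ω ∈ Tu (fun j => (u j : UF 𝒰 F)) then 0 else
        oo (aeval (fun j => (u j : UF 𝒰 F)) p) ω) := by
    refine ((((hb1.pos).add (hb1.pos)).add hb3.pos).add (hel.ng hH).pos).mono ?_
    filter_upwards [hord, hlow, eventually_all_finset g.support |>.2 fun v _ => hmono v] with ω g1
      g2 g3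
    by_cases hω : ω ∈ Tu (fun j => (u j : UF 𝒰 F))
    · simp only [if_pos hω]
      have := le_max_right (el ω) 0
      split_ifs <;> omega
    · simp only [if_neg hω]
      have g1' := g1 hω
      have g2' := (g2 0 (fun v hv => (g3 v hv hω).ge)).resolve_left hG
      set op := oo (aeval (fun j => (u j : UF 𝒰 F)) p) ω
      set og := oo (aeval (fun j => (u j : UF 𝒰 F)) g) ω
      by_cases h1 : op < 1
      · have h2 : ω ∈ Tu (fun j => (u j : UF 𝒰 F)) ∨ op < 1 := Or.inr h1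
        rw [if_pos h2]
        omega
      · have h2 : ¬ (ω ∈ Tu (fun j => (u j : UF 𝒰 F)) ∨ op < 1) := by
          rintro (h | h)
          · exact hω h
          · exact h1 h
        rw [if_neg h2]
        by_cases h3 : op = 1
        · rw [h3, mul_one] at g1'
          have h4 : og ≠ 0 := by
            intro h0
            rw [h0, add_zero] at g1'
            have h5 : (m : ℤ) ∣ e := ⟨_, g1'.symm⟩
            have h6 : m ∣ e := by exact_mod_cast h5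
            exact absurd (Nat.le_of_dvd (by omega) h6) (by omega)
          rw [h3]
          rcases lt_or_gt_of_ne h4 with h5 | h5
          · omega
          · omega
        · omega
  have hν : (fun j => (s j : ℤ) - s' j) ≠ 0 := by
    intro h
    apply hss
    refine Finsupp.ext fun j => ?_
    have h1 := congrFun h j
    simp only [Pi.zero_apply] at h1
    omega
  exact hnl _ hν fun ε hε => low_of_Ng Δ u hu p hp.ne_zero hbd s s' hs hs' ε hε

end Pool.Agent.H434.Fun
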