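import Mathlib
import Pool.Agent.H434.F2
import Pool.Agent.H434.Main

/-!
Polynomials whose values are powers up to monomials.
-/

set_option autoImplicit false
set_option linter.unusedSectionVars false
set_option linter.unusedVariables false

namespace Pool.Agent.H434.Fun

open FF Filter MvPolynomial Pool.Agent.W603.LV Pool.Agent.W603.PV Pool.Agent.W603.CZ
open Pool.Agent.Y731.FG Pool.Agent.Y664.FG

section single

variable {E : Type} [Field E] {t : ℕ}

/-- a polynomial with at most one term -/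
def ST (f : MvPolynomial (Fin t) E) : Prop := ∃ (s : Fin t →₀ ℕ) (c : E), f = monomial s c

theorem ST.mul {f g : MvPolynomial (Fin t) E} (hf : ST f) (hg : ST g) : ST (f * g) := by
  obtain ⟨s, c, rfl⟩ := hf
  obtain ⟨s', c', rfl⟩ := hg
  exact ⟨s + s', c * c', monomial_mul⟩

theorem ST.of_isUnit {f : MvPolynomial (Fin t) E} (hf : IsUnit f) : ST f := by
  rw [MvPolynomial.isUnit_iff_eq_C_of_isReduced] at hf
  obtain ⟨r, -, hr⟩ := hf
  exact ⟨0, r, hr⟩

theorem ST.of_support {f : MvPolynomial (Fin t) E}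
    (hf : ∀ s ∈ f.support, ∀ s' ∈ f.support, s = s') : ST f := by
  classical
  by_cases h0 : f = 0
  · exact ⟨0, 0, by rw [h0, monomial_zero]⟩
  obtain ⟨s, hs⟩ := support_nonempty.2 h0
  refine ⟨s, coeff s f, ?_⟩
  ext b
  rw [coeff_monomial]
  split_ifs with h
  · rw [h]
  · by_contra hb
    exact h (hf s hs b (mem_support_iff.2 hb))

theorem ST.of_factors {f : MvPolynomial (Fin t) E} (h0 : f ≠ 0)
    (hf : ∀ p, Irreducible p → p ∣ f → ST p) : ST f := by
  obtain ⟨fs, h1, h2⟩ := WfDvdMonoid.exists_factors f h0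
  have h3 : ∀ ps : Multiset (MvPolynomial (Fin t) E), (∀ p ∈ ps, ST p) → ST ps.prod := by
    intro ps
    induction ps using Multiset.induction_on with
    | empty =>
      intro _
      exact ST.of_isUnit (by rw [Multiset.prod_zero]; exact isUnit_one)
    | cons a ps ih =>
      intro h
      rw [Multiset.prod_cons]
      exact (h a (Multiset.mem_cons_self a ps)).mul (ih fun p hp => h p
        (Multiset.mem_cons_of_mem hp))
  obtain ⟨v, hv⟩ := h2
  rw [← hv]
  refine (h3 fs fun p hp => hf p (h1 p hp) ?_).mul (ST.of_isUnit v.isUnit)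
  exact (Multiset.dvd_prod hp).trans ⟨v, hv.symm⟩

end single

variable {𝒰 : Ultrafilter ℕ} {k F : Type} [Field k] [IsAlgClosed k] [CharZero k]
  [Field F] [Algebra k F] [IsFF k F]

theorem powForm_ff (Δ : Dt 𝒰 k F (fun _ : ℕ => F)) {t : ℕ} (u : Fin t → (UF 𝒰 F)ˣ)
    (hu : Δ.IsU (fun j => (u j : UF 𝒰 F)))
    (hnl : ∀ ν : Fin t → ℤ, ν ≠ 0 → ¬ (∀ ε : ℝ, 0 < ε → ∃ B : ℝ, ∀ᶠ i in (𝒰 : Filter ℕ),
        ((ht k ((∏ j, u j ^ ν j : (UF 𝒰 F)ˣ) : UF 𝒰 F) i : ℤ) : ℝ) ≤
          ε * Hu k (fun j => (u j : UF 𝒰 F)) i + B * Δ.χ i))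
    (m : ℕ) (hm : 1 ≤ m) (β : Fin t → ℤ) (N : ℕ) : ∀ (P : MvPolynomial (Fin t) Δ.E),
    P.totalDegree = N → P ≠ 0 → ∀ (z : UF 𝒰 F),
    z ^ m * ((∏ j, u j ^ β j : (UF 𝒰 F)ˣ) : UF 𝒰 F) = aeval (fun j => (u j : UF 𝒰 F)) P →
    ∃ (s : Fin t →₀ ℕ) (c : Δ.E) (h : MvPolynomial (Fin t) Δ.E), P = monomial s c * h ^ m := by
  induction N using Nat.strong_induction_on with
  | _ N ih =>
  intro P hN hP z hz
  by_cases hST : ST P
  · obtain ⟨s, c, rfl⟩ := hST
    exact ⟨s, c, 1, by rw [one_pow, mul_one]⟩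
  have hex : ∃ p, Irreducible p ∧ p ∣ P ∧ ¬ ST p := by
    by_contra hcon
    push Not at hcon
    exact hST (ST.of_factors hP hcon)
  obtain ⟨p, hp, hpP, hpST⟩ := hex
  obtain ⟨e, g, hpg, hPg⟩ := WfDvdMonoid.max_power_factor hP hp
  have hg : g ≠ 0 := by
    rintro rfl
    exact hpg (dvd_zero p)
  have he : 1 ≤ e := by
    by_contra h
    have h0 : e = 0 := by omega
    rw [h0, pow_zero, one_mul] at hPg
    exact hpg (hPg ▸ hpP)
  have hss : ∃ s ∈ p.support, ∃ s' ∈ p.support, s ≠ s' := by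
    by_contra hcon
    push Not at hcon
    exact hpST (ST.of_support hcon)
  obtain ⟨s, hs, s', hs', hss'⟩ := hss
  by_cases hem : e < m
  · exact (ram_ff Δ u hu hnl p g hp hg hpg e m he hem z β (by rw [hz, hPg]) s s' hs hs' hss').elim
  -- remove the factor
  have hA : aeval (fun j => (u j : UF 𝒰 F)) p ≠ 0 := by
    intro h
    exact hp.ne_zero (hu.2 (by rw [h, map_zero]))
  have hPm : P = p ^ m * (p ^ (e - m) * g) := by
    rw [hPg, ← mul_assoc, ← pow_add]
    congr 2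
    omega
  have hP' : p ^ (e - m) * g ≠ 0 := mul_ne_zero (pow_ne_zero _ hp.ne_zero) hg
  have hdeg : (p ^ (e - m) * g).totalDegree < N := by
    have h1 : P.totalDegree = (p ^ m).totalDegree + (p ^ (e - m) * g).totalDegree := by
      conv_lhs => rw [hPm]
      exact totalDegree_mul_of_isDomain (pow_ne_zero _ hp.ne_zero) hP'
    have h2 : 0 < (p ^ m).totalDegree := by
      rw [Nat.pos_iff_ne_zero]
      intro h3
      have h4 : IsUnit (p ^ m) := by
        rw [totalDegree_eq_zero_iff_eq_C] at h3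
        rw [h3]
        refine (IsUnit.mk0 _ ?_).map C
        intro h5
        rw [h5, C_0] at h3
        exact pow_ne_zero _ hp.ne_zero h3
      exact hp.not_isUnit ((isUnit_pow_iff (by omega)).1 h4)
    omega
  obtain ⟨s1, c, h, hPh⟩ := ih _ hdeg (p ^ (e - m) * g) rfl hP'
    (z / aeval (fun j => (u j : UF 𝒰 F)) p) (by
      rw [hPm, map_mul, map_pow] at hz
      have h1 := pow_ne_zero m hA
      rw [div_pow, div_mul_eq_mul_div, hz]
      field_simp)
  refine ⟨s1, c, p * h, ?_⟩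
  conv_lhs => rw [hPm]
  rw [hPh, mul_pow]
  ring

end Pool.Agent.H434.Fun
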