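import Mathlib
import Pool.Agent.H434.F3

/-!
Curves through the points, from powers up to monomials.
-/

set_option autoImplicit false
set_option linter.unusedSectionVars false
set_option linter.unusedVariables false

namespace Pool.Agent.H434.Fun

open FF Filter MvPolynomial Pool.Agent.W603.LV Pool.Agent.W603.PV Pool.Agent.W603.CZ
open Pool.Agent.Y731.FG Pool.Agent.Y664.FG

open scoped LaurentPolynomial

/-- the value at `T = 1` -/
noncomputable def ev1 {K : Type} [CommRing K] : K[T;T⁻¹] →+* K :=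
  LaurentPolynomial.eval₂ (RingHom.id K) 1

theorem ev1_C {K : Type} [CommRing K] (c : K) : ev1 (LaurentPolynomial.C c) = c := by
  unfold ev1
  rw [LaurentPolynomial.eval₂_C]
  rfl

theorem ev1_T {K : Type} [CommRing K] (n : ℤ) : ev1 (LaurentPolynomial.T n : K[T;T⁻¹]) = 1 := by
  unfold ev1
  rw [LaurentPolynomial.eval₂_T, one_zpow]
  rfl

/-- a nonconstant map from the multiplicative group, given by monomials in the first coordinates,
through the point `(x, z)` of `z j ^ m j = f j (x)` -/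
def Cv {R K : Type} [CommRing R] [CommRing K] [Algebra R K] {n q : ℕ}
    (f : Fin q → MvPolynomial (Fin n) R) (m : Fin q → ℕ) (x : Fin n → K) (z : Fin q → K) : Prop :=
  ∃ (a : Fin n → ℤ) (Z : Fin q → K[T;T⁻¹]), a ≠ 0 ∧
    (∀ j, Z j ^ m j = eval₂ (LaurentPolynomial.C.comp (algebraMap R K))
      (fun l => LaurentPolynomial.C (x l) * LaurentPolynomial.T (a l)) (f j)) ∧
    ∀ j, ev1 (Z j) = z j

section abs

variable {E K : Type} [Field E] [Field K] [Algebra E K] {t n q : ℕ}

/-- the unit `T ^ n` -/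
noncomputable def uT (n : ℤ) : (K[T;T⁻¹])ˣ where
  val := LaurentPolynomial.T n
  inv := LaurentPolynomial.T (-n)
  val_inv := by rw [← LaurentPolynomial.T_add, add_neg_cancel, LaurentPolynomial.T_zero]
  inv_val := by rw [← LaurentPolynomial.T_add, neg_add_cancel, LaurentPolynomial.T_zero]

theorem uT_zpow (n : ℤ) (b : ℤ) : (uT n : (K[T;T⁻¹])ˣ) ^ b = uT (n * b) := by
  have h1 : ∀ b : ℕ, (uT n : (K[T;T⁻¹])ˣ) ^ b = uT (n * b) := by
    intro b
    apply Units.ext
    rw [Units.val_pow_eq_pow_val]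
    show (LaurentPolynomial.T n : K[T;T⁻¹]) ^ b = LaurentPolynomial.T (n * b)
    rw [LaurentPolynomial.T_pow, mul_comm]
  have h2 : ∀ c : ℤ, (uT c : (K[T;T⁻¹])ˣ)⁻¹ = uT (-c) := by
    intro c
    rw [inv_eq_iff_mul_eq_one]
    apply Units.ext
    show (LaurentPolynomial.T c : K[T;T⁻¹]) * LaurentPolynomial.T (-c) = 1
    rw [← LaurentPolynomial.T_add, add_neg_cancel, LaurentPolynomial.T_zero]
  cases b with
  | ofNat b => exact h1 b
  | negSucc b =>
    rw [zpow_negSucc, h1, h2]
    congr 1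
    rw [Int.negSucc_eq]
    push_cast
    ring

/-- **Curves.** -/
theorem curve_abs (f : Fin q → MvPolynomial (Fin n) E) (m : Fin q → ℕ) (hm : ∀ j, 1 ≤ m j)
    (u : Fin t → Kˣ) (α : Fin n → E) (M : Fin n → Fin t → ℤ) (x : Fin n → K)
    (hx : ∀ l, x l = algebraMap E K (α l) * ((∏ j, u j ^ M l j : Kˣ) : K)) (z : Fin q → K)
    (hz : ∀ j, z j ^ m j = aeval x (f j)) (hu : AlgebraicIndependent E (fun j => (u j : K)))
    (j0 : Fin t) (hj0 : ∃ l, M l j0 ≠ 0)
    (κ : Fin q → Fin t → ℕ) (hκ : ∀ j, GoodShift (κ j) M (f j))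
    (hP : ∀ j, ∃ (s : Fin t →₀ ℕ) (c : E) (h : MvPolynomial (Fin t) E),
      PP (κ j) M α (f j) = monomial s c * h ^ m j) : Cv f m x z := by
  classical
  obtain ⟨N, hN, hmN⟩ : ∃ N : ℕ, 1 ≤ N ∧ ∀ j, m j ∣ N :=
    ⟨∏ j, m j, Finset.one_le_prod' fun j _ => hm j, fun j =>
      Finset.dvd_prod_of_mem m (Finset.mem_univ j)⟩
  let CC : K →+* K[T;T⁻¹] := LaurentPolynomial.C
  let uh : Fin t → (K[T;T⁻¹])ˣ := fun j =>
    Units.map (CC : K →* K[T;T⁻¹]) (u j) * uT (if j = j0 then (N : ℤ) else 0)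
  have hprod : ∀ b : Fin t → ℤ, (∏ j, uh j ^ b j) =
      Units.map (CC : K →* K[T;T⁻¹]) (∏ j, u j ^ b j) * uT (N * b j0) := by
    intro b
    simp only [uh, mul_zpow, Finset.prod_mul_distrib]
    congr 1
    · rw [map_prod]
      exact Finset.prod_congr rfl fun j _ => (map_zpow _ _ _).symm
    · rw [Finset.prod_eq_single j0]
      · rw [if_pos rfl, uT_zpow]
      · intro j _ hj
        rw [if_neg hj, uT_zpow, zero_mul]
        apply Units.ext
        exact LaurentPolynomial.T_zero
      · intro h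
        exact absurd (Finset.mem_univ _) h
  -- the evaluation at `T = 1`
  have hev : ∀ j, ev1 ((uh j : (K[T;T⁻¹])ˣ) : K[T;T⁻¹]) = u j := by
    intro j
    show ev1 (LaurentPolynomial.C (u j : K) * LaurentPolynomial.T _) = _
    rw [map_mul, ev1_C, ev1_T, mul_one]
  have halg : ∀ c : E, algebraMap E K[T;T⁻¹] c = CC (algebraMap E K c) := by
    intro c
    rfl
  have hevp : ∀ P : MvPolynomial (Fin t) E,
      ev1 (aeval (fun j => ((uh j : (K[T;T⁻¹])ˣ) : K[T;T⁻¹])) P) =
        aeval (fun j => (u j : K)) P := by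
    intro P
    rw [aeval_def, aeval_def, hom_eval₂]
    congr 1
    · ext c
      show ev1 (algebraMap E K[T;T⁻¹] c) = _
      rw [halg]
      exact ev1_C _
    · funext j
      exact hev j
  refine ⟨fun l => N * M l j0, ?_⟩
  -- the values at the new point
  let xh : Fin n → K[T;T⁻¹] := fun l => LaurentPolynomial.C (x l) *
    LaurentPolynomial.T (N * M l j0)
  have hxh : ∀ l, xh l = algebraMap E K[T;T⁻¹] (α l) *
      ((∏ j, uh j ^ (((1 : ℕ) : ℤ) * M l j) : (K[T;T⁻¹])ˣ) : K[T;T⁻¹]) := by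
    intro l
    have h1 : (∏ j, uh j ^ (((1 : ℕ) : ℤ) * M l j)) = ∏ j, uh j ^ M l j :=
      Finset.prod_congr rfl fun j _ => by rw [Nat.cast_one, one_mul]
    rw [h1, hprod, Units.val_mul, halg, ← mul_assoc]
    show CC (x l) * _ = CC _ * CC _ * _
    rw [hx l, map_mul]
    rfl
  have hZ : ∀ j, ∃ Z : K[T;T⁻¹], Z ^ m j = aeval xh (f j) ∧ ev1 Z = z j := by
    intro j
    have e1 := mon_zpow uh 1 (κ j) M α (f j) (hκ j) xh hxh
    have e2 := mon_zpow u 1 (κ j) M α (f j) (hκ j) x (fun l => by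
      rw [hx l]
      congr 2
      exact Finset.prod_congr rfl fun j _ => by rw [Nat.cast_one, one_mul])
    simp only [pow_one, one_mul] at e1 e2
    obtain ⟨s, c, h, hPh⟩ := hP j
    rw [hPh] at e1 e2
    by_cases hA : aeval (fun j => (u j : K)) h = 0
    · have h0 : h = 0 := hu (by rw [hA, map_zero])
      have hm0 : m j ≠ 0 := by
        have := hm j
        omega
      rw [h0, zero_pow hm0, mul_zero, map_zero] at e1 e2
      refine ⟨0, ?_, ?_⟩
      · rw [zero_pow hm0]
        exact ((Units.mul_right_eq_zero _).1 e1).symm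
      · rw [map_zero]
        have h3 := (Units.mul_right_eq_zero _).1 e2
        rw [← hz j] at h3
        exact (pow_eq_zero_iff hm0).1 h3 |>.symm
    · obtain ⟨N', hN'⟩ := hmN j
      rw [map_mul, map_pow, aeval_monomial, Finsupp.prod_fintype _ _ (fun _ => pow_zero _)] at e1 e2
      rw [← hz j] at e2
      let A : K[T;T⁻¹] := aeval (fun j => ((uh j : (K[T;T⁻¹])ˣ) : K[T;T⁻¹])) h
      refine ⟨CC (z j / aeval (fun j => (u j : K)) h) *
        LaurentPolynomial.T (N' * ((s j0 : ℤ) - κ j j0)) * A, ?_, ?_⟩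
      · have hs : ∏ j, ((uh j : (K[T;T⁻¹])ˣ) : K[T;T⁻¹]) ^ s j =
            CC (∏ j, (u j : K) ^ s j) * LaurentPolynomial.T (N * s j0) := by
          have h1 := hprod fun j => (s j : ℤ)
          have h2 := congrArg (fun v : (K[T;T⁻¹])ˣ => (v : K[T;T⁻¹])) h1
          simp only [zpow_natCast] at h2
          rw [Units.coe_prod, Units.val_mul] at h2
          simp only [Units.val_pow_eq_pow_val] at h2
          rw [h2]
          congr 1
          show CC ((∏ j, u j ^ s j : Kˣ) : K) = _
          rw [Units.coe_prod]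
          simp only [Units.val_pow_eq_pow_val]
        have hk : ((∏ l, uh l ^ κ j l : (K[T;T⁻¹])ˣ) : K[T;T⁻¹]) =
            CC (((∏ l, u l ^ κ j l : Kˣ) : K)) * LaurentPolynomial.T (N * κ j j0) := by
          have h1 := hprod fun l => (κ j l : ℤ)
          have h2 := congrArg (fun v : (K[T;T⁻¹])ˣ => (v : K[T;T⁻¹])) h1
          simp only [zpow_natCast] at h2
          exact h2
        rw [hs, hk] at e1
        have hk0 : ((∏ l, u l ^ κ j l : Kˣ) : K) ≠ 0 := Units.ne_zero _
        have hTk : IsUnit (CC (((∏ l, u l ^ κ j l : Kˣ) : K)) *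
            (LaurentPolynomial.T (N * κ j j0) : K[T;T⁻¹])) :=
          ((IsUnit.mk0 _ hk0).map CC).mul (LaurentPolynomial.isUnit_T _)
        apply hTk.mul_left_cancel
        rw [e1, mul_pow, mul_pow, ← map_pow, div_pow, LaurentPolynomial.T_pow]
        have e3 : z j ^ m j / aeval (fun j => (u j : K)) h ^ m j *
            ((∏ l, u l ^ κ j l : Kˣ) : K) = algebraMap E K c * ∏ j, (u j : K) ^ s j := by
          have h4 := pow_ne_zero (m j) hA
          rw [div_mul_eq_mul_div, mul_comm (z j ^ m j), e2]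
          field_simp
        have e4 : (LaurentPolynomial.T (N * κ j j0) : K[T;T⁻¹]) *
            LaurentPolynomial.T ((m j : ℤ) * (N' * ((s j0 : ℤ) - κ j j0))) =
            LaurentPolynomial.T (N * s j0) := by
          rw [← LaurentPolynomial.T_add]
          congr 1
          have h5 : (N : ℤ) = m j * N' := by exact_mod_cast hN'
          rw [h5]
          ring
        have e5 : algebraMap E K[T;T⁻¹] c * CC (∏ j, (u j : K) ^ s j) =
            CC (z j ^ m j / aeval (fun j => (u j : K)) h ^ m j) *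
              CC (((∏ l, u l ^ κ j l : Kˣ) : K)) := by
          rw [halg, ← map_mul, ← map_mul, e3]
        calc CC (((∏ l, u l ^ κ j l : Kˣ) : K)) * LaurentPolynomial.T (N * κ j j0) *
            (CC (z j ^ m j / aeval (fun j => (u j : K)) h ^ m j) *
              LaurentPolynomial.T ((m j : ℤ) * (N' * ((s j0 : ℤ) - κ j j0))) * A ^ m j)
            = (CC (z j ^ m j / aeval (fun j => (u j : K)) h ^ m j) *
              CC (((∏ l, u l ^ κ j l : Kˣ) : K))) * (LaurentPolynomial.T (N * κ j j0) *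
              LaurentPolynomial.T ((m j : ℤ) * (N' * ((s j0 : ℤ) - κ j j0)))) * A ^ m j := by ring
          _ = algebraMap E K[T;T⁻¹] c * (CC (∏ j, (u j : K) ^ s j) *
              LaurentPolynomial.T (N * s j0)) * A ^ m j := by
            rw [e4, ← e5]
            ring
      · rw [map_mul, map_mul, ev1_C, ev1_T, hevp, mul_one, div_mul_cancel₀ _ hA]
  choose Z hZ1 hZ2 using hZ
  refine ⟨Z, ?_, ?_, hZ2⟩
  · obtain ⟨l, hl⟩ := hj0
    intro h
    have h1 := congrFun h l
    simp only [Pi.zero_apply, mul_eq_zero] at h1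
    rcases h1 with h1 | h1
    · have : N = 0 := by exact_mod_cast h1
      omega
    · exact hl h1
  · intro j
    rw [hZ1 j]
    rfl

end abs

end Pool.Agent.H434.Fun
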