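import Mathlib
import Pool.Agent.H434.F4

/-!
Solutions of `z j ^ m j = f j (x)` in units outside a finite set of places of a function field:
differences by constants, or curves.
-/

set_option autoImplicit false
set_option linter.unusedSectionVars false
set_option linter.unusedVariables false

namespace Pool.Agent.H434.Fun

open FF Filter MvPolynomial Pool.Agent.W603.LV Pool.Agent.W603.PV Pool.Agent.W603.CZ
open Pool.Agent.Y731.FG Pool.Agent.Y664.FG

open scoped LaurentPolynomial

section laurent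

variable {R S : Type} [CommRing R] [CommRing S]

/-- the image of a Laurent polynomial -/
noncomputable def mT (φ : R →+* S) : R[T;T⁻¹] →+* S[T;T⁻¹] := AddMonoidAlgebra.mapRingHom ℤ φ

theorem mT_C (φ : R →+* S) (c : R) :
    mT φ (LaurentPolynomial.C c) = LaurentPolynomial.C (φ c) := by
  unfold mT
  rw [← LaurentPolynomial.single_eq_C, AddMonoidAlgebra.mapRingHom_single,
    LaurentPolynomial.single_eq_C]

theorem mT_T (φ : R →+* S) (n : ℤ) :
    mT φ (LaurentPolynomial.T n) = LaurentPolynomial.T n := by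
  unfold mT LaurentPolynomial.T
  rw [AddMonoidAlgebra.mapRingHom_single, map_one]

theorem mT_coeff (φ : R →+* S) (w : R[T;T⁻¹]) (n : ℤ) : (mT φ w).coeff n = φ (w.coeff n) :=
  AddMonoidAlgebra.coeff_mapRingHom φ w n

theorem ev1_mT (φ : R →+* S) (w : R[T;T⁻¹]) : ev1 (mT φ w) = φ (ev1 w) := by
  induction w using LaurentPolynomial.induction_on' with
  | add p q hp hq => rw [map_add, map_add, map_add, map_add, hp, hq]
  | C_mul_T n a => rw [map_mul, map_mul, map_mul, map_mul, mT_C, mT_T, ev1_C, ev1_C, ev1_T, ev1_T,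
      map_one]

end laurent

theorem Cv.map {R K K' : Type} [CommRing R] [CommRing K] [CommRing K'] [Algebra R K]
    [Algebra R K'] (φ : K →ₐ[R] K') {n q : ℕ} {f : Fin q → MvPolynomial (Fin n) R} {m : Fin q → ℕ}
    {x : Fin n → K} {z : Fin q → K} (h : Cv f m x z) :
    Cv f m (fun l => φ (x l)) (fun j => φ (z j)) := by
  obtain ⟨a, Z, h1, h2, h3⟩ := h
  refine ⟨a, fun j => mT (φ : K →+* K') (Z j), h1, fun j => ?_, fun j => ?_⟩
  · rw [← map_pow, h2 j, hom_eval₂]
    congr 1
    · refine RingHom.ext fun c => ?_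
      show mT (φ : K →+* K') (LaurentPolynomial.C (algebraMap R K c)) =
        LaurentPolynomial.C (algebraMap R K' c)
      rw [mT_C]
      congr 1
      exact φ.commutes c
    · funext l
      show mT (φ : K →+* K') (LaurentPolynomial.C (x l) * LaurentPolynomial.T (a l)) = _
      rw [map_mul, mT_C, mT_T]
      rfl
  · rw [ev1_mT, h3 j]
    rfl

theorem Cv.of_map {R R' K : Type} [CommRing R] [CommRing R'] [CommRing K] [Algebra R K]
    [Algebra R' K] [Algebra R R'] [IsScalarTower R R' K] {n q : ℕ}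
    {f : Fin q → MvPolynomial (Fin n) R} {m : Fin q → ℕ}
    {x : Fin n → K} {z : Fin q → K}
    (h : Cv (fun j => MvPolynomial.map (algebraMap R R') (f j)) m x z) : Cv f m x z := by
  obtain ⟨a, Z, h1, h2, h3⟩ := h
  refine ⟨a, Z, h1, fun j => ?_, h3⟩
  rw [h2 j, eval₂_map]
  congr 1
  refine RingHom.ext fun c => ?_
  show LaurentPolynomial.C (algebraMap R' K (algebraMap R R' c)) = _
  rw [← IsScalarTower.algebraMap_apply]
  rfl

theorem Cv.to_map {R R' K : Type} [CommRing R] [CommRing R'] [CommRing K] [Algebra R K]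
    [Algebra R' K] [Algebra R R'] [IsScalarTower R R' K] {n q : ℕ}
    {f : Fin q → MvPolynomial (Fin n) R} {m : Fin q → ℕ}
    {x : Fin n → K} {z : Fin q → K} (h : Cv f m x z) :
    Cv (fun j => MvPolynomial.map (algebraMap R R') (f j)) m x z := by
  obtain ⟨a, Z, h1, h2, h3⟩ := h
  refine ⟨a, Z, h1, fun j => ?_, h3⟩
  rw [h2 j, eval₂_map]
  congr 1
  refine RingHom.ext fun c => ?_
  show _ = LaurentPolynomial.C (algebraMap R' K (algebraMap R R' c))
  rw [← IsScalarTower.algebraMap_apply]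
  rfl

variable {𝒰 : Ultrafilter ℕ} {k F : Type} [Field k] [IsAlgClosed k] [CharZero k]
  [Field F] [Algebra k F] [IsFF k F]

omit [IsAlgClosed k] [CharZero k] [Algebra k F] [IsFF k F] [Field k] in
theorem Cv_transfer {n q : ℕ} (f : Fin q → MvPolynomial (Fin n) F) (m : Fin q → ℕ)
    (x : Fin n → ℕ → F) (z : Fin q → ℕ → F)
    (h : Cv (R := F) (K := UF 𝒰 F) f m (fun l => um 𝒰 (L := fun _ : ℕ => F) (x l))
      (fun j => um 𝒰 (L := fun _ : ℕ => F) (z j))) :
    ∀ᶠ i in (𝒰 : Filter ℕ), Cv (R := F) (K := F) f m (fun l => x l i) (fun j => z j i) := by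
  classical
  obtain ⟨a, Z, h1, h2, h3⟩ := h
  let φ : (ℕ → F) →+* UF 𝒰 F := Ideal.Quotient.mk (ui 𝒰 fun _ : ℕ => F)
  have hφ : Function.Surjective φ := Ideal.Quotient.mk_surjective
  have hφ0 : ∀ y : ℕ → F, φ y = 0 → ∀ᶠ i in (𝒰 : Filter ℕ), y i = 0 := fun y hy =>
    (um_zero_iff (𝒰 := 𝒰) (L := fun _ : ℕ => F)).1 hy
  let π : ℕ → (ℕ → F) →+* F := fun i => Pi.evalRingHom (fun _ : ℕ => F) i
  -- vanishing
  have key : ∀ w : (ℕ → F)[T;T⁻¹], mT φ w = 0 → ∀ᶠ i in (𝒰 : Filter ℕ), mT (π i) w = 0 := by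
    intro w hw
    have h4 : ∀ᶠ i in (𝒰 : Filter ℕ), ∀ n ∈ w.coeff.support, w.coeff n i = 0 := by
      refine (eventually_all_finset _).2 fun n _ => hφ0 _ ?_
      rw [← mT_coeff, hw]
      rfl
    filter_upwards [h4] with i h5
    refine LaurentPolynomial.ext fun n => ?_
    rw [mT_coeff]
    by_cases hn : n ∈ w.coeff.support
    · exact h5 n hn
    · rw [Finsupp.notMem_support_iff.1 hn, map_zero]
      rfl
  -- lifts
  have hlift : ∀ W : (UF 𝒰 F)[T;T⁻¹], ∃ w : (ℕ → F)[T;T⁻¹], mT φ w = W := by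
    intro W
    induction W using LaurentPolynomial.induction_on' with
    | add p q hp hq =>
      obtain ⟨p', hp'⟩ := hp
      obtain ⟨q', hq'⟩ := hq
      exact ⟨p' + q', by rw [map_add, hp', hq']⟩
    | C_mul_T n c =>
      obtain ⟨c', hc'⟩ := hφ c
      exact ⟨LaurentPolynomial.C c' * LaurentPolynomial.T n, by
        rw [map_mul, mT_C, mT_T, hc']⟩
  choose w hw using fun j => hlift (Z j)
  have e1 : ∀ᶠ i in (𝒰 : Filter ℕ), ∀ j, mT (π i) (w j ^ m j - eval₂
      (LaurentPolynomial.C.comp (algebraMap F (ℕ → F)))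
      (fun l => LaurentPolynomial.C (x l) * LaurentPolynomial.T (a l)) (f j)) = 0 := by
    refine eventually_all.2 fun j => key _ ?_
    rw [map_sub, map_pow, hw j, h2 j, hom_eval₂, sub_eq_zero]
    congr 1
    · refine RingHom.ext fun c => ?_
      show LaurentPolynomial.C (algebraMap F (UF 𝒰 F) c) =
        mT φ (LaurentPolynomial.C (algebraMap F (ℕ → F) c))
      rw [mT_C]
      rfl
    · funext l
      show _ = mT φ (LaurentPolynomial.C (x l) * LaurentPolynomial.T (a l))
      rw [map_mul, mT_C, mT_T]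
      rfl
  have e2 : ∀ᶠ i in (𝒰 : Filter ℕ), ∀ j, ev1 (w j) i - z j i = 0 := by
    refine eventually_all.2 fun j => ?_
    refine hφ0 (ev1 (w j) - z j) ?_
    rw [map_sub, ← ev1_mT, hw j, h3 j, sub_eq_zero]
    rfl
  filter_upwards [e1, e2] with i g1 g2
  refine ⟨a, fun j => mT (π i) (w j), h1, fun j => ?_, fun j => ?_⟩
  · have h4 := g1 j
    rw [map_sub, map_pow, sub_eq_zero, hom_eval₂] at h4
    rw [h4]
    congr 1
    · refine RingHom.ext fun c => ?_
      show mT (π i) (LaurentPolynomial.C (algebraMap F (ℕ → F) c)) = _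
      rw [mT_C]
      rfl
    · funext l
      show mT (π i) (LaurentPolynomial.C (x l) * LaurentPolynomial.T (a l)) = _
      rw [map_mul, mT_C, mT_T]
      rfl
  · rw [ev1_mT]
    exact sub_eq_zero.1 (g2 j)

/-- orders are bounded by the height -/
theorem abs_ord_le {x : F} (P : Place k F) : |P.ord x| ≤ hgt k x := by
  classical
  have h1 : ∀ y : F, -P.ord y ≤ hgt k y := by
    intro y
    obtain ⟨T, hT⟩ := exists_supp (k := k) (Finset.univ : Finset (Fin 1)) fun _ => y
    have h2 : ∀ P' : Place k F, P'.ord y ≠ 0 → P' ∈ insert P T := fun P' hP' =>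
      Finset.mem_insert_of_mem (hT 0 (Finset.mem_univ _) P' hP')
    rw [hgt_finset y _ h2]
    refine (le_max_left (-P.ord y) 0).trans ?_
    exact Finset.single_le_sum (f := fun P : Place k F => max (-P.ord y) 0)
      (fun _ _ => le_max_right _ _) (Finset.mem_insert_self P T)
  have h2 := h1 x
  have h3 := h1 x⁻¹
  rw [P.ord_inv, hgt_inv] at h3
  rw [abs_le]
  constructor <;> omega

/-- **The function field step.** -/
theorem ffstep {n q : ℕ} (f : Fin q → MvPolynomial (Fin n) F) (m : Fin q → ℕ)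
    (hm : ∀ j, 1 ≤ m j) (x : Fin n → ℕ → F) (hx : ∀ l i, x l i ≠ 0) (S : Finset (Place k F))
    (hS : ∀ l i, ∀ P : Place k F, P ∉ S → P.ord (x l i) = 0) (z : Fin q → ℕ → F)
    (hz : ∀ j i, z j i ^ m j = aeval (fun l => x l i) (f j)) :
    (∀ᶠ i in (𝒰 : Filter ℕ), ∀ᶠ i' in (𝒰 : Filter ℕ), ∀ l, ∃ c : k,
      x l i' = algebraMap k F c * x l i) ∨
    ∀ᶠ i in (𝒰 : Filter ℕ), Cv (R := F) (K := F) f m (fun l => x l i) (fun j => z j i) := by
  classical
  by_cases hunb : ∀ B : ℤ, ∀ᶠ i in (𝒰 : Filter ℕ), B < HH k x i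
  · right
    obtain ⟨Δ, t, u, α, M, h1, h2, h3, h4, h5⟩ := exists_scale x hx S hS hunb
    apply Cv_transfer
    let α' : Fin n → Δ.E := fun l => ⟨α l, (h2 l).1⟩
    let fE : Fin q → MvPolynomial (Fin n) Δ.E := fun j =>
      MvPolynomial.map (algebraMap F Δ.E) (f j)
    choose κ hκ using fun j => exists_shift 1 le_rfl M (fE j)
    simp only [one_mul] at hκ
    have hX : ∀ l, um 𝒰 (L := fun _ : ℕ => F) (x l) = algebraMap Δ.E (UF 𝒰 F) (α' l) *
        ((∏ j, u j ^ M l j : (UF 𝒰 F)ˣ) : UF 𝒰 F) := fun l => (h2 l).2.2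
    have hZ : ∀ j, um 𝒰 (L := fun _ : ℕ => F) (z j) ^ m j =
        aeval (fun l => um 𝒰 (L := fun _ : ℕ => F) (x l)) (fE j) := by
      intro j
      have h6 := um_aeval 𝒰 (L := fun _ : ℕ => F) x (f j)
      have h7 : (fun i => aeval (fun l => x l i) (f j)) = fun i => z j i ^ m j :=
        funext fun i => (hz j i).symm
      rw [h7] at h6
      have h8 := um_pow 𝒰 (L := fun _ : ℕ => F) (z j) (m j)
      have h9 : um 𝒰 (L := fun _ : ℕ => F) (fun i => z j i ^ m j) =
          um 𝒰 (L := fun _ : ℕ => F) (z j) ^ m j := h8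
      rw [← h9, h6]
      simp only [fE]
      rw [aeval_map_algebraMap]
    have hc : Cv (R := Δ.E) (K := UF 𝒰 F) fE m (fun l => um 𝒰 (L := fun _ : ℕ => F) (x l))
        (fun j => um 𝒰 (L := fun _ : ℕ => F) (z j)) := by
      refine curve_abs fE m hm u α' M _ hX _ hZ h1.2 ⟨0, h3⟩ (h4 _) κ hκ fun j => ?_
      by_cases h0 : PP (κ j) M α' (fE j) = 0
      · refine ⟨0, 0, 0, ?_⟩
        rw [h0, monomial_zero, zero_mul]
      · have e2 := mon_zpow u 1 (κ j) M α' (fE j) (hκ j)
          (fun l => um 𝒰 (L := fun _ : ℕ => F) (x l)) (fun l => by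
            rw [hX l]
            congr 2
            exact Finset.prod_congr rfl fun j _ => by rw [Nat.cast_one, one_mul])
        simp only [pow_one, one_mul] at e2
        refine powForm_ff Δ u h1 h5 (m j) (hm j) (fun l => (κ j l : ℤ)) _ _ rfl h0
          (um 𝒰 (L := fun _ : ℕ => F) (z j)) ?_
        rw [← e2, hZ j, mul_comm]
        congr 2
    exact Cv.of_map (R' := Δ.E) hc
  · left
    push Not at hunb
    obtain ⟨B, hB⟩ := hunb
    have hB' : ∀ᶠ i in (𝒰 : Filter ℕ), HH k x i ≤ B := hB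
    have hfin : ∀ l : Fin n, ∀ P ∈ S, ∃ v : ℤ, ∀ᶠ i in (𝒰 : Filter ℕ), P.ord (x l i) = v := by
      intro l P _
      have h1 : ∀ᶠ i in (𝒰 : Filter ℕ), ∃ v ∈ Set.Icc (-B) B, P.ord (x l i) = v := by
        filter_upwards [hB'] with i h2
        refine ⟨_, ?_, rfl⟩
        have h3 := abs_ord_le (k := k) (x := x l i) P
        have h4 : hgt k (x l i) ≤ HH k x i :=
          Finset.single_le_sum (f := fun l => hgt k (x l i)) (fun _ _ => hgt_nonneg _)
            (Finset.mem_univ l)
        rw [abs_le] at h3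
        constructor <;> omega
      rw [Ultrafilter.eventually_exists_mem_iff (Set.finite_Icc _ _)] at h1
      obtain ⟨v, -, hv⟩ := h1
      exact ⟨v, hv⟩
    choose! v hv using hfin
    have hall : ∀ᶠ i in (𝒰 : Filter ℕ), ∀ l, ∀ P ∈ S, P.ord (x l i) = v l P :=
      eventually_all.2 fun l => (eventually_all_finset S).2 fun P hP => hv l P hP
    filter_upwards [hall] with i h1
    filter_upwards [hall] with i' h2
    intro l
    have h3 : hgt k (x l i' / x l i) ≤ 0 := by
      unfold hgt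
      refine le_of_eq (finsum_eq_zero_of_forall_eq_zero fun P => ?_)
      have h4 : P.ord (x l i' / x l i) = P.ord (x l i') - P.ord (x l i) := by
        rw [div_eq_mul_inv, P.ord_mul (hx l i') (inv_ne_zero (hx l i)), P.ord_inv]
        ring
      have h5 : P.ord (x l i') = P.ord (x l i) := by
        by_cases hP : P ∈ S
        · rw [h1 l P hP, h2 l P hP]
        · rw [hS l i P hP, hS l i' P hP]
      rw [h4, h5, sub_self, neg_zero, max_self]
    obtain ⟨c, hc⟩ := const_of_hgt h3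
    exact ⟨c, by rw [← hc, div_mul_cancel₀ _ (hx l i)]⟩

end Pool.Agent.H434.Fun
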