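import Mathlib
import Pool.Graph.R_seed8.W603.LV.Wr
import Pool.Graph.R_seed8.W603.LV.Hgt

/-!
Values of a polynomial over a function field at generic constants which are powers.
-/

set_option autoImplicit false
set_option linter.unusedSectionVars false
set_option linter.unusedVariables false

namespace Pool.Agent.H434.Fun

open FF Filter MvPolynomial Pool.Agent.W603.LV

section cw

variable {F F' : Type} [Field F] [Field F'] {r : ℕ}

/-- a map applied to the coefficients -/
noncomputable def cw (φ : F → F') (P : MvPolynomial (Fin r) F) : MvPolynomial (Fin r) F' :=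
  ∑ s ∈ P.support, monomial s (φ (coeff s P))

theorem coeff_cw (φ : F → F') (h0 : φ 0 = 0) (P : MvPolynomial (Fin r) F) (s : Fin r →₀ ℕ) :
    coeff s (cw φ P) = φ (coeff s P) := by
  classical
  unfold cw
  rw [coeff_sum]
  simp only [coeff_monomial]
  rw [Finset.sum_ite_eq' P.support s (fun b => φ (coeff b P))]
  split_ifs with h
  · rfl
  · rw [notMem_support_iff.1 h, h0]

theorem eval_cw (φ : F → F') (P : MvPolynomial (Fin r) F) (c : Fin r → F') :
    eval c (cw φ P) = ∑ s ∈ P.support, φ (coeff s P) * ∏ l, c l ^ s l := by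
  unfold cw
  rw [map_sum]
  refine Finset.sum_congr rfl fun s _ => ?_
  rw [eval_monomial, Finsupp.prod_fintype _ _ (fun _ => pow_zero _)]

end cw

variable {k F : Type} [Field k] [IsAlgClosed k] [CharZero k] [Field F] [Algebra k F] [IsFF k F]
  {r : ℕ}

/-- evaluation at constants -/
noncomputable def ec (F : Type) [Field F] [Algebra k F] {r : ℕ} (γ : Fin r → k)
    (P : MvPolynomial (Fin r) F) : F := eval (fun l => algebraMap k F (γ l)) P

omit [IsAlgClosed k] [CharZero k] [IsFF k F] in
theorem ec_eq (γ : Fin r → k) (P : MvPolynomial (Fin r) F) :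
    ec F γ P = ∑ s ∈ P.support, coeff s P * algebraMap k F (∏ l, γ l ^ s l) := by
  unfold ec
  rw [eval_eq']
  refine Finset.sum_congr rfl fun s _ => ?_
  rw [map_prod]
  simp only [map_pow]

omit [IsAlgClosed k] [CharZero k] [IsFF k F] in
theorem ec_map (γ : Fin r → k) (P : MvPolynomial (Fin r) k) :
    ec F γ (MvPolynomial.map (algebraMap k F) P) = algebraMap k F (eval γ P) := by
  unfold ec
  rw [eval_map, ← eval₂_id, hom_eval₂, RingHom.comp_id]

omit [IsAlgClosed k] [CharZero k] [IsFF k F] in
theorem der_ec (D : Derivation k F F) (γ : Fin r → k) (P : MvPolynomial (Fin r) F) :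
    D (ec F γ P) = ec F γ (cw D P) := by
  rw [ec_eq, map_sum]
  unfold ec
  rw [eval_cw]
  refine Finset.sum_congr rfl fun s _ => ?_
  rw [D.leibniz, D.map_algebraMap, smul_zero, zero_add, smul_eq_mul, map_prod, mul_comm]
  simp only [map_pow]

omit [IsAlgClosed k] [CharZero k] [IsFF k F] in
theorem lin_ec (φ : F →ₗ[k] k) (γ : Fin r → k) (P : MvPolynomial (Fin r) F) :
    φ (ec F γ P) = eval γ (cw φ P) := by
  rw [ec_eq, map_sum, eval_cw]
  refine Finset.sum_congr rfl fun s _ => ?_
  rw [mul_comm, ← Algebra.smul_def, map_smul, smul_eq_mul, mul_comm]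

/-- higher derivatives of the root -/
theorem exists_R (D : Derivation k F F) (Q : MvPolynomial (Fin r) F) (m : ℕ) (hm : 1 ≤ m)
    (n : ℕ) : ∃ R : MvPolynomial (Fin r) F, ∀ (γ : Fin r → k) (z : F), z ^ m = ec F γ Q →
      ec F γ Q ≠ 0 → (⇑D)^[n] z * ec F γ Q ^ n = ec F γ R * z := by
  have hF : CharZero F := charZero_of_injective_algebraMap (algebraMap k F).injective
  have hm0 : (m : F) ≠ 0 := Nat.cast_ne_zero.2 (by omega)
  induction n with
  | zero =>
    refine ⟨1, fun γ z _ _ => ?_⟩
    unfold ec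
    simp
  | succ n ih =>
    obtain ⟨R, hR⟩ := ih
    refine ⟨Q * cw D R + C ((1 : F) / m - n) * R * cw D Q, fun γ z hz h0 => ?_⟩
    have h1 := hR γ z hz h0
    have h2 := congrArg D h1
    rw [D.leibniz, D.leibniz, der_ec, D.leibniz_pow, der_ec] at h2
    have hz0 : z ≠ 0 := by
      intro h
      rw [h, zero_pow (by omega)] at hz
      exact h0 hz.symm
    have h3 : D z * (m * ec F γ Q) = ec F γ (cw D Q) * z := by
      have h4 := congrArg D hz
      rw [D.leibniz_pow, der_ec] at h4
      simp only [smul_eq_mul, nsmul_eq_mul] at h4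
      rw [← h4, ← hz]
      have h5 : z ^ m = z ^ (m - 1) * z := by
        rw [← pow_succ]
        congr 1
        omega
      rw [h5]
      ring
    rw [Function.iterate_succ_apply']
    have e1 : ec F γ (Q * cw D R + C ((1 : F) / m - n) * R * cw D Q) =
        ec F γ Q * ec F γ (cw D R) + ((1 : F) / m - n) * ec F γ R * ec F γ (cw D Q) := by
      unfold ec
      simp only [map_add, map_mul, eval_C]
    rw [e1]
    simp only [smul_eq_mul, nsmul_eq_mul] at h2
    have h6 : (n : F) * (ec F γ Q ^ (n - 1) * ec F γ (cw D Q)) * ec F γ Q =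
        n * ec F γ Q ^ n * ec F γ (cw D Q) := by
      rcases Nat.eq_zero_or_pos n with h | h
      · rw [h]
        simp
      · have h5 : ec F γ Q ^ n = ec F γ Q ^ (n - 1) * ec F γ Q := by
          rw [← pow_succ]
          congr 1
          omega
        rw [h5]
        ring
    set y := (⇑D)^[n] z
    set a := ec F γ Q
    set a' := ec F γ (cw D Q)
    set R' := ec F γ (cw D R)
    set Rv := ec F γ R
    have h7 : D z * a = a' * z / m := by
      rw [eq_div_iff hm0]
      linear_combination h3
    have h8 : a ^ n * D y * a = (Rv * D z + z * R') * a - y * (n * (a ^ (n - 1) * a')) * a := by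
      linear_combination a * h2
    calc D y * a ^ (n + 1) = a ^ n * D y * a := by ring
      _ = Rv * (D z * a) + z * R' * a - y * (n * (a ^ (n - 1) * a') * a) := by
        rw [h8]
        ring
      _ = Rv * (a' * z / m) + z * R' * a - n * (y * a ^ n) * a' := by
        rw [h7, h6]
        ring
      _ = (a * R' + (1 / m - n) * Rv * a') * z := by
        rw [h1]
        ring

/-- **Constant families.** If the values of `Q` at generic constants are `m`-th powers then `Q` is the
product of a polynomial with constant coefficients and an `m`-th power. -/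
theorem const_family {𝒰 : Ultrafilter ℕ} (Q : MvPolynomial (Fin r) F) (hQ : Q ≠ 0) (m : ℕ)
    (hm : 1 ≤ m) (γ : ℕ → Fin r → k)
    (hgen : ∀ P : MvPolynomial (Fin r) F, P ≠ 0 → ∀ᶠ i in (𝒰 : Filter ℕ), ec F (γ i) P ≠ 0)
    (z : ℕ → F) (hz : ∀ᶠ i in (𝒰 : Filter ℕ), z i ^ m = ec F (γ i) Q) :
    ∃ (q : MvPolynomial (Fin r) k) (A B : MvPolynomial (Fin r) F), B ≠ 0 ∧
      B ^ m * Q = MvPolynomial.map (algebraMap k F) q * A ^ m := by
  classical
  have hgen' : ∀ P : MvPolynomial (Fin r) F, (∀ᶠ i in (𝒰 : Filter ℕ), ec F (γ i) P = 0) →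
      P = 0 := by
    intro P hP
    by_contra h
    obtain ⟨i, h1, h2⟩ := (hP.and (hgen P h)).exists
    exact h2 h1
  -- the space which contains the roots
  obtain ⟨T0, hT0⟩ := exists_supp (k := k) Q.support (fun s => coeff s Q)
  let Dv : Place k F →₀ ℤ := Finsupp.onFinset T0
    (fun P => if P ∈ T0 then ∑ s ∈ Q.support, |P.ord (coeff s Q)| else 0) (by
      intro P hP
      by_contra h
      exact hP (if_neg h))
  have hDv : ∀ P : Place k F, ∑ s ∈ Q.support, |P.ord (coeff s Q)| = Dv P := by
    intro P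
    show _ = if P ∈ T0 then ∑ s ∈ Q.support, |P.ord (coeff s Q)| else 0
    split_ifs with h
    · rfl
    · refine Finset.sum_eq_zero fun s hs => ?_
      have : P.ord (coeff s Q) = 0 := by
        by_contra h2
        exact h (hT0 s hs P h2)
      rw [this, abs_zero]
  have hDv0 : ∀ P : Place k F, 0 ≤ Dv P := fun P => by
    rw [← hDv]
    exact Finset.sum_nonneg fun _ _ => abs_nonneg _
  have hval : ∀ (γ : Fin r → k) (P : Place k F), Ge P (-Dv P) (ec F γ Q) := by
    intro γ P
    rw [ec_eq]
    refine Ge.sum _ _ fun s hs => ?_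
    have h1 : Ge P (-Dv P) (coeff s Q) := by
      right
      have h2 : |P.ord (coeff s Q)| ≤ Dv P := by
        rw [← hDv]
        exact Finset.single_le_sum (f := fun s => |P.ord (coeff s Q)|)
          (fun _ _ => abs_nonneg _) hs
      have := neg_abs_le (P.ord (coeff s Q))
      linarith
    have h3 := h1.mul (Ge.const (P := P) (∏ l, γ l ^ s l))
    rwa [add_zero] at h3
  have hzL : ∀ i, z i ^ m = ec F (γ i) Q → z i ∈ LL Dv := by
    intro i hi
    rw [mem_LL]
    by_cases h0 : z i = 0
    · exact Or.inl h0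
    · right
      intro P
      have h1 := (hval (γ i) P).resolve_left (by
        rw [← hi]
        exact pow_ne_zero _ h0)
      rw [← hi, P.ord_pow] at h1
      by_contra hcon
      push Not at hcon
      have h2 : (1 : ℤ) ≤ m := by exact_mod_cast hm
      have h3 := hDv0 P
      nlinarith
  let b := Module.finBasis k (LL Dv)
  let s := Module.finrank k (LL Dv)
  let e : Fin s → F := fun l => (b l : F)
  have he : LinearIndependent k e := b.linearIndependent.map' (LL Dv).subtype
    (Submodule.ker_subtype _)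
  have hD := der_ne (k := k) (K := F)
  have hW := wr_ne_zero hD e he
  let D : Derivation k F F := der k F
  let W : Matrix (Fin s) (Fin s) F := wm (n := s) D e
  have hWu : IsUnit W.det := IsUnit.mk0 _ hW
  -- the coordinates
  let a : ℕ → Fin s → k := fun i => if h : z i ∈ LL Dv then b.repr ⟨z i, h⟩ else 0
  have ha : ∀ i, z i ∈ LL Dv → z i = ∑ l, a i l • e l := by
    intro i hi
    have h1 := b.sum_repr ⟨z i, hi⟩
    have h2 := congrArg (fun v : LL Dv => (v : F)) h1
    simp only [Submodule.coe_sum, Submodule.coe_smul] at h2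
    rw [← h2]
    refine Finset.sum_congr rfl fun l _ => ?_
    simp only [a]
    rw [dif_pos hi]
  choose R hR using fun n => exists_R D Q m hm n
  let T : Fin s → MvPolynomial (Fin r) F := fun l => ∑ n : Fin s, C (W⁻¹ n l) * R n * Q ^ (s - n)
  have hiter : ∀ (n : ℕ) (c : Fin s → k), (⇑D)^[n] (∑ l, c l • e l) =
      ∑ l, algebraMap k F (c l) * (⇑D)^[n] (e l) := by
    intro n c
    induction n with
    | zero => exact Finset.sum_congr rfl fun l _ => Algebra.smul_def _ _
    | succ n ih =>
      rw [Function.iterate_succ_apply', ih, map_sum]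
      refine Finset.sum_congr rfl fun l _ => ?_
      rw [D.leibniz, D.map_algebraMap, smul_zero, add_zero, smul_eq_mul,
        Function.iterate_succ_apply']
  have hT : ∀ i, z i ^ m = ec F (γ i) Q → ec F (γ i) Q ≠ 0 → ∀ l,
      algebraMap k F (a i l) * ec F (γ i) Q ^ s = ec F (γ i) (T l) * z i := by
    intro i hi h0 l
    have hzi := hzL i hi
    have h1 : Matrix.vecMul (fun l => algebraMap k F (a i l)) W =
        fun n : Fin s => (⇑D)^[(n : ℕ)] (z i) := by
      funext n
      have h2 := ha i hzi
      rw [h2, hiter]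
      rfl
    have h2 : (fun l => algebraMap k F (a i l)) =
        Matrix.vecMul (fun n : Fin s => (⇑D)^[(n : ℕ)] (z i)) W⁻¹ := by
      rw [← h1, Matrix.vecMul_vecMul, Matrix.mul_nonsing_inv W hWu, Matrix.vecMul_one]
    have h3 := congrFun h2 l
    have h4 : Matrix.vecMul (fun n : Fin s => (⇑D)^[(n : ℕ)] (z i)) W⁻¹ l =
        ∑ n : Fin s, (⇑D)^[(n : ℕ)] (z i) * W⁻¹ n l := rfl
    rw [h4] at h3
    rw [h3, Finset.sum_mul]
    have h5 : ec F (γ i) (T l) = ∑ n : Fin s, W⁻¹ n l * ec F (γ i) (R n) *
        ec F (γ i) Q ^ (s - n) := by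
      simp only [T]
      unfold ec
      rw [map_sum]
      refine Finset.sum_congr rfl fun n _ => ?_
      rw [map_mul, map_mul, map_pow, eval_C]
    rw [h5, Finset.sum_mul]
    refine Finset.sum_congr rfl fun n _ => ?_
    have h6 := hR n (γ i) (z i) hi h0
    have h7 : ec F (γ i) Q ^ s = ec F (γ i) Q ^ (n : ℕ) * ec F (γ i) Q ^ (s - n) := by
      rw [← pow_add]
      congr 1
      have := n.2
      omega
    rw [h7]
    linear_combination (W⁻¹ n l * ec F (γ i) Q ^ (s - n)) * h6
  -- a coordinate which is not zero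
  have hex : ∃ l0, ∀ᶠ i in (𝒰 : Filter ℕ), a i l0 ≠ 0 := by
    rw [← Ultrafilter.eventually_exists_iff]
    filter_upwards [hz, hgen Q hQ] with i h1 h2
    by_contra hcon
    push Not at hcon
    have h3 := ha i (hzL i h1)
    rw [Finset.sum_eq_zero fun l _ => by rw [hcon l, zero_smul]] at h3
    rw [h3, zero_pow (by omega)] at h1
    exact h2 h1.symm
  obtain ⟨l0, hl0⟩ := hex
  let U : MvPolynomial (Fin r) F := Q ^ (s * m)
  let V : MvPolynomial (Fin r) F := T l0 ^ m * Q
  have hU : U ≠ 0 := pow_ne_zero _ hQ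
  have hUV : ∀ᶠ i in (𝒰 : Filter ℕ), algebraMap k F (a i l0 ^ m) * ec F (γ i) U =
      ec F (γ i) V := by
    filter_upwards [hz, hgen Q hQ] with i h1 h2
    have h3 := hT i h1 h2 l0
    have e1 : ec F (γ i) U = ec F (γ i) Q ^ (s * m) := by
      unfold ec
      exact map_pow _ _ _
    have e2 : ec F (γ i) V = ec F (γ i) (T l0) ^ m * ec F (γ i) Q := by
      unfold ec
      show eval _ (T l0 ^ m * Q) = _
      rw [map_mul, map_pow]
    rw [e1, e2, map_pow, pow_mul, ← mul_pow, h3, mul_pow, h1]
  obtain ⟨s0, hs0⟩ := MvPolynomial.ne_zero_iff.1 hU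
  obtain ⟨φ, hφ⟩ : ∃ φ : F →ₗ[k] k, φ (coeff s0 U) ≠ 0 := by
    by_contra hcon
    push Not at hcon
    exact hs0 ((Module.forall_dual_apply_eq_zero_iff k _).1 hcon)
  let U' : MvPolynomial (Fin r) k := cw φ U
  let V' : MvPolynomial (Fin r) k := cw φ V
  have hU' : U' ≠ 0 := by
    intro h
    apply hφ
    rw [← coeff_cw φ (map_zero φ)]
    show coeff s0 U' = 0
    rw [h, coeff_zero]
  have hU'F : MvPolynomial.map (algebraMap k F) U' ≠ 0 := by
    intro h
    apply hU'
    exact MvPolynomial.map_injective _ (algebraMap k F).injective (by rw [h, map_zero])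
  have hrel : MvPolynomial.map (algebraMap k F) U' * V =
      MvPolynomial.map (algebraMap k F) V' * U := by
    rw [← sub_eq_zero]
    apply hgen'
    filter_upwards [hUV] with i h1
    have h2 : a i l0 ^ m * eval (γ i) U' = eval (γ i) V' := by
      have h3 := congrArg φ h1
      rw [← Algebra.smul_def, map_smul, lin_ec, lin_ec] at h3
      exact h3
    have e1 : ∀ P P' : MvPolynomial (Fin r) F, ec F (γ i) (P * P') =
        ec F (γ i) P * ec F (γ i) P' := fun P P' => map_mul _ _ _
    have e2 : ec F (γ i) (MvPolynomial.map (algebraMap k F) U' * V -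
        MvPolynomial.map (algebraMap k F) V' * U) =
        ec F (γ i) (MvPolynomial.map (algebraMap k F) U' * V) -
        ec F (γ i) (MvPolynomial.map (algebraMap k F) V' * U) := map_sub _ _ _
    have e3 := e1 (MvPolynomial.map (algebraMap k F) U') V
    have e4 := e1 (MvPolynomial.map (algebraMap k F) V') U
    rw [e2, e3, e4, ec_map, ec_map, ← h1, ← h2, map_mul]
    ring
  have hT0' : T l0 ≠ 0 := by
    intro h
    obtain ⟨i, h1, h2, h3⟩ := (hz.and ((hgen Q hQ).and hl0)).exists
    have h4 := hT i h1 h2 l0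
    rw [h] at h4
    have h5 : ec F (γ i) (0 : MvPolynomial (Fin r) F) = 0 := map_zero _
    rw [h5, zero_mul] at h4
    rcases mul_eq_zero.1 h4 with h6 | h6
    · exact h3 ((map_eq_zero _).1 h6)
    · exact pow_ne_zero s h2 h6
  refine ⟨V' * U' ^ (m - 1), Q ^ s, MvPolynomial.map (algebraMap k F) U' * T l0,
    mul_ne_zero hU'F hT0', ?_⟩
  have h5 : (MvPolynomial.map (algebraMap k F) U') ^ m =
      (MvPolynomial.map (algebraMap k F) U') ^ (m - 1) * MvPolynomial.map (algebraMap k F) U' := by
    rw [← pow_succ]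
    congr 1
    omega
  rw [mul_pow, h5, map_mul, map_pow]
  have h6 : (Q ^ s) ^ m = U := by
    rw [← pow_mul]
  rw [h6]
  have h7 : T l0 ^ m * Q = V := rfl
  calc (MvPolynomial.map (algebraMap k F) U') ^ (m - 1) * MvPolynomial.map (algebraMap k F) U' *
      T l0 ^ m * Q = (MvPolynomial.map (algebraMap k F) U') ^ (m - 1) *
        (MvPolynomial.map (algebraMap k F) U' * (T l0 ^ m * Q)) := by ring
    _ = _ := by
      rw [h7, hrel]
      ring

end Pool.Agent.H434.Fun
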