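import Mathlib

/-!
Divisors of polynomials with coefficients in an algebraically closed subfield, and polynomials which
are products of a polynomial with coefficients in a subfield and an `m`-th power.
-/

set_option autoImplicit false
set_option linter.unusedSectionVars false
set_option linter.unusedVariables false

namespace Pool.Agent.H434.Fun

open MvPolynomial

theorem kron_inj {r D : ℕ} (hD : 1 < D) (v w : Fin r →₀ ℕ) (hv : ∀ i, v i < D)
    (hw : ∀ i, w i < D) (h : ∑ i : Fin r, D ^ (i : ℕ) * v i = ∑ i : Fin r, D ^ (i : ℕ) * w i) :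
    v = w := by
  refine Finsupp.ext <| congrFun <| List.ofFn_inj.mp ?_
  apply Nat.ofDigits_inj_of_len_eq hD (by simp)
  · intro l hl
    obtain ⟨i, rfl⟩ := (List.mem_ofFn' _ _).1 hl
    exact hv i
  · intro l hl
    obtain ⟨i, rfl⟩ := (List.mem_ofFn' _ _).1 hl
    exact hw i
  · simpa only [Nat.ofDigits_eq_sum_mapIdx, List.mapIdx_eq_ofFn, List.get_ofFn, List.length_ofFn,
      Fin.val_cast, mul_comm, List.sum_ofFn] using! h

section kr

variable {E : Type} [Field E] {r : ℕ}

/-- Kronecker's substitution -/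
noncomputable def kr (D : ℕ) : MvPolynomial (Fin r) E →ₐ[E] Polynomial E :=
  aeval fun i => Polynomial.X ^ (D ^ (i : ℕ))

theorem kr_eq (D : ℕ) (P : MvPolynomial (Fin r) E) : kr D P =
    ∑ b ∈ P.support, Polynomial.C (coeff b P) * Polynomial.X ^ (∑ i : Fin r, D ^ (i : ℕ) * b i) := by
  unfold kr
  rw [aeval_def, eval₂_eq']
  refine Finset.sum_congr rfl fun b _ => ?_
  congr 1
  rw [← Finset.prod_pow_eq_pow_sum]
  exact Finset.prod_congr rfl fun i _ => by rw [← pow_mul]

theorem coeff_kr (D : ℕ) (P : MvPolynomial (Fin r) E) (n : ℕ) : (kr D P).coeff n =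
    ∑ b ∈ P.support, if n = ∑ i : Fin r, D ^ (i : ℕ) * b i then coeff b P else 0 := by
  rw [kr_eq, Polynomial.finsetSum_coeff]
  refine Finset.sum_congr rfl fun b _ => ?_
  rw [Polynomial.coeff_C_mul, Polynomial.coeff_X_pow]
  split_ifs <;> simp

theorem coeff_kr' {D : ℕ} (hD : 1 < D) (P : MvPolynomial (Fin r) E)
    (hP : ∀ b ∈ P.support, ∀ i, b i < D) (s : Fin r →₀ ℕ) (hs : s ∈ P.support) :
    (kr D P).coeff (∑ i : Fin r, D ^ (i : ℕ) * s i) = coeff s P := by
  classical
  rw [coeff_kr, Finset.sum_eq_single s]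
  · rw [if_pos rfl]
  · intro b hb hbs
    rw [if_neg]
    intro h
    exact hbs (kron_inj hD b s (hP b hb) (hP s hs) h.symm)
  · intro h
    exact absurd hs h

theorem lt_of_mem_support {P : MvPolynomial (Fin r) E} {D : ℕ} (hD : P.totalDegree < D)
    (b : Fin r →₀ ℕ) (hb : b ∈ P.support) (i : Fin r) : b i < D := by
  have h1 := le_totalDegree hb
  rw [Finsupp.sum_fintype _ _ (fun _ => rfl)] at h1
  have h2 : b i ≤ ∑ i, b i := Finset.single_le_sum (f := fun i => b i)
    (fun _ _ => Nat.zero_le _) (Finset.mem_univ i)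
  omega

/-- **Divisors.** -/
theorem factor_mem [IsAlgClosed E] (K : Subfield E) (hK : ∀ x : E, IsAlgebraic K x → x ∈ K)
    (q g : MvPolynomial (Fin r) E) (hq : ∀ s, coeff s q ∈ K) (hq0 : q ≠ 0) (hg : g ∣ q)
    (s0 : Fin r →₀ ℕ) (hs0 : s0 ∈ g.support) (s : Fin r →₀ ℕ) :
    coeff s g / coeff s0 g ∈ K := by
  classical
  have hg0 : g ≠ 0 := by
    rintro rfl
    exact hq0 (zero_dvd_iff.1 hg)
  have hdeg : g.totalDegree ≤ q.totalDegree := by
    obtain ⟨h, rfl⟩ := hg
    have hh : h ≠ 0 := right_ne_zero_of_mul hq0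
    rw [totalDegree_mul_of_isDomain hg0 hh]
    exact Nat.le_add_right _ _
  obtain ⟨D, hD⟩ : ∃ D, D = q.totalDegree + 2 := ⟨_, rfl⟩
  have hD1 : 1 < D := by omega
  have hqs := fun b hb => lt_of_mem_support (P := q) (D := D) (by omega) b hb
  have hgs := fun b hb => lt_of_mem_support (P := g) (D := D) (by omega) b hb
  have hdvd : (kr D g : Polynomial E) ∣ kr D q := map_dvd (kr D) hg
  have hq1 : (kr D q : Polynomial E) ≠ 0 := by
    obtain ⟨b, hb⟩ := support_nonempty.2 hq0
    intro h
    have h1 := coeff_kr' hD1 q hqs b hb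
    rw [h, Polynomial.coeff_zero] at h1
    exact mem_support_iff.1 hb h1.symm
  have hg1 : (kr D g : Polynomial E) ≠ 0 := by
    intro h
    rw [h] at hdvd
    exact hq1 (zero_dvd_iff.1 hdvd)
  -- the roots
  have hlift : (kr D q : Polynomial E) ∈ Polynomial.lifts (algebraMap K E) := by
    rw [Polynomial.lifts_iff_coeff_lifts]
    intro n
    have h1 : (kr D q : Polynomial E).coeff n ∈ K := by
      rw [coeff_kr]
      refine sum_mem fun b _ => ?_
      split_ifs
      · exact hq b
      · exact zero_mem _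
    exact ⟨⟨_, h1⟩, rfl⟩
  obtain ⟨q0, hq0'⟩ := (Polynomial.mem_lifts _).1 hlift
  have hroot : ∀ x, (kr D g : Polynomial E).IsRoot x → IsAlgebraic K x := by
    intro x hx
    refine ⟨q0, ?_, ?_⟩
    · rintro rfl
      rw [Polynomial.map_zero] at hq0'
      exact hq1 hq0'.symm
    · rw [Polynomial.aeval_def, ← Polynomial.eval_map, hq0']
      exact Polynomial.eval_eq_zero_of_dvd_of_eval_eq_zero hdvd hx
  set lc := (kr D g : Polynomial E).leadingCoeff with hlc
  have hlc0 : lc ≠ 0 := Polynomial.leadingCoeff_ne_zero.2 hg1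
  have hcoef : ∀ n, (kr D g : Polynomial E).coeff n / lc ∈ K := by
    intro n
    apply hK
    have h1 := Polynomial.isIntegral_coeff_of_factors (R := K)
      (Polynomial.C lc⁻¹ * (kr D g : Polynomial E)) (by
        rw [Polynomial.leadingCoeff_mul, Polynomial.leadingCoeff_C, inv_mul_cancel₀ hlc0]
        exact isIntegral_one) (IsAlgClosed.splits _) (by
        intro x hx
        apply IsAlgebraic.isIntegral
        apply hroot
        rw [Polynomial.IsRoot, Polynomial.eval_mul, Polynomial.eval_C] at hx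
        exact (mul_eq_zero.1 hx).resolve_left (inv_ne_zero hlc0)) n
    rw [Polynomial.coeff_C_mul] at h1
    rw [div_eq_inv_mul]
    exact h1.isAlgebraic
  by_cases hs : s ∈ g.support
  · have h1 := hcoef (∑ i : Fin r, D ^ (i : ℕ) * s i)
    have h2 := hcoef (∑ i : Fin r, D ^ (i : ℕ) * s0 i)
    rw [coeff_kr' hD1 g hgs s hs] at h1
    rw [coeff_kr' hD1 g hgs s0 hs0] at h2
    have h3 := K.div_mem h1 h2
    rwa [div_div_div_cancel_right₀ hlc0] at h3
  · rw [notMem_support_iff.1 hs, zero_div]
    exact zero_mem _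

end kr

section mult

variable {R : Type} [CommRing R] [IsDomain R]

theorem pow_unique {g : R} (hg0 : g ≠ 0) {x y : ℕ} {U V : R} (h : g ^ x * U = g ^ y * V)
    (hU : ¬ g ∣ U) (hV : ¬ g ∣ V) : x = y := by
  rcases lt_trichotomy x y with h1 | h1 | h1
  · exfalso
    apply hU
    have h2 : g ^ y = g ^ x * g ^ (y - x) := by
      rw [← pow_add]
      congr 1
      omega
    rw [h2, mul_assoc] at h
    rw [mul_left_cancel₀ (pow_ne_zero _ hg0) h]
    exact (dvd_pow_self g (by omega)).mul_right _
  · exact h1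
  · exfalso
    apply hV
    have h2 : g ^ x = g ^ y * g ^ (x - y) := by
      rw [← pow_add]
      congr 1
      omega
    rw [h2, mul_assoc] at h
    rw [← mul_left_cancel₀ (pow_ne_zero _ hg0) h]
    exact (dvd_pow_self g (by omega)).mul_right _

end mult

/-- **Descent.** -/
theorem descent {E : Type} [Field E] [IsAlgClosed E] {r : ℕ} {ι : Type} (K : ι → Subfield E)
    (hK : ∀ i, ∀ x : E, IsAlgebraic (K i) x → x ∈ K i) (m : ℕ) (hm : 1 ≤ m) (N : ℕ) :
    ∀ Q : MvPolynomial (Fin r) E, Q.totalDegree = N → Q ≠ 0 →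
    (∀ i, ∃ q A B : MvPolynomial (Fin r) E, (∀ s, coeff s q ∈ K i) ∧ B ≠ 0 ∧
      B ^ m * Q = q * A ^ m) →
    ∃ q h : MvPolynomial (Fin r) E, (∀ i s, coeff s q ∈ K i) ∧ Q = q * h ^ m := by
  classical
  induction N using Nat.strong_induction_on with
  | _ N ih =>
  intro Q hN hQ hyp
  by_cases hbig : ∃ p, Irreducible p ∧ p ^ m ∣ Q
  · obtain ⟨p, hp, Q', hQ'⟩ := hbig
    have hQ'0 : Q' ≠ 0 := by
      rintro rfl
      rw [mul_zero] at hQ'
      exact hQ hQ'
    have hpm : p ^ m ≠ 0 := pow_ne_zero _ hp.ne_zero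
    have hdeg : Q'.totalDegree < N := by
      have h1 : Q.totalDegree = (p ^ m).totalDegree + Q'.totalDegree := by
        rw [hQ', totalDegree_mul_of_isDomain hpm hQ'0]
      have h2 : 0 < (p ^ m).totalDegree := by
        rw [Nat.pos_iff_ne_zero]
        intro h3
        have h4 : IsUnit (p ^ m) := by
          rw [totalDegree_eq_zero_iff_eq_C] at h3
          rw [h3]
          refine (IsUnit.mk0 _ ?_).map C
          intro h5
          rw [h5, C_0] at h3
          exact hpm h3
        exact hp.not_isUnit ((isUnit_pow_iff (by omega)).1 h4)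
      omega
    obtain ⟨q, h, h1, h2⟩ := ih _ hdeg Q' rfl hQ'0 fun i => by
      obtain ⟨q, A, B, h3, h4, h5⟩ := hyp i
      exact ⟨q, A, B * p, h3, mul_ne_zero h4 hp.ne_zero, by rw [← h5, hQ']; ring⟩
    exact ⟨q, p * h, h1, by rw [hQ', h2]; ring⟩
  · push Not at hbig
    -- every irreducible factor has coefficients in the subfields, up to a constant
    have hfac : ∀ p, Irreducible p → p ∣ Q → ∀ s0 ∈ p.support, ∀ i s,
        coeff s p / coeff s0 p ∈ K i := by
      intro p hp hpQ s0 hs0 i s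
      obtain ⟨q, A, B, h3, h4, h5⟩ := hyp i
      have hq0 : q ≠ 0 := by
        rintro rfl
        rw [zero_mul] at h5
        exact mul_ne_zero (pow_ne_zero _ h4) hQ h5
      have hA0 : A ≠ 0 := by
        rintro rfl
        rw [zero_pow (by omega), mul_zero] at h5
        exact mul_ne_zero (pow_ne_zero _ h4) hQ h5
      refine factor_mem (K i) (hK i) q p h3 hq0 ?_ s0 hs0 s
      by_contra hpq
      obtain ⟨e, Q1, hQ1, hQe⟩ := WfDvdMonoid.max_power_factor hQ hp
      obtain ⟨b, B1, hB1, hBe⟩ := WfDvdMonoid.max_power_factor h4 hp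
      obtain ⟨a, A1, hA1, hAe⟩ := WfDvdMonoid.max_power_factor hA0 hp
      have hpp : Prime p := UniqueFactorizationMonoid.irreducible_iff_prime.1 hp
      have he1 : 1 ≤ e := by
        by_contra h
        have h0 : e = 0 := by omega
        rw [h0, pow_zero, one_mul] at hQe
        exact hQ1 (hQe ▸ hpQ)
      have hem : e < m := by
        by_contra h
        apply hbig p hp
        rw [hQe]
        exact (pow_dvd_pow p (by omega)).mul_right _
      have h6 : p ^ (b * m + e) * (B1 ^ m * Q1) = p ^ (a * m) * (q * A1 ^ m) := by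
        rw [hBe, hAe, hQe] at h5
        rw [pow_add, pow_mul, pow_mul]
        linear_combination h5
      have h7 := pow_unique hp.ne_zero h6 (by
        intro h
        rcases hpp.dvd_or_dvd h with h | h
        · exact hB1 (hpp.dvd_of_dvd_pow h)
        · exact hQ1 h) (by
        intro h
        rcases hpp.dvd_or_dvd h with h | h
        · exact hpq h
        · exact hA1 (hpp.dvd_of_dvd_pow h))
      have h8 : m ∣ e := by
        have h9 : m ∣ b * m + e := h7 ▸ Dvd.intro_left a rfl
        exact (Nat.dvd_add_right (Dvd.intro_left b rfl)).1 h9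
      exact absurd (Nat.le_of_dvd (by omega) h8) (by omega)
    obtain ⟨fs, hf1, hf2⟩ := WfDvdMonoid.exists_factors Q hQ
    have hprod : ∀ ps : Multiset (MvPolynomial (Fin r) E), (∀ p ∈ ps, Irreducible p ∧ p ∣ Q) →
        ∃ (q : MvPolynomial (Fin r) E) (c : E), (∀ i s, coeff s q ∈ K i) ∧ ps.prod = C c * q := by
      intro ps
      induction ps using Multiset.induction_on with
      | empty =>
        intro _
        refine ⟨1, 1, fun i s => ?_, by simp⟩
        rw [coeff_one]
        split_ifs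
        · exact one_mem _
        · exact zero_mem _
      | cons p ps ih2 =>
        intro h
        obtain ⟨q, c, h1, h2⟩ := ih2 fun p hp => h p (Multiset.mem_cons_of_mem hp)
        obtain ⟨h3, h4⟩ := h p (Multiset.mem_cons_self p ps)
        obtain ⟨s0, hs0⟩ := support_nonempty.2 h3.ne_zero
        have h5 : coeff s0 p ≠ 0 := mem_support_iff.1 hs0
        refine ⟨(C (coeff s0 p)⁻¹ * p) * q, coeff s0 p * c, fun i s => ?_, ?_⟩
        · rw [coeff_mul]
          refine sum_mem fun x _ => mul_mem ?_ (h1 i _)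
          rw [coeff_C_mul, ← div_eq_inv_mul]
          exact hfac p h3 h4 s0 hs0 i _
        · rw [Multiset.prod_cons, h2]
          have h6 : (C (coeff s0 p) : MvPolynomial (Fin r) E) * C (coeff s0 p)⁻¹ = 1 := by
            rw [← C_mul, mul_inv_cancel₀ h5, C_1]
          rw [C_mul]
          linear_combination (-(C c) * q * p) * h6
    obtain ⟨v, hv⟩ := hf2
    obtain ⟨q, c, h1, h2⟩ := hprod fs fun p hp => ⟨hf1 p hp,
      (Multiset.dvd_prod hp).trans ⟨v, hv.symm⟩⟩
    have hvu : IsUnit (v : MvPolynomial (Fin r) E) := v.isUnit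
    rw [MvPolynomial.isUnit_iff_eq_C_of_isReduced] at hvu
    obtain ⟨d, -, hd⟩ := hvu
    obtain ⟨γ, hγ⟩ := IsAlgClosed.exists_pow_nat_eq (c * d) (show 0 < m by omega)
    refine ⟨q, C γ, h1, ?_⟩
    rw [← hv, h2, hd, ← C_pow, hγ, C_mul]
    ring

end Pool.Agent.H434.Fun
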