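import Mathlib
import Pool.Graph.R_seed8.Helper386.D5V.Helper386_FF_Div

/-!
Finitely generated fields as function fields over algebraically closed subfields.
-/

set_option autoImplicit false
set_option linter.unusedSectionVars false
set_option linter.unusedVariables false

namespace Pool.Agent.H434.Fun

open FF

/-- the algebraic closure in `ℂ` of the field generated by `S` -/
noncomputable def cl (S : Set ℂ) : Subfield ℂ :=
  (algebraicClosure (IntermediateField.adjoin ℚ S) ℂ).toSubfield

theorem mem_cl {S : Set ℂ} {x : ℂ} : x ∈ cl S ↔ IsAlgebraic (IntermediateField.adjoin ℚ S) x :=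
  mem_algebraicClosure_iff

open scoped IntermediateField.algebraAdjoinAdjoin in
theorem mem_cl' {S : Set ℂ} {x : ℂ} : x ∈ cl S ↔ IsAlgebraic (Algebra.adjoin ℚ S) x := by
  rw [mem_cl]
  constructor
  · intro h
    exact h.restrictScalars (Algebra.adjoin ℚ S)
  · intro h
    exact h.extendScalars (IsFractionRing.injective (Algebra.adjoin ℚ S)
      (IntermediateField.adjoin ℚ S))

theorem mem_cl_iff {S : Set ℂ} {x : ℂ} :
    x ∈ cl S ↔ x ∈ (AlgebraicIndependent.matroid ℚ ℂ).closure S := by
  rw [mem_cl', AlgebraicIndependent.matroid_closure_eq]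
  rfl

theorem subset_cl (S : Set ℂ) : S ⊆ cl S := fun x hx => by
  rw [SetLike.mem_coe, mem_cl_iff]
  exact (AlgebraicIndependent.matroid ℚ ℂ).mem_closure_of_mem hx (Set.subset_univ _)

theorem cl_mono {S S' : Set ℂ} (h : S ⊆ S') : cl S ≤ cl S' := fun x hx => by
  rw [mem_cl_iff] at hx ⊢
  exact (AlgebraicIndependent.matroid ℚ ℂ).closure_subset_closure h hx

theorem cl_alg {S : Set ℂ} {x : ℂ} (hx : IsAlgebraic (cl S) x) : x ∈ cl S := by
  rw [mem_cl]
  have h1 : IsAlgebraic (algebraicClosure (IntermediateField.adjoin ℚ S) ℂ) x := hx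
  exact h1.restrictScalars (IntermediateField.adjoin ℚ S)

theorem algebraic_mem_cl {S : Set ℂ} {x : ℂ} (hx : IsAlgebraic ℚ x) : x ∈ cl S := by
  rw [mem_cl]
  exact hx.tower_top _

theorem cl_isAlgClosed (S : Set ℂ) : IsAlgClosed (cl S) := by
  have h1 : IsAlgClosure (IntermediateField.adjoin ℚ S)
    (algebraicClosure (IntermediateField.adjoin ℚ S) ℂ) := inferInstance
  exact h1.isAlgClosed

/-- the intersection of the closures -/
theorem mem_all {B : Set ℂ} (hB : AlgebraicIndepOn ℚ id B) {x : ℂ} (h0 : x ∈ cl B)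
    (h : ∀ β ∈ B, x ∈ cl (B \ {β})) : IsAlgebraic ℚ x := by
  have hI : (AlgebraicIndependent.matroid ℚ ℂ).Indep B :=
    AlgebraicIndependent.matroid_indep_iff.2 hB
  have h1 := hI.closure_sInter_eq_biInter_closure_of_forall_subset
    (Js := insert B ((fun β => B \ {β}) '' B)) (Set.insert_nonempty _ _) (by
      rintro J (rfl | ⟨β, -, rfl⟩)
      · exact subset_rfl
      · exact Set.sdiff_subset)
  have h2 : ⋂₀ (insert B ((fun β => B \ {β}) '' B)) = (∅ : Set ℂ) := by
    ext y
    simp only [Set.mem_sInter, Set.mem_empty_iff_false, iff_false]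
    intro hy
    have h3 := hy B (Set.mem_insert _ _)
    exact (hy (B \ {y}) (Set.mem_insert_of_mem _ ⟨y, h3, rfl⟩)).2 rfl
  have h3 : x ∈ (AlgebraicIndependent.matroid ℚ ℂ).closure (∅ : Set ℂ) := by
    rw [← h2, h1, Set.mem_iInter₂]
    rintro J (rfl | ⟨β, hβ, rfl⟩)
    · exact mem_cl_iff.1 h0
    · exact mem_cl_iff.1 (h β hβ)
  rw [← mem_cl_iff, mem_cl, IntermediateField.adjoin_empty] at h3
  exact h3.restrictScalars ℚ

/-- finitely generated fields are function fields -/
theorem isFF_gen (k : Subfield ℂ) (T : Set ℂ) (hT : T.Finite) (B : Set ℂ) (hBT : B ⊆ T)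
    (hTB : T ⊆ cl B) (β : ℂ) (hβ : β ∈ B) (hkB : ∀ b ∈ B, b ≠ β → b ∈ k)
    (hβk : ¬ IsAlgebraic k β) : IsFF k (IntermediateField.adjoin k T) := by
  classical
  have hβF : β ∈ IntermediateField.adjoin k T := IntermediateField.subset_adjoin _ _ (hBT hβ)
  generalize hF : IntermediateField.adjoin k T = F at hβF
  have hsub : ∀ t ∈ T, t ∈ F := fun t ht => by
    rw [← hF]
    exact IntermediateField.subset_adjoin _ _ ht
  let f : F := ⟨β, hβF⟩
  have hf : Transcendental k f := fun h => hβk (h.algebraMap (A := ℂ))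
  -- the field generated by `β`
  let M : IntermediateField k F := IntermediateField.adjoin k {f}
  have hBM : ∀ b (hb : b ∈ B), (⟨b, hsub _ (hBT hb)⟩ : F) ∈ M := by
    intro b hb
    by_cases h : b = β
    · subst h
      exact IntermediateField.mem_adjoin_simple_self k f
    · exact M.algebraMap_mem ⟨b, hkB b hb h⟩
  have hmemF : ∀ x ∈ Algebra.adjoin ℚ B, x ∈ F := by
    intro x hx
    have h1 : Algebra.adjoin ℚ B ≤ (F.toSubalgebra.restrictScalars ℚ) := by
      rw [Algebra.adjoin_le_iff]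
      intro b hb
      exact hsub _ (hBT hb)
    exact h1 hx
  have hmemM : ∀ x (hx : x ∈ Algebra.adjoin ℚ B), (⟨x, hmemF x hx⟩ : F) ∈ M := by
    intro x hx
    induction hx using Algebra.adjoin_induction with
    | mem x hx => exact hBM x hx
    | algebraMap c =>
      have h1 : algebraMap ℚ ℂ c ∈ k := by
        rw [eq_ratCast]
        exact SubfieldClass.ratCast_mem k c
      exact M.algebraMap_mem ⟨_, h1⟩
    | add x y hx hy h1 h2 => exact add_mem h1 h2
    | mul x y hx hy h1 h2 => exact mul_mem h1 h2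
  let φ : Algebra.adjoin ℚ B →+* M :=
    { toFun := fun x => ⟨⟨x, hmemF x x.2⟩, hmemM x x.2⟩
      map_one' := rfl
      map_mul' := fun _ _ => rfl
      map_zero' := rfl
      map_add' := fun _ _ => rfl }
  have hφ : Function.Injective φ := by
    intro x y h
    apply Subtype.ext
    have h1 := congrArg (fun v : M => ((v : F) : ℂ)) h
    exact h1
  have halgT : ∀ t (ht : t ∈ T), IsAlgebraic M (⟨t, hsub _ ht⟩ : F) := by
    intro t ht
    have h1 := mem_cl'.1 (hTB ht)
    obtain ⟨p, hp, hp2⟩ := h1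
    refine ⟨p.map φ, (Polynomial.map_ne_zero_iff hφ).2 hp, ?_⟩
    apply (algebraMap F ℂ).injective
    rw [map_zero, Polynomial.aeval_def, Polynomial.eval₂_map, Polynomial.hom_eval₂]
    exact hp2
  have halg : ∀ y : F, IsAlgebraic M y := by
    have h3 : ∀ y (hy : y ∈ IntermediateField.adjoin k T), ∃ h : y ∈ F,
        IsAlgebraic M (⟨y, h⟩ : F) := by
      intro y hy
      induction hy using IntermediateField.adjoin_induction with
      | mem x hx => exact ⟨_, halgT x hx⟩
      | algebraMap c =>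
        exact ⟨F.algebraMap_mem c, isAlgebraic_algebraMap (R := M) (A := F) (algebraMap k M c)⟩
      | add x y hx hy h1 h2 =>
        obtain ⟨g1, h1⟩ := h1
        obtain ⟨g2, h2⟩ := h2
        exact ⟨add_mem g1 g2, h1.add h2⟩
      | inv x hx h1 =>
        obtain ⟨g1, h1⟩ := h1
        exact ⟨inv_mem g1, h1.inv⟩
      | mul x y hx hy h1 h2 =>
        obtain ⟨g1, h1⟩ := h1
        obtain ⟨g2, h2⟩ := h2
        exact ⟨mul_mem g1 g2, h1.mul h2⟩
    rintro ⟨y, hy⟩
    exact (h3 y (hF ▸ hy)).2
  have hess : Algebra.EssFiniteType k F :=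
    IntermediateField.essFiniteType_iff.2 ⟨hT.toFinset, by rw [Set.Finite.coe_toFinset, hF]⟩
  have hfin : FiniteDimensional M F := by
    have h3 : Algebra.EssFiniteType M F := Algebra.EssFiniteType.of_comp k M F
    obtain ⟨s, hs⟩ := IntermediateField.fg_top M F
    have h5 : FiniteDimensional M (IntermediateField.adjoin M (s : Set F)) :=
      IntermediateField.finiteDimensional_adjoin (fun x _ => (halg x).isIntegral)
    rw [hs] at h5
    exact IntermediateField.topEquiv.toLinearEquiv.finiteDimensional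
  exact IsFF.of_finite hf hfin

theorem isFF_tower (T : Set ℂ) (hT : T.Finite) (B : Set ℂ) (hB : AlgebraicIndepOn ℚ id B)
    (hBT : B ⊆ T) (hTB : T ⊆ cl B) (β : ℂ) (hβ : β ∈ B) :
    IsFF (cl (B \ {β})) (IntermediateField.adjoin (cl (B \ {β})) T) := by
  refine isFF_gen _ T hT B hBT hTB β hβ (fun b hb h => subset_cl _ ⟨hb, h⟩) fun h => ?_
  have h2 := cl_alg h
  rw [mem_cl_iff] at h2
  have hI : (AlgebraicIndependent.matroid ℚ ℂ).Indep B :=
    AlgebraicIndependent.matroid_indep_iff.2 hB
  exact hI.notMem_closure_sdiff_of_mem hβ h2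

/-- transcendence bases of finite sets -/
theorem exists_basis' (T : Set ℂ) : ∃ B : Set ℂ, AlgebraicIndepOn ℚ id B ∧ B ⊆ T ∧ T ⊆ cl B := by
  obtain ⟨B, hB⟩ := (AlgebraicIndependent.matroid ℚ ℂ).exists_isBasis T (Set.subset_univ _)
  rw [AlgebraicIndependent.matroid_isBasis_iff] at hB
  exact ⟨B, hB.1, hB.2.1, fun t ht => mem_cl'.2 (hB.2.2 t ht)⟩

end Pool.Agent.H434.Fun
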