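import Mathlib
import Pool.Agent.H434.G1
import Pool.Agent.H434.G2
import Pool.Agent.H434.G3

/-!
Values at generic algebraic points which are powers in a finitely generated field.
-/

set_option autoImplicit false
set_option linter.unusedSectionVars false
set_option linter.unusedVariables false

namespace Pool.Agent.H434.Fun

open FF Filter MvPolynomial Pool.Agent.W603.LV

theorem lift_gen {A E : Type} [Field A] [Field E] (φ : A →+* E) {r : ℕ}
    (P : MvPolynomial (Fin r) E) (h : ∀ b, ∃ a, φ a = coeff b P) :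
    ∃ P0 : MvPolynomial (Fin r) A, MvPolynomial.map φ P0 = P := by
  classical
  choose g hg using h
  refine ⟨∑ b ∈ P.support, monomial b (g b), ?_⟩
  rw [map_sum]
  conv_rhs => rw [P.as_sum]
  exact Finset.sum_congr rfl fun b _ => by rw [map_monomial, hg]

/-- the case of one field of constants -/
theorem const_gen {𝒰 : Ultrafilter ℕ} (k : Subfield ℂ) (hk : IsAlgClosed k) (T : Set ℂ)
    (hFF : IsFF k (IntermediateField.adjoin k T)) {r m : ℕ} (hm : 1 ≤ m)
    (Q : MvPolynomial (Fin r) ℂ) (hQ : Q ≠ 0)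
    (hQT : ∀ s, coeff s Q ∈ Subfield.closure T) (ξ : ℕ → Fin r → ℂ)
    (hξ : ∀ᶠ i in (𝒰 : Filter ℕ), ∀ l, ξ i l ∈ k)
    (hgen : ∀ P : MvPolynomial (Fin r) ℂ, P ≠ 0 → ∀ᶠ i in (𝒰 : Filter ℕ), eval (ξ i) P ≠ 0)
    (z : ℕ → ℂ) (hz : ∀ᶠ i in (𝒰 : Filter ℕ), z i ∈ Subfield.closure T ∧
      z i ^ m = eval (ξ i) Q) :
    ∃ q A B : MvPolynomial (Fin r) ℂ, (∀ s, coeff s q ∈ k) ∧ B ≠ 0 ∧ B ^ m * Q = q * A ^ m := by
  classical
  have hsub : ∀ x ∈ Subfield.closure T, x ∈ IntermediateField.adjoin k T := by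
    intro x hx
    have h1 : Subfield.closure T ≤ (IntermediateField.adjoin k T).toSubfield := by
      rw [Subfield.closure_le]
      exact IntermediateField.subset_adjoin k T
    exact h1 hx
  generalize IntermediateField.adjoin k T = F at hFF hsub
  obtain ⟨Q0, hQ0⟩ := lift_gen (algebraMap F ℂ) Q fun b => ⟨⟨_, hsub _ (hQT b)⟩, rfl⟩
  have hQ00 : Q0 ≠ 0 := by
    rintro rfl
    rw [map_zero] at hQ0
    exact hQ hQ0.symm
  let γ : ℕ → Fin r → k := fun i l => if h : ξ i l ∈ k then ⟨ξ i l, h⟩ else 0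
  have hγ : ∀ᶠ i in (𝒰 : Filter ℕ), ∀ l, ((γ i l : k) : ℂ) = ξ i l := by
    filter_upwards [hξ] with i hi l
    simp only [γ]
    rw [dif_pos (hi l)]
  have hev : ∀ i, (∀ l, ((γ i l : k) : ℂ) = ξ i l) → ∀ P : MvPolynomial (Fin r) F,
      algebraMap F ℂ (ec F (γ i) P) = eval (ξ i) (MvPolynomial.map (algebraMap F ℂ) P) := by
    intro i hi P
    unfold ec
    rw [eval_map, ← eval₂_id, hom_eval₂, RingHom.comp_id]
    congr 1
    funext l
    exact hi l
  let z0 : ℕ → F := fun i => if h : z i ∈ F then ⟨z i, h⟩ else 0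
  obtain ⟨q, A, B, hB, hrel⟩ := const_family (𝒰 := 𝒰) (k := k) (F := F) Q0 hQ00 m hm γ (by
    intro P hP
    have hP' : MvPolynomial.map (algebraMap F ℂ) P ≠ 0 := by
      intro h
      exact hP (MvPolynomial.map_injective _ (algebraMap F ℂ).injective (by rw [h, map_zero]))
    filter_upwards [hγ, hgen _ hP'] with i h1 h2 h3
    apply h2
    rw [← hev i h1 P, h3, map_zero]) z0 (by
    filter_upwards [hγ, hz] with i h1 h2
    apply (algebraMap F ℂ).injective
    rw [map_pow, hev i h1, hQ0, ← h2.2]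
    congr 1
    simp only [z0]
    rw [dif_pos (hsub _ h2.1)]
    rfl)
  refine ⟨MvPolynomial.map (algebraMap k ℂ) q, MvPolynomial.map (algebraMap F ℂ) A,
    MvPolynomial.map (algebraMap F ℂ) B, fun s => ?_, ?_, ?_⟩
  · rw [coeff_map]
    exact (coeff s q).2
  · intro h
    exact hB (MvPolynomial.map_injective _ (algebraMap F ℂ).injective (by rw [h, map_zero]))
  · have h1 := congrArg (MvPolynomial.map (algebraMap F ℂ)) hrel
    rw [map_mul, map_mul, map_pow, map_pow, hQ0, MvPolynomial.map_map,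
      ← IsScalarTower.algebraMap_eq k F ℂ] at h1
    exact h1

/-- **Isotriviality.** -/
theorem isotrivial {𝒰 : Ultrafilter ℕ} (T : Set ℂ) (hT : T.Finite) {r m : ℕ} (hm : 1 ≤ m)
    (Q : MvPolynomial (Fin r) ℂ) (hQT : ∀ s, coeff s Q ∈ Subfield.closure T)
    (ξ : ℕ → Fin r → ℂ) (hξ : ∀ᶠ i in (𝒰 : Filter ℕ), ∀ l, IsAlgebraic ℚ (ξ i l))
    (hgen : ∀ P : MvPolynomial (Fin r) ℂ, P ≠ 0 → ∀ᶠ i in (𝒰 : Filter ℕ), eval (ξ i) P ≠ 0)
    (z : ℕ → ℂ) (hz : ∀ᶠ i in (𝒰 : Filter ℕ), z i ∈ Subfield.closure T ∧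
      z i ^ m = eval (ξ i) Q) :
    ∃ q h : MvPolynomial (Fin r) ℂ, (∀ s, IsAlgebraic ℚ (coeff s q)) ∧ Q = q * h ^ m := by
  classical
  by_cases hQ : Q = 0
  · refine ⟨0, 0, fun s => ?_, by rw [hQ, zero_mul]⟩
    rw [coeff_zero]
    exact isAlgebraic_zero
  obtain ⟨B, hB, hBT, hTB⟩ := exists_basis' T
  let K : Option B → Subfield ℂ := fun o => match o with
    | none => cl B
    | some β => cl (B \ {(β : ℂ)})
  obtain ⟨q, h, h1, h2⟩ := descent K (by
      rintro (_ | β) x hx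
      · exact cl_alg hx
      · exact cl_alg hx) m hm _ Q rfl hQ (by
      rintro (_ | β)
      · refine ⟨Q, 1, 1, fun s => ?_, one_ne_zero, by rw [one_pow, one_mul, mul_one]⟩
        have h3 : Subfield.closure T ≤ cl B := by
          rw [Subfield.closure_le]
          exact hTB
        exact h3 (hQT s)
      · refine const_gen (𝒰 := 𝒰) (cl (B \ {(β : ℂ)})) (cl_isAlgClosed _) T
          (isFF_tower T hT B hB hBT hTB β β.2) hm Q hQ hQT ξ ?_ hgen z hz
        filter_upwards [hξ] with i hi l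
        exact algebraic_mem_cl (hi l))
  refine ⟨q, h, fun s => ?_, h2⟩
  exact mem_all hB (h1 none s) fun β hβ => h1 (some ⟨β, hβ⟩) s

end Pool.Agent.H434.Fun
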