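import Mathlib
import Pool.Agent.H434.F5
import Pool.Agent.H434.G4

/-!
Sequences of solutions in a finitely generated ring: algebraic quotients, or curves.
-/

set_option autoImplicit false
set_option linter.unusedSectionVars false
set_option linter.unusedVariables false

namespace Pool.Agent.H434.Fun

open FF Filter MvPolynomial Pool.Agent.W603.LV

/-- one field of constants -/
theorem step_k {𝒰 : Ultrafilter ℕ} {n q : ℕ} (k : Subfield ℂ) (hk : IsAlgClosed k)
    (s : Finset ℂ) (hFF : IsFF k (IntermediateField.adjoin k (s : Set ℂ))) (m : Fin q → ℕ)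
    (hm : ∀ j, 1 ≤ m j) (f : Fin q → MvPolynomial (Fin n) ℂ)
    (hf : ∀ j b, coeff b (f j) ∈ Subring.closure (s : Set ℂ)) (x x' : ℕ → Fin n → ℂ)
    (z : ℕ → Fin q → ℂ) (hx : ∀ i l, x i l ∈ Subring.closure (s : Set ℂ))
    (hx' : ∀ i l, x' i l ∈ Subring.closure (s : Set ℂ)) (hxx' : ∀ i l, x i l * x' i l = 1)
    (hzR : ∀ i j, z i j ∈ Subring.closure (s : Set ℂ))
    (hz : ∀ i j, z i j ^ m j = eval (x i) (f j)) :
    (∀ᶠ i in (𝒰 : Filter ℕ), ∀ᶠ i' in (𝒰 : Filter ℕ), ∀ l, x i' l / x i l ∈ k) ∨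
      ∀ᶠ i in (𝒰 : Filter ℕ), Cv (R := ℂ) (K := ℂ) f m (x i) (z i) := by
  classical
  have hsub : ∀ y ∈ Subring.closure (s : Set ℂ),
      y ∈ IntermediateField.adjoin k (s : Set ℂ) := by
    intro y hy
    have h1 : Subring.closure (s : Set ℂ) ≤
        (IntermediateField.adjoin k (s : Set ℂ)).toSubfield.toSubring := by
      rw [Subring.closure_le]
      exact IntermediateField.subset_adjoin k (s : Set ℂ)
    exact h1 hy
  generalize IntermediateField.adjoin k (s : Set ℂ) = F at hFF hsub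
  have hs : ∀ t ∈ s, t ∈ F := fun t ht => hsub t (Subring.subset_closure ht)
  obtain ⟨S, hS⟩ := exists_supp (k := k) s.attach (fun t => (⟨t.1, hs t.1 t.2⟩ : F))
  have hreg : ∀ P : Place k F, P ∉ S → ∀ y (hy : y ∈ Subring.closure (s : Set ℂ)),
      Ge P 0 (⟨y, hsub y hy⟩ : F) := by
    intro P hP y hy
    induction hy using Subring.closure_induction with
    | mem y hy =>
      right
      by_contra h
      exact hP (hS ⟨y, hy⟩ (Finset.mem_attach _ _) P (by
        show P.ord (⟨y, _⟩ : F) ≠ 0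
        omega))
    | zero => exact Or.inl rfl
    | one => exact Ge.one
    | add a b ha hb h1 h2 => exact h1.add h2
    | neg a ha h1 => exact h1.neg
    | mul a b ha hb h1 h2 =>
      have h3 := h1.mul h2
      rwa [add_zero] at h3
  choose f0 hf0 using fun j => lift_gen (algebraMap F ℂ) (f j)
    fun b => ⟨⟨_, hsub _ (hf j b)⟩, rfl⟩
  let x0 : Fin n → ℕ → F := fun l i => ⟨x i l, hsub _ (hx i l)⟩
  let z0 : Fin q → ℕ → F := fun j i => ⟨z i j, hsub _ (hzR i j)⟩
  have hx0 : ∀ i l, x i l ≠ 0 := fun i l h => by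
    have h1 := hxx' i l
    rw [h, zero_mul] at h1
    exact zero_ne_one h1
  rcases ffstep (𝒰 := 𝒰) (k := k) (F := F) f0 m hm x0 (fun l i h => hx0 i l
      (congrArg (fun v : F => (v : ℂ)) h)) S (by
      intro l i P hP
      have h1 := hreg P hP _ (hx i l)
      have h2 := hreg P hP _ (hx' i l)
      have h3 : (⟨x i l, hsub _ (hx i l)⟩ : F) * ⟨x' i l, hsub _ (hx' i l)⟩ = 1 :=
        Subtype.ext (hxx' i l)
      have h4 : (⟨x i l, hsub _ (hx i l)⟩ : F) ≠ 0 := left_ne_zero_of_mul_eq_one h3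
      have h5 : (⟨x' i l, hsub _ (hx' i l)⟩ : F) ≠ 0 := right_ne_zero_of_mul_eq_one h3
      have h6 := h1.resolve_left h4
      have h7 := h2.resolve_left h5
      have h8 := P.ord_mul h4 h5
      rw [h3, P.ord_one] at h8
      show P.ord (⟨x i l, hsub _ (hx i l)⟩ : F) = 0
      omega) z0 (by
      intro j i
      apply (algebraMap F ℂ).injective
      rw [map_pow, aeval_def, hom_eval₂, Algebra.algebraMap_self, RingHom.comp_id, ← eval_map,
        hf0 j]
      exact hz i j) with h | h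
  · left
    filter_upwards [h] with i hi
    filter_upwards [hi] with i' hi' l
    obtain ⟨c, hc⟩ := hi' l
    have h1 := congrArg (fun v : F => (v : ℂ)) hc
    have h2 : x i' l = c * x i l := h1
    rw [h2, mul_div_cancel_right₀ _ (hx0 i l)]
    exact c.2
  · right
    filter_upwards [h] with i hi
    have h1 := hi.map (Algebra.ofId F ℂ)
    have h2 := h1.to_map (R' := ℂ)
    simp only [hf0] at h2
    exact h2

/-- **Step 1.** -/
theorem step1 {𝒰 : Ultrafilter ℕ} {n q : ℕ} (s : Finset ℂ) (m : Fin q → ℕ)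
    (hm : ∀ j, 1 ≤ m j) (f : Fin q → MvPolynomial (Fin n) ℂ)
    (hf : ∀ j b, coeff b (f j) ∈ Subring.closure (s : Set ℂ)) (x x' : ℕ → Fin n → ℂ)
    (z : ℕ → Fin q → ℂ) (hx : ∀ i l, x i l ∈ Subring.closure (s : Set ℂ))
    (hx' : ∀ i l, x' i l ∈ Subring.closure (s : Set ℂ)) (hxx' : ∀ i l, x i l * x' i l = 1)
    (hzR : ∀ i j, z i j ∈ Subring.closure (s : Set ℂ))
    (hz : ∀ i j, z i j ^ m j = eval (x i) (f j)) :
    (∀ᶠ i in (𝒰 : Filter ℕ), ∀ᶠ i' in (𝒰 : Filter ℕ), ∀ l, IsAlgebraic ℚ (x i' l / x i l)) ∨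
      ∀ᶠ i in (𝒰 : Filter ℕ), Cv (R := ℂ) (K := ℂ) f m (x i) (z i) := by
  classical
  obtain ⟨B, hB, hBT, hTB⟩ := exists_basis' (s : Set ℂ)
  have hBf : B.Finite := s.finite_toSet.subset hBT
  by_cases hex : ∀ᶠ i in (𝒰 : Filter ℕ), Cv (R := ℂ) (K := ℂ) f m (x i) (z i)
  · exact Or.inr hex
  left
  have hall : ∀ β ∈ B, ∀ᶠ i in (𝒰 : Filter ℕ), ∀ᶠ i' in (𝒰 : Filter ℕ), ∀ l,
      x i' l / x i l ∈ cl (B \ {β}) := fun β hβ =>
    (step_k (𝒰 := 𝒰) (cl (B \ {β})) (cl_isAlgClosed _) s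
      (isFF_tower _ s.finite_toSet B hB hBT hTB β hβ) m hm f hf x x' z hx hx' hxx' hzR hz).resolve_right
      hex
  have hall2 := (eventually_all_finite hBf).2 hall
  filter_upwards [hall2] with i hi
  filter_upwards [(eventually_all_finite hBf).2 hi] with i' hi' l
  refine mem_all hB ?_ fun β hβ => hi' β hβ l
  have h1 : Subring.closure (s : Set ℂ) ≤ (cl B).toSubring := by
    rw [Subring.closure_le]
    exact hTB
  exact (cl B).div_mem (h1 (hx i' l)) (h1 (hx i l))

/-- the polynomial `P(θ X)` -/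
noncomputable def scale {r : ℕ} (θ : Fin r → ℂ) (P : MvPolynomial (Fin r) ℂ) :
    MvPolynomial (Fin r) ℂ := ∑ b ∈ P.support, monomial b (coeff b P * ∏ i, θ i ^ b i)

theorem coeff_scale {r : ℕ} (θ : Fin r → ℂ) (P : MvPolynomial (Fin r) ℂ) (s : Fin r →₀ ℕ) :
    coeff s (scale θ P) = coeff s P * ∏ i, θ i ^ s i := by
  classical
  unfold scale
  rw [coeff_sum]
  simp only [coeff_monomial]
  rw [Finset.sum_ite_eq' P.support s (fun b => coeff b P * ∏ i, θ i ^ b i)]
  split_ifs with h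
  · rfl
  · rw [notMem_support_iff.1 h, zero_mul]

theorem eval_scale {r : ℕ} (θ : Fin r → ℂ) (P : MvPolynomial (Fin r) ℂ) (x : Fin r → ℂ) :
    eval x (scale θ P) = eval (fun i => θ i * x i) P := by
  unfold scale
  rw [map_sum, eval_eq']
  refine Finset.sum_congr rfl fun b _ => ?_
  rw [eval_monomial, Finsupp.prod_fintype _ _ (fun _ => pow_zero _), mul_assoc,
    ← Finset.prod_mul_distrib]
  congr 1
  exact Finset.prod_congr rfl fun i _ => (mul_pow _ _ _).symm

/-- after a translation the polynomials are products of polynomials with algebraic coefficients and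
`m j`-th powers -/
def Iso {q r : ℕ} (m : Fin q → ℕ) (P : Fin q → MvPolynomial (Fin r) ℂ) : Prop :=
  ∃ θ : Fin r → ℂ, (∀ i, θ i ≠ 0) ∧ ∀ j, ∃ g h : MvPolynomial (Fin r) ℂ,
    (∀ s, IsAlgebraic ℚ (coeff s g)) ∧ scale θ (P j) = g * h ^ m j

/-- **Step 2.** -/
theorem iso_of {𝒰 : Ultrafilter ℕ} {q r : ℕ} (m : Fin q → ℕ) (hm : ∀ j, 1 ≤ m j)
    (P : Fin q → MvPolynomial (Fin r) ℂ) (T0 : Set ℂ) (hT0 : T0.Finite) (X : ℕ → Fin r → ℂ)
    (i0 : ℕ) (hX0 : ∀ l, X i0 l ≠ 0)
    (hX : ∀ᶠ i in (𝒰 : Filter ℕ), ∀ l, IsAlgebraic ℚ (X i l / X i0 l))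
    (hgen : ∀ P : MvPolynomial (Fin r) ℂ, P ≠ 0 → ∀ᶠ i in (𝒰 : Filter ℕ), eval (X i) P ≠ 0)
    (z : Fin q → ℕ → ℂ) (hz : ∀ j, ∀ᶠ i in (𝒰 : Filter ℕ), z j i ∈ Subfield.closure T0 ∧
      z j i ^ m j = eval (X i) (P j)) : Iso m P := by
  classical
  refine ⟨X i0, hX0, fun j => ?_⟩
  let T : Set ℂ := T0 ∪ (Set.range (X i0) ∪ (fun b => coeff b (P j)) '' ((P j).support :
    Set (Fin r →₀ ℕ)))
  have hT : T.Finite := hT0.union ((Set.finite_range _).union
    ((Finset.finite_toSet _).image _))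
  have hX1 : ∀ i, (fun l => X i0 l * (X i l / X i0 l)) = X i := fun i => by
    funext l
    rw [mul_div_cancel₀ _ (hX0 l)]
  refine isotrivial (𝒰 := 𝒰) T hT (hm j) (scale (X i0) (P j)) (fun s => ?_)
    (fun i l => X i l / X i0 l) hX (fun P' hP' => ?_) (z j) ?_
  · rw [coeff_scale]
    have h1 : ∏ l, X i0 l ^ s l ∈ Subfield.closure T := by
      refine prod_mem fun l _ => ?_
      have h2 : X i0 l ∈ Subfield.closure T := Subfield.subset_closure (Or.inr (Or.inl ⟨l, rfl⟩))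
      exact pow_mem h2 _
    refine mul_mem ?_ h1
    by_cases hs : s ∈ (P j).support
    · exact Subfield.subset_closure (Or.inr (Or.inr ⟨s, hs, rfl⟩))
    · rw [notMem_support_iff.1 hs]
      exact zero_mem _
  · have h1 : scale (fun l => (X i0 l)⁻¹) P' ≠ 0 := by
      obtain ⟨s, hs⟩ := MvPolynomial.ne_zero_iff.1 hP'
      intro h
      have h2 := coeff_scale (fun l => (X i0 l)⁻¹) P' s
      rw [h, coeff_zero] at h2
      exact mul_ne_zero hs (Finset.prod_ne_zero_iff.2 fun l _ => pow_ne_zero _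
        (inv_ne_zero (hX0 l))) h2.symm
    filter_upwards [hgen _ h1] with i hi
    rw [eval_scale] at hi
    have h2 : (fun l => (X i0 l)⁻¹ * X i l) = fun l => X i l / X i0 l := by
      funext l
      rw [div_eq_inv_mul]
    rwa [h2] at hi
  · filter_upwards [hz j] with i hi
    refine ⟨?_, ?_⟩
    · exact Subfield.closure_mono Set.subset_union_left hi.1
    · rw [eval_scale, hX1 i]
      exact hi.2

end Pool.Agent.H434.Fun
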