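import Mathlib
import Pool.Agent.H434.Desc

/-!
The functional and the curves, separately, and powers under specialisations.
-/

set_option autoImplicit false
set_option linter.unusedSectionVars false

open Finset Filter MvPolynomial

namespace Pool.Agent.H434

open Pool.Agent.N754.LT

section geo

variable {k B : Type} [Field k] [CharZero k] [CommRing B] [IsDomain B] [Algebra k B]

/-- the functional on exponents -/
theorem fun_of_geo (Γ : Geo k B) {N n r : ℕ} (hr : 1 ≤ r) (w : Fin r → Bˣ)
    (hwW : ∀ j, w j ∈ Γ.W) (hw : AlgebraicIndependent k (fun j => (w j : B)))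
    (a : Fin n → Fin r → ℤ) (hspan : ∀ j, Pi.single j 1 ∈ Submodule.span ℤ (Set.range a))
    (y : Fin N → B) (hyI : ∀ i, y i ∈ Γ.I)
    (p q : Fin N → MvPolynomial (Fin r) k) (hpq : ∀ i, IsRelPrime (q i) (p i))
    (hq : ∀ i, q i ≠ 0)
    (hqp : ∀ i, aeval (fun j => (w j : B)) (q i) * y i = aeval (fun j => (w j : B)) (p i)) :
    ∃ l : Fin r → ℤ, (∃ i0, ∑ j, l j * a i0 j ≠ 0) ∧
      ∀ i, ∀ b ∈ (q i).support, ∀ b' ∈ (q i).support,
        ∑ j, l j * (b j : ℤ) = ∑ j, l j * (b' j : ℤ) := by
  classical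
  obtain ⟨In⟩ := Γ.inst r N w y hr hwW (fun j c => nonconst_of_algInd _ hw j c) hyI
  let D := In.D
  have hψP : ∀ (P : MvPolynomial (Fin r) k), In.ψ (aeval (fun j => (In.wR j : In.R)) P) =
      aeval (fun j => (w j : B)) P := by
    intro P
    have h3 : (In.ψ.comp (aeval fun j => (In.wR j : In.R))) = aeval (fun j => (w j : B)) := by
      ext i
      simp [In.hwR]
    exact DFunLike.congr_fun h3 P
  have hwRAI : AlgebraicIndependent k (fun j => (In.wR j : In.R)) := by
    have h1 : Function.Injective (aeval (R := k) fun j => (w j : B)) := hw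
    have h2 : Function.Injective (aeval (R := k) fun j => (In.wR j : In.R)) := fun P Q h =>
      h1 (by rw [← hψP, ← hψP, h])
    exact h2
  have hqR : ∀ i, aeval (fun j => (In.wR j : In.R)) (q i) * In.yR i =
      aeval (fun j => (In.wR j : In.R)) (p i) := by
    intro i
    apply In.hψ
    rw [map_mul, hψP, hψP, In.hyR, hqp]
  -- low support
  have hlow : ∀ i, ∀ b ∈ (q i).support, ∀ b' ∈ (q i).support,
      (fun j => (b j : ℤ) - b' j) ∈ lowSub D In.wR := by
    intro i b hb b' hb'
    have h1 := quot_neg D In.wR hwRAI (p i) (q i) (hq i) (hpq i) (In.yR i) (hqR i) hr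
    have h2 := supp_low D In.wR hwRAI (q i) h1 b b' hb hb'
    rw [mem_lowSub]
    refine D.neg_mono _ _ ?_ h2
    filter_upwards [lg_mon D In.wR (fun j => b j), lg_mon D In.wR (fun j => b' j)] with ω g1 g2
    rw [g1, g2, ← Finset.sum_sub_distrib]
    refine le_of_eq (congrArg _ (Finset.sum_congr rfl fun j _ => ?_))
    push_cast
    ring
  -- a high unit
  have hhigh : ∃ i, a i ∉ lowSub D In.wR := by
    by_contra hcon
    push Not at hcon
    have h1 : ∀ j, (Pi.single j 1 : Fin r → ℤ) ∈ lowSub D In.wR := by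
      intro j
      refine Submodule.span_le.2 ?_ (hspan j)
      rintro _ ⟨i, rfl⟩
      exact hcon i
    have h2 : ∀ j, D.Neg (fun ω => |D.lg (In.wR j : In.R) ω|) := by
      intro j
      refine D.neg_mono _ _ (Filter.Eventually.of_forall fun ω => ?_)
        ((mem_lowSub D In.wR _).1 (h1 j))
      rw [Finset.sum_eq_single j]
      · rw [Pi.single_eq_same]
        simp
      · intro l _ hl
        rw [Pi.single_eq_of_ne hl]
        simp
      · intro h
        exact absurd (Finset.mem_univ _) h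
    have h3 : D.Neg (fun ω => ∑ j, |D.lg (In.wR j : In.R) ω|) := D.neg_sum _ _ fun j _ => h2 j
    have h4 : ∀ i, D.Neg (fun ω => max (D.lg (In.yR i) ω) 0) := by
      intro i
      obtain ⟨M, hM, h5⟩ := quot_le D In.wR hwRAI (p i) (q i) (hq i) (In.yR i) (hqR i)
      refine D.neg_mono _ _ (Filter.Eventually.of_forall fun ω => ?_)
        (D.neg_add _ _ h5 (D.neg_smul _ M hM h3))
      linarith
    obtain ⟨C, hC, h5⟩ := In.hone
    apply In.hnn
    refine D.neg_mono _ _ (Filter.Eventually.of_forall fun ω => ?_)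
      (D.neg_add _ _ h5 (D.neg_smul _ C hC (D.neg_add _ _ h3 (D.neg_sum Finset.univ _
        fun i _ => h4 i))))
    show D.one ω ≤ _
    linarith
  obtain ⟨i0, hai0⟩ := hhigh
  obtain ⟨l, hl, hl0⟩ := exists_functional (lowSub D In.wR) (fun m b => lowSub_sat D In.wR m b)
    (a i0) hai0
  refine ⟨l, ⟨i0, hl0⟩, fun i b hb b' hb' => ?_⟩
  have h1 := hl _ (hlow i b hb b' hb')
  rw [← sub_eq_zero, ← Finset.sum_sub_distrib, ← h1]
  exact Finset.sum_congr rfl fun j _ => (mul_sub _ _ _).symm

/-- curves from a functional -/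
theorem curve_of_fun' (ρ : Rp k B) {N n : ℕ} {U : Fin n → Fin N} {y : Fin N → B}
    {M : ℕ} (hM : 1 ≤ M) {W : Subgroup Bˣ} (d : DatU k U y M W)
    (p q : Fin N → MvPolynomial (Fin d.r) k)
    (hq : ∀ i, q i ≠ 0)
    (hqp : ∀ i, aeval (fun j => (d.w j : B)) (q i) * y i = aeval (fun j => (d.w j : B)) (p i))
    (l : Fin d.r → ℤ) (i0 : Fin n) (hl0 : ∑ j, l j * d.a i0 j ≠ 0)
    (hom : ∀ i, ∀ b ∈ (q i).support, ∀ b' ∈ (q i).support,
        ∑ j, l j * (b j : ℤ) = ∑ j, l j * (b' j : ℤ))
    {ι : Type} [Finite ι] (F : ι → MvPolynomial (Fin N) k) (hF : ∀ l, aeval y (F l) = 0) :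
    ∀ᶠ t in ρ.G, CurveAt ρ F y t := by
  classical
  -- the eventual conditions
  have e1 : ∀ᶠ t in ρ.G, ∀ j, ρ.rep (d.w j : B) t ≠ 0 :=
    (Filter.eventually_all).2 fun j => ρ.rep_ne _ (Units.ne_zero _)
  have e2 : ∀ᶠ t in ρ.G, ∀ i, eval (fun j => ρ.rep (d.w j : B) t) (q i) ≠ 0 := by
    refine (Filter.eventually_all).2 fun i => ?_
    have h1 : aeval (fun j => (d.w j : B)) (q i) ≠ 0 := by
      intro h
      exact hq i (d.hw (by rw [h, map_zero]))
    filter_upwards [ρ.rep_ne _ h1, ρ.rep_aeval (fun j => (d.w j : B)) (q i)] with t g1 g2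
    rwa [← g2]
  have e3 : ∀ᶠ t in ρ.G, ∀ i, eval (fun j => ρ.rep (d.w j : B) t) (q i) * ρ.rep (y i) t =
      eval (fun j => ρ.rep (d.w j : B) t) (p i) := by
    refine (Filter.eventually_all).2 fun i => ?_
    filter_upwards [ρ.rep_aeval (fun j => (d.w j : B)) (q i),
      ρ.rep_aeval (fun j => (d.w j : B)) (p i),
      ρ.rep_mul (aeval (fun j => (d.w j : B)) (q i)) (y i)] with t g1 g2 g3
    rw [← g1, ← g2, ← g3, hqp]
  -- relation between the polynomials of a unit coordinate
  let A : Fin d.r → ℤ := fun j => (M : ℤ) * d.a i0 j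
  let em : Fin d.r →₀ ℕ := Finsupp.equivFunOnFinite.symm fun j => (-A j).toNat
  let ep : Fin d.r →₀ ℕ := Finsupp.equivFunOnFinite.symm fun j => (A j).toNat
  have hrel : q (U i0) * monomial ep (d.c i0) = p (U i0) * monomial em 1 := by
    apply d.hw
    rw [map_mul, map_mul, aeval_monomial, aeval_monomial,
      Finsupp.prod_fintype _ _ (fun _ => pow_zero _),
      Finsupp.prod_fintype _ _ (fun _ => pow_zero _), map_one, one_mul, ← hqp, d.hU i0]
    have hmonB : ∀ (e : Fin d.r → ℕ), (∏ j, (d.w j : B) ^ e j) =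
        ((∏ j, d.w j ^ e j : Bˣ) : B) := fun e => by
      rw [Units.coe_prod]
      exact Finset.prod_congr rfl fun j _ => (Units.val_pow_eq_pow_val _ _).symm
    rw [hmonB, hmonB]
    have h1 : (∏ j, d.w j ^ em j) * (∏ j, d.w j ^ A j) = ∏ j, d.w j ^ ep j := by
      rw [← Finset.prod_mul_distrib]
      refine Finset.prod_congr rfl fun j _ => ?_
      rw [← zpow_natCast, ← zpow_natCast, ← zpow_add]
      congr 1
      have h2 : em j = (-A j).toNat := rfl
      have h3 : ep j = (A j).toNat := rfl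
      rw [h2, h3]
      omega
    rw [← h1, Units.val_mul]
    ring
  filter_upwards [e1, e2, e3] with t h1 h2 h3
  set w0 : Fin d.r → k := fun j => ρ.rep (d.w j : B) t with hw0
  obtain ⟨v, hv1, hv2, hv3⟩ := curve_of_data l p q hom hq F (fun j => (d.w j : B)) d.hw y
    hqp hF w0 h1 h2
  have hs1 : (fun j => w0 j * (1 : k) ^ l j) = w0 := by
    funext j
    rw [one_zpow, mul_one]
  refine ⟨v, hv1, hv2, ?_, U i0, ?_⟩
  · funext i
    have h4 := hv3 1 one_ne_zero i
    rw [hs1, ← h3 i] at h4
    exact mul_left_cancel₀ (h2 i) h4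
  · intro heq
    have h5 : ∀ s : k, s ≠ 0 → eval (fun j => w0 j * s ^ l j) (q (U i0)) ≠ 0 := by
      intro s hs
      obtain ⟨b, hb⟩ := MvPolynomial.support_nonempty.2 (hq (U i0))
      rw [eval_hom l (q (U i0)) (∑ j, l j * (b j : ℤ)) (fun b' hb' => hom (U i0) b' hb' b hb) w0
        s hs]
      exact mul_ne_zero (zpow_ne_zero _ hs) (h2 (U i0))
    have h6 : ∀ s : k, s ≠ 0 → v s (U i0) * ∏ j, (w0 j * s ^ l j) ^ em j =
        d.c i0 * ∏ j, (w0 j * s ^ l j) ^ ep j := by
      intro s hs
      have h7 := congrArg (eval (fun j => w0 j * s ^ l j)) hrel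
      rw [map_mul, map_mul, eval_monomial, eval_monomial,
        Finsupp.prod_fintype _ _ (fun _ => pow_zero _),
        Finsupp.prod_fintype _ _ (fun _ => pow_zero _), one_mul, ← hv3 s hs (U i0),
        mul_assoc] at h7
      exact (mul_left_cancel₀ (h5 s hs) h7).symm
    have h7 : ∀ s : k, s ≠ 0 → ∀ e : Fin d.r → ℕ, ∏ j, (w0 j * s ^ l j) ^ e j =
        (∏ j, w0 j ^ e j) * s ^ (∑ j, l j * (e j : ℤ)) := by
      intro s hs e
      simp only [mul_pow]
      rw [Finset.prod_mul_distrib]
      congr 1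
      have h8 : ∀ T : Finset (Fin d.r), ∏ j ∈ T, (s ^ l j) ^ e j =
          s ^ (∑ j ∈ T, l j * (e j : ℤ)) := by
        intro T
        induction T using Finset.induction_on with
        | empty => simp
        | insert i T hi ih =>
          rw [Finset.prod_insert hi, Finset.sum_insert hi, zpow_add₀ hs, ih, zpow_mul,
            zpow_natCast]
      exact h8 _
    have h20 : (2 : k) ≠ 0 := two_ne_zero
    have g1 := h6 1 one_ne_zero
    have g2 := h6 2 h20
    rw [h7 _ h20, h7 _ h20, heq] at g2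
    rw [h7 _ one_ne_zero, h7 _ one_ne_zero, one_zpow, one_zpow, mul_one, mul_one] at g1
    have hE : ∑ j, l j * (ep j : ℤ) - ∑ j, l j * (em j : ℤ) = M * ∑ j, l j * d.a i0 j := by
      rw [← Finset.sum_sub_distrib, Finset.mul_sum]
      refine Finset.sum_congr rfl fun j _ => ?_
      have e2 : em j = (-A j).toNat := rfl
      have e3 : ep j = (A j).toNat := rfl
      have e4 : (((A j).toNat : ℤ) - ((-A j).toNat : ℤ)) = A j := by omega
      rw [← mul_sub, e2, e3, e4]
      show l j * ((M : ℤ) * d.a i0 j) = _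
      ring
    have hne : d.c i0 * ∏ j, w0 j ^ ep j ≠ 0 :=
      mul_ne_zero (d.hc i0) (Finset.prod_ne_zero_iff.2 fun j _ => pow_ne_zero _ (h1 j))
    have g3 : (2 : k) ^ (∑ j, l j * (em j : ℤ)) = (2 : k) ^ (∑ j, l j * (ep j : ℤ)) := by
      have g4 : (d.c i0 * ∏ j, w0 j ^ ep j) * (2 : k) ^ (∑ j, l j * (em j : ℤ)) =
          (d.c i0 * ∏ j, w0 j ^ ep j) * (2 : k) ^ (∑ j, l j * (ep j : ℤ)) := by
        rw [← g1]
        linear_combination g2 - (2 : k) ^ (∑ j, l j * (ep j : ℤ)) * g1
      exact mul_left_cancel₀ hne g4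
    have g5 : (2 : k) ^ ((M : ℤ) * ∑ j, l j * d.a i0 j) = 1 := by
      rw [← hE, zpow_sub₀ h20, g3, div_self (zpow_ne_zero _ h20)]
    refine two_zpow_ne _ (mul_ne_zero ?_ hl0) g5
    exact_mod_cast (by omega : M ≠ 0)

end geo

/-- exponents in a box -/
noncomputable def box (r D : ℕ) : Finset (Fin r →₀ ℕ) :=
  Finset.Iic (Finsupp.equivFunOnFinite.symm fun _ => D)

theorem mem_box {r D : ℕ} {s : Fin r →₀ ℕ} (h : ∑ i, s i ≤ D) : s ∈ box r D := by
  unfold box
  rw [Finset.mem_Iic]
  intro i
  exact (Finset.single_le_sum (f := fun i => s i) (fun _ _ => Nat.zero_le _)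
    (Finset.mem_univ i)).trans h

theorem degree_le {k : Type} [Field k] {r : ℕ} (P : MvPolynomial (Fin r) k) (s : Fin r →₀ ℕ)
    (hs : s ∈ P.support) : ∑ i, s i ≤ P.totalDegree := by
  have h1 := le_totalDegree hs
  rw [Finsupp.sum_fintype _ _ (fun _ => rfl)] at h1
  exact h1

/-- polynomials which are not powers up to monomials, under specialisations -/
theorem not_powForm_spec (R : Type) [CommRing R] [IsDomain R] (i : R →+* ℂ)
    (hi : Function.Injective i) {r m : ℕ} (hm : 1 ≤ m) (P : MvPolynomial (Fin r) R)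
    (h : ¬ PowForm m (MvPolynomial.map i P)) :
    ∃ h0 : R, h0 ≠ 0 ∧ ∀ (L : Type) [Field L] (φ : R →+* L), φ h0 ≠ 0 →
      ¬ PowForm m (MvPolynomial.map φ P) := by
  classical
  let D : ℕ := P.totalDegree
  have hP0 : P ≠ 0 := by
    intro h0
    apply h
    rw [h0, map_zero]
    exact ⟨0, 0, by rw [zero_pow (by omega), mul_zero]⟩
  obtain ⟨s0, hs0⟩ := MvPolynomial.ne_zero_iff.1 hP0
  let S : Type := box r D
  let A : Type := MvPolynomial S R
  let gen : MvPolynomial (Fin r) A := ∑ s : S, monomial s.1 (X s : A)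
  let Eq : (Fin r →₀ ℕ) → MvPolynomial (Fin r) A := fun e =>
    monomial e 1 * gen ^ m - MvPolynomial.map C P
  let I : (Fin r →₀ ℕ) → Ideal A := fun e => Ideal.span (Set.range fun b => coeff b (Eq e))
  -- evaluation at the coefficients of a polynomial
  have hev : ∀ (L : Type) [Field L] (φ : R →+* L) (g : MvPolynomial (Fin r) L)
      (hg : ∀ s, s ∉ box r D → coeff s g = 0) (e : Fin r →₀ ℕ),
      MvPolynomial.map φ P = monomial e 1 * g ^ m →
      ∀ x ∈ I e, eval₂Hom φ (fun s : S => coeff s.1 g) x = 0 := by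
    intro L _ φ g hg e hPe
    let ev : A →+* L := eval₂Hom φ (fun s : S => coeff s.1 g)
    have hevg : MvPolynomial.map ev gen = g := by
      simp only [gen]
      rw [map_sum]
      have h1 : ∀ s : S, MvPolynomial.map ev (monomial s.1 (X s : A)) =
          monomial s.1 (coeff s.1 g) := by
        intro s
        rw [map_monomial]
        congr 1
        exact eval₂_X _ _ _
      simp only [h1]
      rw [Finset.sum_coe_sort (box r D) (fun s => monomial s (coeff s g))]
      ext b
      rw [coeff_sum]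
      simp only [coeff_monomial]
      rw [Finset.sum_ite_eq' (box r D) b (fun s => coeff s g)]
      split_ifs with hb
      · rfl
      · exact (hg b hb).symm
    have hevP : MvPolynomial.map ev (MvPolynomial.map C P) = MvPolynomial.map φ P := by
      rw [MvPolynomial.map_map]
      have h3 : ev.comp C = φ := by
        ext c
        exact eval₂_C _ _ _
      rw [h3]
    have h4 : I e ≤ RingHom.ker ev := by
      rw [Ideal.span_le]
      rintro _ ⟨b, rfl⟩
      show ev (coeff b (Eq e)) = 0
      rw [← coeff_map]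
      simp only [Eq]
      rw [map_sub, map_mul, map_pow, hevg, map_monomial, map_one, hevP, ← hPe, sub_self,
        coeff_zero]
    exact fun x hx => h4 hx
  -- the elements of the ideals
  let K0 : Type := FractionRing R
  let j : K0 →+* ℂ := IsFractionRing.lift hi
  have hj : ∀ c : R, j (algebraMap R K0 c) = i c := fun c => IsFractionRing.lift_algebraMap hi c
  have key : ∀ e : Fin r →₀ ℕ, ∃ c : R, c ≠ 0 ∧ (C c : A) ∈ I e := by
    intro e
    by_contra hcon
    push Not at hcon
    -- the extension to the field of fractions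
    let AK : Type := MvPolynomial S K0
    let IK : Ideal AK := (I e).map (MvPolynomial.map (algebraMap R K0) : A →+* AK)
    have hne : IK ≠ ⊤ := by
      intro htop
      let : Algebra A AK := (MvPolynomial.map (algebraMap R K0) : A →+* AK).toAlgebra
      have hloc : IsLocalization (Submonoid.map (C : R →+* A) (nonZeroDivisors R)) AK :=
        MvPolynomial.isLocalization (nonZeroDivisors R) K0
      have h1 := (IsLocalization.map_algebraMap_ne_top_iff_disjoint
        (Submonoid.map (C : R →+* A) (nonZeroDivisors R)) AK (I e)).2 (by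
          rw [Set.disjoint_left]
          rintro x ⟨c, hc, rfl⟩ hx
          exact hcon c (nonZeroDivisors.ne_zero hc) hx)
      exact h1 htop
    let Nb : Type := AlgebraicClosure K0
    have hz : (zeroLocus Nb IK).Nonempty := by
      by_contra hcon2
      rw [Set.not_nonempty_iff_eq_empty] at hcon2
      have h1 : (1 : AK) ∈ vanishingIdeal K0 (zeroLocus Nb IK) := by
        rw [hcon2, mem_vanishingIdeal_iff]
        intro x hx
        exact absurd hx (Set.notMem_empty _)
      rw [vanishingIdeal_zeroLocus_eq_radical] at h1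
      obtain ⟨n, hn⟩ := h1
      rw [one_pow] at hn
      exact hne ((Ideal.eq_top_iff_one _).2 hn)
    obtain ⟨z, hz⟩ := hz
    let : Algebra K0 ℂ := j.toAlgebra
    let lam : Nb →ₐ[K0] ℂ := IsAlgClosed.lift
    apply h
    let ez : A →+* ℂ := eval₂Hom i (fun s : S => lam (z s))
    have hez : ∀ x ∈ I e, ez x = 0 := by
      intro x hx
      have h1 := hz (MvPolynomial.map (algebraMap R K0) x) (Ideal.mem_map_of_mem _ hx)
      rw [aeval_def, eval₂_map] at h1
      have h2 := congrArg lam h1
      rw [map_zero] at h2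
      have h3 : (lam : Nb →+* ℂ) (eval₂ ((algebraMap K0 Nb).comp (algebraMap R K0)) z x) =
          eval₂ ((lam : Nb →+* ℂ).comp ((algebraMap K0 Nb).comp (algebraMap R K0)))
            (fun s => lam (z s)) x := hom_eval₂ _ _ _ _
      have h4 : (lam : Nb →+* ℂ).comp ((algebraMap K0 Nb).comp (algebraMap R K0)) = i := by
        ext c
        show lam (algebraMap K0 Nb (algebraMap R K0 c)) = _
        rw [AlgHom.commutes]
        exact hj c
      rw [h4] at h3
      have h5 : ez x = (lam : Nb →+* ℂ) (eval₂ ((algebraMap K0 Nb).comp (algebraMap R K0)) z x) :=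
        h3.symm
      rw [h5]
      exact h2
    refine ⟨e, MvPolynomial.map ez gen, ?_⟩
    have h1 : MvPolynomial.map ez (Eq e) = 0 := by
      ext b
      rw [coeff_map, hez _ (Ideal.subset_span ⟨b, rfl⟩), coeff_zero]
    simp only [Eq] at h1
    have h2 : MvPolynomial.map ez (MvPolynomial.map C P) = MvPolynomial.map i P := by
      rw [MvPolynomial.map_map]
      have h3 : ez.comp C = i := by
        ext c
        exact eval₂_C _ _ _
      rw [h3]
    rw [map_sub, map_mul, map_pow, map_monomial, map_one, h2, sub_eq_zero] at h1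
    exact h1.symm
  choose c hc hcI using key
  refine ⟨coeff s0 P * ∏ e ∈ box r D, c e, mul_ne_zero hs0
    (Finset.prod_ne_zero_iff.2 fun e _ => hc e), ?_⟩
  intro L _ φ hφ hpf
  rw [map_mul, map_prod] at hφ
  have hφs : φ (coeff s0 P) ≠ 0 := left_ne_zero_of_mul hφ
  obtain ⟨e, g, hg⟩ := hpf
  have hne : MvPolynomial.map φ P ≠ 0 := by
    intro h0
    apply hφs
    rw [← coeff_map, h0, coeff_zero]
  have hg0 : g ≠ 0 := by
    intro h0
    apply hne
    rw [hg, h0, zero_pow (by omega), mul_zero]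
  have hdeg : (MvPolynomial.map φ P).totalDegree ≤ D := by
    unfold MvPolynomial.totalDegree
    exact Finset.sup_mono (support_map_subset φ P)
  have hmon0 : (monomial e (1 : L)) ≠ 0 := by
    rw [Ne, monomial_eq_zero]
    exact one_ne_zero
  have hd1 : (MvPolynomial.map φ P).totalDegree = (monomial e (1 : L)).totalDegree +
      (g ^ m).totalDegree := by
    rw [hg, totalDegree_mul_of_isDomain hmon0 (pow_ne_zero _ hg0)]
  have hd2 : g.totalDegree ≤ (g ^ m).totalDegree := by
    obtain ⟨m', rfl⟩ : ∃ m', m = m' + 1 := ⟨m - 1, by omega⟩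
    rw [pow_succ, totalDegree_mul_of_isDomain (pow_ne_zero _ hg0) hg0]
    omega
  have hebox : e ∈ box r D := by
    apply mem_box
    have h1 : e ∈ (monomial e (1 : L)).support := by
      rw [mem_support_iff, coeff_monomial, if_pos rfl]
      exact one_ne_zero
    have h2 := degree_le _ e h1
    omega
  have hgbox : ∀ s, s ∉ box r D → coeff s g = 0 := by
    intro s hs
    by_contra hcs
    apply hs
    apply mem_box
    have h2 := degree_le _ s (mem_support_iff.2 hcs)
    omega
  have h1 := hev L φ g hgbox e hg _ (hcI e)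
  have h2 : eval₂Hom φ (fun s : S => coeff s.1 g) (C (c e) : A) = φ (c e) := eval₂_C _ _ _
  rw [h2] at h1
  exact (Finset.prod_ne_zero_iff.1 (right_ne_zero_of_mul hφ) e hebox) h1

end Pool.Agent.H434
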