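import Mathlib
import Pool.Agent.H434.W1

/-!
The alternatives for solutions in rings to which the subspace theorem can be applied after
specialisation.
-/

set_option autoImplicit false
set_option linter.unusedSectionVars false

open Finset Filter MvPolynomial

namespace Pool.Agent.H434

open Pool.Agent.N754.LT

/-- the half-space condition for leading forms -/
def HalfLead {J : Type} {r : ℕ} (m : J → ℕ) (P : J → MvPolynomial (Fin r) ℂ) : Prop :=
  ∃ μ : Fin r → ℝ, ∀ l : Fin r → ℝ, l ≠ 0 → 0 ≤ ∑ i, μ i * l i →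
    ∃ j, PowForm (m j) (lead l (P j))

/-- a ring with a group of units and integral elements for which the consequences of the subspace
theorem hold -/
structure GeoW (B : Type) [CommRing B] [IsDomain B] [Algebra ℂ B] where
  W : Subgroup Bˣ
  I : Subring B
  W_I : ∀ u ∈ W, (u : B) ∈ I
  I_W : ∀ u : Bˣ, (u : B) ∈ I → ((u⁻¹ : Bˣ) : B) ∈ I → u ∈ W
  I_const : ∀ c : ℂ, algebraMap ℂ B c ∈ I
  hunit : ∀ (m : ℕ) (g : Fin m → Bˣ), (∀ i, g i ∈ W) →
      (∀ i j, i ≠ j → ∀ c : ℂ, (g i : B) ≠ algebraMap ℂ B c * g j) →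
      ∀ c : Fin m → ℂ, ∑ i, algebraMap ℂ B (c i) * g i = 0 → c = 0
  htf : ∀ g ∈ W, ∀ m : ℕ, 0 < m → (∃ c : ℂ, ((g ^ m : Bˣ) : B) = algebraMap ℂ B c) →
      ∃ c : ℂ, (g : B) = algebraMap ℂ B c
  ramF : ∀ (r : ℕ), 1 ≤ r → ∀ w : Fin r → Bˣ, (∀ j, w j ∈ W) →
      AlgebraicIndependent ℂ (fun j => (w j : B)) → ∀ M : ℕ, 1 ≤ M → ∀ (q : ℕ) (m : Fin q → ℕ),
      (∀ j, 2 ≤ m j) → (∀ j, m j ∣ M) → ∀ (P : Fin q → MvPolynomial (Fin r) ℂ) (z : Fin q → B),
      (∀ j, z j ∈ I) → (∀ j, z j ^ m j = aeval (fun i => (w i : B) ^ M) (P j)) →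
      (∀ j, ¬ PowForm (m j) (P j)) → HalfLead m P → False
  funF : ∀ (r n N : ℕ), 1 ≤ r → ∀ w : Fin r → Bˣ, (∀ j, w j ∈ W) →
      AlgebraicIndependent ℂ (fun j => (w j : B)) → ∀ a : Fin n → Fin r → ℤ,
      (∀ j, Pi.single j 1 ∈ Submodule.span ℤ (Set.range a)) → ∀ y : Fin N → B, (∀ i, y i ∈ I) →
      ∀ p q : Fin N → MvPolynomial (Fin r) ℂ, (∀ i, IsRelPrime (q i) (p i)) → (∀ i, q i ≠ 0) →
      (∀ i, aeval (fun j => (w j : B)) (q i) * y i = aeval (fun j => (w j : B)) (p i)) →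
      ∃ l : Fin r → ℤ, (∃ i0, ∑ j, l j * a i0 j ≠ 0) ∧
        ∀ i, ∀ b ∈ (q i).support, ∀ b' ∈ (q i).support,
          ∑ j, l j * (b j : ℤ) = ∑ j, l j * (b' j : ℤ)

namespace GW

variable {B : Type} [CommRing B] [IsDomain B] [Algebra ℂ B]

theorem Tame_sub {J : Type} {r : ℕ} {m : J → ℕ} {P : J → MvPolynomial (Fin r) ℂ}
    (h : Tame m P) (hno : ∃ j, ¬ PowForm (m j) (P j)) :
    HalfLead (fun j : {j // ¬ PowForm (m j) (P j)} => m j.1) (fun j => P j.1) := by
  rcases h with h | ⟨μ, hμ⟩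
  · obtain ⟨j, hj⟩ := hno
    exact absurd (h j) hj
  · refine ⟨μ, fun l hl hl2 => ?_⟩
    obtain ⟨j, hj, h⟩ := hμ l hl hl2
    exact ⟨⟨j, hj⟩, h⟩

/-- in one variable the condition holds -/
theorem tame_one {r : ℕ} (hr : r = 1) {J : Type} (m : J → ℕ) (hm : ∀ j, 1 ≤ m j)
    (P : J → MvPolynomial (Fin r) ℂ) : Tame m P := by
  classical
  by_cases h : ∀ j, PowForm (m j) (P j)
  · exact Or.inl h
  · push Not at h
    obtain ⟨j, hj⟩ := h
    subst hr
    have hP0 : P j ≠ 0 := by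
      intro h0
      apply hj
      exact ⟨0, 0, by rw [h0, zero_pow (by have := hm j; omega), mul_zero]⟩
    refine Or.inr ⟨0, fun l hl _ => ⟨j, hj, ?_⟩⟩
    have hl0 : l 0 ≠ 0 := by
      intro h0
      apply hl
      funext i
      rw [Subsingleton.elim i 0, h0]
      rfl
    obtain ⟨b, hb, hbmax⟩ := Finset.exists_max_image (P j).support (fun b => lin b l)
      (support_nonempty.2 hP0)
    have hset : leadSet l (P j).support = {b} := by
      ext s
      rw [mem_leadSet, Finset.mem_singleton]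
      constructor
      · rintro ⟨h1, h2⟩
        have h3 := le_antisymm (hbmax s h1) (h2 b hb)
        unfold lin at h3
        rw [Fin.sum_univ_one, Fin.sum_univ_one] at h3
        have h4 := mul_right_cancel₀ hl0 h3
        refine Finsupp.ext fun i => ?_
        rw [Subsingleton.elim i 0]
        exact_mod_cast h4
      · rintro rfl
        exact ⟨hb, hbmax⟩
    obtain ⟨γ, hγ⟩ := IsAlgClosed.exists_pow_nat_eq (coeff b (P j))
      (show 0 < m j by have := hm j; omega)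
    refine ⟨b, C γ, ?_⟩
    unfold lead trunc
    rw [hset, Finset.sum_singleton, ← C_pow, hγ, mul_comm, C_mul_monomial, mul_one]

theorem ramW (Γ : GeoW B) {r : ℕ} (hr : 1 ≤ r) (w : Fin r → Bˣ) (hwW : ∀ j, w j ∈ Γ.W)
    (hw : AlgebraicIndependent ℂ (fun j => (w j : B))) {M : ℕ} (hM : 1 ≤ M)
    {J : Type} [Fintype J] (m : J → ℕ) (hm : ∀ j, 2 ≤ m j)
    (hmM : ∀ j, m j ∣ M) (P : J → MvPolynomial (Fin r) ℂ) (z : J → B) (hzI : ∀ j, z j ∈ Γ.I)
    (hz : ∀ j, z j ^ m j = aeval (fun i => (w i : B) ^ M) (P j))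
    (hP : ∀ j, ¬ PowForm (m j) (P j)) (hT : HalfLead m P) : False := by
  classical
  let e := (Fintype.equivFin J).symm
  refine Γ.ramF r hr w hwW hw M hM (Fintype.card J) (fun j => m (e j)) (fun j => hm _)
    (fun j => hmM _) (fun j => P (e j)) (fun j => z (e j)) (fun j => hzI _) (fun j => hz _)
    (fun j => hP _) ?_
  obtain ⟨μ, hμ⟩ := hT
  refine ⟨μ, fun l hl hl2 => ?_⟩
  obtain ⟨j, h⟩ := hμ l hl hl2
  refine ⟨e.symm j, ?_⟩
  have h1 : e (e.symm j) = j := Equiv.apply_symm_apply _ _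
  simp only [h1]
  exact h

/-- either a second point in the fibre, or curves -/
theorem alt_curve (Γ : GeoW B) (ρ : Rp ℂ B) {N n : ℕ} {U : Fin n → Fin N} {y : Fin N → B}
    {M : ℕ} (hM : 1 ≤ M) (d : DatU ℂ U y M Γ.W) (hyI : ∀ i, y i ∈ Γ.I) {ι : Type} [Finite ι]
    (F : ι → MvPolynomial (Fin N) ℂ) (hF : ∀ l, aeval y (F l) = 0) (U' : Finset (Fin N))
    (hrat : ∀ i ∈ U', ∃ p q : MvPolynomial (Fin d.r) ℂ, q ≠ 0 ∧
      aeval (fun j => (d.w j : B)) q * y i = aeval (fun j => (d.w j : B)) p)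
    {E : Type} [Field E] [IsAlgClosed E] (θ : B →+* E) (hθ : Function.Injective θ) :
    (∃ z : Fin N → E, (∀ l, eval₂ (θ.comp (algebraMap ℂ B)) z (F l) = 0) ∧
      (∀ i ∈ U', z i = θ (y i)) ∧ z ≠ fun j => θ (y j)) ∨ ∀ᶠ t in ρ.G, CurveAt ρ F y t := by
  classical
  choose! p q hq hpq using hrat
  rcases second_point U' F y hF (fun j => (d.w j : B)) d.hw p q hq hpq θ hθ with h | h
  · exact Or.inl h
  · right
    choose p1 q1 h1 h2 h3 using h
    obtain ⟨l, ⟨i0, hi0⟩, hom⟩ := Γ.funF d.r n N d.hr d.w d.hwW d.hw d.a d.hspan y hyI p1 q1 h1 h2 h3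
    exact curve_of_fun' ρ hM d p1 q1 h2 h3 l i0 hi0 hom F hF

theorem exists_gamma (Γ : GeoW B) {n : ℕ} {M : ℕ} (hM : 1 ≤ M) (c : Fin n → ℂ)
    (hc : ∀ i, c i ≠ 0) (hrc : ∀ i, ∃ γ : ℂ, γ ^ M = c i) :
    ∃ γu : Fin n → Bˣ, (∀ i, γu i ∈ Γ.W) ∧ (∀ i, γu i ∈ constU ℂ B) ∧
      ∀ i, (γu i : B) ^ M = algebraMap ℂ B (c i) := by
  choose γ hγ using hrc
  have hγ0 : ∀ i, γ i ≠ 0 := by
    intro i h0
    have h1 := hγ i
    rw [h0, zero_pow (by omega)] at h1
    exact hc i h1.symm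
  have hγB : ∀ i, IsUnit (algebraMap ℂ B (γ i)) := fun i => (IsUnit.mk0 _ (hγ0 i)).map _
  choose γu hγu using hγB
  refine ⟨γu, fun i => ?_, fun i => ⟨γ i, hγu i⟩, fun i => by rw [hγu, ← map_pow, hγ]⟩
  refine Γ.I_W _ (by rw [hγu]; exact Γ.I_const _) ?_
  have h1 : ((γu i)⁻¹ : Bˣ) =
      Units.map (algebraMap ℂ B).toMonoidHom (Units.mk0 (γ i) (hγ0 i))⁻¹ := by
    rw [map_inv]
    congr 1
    apply Units.ext
    rw [hγu]
    rfl
  rw [h1]
  exact Γ.I_const _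

theorem exists_roots (Γ : GeoW B) {N n : ℕ} (U : Fin n → Fin N) {M : ℕ} (hM : 1 ≤ M)
    (y : Fin N → B) (d : DatU ℂ U y M Γ.W) (hrc : ∀ i, ∃ γ : ℂ, γ ^ M = d.c i) :
    ∃ γu : Fin n → Bˣ, (∀ i, γu i ∈ Γ.W) ∧ (∀ i, γu i ∈ constU ℂ B) ∧
      ∀ i, (((γu i * ∏ j, d.w j ^ d.a i j : Bˣ) : Bˣ) : B) ^ M = y (U i) := by
  obtain ⟨γu, h1, h2, h3⟩ := exists_gamma Γ hM d.c d.hc hrc
  refine ⟨γu, h1, h2, fun i => ?_⟩
  rw [Units.val_mul, mul_pow, h3, d.hU, ← Units.val_pow_eq_pow_val, ← Finset.prod_pow]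
  congr 2
  refine Finset.prod_congr rfl fun j _ => ?_
  rw [← zpow_natCast, ← zpow_mul, mul_comm]

theorem main_full (Γ : GeoW B) {N n : ℕ} {Q : Type} [Fintype Q] (U : Fin n → Fin N)
    (J : Q → Fin N) (m : Q → ℕ) (hm : ∀ j, 2 ≤ m j) {M : ℕ} (hM : 1 ≤ M)
    (hmM : ∀ j, m j ∣ M) (ζ : ℂ) (hζ : IsPrimitiveRoot ζ M) (f : Q → MvPolynomial (Fin n) ℂ)
    (y : Fin N → B) (hyI : ∀ i, y i ∈ Γ.I)
    (d : DatU ℂ U y M Γ.W) (hJ : ∀ j, y (J j) ^ m j = aeval (fun i => y (U i)) (f j))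
    (hrc : ∀ i, ∃ γ : ℂ, γ ^ M = d.c i) (hdr : d.r = n)
    (hnp : ∀ j, ¬ PowForm (m j) (f j)) (hT : HalfLead m f) : False := by
  classical
  obtain ⟨γu, hγW, hγc, hxM⟩ := exists_roots Γ U hM y d hrc
  obtain ⟨r, hr, w, hwW, hw, a, c, hc, hU, hspan⟩ := d
  simp only at hdr hxM
  subst hdr
  let x : Fin r → Bˣ := fun i => γu i * ∏ j, w j ^ a i j
  have hxW : ∀ i, x i ∈ Γ.W := fun i =>
    Γ.W.mul_mem (hγW i) (Subgroup.prod_mem _ fun j _ => Subgroup.zpow_mem _ (hwW j) _)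
  have hx : AlgebraicIndependent ℂ (fun i => (x i : B)) := by
    refine algInd_of_units Γ.W Γ.hunit x hxW fun b hb => ?_
    obtain ⟨c', hc'⟩ := hb
    have h1 : ∏ i, x i ^ b i = (∏ i, γu i ^ b i) * ∏ j, w j ^ (∑ i, b i * a i j) := by
      simp only [x, mul_zpow]
      rw [Finset.prod_mul_distrib]
      congr 1
      have h2 : ∀ i, (∏ j, w j ^ a i j) ^ b i = ∏ j, w j ^ (b i * a i j) := by
        intro i
        rw [← Finset.prod_zpow]
        refine Finset.prod_congr rfl fun j _ => ?_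
        rw [← zpow_mul, mul_comm]
      simp only [h2]
      rw [Finset.prod_comm]
      refine Finset.prod_congr rfl fun j _ => ?_
      have h3 : ∀ T : Finset (Fin r), ∏ i ∈ T, w j ^ (b i * a i j) =
          w j ^ (∑ i ∈ T, b i * a i j) := by
        intro T
        induction T using Finset.induction_on with
        | empty => simp
        | insert i T hi ih => rw [Finset.prod_insert hi, Finset.sum_insert hi, ih, zpow_add]
      exact h3 _
    have h2 : (∏ i, γu i ^ b i) ∈ constU ℂ B :=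
      Subgroup.prod_mem _ fun i _ => Subgroup.zpow_mem _ (hγc i) _
    have h3 : (∏ i, x i ^ b i) ∈ constU ℂ B := ⟨c', hc'⟩
    have h4 : (∏ j, w j ^ (∑ i, b i * a i j)) ∈ constU ℂ B := by
      rw [h1] at h3
      exact (Subgroup.mul_mem_cancel_left _ h2).1 h3
    have h5 := zpow_const w hw (fun j => ∑ i, b i * a i j) h4
    exact rows_indep a hspan b fun j => congrFun h5 j
  refine ramW Γ hr x hxW hx hM m hm hmM f (fun j => y (J j)) (fun j => hyI _) ?_ hnp hT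
  intro j
  rw [hJ]
  congr 1
  congr 1
  funext i
  exact (hxM i).symm

/-- the alternative for solutions in a coset of a subtorus -/
theorem coset_alt (Γ : GeoW B) (ρ : Rp ℂ B) {N n : ℕ} {Q : Type} [Fintype Q]
    (U : Fin n → Fin N) (J : Q → Fin N)
    (m : Q → ℕ) (hm : ∀ j, 2 ≤ m j) {M : ℕ} (hM : 1 ≤ M) (hmM : ∀ j, m j ∣ M) (ζ : ℂ)
    (hζ : IsPrimitiveRoot ζ M) (f : Q → MvPolynomial (Fin n) ℂ) (y : Fin N → B)
    (hyI : ∀ i, y i ∈ Γ.I) {ι : Type} [Finite ι] (F : ι → MvPolynomial (Fin N) ℂ)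
    (hF : ∀ l, aeval y (F l) = 0) (d : DatU ℂ U y M Γ.W)
    (hJ : ∀ j, y (J j) ^ m j = aeval (fun i => y (U i)) (f j))
    (κ : Q → Fin d.r → ℕ) (hκ : ∀ j, GoodShift (fun l => m j * κ j l) d.a (f j))
    (hT : Tame m (fun j => PP (fun l => m j * κ j l) d.a d.c (f j)))
    {E : Type} [Field E] [IsAlgClosed E] (θ : B →+* E) (hθ : Function.Injective θ) :
    (∃ z : Fin N → E, (∀ l, eval₂ (θ.comp (algebraMap ℂ B)) z (F l) = 0) ∧
      (∀ i, z (U i) = θ (y (U i))) ∧ (∀ j, z (J j) = θ (y (J j))) ∧ z ≠ fun j => θ (y j)) ∨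
    ∀ᶠ t in ρ.G, CurveAt ρ F y t := by
  classical
  let P : Q → MvPolynomial (Fin d.r) ℂ := fun j => PP (fun l => m j * κ j l) d.a d.c (f j)
  let mo : Q → Bˣ := fun j => ∏ l, d.w l ^ (M * κ j l)
  let z : Q → B := fun j => (mo j : B) * y (J j)
  have hz : ∀ j, z j ^ m j = aeval (fun i => (d.w i : B) ^ M) (P j) := by
    intro j
    simp only [P, z]
    rw [← mon_zpow d.w M (fun l => m j * κ j l) d.a d.c (f j) (hκ j) (fun i => y (U i)) d.hU,
      ← hJ, mul_pow]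
    congr 1
    rw [← Units.val_pow_eq_pow_val, ← Finset.prod_pow]
    congr 1
    refine Finset.prod_congr rfl fun l _ => ?_
    rw [← pow_mul]
    congr 1
    ring
  have hzI : ∀ j, z j ∈ Γ.I := fun j =>
    Γ.I.mul_mem (Γ.W_I _ (Subgroup.prod_mem _ fun l _ => Subgroup.pow_mem _ (d.hwW l) _)) (hyI _)
  have hall : ∀ j, PowForm (m j) (P j) := by
    by_contra hcon
    push Not at hcon
    have hT2 := Tame_sub hT hcon
    exact ramW Γ d.hr d.w d.hwW d.hw hM
      (J := {j // ¬ PowForm (m j) (P j)}) (fun j => m j.1) (fun j => hm j.1)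
      (fun j => hmM j.1) (fun j => P j.1) (fun j => z j.1) (fun j => hzI j.1)
      (fun j => hz j.1) (fun j => j.2) hT2
  -- the roots are rational functions
  have hratJ : ∀ j, y (J j) ∈ RatSub (fun j => (d.w j : B)) d.hw := by
    intro j
    obtain ⟨p, hp⟩ := rat_of_powForm (by have := hm j; omega) hM (hmM j) hζ
      (fun i => (d.w i : B)) (P j) (z j) (hz j) (hall j)
    have h1 : z j ∈ RatSub (fun j => (d.w j : B)) d.hw :=
      ⟨p, 1, one_ne_zero, by rw [map_one, one_mul, hp]⟩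
    have h2 : y (J j) = ((∏ l, d.w l ^ (-((M * κ j l : ℕ) : ℤ)) : Bˣ) : B) * z j := by
      have h3 : (∏ l, d.w l ^ (-((M * κ j l : ℕ) : ℤ)) : Bˣ) = (mo j)⁻¹ := by
        simp only [mo]
        rw [← Finset.prod_inv_distrib]
        refine Finset.prod_congr rfl fun l _ => ?_
        rw [zpow_neg, zpow_natCast]
      rw [h3]
      simp only [z]
      rw [← mul_assoc, Units.inv_mul, one_mul]
    rw [h2]
    exact Subalgebra.mul_mem _ (prod_mem_RatSub d.w d.hw _) h1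
  rcases alt_curve Γ ρ hM d hyI F hF (Finset.univ.image U ∪ Finset.univ.image J) (by
    intro i hi
    rcases Finset.mem_union.1 hi with h | h
    · obtain ⟨l, -, rfl⟩ := Finset.mem_image.1 h
      exact U_mem_RatSub d l
    · obtain ⟨l, -, rfl⟩ := Finset.mem_image.1 h
      exact hratJ l) θ hθ with ⟨z, h1, h2, h3⟩ | h
  · left
    refine ⟨z, h1, fun i => h2 _ ?_, fun j => h2 _ ?_, h3⟩
    · exact Finset.mem_union_left _ (Finset.mem_image_of_mem _ (Finset.mem_univ _))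
    · exact Finset.mem_union_right _ (Finset.mem_image_of_mem _ (Finset.mem_univ _))
  · exact Or.inr h

/-- the alternative for solutions which are not in a coset of a subtorus -/
theorem full_alt (Γ : GeoW B) (ρ : Rp ℂ B) {N n : ℕ} {Q : Type} [Fintype Q]
    (U : Fin n → Fin N) (J : Q → Fin N)
    (m : Q → ℕ) (hm : ∀ j, 2 ≤ m j) {M : ℕ} (hM : 1 ≤ M) (hmM : ∀ j, m j ∣ M) (ζ : ℂ)
    (hζ : IsPrimitiveRoot ζ M) (f : Q → MvPolynomial (Fin n) ℂ) (y : Fin N → B)
    (hyI : ∀ i, y i ∈ Γ.I) {ι : Type} [Finite ι] (F : ι → MvPolynomial (Fin N) ℂ)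
    (hF : ∀ l, aeval y (F l) = 0) (d : DatU ℂ U y M Γ.W)
    (hJ : ∀ j, y (J j) ^ m j = aeval (fun i => y (U i)) (f j))
    (hrc : ∀ i, ∃ γ : ℂ, γ ^ M = d.c i) (hdr : d.r = n) (hT : Tame m f)
    {E : Type} [Field E] [IsAlgClosed E] (θ : B →+* E) (hθ : Function.Injective θ) :
    (∃ z : Fin N → E, (∀ l, eval₂ (θ.comp (algebraMap ℂ B)) z (F l) = 0) ∧
      (∀ i, z (U i) = θ (y (U i))) ∧ (∀ j, z (J j) = θ (y (J j))) ∧ z ≠ fun j => θ (y j)) ∨
    ∀ᶠ t in ρ.G, CurveAt ρ F y t := by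
  classical
  have hall : ∀ j, PowForm (m j) (f j) := by
    by_contra hcon
    push Not at hcon
    have hT2 := Tame_sub hT hcon
    exact main_full Γ U (fun j : {j // ¬ PowForm (m j) (f j)} => J j.1) (fun j => m j.1)
      (fun j => hm j.1) hM (fun j => hmM j.1) ζ hζ (fun j => f j.1) y hyI d
      (fun j => hJ j.1) hrc hdr (fun j => j.2) hT2
  obtain ⟨γu, hγW, hγc, hxM⟩ := exists_roots Γ U hM y d hrc
  let x : Fin n → Bˣ := fun i => γu i * ∏ j, d.w j ^ d.a i j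
  have hx : ∀ i, (x i : B) ∈ RatSub (fun j => (d.w j : B)) d.hw := by
    intro i
    obtain ⟨c, hc⟩ := hγc i
    simp only [x]
    rw [Units.val_mul, hc]
    exact Subalgebra.mul_mem _ (Subalgebra.algebraMap_mem _ _) (prod_mem_RatSub d.w d.hw _)
  have hratJ : ∀ j, y (J j) ∈ RatSub (fun j => (d.w j : B)) d.hw := by
    intro j
    obtain ⟨p, hp⟩ := rat_of_powForm (by have := hm j; omega) hM (hmM j) hζ
      (fun i => (x i : B)) (f j) (y (J j)) (by
        rw [hJ]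
        congr 1
        congr 1
        funext i
        exact (hxM i).symm) (hall j)
    rw [hp]
    have h1 : ∀ p : MvPolynomial (Fin n) ℂ, aeval (fun i => (x i : B)) p ∈
        RatSub (fun j => (d.w j : B)) d.hw := by
      intro p
      induction p using MvPolynomial.induction_on with
      | C a =>
        rw [← MvPolynomial.algebraMap_eq, AlgHom.commutes]
        exact Subalgebra.algebraMap_mem _ _
      | add p q hp hq =>
        rw [map_add]
        exact Subalgebra.add_mem _ hp hq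
      | mul_X p j hp =>
        rw [map_mul, aeval_X]
        exact Subalgebra.mul_mem _ hp (hx j)
    exact h1 p
  rcases alt_curve Γ ρ hM d hyI F hF (Finset.univ.image U ∪ Finset.univ.image J) (by
    intro i hi
    rcases Finset.mem_union.1 hi with h | h
    · obtain ⟨l, -, rfl⟩ := Finset.mem_image.1 h
      exact U_mem_RatSub d l
    · obtain ⟨l, -, rfl⟩ := Finset.mem_image.1 h
      exact hratJ l) θ hθ with ⟨z, h1, h2, h3⟩ | h
  · left
    refine ⟨z, h1, fun i => h2 _ ?_, fun j => h2 _ ?_, h3⟩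
    · exact Finset.mem_union_left _ (Finset.mem_image_of_mem _ (Finset.mem_univ _))
    · exact Finset.mem_union_right _ (Finset.mem_image_of_mem _ (Finset.mem_univ _))
  · exact Or.inr h

/-- the data of the units -/
theorem exists_datU (Γ : GeoW B) {N n : ℕ} (U : Fin n → Fin N) (M : ℕ) (y : Fin N → B)
    (v : Fin n → Bˣ) (hvW : ∀ i, v i ∈ Γ.W) (hv : ∀ i, (v i : B) ^ M = y (U i)) :
    (∀ i, ∃ c : ℂ, y (U i) = algebraMap ℂ B c) ∨
    ∃ d : DatU ℂ U y M Γ.W, ∀ i, ∃ γ : ℂ, γ ^ M = d.c i := by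
  classical
  let C : Subgroup Γ.W := (constU ℂ B).subgroupOf Γ.W
  obtain ⟨r, w', a, c', hc', hu', hind', hspan⟩ := exists_basis C
    (fun g m hm h => by
      obtain ⟨c, hc⟩ := Γ.htf g.1 g.2 m hm h
      exact ⟨c, hc⟩) (fun i : Fin n => (⟨v i, hvW i⟩ : Γ.W))
  let w : Fin r → Bˣ := fun j => (w' j).1
  have hwW : ∀ j, w j ∈ Γ.W := fun j => (w' j).2
  have hprod : ∀ b : Fin r → ℤ, ((∏ j, w' j ^ b j : Γ.W) : Bˣ) = ∏ j, w j ^ b j := by
    intro b
    rw [Subgroup.val_finsetProd]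
    exact Finset.prod_congr rfl fun j _ => rfl
  have hind : ∀ b : Fin r → ℤ, (∃ c : ℂ, ((∏ j, w j ^ b j : Bˣ) : B) = algebraMap ℂ B c) →
      b = 0 := by
    intro b ⟨c, hc⟩
    apply hind'
    refine ⟨c, ?_⟩
    have h1 : (Γ.W.subtype (∏ j, w' j ^ b j) : Bˣ) = ∏ j, w j ^ b j := hprod b
    rw [h1]
    exact hc
  have hw := algInd_of_units Γ.W Γ.hunit w hwW hind
  have hc2 : ∀ i, ∃ c : ℂ, ((c' i).1 : B) = algebraMap ℂ B c := fun i => hc' i
  choose c hc using hc2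
  have hc0 : ∀ i, c i ≠ 0 := by
    intro i h
    have h1 := hc i
    rw [h, map_zero] at h1
    exact (c' i).1.ne_zero h1
  have hvi : ∀ i, (v i : B) = algebraMap ℂ B (c i) * (∏ j, w j ^ a i j : Bˣ) := by
    intro i
    have h1 := congrArg (fun g : Γ.W => ((g : Bˣ) : B)) (hu' i)
    simp only [Subgroup.coe_mul, Units.val_mul] at h1
    rw [hprod, hc] at h1
    exact h1
  by_cases hr : r = 0
  · left
    intro i
    refine ⟨c i ^ M, ?_⟩
    subst hr
    rw [← hv, hvi, Finset.univ_eq_empty, Finset.prod_empty, Units.val_one, mul_one, map_pow]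
  · right
    refine ⟨{ r := r, hr := by omega, w := w, hwW := hwW, hw := hw, a := a, c := fun i => c i ^ M,
              hc := fun i => pow_ne_zero _ (hc0 i), hU := ?_, hspan := hspan }, fun i => ⟨c i, rfl⟩⟩
    intro i
    rw [← hv, hvi, mul_pow, map_pow]
    congr 1
    rw [← Units.val_pow_eq_pow_val, ← Finset.prod_pow]
    congr 1
    refine Finset.prod_congr rfl fun j _ => ?_
    rw [← zpow_natCast, ← zpow_mul, mul_comm]

/-- the alternative for solutions with constant unit coordinates -/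
theorem const_alt (Γ : GeoW B) {N n : ℕ} {Q : Type} [Fintype Q]
    (U : Fin n → Fin N) (J : Q → Fin N) (m : Q → ℕ) (hm : ∀ j, 2 ≤ m j)
    (f : Q → MvPolynomial (Fin n) ℂ) (y : Fin N → B)
    (hyI : ∀ i, y i ∈ Γ.I) {ι : Type} (F : ι → MvPolynomial (Fin N) ℂ)
    (hF : ∀ l, aeval y (F l) = 0)
    (hJ : ∀ j, y (J j) ^ m j = aeval (fun i => y (U i)) (f j))
    (hc : ∀ i, ∃ c : ℂ, y (U i) = algebraMap ℂ B c)
    (hync : ∃ i, ∀ c : ℂ, y i ≠ algebraMap ℂ B c)
    {E : Type} [Field E] [IsAlgClosed E] (θ : B →+* E) (hθ : Function.Injective θ) :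
    (∃ z : Fin N → E, (∀ l, eval₂ (θ.comp (algebraMap ℂ B)) z (F l) = 0) ∧
      (∀ i, z (U i) = θ (y (U i))) ∧ (∀ j, z (J j) = θ (y (J j))) ∧ z ≠ fun j => θ (y j)) := by
  classical
  choose c hc using hc
  have hcJ : ∀ j, ∃ c : ℂ, y (J j) = algebraMap ℂ B c := by
    intro j
    have hm2 := hm j
    obtain ⟨m', hm'⟩ : ∃ m', m j = m' + 1 := ⟨m j - 1, by omega⟩
    have h1 : y (J j) ^ m j = algebraMap ℂ B (aeval c (f j)) := by
      rw [hJ]
      have h2 : (fun i => y (U i)) = fun i => algebraMap ℂ B (c i) := funext hc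
      rw [h2]
      have h3 : ((Algebra.ofId ℂ B).comp (aeval c) : MvPolynomial (Fin n) ℂ →ₐ[ℂ] B) =
          aeval (fun i => algebraMap ℂ B (c i)) := by
        ext i
        simp [Algebra.ofId_apply]
      rw [← h3]
      rfl
    by_cases h0 : aeval c (f j) = 0
    · refine ⟨0, ?_⟩
      rw [h0, map_zero] at h1
      rw [map_zero]
      exact (pow_eq_zero_iff (by omega)).1 h1
    · set e := aeval c (f j) with he
      have h2 : y (J j) * (algebraMap ℂ B e⁻¹ * y (J j) ^ m') = 1 := by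
        have h3 : y (J j) * (algebraMap ℂ B e⁻¹ * y (J j) ^ m') =
            algebraMap ℂ B e⁻¹ * y (J j) ^ m j := by
          rw [hm', pow_succ]
          ring
        rw [h3, h1, ← map_mul, inv_mul_cancel₀ h0, map_one]
      let u : Bˣ := ⟨y (J j), algebraMap ℂ B e⁻¹ * y (J j) ^ m', h2, by rw [mul_comm]; exact h2⟩
      have hu : u ∈ Γ.W := Γ.I_W u (hyI _) (Γ.I.mul_mem (Γ.I_const _) (Γ.I.pow_mem (hyI _) _))
      obtain ⟨c', hc'⟩ := Γ.htf u hu (m j) (by omega) ⟨e, by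
        rw [Units.val_pow_eq_pow_val]
        exact h1⟩
      exact ⟨c', hc'⟩
  choose cJ hcJ using hcJ
  have hw0 : AlgebraicIndependent ℂ (fun j : Fin 0 => (j.elim0 : B)) := by
    have h1 : Function.Injective (aeval (R := ℂ) fun j : Fin 0 => (j.elim0 : B)) := by
      intro P Q h
      have h5 : ∀ P : MvPolynomial (Fin 0) ℂ, P = MvPolynomial.C (coeff 0 P) := fun P =>
        eq_C_of_isEmpty P
      rw [h5 P, h5 Q, ← MvPolynomial.algebraMap_eq, AlgHom.commutes, AlgHom.commutes] at h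
      rw [h5 P, h5 Q, (algebraMap ℂ B).injective h]
    exact h1
  have hconst : ∀ i ∈ (Finset.univ.image U ∪ Finset.univ.image J), ∃ c : ℂ,
      y i = algebraMap ℂ B c := by
    intro i hi
    rcases Finset.mem_union.1 hi with h | h
    · obtain ⟨l, -, rfl⟩ := Finset.mem_image.1 h
      exact ⟨_, hc l⟩
    · obtain ⟨l, -, rfl⟩ := Finset.mem_image.1 h
      exact ⟨_, hcJ l⟩
  choose! c2 hc2 using hconst
  rcases second_point (Finset.univ.image U ∪ Finset.univ.image J) F y hF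
    (fun j : Fin 0 => (j.elim0 : B)) hw0 (fun i => C (c2 i)) (fun _ => 1)
    (fun i _ => one_ne_zero) (fun i hi => by
      rw [map_one, one_mul, hc2 i hi, ← MvPolynomial.algebraMap_eq, AlgHom.commutes]) θ hθ with
    ⟨z, h1, h2, h3⟩ | h
  · refine ⟨z, h1, fun i => h2 _ ?_, fun j => h2 _ ?_, h3⟩
    · exact Finset.mem_union_left _ (Finset.mem_image_of_mem _ (Finset.mem_univ _))
    · exact Finset.mem_union_right _ (Finset.mem_image_of_mem _ (Finset.mem_univ _))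
  · exfalso
    obtain ⟨i, hi⟩ := hync
    obtain ⟨p, q, -, hq, h4⟩ := h i
    have h5 : ∀ P : MvPolynomial (Fin 0) ℂ, P = MvPolynomial.C (coeff 0 P) := fun P =>
      eq_C_of_isEmpty P
    rw [h5 q, h5 p, ← MvPolynomial.algebraMap_eq, AlgHom.commutes, AlgHom.commutes] at h4
    have h6 : coeff 0 q ≠ 0 := by
      intro h
      apply hq
      rw [h5 q, h, C_0]
    apply hi ((coeff 0 q)⁻¹ * coeff 0 p)
    rw [map_mul, ← h4, ← mul_assoc, ← map_mul, inv_mul_cancel₀ h6, map_one, one_mul]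

end GW

end Pool.Agent.H434
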