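import Mathlib
import Pool.Agent.H434.W2
import Pool.Agent.H434.GeoA
import Pool.Graph.R_pool_sql_team_seeded_63374d34.N754.FG.Core

/-!
Germs of sequences in finitely generated rings.
-/

set_option autoImplicit false
set_option linter.unusedSectionVars false

open Finset MvPolynomial Filter

namespace Pool.Agent.H434

open NumberField IsDedekindDomain
open Pool.Agent.N754.LT Pool.Agent.N754.FG
open Pool.Agent.Y742.SF Pool.Agent.Y742.AR

variable (𝒰 : Ultrafilter ℕ)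

theorem closure_le_union_left (s t : Finset ℂ) : Subring.closure (s : Set ℂ) ≤
    Subring.closure ((s ∪ t : Finset ℂ) : Set ℂ) :=
  Subring.closure_mono (by rw [Finset.coe_union]; exact Set.subset_union_left)

theorem closure_le_union_right (s t : Finset ℂ) : Subring.closure (t : Set ℂ) ≤
    Subring.closure ((s ∪ t : Finset ℂ) : Set ℂ) :=
  Subring.closure_mono (by rw [Finset.coe_union]; exact Set.subset_union_right)

/-- germs of sequences in finitely generated rings -/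
noncomputable def IC : Subring (BC 𝒰) where
  carrier := {x | ∃ (s : Finset ℂ) (f : ℕ → Subring.closure (s : Set ℂ)),
    PhC 𝒰 (Subring.closure (s : Set ℂ)) f = x}
  mul_mem' := by
    rintro _ _ ⟨s, f, rfl⟩ ⟨t, g, rfl⟩
    refine ⟨s ∪ t, inR (closure_le_union_left s t) f * inR (closure_le_union_right s t) g, ?_⟩
    rw [map_mul, PhC_inR, PhC_inR]
  one_mem' := ⟨∅, 1, map_one _⟩
  add_mem' := by
    rintro _ _ ⟨s, f, rfl⟩ ⟨t, g, rfl⟩
    refine ⟨s ∪ t, inR (closure_le_union_left s t) f + inR (closure_le_union_right s t) g, ?_⟩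
    rw [map_add, PhC_inR, PhC_inR]
  zero_mem' := ⟨∅, 0, map_zero _⟩
  neg_mem' := by
    rintro _ ⟨s, f, rfl⟩
    exact ⟨s, -f, map_neg _ _⟩

theorem mem_IC (x : BC 𝒰) : x ∈ IC 𝒰 ↔ ∃ (s : Finset ℂ) (f : ℕ → Subring.closure (s : Set ℂ)),
    PhC 𝒰 (Subring.closure (s : Set ℂ)) f = x := Iff.rfl

/-- germs of sequences of units of finitely generated rings -/
noncomputable def WCC : Subgroup (BC 𝒰)ˣ where
  carrier := {u | ∃ s : Finset ℂ, u ∈ WC 𝒰 (Subring.closure (s : Set ℂ))}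
  mul_mem' := by
    rintro a b ⟨s, hs⟩ ⟨t, ht⟩
    exact ⟨s ∪ t, Subgroup.mul_mem _ (WC_mono 𝒰 (closure_le_union_left s t) hs)
      (WC_mono 𝒰 (closure_le_union_right s t) ht)⟩
  one_mem' := ⟨∅, Subgroup.one_mem _⟩
  inv_mem' := by
    rintro a ⟨s, hs⟩
    exact ⟨s, Subgroup.inv_mem _ hs⟩

theorem mem_WCC (u : (BC 𝒰)ˣ) :
    u ∈ WCC 𝒰 ↔ ∃ s : Finset ℂ, u ∈ WC 𝒰 (Subring.closure (s : Set ℂ)) := Iff.rfl

/-- finitely many germs have values in a common ring -/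
theorem common {r q : ℕ} (w : Fin r → (BC 𝒰)ˣ) (hw : ∀ j, w j ∈ WCC 𝒰) (z : Fin q → BC 𝒰)
    (hz : ∀ j, z j ∈ IC 𝒰) (T : Set ℂ) (hT : T.Finite) :
    ∃ s : Set ℂ, s.Finite ∧ T ⊆ s ∧ (∀ j, w j ∈ WC 𝒰 (Subring.closure s)) ∧
      ∀ j, ∃ f : ℕ → Subring.closure s, PhC 𝒰 (Subring.closure s) f = z j := by
  classical
  choose a ha using hw
  choose b f hf using hz
  let s : Set ℂ := T ∪ ((⋃ j, (a j : Set ℂ)) ∪ ⋃ j, (b j : Set ℂ))
  refine ⟨s, hT.union ((Set.finite_iUnion fun j => Finset.finite_toSet _).union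
    (Set.finite_iUnion fun j => Finset.finite_toSet _)), Set.subset_union_left, fun j => ?_,
    fun j => ?_⟩
  · refine WC_mono 𝒰 (Subring.closure_mono ?_) (ha j)
    intro x hx
    exact Or.inr (Or.inl (Set.mem_iUnion.2 ⟨j, hx⟩))
  · have hle : Subring.closure (b j : Set ℂ) ≤ Subring.closure s := Subring.closure_mono (by
      intro x hx
      exact Or.inr (Or.inr (Set.mem_iUnion.2 ⟨j, hx⟩)))
    exact ⟨inR hle (f j), by rw [PhC_inR, hf]⟩

theorem IC_W (u : (BC 𝒰)ˣ) (h1 : (u : BC 𝒰) ∈ IC 𝒰) (h2 : ((u⁻¹ : (BC 𝒰)ˣ) : BC 𝒰) ∈ IC 𝒰) :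
    u ∈ WCC 𝒰 := by
  classical
  obtain ⟨s, f0, hf0⟩ := h1
  obtain ⟨t, g0, hg0⟩ := h2
  let R : Subring ℂ := Subring.closure ((s ∪ t : Finset ℂ) : Set ℂ)
  let f : ℕ → R := inR (closure_le_union_left s t) f0
  let g : ℕ → R := inR (closure_le_union_right s t) g0
  have hf : PhC 𝒰 R f = (u : BC 𝒰) := by
    rw [← hf0]
    exact PhC_inR 𝒰 _ _
  have hg : PhC 𝒰 R g = ((u⁻¹ : (BC 𝒰)ˣ) : BC 𝒰) := by
    rw [← hg0]
    exact PhC_inR 𝒰 _ _
  have h3 : ∀ᶠ t in (𝒰 : Filter ℕ), f t * g t = 1 := by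
    have h4 : PhC 𝒰 R (f * g) = PhC 𝒰 R 1 := by
      rw [map_mul, hf, hg, map_one, Units.mul_inv]
    rw [PhC_apply, PhC_apply, gC_eq] at h4
    filter_upwards [h4] with t ht
    exact Subtype.ext ht
  let f' : ℕ → R := fun t => if f t * g t = 1 then f t else 1
  let g' : ℕ → R := fun t => if f t * g t = 1 then g t else 1
  have hfg : f' * g' = 1 := by
    funext t
    show f' t * g' t = 1
    simp only [f', g']
    split_ifs with h
    · exact h
    · exact mul_one 1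
  refine ⟨s ∪ t, ⟨⟨f', g', hfg, by rw [mul_comm]; exact hfg⟩, ?_⟩⟩
  apply Units.ext
  show PhC 𝒰 R f' = (u : BC 𝒰)
  rw [← hf, PhC_apply, PhC_apply, gC_eq]
  filter_upwards [h3] with t ht
  simp only [f']
  rw [if_pos ht]

theorem unit_gen (hSP : SP) (m : ℕ) (g : Fin m → (BC 𝒰)ˣ) (hg : ∀ i, g i ∈ WCC 𝒰)
    (hne : ∀ i j, i ≠ j → ∀ c : ℂ, (g i : BC 𝒰) ≠ algebraMap ℂ (BC 𝒰) c * g j)
    (c : Fin m → ℂ) (hc : ∑ i, algebraMap ℂ (BC 𝒰) (c i) * g i = 0) : c = 0 := by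
  obtain ⟨s, hs, -, h1, -⟩ := common 𝒰 g hg (fun j : Fin 0 => j.elim0) (fun j => j.elim0) ∅
    Set.finite_empty
  exact unitC 𝒰 hSP s hs m g h1 hne c hc

/-- specialised units are independent -/
theorem spec_ind {R : Subring ℂ} {M : Type} [Field M] [NumberField M] [IsGalois ℚ M] (D : PD M)
    (φ : R →+* M) (h2 : ∀ u : Rˣ, φ u = 1 → u = 1) (h3 : ∀ x, D.TInt (φ x)) {r : ℕ}
    (w : Fin r → (BC 𝒰)ˣ) (hw : AlgebraicIndependent ℂ (fun j => (w j : BC 𝒰)))
    (u : Fin r → (ℕ → R)ˣ) (hu : ∀ j, Units.map (PhC 𝒰 R : (ℕ → R) →* BC 𝒰) (u j) = w j) :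
    AlgebraicIndependent M (fun j =>
      ((Units.map (PhM 𝒰 φ : (ℕ → R) →* BA M 𝒰) (u j) : (BA M 𝒰)ˣ) : BA M 𝒰)) := by
  classical
  refine algInd_of_units (WA D 𝒰) (unitA D 𝒰) _ (fun j => PhM_unit_mem 𝒰 φ D h3 (u j)) ?_
  rintro b ⟨c, hc⟩
  have h4 : ((∏ j, Units.map (PhM 𝒰 φ : (ℕ → R) →* BA M 𝒰) (u j) ^ b j : (BA M 𝒰)ˣ) : BA M 𝒰) =
      PhM 𝒰 φ ((∏ j, u j ^ b j : (ℕ → R)ˣ) : ℕ → R) := by
    have h5 : (∏ j, Units.map (PhM 𝒰 φ : (ℕ → R) →* BA M 𝒰) (u j) ^ b j : (BA M 𝒰)ˣ) =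
        Units.map (PhM 𝒰 φ : (ℕ → R) →* BA M 𝒰) (∏ j, u j ^ b j) := by
      rw [map_prod]
      exact Finset.prod_congr rfl fun j _ => (map_zpow _ _ _).symm
    rw [h5]
    rfl
  obtain ⟨c', hc'⟩ := const_of_constM 𝒰 φ h2 (∏ j, u j ^ b j) ⟨c, by rw [← h4, hc]⟩
  have h6 : PhC 𝒰 R ((∏ j, u j ^ b j : (ℕ → R)ˣ) : ℕ → R) =
      ((∏ j, w j ^ b j : (BC 𝒰)ˣ) : BC 𝒰) := by
    have h5 : (∏ j, w j ^ b j : (BC 𝒰)ˣ) =
        Units.map (PhC 𝒰 R : (ℕ → R) →* BC 𝒰) (∏ j, u j ^ b j) := by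
      rw [map_prod]
      refine Finset.prod_congr rfl fun j _ => ?_
      rw [map_zpow, hu j]
    rw [h5]
    rfl
  rw [h6] at hc'
  exact exp_zero w hw b c' hc'

theorem prim_spec {R : Type} [CommRing R] [IsDomain R] {M : Type} [Field M] (φ : R →+* M)
    (h2 : ∀ u : Rˣ, φ u = 1 → u = 1) {e : ℕ} (he : 1 ≤ e) (ζ : R) (hζ : IsPrimitiveRoot ζ e) :
    IsPrimitiveRoot (φ ζ) e := by
  refine ⟨by rw [← map_pow, hζ.pow_eq_one, map_one], fun l hl => ?_⟩
  have h1 : φ ((hζ.isUnit (by omega)).unit ^ l : Rˣ) = 1 := by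
    rw [Units.val_pow_eq_pow_val, map_pow]
    exact hl
  have h3 := h2 _ h1
  apply hζ.dvd_of_pow_eq_one
  have h4 := congrArg (fun u : Rˣ => (u : R)) h3
  simpa using h4

theorem ram_gen (hSP : SP) (r : ℕ) (hr : 1 ≤ r) (w : Fin r → (BC 𝒰)ˣ) (hwW : ∀ j, w j ∈ WCC 𝒰)
    (hw : AlgebraicIndependent ℂ (fun j => (w j : BC 𝒰))) (e : ℕ) (he : 1 ≤ e) (q : ℕ)
    (m : Fin q → ℕ) (hm : ∀ j, 2 ≤ m j) (hme : ∀ j, m j ∣ e)
    (P : Fin q → MvPolynomial (Fin r) ℂ) (z : Fin q → BC 𝒰) (hzI : ∀ j, z j ∈ IC 𝒰)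
    (hz : ∀ j, z j ^ m j = aeval (fun i => (w i : BC 𝒰) ^ e) (P j))
    (hP : ∀ j, ¬ PowForm (m j) (P j)) (hT : HalfLead m P) : False := by
  classical
  -- the coefficients of the powers
  have hpow : ∀ (j : Fin q) (S : Finset (Fin r →₀ ℕ)), ∃ T : Finset ℂ,
      PowForm (m j) (trunc S (P j)) → ∃ (a : Fin r →₀ ℕ) (g : MvPolynomial (Fin r) ℂ),
        trunc S (P j) = monomial a 1 * g ^ m j ∧ ∀ b, coeff b g ∈ Subring.closure (T : Set ℂ) := by
    intro j S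
    by_cases h : PowForm (m j) (trunc S (P j))
    · obtain ⟨a, g, hg⟩ := h
      refine ⟨g.support.image fun b => coeff b g, fun _ => ⟨a, g, hg, fun b => ?_⟩⟩
      by_cases hb : b ∈ g.support
      · exact Subring.subset_closure (Finset.mem_coe.2 (Finset.mem_image.2 ⟨b, hb, rfl⟩))
      · rw [notMem_support_iff.1 hb]
        exact zero_mem _
    · exact ⟨∅, fun h' => absurd h' h⟩
  choose T hT' using hpow
  let ζ : ℂ := Complex.exp (2 * Real.pi * Complex.I / e)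
  have hζ : IsPrimitiveRoot ζ e := Complex.isPrimitiveRoot_exp e (by omega)
  let T0 : Set ℂ := {ζ} ∪ ((⋃ j, (fun b => coeff b (P j)) '' ((P j).support : Set (Fin r →₀ ℕ))) ∪
    ⋃ j, ⋃ S ∈ (P j).support.powerset, (T j S : Set ℂ))
  have hT0 : T0.Finite := (Set.finite_singleton _).union
    ((Set.finite_iUnion fun j => (Finset.finite_toSet _).image _).union
      (Set.finite_iUnion fun j => Set.Finite.biUnion (Finset.finite_toSet _) fun S _ =>
        Finset.finite_toSet _))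
  obtain ⟨s, hs, hTs, hws, hzs⟩ := common 𝒰 w hwW z hzI T0 hT0
  set R : Subring ℂ := Subring.closure s with hR
  have hft : Algebra.FiniteType ℤ R := ft_closure s hs
  have hinj : Function.Injective R.subtype := Subtype.val_injective
  have hPR : ∀ j b, coeff b (P j) ∈ R := by
    intro j b
    by_cases h : b ∈ (P j).support
    · exact Subring.subset_closure (hTs (Or.inr (Or.inl (Set.mem_iUnion.2 ⟨j, b, h, rfl⟩))))
    · rw [notMem_support_iff.1 h]
      exact zero_mem _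
  have hζR : ζ ∈ R := Subring.subset_closure (hTs (Or.inl rfl))
  choose P0 hP0 using fun j => lift_pol R (P j) (hPR j)
  have hsupp0 : ∀ j, (P0 j).support = (P j).support := by
    intro j
    rw [← hP0 j]
    exact (support_map_of_injective (P0 j) hinj).symm
  have hpow0 : ∀ j, ∀ S ⊆ (P j).support, PowForm (m j) (trunc S (P j)) →
      ∃ (a : Fin r →₀ ℕ) (g : MvPolynomial (Fin r) R),
        ∑ b ∈ S, monomial b (coeff b (P0 j)) = monomial a 1 * g ^ m j := by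
    intro j S hS h
    obtain ⟨a, g, hg, hgT⟩ := hT' j S h
    have hle : Subring.closure (T j S : Set ℂ) ≤ R := Subring.closure_mono (by
      intro x hx
      exact hTs (Or.inr (Or.inr (Set.mem_iUnion.2 ⟨j, Set.mem_biUnion (x := S)
        (Finset.mem_coe.2 (Finset.mem_powerset.2 hS)) hx⟩))))
    obtain ⟨g0, hg0⟩ := lift_pol R g fun b => hle (hgT b)
    refine ⟨a, g0, ?_⟩
    apply MvPolynomial.map_injective R.subtype hinj
    rw [map_mul, map_pow, hg0, map_monomial, map_one, ← hg, map_sum]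
    unfold trunc
    refine Finset.sum_congr rfl fun b _ => ?_
    rw [map_monomial, ← hP0 j, coeff_map]
  choose hh hh0 hhP using fun j => not_powForm_spec R R.subtype hinj
    (show 1 ≤ m j by have := hm j; omega) (P0 j) (by rw [hP0]; exact hP j)
  let H : R := (∏ j, hh j) * ∏ j, ∏ b ∈ (P0 j).support, coeff b (P0 j)
  have hH : H ≠ 0 := mul_ne_zero (Finset.prod_ne_zero_iff.2 fun i _ => hh0 i)
    (Finset.prod_ne_zero_iff.2 fun i _ => Finset.prod_ne_zero_iff.2 fun b hb =>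
      mem_support_iff.1 hb)
  obtain ⟨M, hM1, hM2, hM3, D, φ, h1, h2, h3⟩ := spM hSP R H hH
  rw [map_mul, map_prod, map_prod] at h1
  have hφh : ∀ i, φ (hh i) ≠ 0 := fun i =>
    Finset.prod_ne_zero_iff.1 (left_ne_zero_of_mul h1) i (Finset.mem_univ i)
  have hφc : ∀ i, ∀ b ∈ (P0 i).support, φ (coeff b (P0 i)) ≠ 0 := by
    intro i b hb
    have h4 := Finset.prod_ne_zero_iff.1 (right_ne_zero_of_mul h1) i (Finset.mem_univ i)
    rw [map_prod] at h4
    exact Finset.prod_ne_zero_iff.1 h4 b hb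
  have hsupp' : ∀ i, (MvPolynomial.map φ (P0 i)).support = (P i).support := by
    intro i
    rw [← hsupp0 i]
    apply Finset.Subset.antisymm (support_map_subset φ (P0 i))
    intro b hb
    rw [mem_support_iff, coeff_map]
    exact hφc i b hb
  -- the units and the roots
  choose u hu using fun j => (mem_WC 𝒰 R (w j)).1 (hws j)
  have huv : ∀ j, PhC 𝒰 R (u j : ℕ → R) = w j := fun j => by
    rw [← hu j]
    rfl
  choose f hf using hzs
  have hwAI := spec_ind 𝒰 D φ h2 h3 w hw u hu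
  have hζ' : IsPrimitiveRoot (φ ⟨ζ, hζR⟩) e := by
    refine prim_spec φ h2 he _ ?_
    have h4 : IsPrimitiveRoot (R.subtype ⟨ζ, hζR⟩) e := hζ
    exact h4.of_map_of_injective hinj
  have hP' : ∀ j, ¬ PowForm (m j) (MvPolynomial.map φ (P0 j)) := fun j => hhP j M φ (hφh j)
  refine ram_false' (geoA D 𝒰) hr
    (fun j => Units.map (PhM 𝒰 φ : (ℕ → R) →* BA M 𝒰) (u j))
    (fun j => PhM_unit_mem 𝒰 φ D h3 (u j)) hwAI he _ hζ' m hm hme
    (fun j => MvPolynomial.map φ (P0 j)) (fun j => PhM 𝒰 φ (f j))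
    (fun j => PhM_mem 𝒰 φ D h3 _) ?_ hP' ?_
  · intro j
    have h4 := hz j
    have h5 : (fun i => (w i : BC 𝒰) ^ e) = fun i => PhC 𝒰 R ((u i : ℕ → R) ^ e) := by
      funext i
      rw [map_pow, huv]
    rw [← hf j, ← map_pow, h5, ← hP0 j, aevalC, PhC_apply, PhC_apply, gC_eq] at h4
    have h6 : (fun i => ((Units.map (PhM 𝒰 φ : (ℕ → R) →* BA M 𝒰) (u i) : (BA M 𝒰)ˣ) :
        BA M 𝒰) ^ e) = fun i => PhM 𝒰 φ ((u i : ℕ → R) ^ e) := by
      funext i
      rw [map_pow]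
      rfl
    rw [h6, aevalM, ← map_pow, PhM_eq]
    filter_upwards [h4] with t ht
    congr 1
    exact Subtype.ext ht
  · obtain ⟨μ, hμ⟩ := hT
    refine ⟨μ, fun l hl hl2 => ?_⟩
    obtain ⟨j, h⟩ := hμ l hl hl2
    refine ⟨j, gp_lead (show 1 ≤ m j by have := hm j; omega) _ l (hP' j) ?_⟩
    have hsub : leadSet l (P j).support ⊆ (P j).support := fun b hb =>
      ((mem_leadSet l _ _).1 hb).1
    obtain ⟨a, g, hg⟩ := hpow0 j (leadSet l (P j).support) hsub h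
    refine ⟨a, MvPolynomial.map φ g, ?_⟩
    have h4 := congrArg (MvPolynomial.map φ) hg
    rw [map_mul, map_pow, map_monomial, map_one, map_sum] at h4
    rw [← h4]
    unfold lead trunc
    rw [hsupp']
    refine Finset.sum_congr rfl fun b _ => ?_
    rw [map_monomial, coeff_map]

theorem fun_gen (hSP : SP) (hTR : TR) (r n N : ℕ) (hr : 1 ≤ r) (w : Fin r → (BC 𝒰)ˣ)
    (hwW : ∀ j, w j ∈ WCC 𝒰) (hw : AlgebraicIndependent ℂ (fun j => (w j : BC 𝒰)))
    (a : Fin n → Fin r → ℤ) (hspan : ∀ j, Pi.single j 1 ∈ Submodule.span ℤ (Set.range a))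
    (y : Fin N → BC 𝒰) (hyI : ∀ i, y i ∈ IC 𝒰)
    (p q : Fin N → MvPolynomial (Fin r) ℂ) (hpq : ∀ i, IsRelPrime (q i) (p i))
    (hq : ∀ i, q i ≠ 0)
    (hqp : ∀ i, aeval (fun j => (w j : BC 𝒰)) (q i) * y i = aeval (fun j => (w j : BC 𝒰)) (p i)) :
    ∃ l : Fin r → ℤ, (∃ i0, ∑ j, l j * a i0 j ≠ 0) ∧
      ∀ i, ∀ b ∈ (q i).support, ∀ b' ∈ (q i).support,
        ∑ j, l j * (b j : ℤ) = ∑ j, l j * (b' j : ℤ) := by
  classical
  let T0 : Set ℂ := (⋃ i, (fun b => coeff b (p i)) '' ((p i).support : Set (Fin r →₀ ℕ))) ∪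
    ⋃ i, (fun b => coeff b (q i)) '' ((q i).support : Set (Fin r →₀ ℕ))
  have hT0 : T0.Finite := (Set.finite_iUnion fun i => (Finset.finite_toSet _).image _).union
    (Set.finite_iUnion fun i => (Finset.finite_toSet _).image _)
  obtain ⟨s, hs, hTs, hws, hys⟩ := common 𝒰 w hwW y hyI T0 hT0
  set R : Subring ℂ := Subring.closure s with hR
  have hft : Algebra.FiniteType ℤ R := ft_closure s hs
  have hinj : Function.Injective R.subtype := Subtype.val_injective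
  have hpR : ∀ i b, coeff b (p i) ∈ R := by
    intro i b
    by_cases h : b ∈ (p i).support
    · exact Subring.subset_closure (hTs (Or.inl (Set.mem_iUnion.2 ⟨i, b, h, rfl⟩)))
    · rw [notMem_support_iff.1 h]
      exact zero_mem _
  have hqR : ∀ i b, coeff b (q i) ∈ R := by
    intro i b
    by_cases h : b ∈ (q i).support
    · exact Subring.subset_closure (hTs (Or.inr (Set.mem_iUnion.2 ⟨i, b, h, rfl⟩)))
    · rw [notMem_support_iff.1 h]
      exact zero_mem _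
  choose p0 hp0 using fun i => lift_pol R (p i) (hpR i)
  choose q0 hq0 using fun i => lift_pol R (q i) (hqR i)
  have hq00 : ∀ i, q0 i ≠ 0 := by
    intro i h
    apply hq i
    rw [← hq0 i, h, map_zero]
  have hsupp : ∀ i, (q0 i).support = (q i).support := by
    intro i
    rw [← hq0 i]
    exact (support_map_of_injective (q0 i) hinj).symm
  choose hh hh0 hhR using fun i => hTR R ℂ R.subtype hinj r (p0 i) (q0 i) (hq00 i) (by
    rw [hp0, hq0]
    exact hpq i)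
  let H : R := (∏ i, hh i) * ∏ i, ∏ b ∈ (q0 i).support, coeff b (q0 i)
  have hH : H ≠ 0 := mul_ne_zero (Finset.prod_ne_zero_iff.2 fun i _ => hh0 i)
    (Finset.prod_ne_zero_iff.2 fun i _ => Finset.prod_ne_zero_iff.2 fun b hb =>
      mem_support_iff.1 hb)
  obtain ⟨M, hM1, hM2, hM3, D, φ, h1, h2, h3⟩ := spM hSP R H hH
  rw [map_mul, map_prod, map_prod] at h1
  have hφh : ∀ i, φ (hh i) ≠ 0 := fun i =>
    Finset.prod_ne_zero_iff.1 (left_ne_zero_of_mul h1) i (Finset.mem_univ i)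
  have hφc : ∀ i, ∀ b ∈ (q0 i).support, φ (coeff b (q0 i)) ≠ 0 := by
    intro i b hb
    have h4 := Finset.prod_ne_zero_iff.1 (right_ne_zero_of_mul h1) i (Finset.mem_univ i)
    rw [map_prod] at h4
    exact Finset.prod_ne_zero_iff.1 h4 b hb
  have hsupp' : ∀ i, (MvPolynomial.map φ (q0 i)).support = (q i).support := by
    intro i
    rw [← hsupp i]
    apply Finset.Subset.antisymm (support_map_subset φ (q0 i))
    intro b hb
    rw [mem_support_iff, coeff_map]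
    exact hφc i b hb
  choose u hu using fun j => (mem_WC 𝒰 R (w j)).1 (hws j)
  have huv : ∀ j, PhC 𝒰 R (u j : ℕ → R) = w j := fun j => by
    rw [← hu j]
    rfl
  choose f hf using hys
  have hwAI := spec_ind 𝒰 D φ h2 h3 w hw u hu
  obtain ⟨l, hl1, hl2⟩ := fun_of_geo (geoA D 𝒰) hr
    (fun j => Units.map (PhM 𝒰 φ : (ℕ → R) →* BA M 𝒰) (u j))
    (fun j => PhM_unit_mem 𝒰 φ D h3 (u j)) hwAI a hspan (fun i => PhM 𝒰 φ (f i))
    (fun i => PhM_mem 𝒰 φ D h3 _) (fun i => MvPolynomial.map φ (p0 i))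
    (fun i => MvPolynomial.map φ (q0 i)) (fun i => hhR i M φ (hφh i))
    (fun i h => by
      have h4 := hsupp' i
      rw [h, support_zero] at h4
      exact hq i (support_eq_empty.1 h4.symm)) (by
    intro i
    have h4 := hqp i
    have h5 : (fun j => (w j : BC 𝒰)) = fun j => PhC 𝒰 R (u j : ℕ → R) :=
      funext fun j => (huv j).symm
    rw [h5, ← hq0 i, ← hp0 i, aevalC, aevalC, ← hf i, ← map_mul, PhC_apply,
      PhC_apply, gC_eq] at h4
    have h6 : (fun j => ((Units.map (PhM 𝒰 φ : (ℕ → R) →* BA M 𝒰) (u j) : (BA M 𝒰)ˣ) :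
        BA M 𝒰)) = fun j => PhM 𝒰 φ (u j : ℕ → R) := rfl
    rw [h6, aevalM, aevalM, ← map_mul, PhM_eq]
    filter_upwards [h4] with t ht
    congr 1
    exact Subtype.ext ht)
  refine ⟨l, hl1, fun i b hb b' hb' => ?_⟩
  exact hl2 i b (by rw [hsupp']; exact hb) b' (by rw [hsupp']; exact hb')

/-- germs of sequences in finitely generated rings -/
noncomputable def geoF (hSP : SP) (hTR : TR) : GeoW (BC 𝒰) where
  W := WCC 𝒰
  I := IC 𝒰
  W_I := by
    rintro u ⟨s, v, rfl⟩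
    exact ⟨s, v, rfl⟩
  I_W := IC_W 𝒰
  I_const := fun c => ⟨{c}, fun _ => ⟨c, Subring.subset_closure (by simp)⟩, rfl⟩
  hunit := unit_gen 𝒰 hSP
  htf := fun g _ => tfC 𝒰 g
  ramF := fun r hr w hwW hw e he q m hm hme P z hzI hz hP hT =>
    ram_gen 𝒰 hSP r hr w hwW hw e he q m hm hme P z hzI hz hP hT
  funF := fun r n N hr w hwW hw a hspan y hyI p q hpq hq hqp =>
    fun_gen 𝒰 hSP hTR r n N hr w hwW hw a hspan y hyI p q hpq hq hqp

end Pool.Agent.H434
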