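import Mathlib
import Pool.Agent.H434.W3
import Pool.Agent.H434.Cond
import Pool.Graph.R_pool_sql_team_seeded_63374d34.N754.FG.Main
import Pool.Graph.R_pool_sql_team_seeded_63374d34.N455.FG.RQ3

/-!
Integral points over finitely generated rings on covers of tori.
-/

set_option autoImplicit false
set_option linter.unusedSectionVars false

open Finset MvPolynomial Filter

namespace Pool.Agent.H434

open NumberField IsDedekindDomain
open Pool.Agent.N754.LT Pool.Agent.N754.FG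
open Pool.Agent.Y742.SF Pool.Agent.Y742.AR

theorem cond_W {q n r : ℕ} (hr : 1 ≤ r) (hrn : r ≤ n) (a : Fin n → Fin r → ℤ)
    (hspan : ∀ j, Pi.single j 1 ∈ Submodule.span ℤ (Set.range a)) (c : Fin n → ℂ)
    (hc : ∀ i, c i ≠ 0) (m : Fin q → ℕ) (hm : ∀ j, 2 ≤ m j)
    (f : Fin q → MvPolynomial (Fin n) ℂ) (hT : TameCosets m f) :
    (r = n ∧ Tame m f) ∨ ∃ κ : Fin q → Fin r → ℕ,
      (∀ j, GoodShift (fun l => m j * κ j l) a (f j)) ∧
      Tame m fun j => PP (fun l => m j * κ j l) a c (f j) := by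
  have hm1 : ∀ j, 1 ≤ m j := fun j => by
    have := hm j
    omega
  by_cases h1 : r = n
  · exact Or.inl ⟨h1, hT.1⟩
  · right
    choose κ hκ using fun j => exists_shift (m j) (hm1 j) a (f j)
    refine ⟨κ, hκ, ?_⟩
    by_cases h2 : r = 1
    · exact GW.tame_one h2 m hm1 _
    · exact hT.2 r (by omega) (by omega) a c hspan hc (fun j l => m j * κ j l) hκ

/-- roots of the units of a finitely generated ring -/
theorem unit_root_ring (hRQ : RQ3) (s : Finset ℂ) (e : ℕ) (he : 1 ≤ e) :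
    ∃ s' : Finset ℂ, s ⊆ s' ∧ ∀ u v : ℂ, u ∈ Subring.closure (s : Set ℂ) →
      v ∈ Subring.closure (s : Set ℂ) → u * v = 1 →
      ∃ a b : ℂ, a ∈ Subring.closure (s' : Set ℂ) ∧ b ∈ Subring.closure (s' : Set ℂ) ∧
        a * b = 1 ∧ a ^ e = u := by
  classical
  let R : Subring ℂ := Subring.closure (s : Set ℂ)
  have hft : Algebra.FiniteType ℤ R := ft_closure (s : Set ℂ) (Finset.finite_toSet s)
  have hinj : Function.Injective R.subtype := Subtype.val_injective
  obtain ⟨M, hM1, hM2, hM3⟩ : ∃ (M : Type) (_ : Field M) (_ : Algebra R M), IsFractionRing R M :=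
    ⟨FractionRing R, inferInstance, inferInstance, inferInstance⟩
  let j : M →+* ℂ := IsFractionRing.lift hinj
  have hj : ∀ c : R, j (algebraMap R M c) = (c : ℂ) := fun c => IsFractionRing.lift_algebraMap hinj c
  let t : Set M := algebraMap R M '' ((↑) ⁻¹' (s : Set ℂ) : Set R)
  have ht : t.Finite := (((Finset.finite_toSet s).preimage
    Subtype.val_injective.injOn)).image _
  have hIU := hRQ R M t ht
  -- the units of `R`
  let G : Subgroup Mˣ := (Units.map (algebraMap R M : R →* M)).range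
  have hmem : ∀ x : R, algebraMap R M x ∈ Algebra.adjoin ℤ t := by
    rintro ⟨x, hx⟩
    induction hx using Subring.closure_induction with
    | mem x hx => exact Algebra.subset_adjoin ⟨⟨x, Subring.subset_closure hx⟩, hx, rfl⟩
    | zero =>
      have h1 : algebraMap R M ⟨0, zero_mem _⟩ = 0 := map_zero _
      rw [h1]
      exact zero_mem _
    | one =>
      have h1 : algebraMap R M ⟨1, one_mem _⟩ = 1 := map_one _
      rw [h1]
      exact one_mem _
    | add x y hx hy h1 h2 =>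
      have h3 : algebraMap R M ⟨x + y, add_mem hx hy⟩ = algebraMap R M ⟨x, hx⟩ +
        algebraMap R M ⟨y, hy⟩ := map_add _ (⟨x, hx⟩ : R) ⟨y, hy⟩
      rw [h3]
      exact add_mem h1 h2
    | neg x hx h1 =>
      have h3 : algebraMap R M ⟨-x, neg_mem hx⟩ = -algebraMap R M ⟨x, hx⟩ :=
        map_neg _ (⟨x, hx⟩ : R)
      rw [h3]
      exact neg_mem h1
    | mul x y hx hy h1 h2 =>
      have h3 : algebraMap R M ⟨x * y, mul_mem hx hy⟩ = algebraMap R M ⟨x, hx⟩ *
        algebraMap R M ⟨y, hy⟩ := map_mul _ (⟨x, hx⟩ : R) ⟨y, hy⟩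
      rw [h3]
      exact mul_mem h1 h2
  have hGle : G ≤ IU t := by
    rintro _ ⟨u, rfl⟩
    have hint : ∀ x : R, IsIntegral (Algebra.adjoin ℤ t) (algebraMap R M x) := fun x =>
      (isIntegral_algebraMap (R := Algebra.adjoin ℤ t) (A := M) (x := ⟨_, hmem x⟩))
    refine ⟨hint u, ?_⟩
    rw [← map_inv]
    exact hint ((u⁻¹ : Rˣ) : R)
  obtain ⟨X, hX⟩ := Pool.Agent.N455.FG.fg_of_le hGle hIU
  choose γ hγ using fun x : ℂ => exists_root_C he x
  let Y : Finset ℂ := X.image fun x : Mˣ => γ (j (x : M))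
  refine ⟨s ∪ (Y ∪ Y.image fun a => a⁻¹), Finset.subset_union_left, ?_⟩
  intro u v hu hv huv
  set s' : Finset ℂ := s ∪ (Y ∪ Y.image fun a => a⁻¹) with hs'
  let H : Subgroup Mˣ :=
    { carrier := {x | ∃ a b : ℂ, a ∈ Subring.closure (s' : Set ℂ) ∧
        b ∈ Subring.closure (s' : Set ℂ) ∧ a * b = 1 ∧ a ^ e = j (x : M)}
      mul_mem' := by
        rintro x y ⟨a, b, ha, hb, hab, hx⟩ ⟨a', b', ha', hb', hab', hy⟩
        refine ⟨a * a', b * b', mul_mem ha ha', mul_mem hb hb', ?_, ?_⟩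
        · calc a * a' * (b * b') = (a * b) * (a' * b') := by ring
            _ = 1 := by rw [hab, hab', one_mul]
        · rw [mul_pow, hx, hy, Units.val_mul, map_mul]
      one_mem' := ⟨1, 1, one_mem _, one_mem _, one_mul 1, by
        rw [one_pow, Units.val_one, map_one]⟩
      inv_mem' := by
        rintro x ⟨a, b, ha, hb, hab, hx⟩
        refine ⟨b, a, hb, ha, by rw [mul_comm]; exact hab, ?_⟩
        have h1 : b ^ e * a ^ e = 1 := by rw [← mul_pow, mul_comm, hab, one_pow]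
        have h2 : j ((x⁻¹ : Mˣ) : M) * j (x : M) = 1 := by
          rw [← map_mul, Units.inv_mul, map_one]
        have h3 : j (x : M) ≠ 0 := (map_ne_zero j).2 (Units.ne_zero x)
        rw [hx] at h1
        exact mul_right_cancel₀ h3 (h1.trans h2.symm) }
  have hGH : G ≤ H := by
    rw [← hX, Subgroup.closure_le]
    intro x hx
    have h1 : γ (j (x : M)) ∈ Y := Finset.mem_image.2 ⟨x, hx, rfl⟩
    have h0 : γ (j (x : M)) ≠ 0 := by
      intro h0
      have h2 := hγ (j (x : M))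
      rw [h0, zero_pow (by omega)] at h2
      exact (map_ne_zero j).2 (Units.ne_zero x) h2.symm
    refine ⟨γ (j (x : M)), (γ (j (x : M)))⁻¹, Subring.subset_closure ?_,
      Subring.subset_closure ?_, mul_inv_cancel₀ h0, hγ _⟩
    · exact Finset.mem_coe.2 (Finset.mem_union_right _ (Finset.mem_union_left _ h1))
    · exact Finset.mem_coe.2 (Finset.mem_union_right _ (Finset.mem_union_right _
        (Finset.mem_image.2 ⟨_, h1, rfl⟩)))
  let uu : Rˣ := ⟨⟨u, hu⟩, ⟨v, hv⟩, Subtype.ext huv, Subtype.ext (by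
    show v * u = 1
    rw [mul_comm]
    exact huv)⟩
  obtain ⟨a, b, ha, hb, hab, hx⟩ := hGH (show Units.map (algebraMap R M : R →* M) uu ∈ G from
    ⟨uu, rfl⟩)
  refine ⟨a, b, ha, hb, hab, ?_⟩
  rw [hx]
  exact hj ⟨u, hu⟩

theorem fin_cov (hSP : SP) (hTR : TR) (hRQ : RQ3) {N n q : ℕ} {ι : Type} [Finite ι]
    (F : ι → MvPolynomial (Fin N) ℂ) (U : Fin n → Fin N) (J : Fin q → Fin N) (m : Fin q → ℕ)
    (hm : ∀ j, 2 ≤ m j) (f : Fin q → MvPolynomial (Fin n) ℂ)
    (hU : ∀ z ∈ Pool.Agent.N754.FG.Pts F, ∀ i, z (U i) ≠ 0)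
    (hJ : ∀ z ∈ Pool.Agent.N754.FG.Pts F, ∀ j, z (J j) ^ m j = eval (fun i => z (U i)) (f j))
    (hT : TameCosets m f) (s0 : Finset ℂ) :
    {x : Fin N → ℂ | (∀ j, x j ∈ Subring.closure (s0 : Set ℂ)) ∧
      x ∈ Pool.Agent.N754.FG.Pts F ∧ ¬ OnLaurent F x ∧
      ¬ NotAlone F (Finset.univ.image U ∪ Finset.univ.image J) x}.Finite := by
  classical
  by_contra hinf
  let U' : Finset (Fin N) := Finset.univ.image U ∪ Finset.univ.image J
  let 𝒰 : Ultrafilter ℕ := Filter.hyperfilter ℕ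
  have hinf2 : {x : Fin N → ℂ | (∀ j, x j ∈ Subring.closure (s0 : Set ℂ)) ∧
    x ∈ Pool.Agent.N754.FG.Pts F ∧ ¬ OnLaurent F x ∧ ¬ NotAlone F U' x}.Infinite := hinf
  let en := hinf2.natEmbedding
  let xs : ℕ → Fin N → ℂ := fun t => (en t).1
  have hxs : ∀ t, (∀ j, xs t j ∈ Subring.closure (s0 : Set ℂ)) ∧
      xs t ∈ Pool.Agent.N754.FG.Pts F ∧
      ¬ OnLaurent F (xs t) ∧ ¬ NotAlone F U' (xs t) := fun t => (en t).2
  -- certificates for the units
  choose Bc hBc using fun i => unit_certC F (U i) fun z hz => hU z hz i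
  let s : Finset ℂ := s0 ∪ Finset.univ.biUnion fun i => (Bc i).support.image fun b =>
    coeff b (Bc i)
  set R : Subring ℂ := Subring.closure (s : Set ℂ) with hR
  have hle : Subring.closure (s0 : Set ℂ) ≤ R := closure_le_union_left s0 _
  have hBR : ∀ i b, coeff b (Bc i) ∈ R := by
    intro i b
    by_cases h : b ∈ (Bc i).support
    · exact Subring.subset_closure (Finset.mem_coe.2 (Finset.mem_union_right _
        (Finset.mem_biUnion.2 ⟨i, Finset.mem_univ _, Finset.mem_image.2 ⟨b, h, rfl⟩⟩)))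
    · rw [notMem_support_iff.1 h]
      exact zero_mem _
  have hxR : ∀ t j, xs t j ∈ R := fun t j => hle ((hxs t).1 j)
  have hBx : ∀ t i, eval (xs t) (Bc i) ∈ R := by
    intro t i
    rw [eval_eq']
    exact sum_mem fun b _ => mul_mem (hBR i b) (prod_mem fun j _ => pow_mem (hxR t j) _)
  have hinv : ∀ t i, xs t (U i) * eval (xs t) (Bc i) = 1 := by
    intro t i
    have h1 : Ideal.span (Set.range F) ≤ RingHom.ker (eval (xs t)) := by
      rw [Ideal.span_le]
      rintro _ ⟨l, rfl⟩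
      exact (hxs t).2.1 l
    have h2 : eval (xs t) (Bc i * MvPolynomial.X (U i) - 1) = 0 := h1 (hBc i)
    rw [map_sub, map_mul, eval_X, map_one, sub_eq_zero] at h2
    rw [mul_comm]
    exact h2
  -- roots
  let e : ℕ := ∏ j, m j
  have he : 1 ≤ e := Finset.one_le_prod' fun j _ => by
    have := hm j
    omega
  have hme : ∀ j, m j ∣ e := fun j => Finset.dvd_prod_of_mem m (Finset.mem_univ j)
  obtain ⟨s', hss', hroots⟩ := unit_root_ring hRQ s e he
  choose va vb hva hvb hvab hve using fun t i => hroots (xs t (U i)) (eval (xs t) (Bc i))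
    (hxR t (U i)) (hBx t i) (hinv t i)
  let y : Fin N → BC 𝒰 := fun j => gC 𝒰 (fun t => xs t j)
  have hyI : ∀ j, y j ∈ IC 𝒰 := fun j => ⟨s, fun t => ⟨xs t j, hxR t j⟩, rfl⟩
  have hyrep : ∀ᶠ t in (𝒰 : Filter ℕ), ∀ j, (rpC 𝒰).rep (y j) t = xs t j :=
    (Filter.eventually_all).2 fun j => rpC_gC 𝒰 (fun t => xs t j)
  let vu : Fin n → (BC 𝒰)ˣ := fun i => Units.map (PhC 𝒰 (Subring.closure (s' : Set ℂ)) :
    (ℕ → Subring.closure (s' : Set ℂ)) →* BC 𝒰)
    { val := fun t => ⟨va t i, hva t i⟩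
      inv := fun t => ⟨vb t i, hvb t i⟩
      val_inv := by
        funext t
        exact Subtype.ext (hvab t i)
      inv_val := by
        funext t
        apply Subtype.ext
        show vb t i * va t i = 1
        rw [mul_comm]
        exact hvab t i }
  have hvuW : ∀ i, vu i ∈ WCC 𝒰 := fun i => ⟨s', _, rfl⟩
  have hvue : ∀ i, ((vu i : (BC 𝒰)ˣ) : BC 𝒰) ^ e = y (U i) := by
    intro i
    show (gC 𝒰 (fun t => va t i)) ^ e = gC 𝒰 (fun t => xs t (U i))
    rw [← map_pow]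
    congr 1
    funext t
    exact hve t i
  have hpoly : ∀ P : MvPolynomial (Fin N) ℂ, (∀ t, eval (xs t) P = 0) → aeval y P = 0 := by
    intro P hP
    by_contra hne
    have h1 : ∀ᶠ t in (𝒰 : Filter ℕ), (rpC 𝒰).rep (aeval y P) t =
        eval (fun i => (rpC 𝒰).rep (y i) t) P := (rpC 𝒰).rep_aeval y P
    have h0 : ∀ᶠ t in (𝒰 : Filter ℕ), (rpC 𝒰).rep (aeval y P) t ≠ 0 := (rpC 𝒰).rep_ne _ hne
    obtain ⟨t, h2, h3, h4⟩ := (h1.and (h0.and hyrep)).exists
    apply h3
    rw [h2]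
    have h5 : (fun i => (rpC 𝒰).rep (y i) t) = xs t := funext h4
    rw [h5]
    exact hP t
  have hFy : ∀ l, aeval y (F l) = 0 := fun l => hpoly (F l) fun t => (hxs t).2.1 l
  have hJy : ∀ j, y (J j) ^ m j = aeval (fun i => y (U i)) (f j) := by
    intro j
    have h1 := hpoly (X (J j) ^ m j - rename U (f j)) (fun t => by
      rw [map_sub, map_pow, eval_X, eval_rename, sub_eq_zero]
      exact hJ (xs t) (hxs t).2.1 j)
    rw [map_sub, map_pow, aeval_X, aeval_rename, sub_eq_zero] at h1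
    exact h1
  have hync : ∃ i, ∀ c : ℂ, y i ≠ algebraMap ℂ (BC 𝒰) c := by
    by_contra hcon
    push Not at hcon
    choose c hc using hcon
    have h1 : ∀ᶠ t in (𝒰 : Filter ℕ), ∀ j, xs t j = c j := by
      refine (Filter.eventually_all).2 fun j => ?_
      have h2 := hc j
      simp only [y] at h2
      rw [gC_const, gC_eq] at h2
      exact h2
    have h2 : {t : ℕ | ∀ j, xs t j = c j}.Subsingleton := by
      intro t ht t' ht'
      apply en.injective
      apply Subtype.ext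
      funext j
      exact (ht j).trans (ht' j).symm
    exact Filter.notMem_hyperfilter_of_finite h2.finite h1
  have halt : (∃ z : Fin N → BC 𝒰, (∀ l, eval₂ ((RingHom.id (BC 𝒰)).comp
        (algebraMap ℂ (BC 𝒰))) z (F l) = 0) ∧
      (∀ i, z (U i) = y (U i)) ∧ (∀ j, z (J j) = y (J j)) ∧ z ≠ fun j => y j) ∨
      ∀ᶠ t in (rpC 𝒰).G, CurveAt (rpC 𝒰) F y t := by
    rcases GW.exists_datU (geoF 𝒰 hSP hTR) U e y vu hvuW hvue with hcon | ⟨d, hd⟩
    · left
      exact GW.const_alt (geoF 𝒰 hSP hTR) U J m hm f y hyI F hFy hJy hcon hync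
        (RingHom.id (BC 𝒰)) (fun _ _ h => h)
    · rcases cond_W d.hr d.rank_le d.a d.hspan d.c d.hc m hm f hT with ⟨hrn, hTK⟩ |
        ⟨κ', hκ', hTK⟩
      · exact GW.full_alt (geoF 𝒰 hSP hTR) (rpC 𝒰) U J m hm he hme _
          (Complex.isPrimitiveRoot_exp e (by omega)) f y hyI F hFy d hJy hd hrn hTK
          (RingHom.id (BC 𝒰)) (fun _ _ h => h)
      · exact GW.coset_alt (geoF 𝒰 hSP hTR) (rpC 𝒰) U J m hm he hme _
          (Complex.isPrimitiveRoot_exp e (by omega)) f y hyI F hFy d hJy κ' hκ' hTK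
          (RingHom.id (BC 𝒰)) (fun _ _ h => h)
  rcases halt with ⟨z, h1, h2, h3, h4⟩ | hcurve
  · have hsec : ∃ z : Fin N → BC 𝒰, (∀ l, eval₂ ((RingHom.id (BC 𝒰)).comp
        (algebraMap ℂ (BC 𝒰))) z (F l) = 0) ∧ (∀ i ∈ U', z i = y i) ∧ z ≠ fun j => y j := by
      refine ⟨z, h1, fun i hi => ?_, h4⟩
      rcases Finset.mem_union.1 hi with h | h
      · obtain ⟨l, -, rfl⟩ := Finset.mem_image.1 h
        exact h2 l
      · obtain ⟨l, -, rfl⟩ := Finset.mem_image.1 h
        exact h3 l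
    have hsec2 := gc_second 𝒰 (RingHom.id ℂ) U' F xs hsec
    obtain ⟨t, z', hz1, hz2, hz3⟩ := hsec2.exists
    exact (hxs t).2.2.2 ⟨z', fun l => hz1 l, hz2, hz3⟩
  · have hcurve' : ∀ᶠ t in (𝒰 : Filter ℕ), CurveAt (rpC 𝒰) F y (show (rpC 𝒰).T from t) := hcurve
    obtain ⟨t, ⟨v, hv1, hv2, hv3, j0, hj0⟩, ht⟩ := (hcurve'.and hyrep).exists
    have hv1' : v 1 = xs t := by
      rw [hv3]
      exact funext ht
    exact (hxs t).2.2.1 ⟨v, hv1, fun t ht i => hv2 i t ht, hv1', 2, two_ne_zero,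
      fun h2 => hj0 (by rw [hv1']; exact congrFun h2 j0)⟩

end Pool.Agent.H434
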