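import Mathlib
import Pool.Agent.H434.W4
import Pool.Agent.H434.G5

/-!
Integral points over finitely generated rings on covers of tori: the condition on leading forms is
needed only for the isotrivial restrictions.
-/

set_option autoImplicit false
set_option linter.unusedSectionVars false

open Finset MvPolynomial Filter

namespace Pool.Agent.H434

open NumberField IsDedekindDomain
open Pool.Agent.N754.LT Pool.Agent.N754.FG
open Pool.Agent.Y742.SF Pool.Agent.Y742.AR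
open Pool.Agent.H159R3.Exp (Laur)

/-- the point is on a nonconstant map from the multiplicative group -/
def OnCurve {n q : ℕ} (m : Fin q → ℕ) (f : Fin q → MvPolynomial (Fin n) ℂ)
    (p : (Fin n → ℂ) × (Fin q → ℂ)) : Prop :=
  ∃ v : ℂ → (Fin n → ℂ) × (Fin q → ℂ), (∀ i, Laur fun t => (v t).1 i) ∧
    (∀ j, Laur fun t => (v t).2 j) ∧
    (∀ t, t ≠ 0 → (∀ i, (v t).1 i ≠ 0) ∧ ∀ j, (v t).2 j ^ m j = eval (v t).1 (f j)) ∧
    v 1 = p ∧ ∃ t, t ≠ 0 ∧ v t ≠ p

/-- the condition on leading forms for the isotrivial restrictions to translates of subtori -/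
def TameIso {q n : ℕ} (m : Fin q → ℕ) (f : Fin q → MvPolynomial (Fin n) ℂ) : Prop :=
  (Fun.Iso m f → Tame m f) ∧ ∀ r : ℕ, 2 ≤ r → r < n → ∀ (a : Fin n → Fin r → ℤ) (c : Fin n → ℂ),
    (∀ j, Pi.single j 1 ∈ Submodule.span ℤ (Set.range a)) → (∀ i, c i ≠ 0) →
    ∀ κ : Fin q → Fin r → ℕ, (∀ j, GoodShift (κ j) a (f j)) →
      (Fun.Iso m fun j => PP (κ j) a c (f j)) → Tame m fun j => PP (κ j) a c (f j)

section laurent

open scoped LaurentPolynomial

/-- the value of a Laurent polynomial -/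
noncomputable def lval (Z : ℂ[T;T⁻¹]) (t : ℂ) : ℂ :=
  if h : t ≠ 0 then LaurentPolynomial.eval₂ (RingHom.id ℂ) (Units.mk0 t h) Z else 0

theorem laur_lval (Z : ℂ[T;T⁻¹]) : Laur (lval Z) := by
  obtain ⟨N, P, hP⟩ := LaurentPolynomial.exists_T_pow Z
  refine ⟨N, P, fun t ht => ?_⟩
  unfold lval
  rw [dif_pos ht]
  have h1 := congrArg (LaurentPolynomial.eval₂ (RingHom.id ℂ) (Units.mk0 t ht)) hP
  rw [LaurentPolynomial.eval₂_toLaurent, map_mul, LaurentPolynomial.eval₂_T_n] at h1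
  exact h1.symm

theorem onCurve_of_Cv {n q : ℕ} (m : Fin q → ℕ) (f : Fin q → MvPolynomial (Fin n) ℂ)
    (x : Fin n → ℂ) (hx : ∀ i, x i ≠ 0) (z : Fin q → ℂ)
    (h : Fun.Cv (R := ℂ) (K := ℂ) f m x z) : OnCurve m f (x, z) := by
  obtain ⟨a, Z, ha, h1, h2⟩ := h
  refine ⟨fun t => (fun l => x l * t ^ a l, fun j => lval (Z j) t), fun i => ?_, fun j => ?_,
    fun t ht => ⟨fun i => mul_ne_zero (hx i) (zpow_ne_zero _ ht), fun j => ?_⟩, ?_, ?_⟩
  · exact (Laur.const (x i)).mul (Laur.zpow (a i))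
  · exact laur_lval (Z j)
  · show lval (Z j) t ^ m j = eval (fun l => x l * t ^ a l) (f j)
    unfold lval
    rw [dif_pos ht, ← map_pow, h1 j, hom_eval₂]
    have e1 : (LaurentPolynomial.eval₂ (RingHom.id ℂ) (Units.mk0 t ht)).comp
        (LaurentPolynomial.C.comp (algebraMap ℂ ℂ)) = RingHom.id ℂ := by
      refine RingHom.ext fun c => ?_
      show LaurentPolynomial.eval₂ (RingHom.id ℂ) (Units.mk0 t ht) (LaurentPolynomial.C c) = c
      rw [LaurentPolynomial.eval₂_C]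
      rfl
    have e2 : (fun l => LaurentPolynomial.eval₂ (RingHom.id ℂ) (Units.mk0 t ht)
        (LaurentPolynomial.C (x l) * LaurentPolynomial.T (a l))) = fun l => x l * t ^ a l := by
      funext l
      rw [LaurentPolynomial.eval₂_C_mul_T, Units.val_zpow_eq_zpow_val]
      rfl
    show eval₂ _ (fun l => LaurentPolynomial.eval₂ (RingHom.id ℂ) (Units.mk0 t ht)
        (LaurentPolynomial.C (x l) * LaurentPolynomial.T (a l))) (f j) = _
    rw [e1, e2]
    rfl
  · refine Prod.ext ?_ ?_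
    · funext l
      show x l * (1 : ℂ) ^ a l = x l
      rw [one_zpow, mul_one]
    · funext j
      show lval (Z j) 1 = z j
      rw [← h2 j]
      unfold lval Fun.ev1
      rw [dif_pos one_ne_zero]
      congr 2
      exact Units.ext rfl
  · obtain ⟨l, hl⟩ : ∃ l, a l ≠ 0 := by
      by_contra hcon
      push Not at hcon
      exact ha (funext hcon)
    refine ⟨2, two_ne_zero, fun h => ?_⟩
    have h3 := congrFun (congrArg Prod.fst h) l
    have h4 : x l * (2 : ℂ) ^ a l = x l := h3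
    exact two_zpow_ne _ hl (mul_left_cancel₀ (hx l) (h4.trans (mul_one _).symm))

end laurent

/-- powers of the new units in terms of the old ones -/
theorem pow_of_span {r n : ℕ} (W : Fin r → ℂ) (hW : ∀ j, W j ≠ 0) (c : Fin n → ℂ)
    (hc : ∀ l, c l ≠ 0) (a : Fin n → Fin r → ℤ) (b : Fin n → ℤ) (j0 : Fin r)
    (hb : ∑ l, b l • a l = Pi.single j0 1) (M : ℕ) (x : Fin n → ℂ)
    (hx : ∀ l, x l = c l * ∏ j, W j ^ ((M : ℤ) * a l j)) :
    ∏ l, (x l / c l) ^ b l = W j0 ^ M := by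
  classical
  have h1 : ∀ l, (x l / c l) ^ b l = ∏ j, W j ^ ((M : ℤ) * (b l * a l j)) := by
    intro l
    rw [hx l, mul_div_cancel_left₀ _ (hc l), ← Finset.prod_zpow]
    refine Finset.prod_congr rfl fun j _ => ?_
    rw [← zpow_mul]
    congr 1
    ring
  simp only [h1]
  rw [Finset.prod_comm]
  have h2 : ∀ j, ∏ l, W j ^ ((M : ℤ) * (b l * a l j)) = W j ^ ((M : ℤ) * ∑ l, b l * a l j) := by
    intro j
    have h3 : ∀ T : Finset (Fin n), ∏ l ∈ T, W j ^ ((M : ℤ) * (b l * a l j)) =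
        W j ^ ((M : ℤ) * ∑ l ∈ T, b l * a l j) := by
      intro T
      induction T using Finset.induction_on with
      | empty => simp
      | insert i T hi ih =>
        rw [Finset.prod_insert hi, Finset.sum_insert hi, ih, mul_add, zpow_add₀ (hW j)]
    exact h3 _
  simp only [h2]
  rw [Finset.prod_eq_single j0]
  · have h4 := congrFun hb j0
    rw [Finset.sum_apply, Pi.single_eq_same] at h4
    have h5 : ∑ l, b l * a l j0 = 1 := h4
    rw [h5, mul_one, zpow_natCast]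
  · intro j _ hj
    have h4 := congrFun hb j
    rw [Finset.sum_apply, Pi.single_eq_of_ne hj] at h4
    have h5 : ∑ l, b l * a l j = 0 := h4
    rw [h5, mul_zero, zpow_zero]
  · intro h
    exact absurd (Finset.mem_univ _) h

theorem algebraic_prod_zpow {n : ℕ} (x : Fin n → ℂ) (hx : ∀ l, IsAlgebraic ℚ (x l))
    (b : Fin n → ℤ) : IsAlgebraic ℚ (∏ l, x l ^ b l) := by
  rw [← mem_algebraicClosure_iff]
  refine prod_mem fun l _ => ?_
  have h1 : x l ∈ algebraicClosure ℚ ℂ := mem_algebraicClosure_iff.2 (hx l)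
  exact zpow_mem h1 _

section germs

variable (𝒰 : Ultrafilter ℕ)

theorem gen_of_indep {r : ℕ} (W : Fin r → ℕ → ℂ)
    (h : AlgebraicIndependent ℂ (fun j => gC 𝒰 (W j))) (P : MvPolynomial (Fin r) ℂ)
    (hP : P ≠ 0) : ∀ᶠ t in (𝒰 : Filter ℕ), eval (fun j => W j t) P ≠ 0 := by
  have h1 : aeval (fun j => gC 𝒰 (W j)) P ≠ 0 := fun h0 => hP (h (by rw [h0, map_zero]))
  have h2 : ∀ᶠ t in (𝒰 : Filter ℕ), (rpC 𝒰).rep (aeval (fun j => gC 𝒰 (W j)) P) t =
      eval (fun j => (rpC 𝒰).rep (gC 𝒰 (W j)) t) P := (rpC 𝒰).rep_aeval _ P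
  have h3 : ∀ᶠ t in (𝒰 : Filter ℕ), (rpC 𝒰).rep (aeval (fun j => gC 𝒰 (W j)) P) t ≠ 0 :=
    (rpC 𝒰).rep_ne _ h1
  have h4 : ∀ᶠ t in (𝒰 : Filter ℕ), ∀ j, (rpC 𝒰).rep (gC 𝒰 (W j)) t = W j t :=
    eventually_all.2 fun j => rpC_gC 𝒰 (W j)
  refine (h2.and (h3.and h4)).mono fun t g => ?_
  obtain ⟨g1, g2, g3⟩ := g
  have g4 : (fun j => (rpC 𝒰).rep (gC 𝒰 (W j)) t) = fun j => W j t := funext g3
  rw [g4] at g1
  exact fun h => g2 (g1.trans h)

theorem gC_inv (f : ℕ → ℂ) : gC 𝒰 (fun t => (f t)⁻¹) = (gC 𝒰 f)⁻¹ := by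
  by_cases h : gC 𝒰 f = 0
  · rw [h, inv_zero, gC_zero]
    filter_upwards [(gC_zero 𝒰 f).1 h] with t ht
    rw [ht, inv_zero]
  · refine eq_inv_of_mul_eq_one_left ?_
    rw [← map_mul, ← map_one (gC 𝒰), gC_eq]
    have h1 : ∀ᶠ t in (𝒰 : Filter ℕ), f t ≠ 0 := by
      rw [gC_zero] at h
      exact (Ultrafilter.eventually_not).2 h
    filter_upwards [h1] with t ht
    exact inv_mul_cancel₀ ht

theorem gC_zpow (f : ℕ → ℂ) (b : ℤ) : gC 𝒰 (fun t => f t ^ b) = gC 𝒰 f ^ b := by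
  have h1 : ∀ n : ℕ, gC 𝒰 (fun t => f t ^ n) = gC 𝒰 f ^ n := fun n => by
    rw [← map_pow]
    rfl
  cases b with
  | ofNat b =>
    simp only [Int.ofNat_eq_natCast, zpow_natCast]
    exact h1 b
  | negSucc b =>
    simp only [zpow_negSucc]
    rw [gC_inv 𝒰 (fun t => f t ^ (b + 1)), h1]

theorem gC_monomial {r : ℕ} (W : Fin r → ℕ → ℂ) (c : ℂ) (b : Fin r → ℤ) :
    gC 𝒰 (fun t => c * ∏ j, W j t ^ b j) =
      algebraMap ℂ (BC 𝒰) c * ∏ j, gC 𝒰 (W j) ^ b j := by
  have h1 : (fun t => c * ∏ j, W j t ^ b j) = (fun _ => c) * ∏ j, (fun t => W j t ^ b j) := by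
    funext t
    rw [Pi.mul_apply, Finset.prod_apply]
  have h2 : ∏ j, gC 𝒰 (fun t => W j t ^ b j) = ∏ j, gC 𝒰 (W j) ^ b j :=
    Finset.prod_congr rfl fun j _ => gC_zpow 𝒰 (W j) (b j)
  rw [h1, map_mul, map_prod, gC_const, h2]

end germs

section indep

variable {B : Type} [CommRing B] [IsDomain B] [Algebra ℂ B]

theorem indep_pow (Γ : GeoW B) {r : ℕ} (w : Fin r → Bˣ) (hwW : ∀ j, w j ∈ Γ.W)
    (hw : AlgebraicIndependent ℂ (fun j => (w j : B))) {M : ℕ} (hM : 1 ≤ M) :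
    AlgebraicIndependent ℂ (fun j => (w j : B) ^ M) := by
  have h1 := algInd_of_units Γ.W Γ.hunit (fun j => w j ^ M)
    (fun j => Subgroup.pow_mem _ (hwW j) _) (fun b hb => by
      have h2 : ∏ j, (w j ^ M) ^ b j = ∏ j, w j ^ ((M : ℤ) * b j) :=
        Finset.prod_congr rfl fun j _ => by rw [← zpow_natCast, ← zpow_mul]
      rw [h2] at hb
      have h3 := zpow_const w hw _ hb
      funext j
      have h4 := congrFun h3 j
      have h5 : (M : ℤ) * b j = 0 := h4
      rcases mul_eq_zero.1 h5 with h6 | h6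
      · have : M = 0 := by exact_mod_cast h6
        omega
      · exact h6)
  simpa only [Units.val_pow_eq_pow_val] using h1

/-- in the full case the coordinates are independent -/
theorem indep_full (Γ : GeoW B) {N n : ℕ} (U : Fin n → Fin N) {M : ℕ} (hM : 1 ≤ M)
    (y : Fin N → B) (d : DatU ℂ U y M Γ.W) (hrc : ∀ i, ∃ γ : ℂ, γ ^ M = d.c i) (hdr : d.r = n) :
    AlgebraicIndependent ℂ (fun i => y (U i)) := by
  classical
  obtain ⟨γu, hγW, hγc, hxM⟩ := GW.exists_roots Γ U hM y d hrc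
  obtain ⟨r, hr, w, hwW, hw, a, c, hc, hU, hspan⟩ := d
  simp only at hdr hxM
  subst hdr
  let x : Fin r → Bˣ := fun i => γu i * ∏ j, w j ^ a i j
  have hxW : ∀ i, x i ∈ Γ.W := fun i =>
    Γ.W.mul_mem (hγW i) (Subgroup.prod_mem _ fun j _ => Subgroup.zpow_mem _ (hwW j) _)
  have hx : AlgebraicIndependent ℂ (fun i => (x i : B)) := by
    refine algInd_of_units Γ.W Γ.hunit x hxW fun b hb => ?_
    obtain ⟨c', hc'⟩ := hb
    have h1 : ∏ i, x i ^ b i = (∏ i, γu i ^ b i) * ∏ j, w j ^ (∑ i, b i * a i j) := by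
      simp only [x, mul_zpow]
      rw [Finset.prod_mul_distrib]
      congr 1
      have h2 : ∀ i, (∏ j, w j ^ a i j) ^ b i = ∏ j, w j ^ (b i * a i j) := by
        intro i
        rw [← Finset.prod_zpow]
        refine Finset.prod_congr rfl fun j _ => ?_
        rw [← zpow_mul, mul_comm]
      simp only [h2]
      rw [Finset.prod_comm]
      refine Finset.prod_congr rfl fun j _ => ?_
      have h3 : ∀ T : Finset (Fin r), ∏ i ∈ T, w j ^ (b i * a i j) =
          w j ^ (∑ i ∈ T, b i * a i j) := by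
        intro T
        induction T using Finset.induction_on with
        | empty => simp
        | insert i T hi ih => rw [Finset.prod_insert hi, Finset.sum_insert hi, ih, zpow_add]
      exact h3 _
    have h2 : (∏ i, γu i ^ b i) ∈ constU ℂ B :=
      Subgroup.prod_mem _ fun i _ => Subgroup.zpow_mem _ (hγc i) _
    have h3 : (∏ i, x i ^ b i) ∈ constU ℂ B := ⟨c', hc'⟩
    have h4 : (∏ j, w j ^ (∑ i, b i * a i j)) ∈ constU ℂ B := by
      rw [h1] at h3
      exact (Subgroup.mul_mem_cancel_left _ h2).1 h3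
    have h5 := zpow_const w hw (fun j => ∑ i, b i * a i j) h4
    exact rows_indep a hspan b fun j => congrFun h5 j
  have h6 := indep_pow Γ x hxW hx hM
  have h7 : (fun i => y (U i)) = fun i => ((x i : Bˣ) : B) ^ M := funext fun i => (hxM i).symm
  rw [h7]
  exact h6

end indep

end Pool.Agent.H434
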