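import Mathlib
import Pool.Agent.H434.G6

/-!
The theorem on integral points on Kummer covers of tori.
-/

set_option autoImplicit false
set_option linter.unusedSectionVars false

open Finset MvPolynomial Filter

namespace Pool.Agent.H434

open NumberField IsDedekindDomain
open Pool.Agent.N754.LT Pool.Agent.N754.FG
open Pool.Agent.Y742.SF Pool.Agent.Y742.AR
open Pool.Agent.H159R3.Exp (Laur)

/-- isotriviality in the full case -/
theorem iso_full (hSP : SP) (hTR : TR) (𝒰 : Ultrafilter ℕ) {N n q : ℕ} (U : Fin n → Fin N)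
    {e : ℕ} (he : 1 ≤ e) (m : Fin q → ℕ) (hm : ∀ j, 1 ≤ m j)
    (f : Fin q → MvPolynomial (Fin n) ℂ) (s : Finset ℂ) (x : ℕ → Fin n → ℂ)
    (hx0 : ∀ t i, x t i ≠ 0) (z : ℕ → Fin q → ℂ) (y : Fin N → BC 𝒰)
    (hyU : ∀ i, y (U i) = gC 𝒰 (fun t => x t i))
    (hzR : ∀ t j, z t j ∈ Subring.closure (s : Set ℂ))
    (hz : ∀ t j, z t j ^ m j = eval (x t) (f j))
    (hrat : ∀ᶠ i in (𝒰 : Filter ℕ), ∀ᶠ i' in (𝒰 : Filter ℕ), ∀ l,
      IsAlgebraic ℚ (x i' l / x i l))
    (d : DatU ℂ U y e (geoF 𝒰 hSP hTR).W) (hrc : ∀ i, ∃ γ : ℂ, γ ^ e = d.c i)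
    (hdr : d.r = n) : Fun.Iso m f := by
  obtain ⟨i0, hi0⟩ := hrat.exists
  have h1 := indep_full (geoF 𝒰 hSP hTR) U he y d hrc hdr
  have h2 : (fun i => y (U i)) = fun i => gC 𝒰 (fun t => x t i) := funext hyU
  rw [h2] at h1
  refine Fun.iso_of (𝒰 := 𝒰) m hm f (s : Set ℂ) s.finite_toSet x i0 (hx0 i0) hi0
    (fun P hP => gen_of_indep 𝒰 (fun i t => x t i) h1 P hP) (fun j t => z t j)
    fun j => Eventually.of_forall fun t => ⟨?_, hz t j⟩
  have h3 : Subring.closure (s : Set ℂ) ≤ (Subfield.closure (s : Set ℂ)).toSubring := by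
    rw [Subring.closure_le]
    exact Subfield.subset_closure
  exact h3 (hzR t j)

/-- isotriviality for translates of subtori -/
theorem iso_coset (hSP : SP) (hTR : TR) (𝒰 : Ultrafilter ℕ) {N n q : ℕ} (U : Fin n → Fin N)
    {e : ℕ} (he : 1 ≤ e) (m : Fin q → ℕ) (hm : ∀ j, 1 ≤ m j)
    (f : Fin q → MvPolynomial (Fin n) ℂ) (s : Finset ℂ) (x : ℕ → Fin n → ℂ)
    (z : ℕ → Fin q → ℂ) (y : Fin N → BC 𝒰)
    (hyU : ∀ i, y (U i) = gC 𝒰 (fun t => x t i))
    (hzR : ∀ t j, z t j ∈ Subring.closure (s : Set ℂ))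
    (hz : ∀ t j, z t j ^ m j = eval (x t) (f j))
    (hrat : ∀ᶠ i in (𝒰 : Filter ℕ), ∀ᶠ i' in (𝒰 : Filter ℕ), ∀ l,
      IsAlgebraic ℚ (x i' l / x i l))
    (d : DatU ℂ U y e (geoF 𝒰 hSP hTR).W) (κ : Fin q → Fin d.r → ℕ)
    (hκ : ∀ j, GoodShift (fun l => m j * κ j l) d.a (f j)) :
    Fun.Iso m fun j => PP (fun l => m j * κ j l) d.a d.c (f j) := by
  classical
  -- the sequences of units
  have hW : ∀ j, ∃ (sj : Finset ℂ) (W : ℕ → ℂ), (∀ t, W t ∈ Subring.closure (sj : Set ℂ)) ∧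
      (∀ t, W t ≠ 0) ∧ gC 𝒰 W = ((d.w j : (BC 𝒰)ˣ) : BC 𝒰) := by
    intro j
    obtain ⟨sj, hsj⟩ := d.hwW j
    obtain ⟨v, hv⟩ := (mem_WC 𝒰 _ _).1 hsj
    refine ⟨sj, fun t => ((v : ℕ → Subring.closure (sj : Set ℂ)) t : ℂ), fun t => Subtype.property _,
      fun t h0 => ?_, ?_⟩
    · have h1 := congrFun (Units.mul_inv v) t
      have h2 := congrArg (fun w : Subring.closure (sj : Set ℂ) => (w : ℂ)) h1
      have h3 : ((v : ℕ → Subring.closure (sj : Set ℂ)) t : ℂ) *
        (((v⁻¹ : (ℕ → Subring.closure (sj : Set ℂ))ˣ) : ℕ → Subring.closure (sj : Set ℂ)) t : ℂ) = 1 := h2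
      have h0' : ((v : ℕ → Subring.closure (sj : Set ℂ)) t : ℂ) = 0 := h0
      rw [h0', zero_mul] at h3
      exact zero_ne_one h3
    · rw [← hv]
      rfl
  choose sj W hWR hW0 hWg using hW
  have h1 : ∀ᶠ t in (𝒰 : Filter ℕ), ∀ l, x t l = d.c l * ∏ j, W j t ^ ((e : ℤ) * d.a l j) := by
    refine eventually_all.2 fun l => ?_
    rw [← gC_eq, ← hyU, d.hU l, gC_monomial, Units.coe_prod]
    congr 1
    refine Finset.prod_congr rfl fun j _ => ?_
    rw [hWg, Units.val_zpow_eq_zpow_val]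
  obtain ⟨i0, hi0, hi1⟩ := (hrat.and h1).exists
  have hb : ∀ j, ∃ b : Fin n → ℤ, ∑ l, b l • d.a l = Pi.single j 1 := fun j =>
    (Submodule.mem_span_range_iff_exists_fun ℤ).1 (d.hspan j)
  choose b hb using hb
  let T0 : Set ℂ := (s : Set ℂ) ∪ ⋃ j, (sj j : Set ℂ)
  have hT0 : T0.Finite := s.finite_toSet.union (Set.finite_iUnion fun j => (sj j).finite_toSet)
  have hsub : ∀ (S : Set ℂ), S ⊆ T0 → ∀ v ∈ Subring.closure S, v ∈ Subfield.closure T0 := by
    intro S hS v hv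
    have h3 : Subring.closure S ≤ (Subfield.closure T0).toSubring := by
      rw [Subring.closure_le]
      exact hS.trans Subfield.subset_closure
    exact h3 hv
  refine Fun.iso_of (𝒰 := 𝒰) m hm _ T0 hT0 (fun t j => W j t ^ e) i0
    (fun j => pow_ne_zero _ (hW0 j i0)) ?_ (fun P hP => ?_)
    (fun j t => (∏ l, W l t ^ (e * κ j l)) * z t j) fun j => ?_
  · filter_upwards [hi0, h1] with t h2 h3 j
    have e1 := pow_of_span (fun j => W j t) (fun j => hW0 j t) d.c d.hc d.a (b j) j (hb j) e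
      (x t) h3
    have e2 := pow_of_span (fun j => W j i0) (fun j => hW0 j i0) d.c d.hc d.a (b j) j (hb j) e
      (x i0) hi1
    rw [← e1, ← e2, ← Finset.prod_div_distrib]
    have e3 : ∀ l, (x t l / d.c l) ^ b j l / (x i0 l / d.c l) ^ b j l =
        (x t l / x i0 l) ^ b j l := by
      intro l
      rw [← div_zpow, div_div_div_cancel_right₀ (d.hc l)]
    simp only [e3]
    exact algebraic_prod_zpow _ h2 _
  · refine gen_of_indep 𝒰 (fun j t => W j t ^ e) ?_ P hP
    have h2 := indep_pow (geoF 𝒰 hSP hTR) d.w d.hwW d.hw he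
    have h3 : (fun j => gC 𝒰 (fun t => W j t ^ e)) =
        fun j => ((d.w j : (BC 𝒰)ˣ) : BC 𝒰) ^ e := by
      funext j
      rw [← hWg j, ← map_pow]
      rfl
    rw [h3]
    exact h2
  · filter_upwards [h1] with t h2
    refine ⟨?_, ?_⟩
    · have g1 : ∏ l, W l t ^ (e * κ j l) ∈ Subfield.closure T0 := by
        refine prod_mem fun l _ => ?_
        have g2 : W l t ∈ Subfield.closure T0 := hsub (sj l : Set ℂ) (fun v hv =>
          Or.inr (Set.mem_iUnion.2 ⟨l, hv⟩)) _ (hWR l t)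
        exact pow_mem g2 _
      exact mul_mem g1 (hsub (s : Set ℂ) Set.subset_union_left _ (hzR t j))
    · have g1 := mon_zpow (k := ℂ) (B := ℂ) (fun l => Units.mk0 (W l t) (hW0 l t)) e
        (fun l => m j * κ j l) d.a d.c (f j) (hκ j) (x t) (fun l => by
          rw [h2 l, Units.coe_prod]
          congr 1
          exact Finset.prod_congr rfl fun j _ => by rw [Units.val_zpow_eq_zpow_val, Units.val_mk0])
      have g2 : aeval (x t) (f j) = eval (x t) (f j) := rfl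
      rw [g2, ← hz t j, Units.coe_prod] at g1
      rw [mul_pow, ← Finset.prod_pow]
      have g3 : ∏ l, (W l t ^ (e * κ j l)) ^ m j =
          ∏ l, (((Units.mk0 (W l t) (hW0 l t)) ^ (e * (m j * κ j l)) : ℂˣ) : ℂ) := by
        refine Finset.prod_congr rfl fun l _ => ?_
        rw [Units.val_pow_eq_pow_val, Units.val_mk0, ← pow_mul]
        congr 1
        ring
      rw [g3, g1]
      rfl

theorem fin_kummer (hSP : SP) (hTR : TR) (hRQ : RQ3) {n q : ℕ} (m : Fin q → ℕ)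
    (hm : ∀ j, 2 ≤ m j) (f : Fin q → MvPolynomial (Fin n) ℂ) (hT : TameIso m f)
    (s0 : Finset ℂ) :
    {p : (Fin n → ℂ) × (Fin q → ℂ) |
      (∀ i, p.1 i ≠ 0 ∧ p.1 i ∈ Subring.closure (s0 : Set ℂ) ∧
        (p.1 i)⁻¹ ∈ Subring.closure (s0 : Set ℂ)) ∧
      (∀ j, p.2 j ∈ Subring.closure (s0 : Set ℂ) ∧ p.2 j ^ m j = eval p.1 (f j)) ∧
      ¬ OnCurve m f p}.Finite := by
  classical
  by_contra hinf
  let 𝒰 : Ultrafilter ℕ := Filter.hyperfilter ℕ
  have hinf2 : {p : (Fin n → ℂ) × (Fin q → ℂ) |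
      (∀ i, p.1 i ≠ 0 ∧ p.1 i ∈ Subring.closure (s0 : Set ℂ) ∧
        (p.1 i)⁻¹ ∈ Subring.closure (s0 : Set ℂ)) ∧
      (∀ j, p.2 j ∈ Subring.closure (s0 : Set ℂ) ∧ p.2 j ^ m j = eval p.1 (f j)) ∧
      ¬ OnCurve m f p}.Infinite := hinf
  let en := hinf2.natEmbedding
  let x : ℕ → Fin n → ℂ := fun t => (en t).1.1
  let z : ℕ → Fin q → ℂ := fun t => (en t).1.2
  have hp1 : ∀ t i, x t i ≠ 0 ∧ x t i ∈ Subring.closure (s0 : Set ℂ) ∧
      (x t i)⁻¹ ∈ Subring.closure (s0 : Set ℂ) := fun t => (en t).2.1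
  have hp2 : ∀ t j, z t j ∈ Subring.closure (s0 : Set ℂ) ∧ z t j ^ m j = eval (x t) (f j) :=
    fun t => (en t).2.2.1
  have hp3 : ∀ t, ¬ OnCurve m f (x t, z t) := fun t => (en t).2.2.2
  have hm1 : ∀ j, 1 ≤ m j := fun j => by
    have := hm j
    omega
  let s : Finset ℂ := s0 ∪ Finset.univ.biUnion fun j => (f j).support.image fun b =>
    coeff b (f j)
  have hle : Subring.closure (s0 : Set ℂ) ≤ Subring.closure (s : Set ℂ) :=
    closure_le_union_left s0 _
  have hfR : ∀ j b, coeff b (f j) ∈ Subring.closure (s : Set ℂ) := by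
    intro j b
    by_cases h : b ∈ (f j).support
    · exact Subring.subset_closure (Finset.mem_coe.2 (Finset.mem_union_right _
        (Finset.mem_biUnion.2 ⟨j, Finset.mem_univ _, Finset.mem_image.2 ⟨b, h, rfl⟩⟩)))
    · rw [notMem_support_iff.1 h]
      exact zero_mem _
  have hx0 : ∀ t i, x t i ≠ 0 := fun t i => (hp1 t i).1
  have hxR : ∀ t i, x t i ∈ Subring.closure (s : Set ℂ) := fun t i => hle (hp1 t i).2.1
  have hxR' : ∀ t i, (x t i)⁻¹ ∈ Subring.closure (s : Set ℂ) := fun t i => hle (hp1 t i).2.2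
  have hzR : ∀ t j, z t j ∈ Subring.closure (s : Set ℂ) := fun t j => hle (hp2 t j).1
  have hz : ∀ t j, z t j ^ m j = eval (x t) (f j) := fun t j => (hp2 t j).2
  -- the function field step
  rcases Fun.step1 (𝒰 := 𝒰) s m hm1 f hfR x (fun t i => (x t i)⁻¹) z hxR hxR'
    (fun t i => mul_inv_cancel₀ (hx0 t i)) hzR hz with hrat | hcv
  swap
  · obtain ⟨t, ht⟩ := hcv.exists
    exact hp3 t (onCurve_of_Cv m f (x t) (hx0 t) (z t) ht)
  -- the coordinates
  let U : Fin n → Fin (n + n + q) := fun i => Fin.castAdd q (Fin.castAdd n i)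
  let V : Fin n → Fin (n + n + q) := fun i => Fin.castAdd q (Fin.natAdd n i)
  let J : Fin q → Fin (n + n + q) := fun j => Fin.natAdd (n + n) j
  let xs : ℕ → Fin (n + n + q) → ℂ := fun t =>
    Fin.append (Fin.append (x t) (fun i => (x t i)⁻¹)) (z t)
  have hxU : ∀ t i, xs t (U i) = x t i := fun t i => by
    simp only [xs, U]
    rw [Fin.append_left, Fin.append_left]
  have hxV : ∀ t i, xs t (V i) = (x t i)⁻¹ := fun t i => by
    simp only [xs, V]
    rw [Fin.append_left, Fin.append_right]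
  have hxJ : ∀ t j, xs t (J j) = z t j := fun t j => by
    simp only [xs, J]
    rw [Fin.append_right]
  have hcov : ∀ i : Fin (n + n + q), (∃ l, i = U l) ∨ (∃ l, i = V l) ∨ ∃ j, i = J j := by
    intro i
    refine Fin.addCases (fun i => ?_) (fun j => ?_) i
    · refine Fin.addCases (fun l => ?_) (fun l => ?_) i
      · exact Or.inl ⟨l, rfl⟩
      · exact Or.inr (Or.inl ⟨l, rfl⟩)
    · exact Or.inr (Or.inr ⟨j, rfl⟩)
  let F : (Fin n ⊕ Fin q) → MvPolynomial (Fin (n + n + q)) ℂ :=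
    Sum.elim (fun i => X (U i) * X (V i) - 1) (fun j => X (J j) ^ m j - rename U (f j))
  have hxsR : ∀ t i, xs t i ∈ Subring.closure (s : Set ℂ) := by
    intro t i
    rcases hcov i with ⟨l, rfl⟩ | ⟨l, rfl⟩ | ⟨j, rfl⟩
    · rw [hxU]
      exact hxR t l
    · rw [hxV]
      exact hxR' t l
    · rw [hxJ]
      exact hzR t j
  have hxsF : ∀ t l, eval (xs t) (F l) = 0 := by
    intro t l
    rcases l with i | j
    · show eval (xs t) (X (U i) * X (V i) - 1) = 0
      rw [map_sub, map_mul, eval_X, eval_X, map_one, hxU, hxV, mul_inv_cancel₀ (hx0 t i), sub_self]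
    · show eval (xs t) (X (J j) ^ m j - rename U (f j)) = 0
      rw [map_sub, map_pow, eval_X, eval_rename, hxJ, hz t j, sub_eq_zero]
      congr 2
      funext i
      exact (hxU t i).symm
  -- roots
  let e : ℕ := ∏ j, m j
  have he : 1 ≤ e := Finset.one_le_prod' fun j _ => hm1 j
  have hme : ∀ j, m j ∣ e := fun j => Finset.dvd_prod_of_mem m (Finset.mem_univ j)
  obtain ⟨s', hss', hroots⟩ := unit_root_ring hRQ s e he
  choose va vb hva hvb hvab hve using fun t i => hroots (x t i) (x t i)⁻¹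
    (hxR t i) (hxR' t i) (mul_inv_cancel₀ (hx0 t i))
  let y : Fin (n + n + q) → BC 𝒰 := fun j => gC 𝒰 (fun t => xs t j)
  have hyI : ∀ j, y j ∈ IC 𝒰 := fun j => ⟨s, fun t => ⟨xs t j, hxsR t j⟩, rfl⟩
  have hyrep : ∀ᶠ t in (𝒰 : Filter ℕ), ∀ j, (rpC 𝒰).rep (y j) t = xs t j :=
    (Filter.eventually_all).2 fun j => rpC_gC 𝒰 (fun t => xs t j)
  have hyU : ∀ i, y (U i) = gC 𝒰 (fun t => x t i) := fun i => by
    simp only [y]
    congr 1
    funext t
    exact hxU t i
  let vu : Fin n → (BC 𝒰)ˣ := fun i => Units.map (PhC 𝒰 (Subring.closure (s' : Set ℂ)) :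
    (ℕ → Subring.closure (s' : Set ℂ)) →* BC 𝒰)
    { val := fun t => ⟨va t i, hva t i⟩
      inv := fun t => ⟨vb t i, hvb t i⟩
      val_inv := by
        funext t
        exact Subtype.ext (hvab t i)
      inv_val := by
        funext t
        apply Subtype.ext
        show vb t i * va t i = 1
        rw [mul_comm]
        exact hvab t i }
  have hvuW : ∀ i, vu i ∈ WCC 𝒰 := fun i => ⟨s', _, rfl⟩
  have hvue : ∀ i, ((vu i : (BC 𝒰)ˣ) : BC 𝒰) ^ e = y (U i) := by
    intro i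
    rw [hyU]
    show (gC 𝒰 (fun t => va t i)) ^ e = gC 𝒰 (fun t => x t i)
    rw [← map_pow]
    congr 1
    funext t
    exact hve t i
  have hpoly : ∀ P : MvPolynomial (Fin (n + n + q)) ℂ, (∀ t, eval (xs t) P = 0) →
      aeval y P = 0 := by
    intro P hP
    by_contra hne
    have h1 : ∀ᶠ t in (𝒰 : Filter ℕ), (rpC 𝒰).rep (aeval y P) t =
        eval (fun i => (rpC 𝒰).rep (y i) t) P := (rpC 𝒰).rep_aeval y P
    have h0 : ∀ᶠ t in (𝒰 : Filter ℕ), (rpC 𝒰).rep (aeval y P) t ≠ 0 := (rpC 𝒰).rep_ne _ hne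
    obtain ⟨t, h2, h3, h4⟩ := (h1.and (h0.and hyrep)).exists
    apply h3
    rw [h2]
    have h5 : (fun i => (rpC 𝒰).rep (y i) t) = xs t := funext h4
    rw [h5]
    exact hP t
  have hFy : ∀ l, aeval y (F l) = 0 := fun l => hpoly (F l) fun t => hxsF t l
  have hUV : ∀ i, y (U i) * y (V i) = 1 := by
    intro i
    have h1 : aeval y (X (U i) * X (V i) - 1 : MvPolynomial (Fin (n + n + q)) ℂ) = 0 :=
      hFy (Sum.inl i)
    rw [map_sub, map_mul, aeval_X, aeval_X, map_one, sub_eq_zero] at h1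
    exact h1
  have hJy : ∀ j, y (J j) ^ m j = aeval (fun i => y (U i)) (f j) := by
    intro j
    have h1 : aeval y (X (J j) ^ m j - rename U (f j) : MvPolynomial (Fin (n + n + q)) ℂ) = 0 :=
      hFy (Sum.inr j)
    rw [map_sub, map_pow, aeval_X, aeval_rename, sub_eq_zero] at h1
    exact h1
  have hync : ∃ i, ∀ c : ℂ, y i ≠ algebraMap ℂ (BC 𝒰) c := by
    by_contra hcon
    push Not at hcon
    choose c hc using hcon
    have h1 : ∀ᶠ t in (𝒰 : Filter ℕ), ∀ j, xs t j = c j := by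
      refine (Filter.eventually_all).2 fun j => ?_
      have h2 := hc j
      simp only [y] at h2
      rw [gC_const, gC_eq] at h2
      exact h2
    have h2 : {t : ℕ | ∀ j, xs t j = c j}.Subsingleton := by
      intro t ht t' ht'
      apply en.injective
      apply Subtype.ext
      refine Prod.ext ?_ ?_
      · funext i
        have h3 : x t i = x t' i := by
          rw [← hxU, ← hxU]
          exact (ht (U i)).trans (ht' (U i)).symm
        exact h3
      · funext j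
        have h3 : z t j = z t' j := by
          rw [← hxJ, ← hxJ]
          exact (ht (J j)).trans (ht' (J j)).symm
        exact h3
    exact Filter.notMem_hyperfilter_of_finite h2.finite h1
  -- there is no second point
  have hno : ¬ ∃ z : Fin (n + n + q) → BC 𝒰, (∀ l, eval₂ ((RingHom.id (BC 𝒰)).comp
        (algebraMap ℂ (BC 𝒰))) z (F l) = 0) ∧
      (∀ i, z (U i) = (RingHom.id (BC 𝒰)) (y (U i))) ∧
      (∀ j, z (J j) = (RingHom.id (BC 𝒰)) (y (J j))) ∧
      z ≠ fun j => (RingHom.id (BC 𝒰)) (y j) := by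
    rintro ⟨z', h1, h2, h3, h4⟩
    apply h4
    funext i
    rcases hcov i with ⟨l, rfl⟩ | ⟨l, rfl⟩ | ⟨j, rfl⟩
    · exact h2 l
    · have h5 : eval₂ ((RingHom.id (BC 𝒰)).comp (algebraMap ℂ (BC 𝒰))) z'
          (X (U l) * X (V l) - 1 : MvPolynomial (Fin (n + n + q)) ℂ) = 0 := h1 (Sum.inl l)
      rw [eval₂_sub, eval₂_mul, eval₂_X, eval₂_X, eval₂_one, sub_eq_zero, h2 l] at h5
      have h6 : y (U l) ≠ 0 := left_ne_zero_of_mul_eq_one (hUV l)
      exact mul_left_cancel₀ h6 (h5.trans (hUV l).symm)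
    · exact h3 j
  have hcurve : ∀ᶠ t in (rpC 𝒰).G, CurveAt (rpC 𝒰) F y t := by
    rcases GW.exists_datU (geoF 𝒰 hSP hTR) U e y vu hvuW hvue with hcon | ⟨d, hd⟩
    · exact (hno (GW.const_alt (geoF 𝒰 hSP hTR) U J m hm f y hyI F hFy hJy hcon hync
        (RingHom.id (BC 𝒰)) (fun _ _ h => h))).elim
    · by_cases hdr : d.r = n
      · have hTK : Tame m f := hT.1 (iso_full hSP hTR 𝒰 U he m hm1 f s x hx0 z y hyU hzR hz
          hrat d hd hdr)
        exact (GW.full_alt (geoF 𝒰 hSP hTR) (rpC 𝒰) U J m hm he hme _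
          (Complex.isPrimitiveRoot_exp e (by omega)) f y hyI F hFy d hJy hd hdr hTK
          (RingHom.id (BC 𝒰)) (fun _ _ h => h)).resolve_left hno
      · choose κ hκ using fun j => exists_shift (m j) (hm1 j) d.a (f j)
        have hTK : Tame m fun j => PP (fun l => m j * κ j l) d.a d.c (f j) := by
          by_cases h1 : d.r = 1
          · exact GW.tame_one h1 m hm1 _
          · have h2 := d.hr
            have h3 := d.rank_le
            exact hT.2 d.r (by omega) (by omega) d.a d.c d.hspan d.hc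
              (fun j l => m j * κ j l) hκ (iso_coset hSP hTR 𝒰 U he m hm1 f s x z y hyU hzR hz
              hrat d κ hκ)
        exact (GW.coset_alt (geoF 𝒰 hSP hTR) (rpC 𝒰) U J m hm he hme _
          (Complex.isPrimitiveRoot_exp e (by omega)) f y hyI F hFy d hJy κ hκ hTK
          (RingHom.id (BC 𝒰)) (fun _ _ h => h)).resolve_left hno
  have hcurve' : ∀ᶠ t in (𝒰 : Filter ℕ), CurveAt (rpC 𝒰) F y (show (rpC 𝒰).T from t) := hcurve
  obtain ⟨t, ⟨v, hv1, hv2, hv3, j0, hj0⟩, ht⟩ := (hcurve'.and hyrep).exists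
  have hv1' : v 1 = xs t := by
    rw [hv3]
    exact funext ht
  have hvUV : ∀ a, a ≠ 0 → ∀ i, v a (U i) * v a (V i) = 1 := by
    intro a ha i
    have h1 : eval (v a) (X (U i) * X (V i) - 1 : MvPolynomial (Fin (n + n + q)) ℂ) = 0 :=
      hv2 (Sum.inl i) a ha
    rw [map_sub, map_mul, eval_X, eval_X, map_one, sub_eq_zero] at h1
    exact h1
  refine hp3 t ⟨fun a => (fun i => v a (U i), fun j => v a (J j)), fun i => hv1 (U i),
    fun j => hv1 (J j), fun a ha => ⟨fun i => left_ne_zero_of_mul_eq_one (hvUV a ha i),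
    fun j => ?_⟩, ?_, 2, two_ne_zero, fun h2 => ?_⟩
  · have h1 : eval (v a) (X (J j) ^ m j - rename U (f j) : MvPolynomial (Fin (n + n + q)) ℂ) = 0 :=
      hv2 (Sum.inr j) a ha
    rw [map_sub, map_pow, eval_X, eval_rename, sub_eq_zero] at h1
    exact h1
  · refine Prod.ext ?_ ?_
    · funext i
      show v 1 (U i) = x t i
      rw [hv1', hxU]
    · funext j
      show v 1 (J j) = z t j
      rw [hv1', hxJ]
  · have hU2 : ∀ i, v 2 (U i) = v 1 (U i) := fun i => by
      rw [hv1', hxU]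
      exact congrFun (congrArg Prod.fst h2) i
    apply hj0
    rcases hcov j0 with ⟨l, rfl⟩ | ⟨l, rfl⟩ | ⟨j, rfl⟩
    · exact hU2 l
    · have h5 := hvUV 2 two_ne_zero l
      have h6 := hvUV 1 one_ne_zero l
      rw [hU2 l] at h5
      have h7 : v 1 (U l) ≠ 0 := left_ne_zero_of_mul_eq_one h6
      exact mul_left_cancel₀ h7 (h5.trans h6.symm)
    · rw [hv1', hxJ]
      exact congrFun (congrArg Prod.snd h2) j

end Pool.Agent.H434
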