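import Mathlib
import Pool.Agent.H434.F5
import Pool.Agent.H434.Eng

/-!
Powers of the units, and denominators of elements without poles.
-/

set_option autoImplicit false
set_option linter.unusedSectionVars false
set_option linter.unusedVariables false

namespace Pool.Agent.H434.Fun

open FF Filter MvPolynomial Pool.Agent.W603.LV Pool.Agent.W603.PV Pool.Agent.W603.CZ
open Pool.Agent.Y731.FG Pool.Agent.Y664.FG
open scoped Classical

variable {𝒰 : Ultrafilter ℕ} {k F : Type} [Field k] [IsAlgClosed k] [CharZero k]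
  [Field F] [Algebra k F] [IsFF k F]

/-- quotients of monomials do not have small height -/
def NL (Δ : Dt 𝒰 k F (fun _ : ℕ => F)) {t : ℕ} (u : Fin t → (UF 𝒰 F)ˣ) : Prop :=
  ∀ ν : Fin t → ℤ, ν ≠ 0 → ¬ (∀ ε : ℝ, 0 < ε → ∃ B : ℝ, ∀ᶠ i in (𝒰 : Filter ℕ),
        ((ht k ((∏ j, u j ^ ν j : (UF 𝒰 F)ˣ) : UF 𝒰 F) i : ℤ) : ℝ) ≤
          ε * Hu k (fun j => (u j : UF 𝒰 F)) i + B * Δ.χ i)

theorem charZero_E (Δ : Dt 𝒰 k F (fun _ : ℕ => F)) : CharZero Δ.E := by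
  have hF : CharZero F := charZero_of_injective_algebraMap (algebraMap k F).injective
  exact charZero_of_injective_algebraMap (algebraMap F Δ.E).injective

theorem prod_pow_zpow {G : Type} [CommGroup G] {t : ℕ} (u : Fin t → G) (e : ℕ) (ν : Fin t → ℤ) :
    ∏ j, (u j ^ e) ^ ν j = ∏ j, u j ^ ((e : ℤ) * ν j) :=
  Finset.prod_congr rfl fun j _ => by rw [← zpow_natCast, ← zpow_mul]

theorem isU_pow (Δ : Dt 𝒰 k F (fun _ : ℕ => F)) {t : ℕ} (u : Fin t → (UF 𝒰 F)ˣ)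
    (hu : Δ.IsU (fun j => (u j : UF 𝒰 F))) {e : ℕ} (he : 1 ≤ e) :
    Δ.IsU (fun j => ((u j ^ e : (UF 𝒰 F)ˣ) : UF 𝒰 F)) := by
  have hch := charZero_E Δ
  have hmem : ∀ j, u j ^ e ∈ luG Δ := fun j =>
    (luG Δ).pow_mem (show u j ∈ luG Δ from hu.1 j) e
  refine ⟨fun j => hmem j, algIndep Δ (fun j => u j ^ e) (fun j => hmem j) fun ν hν => ?_⟩
  rw [prod_pow_zpow] at hν
  have h1 := zpow_const (k := Δ.E) (B := UF 𝒰 F) u hu.2 (fun j => (e : ℤ) * ν j) ⟨⟨_, hν⟩, rfl⟩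
  funext j
  have h2 := congrFun h1 j
  simp only [Pi.zero_apply, mul_eq_zero] at h2
  rcases h2 with h2 | h2
  · have : e = 0 := by exact_mod_cast h2
    omega
  · exact h2

theorem nl_pow (Δ : Dt 𝒰 k F (fun _ : ℕ => F)) {t : ℕ} (u : Fin t → (UF 𝒰 F)ˣ)
    (hnl : NL Δ u) {e : ℕ} (he : 1 ≤ e) : NL Δ (fun j => u j ^ e) := by
  intro ν hν hcon
  have he0 : (0 : ℝ) < e := by exact_mod_cast he
  have hν' : (fun j => (e : ℤ) * ν j) ≠ 0 := by
    intro h
    apply hν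
    funext j
    have h2 := congrFun h j
    simp only [Pi.zero_apply, mul_eq_zero] at h2
    rcases h2 with h2 | h2
    · have : e = 0 := by exact_mod_cast h2
      omega
    · exact h2
  refine hnl _ hν' fun ε hε => ?_
  obtain ⟨B, hB⟩ := hcon (ε / e) (by positivity)
  refine ⟨B, ?_⟩
  have hpow : ∀ᶠ i in (𝒰 : Filter ℕ), ∀ j, ht k (((u j ^ e : (UF 𝒰 F)ˣ)) : UF 𝒰 F) i =
      e * ht k (u j : UF 𝒰 F) i := by
    refine eventually_all.2 fun j => ?_
    have h1 : ((u j ^ e : (UF 𝒰 F)ˣ) : UF 𝒰 F) =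
        um 𝒰 (L := fun _ : ℕ => F) (fun i => rep (u j : UF 𝒰 F) i ^ e) := by
      rw [Units.val_pow_eq_pow_val]
      have h2 := um_pow 𝒰 (L := fun _ : ℕ => F) (rep (u j : UF 𝒰 F)) e
      rw [um_rep] at h2
      exact h2.symm
    have h3 := rep_um (𝒰 := 𝒰) (L := fun _ : ℕ => F) (fun i => rep (u j : UF 𝒰 F) i ^ e)
    filter_upwards [h3, rep_ne (𝒰 := 𝒰) (L := fun _ : ℕ => F) (Units.ne_zero (u j))] with i h4 h5
    unfold ht
    rw [h1, h4, hgt_pow h5]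
  filter_upwards [hB, hpow] with i h1 h2
  rw [prod_pow_zpow] at h1
  refine h1.trans ?_
  have h3 : (Hu k (fun j => ((u j ^ e : (UF 𝒰 F)ˣ) : UF 𝒰 F)) i : ℝ) =
      e * Hu k (fun j => (u j : UF 𝒰 F)) i := by
    unfold Hu
    rw [Int.cast_sum, Int.cast_sum, Finset.mul_sum]
    refine Finset.sum_congr rfl fun j _ => ?_
    rw [h2 j, Int.cast_mul, Int.cast_natCast]
  rw [h3]
  have h4 : ε / e * (e * (Hu k (fun j => (u j : UF 𝒰 F)) i : ℝ)) =
      ε * Hu k (fun j => (u j : UF 𝒰 F)) i := by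
    field_simp
  rw [h4]

/-- the monomials have order zero outside of the zeros and poles of the units -/
theorem mono_zero {t : ℕ} (u : Fin t → (UF 𝒰 F)ˣ) (v : Fin t →₀ ℕ) :
    ∀ᶠ ω in EV 𝒰 k (fun _ : ℕ => F), ω ∉ Tu (fun j => (u j : UF 𝒰 F)) →
      oo (mon (fun j => (u j : UF 𝒰 F)) v) ω = 0 := by
  have hu0 : ∀ j, (u j : UF 𝒰 F) ≠ 0 := fun j => Units.ne_zero _
  have h1 := oo_prod (𝒰 := 𝒰) (k := k) Finset.univ (fun j => (u j : UF 𝒰 F) ^ v j)
    (fun j _ => pow_ne_zero _ (hu0 j))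
  have h2 : ∀ᶠ ω in EV 𝒰 k (fun _ : ℕ => F), ∀ j,
      oo ((u j : UF 𝒰 F) ^ v j) ω = (v j : ℤ) * oo (u j : UF 𝒰 F) ω :=
    eventually_all.2 fun j => oo_pow (u j : UF 𝒰 F) (v j)
  filter_upwards [h1, h2] with ω h3 h4 hω
  unfold mon
  rw [h3]
  refine Finset.sum_eq_zero fun j _ => ?_
  rw [h4 j]
  have : oo (u j : UF 𝒰 F) ω = 0 := by
    by_contra hj
    exact hω ⟨j, hj⟩
  rw [this, mul_zero]

/-- **Denominators** of elements without poles outside of a finite set are monomials. -/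
theorem den_ST (Δ : Dt 𝒰 k F (fun _ : ℕ => F)) {t : ℕ} (u : Fin t → (UF 𝒰 F)ˣ)
    (hu : Δ.IsU (fun j => (u j : UF 𝒰 F))) (hnl : NL Δ u) (S : Finset (Place k F))
    (y : UF 𝒰 F) (hy : ∀ᶠ ω in EV 𝒰 k (fun _ : ℕ => F), ω.2 ∉ S → y = 0 ∨ 0 ≤ oo y ω)
    (p q : MvPolynomial (Fin t) Δ.E) (hpq : IsRelPrime q p) (hq : q ≠ 0)
    (h : aeval (fun j => (u j : UF 𝒰 F)) q * y = aeval (fun j => (u j : UF 𝒰 F)) p) : ST q := by
  have hu0 : ∀ j, (u j : UF 𝒰 F) ≠ 0 := fun j => Units.ne_zero _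
  have hne : ∀ f : MvPolynomial (Fin t) Δ.E, f ≠ 0 → aeval (fun j => (u j : UF 𝒰 F)) f ≠ 0 := by
    intro f hf h
    exact hf (hu.2 (by rw [h, map_zero]))
  by_cases hy0 : y = 0
  · rw [hy0, mul_zero] at h
    have hp0 : p = 0 := by
      by_contra hp
      exact hne p hp h.symm
    rw [hp0] at hpq
    exact ST.of_isUnit (hpq dvd_rfl (dvd_zero q))
  have hQ := hne q hq
  have hp0 : p ≠ 0 := by
    rintro rfl
    rw [map_zero] at h
    exact mul_ne_zero hQ hy0 h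
  have hP := hne p hp0
  have hH : ∀ᶠ i in (𝒰 : Filter ℕ), 0 ≤ Hu k (fun j => (u j : UF 𝒰 F)) i :=
    Eventually.of_forall fun i => Hu_nonneg _ i
  refine ST.of_factors hq fun p' hp' hpq' => ?_
  by_contra hST
  have hss : ∃ s ∈ p'.support, ∃ s' ∈ p'.support, s ≠ s' := by
    by_contra hcon
    push Not at hcon
    exact hST (ST.of_support hcon)
  obtain ⟨s, hs, s', hs', hss'⟩ := hss
  obtain ⟨g, hg⟩ := hpq'
  have hg0 : g ≠ 0 := by
    rintro rfl
    rw [mul_zero] at hg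
    exact hq hg
  have hP' := hne p' hp'.ne_zero
  have hG := hne g hg0
  obtain ⟨hb1, -⟩ := allB Δ t (fun j => (u j : UF 𝒰 F)) hu p' hp'
  have hgcd := allG Δ t (fun j => (u j : UF 𝒰 F)) hu q p hq hp0 hpq
  obtain ⟨el, hel, hlow⟩ := Pool.Agent.Y141.FG.low Δ t (fun j => (u j : UF 𝒰 F)) hu0 g
  have hind : Bd 𝒰 Δ.χ (fun ω : Om k (fun _ : ℕ => F) => if ω.2 ∈ S then (1 : ℤ) else 0) := by
    refine ⟨S.card, ?_⟩
    filter_upwards [Δ.one_le] with i h1 T
    have h4 : ∑ P ∈ T, (if P ∈ S then (1 : ℤ) else 0) ≤ S.card := by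
      rw [Finset.sum_ite, Finset.sum_const_zero, add_zero, Finset.sum_const, nsmul_eq_mul,
        mul_one]
      exact_mod_cast Finset.card_le_card fun P hP => (Finset.mem_filter.1 hP).2
    refine h4.trans ?_
    have h5 : (0 : ℤ) ≤ S.card := by positivity
    nlinarith
  have hbd : Ng 𝒰 Δ.χ (Hu k (fun j => (u j : UF 𝒰 F))) (fun ω : Om k (fun _ : ℕ => F) =>
      if ω ∈ Tu (fun j => (u j : UF 𝒰 F)) then 0 else
        oo (aeval (fun j => (u j : UF 𝒰 F)) p') ω) := by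
    refine ((((hb1.pos).add (hind.ng hH).pos).add hgcd.pos).add (hel.ng hH).pos).mono ?_
    have e1 := oo_mul (𝒰 := 𝒰) (k := k) hQ hy0
    rw [h] at e1
    have e2 := oo_mul (𝒰 := 𝒰) (k := k) hP' hG
    rw [← map_mul, ← hg] at e2
    filter_upwards [e1, e2, hy, hlow,
      (eventually_all_finset g.support).2 fun v _ => mono_zero u v] with ω g1 g2 g3 g4 g5
    by_cases hω : ω ∈ Tu (fun j => (u j : UF 𝒰 F))
    · simp only [if_pos hω]
      have h1 := le_max_right (el ω) 0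
      have h2 : (0 : ℤ) ≤ max (if ω.2 ∈ S then (1 : ℤ) else 0) 0 := le_max_right _ _
      have h3 : (0 : ℤ) ≤ max (0 : ℤ) 0 := le_max_right _ _
      linarith
    · simp only [if_neg hω]
      have g4' := (g4 0 (fun v hv => (g5 v hv hω).ge)).resolve_left hG
      by_cases hS : ω.2 ∈ S
      · simp only [if_pos hS]
        omega
      · simp only [if_neg hS]
        have g3' := (g3 hS).resolve_left hy0
        omega
  have hν : (fun j => (s j : ℤ) - s' j) ≠ 0 := by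
    intro h
    apply hss'
    refine Finsupp.ext fun j => ?_
    have h1 := congrFun h j
    simp only [Pi.zero_apply] at h1
    omega
  exact hnl _ hν fun ε hε => low_of_Ng Δ u hu p' hp'.ne_zero hbd s s' hs hs' ε hε

end Pool.Agent.H434.Fun
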