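import Mathlib
import Pool.Agent.H434.H1

/-!
The function field step for affine varieties with a map to a Kummer cover of a torus.
-/

set_option autoImplicit false
set_option linter.unusedSectionVars false
set_option linter.unusedVariables false

namespace Pool.Agent.H434.Fun

open FF Filter MvPolynomial Pool.Agent.W603.LV Pool.Agent.W603.PV Pool.Agent.W603.CZ
open Pool.Agent.Y731.FG Pool.Agent.Y664.FG
open scoped LaurentPolynomial

/-- a nonconstant map from the multiplicative group to `{F = 0}` through `y` -/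
def Cg {R K : Type} [CommRing R] [CommRing K] [Algebra R K] {N n : ℕ} {ι : Type}
    (Fv : ι → MvPolynomial (Fin N) R) (U : Fin n → Fin N) (y : Fin N → K) : Prop :=
  ∃ v : Fin N → K[T;T⁻¹],
    (∀ l, eval₂ (LaurentPolynomial.C.comp (algebraMap R K)) v (Fv l) = 0) ∧
    (∀ i, ev1 (v i) = y i) ∧
    ∃ (l : Fin n) (a : ℤ), a ≠ 0 ∧
      v (U l) = LaurentPolynomial.C (y (U l)) * LaurentPolynomial.T a

section abs

variable {E K : Type} [Field E] [Field K] [Algebra E K] {t N n : ℕ}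

theorem curve_gen {ι : Type} (Fv : ι → MvPolynomial (Fin N) E) (U : Fin n → Fin N)
    (u : Fin t → Kˣ) (hu : AlgebraicIndependent E (fun j => (u j : K))) (y : Fin N → K)
    (p q : Fin N → MvPolynomial (Fin t) E) (hq : ∀ i, q i ≠ 0) (hST : ∀ i, ST (q i))
    (hqp : ∀ i, aeval (fun j => (u j : K)) (q i) * y i = aeval (fun j => (u j : K)) (p i))
    (hF : ∀ l, aeval y (Fv l) = 0) (l0 : Fin n) (α : E) (M : Fin t → ℤ)
    (hU : y (U l0) = algebraMap E K α * ((∏ j, u j ^ M j : Kˣ) : K)) (j0 : Fin t)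
    (hj0 : M j0 ≠ 0) : Cg Fv U y := by
  classical
  let CC : K →+* K[T;T⁻¹] := LaurentPolynomial.C
  let uh : Fin t → (K[T;T⁻¹])ˣ := fun j =>
    Units.map (CC : K →* K[T;T⁻¹]) (u j) * uT (if j = j0 then (1 : ℤ) else 0)
  have hprod : ∀ b : Fin t → ℤ, (∏ j, uh j ^ b j) =
      Units.map (CC : K →* K[T;T⁻¹]) (∏ j, u j ^ b j) * uT (b j0) := by
    intro b
    simp only [uh, mul_zpow, Finset.prod_mul_distrib]
    congr 1
    · rw [map_prod]
      exact Finset.prod_congr rfl fun j _ => (map_zpow _ _ _).symm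
    · rw [Finset.prod_eq_single j0]
      · rw [if_pos rfl, uT_zpow, one_mul]
      · intro j _ hj
        rw [if_neg hj, uT_zpow, zero_mul]
        apply Units.ext
        exact LaurentPolynomial.T_zero
      · intro h
        exact absurd (Finset.mem_univ _) h
  have hev : ∀ j, ev1 ((uh j : (K[T;T⁻¹])ˣ) : K[T;T⁻¹]) = u j := by
    intro j
    show ev1 (LaurentPolynomial.C (u j : K) * LaurentPolynomial.T _) = _
    rw [map_mul, ev1_C, ev1_T, mul_one]
  have halg : ∀ c : E, algebraMap E K[T;T⁻¹] c = CC (algebraMap E K c) := fun c => rfl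
  have hevp : ∀ P : MvPolynomial (Fin t) E,
      ev1 (aeval (fun j => ((uh j : (K[T;T⁻¹])ˣ) : K[T;T⁻¹])) P) =
        aeval (fun j => (u j : K)) P := by
    intro P
    rw [aeval_def, aeval_def, hom_eval₂]
    congr 1
    · ext c
      show ev1 (algebraMap E K[T;T⁻¹] c) = _
      rw [halg]
      exact ev1_C _
    · funext j
      exact hev j
  have hunit : ∀ i, IsUnit (aeval (fun j => ((uh j : (K[T;T⁻¹])ˣ) : K[T;T⁻¹])) (q i)) := by
    intro i
    obtain ⟨s, c, hsc⟩ := hST i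
    have hc : c ≠ 0 := by
      rintro rfl
      rw [monomial_zero] at hsc
      exact hq i hsc
    rw [hsc, aeval_monomial, Finsupp.prod_fintype _ _ (fun _ => pow_zero _)]
    refine ((IsUnit.mk0 c hc).map (algebraMap E K[T;T⁻¹])).mul ?_
    have h1 : ∏ j, ((uh j : (K[T;T⁻¹])ˣ) : K[T;T⁻¹]) ^ s j =
        ((∏ j, uh j ^ s j : (K[T;T⁻¹])ˣ) : K[T;T⁻¹]) := by
      rw [Units.coe_prod]
      exact Finset.prod_congr rfl fun j _ => (Units.val_pow_eq_pow_val _ _).symm
    rw [h1]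
    exact Units.isUnit _
  let v : Fin N → K[T;T⁻¹] := fun i => ((hunit i).unit⁻¹ : (K[T;T⁻¹])ˣ) *
    aeval (fun j => ((uh j : (K[T;T⁻¹])ˣ) : K[T;T⁻¹])) (p i)
  have hv : ∀ i, aeval (fun j => ((uh j : (K[T;T⁻¹])ˣ) : K[T;T⁻¹])) (q i) * v i =
      aeval (fun j => ((uh j : (K[T;T⁻¹])ˣ) : K[T;T⁻¹])) (p i) := by
    intro i
    simp only [v]
    rw [← mul_assoc, IsUnit.mul_val_inv, one_mul]
  have hinj : Function.Injective (aeval (R := E) fun j => (u j : K)) := hu
  have hqu : ∀ i, aeval (fun j => (u j : K)) (q i) ≠ 0 := fun i h =>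
    hq i (hinj (by rw [h, map_zero]))
  refine ⟨v, fun l => ?_, fun i => ?_, l0, M j0, hj0, ?_⟩
  · obtain ⟨N0, G, hG⟩ := Pool.Agent.N754.LT.univ_num (k := E) p q (Fv l)
    have h1 := hG K (aeval fun j => (u j : K)) y hqp
    rw [hF, mul_zero] at h1
    have hG0 : G = 0 := hinj (by rw [← h1, map_zero])
    have h2 := hG K[T;T⁻¹] (aeval fun j => ((uh j : (K[T;T⁻¹])ˣ) : K[T;T⁻¹])) v hv
    rw [hG0, map_zero, map_pow, map_prod] at h2
    have h3 : IsUnit ((∏ i, aeval (fun j => ((uh j : (K[T;T⁻¹])ˣ) : K[T;T⁻¹])) (q i)) ^ N0) :=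
      (IsUnit.prod_iff.2 fun i _ => hunit i).pow N0
    exact (h3.mul_right_eq_zero).1 h2
  · apply mul_left_cancel₀ (hqu i)
    rw [hqp, ← hevp, ← hevp, ← map_mul, hv]
  · -- relation between the polynomials of a unit coordinate
    let mp : Fin t →₀ ℕ := Finsupp.equivFunOnFinite.symm fun j => (M j).toNat
    let mm : Fin t →₀ ℕ := Finsupp.equivFunOnFinite.symm fun j => (-M j).toNat
    have hmon : ∀ {G : Type} [CommRing G] (w : Fin t → Gˣ), ((∏ j, w j ^ M j : Gˣ) : G) *
        ∏ j, (w j : G) ^ mm j = ∏ j, (w j : G) ^ mp j := by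
      intro G _ w
      have h1 : (∏ j, w j ^ M j) * (∏ j, w j ^ mm j) = ∏ j, w j ^ mp j := by
        rw [← Finset.prod_mul_distrib]
        refine Finset.prod_congr rfl fun j _ => ?_
        rw [← zpow_natCast, ← zpow_natCast, ← zpow_add]
        congr 1
        have h2 : mm j = (-M j).toNat := rfl
        have h3 : mp j = (M j).toNat := rfl
        rw [h2, h3]
        omega
      have h2 := congrArg (fun x : Gˣ => (x : G)) h1
      simp only [Units.val_mul, Units.coe_prod, Units.val_pow_eq_pow_val] at h2 ⊢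
      exact h2
    have hrel : q (U l0) * monomial mp α = p (U l0) * monomial mm 1 := by
      apply hinj
      rw [map_mul, map_mul, aeval_monomial, aeval_monomial,
        Finsupp.prod_fintype _ _ (fun _ => pow_zero _),
        Finsupp.prod_fintype _ _ (fun _ => pow_zero _), map_one, one_mul, ← hqp, hU,
        ← hmon u]
      ring
    have h1 := congrArg (aeval (fun j => ((uh j : (K[T;T⁻¹])ˣ) : K[T;T⁻¹]))) hrel
    rw [map_mul, map_mul, aeval_monomial, aeval_monomial,
        Finsupp.prod_fintype _ _ (fun _ => pow_zero _),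
        Finsupp.prod_fintype _ _ (fun _ => pow_zero _), map_one, one_mul, ← hv, ← hmon uh,
        mul_assoc] at h1
    have h2 := (hunit (U l0)).mul_left_cancel h1
    have h3 : IsUnit (∏ j, ((uh j : (K[T;T⁻¹])ˣ) : K[T;T⁻¹]) ^ mm j) := by
      have h4 : ∏ j, ((uh j : (K[T;T⁻¹])ˣ) : K[T;T⁻¹]) ^ mm j =
          ((∏ j, uh j ^ mm j : (K[T;T⁻¹])ˣ) : K[T;T⁻¹]) := by
        rw [Units.coe_prod]
        exact Finset.prod_congr rfl fun j _ => (Units.val_pow_eq_pow_val _ _).symm
      rw [h4]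
      exact Units.isUnit _
    rw [← mul_assoc] at h2
    have h4 := h3.mul_right_cancel h2
    rw [← h4, hprod, Units.val_mul, hU, halg, map_mul, mul_assoc]
    rfl

end abs

theorem Cg.map {R K K' : Type} [CommRing R] [CommRing K] [CommRing K'] [Algebra R K]
    [Algebra R K'] (φ : K →ₐ[R] K') {N n : ℕ} {ι : Type} {Fv : ι → MvPolynomial (Fin N) R}
    {U : Fin n → Fin N} {y : Fin N → K} (h : Cg Fv U y) : Cg Fv U (fun i => φ (y i)) := by
  obtain ⟨v, h1, h2, l, a, ha, h3⟩ := h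
  refine ⟨fun i => mT (φ : K →+* K') (v i), fun l => ?_, fun i => ?_, l, a, ha, ?_⟩
  · have h4 := congrArg (mT (φ : K →+* K')) (h1 l)
    rw [hom_eval₂, map_zero] at h4
    rw [← h4]
    congr 1
    refine RingHom.ext fun c => ?_
    show LaurentPolynomial.C (algebraMap R K' c) =
      mT (φ : K →+* K') (LaurentPolynomial.C (algebraMap R K c))
    rw [mT_C]
    congr 1
    exact (φ.commutes c).symm
  · rw [ev1_mT, h2 i]
    rfl
  · show mT (φ : K →+* K') (v (U l)) = _
    rw [h3, map_mul, mT_C, mT_T]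
    rfl

theorem Cg.of_map {R R' K : Type} [CommRing R] [CommRing R'] [CommRing K] [Algebra R K]
    [Algebra R' K] [Algebra R R'] [IsScalarTower R R' K] {N n : ℕ} {ι : Type}
    {Fv : ι → MvPolynomial (Fin N) R} {U : Fin n → Fin N} {y : Fin N → K}
    (h : Cg (fun l => MvPolynomial.map (algebraMap R R') (Fv l)) U y) : Cg Fv U y := by
  obtain ⟨v, h1, h2, h3⟩ := h
  refine ⟨v, fun l => ?_, h2, h3⟩
  rw [← h1 l, eval₂_map]
  congr 1
  refine RingHom.ext fun c => ?_
  show LaurentPolynomial.C (algebraMap R K c) =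
    LaurentPolynomial.C (algebraMap R' K (algebraMap R R' c))
  rw [← IsScalarTower.algebraMap_apply]

theorem Cg.to_map {R R' K : Type} [CommRing R] [CommRing R'] [CommRing K] [Algebra R K]
    [Algebra R' K] [Algebra R R'] [IsScalarTower R R' K] {N n : ℕ} {ι : Type}
    {Fv : ι → MvPolynomial (Fin N) R} {U : Fin n → Fin N} {y : Fin N → K} (h : Cg Fv U y) :
    Cg (fun l => MvPolynomial.map (algebraMap R R') (Fv l)) U y := by
  obtain ⟨v, h1, h2, h3⟩ := h
  refine ⟨v, fun l => ?_, h2, h3⟩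
  rw [← h1 l, eval₂_map]
  congr 1
  refine RingHom.ext fun c => ?_
  show LaurentPolynomial.C (algebraMap R' K (algebraMap R R' c)) =
    LaurentPolynomial.C (algebraMap R K c)
  rw [← IsScalarTower.algebraMap_apply]

variable {𝒰 : Ultrafilter ℕ} {k F : Type} [Field k] [IsAlgClosed k] [CharZero k]
  [Field F] [Algebra k F] [IsFF k F]

omit [IsAlgClosed k] [CharZero k] [Algebra k F] [IsFF k F] [Field k] in
theorem Cg_transfer {N n : ℕ} {ι : Type} [Finite ι] (Fv : ι → MvPolynomial (Fin N) F)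
    (U : Fin n → Fin N) (y : Fin N → ℕ → F)
    (h : Cg (R := F) (K := UF 𝒰 F) Fv U (fun i => um 𝒰 (L := fun _ : ℕ => F) (y i))) :
    ∀ᶠ t in (𝒰 : Filter ℕ), Cg (R := F) (K := F) Fv U (fun i => y i t) := by
  classical
  obtain ⟨v, h1, h2, l0, a, ha, h3⟩ := h
  let φ : (ℕ → F) →+* UF 𝒰 F := Ideal.Quotient.mk (ui 𝒰 fun _ : ℕ => F)
  have hφ : Function.Surjective φ := Ideal.Quotient.mk_surjective
  have hφ0 : ∀ y : ℕ → F, φ y = 0 → ∀ᶠ i in (𝒰 : Filter ℕ), y i = 0 := fun y hy =>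
    (um_zero_iff (𝒰 := 𝒰) (L := fun _ : ℕ => F)).1 hy
  let π : ℕ → (ℕ → F) →+* F := fun i => Pi.evalRingHom (fun _ : ℕ => F) i
  have key : ∀ w : (ℕ → F)[T;T⁻¹], mT φ w = 0 → ∀ᶠ i in (𝒰 : Filter ℕ), mT (π i) w = 0 := by
    intro w hw
    have h4 : ∀ᶠ i in (𝒰 : Filter ℕ), ∀ n ∈ w.coeff.support, w.coeff n i = 0 := by
      refine (eventually_all_finset _).2 fun n _ => hφ0 _ ?_
      rw [← mT_coeff, hw]
      rfl
    filter_upwards [h4] with i h5
    refine LaurentPolynomial.ext fun n => ?_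
    rw [mT_coeff]
    by_cases hn : n ∈ w.coeff.support
    · exact h5 n hn
    · rw [Finsupp.notMem_support_iff.1 hn, map_zero]
      rfl
  have hlift : ∀ W : (UF 𝒰 F)[T;T⁻¹], ∃ w : (ℕ → F)[T;T⁻¹], mT φ w = W := by
    intro W
    induction W using LaurentPolynomial.induction_on' with
    | add p q hp hq =>
      obtain ⟨p', hp'⟩ := hp
      obtain ⟨q', hq'⟩ := hq
      exact ⟨p' + q', by rw [map_add, hp', hq']⟩
    | C_mul_T n c =>
      obtain ⟨c', hc'⟩ := hφ c
      exact ⟨LaurentPolynomial.C c' * LaurentPolynomial.T n, by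
        rw [map_mul, mT_C, mT_T, hc']⟩
  choose w hw using fun j => hlift (v j)
  have e1 : ∀ᶠ i in (𝒰 : Filter ℕ), ∀ l, mT (π i) (eval₂
      (LaurentPolynomial.C.comp (algebraMap F (ℕ → F))) w (Fv l)) = 0 := by
    refine eventually_all.2 fun l => key _ ?_
    rw [hom_eval₂, ← h1 l]
    congr 1
    · refine RingHom.ext fun c => ?_
      show mT φ (LaurentPolynomial.C (algebraMap F (ℕ → F) c)) =
        LaurentPolynomial.C (algebraMap F (UF 𝒰 F) c)
      rw [mT_C]
      rfl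
    · funext j
      exact hw j
  have e2 : ∀ᶠ i in (𝒰 : Filter ℕ), ∀ j, ev1 (w j) i - y j i = 0 := by
    refine eventually_all.2 fun j => ?_
    refine hφ0 (ev1 (w j) - y j) ?_
    rw [map_sub, ← ev1_mT, hw j, h2 j, sub_eq_zero]
    rfl
  have e3 : ∀ᶠ i in (𝒰 : Filter ℕ), mT (π i) (w (U l0) - LaurentPolynomial.C (y (U l0)) *
      LaurentPolynomial.T a) = 0 := by
    refine key _ ?_
    rw [map_sub, hw, h3, map_mul, mT_C, mT_T, sub_eq_zero]
    rfl
  filter_upwards [e1, e2, e3] with i g1 g2 g3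
  refine ⟨fun j => mT (π i) (w j), fun l => ?_, fun j => ?_, l0, a, ha, ?_⟩
  · have h4 := g1 l
    rw [hom_eval₂] at h4
    rw [← h4]
    congr 1
    refine RingHom.ext fun c => ?_
    show _ = mT (π i) (LaurentPolynomial.C (algebraMap F (ℕ → F) c))
    rw [mT_C]
    rfl
  · rw [ev1_mT]
    exact sub_eq_zero.1 (g2 j)
  · rw [map_sub, map_mul, mT_C, mT_T, sub_eq_zero] at g3
    exact g3

/-- the case of bounded heights -/
theorem bounded_case {n : ℕ} (x : Fin n → ℕ → F) (hx : ∀ l i, x l i ≠ 0)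
    (S : Finset (Place k F)) (hS : ∀ l i, ∀ P : Place k F, P ∉ S → P.ord (x l i) = 0)
    (hbd : ¬ ∀ B : ℤ, ∀ᶠ i in (𝒰 : Filter ℕ), B < HH k x i) :
    ∀ᶠ i in (𝒰 : Filter ℕ), ∀ᶠ i' in (𝒰 : Filter ℕ), ∀ l, ∃ c : k,
      x l i' = algebraMap k F c * x l i := by
  classical
  push Not at hbd
  obtain ⟨B, hB⟩ := hbd
  have hB' : ∀ᶠ i in (𝒰 : Filter ℕ), HH k x i ≤ B := hB
  have hfin : ∀ l : Fin n, ∀ P ∈ S, ∃ v : ℤ, ∀ᶠ i in (𝒰 : Filter ℕ), P.ord (x l i) = v := by
    intro l P _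
    have h1 : ∀ᶠ i in (𝒰 : Filter ℕ), ∃ v ∈ Set.Icc (-B) B, P.ord (x l i) = v := by
      filter_upwards [hB'] with i h2
      refine ⟨_, ?_, rfl⟩
      have h3 := abs_ord_le (k := k) (x := x l i) P
      have h4 : hgt k (x l i) ≤ HH k x i :=
        Finset.single_le_sum (f := fun l => hgt k (x l i)) (fun _ _ => hgt_nonneg _)
          (Finset.mem_univ l)
      rw [abs_le] at h3
      constructor <;> omega
    rw [Ultrafilter.eventually_exists_mem_iff (Set.finite_Icc _ _)] at h1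
    obtain ⟨v, -, hv⟩ := h1
    exact ⟨v, hv⟩
  choose! v hv using hfin
  have hall : ∀ᶠ i in (𝒰 : Filter ℕ), ∀ l, ∀ P ∈ S, P.ord (x l i) = v l P :=
    eventually_all.2 fun l => (eventually_all_finset S).2 fun P hP => hv l P hP
  filter_upwards [hall] with i h1
  filter_upwards [hall] with i' h2
  intro l
  have h3 : hgt k (x l i' / x l i) ≤ 0 := by
    unfold hgt
    refine le_of_eq (finsum_eq_zero_of_forall_eq_zero fun P => ?_)
    have h4 : P.ord (x l i' / x l i) = P.ord (x l i') - P.ord (x l i) := by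
      rw [div_eq_mul_inv, P.ord_mul (hx l i') (inv_ne_zero (hx l i)), P.ord_inv]
      ring
    have h5 : P.ord (x l i') = P.ord (x l i) := by
      by_cases hP : P ∈ S
      · rw [h1 l P hP, h2 l P hP]
      · rw [hS l i P hP, hS l i' P hP]
    rw [h4, h5, sub_self, neg_zero, max_self]
  obtain ⟨c, hc⟩ := const_of_hgt h3
  exact ⟨c, by rw [← hc, div_mul_cancel₀ _ (hx l i)]⟩

end Pool.Agent.H434.Fun
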