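import Mathlib
import Pool.Agent.H434.H2

/-!
The function field step, general form.
-/

set_option autoImplicit false
set_option linter.unusedSectionVars false
set_option linter.unusedVariables false

namespace Pool.Agent.H434.Fun

open FF Filter MvPolynomial Pool.Agent.W603.LV Pool.Agent.W603.PV Pool.Agent.W603.CZ
open Pool.Agent.Y731.FG Pool.Agent.Y664.FG
open scoped LaurentPolynomial

variable {𝒰 : Ultrafilter ℕ} {k F : Type} [Field k] [IsAlgClosed k] [CharZero k]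
  [Field F] [Algebra k F] [IsFF k F]

/-- a root of the value of a polynomial at units which are `e`-th powers is a rational function of
the units -/
theorem root_rat (Δ : Dt 𝒰 k F (fun _ : ℕ => F)) [CharZero Δ.E] {t n : ℕ}
    (u : Fin t → (UF 𝒰 F)ˣ) (hu : Δ.IsU (fun j => (u j : UF 𝒰 F))) (hnl : NL Δ u) {e m : ℕ} (he : 1 ≤ e) (hm : 1 ≤ m)
    (hme : m ∣ e) (f : MvPolynomial (Fin n) Δ.E) (α : Fin n → Δ.E) (M : Fin n → Fin t → ℤ)
    (x : Fin n → UF 𝒰 F) (hx : ∀ l, x l = algebraMap Δ.E (UF 𝒰 F) (α l) *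
      ((∏ j, (u j ^ e) ^ M l j : (UF 𝒰 F)ˣ) : UF 𝒰 F)) (z : UF 𝒰 F)
    (hz : z ^ m = aeval x f) : z ∈ RatSub (fun j => (u j : UF 𝒰 F)) hu.2 := by
  classical
  obtain ⟨κ, hκ⟩ := exists_shift 1 le_rfl M f
  simp only [one_mul] at hκ
  let ue : Fin t → (UF 𝒰 F)ˣ := fun j => u j ^ e
  have hue : Δ.IsU (fun j => (ue j : UF 𝒰 F)) := isU_pow Δ u hu he
  have hnle : NL Δ ue := nl_pow Δ u hnl he
  have e2 := mon_zpow ue 1 κ M α f hκ x (fun l => by
    rw [hx l]
    congr 2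
    exact Finset.prod_congr rfl fun j _ => by rw [Nat.cast_one, one_mul])
  simp only [pow_one, one_mul] at e2
  by_cases h0 : PP κ M α f = 0
  · rw [h0, map_zero, ← hz] at e2
    have h1 := (Units.mul_right_eq_zero _).1 e2
    rw [(pow_eq_zero_iff (by omega)).1 h1]
    exact Subalgebra.zero_mem _
  obtain ⟨s, c, h, hPh⟩ := powForm_ff Δ ue hue hnle m hm (fun l => (κ l : ℤ)) _ _ rfl h0 z (by
    rw [← e2, hz, mul_comm]
    congr 2)
  set A : UF 𝒰 F := aeval (fun j => (ue j : UF 𝒰 F)) h with hA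
  rw [hPh, map_mul, map_pow, aeval_monomial, Finsupp.prod_fintype _ _ (fun _ => pow_zero _),
    ← hA, ← hz] at e2
  -- the powers of the units are rational functions
  have hpu : ∀ b : Fin t → ℤ, ((∏ j, u j ^ b j : (UF 𝒰 F)ˣ) : UF 𝒰 F) ∈
      RatSub (fun j => (u j : UF 𝒰 F)) hu.2 := fun b => prod_mem_RatSub u hu.2 b
  have hAr : A ∈ RatSub (fun j => (u j : UF 𝒰 F)) hu.2 := by
    have h1 : ∀ P : MvPolynomial (Fin t) Δ.E, aeval (fun j => (ue j : UF 𝒰 F)) P ∈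
        RatSub (fun j => (u j : UF 𝒰 F)) hu.2 := by
      intro P
      induction P using MvPolynomial.induction_on with
      | C a =>
        rw [← MvPolynomial.algebraMap_eq, AlgHom.commutes]
        exact Subalgebra.algebraMap_mem _ _
      | add p q hp hq =>
        rw [map_add]
        exact Subalgebra.add_mem _ hp hq
      | mul_X p j hp =>
        rw [map_mul, aeval_X]
        refine Subalgebra.mul_mem _ hp ?_
        have h2 := zpow_mem_RatSub u hu.2 j e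
        rw [zpow_natCast] at h2
        exact h2
    exact h1 h
  by_cases hA0 : A = 0
  · rw [hA0, zero_pow (by omega), mul_zero] at e2
    have h1 := (Units.mul_right_eq_zero _).1 e2
    rw [(pow_eq_zero_iff (by omega)).1 h1]
    exact Subalgebra.zero_mem _
  obtain ⟨e', he'⟩ := hme
  let B : (UF 𝒰 F)ˣ := ∏ j, u j ^ ((e' : ℤ) * ((s j : ℤ) - κ j))
  let γ : UF 𝒰 F := z / ((B : UF 𝒰 F) * A)
  have hB : (B : UF 𝒰 F) ^ m * ((∏ j, ue j ^ κ j : (UF 𝒰 F)ˣ) : UF 𝒰 F) =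
      ∏ j, (ue j : UF 𝒰 F) ^ s j := by
    rw [← Units.val_pow_eq_pow_val, ← Units.val_mul]
    have h1 : B ^ m * (∏ j, ue j ^ κ j) = ∏ j, ue j ^ s j := by
      simp only [B, ue]
      rw [← Finset.prod_pow, ← Finset.prod_mul_distrib]
      refine Finset.prod_congr rfl fun j _ => ?_
      rw [← zpow_natCast, ← zpow_natCast, ← zpow_natCast, ← zpow_natCast, ← zpow_mul,
        ← zpow_mul, ← zpow_mul, ← zpow_add]
      congr 1
      rw [he']
      push_cast
      ring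
    rw [h1, Units.coe_prod]
    exact Finset.prod_congr rfl fun j _ => Units.val_pow_eq_pow_val _ _
  have hγ : γ ^ m = algebraMap Δ.E (UF 𝒰 F) c := by
    simp only [γ]
    rw [div_pow, mul_pow, div_eq_iff (mul_ne_zero (pow_ne_zero _ (Units.ne_zero B))
      (pow_ne_zero _ hA0))]
    have h2 : ((∏ j, ue j ^ κ j : (UF 𝒰 F)ˣ) : UF 𝒰 F) ≠ 0 := Units.ne_zero _
    apply mul_left_cancel₀ h2
    rw [e2, ← hB]
    ring
  have hγE : γ ∈ Δ.E := by
    refine Δ.hE.root γ m (by omega) ?_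
    rw [hγ]
    exact c.2
  have hzγ : z = γ * ((B : UF 𝒰 F) * A) := by
    simp only [γ]
    rw [div_mul_cancel₀ _ (mul_ne_zero (Units.ne_zero B) hA0)]
  rw [hzγ]
  refine Subalgebra.mul_mem _ ?_ (Subalgebra.mul_mem _ (hpu _) hAr)
  exact Subalgebra.algebraMap_mem _ (⟨γ, hγE⟩ : Δ.E)

omit [IsAlgClosed k] [CharZero k] [Field k] [Algebra k F] [IsFF k F] [Field F] in
theorem units_pow_prod {B : Type} [CommRing B] {t : ℕ} (u : Fin t → Bˣ) (e : ℕ)
    (M : Fin t → ℤ) :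
    ((∏ j, (u j ^ e) ^ M j : Bˣ) : B) = ((∏ j, u j ^ M j : Bˣ) : B) ^ e := by
  rw [← Units.val_pow_eq_pow_val, ← Finset.prod_pow]
  have e5 : ∀ j, (u j ^ e) ^ M j = (u j ^ M j) ^ e := fun j => by
    rw [← zpow_natCast, ← zpow_natCast, ← zpow_mul, ← zpow_mul, mul_comm]
  simp only [e5]

/-- **The function field step.** -/
theorem ffgen {N n q : ℕ} {ι : Type} [Finite ι] (Fv : ι → MvPolynomial (Fin N) F)
    (U : Fin n → Fin N) (J : Fin q → Fin N) (m : Fin q → ℕ) (hm : ∀ j, 1 ≤ m j)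
    (f : Fin q → MvPolynomial (Fin n) F) {e : ℕ} (he : 1 ≤ e) (hme : ∀ j, m j ∣ e)
    (S : Finset (Place k F)) (y : Fin N → ℕ → F)
    (hyS : ∀ i t, ∀ P : Place k F, P ∉ S → Ge P 0 (y i t)) (v : Fin n → ℕ → F)
    (hv0 : ∀ l t, v l t ≠ 0) (hvS : ∀ l t, ∀ P : Place k F, P ∉ S → P.ord (v l t) = 0)
    (hve : ∀ l t, v l t ^ e = y (U l) t) (hF : ∀ l t, aeval (fun i => y i t) (Fv l) = 0)
    (hJ : ∀ j t, y (J j) t ^ m j = aeval (fun l => y (U l) t) (f j))
    {E' : Type} [Field E'] [IsAlgClosed E'] (θ : UF 𝒰 F →+* E') :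
    (∀ᶠ t in (𝒰 : Filter ℕ), ∀ᶠ t' in (𝒰 : Filter ℕ), ∀ l, ∃ c : k,
      v l t' = algebraMap k F c * v l t) ∨
    (∃ z : Fin N → E', (∀ l, eval₂ (θ.comp (algebraMap F (UF 𝒰 F))) z (Fv l) = 0) ∧
      (∀ l, z (U l) = θ (um 𝒰 (L := fun _ : ℕ => F) (y (U l)))) ∧
      (∀ j, z (J j) = θ (um 𝒰 (L := fun _ : ℕ => F) (y (J j)))) ∧
      z ≠ fun i => θ (um 𝒰 (L := fun _ : ℕ => F) (y i))) ∨
    ∀ᶠ t in (𝒰 : Filter ℕ), Cg (R := F) (K := F) Fv U (fun i => y i t) := by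
  classical
  by_cases hunb : ∀ B : ℤ, ∀ᶠ i in (𝒰 : Filter ℕ), B < HH k v i
  swap
  · exact Or.inl (bounded_case v hv0 S hvS hunb)
  right
  obtain ⟨Δ, t, u, α, M, hu, h2, h3, h4, hnl⟩ := exists_scale v hv0 S hvS hunb
  have hch := charZero_E Δ
  let Y : Fin N → UF 𝒰 F := fun i => um 𝒰 (L := fun _ : ℕ => F) (y i)
  let α' : Fin n → Δ.E := fun l => (⟨α l, (h2 l).1⟩ : Δ.E) ^ e
  have hYU : ∀ l, Y (U l) = algebraMap Δ.E (UF 𝒰 F) (α' l) *
      ((∏ j, (u j ^ e) ^ M l j : (UF 𝒰 F)ˣ) : UF 𝒰 F) := by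
    intro l
    have e1 : Y (U l) = um 𝒰 (L := fun _ : ℕ => F) (v l) ^ e := by
      simp only [Y]
      have e3 : y (U l) = fun i => v l i ^ e := funext fun i => (hve l i).symm
      rw [e3]
      exact um_pow 𝒰 (L := fun _ : ℕ => F) (v l) e
    have e4 := units_pow_prod u e (M l)
    have e6 : algebraMap Δ.E (UF 𝒰 F) (α' l) = α l ^ e := by
      simp only [α']
      rw [map_pow]
      rfl
    rw [e1, (h2 l).2.2, mul_pow, e4, e6]
  let FE : ι → MvPolynomial (Fin N) Δ.E := fun l => MvPolynomial.map (algebraMap F Δ.E) (Fv l)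
  have hFY : ∀ l, aeval Y (Fv l) = 0 := by
    intro l
    have h6 := um_aeval 𝒰 (L := fun _ : ℕ => F) y (Fv l)
    have h7 : (fun i => aeval (fun s => y s i) (Fv l)) = fun _ => (0 : F) :=
      funext fun i => hF l i
    rw [h7] at h6
    rw [← h6, um_zero_iff]
    exact Eventually.of_forall fun _ => rfl
  have hFE : ∀ l, aeval Y (FE l) = 0 := by
    intro l
    simp only [FE]
    rw [aeval_map_algebraMap]
    exact hFY l
  have hJY : ∀ j, Y (J j) ^ m j = aeval (fun l => Y (U l))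
      (MvPolynomial.map (algebraMap F Δ.E) (f j)) := by
    intro j
    have h6 := um_aeval 𝒰 (L := fun _ : ℕ => F) (fun l => y (U l)) (f j)
    have h7 : (fun i => aeval (fun l => y (U l) i) (f j)) = fun i => y (J j) i ^ m j :=
      funext fun i => (hJ j i).symm
    rw [h7] at h6
    have h9 : um 𝒰 (L := fun _ : ℕ => F) (fun i => y (J j) i ^ m j) = Y (J j) ^ m j :=
      um_pow 𝒰 (L := fun _ : ℕ => F) (y (J j)) (m j)
    rw [← h9, h6, aeval_map_algebraMap]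
  have hratJ : ∀ j, Y (J j) ∈ RatSub (fun j => (u j : UF 𝒰 F)) hu.2 := fun j =>
    root_rat Δ u hu hnl he (hm j) (hme j) _ α' M (fun l => Y (U l)) hYU (Y (J j)) (hJY j)
  have hratU : ∀ l, Y (U l) ∈ RatSub (fun j => (u j : UF 𝒰 F)) hu.2 := by
    intro l
    rw [hYU l, prod_pow_zpow]
    exact Subalgebra.mul_mem _ (Subalgebra.algebraMap_mem _ _) (prod_mem_RatSub u hu.2 _)
  let U' : Finset (Fin N) := Finset.univ.image U ∪ Finset.univ.image J
  have hrat : ∀ i ∈ U', ∃ p q : MvPolynomial (Fin t) Δ.E, q ≠ 0 ∧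
      aeval (fun j => (u j : UF 𝒰 F)) q * Y i = aeval (fun j => (u j : UF 𝒰 F)) p := by
    intro i hi
    rcases Finset.mem_union.1 hi with h | h
    · obtain ⟨l, -, rfl⟩ := Finset.mem_image.1 h
      exact hratU l
    · obtain ⟨l, -, rfl⟩ := Finset.mem_image.1 h
      exact hratJ l
  choose! p0 q0 hq0 hpq0 using hrat
  rcases Pool.Agent.N754.LT.second_point (k := Δ.E) U' FE Y hFE (fun j => (u j : UF 𝒰 F)) hu.2
    p0 q0 hq0 hpq0 θ θ.injective with ⟨z, g1, g2, g3⟩ | h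
  · left
    refine ⟨z, fun l => ?_, fun l => g2 _ (Finset.mem_union_left _
      (Finset.mem_image_of_mem _ (Finset.mem_univ l))), fun j => g2 _ (Finset.mem_union_right _
      (Finset.mem_image_of_mem _ (Finset.mem_univ j))), g3⟩
    have g4 := g1 l
    simp only [FE] at g4
    rw [eval₂_map] at g4
    exact g4
  · right
    choose p q hpq hq hqp using h
    have hyo : ∀ i, ∀ᶠ ω in EV 𝒰 k (fun _ : ℕ => F), ω.2 ∉ S → Y i = 0 ∨ 0 ≤ oo (Y i) ω := by
      intro i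
      filter_upwards [oo_um (𝒰 := 𝒰) (k := k) (L := fun _ : ℕ => F) (y i)] with ω g1 hω
      right
      show 0 ≤ oo (um 𝒰 (L := fun _ : ℕ => F) (y i)) ω
      rw [g1]
      rcases hyS i ω.1 ω.2 hω with g2 | g2
      · rw [g2, ω.2.ord_zero]
      · exact g2
    have hST : ∀ i, ST (q i) := fun i =>
      den_ST Δ u hu hnl S (Y i) (hyo i) (p i) (q i) (hpq i) (hq i) (hqp i)
    obtain ⟨l0, hl0⟩ := h4 ⟨0, h3⟩
    have hcg : Cg (R := Δ.E) (K := UF 𝒰 F) FE U Y := by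
      refine curve_gen FE U u hu.2 Y p q hq hST hqp hFE l0 (α' l0) (fun j => (e : ℤ) * M l0 j)
        ?_ ⟨0, h3⟩ ?_
      · rw [hYU l0, prod_pow_zpow]
      · refine mul_ne_zero ?_ hl0
        exact_mod_cast (by omega : e ≠ 0)
    exact Cg_transfer Fv U y (Cg.of_map (R' := Δ.E) hcg)

end Pool.Agent.H434.Fun
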