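import Mathlib
import Pool.Agent.H434.G7
import Pool.Agent.H434.H3

/-!
Sequences of integral points over a finitely generated ring: algebraic quotients, second points or
curves.
-/

set_option autoImplicit false
set_option linter.unusedSectionVars false
set_option linter.unusedVariables false

open Finset MvPolynomial Filter

namespace Pool.Agent.H434

open Pool.Agent.N754.LT Pool.Agent.N754.FG
open Pool.Agent.H159R3.Exp (Laur)
open Pool.Agent.W603.LV (Ge)
open FF

section curve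

open scoped LaurentPolynomial

theorem onLaurent_of_Cg {N n : ℕ} {ι : Type} (Fv : ι → MvPolynomial (Fin N) ℂ)
    (U : Fin n → Fin N) (x : Fin N → ℂ) (hx : ∀ l, x (U l) ≠ 0)
    (h : Fun.Cg (R := ℂ) (K := ℂ) Fv U x) : OnLaurent Fv x := by
  obtain ⟨v, h1, h2, l, a, ha, h3⟩ := h
  have key : ∀ (t : ℂ) (ht : t ≠ 0) (Z : ℂ[T;T⁻¹]), lval Z t =
      LaurentPolynomial.eval₂ (RingHom.id ℂ) (Units.mk0 t ht) Z := by
    intro t ht Z
    unfold lval
    rw [dif_pos ht]
  refine ⟨fun t i => lval (v i) t, fun i => laur_lval (v i), fun t ht j => ?_, ?_, 2,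
    two_ne_zero, fun h => ?_⟩
  · show eval (fun i => lval (v i) t) (Fv j) = 0
    have h4 := congrArg (LaurentPolynomial.eval₂ (RingHom.id ℂ) (Units.mk0 t ht)) (h1 j)
    rw [hom_eval₂, map_zero] at h4
    have e1 : (LaurentPolynomial.eval₂ (RingHom.id ℂ) (Units.mk0 t ht)).comp
        (LaurentPolynomial.C.comp (algebraMap ℂ ℂ)) = RingHom.id ℂ := by
      refine RingHom.ext fun c => ?_
      show LaurentPolynomial.eval₂ (RingHom.id ℂ) (Units.mk0 t ht) (LaurentPolynomial.C c) = c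
      rw [LaurentPolynomial.eval₂_C]
      rfl
    rw [e1] at h4
    have e2 : (fun i => lval (v i) t) =
        fun i => LaurentPolynomial.eval₂ (RingHom.id ℂ) (Units.mk0 t ht) (v i) :=
      funext fun i => key t ht (v i)
    rw [e2]
    exact h4
  · funext i
    show lval (v i) 1 = x i
    rw [← h2 i]
    unfold lval Fun.ev1
    rw [dif_pos one_ne_zero]
    congr 2
    exact Units.ext rfl
  · have h4 := congrFun h (U l)
    have h5 : lval (v (U l)) 2 = x (U l) := h4
    rw [key 2 two_ne_zero, h3, LaurentPolynomial.eval₂_C_mul_T, Units.val_zpow_eq_zpow_val,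
      Units.val_mk0] at h5
    have h6 : x (U l) * (2 : ℂ) ^ a = x (U l) := h5
    exact two_zpow_ne _ ha (mul_left_cancel₀ (hx l) (h6.trans (mul_one _).symm))

end curve

/-- one field of constants -/
theorem gen_k {𝒰 : Ultrafilter ℕ} {N n q : ℕ} {ι : Type} [Finite ι] (k : Subfield ℂ)
    (hk : IsAlgClosed k) (s : Finset ℂ) (hFF : IsFF k (IntermediateField.adjoin k (s : Set ℂ)))
    (Fv : ι → MvPolynomial (Fin N) ℂ)
    (hFv : ∀ l b, coeff b (Fv l) ∈ Subring.closure (s : Set ℂ))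
    (U : Fin n → Fin N) (J : Fin q → Fin N) (m : Fin q → ℕ) (hm : ∀ j, 1 ≤ m j)
    (f : Fin q → MvPolynomial (Fin n) ℂ)
    (hf : ∀ j b, coeff b (f j) ∈ Subring.closure (s : Set ℂ)) {e : ℕ} (he : 1 ≤ e)
    (hme : ∀ j, m j ∣ e) (xs : ℕ → Fin N → ℂ)
    (hxs : ∀ t i, xs t i ∈ Subring.closure (s : Set ℂ)) (hF : ∀ t l, eval (xs t) (Fv l) = 0)
    (v v' : ℕ → Fin n → ℂ) (hv : ∀ t l, v t l ∈ Subring.closure (s : Set ℂ))
    (hv' : ∀ t l, v' t l ∈ Subring.closure (s : Set ℂ)) (hvv' : ∀ t l, v t l * v' t l = 1)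
    (hve : ∀ t l, v t l ^ e = xs t (U l))
    (hJ : ∀ t j, xs t (J j) ^ m j = eval (fun l => xs t (U l)) (f j)) :
    (∀ᶠ t in (𝒰 : Filter ℕ), ∀ᶠ t' in (𝒰 : Filter ℕ), ∀ l, v t' l / v t l ∈ k) ∨
    (∀ᶠ t in (𝒰 : Filter ℕ), NotAlone Fv (Finset.univ.image U ∪ Finset.univ.image J) (xs t)) ∨
    ∀ᶠ t in (𝒰 : Filter ℕ), OnLaurent Fv (xs t) := by
  classical
  have hsub : ∀ y ∈ Subring.closure (s : Set ℂ),
      y ∈ IntermediateField.adjoin k (s : Set ℂ) := by
    intro y hy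
    have h1 : Subring.closure (s : Set ℂ) ≤
        (IntermediateField.adjoin k (s : Set ℂ)).toSubfield.toSubring := by
      rw [Subring.closure_le]
      exact IntermediateField.subset_adjoin k (s : Set ℂ)
    exact h1 hy
  generalize IntermediateField.adjoin k (s : Set ℂ) = F at hFF hsub
  have hs : ∀ t ∈ s, t ∈ F := fun t ht => hsub t (Subring.subset_closure ht)
  obtain ⟨S, hS⟩ := Pool.Agent.W603.LV.exists_supp (k := k) s.attach (fun t => (⟨t.1, hs t.1 t.2⟩ : F))
  have hreg : ∀ P : Place k F, P ∉ S → ∀ y (hy : y ∈ Subring.closure (s : Set ℂ)),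
      Ge P 0 (⟨y, hsub y hy⟩ : F) := by
    intro P hP y hy
    induction hy using Subring.closure_induction with
    | mem y hy =>
      right
      by_contra h
      exact hP (hS ⟨y, hy⟩ (Finset.mem_attach _ _) P (by
        show P.ord (⟨y, _⟩ : F) ≠ 0
        omega))
    | zero => exact Or.inl rfl
    | one => exact Ge.one
    | add a b ha hb h1 h2 => exact h1.add h2
    | neg a ha h1 => exact h1.neg
    | mul a b ha hb h1 h2 =>
      have h3 := h1.mul h2
      rwa [add_zero] at h3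
  choose f0 hf0 using fun j => Fun.lift_gen (algebraMap F ℂ) (f j)
    fun b => ⟨⟨_, hsub _ (hf j b)⟩, rfl⟩
  choose F0 hF0 using fun l => Fun.lift_gen (algebraMap F ℂ) (Fv l)
    fun b => ⟨⟨_, hsub _ (hFv l b)⟩, rfl⟩
  let y0 : Fin N → ℕ → F := fun i t => ⟨xs t i, hsub _ (hxs t i)⟩
  let v0 : Fin n → ℕ → F := fun l t => ⟨v t l, hsub _ (hv t l)⟩
  have hv00 : ∀ t l, v t l ≠ 0 := fun t l h => by
    have h1 := hvv' t l
    rw [h, zero_mul] at h1
    exact zero_ne_one h1
  -- evaluations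
  have hev : ∀ (σ : Type) (P : MvPolynomial σ F) (w : σ → F), algebraMap F ℂ (aeval w P) =
      eval (fun i => algebraMap F ℂ (w i)) (MvPolynomial.map (algebraMap F ℂ) P) := by
    intro σ P w
    rw [aeval_def, hom_eval₂, Algebra.algebraMap_self, RingHom.comp_id, ← eval_map]
  -- the map to germs
  let θ0 : (ℕ → F) →+* BC 𝒰 := (gC 𝒰).comp ((algebraMap F ℂ).compLeft ℕ)
  let θ : Fun.UF 𝒰 F →+* BC 𝒰 := Ideal.Quotient.lift _ θ0 (by
    intro a ha
    have ha' : ∀ᶠ i in (𝒰 : Filter ℕ), a i = 0 := ha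
    show gC 𝒰 (fun t => algebraMap F ℂ (a t)) = 0
    rw [gC_zero]
    filter_upwards [ha'] with t ht
    rw [ht, map_zero])
  have hθ : ∀ a : ℕ → F, θ (Pool.Agent.W603.CZ.um 𝒰 (L := fun _ : ℕ => F) a) =
      gC 𝒰 (fun t => algebraMap F ℂ (a t)) := fun a => rfl
  rcases Fun.ffgen (𝒰 := 𝒰) (k := k) (F := F) F0 U J m hm f0 he hme S y0
      (fun i t P hP => hreg P hP _ (hxs t i)) v0
      (fun l t h => hv00 t l (congrArg (fun v : F => (v : ℂ)) h)) (by
      intro l t P hP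
      have h1 := hreg P hP _ (hv t l)
      have h2 := hreg P hP _ (hv' t l)
      have h3 : (⟨v t l, hsub _ (hv t l)⟩ : F) * ⟨v' t l, hsub _ (hv' t l)⟩ = 1 :=
        Subtype.ext (hvv' t l)
      have h4 : (⟨v t l, hsub _ (hv t l)⟩ : F) ≠ 0 := left_ne_zero_of_mul_eq_one h3
      have h5 : (⟨v' t l, hsub _ (hv' t l)⟩ : F) ≠ 0 := right_ne_zero_of_mul_eq_one h3
      have h6 := h1.resolve_left h4
      have h7 := h2.resolve_left h5
      have h8 := P.ord_mul h4 h5
      rw [h3, P.ord_one] at h8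
      show P.ord (⟨v t l, hsub _ (hv t l)⟩ : F) = 0
      omega) (by
      intro l t
      apply (algebraMap F ℂ).injective
      rw [map_pow]
      exact hve t l) (by
      intro l t
      apply (algebraMap F ℂ).injective
      rw [hev, hF0, map_zero]
      exact hF t l) (by
      intro j t
      apply (algebraMap F ℂ).injective
      rw [hev, hf0, map_pow]
      exact hJ t j) θ with h | ⟨z, h1, h2, h3, h4⟩ | h
  · left
    filter_upwards [h] with i hi
    filter_upwards [hi] with i' hi' l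
    obtain ⟨c, hc⟩ := hi' l
    have h1 := congrArg (fun v : F => (v : ℂ)) hc
    have h2 : v i' l = c * v i l := h1
    rw [h2, mul_div_cancel_right₀ _ (hv00 i l)]
    exact c.2
  · right
    left
    have hsec : ∃ z : Fin N → BC 𝒰, (∀ l, eval₂ ((gc 𝒰).comp
        ((Pi.constRingHom ℕ ℂ).comp (algebraMap F ℂ))) z (F0 l) = 0) ∧
        (∀ i ∈ Finset.univ.image U ∪ Finset.univ.image J, z i = gc 𝒰 fun t => xs t i) ∧
        z ≠ fun j => gc 𝒰 fun t => xs t j := by
      refine ⟨z, fun l => ?_, fun i hi => ?_, h4⟩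
      · exact h1 l
      · rcases Finset.mem_union.1 hi with h | h
        · obtain ⟨l, -, rfl⟩ := Finset.mem_image.1 h
          exact h2 l
        · obtain ⟨l, -, rfl⟩ := Finset.mem_image.1 h
          exact h3 l
    have hsec2 := gc_second 𝒰 (algebraMap F ℂ) (Finset.univ.image U ∪ Finset.univ.image J)
      F0 xs hsec
    filter_upwards [hsec2] with t ht
    obtain ⟨z', g1, g2, g3⟩ := ht
    refine ⟨z', fun l => ?_, g2, g3⟩
    rw [← hF0 l, eval_map]
    exact g1 l
  · right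
    right
    filter_upwards [h] with t ht
    have h1 := ht.map (Algebra.ofId F ℂ)
    have h2 := h1.to_map (R' := ℂ)
    simp only [hF0] at h2
    refine onLaurent_of_Cg Fv U (xs t) (fun l => ?_) h2
    rw [← hve t l]
    exact pow_ne_zero _ (hv00 t l)

/-- **Sequences of integral points.** -/
theorem gen_step {𝒰 : Ultrafilter ℕ} {N n q : ℕ} {ι : Type} [Finite ι] (s : Finset ℂ)
    (Fv : ι → MvPolynomial (Fin N) ℂ)
    (hFv : ∀ l b, coeff b (Fv l) ∈ Subring.closure (s : Set ℂ))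
    (U : Fin n → Fin N) (J : Fin q → Fin N) (m : Fin q → ℕ) (hm : ∀ j, 1 ≤ m j)
    (f : Fin q → MvPolynomial (Fin n) ℂ)
    (hf : ∀ j b, coeff b (f j) ∈ Subring.closure (s : Set ℂ)) {e : ℕ} (he : 1 ≤ e)
    (hme : ∀ j, m j ∣ e) (xs : ℕ → Fin N → ℂ)
    (hxs : ∀ t i, xs t i ∈ Subring.closure (s : Set ℂ)) (hF : ∀ t l, eval (xs t) (Fv l) = 0)
    (v v' : ℕ → Fin n → ℂ) (hv : ∀ t l, v t l ∈ Subring.closure (s : Set ℂ))
    (hv' : ∀ t l, v' t l ∈ Subring.closure (s : Set ℂ)) (hvv' : ∀ t l, v t l * v' t l = 1)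
    (hve : ∀ t l, v t l ^ e = xs t (U l))
    (hJ : ∀ t j, xs t (J j) ^ m j = eval (fun l => xs t (U l)) (f j))
    (hna : ∀ t, ¬ NotAlone Fv (Finset.univ.image U ∪ Finset.univ.image J) (xs t))
    (hol : ∀ t, ¬ OnLaurent Fv (xs t)) :
    ∀ᶠ t in (𝒰 : Filter ℕ), ∀ᶠ t' in (𝒰 : Filter ℕ), ∀ l,
      IsAlgebraic ℚ (xs t' (U l) / xs t (U l)) := by
  classical
  obtain ⟨B, hB, hBT, hTB⟩ := Fun.exists_basis' (s : Set ℂ)
  have hBf : B.Finite := s.finite_toSet.subset hBT
  have hall : ∀ β ∈ B, ∀ᶠ i in (𝒰 : Filter ℕ), ∀ᶠ i' in (𝒰 : Filter ℕ), ∀ l,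
      v i' l / v i l ∈ Fun.cl (B \ {β}) := by
    intro β hβ
    rcases gen_k (𝒰 := 𝒰) (Fun.cl (B \ {β})) (Fun.cl_isAlgClosed _) s
      (Fun.isFF_tower _ s.finite_toSet B hB hBT hTB β hβ) Fv hFv U J m hm f hf he hme xs hxs hF
      v v' hv hv' hvv' hve hJ with h | h | h
    · exact h
    · obtain ⟨t, ht⟩ := h.exists
      exact (hna t ht).elim
    · obtain ⟨t, ht⟩ := h.exists
      exact (hol t ht).elim
  have hall2 := (eventually_all_finite hBf).2 hall
  filter_upwards [hall2] with i hi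
  filter_upwards [(eventually_all_finite hBf).2 hi] with i' hi' l
  rw [← hve, ← hve, ← div_pow]
  refine IsAlgebraic.pow ?_ _
  refine Fun.mem_all hB ?_ fun β hβ => hi' β hβ l
  have h1 : Subring.closure (s : Set ℂ) ≤ (Fun.cl B).toSubring := by
    rw [Subring.closure_le]
    exact hTB
  exact (Fun.cl B).div_mem (h1 (hv i' l)) (h1 (hv i l))

end Pool.Agent.H434
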