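import Mathlib
import Pool.Agent.H434.H4

/-!
The structure of the set of integral points over finitely generated rings on affine varieties with a
map to a Kummer cover of a torus.
-/

set_option autoImplicit false
set_option linter.unusedSectionVars false
set_option linter.unusedVariables false

open Finset MvPolynomial Filter

namespace Pool.Agent.H434

open NumberField IsDedekindDomain
open Pool.Agent.N754.LT Pool.Agent.N754.FG
open Pool.Agent.Y742.SF Pool.Agent.Y742.AR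
open Pool.Agent.H159R3.Exp (Laur)

/-- an isotrivial translate of a subtorus for which the condition on leading forms does not hold -/
def WildT {q n : ℕ} (m : Fin q → ℕ) (f : Fin q → MvPolynomial (Fin n) ℂ)
    (C : Set (Fin n → ℂ)) : Prop :=
  (C = Set.univ ∧ Fun.Iso m f ∧ ¬ Tame m f) ∨ ∃ r : ℕ, 2 ≤ r ∧ r < n ∧
    ∃ (a : Fin n → Fin r → ℤ) (c : Fin n → ℂ) (κ : Fin q → Fin r → ℕ),
      (∀ j, Pi.single j 1 ∈ Submodule.span ℤ (Set.range a)) ∧
      (∀ i, c i ≠ 0) ∧ (∀ j, GoodShift (κ j) a (f j)) ∧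
      C = {x | ∃ τ : Fin r → ℂ, (∀ j, τ j ≠ 0) ∧ ∀ i, x i = c i * ∏ j, τ j ^ a i j} ∧
      (Fun.Iso m fun j => PP (κ j) a c (f j)) ∧ ¬ Tame m fun j => PP (κ j) a c (f j)

theorem closure_countable (s : Finset ℂ) :
    (Subring.closure (s : Set ℂ) : Set ℂ).Countable := by
  have h1 : (Subfield.closure (s : Set ℂ) : Set ℂ).Countable := by
    rw [← Cardinal.le_aleph0_iff_set_countable]
    refine (Subfield.cardinalMk_closure_le_max (s : Set ℂ)).trans ?_
    rw [max_le_iff]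
    exact ⟨Cardinal.le_aleph0_iff_set_countable.2 s.finite_toSet.countable, le_rfl⟩
  refine h1.mono ?_
  have h2 : Subring.closure (s : Set ℂ) ≤ (Subfield.closure (s : Set ℂ)).toSubring := by
    rw [Subring.closure_le]
    exact Subfield.subset_closure
  exact h2

/-- the points are on the translates of the subtorus -/
theorem coset_mem (hSP : SP) (hTR : TR) (𝒰 : Ultrafilter ℕ) {N n : ℕ} (U : Fin n → Fin N)
    {e : ℕ} (x : ℕ → Fin n → ℂ) (y : Fin N → BC 𝒰)
    (hyU : ∀ i, y (U i) = gC 𝒰 (fun t => x t i))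
    (d : DatU ℂ U y e (geoF 𝒰 hSP hTR).W) :
    ∀ᶠ t in (𝒰 : Filter ℕ), ∃ τ : Fin d.r → ℂ, (∀ j, τ j ≠ 0) ∧
      ∀ i, x t i = d.c i * ∏ j, τ j ^ d.a i j := by
  classical
  have hW : ∀ j, ∃ W : ℕ → ℂ, (∀ t, W t ≠ 0) ∧ gC 𝒰 W = ((d.w j : (BC 𝒰)ˣ) : BC 𝒰) := by
    intro j
    obtain ⟨sj, hsj⟩ := d.hwW j
    obtain ⟨v, hv⟩ := (mem_WC 𝒰 _ _).1 hsj
    refine ⟨fun t => ((v : ℕ → Subring.closure (sj : Set ℂ)) t : ℂ), fun t h0 => ?_, ?_⟩
    · have h1 := congrFun (Units.mul_inv v) t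
      have h2 := congrArg (fun w : Subring.closure (sj : Set ℂ) => (w : ℂ)) h1
      have h3 : ((v : ℕ → Subring.closure (sj : Set ℂ)) t : ℂ) *
        (((v⁻¹ : (ℕ → Subring.closure (sj : Set ℂ))ˣ) : ℕ → Subring.closure (sj : Set ℂ)) t : ℂ) = 1 := h2
      have h0' : ((v : ℕ → Subring.closure (sj : Set ℂ)) t : ℂ) = 0 := h0
      rw [h0', zero_mul] at h3
      exact zero_ne_one h3
    · rw [← hv]
      rfl
  choose W hW0 hWg using hW
  have h1 : ∀ᶠ t in (𝒰 : Filter ℕ), ∀ l, x t l = d.c l * ∏ j, W j t ^ ((e : ℤ) * d.a l j) := by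
    refine eventually_all.2 fun l => ?_
    rw [← gC_eq, ← hyU, d.hU l, gC_monomial, Units.coe_prod]
    congr 1
    refine Finset.prod_congr rfl fun j _ => ?_
    rw [hWg, Units.val_zpow_eq_zpow_val]
  filter_upwards [h1] with t ht
  refine ⟨fun j => W j t ^ (e : ℤ), fun j => zpow_ne_zero _ (hW0 j t), fun i => ?_⟩
  rw [ht i]
  congr 1
  exact Finset.prod_congr rfl fun j _ => zpow_mul _ _ _

/-- sequences of integral points which are determined and not on curves -/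
theorem seq_alg (hRQ : RQ3) {𝒰 : Ultrafilter ℕ} {N n q : ℕ} {ι : Type} [Finite ι]
    (F : ι → MvPolynomial (Fin N) ℂ) (U : Fin n → Fin N) (J : Fin q → Fin N) (m : Fin q → ℕ)
    (hm : ∀ j, 2 ≤ m j) (f : Fin q → MvPolynomial (Fin n) ℂ)
    (hU : ∀ z ∈ Pool.Agent.N754.FG.Pts F, ∀ i, z (U i) ≠ 0)
    (hJ : ∀ z ∈ Pool.Agent.N754.FG.Pts F, ∀ j, z (J j) ^ m j = eval (fun i => z (U i)) (f j))
    (s0 : Finset ℂ) (xs : ℕ → Fin N → ℂ)
    (hxs : ∀ t, (∀ j, xs t j ∈ Subring.closure (s0 : Set ℂ)) ∧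
      xs t ∈ Pool.Agent.N754.FG.Pts F ∧ ¬ OnLaurent F (xs t) ∧
      ¬ NotAlone F (Finset.univ.image U ∪ Finset.univ.image J) (xs t)) :
    ∀ᶠ t in (𝒰 : Filter ℕ), ∀ᶠ t' in (𝒰 : Filter ℕ), ∀ l,
      IsAlgebraic ℚ (xs t' (U l) / xs t (U l)) := by
  classical
  choose Bc hBc using fun i => unit_certC F (U i) fun z hz => hU z hz i
  have hfin : ∃ c : Finset ℂ, ∀ l b, coeff b (F l) ∈ Subring.closure (c : Set ℂ) := by
    have := Fintype.ofFinite ι
    refine ⟨Finset.univ.biUnion fun l => (F l).support.image fun b => coeff b (F l),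
      fun l b => ?_⟩
    by_cases h : b ∈ (F l).support
    · exact Subring.subset_closure (Finset.mem_coe.2 (Finset.mem_biUnion.2
        ⟨l, Finset.mem_univ _, Finset.mem_image.2 ⟨b, h, rfl⟩⟩))
    · rw [notMem_support_iff.1 h]
      exact zero_mem _
  obtain ⟨c1, hc1⟩ := hfin
  let s : Finset ℂ := s0 ∪ ((Finset.univ.biUnion fun i => (Bc i).support.image fun b =>
    coeff b (Bc i)) ∪ (c1 ∪ Finset.univ.biUnion fun j => (f j).support.image fun b =>
    coeff b (f j)))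
  set R : Subring ℂ := Subring.closure (s : Set ℂ) with hR
  have hle : Subring.closure (s0 : Set ℂ) ≤ R := closure_le_union_left s0 _
  have hBR : ∀ i b, coeff b (Bc i) ∈ R := by
    intro i b
    by_cases h : b ∈ (Bc i).support
    · exact Subring.subset_closure (Finset.mem_coe.2 (Finset.mem_union_right _
        (Finset.mem_union_left _
        (Finset.mem_biUnion.2 ⟨i, Finset.mem_univ _, Finset.mem_image.2 ⟨b, h, rfl⟩⟩))))
    · rw [notMem_support_iff.1 h]
      exact zero_mem _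
  have hFR : ∀ l b, coeff b (F l) ∈ R := by
    intro l b
    refine Subring.closure_mono ?_ (hc1 l b)
    intro v hv
    exact Finset.mem_coe.2 (Finset.mem_union_right _ (Finset.mem_union_right _
      (Finset.mem_union_left _ (Finset.mem_coe.1 hv))))
  have hfR : ∀ j b, coeff b (f j) ∈ R := by
    intro j b
    by_cases h : b ∈ (f j).support
    · exact Subring.subset_closure (Finset.mem_coe.2 (Finset.mem_union_right _
        (Finset.mem_union_right _ (Finset.mem_union_right _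
        (Finset.mem_biUnion.2 ⟨j, Finset.mem_univ _, Finset.mem_image.2 ⟨b, h, rfl⟩⟩)))))
    · rw [notMem_support_iff.1 h]
      exact zero_mem _
  have hxR : ∀ t j, xs t j ∈ R := fun t j => hle ((hxs t).1 j)
  have hBx : ∀ t i, eval (xs t) (Bc i) ∈ R := by
    intro t i
    rw [eval_eq']
    exact sum_mem fun b _ => mul_mem (hBR i b) (prod_mem fun j _ => pow_mem (hxR t j) _)
  have hinv : ∀ t i, xs t (U i) * eval (xs t) (Bc i) = 1 := by
    intro t i
    have h1 : Ideal.span (Set.range F) ≤ RingHom.ker (eval (xs t)) := by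
      rw [Ideal.span_le]
      rintro _ ⟨l, rfl⟩
      exact (hxs t).2.1 l
    have h2 : eval (xs t) (Bc i * MvPolynomial.X (U i) - 1) = 0 := h1 (hBc i)
    rw [map_sub, map_mul, eval_X, map_one, sub_eq_zero] at h2
    rw [mul_comm]
    exact h2
  -- roots
  let e : ℕ := ∏ j, m j
  have hm1 : ∀ j, 1 ≤ m j := fun j => by
    have := hm j
    omega
  have he : 1 ≤ e := Finset.one_le_prod' fun j _ => hm1 j
  have hme : ∀ j, m j ∣ e := fun j => Finset.dvd_prod_of_mem m (Finset.mem_univ j)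
  obtain ⟨s', hss', hroots⟩ := unit_root_ring hRQ s e he
  choose va vb hva hvb hvab hve using fun t i => hroots (xs t (U i)) (eval (xs t) (Bc i))
    (hxR t (U i)) (hBx t i) (hinv t i)
  have hle2 : R ≤ Subring.closure (s' : Set ℂ) :=
    Subring.closure_mono (Finset.coe_subset.2 hss')
  exact gen_step (𝒰 := 𝒰) s' F (fun l b => hle2 (hFR l b)) U J m hm1 f
    (fun j b => hle2 (hfR j b)) he hme xs (fun t i => hle2 (hxR t i))
    (fun t l => (hxs t).2.1 l) va vb hva hvb hvab hve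
    (fun t j => hJ (xs t) (hxs t).2.1 j) (fun t => (hxs t).2.2.2) (fun t => (hxs t).2.2.1)

/-- **Sequences and wild translates.** -/
theorem seq_wild (hSP : SP) (hTR : TR) (hRQ : RQ3) (𝒰 : Ultrafilter ℕ) {N n q : ℕ} {ι : Type}
    [Finite ι] (F : ι → MvPolynomial (Fin N) ℂ) (U : Fin n → Fin N) (J : Fin q → Fin N)
    (m : Fin q → ℕ) (hm : ∀ j, 2 ≤ m j) (f : Fin q → MvPolynomial (Fin n) ℂ)
    (hU : ∀ z ∈ Pool.Agent.N754.FG.Pts F, ∀ i, z (U i) ≠ 0)
    (hJ : ∀ z ∈ Pool.Agent.N754.FG.Pts F, ∀ j, z (J j) ^ m j = eval (fun i => z (U i)) (f j))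
    (s0 : Finset ℂ) (xs : ℕ → Fin N → ℂ)
    (hxs : ∀ t, (∀ j, xs t j ∈ Subring.closure (s0 : Set ℂ)) ∧
      xs t ∈ Pool.Agent.N754.FG.Pts F ∧ ¬ OnLaurent F (xs t) ∧
      ¬ NotAlone F (Finset.univ.image U ∪ Finset.univ.image J) (xs t))
    (hnc : ∀ p, ¬ ∀ᶠ t in (𝒰 : Filter ℕ), xs t = p) :
    ∃ C, WildT m f C ∧ ∀ᶠ t in (𝒰 : Filter ℕ), (fun i => xs t (U i)) ∈ C := by
  classical
  by_contra hnw
  let U' : Finset (Fin N) := Finset.univ.image U ∪ Finset.univ.image J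
  have hrat := seq_alg hRQ (𝒰 := 𝒰) F U J m hm f hU hJ s0 xs hxs
  -- certificates for the units
  choose Bc hBc using fun i => unit_certC F (U i) fun z hz => hU z hz i
  let s : Finset ℂ := s0 ∪ Finset.univ.biUnion fun i => (Bc i).support.image fun b =>
    coeff b (Bc i)
  set R : Subring ℂ := Subring.closure (s : Set ℂ) with hR
  have hle : Subring.closure (s0 : Set ℂ) ≤ R := closure_le_union_left s0 _
  have hBR : ∀ i b, coeff b (Bc i) ∈ R := by
    intro i b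
    by_cases h : b ∈ (Bc i).support
    · exact Subring.subset_closure (Finset.mem_coe.2 (Finset.mem_union_right _
        (Finset.mem_biUnion.2 ⟨i, Finset.mem_univ _, Finset.mem_image.2 ⟨b, h, rfl⟩⟩)))
    · rw [notMem_support_iff.1 h]
      exact zero_mem _
  have hxR : ∀ t j, xs t j ∈ R := fun t j => hle ((hxs t).1 j)
  have hBx : ∀ t i, eval (xs t) (Bc i) ∈ R := by
    intro t i
    rw [eval_eq']
    exact sum_mem fun b _ => mul_mem (hBR i b) (prod_mem fun j _ => pow_mem (hxR t j) _)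
  have hinv : ∀ t i, xs t (U i) * eval (xs t) (Bc i) = 1 := by
    intro t i
    have h1 : Ideal.span (Set.range F) ≤ RingHom.ker (eval (xs t)) := by
      rw [Ideal.span_le]
      rintro _ ⟨l, rfl⟩
      exact (hxs t).2.1 l
    have h2 : eval (xs t) (Bc i * MvPolynomial.X (U i) - 1) = 0 := h1 (hBc i)
    rw [map_sub, map_mul, eval_X, map_one, sub_eq_zero] at h2
    rw [mul_comm]
    exact h2
  -- roots
  let e : ℕ := ∏ j, m j
  have hm1 : ∀ j, 1 ≤ m j := fun j => by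
    have := hm j
    omega
  have he : 1 ≤ e := Finset.one_le_prod' fun j _ => hm1 j
  have hme : ∀ j, m j ∣ e := fun j => Finset.dvd_prod_of_mem m (Finset.mem_univ j)
  obtain ⟨s', hss', hroots⟩ := unit_root_ring hRQ s e he
  choose va vb hva hvb hvab hve using fun t i => hroots (xs t (U i)) (eval (xs t) (Bc i))
    (hxR t (U i)) (hBx t i) (hinv t i)
  let y : Fin N → BC 𝒰 := fun j => gC 𝒰 (fun t => xs t j)
  have hyI : ∀ j, y j ∈ IC 𝒰 := fun j => ⟨s, fun t => ⟨xs t j, hxR t j⟩, rfl⟩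
  have hyrep : ∀ᶠ t in (𝒰 : Filter ℕ), ∀ j, (rpC 𝒰).rep (y j) t = xs t j :=
    (Filter.eventually_all).2 fun j => rpC_gC 𝒰 (fun t => xs t j)
  let vu : Fin n → (BC 𝒰)ˣ := fun i => Units.map (PhC 𝒰 (Subring.closure (s' : Set ℂ)) :
    (ℕ → Subring.closure (s' : Set ℂ)) →* BC 𝒰)
    { val := fun t => ⟨va t i, hva t i⟩
      inv := fun t => ⟨vb t i, hvb t i⟩
      val_inv := by
        funext t
        exact Subtype.ext (hvab t i)
      inv_val := by
        funext t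
        apply Subtype.ext
        show vb t i * va t i = 1
        rw [mul_comm]
        exact hvab t i }
  have hvuW : ∀ i, vu i ∈ WCC 𝒰 := fun i => ⟨s', _, rfl⟩
  have hvue : ∀ i, ((vu i : (BC 𝒰)ˣ) : BC 𝒰) ^ e = y (U i) := by
    intro i
    show (gC 𝒰 (fun t => va t i)) ^ e = gC 𝒰 (fun t => xs t (U i))
    rw [← map_pow]
    congr 1
    funext t
    exact hve t i
  have hpoly : ∀ P : MvPolynomial (Fin N) ℂ, (∀ t, eval (xs t) P = 0) → aeval y P = 0 := by
    intro P hP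
    by_contra hne
    have h1 : ∀ᶠ t in (𝒰 : Filter ℕ), (rpC 𝒰).rep (aeval y P) t =
        eval (fun i => (rpC 𝒰).rep (y i) t) P := (rpC 𝒰).rep_aeval y P
    have h0 : ∀ᶠ t in (𝒰 : Filter ℕ), (rpC 𝒰).rep (aeval y P) t ≠ 0 := (rpC 𝒰).rep_ne _ hne
    obtain ⟨t, h2, h3, h4⟩ := (h1.and (h0.and hyrep)).exists
    apply h3
    rw [h2]
    have h5 : (fun i => (rpC 𝒰).rep (y i) t) = xs t := funext h4
    rw [h5]
    exact hP t
  have hFy : ∀ l, aeval y (F l) = 0 := fun l => hpoly (F l) fun t => (hxs t).2.1 l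
  have hJy : ∀ j, y (J j) ^ m j = aeval (fun i => y (U i)) (f j) := by
    intro j
    have h1 := hpoly (X (J j) ^ m j - rename U (f j)) (fun t => by
      rw [map_sub, map_pow, eval_X, eval_rename, sub_eq_zero]
      exact hJ (xs t) (hxs t).2.1 j)
    rw [map_sub, map_pow, aeval_X, aeval_rename, sub_eq_zero] at h1
    exact h1
  have hync : ∃ i, ∀ c : ℂ, y i ≠ algebraMap ℂ (BC 𝒰) c := by
    by_contra hcon
    push Not at hcon
    choose c hc using hcon
    have h1 : ∀ᶠ t in (𝒰 : Filter ℕ), ∀ j, xs t j = c j := by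
      refine (Filter.eventually_all).2 fun j => ?_
      have h2 := hc j
      simp only [y] at h2
      rw [gC_const, gC_eq] at h2
      exact h2
    exact hnc c (h1.mono fun t ht => funext ht)
  have halt : (∃ z : Fin N → BC 𝒰, (∀ l, eval₂ ((RingHom.id (BC 𝒰)).comp
        (algebraMap ℂ (BC 𝒰))) z (F l) = 0) ∧
      (∀ i, z (U i) = y (U i)) ∧ (∀ j, z (J j) = y (J j)) ∧ z ≠ fun j => y j) ∨
      ∀ᶠ t in (rpC 𝒰).G, CurveAt (rpC 𝒰) F y t := by
    rcases GW.exists_datU (geoF 𝒰 hSP hTR) U e y vu hvuW hvue with hcon | ⟨d, hd⟩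
    · left
      exact GW.const_alt (geoF 𝒰 hSP hTR) U J m hm f y hyI F hFy hJy hcon hync
        (RingHom.id (BC 𝒰)) (fun _ _ h => h)
    · by_cases hdr : d.r = n
      · have hTK : Tame m f := by
          by_contra hnT
          refine hnw ⟨Set.univ, Or.inl ⟨rfl, ?_, hnT⟩, Eventually.of_forall fun _ =>
            Set.mem_univ _⟩
          exact iso_full hSP hTR 𝒰 U he m hm1 f s (fun t i => xs t (U i))
            (fun t i => hU _ (hxs t).2.1 i) (fun t j => xs t (J j)) y (fun i => rfl)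
            (fun t j => hxR t (J j)) (fun t j => hJ (xs t) (hxs t).2.1 j) hrat d hd hdr
        exact GW.full_alt (geoF 𝒰 hSP hTR) (rpC 𝒰) U J m hm he hme _
          (Complex.isPrimitiveRoot_exp e (by omega)) f y hyI F hFy d hJy hd hdr hTK
          (RingHom.id (BC 𝒰)) (fun _ _ h => h)
      · choose κ hκ using fun j => exists_shift (m j) (hm1 j) d.a (f j)
        have hTK : Tame m fun j => PP (fun l => m j * κ j l) d.a d.c (f j) := by
          by_contra hnT
          by_cases h1 : d.r = 1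
          · exact hnT (GW.tame_one h1 m hm1 _)
          · have h2 := d.hr
            have h3 := d.rank_le
            refine hnw ⟨_, Or.inr ⟨d.r, by omega, by omega, d.a, d.c,
              fun j l => m j * κ j l, d.hspan, d.hc, hκ, rfl, ?_, hnT⟩,
              coset_mem hSP hTR 𝒰 U (fun t i => xs t (U i)) y (fun i => rfl) d⟩
            exact iso_coset hSP hTR 𝒰 U he m hm1 f s (fun t i => xs t (U i))
              (fun t j => xs t (J j)) y (fun i => rfl)
              (fun t j => hxR t (J j)) (fun t j => hJ (xs t) (hxs t).2.1 j) hrat d κ hκ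
        exact GW.coset_alt (geoF 𝒰 hSP hTR) (rpC 𝒰) U J m hm he hme _
          (Complex.isPrimitiveRoot_exp e (by omega)) f y hyI F hFy d hJy κ hκ hTK
          (RingHom.id (BC 𝒰)) (fun _ _ h => h)
  rcases halt with ⟨z, h1, h2, h3, h4⟩ | hcurve
  · have hsec : ∃ z : Fin N → BC 𝒰, (∀ l, eval₂ ((RingHom.id (BC 𝒰)).comp
        (algebraMap ℂ (BC 𝒰))) z (F l) = 0) ∧ (∀ i ∈ U', z i = y i) ∧ z ≠ fun j => y j := by
      refine ⟨z, h1, fun i hi => ?_, h4⟩
      rcases Finset.mem_union.1 hi with h | h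
      · obtain ⟨l, -, rfl⟩ := Finset.mem_image.1 h
        exact h2 l
      · obtain ⟨l, -, rfl⟩ := Finset.mem_image.1 h
        exact h3 l
    have hsec2 := gc_second 𝒰 (RingHom.id ℂ) U' F xs hsec
    obtain ⟨t, z', hz1, hz2, hz3⟩ := hsec2.exists
    exact (hxs t).2.2.2 ⟨z', fun l => hz1 l, hz2, hz3⟩
  · have hcurve' : ∀ᶠ t in (𝒰 : Filter ℕ), CurveAt (rpC 𝒰) F y (show (rpC 𝒰).T from t) := hcurve
    obtain ⟨t, ⟨v, hv1, hv2, hv3, j0, hj0⟩, ht⟩ := (hcurve'.and hyrep).exists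
    have hv1' : v 1 = xs t := by
      rw [hv3]
      exact funext ht
    exact (hxs t).2.2.1 ⟨v, hv1, fun t ht i => hv2 i t ht, hv1', 2, two_ne_zero,
      fun h2 => hj0 (by rw [hv1']; exact congrFun h2 j0)⟩

/-- **Finiteness modulo algebraic numbers.** -/
theorem fin_mod (hRQ : RQ3) {N n q : ℕ} {ι : Type} [Finite ι]
    (F : ι → MvPolynomial (Fin N) ℂ) (U : Fin n → Fin N) (J : Fin q → Fin N) (m : Fin q → ℕ)
    (hm : ∀ j, 2 ≤ m j) (f : Fin q → MvPolynomial (Fin n) ℂ)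
    (hU : ∀ z ∈ Pool.Agent.N754.FG.Pts F, ∀ i, z (U i) ≠ 0)
    (hJ : ∀ z ∈ Pool.Agent.N754.FG.Pts F, ∀ j, z (J j) ^ m j = eval (fun i => z (U i)) (f j))
    (s0 : Finset ℂ) (S : Set (Fin N → ℂ))
    (hS : ∀ x ∈ S, (∀ j, x j ∈ Subring.closure (s0 : Set ℂ)) ∧
      x ∈ Pool.Agent.N754.FG.Pts F ∧ ¬ OnLaurent F x ∧
      ¬ NotAlone F (Finset.univ.image U ∪ Finset.univ.image J) x) :
    ∃ E : Finset (Fin N → ℂ), (∀ x ∈ E, x ∈ S) ∧ ∀ x ∈ S, ∃ p ∈ E, ∀ l,
      IsAlgebraic ℚ (x (U l) / p (U l)) := by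
  classical
  by_contra hcon
  push Not at hcon
  obtain ⟨xs, h1, h2⟩ := exists_seq_of_forall_finset_exists (fun x => x ∈ S)
    (fun x y => ∃ l, ¬ IsAlgebraic ℚ (y (U l) / x (U l))) (fun E hE => by
      obtain ⟨x, hx, h⟩ := hcon E hE
      exact ⟨x, hx, fun p hp => h p hp⟩)
  have h3 := seq_alg hRQ (𝒰 := Filter.hyperfilter ℕ) F U J m hm f hU hJ s0 xs
    fun t => hS _ (h1 t)
  obtain ⟨t, ht⟩ := h3.exists
  have h4 : ∀ᶠ t' in (Filter.hyperfilter ℕ : Filter ℕ), t < t' := by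
    have h5 : {t' : ℕ | t < t'}ᶜ.Finite := by
      refine (Set.finite_Iic t).subset fun v hv => ?_
      have h : ¬ t < v := hv
      exact not_lt.1 h
    exact Filter.mem_hyperfilter_of_finite_compl h5
  obtain ⟨t', h5, h6⟩ := (ht.and h4).exists
  obtain ⟨l, hl⟩ := h2 t t' h6
  exact hl (h5 l)

/-- **The structure theorem.** -/
theorem fin_struct (hSP : SP) (hTR : TR) (hRQ : RQ3) {N n q : ℕ} {ι : Type} [Finite ι]
    (F : ι → MvPolynomial (Fin N) ℂ) (U : Fin n → Fin N) (J : Fin q → Fin N) (m : Fin q → ℕ)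
    (hm : ∀ j, 2 ≤ m j) (f : Fin q → MvPolynomial (Fin n) ℂ)
    (hU : ∀ z ∈ Pool.Agent.N754.FG.Pts F, ∀ i, z (U i) ≠ 0)
    (hJ : ∀ z ∈ Pool.Agent.N754.FG.Pts F, ∀ j, z (J j) ^ m j = eval (fun i => z (U i)) (f j))
    (s0 : Finset ℂ) (S : Set (Fin N → ℂ))
    (hS : ∀ x ∈ S, (∀ j, x j ∈ Subring.closure (s0 : Set ℂ)) ∧
      x ∈ Pool.Agent.N754.FG.Pts F ∧ ¬ OnLaurent F x ∧
      ¬ NotAlone F (Finset.univ.image U ∪ Finset.univ.image J) x) :
    ∃ (E : Finset (Fin N → ℂ)) (𝒞 : Finset (Set (Fin n → ℂ))), (∀ x ∈ E, x ∈ S) ∧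
      (∀ C ∈ 𝒞, WildT m f C) ∧ ∀ x ∈ S, x ∉ E → (∃ C ∈ 𝒞, (fun i => x (U i)) ∈ C) ∧
        ∃ p ∈ E, ∀ l, IsAlgebraic ℚ (x (U l) / p (U l)) := by
  classical
  obtain ⟨E2, hE2S, hE2⟩ := fin_mod hRQ F U J m hm f hU hJ s0 S hS
  suffices h : ∃ (E : Finset (Fin N → ℂ)) (𝒞 : Finset (Set (Fin n → ℂ))), (∀ x ∈ E, x ∈ S) ∧
      (∀ C ∈ 𝒞, WildT m f C) ∧ ∀ x ∈ S, x ∉ E → ∃ C ∈ 𝒞, (fun i => x (U i)) ∈ C by
    obtain ⟨E1, 𝒞, h1, h2, h3⟩ := h
    refine ⟨E1 ∪ E2, 𝒞, fun x hx => ?_, h2, fun x hx hxE => ⟨h3 x hx fun h => hxE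
      (Finset.mem_union_left _ h), ?_⟩⟩
    · rcases Finset.mem_union.1 hx with h | h
      · exact h1 x h
      · exact hE2S x h
    · obtain ⟨p, hp, hp2⟩ := hE2 x hx
      exact ⟨p, Finset.mem_union_right _ hp, hp2⟩
  by_contra hcon
  have hinf : S.Infinite := by
    intro hfin
    exact hcon ⟨hfin.toFinset, ∅, fun x hx => hfin.mem_toFinset.1 hx, fun C hC =>
      absurd hC (Finset.notMem_empty C), fun x hx hxE => absurd (hfin.mem_toFinset.2 hx) hxE⟩
  have hcount : S.Countable := by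
    have h1 : (Set.univ.pi fun _ : Fin N => (Subring.closure (s0 : Set ℂ) : Set ℂ)).Countable :=
      Set.countable_univ_pi fun _ => closure_countable s0
    refine Set.Countable.mono ?_ h1
    intro x hx j _
    exact (hS x hx).1 j
  obtain ⟨hden⟩ := Set.countable_infinite_iff_nonempty_denumerable.1 ⟨hcount, hinf⟩
  let g : ℕ ≃ S := (Denumerable.eqv S).symm
  let xs : ℕ → Fin N → ℂ := fun t => (g t).1
  have hxsS : ∀ t, xs t ∈ S := fun t => (g t).2
  have hxsinj : Function.Injective xs := fun t t' h => g.injective (Subtype.ext h)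
  let P : Set ℕ → Prop := fun A => ∃ (E : Finset ℕ) (𝒞 : Finset (Set (Fin n → ℂ))),
    (∀ C ∈ 𝒞, WildT m f C) ∧ ∀ t ∈ A, t ∉ E → ∃ C ∈ 𝒞, (fun i => xs t (U i)) ∈ C
  have hP0 : P ∅ := ⟨∅, ∅, fun C hC => absurd hC (Finset.notMem_empty C), fun t ht =>
    absurd ht (Set.notMem_empty t)⟩
  have hPmono : ∀ A, P A → ∀ B ⊆ A, P B := by
    rintro A ⟨E, 𝒞, h1, h2⟩ B hBA
    exact ⟨E, 𝒞, h1, fun t ht => h2 t (hBA ht)⟩
  have hPunion : ∀ A, P A → ∀ B, P B → P (A ∪ B) := by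
    rintro A ⟨E, 𝒞, h1, h2⟩ B ⟨E', 𝒞', h1', h2'⟩
    refine ⟨E ∪ E', 𝒞 ∪ 𝒞', fun C hC => ?_, fun t ht htE => ?_⟩
    · rcases Finset.mem_union.1 hC with h | h
      · exact h1 C h
      · exact h1' C h
    · rcases ht with h | h
      · obtain ⟨C, hC, hC2⟩ := h2 t h fun h => htE (Finset.mem_union_left _ h)
        exact ⟨C, Finset.mem_union_left _ hC, hC2⟩
      · obtain ⟨C, hC, hC2⟩ := h2' t h fun h => htE (Finset.mem_union_right _ h)
        exact ⟨C, Finset.mem_union_right _ hC, hC2⟩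
  have hPuniv : ¬ P Set.univ := by
    rintro ⟨E, 𝒞, h1, h2⟩
    refine hcon ⟨E.image xs, 𝒞, fun x hx => ?_, h1, fun x hx hxE => ?_⟩
    · obtain ⟨t, -, rfl⟩ := Finset.mem_image.1 hx
      exact hxsS t
    · obtain ⟨t, ht⟩ := g.surjective ⟨x, hx⟩
      have h3 : xs t = x := by
        simp only [xs]
        rw [ht]
      subst h3
      exact h2 t (Set.mem_univ _) fun h => hxE (Finset.mem_image_of_mem _ h)
  let l : Filter ℕ := Filter.comk P hP0 hPmono hPunion
  have hl : l.NeBot := by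
    refine Filter.neBot_iff.2 fun h0 => hPuniv ?_
    have h := Filter.empty_mem_iff_bot.2 h0
    rw [Filter.mem_comk, Set.compl_empty] at h
    exact h
  let 𝒰 : Ultrafilter ℕ := Ultrafilter.of l
  have h𝒰 : ∀ A : Set ℕ, P A → ¬ A ∈ (𝒰 : Filter ℕ) := by
    intro A hA hA2
    have h1 : Aᶜ ∈ l := by
      rw [Filter.mem_comk, compl_compl]
      exact hA
    have h2 : Aᶜ ∈ (𝒰 : Filter ℕ) := Ultrafilter.of_le l h1
    exact Ultrafilter.compl_notMem_iff.2 hA2 h2
  obtain ⟨C, hC, hC2⟩ := seq_wild hSP hTR hRQ 𝒰 F U J m hm f hU hJ s0 xs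
    (fun t => hS _ (hxsS t)) (fun p hp => by
      refine h𝒰 {t | xs t = p} ?_ hp
      have h1 : {t | xs t = p}.Finite := Set.Subsingleton.finite fun t ht t' ht' =>
        hxsinj (ht.trans ht'.symm)
      exact ⟨h1.toFinset, ∅, fun C hC => absurd hC (Finset.notMem_empty C), fun t ht htE =>
        absurd (h1.mem_toFinset.2 ht) htE⟩)
  refine h𝒰 _ ⟨∅, {C}, fun C' hC' => ?_, fun t ht _ => ⟨C, Finset.mem_singleton_self C, ht⟩⟩ hC2
  rw [Finset.mem_singleton.1 hC']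
  exact hC

end Pool.Agent.H434
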