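import Mathlib
import Pool.Agent.H434.Bc

/-!
Leading forms over number fields, and the directions of the logarithms of units at the places of a
number field.
-/

set_option autoImplicit false
set_option linter.unusedSectionVars false

open Finset Filter MvPolynomial

namespace Pool.Agent.H434

open Pool.Agent.N754.LT
open NumberField IsDedekindDomain
open Pool.Agent.Y742.SF Pool.Agent.Y742.AR
open Pool.Agent.W235.RM Pool.Agent.H159R3.Exp

theorem leadSet_smul {r : ℕ} (c : ℝ) (hc : 0 < c) (l : Fin r → ℝ) (S : Finset (Fin r →₀ ℕ)) :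
    leadSet (c • l) S = leadSet l S := by
  ext s
  rw [mem_leadSet, mem_leadSet]
  refine and_congr_right fun _ => forall₂_congr fun t _ => ?_
  rw [lin_smul, lin_smul]
  exact mul_le_mul_iff_right₀ hc

theorem lead_smul {k : Type} [Field k] {r : ℕ} (c : ℝ) (hc : 0 < c) (l : Fin r → ℝ)
    (P : MvPolynomial (Fin r) k) : lead (c • l) P = lead l P := by
  unfold lead
  rw [leadSet_smul c hc]

theorem lead_zero {k : Type} [Field k] {r : ℕ} (P : MvPolynomial (Fin r) k) : lead 0 P = P := by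
  unfold lead
  have h1 : leadSet (0 : Fin r → ℝ) P.support = P.support := by
    ext s
    rw [mem_leadSet]
    constructor
    · exact fun h => h.1
    · intro h
      refine ⟨h, fun t _ => ?_⟩
      unfold lin
      simp
  rw [h1]
  exact P.support_sum_monomial_coeff

/-- a field of definition for the powers among the leading forms -/
theorem exists_field_lead {J : Type} [Finite J] {r : ℕ} (m : J → ℕ)
    (P : J → MvPolynomial (Fin r) ℂ) (hP : ∀ j s, IsAlgebraic ℚ (coeff s (P j))) :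
    ∃ T : Finset ℂ, (∀ a ∈ T, IsAlgebraic ℚ a) ∧ ∀ (M : Type) [Field M] (τ : M →+* ℂ)
      (Q : J → MvPolynomial (Fin r) M), (∀ j, MvPolynomial.map τ (Q j) = P j) →
        (∀ a ∈ T, a ∈ τ.range) → ∀ (j : J) (l : Fin r → ℝ), PowForm (m j) (lead l (P j)) →
          PowForm (m j) (lead l (Q j)) := by
  classical
  have := Fintype.ofFinite J
  have h1 : ∀ (j : J) (S : Finset (Fin r →₀ ℕ)), ∃ T : Finset ℂ, (∀ a ∈ T, IsAlgebraic ℚ a) ∧
      (PowForm (m j) (trunc S (P j)) → ∀ (M : Type) [Field M] (τ : M →+* ℂ)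
      (Q : MvPolynomial (Fin r) M), MvPolynomial.map τ Q = trunc S (P j) →
      (∀ a ∈ T, a ∈ τ.range) → PowForm (m j) Q) := by
    intro j S
    by_cases hpf : PowForm (m j) (trunc S (P j))
    · obtain ⟨T, hT1, hT2⟩ := exists_field_pow (trunc S (P j)) (fun s => by
        rw [coeff_trunc]
        split_ifs
        · exact hP j s
        · exact isAlgebraic_zero) hpf
      exact ⟨T, hT1, fun _ => hT2⟩
    · exact ⟨∅, fun a ha => absurd ha (Finset.notMem_empty a), fun h => absurd h hpf⟩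
  choose T hT1 hT2 using h1
  refine ⟨Finset.univ.biUnion fun j => (P j).support.powerset.biUnion fun S => T j S, ?_, ?_⟩
  · intro a ha
    obtain ⟨j, -, ha⟩ := Finset.mem_biUnion.1 ha
    obtain ⟨S, -, ha⟩ := Finset.mem_biUnion.1 ha
    exact hT1 j S a ha
  · intro M _ τ Q hQ hT j l h
    have hsub : leadSet l (P j).support ⊆ (P j).support := by
      intro s hs
      exact ((mem_leadSet l _ _).1 hs).1
    refine hT2 j (leadSet l (P j).support) h M τ (lead l (Q j)) ?_ (fun a ha =>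
      hT a (Finset.mem_biUnion.2 ⟨j, Finset.mem_univ _, Finset.mem_biUnion.2
        ⟨_, Finset.mem_powerset.2 hsub, ha⟩⟩))
    rw [map_lead, hQ]
    rfl

variable {M : Type} [Field M] [NumberField M] [IsGalois ℚ M] (D : PD M) (𝒰 : Ultrafilter ℕ)

/-- the logarithms of the absolute values of germs of units -/
noncomputable def lv {r : ℕ} (w : Fin r → (BA M 𝒰)ˣ) (v : (M ≃ₐ[ℚ] M) ⊕ Fin D.s) (t : ℕ) :
    Fin r → ℝ := fun i => Real.log (D.av v (rep (K := M) (𝒰 := 𝒰) (w i : BA M 𝒰) t))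

/-- the sizes of roots of polynomials in units: in the directions in which a polynomial is close to a
power the logarithms of the units are small -/
theorem dirA {r : ℕ} (hr : 1 ≤ r) (w : Fin r → (BA M 𝒰)ˣ) (hwW : ∀ j, w j ∈ WA D 𝒰)
    (hw : AlgebraicIndependent M (fun j => (w j : BA M 𝒰))) {e : ℕ} (he : 1 ≤ e) (ζ : M)
    (hζ : IsPrimitiveRoot ζ e) {q : ℕ} (m : Fin q → ℕ) (hm : ∀ j, 2 ≤ m j) (hme : ∀ j, m j ∣ e)
    (P : Fin q → MvPolynomial (Fin r) M) (z : Fin q → BA M 𝒰) (hzI : ∀ j, z j ∈ TIR D 𝒰)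
    (hz : ∀ j, z j ^ m j = aeval (fun i => (w i : BA M 𝒰) ^ e) (P j)) :
    ∃ N : ℕ → ℝ, (∀ t, 1 ≤ N t) ∧ Tendsto N (𝒰 : Filter ℕ) atTop ∧
      (∀ v t j, |lv D 𝒰 w v t j| ≤ N t) ∧
      (∃ C : ℝ, 0 ≤ C ∧ ∀ᶠ t in (𝒰 : Filter ℕ), N t ≤ C + C * ∑ v, ∑ j, |lv D 𝒰 w v t j|) ∧
      ∀ j, ¬ PowForm (m j) (P j) → ∀ (ex : Fin r →₀ ℕ) (g : MvPolynomial (Fin r) M), g ≠ 0 →
        ∀ ε : ℝ, 0 < ε → ∀ᶠ t in (𝒰 : Filter ℕ), ∀ v,
          gp (m j) (P j) g ex (lv D 𝒰 w v t) ≤ ε * N t := by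
  classical
  -- the scale
  let rp : BA M 𝒰 → ℕ → M := fun x => rep (K := M) (𝒰 := 𝒰) x
  let s : (((M ≃ₐ[ℚ] M) ⊕ Fin D.s) → ℕ → ℝ) := fun v t =>
    ∑ j, |Real.log (D.av v (rp (w j : BA M 𝒰) t))| + ∑ i, max (Real.log (D.av v (rp (z i) t))) 0
  have hs0 : ∀ v t, 0 ≤ s v t := fun v t => add_nonneg
    (Finset.sum_nonneg fun _ _ => abs_nonneg _) (Finset.sum_nonneg fun _ _ => le_max_right _ _)
  let N : ℕ → ℝ := fun t => 1 + ∑ v, s v t
  have hN : ∀ t, 1 ≤ N t := fun t => by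
    have : 0 ≤ ∑ v, s v t := Finset.sum_nonneg fun _ _ => hs0 _ _
    simp only [N]
    linarith
  have hsN : ∀ v t, s v t ≤ N t := by
    intro v t
    have h1 : s v t ≤ ∑ v, s v t :=
      Finset.single_le_sum (f := fun v => s v t) (fun _ _ => hs0 _ _) (Finset.mem_univ v)
    simp only [N]
    linarith
  have hwN : ∀ v t j, |Real.log (D.av v (rp (w j : BA M 𝒰) t))| ≤ N t := by
    intro v t j
    refine le_trans ?_ (hsN v t)
    have h1 : |Real.log (D.av v (rp (w j : BA M 𝒰) t))| ≤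
        ∑ j, |Real.log (D.av v (rp (w j : BA M 𝒰) t))| :=
      Finset.single_le_sum (f := fun j => |Real.log (D.av v (rp (w j : BA M 𝒰) t))|)
        (fun _ _ => abs_nonneg _) (Finset.mem_univ j)
    have h2 : 0 ≤ ∑ i, max (Real.log (D.av v (rp (z i) t))) 0 :=
      Finset.sum_nonneg fun _ _ => le_max_right _ _
    simp only [s]
    linarith
  have hyN : ∀ v t i, Real.log (D.av v (rp (z i) t)) ≤ N t := by
    intro v t i
    refine le_trans ?_ (hsN v t)
    have h1 : max (Real.log (D.av v (rp (z i) t))) 0 ≤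
        ∑ i, max (Real.log (D.av v (rp (z i) t))) 0 :=
      Finset.single_le_sum (f := fun i => max (Real.log (D.av v (rp (z i) t))) 0)
        (fun _ _ => le_max_right _ _) (Finset.mem_univ i)
    have h2 : 0 ≤ ∑ j, |Real.log (D.av v (rp (w j : BA M 𝒰) t))| :=
      Finset.sum_nonneg fun _ _ => abs_nonneg _
    have h3 := le_max_left (Real.log (D.av v (rp (z i) t))) 0
    simp only [s]
    linarith
  have hnc : ∀ j, ∀ c : M, (w j : BA M 𝒰) ≠ algebraMap M (BA M 𝒰) c := fun j c =>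
    nonconst_of_algInd _ hw j c
  have hNt : Tendsto N (𝒰 : Filter ℕ) atTop := by
    refine tendsto_of_unbdd N ?_
    rintro ⟨C, hC⟩
    let j0 : Fin r := ⟨0, hr⟩
    obtain ⟨c, hc⟩ := const_of_bdd (D := D) (𝒰 := 𝒰) (w j0 : BA M 𝒰) (hwW j0).1
      (Real.exp C) (by
        filter_upwards [hC, Pool.Agent.Y742.AR.rep_ne (K := M) (𝒰 := 𝒰) (w j0 : BA M 𝒰)
          (Units.ne_zero _)] with t h1 h2 v
        rw [← Real.log_le_iff_le_exp (D.av_pos v _ h2)]
        exact ((le_abs_self _).trans (hwN v t j0)).trans h1)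
    exact hnc j0 c hc
  -- the elements of the ring
  have hwB : ∀ j, Bd D N 𝒰 (rp (w j : BA M 𝒰)) := by
    intro j
    refine ⟨1, zero_le_one, ?_⟩
    filter_upwards [Pool.Agent.Y742.AR.rep_ne (K := M) (𝒰 := 𝒰) (w j : BA M 𝒰)
      (Units.ne_zero _)] with t h2 v
    rw [one_mul, ← Real.log_le_iff_le_exp (D.av_pos v _ h2)]
    exact (le_abs_self _).trans (hwN v t j)
  have hwB' : ∀ j, Bd D N 𝒰 (rp ((w j)⁻¹ : (BA M 𝒰)ˣ)) := by
    intro j
    refine ⟨1, zero_le_one, ?_⟩
    rw [Units.val_inv_eq_inv_val]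
    filter_upwards [Pool.Agent.Y742.AR.rep_ne (K := M) (𝒰 := 𝒰) (w j : BA M 𝒰)
      (Units.ne_zero _), Pool.Agent.Y742.AR.rep_inv (K := M) (𝒰 := 𝒰) (w j : BA M 𝒰)
      (Units.ne_zero _)] with t h2 h3 v
    have h4 : rp ((w j : BA M 𝒰)⁻¹) t = (rp (w j : BA M 𝒰) t)⁻¹ := h3
    rw [h4, one_mul, ← Real.log_le_iff_le_exp (D.av_pos v _ (inv_ne_zero h2)), av_inv _ _ h2]
    exact (neg_le_abs _).trans (hwN v t j)
  have hyB : ∀ i, Bd D N 𝒰 (rp (z i)) := by
    intro i
    refine ⟨1, zero_le_one, Filter.Eventually.of_forall fun t v => ?_⟩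
    rw [one_mul]
    by_cases h0 : rp (z i) t = 0
    · rw [h0, D.av_zero]
      exact (Real.exp_pos _).le
    · rw [← Real.log_le_iff_le_exp (D.av_pos v _ h0)]
      exact hyN v t i
  let wR : Fin r → (RA D 𝒰 N hN)ˣ := fun j =>
    { val := mkR (w j : BA M 𝒰) (hwW j).1 (hwB j)
      inv := mkR ((w j)⁻¹ : (BA M 𝒰)ˣ) (hwW j).2 (hwB' j)
      val_inv := by
        apply vl_inj
        rw [vl_mul, vl_mkR, vl_mkR, vl_one]
        exact Units.mul_inv (w j)
      inv_val := by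
        apply vl_inj
        rw [vl_mul, vl_mkR, vl_mkR, vl_one]
        exact Units.inv_mul (w j) }
  let yR : Fin q → RA D 𝒰 N hN := fun i => mkR (z i) (hzI i) (hyB i)
  let Dc1 : Dc M (RA D 𝒰 N hN) := DcA hNt
  let ψ := incA D 𝒰 N hN
  have hψ : Function.Injective ψ := incA_inj D 𝒰 N hN
  have hwR : ∀ j, ψ (wR j : RA D 𝒰 N hN) = w j := fun j => rfl
  have hyR : ∀ j, ψ (yR j) = z j := fun j => rfl
  have hlv : ∀ v t, lgv Dc1 wR (v, t) = lv D 𝒰 w v t := fun v t => rfl
  have hψP : ∀ (P : MvPolynomial (Fin r) M), ψ (aeval (fun j => (wR j : RA D 𝒰 N hN)) P) =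
      aeval (fun j => (w j : BA M 𝒰)) P := by
    intro P
    have h3 : (ψ.comp (aeval fun j => (wR j : RA D 𝒰 N hN))) =
        aeval (fun j => (w j : BA M 𝒰)) := by
      ext i
      simp [hwR]
    exact DFunLike.congr_fun h3 P
  have hwRAI : AlgebraicIndependent M (fun j => (wR j : RA D 𝒰 N hN)) := by
    have h1 : Function.Injective (aeval (R := M) fun j => (w j : BA M 𝒰)) := hw
    have h2 : Function.Injective (aeval (R := M) fun j => (wR j : RA D 𝒰 N hN)) := fun P Q h =>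
      h1 (by rw [← hψP, ← hψP, h])
    exact h2
  have hexp : ∀ P : MvPolynomial (Fin r) M, aeval (fun i => (wR i : RA D 𝒰 N hN) ^ e) P =
      aeval (fun j => (wR j : RA D 𝒰 N hN)) (expand e P) := by
    intro P
    rw [aeval_expand]
    rfl
  have hzR : ∀ j, yR j ^ m j = aeval (fun i => (wR i : RA D 𝒰 N hN) ^ e) (P j) := by
    intro j
    apply hψ
    rw [map_pow, hyR, hz, hexp, hψP, aeval_expand]
    rfl
  have hm1 : ∀ j, 1 ≤ m j := fun j => by
    have := hm j
    omega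
  refine ⟨N, hN, hNt, hwN, ?_, ?_⟩
  · -- the roots are bounded by the units
    have h2 : ∀ j, ∃ C : ℝ, 0 ≤ C ∧ ∀ᶠ t in (𝒰 : Filter ℕ), ∀ v,
        max (Real.log (D.av v (rp (z j) t))) 0 ≤ C + C * ∑ i, |lv D 𝒰 w v t i| := by
      intro j
      by_cases hP : expand e (P j) = 0
      · have h3 : yR j = 0 := by
          have h4 := hzR j
          rw [hexp, hP, map_zero] at h4
          exact pow_eq_zero_iff (by have := hm j; omega) |>.1 h4
        refine ⟨0, le_refl _, ?_⟩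
        have h4 := evA.1 Dc1.A_zero
        filter_upwards [h4] with t ht v
        have h5 : D.av v (rp (z j) t) = 0 := by
          have h6 : Dc1.A (yR j) (v, t) = D.av v (rp (z j) t) := rfl
          rw [← h6, h3]
          exact ht v
        rw [h5, Real.log_zero]
        simp
      · have h4 : aeval (fun i => (wR i : RA D 𝒰 N hN)) (expand e (P j)) ≠ 0 := fun h0 =>
          hP (hwRAI (by rw [h0, map_zero]))
        obtain ⟨C, M', hC, hM', h5⟩ := poly_le Dc1 wR (expand e (P j)) h4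
        refine ⟨C + M', add_nonneg hC hM', ?_⟩
        have h6 := evA.1 (h5.and (Dc1.lg_pow (yR j) (m j)))
        filter_upwards [h6] with t ht v
        obtain ⟨g1, g2⟩ := ht v
        have g3 : (m j : ℝ) * Dc1.lg (yR j) (v, t) ≤
            C + M' * ∑ i, |lv D 𝒰 w v t i| := by
          rw [← g2, hzR, hexp]
          exact (le_max_left _ _).trans g1
        have g4 : 0 ≤ C + M' * ∑ i, |lv D 𝒰 w v t i| := (le_max_right _ _).trans g1
        have g6 : 0 ≤ ∑ i, |lv D 𝒰 w v t i| := Finset.sum_nonneg fun _ _ => abs_nonneg _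
        have g7 : C + M' * ∑ i, |lv D 𝒰 w v t i| ≤
            (C + M') + (C + M') * ∑ i, |lv D 𝒰 w v t i| := by
          have := mul_nonneg hC g6
          nlinarith
        have g8 : Real.log (D.av v (rp (z j) t)) = Dc1.lg (yR j) (v, t) := rfl
        rw [g8]
        refine max_le ?_ (g4.trans g7)
        refine le_trans ?_ g7
        have g5 : (1 : ℝ) ≤ m j := by exact_mod_cast hm1 j
        by_cases g6 : Dc1.lg (yR j) (v, t) ≤ 0
        · linarith
        · exact (le_mul_of_one_le_left (not_le.1 g6).le g5).trans g3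
    choose C hC hC2 using h2
    let V : ℝ := Fintype.card ((M ≃ₐ[ℚ] M) ⊕ Fin D.s)
    have hV : 0 ≤ V := Nat.cast_nonneg _
    have hCs : 0 ≤ ∑ j, C j := Finset.sum_nonneg fun j _ => hC j
    refine ⟨1 + V * ∑ j, C j + ∑ j, C j, by positivity, ?_⟩
    have h3 : ∀ᶠ t in (𝒰 : Filter ℕ), ∀ j, ∀ v,
        max (Real.log (D.av v (rp (z j) t))) 0 ≤ C j + C j * ∑ i, |lv D 𝒰 w v t i| :=
      (Filter.eventually_all).2 hC2
    filter_upwards [h3] with t ht
    have g1 : ∀ v, s v t ≤ ∑ j, C j + (1 + ∑ j, C j) * ∑ i, |lv D 𝒰 w v t i| := by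
      intro v
      have g2 : ∑ j, max (Real.log (D.av v (rp (z j) t))) 0 ≤
          ∑ j, (C j + C j * ∑ i, |lv D 𝒰 w v t i|) := Finset.sum_le_sum fun j _ => ht j v
      rw [Finset.sum_add_distrib, ← Finset.sum_mul] at g2
      have g3 : s v t = ∑ i, |lv D 𝒰 w v t i| +
          ∑ j, max (Real.log (D.av v (rp (z j) t))) 0 := rfl
      rw [g3]
      linarith
    have g4 : ∑ v, s v t ≤ V * ∑ j, C j + (1 + ∑ j, C j) * ∑ v, ∑ i, |lv D 𝒰 w v t i| := by
      refine (Finset.sum_le_sum fun v _ => g1 v).trans ?_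
      rw [Finset.sum_add_distrib, ← Finset.mul_sum, Finset.sum_const, nsmul_eq_mul,
        Finset.card_univ]
    have g5 : 0 ≤ ∑ v, ∑ i, |lv D 𝒰 w v t i| :=
      Finset.sum_nonneg fun _ _ => Finset.sum_nonneg fun _ _ => abs_nonneg _
    have g6 : N t = 1 + ∑ v, s v t := rfl
    rw [g6]
    have g7 : 0 ≤ V * (∑ j, C j) * ∑ v, ∑ i, |lv D 𝒰 w v t i| := by positivity
    nlinarith
  · intro j hj ex g hg ε hε
    have hirr : ∀ p q : MvPolynomial (Fin r) M, aeval (fun i => (wR i : RA D 𝒰 N hN)) p * yR j =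
        aeval (fun i => (wR i : RA D 𝒰 N hN)) q → p = 0 := by
      intro p q h
      by_contra hp
      have h1 : aeval (fun i => (w i : BA M 𝒰)) p * z j = aeval (fun i => (w i : BA M 𝒰)) q := by
        rw [← hψP, ← hψP, ← h, map_mul, hyR]
      refine hj (powForm_of_rat (hm1 j) he (hme j) hζ (fun i => (w i : BA M 𝒰)) hw (P j) ?_
        (z j) (hz _) p q hp h1)
      intro h0
      apply hj
      exact ⟨0, 0, by rw [h0, zero_pow (by have := hm j; omega), mul_zero]⟩
    have h1 := core_expand Dc1 hr wR hwRAI (hm j) he (hme j) ζ hζ (P j) g hg ex (yR j) (hzR j) hirr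
    have h2 := h1 ε hε
    filter_upwards [h2] with t ht v
    have h3 : max (gp (m j) (P j) g ex (lgv Dc1 wR (v, t))) 0 ≤
        ∑ v, max (gp (m j) (P j) g ex (lgv Dc1 wR (v, t))) 0 :=
      Finset.single_le_sum (f := fun v => max (gp (m j) (P j) g ex (lgv Dc1 wR (v, t))) 0)
        (fun _ _ => le_max_right _ _) (Finset.mem_univ v)
    have h4 : gp (m j) (P j) g ex (lgv Dc1 wR (v, t)) ≤ ε * N t :=
      (le_max_left _ _).trans (h3.trans ht)
    exact h4

end Pool.Agent.H434
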