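import Mathlib
import Pool.Agent.H434.Bc

/-!
Absolute values of number fields: extensions, the product formula, coordinates without zeros.
-/

set_option autoImplicit false
set_option linter.unusedSectionVars false

open Finset Filter MvPolynomial

namespace Pool.Agent.H434

open Pool.Agent.N754.LT
open NumberField IsDedekindDomain
open Pool.Agent.Y742.SF Pool.Agent.Y742.AR
open Pool.Agent.W235.RM Pool.Agent.H159R3.Exp

section above

variable {L : Type} [Field L] [NumberField L]

/-- the exponent of a nonzero element of the value group -/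
noncomputable def zex (y : WithZero (Multiplicative ℤ)) : ℤ :=
  if h : y = 0 then 0 else Multiplicative.toAdd (WithZero.unzero h)

theorem log_toNNReal {e : NNReal} (he : e ≠ 0) (y : WithZero (Multiplicative ℤ)) :
    Real.log (WithZeroMulInt.toNNReal he y : NNReal) = zex y * Real.log e := by
  unfold zex
  by_cases h : y = 0
  · rw [dif_pos h, h, map_zero]
    simp
  · rw [dif_neg h, WithZeroMulInt.toNNReal_neg_apply he h, NNReal.coe_zpow, Real.log_zpow]

theorem zex_pow (y : WithZero (Multiplicative ℤ)) (n : ℕ) :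
    zex (y ^ n) = n * zex y := by
  have he : (2 : NNReal) ≠ 0 := two_ne_zero
  have h1 := log_toNNReal he (y ^ n)
  rw [map_pow, NNReal.coe_pow, Real.log_pow, log_toNNReal he] at h1
  have h2 : (0 : ℝ) < Real.log ((2 : NNReal) : ℝ) := Real.log_pos (by norm_num)
  have h3 : ((n : ℝ) * (zex y : ℝ)) * Real.log ((2 : NNReal) : ℝ) =
      (zex (y ^ n) : ℝ) * Real.log ((2 : NNReal) : ℝ) := by
    rw [← h1]
    ring
  have h4 := mul_right_cancel₀ h2.ne' h3
  have h5 : (n : ℝ) * (zex y : ℝ) = (zex (y ^ n) : ℝ) := h4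
  exact_mod_cast h5.symm

theorem log_fv (v : HeightOneSpectrum (𝓞 L)) (x : L) :
    Real.log (fv v x) = zex (v.valuation L x) * Real.log (Ideal.absNorm v.asIdeal) := by
  rw [fv_eq, log_toNNReal]
  simp

theorem log_norm_pos (v : HeightOneSpectrum (𝓞 L)) : 0 < Real.log (Ideal.absNorm v.asIdeal) := by
  have h1 := HeightOneSpectrum.one_lt_absNorm v
  exact Real.log_pos (by exact_mod_cast h1)

variable {M : Type} [Field M] [NumberField M] [Algebra L M]

theorem log_fv_above (w : HeightOneSpectrum (𝓞 L)) (W : HeightOneSpectrum (𝓞 M))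
    (hW : W.asIdeal.LiesOver w.asIdeal) :
    ∃ c : ℝ, 0 < c ∧ ∀ x : L, Real.log (fv W (algebraMap L M x)) = c * Real.log (fv w x) := by
  have h1 := fun x : L => HeightOneSpectrum.valuation_liesOver (K := L) M w W x
  set n := w.asIdeal.ramificationIdx' W.asIdeal with hn
  have hn0 : n ≠ 0 := Ideal.IsDedekindDomain.ramificationIdx'_ne_zero_of_liesOver W.asIdeal w.ne_bot
  have hw := log_norm_pos w
  have hW := log_norm_pos W
  refine ⟨n * Real.log (Ideal.absNorm W.asIdeal) / Real.log (Ideal.absNorm w.asIdeal), ?_, ?_⟩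
  · have : (0 : ℝ) < n := by exact_mod_cast Nat.pos_of_ne_zero hn0
    positivity
  · intro x
    rw [log_fv, log_fv, ← h1]
    by_cases hx : x = 0
    · rw [hx, map_zero, zero_pow hn0]
      have : zex 0 = 0 := by
        unfold zex
        rw [dif_pos rfl]
      rw [this]
      simp
    · rw [zex_pow _]
      push_cast
      field_simp

theorem exists_above (w : HeightOneSpectrum (𝓞 L)) :
    ∃ (W : HeightOneSpectrum (𝓞 M)) (c : ℝ), 0 < c ∧
      ∀ x : L, Real.log (fv W (algebraMap L M x)) = c * Real.log (fv w x) := by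
  obtain ⟨P, hPm, hP⟩ := Ideal.exists_maximal_ideal_liesOver_of_isIntegral (S := 𝓞 M) w.asIdeal
  have hP0 : P ≠ ⊥ := by
    intro h0
    have h1 := hP.over
    rw [h0] at h1
    apply w.ne_bot
    rw [h1, Ideal.under_def, Ideal.comap_bot_of_injective _
      (FaithfulSMul.algebraMap_injective (𝓞 L) (𝓞 M))]
  let W : HeightOneSpectrum (𝓞 M) := ⟨P, hPm.isPrime, hP0⟩
  obtain ⟨c, hc, h⟩ := log_fv_above w W hP
  exact ⟨W, c, hc, h⟩

theorem exists_below (W : HeightOneSpectrum (𝓞 M)) :
    ∃ (w : HeightOneSpectrum (𝓞 L)) (c : ℝ), 0 < c ∧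
      ∀ x : L, Real.log (fv W (algebraMap L M x)) = c * Real.log (fv w x) := by
  let w : HeightOneSpectrum (𝓞 L) := HeightOneSpectrum.under (𝓞 L) W
  obtain ⟨c, hc, h⟩ := log_fv_above w W ⟨rfl⟩
  exact ⟨w, c, hc, h⟩

theorem exists_inf [IsGalois ℚ M] (D : PD M) (v : InfinitePlace L) :
    ∃ g : M ≃ₐ[ℚ] M, ∀ x : L, D.av (Sum.inl g) (algebraMap L M x) = v x := by
  let : Algebra L ℂ := v.embedding.toAlgebra
  have : Algebra.IsAlgebraic L M := by
    have h1 : Algebra.IsAlgebraic ℚ M := inferInstance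
    exact Algebra.IsAlgebraic.tower_top (K := ℚ) L
  let φ : M →ₐ[L] ℂ := IsAlgClosed.lift
  obtain ⟨g, hg⟩ := exists_embs D.ψ (φ : M →+* ℂ)
  refine ⟨g, fun x => ?_⟩
  show ‖D.ψ (g (algebraMap L M x))‖ = v x
  rw [← hg]
  have h1 : (φ : M →+* ℂ) (algebraMap L M x) = v.embedding x := φ.commutes x
  rw [h1]
  exact InfinitePlace.norm_embedding_eq v x

theorem below_inf [IsGalois ℚ M] (D : PD M) (g : M ≃ₐ[ℚ] M) :
    ∃ v : InfinitePlace L, ∀ x : L, D.av (Sum.inl g) (algebraMap L M x) = v x := by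
  refine ⟨InfinitePlace.mk ((D.ψ.comp (g : M →+* M)).comp (algebraMap L M)), fun x => ?_⟩
  rw [InfinitePlace.apply]
  rfl

end above

section prod

variable {L : Type} [Field L] [NumberField L]

/-- the product formula -/
theorem sum_log (x : L) (hx : x ≠ 0) (T : Finset (HeightOneSpectrum (𝓞 L)))
    (hT : ∀ w ∉ T, fv w x = 1) :
    ∑ v : InfinitePlace L, v.mult * Real.log (v x) + ∑ w ∈ T, Real.log (fv w x) = 0 := by
  classical
  have h1 := NumberField.prod_abs_eq_one hx
  have h2 : ∏ᶠ w : FinitePlace L, w x = ∏ w ∈ T, fv w x := by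
    rw [← finprod_eq_of_bijective (f := fun w : HeightOneSpectrum (𝓞 L) => fv w x)
      FinitePlace.mk ⟨fun a b h => FinitePlace.mk_eq_iff.1 h, fun w =>
        ⟨w.maximalIdeal, w.mk_maximalIdeal⟩⟩ (fun w => rfl)]
    refine finprod_eq_prod_of_mulSupport_subset _ ?_
    intro w hw
    by_contra hcon
    exact hw (hT w hcon)
  rw [h2] at h1
  have h3 := congrArg Real.log h1
  rw [Real.log_one, Real.log_mul, Real.log_prod, Real.log_prod] at h3
  · rw [← h3]
    congr 1
    refine Finset.sum_congr rfl fun v _ => ?_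
    rw [Real.log_pow]
  · exact fun w _ => (fv_pos _ _ hx).ne'
  · exact fun v _ => pow_ne_zero _ ((map_ne_zero v).2 hx)
  · exact Finset.prod_ne_zero_iff.2 fun v _ => pow_ne_zero _ ((map_ne_zero v).2 hx)
  · exact Finset.prod_ne_zero_iff.2 fun w _ => (fv_pos _ _ hx).ne'

end prod

/-- coordinates without zeros are bounded at the primes outside of `S` -/
theorem unit_bound {K : Type} [Field K] [NumberField K] (σ : K →+* ℂ) {ι : Type} {N : ℕ}
    (F : ι → MvPolynomial (Fin N) (𝓞 K)) (U' : Finset (Fin N))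
    (hU : ∀ z : Fin N → ℂ, (∀ l, eval₂ (σ.comp (algebraMap (𝓞 K) K)) z (F l) = 0) →
      ∀ i ∈ U', z i ≠ 0) (L : Type) [Field L] [NumberField L] [Algebra K L]
    (S : Set (HeightOneSpectrum (𝓞 L))) (hS : S.Finite) :
    ∃ (S' : Set (HeightOneSpectrum (𝓞 L))) (C : ℝ), S'.Finite ∧ S ⊆ S' ∧ 0 ≤ C ∧
      ∀ x ∈ intPoints F L S, ∀ i ∈ U', x i ≠ 0 ∧ (∀ w ∉ S', fv w (x i) = 1) ∧
        ∀ w ∉ S, |Real.log (fv w (x i))| ≤ C := by
  classical
  have h1 : ∀ i ∈ U', ∃ B : MvPolynomial (Fin N) K, B * X i - 1 ∈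
      Ideal.span (Set.range fun l => MvPolynomial.map (algebraMap (𝓞 K) K) (F l)) := fun i hi =>
    unit_cert σ (fun l => MvPolynomial.map (algebraMap (𝓞 K) K) (F l)) i
      (fun z hz => hU z (fun l => by
        have := hz l
        rwa [eval₂_map] at this) i hi)
  choose! B hB using h1
  let S' : Set (HeightOneSpectrum (𝓞 L)) := S ∪ ⋃ i ∈ U', ⋃ s ∈ (B i).support,
    HeightOneSpectrum.Support (𝓞 L) (algebraMap K L (coeff s (B i)))
  have hS' : S'.Finite := hS.union (Set.Finite.biUnion (Finset.finite_toSet U') fun i _ =>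
    Set.Finite.biUnion (Finset.finite_toSet (B i).support) fun s _ =>
      HeightOneSpectrum.Support.finite _ _)
  let E : HeightOneSpectrum (𝓞 L) → ℝ := fun w => ∑ i ∈ U', ∑ s ∈ (B i).support,
    fv w (algebraMap K L (coeff s (B i)))
  have hE0 : ∀ w, 0 ≤ E w := fun w => Finset.sum_nonneg fun _ _ =>
    Finset.sum_nonneg fun _ _ => fv_nonneg _ _
  let C : ℝ := ∑ w ∈ hS'.toFinset, |Real.log (1 + E w)|
  have hC : 0 ≤ C := Finset.sum_nonneg fun _ _ => abs_nonneg _
  refine ⟨S', C, hS', Set.subset_union_left, hC, fun x hx i hi => ?_⟩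
  have hmul : eval₂ (algebraMap K L) x (B i) * x i = 1 := by
    let Θ : MvPolynomial (Fin N) K →+* L := eval₂Hom (algebraMap K L) x
    have h2 : Ideal.span (Set.range fun l => MvPolynomial.map (algebraMap (𝓞 K) K) (F l)) ≤
        RingHom.ker Θ := by
      rw [Ideal.span_le]
      rintro _ ⟨l, rfl⟩
      show eval₂ (algebraMap K L) x (MvPolynomial.map (algebraMap (𝓞 K) K) (F l)) = 0
      rw [eval₂_map]
      exact hx.2 l
    have h3 : Θ (B i * X i - 1) = 0 := h2 (hB i hi)
    rw [map_sub, map_mul, map_one, sub_eq_zero] at h3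
    have h4 : Θ (X i) = x i := eval₂_X _ _ _
    rw [h4] at h3
    exact h3
  have hx0 : x i ≠ 0 := fun h0 => by
    rw [h0, mul_zero] at hmul
    exact zero_ne_one hmul
  have hxS : ∀ w ∉ S, ∀ j, fv w (x j) ≤ 1 := fun w hw j => (mem_integer_iff S _).1 (hx.1 j) w hw
  -- a bound for the value of the inverse
  have hbd : ∀ w ∉ S, ∀ c : ℝ, 0 ≤ c → (∀ s ∈ (B i).support,
      fv w (algebraMap K L (coeff s (B i))) ≤ c) → fv w (eval₂ (algebraMap K L) x (B i)) ≤ c := by
    intro w hw c hc hs
    rw [eval₂_eq']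
    have h2 : ∀ A : Finset (Fin N →₀ ℕ), A ⊆ (B i).support →
        fv w (∑ d ∈ A, algebraMap K L (coeff d (B i)) * ∏ i, x i ^ d i) ≤ c := by
      intro A
      induction A using Finset.induction_on with
      | empty =>
        intro _
        rw [Finset.sum_empty, fv_zero]
        exact hc
      | insert a A ha ih =>
        intro hA
        rw [Finset.sum_insert ha]
        refine (fv_add_le _ _ _).trans (max_le ?_ (ih fun b hb => hA (Finset.mem_insert_of_mem hb)))
        rw [fv_mul, fv_prod]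
        refine (mul_le_of_le_one_right (fv_nonneg _ _) (Finset.prod_le_one
          (fun j _ => fv_nonneg _ _) fun j _ => ?_)).trans (hs a (hA (Finset.mem_insert_self _ _)))
        rw [fv_pow]
        exact pow_le_one₀ (fv_nonneg _ _) (hxS w hw j)
    exact h2 _ (Finset.Subset.refl _)
  have hmulw : ∀ w, fv w (eval₂ (algebraMap K L) x (B i)) * fv w (x i) = 1 := fun w => by
    rw [← fv_mul, hmul, fv_one]
  have h5 : ∀ w ∉ S', fv w (x i) = 1 := by
    intro w hw
    have hwS : w ∉ S := fun h => hw (Set.subset_union_left h)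
    have h6 := hbd w hwS 1 zero_le_one (fun s hs => by
      rw [fv_le_one_iff]
      by_contra hcon
      apply hw
      refine Set.subset_union_right (Set.mem_biUnion hi (Set.mem_biUnion hs ?_))
      exact not_le.1 hcon)
    refine le_antisymm (hxS w hwS i) ?_
    have h7 := hmulw w
    have h8 : fv w (eval₂ (algebraMap K L) x (B i)) * fv w (x i) ≤ 1 * fv w (x i) :=
      mul_le_mul_of_nonneg_right h6 (fv_nonneg _ _)
    rw [h7, one_mul] at h8
    exact h8
  refine ⟨hx0, h5, fun w hw => ?_⟩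
  by_cases hw' : w ∈ S'
  · have h6 := hbd w hw (1 + E w) (by have := hE0 w; linarith) (fun s hs => by
      have h7 : fv w (algebraMap K L (coeff s (B i))) ≤ ∑ s ∈ (B i).support,
          fv w (algebraMap K L (coeff s (B i))) :=
        Finset.single_le_sum (f := fun s => fv w (algebraMap K L (coeff s (B i))))
          (fun _ _ => fv_nonneg _ _) hs
      have h8 : ∑ s ∈ (B i).support, fv w (algebraMap K L (coeff s (B i))) ≤ E w :=
        Finset.single_le_sum (f := fun i => ∑ s ∈ (B i).support,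
          fv w (algebraMap K L (coeff s (B i)))) (fun _ _ => Finset.sum_nonneg fun _ _ =>
            fv_nonneg _ _) hi
      linarith)
    have h7 := hmulw w
    have h9 := fv_pos w _ hx0
    have h10 := hE0 w
    have h8 : 1 ≤ (1 + E w) * fv w (x i) :=
      h7.symm.le.trans (mul_le_mul_of_nonneg_right h6 h9.le)
    have h11 : 0 ≤ Real.log (1 + E w) + Real.log (fv w (x i)) := by
      rw [← Real.log_mul (by linarith) h9.ne']
      exact Real.log_nonneg h8
    have h12 : Real.log (fv w (x i)) ≤ 0 := Real.log_nonpos h9.le (hxS w hw i)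
    have h13 : |Real.log (1 + E w)| ≤ C :=
      Finset.single_le_sum (f := fun w => |Real.log (1 + E w)|) (fun _ _ => abs_nonneg _)
        (hS'.mem_toFinset.2 hw')
    have h14 := le_abs_self (Real.log (1 + E w))
    rw [abs_of_nonpos h12]
    linarith
  · rw [h5 w hw', Real.log_one, abs_zero]
    exact hC

end Pool.Agent.H434
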