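import Mathlib
import Pool.Agent.H434.I1
import Pool.Agent.H434.I2

/-!
Limits of the logarithms of units.
-/

set_option autoImplicit false
set_option linter.unusedSectionVars false

open Finset Filter MvPolynomial

namespace Pool.Agent.H434

open Pool.Agent.N754.LT
open NumberField IsDedekindDomain
open Pool.Agent.Y742.SF Pool.Agent.Y742.AR
open Pool.Agent.W235.RM Pool.Agent.H159R3.Exp

section units

variable {M : Type} [Field M] [NumberField M] [IsGalois ℚ M] (D : PD M) (𝒰 : Ultrafilter ℕ)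

/-- the absolute values as homomorphisms -/
noncomputable def avH (p : (M ≃ₐ[ℚ] M) ⊕ Fin D.s) : M →*₀ ℝ where
  toFun := D.av p
  map_zero' := D.av_zero p
  map_one' := D.av_one p
  map_mul' := D.av_mul p

theorem rep_unit_zpow (w : (BA M 𝒰)ˣ) (n : ℤ) : ∀ᶠ t in (𝒰 : Filter ℕ),
    rep (K := M) (𝒰 := 𝒰) ((w ^ n : (BA M 𝒰)ˣ) : BA M 𝒰) t =
      rep (K := M) (𝒰 := 𝒰) (w : BA M 𝒰) t ^ n := by
  have h0 : ∀ k : ℕ, ∀ᶠ t in (𝒰 : Filter ℕ),
      rep (K := M) (𝒰 := 𝒰) ((w : BA M 𝒰) ^ k) t = rep (K := M) (𝒰 := 𝒰) (w : BA M 𝒰) t ^ k := by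
    intro k
    induction k with
    | zero =>
      filter_upwards [Pool.Agent.Y742.AR.rep_one (K := M) (𝒰 := 𝒰)] with t h
      rw [pow_zero, pow_zero]
      exact h
    | succ k ih =>
      filter_upwards [ih, Pool.Agent.Y742.AR.rep_mul (K := M) (𝒰 := 𝒰) ((w : BA M 𝒰) ^ k)
        (w : BA M 𝒰)] with t h1 h2
      rw [pow_succ, pow_succ, ← h1]
      exact h2
  obtain ⟨k, rfl | rfl⟩ := Int.eq_nat_or_neg n
  · filter_upwards [h0 k] with t h
    rw [zpow_natCast, zpow_natCast, Units.val_pow_eq_pow_val]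
    exact h
  · filter_upwards [h0 k, Pool.Agent.Y742.AR.rep_inv (K := M) (𝒰 := 𝒰) ((w : BA M 𝒰) ^ k)
      (pow_ne_zero _ (Units.ne_zero _))] with t h h'
    rw [zpow_neg, zpow_natCast, zpow_neg, zpow_natCast, Units.val_inv_eq_inv_val,
      Units.val_pow_eq_pow_val, ← h]
    exact h'

theorem log_units {r : ℕ} (w : Fin r → (BA M 𝒰)ˣ) (c : M) (hc : c ≠ 0) (b : Fin r → ℤ)
    (y : BA M 𝒰)
    (hy : y = algebraMap M (BA M 𝒰) c * ((∏ j, w j ^ b j : (BA M 𝒰)ˣ) : BA M 𝒰)) :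
    ∀ᶠ t in (𝒰 : Filter ℕ), ∀ p, Real.log (D.av p (rep (K := M) (𝒰 := 𝒰) y t)) =
      Real.log (D.av p c) + ∑ j, (b j : ℝ) * lv D 𝒰 w p t j := by
  classical
  have h1 : ∀ T : Finset (Fin r), ∀ᶠ t in (𝒰 : Filter ℕ),
      rep (K := M) (𝒰 := 𝒰) ((∏ j ∈ T, w j ^ b j : (BA M 𝒰)ˣ) : BA M 𝒰) t =
        ∏ j ∈ T, rep (K := M) (𝒰 := 𝒰) (w j : BA M 𝒰) t ^ b j := by
    intro T
    induction T using Finset.induction_on with
    | empty =>
      filter_upwards [Pool.Agent.Y742.AR.rep_one (K := M) (𝒰 := 𝒰)] with t h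
      rw [Finset.prod_empty, Finset.prod_empty]
      exact h
    | insert i T hi ih =>
      filter_upwards [ih, rep_unit_zpow 𝒰 (w i) (b i), Pool.Agent.Y742.AR.rep_mul (K := M)
        (𝒰 := 𝒰) ((w i ^ b i : (BA M 𝒰)ˣ) : BA M 𝒰)
        ((∏ j ∈ T, w j ^ b j : (BA M 𝒰)ˣ) : BA M 𝒰)] with t g1 g2 g3
      rw [Finset.prod_insert hi, Finset.prod_insert hi, ← g1, ← g2, Units.val_mul]
      exact g3
  have h2 : ∀ᶠ t in (𝒰 : Filter ℕ), ∀ j, rep (K := M) (𝒰 := 𝒰) (w j : BA M 𝒰) t ≠ 0 :=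
    (Filter.eventually_all).2 fun j => Pool.Agent.Y742.AR.rep_ne (K := M) (𝒰 := 𝒰) _
      (Units.ne_zero _)
  filter_upwards [h1 Finset.univ, h2, Pool.Agent.Y742.AR.rep_mul (K := M) (𝒰 := 𝒰)
    (algebraMap M (BA M 𝒰) c) ((∏ j, w j ^ b j : (BA M 𝒰)ˣ) : BA M 𝒰),
    Pool.Agent.Y742.AR.rep_cg (K := M) (𝒰 := 𝒰) c] with t g1 g2 g3 g4 p
  have g5 : rep (K := M) (𝒰 := 𝒰) (algebraMap M (BA M 𝒰) c) t = c := g4
  rw [hy]
  have g6 : rep (K := M) (𝒰 := 𝒰) (algebraMap M (BA M 𝒰) c *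
      ((∏ j, w j ^ b j : (BA M 𝒰)ˣ) : BA M 𝒰)) t =
      c * ∏ j, rep (K := M) (𝒰 := 𝒰) (w j : BA M 𝒰) t ^ b j := by
    rw [← g1]
    refine Eq.trans g3 ?_
    rw [g5]
  rw [g6]
  have g7 : ∀ x : M, D.av p x = avH D p x := fun x => rfl
  have g8 : ∀ j, avH D p (rep (K := M) (𝒰 := 𝒰) (w j : BA M 𝒰) t) ≠ 0 := fun j =>
    (map_ne_zero _).2 (g2 j)
  rw [g7, map_mul, map_prod, Real.log_mul, Real.log_prod]
  · congr 1
    refine Finset.sum_congr rfl fun j _ => ?_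
    rw [map_zpow₀, Real.log_zpow]
    rfl
  · intro j _
    rw [map_zpow₀]
    exact zpow_ne_zero _ (g8 j)
  · exact (map_ne_zero _).2 hc
  · refine Finset.prod_ne_zero_iff.2 fun j _ => ?_
    rw [map_zpow₀]
    exact zpow_ne_zero _ (g8 j)

end units

theorem ulim (𝒰 : Ultrafilter ℕ) (g : ℕ → ℝ) (hg : ∀ t, |g t| ≤ 1) :
    ∃ x : ℝ, Tendsto g (𝒰 : Filter ℕ) (nhds x) := by
  have h1 : IsCompact (Set.Icc (-1 : ℝ) 1) := isCompact_Icc
  have h2 : ((𝒰.map g : Ultrafilter ℝ) : Filter ℝ) ≤ Filter.principal (Set.Icc (-1 : ℝ) 1) := by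
    rw [Filter.le_principal_iff]
    show g ⁻¹' (Set.Icc (-1 : ℝ) 1) ∈ (𝒰 : Filter ℕ)
    refine Filter.univ_mem' fun t => ?_
    exact abs_le.1 (hg t)
  obtain ⟨x, -, hx⟩ := h1.ultrafilter_le_nhds _ h2
  exact ⟨x, hx⟩

theorem span_eq_zero {n r : ℕ} (a : Fin n → Fin r → ℤ)
    (hspan : ∀ j, Pi.single j 1 ∈ Submodule.span ℤ (Set.range a)) (u : Fin r → ℝ)
    (h : ∀ i, ∑ j, (a i j : ℝ) * u j = 0) : u = 0 := by
  classical
  let T : Submodule ℤ (Fin r → ℤ) :=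
    { carrier := {b | ∑ j, (b j : ℝ) * u j = 0}
      add_mem' := by
        intro b b' hb hb'
        have h1 : ∑ j, (b j : ℝ) * u j = 0 := hb
        have h2 : ∑ j, (b' j : ℝ) * u j = 0 := hb'
        show ∑ j, (((b + b') j : ℤ) : ℝ) * u j = 0
        simp only [Pi.add_apply, Int.cast_add, add_mul, Finset.sum_add_distrib]
        rw [h1, h2, add_zero]
      zero_mem' := by
        show ∑ j, (((0 : Fin r → ℤ) j : ℤ) : ℝ) * u j = 0
        simp
      smul_mem' := by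
        intro c b hb
        have h1 : ∑ j, (b j : ℝ) * u j = 0 := hb
        show ∑ j, (((c • b) j : ℤ) : ℝ) * u j = 0
        simp only [Pi.smul_apply, smul_eq_mul, Int.cast_mul, mul_assoc]
        rw [← Finset.mul_sum, h1, mul_zero] }
  have h1 : Submodule.span ℤ (Set.range a) ≤ T := by
    rw [Submodule.span_le]
    rintro _ ⟨i, rfl⟩
    exact h i
  funext j
  have h2 : ∑ j', ((Pi.single j (1 : ℤ) : Fin r → ℤ) j' : ℝ) * u j' = 0 := h1 (hspan j)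
  rw [Finset.sum_eq_single j] at h2
  · rw [Pi.single_eq_same, Int.cast_one, one_mul] at h2
    exact h2
  · intro j' _ hj'
    rw [Pi.single_eq_of_ne hj', Int.cast_zero, zero_mul]
  · intro h3
    exact absurd (Finset.mem_univ _) h3

/-- the coefficients of the unit vectors -/
theorem span_coef {n r : ℕ} (a : Fin n → Fin r → ℤ)
    (hspan : ∀ j, Pi.single j 1 ∈ Submodule.span ℤ (Set.range a)) :
    ∃ b : Fin r → Fin n → ℤ, ∀ (u : Fin r → ℝ) (j : Fin r),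
      u j = ∑ i, (b j i : ℝ) * ∑ j', (a i j' : ℝ) * u j' := by
  classical
  have h1 : ∀ j, ∃ b : Fin n → ℤ, ∑ i, b i • a i = Pi.single j 1 := fun j =>
    (Submodule.mem_span_range_iff_exists_fun ℤ).1 (hspan j)
  choose b hb using h1
  refine ⟨b, fun u j => ?_⟩
  have h2 : ∀ j', ∑ i, b j i * a i j' = (Pi.single j (1 : ℤ) : Fin r → ℤ) j' := by
    intro j'
    rw [← hb j, Finset.sum_apply]
    rfl
  have h3 : ∑ i, (b j i : ℝ) * ∑ j', (a i j' : ℝ) * u j' =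
      ∑ j', ((Pi.single j (1 : ℤ) : Fin r → ℤ) j' : ℝ) * u j' := by
    simp only [← h2, Finset.mul_sum]
    rw [Finset.sum_comm]
    refine Finset.sum_congr rfl fun j' _ => ?_
    push_cast
    rw [Finset.sum_mul]
    exact Finset.sum_congr rfl fun i _ => by ring
  rw [h3, Finset.sum_eq_single j]
  · rw [Pi.single_eq_same, Int.cast_one, one_mul]
  · intro j' _ hj'
    rw [Pi.single_eq_of_ne hj', Int.cast_zero, zero_mul]
  · intro h3
    exact absurd (Finset.mem_univ _) h3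

/-- the limits -/
theorem limits (𝒰 : Ultrafilter ℕ) {P V : Type} [Fintype P] [Fintype V] {n r : ℕ} {e : ℕ}
    (he : 1 ≤ e) (a : Fin n → Fin r → ℤ)
    (hspan : ∀ j, Pi.single j 1 ∈ Submodule.span ℤ (Set.range a)) (lw : P → ℕ → Fin r → ℝ)
    (N : ℕ → ℝ) (hN : ∀ t, 1 ≤ N t) (hNt : Tendsto N (𝒰 : Filter ℕ) atTop)
    (hlw : ∀ p t j, |lw p t j| ≤ N t) (C1 : ℝ) (hC1 : 0 ≤ C1)
    (hNC : ∀ᶠ t in (𝒰 : Filter ℕ), N t ≤ C1 + C1 * ∑ p, ∑ j, |lw p t j|)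
    (A : P → ℕ → Fin n → ℝ) (γ : P → Fin n → ℝ)
    (hA : ∀ᶠ t in (𝒰 : Filter ℕ), ∀ p i, A p t i = γ p i + ∑ j, (((e : ℤ) * a i j : ℤ) : ℝ) *
      lw p t j)
    (Λ : V → ℕ → Fin n → ℝ) (χ : V → P) (cc : V → ℝ)
    (hΛ : ∀ v t i, Λ v t i = cc v * A (χ v) t i)
    (C2 : ℝ) (hC2 : 0 ≤ C2) (hAΛ : ∀ p t i, |A p t i| ≤ C2 + C2 * ∑ v, ∑ i, |Λ v t i|)
    (C3 : ℝ) (hsum : ∀ t i, |∑ v, Λ v t i| ≤ C3) :
    ∃ ℓ : P → Fin r → ℝ,
      (∀ p, Tendsto (fun t => (N t)⁻¹ • lw p t) (𝒰 : Filter ℕ) (nhds (ℓ p))) ∧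
      (∑ v, (cc v * e) • ℓ (χ v) = 0) ∧
      (∀ ε : ℝ, 0 < ε → ∀ᶠ t in (𝒰 : Filter ℕ), ∀ v i,
        |Λ v t i - N t * ∑ j, (a i j : ℝ) * ((cc v * e) • ℓ (χ v)) j| ≤ ε * N t) ∧
      ∃ C : ℝ, 0 ≤ C ∧ ∀ᶠ t in (𝒰 : Filter ℕ), N t ≤ C + C * ∑ v, ∑ i, |Λ v t i| := by
  classical
  have hNpos : ∀ t, 0 < N t := fun t => lt_of_lt_of_le one_pos (hN t)
  have h1 : ∀ p j, ∃ x : ℝ, Tendsto (fun t => (N t)⁻¹ * lw p t j) (𝒰 : Filter ℕ) (nhds x) := by
    intro p j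
    refine ulim 𝒰 _ fun t => ?_
    rw [abs_mul, abs_of_pos (inv_pos.2 (hNpos t)), inv_mul_le_iff₀ (hNpos t), mul_one]
    exact hlw p t j
  choose ℓ hℓ using h1
  have hinv : Tendsto (fun t => (N t)⁻¹) (𝒰 : Filter ℕ) (nhds 0) := tendsto_inv_atTop_zero.comp hNt
  have hlimA : ∀ p i, Tendsto (fun t => (N t)⁻¹ * A p t i) (𝒰 : Filter ℕ)
      (nhds (∑ j, (((e : ℤ) * a i j : ℤ) : ℝ) * ℓ p j)) := by
    intro p i
    have h2 : Tendsto (fun t => (N t)⁻¹ * γ p i +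
        ∑ j, (((e : ℤ) * a i j : ℤ) : ℝ) * ((N t)⁻¹ * lw p t j)) (𝒰 : Filter ℕ)
        (nhds (0 * γ p i + ∑ j, (((e : ℤ) * a i j : ℤ) : ℝ) * ℓ p j)) :=
      (hinv.mul_const _).add (tendsto_finsetSum _ fun j _ => (hℓ p j).const_mul _)
    rw [zero_mul, zero_add] at h2
    refine h2.congr' ?_
    filter_upwards [hA] with t ht
    rw [ht p i, mul_add, Finset.mul_sum]
    congr 1
    exact Finset.sum_congr rfl fun j _ => by ring
  have hlimΛ : ∀ v i, Tendsto (fun t => (N t)⁻¹ * Λ v t i) (𝒰 : Filter ℕ)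
      (nhds (∑ j, (a i j : ℝ) * ((cc v * e) • ℓ (χ v)) j)) := by
    intro v i
    have h2 := (hlimA (χ v) i).const_mul (cc v)
    have h3 : cc v * ∑ j, (((e : ℤ) * a i j : ℤ) : ℝ) * ℓ (χ v) j =
        ∑ j, (a i j : ℝ) * ((cc v * e) • ℓ (χ v)) j := by
      rw [Finset.mul_sum]
      refine Finset.sum_congr rfl fun j _ => ?_
      rw [Pi.smul_apply, smul_eq_mul]
      push_cast
      ring
    rw [h3] at h2
    refine h2.congr' (Filter.Eventually.of_forall fun t => ?_)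
    show cc v * ((N t)⁻¹ * A (χ v) t i) = (N t)⁻¹ * Λ v t i
    rw [hΛ]
    ring
  refine ⟨ℓ, fun p => ?_, ?_, ?_, ?_⟩
  · rw [tendsto_pi_nhds]
    intro j
    exact hℓ p j
  · refine span_eq_zero a hspan _ fun i => ?_
    have h2 : Tendsto (fun t => ∑ v, (N t)⁻¹ * Λ v t i) (𝒰 : Filter ℕ)
        (nhds (∑ v, ∑ j, (a i j : ℝ) * ((cc v * e) • ℓ (χ v)) j)) :=
      tendsto_finsetSum _ fun v _ => hlimΛ v i
    have h3 : Tendsto (fun t => ∑ v, (N t)⁻¹ * Λ v t i) (𝒰 : Filter ℕ) (nhds 0) := by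
      have h4 : Tendsto (fun t => (N t)⁻¹ * |C3|) (𝒰 : Filter ℕ) (nhds 0) := by
        have := hinv.mul_const |C3|
        rwa [zero_mul] at this
      refine squeeze_zero_norm' (Filter.Eventually.of_forall fun t => ?_) h4
      rw [← Finset.mul_sum, Real.norm_eq_abs, abs_mul, abs_of_pos (inv_pos.2 (hNpos t))]
      exact mul_le_mul_of_nonneg_left ((hsum t i).trans (le_abs_self _)) (inv_pos.2 (hNpos t)).le
    have h4 := tendsto_nhds_unique h2 h3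
    rw [← h4, Finset.sum_comm]
    refine Finset.sum_congr rfl fun j _ => ?_
    rw [Finset.sum_apply, Finset.mul_sum]
  · intro ε hε
    refine (Filter.eventually_all).2 fun v => (Filter.eventually_all).2 fun i => ?_
    have h2 := (Metric.tendsto_nhds.1 (hlimΛ v i)) ε hε
    filter_upwards [h2] with t ht
    rw [Real.dist_eq] at ht
    have h3 : Λ v t i - N t * ∑ j, (a i j : ℝ) * ((cc v * e) • ℓ (χ v)) j =
        N t * ((N t)⁻¹ * Λ v t i - ∑ j, (a i j : ℝ) * ((cc v * e) • ℓ (χ v)) j) := by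
      rw [mul_sub, ← mul_assoc, mul_inv_cancel₀ (hNpos t).ne', one_mul]
    rw [h3, abs_mul, abs_of_pos (hNpos t), mul_comm]
    exact mul_le_mul_of_nonneg_right ht.le (hNpos t).le
  · obtain ⟨b, hb⟩ := span_coef a hspan
    let Γ : ℝ := ∑ p, ∑ i, |γ p i|
    let β : ℝ := ∑ j, ∑ i, |(b j i : ℝ)|
    have hΓ : 0 ≤ Γ := Finset.sum_nonneg fun _ _ => Finset.sum_nonneg fun _ _ => abs_nonneg _
    have hβ : 0 ≤ β := Finset.sum_nonneg fun _ _ => Finset.sum_nonneg fun _ _ => abs_nonneg _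
    let Pc : ℝ := Fintype.card P
    have hPc : 0 ≤ Pc := Nat.cast_nonneg _
    refine ⟨C1 + C1 * (Pc * (β * (Γ + C2))), by positivity, ?_⟩
    filter_upwards [hNC, hA] with t g1 g2
    set W : ℝ := ∑ v, ∑ i, |Λ v t i| with hW
    have hW0 : 0 ≤ W := Finset.sum_nonneg fun _ _ => Finset.sum_nonneg fun _ _ => abs_nonneg _
    have he1 : (1 : ℝ) ≤ e := by exact_mod_cast he
    have g3 : ∀ p, ∑ j, |lw p t j| ≤ β * (Γ + (C2 + C2 * W)) := by
      intro p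
      have g4 : ∀ i, |∑ j', (a i j' : ℝ) * lw p t j'| ≤ Γ + (C2 + C2 * W) := by
        intro i
        have g5 : (e : ℝ) * ∑ j', (a i j' : ℝ) * lw p t j' = A p t i - γ p i := by
          rw [g2 p i, add_sub_cancel_left, Finset.mul_sum]
          refine Finset.sum_congr rfl fun j _ => ?_
          push_cast
          ring
        have g6 : |γ p i| ≤ Γ := by
          have g7 : |γ p i| ≤ ∑ i, |γ p i| :=
            Finset.single_le_sum (f := fun i => |γ p i|) (fun _ _ => abs_nonneg _)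
              (Finset.mem_univ i)
          exact g7.trans (Finset.single_le_sum (f := fun p => ∑ i, |γ p i|)
            (fun _ _ => Finset.sum_nonneg fun _ _ => abs_nonneg _) (Finset.mem_univ p))
        have g7 : |(e : ℝ) * ∑ j', (a i j' : ℝ) * lw p t j'| ≤ (C2 + C2 * W) + Γ := by
          rw [g5]
          exact (abs_sub _ _).trans (add_le_add (hAΛ p t i) g6)
        rw [abs_mul, abs_of_nonneg (by linarith)] at g7
        have g8 := le_mul_of_one_le_left (abs_nonneg (∑ j', (a i j' : ℝ) * lw p t j')) he1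
        linarith
      have g9 : ∀ j, |lw p t j| ≤ (∑ i, |(b j i : ℝ)|) * (Γ + (C2 + C2 * W)) := by
        intro j
        rw [hb (lw p t) j]
        refine (Finset.abs_sum_le_sum_abs _ _).trans ?_
        rw [Finset.sum_mul]
        refine Finset.sum_le_sum fun i _ => ?_
        rw [abs_mul]
        exact mul_le_mul_of_nonneg_left (g4 i) (abs_nonneg _)
      refine (Finset.sum_le_sum fun j _ => g9 j).trans ?_
      rw [← Finset.sum_mul]
    have g4 : ∑ p, ∑ j, |lw p t j| ≤ Pc * (β * (Γ + (C2 + C2 * W))) := by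
      refine (Finset.sum_le_sum fun p _ => g3 p).trans ?_
      rw [Finset.sum_const, nsmul_eq_mul, Finset.card_univ]
    have g5 : N t ≤ C1 + C1 * (Pc * (β * (Γ + (C2 + C2 * W)))) :=
      g1.trans (by
        have := mul_le_mul_of_nonneg_left g4 hC1
        linarith)
    refine g5.trans ?_
    have g6 : C1 + C1 * (Pc * (β * (Γ + C2))) + (C1 + C1 * (Pc * (β * (Γ + C2)))) * W -
        (C1 + C1 * (Pc * (β * (Γ + (C2 + C2 * W))))) = (C1 + C1 * (Pc * (β * Γ))) * W := by ring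
    have g7 : 0 ≤ (C1 + C1 * (Pc * (β * Γ))) * W := by positivity
    linarith

end Pool.Agent.H434
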