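import Mathlib
import Pool.Agent.H434.I3
import Pool.Agent.H434.Ar2

/-!
The directions of the logarithms of the unit coordinates of an infinite sequence of integral points.
-/

set_option autoImplicit false
set_option linter.unusedSectionVars false

open Finset MvPolynomial Filter

namespace Pool.Agent.H434

open Pool.Agent.N754.LT
open NumberField IsDedekindDomain
open Pool.Agent.Y742.SF Pool.Agent.Y742.AR
open Pool.Agent.W235.RM Pool.Agent.H159R3.Exp

/-- the normalised logarithm at a place -/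
noncomputable def lam {L : Type} [Field L] [NumberField L] (S : Finset (HeightOneSpectrum (𝓞 L)))
    (v : InfinitePlace L ⊕ S) (x : L) : ℝ :=
  match v with
  | Sum.inl v => v.mult * Real.log (v x)
  | Sum.inr w => Real.log (fv w.1 x)

theorem key_dir {K : Type} [Field K] [NumberField K] (σ : K →+* ℂ) {ι κ : Type}
    [Finite ι] {N n q : ℕ} (F : ι → MvPolynomial (Fin N) (𝓞 K))
    (G : κ → MvPolynomial (Fin N) (𝓞 K))
    (U : Fin n → Fin N) (J : Fin q → Fin N) (m : Fin q → ℕ) (hm : ∀ j, 2 ≤ m j)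
    (f : Fin q → MvPolynomial (Fin n) (𝓞 K))
    (hU : ∀ z : Fin N → ℂ, (∀ l, eval₂ (σ.comp (algebraMap (𝓞 K) K)) z (F l) = 0) →
      ∀ i, z (U i) ≠ 0)
    (hJ : ∀ z : Fin N → ℂ, (∀ l, eval₂ (σ.comp (algebraMap (𝓞 K) K)) z (F l) = 0) →
      ∀ j, z (J j) ^ m j = eval₂ (σ.comp (algebraMap (𝓞 K) K)) (fun i => z (U i)) (f j))
    (hal : Alone σ F G (Finset.univ.image U ∪ Finset.univ.image J)) (h0 : ¬ HasLaurent F G)
    (L : Type) [hL1 : Field L] [hL2 : NumberField L] [hL3 : Algebra K L]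
    (S : Finset (HeightOneSpectrum (𝓞 L)))
    (xs : ℕ → Fin N → L) (hinj : Function.Injective xs)
    (hxs : ∀ t, xs t ∈ intPoints F L (S : Set (HeightOneSpectrum (𝓞 L))) \
      intPoints G L (S : Set (HeightOneSpectrum (𝓞 L)))) :
    ∃ (r : ℕ) (a : Fin n → Fin r → ℤ) (c : Fin n → ℂ) (κ' : Fin q → Fin r → ℕ)
      (l : InfinitePlace L ⊕ S → Fin r → ℝ) (Nn : ℕ → ℝ) (C : ℝ),
      (∀ j, Pi.single j 1 ∈ Submodule.span ℤ (Set.range a)) ∧ (∀ i, c i ≠ 0) ∧
      (∀ j, GoodShift (κ' j) a (fm σ (f j))) ∧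
      (∃ j, ¬ PowForm (m j) (PP (κ' j) a c (fm σ (f j)))) ∧
      (∀ v j, ¬ PowForm (m j) (PP (κ' j) a c (fm σ (f j))) →
        ¬ PowForm (m j) (lead (l v) (PP (κ' j) a c (fm σ (f j))))) ∧
      ∑ v, l v = 0 ∧ 0 ≤ C ∧ (∀ t, 1 ≤ Nn t) ∧
      Tendsto Nn (Filter.hyperfilter ℕ : Filter ℕ) atTop ∧
      (∀ ε : ℝ, 0 < ε → ∀ᶠ t in (Filter.hyperfilter ℕ : Filter ℕ), ∀ v i,
        |lam S v (xs t (U i)) - Nn t * ∑ j, (a i j : ℝ) * l v j| ≤ ε * Nn t) ∧
      (∀ᶠ t in (Filter.hyperfilter ℕ : Filter ℕ),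
        Nn t ≤ C + C * ∑ v, ∑ i, |lam S v (xs t (U i))|) := by
  classical
  by_contra hno
  have hS : (S : Set (HeightOneSpectrum (𝓞 L))).Finite := S.finite_toSet
  -- embeddings
  let : Algebra K ℂ := σ.toAlgebra
  have : Algebra.IsAlgebraic K L := by
    have h1 : Algebra.IsAlgebraic ℚ L := inferInstance
    exact Algebra.IsAlgebraic.tower_top (K := ℚ) K
  let φ0 : L →ₐ[K] ℂ := IsAlgClosed.lift
  let φ : L →+* ℂ := φ0
  have hφ : φ.comp (algebraMap K L) = σ := by
    ext c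
    exact φ0.commutes _
  -- the units
  have hU' : ∀ z : Fin N → ℂ, (∀ l, eval₂ (σ.comp (algebraMap (𝓞 K) K)) z (F l) = 0) →
      ∀ i ∈ Finset.univ.image U, z i ≠ 0 := by
    intro z hz i hi
    obtain ⟨l, -, rfl⟩ := Finset.mem_image.1 hi
    exact hU z hz l
  obtain ⟨S', hS', hSS', hunits⟩ := unit_points σ F (Finset.univ.image U) hU' L S hS
  obtain ⟨S'', C0, hS'', hSS'', hC0, hbound⟩ := unit_bound σ F (Finset.univ.image U) hU' L S hS
  let e : ℕ := ∏ j, m j
  have he : 1 ≤ e := Finset.one_le_prod' fun j _ => by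
    have := hm j
    omega
  have hme : ∀ j, m j ∣ e := fun j => Finset.dvd_prod_of_mem m (Finset.mem_univ j)
  obtain ⟨T1, hT1a, hT1⟩ := sunit_roots φ S' hS' e he
  obtain ⟨M1, hM1a, hM1b, hM1c, hgal1, hi1, ψ1, hψ1, hT1r⟩ := exists_field φ T1 hT1a
  obtain ⟨S1, hS1, hSS1⟩ := ext_int L M1 S' hS'
  obtain ⟨D1, hD1⟩ := exists_PD hi1 S1 hS1
  have hTInt : ∀ x ∈ S'.integer L, D1.TInt (algebraMap L M1 x) := by
    intro x hx w hw
    refine (mem_integer_iff S1 _).1 (hSS1 x hx) w fun hwS => ?_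
    obtain ⟨v, hv⟩ := hD1 w hwS
    exact hw v hv
  -- the points
  let 𝒰 : Ultrafilter ℕ := Filter.hyperfilter ℕ
  have hxs' : ∀ t j, xs t j ∈ S'.integer L := by
    intro t j
    rw [mem_integer_iff]
    intro v hv
    exact (mem_integer_iff _ _).1 ((hxs t).1.1 j) v fun h => hv (hSS' h)
  have hroot : ∀ (i : Fin n) (t : ℕ), ∃ v : M1, v ^ e = algebraMap L M1 (xs t (U i)) ∧ v ≠ 0 ∧
      D1.TInt v ∧ D1.TInt v⁻¹ := by
    intro i t
    obtain ⟨u, hu, hux⟩ := hunits (xs t) (hxs t).1 (U i)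
      (Finset.mem_image_of_mem _ (Finset.mem_univ _))
    obtain ⟨v, hv⟩ := hT1 M1 ψ1 hψ1 hT1r u hu
    have hu0 : algebraMap L M1 (u : L) ≠ 0 := (map_ne_zero _).2 (Units.ne_zero u)
    have hv0 : v ≠ 0 := by
      intro h0
      rw [h0, zero_pow (by omega)] at hv
      exact hu0 hv.symm
    have huinv : (u : L)⁻¹ ∈ S'.integer L := by
      rw [mem_integer_iff]
      intro w hw
      rw [fv_le_one_iff, map_inv₀]
      have h1 : w.valuation L (u : L) = 1 := hu w hw
      rw [h1, inv_one]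
    refine ⟨v, by rw [hv, hux], hv0, fun w hw => ?_, fun w hw => ?_⟩
    · have h1 : fv w (v ^ e) ≤ 1 := by
        rw [hv]
        have h2 : (u : L) ∈ S'.integer L := by
          rw [hux]
          exact hxs' t _
        exact hTInt _ h2 w hw
      rw [fv_pow] at h1
      exact (pow_le_one_iff_of_nonneg (fv_nonneg _ _) (by omega)).1 h1
    · have h1 : fv w (v⁻¹ ^ e) ≤ 1 := by
        rw [inv_pow, hv, ← map_inv₀]
        exact hTInt _ huinv w hw
      rw [fv_pow] at h1
      exact (pow_le_one_iff_of_nonneg (fv_nonneg _ _) (by omega)).1 h1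
  choose v hv hv0 hvT hvT' using hroot
  let τ1 : K →+* M1 := (algebraMap L M1).comp (algebraMap K L)
  have hτ1 : ψ1.comp τ1 = σ := by
    rw [← hφ, ← hψ1]
    rfl
  let y1 : Fin N → BA M1 𝒰 := ys 𝒰 xs M1
  have hy1I : ∀ j, y1 j ∈ TIR D1 𝒰 := by
    intro j
    rw [mem_TIR]
    refine ⟨1, one_ne_zero, ?_⟩
    filter_upwards [rep_ys (M := M1) 𝒰 xs j] with t ht
    rw [ht]
    have h1 : ((1 : 𝓞 M1) : M1) = 1 := rfl
    rw [h1, one_mul]
    exact hTInt _ (hxs' t j)
  have hv1 : ∀ i, ∀ᶠ t in (𝒰 : Filter ℕ),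
      rep (K := M1) (𝒰 := 𝒰) (gm 𝒰 (fun t => v i t) : GK M1 𝒰) t = v i t := fun i =>
    rep_gm (K := M1) (𝒰 := 𝒰) (fun t => v i t)
  have hv2 : ∀ i, ∀ᶠ t in (𝒰 : Filter ℕ),
      rep (K := M1) (𝒰 := 𝒰) (gm 𝒰 (fun t => (v i t)⁻¹) : GK M1 𝒰) t = (v i t)⁻¹ := fun i =>
    rep_gm (K := M1) (𝒰 := 𝒰) (fun t => (v i t)⁻¹)
  have hvmul : ∀ i, (gm 𝒰 (fun t => v i t) : GK M1 𝒰) * gm 𝒰 (fun t => (v i t)⁻¹) = 1 := by
    intro i
    rw [← map_mul, ← map_one (gm (K := M1) 𝒰)]
    congr 1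
    funext t
    exact mul_inv_cancel₀ (hv0 i t)
  let vu : Fin n → (BA M1 𝒰)ˣ := fun i =>
    { val := (gm 𝒰 (fun t => v i t) : GK M1 𝒰)
      inv := (gm 𝒰 (fun t => (v i t)⁻¹) : GK M1 𝒰)
      val_inv := hvmul i
      inv_val := by
        have h1 := hvmul i
        rw [mul_comm] at h1
        exact h1 }
  have hvuW : ∀ i, vu i ∈ WA D1 𝒰 := by
    intro i
    rw [mem_WA, mem_TIR, mem_TIR]
    refine ⟨⟨1, one_ne_zero, ?_⟩, ⟨1, one_ne_zero, ?_⟩⟩
    · filter_upwards [hv1 i] with t ht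
      have h1 : ((1 : 𝓞 M1) : M1) = 1 := rfl
      have h2 : rep (K := M1) (𝒰 := 𝒰) ((vu i : (BA M1 𝒰)ˣ) : BA M1 𝒰) t = v i t := ht
      rw [h1, one_mul, h2]
      exact hvT i t
    · filter_upwards [hv2 i] with t ht
      have h1 : ((1 : 𝓞 M1) : M1) = 1 := rfl
      have h2 : rep (K := M1) (𝒰 := 𝒰) (((vu i)⁻¹ : (BA M1 𝒰)ˣ) : BA M1 𝒰) t = (v i t)⁻¹ := ht
      rw [h1, one_mul, h2]
      exact hvT' i t
  have hvue : ∀ i, ((vu i : (BA M1 𝒰)ˣ) : BA M1 𝒰) ^ e = y1 (U i) := by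
    intro i
    show (gm 𝒰 (fun t => v i t) : GK M1 𝒰) ^ e = gm 𝒰 (fun t => algebraMap L M1 (xs t (U i)))
    rw [← map_pow]
    congr 1
    funext t
    exact hv i t
  have hFz : ∀ {M : Type} [Field M] [NumberField M] [Algebra L M] [IsGalois ℚ M] (l : ι),
      aeval (ys 𝒰 xs M) (fm ((algebraMap L M).comp (algebraMap K L)) (F l)) = 0 :=
    fun l => aeval_ys 𝒰 xs (F l) fun t => (hxs t).1.2 l
  -- the equations of the roots hold on the points
  have hJz : ∀ {M : Type} [Field M] [NumberField M] [Algebra L M] [IsGalois ℚ M] (j : Fin q),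
      ys 𝒰 xs M (J j) ^ m j = aeval (fun i => ys 𝒰 xs M (U i))
        (fm ((algebraMap L M).comp (algebraMap K L)) (f j)) := by
    intro M _ _ _ _ j
    have h1 : ∀ t, eval₂ ((algebraMap K L).comp (algebraMap (𝓞 K) K)) (xs t)
        (X (J j) ^ m j - rename U (f j)) = 0 := by
      intro t
      have h2 := hJ (fun i => φ (xs t i)) (fun l => by
        have h3 := congrArg φ ((hxs t).1.2 l)
        rw [map_zero, MvPolynomial.hom_eval₂, ← RingHom.comp_assoc, hφ] at h3
        exact h3) j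
      rw [eval₂_sub, eval₂_pow, eval₂_X, eval₂_rename, sub_eq_zero]
      apply φ.injective
      rw [map_pow, h2, MvPolynomial.hom_eval₂, ← RingHom.comp_assoc, hφ]
      rfl
    have h2 := aeval_ys (M := M) 𝒰 xs (X (J j) ^ m j - rename U (f j)) h1
    have h3 : fm ((algebraMap L M).comp (algebraMap K L)) (X (J j) ^ m j - rename U (f j)) =
        X (J j) ^ m j - rename U (fm ((algebraMap L M).comp (algebraMap K L)) (f j)) := by
      unfold fm
      rw [map_sub, map_pow, map_X, map_rename]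
    rw [h3, map_sub, map_pow, aeval_X, aeval_rename, sub_eq_zero] at h2
    exact h2
  have hnc : ∃ i, ∀ c : M1, y1 i ≠ algebraMap M1 (BA M1 𝒰) c := by
    by_contra hcon
    push Not at hcon
    choose c hc using hcon
    have h1 : ∀ᶠ t in (𝒰 : Filter ℕ), ∀ j, algebraMap L M1 (xs t j) = c j := by
      refine (Filter.eventually_all).2 fun j => ?_
      have h2 : ∀ᶠ t in (𝒰 : Filter ℕ), rep (K := M1) (𝒰 := 𝒰) (y1 j) t = c j := by
        rw [hc j]
        exact Pool.Agent.Y742.AR.rep_cg (K := M1) (𝒰 := 𝒰) (c j)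
      filter_upwards [h2, rep_ys (M := M1) 𝒰 xs j] with t g1 g2
      rw [← g2, ← g1]
    have h2 : {t : ℕ | ∀ j, algebraMap L M1 (xs t j) = c j}.Subsingleton := by
      intro t ht t' ht'
      apply hinj
      funext j
      apply (algebraMap L M1).injective
      exact (ht j).trans (ht' j).symm
    exact Filter.notMem_hyperfilter_of_finite h2.finite h1
  have hfin : ∀ {M : Type} [Field M] [NumberField M] [Algebra L M] (ψ : M →+* ℂ)
      (hψ : ψ.comp ((algebraMap L M).comp (algebraMap K L)) = σ),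
      ((∃ z : Fin N → GC ℕ 𝒰,
        (∀ l, eval₂ ((thA 𝒰 ψ).comp (algebraMap M (BA M 𝒰))) z
          (fm ((algebraMap L M).comp (algebraMap K L)) (F l)) = 0) ∧
        (∀ i, z (U i) = thA 𝒰 ψ (ys 𝒰 xs M (U i))) ∧
        (∀ j, z (J j) = thA 𝒰 ψ (ys 𝒰 xs M (J j))) ∧
        z ≠ fun j => thA 𝒰 ψ (ys 𝒰 xs M j)) ∨
      ∀ᶠ t in (𝒰 : Filter ℕ), CurveAt (rpA M 𝒰)
        (fun l => fm ((algebraMap L M).comp (algebraMap K L)) (F l)) (ys 𝒰 xs M) t) → False := by
    intro M _ _ _ ψ hψ halt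
    refine arith_finish σ F G (Finset.univ.image U ∪ Finset.univ.image J) hal h0
      (S : Set (HeightOneSpectrum (𝓞 L))) 𝒰 xs hxs ψ hψ ?_
    rcases halt with ⟨z, h1, h2, h3, h4⟩ | h
    · left
      refine ⟨z, h1, fun i hi => ?_, h4⟩
      rcases Finset.mem_union.1 hi with h | h
      · obtain ⟨l, -, rfl⟩ := Finset.mem_image.1 h
        exact h2 l
      · obtain ⟨l, -, rfl⟩ := Finset.mem_image.1 h
        exact h3 l
    · exact Or.inr h
  rcases exists_datU (geoA D1 𝒰) U e y1 vu hvuW hvue with hcon | ⟨d, hd⟩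
  · -- constant units
    refine hfin ψ1 hτ1 (Or.inl ?_)
    exact const_alt (geoA D1 𝒰) U J m hm (fun j => fm τ1 (f j)) y1 hy1I
      (fun l => fm τ1 (F l)) hFz hJz hcon hnc (thA 𝒰 ψ1) (thA 𝒰 ψ1).injective
  · have halg1 : ∀ x : M1, IsAlgebraic ℚ (ψ1 x) := by
      intro x
      have h1 : IsIntegral ℚ x := Algebra.IsIntegral.isIntegral _
      exact (h1.map (ψ1.toRatAlgHom : M1 →ₐ[ℚ] ℂ)).isAlgebraic
    have hm1 : ∀ j, 1 ≤ m j := fun j => by
      have := hm j
      omega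
    choose κ₀ hκ₀ using fun j => exists_shift (m j) (hm1 j) d.a (fm τ1 (f j))
    let κ' : Fin q → Fin d.r → ℕ := fun j l => m j * κ₀ j l
    let P1 : Fin q → MvPolynomial (Fin d.r) M1 := fun j => PP (κ' j) d.a d.c (fm τ1 (f j))
    have hP1c : ∀ j, MvPolynomial.map ψ1 (P1 j) =
        PP (κ' j) d.a (fun i => ψ1 (d.c i)) (fm σ (f j)) := by
      intro j
      simp only [P1]
      rw [map_PP, map_fm, hτ1]
    obtain ⟨T2, hT2a, hT2⟩ := exists_field_lead m (fun j => MvPolynomial.map ψ1 (P1 j))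
      (fun j s => by
        rw [coeff_map]
        exact halg1 _)
    have hprim : IsPrimitiveRoot (Complex.exp (2 * Real.pi * Complex.I / e)) e :=
      Complex.isPrimitiveRoot_exp e (by omega)
    obtain ⟨M2, hM2a, hM2b, hM2c, hgal2, hi2, ψ2, hψ2, hT2r⟩ := exists_field ψ1
      (insert (Complex.exp (2 * Real.pi * Complex.I / e)) T2) (by
        intro a ha
        rcases Finset.mem_insert.1 ha with rfl | ha
        · refine IsAlgebraic.of_pow (n := e) (by omega) ?_
          rw [hprim.pow_eq_one]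
          exact isAlgebraic_one
        · exact hT2a a ha)
    let τ2 : M1 →+* M2 := algebraMap M1 M2
    let : Algebra L M2 := (τ2.comp (algebraMap L M1)).toAlgebra
    -- the places of the large field
    obtain ⟨S2, hS2, hSS2⟩ := ext_int M1 M2 (Set.range D1.P) (Set.finite_range _)
    choose Wab cab hcab hWab using fun w : HeightOneSpectrum (𝓞 L) => exists_above (M := M2) w
    obtain ⟨D2, hD2'⟩ := exists_PD hi2 (S2 ∪ Wab '' (S : Set (HeightOneSpectrum (𝓞 L))))
      (hS2.union (hS.image _))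
    have hD2 : ∀ x : M1, D1.TInt x → D2.TInt (algebraMap M1 M2 x) := by
      intro x hx w hw
      have h1 : x ∈ (Set.range D1.P).integer M1 := by
        rw [mem_integer_iff]
        intro v hv
        exact hx v fun w hw => hv ⟨w, hw.symm⟩
      refine (mem_integer_iff S2 _).1 (hSS2 x h1) w fun hwS => ?_
      obtain ⟨v, hv⟩ := hD2' w (Set.mem_union_left _ hwS)
      exact hw v hv
    obtain ⟨ζ, hζ⟩ := hT2r _ (Finset.mem_insert_self _ _)
    have hζp : IsPrimitiveRoot ζ e := by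
      have h1 : IsPrimitiveRoot (ψ2 ζ) e := by
        rw [hζ]
        exact hprim
      exact h1.of_map_of_injective ψ2.injective
    let d2 := d.bc (τ := τ2) (fun u hu => WA_bc D1 D2 hD2 u hu) (unitA D2 𝒰)
    have hy2 : (fun i => bc τ2 𝒰 (y1 i)) = ys 𝒰 xs M2 := by
      funext i
      show (gm 𝒰 (fun t => τ2 (rep (K := M1) (𝒰 := 𝒰) (y1 i) t)) : GK M2 𝒰) =
        gm 𝒰 (fun t => algebraMap L M2 (xs t i))
      rw [gm_eq]
      filter_upwards [rep_ys (M := M1) 𝒰 xs i] with t ht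
      have h1 : rep (K := M1) (𝒰 := 𝒰) (y1 i) t = algebraMap L M1 (xs t i) := ht
      rw [h1]
      rfl
    have hy2I : ∀ i, bc τ2 𝒰 (y1 i) ∈ (geoA D2 𝒰).I := fun i => TIR_bc D1 D2 hD2 _ (hy1I i)
    have hτ2 : ψ2.comp ((algebraMap L M2).comp (algebraMap K L)) = σ := by
      rw [← hτ1, ← hψ2]
      rfl
    have hfm2 : ∀ {N : ℕ} (P : MvPolynomial (Fin N) (𝓞 K)), MvPolynomial.map τ2 (fm τ1 P) =
        fm ((algebraMap L M2).comp (algebraMap K L)) P := fun P => by
      rw [map_fm]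
      rfl
    have hJ2 : ∀ j, bc τ2 𝒰 (y1 (J j)) ^ m j = aeval (fun i => bc τ2 𝒰 (y1 (U i)))
        (MvPolynomial.map τ2 (fm τ1 (f j))) := by
      intro j
      have h1 := hJz (M := M2) j
      rw [← hy2] at h1
      rw [hfm2]
      exact h1
    have hF2 : ∀ l, aeval (fun i => bc τ2 𝒰 (y1 i)) (MvPolynomial.map τ2 (fm τ1 (F l))) = 0 := by
      intro l
      have h1 := hFz (M := M2) l
      rw [← hy2] at h1
      rw [hfm2]
      exact h1
    let P2 : Fin q → MvPolynomial (Fin d.r) M2 := fun j =>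
      PP (κ' j) d.a (fun i => τ2 (d.c i)) (MvPolynomial.map τ2 (fm τ1 (f j)))
    have hP2m : ∀ j, P2 j = MvPolynomial.map τ2 (P1 j) := fun j => (map_PP τ2 _ _ _ _).symm
    have hP2c : ∀ j, MvPolynomial.map ψ2 (P2 j) = MvPolynomial.map ψ1 (P1 j) := by
      intro j
      have h1 : ψ2.comp τ2 = ψ1 := hψ2
      rw [hP2m, MvPolynomial.map_map, h1]
    -- the two notions of powers
    have hdown : ∀ j (l : Fin d.r → ℝ), PowForm (m j) (lead l (MvPolynomial.map ψ1 (P1 j))) →
        PowForm (m j) (lead l (P2 j)) := fun j l h =>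
      hT2 M2 ψ2 P2 hP2c (fun a ha => hT2r a (Finset.mem_insert_of_mem ha)) j l h
    by_cases hall : ∀ j, PowForm (m j) (P2 j)
    · apply hfin ψ2 hτ2
      rw [← hy2]
      have hFM : (fun l => fm ((algebraMap L M2).comp (algebraMap K L)) (F l)) =
          fun l => MvPolynomial.map τ2 (fm τ1 (F l)) := funext fun l => (hfm2 (F l)).symm
      have hFM' : ∀ l, fm ((algebraMap L M2).comp (algebraMap K L)) (F l) =
          MvPolynomial.map τ2 (fm τ1 (F l)) := fun l => (hfm2 (F l)).symm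
      rw [hFM]
      simp only [hFM']
      exact coset_alt (geoA D2 𝒰) (rpA M2 𝒰) U J m hm he hme ζ hζp
          (fun j => MvPolynomial.map τ2 (fm τ1 (f j))) (fun i => bc τ2 𝒰 (y1 i)) hy2I
          (fun l => MvPolynomial.map τ2 (fm τ1 (F l))) hF2 d2 hJ2 κ₀
          (fun j => goodShift_map τ2 (hκ₀ j)) (Or.inl hall)
          (thA 𝒰 ψ2) (thA 𝒰 ψ2).injective
    · -- the directions
      let mo : Fin q → (BA M2 𝒰)ˣ := fun j => ∏ l, d2.w l ^ (e * κ₀ j l)
      let z : Fin q → BA M2 𝒰 := fun j => (mo j : BA M2 𝒰) * bc τ2 𝒰 (y1 (J j))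
      have hz : ∀ j, z j ^ m j = aeval (fun i => (d2.w i : BA M2 𝒰) ^ e) (P2 j) := by
        intro j
        have h1 := mon_zpow d2.w e (κ' j) d2.a d2.c (MvPolynomial.map τ2 (fm τ1 (f j)))
          (goodShift_map τ2 (hκ₀ j)) (fun i => bc τ2 𝒰 (y1 (U i))) d2.hU
        have h2 : aeval (fun i => (d2.w i : BA M2 𝒰) ^ e) (P2 j) =
            aeval (fun j => (d2.w j : BA M2 𝒰) ^ e) (PP (κ' j) d2.a d2.c
              (MvPolynomial.map τ2 (fm τ1 (f j)))) := rfl
        rw [h2, ← h1, ← hJ2]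
        simp only [z]
        rw [mul_pow]
        congr 1
        rw [← Units.val_pow_eq_pow_val, ← Finset.prod_pow]
        congr 1
        refine Finset.prod_congr rfl fun l _ => ?_
        rw [← pow_mul]
        congr 1
        show e * κ₀ j l * m j = e * (m j * κ₀ j l)
        ring
      have hzI : ∀ j, z j ∈ TIR D2 𝒰 := fun j =>
        (TIR D2 𝒰).mul_mem ((geoA D2 𝒰).W_I _ (Subgroup.prod_mem _ fun l _ =>
          Subgroup.pow_mem _ (d2.hwW l) _)) (hy2I _)
      obtain ⟨Nn, hN1, hNt, hlw, ⟨C1, hC1, hNC⟩, hgp⟩ := dirA D2 𝒰 d2.hr d2.w d2.hwW d2.hw he ζ hζp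
        m hm hme P2 z hzI hz
      -- the places of `L`
      have hpl : ∀ v : InfinitePlace L ⊕ S, ∃ (p : (M2 ≃ₐ[ℚ] M2) ⊕ Fin D2.s) (c : ℝ), 0 < c ∧
          ∀ x : L, lam S v x = c * Real.log (D2.av p (algebraMap L M2 x)) := by
        intro v
        rcases v with v | w
        · obtain ⟨g, hg⟩ := exists_inf D2 v
          refine ⟨Sum.inl g, v.mult, ?_, fun x => ?_⟩
          · exact_mod_cast InfinitePlace.mult_pos
          · rw [hg]
            rfl
        · obtain ⟨p, hp⟩ := hD2' (Wab w.1) (Set.mem_union_right _ ⟨w.1, w.2, rfl⟩)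
          refine ⟨Sum.inr p, (cab w.1)⁻¹, inv_pos.2 (hcab _), fun x => ?_⟩
          have h1 := hWab w.1 x
          show Real.log (fv w.1 x) = (cab w.1)⁻¹ * Real.log (fv (D2.P p) (algebraMap L M2 x))
          rw [← hp, h1, ← mul_assoc, inv_mul_cancel₀ (hcab _).ne', one_mul]
      choose χ cc hcc hχ using hpl
      let A : ((M2 ≃ₐ[ℚ] M2) ⊕ Fin D2.s) → ℕ → Fin n → ℝ := fun p t i =>
        Real.log (D2.av p (algebraMap L M2 (xs t (U i))))
      let γ : ((M2 ≃ₐ[ℚ] M2) ⊕ Fin D2.s) → Fin n → ℝ := fun p i =>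
        Real.log (D2.av p (τ2 (d.c i)))
      let Λ : (InfinitePlace L ⊕ S) → ℕ → Fin n → ℝ := fun v t i => lam S v (xs t (U i))
      have hA : ∀ᶠ t in (𝒰 : Filter ℕ), ∀ p i, A p t i = γ p i +
          ∑ j, (((e : ℤ) * d.a i j : ℤ) : ℝ) * lv D2 𝒰 d2.w p t j := by
        have h1 : ∀ᶠ t in (𝒰 : Filter ℕ), ∀ i, ∀ p, A p t i = γ p i +
            ∑ j, (((e : ℤ) * d.a i j : ℤ) : ℝ) * lv D2 𝒰 d2.w p t j := by
          refine (Filter.eventually_all).2 fun i => ?_
          have h2 := log_units D2 𝒰 d2.w (τ2 (d.c i)) ((map_ne_zero τ2).2 (d.hc i))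
            (fun j => (e : ℤ) * d.a i j) (bc τ2 𝒰 (y1 (U i))) (d2.hU i)
          have h3 : bc τ2 𝒰 (y1 (U i)) = ys 𝒰 xs M2 (U i) := congrFun hy2 (U i)
          filter_upwards [h2, rep_ys (M := M2) 𝒰 xs (U i)] with t g1 g2 p
          have g3 := g1 p
          rw [h3, g2] at g3
          exact g3
        filter_upwards [h1] with t ht p i
        exact ht i p
      have hUmem : ∀ i, U i ∈ Finset.univ.image U := fun i =>
        Finset.mem_image_of_mem _ (Finset.mem_univ _)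
      have hle : ∀ (v : InfinitePlace L ⊕ S) (t : ℕ) (i : Fin n),
          |Λ v t i| ≤ ∑ v, ∑ i, |Λ v t i| := by
        intro v t i
        have g7 : |Λ v t i| ≤ ∑ i, |Λ v t i| :=
          Finset.single_le_sum (f := fun i => |Λ v t i|) (fun _ _ => abs_nonneg _)
            (Finset.mem_univ i)
        exact g7.trans (Finset.single_le_sum (f := fun v => ∑ i, |Λ v t i|)
          (fun _ _ => Finset.sum_nonneg fun _ _ => abs_nonneg _) (Finset.mem_univ v))
      have hAb : ∀ p, ∃ C : ℝ, 0 ≤ C ∧ ∀ t i, |A p t i| ≤ C + C * ∑ v, ∑ i, |Λ v t i| := by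
        intro p
        rcases p with g | k
        · obtain ⟨v, hv⟩ := below_inf (L := L) D2 g
          refine ⟨1, zero_le_one, fun t i => ?_⟩
          have h1 : A (Sum.inl g) t i = Real.log (v (xs t (U i))) := by
            show Real.log (D2.av (Sum.inl g) (algebraMap L M2 (xs t (U i)))) = _
            rw [hv]
          have h2 : Λ (Sum.inl v) t i = v.mult * Real.log (v (xs t (U i))) := rfl
          have h3 := hle (Sum.inl v) t i
          rw [h2, abs_mul] at h3
          have h4 : (1 : ℝ) ≤ |((v.mult : ℕ) : ℝ)| := by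
            rw [Nat.abs_cast]
            exact_mod_cast InfinitePlace.mult_pos
          have h5 := le_mul_of_one_le_left (abs_nonneg (Real.log (v (xs t (U i))))) h4
          rw [h1]
          linarith
        · obtain ⟨w, c, hc, hw⟩ := exists_below (L := L) (D2.P k)
          have h1 : ∀ t i, A (Sum.inr k) t i = c * Real.log (fv w (xs t (U i))) := fun t i => hw _
          by_cases hwS : w ∈ S
          · refine ⟨c, hc.le, fun t i => ?_⟩
            have h3 := hle (Sum.inr ⟨w, hwS⟩) t i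
            have h2 : Λ (Sum.inr ⟨w, hwS⟩) t i = Real.log (fv w (xs t (U i))) := rfl
            rw [h2] at h3
            rw [h1, abs_mul, abs_of_pos hc]
            have h4 := mul_le_mul_of_nonneg_left h3 hc.le
            linarith
          · refine ⟨c * C0, mul_nonneg hc.le hC0, fun t i => ?_⟩
            have h3 := (hbound (xs t) (hxs t).1 (U i) (hUmem i)).2.2 w (by
              rw [Finset.mem_coe]
              exact hwS)
            rw [h1, abs_mul, abs_of_pos hc]
            have h4 := mul_le_mul_of_nonneg_left h3 hc.le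
            have h5 : 0 ≤ c * C0 * ∑ v, ∑ i, |Λ v t i| :=
              mul_nonneg (mul_nonneg hc.le hC0) (Finset.sum_nonneg fun _ _ =>
                Finset.sum_nonneg fun _ _ => abs_nonneg _)
            linarith
      choose Cb hCb hAb using hAb
      let C2 : ℝ := ∑ p, Cb p
      have hC2 : 0 ≤ C2 := Finset.sum_nonneg fun p _ => hCb p
      have hAΛ : ∀ p t i, |A p t i| ≤ C2 + C2 * ∑ v, ∑ i, |Λ v t i| := by
        intro p t i
        have h1 : Cb p ≤ C2 :=
          Finset.single_le_sum (f := Cb) (fun p _ => hCb p) (Finset.mem_univ p)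
        have h2 : 0 ≤ ∑ v, ∑ i, |Λ v t i| := Finset.sum_nonneg fun _ _ =>
          Finset.sum_nonneg fun _ _ => abs_nonneg _
        have h3 := mul_le_mul_of_nonneg_right h1 h2
        have h4 := hAb p t i
        linarith
      have hsum : ∀ t i, |∑ v, Λ v t i| ≤ (hS''.toFinset \ S).card * C0 := by
        intro t i
        obtain ⟨hx0, hx1, hx2⟩ := hbound (xs t) (hxs t).1 (U i) (hUmem i)
        have hsub : S ⊆ hS''.toFinset := by
          intro w hw
          rw [Set.Finite.mem_toFinset]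
          exact hSS'' (Finset.mem_coe.2 hw)
        have h1 := sum_log (xs t (U i)) hx0 hS''.toFinset (fun w hw => hx1 w (by
          rw [Set.Finite.mem_toFinset] at hw
          exact hw))
        rw [← Finset.sum_sdiff hsub] at h1
        have h2 : ∑ v, Λ v t i = ∑ v : InfinitePlace L, v.mult * Real.log (v (xs t (U i))) +
            ∑ w ∈ S, Real.log (fv w (xs t (U i))) := by
          rw [Fintype.sum_sum_type]
          congr 1
          exact Finset.sum_coe_sort S (fun w => Real.log (fv w (xs t (U i))))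
        have h3 : ∑ v, Λ v t i = -∑ w ∈ hS''.toFinset \ S, Real.log (fv w (xs t (U i))) := by
          rw [h2]
          linarith
        rw [h3, abs_neg]
        refine (Finset.abs_sum_le_sum_abs _ _).trans ?_
        rw [← nsmul_eq_mul]
        refine Finset.sum_le_card_nsmul _ _ _ fun w hw => ?_
        exact hx2 w (fun h => (Finset.mem_sdiff.1 hw).2 (Finset.mem_coe.1 h))
      obtain ⟨ℓ, hℓ, hℓ0, hℓa, C, hC, hCN⟩ := limits 𝒰 he d.a d.hspan (lv D2 𝒰 d2.w) Nn hN1 hNt
        hlw C1 hC1 hNC A γ hA Λ χ cc (fun v t i => hχ v _) C2 hC2 hAΛ _ hsum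
      -- the limits are bad directions
      have hbad : ∀ p j, ¬ PowForm (m j) (P2 j) → ¬ PowForm (m j) (lead (ℓ p) (P2 j)) := by
        intro p j hj hlead
        obtain ⟨ex, g, hg, hpos⟩ := gp_lead (hm1 j) (P2 j) (ℓ p) hj hlead
        have h1 : Tendsto (fun t => gp (m j) (P2 j) g ex ((Nn t)⁻¹ • lv D2 𝒰 d2.w p t))
            (𝒰 : Filter ℕ) (nhds (gp (m j) (P2 j) g ex (ℓ p))) :=
          ((gp_cont (m j) (P2 j) g ex).tendsto _).comp (hℓ p)
        have h2 : gp (m j) (P2 j) g ex (ℓ p) ≤ gp (m j) (P2 j) g ex (ℓ p) / 2 := by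
          refine le_of_tendsto h1 ?_
          filter_upwards [hgp j hj ex g hg (gp (m j) (P2 j) g ex (ℓ p) / 2) (by linarith)]
            with t ht
          have hNp : 0 < Nn t := lt_of_lt_of_le one_pos (hN1 t)
          have h5 := gp_smul (m j) (P2 j) g ex (Nn t)⁻¹ (lv D2 𝒰 d2.w p t) (inv_pos.2 hNp).le
          have h6 : (Nn t)⁻¹ * gp (m j) (P2 j) g ex (lv D2 𝒰 d2.w p t) ≤
              gp (m j) (P2 j) g ex (ℓ p) / 2 := by
            rw [inv_mul_le_iff₀ hNp, mul_comm]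
            exact ht p
          exact h5.le.trans h6
        linarith
      have hePos : (0 : ℝ) < e := by exact_mod_cast (by omega : 0 < e)
      apply hno
      refine ⟨d.r, d.a, fun i => ψ1 (d.c i), κ', fun v => (cc v * e) • ℓ (χ v), Nn, C, d.hspan,
        fun i => (map_ne_zero ψ1).2 (d.hc i), ?_, ?_, ?_, hℓ0, hC, hN1, hNt, hℓa, hCN⟩
      · intro j
        have h1 := goodShift_map ψ1 (hκ₀ j)
        rw [map_fm, hτ1] at h1
        exact h1
      · push Not at hall
        obtain ⟨j, hj⟩ := hall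
        refine ⟨j, fun h => hj ?_⟩
        rw [← hP1c] at h
        have h1 := hdown j 0 (by rw [lead_zero]; exact h)
        rwa [lead_zero] at h1
      · intro v j hj hlead
        rw [← hP1c] at hj hlead
        rw [lead_smul _ (mul_pos (hcc v) hePos)] at hlead
        refine hbad (χ v) j (fun h => hj ?_) (hdown j _ hlead)
        rw [← hP2c]
        exact h.map ψ2

end Pool.Agent.H434
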