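import Mathlib

/-!
Two lemmas on bounded holomorphic functions: functions with many zeros are small, and smallness
propagates.
-/

set_option autoImplicit false

open Metric Set Filter Topology

namespace Pool.Agent.H434.Disc

/-- functions with many zeros are small -/
theorem many_zeros {t : ℂ} {ρ : ℝ} (hρ : 0 < ρ) (W : Finset ℂ) :
    ∀ (g : ℂ → ℂ) (B : ℝ), DifferentiableOn ℂ g (ball t ρ) → (∀ z ∈ ball t ρ, ‖g z‖ ≤ B) →
      (∀ w ∈ W, w ∈ ball t (ρ / 8) ∧ g w = 0) → ∀ z ∈ ball t (ρ / 4), ‖g z‖ ≤ B * (3 / 7) ^ W.card := by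
  classical
  induction W using Finset.induction_on with
  | empty =>
    intro g B _ hB _ z hz
    rw [Finset.card_empty, pow_zero, mul_one]
    refine hB z (ball_subset_ball (by linarith) hz)
  | insert w W hw ih =>
    intro g B hg hB hz0 z hz
    obtain ⟨hwt, hgw⟩ := hz0 w (Finset.mem_insert_self _ _)
    have hwρ : w ∈ ball t ρ := ball_subset_ball (by linarith) hwt
    have hd : DifferentiableOn ℂ (dslope g w) (ball t ρ) :=
      (Complex.differentiableOn_dslope (isOpen_ball.mem_nhds hwρ)).2 hg
    have hsub : ball w (7 * ρ / 8) ⊆ ball t ρ := by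
      intro y hy
      rw [mem_ball] at hy hwt ⊢
      have := dist_triangle y w t
      linarith
    have hb : ∀ y ∈ ball t ρ, ‖dslope g w y‖ ≤ B / (7 * ρ / 8) := by
      intro y hy
      by_cases hyw : y ∈ ball w (7 * ρ / 8)
      · refine Complex.norm_dslope_le_div_of_mapsTo_ball (hg.mono hsub) ?_ hyw
        intro u hu
        rw [hgw, mem_closedBall_zero_iff]
        exact hB u (hsub hu)
      · rw [mem_ball, not_lt] at hyw
        have hne : y ≠ w := by
          rintro rfl
          rw [dist_self] at hyw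
          linarith
        rw [dslope_of_ne _ hne, slope_def_field, hgw, sub_zero, norm_div, ← dist_eq_norm]
        have h1 : 0 ≤ B := (norm_nonneg _).trans (hB y hy)
        exact div_le_div₀ h1 (hB y hy) (by positivity) hyw
    have h0 := ih (dslope g w) (B / (7 * ρ / 8)) hd hb (fun u hu => by
      obtain ⟨h1, h2⟩ := hz0 u (Finset.mem_insert_of_mem hu)
      refine ⟨h1, ?_⟩
      have hne : u ≠ w := by
        rintro rfl
        exact hw hu
      rw [dslope_of_ne _ hne, slope_def_field, hgw, h2]
      simp) z hz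
    rw [Finset.card_insert_of_notMem hw]
    have h1 : g z = (z - w) * dslope g w z := by
      have h2 := sub_smul_dslope g w z
      rw [hgw, sub_zero, smul_eq_mul] at h2
      exact h2.symm
    rw [h1, norm_mul]
    have h2 : ‖z - w‖ ≤ 3 * ρ / 8 := by
      rw [mem_ball] at hz hwt
      have := dist_triangle z t w
      rw [dist_comm t w, dist_eq_norm z w] at this
      linarith
    have h3 : 0 ≤ B := (norm_nonneg _).trans (hB w hwρ)
    calc ‖z - w‖ * ‖dslope g w z‖ ≤ (3 * ρ / 8) * (B / (7 * ρ / 8) * (3 / 7) ^ W.card) :=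
          mul_le_mul h2 h0 (norm_nonneg _) (by positivity)
      _ = B * (3 / 7) ^ (W.card + 1) := by
          rw [pow_succ]
          field_simp

/-- smallness propagates (Hadamard) -/
theorem propagate {t : ℂ} {ρ : ℝ} (hρ : 0 < ρ) {g : ℂ → ℂ} {B τ : ℝ} (hτ : 0 ≤ τ)
    (hg : DifferentiableOn ℂ g (ball t ρ)) (hB : ∀ z ∈ ball t ρ, ‖g z‖ ≤ B)
    (hs : ∀ z ∈ ball t (ρ / 8), ‖g z‖ ≤ B * Real.exp (-τ)) :
    ∀ z ∈ ball t (ρ / 4), ‖g z‖ ≤ B * Real.exp (-(τ / 3)) := by
  intro z hz
  have hzρ : z ∈ ball t ρ := ball_subset_ball (by linarith) hz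
  have hB0 : 0 ≤ B := (norm_nonneg _).trans (hB z hzρ)
  rcases hB0.eq_or_lt with hB1 | hB1
  · have h1 := hB z hzρ
    rw [← hB1, zero_mul]
    rwa [← hB1] at h1
  by_cases hz16 : ‖z - t‖ ≤ ρ / 16
  · have h1 := hs z (by rw [mem_ball, dist_eq_norm]; linarith)
    refine h1.trans (mul_le_mul_of_nonneg_left (Real.exp_le_exp.2 (by linarith)) hB0)
  rw [not_le] at hz16
  have hl8 : 0 < Real.log 8 := Real.log_pos (by norm_num)
  let c : ℂ → ℂ := fun s => t + (ρ / 16 : ℝ) * Complex.exp (s * (Real.log 8 : ℝ))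
  have hcn : ∀ s, ‖c s - t‖ = ρ / 16 * Real.exp (s.re * Real.log 8) := by
    intro s
    simp only [c]
    rw [add_sub_cancel_left, norm_mul, Complex.norm_real, Real.norm_of_nonneg (by positivity),
      Complex.norm_exp, Complex.re_mul_ofReal]
  have hc0 : ∀ s : ℂ, s.re ≤ 0 → ‖c s - t‖ ≤ ρ / 16 := by
    intro s hs
    rw [hcn]
    have : Real.exp (s.re * Real.log 8) ≤ 1 := by
      rw [Real.exp_le_one_iff]
      exact mul_nonpos_of_nonpos_of_nonneg hs hl8.le
    nlinarith
  have hc1 : ∀ s : ℂ, s.re ≤ 1 → ‖c s - t‖ ≤ ρ / 2 := by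
    intro s hs
    rw [hcn]
    have h1 : Real.exp (s.re * Real.log 8) ≤ 8 := by
      calc Real.exp (s.re * Real.log 8) ≤ Real.exp (Real.log 8) := by
            apply Real.exp_le_exp.2
            nlinarith
        _ = 8 := Real.exp_log (by norm_num)
    nlinarith
  have hcd : Differentiable ℂ c := by
    intro s
    simp only [c]
    fun_prop
  let w : ℂ := (z - t) / (ρ / 16 : ℝ)
  have hρc : ((ρ / 16 : ℝ) : ℂ) ≠ 0 := by
    rw [Ne, Complex.ofReal_eq_zero]
    positivity
  have hzt : z - t ≠ 0 := by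
    intro h
    rw [h, norm_zero] at hz16
    linarith
  have hw0 : w ≠ 0 := div_ne_zero hzt hρc
  let s : ℂ := Complex.log w / (Real.log 8 : ℝ)
  have hl8c : ((Real.log 8 : ℝ) : ℂ) ≠ 0 := by
    rw [Ne, Complex.ofReal_eq_zero]
    exact hl8.ne'
  have hcs : c s = z := by
    simp only [c, s]
    rw [div_mul_cancel₀ _ hl8c, Complex.exp_log hw0]
    simp only [w]
    rw [mul_div_cancel₀ _ hρc]
    ring
  have hsn := hcn s
  rw [hcs] at hsn
  have hs1 : 0 ≤ s.re := by
    by_contra h
    rw [not_le] at h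
    have h1 := hc0 s h.le
    rw [hcs] at h1
    linarith
  have hs2 : s.re ≤ 2 / 3 := by
    by_contra h
    rw [not_le] at h
    have h1 : Real.exp (s.re * Real.log 8) > 4 := by
      have h2 : Real.log 8 = 3 * Real.log 2 := by
        rw [show (8 : ℝ) = 2 ^ 3 by norm_num, Real.log_pow]
        norm_num
      have h3 : (4 : ℝ) = Real.exp (2 * Real.log 2) := by
        rw [mul_comm, Real.exp_mul, Real.exp_log (by norm_num)]
        norm_num
      rw [h3, h2]
      apply Real.exp_lt_exp.2
      have h4 : 0 < Real.log 2 := Real.log_pos (by norm_num)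
      nlinarith
    rw [mem_ball, dist_eq_norm] at hz
    nlinarith
  have h8 := Complex.HadamardThreeLines.norm_le_interp_of_mem_verticalClosedStrip₀₁' (fun s => g (c s))
    (z := s) (a := B * Real.exp (-τ)) (b := B) ⟨hs1, by linarith⟩ (by
      have h9 : DifferentiableOn ℂ (fun s => g (c s)) (c ⁻¹' ball t ρ) :=
        hg.comp hcd.differentiableOn (fun _ h => h)
      have h10 : closure (Complex.HadamardThreeLines.verticalStrip 0 1) ⊆ c ⁻¹' ball t ρ := by
        intro s hs
        have h11 : closure (Complex.HadamardThreeLines.verticalStrip 0 1) ⊆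
            Complex.re ⁻¹' Icc 0 1 := by
          apply closure_minimal
          · exact preimage_mono Ioo_subset_Icc_self
          · exact isClosed_Icc.preimage Complex.continuous_re
        have h12 := (h11 hs).2
        show c s ∈ ball t ρ
        rw [mem_ball, dist_eq_norm]
        have := hc1 s h12
        linarith
      exact ((h9.mono h10)).diffContOnCl) (by
      refine ⟨B, ?_⟩
      rintro _ ⟨s', hs', rfl⟩
      apply hB
      rw [mem_ball, dist_eq_norm]
      have := hc1 s' hs'.2
      linarith) (by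
      intro s' hs'
      apply hs
      rw [mem_ball, dist_eq_norm]
      have h11 : s'.re = 0 := hs'
      have := hc0 s' h11.le
      linarith) (by
      intro s' hs'
      apply hB
      rw [mem_ball, dist_eq_norm]
      have h11 : s'.re = 1 := hs'
      have := hc1 s' h11.le
      linarith)
  simp only [hcs] at h8
  refine h8.trans ?_
  rw [Real.mul_rpow hB0 (Real.exp_nonneg _), mul_right_comm, ← Real.rpow_add hB1, sub_add_cancel,
    Real.rpow_one, ← Real.exp_mul]
  refine mul_le_mul_of_nonneg_left (Real.exp_le_exp.2 ?_) hB0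
  nlinarith

end Pool.Agent.H434.Disc
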