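import Mathlib
import Pool.Agent.H434.D5
import Pool.Agent.H434.J1

/-!
Forms with many zeros on a disc in a hyperbolic variety are small on this disc.
-/

set_option autoImplicit false

open Metric Set Filter Topology
open scoped LinearAlgebra.Projectivization

namespace Pool.Agent.H434.Disc

variable {N : ℕ}

/-- the chart lemma for discs -/
theorem disc_chart {F : Set (MvPolynomial (Fin (N + 1)) ℂ)}
    (hF : ∀ G ∈ F, ∃ e, G.IsHomogeneous e)
    (hX : ∀ g : ℂ → ℙ ℂ (Fin (N + 1) → ℂ), Holo univ g → (∀ t, g t ∈ Zeros F) → ∀ t, g t = g 0) :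
    ∃ δ A : ℝ, 0 < δ ∧ δ ≤ 1 ∧ 1 ≤ A ∧ ∀ φ : ℂ → ℙ ℂ (Fin (N + 1) → ℂ),
      Holo (ball 0 1) φ → (∀ z ∈ ball (0 : ℂ) 1, φ z ∈ Zeros F) →
      ∃ i : Fin (N + 1), ∀ z ∈ ball (0 : ℂ) δ, (φ z).rep i ≠ 0 ∧
        (∀ j, ‖(φ z).rep j / (φ z).rep i‖ ≤ A) ∧
        ∀ j, AnalyticAt ℂ (fun z => (φ z).rep j / (φ z).rep i) z := by
  obtain ⟨δ, A, hδ, hδ1, hA, h⟩ := chart_lemma hF hX
  refine ⟨δ, A, hδ, hδ1, hA, fun φ hφ hφF => ?_⟩
  have hn : ∀ {ε : ℝ} {z : Fin 1 → ℂ}, z ∈ ball (0 : Fin 1 → ℂ) ε → z 0 ∈ ball (0 : ℂ) ε := by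
    intro ε z hz
    rw [mem_ball_zero_iff] at hz ⊢
    exact (norm_le_pi_norm z 0).trans_lt hz
  have hn' : ∀ {ε : ℝ} {z : ℂ}, 0 < ε → z ∈ ball (0 : ℂ) ε →
      (fun _ => z : Fin 1 → ℂ) ∈ ball (0 : Fin 1 → ℂ) ε := by
    intro ε z hε hz
    rw [mem_ball_zero_iff] at hz ⊢
    rw [pi_norm_lt_iff hε]
    exact fun _ => hz
  obtain ⟨i, hi⟩ := h 1 (fun z => φ (z 0)) (by
    intro z hz
    obtain ⟨W, g, hW, hzW, hg, hgf⟩ := hφ (z 0) (hn hz)
    refine ⟨(fun z : Fin 1 → ℂ => z 0) ⁻¹' W, fun z => g (z 0), hW.preimage (by fun_prop), hzW, ?_,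
      fun w hw => hgf _ hw⟩
    intro w hw
    have h1 : AnalyticAt ℂ (fun z : Fin 1 → ℂ => z 0) w :=
      (ContinuousLinearMap.proj (R := ℂ) (φ := fun _ : Fin 1 => ℂ) 0).analyticAt w
    exact AnalyticAt.comp (f := fun z : Fin 1 → ℂ => z 0) (hg _ hw) h1) (fun z hz => hφF _ (hn hz))
  refine ⟨i, fun z hz => ?_⟩
  obtain ⟨h1, h2, h3⟩ := hi (fun _ => z) (hn' hδ hz)
  refine ⟨h1, h2, fun j => ?_⟩
  have h4 : AnalyticAt ℂ (fun z : ℂ => (fun _ => z : Fin 1 → ℂ)) z := by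
    rw [analyticAt_pi_iff]
    intro _
    exact analyticAt_id
  exact AnalyticAt.comp (f := fun z : ℂ => (fun _ => z : Fin 1 → ℂ)) (h3 j) h4

theorem Holo.affC {φ : ℂ → ℙ ℂ (Fin (N + 1) → ℂ)} {U U' : Set ℂ}
    (hf : Holo U φ) (t : ℂ) (ρ : ℂ) (hU : ∀ z ∈ U', t + ρ * z ∈ U) :
    Holo U' (fun z => φ (t + ρ * z)) := by
  intro z hz
  obtain ⟨W, g, hW, hzW, hg, hgf⟩ := hf _ (hU z hz)
  have hcont : Continuous fun z : ℂ => t + ρ * z := by fun_prop
  have han : ∀ z, AnalyticAt ℂ (fun z : ℂ => t + ρ * z) z := by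
    intro z
    exact analyticAt_const.add (analyticAt_const.mul analyticAt_id)
  refine ⟨(fun z => t + ρ * z) ⁻¹' W, fun z => g (t + ρ * z), hW.preimage hcont, hzW, ?_,
    fun w hw => hgf _ hw⟩
  intro w hw
  exact AnalyticAt.comp (f := fun z : ℂ => t + ρ * z) (hg _ hw) (han w)

/-- charts around all points of a smaller disc -/
theorem disc_charts {F : Set (MvPolynomial (Fin (N + 1)) ℂ)}
    (hF : ∀ G ∈ F, ∃ e, G.IsHomogeneous e)
    (hX : ∀ g : ℂ → ℙ ℂ (Fin (N + 1) → ℂ), Holo univ g → (∀ t, g t ∈ Zeros F) → ∀ t, g t = g 0)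
    {r : ℝ} (hr : r < 1) :
    ∃ ρ A : ℝ, 0 < ρ ∧ 1 ≤ A ∧ ∀ φ : ℂ → ℙ ℂ (Fin (N + 1) → ℂ),
      Holo (ball 0 1) φ → (∀ z ∈ ball (0 : ℂ) 1, φ z ∈ Zeros F) → ∀ t ∈ closedBall (0 : ℂ) r,
      ∃ i : Fin (N + 1), ∀ z ∈ ball t ρ, (φ z).rep i ≠ 0 ∧
        (∀ j, ‖(φ z).rep j / (φ z).rep i‖ ≤ A) ∧
        ∀ j, AnalyticAt ℂ (fun z => (φ z).rep j / (φ z).rep i) z := by
  obtain ⟨δ, A, hδ, hδ1, hA, h⟩ := disc_chart hF hX
  have hr1 : 0 < 1 - r := by linarith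
  refine ⟨(1 - r) * δ, A, by positivity, hA, fun φ hφ hφF t ht => ?_⟩
  rw [mem_closedBall_zero_iff] at ht
  have hsub : ∀ z ∈ ball (0 : ℂ) 1, t + ((1 - r : ℝ) : ℂ) * z ∈ ball (0 : ℂ) 1 := by
    intro z hz
    rw [mem_ball_zero_iff] at hz ⊢
    calc ‖t + ((1 - r : ℝ) : ℂ) * z‖ ≤ ‖t‖ + ‖((1 - r : ℝ) : ℂ) * z‖ := norm_add_le _ _
      _ = ‖t‖ + (1 - r) * ‖z‖ := by rw [norm_mul, Complex.norm_real, Real.norm_of_nonneg hr1.le]
      _ < 1 := by nlinarith [norm_nonneg z]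
  obtain ⟨i, hi⟩ := h (fun z => φ (t + ((1 - r : ℝ) : ℂ) * z)) (hφ.affC t _ hsub)
    (fun z hz => hφF _ (hsub z hz))
  refine ⟨i, fun y hy => ?_⟩
  have hrc : ((1 - r : ℝ) : ℂ) ≠ 0 := by
    rw [Ne, Complex.ofReal_eq_zero]
    exact hr1.ne'
  let z : ℂ := (y - t) / ((1 - r : ℝ) : ℂ)
  have hz : z ∈ ball (0 : ℂ) δ := by
    rw [mem_ball_zero_iff]
    simp only [z]
    rw [norm_div, Complex.norm_real, Real.norm_of_nonneg hr1.le, div_lt_iff₀ hr1, ← dist_eq_norm,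
      mul_comm]
    exact hy
  have hzy : t + ((1 - r : ℝ) : ℂ) * z = y := by
    simp only [z]
    rw [mul_div_cancel₀ _ hrc]
    ring
  obtain ⟨h1, h2, h3⟩ := hi z hz
  simp only [hzy] at h1 h2
  refine ⟨h1, h2, fun j => ?_⟩
  have h4 : AnalyticAt ℂ (fun y : ℂ => (y - t) / ((1 - r : ℝ) : ℂ)) y :=
    (analyticAt_id.sub analyticAt_const).div analyticAt_const hrc
  have h5 := AnalyticAt.comp (f := fun y : ℂ => (y - t) / ((1 - r : ℝ) : ℂ)) (h3 j) h4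
  refine h5.congr (Eventually.of_forall fun y' => ?_)
  show (φ (t + ((1 - r : ℝ) : ℂ) * ((y' - t) / ((1 - r : ℝ) : ℂ)))).rep j /
    (φ (t + ((1 - r : ℝ) : ℂ) * ((y' - t) / ((1 - r : ℝ) : ℂ)))).rep i = _
  rw [mul_div_cancel₀ _ hrc, add_sub_cancel]

/-- **The key lemma**: forms with many zeros on a disc in a hyperbolic variety are small. -/
theorem key {F : Set (MvPolynomial (Fin (N + 1)) ℂ)}
    (hF : ∀ G ∈ F, ∃ e, G.IsHomogeneous e)
    (hX : ∀ g : ℂ → ℙ ℂ (Fin (N + 1) → ℂ), Holo univ g → (∀ t, g t ∈ Zeros F) → ∀ t, g t = g 0)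
    {r : ℝ} (hr : r < 1) :
    ∃ C c : ℝ, 1 ≤ C ∧ 0 < c ∧ ∀ φ : ℂ → ℙ ℂ (Fin (N + 1) → ℂ),
      Holo (ball 0 1) φ → (∀ z ∈ ball (0 : ℂ) 1, φ z ∈ Zeros F) →
      ∀ (d : ℕ) (G : (Fin (N + 1) → ℂ) → ℂ), Differentiable ℂ G →
        (∀ (a : ℂ) (u : Fin (N + 1) → ℂ), G (a • u) = a ^ d * G u) →
        ∀ B : ℝ, 0 ≤ B → (∀ u, ‖G u‖ ≤ B * ‖u‖ ^ d) → ∀ W : Finset ℂ,
        (∀ w ∈ W, ‖w‖ ≤ r ∧ G (φ w).rep = 0) → ∀ z : ℂ, ‖z‖ ≤ r →
        ‖G (φ z).rep‖ ≤ B * C ^ d * Real.exp (-(c * W.card)) * ‖(φ z).rep‖ ^ d := by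
  classical
  rcases lt_or_ge r 0 with hr0 | hr0
  · exact ⟨1, 1, le_rfl, one_pos, fun _ _ _ _ _ _ _ _ _ _ _ _ z hz =>
      absurd ((norm_nonneg z).trans hz) (not_le.2 hr0)⟩
  obtain ⟨ρ, A, hρ, hA, hch⟩ := disc_charts hF hX hr
  obtain ⟨T, hTs, hTfin, hTc⟩ := (isCompact_closedBall (0 : ℂ) r).finite_cover_balls
    (e := ρ / 8) (by positivity)
  let T' : Finset ℂ := hTfin.toFinset
  have hT'n : T'.Nonempty := by
    have h1 := hTc (mem_closedBall_self hr0)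
    simp only [mem_iUnion] at h1
    obtain ⟨t, ht, _⟩ := h1
    exact ⟨t, hTfin.mem_toFinset.2 ht⟩
  have hT'c : (0 : ℝ) < T'.card := by exact_mod_cast hT'n.card_pos
  obtain ⟨K, hK⟩ := exists_nat_gt (16 * r / ρ)
  have hK0 : (0 : ℝ) < K := lt_of_le_of_lt (by positivity) hK
  have hl : 0 < Real.log (7 / 3) := Real.log_pos (by norm_num)
  refine ⟨A ^ (K + 1), Real.log (7 / 3) / (T'.card * 3 ^ K), one_le_pow₀ hA, by positivity, ?_⟩
  intro φ hφ hφF d G hGd hGh B hB hGB W hW z hz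
  have hA0 : 0 < A := by linarith
  -- the functions in the charts
  have hloc : ∀ t ∈ closedBall (0 : ℂ) r, ∃ g : ℂ → ℂ, DifferentiableOn ℂ g (ball t ρ) ∧
      (∀ y ∈ ball t ρ, ∀ E : ℝ, 0 ≤ E → ‖G (φ y).rep‖ ≤ E * ‖(φ y).rep‖ ^ d → ‖g y‖ ≤ E * A ^ d) ∧
      (∀ y ∈ ball t ρ, ∀ E : ℝ, 0 ≤ E → ‖g y‖ ≤ E → ‖G (φ y).rep‖ ≤ E * ‖(φ y).rep‖ ^ d) ∧
      (∀ y ∈ ball t ρ, G (φ y).rep = 0 → g y = 0) := by
    intro t ht
    obtain ⟨i, hi⟩ := hch φ hφ hφF t ht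
    have hG : ∀ y ∈ ball t ρ, G (φ y).rep =
        (φ y).rep i ^ d * G (fun j => (φ y).rep j / (φ y).rep i) := by
      intro y hy
      rw [← hGh]
      congr 1
      funext j
      rw [Pi.smul_apply, smul_eq_mul, mul_div_cancel₀ _ (hi y hy).1]
    refine ⟨fun y => G (fun j => (φ y).rep j / (φ y).rep i), ?_, ?_, ?_, ?_⟩
    · intro y hy
      refine DifferentiableAt.differentiableWithinAt ?_
      have h1 : DifferentiableAt ℂ (fun y => fun j => (φ y).rep j / (φ y).rep i) y := by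
        rw [differentiableAt_pi]
        intro j
        exact ((hi y hy).2.2 j).differentiableAt
      exact DifferentiableAt.comp y (hGd _) h1
    · intro y hy E hE h1
      rw [hG y hy, norm_mul, norm_pow] at h1
      have h2 : 0 < ‖(φ y).rep i‖ := norm_pos_iff.2 (hi y hy).1
      have h3 : ‖(φ y).rep‖ ≤ A * ‖(φ y).rep i‖ := by
        rw [pi_norm_le_iff_of_nonneg (by positivity)]
        intro j
        have h4 := (hi y hy).2.1 j
        rwa [norm_div, div_le_iff₀ h2] at h4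
      have h4 : E * ‖(φ y).rep‖ ^ d ≤ E * (A * ‖(φ y).rep i‖) ^ d :=
        mul_le_mul_of_nonneg_left (pow_le_pow_left₀ (norm_nonneg _) h3 _) hE
      have h5 : ‖(φ y).rep i‖ ^ d * ‖G (fun j => (φ y).rep j / (φ y).rep i)‖ ≤
          ‖(φ y).rep i‖ ^ d * (E * A ^ d) := by
        refine (h1.trans h4).trans (le_of_eq ?_)
        rw [mul_pow]
        ring
      exact le_of_mul_le_mul_left h5 (pow_pos h2 d)
    · intro y hy E hE h1
      rw [hG y hy, norm_mul, norm_pow, mul_comm]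
      exact mul_le_mul h1 (pow_le_pow_left₀ (norm_nonneg _) (norm_le_pi_norm _ i) _)
        (by positivity) hE
    · intro y hy h1
      rw [hG y hy] at h1
      rcases mul_eq_zero.1 h1 with h2 | h2
      · exact absurd h2 (pow_ne_zero d (hi y hy).1)
      · exact h2
  have hglob : ∀ t ∈ closedBall (0 : ℂ) r, ∀ g : ℂ → ℂ,
      (∀ y ∈ ball t ρ, ∀ E : ℝ, 0 ≤ E → ‖G (φ y).rep‖ ≤ E * ‖(φ y).rep‖ ^ d → ‖g y‖ ≤ E * A ^ d) →
      ∀ y ∈ ball t ρ, ‖g y‖ ≤ B * A ^ d := fun t _ g hg y hy => hg y hy B hB (hGB _)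
  -- one step
  have hstep : ∀ t ∈ closedBall (0 : ℂ) r, ∀ t' ∈ closedBall (0 : ℂ) r, dist t' t ≤ ρ / 8 →
      ∀ (n : ℕ) (τ : ℝ), 0 ≤ τ → (∀ y ∈ ball t (ρ / 4), ‖G (φ y).rep‖ ≤
        B * (A ^ n) ^ d * Real.exp (-τ) * ‖(φ y).rep‖ ^ d) →
      ∀ y ∈ ball t' (ρ / 4), ‖G (φ y).rep‖ ≤
        B * (A ^ (n + 1)) ^ d * Real.exp (-(τ / 3)) * ‖(φ y).rep‖ ^ d := by
    intro t ht t' ht' htt n τ hτ hE y hy
    obtain ⟨g, hg1, hg2, hg3, _⟩ := hloc t' ht'
    have hAn : (1 : ℝ) ≤ (A ^ n) ^ d := one_le_pow₀ (one_le_pow₀ hA)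
    have h1 := propagate hρ (B := B * (A ^ (n + 1)) ^ d) hτ hg1 (fun y hy => by
      refine (hglob t' ht' g hg2 y hy).trans (mul_le_mul_of_nonneg_left ?_ hB)
      rw [pow_succ, mul_pow]
      have h2 : 0 ≤ A ^ d := by positivity
      nlinarith) (fun y hy => by
      have hyρ : y ∈ ball t' ρ := ball_subset_ball (by linarith) hy
      have hyt : y ∈ ball t (ρ / 4) := by
        rw [mem_ball] at hy ⊢
        have := dist_triangle y t' t
        linarith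
      have h3 := hg2 y hyρ _ (by positivity) (hE y hyt)
      refine h3.trans (le_of_eq ?_)
      rw [pow_succ, mul_pow]
      ring) y hy
    exact hg3 y (ball_subset_ball (by linarith) hy) _ (by positivity) h1
  -- the start
  have hstart : ∃ t ∈ closedBall (0 : ℂ) r, ∀ y ∈ ball t (ρ / 4), ‖G (φ y).rep‖ ≤
      B * (A ^ 1) ^ d * Real.exp (-(Real.log (7 / 3) * W.card / T'.card)) * ‖(φ y).rep‖ ^ d := by
    have hcov : ∀ w ∈ W, ∃ t ∈ T', w ∈ ball t (ρ / 8) := by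
      intro w hw
      have h1 := hTc (mem_closedBall_zero_iff.2 (hW w hw).1)
      simp only [mem_iUnion] at h1
      obtain ⟨t, ht, hwt⟩ := h1
      exact ⟨t, hTfin.mem_toFinset.2 ht, hwt⟩
    choose! τ hτ1 hτ2 using hcov
    obtain ⟨t, ht, htc⟩ := Finset.exists_le_card_fiber_of_nsmul_le_card_of_maps_to
      (f := τ) (s := W) (t := T') (b := (W.card : ℝ) / T'.card) hτ1 hT'n (by
        rw [nsmul_eq_mul, mul_div_cancel₀ _ hT'c.ne'])
    have ht' : t ∈ closedBall (0 : ℂ) r := hTs (hTfin.mem_toFinset.1 ht)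
    refine ⟨t, ht', fun y hy => ?_⟩
    obtain ⟨g, hg1, hg2, hg3, hg4⟩ := hloc t ht'
    have h1 := many_zeros hρ (W.filter fun w => τ w = t) g (B * A ^ d) hg1 (hglob t ht' g hg2)
      (fun w hw => by
        obtain ⟨h2, h3⟩ := Finset.mem_filter.1 hw
        have h4 : w ∈ ball t (ρ / 8) := by
          rw [← h3]
          exact hτ2 w h2
        exact ⟨h4, hg4 w (ball_subset_ball (by linarith) h4) (hW w h2).2⟩) y hy
    refine hg3 y (ball_subset_ball (by linarith) hy) _ (by positivity) (h1.trans ?_)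
    rw [pow_one]
    refine mul_le_mul_of_nonneg_left ?_ (by positivity)
    have h2 : (3 / 7 : ℝ) = Real.exp (-Real.log (7 / 3)) := by
      rw [Real.exp_neg, Real.exp_log (by norm_num)]
      norm_num
    rw [h2, ← Real.exp_nat_mul]
    apply Real.exp_le_exp.2
    have h3 : Real.log (7 / 3) * W.card / T'.card = Real.log (7 / 3) * (W.card / T'.card) := by ring
    rw [h3]
    have h4 := mul_le_mul_of_nonneg_left htc hl.le
    linarith
  obtain ⟨t, ht, hE⟩ := hstart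
  -- the chain
  have hchain : ∀ n : ℕ, n ≤ K → ∀ y ∈ ball (t + (n / K : ℝ) * (z - t)) (ρ / 4),
      ‖G (φ y).rep‖ ≤ B * (A ^ (n + 1)) ^ d *
        Real.exp (-(Real.log (7 / 3) * W.card / T'.card / 3 ^ n)) * ‖(φ y).rep‖ ^ d := by
    have hmem : ∀ n : ℕ, n ≤ K → t + ((n / K : ℝ) : ℂ) * (z - t) ∈ closedBall (0 : ℂ) r := by
      intro n hn
      have h1 : (n / K : ℝ) ≤ 1 := by
        rw [div_le_one hK0]
        exact_mod_cast hn
      have h2 : 0 ≤ (n / K : ℝ) := by positivity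
      have h3 := (convex_closedBall (0 : ℂ) r) ht (mem_closedBall_zero_iff.2 hz)
        (by linarith : (0 : ℝ) ≤ 1 - n / K) h2 (by ring)
      have h4 : (1 - (n / K : ℝ)) • t + (n / K : ℝ) • z = t + ((n / K : ℝ) : ℂ) * (z - t) := by
        rw [Complex.real_smul, Complex.real_smul]
        push_cast
        ring
      rwa [h4] at h3
    intro n
    induction n with
    | zero =>
      intro _ y hy
      have h1 : t + (((0 : ℕ) : ℝ) / K : ℝ) * (z - t) = t := by simp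
      rw [h1] at hy
      have h2 := hE y hy
      rwa [pow_zero, div_one, zero_add]
    | succ n ih =>
      intro hn
      have h1 := hstep _ (hmem n (by omega)) _ (hmem (n + 1) hn) (by
        rw [dist_eq_norm]
        have h2 : t + (((n + 1 : ℕ) : ℝ) / K : ℝ) * (z - t) - (t + ((n / K : ℝ) : ℂ) * (z - t)) =
            ((1 / K : ℝ) : ℂ) * (z - t) := by
          push_cast
          ring
        rw [h2, norm_mul, Complex.norm_real, Real.norm_of_nonneg (by positivity)]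
        have h3 : ‖z - t‖ ≤ 2 * r := by
          have h4 := norm_sub_le z t
          rw [mem_closedBall_zero_iff] at ht
          linarith
        rw [div_mul_eq_mul_div, one_mul, div_le_iff₀ hK0]
        rw [div_lt_iff₀ hρ] at hK
        nlinarith) (n + 1) _ (by positivity) (ih (by omega))
      intro y hy
      have h2 := h1 y hy
      have h3 : Real.log (7 / 3) * W.card / T'.card / 3 ^ n / 3 =
          Real.log (7 / 3) * W.card / T'.card / 3 ^ (n + 1) := by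
        rw [pow_succ]
        field_simp
      rwa [h3] at h2
  have h1 := hchain K le_rfl z (by
    rw [div_self hK0.ne']
    push_cast
    rw [one_mul, add_sub_cancel]
    exact mem_ball_self (by positivity))
  refine h1.trans (le_of_eq ?_)
  congr 3
  field_simp

end Pool.Agent.H434.Disc
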