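import Mathlib
import Pool.Agent.H434.D3
import Pool.Agent.H434.J2

/-!
Interpolation determinants of points which are, locally, on holomorphic discs in a hyperbolic variety.
-/

set_option autoImplicit false

open Metric Set Filter Topology Finset MvPolynomial
open Height Height.AdmissibleAbsValues
open scoped LinearAlgebra.Projectivization

namespace Pool.Agent.H434.Disc

/-- the first members of a sequence of vectors which are independent of the earlier ones -/
theorem greedy {L : Type} [Field L] {D : ℕ} (v : ℕ → Fin D → L) (n : ℕ)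
    (hspan : Submodule.span L (v '' {k | n ≤ k}) = ⊤) :
    ∃ k : Fin D → ℕ, StrictMono k ∧ (∀ j, n ≤ k j) ∧ LinearIndependent L (fun j => v (k j)) ∧
      ∀ j k', n ≤ k' → k' < k j → v k' ∈ Submodule.span L ((fun i => v (k i)) '' {i | i < j}) := by
  classical
  have main : ∀ D' : ℕ, D' ≤ D → ∃ k : Fin D' → ℕ, StrictMono k ∧ (∀ j, n ≤ k j) ∧
      LinearIndependent L (fun j => v (k j)) ∧ ∀ j k', n ≤ k' → k' < k j →
        v k' ∈ Submodule.span L ((fun i => v (k i)) '' {i | i < j}) := by
    intro D'
    induction D' with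
    | zero =>
      intro _
      exact ⟨fun j => j.elim0, fun j => j.elim0, fun j => j.elim0, linearIndependent_empty_type,
        fun j => j.elim0⟩
    | succ D' ih =>
      intro hD
      obtain ⟨k, h1, h2, h3, h4⟩ := ih (by omega)
      let S : Submodule L (Fin D → L) := Submodule.span L (Set.range fun j => v (k j))
      have hS : S ≠ ⊤ := by
        intro hS
        have h5 := finrank_span_eq_card h3
        have h6 : Module.finrank L S = D := by
          rw [hS, finrank_top, Module.finrank_fintype_fun_eq_card, Fintype.card_fin]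
        rw [Fintype.card_fin] at h5
        change Module.finrank L S = D' at h5
        omega
      have hex : ∃ q, n ≤ q ∧ v q ∉ S := by
        by_contra hcon
        push Not at hcon
        apply hS
        rw [eq_top_iff, ← hspan]
        refine Submodule.span_le.2 ?_
        rintro _ ⟨q, hq, rfl⟩
        exact hcon q hq
      let q := Nat.find hex
      obtain ⟨hq1, hq2⟩ := Nat.find_spec hex
      have hmin : ∀ k', n ≤ k' → k' < q → v k' ∈ S := by
        intro k' hk hk'
        have h5 := Nat.find_min hex hk'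
        push Not at h5
        exact h5 hk
      have hlt : ∀ j, k j < q := by
        intro j
        by_contra hcon
        rw [not_lt] at hcon
        apply hq2
        rcases hcon.lt_or_eq with h5 | h5
        · exact Submodule.span_mono (by
            rintro _ ⟨i, _, rfl⟩
            exact ⟨i, rfl⟩) (h4 j q hq1 h5)
        · change v q ∈ S
          rw [h5]
          exact Submodule.subset_span ⟨j, rfl⟩
      have hsnoc : (fun j => v ((Fin.snoc (α := fun _ => ℕ) k q : Fin (D' + 1) → ℕ) j)) =
          (Fin.snoc (α := fun _ => Fin D → L) (fun j => v (k j)) (v q) : Fin (D' + 1) → Fin D → L) := by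
        funext j
        refine Fin.lastCases ?_ (fun i => ?_) j
        · rw [Fin.snoc_last, Fin.snoc_last]
        · rw [Fin.snoc_castSucc, Fin.snoc_castSucc]
      refine ⟨Fin.snoc (α := fun _ => ℕ) k q, ?_, ?_, ?_, ?_⟩
      · intro i j hij
        revert hij
        refine Fin.lastCases ?_ (fun i' => ?_) i
        · intro hij
          exact absurd hij (not_lt.2 (Fin.le_last _))
        · refine Fin.lastCases ?_ (fun j' => ?_) j
          · intro _
            rw [Fin.snoc_last, Fin.snoc_castSucc]
            exact hlt i'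
          · intro hij
            rw [Fin.snoc_castSucc, Fin.snoc_castSucc]
            exact h1 (by simpa using hij)
      · intro j
        refine Fin.lastCases ?_ (fun i => ?_) j
        · rw [Fin.snoc_last]
          exact hq1
        · rw [Fin.snoc_castSucc]
          exact h2 i
      · rw [hsnoc, linearIndependent_finSnoc]
        exact ⟨h3, hq2⟩
      · intro j
        refine Fin.lastCases ?_ (fun i => ?_) j
        · intro k' hk hk'
          rw [Fin.snoc_last] at hk'
          have h5 := hmin k' hk hk'
          refine Submodule.span_mono ?_ h5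
          rintro _ ⟨i, rfl⟩
          refine ⟨Fin.castSucc i, ?_, ?_⟩
          · show Fin.castSucc i < Fin.last D'
            exact Fin.castSucc_lt_last i
          · show v ((Fin.snoc (α := fun _ => ℕ) k q : Fin (D' + 1) → ℕ) (Fin.castSucc i)) = v (k i)
            rw [Fin.snoc_castSucc]
        · intro k' hk hk'
          rw [Fin.snoc_castSucc] at hk'
          refine Submodule.span_mono ?_ (h4 i k' hk hk')
          rintro _ ⟨i', hi', rfl⟩
          refine ⟨Fin.castSucc i', ?_, ?_⟩
          · show Fin.castSucc i' < Fin.castSucc i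
            exact Fin.castSucc_lt_castSucc_iff.2 hi'
          · show v ((Fin.snoc (α := fun _ => ℕ) k q : Fin (D' + 1) → ℕ) (Fin.castSucc i')) = v (k i')
            rw [Fin.snoc_castSucc]
  exact main D le_rfl

variable {N : ℕ}

/-- the vector of the monomials -/
def mon {R : Type} [CommSemiring R] {m D s : ℕ} (e : Fin D → Fin m → Fin (s + 1))
    (i : Fin (m + 1) → Fin (N + 1)) (u : Fin (N + 1) → R) : Fin D → R :=
  fun μ => ∏ l, u (i l) ^ ex s (e μ) l

theorem mon_smul {R : Type} [CommSemiring R] {m D s : ℕ} (e : Fin D → Fin m → Fin (s + 1))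
    (i : Fin (m + 1) → Fin (N + 1)) (a : R) (u : Fin (N + 1) → R) :
    mon e i (a • u) = a ^ (m * s) • mon e i u := by
  funext μ
  simp only [mon, Pi.smul_apply, smul_eq_mul, mul_pow]
  rw [Finset.prod_mul_distrib, Finset.prod_pow_eq_pow_sum, ex_sum]

theorem mon_map {R S : Type} [CommSemiring R] [CommSemiring S] (f : R →+* S) {m D s : ℕ}
    (e : Fin D → Fin m → Fin (s + 1)) (i : Fin (m + 1) → Fin (N + 1)) (u : Fin (N + 1) → R) :
    mon e i (fun j => f (u j)) = fun μ => f (mon e i u μ) := by
  funext μ
  simp only [mon, map_prod, map_pow]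

theorem norm_mon_le {m D s : ℕ} (e : Fin D → Fin m → Fin (s + 1))
    (i : Fin (m + 1) → Fin (N + 1)) (u : Fin (N + 1) → ℂ) (μ : Fin D) :
    ‖mon e i u μ‖ ≤ ‖u‖ ^ (m * s) := by
  simp only [mon]
  rw [norm_prod, ← ex_sum s (e μ), ← Finset.prod_pow_eq_pow_sum]
  refine Finset.prod_le_prod (fun l _ => norm_nonneg _) fun l _ => ?_
  rw [norm_pow]
  exact pow_le_pow_left₀ (norm_nonneg _) (norm_le_pi_norm _ _) _

theorem mon_differentiable {m D s : ℕ} (e : Fin D → Fin m → Fin (s + 1))
    (i : Fin (m + 1) → Fin (N + 1)) : Differentiable ℂ (mon (R := ℂ) e i) := by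
  rw [differentiable_pi]
  intro μ
  simp only [mon]
  fun_prop

/-- **The determinant, row by row.** -/
theorem det_rows {F : Set (MvPolynomial (Fin (N + 1)) ℂ)} {r C c : ℝ} (hC : 1 ≤ C)
    (hkey : ∀ φ : ℂ → ℙ ℂ (Fin (N + 1) → ℂ),
      Holo (ball 0 1) φ → (∀ z ∈ ball (0 : ℂ) 1, φ z ∈ Zeros F) →
      ∀ (d : ℕ) (G : (Fin (N + 1) → ℂ) → ℂ), Differentiable ℂ G →
        (∀ (a : ℂ) (u : Fin (N + 1) → ℂ), G (a • u) = a ^ d * G u) →
        ∀ B : ℝ, 0 ≤ B → (∀ u, ‖G u‖ ≤ B * ‖u‖ ^ d) → ∀ W : Finset ℂ,
        (∀ w ∈ W, ‖w‖ ≤ r ∧ G (φ w).rep = 0) → ∀ z : ℂ, ‖z‖ ≤ r →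
        ‖G (φ z).rep‖ ≤ B * C ^ d * Real.exp (-(c * W.card)) * ‖(φ z).rep‖ ^ d)
    {m D s : ℕ} (e : Fin D → Fin m → Fin (s + 1)) (i : Fin (m + 1) → Fin (N + 1))
    {L : Type} [Field L] (σ : L →+* ℂ) (x : ℕ → Fin (N + 1) → L)
    (hx : ∀ k, (fun j => σ (x k j)) ≠ 0) (n : ℕ) (k : Fin D → ℕ)
    (hk : ∀ j k', n ≤ k' → k' < k j →
      mon e i (x k') ∈ Submodule.span L ((fun a => mon e i (x (k a))) '' {a | a < j}))
    (M : Fin D → ℕ)
    (hdisc : ∀ a, ∃ φ : ℂ → ℙ ℂ (Fin (N + 1) → ℂ), Holo (ball 0 1) φ ∧
      (∀ z ∈ ball (0 : ℂ) 1, φ z ∈ Zeros F) ∧ ∃ W : Finset ℂ, M a ≤ W.card ∧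
      (∀ w ∈ W, ‖w‖ ≤ r ∧ ∃ k', n ≤ k' ∧ k' < k a ∧ φ w = Projectivization.mk ℂ _ (hx k')) ∧
      ∃ z : ℂ, ‖z‖ ≤ r ∧ φ z = Projectivization.mk ℂ _ (hx (k a))) (hc : 0 ≤ c) :
    ‖Matrix.det (Matrix.of fun a => mon e i (fun j => σ (x (k a) j)))‖ ≤
      (Nat.factorial D : ℝ) * (∏ a, C ^ (m * s) * Real.exp (-(c * M a))) *
        ∏ a, ‖fun j => σ (x (k a) j)‖ ^ (m * s) := by
  classical
  set d := m * s with hd
  have main : ∀ n' : ℕ, n' ≤ D → ∀ u : Fin D → Fin (N + 1) → ℂ,
      (∀ a : Fin D, (a : ℕ) < n' → u a = fun j => σ (x (k a) j)) →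
      ‖Matrix.det (Matrix.of fun a => mon e i (u a))‖ ≤
      (Nat.factorial D : ℝ) * (∏ a : Fin D, if (a : ℕ) < n' then C ^ d * Real.exp (-(c * M a))
        else 1) * ∏ a, ‖u a‖ ^ d := by
    intro n'
    induction n' with
    | zero =>
      intro _ u _
      rw [Matrix.det_apply']
      calc ‖∑ π : Equiv.Perm (Fin D), ((Equiv.Perm.sign π : ℤ) : ℂ) *
            ∏ a, (Matrix.of fun a => mon e i (u a)) (π a) a‖ ≤
          ∑ π : Equiv.Perm (Fin D), ‖((Equiv.Perm.sign π : ℤ) : ℂ) *
            ∏ a, (Matrix.of fun a => mon e i (u a)) (π a) a‖ := norm_sum_le _ _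
        _ ≤ ∑ _π : Equiv.Perm (Fin D), ∏ a, ‖u a‖ ^ d := by
            refine Finset.sum_le_sum fun π _ => ?_
            rw [norm_mul]
            have h1 : ‖((Equiv.Perm.sign π : ℤ) : ℂ)‖ = 1 := by
              rcases Int.units_eq_one_or (Equiv.Perm.sign π) with h1 | h1
              · rw [h1]; simp
              · rw [h1]; simp
            rw [h1, one_mul, norm_prod, ← Equiv.prod_comp π (fun a => ‖u a‖ ^ d)]
            exact Finset.prod_le_prod (fun a _ => norm_nonneg _) fun a _ => norm_mon_le e i _ _
        _ = _ := by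
            rw [Finset.sum_const, nsmul_eq_mul, Finset.card_univ, Fintype.card_perm,
              Fintype.card_fin]
            simp
    | succ n' ih =>
      intro hn u hu
      have hn' : n' < D := by omega
      let a0 : Fin D := ⟨n', hn'⟩
      let A : Matrix (Fin D) (Fin D) ℂ := Matrix.of fun a => mon e i (u a)
      let ℓ : (Fin D → ℂ) →ₗ[ℂ] ℂ := (LinearMap.proj a0).comp (Matrix.cramer A.transpose)
      have hℓ : ∀ b, ℓ b = (A.updateRow a0 b).det := fun b => by
        show Matrix.cramer A.transpose b a0 = _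
        rw [Matrix.cramer_transpose_apply]
      have hupd : ∀ w, A.updateRow a0 (mon e i w) =
          Matrix.of fun a => mon e i (Function.update u a0 w a) := by
        intro w
        ext a μ
        rw [Matrix.updateRow_apply]
        by_cases ha : a = a0
        · rw [if_pos ha, Matrix.of_apply, ha, Function.update_self]
        · rw [if_neg ha, Matrix.of_apply, Function.update_of_ne ha]
          rfl
      let G : (Fin (N + 1) → ℂ) → ℂ := fun w => ℓ (mon e i w)
      have hG : ∀ w, G w = (Matrix.of fun a => mon e i (Function.update u a0 w a)).det := by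
        intro w
        show ℓ (mon e i w) = _
        rw [hℓ, hupd]
      have hGu : (Matrix.of fun a => mon e i (u a)).det = G (u a0) := by
        rw [hG, Function.update_eq_self]
      have hGd : Differentiable ℂ G :=
        (LinearMap.toContinuousLinearMap ℓ).differentiable.comp (mon_differentiable e i)
      have hGh : ∀ (a : ℂ) (w : Fin (N + 1) → ℂ), G (a • w) = a ^ d * G w := by
        intro a w
        show ℓ (mon e i (a • w)) = _
        rw [mon_smul, map_smul, smul_eq_mul]
      let B : ℝ := (Nat.factorial D : ℝ) * (∏ a : Fin D, if (a : ℕ) < n' then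
        C ^ d * Real.exp (-(c * M a)) else 1) * ∏ a ∈ Finset.univ.erase a0, ‖u a‖ ^ d
      have hq : ∀ a : Fin D, 0 ≤ if (a : ℕ) < n' then C ^ d * Real.exp (-(c * M a)) else 1 := by
        intro a
        split_ifs
        · positivity
        · exact zero_le_one
      have hB0 : 0 ≤ B := mul_nonneg (mul_nonneg (Nat.cast_nonneg _)
        (Finset.prod_nonneg fun a _ => hq a)) (Finset.prod_nonneg fun a _ => by positivity)
      have hGB : ∀ w, ‖G w‖ ≤ B * ‖w‖ ^ d := by
        intro w
        rw [hG]
        refine (ih (by omega) (Function.update u a0 w) (fun a ha => ?_)).trans (le_of_eq ?_)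
        · have ha0 : a ≠ a0 := by
            rintro rfl
            exact lt_irrefl _ ha
          rw [Function.update_of_ne ha0]
          exact hu a (by omega)
        · have h1 : ∏ a, ‖Function.update u a0 w a‖ ^ d =
              ‖w‖ ^ d * ∏ a ∈ Finset.univ.erase a0, ‖u a‖ ^ d := by
            rw [← Finset.mul_prod_erase Finset.univ _ (Finset.mem_univ a0), Function.update_self]
            congr 1
            refine Finset.prod_congr rfl fun a ha => ?_
            rw [Function.update_of_ne (Finset.ne_of_mem_erase ha)]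
          rw [h1]
          simp only [B]
          ring
      obtain ⟨φ, hφ, hφF, W, hMW, hW, z, hz, hφz⟩ := hdisc a0
      have hzero : ∀ w ∈ W, ‖w‖ ≤ r ∧ G (φ w).rep = 0 := by
        intro w hw
        obtain ⟨h1, k', h2, h3, h4⟩ := hW w hw
        refine ⟨h1, ?_⟩
        obtain ⟨a, ha, hrep⟩ := rep_mk (hx k')
        rw [h4, hrep, hGh]
        have h5 : G (fun j => σ (x k' j)) = 0 := by
          show ℓ (mon e i (fun j => σ (x k' j))) = 0
          rw [mon_map]
          refine Submodule.span_induction (p := fun y _ => ℓ (fun μ => σ (y μ)) = 0) ?_ ?_ ?_ ?_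
            (hk a0 k' h2 h3)
          · rintro _ ⟨b, hb, rfl⟩
            have hb' : b < a0 := hb
            show ℓ (fun μ => σ (mon e i (x (k b)) μ)) = 0
            rw [hℓ]
            have h6 : (fun μ => σ (mon e i (x (k b)) μ)) = A b := by
              rw [← mon_map]
              show _ = mon e i (u b)
              rw [hu b (by
                have : (b : ℕ) < n' := hb'
                omega)]
            rw [h6]
            exact Matrix.det_zero_of_row_eq hb'.ne (by
              rw [Matrix.updateRow_self, Matrix.updateRow_ne hb'.ne])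
          · have h6 : (fun μ : Fin D => σ ((0 : Fin D → L) μ)) = 0 := by
              funext μ
              simp
            rw [h6, map_zero]
          · intro y y' _ _ hy hy'
            have h6 : (fun μ : Fin D => σ ((y + y') μ)) = (fun μ => σ (y μ)) + fun μ => σ (y' μ) := by
              funext μ
              simp
            rw [h6, map_add, hy, hy', add_zero]
          · intro b y _ hy
            have h6 : (fun μ : Fin D => σ ((b • y) μ)) = σ b • fun μ => σ (y μ) := by
              funext μ
              simp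
            rw [h6, map_smul, hy, smul_zero]
        rw [h5, mul_zero]
      have h1 := hkey φ hφ hφF d G hGd hGh B hB0 hGB W hzero z hz
      obtain ⟨b, hb, hrep⟩ := rep_mk (hx (k a0))
      rw [hφz, hrep, hGh, norm_mul, norm_pow, norm_smul, mul_pow] at h1
      have hbn : 0 < ‖b‖ ^ d := pow_pos (norm_pos_iff.2 hb) _
      have h2 : ‖G (fun j => σ (x (k a0) j))‖ ≤ B * C ^ d * Real.exp (-(c * W.card)) *
          ‖fun j => σ (x (k a0) j)‖ ^ d := by
        refine le_of_mul_le_mul_left (h1.trans (le_of_eq ?_)) hbn
        ring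
      rw [hGu, hu a0 (Nat.lt_succ_self n')]
      refine h2.trans ?_
      have h3 : Real.exp (-(c * W.card)) ≤ Real.exp (-(c * M a0)) := by
        apply Real.exp_le_exp.2
        have : (M a0 : ℝ) ≤ W.card := by exact_mod_cast hMW
        nlinarith
      have h4 : (∏ a : Fin D, if (a : ℕ) < n' + 1 then C ^ d * Real.exp (-(c * M a)) else 1) =
          (C ^ d * Real.exp (-(c * M a0))) *
            ∏ a : Fin D, if (a : ℕ) < n' then C ^ d * Real.exp (-(c * M a)) else 1 := by
        rw [← Finset.mul_prod_erase Finset.univ _ (Finset.mem_univ a0), if_pos (Nat.lt_succ_self n'),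
          ← Finset.mul_prod_erase Finset.univ (fun a : Fin D => if (a : ℕ) < n' then _ else _)
            (Finset.mem_univ a0), if_neg (lt_irrefl n'), one_mul]
        congr 1
        refine Finset.prod_congr rfl fun a ha => ?_
        have ha0 : (a : ℕ) ≠ n' := fun h => Finset.ne_of_mem_erase ha (Fin.ext h)
        by_cases h5 : (a : ℕ) < n'
        · rw [if_pos h5, if_pos (by omega)]
        · rw [if_neg h5, if_neg (by omega)]
      have h5 : ∏ a, ‖u a‖ ^ d = ‖fun j => σ (x (k a0) j)‖ ^ d *
          ∏ a ∈ Finset.univ.erase a0, ‖u a‖ ^ d := by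
        rw [← Finset.mul_prod_erase Finset.univ _ (Finset.mem_univ a0), hu a0 (Nat.lt_succ_self n')]
      rw [h4, h5]
      calc B * C ^ d * Real.exp (-(c * W.card)) * ‖fun j => σ (x (k a0) j)‖ ^ d ≤
          B * C ^ d * Real.exp (-(c * M a0)) * ‖fun j => σ (x (k a0) j)‖ ^ d := by
            refine mul_le_mul_of_nonneg_right ?_ (by positivity)
            exact mul_le_mul_of_nonneg_left h3 (by positivity)
        _ = _ := by
            simp only [B]
            ring
  have h1 := main D le_rfl (fun a => fun j => σ (x (k a) j)) (fun a _ => rfl)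
  refine h1.trans (le_of_eq ?_)
  congr 2
  refine Finset.prod_congr rfl fun a _ => ?_
  rw [if_pos a.2]

end Pool.Agent.H434.Disc
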