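import Mathlib
import Pool.Agent.H434.J3

/-!
Sequences of rational points of hyperbolic varieties which are, locally, on holomorphic discs.
-/

set_option autoImplicit false

open Metric Set Filter Topology Finset MvPolynomial
open Height Height.AdmissibleAbsValues
open scoped LinearAlgebra.Projectivization

namespace Pool.Agent.H434.Disc

variable {N : ℕ}

/-- Liouville's inequality for interpolation determinants -/
theorem liou {L : Type} [Field L] [NumberField L] (σ : L →+* ℂ) {m D s : ℕ}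
    (e : Fin D → Fin m → Fin (s + 1)) (i : Fin (m + 1) → Fin (N + 1)) (x : Fin D → Fin (N + 1) → L)
    (hx0 : ∀ ν, x ν ≠ 0) (hli : LinearIndependent L (fun ν => mon e i (x ν))) {η : ℝ} (hη : 0 ≤ η)
    (hσ : ‖Matrix.det (Matrix.of fun a => mon e i (fun j => σ (x a j)))‖ ≤
      η * ∏ a, ‖fun j => σ (x a j)‖ ^ (m * s)) :
    1 ≤ (Nat.factorial D : ℝ) ^ (Module.finrank ℚ L - 1) * η * ∏ ν, mulHeight (x ν) ^ (m * s) := by
  classical
  set d := m * s with hd
  let M : Matrix (Fin D) (Fin D) L := Matrix.of fun μ ν => mon e i (x ν) μ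
  have hM : M.det ≠ 0 := by
    have h1 : M.transpose = Matrix.of fun ν => mon e i (x ν) := rfl
    rw [← Matrix.det_transpose, h1]
    have h2 := (Matrix.linearIndependent_rows_iff_isUnit
      (A := Matrix.of fun ν => mon e i (x ν))).1 hli
    exact ((Matrix.isUnit_iff_isUnit_det _).1 h2).ne_zero
  let Y : (Fin D × Fin d → Fin (N + 1)) → L := fun I => ∏ a, x a.1 (I a)
  have hYh : mulHeight Y = ∏ ν, mulHeight (x ν) ^ d := height_prod x hx0 d
  have hYsup : ∀ v : AbsoluteValue L ℝ, ⨆ I, v (Y I) = ∏ ν, (⨆ j, v (x ν j)) ^ d := by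
    intro v
    have h1 := sup_prod (J := Fin D) (ι := Fin (N + 1)) v v.nonneg x d
    rw [← h1]
    refine iSup_congr fun I => ?_
    exact map_prod v _ _
  have hY0 : Y ≠ 0 := by
    have h1 : ∀ ν, ∃ j, x ν j ≠ 0 := fun ν => Function.ne_iff.1 (hx0 ν)
    choose j hj using h1
    intro h0
    have h2 := congrFun h0 (fun a => j a.1)
    exact Finset.prod_ne_zero_iff.2 (fun a _ => hj a.1) h2
  have hterm : ∀ (v : AbsoluteValue L ℝ) (π : Equiv.Perm (Fin D)),
      v (∏ ν, M (π ν) ν) ≤ ⨆ I, v (Y I) := by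
    intro v π
    rw [hYsup, map_prod]
    exact Finset.prod_le_prod (fun ν _ => v.nonneg _) fun ν _ => mon_le v i s _ (x ν)
  have hsg : ∀ (v : AbsoluteValue L ℝ) (π : Equiv.Perm (Fin D)),
      v ((((Equiv.Perm.sign π : ℤˣ) : ℤ) : L) * ∏ ν, M (π ν) ν) = v (∏ ν, M (π ν) ν) := by
    intro v π
    rw [map_mul]
    rcases Int.units_eq_one_or (Equiv.Perm.sign π) with h1 | h1
    · rw [h1]; simp
    · rw [h1]; simp
  have hnon : ∀ v ∈ nonarchAbsVal (K := L), v M.det ≤ ⨆ I, v (Y I) := by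
    intro v hv
    rw [Matrix.det_apply']
    have h1 := IsNonarchimedean.apply_sum_univ_le (isNonarchimedean v hv) (l := fun π : Equiv.Perm (Fin D) =>
      (((Equiv.Perm.sign π : ℤˣ) : ℤ) : L) * ∏ ν, M (π ν) ν)
    refine h1.trans ?_
    refine ciSup_le fun π => ?_
    rw [hsg]
    exact hterm v π
  have harch : ∀ v ∈ archAbsVal (K := L), v M.det ≤ (Nat.factorial D : ℝ) * ⨆ I, v (Y I) := by
    intro v _
    rw [Matrix.det_apply']
    calc v (∑ π : Equiv.Perm (Fin D), (((Equiv.Perm.sign π : ℤˣ) : ℤ) : L) * ∏ ν, M (π ν) ν) ≤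
        ∑ π : Equiv.Perm (Fin D), v ((((Equiv.Perm.sign π : ℤˣ) : ℤ) : L) * ∏ ν, M (π ν) ν) :=
          v.sum_le _ _
      _ ≤ ∑ _π : Equiv.Perm (Fin D), ⨆ I, v (Y I) := Finset.sum_le_sum fun π _ => by
          rw [hsg]
          exact hterm v π
      _ = _ := by
          rw [Finset.sum_const, nsmul_eq_mul, Finset.card_univ, Fintype.card_perm,
            Fintype.card_fin]
  have hσ' : ‖σ M.det‖ ≤ η * ⨆ I, ‖σ (Y I)‖ := by
    have h1 : ⨆ I, ‖σ (Y I)‖ = ∏ ν, (⨆ j, ‖σ (x ν j)‖) ^ d := by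
      have h2 := sup_prod (J := Fin D) (ι := Fin (N + 1)) (fun y : L => ‖σ y‖)
        (fun y => norm_nonneg _) x d
      rw [← h2]
      refine iSup_congr fun I => ?_
      show ‖σ (∏ a, x a.1 (I a))‖ = _
      rw [map_prod, norm_prod]
    have h2 : σ M.det = Matrix.det (Matrix.of fun a => mon e i (fun j => σ (x a j))) := by
      rw [RingHom.map_det, ← Matrix.det_transpose]
      congr 1
      funext a μ
      show σ (mon e i (x a) μ) = mon e i (fun j => σ (x a j)) μ
      rw [mon_map]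
    rw [h1, h2]
    refine hσ.trans (mul_le_mul_of_nonneg_left ?_ hη)
    refine Finset.prod_le_prod (fun a _ => by positivity) fun a _ => ?_
    refine pow_le_pow_left₀ (norm_nonneg _) ?_ _
    rw [pi_norm_le_iff_of_nonneg (Real.iSup_nonneg fun j => norm_nonneg _)]
    intro j
    exact le_ciSup (f := fun j => ‖σ (x a j)‖) (Set.finite_range _).bddAbove j
  have hfac1 : (1 : ℝ) ≤ (Nat.factorial D : ℝ) := by exact_mod_cast Nat.factorial_pos D
  have hL := liouville σ Y hY0 M.det hM (Nat.factorial D) _ hfac1 hη hnon harch hσ'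
  rwa [hYh] at hL

/-- the numerical inequality -/
theorem star {L : Type} [Field L] [NumberField L] {m D s : ℕ} (hD : 1 ≤ D)
    (x : Fin D → Fin (N + 1) → L) {C c : ℝ} (hC : 1 ≤ C) (M : Fin D → ℕ)
    (h : 1 ≤ (Nat.factorial D : ℝ) ^ (Module.finrank ℚ L - 1) *
      ((Nat.factorial D : ℝ) * ∏ a, C ^ (m * s) * Real.exp (-(c * M a))) *
      ∏ ν, mulHeight (x ν) ^ (m * s)) :
    c * ∑ a, (M a : ℝ) ≤ Module.finrank ℚ L * (D * Real.log D) + D * ((m * s : ℕ) * Real.log C) +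
      ∑ a, (m * s : ℕ) * logHeight (x a) := by
  set d := m * s with hd
  have hfrk : 1 ≤ Module.finrank ℚ L := Module.finrank_pos
  have hDR : (1 : ℝ) ≤ D := by exact_mod_cast hD
  have hfac1 : (1 : ℝ) ≤ (Nat.factorial D : ℝ) := by exact_mod_cast Nat.factorial_pos D
  have h1 : (Nat.factorial D : ℝ) ^ (Module.finrank ℚ L - 1) * (Nat.factorial D : ℝ) ≤
      Real.exp (Module.finrank ℚ L * (D * Real.log D)) := by
    rw [← pow_succ, Nat.sub_add_cancel hfrk]
    calc (Nat.factorial D : ℝ) ^ Module.finrank ℚ L ≤ ((D : ℝ) ^ D) ^ Module.finrank ℚ L := by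
          refine pow_le_pow_left₀ (by positivity) ?_ _
          exact_mod_cast Nat.factorial_le_pow D
      _ = Real.exp (Module.finrank ℚ L * (D * Real.log D)) := by
          rw [← pow_mul, ← Real.exp_log (pow_pos (by linarith : (0 : ℝ) < D) _), Real.log_pow]
          congr 1
          push_cast
          ring
  have h2 : (∏ a, C ^ d * Real.exp (-(c * M a))) =
      Real.exp (D * (d * Real.log C) - c * ∑ a, (M a : ℝ)) := by
    have h3 : ∀ a, C ^ d * Real.exp (-(c * M a)) = Real.exp (d * Real.log C - c * M a) := by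
      intro a
      have h4 : C ^ d = Real.exp (d * Real.log C) := by
        rw [← Real.exp_log (pow_pos (by linarith : (0 : ℝ) < C) d), Real.log_pow]
      rw [h4, ← Real.exp_add]
      rfl
    rw [Finset.prod_congr rfl fun a _ => h3 a, ← Real.exp_sum, Finset.sum_sub_distrib,
      Finset.mul_sum, Finset.sum_const, Finset.card_univ, Fintype.card_fin, nsmul_eq_mul]
  have h3 : ∏ ν, mulHeight (x ν) ^ d = Real.exp (∑ a, d * logHeight (x a)) := by
    rw [Real.exp_sum]
    refine Finset.prod_congr rfl fun a _ => ?_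
    have h4 : mulHeight (x a) = Real.exp (logHeight (x a)) := by
      rw [logHeight, Real.exp_log (mulHeight_pos _)]
    rw [h4, ← Real.exp_nat_mul]
  rw [h2, h3, ← mul_assoc] at h
  have h4 : (1 : ℝ) ≤ Real.exp (Module.finrank ℚ L * (D * Real.log D)) *
      Real.exp (D * (d * Real.log C) - c * ∑ a, (M a : ℝ)) * Real.exp (∑ a, d * logHeight (x a)) := by
    refine h.trans ?_
    refine mul_le_mul_of_nonneg_right ?_ (Real.exp_nonneg _)
    exact mul_le_mul_of_nonneg_right h1 (Real.exp_nonneg _)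
  rw [← Real.exp_add, ← Real.exp_add, ← Real.exp_zero, Real.exp_le_exp] at h4
  linarith

/-- the choice of the parameter -/
theorem large {m : ℕ} {θ : ℝ} (hθ : 1 < m * θ) (a b c' K : ℝ) (hK : 0 < K) :
    ∃ s : ℕ, a + b * Real.log ((s : ℝ) + 1) + c' * ((s : ℝ) + 1) < K * ((s : ℝ) + 1) ^ (m * θ) := by
  set q : ℝ := m * θ with hq
  have h1 : Tendsto (fun T : ℝ => T ^ (-q)) atTop (𝓝 0) := tendsto_rpow_neg_atTop (by linarith)
  have h2 : Tendsto (fun T : ℝ => T ^ (-(q - 1))) atTop (𝓝 0) := tendsto_rpow_neg_atTop (by linarith)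
  have h3 : Tendsto (fun T : ℝ => Real.log T / T ^ q) atTop (𝓝 0) :=
    (isLittleO_log_rpow_atTop (by linarith)).tendsto_div_nhds_zero
  have h4 : Tendsto (fun T : ℝ => a * T ^ (-q) + b * (Real.log T / T ^ q) + c' * T ^ (-(q - 1)))
      atTop (𝓝 (a * 0 + b * 0 + c' * 0)) := ((h1.const_mul a).add (h3.const_mul b)).add
      (h2.const_mul c')
  rw [mul_zero, mul_zero, mul_zero, add_zero, add_zero] at h4
  have h5 : Tendsto (fun s : ℕ => (s : ℝ) + 1) atTop atTop :=
    tendsto_atTop_add_const_right _ _ tendsto_natCast_atTop_atTop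
  obtain ⟨s, hs⟩ := ((h4.comp h5).eventually (gt_mem_nhds hK)).exists
  refine ⟨s, ?_⟩
  have hT : (0 : ℝ) < (s : ℝ) + 1 := by positivity
  have hTq : (0 : ℝ) < ((s : ℝ) + 1) ^ q := Real.rpow_pos_of_pos hT q
  have h6 := mul_lt_mul_of_pos_right hs hTq
  refine lt_of_eq_of_lt ?_ h6
  show _ = (a * ((s : ℝ) + 1) ^ (-q) + b * (Real.log ((s : ℝ) + 1) / ((s : ℝ) + 1) ^ q) +
    c' * ((s : ℝ) + 1) ^ (-(q - 1))) * ((s : ℝ) + 1) ^ q
  have h7 : ((s : ℝ) + 1) ^ (-q) * ((s : ℝ) + 1) ^ q = 1 := by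
    rw [← Real.rpow_add hT, neg_add_cancel, Real.rpow_zero]
  have h8 : ((s : ℝ) + 1) ^ (-(q - 1)) * ((s : ℝ) + 1) ^ q = (s : ℝ) + 1 := by
    rw [← Real.rpow_add hT, show -(q - 1) + q = 1 by ring, Real.rpow_one]
  have h9 : Real.log ((s : ℝ) + 1) / ((s : ℝ) + 1) ^ q * ((s : ℝ) + 1) ^ q =
      Real.log ((s : ℝ) + 1) := div_mul_cancel₀ _ hTq.ne'
  rw [add_mul, add_mul, mul_assoc, mul_assoc, mul_assoc, h7, h8, h9]
  ring

/-- the sum of the powers of the members of an increasing sequence -/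
theorem sum_rpow {D : ℕ} (k : Fin D → ℕ) (hk : ∀ a : Fin D, (a : ℕ) + 1 ≤ k a) {θ : ℝ} (hθ : 0 < θ) :
    (D : ℝ) * (D : ℝ) ^ θ ≤ 2 ^ (1 + θ) * ∑ a, (k a : ℝ) ^ θ := by
  have h1 : ∀ a : Fin D, ((D : ℝ) / 2) ^ θ ≤ (k a : ℝ) ^ θ + (k (Fin.rev a) : ℝ) ^ θ := by
    intro a
    have h2 : (D : ℝ) ≤ k a + k (Fin.rev a) := by
      have h3 := hk a
      have h4 := hk (Fin.rev a)
      rw [Fin.val_rev] at h4
      have : D ≤ k a + k (Fin.rev a) := by omega
      exact_mod_cast this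
    have hn : ∀ b : Fin D, (0 : ℝ) ≤ (k b : ℝ) ^ θ := fun b => Real.rpow_nonneg (Nat.cast_nonneg _) _
    rcases le_total ((D : ℝ) / 2) (k a) with h3 | h3
    · have := Real.rpow_le_rpow (by positivity) h3 hθ.le
      linarith [hn (Fin.rev a)]
    · have := Real.rpow_le_rpow (by positivity) (show (D : ℝ) / 2 ≤ k (Fin.rev a) by linarith) hθ.le
      linarith [hn a]
  have h2 : ∑ a : Fin D, (k (Fin.rev a) : ℝ) ^ θ = ∑ a, (k a : ℝ) ^ θ :=
    Equiv.sum_comp Fin.revPerm (fun a => (k a : ℝ) ^ θ)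
  have h3 := Finset.sum_le_sum fun a (_ : a ∈ Finset.univ) => h1 a
  rw [Finset.sum_const, Finset.card_univ, Fintype.card_fin, nsmul_eq_mul, Finset.sum_add_distrib,
    h2] at h3
  have h4 : ((D : ℝ) / 2) ^ θ = (D : ℝ) ^ θ / 2 ^ θ := Real.div_rpow (Nat.cast_nonneg _) (by norm_num) _
  have h5 : (0 : ℝ) < 2 ^ θ := Real.rpow_pos_of_pos (by norm_num) _
  have h6 : (2 : ℝ) ^ (1 + θ) = 2 * 2 ^ θ := by
    rw [Real.rpow_add (by norm_num), Real.rpow_one]
  rw [h4, ← mul_div_assoc, div_le_iff₀ h5] at h3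
  rw [h6]
  linarith

/-- **Sequences of rational points which are, locally, on holomorphic discs.** -/
theorem seq_main {F : Set (MvPolynomial (Fin (N + 1)) ℂ)} (hF : ∀ G ∈ F, ∃ e, G.IsHomogeneous e)
    (hX : ∀ g : ℂ → ℙ ℂ (Fin (N + 1) → ℂ), Holo univ g → (∀ t, g t ∈ Zeros F) → ∀ t, g t = g 0)
    {m : ℕ} {θ δ r : ℝ} (hθ : 1 < m * θ) (hδ : 0 < δ) (hr : r < 1) :
    ∃ ε : ℝ, 0 < ε ∧ ∀ (L : Type) [Field L] [NumberField L] (σ : L →+* ℂ)
      (x : ℕ → Fin (N + 1) → L) (hx : ∀ k, (fun j => σ (x k j)) ≠ 0),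
      (∀ᶠ k : ℕ in atTop, ∃ φ : ℂ → ℙ ℂ (Fin (N + 1) → ℂ), Holo (ball 0 1) φ ∧
        (∀ z ∈ ball (0 : ℂ) 1, φ z ∈ Zeros F) ∧ ∃ (I : Finset ℕ) (w : ℕ → ℂ),
          (∀ l ∈ I, l < k) ∧ δ * (k : ℝ) ^ θ ≤ I.card ∧ Set.InjOn w I ∧
          ∀ l ∈ insert k I, ‖w l‖ ≤ r ∧ φ (w l) = Projectivization.mk ℂ _ (hx l)) →
      (∀ n : ℕ, ∃ i : Fin (m + 1) → Fin (N + 1), ∀ (Q : MvPolynomial (Fin (m + 1)) ℂ) (d : ℕ),
        Q.IsHomogeneous d → Q ≠ 0 → ∃ k, n ≤ k ∧ eval (fun l => σ (x k (i l))) Q ≠ 0) →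
      ∃ᶠ k : ℕ in atTop, ε * (k : ℝ) ^ (θ - 1 / m) ≤ logHeight (x k) := by
  classical
  obtain ⟨C, c, hC, hc, hkey⟩ := key hF hX hr
  have hm : (0 : ℝ) < m := by
    rcases Nat.eq_zero_or_pos m with h | h
    · rw [h, Nat.cast_zero, zero_mul] at hθ
      linarith
    · exact_mod_cast h
  have hθ0 : 0 < θ := by
    by_contra h
    rw [not_lt] at h
    have := mul_nonpos_of_nonneg_of_nonpos hm.le h
    linarith
  have hθm : 0 < θ - 1 / m := by
    rw [sub_pos, div_lt_iff₀ hm]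
    linarith
  set K1 : ℝ := 2 ^ (1 + θ) with hK1
  have hK1p : 0 < K1 := Real.rpow_pos_of_pos (by norm_num) _
  refine ⟨c * δ / (2 * m * (1 + K1)), by positivity, fun L _ _ σ x hx hdisc hdim => ?_⟩
  set ε : ℝ := c * δ / (2 * m * (1 + K1)) with hε
  by_contra hcon
  rw [Filter.not_frequently] at hcon
  obtain ⟨n0, hn0⟩ := eventually_atTop.1 (hdisc.and hcon)
  set n : ℕ := n0 + 1 with hn
  have hn1 : ∀ k, n ≤ k → n0 ≤ k := fun k hk => by omega
  obtain ⟨i, hi⟩ := hdim n
  set κ : ℝ := (Module.finrank ℚ L : ℝ) with hκ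
  obtain ⟨s, hs⟩ := large hθ (c * n) (κ * m) (m * Real.log C) (c * δ / (2 * K1)) (by positivity)
  set T : ℝ := (s : ℝ) + 1 with hT
  have hT1 : 1 ≤ T := by
    rw [hT]
    have : (0 : ℝ) ≤ s := Nat.cast_nonneg s
    linarith
  have hT0 : 0 < T := by linarith
  set D : ℕ := (s + 1) ^ m with hD
  have hDT : (D : ℝ) = T ^ m := by
    rw [hD, hT]
    push_cast
    rfl
  have hD1 : 1 ≤ D := Nat.one_le_pow _ _ (by omega)
  have hcard : Fintype.card (Fin m → Fin (s + 1)) = D := by simp [hD]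
  let e : Fin D ≃ (Fin m → Fin (s + 1)) := (Fintype.equivFinOfCardEq hcard).symm
  have hx0 : ∀ k, x k ≠ 0 := by
    intro k h0
    apply hx k
    funext j
    rw [h0]
    simp
  -- the vectors span
  have hspan : Submodule.span L ((fun k => mon e i (x k)) '' {k | n ≤ k}) = ⊤ := by
    by_contra hS
    obtain ⟨f, hf0, hf⟩ := Submodule.exists_le_ker_of_lt_top _ (lt_top_iff_ne_top.2 hS)
    let cf : (Fin m → Fin (s + 1)) → L := fun μ => f (Pi.single (e.symm μ) 1)
    have hfs : ∀ y : Fin D → L, f y = ∑ μ : Fin D, y μ * f (Pi.single μ 1) := by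
      intro y
      have h1 : y = ∑ μ : Fin D, y μ • (Pi.single μ 1 : Fin D → L) := by
        funext l
        rw [Finset.sum_apply, Finset.sum_eq_single l]
        · simp
        · intro b _ hb
          simp [Ne.symm hb]
        · intro h
          exact absurd (Finset.mem_univ _) h
      conv_lhs => rw [h1]
      rw [map_sum]
      refine Finset.sum_congr rfl fun μ _ => ?_
      rw [map_smul, smul_eq_mul]
    have hcf : cf ≠ 0 := by
      intro h0
      apply hf0
      ext y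
      have h1 : f (Pi.single y 1) = 0 := by
        have h2 := congrFun h0 (e y)
        simp only [cf, Equiv.symm_apply_apply, Pi.zero_apply] at h2
        exact h2
      simpa using h1
    obtain ⟨k, hk, hne⟩ := hi (map σ (frm cf)) (m * s) ((frm_hom cf).map σ) (by
      intro h0
      exact frm_ne cf hcf ((map_injective σ σ.injective) (by rw [h0, map_zero])))
    apply hne
    have h1 : eval (fun l => x k (i l)) (frm cf) = 0 := by
      have h2 : f (mon e i (x k)) = 0 := hf (Submodule.subset_span ⟨k, hk, rfl⟩)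
      rw [hfs] at h2
      rw [eval_frm, ← h2, ← Equiv.sum_comp e]
      refine Finset.sum_congr rfl fun μ _ => ?_
      simp only [cf, Equiv.symm_apply_apply, mon]
      ring
    have h2 : eval (fun l => σ (x k (i l))) (map σ (frm cf)) = σ (eval (fun l => x k (i l)) (frm cf)) := by
      rw [eval_map, eval₂_comp, ← Function.comp_def σ]
    rw [h2, h1, map_zero]
  obtain ⟨k, hk1, hk2, hk3, hk4⟩ := greedy (fun k => mon e i (x k)) n hspan
  have hka : ∀ a : Fin D, (a : ℕ) + 1 ≤ k a := by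
    intro a
    have h1 : ∀ b : ℕ, ∀ hb : b < D, n + b ≤ k ⟨b, hb⟩ := by
      intro b
      induction b with
      | zero => intro hb; exact hk2 _
      | succ b ih =>
        intro hb
        have h2 := ih (by omega)
        have h3 : k ⟨b, by omega⟩ < k ⟨b + 1, hb⟩ := hk1 (by simp)
        omega
    have h2 := h1 a a.2
    simp only [Fin.eta] at h2
    omega
  -- the discs
  have hdisc' : ∀ a : Fin D, ∃ Ma : ℕ, δ * (k a : ℝ) ^ θ - n ≤ Ma ∧
      ∃ φ : ℂ → ℙ ℂ (Fin (N + 1) → ℂ), Holo (ball 0 1) φ ∧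
      (∀ z ∈ ball (0 : ℂ) 1, φ z ∈ Zeros F) ∧ ∃ W : Finset ℂ, Ma ≤ W.card ∧
      (∀ w ∈ W, ‖w‖ ≤ r ∧ ∃ k', n ≤ k' ∧ k' < k a ∧ φ w = Projectivization.mk ℂ _ (hx k')) ∧
      ∃ z : ℂ, ‖z‖ ≤ r ∧ φ z = Projectivization.mk ℂ _ (hx (k a)) := by
    intro a
    obtain ⟨φ, hφ, hφF, I, w, hI1, hI2, hI3, hI4⟩ := (hn0 (k a) (hn1 _ (hk2 a))).1
    let I' : Finset ℕ := I.filter fun l => n ≤ l
    have hI' : (I.card : ℝ) ≤ I'.card + n := by
      have h1 : I.card ≤ I'.card + n := by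
        have h2 := Finset.card_filter_add_card_filter_not (s := I) (fun l => n ≤ l)
        have h3 : (I.filter fun l => ¬ n ≤ l).card ≤ n := by
          calc (I.filter fun l => ¬ n ≤ l).card ≤ (Finset.range n).card := by
                apply Finset.card_le_card
                intro l hl
                have := (Finset.mem_filter.1 hl).2
                exact Finset.mem_range.2 (by omega)
            _ = n := Finset.card_range n
        show I.card ≤ (I.filter fun l => n ≤ l).card + n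
        omega
      exact_mod_cast h1
    refine ⟨I'.card, by linarith, φ, hφ, hφF, I'.image w, ?_, ?_, w (k a),
      (hI4 _ (Finset.mem_insert_self _ _)).1, (hI4 _ (Finset.mem_insert_self _ _)).2⟩
    · rw [Finset.card_image_of_injOn (hI3.mono (by
        intro l hl
        exact (Finset.mem_filter.1 hl).1))]
    · intro y hy
      obtain ⟨l, hl, rfl⟩ := Finset.mem_image.1 hy
      obtain ⟨hl1, hl2⟩ := Finset.mem_filter.1 hl
      have h1 := hI4 l (Finset.mem_insert_of_mem hl1)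
      exact ⟨h1.1, l, hl2, hI1 l hl1, h1.2⟩
  choose M hM1 hM2 using hdisc'
  have hdet := det_rows (F := F) hC hkey e i σ x hx n k hk4 M hM2 hc.le
  have hli := liou σ e i (fun a => x (k a)) (fun a => hx0 _) hk3 (by positivity) hdet
  have hst := star (m := m) (s := s) hD1 (fun a => x (k a)) hC M hli
  -- the heights
  have hht : ∀ a, ((m * s : ℕ) : ℝ) * logHeight (x (k a)) ≤
      m * ε * ((k a : ℝ) ^ θ + (D : ℝ) ^ θ) := by
    intro a
    have h1 := (hn0 (k a) (hn1 _ (hk2 a))).2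
    rw [not_le] at h1
    have hkpos : (0 : ℝ) < k a := by
      have h2 := hka a
      have : 0 < k a := by omega
      exact_mod_cast this
    have h2 : ((m * s : ℕ) : ℝ) ≤ m * T := by
      push_cast
      rw [hT]
      nlinarith
    have h3 : T * (k a : ℝ) ^ (θ - 1 / m) ≤ (k a : ℝ) ^ θ + (D : ℝ) ^ θ := by
      have hTm : T = (D : ℝ) ^ (1 / (m : ℝ)) := by
        rw [hDT, ← Real.rpow_natCast, ← Real.rpow_mul hT0.le, mul_one_div_cancel hm.ne',
          Real.rpow_one]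
      rcases le_total (D : ℝ) (k a) with h4 | h4
      · have h5 : T ≤ (k a : ℝ) ^ (1 / (m : ℝ)) := by
          rw [hTm]
          exact Real.rpow_le_rpow (Nat.cast_nonneg _) h4 (by positivity)
        have h6 : (k a : ℝ) ^ (1 / (m : ℝ)) * (k a : ℝ) ^ (θ - 1 / m) = (k a : ℝ) ^ θ := by
          rw [← Real.rpow_add hkpos]
          congr 1
          ring
        have h7 : 0 ≤ (k a : ℝ) ^ (θ - 1 / m) := Real.rpow_nonneg hkpos.le _
        have h8 := mul_le_mul_of_nonneg_right h5 h7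
        have h9 : 0 ≤ (D : ℝ) ^ θ := Real.rpow_nonneg (Nat.cast_nonneg _) _
        linarith
      · have hDpos : (0 : ℝ) < D := by exact_mod_cast hD1
        have h5 : (k a : ℝ) ^ (θ - 1 / m) ≤ (D : ℝ) ^ (θ - 1 / m) :=
          Real.rpow_le_rpow hkpos.le h4 hθm.le
        have h6 : (D : ℝ) ^ (1 / (m : ℝ)) * (D : ℝ) ^ (θ - 1 / m) = (D : ℝ) ^ θ := by
          rw [← Real.rpow_add hDpos]
          congr 1
          ring
        have h8 := mul_le_mul_of_nonneg_left h5 hT0.le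
        have h9 : 0 ≤ (k a : ℝ) ^ θ := Real.rpow_nonneg hkpos.le _
        rw [← hTm] at h6
        linarith
    have hε0 : 0 < ε := by positivity
    have h10 : 0 ≤ (k a : ℝ) ^ (θ - 1 / m) := Real.rpow_nonneg hkpos.le _
    calc ((m * s : ℕ) : ℝ) * logHeight (x (k a)) ≤
          ((m * s : ℕ) : ℝ) * (ε * (k a : ℝ) ^ (θ - 1 / m)) :=
          mul_le_mul_of_nonneg_left h1.le (Nat.cast_nonneg _)
      _ ≤ (m * T) * (ε * (k a : ℝ) ^ (θ - 1 / m)) :=
          mul_le_mul_of_nonneg_right h2 (by positivity)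
      _ = m * ε * (T * (k a : ℝ) ^ (θ - 1 / m)) := by ring
      _ ≤ _ := mul_le_mul_of_nonneg_left h3 (by positivity)
  set Sg : ℝ := ∑ a, (k a : ℝ) ^ θ with hSg
  have hsum := sum_rpow k hka hθ0
  rw [← hK1, ← hSg] at hsum
  have hH : ∑ a, ((m * s : ℕ) : ℝ) * logHeight (x (k a)) ≤ c * δ / 2 * Sg := by
    calc ∑ a, ((m * s : ℕ) : ℝ) * logHeight (x (k a)) ≤
          ∑ a : Fin D, m * ε * ((k a : ℝ) ^ θ + (D : ℝ) ^ θ) := Finset.sum_le_sum fun a _ => hht a
      _ = m * ε * (Sg + D * (D : ℝ) ^ θ) := by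
          rw [← Finset.mul_sum, Finset.sum_add_distrib, Finset.sum_const, Finset.card_univ,
            Fintype.card_fin, nsmul_eq_mul]
      _ ≤ m * ε * (Sg + K1 * Sg) := by
          refine mul_le_mul_of_nonneg_left (by linarith) ?_
          positivity
      _ = _ := by
          rw [hε]
          field_simp
  have hMs : c * (δ * Sg - D * n) ≤ c * ∑ a, (M a : ℝ) := by
    refine mul_le_mul_of_nonneg_left ?_ hc.le
    have h1 := Finset.sum_le_sum fun a (_ : a ∈ Finset.univ) => hM1 a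
    rw [Finset.sum_sub_distrib, ← Finset.mul_sum, Finset.sum_const, Finset.card_univ,
      Fintype.card_fin, nsmul_eq_mul] at h1
    exact h1
  have hDpos : (0 : ℝ) < D := by exact_mod_cast hD1
  have hlogC : 0 ≤ Real.log C := Real.log_nonneg hC
  have hfin1 : c * δ / 2 * Sg ≤ D * (c * n + κ * Real.log D + (m * T) * Real.log C) := by
    have h2 : ((m * s : ℕ) : ℝ) * Real.log C ≤ (m * T) * Real.log C := by
      refine mul_le_mul_of_nonneg_right ?_ hlogC
      push_cast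
      rw [hT]
      nlinarith
    have h3 := mul_le_mul_of_nonneg_left h2 hDpos.le
    nlinarith [hst, hH, hMs]
  have hfin2 : c * δ / (2 * K1) * (D : ℝ) ^ θ ≤ c * n + κ * Real.log D + (m * T) * Real.log C := by
    refine le_of_mul_le_mul_left ?_ hDpos
    refine le_trans ?_ hfin1
    have h1 : c * δ / (2 * K1) * (D * (D : ℝ) ^ θ) ≤ c * δ / (2 * K1) * (K1 * Sg) :=
      mul_le_mul_of_nonneg_left hsum (by positivity)
    calc (D : ℝ) * (c * δ / (2 * K1) * (D : ℝ) ^ θ) = c * δ / (2 * K1) * (D * (D : ℝ) ^ θ) := by ring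
      _ ≤ c * δ / (2 * K1) * (K1 * Sg) := h1
      _ = _ := by field_simp
  have h1 : (D : ℝ) ^ θ = T ^ (m * θ) := by
    rw [hDT, ← Real.rpow_natCast, ← Real.rpow_mul hT0.le]
  have h2 : Real.log D = m * Real.log T := by
    rw [hDT, Real.log_pow]
  rw [h1, h2] at hfin2
  have h3 : c * n + κ * (m * Real.log T) + m * T * Real.log C =
      c * n + κ * m * Real.log T + m * Real.log C * T := by ring
  rw [h3] at hfin2
  linarith

end Pool.Agent.H434.Disc
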