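import Mathlib
import Pool.Agent.H434.J4

/-!
The values at the natural numbers of holomorphic maps from the right half plane to a hyperbolic variety.
-/

set_option autoImplicit false

open Metric Set Filter Topology Finset MvPolynomial
open Height Height.AdmissibleAbsValues
open scoped LinearAlgebra.Projectivization

namespace Pool.Agent.H434.Disc

variable {N : ℕ}

/-- many earlier points are on a disc with the `k`-th one -/
theorem half_disc {F : Set (MvPolynomial (Fin (N + 1)) ℂ)} {L : Type} [Field L] (σ : L →+* ℂ)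
    (x : ℕ → Fin (N + 1) → L) (hx : ∀ k, (fun j => σ (x k j)) ≠ 0)
    (f : ℂ → ℙ ℂ (Fin (N + 1) → ℂ)) (hf : Holo {z | 0 < z.re} f)
    (hfF : ∀ z : ℂ, 0 < z.re → f z ∈ Zeros F) (n : ℕ)
    (hfx : ∀ k : ℕ, n ≤ k → f k = Projectivization.mk ℂ _ (hx k)) (k : ℕ) (hk : 4 * n + 4 ≤ k) :
    ∃ φ : ℂ → ℙ ℂ (Fin (N + 1) → ℂ), Holo (ball 0 1) φ ∧
        (∀ z ∈ ball (0 : ℂ) 1, φ z ∈ Zeros F) ∧ ∃ (I : Finset ℕ) (w : ℕ → ℂ),
          (∀ l ∈ I, l < k) ∧ (1 / 4 : ℝ) * (k : ℝ) ^ (1 : ℝ) ≤ I.card ∧ Set.InjOn w I ∧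
          ∀ l ∈ insert k I, ‖w l‖ ≤ 1 / 2 ∧ φ (w l) = Projectivization.mk ℂ _ (hx l) := by
  classical
  have hk0 : (0 : ℝ) < k := by
    have : 0 < k := by omega
    exact_mod_cast this
  have hkc : (k : ℂ) ≠ 0 := by exact_mod_cast hk0.ne'
  have hre : ∀ z ∈ ball (0 : ℂ) 1, (k : ℂ) + (k : ℂ) * z ∈ {z : ℂ | 0 < z.re} := by
    intro z hz
    rw [mem_ball_zero_iff] at hz
    show 0 < ((k : ℂ) + (k : ℂ) * z).re
    have h1 : ((k : ℂ) + (k : ℂ) * z).re = k * (1 + z.re) := by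
      simp
      ring
    rw [h1]
    have h2 := (abs_le.1 (Complex.abs_re_le_norm z)).1
    have : 0 < 1 + z.re := by linarith
    positivity
  refine ⟨fun z => f ((k : ℂ) + (k : ℂ) * z), hf.affC _ _ hre, fun z hz => hfF _ (hre z hz),
    Finset.Ico (k - k / 2) k, fun l => ((l : ℂ) - k) / k, ?_, ?_, ?_, ?_⟩
  · intro l hl
    exact (Finset.mem_Ico.1 hl).2
  · rw [Nat.card_Ico, Real.rpow_one]
    have h1 : k ≤ 4 * (k - (k - k / 2)) := by omega
    have h2 : (k : ℝ) ≤ 4 * ((k - (k - k / 2) : ℕ) : ℝ) := by exact_mod_cast h1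
    linarith
  · intro l _ l' _ h
    have h1 : ((l : ℂ) - k) / k = ((l' : ℂ) - k) / k := h
    rw [div_left_inj' hkc, sub_left_inj] at h1
    exact_mod_cast h1
  · intro l hl
    have hl' : k - k / 2 ≤ l ∧ l ≤ k := by
      rcases Finset.mem_insert.1 hl with h | h
      · omega
      · have := Finset.mem_Ico.1 h
        omega
    refine ⟨?_, ?_⟩
    · rw [norm_div, Complex.norm_natCast, div_le_iff₀ hk0]
      have h1 : (l : ℂ) - k = (((l : ℝ) - k : ℝ) : ℂ) := by push_cast; rfl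
      rw [h1, Complex.norm_real, Real.norm_eq_abs, abs_le]
      have h2 : k ≤ 2 * l + 1 := by omega
      have h3 : k ≤ 2 * l := by omega
      have h4 : (k : ℝ) ≤ 2 * l := by exact_mod_cast h3
      have h5 : (l : ℝ) ≤ k := by exact_mod_cast hl'.2
      constructor <;> linarith
    · show f ((k : ℂ) + (k : ℂ) * (((l : ℂ) - k) / k)) = _
      rw [mul_div_cancel₀ _ hkc, add_sub_cancel]
      exact hfx l (by omega)

/-- **Holomorphic maps from the half plane.** -/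
theorem half_main {F : Set (MvPolynomial (Fin (N + 1)) ℂ)} (hF : ∀ G ∈ F, ∃ e, G.IsHomogeneous e)
    (hX : ∀ g : ℂ → ℙ ℂ (Fin (N + 1) → ℂ), Holo univ g → (∀ t, g t ∈ Zeros F) → ∀ t, g t = g 0)
    {m : ℕ} (hm : 2 ≤ m) :
    ∃ ε : ℝ, 0 < ε ∧ ∀ (L : Type) [Field L] [NumberField L] (σ : L →+* ℂ)
      (x : ℕ → Fin (N + 1) → L) (hx : ∀ k, (fun j => σ (x k j)) ≠ 0)
      (f : ℂ → ℙ ℂ (Fin (N + 1) → ℂ)), Holo {z | 0 < z.re} f →
      (∀ z : ℂ, 0 < z.re → f z ∈ Zeros F) →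
      (∀ᶠ k : ℕ in atTop, f k = Projectivization.mk ℂ _ (hx k)) →
      (∀ n : ℕ, ∃ i : Fin (m + 1) → Fin (N + 1), ∀ (Q : MvPolynomial (Fin (m + 1)) ℂ) (d : ℕ),
        Q.IsHomogeneous d → Q ≠ 0 → ∃ k, n ≤ k ∧ eval (fun l => σ (x k (i l))) Q ≠ 0) →
      ∃ᶠ k : ℕ in atTop, ε * (k : ℝ) ^ (1 - 1 / m : ℝ) ≤ logHeight (x k) := by
  obtain ⟨ε, hε, h⟩ := seq_main hF hX (m := m) (θ := 1) (δ := 1 / 4) (r := 1 / 2) (by
    rw [mul_one]
    exact_mod_cast hm) (by norm_num) (by norm_num)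
  refine ⟨ε, hε, fun L _ _ σ x hx f hf hfF hfx hdim => ?_⟩
  obtain ⟨n, hn⟩ := eventually_atTop.1 hfx
  exact h L σ x hx (eventually_atTop.2 ⟨4 * n + 4, fun k hk =>
    half_disc σ x hx f hf hfF n hn k hk⟩) hdim

end Pool.Agent.H434.Disc
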