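import Mathlib
import Pool.Agent.H434.J4

/-!
Families of rational points of hyperbolic varieties which are, locally, on holomorphic discs: the
version for arbitrary countable families.
-/

set_option autoImplicit false

open Metric Set Filter Topology Finset MvPolynomial
open Height Height.AdmissibleAbsValues
open scoped LinearAlgebra.Projectivization

namespace Pool.Agent.H434.Disc

variable {N : ℕ}

/-- **The determinant, row by row.** -/
theorem det_rows' {J : Type} (code : J → ℕ) {F : Set (MvPolynomial (Fin (N + 1)) ℂ)} {r C c : ℝ} (hC : 1 ≤ C)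
    (hkey : ∀ φ : ℂ → ℙ ℂ (Fin (N + 1) → ℂ),
      Holo (ball 0 1) φ → (∀ z ∈ ball (0 : ℂ) 1, φ z ∈ Zeros F) →
      ∀ (d : ℕ) (G : (Fin (N + 1) → ℂ) → ℂ), Differentiable ℂ G →
        (∀ (a : ℂ) (u : Fin (N + 1) → ℂ), G (a • u) = a ^ d * G u) →
        ∀ B : ℝ, 0 ≤ B → (∀ u, ‖G u‖ ≤ B * ‖u‖ ^ d) → ∀ W : Finset ℂ,
        (∀ w ∈ W, ‖w‖ ≤ r ∧ G (φ w).rep = 0) → ∀ z : ℂ, ‖z‖ ≤ r →
        ‖G (φ z).rep‖ ≤ B * C ^ d * Real.exp (-(c * W.card)) * ‖(φ z).rep‖ ^ d)
    {m D s : ℕ} (e : Fin D → Fin m → Fin (s + 1)) (i : Fin (m + 1) → Fin (N + 1))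
    {L : Type} [Field L] (σ : L →+* ℂ) (x : J → Fin (N + 1) → L)
    (hx : ∀ k, (fun j => σ (x k j)) ≠ 0) (n : ℕ) (k : Fin D → J)
    (hk : ∀ j k', n ≤ code k' → code k' < code (k j) →
      mon e i (x k') ∈ Submodule.span L ((fun a => mon e i (x (k a))) '' {a | a < j}))
    (M : Fin D → ℕ)
    (hdisc : ∀ a, ∃ φ : ℂ → ℙ ℂ (Fin (N + 1) → ℂ), Holo (ball 0 1) φ ∧
      (∀ z ∈ ball (0 : ℂ) 1, φ z ∈ Zeros F) ∧ ∃ W : Finset ℂ, M a ≤ W.card ∧
      (∀ w ∈ W, ‖w‖ ≤ r ∧ ∃ k', n ≤ code k' ∧ code k' < code (k a) ∧ φ w = Projectivization.mk ℂ _ (hx k')) ∧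
      ∃ z : ℂ, ‖z‖ ≤ r ∧ φ z = Projectivization.mk ℂ _ (hx (k a))) (hc : 0 ≤ c) :
    ‖Matrix.det (Matrix.of fun a => mon e i (fun j => σ (x (k a) j)))‖ ≤
      (Nat.factorial D : ℝ) * (∏ a, C ^ (m * s) * Real.exp (-(c * M a))) *
        ∏ a, ‖fun j => σ (x (k a) j)‖ ^ (m * s) := by
  classical
  set d := m * s with hd
  have main : ∀ n' : ℕ, n' ≤ D → ∀ u : Fin D → Fin (N + 1) → ℂ,
      (∀ a : Fin D, (a : ℕ) < n' → u a = fun j => σ (x (k a) j)) →
      ‖Matrix.det (Matrix.of fun a => mon e i (u a))‖ ≤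
      (Nat.factorial D : ℝ) * (∏ a : Fin D, if (a : ℕ) < n' then C ^ d * Real.exp (-(c * M a))
        else 1) * ∏ a, ‖u a‖ ^ d := by
    intro n'
    induction n' with
    | zero =>
      intro _ u _
      rw [Matrix.det_apply']
      calc ‖∑ π : Equiv.Perm (Fin D), ((Equiv.Perm.sign π : ℤ) : ℂ) *
            ∏ a, (Matrix.of fun a => mon e i (u a)) (π a) a‖ ≤
          ∑ π : Equiv.Perm (Fin D), ‖((Equiv.Perm.sign π : ℤ) : ℂ) *
            ∏ a, (Matrix.of fun a => mon e i (u a)) (π a) a‖ := norm_sum_le _ _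
        _ ≤ ∑ _π : Equiv.Perm (Fin D), ∏ a, ‖u a‖ ^ d := by
            refine Finset.sum_le_sum fun π _ => ?_
            rw [norm_mul]
            have h1 : ‖((Equiv.Perm.sign π : ℤ) : ℂ)‖ = 1 := by
              rcases Int.units_eq_one_or (Equiv.Perm.sign π) with h1 | h1
              · rw [h1]; simp
              · rw [h1]; simp
            rw [h1, one_mul, norm_prod, ← Equiv.prod_comp π (fun a => ‖u a‖ ^ d)]
            exact Finset.prod_le_prod (fun a _ => norm_nonneg _) fun a _ => norm_mon_le e i _ _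
        _ = _ := by
            rw [Finset.sum_const, nsmul_eq_mul, Finset.card_univ, Fintype.card_perm,
              Fintype.card_fin]
            simp
    | succ n' ih =>
      intro hn u hu
      have hn' : n' < D := by omega
      let a0 : Fin D := ⟨n', hn'⟩
      let A : Matrix (Fin D) (Fin D) ℂ := Matrix.of fun a => mon e i (u a)
      let ℓ : (Fin D → ℂ) →ₗ[ℂ] ℂ := (LinearMap.proj a0).comp (Matrix.cramer A.transpose)
      have hℓ : ∀ b, ℓ b = (A.updateRow a0 b).det := fun b => by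
        show Matrix.cramer A.transpose b a0 = _
        rw [Matrix.cramer_transpose_apply]
      have hupd : ∀ w, A.updateRow a0 (mon e i w) =
          Matrix.of fun a => mon e i (Function.update u a0 w a) := by
        intro w
        ext a μ
        rw [Matrix.updateRow_apply]
        by_cases ha : a = a0
        · rw [if_pos ha, Matrix.of_apply, ha, Function.update_self]
        · rw [if_neg ha, Matrix.of_apply, Function.update_of_ne ha]
          rfl
      let G : (Fin (N + 1) → ℂ) → ℂ := fun w => ℓ (mon e i w)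
      have hG : ∀ w, G w = (Matrix.of fun a => mon e i (Function.update u a0 w a)).det := by
        intro w
        show ℓ (mon e i w) = _
        rw [hℓ, hupd]
      have hGu : (Matrix.of fun a => mon e i (u a)).det = G (u a0) := by
        rw [hG, Function.update_eq_self]
      have hGd : Differentiable ℂ G :=
        (LinearMap.toContinuousLinearMap ℓ).differentiable.comp (mon_differentiable e i)
      have hGh : ∀ (a : ℂ) (w : Fin (N + 1) → ℂ), G (a • w) = a ^ d * G w := by
        intro a w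
        show ℓ (mon e i (a • w)) = _
        rw [mon_smul, map_smul, smul_eq_mul]
      let B : ℝ := (Nat.factorial D : ℝ) * (∏ a : Fin D, if (a : ℕ) < n' then
        C ^ d * Real.exp (-(c * M a)) else 1) * ∏ a ∈ Finset.univ.erase a0, ‖u a‖ ^ d
      have hq : ∀ a : Fin D, 0 ≤ if (a : ℕ) < n' then C ^ d * Real.exp (-(c * M a)) else 1 := by
        intro a
        split_ifs
        · positivity
        · exact zero_le_one
      have hB0 : 0 ≤ B := mul_nonneg (mul_nonneg (Nat.cast_nonneg _)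
        (Finset.prod_nonneg fun a _ => hq a)) (Finset.prod_nonneg fun a _ => by positivity)
      have hGB : ∀ w, ‖G w‖ ≤ B * ‖w‖ ^ d := by
        intro w
        rw [hG]
        refine (ih (by omega) (Function.update u a0 w) (fun a ha => ?_)).trans (le_of_eq ?_)
        · have ha0 : a ≠ a0 := by
            rintro rfl
            exact lt_irrefl _ ha
          rw [Function.update_of_ne ha0]
          exact hu a (by omega)
        · have h1 : ∏ a, ‖Function.update u a0 w a‖ ^ d =
              ‖w‖ ^ d * ∏ a ∈ Finset.univ.erase a0, ‖u a‖ ^ d := by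
            rw [← Finset.mul_prod_erase Finset.univ _ (Finset.mem_univ a0), Function.update_self]
            congr 1
            refine Finset.prod_congr rfl fun a ha => ?_
            rw [Function.update_of_ne (Finset.ne_of_mem_erase ha)]
          rw [h1]
          simp only [B]
          ring
      obtain ⟨φ, hφ, hφF, W, hMW, hW, z, hz, hφz⟩ := hdisc a0
      have hzero : ∀ w ∈ W, ‖w‖ ≤ r ∧ G (φ w).rep = 0 := by
        intro w hw
        obtain ⟨h1, k', h2, h3, h4⟩ := hW w hw
        refine ⟨h1, ?_⟩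
        obtain ⟨a, ha, hrep⟩ := rep_mk (hx k')
        rw [h4, hrep, hGh]
        have h5 : G (fun j => σ (x k' j)) = 0 := by
          show ℓ (mon e i (fun j => σ (x k' j))) = 0
          rw [mon_map]
          refine Submodule.span_induction (p := fun y _ => ℓ (fun μ => σ (y μ)) = 0) ?_ ?_ ?_ ?_
            (hk a0 k' h2 h3)
          · rintro _ ⟨b, hb, rfl⟩
            have hb' : b < a0 := hb
            show ℓ (fun μ => σ (mon e i (x (k b)) μ)) = 0
            rw [hℓ]
            have h6 : (fun μ => σ (mon e i (x (k b)) μ)) = A b := by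
              rw [← mon_map]
              show _ = mon e i (u b)
              rw [hu b (by
                have : (b : ℕ) < n' := hb'
                omega)]
            rw [h6]
            exact Matrix.det_zero_of_row_eq hb'.ne (by
              rw [Matrix.updateRow_self, Matrix.updateRow_ne hb'.ne])
          · have h6 : (fun μ : Fin D => σ ((0 : Fin D → L) μ)) = 0 := by
              funext μ
              simp
            rw [h6, map_zero]
          · intro y y' _ _ hy hy'
            have h6 : (fun μ : Fin D => σ ((y + y') μ)) = (fun μ => σ (y μ)) + fun μ => σ (y' μ) := by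
              funext μ
              simp
            rw [h6, map_add, hy, hy', add_zero]
          · intro b y _ hy
            have h6 : (fun μ : Fin D => σ ((b • y) μ)) = σ b • fun μ => σ (y μ) := by
              funext μ
              simp
            rw [h6, map_smul, hy, smul_zero]
        rw [h5, mul_zero]
      have h1 := hkey φ hφ hφF d G hGd hGh B hB0 hGB W hzero z hz
      obtain ⟨b, hb, hrep⟩ := rep_mk (hx (k a0))
      rw [hφz, hrep, hGh, norm_mul, norm_pow, norm_smul, mul_pow] at h1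
      have hbn : 0 < ‖b‖ ^ d := pow_pos (norm_pos_iff.2 hb) _
      have h2 : ‖G (fun j => σ (x (k a0) j))‖ ≤ B * C ^ d * Real.exp (-(c * W.card)) *
          ‖fun j => σ (x (k a0) j)‖ ^ d := by
        refine le_of_mul_le_mul_left (h1.trans (le_of_eq ?_)) hbn
        ring
      rw [hGu, hu a0 (Nat.lt_succ_self n')]
      refine h2.trans ?_
      have h3 : Real.exp (-(c * W.card)) ≤ Real.exp (-(c * M a0)) := by
        apply Real.exp_le_exp.2
        have : (M a0 : ℝ) ≤ W.card := by exact_mod_cast hMW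
        nlinarith
      have h4 : (∏ a : Fin D, if (a : ℕ) < n' + 1 then C ^ d * Real.exp (-(c * M a)) else 1) =
          (C ^ d * Real.exp (-(c * M a0))) *
            ∏ a : Fin D, if (a : ℕ) < n' then C ^ d * Real.exp (-(c * M a)) else 1 := by
        rw [← Finset.mul_prod_erase Finset.univ _ (Finset.mem_univ a0), if_pos (Nat.lt_succ_self n'),
          ← Finset.mul_prod_erase Finset.univ (fun a : Fin D => if (a : ℕ) < n' then _ else _)
            (Finset.mem_univ a0), if_neg (lt_irrefl n'), one_mul]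
        congr 1
        refine Finset.prod_congr rfl fun a ha => ?_
        have ha0 : (a : ℕ) ≠ n' := fun h => Finset.ne_of_mem_erase ha (Fin.ext h)
        by_cases h5 : (a : ℕ) < n'
        · rw [if_pos h5, if_pos (by omega)]
        · rw [if_neg h5, if_neg (by omega)]
      have h5 : ∏ a, ‖u a‖ ^ d = ‖fun j => σ (x (k a0) j)‖ ^ d *
          ∏ a ∈ Finset.univ.erase a0, ‖u a‖ ^ d := by
        rw [← Finset.mul_prod_erase Finset.univ _ (Finset.mem_univ a0), hu a0 (Nat.lt_succ_self n')]
      rw [h4, h5]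
      calc B * C ^ d * Real.exp (-(c * W.card)) * ‖fun j => σ (x (k a0) j)‖ ^ d ≤
          B * C ^ d * Real.exp (-(c * M a0)) * ‖fun j => σ (x (k a0) j)‖ ^ d := by
            refine mul_le_mul_of_nonneg_right ?_ (by positivity)
            exact mul_le_mul_of_nonneg_left h3 (by positivity)
        _ = _ := by
            simp only [B]
            ring
  have h1 := main D le_rfl (fun a => fun j => σ (x (k a) j)) (fun a _ => rfl)
  refine h1.trans (le_of_eq ?_)
  congr 2
  refine Finset.prod_congr rfl fun a _ => ?_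
  rw [if_pos a.2]

/-- the greedy choice for families -/
theorem greedyJ {J L : Type} [Field L] {D : ℕ} (code : J → ℕ) (hcode : Function.Injective code)
    (v : J → Fin D → L) (n : ℕ) (hspan : Submodule.span L (v '' {j | n ≤ code j}) = ⊤) :
    ∃ k : Fin D → J, Function.Injective k ∧ (∀ a, n ≤ code (k a)) ∧
      LinearIndependent L (fun a => v (k a)) ∧
      ∀ a j, n ≤ code j → code j < code (k a) →
        v j ∈ Submodule.span L ((fun i => v (k i)) '' {i | i < a}) := by
  classical
  let v' : ℕ → Fin D → L := fun q => if h : ∃ j, code j = q then v h.choose else 0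
  have hv' : ∀ j, v' (code j) = v j := by
    intro j
    have h : ∃ j', code j' = code j := ⟨j, rfl⟩
    simp only [v', dif_pos h]
    rw [hcode h.choose_spec]
  obtain ⟨k, hk1, hk2, hk3, hk4⟩ := greedy v' n (by
    rw [eq_top_iff, ← hspan]
    refine Submodule.span_mono ?_
    rintro _ ⟨j, hj, rfl⟩
    exact ⟨code j, hj, hv' j⟩)
  have hex : ∀ a, ∃ j, code j = k a := by
    intro a
    by_contra h
    apply hk3.ne_zero a
    simp only [v', dif_neg h]
  choose k' hk' using hex
  have hvk : ∀ a, v' (k a) = v (k' a) := fun a => by rw [← hk' a, hv']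
  refine ⟨k', fun a b hab => ?_, fun a => ?_, ?_, fun a j hj hja => ?_⟩
  · exact hk1.injective (by rw [← hk' a, ← hk' b, hab])
  · rw [hk' a]
    exact hk2 a
  · simp only [hvk] at hk3
    exact hk3
  · rw [hk' a] at hja
    have h1 := hk4 a (code j) hj hja
    rw [hv'] at h1
    simp only [hvk] at h1
    exact h1


/-- the choice of the parameter -/
theorem large' {m : ℕ} {θ : ℝ} (hθ : 1 < m * θ) (hm : 1 ≤ m) (a b c' K A : ℝ) (hK : 0 < K) :
    ∃ s : ℕ, A ≤ ((s : ℝ) + 1) ^ m ∧
      a + b * Real.log ((s : ℝ) + 1) + c' * ((s : ℝ) + 1) < K * ((s : ℝ) + 1) ^ (m * θ) := by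
  set q : ℝ := m * θ with hq
  have h1 : Tendsto (fun T : ℝ => T ^ (-q)) atTop (𝓝 0) := tendsto_rpow_neg_atTop (by linarith)
  have h2 : Tendsto (fun T : ℝ => T ^ (-(q - 1))) atTop (𝓝 0) := tendsto_rpow_neg_atTop (by linarith)
  have h3 : Tendsto (fun T : ℝ => Real.log T / T ^ q) atTop (𝓝 0) :=
    (isLittleO_log_rpow_atTop (by linarith)).tendsto_div_nhds_zero
  have h4 : Tendsto (fun T : ℝ => a * T ^ (-q) + b * (Real.log T / T ^ q) + c' * T ^ (-(q - 1)))
      atTop (𝓝 (a * 0 + b * 0 + c' * 0)) := ((h1.const_mul a).add (h3.const_mul b)).add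
      (h2.const_mul c')
  rw [mul_zero, mul_zero, mul_zero, add_zero, add_zero] at h4
  have h5 : Tendsto (fun s : ℕ => (s : ℝ) + 1) atTop atTop :=
    tendsto_atTop_add_const_right _ _ tendsto_natCast_atTop_atTop
  obtain ⟨s, hs, hsA⟩ := (((h4.comp h5).eventually (gt_mem_nhds hK)).and
    (h5.eventually_ge_atTop A)).exists
  have hT : (0 : ℝ) < (s : ℝ) + 1 := by positivity
  have hT1 : (1 : ℝ) ≤ (s : ℝ) + 1 := by
    have : (0 : ℝ) ≤ s := Nat.cast_nonneg s
    linarith
  refine ⟨s, hsA.trans (le_self_pow₀ hT1 (by omega)), ?_⟩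
  have hTq : (0 : ℝ) < ((s : ℝ) + 1) ^ q := Real.rpow_pos_of_pos hT q
  have h6 := mul_lt_mul_of_pos_right hs hTq
  refine lt_of_eq_of_lt ?_ h6
  show _ = (a * ((s : ℝ) + 1) ^ (-q) + b * (Real.log ((s : ℝ) + 1) / ((s : ℝ) + 1) ^ q) +
    c' * ((s : ℝ) + 1) ^ (-(q - 1))) * ((s : ℝ) + 1) ^ q
  have h7 : ((s : ℝ) + 1) ^ (-q) * ((s : ℝ) + 1) ^ q = 1 := by
    rw [← Real.rpow_add hT, neg_add_cancel, Real.rpow_zero]
  have h8 : ((s : ℝ) + 1) ^ (-(q - 1)) * ((s : ℝ) + 1) ^ q = (s : ℝ) + 1 := by
    rw [← Real.rpow_add hT, show -(q - 1) + q = 1 by ring, Real.rpow_one]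
  have h9 : Real.log ((s : ℝ) + 1) / ((s : ℝ) + 1) ^ q * ((s : ℝ) + 1) ^ q =
      Real.log ((s : ℝ) + 1) := div_mul_cancel₀ _ hTq.ne'
  rw [add_mul, add_mul, mul_assoc, mul_assoc, mul_assoc, h7, h8, h9]
  ring

/-- the sum of the sizes of distinct members of a family -/
theorem sum_size {J : Type} {D : ℕ} (k : Fin D → J) (hk : Function.Injective k) (t : J → ℝ)
    (ht : ∀ j, 0 ≤ t j) {A q : ℝ} (hA : 1 ≤ A) (hq : 0 < q)
    (hcount : ∀ T : ℝ, 1 ≤ T → {j | t j ≤ T}.Finite ∧ ({j | t j ≤ T}.ncard : ℝ) ≤ A * T ^ q)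
    (hD : 2 * A ≤ D) :
    (D : ℝ) * (D : ℝ) ^ (1 / q) ≤ 2 * (2 * A) ^ (1 / q) * ∑ a, t (k a) := by
  classical
  have hA0 : 0 < A := by linarith
  set T : ℝ := ((D : ℝ) / (2 * A)) ^ (1 / q) with hT
  have hD1 : 1 ≤ (D : ℝ) / (2 * A) := by
    rw [one_le_div (by positivity)]
    exact hD
  have hT1 : 1 ≤ T := Real.one_le_rpow hD1 (by positivity)
  obtain ⟨hfin, hcard⟩ := hcount T hT1
  have hTq : T ^ q = (D : ℝ) / (2 * A) := by
    rw [hT, ← Real.rpow_mul (by linarith), one_div_mul_cancel hq.ne', Real.rpow_one]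
  let E : Finset (Fin D) := Finset.univ.filter fun a => t (k a) ≤ T
  have hE : (E.card : ℝ) ≤ D / 2 := by
    have h1 : E.card ≤ {j | t j ≤ T}.ncard := by
      rw [← Set.ncard_coe_finset]
      have h2 : ((E : Finset (Fin D)) : Set (Fin D)).ncard = (k '' (E : Set (Fin D))).ncard :=
        (Set.ncard_image_of_injective _ hk).symm
      rw [h2]
      refine Set.ncard_le_ncard ?_ hfin
      rintro _ ⟨a, ha, rfl⟩
      exact (Finset.mem_filter.1 (Finset.mem_coe.1 ha)).2
    have h2 : (E.card : ℝ) ≤ ({j | t j ≤ T}.ncard : ℝ) := by exact_mod_cast h1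
    refine (h2.trans hcard).trans (le_of_eq ?_)
    rw [hTq]
    field_simp
  have hc : ((Finset.univ.filter fun a => ¬ t (k a) ≤ T).card : ℝ) ≥ D / 2 := by
    have h1 := Finset.card_filter_add_card_filter_not (s := (Finset.univ : Finset (Fin D)))
      (fun a => t (k a) ≤ T)
    rw [Finset.card_univ, Fintype.card_fin] at h1
    have h2 : ((Finset.univ.filter fun a => t (k a) ≤ T).card : ℝ) +
        ((Finset.univ.filter fun a => ¬ t (k a) ≤ T).card : ℝ) = D := by exact_mod_cast h1
    have h3 : ((Finset.univ.filter fun a => t (k a) ≤ T).card : ℝ) ≤ D / 2 := hE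
    linarith
  have h1 : (D : ℝ) / 2 * T ≤ ∑ a, t (k a) := by
    calc (D : ℝ) / 2 * T ≤ ((Finset.univ.filter fun a => ¬ t (k a) ≤ T).card : ℝ) * T :=
          mul_le_mul_of_nonneg_right hc (by linarith)
      _ = ∑ _a ∈ Finset.univ.filter fun a => ¬ t (k a) ≤ T, T := by
          rw [Finset.sum_const, nsmul_eq_mul]
      _ ≤ ∑ a ∈ Finset.univ.filter fun a => ¬ t (k a) ≤ T, t (k a) := by
          refine Finset.sum_le_sum fun a ha => ?_
          exact (not_le.1 (Finset.mem_filter.1 ha).2).le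
      _ ≤ ∑ a, t (k a) := Finset.sum_le_sum_of_subset_of_nonneg (Finset.filter_subset _ _)
          fun a _ _ => ht _
  have h2 : T = (D : ℝ) ^ (1 / q) / (2 * A) ^ (1 / q) := Real.div_rpow (Nat.cast_nonneg _)
    (by positivity) _
  have h3 : (0 : ℝ) < (2 * A) ^ (1 / q) := Real.rpow_pos_of_pos (by positivity) _
  rw [h2, ← mul_div_assoc, div_le_iff₀ h3] at h1
  linarith

theorem ev_code {J : Type} (code : J → ℕ) {P : J → Prop} (h : ∀ᶠ k in cofinite, P k) :
    ∃ n : ℕ, ∀ j, n ≤ code j → P j := by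
  rw [eventually_cofinite] at h
  obtain ⟨n, hn⟩ := (h.image code).bddAbove
  refine ⟨n + 1, fun j hj => ?_⟩
  by_contra h'
  have h1 := hn ⟨j, h', rfl⟩
  omega

/-- **Families of rational points which are, locally, on holomorphic discs.** -/
theorem fam_main {F : Set (MvPolynomial (Fin (N + 1)) ℂ)} (hF : ∀ G ∈ F, ∃ e, G.IsHomogeneous e)
    (hX : ∀ g : ℂ → ℙ ℂ (Fin (N + 1) → ℂ), Holo univ g → (∀ t, g t ∈ Zeros F) → ∀ t, g t = g 0)
    {m : ℕ} {q δ r A : ℝ} (hq : 0 < q) (hqm : q < m) (hδ : 0 < δ) (hr : r < 1) (hA : 1 ≤ A) :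
    ∃ ε : ℝ, 0 < ε ∧ ∀ (J : Type) (code : J → ℕ), Function.Injective code → ∀ (t : J → ℝ),
      (∀ j, 0 < t j) →
      (∀ T : ℝ, 1 ≤ T → {j | t j ≤ T}.Finite ∧ ({j | t j ≤ T}.ncard : ℝ) ≤ A * T ^ q) →
      ∀ (L : Type) [Field L] [NumberField L] (σ : L →+* ℂ)
      (x : J → Fin (N + 1) → L) (hx : ∀ k, (fun j => σ (x k j)) ≠ 0),
      (∀ᶠ k in cofinite, ∃ φ : ℂ → ℙ ℂ (Fin (N + 1) → ℂ), Holo (ball 0 1) φ ∧
        (∀ z ∈ ball (0 : ℂ) 1, φ z ∈ Zeros F) ∧ ∃ (I : Set J) (w : J → ℂ),
          (∀ l ∈ I, code l < code k) ∧ δ * t k ≤ I.ncard ∧ Set.InjOn w I ∧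
          ∀ l ∈ insert k I, ‖w l‖ ≤ r ∧ φ (w l) = Projectivization.mk ℂ _ (hx l)) →
      (∀ E : Set J, E.Finite → ∃ i : Fin (m + 1) → Fin (N + 1),
        ∀ (Q : MvPolynomial (Fin (m + 1)) ℂ) (d : ℕ),
        Q.IsHomogeneous d → Q ≠ 0 → ∃ k, k ∉ E ∧ eval (fun l => σ (x k (i l))) Q ≠ 0) →
      ∃ᶠ k in cofinite, ε * t k ^ (1 - q / m) ≤ logHeight (x k) := by
  classical
  obtain ⟨C, c, hC, hc, hkey⟩ := key hF hX hr
  have hm : (0 : ℝ) < m := hq.trans hqm
  have hm1 : 1 ≤ m := by
    have : 0 < m := by exact_mod_cast hm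
    omega
  have hA0 : 0 < A := by linarith
  set θ : ℝ := 1 / q with hθd
  have hθ : 1 < m * θ := by
    rw [hθd, mul_one_div, one_lt_div hq]
    exact hqm
  have hθ0 : 0 < θ := by positivity
  have hqm' : 0 < 1 - q / m := by
    rw [sub_pos, div_lt_one hm]
    exact hqm
  set K1 : ℝ := 2 * (2 * A) ^ (1 / q) with hK1
  have hK1p : 0 < K1 := by
    have : (0 : ℝ) < (2 * A) ^ (1 / q) := Real.rpow_pos_of_pos (by positivity) _
    positivity
  refine ⟨c * δ / (2 * m * (1 + K1)), by positivity, fun J code hcode t ht hcount L _ _ σ x hx hdisc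
    hdim => ?_⟩
  set ε : ℝ := c * δ / (2 * m * (1 + K1)) with hε
  have hε0 : 0 < ε := by positivity
  by_contra hcon
  rw [Filter.not_frequently] at hcon
  obtain ⟨n, hn⟩ := ev_code code (hdisc.and hcon)
  obtain ⟨i, hi⟩ := hdim {j | code j < n} ((Set.finite_Iio n).preimage hcode.injOn)
  set κ : ℝ := (Module.finrank ℚ L : ℝ) with hκ
  obtain ⟨s, hsA, hs⟩ := large' hθ hm1 (c * n) (κ * m) (m * Real.log C) (c * δ / (2 * K1)) (2 * A)
    (by positivity)
  set T : ℝ := (s : ℝ) + 1 with hT
  have hT1 : 1 ≤ T := by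
    rw [hT]
    have : (0 : ℝ) ≤ s := Nat.cast_nonneg s
    linarith
  have hT0 : 0 < T := by linarith
  set D : ℕ := (s + 1) ^ m with hD
  have hDT : (D : ℝ) = T ^ m := by
    rw [hD, hT]
    push_cast
    rfl
  have hD1 : 1 ≤ D := Nat.one_le_pow _ _ (by omega)
  have hDA : 2 * A ≤ D := by rw [hDT]; exact hsA
  have hcard : Fintype.card (Fin m → Fin (s + 1)) = D := by simp [hD]
  let e : Fin D ≃ (Fin m → Fin (s + 1)) := (Fintype.equivFinOfCardEq hcard).symm
  have hx0 : ∀ k, x k ≠ 0 := by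
    intro k h0
    apply hx k
    funext j
    rw [h0]
    simp
  -- the vectors span
  have hspan : Submodule.span L ((fun k => mon e i (x k)) '' {j | n ≤ code j}) = ⊤ := by
    by_contra hS
    obtain ⟨f, hf0, hf⟩ := Submodule.exists_le_ker_of_lt_top _ (lt_top_iff_ne_top.2 hS)
    let cf : (Fin m → Fin (s + 1)) → L := fun μ => f (Pi.single (e.symm μ) 1)
    have hfs : ∀ y : Fin D → L, f y = ∑ μ : Fin D, y μ * f (Pi.single μ 1) := by
      intro y
      have h1 : y = ∑ μ : Fin D, y μ • (Pi.single μ 1 : Fin D → L) := by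
        funext l
        rw [Finset.sum_apply, Finset.sum_eq_single l]
        · simp
        · intro b _ hb
          simp [Ne.symm hb]
        · intro h
          exact absurd (Finset.mem_univ _) h
      conv_lhs => rw [h1]
      rw [map_sum]
      refine Finset.sum_congr rfl fun μ _ => ?_
      rw [map_smul, smul_eq_mul]
    have hcf : cf ≠ 0 := by
      intro h0
      apply hf0
      ext y
      have h1 : f (Pi.single y 1) = 0 := by
        have h2 := congrFun h0 (e y)
        simp only [cf, Equiv.symm_apply_apply, Pi.zero_apply] at h2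
        exact h2
      simpa using h1
    obtain ⟨k, hk, hne⟩ := hi (map σ (frm cf)) (m * s) ((frm_hom cf).map σ) (by
      intro h0
      exact frm_ne cf hcf ((map_injective σ σ.injective) (by rw [h0, map_zero])))
    have hk' : n ≤ code k := not_lt.1 hk
    apply hne
    have h1 : eval (fun l => x k (i l)) (frm cf) = 0 := by
      have h2 : f (mon e i (x k)) = 0 := hf (Submodule.subset_span ⟨k, hk', rfl⟩)
      rw [hfs] at h2
      rw [eval_frm, ← h2, ← Equiv.sum_comp e]
      refine Finset.sum_congr rfl fun μ _ => ?_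
      simp only [cf, Equiv.symm_apply_apply, mon]
      ring
    have h2 : eval (fun l => σ (x k (i l))) (map σ (frm cf)) = σ (eval (fun l => x k (i l)) (frm cf)) := by
      rw [eval_map, eval₂_comp, ← Function.comp_def σ]
    rw [h2, h1, map_zero]
  obtain ⟨k, hk1, hk2, hk3, hk4⟩ := greedyJ code hcode (fun k => mon e i (x k)) n hspan
  -- the discs
  have hdisc' : ∀ a : Fin D, ∃ Ma : ℕ, δ * t (k a) - n ≤ Ma ∧
      ∃ φ : ℂ → ℙ ℂ (Fin (N + 1) → ℂ), Holo (ball 0 1) φ ∧
      (∀ z ∈ ball (0 : ℂ) 1, φ z ∈ Zeros F) ∧ ∃ W : Finset ℂ, Ma ≤ W.card ∧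
      (∀ w ∈ W, ‖w‖ ≤ r ∧ ∃ k', n ≤ code k' ∧ code k' < code (k a) ∧
        φ w = Projectivization.mk ℂ _ (hx k')) ∧
      ∃ z : ℂ, ‖z‖ ≤ r ∧ φ z = Projectivization.mk ℂ _ (hx (k a)) := by
    intro a
    obtain ⟨φ, hφ, hφF, I, w, hI1, hI2, hI3, hI4⟩ := (hn (k a) (hk2 a)).1
    have hIfin : I.Finite := ((Set.finite_Iio (code (k a))).preimage hcode.injOn).subset
      (fun l hl => hI1 l hl)
    let I0 : Finset J := hIfin.toFinset
    have hI0c : I.ncard = I0.card := Set.ncard_eq_toFinset_card I hIfin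
    have hI0m : ∀ l, l ∈ I0 ↔ l ∈ I := fun l => hIfin.mem_toFinset
    let I' : Finset J := I0.filter fun l => n ≤ code l
    have hI' : (I0.card : ℝ) ≤ I'.card + n := by
      have h1 : I0.card ≤ I'.card + n := by
        have h2 := Finset.card_filter_add_card_filter_not (s := I0) (fun l => n ≤ code l)
        have h3 : (I0.filter fun l => ¬ n ≤ code l).card ≤ n := by
          calc (I0.filter fun l => ¬ n ≤ code l).card =
                ((I0.filter fun l => ¬ n ≤ code l).image code).card :=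
                (Finset.card_image_of_injective _ hcode).symm
            _ ≤ (Finset.range n).card := by
                apply Finset.card_le_card
                intro l hl
                obtain ⟨l', hl', rfl⟩ := Finset.mem_image.1 hl
                have := (Finset.mem_filter.1 hl').2
                exact Finset.mem_range.2 (by omega)
            _ = n := Finset.card_range n
        show I0.card ≤ (I0.filter fun l => n ≤ code l).card + n
        omega
      exact_mod_cast h1
    rw [hI0c] at hI2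
    refine ⟨I'.card, by linarith, φ, hφ, hφF, I'.image w, ?_, ?_, w (k a),
      (hI4 _ (Set.mem_insert _ _)).1, (hI4 _ (Set.mem_insert _ _)).2⟩
    · rw [Finset.card_image_of_injOn (hI3.mono (by
        intro l hl
        exact (hI0m l).1 (Finset.mem_filter.1 hl).1))]
    · intro y hy
      obtain ⟨l, hl, rfl⟩ := Finset.mem_image.1 hy
      obtain ⟨hl1, hl2⟩ := Finset.mem_filter.1 hl
      have hl3 := (hI0m l).1 hl1
      have h1 := hI4 l (Set.mem_insert_of_mem _ hl3)
      exact ⟨h1.1, l, hl2, hI1 l hl3, h1.2⟩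
  choose M hM1 hM2 using hdisc'
  have hdet := det_rows' code (F := F) hC hkey e i σ x hx n k hk4 M hM2 hc.le
  have hli := liou σ e i (fun a => x (k a)) (fun a => hx0 _) hk3 (by positivity) hdet
  have hst := star (m := m) (s := s) hD1 (fun a => x (k a)) hC M hli
  -- the heights
  have hht : ∀ a, ((m * s : ℕ) : ℝ) * logHeight (x (k a)) ≤
      m * ε * (t (k a) + (D : ℝ) ^ θ) := by
    intro a
    have h1 := (hn (k a) (hk2 a)).2
    rw [not_le] at h1
    have hkpos : (0 : ℝ) < t (k a) := ht _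
    have h2 : ((m * s : ℕ) : ℝ) ≤ m * T := by
      push_cast
      rw [hT]
      nlinarith
    have hDpos : (0 : ℝ) < D := by exact_mod_cast hD1
    have h3 : T * t (k a) ^ (1 - q / m) ≤ t (k a) + (D : ℝ) ^ θ := by
      have hTm : T = (D : ℝ) ^ (1 / (m : ℝ)) := by
        rw [hDT, ← Real.rpow_natCast, ← Real.rpow_mul hT0.le, mul_one_div_cancel hm.ne',
          Real.rpow_one]
      rcases le_total ((D : ℝ) ^ θ) (t (k a)) with h4 | h4
      · have h5 : T ≤ t (k a) ^ (q / m) := by
          have h6 : T = ((D : ℝ) ^ θ) ^ (q / m) := by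
            rw [hTm, ← Real.rpow_mul hDpos.le, hθd]
            congr 1
            field_simp
          rw [h6]
          exact Real.rpow_le_rpow (Real.rpow_nonneg hDpos.le _) h4 (by positivity)
        have h6 : t (k a) ^ (q / m) * t (k a) ^ (1 - q / m) = t (k a) := by
          rw [← Real.rpow_add hkpos, add_sub_cancel, Real.rpow_one]
        have h7 : 0 ≤ t (k a) ^ (1 - q / m) := Real.rpow_nonneg hkpos.le _
        have h8 := mul_le_mul_of_nonneg_right h5 h7
        have h9 : 0 ≤ (D : ℝ) ^ θ := Real.rpow_nonneg (Nat.cast_nonneg _) _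
        linarith
      · have h5 : t (k a) ^ (1 - q / m) ≤ ((D : ℝ) ^ θ) ^ (1 - q / m) :=
          Real.rpow_le_rpow hkpos.le h4 hqm'.le
        have h6 : (D : ℝ) ^ (1 / (m : ℝ)) * ((D : ℝ) ^ θ) ^ (1 - q / m) = (D : ℝ) ^ θ := by
          rw [← Real.rpow_mul hDpos.le, ← Real.rpow_add hDpos, hθd]
          congr 1
          field_simp
          ring
        have h8 := mul_le_mul_of_nonneg_left h5 hT0.le
        rw [← hTm] at h6
        linarith
    have h10 : 0 ≤ t (k a) ^ (1 - q / m) := Real.rpow_nonneg hkpos.le _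
    calc ((m * s : ℕ) : ℝ) * logHeight (x (k a)) ≤
          ((m * s : ℕ) : ℝ) * (ε * t (k a) ^ (1 - q / m)) :=
          mul_le_mul_of_nonneg_left h1.le (Nat.cast_nonneg _)
      _ ≤ (m * T) * (ε * t (k a) ^ (1 - q / m)) :=
          mul_le_mul_of_nonneg_right h2 (by positivity)
      _ = m * ε * (T * t (k a) ^ (1 - q / m)) := by ring
      _ ≤ _ := mul_le_mul_of_nonneg_left h3 (by positivity)
  set Sg : ℝ := ∑ a, t (k a) with hSg
  have hsum := sum_size k hk1 t (fun j => (ht j).le) hA hq hcount hDA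
  rw [← hK1, ← hSg, ← hθd] at hsum
  have hH : ∑ a, ((m * s : ℕ) : ℝ) * logHeight (x (k a)) ≤ c * δ / 2 * Sg := by
    calc ∑ a, ((m * s : ℕ) : ℝ) * logHeight (x (k a)) ≤
          ∑ a : Fin D, m * ε * (t (k a) + (D : ℝ) ^ θ) := Finset.sum_le_sum fun a _ => hht a
      _ = m * ε * (Sg + D * (D : ℝ) ^ θ) := by
          rw [← Finset.mul_sum, Finset.sum_add_distrib, Finset.sum_const, Finset.card_univ,
            Fintype.card_fin, nsmul_eq_mul]
      _ ≤ m * ε * (Sg + K1 * Sg) := by
          refine mul_le_mul_of_nonneg_left (by linarith) ?_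
          positivity
      _ = _ := by
          rw [hε]
          field_simp
  have hMs : c * (δ * Sg - D * n) ≤ c * ∑ a, (M a : ℝ) := by
    refine mul_le_mul_of_nonneg_left ?_ hc.le
    have h1 := Finset.sum_le_sum fun a (_ : a ∈ Finset.univ) => hM1 a
    rw [Finset.sum_sub_distrib, ← Finset.mul_sum, Finset.sum_const, Finset.card_univ,
      Fintype.card_fin, nsmul_eq_mul] at h1
    exact h1
  have hDpos : (0 : ℝ) < D := by exact_mod_cast hD1
  have hlogC : 0 ≤ Real.log C := Real.log_nonneg hC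
  have hfin1 : c * δ / 2 * Sg ≤ D * (c * n + κ * Real.log D + (m * T) * Real.log C) := by
    have h2 : ((m * s : ℕ) : ℝ) * Real.log C ≤ (m * T) * Real.log C := by
      refine mul_le_mul_of_nonneg_right ?_ hlogC
      push_cast
      rw [hT]
      nlinarith
    have h3 := mul_le_mul_of_nonneg_left h2 hDpos.le
    nlinarith [hst, hH, hMs]
  have hfin2 : c * δ / (2 * K1) * (D : ℝ) ^ θ ≤ c * n + κ * Real.log D + (m * T) * Real.log C := by
    refine le_of_mul_le_mul_left ?_ hDpos
    refine le_trans ?_ hfin1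
    have h1 : c * δ / (2 * K1) * (D * (D : ℝ) ^ θ) ≤ c * δ / (2 * K1) * (K1 * Sg) :=
      mul_le_mul_of_nonneg_left hsum (by positivity)
    calc (D : ℝ) * (c * δ / (2 * K1) * (D : ℝ) ^ θ) = c * δ / (2 * K1) * (D * (D : ℝ) ^ θ) := by ring
      _ ≤ c * δ / (2 * K1) * (K1 * Sg) := h1
      _ = _ := by field_simp
  have h1 : (D : ℝ) ^ θ = T ^ (m * θ) := by
    rw [hDT, ← Real.rpow_natCast, ← Real.rpow_mul hT0.le]
  have h2 : Real.log D = m * Real.log T := by
    rw [hDT, Real.log_pow]
  rw [h1, h2] at hfin2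
  have h3 : c * n + κ * (m * Real.log T) + m * T * Real.log C =
      c * n + κ * m * Real.log T + m * Real.log C * T := by ring
  rw [h3] at hfin2
  linarith

end Pool.Agent.H434.Disc
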