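import Mathlib
import Pool.Agent.H434.J6

/-!
The values at the integral points of holomorphic maps from products of half planes to hyperbolic
varieties.
-/

set_option autoImplicit false

open Metric Set Filter Topology Finset MvPolynomial
open Height Height.AdmissibleAbsValues
open scoped LinearAlgebra.Projectivization

namespace Pool.Agent.H434.Disc

variable {N : ℕ}

/-- an injective function which is increasing in every variable -/
def codeP : (p : ℕ) → (Fin p → ℕ) → ℕ
  | 0, _ => 0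
  | p + 1, n => Nat.pair (n 0) (codeP p (Fin.tail n))

theorem codeP_injective : ∀ p : ℕ, Function.Injective (codeP p) := by
  intro p
  induction p with
  | zero =>
    intro a b _
    exact Subsingleton.elim _ _
  | succ p ih =>
    intro a b h
    have h' : Nat.pair (a 0) (codeP p (Fin.tail a)) = Nat.pair (b 0) (codeP p (Fin.tail b)) := h
    obtain ⟨h1, h2⟩ := Nat.pair_eq_pair.1 h'
    have h3 := ih h2
    funext i
    refine Fin.cases h1 (fun j => ?_) i
    exact congrFun h3 j

theorem codeP_lt : ∀ (p : ℕ) (n : Fin p → ℕ) (a : Fin p) (l : ℕ), l < n a →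
    codeP p (Function.update n a l) < codeP p n := by
  intro p
  induction p with
  | zero =>
    intro _ a
    exact a.elim0
  | succ p ih =>
    intro n a l hl
    show Nat.pair (Function.update n a l 0) (codeP p (Fin.tail (Function.update n a l))) <
      Nat.pair (n 0) (codeP p (Fin.tail n))
    revert hl
    refine Fin.cases ?_ (fun b => ?_) a
    · intro hl
      rw [Function.update_self, Fin.tail_update_zero]
      exact Nat.pair_lt_pair_left _ hl
    · intro hl
      rw [Function.update_of_ne (Fin.succ_ne_zero b).symm, Fin.tail_update_succ]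
      exact Nat.pair_lt_pair_right _ (ih (Fin.tail n) b l hl)

/-- the size of an integral point -/
def sz {p : ℕ} (n : Fin p → ℕ) : ℕ := Finset.univ.sup n + 1

theorem sz_count {p : ℕ} (T : ℝ) (hT : 1 ≤ T) : {n : Fin p → ℕ | (sz n : ℝ) ≤ T}.Finite ∧
    ({n : Fin p → ℕ | (sz n : ℝ) ≤ T}.ncard : ℝ) ≤ T ^ (p : ℝ) := by
  classical
  let S : Finset (Fin p → ℕ) := Fintype.piFinset fun _ => Finset.range ⌊T⌋₊
  have hsub : {n : Fin p → ℕ | (sz n : ℝ) ≤ T} ⊆ (S : Set (Fin p → ℕ)) := by
    intro n hn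
    rw [Finset.mem_coe, Fintype.mem_piFinset]
    intro i
    rw [Finset.mem_range]
    have h1 : n i + 1 ≤ sz n := by
      have : n i ≤ Finset.univ.sup n := Finset.le_sup (f := n) (Finset.mem_univ i)
      unfold sz
      omega
    have h2 : ((n i + 1 : ℕ) : ℝ) ≤ T := le_trans (by exact_mod_cast h1) hn
    exact Nat.le_floor h2
  have hfin : {n : Fin p → ℕ | (sz n : ℝ) ≤ T}.Finite := S.finite_toSet.subset hsub
  refine ⟨hfin, ?_⟩
  have h1 := Set.ncard_le_ncard hsub S.finite_toSet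
  rw [Set.ncard_coe_finset, Fintype.card_piFinset] at h1
  simp only [Finset.card_range, Finset.prod_const, Finset.card_univ, Fintype.card_fin] at h1
  rw [Real.rpow_natCast]
  calc ({n : Fin p → ℕ | (sz n : ℝ) ≤ T}.ncard : ℝ) ≤ ((⌊T⌋₊ ^ p : ℕ) : ℝ) := by exact_mod_cast h1
    _ = (⌊T⌋₊ : ℝ) ^ p := by push_cast; rfl
    _ ≤ T ^ p := pow_le_pow_left₀ (Nat.cast_nonneg _) (Nat.floor_le (by linarith)) _

/-- many earlier points are on a disc with the `n`-th one -/
theorem poly_disc {F : Set (MvPolynomial (Fin (N + 1)) ℂ)} {p : ℕ} {L : Type} [Field L]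
    (σ : L →+* ℂ) (x : (Fin p → ℕ) → Fin (N + 1) → L) (hx : ∀ k, (fun j => σ (x k j)) ≠ 0)
    (f : (Fin p → ℂ) → ℙ ℂ (Fin (N + 1) → ℂ)) (hf : Holo {z | ∀ i, 0 < (z i).re} f)
    (hfF : ∀ z : Fin p → ℂ, (∀ i, 0 < (z i).re) → f z ∈ Zeros F) (E : Finset (Fin p → ℕ))
    (hfx : ∀ n : Fin p → ℕ, n ∉ E → f (fun i => (n i : ℂ) + 1) = Projectivization.mk ℂ _ (hx n))
    (n : Fin p → ℕ) (hn : n ∉ E) (a : Fin p) (ha : n a = Finset.univ.sup n)
    (hna : 4 * E.card + 4 ≤ n a) :
    ∃ φ : ℂ → ℙ ℂ (Fin (N + 1) → ℂ), Holo (ball 0 1) φ ∧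
        (∀ z ∈ ball (0 : ℂ) 1, φ z ∈ Zeros F) ∧ ∃ (I : Set (Fin p → ℕ)) (w : (Fin p → ℕ) → ℂ),
          (∀ l ∈ I, codeP p l < codeP p n) ∧ (1 / 4 : ℝ) * (sz n : ℝ) ≤ I.ncard ∧ Set.InjOn w I ∧
          ∀ l ∈ insert n I, ‖w l‖ ≤ 1 / 2 ∧ φ (w l) = Projectivization.mk ℂ _ (hx l) := by
  classical
  let T : ℂ := (n a : ℂ) + 1
  have hTr : T = ((n a + 1 : ℝ) : ℂ) := by push_cast; rfl
  have hT0 : T ≠ 0 := by
    rw [hTr, Ne, Complex.ofReal_eq_zero]
    positivity
  have hTn : ‖T‖ = (n a : ℝ) + 1 := by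
    rw [hTr, Complex.norm_real, Real.norm_of_nonneg (by positivity)]
  let z0 : Fin p → ℂ := fun i => (n i : ℂ) + 1
  have hz0 : ∀ i, 0 < (z0 i).re := by
    intro i
    simp only [z0]
    rw [Complex.add_re, Complex.natCast_re, Complex.one_re]
    positivity
  let ℓ : ℂ → Fin p → ℂ := fun w => Function.update z0 a (T + T * w)
  have hℓ : ∀ w, AnalyticAt ℂ ℓ w := by
    intro w
    rw [analyticAt_pi_iff]
    intro i
    by_cases hi : i = a
    · subst hi
      have h1 : (fun w => ℓ w i) = fun w => T + T * w := by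
        funext w
        simp only [ℓ, Function.update_self]
      rw [h1]
      exact analyticAt_const.add (analyticAt_const.mul analyticAt_id)
    · have h1 : (fun w => ℓ w i) = fun _ => z0 i := by
        funext w
        simp only [ℓ, Function.update_of_ne hi]
      rw [h1]
      exact analyticAt_const
  have hre : ∀ z ∈ ball (0 : ℂ) 1, ∀ i, 0 < (ℓ z i).re := by
    intro z hz i
    by_cases hi : i = a
    · subst hi
      simp only [ℓ, Function.update_self]
      have h1 : (T + T * z).re = (n i + 1) * (1 + z.re) := by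
        rw [hTr, Complex.add_re, Complex.re_ofReal_mul, Complex.ofReal_re]
        ring
      rw [h1]
      rw [mem_ball_zero_iff] at hz
      have h2 := (abs_le.1 (Complex.abs_re_le_norm z)).1
      have : 0 < 1 + z.re := by linarith
      positivity
    · simp only [ℓ, Function.update_of_ne hi]
      exact hz0 i
  have hholo : Holo (ball 0 1) (fun w => f (ℓ w)) := by
    intro z hz
    obtain ⟨W, g, hW, hzW, hg, hgf⟩ := hf (ℓ z) (hre z hz)
    have hcont : Continuous ℓ := continuous_iff_continuousAt.2 fun w => (hℓ w).continuousAt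
    exact ⟨ℓ ⁻¹' W, fun z => g (ℓ z), hW.preimage hcont, hzW,
      fun w hw => AnalyticAt.comp (f := ℓ) (hg _ hw) (hℓ w), fun w hw => hgf _ hw⟩
  let I0 : Finset (Fin p → ℕ) := (Finset.Ico (n a - (n a + 1) / 2) (n a)).image
    (fun l => Function.update n a l)
  have hI0c : I0.card = (n a + 1) / 2 := by
    rw [Finset.card_image_of_injective _ (Function.update_injective n a), Nat.card_Ico]
    omega
  let I1 : Finset (Fin p → ℕ) := I0 \ E
  have hI1c : I0.card ≤ I1.card + E.card := by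
    have := Finset.le_card_sdiff E I0
    show I0.card ≤ (I0 \ E).card + E.card
    omega
  have hmem : ∀ j ∈ I1, j ∉ E ∧ ∃ l, n a ≤ l + (n a + 1) / 2 ∧ l < n a ∧
      j = Function.update n a l := by
    intro j hj
    obtain ⟨h1, h2⟩ := Finset.mem_sdiff.1 hj
    obtain ⟨l, hl, rfl⟩ := Finset.mem_image.1 h1
    rw [Finset.mem_Ico] at hl
    exact ⟨h2, l, by omega, hl.2, rfl⟩
  let w : (Fin p → ℕ) → ℂ := fun j => ((j a : ℂ) - n a) / T
  have hval : ∀ (l : ℕ), f (ℓ (((l : ℂ) - n a) / T)) =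
      f (fun i => ((Function.update n a l i : ℕ) : ℂ) + 1) := by
    intro l
    congr 1
    funext i
    by_cases hi : i = a
    · subst hi
      simp only [ℓ, Function.update_self]
      rw [mul_div_cancel₀ _ hT0]
      simp only [T]
      ring
    · simp only [ℓ, Function.update_of_ne hi]
      rfl
  refine ⟨fun w => f (ℓ w), hholo, fun z hz => hfF _ (hre z hz), (I1 : Set (Fin p → ℕ)), w,
    ?_, ?_, ?_, ?_⟩
  · intro j hj
    obtain ⟨-, l, -, hl, rfl⟩ := hmem j (Finset.mem_coe.1 hj)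
    exact codeP_lt p n a l hl
  · rw [Set.ncard_coe_finset]
    have h1 : sz n ≤ 4 * I1.card := by
      unfold sz
      rw [← ha]
      omega
    have h2 : (sz n : ℝ) ≤ 4 * I1.card := by exact_mod_cast h1
    linarith
  · intro j hj j' hj' h
    obtain ⟨-, l, -, -, rfl⟩ := hmem j (Finset.mem_coe.1 hj)
    obtain ⟨-, l', -, -, rfl⟩ := hmem j' (Finset.mem_coe.1 hj')
    have h1 : (((Function.update n a l a : ℕ) : ℂ) - n a) / T =
      (((Function.update n a l' a : ℕ) : ℂ) - n a) / T := h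
    rw [Function.update_self, Function.update_self, div_left_inj' hT0, sub_left_inj] at h1
    have h2 : l = l' := by exact_mod_cast h1
    rw [h2]
  · intro j hj
    rcases hj with rfl | hj
    · refine ⟨?_, ?_⟩
      · simp only [w, sub_self, zero_div, norm_zero]
        norm_num
      · have h1 := hval (j a)
        rw [Function.update_eq_self] at h1
        show f (ℓ (((j a : ℂ) - j a) / T)) = _
        rw [h1]
        exact hfx j hn
    · obtain ⟨h0, l, h1, h2, rfl⟩ := hmem j (Finset.mem_coe.1 hj)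
      refine ⟨?_, ?_⟩
      · show ‖(((Function.update n a l a : ℕ) : ℂ) - n a) / T‖ ≤ 1 / 2
        rw [Function.update_self, norm_div, hTn, div_le_iff₀ (by positivity)]
        have h3 : (l : ℂ) - n a = (((l : ℝ) - n a : ℝ) : ℂ) := by push_cast; rfl
        rw [h3, Complex.norm_real, Real.norm_eq_abs, abs_le]
        have h4 : 2 * n a ≤ 2 * l + (n a + 1) := by omega
        have h5 : 2 * (n a : ℝ) ≤ 2 * l + (n a + 1) := by exact_mod_cast h4
        have h6 : (l : ℝ) ≤ n a := by exact_mod_cast h2.le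
        constructor <;> linarith
      · show f (ℓ ((((Function.update n a l a : ℕ) : ℂ) - n a) / T)) = _
        rw [Function.update_self, hval]
        exact hfx _ h0

/-- **Holomorphic maps from products of half planes.** -/
theorem poly_main {F : Set (MvPolynomial (Fin (N + 1)) ℂ)} (hF : ∀ G ∈ F, ∃ e, G.IsHomogeneous e)
    (hX : ∀ g : ℂ → ℙ ℂ (Fin (N + 1) → ℂ), Holo univ g → (∀ t, g t ∈ Zeros F) → ∀ t, g t = g 0)
    {p m : ℕ} (hpm : p < m) :
    ∃ ε : ℝ, 0 < ε ∧ ∀ (L : Type) [Field L] [NumberField L] (σ : L →+* ℂ)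
      (x : (Fin p → ℕ) → Fin (N + 1) → L) (hx : ∀ k, (fun j => σ (x k j)) ≠ 0)
      (f : (Fin p → ℂ) → ℙ ℂ (Fin (N + 1) → ℂ)), Holo {z | ∀ i, 0 < (z i).re} f →
      (∀ z : Fin p → ℂ, (∀ i, 0 < (z i).re) → f z ∈ Zeros F) →
      (∀ᶠ n in cofinite, f (fun i => (n i : ℂ) + 1) = Projectivization.mk ℂ _ (hx n)) →
      (∀ E : Set (Fin p → ℕ), E.Finite → ∃ i : Fin (m + 1) → Fin (N + 1),
        ∀ (Q : MvPolynomial (Fin (m + 1)) ℂ) (d : ℕ),
        Q.IsHomogeneous d → Q ≠ 0 → ∃ k, k ∉ E ∧ eval (fun l => σ (x k (i l))) Q ≠ 0) →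
      ∃ᶠ n in cofinite, ε * (sz n : ℝ) ^ (1 - p / m : ℝ) ≤ logHeight (x n) := by
  classical
  rcases Nat.eq_zero_or_pos p with hp | hp
  · subst hp
    refine ⟨1, one_pos, fun L _ _ σ x hx f _ _ _ hdim => ?_⟩
    exfalso
    obtain ⟨i, hi⟩ := hdim Set.univ Set.finite_univ
    obtain ⟨k, hk, _⟩ := hi 1 0 (isHomogeneous_one _ _) one_ne_zero
    exact hk (Set.mem_univ _)
  obtain ⟨ε, hε, h⟩ := fam_main hF hX (m := m) (q := p) (δ := 1 / 4) (r := 1 / 2) (A := 1)
    (by exact_mod_cast hp) (by exact_mod_cast hpm) (by norm_num) (by norm_num) le_rfl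
  refine ⟨ε, hε, fun L _ _ σ x hx f hf hfF hfx hdim => ?_⟩
  rw [eventually_cofinite] at hfx
  let E : Finset (Fin p → ℕ) := hfx.toFinset
  have hE : ∀ n : Fin p → ℕ, n ∉ E →
      f (fun i => (n i : ℂ) + 1) = Projectivization.mk ℂ _ (hx n) := by
    intro n hn
    by_contra h'
    exact hn (hfx.mem_toFinset.2 h')
  refine h (Fin p → ℕ) (codeP p) (codeP_injective p) (fun n => (sz n : ℝ)) (fun n => by
    unfold sz
    positivity) (fun T hT => by
      rw [one_mul]
      exact sz_count T hT) L σ x hx ?_ hdim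
  have h1 : ∀ᶠ n : Fin p → ℕ in cofinite, n ∉ E := by
    rw [eventually_cofinite]
    refine E.finite_toSet.subset ?_
    intro n hn
    exact not_not.1 hn
  have h2 : ∀ᶠ n : Fin p → ℕ in cofinite, 4 * E.card + 4 ≤ Finset.univ.sup n := by
    rw [eventually_cofinite]
    refine (sz_count (p := p) ((4 * E.card + 4 : ℕ) + 1 : ℝ) (by
      have : (0 : ℝ) ≤ ((4 * E.card + 4 : ℕ) : ℝ) := Nat.cast_nonneg _
      linarith)).1.subset ?_
    intro n hn
    have hn' : ¬ 4 * E.card + 4 ≤ Finset.univ.sup n := hn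
    show (sz n : ℝ) ≤ _
    have h3 : sz n ≤ (4 * E.card + 4) + 1 := by
      unfold sz
      omega
    exact_mod_cast h3
  filter_upwards [h1, h2] with n hn1 hn2
  have hne : (Finset.univ : Finset (Fin p)).Nonempty := ⟨⟨0, hp⟩, Finset.mem_univ _⟩
  obtain ⟨a, -, ha⟩ := Finset.exists_mem_eq_sup (Finset.univ : Finset (Fin p)) hne n
  exact poly_disc σ x hx f hf hfF E hE n hn1 a ha.symm (by rw [← ha]; exact hn2)

end Pool.Agent.H434.Disc
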