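import Mathlib

/-!
Elements of a number field whose multiplicities outside of a finite set of primes are divisible by `m`:
they are finitely many up to `m`-th powers.
-/

set_option autoImplicit false

namespace Pool.Agent.H434

open NumberField IsDedekindDomain UniqueFactorizationMonoid

theorem ideal_split {R : Type*} [CommRing R] [IsDedekindDomain R] (T : Finset (HeightOneSpectrum R))
    (m : ℕ) (hm : 1 ≤ m) (I : Ideal R) (hI : I ≠ 0)
    (h : ∀ v : HeightOneSpectrum R, v ∉ T → m ∣ multiplicity v.asIdeal I) :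
    ∃ J : Ideal R, J ≠ 0 ∧ ∃ k : T → Fin m, I = J ^ m * ∏ v : T, v.1.asIdeal ^ (k v : ℕ) := by
  classical
  have hfin := Ideal.hasFiniteMulSupport hI
  have hmax : ∀ v : HeightOneSpectrum R, v.maxPowDividing I = v.asIdeal ^ multiplicity v.asIdeal I := by
    intro v
    rw [v.maxPowDividing_eq_pow_multiset_count hI,
      HeightOneSpectrum.count_normalizedFactors_eq_multiplicity hI]
  have hzero : ∀ v : HeightOneSpectrum R, v.maxPowDividing I = 1 → multiplicity v.asIdeal I = 0 := by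
    intro v hv
    rw [hmax] at hv
    by_contra hne
    have h1 : IsUnit (v.asIdeal ^ multiplicity v.asIdeal I) := by
      rw [hv]
      exact isUnit_one
    have h2 : IsUnit v.asIdeal := (isUnit_pow_iff hne).1 h1
    exact v.prime.not_unit h2
  have hf1 : (Function.mulSupport fun v : HeightOneSpectrum R =>
      v.asIdeal ^ (multiplicity v.asIdeal I / m)).Finite := by
    refine Set.Finite.subset hfin ?_
    intro v hv
    rw [Function.mem_mulSupport] at hv ⊢
    intro h1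
    apply hv
    rw [hzero v h1, Nat.zero_div, pow_zero]
  have hf2 : (Function.mulSupport fun v : HeightOneSpectrum R =>
      v.asIdeal ^ (multiplicity v.asIdeal I % m)).Finite := by
    refine Set.Finite.subset hfin ?_
    intro v hv
    rw [Function.mem_mulSupport] at hv ⊢
    intro h1
    apply hv
    rw [hzero v h1, Nat.zero_mod, pow_zero]
  have hf3 : (Function.mulSupport fun v : HeightOneSpectrum R =>
      (v.asIdeal ^ (multiplicity v.asIdeal I / m)) ^ m).Finite := by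
    refine Set.Finite.subset hf1 ?_
    intro v hv
    rw [Function.mem_mulSupport] at hv ⊢
    intro h1
    apply hv
    rw [h1, one_pow]
  have hI2 : I = (∏ᶠ v : HeightOneSpectrum R, v.asIdeal ^ (multiplicity v.asIdeal I / m)) ^ m *
      ∏ᶠ v : HeightOneSpectrum R, v.asIdeal ^ (multiplicity v.asIdeal I % m) := by
    rw [finprod_pow hf1, ← finprod_mul_distrib hf3 hf2]
    conv_lhs => rw [← Ideal.finprod_heightOneSpectrum_factorization hI]
    refine finprod_congr fun v => ?_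
    rw [hmax, ← pow_mul, ← pow_add]
    congr 1
    exact (Nat.div_add_mod' _ _).symm
  refine ⟨∏ᶠ v : HeightOneSpectrum R, v.asIdeal ^ (multiplicity v.asIdeal I / m), ?_,
    fun v => ⟨multiplicity v.1.asIdeal I % m, Nat.mod_lt _ (by omega)⟩, ?_⟩
  · intro h0
    rw [h0, zero_pow (by omega), zero_mul] at hI2
    exact hI hI2
  · conv_lhs => rw [hI2]
    congr 1
    rw [finprod_eq_prod_of_mulSupport_subset (s := T), ← Finset.prod_coe_sort]
    intro v hv
    rw [Function.mem_mulSupport] at hv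
    by_contra hvT
    apply hv
    rw [Nat.mod_eq_zero_of_dvd (h v fun h => hvT (Finset.mem_coe.2 h)), pow_zero]

/-- units modulo `m`-th powers -/
theorem units_mod_pow (L : Type) [Field L] [NumberField L] (m : ℕ) (hm : 1 ≤ m) :
    ∃ G : Finset (𝓞 L)ˣ, ∀ u : (𝓞 L)ˣ, ∃ g ∈ G, ∃ w : (𝓞 L)ˣ, u = g * w ^ m := by
  classical
  have hfg : Group.FG (𝓞 L)ˣ := Group.fg_iff_monoid_fg.2 inferInstance
  let P : Subgroup (𝓞 L)ˣ := (powMonoidHom m : (𝓞 L)ˣ →* (𝓞 L)ˣ).range
  have hfin : Finite ((𝓞 L)ˣ ⧸ P) := by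
    have h1 : Group.FG ((𝓞 L)ˣ ⧸ P) := inferInstance
    refine CommGroup.finite_of_fg_isMulTorsion _ ?_
    intro x
    obtain ⟨u, rfl⟩ := QuotientGroup.mk_surjective x
    rw [isOfFinOrder_iff_pow_eq_one]
    refine ⟨m, by omega, ?_⟩
    rw [← QuotientGroup.mk_pow, QuotientGroup.eq_one_iff]
    exact ⟨u, rfl⟩
  have := Fintype.ofFinite ((𝓞 L)ˣ ⧸ P)
  refine ⟨Finset.univ.image fun x : (𝓞 L)ˣ ⧸ P => Quotient.out x, fun u => ?_⟩
  refine ⟨Quotient.out (QuotientGroup.mk u : (𝓞 L)ˣ ⧸ P),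
    Finset.mem_image_of_mem _ (Finset.mem_univ _), ?_⟩
  have h1 : (QuotientGroup.mk (Quotient.out (QuotientGroup.mk u : (𝓞 L)ˣ ⧸ P)) : (𝓞 L)ˣ ⧸ P) =
      QuotientGroup.mk u := QuotientGroup.out_eq' _
  rw [QuotientGroup.eq] at h1
  obtain ⟨w, hw⟩ := h1
  refine ⟨w, ?_⟩
  have h2 : w ^ m = (Quotient.out (QuotientGroup.mk u : (𝓞 L)ˣ ⧸ P))⁻¹ * u := hw
  rw [h2, mul_inv_cancel_left]

/-- finiteness modulo `m`-th powers -/
theorem sel_int (L : Type) [Field L] [NumberField L] (T : Set (HeightOneSpectrum (𝓞 L)))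
    (hT : T.Finite) (m : ℕ) (hm : 1 ≤ m) :
    ∃ G : Finset (𝓞 L), (∀ g ∈ G, g ≠ 0) ∧ ∀ y : 𝓞 L, y ≠ 0 →
      (∀ v : HeightOneSpectrum (𝓞 L), v ∉ T → m ∣ multiplicity v.asIdeal (Ideal.span {y})) →
      ∃ g ∈ G, ∃ a b : 𝓞 L, a ≠ 0 ∧ b ≠ 0 ∧ a ^ m * y = b ^ m * g := by
  classical
  obtain ⟨GU, hGU⟩ := units_mod_pow L m hm
  let Tf : Finset (HeightOneSpectrum (𝓞 L)) := hT.toFinset
  let TY : Type := ClassGroup (𝓞 L) × (Tf → Fin m)
  have : Fintype TY := Fintype.ofFinite _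
  let Good : TY → 𝓞 L → Prop := fun κ y => y ≠ 0 ∧ ∃ J : nonZeroDivisors (Ideal (𝓞 L)),
    ClassGroup.mk0 J = κ.1 ∧ Ideal.span {y} = (J : Ideal (𝓞 L)) ^ m *
      ∏ v : Tf, v.1.asIdeal ^ (κ.2 v : ℕ)
  let ch : TY → 𝓞 L := fun κ => if h : ∃ y, Good κ y then h.choose else 1
  have hch : ∀ κ, (∃ y, Good κ y) → Good κ (ch κ) := by
    intro κ h
    simp only [ch]
    rw [dif_pos h]
    exact h.choose_spec
  have hch0 : ∀ κ, ch κ ≠ 0 := by
    intro κ
    by_cases h : ∃ y, Good κ y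
    · exact (hch κ h).1
    · simp only [ch]
      rw [dif_neg h]
      exact one_ne_zero
  refine ⟨(Finset.univ ×ˢ GU).image fun p : TY × (𝓞 L)ˣ => ch p.1 * (p.2 : 𝓞 L), ?_, ?_⟩
  · intro g hg
    obtain ⟨p, -, rfl⟩ := Finset.mem_image.1 hg
    exact mul_ne_zero (hch0 _) (Units.ne_zero _)
  · intro y hy h
    have hI : Ideal.span {y} ≠ (0 : Ideal (𝓞 L)) := by
      rw [Ne, Ideal.zero_eq_bot, Ideal.span_singleton_eq_bot]
      exact hy
    obtain ⟨J, hJ0, k, hk⟩ := ideal_split Tf m hm (Ideal.span {y}) hI (fun v hv => h v fun h =>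
      hv (hT.mem_toFinset.2 h))
    let J' : nonZeroDivisors (Ideal (𝓞 L)) := ⟨J, mem_nonZeroDivisors_of_ne_zero hJ0⟩
    let κ : TY := (ClassGroup.mk0 J', k)
    have hgood : Good κ y := ⟨hy, J', rfl, hk⟩
    obtain ⟨h0, J0, hJ0c, hJ0s⟩ := hch κ ⟨y, hgood⟩
    have hcl : ClassGroup.mk0 J' = ClassGroup.mk0 J0 := hJ0c.symm
    rw [ClassGroup.mk0_eq_mk0_iff] at hcl
    obtain ⟨a, b, ha, hb, hab⟩ := hcl
    have h1 : Ideal.span {a ^ m * y} = Ideal.span {b ^ m * ch κ} := by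
      rw [← Ideal.span_singleton_mul_span_singleton, ← Ideal.span_singleton_mul_span_singleton,
        ← Ideal.span_singleton_pow, ← Ideal.span_singleton_pow, hk, hJ0s, ← mul_assoc, ← mul_assoc,
        ← mul_pow, ← mul_pow]
      have h2 : Ideal.span {a} * J = Ideal.span {b} * (J0 : Ideal (𝓞 L)) := hab
      rw [h2]
    rw [Ideal.span_singleton_eq_span_singleton] at h1
    obtain ⟨u, hu⟩ := h1
    obtain ⟨g, hg, w, hw⟩ := hGU u⁻¹
    refine ⟨ch κ * (g : 𝓞 L), Finset.mem_image.2 ⟨(κ, g), Finset.mk_mem_product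
      (Finset.mem_univ _) hg, rfl⟩, a, b * (w : 𝓞 L), ha, mul_ne_zero hb (Units.ne_zero _), ?_⟩
    have h3 : a ^ m * y = b ^ m * ch κ * ((u⁻¹ : (𝓞 L)ˣ) : 𝓞 L) := by
      rw [← hu, mul_assoc, Units.mul_inv, mul_one]
    rw [h3, hw, Units.val_mul, Units.val_pow_eq_pow_val]
    ring

/-- finiteness modulo `m`-th powers for elements of the field -/
theorem sel_finite (L : Type) [Field L] [NumberField L] (T : Set (HeightOneSpectrum (𝓞 L)))
    (hT : T.Finite) (m : ℕ) (hm : 1 ≤ m) :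
    ∃ G : Finset L, (∀ g ∈ G, g ≠ 0) ∧ ∀ y : L,
      (∀ v : HeightOneSpectrum (𝓞 L), v ∉ T → ∃ w : L, v.valuation L y = v.valuation L w ^ m) →
      ∃ g ∈ G, ∃ w : L, y = g * w ^ m := by
  classical
  obtain ⟨G, hG0, hG⟩ := sel_int L T hT m hm
  refine ⟨insert 1 (G.image (algebraMap (𝓞 L) L)), ?_, ?_⟩
  · intro g hg
    rcases Finset.mem_insert.1 hg with rfl | hg
    · exact one_ne_zero
    obtain ⟨g', hg', rfl⟩ := Finset.mem_image.1 hg
    exact RingOfIntegers.coe_ne_zero_iff.2 (hG0 g' hg')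
  · intro y h
    by_cases hy : y = 0
    · exact ⟨1, Finset.mem_insert_self _ _, 0, by rw [hy, zero_pow (by omega), mul_zero]⟩
    obtain ⟨a, b, hb, hab⟩ := IsFractionRing.div_surjective (A := 𝓞 L) y
    have hb0 : b ≠ 0 := nonZeroDivisors.ne_zero hb
    have hbL : (algebraMap (𝓞 L) L b) ≠ 0 := RingOfIntegers.coe_ne_zero_iff.2 hb0
    have ha0 : a ≠ 0 := by
      rintro rfl
      rw [map_zero, zero_div] at hab
      exact hy hab.symm
    have hy1 : algebraMap (𝓞 L) L (a * b ^ (m - 1)) = y * algebraMap (𝓞 L) L b ^ m := by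
      rw [← hab, map_mul, map_pow]
      obtain ⟨m', rfl⟩ : ∃ m', m = m' + 1 := ⟨m - 1, by omega⟩
      rw [Nat.add_sub_cancel, pow_succ]
      field_simp
    have hy0 : a * b ^ (m - 1) ≠ 0 := mul_ne_zero ha0 (pow_ne_zero _ hb0)
    obtain ⟨g, hg, c, d, hc, hd, hcd⟩ := hG (a * b ^ (m - 1)) hy0 (by
      intro v hv
      obtain ⟨w, hw⟩ := h v hv
      have h1 : v.valuation L (algebraMap (𝓞 L) L (a * b ^ (m - 1))) =
          v.valuation L (w * algebraMap (𝓞 L) L b) ^ m := by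
        rw [hy1, map_mul, map_mul, mul_pow, hw, map_pow]
      have h2 : v.valuation L (algebraMap (𝓞 L) L (a * b ^ (m - 1))) ≠ 0 :=
        (Valuation.ne_zero_iff _).2 (RingOfIntegers.coe_ne_zero_iff.2 hy0)
      have h3 : v.valuation L (w * algebraMap (𝓞 L) L b) ≠ 0 := by
        intro h0
        rw [h0, zero_pow (by omega)] at h1
        exact h2 h1
      rw [HeightOneSpectrum.valuation_of_algebraMap,
        v.intValuation_eq_exp_neg_multiplicity hy0] at h1
      have h4 := congrArg WithZero.log h1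
      rw [WithZero.log_exp, WithZero.log_pow] at h4
      rw [← Int.natCast_dvd_natCast]
      refine ⟨- WithZero.log (v.valuation L (w * algebraMap (𝓞 L) L b)), ?_⟩
      rw [nsmul_eq_mul] at h4
      linarith [h4])
    refine ⟨algebraMap (𝓞 L) L g, Finset.mem_insert_of_mem (Finset.mem_image_of_mem _ hg),
      algebraMap (𝓞 L) L d / (algebraMap (𝓞 L) L c * algebraMap (𝓞 L) L b), ?_⟩
    have hcL : (algebraMap (𝓞 L) L c) ≠ 0 := RingOfIntegers.coe_ne_zero_iff.2 hc
    have h5 := congrArg (algebraMap (𝓞 L) L) hcd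
    rw [map_mul, hy1, map_mul, map_pow, map_pow] at h5
    rw [div_pow, mul_pow]
    field_simp
    linear_combination h5

end Pool.Agent.H434
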