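import Mathlib
import Pool.Agent.H434.K1
import Pool.Agent.H434.Bc

/-!
Points of root stacks over tori lift to a cover over a finitely generated ring.
-/

set_option autoImplicit false

namespace Pool.Agent.H434

open NumberField IsDedekindDomain MvPolynomial

section

variable {L : Type} [Field L] [NumberField L]

theorem exists_mem_all (T : Finset (HeightOneSpectrum (𝓞 L))) :
    ∃ d : 𝓞 L, d ≠ 0 ∧ ∀ v ∈ T, d ∈ v.asIdeal := by
  classical
  induction T using Finset.induction_on with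
  | empty => exact ⟨1, one_ne_zero, fun v hv => absurd hv (Finset.notMem_empty v)⟩
  | insert v T _ ih =>
    obtain ⟨d, hd, hdT⟩ := ih
    obtain ⟨e, he, he0⟩ := Submodule.exists_mem_ne_zero_of_ne_bot v.ne_bot
    refine ⟨d * e, mul_ne_zero hd he0, fun w hw => ?_⟩
    rcases Finset.mem_insert.1 hw with rfl | hw
    · exact Ideal.mul_mem_left _ _ he
    · exact Ideal.mul_mem_right _ _ (hdT w hw)

theorem exists_pow_mul (T : Finset (HeightOneSpectrum (𝓞 L))) (d : 𝓞 L) (hd : d ≠ 0)
    (hdT : ∀ v ∈ T, d ∈ v.asIdeal) (w : L) :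
    ∃ k : ℕ, ∀ v ∈ T, v.valuation L (w * (algebraMap (𝓞 L) L d) ^ k) ≤ 1 := by
  classical
  have hd0 : algebraMap (𝓞 L) L d ≠ 0 := RingOfIntegers.coe_ne_zero_iff.2 hd
  have hle : ∀ v : HeightOneSpectrum (𝓞 L), v.valuation L (algebraMap (𝓞 L) L d) ≤ 1 := fun v =>
    v.valuation_le_one d
  have h1 : ∀ v ∈ T, ∃ k : ℕ, v.valuation L (w * (algebraMap (𝓞 L) L d) ^ k) ≤ 1 := by
    intro v hv
    have hlt : v.valuation L (algebraMap (𝓞 L) L d) < 1 :=
      (v.valuation_lt_one_iff_mem d).2 (hdT v hv)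
    have hne : v.valuation L (algebraMap (𝓞 L) L d) ≠ 0 := (Valuation.ne_zero_iff _).2 hd0
    obtain ⟨k, hk⟩ := MulArchimedean.arch (v.valuation L w)
      (y := (v.valuation L (algebraMap (𝓞 L) L d))⁻¹) ((one_lt_inv₀ (zero_lt_iff.2 hne)).2 hlt)
    refine ⟨k, ?_⟩
    rw [map_mul, map_pow]
    calc v.valuation L w * v.valuation L (algebraMap (𝓞 L) L d) ^ k
        ≤ (v.valuation L (algebraMap (𝓞 L) L d))⁻¹ ^ k *
          v.valuation L (algebraMap (𝓞 L) L d) ^ k := mul_le_mul_left hk _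
      _ = 1 := by rw [inv_pow, inv_mul_cancel₀ (pow_ne_zero _ hne)]
  choose! k hk using h1
  refine ⟨∑ v ∈ T, k v, fun v hv => ?_⟩
  have h2 : k v ≤ ∑ v ∈ T, k v := Finset.single_le_sum (fun _ _ => Nat.zero_le _) hv
  obtain ⟨l, hl⟩ := Nat.exists_eq_add_of_le h2
  rw [hl, pow_add, ← mul_assoc, map_mul, map_pow]
  exact mul_le_one' (hk v hv) (pow_le_one₀ zero_le (hle v))

/-- the integers outside of a finite set of primes are in a finitely generated ring -/
theorem sint_fg (φ : L →+* ℂ) (T : Set (HeightOneSpectrum (𝓞 L))) (hT : T.Finite) :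
    ∃ s : Finset ℂ, ∀ w : L, (∀ v : HeightOneSpectrum (𝓞 L), v ∉ T → v.valuation L w ≤ 1) →
      φ w ∈ Subring.closure (s : Set ℂ) := by
  classical
  obtain ⟨d, hd, hdT⟩ := exists_mem_all hT.toFinset
  obtain ⟨t, ht⟩ := (Module.finite_def (R := ℤ) (M := 𝓞 L)).1 inferInstance
  let s : Finset ℂ := insert (φ (algebraMap (𝓞 L) L d))⁻¹
    (t.image fun x => φ (algebraMap (𝓞 L) L x))
  have hint : ∀ x : 𝓞 L, φ (algebraMap (𝓞 L) L x) ∈ Subring.closure (s : Set ℂ) := by
    intro x
    have hx : x ∈ Submodule.span ℤ (t : Set (𝓞 L)) := by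
      rw [ht]
      exact Submodule.mem_top
    induction hx using Submodule.span_induction with
    | mem y hy => exact Subring.subset_closure (Finset.mem_coe.2 (Finset.mem_insert_of_mem
        (Finset.mem_image_of_mem _ hy)))
    | zero => rw [map_zero, map_zero]; exact Subring.zero_mem _
    | add y z _ _ h1 h2 => rw [map_add, map_add]; exact Subring.add_mem _ h1 h2
    | smul a y _ h => rw [map_zsmul, map_zsmul]; exact Subring.zsmul_mem _ h a
  refine ⟨s, fun w hw => ?_⟩
  obtain ⟨k, hk⟩ := exists_pow_mul hT.toFinset d hd hdT w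
  have h1 : ∀ v : HeightOneSpectrum (𝓞 L), v.valuation L (w * (algebraMap (𝓞 L) L d) ^ k) ≤ 1 := by
    intro v
    by_cases hv : v ∈ T
    · exact hk v (hT.mem_toFinset.2 hv)
    · rw [map_mul, map_pow]
      exact mul_le_one' (hw v hv) (pow_le_one₀ zero_le (v.valuation_le_one d))
  obtain ⟨y, hy⟩ := HeightOneSpectrum.mem_integers_of_valuation_le_one L _ h1
  have hd0 : algebraMap (𝓞 L) L d ≠ 0 := RingOfIntegers.coe_ne_zero_iff.2 hd
  have h2 : φ w = φ (algebraMap (𝓞 L) L y) * ((φ (algebraMap (𝓞 L) L d))⁻¹) ^ k := by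
    rw [hy, map_mul, map_pow, inv_pow, mul_assoc, mul_inv_cancel₀, mul_one]
    exact pow_ne_zero _ ((map_ne_zero φ).2 hd0)
  rw [h2]
  exact Subring.mul_mem _ (hint y) (Subring.pow_mem _ (Subring.subset_closure
    (Finset.mem_coe.2 (Finset.mem_insert_self _ _))) k)

/-- points of root stacks lift -/
theorem stack_lift (φ : L →+* ℂ) (S : Set (HeightOneSpectrum (𝓞 L))) (hS : S.Finite) {n q : ℕ}
    (m : Fin q → ℕ) (hm : ∀ j, 1 ≤ m j) (f : Fin q → MvPolynomial (Fin n) L) :
    ∃ s : Finset ℂ, ∀ x : Fin n → L,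
      (∀ v : HeightOneSpectrum (𝓞 L), v ∉ S → (∀ i, v.valuation L (x i) = 1) ∧
        ∀ j, ∃ w : L, v.valuation L (eval x (f j)) = v.valuation L w ^ m j) →
      (∀ i, φ (x i) ∈ Subring.closure (s : Set ℂ) ∧ (φ (x i))⁻¹ ∈ Subring.closure (s : Set ℂ)) ∧
      ∀ j, ∃ z ∈ Subring.closure (s : Set ℂ), z ^ m j =
        eval (fun i => φ (x i)) (MvPolynomial.map φ (f j)) := by
  classical
  choose G hG0 hG using fun j => sel_finite L S hS (m j) (hm j)
  -- enlarge the set
  let T : Set (HeightOneSpectrum (𝓞 L)) := S ∪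
    ((⋃ j, ⋃ g ∈ G j, HeightOneSpectrum.Support (𝓞 L) (g⁻¹ : L)) ∪
      ⋃ j, ⋃ b ∈ (f j).support, HeightOneSpectrum.Support (𝓞 L) (coeff b (f j)))
  have hT : T.Finite := hS.union ((Set.finite_iUnion fun j => Set.Finite.biUnion
    (Finset.finite_toSet (G j)) fun g _ => HeightOneSpectrum.Support.finite _ _).union
    (Set.finite_iUnion fun j => Set.Finite.biUnion (Finset.finite_toSet (f j).support) fun b _ =>
      HeightOneSpectrum.Support.finite _ _))
  obtain ⟨s1, hs1⟩ := sint_fg φ T hT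
  choose γ hγ using fun (j : Fin q) (x : ℂ) => exists_root_C (hm j) x
  let s : Finset ℂ := s1 ∪ Finset.univ.biUnion fun j => (G j).image fun g => γ j (φ g)
  have hsub : ∀ y ∈ Subring.closure (s1 : Set ℂ), y ∈ Subring.closure (s : Set ℂ) := by
    intro y hy
    exact Subring.closure_mono (Finset.coe_subset.2 Finset.subset_union_left) hy
  refine ⟨s, fun x hx => ⟨fun i => ⟨hsub _ (hs1 _ fun v hv => ?_), ?_⟩, fun j => ?_⟩⟩
  · exact (((hx v fun h => hv (Set.mem_union_left _ h)).1) i).le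
  · rw [← map_inv₀]
    refine hsub _ (hs1 _ fun v hv => ?_)
    rw [map_inv₀, ((hx v fun h => hv (Set.mem_union_left _ h)).1) i, inv_one]
  · obtain ⟨g, hg, w, hw⟩ := hG j (eval x (f j)) fun v hv => (hx v hv).2 j
    refine ⟨γ j (φ g) * φ w, Subring.mul_mem _ (Subring.subset_closure (Finset.mem_coe.2
      (Finset.mem_union_right _ (Finset.mem_biUnion.2 ⟨j, Finset.mem_univ _,
        Finset.mem_image_of_mem _ hg⟩)))) (hsub _ (hs1 _ fun v hv => ?_)), ?_⟩
    · have hvS : v ∉ S := fun h => hv (Set.mem_union_left _ h)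
      have h1 : v.valuation L (eval x (f j)) ≤ 1 := by
        rw [eval_eq']
        refine Valuation.map_sum_le _ fun b hb => ?_
        rw [map_mul, map_prod]
        have h2 : v.valuation L (coeff b (f j)) ≤ 1 := by
          by_contra hcon
          apply hv
          refine Set.mem_union_right _ (Set.mem_union_right _ ?_)
          refine Set.mem_iUnion.2 ⟨j, Set.mem_iUnion₂.2 ⟨b, hb, not_le.1 hcon⟩⟩
        refine mul_le_one' h2 (Finset.prod_le_one' fun i _ => ?_)
        rw [map_pow, (hx v hvS).1 i, one_pow]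
      have h3 : v.valuation L (g⁻¹) ≤ 1 := by
        by_contra hcon
        apply hv
        refine Set.mem_union_right _ (Set.mem_union_left _ ?_)
        refine Set.mem_iUnion.2 ⟨j, Set.mem_iUnion₂.2 ⟨g, hg, not_le.1 hcon⟩⟩
      have h4 : w ^ m j = g⁻¹ * eval x (f j) := by
        rw [hw, inv_mul_cancel_left₀ (hG0 j g hg)]
      have h5 : v.valuation L w ^ m j ≤ 1 := by
        rw [← map_pow, h4, map_mul]
        exact mul_le_one' h3 h1
      exact (pow_le_one_iff (by have := hm j; omega)).1 h5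
    · rw [mul_pow, hγ, ← map_pow, ← map_mul, ← hw, eval_map]
      have h6 := MvPolynomial.eval₂_comp_left φ (RingHom.id L) x (f j)
      rw [RingHom.comp_id] at h6
      exact h6

end

end Pool.Agent.H434
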