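import Mathlib
import Pool.Agent.H434.K2
import Pool.Agent.H434.H5
import Pool.Graph.R_pool_sql_team_seeded_63374d34.N49.FG.RQ1
import Pool.Graph.R_pool_sql_team_seeded_63374d34.N558.FG.SP
import Pool.Graph.R_pool_sql_team_seeded_63374d34.N441.FG.TR

/-!
Points of root stacks over tori with bounded truncated counting function.
-/

set_option autoImplicit false

namespace Pool.Agent.H434

open NumberField IsDedekindDomain MvPolynomial
open Pool.Agent.H159R3.Exp (Laur)

section

variable {n q : ℕ}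

/-- indices of the coordinates of the torus -/
def iU (q : ℕ) (i : Fin n) : Fin (n + (n + q)) := Fin.castAdd (n + q) i

/-- indices of their inverses -/
def iY (q : ℕ) (i : Fin n) : Fin (n + (n + q)) := Fin.natAdd n (Fin.castAdd q i)

/-- indices of the roots -/
def iJ (n : ℕ) (j : Fin q) : Fin (n + (n + q)) := Fin.natAdd n (Fin.natAdd n j)

/-- the point with given coordinates -/
def ptF {A : Type} (x y : Fin n → A) (z : Fin q → A) : Fin (n + (n + q)) → A :=
  Fin.append x (Fin.append y z)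

theorem ptF_U {A : Type} (x y : Fin n → A) (z : Fin q → A) (i : Fin n) :
    ptF x y z (iU q i) = x i := by
  unfold ptF iU
  rw [Fin.append_left]

theorem ptF_Y {A : Type} (x y : Fin n → A) (z : Fin q → A) (i : Fin n) :
    ptF x y z (iY q i) = y i := by
  unfold ptF iY
  rw [Fin.append_right, Fin.append_left]

theorem ptF_J {A : Type} (x y : Fin n → A) (z : Fin q → A) (j : Fin q) :
    ptF x y z (iJ n j) = z j := by
  unfold ptF iJ
  rw [Fin.append_right, Fin.append_right]

theorem ext_F {A : Type} {z z' : Fin (n + (n + q)) → A} (h1 : ∀ i, z (iU q i) = z' (iU q i))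
    (h2 : ∀ i, z (iY q i) = z' (iY q i)) (h3 : ∀ j, z (iJ n j) = z' (iJ n j)) : z = z' := by
  funext l
  refine Fin.addCases (fun i => h1 i) (fun l => ?_) l
  exact Fin.addCases (fun i => h2 i) (fun j => h3 j) l

theorem all_F {p : Fin (n + (n + q)) → Prop} (h1 : ∀ i, p (iU q i)) (h2 : ∀ i, p (iY q i))
    (h3 : ∀ j, p (iJ n j)) (l : Fin (n + (n + q))) : p l := by
  refine Fin.addCases (fun i => h1 i) (fun l => ?_) l
  exact Fin.addCases (fun i => h2 i) (fun j => h3 j) l

/-- the equations of the cover -/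
noncomputable def covF {R : Type} [CommRing R] (m : Fin q → ℕ) (f : Fin q → MvPolynomial (Fin n) R) :
    Fin n ⊕ Fin q → MvPolynomial (Fin (n + (n + q))) R
  | Sum.inl i => X (iU q i) * X (iY q i) - 1
  | Sum.inr j => X (iJ n j) ^ m j - rename (iU q) (f j)

theorem covF_eval₂ {R A : Type} [CommRing R] [CommRing A] (φ : R →+* A) (m : Fin q → ℕ)
    (f : Fin q → MvPolynomial (Fin n) R) (z : Fin (n + (n + q)) → A) :
    (∀ l, eval₂ φ z (covF m f l) = 0) ↔ (∀ i, z (iU q i) * z (iY q i) = 1) ∧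
      ∀ j, z (iJ n j) ^ m j = eval₂ φ (fun i => z (iU q i)) (f j) := by
  constructor
  · intro h
    refine ⟨fun i => ?_, fun j => ?_⟩
    · have h1 := h (Sum.inl i)
      simp only [covF, eval₂_sub, eval₂_mul, eval₂_X, eval₂_one] at h1
      exact sub_eq_zero.1 h1
    · have h1 := h (Sum.inr j)
      simp only [covF, eval₂_sub, eval₂_pow, eval₂_X, eval₂_rename] at h1
      exact sub_eq_zero.1 h1
  · rintro ⟨h1, h2⟩ (i | j)
    · simp only [covF, eval₂_sub, eval₂_mul, eval₂_X, eval₂_one]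
      exact sub_eq_zero.2 (h1 i)
    · simp only [covF, eval₂_sub, eval₂_pow, eval₂_X, eval₂_rename]
      exact sub_eq_zero.2 (h2 j)

theorem covF_pts (m : Fin q → ℕ) (f : Fin q → MvPolynomial (Fin n) ℂ)
    (z : Fin (n + (n + q)) → ℂ) : z ∈ Pool.Agent.N754.FG.Pts (covF m f) ↔
      (∀ i, z (iU q i) * z (iY q i) = 1) ∧
      ∀ j, z (iJ n j) ^ m j = eval (fun i => z (iU q i)) (f j) := by
  have h1 := covF_eval₂ (RingHom.id ℂ) m f z
  exact h1

/-- a Laurent polynomial without zeros -/
theorem laur_unit {g h : ℂ → ℂ} (hg : Laur g) (hh : Laur h) (hgh : ∀ t, t ≠ 0 → g t * h t = 1) :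
    ∃ a : ℤ, ∀ t, t ≠ 0 → g t = g 1 * t ^ a := by
  obtain ⟨M, Q, hQ⟩ := hg
  obtain ⟨M', Q', hQ'⟩ := hh
  have h1 : Q * Q' = Polynomial.X ^ (M + M') := by
    apply Polynomial.eq_of_infinite_eval_eq
    have h2 : ({0}ᶜ : Set ℂ).Infinite := (Set.finite_singleton (0 : ℂ)).infinite_compl
    refine h2.mono fun t ht => ?_
    have ht0 : t ≠ 0 := ht
    show Polynomial.eval t (Q * Q') = Polynomial.eval t (Polynomial.X ^ (M + M'))
    rw [Polynomial.eval_mul, ← hQ t ht0, ← hQ' t ht0, Polynomial.eval_pow, Polynomial.eval_X, pow_add]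
    linear_combination (t ^ M * t ^ M') * hgh t ht0
  have h2 : Q ∣ Polynomial.X ^ (M + M') := ⟨Q', h1.symm⟩
  obtain ⟨k, -, hk⟩ := (dvd_prime_pow Polynomial.prime_X _).1 h2
  obtain ⟨u, hu⟩ := hk.symm
  obtain ⟨c, -, hc⟩ := Polynomial.isUnit_iff.1 u.isUnit
  have h3 : ∀ t, t ≠ 0 → g t = c * t ^ ((k : ℤ) - M) := by
    intro t ht
    have h4 := hQ t ht
    rw [← hu, ← hc, Polynomial.eval_mul, Polynomial.eval_pow, Polynomial.eval_X,
      Polynomial.eval_C] at h4
    rw [zpow_sub₀ ht, zpow_natCast, zpow_natCast]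
    field_simp
    linear_combination h4
  refine ⟨(k : ℤ) - M, fun t ht => ?_⟩
  rw [h3 t ht, h3 1 one_ne_zero, one_zpow, mul_one]

/-- the point `x` is on an orbifold curve -/
def OnOrbC (m : Fin q → ℕ) (f : Fin q → MvPolynomial (Fin n) ℂ) (x : Fin n → ℂ) : Prop :=
  ∃ a : Fin n → ℤ, a ≠ 0 ∧ ∀ j, ∃ g : ℂ → ℂ, Laur g ∧
    ∀ t, t ≠ 0 → eval (fun i => x i * t ^ a i) (f j) = g t ^ m j

theorem orb_of_laurent (m : Fin q → ℕ) (hm : ∀ j, 1 ≤ m j) (f : Fin q → MvPolynomial (Fin n) ℂ)
    (p : Fin (n + (n + q)) → ℂ) (h : Pool.Agent.N754.FG.OnLaurent (covF m f) p) :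
    OnOrbC m f fun i => p (iU q i) := by
  obtain ⟨v, hv, hvF, hv1, t0, ht0, hne⟩ := h
  have hU : ∀ i, ∃ a : ℤ, ∀ t, t ≠ 0 → v t (iU q i) = p (iU q i) * t ^ a := by
    intro i
    obtain ⟨a, ha⟩ := laur_unit (hv (iU q i)) (hv (iY q i)) fun t ht =>
      ((covF_pts m f (v t)).1 (hvF t ht)).1 i
    exact ⟨a, fun t ht => by rw [ha t ht, hv1]⟩
  choose a ha using hU
  refine ⟨a, ?_, fun j => ⟨fun t => v t (iJ n j), hv _, fun t ht => ?_⟩⟩
  · intro ha0
    apply hne
    have h1 : ∀ t, t ≠ 0 → ∀ i, v t (iU q i) = p (iU q i) := by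
      intro t ht i
      rw [ha i t ht, ha0, Pi.zero_apply, zpow_zero, mul_one]
    have hp : p ∈ Pool.Agent.N754.FG.Pts (covF m f) := by
      rw [← hv1]
      exact hvF 1 one_ne_zero
    have hp2 := (covF_pts m f p).1 hp
    refine ext_F (fun i => h1 t0 ht0 i) (fun i => ?_) fun j => ?_
    · have h2 := ((covF_pts m f (v t0)).1 (hvF t0 ht0)).1 i
      rw [h1 t0 ht0 i] at h2
      have h3 := hp2.1 i
      have h4 : p (iU q i) ≠ 0 := left_ne_zero_of_mul_eq_one h3
      exact mul_left_cancel₀ h4 (h2.trans h3.symm)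
    · -- the root is constant
      set c : ℂ := eval (fun i => p (iU q i)) (f j) with hc
      have h2 : ∀ t, t ≠ 0 → v t (iJ n j) ^ m j = c := by
        intro t ht
        rw [((covF_pts m f (v t)).1 (hvF t ht)).2 j, hc]
        congr 1
        exact congrArg _ (funext fun i => h1 t ht i)
      have hp3 : p (iJ n j) ^ m j = c := hp2.2 j
      by_cases hc0 : c = 0
      · have h3 := h2 t0 ht0
        rw [hc0] at h3 hp3
        rw [pow_eq_zero_iff (by have := hm j; omega)] at h3 hp3
        rw [h3, hp3]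
      · obtain ⟨m', hm'⟩ : ∃ m', m j = m' + 1 := ⟨m j - 1, by have := hm j; omega⟩
        have hL : Laur fun t => c⁻¹ * v t (iJ n j) ^ m' := by
          refine (Laur.const _).mul ?_
          have h4 := Laur.eval (fun t (_ : Unit) => v t (iJ n j)) (fun _ => hv (iJ n j))
            ((X ()) ^ m')
          simpa using h4
        obtain ⟨b, hb⟩ := laur_unit (hv (iJ n j)) hL (fun t ht => by
          have h5 := h2 t ht
          rw [hm', pow_succ] at h5
          show v t (iJ n j) * (c⁻¹ * v t (iJ n j) ^ m') = 1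
          rw [show v t (iJ n j) * (c⁻¹ * v t (iJ n j) ^ m') =
            c⁻¹ * (v t (iJ n j) ^ m' * v t (iJ n j)) by ring, h5, inv_mul_cancel₀ hc0])
        have h6 : v 1 (iJ n j) ≠ 0 := by
          intro h0
          have h5 := h2 1 one_ne_zero
          rw [h0, zero_pow (by omega)] at h5
          exact hc0 h5.symm
        have h7 : (2 : ℂ) ^ (b * m j) = 1 := by
          have h5 := h2 2 two_ne_zero
          rw [hb 2 two_ne_zero, mul_pow, h2 1 one_ne_zero] at h5
          have h8 : ((2 : ℂ) ^ b) ^ m j = 1 := by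
            apply mul_left_cancel₀ hc0
            rw [h5, mul_one]
          rw [zpow_mul, zpow_natCast]
          exact h8
        have h9 : b * m j = 0 := by
          have h10 : ‖(2 : ℂ) ^ (b * m j)‖ = 1 := by rw [h7, norm_one]
          rw [norm_zpow, Complex.norm_ofNat] at h10
          exact (zpow_eq_one_iff_right₀ (by norm_num) (by norm_num)).1 h10
        have h11 : b = 0 := by
          rcases mul_eq_zero.1 h9 with h | h
          · exact h
          · have := hm j
            omega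
        rw [hb t0 ht0, h11, zpow_zero, mul_one, hv1]
  · have h2 := ((covF_pts m f (v t)).1 (hvF t ht)).2 j
    rw [h2]
    congr 1
    exact congrArg _ (funext fun i => (ha i t ht).symm)

end

end Pool.Agent.H434
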