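import Mathlib
import Pool.Agent.H434.K3

/-!
Points of root stacks over tori with bounded truncated counting function: finiteness outside orbifold
curves and wild translates, and sharpness.
-/

set_option autoImplicit false

namespace Pool.Agent.H434

open NumberField IsDedekindDomain MvPolynomial
open Pool.Agent.H159R3.Exp (Laur)

section

variable {n q : ℕ} {L : Type} [Field L] [NumberField L]

theorem stack_fin (φ : L →+* ℂ) (S : Set (HeightOneSpectrum (𝓞 L))) (hS : S.Finite)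
    (m : Fin q → ℕ) (hm : ∀ j, 2 ≤ m j) (f : Fin q → MvPolynomial (Fin n) L) :
    ∃ (E : Finset (Fin n → L)) (W : Finset (Set (Fin n → ℂ))),
      (∀ C ∈ W, WildT m (fun j => MvPolynomial.map φ (f j)) C) ∧ ∀ x : Fin n → L, (∀ i, x i ≠ 0) →
      (∀ v : HeightOneSpectrum (𝓞 L), v ∉ S → (∀ i, v.valuation L (x i) = 1) ∧
        ∀ j, ∃ w : L, v.valuation L (eval x (f j)) = v.valuation L w ^ m j) → x ∉ E →
      (∃ C ∈ W, (fun i => φ (x i)) ∈ C) ∨
        OnOrbC m (fun j => MvPolynomial.map φ (f j)) fun i => φ (x i) := by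
  classical
  have hSP : Pool.Agent.N754.FG.SP :=
    Pool.Agent.N558.FG.sp (Pool.Agent.N455.FG.rq3 Pool.Agent.N49.FG.rq1)
  have hm1 : ∀ j, 1 ≤ m j := fun j => le_trans one_le_two (hm j)
  obtain ⟨s, hs⟩ := stack_lift φ S hS m hm1 f
  let fC : Fin q → MvPolynomial (Fin n) ℂ := fun j => MvPolynomial.map φ (f j)
  let SS : Set (Fin (n + (n + q)) → ℂ) := {p | (∀ j, p j ∈ Subring.closure (s : Set ℂ)) ∧
    p ∈ Pool.Agent.N754.FG.Pts (covF m fC) ∧ ¬ Pool.Agent.N754.FG.OnLaurent (covF m fC) p ∧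
    ¬ Pool.Agent.N754.FG.NotAlone (covF m fC)
      (Finset.univ.image (iU q) ∪ Finset.univ.image (iJ n)) p}
  obtain ⟨E0, W, -, hW, hE⟩ := fin_struct hSP Pool.Agent.N441.FG.tr
    (Pool.Agent.N455.FG.rq3 Pool.Agent.N49.FG.rq1) (covF m fC) (iU q) (iJ n) m hm fC
    (fun z hz i => left_ne_zero_of_mul_eq_one (((covF_pts m fC z).1 hz).1 i))
    (fun z hz j => ((covF_pts m fC z).1 hz).2 j) s SS (fun x hx => hx)
  have hinj : Function.Injective fun (x : Fin n → L) (i : Fin n) => φ (x i) := by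
    intro x y hxy
    funext i
    exact φ.injective (congrFun hxy i)
  have hfin : ((fun (x : Fin n → L) (i : Fin n) => φ (x i)) ⁻¹'
      ((E0.image fun (p : Fin (n + (n + q)) → ℂ) (i : Fin n) => p (iU q i) : Finset (Fin n → ℂ)) :
        Set (Fin n → ℂ))).Finite :=
    (Finset.finite_toSet _).preimage hinj.injOn
  refine ⟨hfin.toFinset, W, hW, fun x hx0 hx hxE => ?_⟩
  obtain ⟨h1, h2⟩ := hs x hx
  choose z hz hzp using h2
  let p : Fin (n + (n + q)) → ℂ := ptF (fun i => φ (x i)) (fun i => (φ (x i))⁻¹) z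
  have hpUi : ∀ i, p (iU q i) = φ (x i) := fun i => ptF_U _ _ _ i
  have hpYi : ∀ i, p (iY q i) = (φ (x i))⁻¹ := fun i => ptF_Y _ _ _ i
  have hpJj : ∀ j, p (iJ n j) = z j := fun j => ptF_J _ _ _ j
  have hpU : (fun i => p (iU q i)) = fun i => φ (x i) := funext hpUi
  have hpP : p ∈ Pool.Agent.N754.FG.Pts (covF m fC) := by
    rw [covF_pts]
    refine ⟨fun i => ?_, fun j => ?_⟩
    · rw [hpUi, hpYi, mul_inv_cancel₀ ((map_ne_zero φ).2 (hx0 i))]
    · rw [hpU, hpJj]
      exact hzp j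
  by_cases hL : Pool.Agent.N754.FG.OnLaurent (covF m fC) p
  · right
    have h3 := orb_of_laurent m hm1 fC p hL
    rw [hpU] at h3
    exact h3
  · left
    have hpS : p ∈ SS := by
      refine ⟨all_F (fun i => ?_) (fun i => ?_) fun j => ?_, hpP, hL, ?_⟩
      · rw [hpUi]
        exact (h1 i).1
      · rw [hpYi]
        exact (h1 i).2
      · rw [hpJj]
        exact hz j
      · rintro ⟨z', hz', hzU, hne⟩
        apply hne
        have h4 : ∀ i, z' (iU q i) = p (iU q i) := fun i => hzU _ (Finset.mem_union_left _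
          (Finset.mem_image_of_mem _ (Finset.mem_univ _)))
        refine ext_F h4 (fun i => ?_) fun j => hzU _ (Finset.mem_union_right _
          (Finset.mem_image_of_mem _ (Finset.mem_univ _)))
        have h5 := ((covF_pts m fC z').1 hz').1 i
        have h6 := ((covF_pts m fC p).1 hpP).1 i
        rw [h4 i] at h5
        exact mul_left_cancel₀ (left_ne_zero_of_mul_eq_one h6) (h5.trans h6.symm)
    have hpE : p ∉ E0 := by
      intro h
      apply hxE
      rw [Set.Finite.mem_toFinset]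
      exact Finset.mem_coe.2 (Finset.mem_image.2 ⟨p, h, hpU⟩)
    obtain ⟨⟨C, hC, hpC⟩, -⟩ := hE p hpS hpE
    refine ⟨C, hC, ?_⟩
    rw [← hpU]
    exact hpC

end

/-- The truncated counting function is bounded below by its terms. -/
theorem meets_of_count {L : Type} [Field L] [NumberField L] (S : Set (HeightOneSpectrum (𝓞 L)))
    {n : ℕ} (x : Fin n → L) (hx0 : ∀ i, x i ≠ 0) (B : ℝ)
    (hB : ∑ᶠ v ∈ {v : HeightOneSpectrum (𝓞 L) | v ∉ S ∧ ∃ i, v.valuation L (x i) ≠ 1},
      Real.log (Ideal.absNorm v.asIdeal) ≤ B) (v : HeightOneSpectrum (𝓞 L)) (hv : v ∉ S)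
    (hvB : B < Real.log (Ideal.absNorm v.asIdeal)) (i : Fin n) : v.valuation L (x i) = 1 := by
  classical
  by_contra hne
  have hfin : {v : HeightOneSpectrum (𝓞 L) | v ∉ S ∧ ∃ i, v.valuation L (x i) ≠ 1}.Finite := by
    have h1 : (⋃ i, (HeightOneSpectrum.Support (𝓞 L) (x i) ∪
        HeightOneSpectrum.Support (𝓞 L) (x i)⁻¹)).Finite :=
      Set.finite_iUnion fun i => (HeightOneSpectrum.Support.finite _ _).union
        (HeightOneSpectrum.Support.finite _ _)
    refine h1.subset ?_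
    rintro w ⟨-, i, hi⟩
    refine Set.mem_iUnion.2 ⟨i, ?_⟩
    rcases lt_or_gt_of_ne hi with h | h
    · right
      show 1 < w.valuation L (x i)⁻¹
      rw [map_inv₀]
      exact (one_lt_inv₀ (zero_lt_iff.2 ((Valuation.ne_zero_iff _).2 (hx0 i)))).2 h
    · left
      exact h
  rw [finsum_mem_eq_finite_toFinset_sum _ hfin] at hB
  have hnn : ∀ w : HeightOneSpectrum (𝓞 L), 0 ≤ Real.log (Ideal.absNorm w.asIdeal) := fun w =>
    Real.log_natCast_nonneg _
  have h2 : Real.log (Ideal.absNorm v.asIdeal) ≤ ∑ w ∈ hfin.toFinset,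
      Real.log (Ideal.absNorm w.asIdeal) :=
    Finset.single_le_sum (f := fun w : HeightOneSpectrum (𝓞 L) =>
      Real.log (Ideal.absNorm w.asIdeal)) (fun w _ => hnn w)
      (hfin.mem_toFinset.2 ⟨hv, i, hne⟩)
  linarith

/-- finitely many primes of bounded norm -/
theorem small_primes (L : Type) [Field L] [NumberField L] (B : ℝ) :
    {v : HeightOneSpectrum (𝓞 L) | Real.log (Ideal.absNorm v.asIdeal) ≤ B}.Finite := by
  have h1 := Ideal.finite_setOfPred_absNorm_le (S := 𝓞 L) ⌊Real.exp B⌋₊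
  have h2 : Function.Injective fun v : HeightOneSpectrum (𝓞 L) => v.asIdeal := by
    intro v w h
    exact HeightOneSpectrum.ext h
  refine (h1.preimage h2.injOn).subset ?_
  intro v hv
  show Ideal.absNorm v.asIdeal ≤ ⌊Real.exp B⌋₊
  apply Nat.le_floor
  have hpos : (0 : ℝ) < Ideal.absNorm v.asIdeal := by
    have h3 : Ideal.absNorm v.asIdeal ≠ 0 := by
      rw [Ne, Ideal.absNorm_eq_zero_iff]
      exact v.ne_bot
    exact_mod_cast Nat.pos_of_ne_zero h3
  rw [← Real.exp_log hpos]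
  exact Real.exp_le_exp.2 hv

end Pool.Agent.H434
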