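import Mathlib
import Pool.Agent.H434.K4

/-!
Points of root stacks over tori: the exceptional set contains all orbifold curves.
-/

set_option autoImplicit false

namespace Pool.Agent.H434

open NumberField IsDedekindDomain MvPolynomial
open Pool.Agent.H159R3.Exp (Laur FinitelyManyIntegral intPoints)
open Pool.Agent.W235.RM

theorem roots_finite {F : Type} [Field F] (m : ℕ) (hm : 1 ≤ m) (c : F) : {z : F | z ^ m = c}.Finite := by
  classical
  have h1 : (Polynomial.X ^ m - Polynomial.C c : Polynomial F) ≠ 0 :=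
    (Polynomial.monic_X_pow_sub_C c (by omega)).ne_zero
  refine (Polynomial.X ^ m - Polynomial.C c : Polynomial F).roots.toFinset.finite_toSet.subset ?_
  intro z hz
  have hz' : z ^ m = c := hz
  rw [Finset.mem_coe, Multiset.mem_toFinset, Polynomial.mem_roots h1, Polynomial.IsRoot.def,
    Polynomial.eval_sub, Polynomial.eval_pow, Polynomial.eval_X, Polynomial.eval_C, hz', sub_self]

theorem orb_in {K : Type} [Field K] [NumberField K] (σ : K →+* ℂ) {n q : ℕ} (m : Fin q → ℕ)
    (hm : ∀ j, 1 ≤ m j) (f : Fin q → MvPolynomial (Fin n) (𝓞 K)) {κ : Type}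
    (G : κ → MvPolynomial (Fin n) (𝓞 K))
    (hA : ∀ (L : Type) [Field L] [NumberField L] [Algebra K L] (S : Set (HeightOneSpectrum (𝓞 L))),
      S.Finite → {x : Fin n → L | (∀ i, x i ≠ 0) ∧
        (∀ v : HeightOneSpectrum (𝓞 L), v ∉ S → (∀ i, v.valuation L (x i) = 1) ∧
          ∀ j, ∃ w : L, v.valuation L (eval₂ ((algebraMap K L).comp (algebraMap (𝓞 K) K)) x (f j)) =
            v.valuation L w ^ m j) ∧
        ¬ ∀ l, eval₂ ((algebraMap K L).comp (algebraMap (𝓞 K) K)) x (G l) = 0}.Finite)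
    (x : Fin n → ℂ) (hx : ∀ i, x i ≠ 0)
    (ho : OnOrbC m (fun j => MvPolynomial.map (σ.comp (algebraMap (𝓞 K) K)) (f j)) x) (l : κ) :
    eval₂ (σ.comp (algebraMap (𝓞 K) K)) x (G l) = 0 := by
  classical
  let F : Fin n ⊕ Fin q → MvPolynomial (Fin (n + (n + q))) (𝓞 K) := covF m f
  let G' : κ → MvPolynomial (Fin (n + (n + q))) (𝓞 K) := fun l => rename (iU q) (G l)
  have hfin : FinitelyManyIntegral F G' := by
    intro L _ _ _ S hS
    have hA' := hA L S hS
    set A := {x : Fin n → L | (∀ i, x i ≠ 0) ∧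
        (∀ v : HeightOneSpectrum (𝓞 L), v ∉ S → (∀ i, v.valuation L (x i) = 1) ∧
          ∀ j, ∃ w : L, v.valuation L (eval₂ ((algebraMap K L).comp (algebraMap (𝓞 K) K)) x (f j)) =
            v.valuation L w ^ m j) ∧
        ¬ ∀ l, eval₂ ((algebraMap K L).comp (algebraMap (𝓞 K) K)) x (G l) = 0} with hAdef
    let P : (Fin n → L) → Set (Fin (n + (n + q)) → L) := fun x => {p | (∀ i, p (iU q i) = x i) ∧
      (∀ i, p (iU q i) * p (iY q i) = 1) ∧ ∀ j, p (iJ n j) ^ m j =
        eval₂ ((algebraMap K L).comp (algebraMap (𝓞 K) K)) x (f j)}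
    have hP : ∀ x, (P x).Finite := by
      intro x
      have h1 : ∀ l : Fin (n + (n + q)), ∃ B : Set L, B.Finite ∧ ∀ p ∈ P x, p l ∈ B := by
        refine all_F (fun i => ⟨{x i}, Set.finite_singleton _, fun p hp => hp.1 i⟩)
          (fun i => ⟨{(x i)⁻¹}, Set.finite_singleton _, fun p hp => ?_⟩)
          fun j => ⟨_, roots_finite (m j) (hm j) _, fun p hp => hp.2.2 j⟩
        have h2 := hp.2.1 i
        rw [hp.1 i] at h2
        exact eq_inv_of_mul_eq_one_right h2
      choose B hB hBp using h1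
      refine (Set.Finite.pi' hB).subset ?_
      intro p hp l
      exact hBp l p hp
    refine (hA'.biUnion fun x _ => hP x).subset ?_
    rintro p ⟨⟨hp1, hp2⟩, hp3⟩
    have hp4 := (covF_eval₂ ((algebraMap K L).comp (algebraMap (𝓞 K) K)) m f p).1 hp2
    have hval : ∀ v : HeightOneSpectrum (𝓞 L), v ∉ S → ∀ l, v.valuation L (p l) ≤ 1 :=
      fun v hv l => hp1 l v hv
    refine Set.mem_biUnion (x := fun i => p (iU q i)) ⟨fun i => ?_, fun v hv => ⟨fun i => ?_,
      fun j => ⟨p (iJ n j), ?_⟩⟩, fun hG => hp3 ⟨hp1, fun l => ?_⟩⟩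
      ⟨fun i => rfl, hp4.1, hp4.2⟩
    · exact left_ne_zero_of_mul_eq_one (hp4.1 i)
    · have h5 : v.valuation L (p (iU q i)) * v.valuation L (p (iY q i)) = 1 := by
        rw [← map_mul, hp4.1 i, map_one]
      refine le_antisymm (hval v hv _) ?_
      by_contra hcon
      rw [not_le] at hcon
      have h6 : v.valuation L (p (iU q i)) * v.valuation L (p (iY q i)) ≤
          v.valuation L (p (iU q i)) := mul_le_of_le_one_right' (hval v hv _)
      rw [h5] at h6
      exact absurd (lt_of_le_of_lt h6 hcon) (lt_irrefl _)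
    · rw [← map_pow, hp4.2 j]
    · show eval₂ _ p (rename (iU q) (G l)) = 0
      rw [eval₂_rename]
      exact hG l
  have hgm : GmCurvesIn σ F G' := ((tfae σ F G').out 5 1).1 (rec_of_integral F G' hfin)
  obtain ⟨a, ha, hg⟩ := ho
  choose g hgL hge using hg
  let v : ℂ → Fin (n + (n + q)) → ℂ := fun t =>
    ptF (fun i => x i * t ^ a i) (fun i => (x i)⁻¹ * t ^ (-a i)) fun j => g j t
  have hvU : ∀ t i, v t (iU q i) = x i * t ^ a i := fun t i => ptF_U _ _ _ i
  have hvY : ∀ t i, v t (iY q i) = (x i)⁻¹ * t ^ (-a i) := fun t i => ptF_Y _ _ _ i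
  have hvJ : ∀ t j, v t (iJ n j) = g j t := fun t j => ptF_J _ _ _ j
  have h1 := hgm v (all_F (fun i => by
    simp only [hvU]
    exact (Laur.const _).mul (Laur.zpow _)) (fun i => by
    simp only [hvY]
    exact (Laur.const _).mul (Laur.zpow _)) fun j => by
    simp only [hvJ]
    exact hgL j) (fun l t ht => by
      refine (covF_eval₂ (σ.comp (algebraMap (𝓞 K) K)) m f (v t)).2 ⟨fun i => ?_, fun j => ?_⟩ l
      · rw [hvU, hvY, zpow_neg]
        have := hx i
        have := zpow_ne_zero (a i) ht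
        field_simp
      · rw [hvJ, ← hge j t ht, eval_map]
        congr 1
        funext i
        rw [hvU]) (by
      obtain ⟨i, hi⟩ : ∃ i, a i ≠ 0 := by
        by_contra hcon
        push Not at hcon
        exact ha (funext hcon)
      refine ⟨2, 1, two_ne_zero, one_ne_zero, fun h => ?_⟩
      have h2 := congrFun h (iU q i)
      rw [hvU, hvU, one_zpow] at h2
      have h3 : (2 : ℂ) ^ a i = 1 := mul_left_cancel₀ (hx i) h2
      have h4 : ‖(2 : ℂ) ^ a i‖ = 1 := by rw [h3, norm_one]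
      rw [norm_zpow, Complex.norm_ofNat] at h4
      exact hi ((zpow_eq_one_iff_right₀ (by norm_num) (by norm_num)).1 h4)) l 1 one_ne_zero
  have h2 : eval₂ (σ.comp (algebraMap (𝓞 K) K)) (v 1) (rename (iU q) (G l)) = 0 := h1
  rw [eval₂_rename] at h2
  have h3 : v 1 ∘ iU q = x := by
    funext i
    show v 1 (iU q i) = x i
    rw [hvU, one_zpow, mul_one]
  rw [h3] at h2
  exact h2

end Pool.Agent.H434
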