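import Mathlib
import Pool.Agent.H434.Crit

/-!
Laurent polynomials and their values at units.
-/

set_option autoImplicit false
set_option linter.unusedSectionVars false

open Finset Filter Module

namespace Pool.Agent.H434.GM

open Pool.Agent.N754.LT

/-- Laurent polynomials in `r` variables -/
abbrev Lau (k : Type) [Field k] (r : ℕ) : Type := AddMonoidAlgebra k (Fin r → ℤ)

variable {k B : Type} [Field k] [CommRing B] [Algebra k B] {r : ℕ}

/-- the monomial in units -/
noncomputable def mz (u : Fin r → Bˣ) (e : Fin r → ℤ) : Bˣ := ∏ i, u i ^ e i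

theorem mz_add (u : Fin r → Bˣ) (e e' : Fin r → ℤ) : mz u (e + e') = mz u e * mz u e' := by
  unfold mz
  rw [← Finset.prod_mul_distrib]
  exact Finset.prod_congr rfl fun i _ => by rw [Pi.add_apply, zpow_add]

theorem mz_zero (u : Fin r → Bˣ) : mz u 0 = 1 := by
  unfold mz
  simp

/-- the value of a Laurent polynomial at units -/
noncomputable def evL (k : Type) {B : Type} [Field k] [CommRing B] [Algebra k B] {r : ℕ}
    (u : Fin r → Bˣ) : Lau k r →ₐ[k] B :=
  AddMonoidAlgebra.lift k B (Fin r → ℤ)
    { toFun := fun e => ((mz u e.toAdd : Bˣ) : B)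
      map_one' := by
        show ((mz u 0 : Bˣ) : B) = 1
        rw [mz_zero, Units.val_one]
      map_mul' := fun a b => by
        show ((mz u (a.toAdd + b.toAdd) : Bˣ) : B) = _
        rw [mz_add, Units.val_mul] }

theorem evL_single (u : Fin r → Bˣ) (e : Fin r → ℤ) (c : k) :
    evL k u (AddMonoidAlgebra.single e c) = algebraMap k B c * (mz u e : Bˣ) := by
  unfold evL
  rw [AddMonoidAlgebra.lift_single, Algebra.smul_def]
  rfl

theorem evL_apply (u : Fin r → Bˣ) (p : Lau k r) :
    evL k u p = ∑ e : p.coeff.support, algebraMap k B (p.coeff e.1) * (mz u e.1 : Bˣ) := by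
  unfold evL
  rw [AddMonoidAlgebra.lift_apply, Finsupp.sum, ← Finset.sum_coe_sort]
  exact Finset.sum_congr rfl fun e _ => by
    rw [Algebra.smul_def]
    rfl

theorem evL_inj [IsDomain B] (u : Fin r → Bˣ) (hu : AlgebraicIndependent k (fun i => (u i : B))) :
    Function.Injective (evL k u) := by
  classical
  rw [injective_iff_map_eq_zero]
  intro p hp
  obtain ⟨N, hN⟩ : ∃ N : ℕ, ∀ e ∈ p.coeff.support, ∀ i, 0 ≤ e i + N := by
    refine ⟨∑ e ∈ p.coeff.support, ∑ i, (e i).natAbs, fun e he i => ?_⟩
    have h1 : (e i).natAbs ≤ ∑ i, (e i).natAbs :=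
      Finset.single_le_sum (f := fun i => (e i).natAbs) (fun _ _ => Nat.zero_le _)
        (Finset.mem_univ i)
    have h2 : ∑ i, (e i).natAbs ≤ ∑ e ∈ p.coeff.support, ∑ i, (e i).natAbs :=
      Finset.single_le_sum (f := fun e : Fin r → ℤ => ∑ i, (e i).natAbs)
        (fun _ _ => Nat.zero_le _) he
    omega
  let s : (Fin r → ℤ) → (Fin r →₀ ℕ) := fun e =>
    Finsupp.equivFunOnFinite.symm fun i => (e i + N).toNat
  have hs : ∀ e ∈ p.coeff.support, ∀ i, ((s e i : ℕ) : ℤ) = e i + N := fun e he i =>
    Int.toNat_of_nonneg (hN e he i)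
  let q : MvPolynomial (Fin r) k := ∑ e ∈ p.coeff.support,
    MvPolynomial.monomial (s e) (p.coeff e)
  have hq : MvPolynomial.aeval (fun i => (u i : B)) q = (mz u (fun _ => (N : ℤ)) : Bˣ) * evL k u p := by
    simp only [q]
    rw [map_sum, evL_apply, Finset.mul_sum, Finset.sum_coe_sort p.coeff.support
      (fun e => (mz u (fun _ => (N : ℤ)) : B) * (algebraMap k B (p.coeff e) * (mz u e : B)))]
    refine Finset.sum_congr rfl fun e he => ?_
    rw [MvPolynomial.aeval_monomial, Finsupp.prod_fintype _ _ (fun _ => pow_zero _)]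
    have h1 : ∏ i, (u i : B) ^ s e i = (mz u (fun _ => (N : ℤ)) : Bˣ) * (mz u e : Bˣ) := by
      rw [← Units.val_mul, ← mz_add]
      unfold mz
      rw [Units.coe_prod]
      refine Finset.prod_congr rfl fun i _ => ?_
      rw [← Units.val_pow_eq_pow_val, ← zpow_natCast, hs e he i, Pi.add_apply, add_comm]
    rw [h1]
    ring
  rw [hp, mul_zero] at hq
  have hinj : Function.Injective (MvPolynomial.aeval (R := k) fun i => (u i : B)) := hu
  have hq0 : q = 0 := hinj (by rw [hq, map_zero])
  have hcoef : ∀ e ∈ p.coeff.support, p.coeff e = 0 := by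
    intro e he
    have h1 := congrArg (MvPolynomial.coeff (s e)) hq0
    simp only [q] at h1
    rw [MvPolynomial.coeff_sum, Finset.sum_eq_single e] at h1
    · rw [MvPolynomial.coeff_monomial, if_pos rfl, MvPolynomial.coeff_zero] at h1
      exact h1
    · intro e' he' hne
      rw [MvPolynomial.coeff_monomial, if_neg]
      intro h2
      apply hne
      funext i
      have h3 := hs e he i
      have h4 := hs e' he' i
      rw [h2] at h4
      linarith
    · intro h
      exact absurd he h
  have h0 : p.coeff = 0 := by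
    ext e
    by_cases he : e ∈ p.coeff.support
    · exact hcoef e he
    · exact Finsupp.notMem_support_iff.1 he
  have h1 : p = AddMonoidAlgebra.ofCoeff p.coeff := rfl
  rw [h1, h0]
  rfl

section dc

variable {R : Type} [CommRing R] [IsDomain R] [Algebra k R] (D : Dc k R)

/-- the scalar product with an exponent -/
noncomputable def dot (e : Fin r → ℤ) (l : Fin r → ℝ) : ℝ := ∑ i, (e i : ℝ) * l i

theorem lg_mz (u : Fin r → Rˣ) (e : Fin r → ℤ) :
    ∀ᶠ ω in D.ev, D.lg (mz u e : Rˣ) ω = dot e (lgv D u ω) := by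
  classical
  have h1 : ∀ᶠ ω in D.ev, ∀ i ∈ (Finset.univ : Finset (Fin r)),
      D.lg ((u i ^ e i : Rˣ) : R) ω = (e i : ℝ) * D.lg (u i : R) ω :=
    (Filter.eventually_all_finset _).2 fun i _ => D.lg_zpow _ _
  filter_upwards [D.lg_prod Finset.univ (fun i => ((u i ^ e i : Rˣ) : R))
    (fun i _ => Units.ne_zero _), h1] with ω h2 h3
  unfold mz
  rw [Units.coe_prod, h2]
  unfold dot
  exact Finset.sum_congr rfl fun i hi => h3 i hi

/-- the subspace theorem for an element which is not a Laurent polynomial in the units -/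
theorem smt_lau (u : Fin r → Rˣ) (hu : AlgebraicIndependent k (fun i => (u i : R))) (w : R)
    (hw : ∀ p : Lau k r, w ≠ evL k u p) {κ : Type} [Finite κ] (c : κ → Lau k r) (s : D.Ω → κ) :
    D.Neg (fun ω => -D.lg (w - evL k u (c (s ω))) ω) := by
  classical
  have := Fintype.ofFinite κ
  let T : Finset (Fin r → ℤ) := Finset.univ.biUnion fun a => (c a).coeff.support
  have hcT : ∀ a, (c a).coeff.support ⊆ T := fun a =>
    Finset.subset_biUnion_of_mem (fun a => (c a).coeff.support) (Finset.mem_univ a)
  let toL : (T → k) →ₗ[k] Lau k r :=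
    { toFun := fun x => ∑ e : T, AddMonoidAlgebra.single e.1 (x e)
      map_add' := fun x y => by
        simp only [Pi.add_apply, AddMonoidAlgebra.single_add, Finset.sum_add_distrib]
      map_smul' := fun a x => by
        simp only [Pi.smul_apply, smul_eq_mul, RingHom.id_apply, Finset.smul_sum,
          AddMonoidAlgebra.smul_single] }
  have htoL : ∀ x, toL x = ∑ e : T, AddMonoidAlgebra.single e.1 (x e) := fun _ => rfl
  have hcoef : ∀ x (e : T), (toL x).coeff e.1 = x e := by
    intro x e
    rw [htoL, AddMonoidAlgebra.coeff_sum, Finsupp.finsetSum_apply, Finset.sum_eq_single e]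
    · rw [AddMonoidAlgebra.coeff_single, Finsupp.single_eq_same]
    · intro e' _ hne
      rw [AddMonoidAlgebra.coeff_single, Finsupp.single_apply, if_neg]
      exact fun h => hne (Subtype.ext h)
    · intro h
      exact absurd (Finset.mem_univ _) h
  have htoLinj : ∀ x, toL x = 0 → x = 0 := by
    intro x hx
    funext e
    rw [← hcoef x e, hx]
    rfl
  let Ψ : k × (T → k) →ₗ[k] R :=
    (LinearMap.toSpanSingleton k R w).coprod ((evL k u).toLinearMap ∘ₗ toL)
  have hΨa : ∀ x, Ψ x = x.1 • w + evL k u (toL x.2) := fun _ => rfl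
  have hΨ : Function.Injective Ψ := by
    rw [injective_iff_map_eq_zero]
    rintro ⟨a, x⟩ hx
    rw [hΨa] at hx
    simp only at hx
    by_cases ha : a = 0
    · rw [ha, zero_smul, zero_add] at hx
      have h1 := htoLinj x (evL_inj u hu (by rw [hx, map_zero]))
      rw [ha, h1]
      rfl
    · exfalso
      apply hw (-(a⁻¹ • toL x))
      rw [map_neg, map_smul]
      have h1 : evL k u (toL x) = -(a • w) := by
        rw [eq_neg_iff_add_eq_zero, add_comm]
        exact hx
      rw [h1, smul_neg, neg_neg, smul_smul, inv_mul_cancel₀ ha, one_smul]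
  let v : κ → Option T → k × (T → k) := fun a o =>
    match o with
    | none => (1, fun e => -(c a).coeff e.1)
    | some e => (0, Pi.single e 1)
  have hv : ∀ a, LinearIndependent k (v a) := by
    intro a
    rw [Fintype.linearIndependent_iff]
    intro x hx
    rw [Fintype.sum_option] at hx
    have h1 := congrArg Prod.fst hx
    have h2 := congrArg Prod.snd hx
    simp only [v, Prod.fst_add, Prod.fst_sum, Prod.smul_mk, smul_zero, Finset.sum_const_zero,
      add_zero, Prod.fst_zero, smul_eq_mul, mul_one, mul_zero] at h1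
    simp only [v, Prod.snd_add, Prod.snd_sum, Prod.smul_mk, Prod.snd_zero] at h2
    rw [h1, zero_smul, zero_add] at h2
    rintro (_ | e)
    · exact h1
    · have h3 := congrFun h2 e
      rw [Finset.sum_apply, Finset.sum_eq_single e] at h3
      · simpa using h3
      · intro e' _ hne
        rw [Pi.smul_apply, Pi.single_eq_of_ne hne.symm, smul_zero]
      · intro h
        exact absurd (Finset.mem_univ _) h
  have hI : Fintype.card (Option T) = finrank k (k × (T → k)) := by
    rw [Fintype.card_option, Module.finrank_prod, Module.finrank_self,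
      Module.finrank_fintype_fun_eq_card, add_comm]
  have h1 := smt_basis D hI Ψ hΨ v hv s
  have h2 : D.Neg (fun ω => ∑ e : T, D.lg (mz u e.1 : Rˣ) ω) :=
    D.neg_sum _ _ fun e _ => D.unit_neg' _
  refine D.neg_mono _ _ (Filter.Eventually.of_forall fun ω => ?_) (D.neg_add _ _ h1 h2)
  have h3 : ∀ e : T, Ψ (v (s ω) (some e)) = (mz u e.1 : Rˣ) := by
    intro e
    rw [hΨa]
    simp only [v, zero_smul, zero_add]
    rw [htoL, Finset.sum_eq_single e]
    · rw [Pi.single_eq_same, evL_single, map_one, one_mul]
    · intro e' _ hne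
      rw [Pi.single_eq_of_ne hne, AddMonoidAlgebra.single_zero]
    · intro h
      exact absurd (Finset.mem_univ _) h
  have h4 : Ψ (v (s ω) none) = w - evL k u (c (s ω)) := by
    rw [hΨa]
    simp only [v, one_smul]
    rw [sub_eq_add_neg, ← map_neg]
    congr 2
    apply AddMonoidAlgebra.ext
    ext e
    by_cases he : e ∈ T
    · rw [hcoef _ ⟨e, he⟩]
      rfl
    · rw [htoL, AddMonoidAlgebra.coeff_sum, Finsupp.finsetSum_apply]
      have h5 : (c (s ω)).coeff e = 0 := Finsupp.notMem_support_iff.1 fun h => he (hcT _ h)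
      have h6 : (-(c (s ω))).coeff e = -(c (s ω)).coeff e := rfl
      rw [h6, h5, neg_zero]
      apply Finset.sum_eq_zero
      intro e' _
      rw [AddMonoidAlgebra.coeff_single, Finsupp.single_apply, if_neg]
      intro h
      exact he (h ▸ e'.2)
  rw [Fintype.sum_option, h4]
  simp only [h3]
  linarith

end dc

end Pool.Agent.H434.GM
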