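import Mathlib
import Pool.Agent.H434.N1

/-!
Roots of monic polynomials over the Laurent polynomials, and the covering criterion.
-/

set_option autoImplicit false
set_option linter.unusedSectionVars false

open Finset Filter Module Polynomial

namespace Pool.Agent.H434.GM

open Pool.Agent.N754.LT

variable {k : Type} [Field k] {r : ℕ}

/-- the size of a direction -/
noncomputable def sz (l : Fin r → ℝ) : ℝ := ∑ i, |l i|

theorem sz_nonneg (l : Fin r → ℝ) : 0 ≤ sz l := Finset.sum_nonneg fun _ _ => abs_nonneg _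

theorem abs_dot_le (e : Fin r → ℤ) (l : Fin r → ℝ) (C : ℝ) (h : ∀ i, |(e i : ℝ)| ≤ C) :
    |dot e l| ≤ C * sz l := by
  unfold dot sz
  refine (Finset.abs_sum_le_sum_abs _ _).trans ?_
  rw [Finset.mul_sum]
  refine Finset.sum_le_sum fun i _ => ?_
  rw [abs_mul]
  exact mul_le_mul_of_nonneg_right (h i) (abs_nonneg _)

/-- the polynomial is close to a product of linear factors in the direction `l` -/
def Close (Q : (Lau k r)[X]) (b : Fin Q.natDegree → Lau k r) (A : ℝ) (l : Fin r → ℝ) : Prop :=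
  ∀ j, ∀ e ∈ ((Q - ∏ i, (X - C (b i))).coeff j).coeff.support, dot e l ≤ -A

theorem prod_monic {d : ℕ} (b : Fin d → Lau k r) : (∏ i, (X - C (b i)) : (Lau k r)[X]).Monic :=
  monic_prod_of_monic _ _ fun i _ => monic_X_sub_C _

theorem prod_natDegree {d : ℕ} (b : Fin d → Lau k r) :
    (∏ i, (X - C (b i)) : (Lau k r)[X]).natDegree = d := by
  rw [natDegree_prod_of_monic _ _ fun _ _ => monic_X_sub_C _]
  simp

theorem coeff_sub_prod {Q : (Lau k r)[X]} (hQ : Q.Monic) (b : Fin Q.natDegree → Lau k r) (j : ℕ)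
    (hj : Q.natDegree ≤ j) : (Q - ∏ i, (X - C (b i))).coeff j = 0 := by
  rw [coeff_sub]
  rcases eq_or_lt_of_le hj with h | h
  · have h1 : Q.coeff j = 1 := by
      rw [← h]
      exact hQ
    have h2 : (∏ i, (X - C (b i)) : (Lau k r)[X]).coeff j = 1 := by
      have h3 := prod_monic b
      unfold Monic leadingCoeff at h3
      rw [prod_natDegree] at h3
      rw [← h]
      exact h3
    rw [h1, h2, sub_self]
  · rw [coeff_eq_zero_of_natDegree_lt h, coeff_eq_zero_of_natDegree_lt (by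
      rw [prod_natDegree]
      exact h), sub_self]

section dc

variable {R : Type} [CommRing R] [IsDomain R] [Algebra k R] (D : Dc k R)

/-- the value of a polynomial over the Laurent polynomials -/
noncomputable def evQ (k : Type) {B : Type} [Field k] [CommRing B] [Algebra k B] {r : ℕ}
    (u : Fin r → Bˣ) (w : B) (Q : (Lau k r)[X]) : B :=
  Q.eval₂ (evL k u : Lau k r →+* B) w

theorem evQ_sub (u : Fin r → Rˣ) (w : R) (P Q : (Lau k r)[X]) :
    evQ k u w (P - Q) = evQ k u w P - evQ k u w Q := eval₂_sub _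

theorem evQ_prod (u : Fin r → Rˣ) (w : R) {d : ℕ} (b : Fin d → Lau k r) :
    evQ k u w (∏ i, (X - C (b i))) = ∏ i, (w - evL k u (b i)) := by
  unfold evQ
  rw [eval₂_finsetProd]
  refine Finset.prod_congr rfl fun i _ => ?_
  rw [eval₂_sub, eval₂_X, eval₂_C]
  rfl

/-- the size of the value of a polynomial -/
theorem lg_evQ (u : Fin r → Rˣ) (w : R) (hw : w ≠ 0) (E : (Lau k r)[X])
    (hE : evQ k u w E ≠ 0) : ∃ C : ℝ, ∀ᶠ ω in D.ev, ∀ t : ℝ,
      (∀ j, ∀ e ∈ (E.coeff j).coeff.support, dot e (lgv D u ω) + j * D.lg w ω ≤ t) →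
        D.lg (evQ k u w E) ω ≤ C + t := by
  classical
  let ι : Type := Σ j : Fin (E.natDegree + 1), (E.coeff j).coeff.support
  let c : ι → k := fun a => (E.coeff a.1).coeff a.2.1
  let x : ι → R := fun a => (mz u a.2.1 : Rˣ) * w ^ (a.1 : ℕ)
  have hx : ∀ a, x a ≠ 0 := fun a => mul_ne_zero (Units.ne_zero _) (pow_ne_zero _ hw)
  have hsum : evQ k u w E = ∑ a, algebraMap k R (c a) * x a := by
    unfold evQ
    rw [eval₂_eq_sum_range, Finset.sum_range, Fintype.sum_sigma]
    refine Finset.sum_congr rfl fun j _ => ?_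
    have h1 : (evL k u : Lau k r →+* R) (E.coeff j) = evL k u (E.coeff j) := rfl
    rw [h1, evL_apply, Finset.sum_mul]
    refine Finset.sum_congr rfl fun e _ => ?_
    simp only [c, x]
    ring
  obtain ⟨C, hC⟩ := D.lg_sum_le c x hx (by rw [← hsum]; exact hE)
  have h2 : ∀ᶠ ω in D.ev, ∀ a : ι, D.lg (x a) ω = dot a.2.1 (lgv D u ω) + (a.1 : ℕ) * D.lg w ω := by
    refine (Filter.eventually_all).2 fun a => ?_
    filter_upwards [D.lg_mul _ _ (Units.ne_zero (mz u a.2.1)) (pow_ne_zero (a.1 : ℕ) hw),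
      lg_mz D u a.2.1, D.lg_pow w (a.1 : ℕ)] with ω g1 g2 g3
    simp only [x]
    rw [g1, g2, g3]
  refine ⟨C, ?_⟩
  filter_upwards [hC, h2] with ω g1 g2 t ht
  rw [hsum]
  refine g1 t fun a _ => ?_
  rw [g2 a]
  exact ht _ _ a.2.2

/-- the size of a root -/
theorem root_le (u : Fin r → Rˣ) (w : R) (Q : (Lau k r)[X]) (hQ : Q.Monic)
    (hw : evQ k u w Q = 0) (C1 : ℝ) (hC1 : 0 ≤ C1)
    (hE : ∀ j, ∀ e ∈ (Q.coeff j).coeff.support, ∀ i, |(e i : ℝ)| ≤ C1) :
    ∃ C : ℝ, 0 ≤ C ∧ ∀ᶠ ω in D.ev, D.lg w ω ≤ C + C1 * sz (lgv D u ω) := by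
  classical
  by_cases hw0 : w = 0
  · refine ⟨0, le_rfl, ?_⟩
    filter_upwards [D.A_zero] with ω h
    rw [hw0]
    unfold Dc.lg
    rw [h, Real.log_zero]
    have := mul_nonneg hC1 (sz_nonneg (lgv D u ω))
    linarith
  · have hval : evQ k u w (X ^ Q.natDegree - Q) = w ^ Q.natDegree := by
      rw [evQ_sub, hw, sub_zero]
      unfold evQ
      rw [eval₂_pow, eval₂_X]
    have hd : 1 ≤ Q.natDegree := by
      by_contra hcon
      have h0 : Q.natDegree = 0 := by omega
      have h1 : Q = 1 := by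
        rw [← hQ.natDegree_eq_zero]
        exact h0
      rw [h1] at hw
      unfold evQ at hw
      rw [eval₂_one] at hw
      exact one_ne_zero hw
    obtain ⟨C, hC⟩ := lg_evQ D u w hw0 (X ^ Q.natDegree - Q) (by
      rw [hval]
      exact pow_ne_zero _ hw0)
    refine ⟨|C|, abs_nonneg _, ?_⟩
    filter_upwards [hC, D.lg_pow w Q.natDegree] with ω g1 g2
    have hs := mul_nonneg hC1 (sz_nonneg (lgv D u ω))
    by_cases hl : D.lg w ω ≤ 0
    · have := abs_nonneg C
      linarith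
    push Not at hl
    have h1 := g1 (C1 * sz (lgv D u ω) + (Q.natDegree - 1) * D.lg w ω) (by
      intro j e he
      have hj : j < Q.natDegree := by
        by_contra hcon
        push Not at hcon
        have h2 : (X ^ Q.natDegree - Q).coeff j = 0 := by
          rw [coeff_sub, coeff_X_pow]
          rcases eq_or_lt_of_le hcon with h | h
          · rw [if_pos h.symm]
            have h1 : Q.coeff j = 1 := by
              rw [← h]
              exact hQ
            rw [h1, sub_self]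
          · rw [if_neg (by omega), coeff_eq_zero_of_natDegree_lt h, sub_zero]
        rw [h2] at he
        simp at he
      have h2 : (X ^ Q.natDegree - Q).coeff j = -Q.coeff j := by
        rw [coeff_sub, coeff_X_pow, if_neg (by omega), zero_sub]
      have h3 : e ∈ (Q.coeff j).coeff.support := by
        rw [h2] at he
        rw [Finsupp.mem_support_iff] at he ⊢
        intro h4
        apply he
        have h5 : (-Q.coeff j).coeff e = -(Q.coeff j).coeff e := rfl
        rw [h5, h4, neg_zero]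
      have h4 := (abs_le.1 (abs_dot_le e (lgv D u ω) C1 (hE j e h3))).2
      have h5 : (j : ℝ) ≤ Q.natDegree - 1 := by
        have : (j : ℝ) + 1 ≤ Q.natDegree := by exact_mod_cast hj
        linarith
      have h6 := mul_le_mul_of_nonneg_right h5 hl.le
      linarith)
    rw [hval, g2] at h1
    have := le_abs_self C
    linarith

/-- a root is close to one of the approximations -/
theorem approx_le (u : Fin r → Rˣ) (w : R) (Q : (Lau k r)[X]) (hQ : Q.Monic)
    (hw : evQ k u w Q = 0) (hne : ∀ p : Lau k r, w ≠ evL k u p) (b : Fin Q.natDegree → Lau k r) :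
    ∃ C : ℝ, 0 ≤ C ∧ ∀ᶠ ω in D.ev, ∀ A t : ℝ, 0 ≤ t → D.lg w ω ≤ t →
      Close Q b A (lgv D u ω) → ∃ i, D.lg (w - evL k u (b i)) ω ≤ C + t - A / Q.natDegree := by
  classical
  have hw0 : w ≠ 0 := fun h => hne 0 (by rw [h, map_zero])
  have hne' : ∀ i, w - evL k u (b i) ≠ 0 := fun i h => hne _ (sub_eq_zero.1 h)
  have hd : 1 ≤ Q.natDegree := by
    by_contra hcon
    have h0 : Q.natDegree = 0 := by omega
    have h1 : Q = 1 := by
      rw [← hQ.natDegree_eq_zero]
      exact h0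
    rw [h1] at hw
    unfold evQ at hw
    rw [eval₂_one] at hw
    exact one_ne_zero hw
  have hval : evQ k u w ((∏ i, (X - C (b i))) - Q) = ∏ i, (w - evL k u (b i)) := by
    rw [evQ_sub, hw, sub_zero, evQ_prod]
  obtain ⟨C, hC⟩ := lg_evQ D u w hw0 ((∏ i, (X - Polynomial.C (b i))) - Q) (by
    rw [hval]
    exact Finset.prod_ne_zero_iff.2 fun i _ => hne' i)
  refine ⟨|C|, abs_nonneg _, ?_⟩
  filter_upwards [hC, D.lg_prod Finset.univ (fun i => w - evL k u (b i)) (fun i _ => hne' i)]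
    with ω g1 g2 A t ht hwt hcl
  have h1 := g1 (Q.natDegree * t - A) (by
    intro j e he
    have h2 : ((∏ i, (X - Polynomial.C (b i))) - Q).coeff j =
        -(Q - ∏ i, (X - Polynomial.C (b i))).coeff j := by
      rw [coeff_sub, coeff_sub, neg_sub]
    have h3 : e ∈ ((Q - ∏ i, (X - Polynomial.C (b i))).coeff j).coeff.support := by
      rw [h2] at he
      rw [Finsupp.mem_support_iff] at he ⊢
      intro h4
      apply he
      have h5 : (-(Q - ∏ i, (X - Polynomial.C (b i))).coeff j).coeff e =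
        -((Q - ∏ i, (X - Polynomial.C (b i))).coeff j).coeff e := rfl
      rw [h5, h4, neg_zero]
    have hj : j < Q.natDegree := by
      by_contra hcon
      push Not at hcon
      rw [coeff_sub_prod hQ b j hcon] at h3
      simp at h3
    have h4 := hcl j e h3
    have h5 : (j : ℝ) * D.lg w ω ≤ Q.natDegree * t := by
      have h6 : (j : ℝ) * D.lg w ω ≤ j * t := mul_le_mul_of_nonneg_left hwt (Nat.cast_nonneg _)
      have h7 : (j : ℝ) * t ≤ Q.natDegree * t :=
        mul_le_mul_of_nonneg_right (by exact_mod_cast hj.le) ht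
      linarith
    linarith)
  rw [hval, g2] at h1
  have hdR : (0 : ℝ) < Q.natDegree := by exact_mod_cast hd
  by_contra hcon
  push Not at hcon
  have h2 : ∑ i : Fin Q.natDegree, (|C| + t - A / Q.natDegree) <
      ∑ i : Fin Q.natDegree, D.lg (w - evL k u (b i)) ω :=
    Finset.sum_lt_sum_of_nonempty ⟨⟨0, hd⟩, Finset.mem_univ _⟩ fun i _ => hcon i
  rw [Finset.sum_const, Finset.card_univ, Fintype.card_fin, nsmul_eq_mul] at h2
  have h3 : (Q.natDegree : ℝ) * (|C| + t - A / Q.natDegree) = Q.natDegree * |C| +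
      Q.natDegree * t - A := by
    field_simp
  rw [h3] at h2
  have h4 : |C| ≤ Q.natDegree * |C| :=
    le_mul_of_one_le_left (abs_nonneg _) (by exact_mod_cast hd)
  have h5 := le_abs_self C
  linarith

/-- the covering condition with constants -/
def Cov {J : Type} (C D : ℝ) (Q : J → (Lau k r)[X]) : Prop :=
  ∃ (μ : Fin r → ℝ) (T : Finset (Σ j : J, (Fin (Q j).natDegree → Lau k r))),
    ∀ l : Fin r → ℝ, ∑ i, μ i * l i ≤ -((C + 1) * sz l) ∨
      ∃ s ∈ T, Close (Q s.1) s.2 (D * (C + 1 + ∑ i, |μ i|) * sz l) l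

theorem cov_neg [CharZero k] (u : Fin r → Rˣ) (hu : AlgebraicIndependent k (fun i => (u i : R)))
    {J : Type} [Fintype J] (Q : J → (Lau k r)[X]) (hQ : ∀ j, (Q j).Monic) (w : J → R)
    (hw : ∀ j, evQ k u (w j) (Q j) = 0) (hne : ∀ j, ∀ p : Lau k r, w j ≠ evL k u p)
    (C1 C2 D2 : ℝ) (hC1 : 0 ≤ C1)
    (hE : ∀ j a, ∀ e ∈ ((Q j).coeff a).coeff.support, ∀ i, |(e i : ℝ)| ≤ C1)
    (hC2 : Fintype.card J * C1 ≤ C2) (hD2 : ∀ j, ((Q j).natDegree : ℝ) ≤ D2)
    (hcov : Cov C2 D2 Q) : D.Neg (fun ω => ∑ i, |D.lg (u i : R) ω|) := by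
  classical
  obtain ⟨μ, T, hT⟩ := hcov
  let K : Finset (Lau k r) := insert 0 (T.biUnion fun s => Finset.univ.image s.2)
  have hK0 : (0 : Lau k r) ∈ K := Finset.mem_insert_self _ _
  have hKT : ∀ s ∈ T, ∀ i, s.2 i ∈ K := fun s hs i => Finset.mem_insert_of_mem
    (Finset.mem_biUnion.2 ⟨s, hs, Finset.mem_image_of_mem _ (Finset.mem_univ i)⟩)
  have hmin : ∀ (j : J) (ω : D.Ω), ∃ p : K, ∀ p' ∈ K,
      D.lg (w j - evL k u p) ω ≤ D.lg (w j - evL k u p') ω := by
    intro j ω
    obtain ⟨p, hp, h⟩ := Finset.exists_min_image K (fun p => D.lg (w j - evL k u p) ω) ⟨0, hK0⟩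
    exact ⟨⟨p, hp⟩, h⟩
  choose c hc using hmin
  have h1 : ∀ j, D.Neg (fun ω => -D.lg (w j - evL k u (c j ω)) ω) := fun j =>
    smt_lau D u hu (w j) (hne j) (fun p : K => (p : Lau k r)) (c j)
  have h2 := D.neg_sum Finset.univ (fun j ω => -D.lg (w j - evL k u (c j ω)) ω) fun j _ => h1 j
  have h3 := unit_scale D u (fun i => -μ i)
  choose C0 hC0 hroot using fun j => root_le D u (w j) (Q j) (hQ j) (hw j) C1 hC1 (hE j)
  choose C3 hC3 happ using fun s : Σ j : J, (Fin (Q j).natDegree → Lau k r) =>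
    approx_le D u (w s.1) (Q s.1) (hQ s.1) (hw s.1) (hne s.1) s.2
  let E : ℝ := ∑ j, C0 j + ∑ s ∈ T, C3 s
  refine D.neg_mono _ _ ?_ (D.neg_add _ _ (D.neg_const E) (D.neg_add _ _ h2 h3))
  have e1 : ∀ᶠ ω in D.ev, ∀ j, D.lg (w j) ω ≤ C0 j + C1 * sz (lgv D u ω) :=
    (Filter.eventually_all).2 hroot
  have e2 : ∀ᶠ ω in D.ev, ∀ s ∈ T, ∀ A t : ℝ, 0 ≤ t → D.lg (w s.1) ω ≤ t →
      Close (Q s.1) s.2 A (lgv D u ω) →
      ∃ i, D.lg (w s.1 - evL k u (s.2 i)) ω ≤ C3 s + t - A / (Q s.1).natDegree :=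
    (Filter.eventually_all_finset _).2 fun s _ => happ s
  filter_upwards [e1, e2] with ω g1 g2
  set l := lgv D u ω with hl
  have hszl : ∑ i, |D.lg (u i : R) ω| = sz l := rfl
  have hs0 := sz_nonneg l
  have hμ : ∑ i, -μ i * D.lg (u i : R) ω = -∑ i, μ i * l i := by
    rw [← Finset.sum_neg_distrib]
    refine Finset.sum_congr rfl fun i _ => ?_
    show _ = -(μ i * D.lg (u i : R) ω)
    ring
  have hb0 : ∀ j, -(C0 j + C1 * sz l) ≤ -D.lg (w j - evL k u (c j ω)) ω := by
    intro j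
    have h4 := hc j ω 0 hK0
    rw [map_zero, sub_zero] at h4
    linarith [g1 j]
  have hsumC0 : ∑ j, -(C0 j + C1 * sz l) = -∑ j, C0 j - Fintype.card J * C1 * sz l := by
    rw [Finset.sum_neg_distrib, Finset.sum_add_distrib, Finset.sum_const, Finset.card_univ,
      nsmul_eq_mul]
    ring
  have hT3 : 0 ≤ ∑ s ∈ T, C3 s := Finset.sum_nonneg fun s _ => hC3 s
  have hcs : Fintype.card J * C1 * sz l ≤ C2 * sz l := mul_le_mul_of_nonneg_right hC2 hs0
  rw [hszl, hμ]
  rcases hT l with h | ⟨s, hs, h⟩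
  · have h5 : ∑ j, -(C0 j + C1 * sz l) ≤ ∑ j, -D.lg (w j - evL k u (c j ω)) ω :=
      Finset.sum_le_sum fun j _ => hb0 j
    rw [hsumC0] at h5
    simp only [E]
    linarith
  · have ht0 : 0 ≤ C0 s.1 + C1 * sz l := add_nonneg (hC0 _) (mul_nonneg hC1 hs0)
    obtain ⟨i, hi⟩ := g2 s hs _ _ ht0 (g1 s.1) h
    have h4 := hc s.1 ω _ (hKT s hs i)
    have hd0 : (1 : ℝ) ≤ (Q s.1).natDegree := by exact_mod_cast i.pos
    have hAd : (C2 + 1 + ∑ i, |μ i|) * sz l ≤
        D2 * (C2 + 1 + ∑ i, |μ i|) * sz l / (Q s.1).natDegree := by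
      rw [le_div_iff₀ (by linarith)]
      have h6 : 0 ≤ (C2 + 1 + ∑ i, |μ i|) * sz l := by
        have h7 : 0 ≤ C2 := le_trans (by positivity) hC2
        have h8 : 0 ≤ ∑ i, |μ i| := Finset.sum_nonneg fun _ _ => abs_nonneg _
        positivity
      have h7 := mul_le_mul_of_nonneg_left (hD2 s.1) h6
      linarith
    have hμl : ∑ i, μ i * l i ≤ (∑ i, |μ i|) * sz l := by
      rw [Finset.sum_mul]
      refine Finset.sum_le_sum fun i _ => ?_
      refine (le_abs_self _).trans ?_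
      rw [abs_mul]
      refine mul_le_mul_of_nonneg_left ?_ (abs_nonneg _)
      exact Finset.single_le_sum (f := fun i => |l i|) (fun _ _ => abs_nonneg _)
        (Finset.mem_univ i)
    have h5 : ∑ j ∈ Finset.univ.erase s.1, -(C0 j + C1 * sz l) ≤
        ∑ j ∈ Finset.univ.erase s.1, -D.lg (w j - evL k u (c j ω)) ω :=
      Finset.sum_le_sum fun j _ => hb0 j
    have h6 := Finset.add_sum_erase Finset.univ (fun j => -(C0 j + C1 * sz l))
      (Finset.mem_univ s.1)
    have h7 := Finset.add_sum_erase Finset.univ (fun j => -D.lg (w j - evL k u (c j ω)) ω)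
      (Finset.mem_univ s.1)
    have h8 : C3 s ≤ ∑ s ∈ T, C3 s := Finset.single_le_sum (f := C3) (fun s _ => hC3 s) hs
    rw [hsumC0] at h6
    simp only [E]
    linarith

end dc

end Pool.Agent.H434.GM
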