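import Mathlib
import Pool.Agent.H434.N2

/-!
The subspace theorem for rational approximations of an element which is not a rational function of
the units.
-/

set_option autoImplicit false
set_option linter.unusedSectionVars false

open Finset Filter Module

namespace Pool.Agent.H434.GM

open Pool.Agent.N754.LT

section comb

/-- the rank of an element of a finite family in a linear order -/
noncomputable def rk {α E : Type} [LinearOrder α] [Fintype E] (κ : E → α) (e : E) : ℕ :=
  (Finset.univ.filter fun e' => κ e' < κ e).card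

theorem rk_lt {α E : Type} [LinearOrder α] [Fintype E] (κ : E → α) {e e' : E}
    (h : rk κ e < rk κ e') : κ e < κ e' := by
  by_contra hcon
  push Not at hcon
  unfold rk at h
  refine absurd (Finset.card_le_card ?_) (not_le.2 h)
  intro a ha
  rw [Finset.mem_filter] at ha ⊢
  exact ⟨ha.1, lt_of_lt_of_le ha.2 hcon⟩

theorem lt_rk {α E : Type} [LinearOrder α] [Fintype E] (κ : E → α) {e e' : E}
    (h : κ e < κ e') : rk κ e < rk κ e' := by
  unfold rk
  refine Finset.card_lt_card ?_
  rw [Finset.ssubset_iff_of_subset]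
  · exact ⟨e, Finset.mem_filter.2 ⟨Finset.mem_univ _, h⟩, fun h2 =>
      lt_irrefl _ (Finset.mem_filter.1 h2).2⟩
  · intro a ha
    rw [Finset.mem_filter] at ha ⊢
    exact ⟨ha.1, ha.2.trans h⟩

theorem rk_inj {α E : Type} [LinearOrder α] [Fintype E] (κ : E → α) (hκ : Function.Injective κ) :
    Function.Injective (rk κ) := by
  intro e e' h
  apply hκ
  rcases lt_trichotomy (κ e) (κ e') with h1 | h1 | h1
  · exact absurd (lt_rk κ h1) (by omega)
  · exact h1
  · exact absurd (lt_rk κ h1) (by omega)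

variable {r : ℕ}

/-- the exponents which are bounded by `m` -/
noncomputable def bx (r m : ℕ) : Finset (Fin r → ℤ) := Fintype.piFinset fun _ => Finset.Icc (-(m : ℤ)) m

theorem mem_bx {m : ℕ} {e : Fin r → ℤ} : e ∈ bx r m ↔ ∀ i, -(m : ℤ) ≤ e i ∧ e i ≤ m := by
  unfold bx
  rw [Fintype.mem_piFinset]
  simp only [Finset.mem_Icc]

theorem card_bx (m : ℕ) : (bx r m).card = (2 * m + 1) ^ r := by
  unfold bx
  rw [Fintype.card_piFinset]
  simp only [Int.card_Icc, Finset.prod_const, Finset.card_univ, Fintype.card_fin]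
  congr 1
  omega

theorem exists_bx (S : Finset (Fin r → ℤ)) : ∃ m : ℕ, S ⊆ bx r m := by
  refine ⟨∑ e ∈ S, ∑ i, (e i).natAbs, fun e he => mem_bx.2 fun i => ?_⟩
  have h1 : (e i).natAbs ≤ ∑ i, (e i).natAbs :=
    Finset.single_le_sum (f := fun i => (e i).natAbs) (fun _ _ => Nat.zero_le _)
      (Finset.mem_univ i)
  have h2 : ∑ i, (e i).natAbs ≤ ∑ e ∈ S, ∑ i, (e i).natAbs :=
    Finset.single_le_sum (f := fun e : Fin r → ℤ => ∑ i, (e i).natAbs)
      (fun _ _ => Nat.zero_le _) he
  omega

/-- the order of the exponents by their values in a direction -/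
noncomputable def key (l : Fin r → ℝ) (e : Fin r → ℤ) : ℝ ×ₗ Lex (Fin r → ℤ) :=
  toLex (dot e l, toLex e)

theorem dot_add (a b : Fin r → ℤ) (l : Fin r → ℝ) : dot (a + b) l = dot a l + dot b l := by
  unfold dot
  rw [← Finset.sum_add_distrib]
  refine Finset.sum_congr rfl fun i _ => ?_
  rw [Pi.add_apply]
  push_cast
  ring

theorem key_add (l : Fin r → ℝ) (a b : Fin r → ℤ) : key l (a + b) = key l a + key l b := by
  unfold key
  rw [dot_add]
  rfl

theorem key_inj (l : Fin r → ℝ) : Function.Injective (key l) := by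
  intro a b h
  have h1 := congrArg (fun x => (ofLex x).2) h
  exact h1

theorem key_fst {l : Fin r → ℝ} {a b : Fin r → ℤ} (h : key l a ≤ key l b) : dot a l ≤ dot b l := by
  unfold key at h
  rcases Prod.Lex.le_iff.1 h with h1 | h1
  · exact h1.le
  · exact h1.1.le

end comb

variable {k R : Type} [Field k] [CommRing R] [IsDomain R] [Algebra k R] {r : ℕ}

/-- the largest value of the exponents in a direction -/
noncomputable def mxL (p : Lau k r) (l : Fin r → ℝ) : ℝ :=
  if h : p.coeff.support.Nonempty then p.coeff.support.sup' h (fun e => dot e l) else 0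

theorem supp_ne {p : Lau k r} (hp : p ≠ 0) : p.coeff.support.Nonempty := by
  rw [Finsupp.support_nonempty_iff]
  intro h
  apply hp
  have h1 : p = AddMonoidAlgebra.ofCoeff p.coeff := rfl
  rw [h1, h]
  rfl

theorem le_mxL {p : Lau k r} {e : Fin r → ℤ} (he : e ∈ p.coeff.support) (l : Fin r → ℝ) :
    dot e l ≤ mxL p l := by
  unfold mxL
  rw [dif_pos ⟨e, he⟩]
  exact Finset.le_sup' (fun e => dot e l) he

theorem mxL_le {p : Lau k r} (hp : p ≠ 0) {l : Fin r → ℝ} {c : ℝ}
    (h : ∀ e ∈ p.coeff.support, dot e l ≤ c) : mxL p l ≤ c := by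
  unfold mxL
  rw [dif_pos (supp_ne hp)]
  exact Finset.sup'_le _ _ h

/-- the Laurent polynomial with given coefficients -/
noncomputable def toLau (E : Finset (Fin r → ℤ)) : (E → k) →ₗ[k] Lau k r where
  toFun x := ∑ e : E, AddMonoidAlgebra.single e.1 (x e)
  map_add' x y := by
    simp only [Pi.add_apply, AddMonoidAlgebra.single_add, Finset.sum_add_distrib]
  map_smul' a x := by
    simp only [Pi.smul_apply, smul_eq_mul, RingHom.id_apply, Finset.smul_sum,
      AddMonoidAlgebra.smul_single]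

theorem toLau_apply (E : Finset (Fin r → ℤ)) (x : E → k) :
    toLau E x = ∑ e : E, AddMonoidAlgebra.single e.1 (x e) := rfl

theorem toLau_inj (E : Finset (Fin r → ℤ)) (x : E → k) (h : toLau E x = 0) : x = 0 := by
  classical
  funext e
  have h1 : (toLau E x).coeff e.1 = x e := by
    rw [toLau_apply, AddMonoidAlgebra.coeff_sum, Finsupp.finsetSum_apply,
      Finset.sum_eq_single e]
    · rw [AddMonoidAlgebra.coeff_single, Finsupp.single_eq_same]
    · intro e' _ hne
      rw [AddMonoidAlgebra.coeff_single, Finsupp.single_apply, if_neg]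
      exact fun h => hne (Subtype.ext h)
    · intro h
      exact absurd (Finset.mem_univ _) h
  rw [← h1, h]
  rfl

theorem evL_toLau (u : Fin r → Rˣ) (E : Finset (Fin r → ℤ)) (x : E → k) :
    evL k u (toLau E x) = ∑ e : E, algebraMap k R (x e) * (mz u e.1 : Rˣ) := by
  rw [toLau_apply, map_sum]
  exact Finset.sum_congr rfl fun e _ => evL_single _ _ _

theorem evL_shift (u : Fin r → Rˣ) (E : Finset (Fin r → ℤ)) (p : Lau k r) (t : Fin r → ℤ)
    (h : ∀ e ∈ p.coeff.support, e + t ∈ E) :
    evL k u (toLau E (fun b : E => p.coeff (b.1 - t))) = (mz u t : Rˣ) * evL k u p := by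
  classical
  rw [evL_toLau, evL_apply, Finset.mul_sum]
  symm
  refine Finset.sum_of_injOn (fun e : p.coeff.support => (⟨e.1 + t, h e.1 e.2⟩ : E)) ?_ ?_ ?_ ?_
  · intro a _ b _ hab
    have h1 := congrArg Subtype.val hab
    simp only at h1
    exact Subtype.ext (add_right_cancel h1)
  · intro a _
    exact Finset.mem_coe.2 (Finset.mem_univ _)
  · intro b _ hb
    have h1 : p.coeff (b.1 - t) = 0 := by
      by_contra hcon
      apply hb
      refine ⟨⟨b.1 - t, Finsupp.mem_support_iff.2 hcon⟩, Finset.mem_coe.2 (Finset.mem_univ _), ?_⟩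
      apply Subtype.ext
      simp
    rw [h1, map_zero, zero_mul]
  · intro e _
    simp only [add_sub_cancel_right]
    rw [mz_add, Units.val_mul]
    ring

variable (D : Dc k R)

theorem smt_gam [CharZero k] (u : Fin r → Rˣ) (hu : AlgebraicIndependent k (fun i => (u i : R)))
    (w : R) (hirr : ∀ p q : Lau k r, evL k u p * w = evL k u q → p = 0) {κ : Type} [Finite κ]
    (g c : κ → Lau k r) (hg : ∀ a, g a ≠ 0) (s : D.Ω → κ) (C0 C1 : ℝ) (hC0 : 0 ≤ C0)
    (hC1 : 0 ≤ C1) (hwb : ∀ᶠ ω in D.ev, D.lg w ω ≤ C0 + C1 * sz (lgv D u ω)) :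
    D.Neg (fun ω => mxL (g (s ω)) (lgv D u ω) -
      D.lg (evL k u (g (s ω)) * w - evL k u (c (s ω))) ω -
        2 ^ r * (C0 + C1 * sz (lgv D u ω))) := by
  classical
  have := Fintype.ofFinite κ
  obtain ⟨m, hm⟩ := exists_bx (Finset.univ.biUnion fun a => (g a).coeff.support)
  obtain ⟨m', hm'⟩ := exists_bx (Finset.univ.biUnion fun a => (c a).coeff.support)
  have hgm : ∀ a, ∀ e ∈ (g a).coeff.support, e ∈ bx r m := fun a e he =>
    hm (Finset.mem_biUnion.2 ⟨a, Finset.mem_univ _, he⟩)
  have hcm : ∀ a, ∀ e ∈ (c a).coeff.support, e ∈ bx r m' := fun a e he =>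
    hm' (Finset.mem_biUnion.2 ⟨a, Finset.mem_univ _, he⟩)
  let E : Finset (Fin r → ℤ) := bx r (2 * m)
  let E2 : Finset (Fin r → ℤ) := bx r (m' + m)
  let T : Finset (Fin r → ℤ) := bx r m
  let f : κ → (Fin r → ℤ) → E → (E → k) := fun a e0 e =>
    if e.1 - e0 ∈ T then (fun b => (g a).coeff (b.1 - (e.1 - e0))) else Pi.single e 1
  let f2 : κ → (Fin r → ℤ) → E → (E2 → k) := fun a e0 e =>
    if e.1 - e0 ∈ T then (fun b => (-(c a)).coeff (b.1 - (e.1 - e0))) else 0
  let κ' : Type := {x : κ × T // LinearIndependent k (f x.1 x.2.1)}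
  have hfin : Finite κ' := inferInstance
  -- the maximal exponents
  have hsel : ∀ ω : D.Ω, ∃ e0 : T, e0.1 ∈ (g (s ω)).coeff.support ∧
      (∀ e ∈ (g (s ω)).coeff.support, key (lgv D u ω) e ≤ key (lgv D u ω) e0.1) ∧
      LinearIndependent k (f (s ω) e0.1) := by
    intro ω
    obtain ⟨e0, he0, hmax⟩ := Finset.exists_max_image (g (s ω)).coeff.support
      (fun e => key (lgv D u ω) e) (supp_ne (hg _))
    refine ⟨⟨e0, hgm _ _ he0⟩, he0, hmax, ?_⟩
    refine tri_li (rk fun e : E => key (lgv D u ω) e.1)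
      (rk_inj _ fun a b h => Subtype.ext (key_inj _ h)) (f (s ω) e0) ?_ ?_
    · intro e
      simp only [f]
      split_ifs with h
      · show (g (s ω)).coeff (e.1 - (e.1 - e0)) ≠ 0
        rw [sub_sub_cancel]
        exact Finsupp.mem_support_iff.1 he0
      · rw [Pi.single_eq_same]
        exact one_ne_zero
    · intro e b h
      have h1 : key (lgv D u ω) e.1 < key (lgv D u ω) b.1 :=
        rk_lt (fun e : E => key (lgv D u ω) e.1) h
      simp only [f]
      split_ifs with h2
      · by_contra hcon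
        have h3 := hmax _ (Finsupp.mem_support_iff.2 hcon)
        have h4 : key (lgv D u ω) b.1 = key (lgv D u ω) (b.1 - (e.1 - e0)) +
            key (lgv D u ω) (e.1 - e0) := by
          rw [← key_add, sub_add_cancel]
        have h5 : key (lgv D u ω) e.1 = key (lgv D u ω) e0 + key (lgv D u ω) (e.1 - e0) := by
          rw [← key_add, add_sub_cancel]
        rw [h4, h5] at h1
        exact absurd (lt_of_add_lt_add_right h1) (not_lt.2 h3)
      · rw [Pi.single_apply, if_neg]
        intro h3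
        rw [h3] at h1
        exact lt_irrefl _ h1
  choose e0 he0 hmax hli using hsel
  let s' : D.Ω → κ' := fun ω => ⟨(s ω, e0 ω), hli ω⟩
  let Ψ : (E → k) × (E2 → k) →ₗ[k] R :=
    ((LinearMap.mulRight k w) ∘ₗ (evL k u).toLinearMap ∘ₗ toLau E).coprod
      ((evL k u).toLinearMap ∘ₗ toLau E2)
  have hΨa : ∀ x, Ψ x = evL k u (toLau E x.1) * w + evL k u (toLau E2 x.2) := fun _ => rfl
  have hΨ : Function.Injective Ψ := by
    rw [injective_iff_map_eq_zero]
    rintro ⟨x, y⟩ hx
    rw [hΨa] at hx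
    simp only at hx
    have h1 : toLau E x = 0 := by
      apply hirr _ (-toLau E2 y)
      rw [map_neg, eq_neg_iff_add_eq_zero]
      exact hx
    rw [h1, map_zero, zero_mul, zero_add] at hx
    have h2 := toLau_inj E2 y (evL_inj u hu (by rw [hx, map_zero]))
    rw [toLau_inj E x h1, h2]
    rfl
  let v : κ' → E ⊕ E2 → (E → k) × (E2 → k) := fun x =>
    Sum.elim (fun e => (f x.1.1 x.1.2.1 e, f2 x.1.1 x.1.2.1 e)) (fun b => (0, Pi.single b 1))
  have hv : ∀ x, LinearIndependent k (v x) := by
    intro x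
    refine li_block (f x.1.1 x.1.2.1) x.2 (f2 x.1.1 x.1.2.1) (fun b => Pi.single b 1) ?_
    rw [Fintype.linearIndependent_iff]
    intro y hy b
    have h1 := congrFun hy b
    rw [Finset.sum_apply, Finset.sum_eq_single b] at h1
    · simpa using h1
    · intro b' _ hne
      rw [Pi.smul_apply, Pi.single_eq_of_ne hne.symm, smul_zero]
    · intro h
      exact absurd (Finset.mem_univ _) h
  have hI : Fintype.card (E ⊕ E2) = finrank k ((E → k) × (E2 → k)) := by
    rw [Fintype.card_sum, Module.finrank_prod, Module.finrank_fintype_fun_eq_card,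
      Module.finrank_fintype_fun_eq_card]
  have h1 := smt_basis D hI Ψ hΨ v hv s'
  have h2 : D.Neg (fun ω => (∑ e : E, D.lg (mz u e.1 : Rˣ) ω) +
      ∑ e : E2, D.lg (mz u e.1 : Rˣ) ω) :=
    D.neg_add _ _ (D.neg_sum _ _ fun e _ => D.unit_neg' _) (D.neg_sum _ _ fun e _ => D.unit_neg' _)
  have h3 := D.neg_add _ _ h1 h2
  have hTc : (0 : ℝ) < T.card := by
    rw [card_bx]
    positivity
  refine D.neg_mono _ _ ?_ (D.neg_smul _ ((T.card : ℝ)⁻¹) (inv_nonneg.2 hTc.le) h3)
  -- the values of the elements of the bases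
  have hgw : ∀ a, evL k u (g a) * w - evL k u (c a) ≠ 0 := fun a h =>
    hg a (hirr _ _ (sub_eq_zero.1 h))
  have hw0 : w ≠ 0 := by
    intro h
    have h1 := hirr 1 0 (by rw [h, mul_zero, map_zero])
    exact one_ne_zero h1
  have val1 : ∀ (a : κ) (b : Fin r → ℤ) (e : E), b ∈ T → e.1 - b ∈ T →
      Ψ (f a b e, f2 a b e) = (mz u (e.1 - b) : Rˣ) * (evL k u (g a) * w - evL k u (c a)) := by
    intro a b e hb he
    rw [hΨa]
    simp only [f, f2, if_pos he]
    rw [evL_shift u E (g a) (e.1 - b), evL_shift u E2 (-(c a)) (e.1 - b), map_neg]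
    · ring
    · intro e' he'
      have h4 : e' ∈ (c a).coeff.support := by
        rw [Finsupp.mem_support_iff] at he' ⊢
        intro h5
        apply he'
        have h6 : (-(c a)).coeff e' = -(c a).coeff e' := rfl
        rw [h6, h5, neg_zero]
      have h5 := mem_bx.1 (hcm a e' h4)
      have h6 := mem_bx.1 he
      refine mem_bx.2 fun i => ?_
      have h7 := h5 i
      have h8 := h6 i
      rw [Pi.add_apply]
      push_cast
      omega
    · intro e' he'
      have h5 := mem_bx.1 (hgm a e' he')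
      have h6 := mem_bx.1 he
      refine mem_bx.2 fun i => ?_
      have h7 := h5 i
      have h8 := h6 i
      rw [Pi.add_apply]
      push_cast
      omega
  have val2 : ∀ (a : κ) (b : Fin r → ℤ) (e : E), e.1 - b ∉ T →
      Ψ (f a b e, f2 a b e) = (mz u e.1 : Rˣ) * w := by
    intro a b e he
    rw [hΨa]
    simp only [f, f2, if_neg he]
    rw [map_zero, map_zero, add_zero]
    congr 1
    rw [evL_toLau, Finset.sum_eq_single e]
    · rw [Pi.single_eq_same, map_one, one_mul]
    · intro b _ hb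
      rw [Pi.single_eq_of_ne hb, map_zero, zero_mul]
    · intro h
      exact absurd (Finset.mem_univ _) h
  have val3 : ∀ b : E2, Ψ (0, Pi.single b 1) = (mz u b.1 : Rˣ) := by
    intro e
    rw [hΨa]
    simp only
    rw [map_zero, map_zero, zero_mul, zero_add, evL_toLau, Finset.sum_eq_single e]
    · rw [Pi.single_eq_same, map_one, one_mul]
    · intro b _ hb
      rw [Pi.single_eq_of_ne hb, map_zero, zero_mul]
    · intro h
      exact absurd (Finset.mem_univ _) h
  -- the eventual equalities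
  have e1 : ∀ᶠ ω in D.ev, ∀ (a : κ) (b : T) (e : E),
      D.lg ((mz u (e.1 - b.1) : Rˣ) * (evL k u (g a) * w - evL k u (c a))) ω =
        D.lg ((mz u (e.1 - b.1) : Rˣ) : R) ω + D.lg (evL k u (g a) * w - evL k u (c a)) ω :=
    (Filter.eventually_all).2 fun a => (Filter.eventually_all).2 fun b =>
      (Filter.eventually_all).2 fun e => D.lg_mul _ _ (Units.ne_zero _) (hgw a)
  have e2 : ∀ᶠ ω in D.ev, ∀ e : E, D.lg ((mz u e.1 : Rˣ) * w) ω =
      D.lg ((mz u e.1 : Rˣ) : R) ω + D.lg w ω :=
    (Filter.eventually_all).2 fun e => D.lg_mul _ _ (Units.ne_zero _) hw0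
  have e3 : ∀ᶠ ω in D.ev, ∀ (b : T) (e : E), D.lg ((mz u (e.1 - b.1) : Rˣ) : R) ω =
      dot (e.1 - b.1) (lgv D u ω) :=
    (Filter.eventually_all).2 fun b => (Filter.eventually_all).2 fun e => lg_mz D u _
  have e4 : ∀ᶠ ω in D.ev, ∀ e : E, D.lg ((mz u e.1 : Rˣ) : R) ω = dot e.1 (lgv D u ω) :=
    (Filter.eventually_all).2 fun e => lg_mz D u _
  filter_upwards [e1, e2, e3, e4, hwb] with ω g1 g2 g3 g4 g5
  set l := lgv D u ω with hl
  set a := s ω with ha
  set Xv := D.lg (evL k u (g a) * w - evL k u (c a)) ω with hXv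
  have hmxe : mxL (g a) l = dot (e0 ω).1 l := by
    apply le_antisymm
    · exact mxL_le (hg a) fun e he => key_fst (hmax ω e he)
    · exact le_mxL (he0 ω) l
  -- the sum over the basis
  have hsum : ∑ i, D.lg (Ψ (v (s' ω) i)) ω =
      (∑ e : E, dot e.1 l) - T.card * (dot (e0 ω).1 l - Xv) + (E.card - T.card : ℝ) * D.lg w ω +
        ∑ b : E2, D.lg (mz u b.1 : Rˣ) ω := by
    rw [Fintype.sum_sum_type]
    simp only [v, Sum.elim_inl, Sum.elim_inr, val3]
    congr 1
    have h5 : ∀ e : E, D.lg (Ψ (f a (e0 ω).1 e, f2 a (e0 ω).1 e)) ω =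
        dot e.1 l + if e.1 - (e0 ω).1 ∈ T then Xv - dot (e0 ω).1 l else D.lg w ω := by
      intro e
      split_ifs with h
      · rw [val1 a (e0 ω).1 e (e0 ω).2 h, g1, g3, ← hXv]
        have h6 : dot e.1 l = dot (e.1 - (e0 ω).1) l + dot (e0 ω).1 l := by
          rw [← dot_add, sub_add_cancel]
        rw [h6]
        ring
      · rw [val2 a (e0 ω).1 e h, g2, g4]
    have h6 : ∑ e : E, D.lg (Ψ (f (s' ω).1.1 (s' ω).1.2.1 e, f2 (s' ω).1.1 (s' ω).1.2.1 e)) ω =
        ∑ e : E, D.lg (Ψ (f a (e0 ω).1 e, f2 a (e0 ω).1 e)) ω := rfl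
    rw [h6, Finset.sum_congr rfl fun e _ => h5 e, Finset.sum_add_distrib]
    rw [Finset.sum_ite, Finset.sum_const, Finset.sum_const, nsmul_eq_mul, nsmul_eq_mul]
    have h7 : (Finset.univ.filter fun e : E => e.1 - (e0 ω).1 ∈ T).card = T.card := by
      symm
      refine Finset.card_bij (fun t ht => (⟨t + (e0 ω).1, ?_⟩ : E)) ?_ ?_ ?_
      · have h8 := mem_bx.1 ht
        have h9 := mem_bx.1 (e0 ω).2
        refine mem_bx.2 fun i => ?_
        have h10 := h8 i
        have h11 := h9 i
        rw [Pi.add_apply]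
        push_cast
        omega
      · intro t ht
        rw [Finset.mem_filter]
        refine ⟨Finset.mem_univ _, ?_⟩
        simp only [add_sub_cancel_right]
        exact ht
      · intro t _ t' _ h
        exact add_right_cancel (congrArg Subtype.val h)
      · intro b hb
        refine ⟨b.1 - (e0 ω).1, (Finset.mem_filter.1 hb).2, ?_⟩
        apply Subtype.ext
        simp
    have h8 : (Finset.univ.filter fun e : E => ¬ (e.1 - (e0 ω).1 ∈ T)).card = E.card - T.card := by
      have h9 := Finset.card_filter_add_card_filter_not (s := (Finset.univ : Finset E))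
        (fun e : E => e.1 - (e0 ω).1 ∈ T)
      rw [h7, Finset.card_univ, Fintype.card_coe] at h9
      omega
    have h9 : T.card ≤ E.card := by
      rw [← h7]
      refine (Finset.card_filter_le _ _).trans ?_
      rw [Finset.card_univ, Fintype.card_coe]
    rw [h7, h8, Nat.cast_sub h9]
    ring
  have hsE : ∑ e : E, D.lg ((mz u e.1 : Rˣ) : R) ω = ∑ e : E, dot e.1 l :=
    Finset.sum_congr rfl fun e _ => g4 e
  rw [hsum, hsE, hmxe]
  have hTE : T.card ≤ E.card := by
    rw [card_bx, card_bx]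
    exact Nat.pow_le_pow_left (by omega) _
  have hEc : (E.card : ℝ) ≤ 2 ^ r * T.card := by
    have h5 : E.card ≤ 2 ^ r * T.card := by
      rw [card_bx, card_bx, ← mul_pow]
      exact Nat.pow_le_pow_left (by omega) _
    exact_mod_cast h5
  have hb0 : 0 ≤ C0 + C1 * sz l := add_nonneg hC0 (mul_nonneg hC1 (sz_nonneg l))
  have h5 : (E.card - T.card : ℝ) * D.lg w ω ≤ 2 ^ r * T.card * (C0 + C1 * sz l) := by
    have h6 : (0 : ℝ) ≤ E.card - T.card := by
      have : (T.card : ℝ) ≤ E.card := by exact_mod_cast hTE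
      linarith
    refine (mul_le_mul_of_nonneg_left g5 h6).trans (mul_le_mul_of_nonneg_right ?_ hb0)
    linarith
  rw [← div_eq_inv_mul, le_div_iff₀ hTc]
  linarith

end Pool.Agent.H434.GM
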