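import Mathlib
import Pool.Agent.H434.N4

/-!
The covering criterion with rational approximations.
-/

set_option autoImplicit false
set_option linter.unusedSectionVars false

open Finset Filter Module Polynomial

namespace Pool.Agent.H434.GM

open Pool.Agent.N754.LT

variable {k : Type} [Field k] {r : ℕ}

/-- in the direction `l` the roots of `Q` are close to the quotients `b i / g` -/
def CloseG (Q : (Lau k r)[X]) (g : Lau k r) (b : Fin Q.natDegree → Lau k r) (A : ℝ)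
    (l : Fin r → ℝ) : Prop :=
  ∀ j, ∀ e ∈ ((Q.scaleRoots g - ∏ i, (X - C (b i))).coeff j).coeff.support,
    ∃ s ∈ g.coeff.support, dot e l ≤ ((Q.natDegree : ℝ) - j) * dot s l - A

theorem coeff_scale_sub {Q : (Lau k r)[X]} (hQ : Q.Monic) (g : Lau k r)
    (b : Fin Q.natDegree → Lau k r) (j : ℕ) (hj : Q.natDegree ≤ j) :
    (Q.scaleRoots g - ∏ i, (X - C (b i))).coeff j = 0 := by
  rw [coeff_sub]
  rcases eq_or_lt_of_le hj with h | h
  · have h1 : (Q.scaleRoots g).coeff j = 1 := by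
      rw [coeff_scaleRoots, ← h, Nat.sub_self, pow_zero, mul_one]
      exact hQ
    have h2 : (∏ i, (X - C (b i)) : (Lau k r)[X]).coeff j = 1 := by
      have h3 := prod_monic b
      unfold Monic leadingCoeff at h3
      rw [prod_natDegree] at h3
      rw [← h]
      exact h3
    rw [h1, h2, sub_self]
  · rw [coeff_eq_zero_of_natDegree_lt (by
      rw [natDegree_scaleRoots]
      exact h), coeff_eq_zero_of_natDegree_lt (by
      rw [prod_natDegree]
      exact h), sub_self]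

theorem evQ_scale {B : Type} [CommRing B] [Algebra k B] (u : Fin r → Bˣ) (w : B)
    (Q : (Lau k r)[X]) (g : Lau k r) (h : evQ k u w Q = 0) :
    evQ k u (evL k u g * w) (Q.scaleRoots g) = 0 :=
  scaleRoots_eval₂_eq_zero (evL k u : Lau k r →+* B) h

section dc

variable {R : Type} [CommRing R] [IsDomain R] [Algebra k R] (D : Dc k R)

theorem lg_evL_le (u : Fin r → Rˣ) (p : Lau k r) (hp2 : evL k u p ≠ 0) :
    ∃ C : ℝ, 0 ≤ C ∧ ∀ᶠ ω in D.ev, D.lg (evL k u p) ω ≤ C + mxL p (lgv D u ω) := by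
  classical
  obtain ⟨C, hC⟩ := D.lg_sum_le (fun s : p.coeff.support => p.coeff s.1)
    (fun s : p.coeff.support => ((mz u s.1 : Rˣ) : R)) (fun s => Units.ne_zero _)
    (by rw [← evL_apply]; exact hp2)
  refine ⟨|C|, abs_nonneg _, ?_⟩
  have h2 : ∀ᶠ ω in D.ev, ∀ s : p.coeff.support, D.lg ((mz u s.1 : Rˣ) : R) ω =
      dot s.1 (lgv D u ω) := (Filter.eventually_all).2 fun s => lg_mz D u _
  filter_upwards [hC, h2] with ω g1 g2
  rw [evL_apply]
  refine (g1 (mxL p (lgv D u ω)) fun s _ => ?_).trans (by linarith [le_abs_self C])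
  rw [g2 s]
  exact le_mxL s.2 _

/-- a root is close to one of the approximations -/
theorem approx_gam (u : Fin r → Rˣ) (hu : AlgebraicIndependent k (fun i => (u i : R))) (w : R)
    (Q : (Lau k r)[X]) (hQ : Q.Monic)
    (hw : evQ k u w Q = 0) (hirr : ∀ p q : Lau k r, evL k u p * w = evL k u q → p = 0)
    (g : Lau k r) (hg : g ≠ 0) (b : Fin Q.natDegree → Lau k r) :
    ∃ C : ℝ, 0 ≤ C ∧ ∀ᶠ ω in D.ev, ∀ A t : ℝ, 0 ≤ t → D.lg w ω ≤ t →
      CloseG Q g b A (lgv D u ω) →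
      ∃ i, D.lg (evL k u g * w - evL k u (b i)) ω - mxL g (lgv D u ω) ≤
        C + t - A / Q.natDegree := by
  classical
  have hg0 : evL k u g ≠ 0 := fun h => hg (evL_inj u hu (by rw [h, map_zero]))
  have hw0 : w ≠ 0 := by
    intro h
    have h1 := hirr 1 0 (by rw [h, mul_zero, map_zero])
    exact one_ne_zero h1
  have hw'0 : evL k u g * w ≠ 0 := mul_ne_zero hg0 hw0
  have hne' : ∀ i, evL k u g * w - evL k u (b i) ≠ 0 := fun i h =>
    hg (hirr _ _ (sub_eq_zero.1 h))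
  have hd : 1 ≤ Q.natDegree := by
    by_contra hcon
    have h0 : Q.natDegree = 0 := by omega
    have h1 : Q = 1 := by
      rw [← hQ.natDegree_eq_zero]
      exact h0
    rw [h1] at hw
    unfold evQ at hw
    rw [eval₂_one] at hw
    exact one_ne_zero hw
  have hval : evQ k u (evL k u g * w) ((∏ i, (X - C (b i))) - Q.scaleRoots g) =
      ∏ i, (evL k u g * w - evL k u (b i)) := by
    rw [evQ_sub, evQ_scale u w Q g hw, sub_zero, evQ_prod]
  obtain ⟨C, hC⟩ := lg_evQ D u (evL k u g * w) hw'0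
    ((∏ i, (X - Polynomial.C (b i))) - Q.scaleRoots g) (by
    rw [hval]
    exact Finset.prod_ne_zero_iff.2 fun i _ => hne' i)
  obtain ⟨Cg, hCg0, hCg⟩ := lg_evL_le D u g hg0
  refine ⟨|C| + Cg, add_nonneg (abs_nonneg _) hCg0, ?_⟩
  filter_upwards [hC, hCg, D.lg_mul _ _ hg0 hw0, D.lg_prod Finset.univ
    (fun i => evL k u g * w - evL k u (b i)) (fun i _ => hne' i)]
    with ω g1 gg gm g2 A t ht hwt hcl
  set mg := mxL g (lgv D u ω) with hmg
  have h1 := g1 (Q.natDegree * mg + Q.natDegree * (Cg + t) - A) (by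
    intro j e he
    have h2 : ((∏ i, (X - Polynomial.C (b i))) - Q.scaleRoots g).coeff j =
        -(Q.scaleRoots g - ∏ i, (X - Polynomial.C (b i))).coeff j := by
      rw [coeff_sub, coeff_sub, neg_sub]
    have h3 : e ∈ ((Q.scaleRoots g - ∏ i, (X - Polynomial.C (b i))).coeff j).coeff.support := by
      rw [h2] at he
      rw [Finsupp.mem_support_iff] at he ⊢
      intro h4
      apply he
      have h5 : (-(Q.scaleRoots g - ∏ i, (X - Polynomial.C (b i))).coeff j).coeff e =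
        -((Q.scaleRoots g - ∏ i, (X - Polynomial.C (b i))).coeff j).coeff e := rfl
      rw [h5, h4, neg_zero]
    have hj : j < Q.natDegree := by
      by_contra hcon
      push Not at hcon
      rw [coeff_scale_sub hQ g b j hcon] at h3
      simp at h3
    obtain ⟨s, hs, h4⟩ := hcl j e h3
    have hjR : (j : ℝ) ≤ Q.natDegree := by exact_mod_cast hj.le
    have h5 : ((Q.natDegree : ℝ) - j) * dot s (lgv D u ω) ≤ ((Q.natDegree : ℝ) - j) * mg :=
      mul_le_mul_of_nonneg_left (le_mxL hs _) (by linarith)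
    have h6 : (j : ℝ) * D.lg (evL k u g * w) ω ≤ j * (mg + (Cg + t)) := by
      refine mul_le_mul_of_nonneg_left ?_ (Nat.cast_nonneg _)
      rw [gm]
      linarith
    have h7 : (j : ℝ) * (Cg + t) ≤ Q.natDegree * (Cg + t) :=
      mul_le_mul_of_nonneg_right hjR (by linarith)
    linarith)
  rw [hval, g2] at h1
  have hdR : (0 : ℝ) < Q.natDegree := by exact_mod_cast hd
  by_contra hcon
  push Not at hcon
  have h2 : ∑ i : Fin Q.natDegree, (|C| + Cg + t - A / Q.natDegree) <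
      ∑ i : Fin Q.natDegree, (D.lg (evL k u g * w - evL k u (b i)) ω - mg) :=
    Finset.sum_lt_sum_of_nonempty ⟨⟨0, hd⟩, Finset.mem_univ _⟩ fun i _ => hcon i
  have hL : ∑ i : Fin Q.natDegree, (|C| + Cg + t - A / Q.natDegree) =
      Q.natDegree * (|C| + Cg + t - A / Q.natDegree) := by
    rw [Finset.sum_const, Finset.card_univ, Fintype.card_fin, nsmul_eq_mul]
  have hR : ∑ i : Fin Q.natDegree, (D.lg (evL k u g * w - evL k u (b i)) ω - mg) =
      (∑ i : Fin Q.natDegree, D.lg (evL k u g * w - evL k u (b i)) ω) - Q.natDegree * mg := by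
    rw [Finset.sum_sub_distrib, Finset.sum_const, Finset.card_univ, Fintype.card_fin,
      nsmul_eq_mul]
  rw [hL, hR] at h2
  have h3 : (Q.natDegree : ℝ) * (|C| + Cg + t - A / Q.natDegree) = Q.natDegree * |C| +
      Q.natDegree * (Cg + t) - A := by
    field_simp
    ring
  rw [h3] at h2
  have h4 : |C| ≤ Q.natDegree * |C| :=
    le_mul_of_one_le_left (abs_nonneg _) (by exact_mod_cast hd)
  have h5 := le_abs_self C
  linarith

/-- the covering condition with constants -/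
def CovG {J : Type} (C D : ℝ) (Q : J → (Lau k r)[X]) : Prop :=
  ∃ (μ : Fin r → ℝ) (T : Finset (Σ j : J, Lau k r × (Fin (Q j).natDegree → Lau k r))),
    (∀ s ∈ T, s.2.1 ≠ 0) ∧
    ∀ l : Fin r → ℝ, ∑ i, μ i * l i ≤ -((C + 1) * sz l) ∨
      ∃ s ∈ T, CloseG (Q s.1) s.2.1 s.2.2 (D * (C + 1 + ∑ i, |μ i|) * sz l) l

theorem mxL_one (l : Fin r → ℝ) : mxL (1 : Lau k r) l = 0 := by
  have h1 : ∀ e ∈ (1 : Lau k r).coeff.support, dot e l = 0 := by
    intro e he
    have h2 : (1 : Lau k r) = AddMonoidAlgebra.single 0 1 := rfl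
    rw [h2, AddMonoidAlgebra.coeff_single] at he
    have h3 := Finsupp.support_single_subset he
    rw [Finset.mem_singleton] at h3
    rw [h3]
    unfold dot
    simp
  apply le_antisymm
  · exact mxL_le one_ne_zero fun e he => (h1 e he).le
  · obtain ⟨e, he⟩ := supp_ne (k := k) (r := r) one_ne_zero
    rw [← h1 e he]
    exact le_mxL he l

theorem covG_neg [CharZero k] (u : Fin r → Rˣ)
    (hu : AlgebraicIndependent k (fun i => (u i : R)))
    {J : Type} [Fintype J] (Q : J → (Lau k r)[X]) (hQ : ∀ j, (Q j).Monic) (w : J → R)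
    (hw : ∀ j, evQ k u (w j) (Q j) = 0)
    (hirr : ∀ j, ∀ p q : Lau k r, evL k u p * w j = evL k u q → p = 0)
    (C1 C2 D2 : ℝ) (hC1 : 0 ≤ C1)
    (hE : ∀ j a, ∀ e ∈ ((Q j).coeff a).coeff.support, ∀ i, |(e i : ℝ)| ≤ C1)
    (hC2 : (1 + 2 ^ r) * Fintype.card J * C1 ≤ C2) (hD2 : ∀ j, ((Q j).natDegree : ℝ) ≤ D2)
    (hcov : CovG C2 D2 Q) : D.Neg (fun ω => ∑ i, |D.lg (u i : R) ω|) := by
  classical
  obtain ⟨μ, T, hTg, hT⟩ := hcov
  let K : Finset (Lau k r × Lau k r) :=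
    insert (1, 0) (T.biUnion fun s => Finset.univ.image fun i => (s.2.1, s.2.2 i))
  have hK0 : ((1 : Lau k r), (0 : Lau k r)) ∈ K := Finset.mem_insert_self _ _
  have hKT : ∀ s ∈ T, ∀ i, (s.2.1, s.2.2 i) ∈ K := fun s hs i => Finset.mem_insert_of_mem
    (Finset.mem_biUnion.2 ⟨s, hs, Finset.mem_image_of_mem _ (Finset.mem_univ i)⟩)
  have hKg : ∀ p ∈ K, p.1 ≠ 0 := by
    intro p hp
    rcases Finset.mem_insert.1 hp with rfl | hp
    · exact one_ne_zero
    · obtain ⟨s, hs, hp⟩ := Finset.mem_biUnion.1 hp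
      obtain ⟨i, -, rfl⟩ := Finset.mem_image.1 hp
      exact hTg s hs
  have hmin : ∀ (j : J) (ω : D.Ω), ∃ p : K, ∀ p' ∈ K,
      D.lg (evL k u p.1.1 * w j - evL k u p.1.2) ω - mxL p.1.1 (lgv D u ω) ≤
        D.lg (evL k u p'.1 * w j - evL k u p'.2) ω - mxL p'.1 (lgv D u ω) := by
    intro j ω
    obtain ⟨p, hp, h⟩ := Finset.exists_min_image K
      (fun p => D.lg (evL k u p.1 * w j - evL k u p.2) ω - mxL p.1 (lgv D u ω)) ⟨_, hK0⟩
    exact ⟨⟨p, hp⟩, h⟩
  choose c hc using hmin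
  choose C0 hC0 hroot using fun j => root_le D u (w j) (Q j) (hQ j) (hw j) C1 hC1 (hE j)
  have h1 : ∀ j, D.Neg (fun ω => mxL (c j ω).1.1 (lgv D u ω) -
      D.lg (evL k u (c j ω).1.1 * w j - evL k u (c j ω).1.2) ω -
        2 ^ r * (C0 j + C1 * sz (lgv D u ω))) := fun j =>
    smt_gam D u hu (w j) (hirr j) (fun p : K => p.1.1) (fun p : K => p.1.2)
      (fun p => hKg _ p.2) (c j) (C0 j) C1 (hC0 j) hC1 (hroot j)
  have h2 := D.neg_sum Finset.univ (fun j ω => mxL (c j ω).1.1 (lgv D u ω) -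
      D.lg (evL k u (c j ω).1.1 * w j - evL k u (c j ω).1.2) ω -
        2 ^ r * (C0 j + C1 * sz (lgv D u ω))) fun j _ => h1 j
  have h3 := unit_scale D u (fun i => -μ i)
  choose C3 hC3 happ using fun s : T =>
    approx_gam D u hu (w s.1.1) (Q s.1.1) (hQ _) (hw _) (hirr _) s.1.2.1 (hTg _ s.2) s.1.2.2
  let E : ℝ := (1 + 2 ^ r) * ∑ j, C0 j + ∑ s, C3 s
  refine D.neg_mono _ _ ?_ (D.neg_add _ _ (D.neg_const E) (D.neg_add _ _ h2 h3))
  have e1 : ∀ᶠ ω in D.ev, ∀ j, D.lg (w j) ω ≤ C0 j + C1 * sz (lgv D u ω) :=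
    (Filter.eventually_all).2 hroot
  have e2 := (Filter.eventually_all).2 happ
  filter_upwards [e1, e2] with ω g1 g2
  set l := lgv D u ω with hl
  have hszl : ∑ i, |D.lg (u i : R) ω| = sz l := rfl
  have hs0 := sz_nonneg l
  have hμ : ∑ i, -μ i * D.lg (u i : R) ω = -∑ i, μ i * l i := by
    rw [← Finset.sum_neg_distrib]
    refine Finset.sum_congr rfl fun i _ => ?_
    show _ = -(μ i * D.lg (u i : R) ω)
    ring
  let Y : J → ℝ := fun j => mxL (c j ω).1.1 l -
      D.lg (evL k u (c j ω).1.1 * w j - evL k u (c j ω).1.2) ω - 2 ^ r * (C0 j + C1 * sz l)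
  have hb0 : ∀ j, -((1 + 2 ^ r) * (C0 j + C1 * sz l)) ≤ Y j := by
    intro j
    have h4 := hc j ω _ hK0
    simp only at h4
    rw [map_zero, sub_zero, map_one, one_mul, mxL_one, sub_zero] at h4
    have h5 := g1 j
    simp only [Y]
    linarith
  have hsumC0 : ∑ j, -((1 + 2 ^ r) * (C0 j + C1 * sz l)) =
      -((1 + 2 ^ r) * ∑ j, C0 j) - (1 + 2 ^ r) * Fintype.card J * C1 * sz l := by
    rw [Finset.sum_neg_distrib, ← Finset.mul_sum, Finset.sum_add_distrib, Finset.sum_const,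
      Finset.card_univ, nsmul_eq_mul]
    ring
  have hT3 : 0 ≤ ∑ s, C3 s := Finset.sum_nonneg fun s _ => hC3 s
  have hcs : (1 + 2 ^ r) * Fintype.card J * C1 * sz l ≤ C2 * sz l :=
    mul_le_mul_of_nonneg_right hC2 hs0
  rw [hszl, hμ]
  show sz l ≤ E + (∑ j, Y j + -∑ i, μ i * l i)
  rcases hT l with h | ⟨s, hs, h⟩
  · have h5 : ∑ j, -((1 + 2 ^ r) * (C0 j + C1 * sz l)) ≤ ∑ j, Y j :=
      Finset.sum_le_sum fun j _ => hb0 j
    rw [hsumC0] at h5
    simp only [E]
    linarith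
  · have ht0 : 0 ≤ C0 s.1 + C1 * sz l := add_nonneg (hC0 _) (mul_nonneg hC1 hs0)
    obtain ⟨i, hi⟩ := g2 ⟨s, hs⟩ _ _ ht0 (g1 s.1) h
    have h4 := hc s.1 ω _ (hKT s hs i)
    have hd0 : (1 : ℝ) ≤ (Q s.1).natDegree := by exact_mod_cast i.pos
    have hAd : (C2 + 1 + ∑ i, |μ i|) * sz l ≤
        D2 * (C2 + 1 + ∑ i, |μ i|) * sz l / (Q s.1).natDegree := by
      rw [le_div_iff₀ (by linarith)]
      have h6 : 0 ≤ (C2 + 1 + ∑ i, |μ i|) * sz l := by
        have h7 : 0 ≤ C2 := le_trans (by positivity) hC2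
        have h8 : 0 ≤ ∑ i, |μ i| := Finset.sum_nonneg fun _ _ => abs_nonneg _
        positivity
      have h7 := mul_le_mul_of_nonneg_left (hD2 s.1) h6
      linarith
    have hμl : ∑ i, μ i * l i ≤ (∑ i, |μ i|) * sz l := by
      rw [Finset.sum_mul]
      refine Finset.sum_le_sum fun i _ => ?_
      refine (le_abs_self _).trans ?_
      rw [abs_mul]
      refine mul_le_mul_of_nonneg_left ?_ (abs_nonneg _)
      exact Finset.single_le_sum (f := fun i => |l i|) (fun _ _ => abs_nonneg _)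
        (Finset.mem_univ i)
    have h5 : ∑ j ∈ Finset.univ.erase s.1, -((1 + 2 ^ r) * (C0 j + C1 * sz l)) ≤
        ∑ j ∈ Finset.univ.erase s.1, Y j := Finset.sum_le_sum fun j _ => hb0 j
    have h6 := Finset.add_sum_erase Finset.univ (fun j => -((1 + 2 ^ r) * (C0 j + C1 * sz l)))
      (Finset.mem_univ s.1)
    have h7 := Finset.add_sum_erase Finset.univ Y (Finset.mem_univ s.1)
    have h8 : C3 ⟨s, hs⟩ ≤ ∑ s, C3 s :=
      Finset.single_le_sum (f := C3) (fun s _ => hC3 s) (Finset.mem_univ _)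
    have h9 : Y s.1 = mxL (c s.1 ω).1.1 l -
      D.lg (evL k u (c s.1 ω).1.1 * w s.1 - evL k u (c s.1 ω).1.2) ω -
        2 ^ r * (C0 s.1 + C1 * sz l) := rfl
    rw [hsumC0] at h6
    simp only [E]
    linarith

end dc

end Pool.Agent.H434.GM
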