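import Mathlib
import Pool.Agent.H434.N5
import Pool.Agent.H434.Eng

/-!
Roots of polynomials over the Laurent polynomials: the alternatives on translates of subtori.
-/

set_option autoImplicit false
set_option linter.unusedSectionVars false

open Finset Filter Module Polynomial

namespace Pool.Agent.H434.GM

open Pool.Agent.N754.LT

variable {k B : Type} [Field k] [CharZero k] [CommRing B] [IsDomain B] [Algebra k B] {r : ℕ}

theorem hom_evL {R : Type} [CommRing R] [Algebra k R] (ψ : R →ₐ[k] B) (u : Fin r → Rˣ)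
    (w : Fin r → Bˣ) (h : ∀ i, ψ (u i : R) = w i) (p : Lau k r) :
    ψ (evL k u p) = evL k w p := by
  have h1 : ∀ i, Units.map (ψ : R →* B) (u i) = w i := fun i => Units.ext (h i)
  have h2 : ∀ e, ψ ((mz u e : Rˣ) : R) = (mz w e : Bˣ) := by
    intro e
    have h3 : Units.map (ψ : R →* B) (mz u e) = mz w e := by
      unfold mz
      rw [map_prod]
      refine Finset.prod_congr rfl fun i _ => ?_
      rw [map_zpow, h1]
    rw [← h3]
    rfl
  rw [evL_apply, evL_apply, map_sum]
  refine Finset.sum_congr rfl fun e _ => ?_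
  rw [map_mul, AlgHom.commutes, h2]

theorem hom_evQ {R : Type} [CommRing R] [Algebra k R] (ψ : R →ₐ[k] B) (u : Fin r → Rˣ)
    (w : Fin r → Bˣ) (h : ∀ i, ψ (u i : R) = w i) (x : R) (Q : (Lau k r)[X]) :
    ψ (evQ k u x Q) = evQ k w (ψ x) Q := by
  unfold evQ
  rw [show ψ (Q.eval₂ (evL k u : Lau k r →+* R) x) =
    (ψ : R →+* B) (Q.eval₂ (evL k u : Lau k r →+* R) x) from rfl, Polynomial.hom_eval₂]
  congr 1
  apply RingHom.ext
  intro p
  exact hom_evL ψ u w h p

/-- roots which are not Laurent polynomials contradict the covering condition -/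
theorem cov_false (Γ : Geo k B) (hr : 1 ≤ r) (w : Fin r → Bˣ) (hwW : ∀ j, w j ∈ Γ.W)
    (hw : AlgebraicIndependent k (fun j => (w j : B))) {J : Type} [Fintype J]
    (Q : J → (Lau k r)[X]) (hQ : ∀ j, (Q j).Monic) (z : J → B) (hzI : ∀ j, z j ∈ Γ.I)
    (hz : ∀ j, evQ k w (z j) (Q j) = 0)
    (hirr : ∀ j, ∀ p q : Lau k r, evL k w p * z j = evL k w q → p = 0)
    (C1 C2 D2 : ℝ) (hC1 : 0 ≤ C1)
    (hE : ∀ j a, ∀ e ∈ ((Q j).coeff a).coeff.support, ∀ i, |(e i : ℝ)| ≤ C1)
    (hC2 : (1 + 2 ^ r) * Fintype.card J * C1 ≤ C2) (hD2 : ∀ j, ((Q j).natDegree : ℝ) ≤ D2)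
    (hcov : CovG C2 D2 Q) : False := by
  classical
  let e := (Fintype.equivFin J).symm
  obtain ⟨In⟩ := Γ.inst r (Fintype.card J) w (fun i => z (e i)) hr hwW
    (fun j c => nonconst_of_algInd _ hw j c) (fun i => hzI _)
  let D := In.D
  let zR : J → In.R := fun j => In.yR (e.symm j)
  have hψz : ∀ j, In.ψ (zR j) = z j := by
    intro j
    simp only [zR]
    rw [In.hyR]
    simp only [Equiv.apply_symm_apply]
  have hψP : ∀ P : Lau k r, In.ψ (evL k In.wR P) = evL k w P := hom_evL In.ψ In.wR w In.hwR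
  have hwRAI : AlgebraicIndependent k (fun j => (In.wR j : In.R)) := by
    have h1 : Function.Injective (MvPolynomial.aeval (R := k) fun j => (w j : B)) := hw
    have h2 : ∀ P : MvPolynomial (Fin r) k, In.ψ (MvPolynomial.aeval
        (fun j => (In.wR j : In.R)) P) = MvPolynomial.aeval (fun j => (w j : B)) P := by
      intro P
      have h3 : (In.ψ.comp (MvPolynomial.aeval fun j => (In.wR j : In.R))) =
          MvPolynomial.aeval (fun j => (w j : B)) := by
        ext i
        simp [In.hwR]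
      exact DFunLike.congr_fun h3 P
    have h3 : Function.Injective (MvPolynomial.aeval (R := k) fun j => (In.wR j : In.R)) :=
      fun P Q h => h1 (by rw [← h2, ← h2, h])
    exact h3
  have hzR : ∀ j, evQ k In.wR (zR j) (Q j) = 0 := by
    intro j
    apply In.hψ
    rw [hom_evQ In.ψ In.wR w In.hwR, hψz, hz, map_zero]
  have hirrR : ∀ j, ∀ p q : Lau k r, evL k In.wR p * zR j = evL k In.wR q → p = 0 := by
    intro j p q h
    apply hirr j p q
    rw [← hψP, ← hψP, ← h, map_mul, hψz]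
  have h1 : D.Neg (fun ω => ∑ i, |D.lg (In.wR i : In.R) ω|) :=
    covG_neg D In.wR hwRAI Q hQ zR hzR hirrR C1 C2 D2 hC1 hE hC2 hD2 hcov
  have h2 : ∀ i, D.Neg (fun ω => max (D.lg (In.yR i) ω) 0) := by
    intro i
    have h3 : evQ k In.wR (In.yR i) (Q (e i)) = 0 := by
      have h4 := hzR (e i)
      simp only [zR, Equiv.symm_apply_apply] at h4
      exact h4
    obtain ⟨C, hC, h5⟩ := root_le D In.wR (In.yR i) (Q (e i)) (hQ _) h3 C1 hC1 (hE _)
    refine D.neg_mono _ _ ?_ (D.neg_add _ _ (D.neg_const C) (D.neg_smul _ C1 hC1 h1))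
    filter_upwards [h5] with ω g1
    refine max_le g1 ?_
    exact add_nonneg hC (mul_nonneg hC1 (Finset.sum_nonneg fun _ _ => abs_nonneg _))
  obtain ⟨C, hC, h5⟩ := In.hone
  apply In.hnn
  refine D.neg_mono _ _ (Filter.Eventually.of_forall fun ω => ?_)
    (D.neg_add _ _ h5 (D.neg_smul _ C hC (D.neg_add _ _ h1 (D.neg_sum Finset.univ _
      fun i _ => h2 i))))
  show D.one ω ≤ _
  linarith

/-- no quotient of Laurent polynomials is a root -/
def NoRoot (Q : (Lau k r)[X]) : Prop := ∀ p q : Lau k r, q ≠ 0 → (Q.scaleRoots q).eval p ≠ 0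

/-- the polynomial is a product of linear factors -/
def IsProd (Q : (Lau k r)[X]) : Prop :=
  ∃ b : Fin Q.natDegree → Lau k r, Q = ∏ i, (X - C (b i))

theorem evQ_eval (w : Fin r → Bˣ) (Q : (Lau k r)[X]) (b : Lau k r) :
    evQ k w (evL k w b) Q = evL k w (Q.eval b) := by
  unfold evQ
  rw [show evL k w b = (evL k w : Lau k r →+* B) b from rfl, Polynomial.eval₂_hom]
  rfl

theorem IsProd.root {Q : (Lau k r)[X]} (h : IsProd Q) (w : Fin r → Bˣ) (x : B)
    (hx : evQ k w x Q = 0) : ∃ p : Lau k r, x = evL k w p := by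
  obtain ⟨b, hb⟩ := h
  rw [hb, evQ_prod, Finset.prod_eq_zero_iff] at hx
  obtain ⟨i, -, hi⟩ := hx
  exact ⟨b i, sub_eq_zero.1 hi⟩

/-- the polynomials `P(c t ^ (M a), Z)` -/
noncomputable def pullQ {n : ℕ} (M : ℕ) (a : Fin n → Fin r → ℤ) (c : Fin n → k)
    (P : (MvPolynomial (Fin n) k)[X]) : (Lau k r)[X] :=
  P.map (MvPolynomial.aeval fun i => AddMonoidAlgebra.single (fun j => (M : ℤ) * a i j) (c i) :
    MvPolynomial (Fin n) k →ₐ[k] Lau k r).toRingHom

theorem evQ_pull {n : ℕ} (M : ℕ) (a : Fin n → Fin r → ℤ) (c : Fin n → k)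
    (P : (MvPolynomial (Fin n) k)[X]) (w : Fin r → Bˣ) (y : Fin n → B)
    (hy : ∀ i, y i = algebraMap k B (c i) * (∏ j, w j ^ ((M : ℤ) * a i j) : Bˣ)) (x : B) :
    evQ k w x (pullQ M a c P) = P.eval₂ (MvPolynomial.aeval y).toRingHom x := by
  unfold evQ pullQ
  rw [Polynomial.eval₂_map]
  congr 1
  apply RingHom.ext
  intro p
  have h1 : ((evL k w).comp (MvPolynomial.aeval fun i =>
      AddMonoidAlgebra.single (fun j => (M : ℤ) * a i j) (c i))) = MvPolynomial.aeval y := by
    ext i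
    rw [AlgHom.comp_apply, MvPolynomial.aeval_X, MvPolynomial.aeval_X, evL_single, hy]
    rfl
  exact DFunLike.congr_fun h1 p

/-- the condition over a field: the covering condition for all sets of polynomials which may have
irrational roots -/
def TameQ {J : Type} [Fintype J] (Q : J → (Lau k r)[X]) : Prop :=
  ∃ (C1 D2 : ℝ), 0 ≤ C1 ∧ (∀ j a, ∀ e ∈ ((Q j).coeff a).coeff.support, ∀ i, |(e i : ℝ)| ≤ C1) ∧
    (∀ j, ((Q j).natDegree : ℝ) ≤ D2) ∧
    ∀ s : Set J, s.Nonempty → (∀ j, NoRoot (Q j) → j ∈ s) → (∀ j ∈ s, ¬ IsProd (Q j)) →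
      CovG ((1 + 2 ^ r) * Fintype.card J * C1) D2 (fun j : s => Q j)

/-- values of Laurent polynomials are rational functions -/
theorem evL_mem_RatSub (w : Fin r → Bˣ) (hw : AlgebraicIndependent k (fun j => (w j : B)))
    (p : Lau k r) : evL k w p ∈ RatSub (fun j => (w j : B)) hw := by
  rw [evL_apply]
  exact Subalgebra.sum_mem _ fun e _ => Subalgebra.mul_mem _ (Subalgebra.algebraMap_mem _ _)
    (prod_mem_RatSub w hw _)

theorem mem_RatSub_of (w : Fin r → Bˣ) (hw : AlgebraicIndependent k (fun j => (w j : B))) (z : B)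
    (p q : Lau k r) (hp : p ≠ 0) (h : evL k w p * z = evL k w q) :
    z ∈ RatSub (fun j => (w j : B)) hw := by
  obtain ⟨b, a, ha, hab⟩ := evL_mem_RatSub w hw p
  obtain ⟨b', a', ha', hab'⟩ := evL_mem_RatSub w hw q
  have hinj : Function.Injective (MvPolynomial.aeval (R := k) fun i => (w i : B)) := hw
  refine ⟨a * b', a' * b, mul_ne_zero ha' ?_, ?_⟩
  · intro hb
    rw [hb, map_zero] at hab
    rcases mul_eq_zero.1 hab with h1 | h1
    · exact ha (hinj (by rw [h1, map_zero]))
    · exact hp (evL_inj w hw (by rw [h1, map_zero]))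
  · rw [map_mul, map_mul, ← hab, ← hab']
    linear_combination (MvPolynomial.aeval (fun i => (w i : B)) a *
      MvPolynomial.aeval (fun i => (w i : B)) a') * h

theorem exists_lau (w : Fin r → Bˣ) (P : MvPolynomial (Fin r) k) :
    ∃ p : Lau k r, MvPolynomial.aeval (fun j => (w j : B)) P = evL k w p := by
  refine ⟨MvPolynomial.aeval (fun i => AddMonoidAlgebra.single (Pi.single i 1) 1) P, ?_⟩
  have h1 : ((evL k w).comp (MvPolynomial.aeval fun i : Fin r =>
      (AddMonoidAlgebra.single (Pi.single i 1) 1 : Lau k r))) =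
      MvPolynomial.aeval (fun j => (w j : B)) := by
    ext i
    rw [AlgHom.comp_apply, MvPolynomial.aeval_X, MvPolynomial.aeval_X, evL_single, map_one,
      one_mul]
    unfold mz
    rw [Finset.prod_eq_single i]
    · rw [Pi.single_eq_same, zpow_one]
    · intro j _ hj
      rw [Pi.single_eq_of_ne hj, zpow_zero]
    · intro h
      exact absurd (Finset.mem_univ _) h
  exact (DFunLike.congr_fun h1 P).symm

theorem all_rat (Γ : Geo k B) (hr : 1 ≤ r) (w : Fin r → Bˣ) (hwW : ∀ j, w j ∈ Γ.W)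
    (hw : AlgebraicIndependent k (fun j => (w j : B))) {J : Type} [Fintype J]
    (Q : J → (Lau k r)[X]) (hQ : ∀ j, (Q j).Monic) (z : J → B) (hzI : ∀ j, z j ∈ Γ.I)
    (hz : ∀ j, evQ k w (z j) (Q j) = 0) (hT : TameQ Q) :
    ∀ j, z j ∈ RatSub (fun j => (w j : B)) hw := by
  classical
  obtain ⟨C1, D2, hC1, hE, hD2, hT⟩ := hT
  by_contra hcon
  push Not at hcon
  obtain ⟨j0, hj0⟩ := hcon
  let s : Set J := {j | z j ∉ RatSub (fun j => (w j : B)) hw}
  have hcov := hT s ⟨j0, hj0⟩ (by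
    intro j hj hjs
    obtain ⟨a, b, hb, hab⟩ := hjs
    have hinj : Function.Injective (MvPolynomial.aeval (R := k) fun i => (w i : B)) := hw
    obtain ⟨a', ha'⟩ := exists_lau w a
    obtain ⟨b', hb'⟩ := exists_lau w b
    refine hj a' b' ?_ ?_
    · intro h
      apply hb
      apply hinj
      rw [map_zero, hb', h, map_zero]
    · apply evL_inj w hw
      have h1 : evL k w b' * z j = evL k w a' := by
        rw [← ha', ← hb', hab]
      rw [← evQ_eval, ← h1, evQ_scale w (z j) (Q j) b' (hz j), map_zero]) (by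
    intro j hj h1
    obtain ⟨p, hp⟩ := h1.root w (z j) (hz j)
    apply hj
    rw [hp]
    exact evL_mem_RatSub w hw p)
  refine cov_false Γ hr w hwW hw (fun j : s => Q j) (fun j => hQ _) (fun j => z j)
    (fun j => hzI _) (fun j => hz _) ?_ C1 _ D2 hC1 (fun j => hE _) ?_ (fun j => hD2 _) hcov
  · intro j p q hpq
    by_contra hp
    exact j.2 (mem_RatSub_of w hw (z j) p q hp hpq)
  · refine mul_le_mul_of_nonneg_right ?_ hC1
    refine mul_le_mul_of_nonneg_left ?_ (by positivity)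
    exact_mod_cast Fintype.card_le_of_injective (fun j : s => (j : J)) Subtype.val_injective

/-- the alternative for solutions in a translate of a subtorus -/
theorem coset_altQ (Γ : Geo k B) (ρ : Rp k B) {N n : ℕ} {J : Type} [Fintype J]
    (U : Fin n → Fin N) (I : J → Fin N) {M : ℕ} (hM : 1 ≤ M)
    (P : J → (MvPolynomial (Fin n) k)[X]) (hP : ∀ j, (P j).Monic) (y : Fin N → B)
    (hyI : ∀ i, y i ∈ Γ.I) {ι : Type} [Finite ι] (F : ι → MvPolynomial (Fin N) k)
    (hF : ∀ l, MvPolynomial.aeval y (F l) = 0) (d : DatU k U y M Γ.W)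
    (hJ : ∀ j, (P j).eval₂ (MvPolynomial.aeval fun i => y (U i)).toRingHom (y (I j)) = 0)
    (hT : TameQ fun j => pullQ M d.a d.c (P j))
    {E : Type} [Field E] [IsAlgClosed E] (θ : B →+* E) (hθ : Function.Injective θ) :
    (∃ z : Fin N → E, (∀ l, MvPolynomial.eval₂ (θ.comp (algebraMap k B)) z (F l) = 0) ∧
      (∀ i ∈ Finset.univ.image U ∪ Finset.univ.image I, z i = θ (y i)) ∧
      z ≠ fun j => θ (y j)) ∨ ∀ᶠ t in ρ.G, CurveAt ρ F y t := by
  classical
  have hroot : ∀ j, evQ k d.w (y (I j)) (pullQ M d.a d.c (P j)) = 0 := by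
    intro j
    rw [evQ_pull M d.a d.c (P j) d.w (fun i => y (U i)) d.hU, hJ]
  have hall := all_rat Γ d.hr d.w d.hwW d.hw (fun j => pullQ M d.a d.c (P j))
    (fun j => (hP j).map _) (fun j => y (I j)) (fun j => hyI _) hroot hT
  refine alt_curve Γ ρ hM d hyI F hF (Finset.univ.image U ∪ Finset.univ.image I) ?_ θ hθ
  intro i hi
  rcases Finset.mem_union.1 hi with h | h
  · obtain ⟨l, -, rfl⟩ := Finset.mem_image.1 h
    exact U_mem_RatSub d l
  · obtain ⟨l, -, rfl⟩ := Finset.mem_image.1 h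
    exact hall l

/-- the alternative for solutions with constant unit coordinates -/
theorem const_altQ (Γ : Geo k B)
    (hcl : ∀ (x : B) (P : k[X]), P.Monic → P.eval₂ (algebraMap k B) x = 0 →
      ∃ c : k, x = algebraMap k B c) {N n : ℕ} {J : Type} [Fintype J]
    (U : Fin n → Fin N) (I : J → Fin N) (P : J → (MvPolynomial (Fin n) k)[X])
    (hP : ∀ j, (P j).Monic) (y : Fin N → B) {ι : Type} (F : ι → MvPolynomial (Fin N) k)
    (hF : ∀ l, MvPolynomial.aeval y (F l) = 0)
    (hJ : ∀ j, (P j).eval₂ (MvPolynomial.aeval fun i => y (U i)).toRingHom (y (I j)) = 0)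
    (hc : ∀ i, ∃ c : k, y (U i) = algebraMap k B c)
    (hync : ∃ i, ∀ c : k, y i ≠ algebraMap k B c)
    {E : Type} [Field E] [IsAlgClosed E] (θ : B →+* E) (hθ : Function.Injective θ) :
    (∃ z : Fin N → E, (∀ l, MvPolynomial.eval₂ (θ.comp (algebraMap k B)) z (F l) = 0) ∧
      (∀ i ∈ Finset.univ.image U ∪ Finset.univ.image I, z i = θ (y i)) ∧
      z ≠ fun j => θ (y j)) := by
  classical
  choose c hc using hc
  have hcJ : ∀ j, ∃ c : k, y (I j) = algebraMap k B c := by
    intro j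
    refine hcl _ ((P j).map (MvPolynomial.aeval c : MvPolynomial (Fin n) k →ₐ[k] k).toRingHom)
      ((hP j).map _) ?_
    rw [Polynomial.eval₂_map, ← hJ j]
    congr 1
    apply RingHom.ext
    intro p
    have h2 : (fun i => y (U i)) = fun i => algebraMap k B (c i) := funext hc
    have h3 : ((Algebra.ofId k B).comp (MvPolynomial.aeval c) : MvPolynomial (Fin n) k →ₐ[k] B) =
        MvPolynomial.aeval (fun i => algebraMap k B (c i)) := by
      ext i
      simp [Algebra.ofId_apply]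
    rw [h2]
    exact DFunLike.congr_fun h3 p
  choose cJ hcJ using hcJ
  have hw0 : AlgebraicIndependent k (fun j : Fin 0 => (j.elim0 : B)) := by
    have h1 : Function.Injective (MvPolynomial.aeval (R := k) fun j : Fin 0 => (j.elim0 : B)) := by
      intro P Q h
      have h5 : ∀ P : MvPolynomial (Fin 0) k, P = MvPolynomial.C (MvPolynomial.coeff 0 P) :=
        fun P => MvPolynomial.eq_C_of_isEmpty P
      rw [h5 P, h5 Q, ← MvPolynomial.algebraMap_eq, AlgHom.commutes, AlgHom.commutes] at h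
      rw [h5 P, h5 Q, (algebraMap k B).injective h]
    exact h1
  have hconst : ∀ i ∈ (Finset.univ.image U ∪ Finset.univ.image I), ∃ c : k,
      y i = algebraMap k B c := by
    intro i hi
    rcases Finset.mem_union.1 hi with h | h
    · obtain ⟨l, -, rfl⟩ := Finset.mem_image.1 h
      exact ⟨_, hc l⟩
    · obtain ⟨l, -, rfl⟩ := Finset.mem_image.1 h
      exact ⟨_, hcJ l⟩
  choose! c2 hc2 using hconst
  rcases second_point (Finset.univ.image U ∪ Finset.univ.image I) F y hF
    (fun j : Fin 0 => (j.elim0 : B)) hw0 (fun i => MvPolynomial.C (c2 i)) (fun _ => 1)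
    (fun i _ => one_ne_zero) (fun i hi => by
      rw [map_one, one_mul, hc2 i hi, ← MvPolynomial.algebraMap_eq, AlgHom.commutes]) θ hθ with
    ⟨z, h1, h2, h3⟩ | h
  · exact ⟨z, h1, h2, h3⟩
  · exfalso
    obtain ⟨i, hi⟩ := hync
    obtain ⟨p, q, -, hq, h4⟩ := h i
    have h5 : ∀ P : MvPolynomial (Fin 0) k, P = MvPolynomial.C (MvPolynomial.coeff 0 P) :=
      fun P => MvPolynomial.eq_C_of_isEmpty P
    rw [h5 q, h5 p, ← MvPolynomial.algebraMap_eq, AlgHom.commutes, AlgHom.commutes] at h4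
    have h6 : MvPolynomial.coeff 0 q ≠ 0 := by
      intro h
      apply hq
      rw [h5 q, h, MvPolynomial.C_0]
    apply hi ((MvPolynomial.coeff 0 q)⁻¹ * MvPolynomial.coeff 0 p)
    rw [map_mul, ← h4, ← mul_assoc, ← map_mul, inv_mul_cancel₀ h6, map_one, one_mul]

end Pool.Agent.H434.GM
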