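import Mathlib
import Pool.Agent.H434.N3

/-!
Polynomials which split near the directions of a half-space satisfy the covering condition.
-/

set_option autoImplicit false
set_option linter.unusedSectionVars false

open Finset Filter Module Polynomial

namespace Pool.Agent.H434.GM

variable {k : Type} [Field k] {r : ℕ}

/-- `Q` has approximate linear factorisations of all orders near the direction `l` -/
def SplitsNear (Q : (Lau k r)[X]) (l : Fin r → ℝ) : Prop :=
  ∃ ε : ℝ, 0 < ε ∧ ∀ A : ℝ, ∃ (g : Lau k r) (b : Fin Q.natDegree → Lau k r), g ≠ 0 ∧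
    ∀ l' : Fin r → ℝ, (∀ i, |l' i - l i| ≤ ε) → CloseG Q g b A l'

/-- the half-space condition -/
def HalfSp {J : Type} (Q : J → (Lau k r)[X]) (s : Set J) : Prop :=
  ∃ μ : Fin r → ℝ, ∀ l : Fin r → ℝ, l ≠ 0 → 0 ≤ ∑ i, μ i * l i → ∃ j ∈ s, SplitsNear (Q j) l

theorem dot_smul (e : Fin r → ℤ) (c : ℝ) (l : Fin r → ℝ) : dot e (c • l) = c * dot e l := by
  unfold dot
  rw [Finset.mul_sum]
  refine Finset.sum_congr rfl fun i _ => ?_
  rw [Pi.smul_apply, smul_eq_mul]
  ring

theorem CloseG.smul {Q : (Lau k r)[X]} {g : Lau k r} {b : Fin Q.natDegree → Lau k r} {A : ℝ}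
    {l : Fin r → ℝ} (h : CloseG Q g b A l) (c : ℝ) (hc : 0 ≤ c) :
    CloseG Q g b (A * c) (c • l) := by
  intro j e he
  obtain ⟨s, hs, h1⟩ := h j e he
  refine ⟨s, hs, ?_⟩
  rw [dot_smul, dot_smul]
  have h2 := mul_le_mul_of_nonneg_left h1 hc
  linarith

theorem covG_of_half {J : Type} (Q : J → (Lau k r)[X]) (s : Set J) (h : HalfSp Q s) (C D : ℝ)
    (hC : 0 ≤ C) (hD : 0 ≤ D) : CovG C D (fun j : s => Q j) := by
  classical
  obtain ⟨μ0, hμ0⟩ := h
  let K : Set (Fin r → ℝ) := {l | sz l = 1}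
  have hszc : Continuous (sz : (Fin r → ℝ) → ℝ) := by
    unfold sz
    fun_prop
  have hKc : IsCompact K := by
    have h1 : IsClosed K := isClosed_eq hszc continuous_const
    refine Metric.isCompact_of_isClosed_isBounded h1 ?_
    rw [isBounded_iff_forall_norm_le]
    refine ⟨1, fun l hl => ?_⟩
    rw [pi_norm_le_iff_of_nonneg zero_le_one]
    intro i
    rw [Real.norm_eq_abs]
    have h2 : sz l = 1 := hl
    rw [← h2]
    exact Finset.single_le_sum (f := fun i => |l i|) (fun _ _ => abs_nonneg _) (Finset.mem_univ i)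
  let m0 : (Fin r → ℝ) → ℝ := fun l => ∑ i, μ0 i * l i
  have hm0c : Continuous m0 := by
    show Continuous fun l : Fin r → ℝ => ∑ i, μ0 i * l i
    fun_prop
  have hloc : ∀ l0 : Fin r → ℝ, l0 ≠ 0 → ∃ (V : Set (Fin r → ℝ)) (η : ℝ), IsOpen V ∧ l0 ∈ V ∧
      0 < η ∧ ((∀ l ∈ V, m0 l ≤ -η) ∨ ∃ j : s, ∀ A : ℝ, ∃ (g : Lau k r)
        (b : Fin (Q j).natDegree → Lau k r), g ≠ 0 ∧ ∀ l ∈ V, CloseG (Q j) g b A l) := by
    intro l0 hl0
    by_cases hm : 0 ≤ m0 l0
    · obtain ⟨j, hj, ε, hε, h1⟩ := hμ0 l0 hl0 hm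
      refine ⟨{l | ∀ i, |l i - l0 i| < ε}, 1, ?_, ?_, one_pos, Or.inr ⟨⟨j, hj⟩, fun A => ?_⟩⟩
      · have h2 : {l : Fin r → ℝ | ∀ i, |l i - l0 i| < ε} = ⋂ i, {l | |l i - l0 i| < ε} := by
          ext l
          simp
        rw [h2]
        refine isOpen_iInter_of_finite fun i => isOpen_lt (by fun_prop) continuous_const
      · intro i
        rw [sub_self, abs_zero]
        exact hε
      · obtain ⟨g, b, hg, h2⟩ := h1 A
        exact ⟨g, b, hg, fun l hl => h2 l fun i => (hl i).le⟩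
    · push Not at hm
      refine ⟨{l | m0 l < m0 l0 / 2}, -(m0 l0 / 2), isOpen_lt hm0c continuous_const, ?_, ?_,
        Or.inl fun l hl => ?_⟩
      · show m0 l0 < m0 l0 / 2
        linarith
      · linarith
      · have h1 : m0 l < m0 l0 / 2 := hl
        linarith
  choose! V η hVo hVm hη hV using hloc
  have hK0 : ∀ l ∈ K, l ≠ 0 := by
    intro l hl h0
    have h2 : sz l = 1 := hl
    rw [h0] at h2
    unfold sz at h2
    simp at h2
  obtain ⟨F, hFK, hF⟩ := hKc.elim_nhds_subcover V fun l hl =>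
    (hVo l (hK0 l hl)).mem_nhds (hVm l (hK0 l hl))
  -- the constants
  obtain ⟨η1, hη1, hη2⟩ : ∃ η1 : ℝ, 0 < η1 ∧ ∀ l ∈ F, η1 ≤ η l := by
    by_cases hFn : F.Nonempty
    · obtain ⟨l1, hl1, hmin⟩ := Finset.exists_min_image F η hFn
      exact ⟨η l1, hη l1 (hK0 l1 (hFK l1 hl1)), hmin⟩
    · rw [Finset.not_nonempty_iff_eq_empty] at hFn
      exact ⟨1, one_pos, fun l hl => by
        rw [hFn] at hl
        exact absurd hl (Finset.notMem_empty _)⟩
  let μ : Fin r → ℝ := fun i => (C + 1) / η1 * μ0 i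
  have hμ : ∀ l, ∑ i, μ i * l i = (C + 1) / η1 * m0 l := by
    intro l
    simp only [μ, m0]
    rw [Finset.mul_sum]
    exact Finset.sum_congr rfl fun i _ => by ring
  let A : ℝ := D * (C + 1 + ∑ i, |μ i|)
  have hch : ∀ l0 : F, ∃ (x : Option (Σ j : s, Lau k r × (Fin (Q j).natDegree → Lau k r))),
      (x = none → ∀ l ∈ V l0.1, m0 l ≤ -η l0.1) ∧ ∀ y, x = some y →
        y.2.1 ≠ 0 ∧ ∀ l ∈ V l0.1, CloseG (Q y.1) y.2.1 y.2.2 A l := by
    intro l0
    rcases hV l0.1 (hK0 _ (hFK _ l0.2)) with h1 | ⟨j, h1⟩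
    · exact ⟨none, fun _ => h1, fun y hy => absurd hy (by simp)⟩
    · obtain ⟨g, b, hg, h2⟩ := h1 A
      refine ⟨some ⟨j, g, b⟩, fun h => absurd h (by simp), fun y hy => ?_⟩
      rw [Option.some.injEq] at hy
      subst hy
      exact ⟨hg, h2⟩
  choose x hx1 hx2 using hch
  refine ⟨μ, (Finset.univ : Finset F).biUnion fun l0 => (x l0).toFinset, ?_, ?_⟩
  · intro y hy
    obtain ⟨l0, -, h1⟩ := Finset.mem_biUnion.1 hy
    exact (hx2 l0 y (Option.mem_toFinset.1 h1)).1
  · intro l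
    by_cases hl : l = 0
    · left
      rw [hl]
      unfold sz
      simp
    · have hpos : 0 < sz l := by
        obtain ⟨i, hi⟩ := Function.ne_iff.1 hl
        exact lt_of_lt_of_le (abs_pos.2 hi) (Finset.single_le_sum (f := fun i => |l i|)
          (fun _ _ => abs_nonneg _) (Finset.mem_univ i))
      set c : ℝ := sz l with hc
      have h1 : l = c • (c⁻¹ • l) := by
        rw [smul_smul, mul_inv_cancel₀ hpos.ne', one_smul]
      have h2 : c⁻¹ • l ∈ K := by
        show sz (c⁻¹ • l) = 1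
        have h3 : sz (c⁻¹ • l) = c⁻¹ * sz l := by
          unfold sz
          rw [Finset.mul_sum]
          refine Finset.sum_congr rfl fun i _ => ?_
          rw [Pi.smul_apply, smul_eq_mul, abs_mul, abs_of_nonneg (inv_nonneg.2 hpos.le)]
        rw [h3, ← hc, inv_mul_cancel₀ hpos.ne']
      have h3 := hF h2
      simp only [Set.mem_iUnion] at h3
      obtain ⟨l0, hl0, h4⟩ := h3
      cases hx : x ⟨l0, hl0⟩ with
      | none =>
        left
        have h5 := hx1 ⟨l0, hl0⟩ hx _ h4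
        have h6 := hη2 l0 hl0
        rw [hμ]
        have h7 : m0 l = c * m0 (c⁻¹ • l) := by
          simp only [m0]
          rw [Finset.mul_sum]
          refine Finset.sum_congr rfl fun i _ => ?_
          rw [Pi.smul_apply, smul_eq_mul]
          field_simp
        rw [h7]
        have h8 : m0 (c⁻¹ • l) ≤ -η1 := by linarith
        have h9 : 0 ≤ (C + 1) / η1 * c := by positivity
        have h10 := mul_le_mul_of_nonneg_left h8 h9
        have h11 : (C + 1) / η1 * c * -η1 = -((C + 1) * c) := by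
          field_simp
        linarith
      | some y =>
        right
        refine ⟨y, Finset.mem_biUnion.2 ⟨⟨l0, hl0⟩, Finset.mem_univ _,
          Option.mem_toFinset.2 hx⟩, ?_⟩
        have h5 := ((hx2 ⟨l0, hl0⟩ y hx).2 _ h4).smul c hpos.le
        rw [← h1] at h5
        exact h5

end Pool.Agent.H434.GM
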