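import Mathlib
import Pool.Agent.H434.N6

/-!
Fields of definition of the approximations.
-/

set_option autoImplicit false
set_option linter.unusedSectionVars false

open Finset Filter Module Polynomial

namespace Pool.Agent.H434.GM

section gen

variable {r : ℕ}

/-- change of the coefficients of Laurent polynomials -/
noncomputable def Lm {A B : Type} [CommRing A] [CommRing B] (r : ℕ) (φ : A →+* B) :
    AddMonoidAlgebra A (Fin r → ℤ) →+* AddMonoidAlgebra B (Fin r → ℤ) :=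
  AddMonoidAlgebra.mapRingHom (Fin r → ℤ) φ

theorem Lm_coeff {A B : Type} [CommRing A] [CommRing B] (φ : A →+* B)
    (p : AddMonoidAlgebra A (Fin r → ℤ)) (e : Fin r → ℤ) :
    (Lm r φ p).coeff e = φ (p.coeff e) := AddMonoidAlgebra.coeff_mapRingHom _ _ _

theorem Lm_comp {A B C : Type} [CommRing A] [CommRing B] [CommRing C] (φ : A →+* B) (ψ : B →+* C)
    (p : AddMonoidAlgebra A (Fin r → ℤ)) : Lm r ψ (Lm r φ p) = Lm r (ψ.comp φ) p := by
  apply AddMonoidAlgebra.ext
  ext e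
  rw [Lm_coeff, Lm_coeff, Lm_coeff]
  rfl

theorem Lm_supp {A B : Type} [CommRing A] [CommRing B] (φ : A →+* B)
    (p : AddMonoidAlgebra A (Fin r → ℤ)) : (Lm r φ p).coeff.support ⊆ p.coeff.support := by
  intro e he
  rw [Finsupp.mem_support_iff] at he ⊢
  intro h
  apply he
  rw [Lm_coeff, h, map_zero]

theorem Lm_supp_eq {A B : Type} [CommRing A] [CommRing B] (φ : A →+* B)
    (hφ : Function.Injective φ) (p : AddMonoidAlgebra A (Fin r → ℤ)) :
    (Lm r φ p).coeff.support = p.coeff.support := by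
  apply Finset.Subset.antisymm (Lm_supp φ p)
  intro e he
  rw [Finsupp.mem_support_iff] at he ⊢
  rw [Lm_coeff]
  intro h
  exact he (hφ (by rw [h, map_zero]))

theorem Lm_inj {A B : Type} [CommRing A] [CommRing B] (φ : A →+* B)
    (hφ : Function.Injective φ) : Function.Injective (Lm r φ) := by
  intro p q h
  apply AddMonoidAlgebra.ext
  ext e
  apply hφ
  rw [← Lm_coeff, ← Lm_coeff, h]

theorem Lm_lift {A B : Type} [CommRing A] [CommRing B] (φ : A →+* B)
    (p : AddMonoidAlgebra B (Fin r → ℤ)) (h : ∀ e ∈ p.coeff.support, p.coeff e ∈ φ.range) :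
    ∃ q, Lm r φ q = p := by
  classical
  choose! c hc using h
  refine ⟨∑ e ∈ p.coeff.support, AddMonoidAlgebra.single e (c e), ?_⟩
  rw [map_sum]
  apply AddMonoidAlgebra.ext
  ext e
  rw [AddMonoidAlgebra.coeff_sum, Finsupp.finsetSum_apply]
  have h1 : ∀ e', Lm r φ (AddMonoidAlgebra.single e' (c e')) =
      AddMonoidAlgebra.single e' (φ (c e')) := fun e' => AddMonoidAlgebra.mapRingHom_single _ _ _
  simp only [h1, AddMonoidAlgebra.coeff_single, Finsupp.single_apply]
  rw [Finset.sum_ite_eq' p.coeff.support e]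
  split_ifs with he
  · exact hc e he
  · exact (Finsupp.notMem_support_iff.1 he).symm

/-- the error of an approximate factorisation -/
noncomputable def er {A : Type} [CommRing A] (Q : (AddMonoidAlgebra A (Fin r → ℤ))[X])
    (g : AddMonoidAlgebra A (Fin r → ℤ)) {d : ℕ} (b : Fin d → AddMonoidAlgebra A (Fin r → ℤ)) :
    (AddMonoidAlgebra A (Fin r → ℤ))[X] := Q.scaleRoots g - ∏ i, (X - C (b i))

theorem er_map {A B : Type} [CommRing A] [CommRing B] [Nontrivial B] (φ : A →+* B)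
    (Q : (AddMonoidAlgebra A (Fin r → ℤ))[X]) (hQ : Q.Monic)
    (g : AddMonoidAlgebra A (Fin r → ℤ)) {d : ℕ} (b : Fin d → AddMonoidAlgebra A (Fin r → ℤ)) :
    (er Q g b).map (Lm r φ) = er (Q.map (Lm r φ)) (Lm r φ g) (fun i => Lm r φ (b i)) := by
  unfold er
  rw [Polynomial.map_sub, map_scaleRoots _ _ _ (by
    rw [hQ.leadingCoeff, map_one]
    exact one_ne_zero), Polynomial.map_prod]
  congr 1
  refine Finset.prod_congr rfl fun i _ => ?_
  rw [Polynomial.map_sub, map_X, map_C]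

theorem er_supp {A B : Type} [CommRing A] [CommRing B] [Nontrivial B] (φ : A →+* B)
    (Q : (AddMonoidAlgebra A (Fin r → ℤ))[X]) (hQ : Q.Monic)
    (g : AddMonoidAlgebra A (Fin r → ℤ)) {d : ℕ} (b : Fin d → AddMonoidAlgebra A (Fin r → ℤ))
    (j : ℕ) : ((er (Q.map (Lm r φ)) (Lm r φ g) (fun i => Lm r φ (b i))).coeff j).coeff.support ⊆
      ((er Q g b).coeff j).coeff.support := by
  rw [← er_map φ Q hQ, coeff_map]
  exact Lm_supp φ _

theorem er_supp_eq {A B : Type} [CommRing A] [CommRing B] [Nontrivial B] (φ : A →+* B)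
    (hφ : Function.Injective φ)
    (Q : (AddMonoidAlgebra A (Fin r → ℤ))[X]) (hQ : Q.Monic)
    (g : AddMonoidAlgebra A (Fin r → ℤ)) {d : ℕ} (b : Fin d → AddMonoidAlgebra A (Fin r → ℤ))
    (j : ℕ) : ((er (Q.map (Lm r φ)) (Lm r φ g) (fun i => Lm r φ (b i))).coeff j).coeff.support =
      ((er Q g b).coeff j).coeff.support := by
  rw [← er_map φ Q hQ, coeff_map]
  exact Lm_supp_eq φ hφ _

theorem Q_lift {A B : Type} [CommRing A] [CommRing B] [Nontrivial B] (φ : A →+* B)
    (Q : (AddMonoidAlgebra B (Fin r → ℤ))[X]) (hQ : Q.Monic)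
    (h : ∀ j, ∀ e ∈ (Q.coeff j).coeff.support, (Q.coeff j).coeff e ∈ φ.range) :
    ∃ q : (AddMonoidAlgebra A (Fin r → ℤ))[X], q.Monic ∧ q.map (Lm r φ) = Q := by
  have h1 : Q ∈ lifts (Lm r φ) := by
    rw [lifts_iff_coeff_lifts]
    intro j
    obtain ⟨q, hq⟩ := Lm_lift φ (Q.coeff j) (h j)
    exact ⟨q, hq⟩
  obtain ⟨q, hq1, hq2, hq3⟩ := lifts_and_natDegree_eq_and_monic h1 hQ
  exact ⟨q, hq3, hq1⟩

/-- specialisation of finitely many elements to an algebraically closed field -/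
theorem exists_spec {k E : Type} [Field k] [IsAlgClosed k] [Field E] [Algebra k E]
    (s : Finset E) : ∃ (S : Subalgebra k E) (π : S →ₐ[k] k), (∀ x ∈ s, x ∈ S) ∧
      ∀ x (h : x ∈ S), x ∈ s → x ≠ 0 → π ⟨x, h⟩ ≠ 0 := by
  classical
  let S : Subalgebra k E := Algebra.adjoin k (↑(s ∪ s.image fun x => x⁻¹) : Set E)
  have hft : Algebra.FiniteType k S :=
    (Subalgebra.fg_iff_finiteType S).1 ⟨s ∪ s.image fun x => x⁻¹, rfl⟩
  obtain ⟨m, hm⟩ := Ideal.exists_maximal S
  let : Field (S ⧸ m) := Ideal.Quotient.field m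
  have hft2 : Algebra.FiniteType k (S ⧸ m) :=
    Algebra.FiniteType.of_surjective (Ideal.Quotient.mkₐ k m) (Ideal.Quotient.mkₐ_surjective k m)
  have hfin : Module.Finite k (S ⧸ m) := finite_of_finite_type_of_isJacobsonRing k (S ⧸ m)
  have hint : Algebra.IsIntegral k (S ⧸ m) := inferInstance
  have hbij := IsAlgClosed.algebraMap_bijective_of_isIntegral (k := k) (K := S ⧸ m)
  let e : k ≃ₐ[k] (S ⧸ m) := AlgEquiv.ofBijective (Algebra.ofId k (S ⧸ m)) hbij
  let π : S →ₐ[k] k := (e.symm : (S ⧸ m) →ₐ[k] k).comp (Ideal.Quotient.mkₐ k m)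
  refine ⟨S, π, fun x hx => Algebra.subset_adjoin
    (Finset.mem_coe.2 (Finset.mem_union_left _ hx)), fun x h hx hx0 h0 => ?_⟩
  have h1 : x⁻¹ ∈ S := Algebra.subset_adjoin (Finset.mem_coe.2
    (Finset.mem_union_right _ (Finset.mem_image_of_mem _ hx)))
  have h2 : (⟨x, h⟩ : S) * ⟨x⁻¹, h1⟩ = 1 := Subtype.ext (mul_inv_cancel₀ hx0)
  have h3 := congrArg π h2
  rw [map_mul, h0, zero_mul, map_one] at h3
  exact zero_ne_one h3

end gen

/-- approximations with algebraic coefficients -/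
theorem desc_C {r : ℕ} (Q : (Lau ℂ r)[X]) (hQ : Q.Monic)
    (halg : ∀ j e, IsAlgebraic ℚ ((Q.coeff j).coeff e)) (g : Lau ℂ r) {d : ℕ}
    (b : Fin d → Lau ℂ r) :
    ∃ (g' : Lau ℂ r) (b' : Fin d → Lau ℂ r), (∀ e, IsAlgebraic ℚ (g'.coeff e)) ∧
      (∀ i e, IsAlgebraic ℚ ((b' i).coeff e)) ∧ g'.coeff.support = g.coeff.support ∧
      (g = 1 → g' = 1) ∧
      ∀ j, ((er Q g' b').coeff j).coeff.support ⊆ ((er Q g b).coeff j).coeff.support := by
  classical
  let A : IntermediateField ℚ ℂ := algebraicClosure ℚ ℂ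
  have hA : IsAlgClosed A := (algebraicClosure.isAlgClosure ℚ ℂ).isAlgClosed
  obtain ⟨QA, hQAm, hQA⟩ := Q_lift (algebraMap A ℂ) Q hQ fun j e _ =>
    ⟨⟨_, mem_algebraicClosure_iff.2 (halg j e)⟩, rfl⟩
  let s : Finset ℂ := (g.coeff.support.image fun e => g.coeff e) ∪
    Finset.univ.biUnion fun i => (b i).coeff.support.image fun e => (b i).coeff e
  obtain ⟨S, π, hS, hπ⟩ := exists_spec (k := A) s
  have hgs : ∀ e ∈ g.coeff.support, g.coeff e ∈ s := fun e he =>
    Finset.mem_union_left _ (Finset.mem_image.2 ⟨e, he, rfl⟩)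
  have hbs : ∀ i, ∀ e ∈ (b i).coeff.support, (b i).coeff e ∈ s := fun i e he =>
    Finset.mem_union_right _ (Finset.mem_biUnion.2 ⟨i, Finset.mem_univ _,
      Finset.mem_image.2 ⟨e, he, rfl⟩⟩)
  let v : S →+* ℂ := S.val.toRingHom
  have hv : Function.Injective v := Subtype.val_injective
  have hg1 : ∃ gS, Lm r v gS = g ∧ (g = 1 → gS = 1) := by
    obtain ⟨gS, hgS⟩ := Lm_lift v g fun e he => ⟨⟨_, hS _ (hgs e he)⟩, rfl⟩
    refine ⟨gS, hgS, fun h => ?_⟩
    apply Lm_inj v hv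
    rw [hgS, h, map_one]
  obtain ⟨gS, hgS, hgS1⟩ := hg1
  have hb1 : ∀ i, ∃ bS, Lm r v bS = b i := fun i =>
    Lm_lift v (b i) fun e he => ⟨⟨_, hS _ (hbs i e he)⟩, rfl⟩
  choose bS hbS using hb1
  let ι : A →+* S := algebraMap A S
  let QS := QA.map (Lm r ι)
  have hQS : QS.Monic := hQAm.map _
  have hQSv : QS.map (Lm r v) = Q := by
    simp only [QS]
    rw [Polynomial.map_map, ← hQA]
    congr 1
    apply RingHom.ext
    intro p
    rw [RingHom.comp_apply, Lm_comp]
    rfl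
  have hQSπ : QS.map (Lm r (π : S →+* A)) = QA := by
    simp only [QS]
    rw [Polynomial.map_map]
    have h1 : (Lm r (π : S →+* A)).comp (Lm r ι) = RingHom.id _ := by
      apply RingHom.ext
      intro p
      rw [RingHom.comp_apply, Lm_comp]
      have h2 : (π : S →+* A).comp ι = RingHom.id A := by
        apply RingHom.ext
        intro c
        exact π.commutes c
      rw [h2]
      apply AddMonoidAlgebra.ext
      ext e
      rw [Lm_coeff]
      rfl
    rw [h1, Polynomial.map_id]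
  have hvA : Function.Injective (algebraMap A ℂ) := (algebraMap A ℂ).injective
  refine ⟨Lm r (algebraMap A ℂ) (Lm r (π : S →+* A) gS),
    fun i => Lm r (algebraMap A ℂ) (Lm r (π : S →+* A) (bS i)), ?_, ?_, ?_, ?_, ?_⟩
  · intro e
    rw [Lm_coeff]
    exact mem_algebraicClosure_iff.1 (((Lm r (π : S →+* A)) gS).coeff e).2
  · intro i e
    rw [Lm_coeff]
    exact mem_algebraicClosure_iff.1 (((Lm r (π : S →+* A)) (bS i)).coeff e).2
  · rw [Lm_supp_eq _ hvA, ← hgS, Lm_supp_eq v hv]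
    apply Finset.Subset.antisymm (Lm_supp _ _)
    intro e he
    rw [Finsupp.mem_support_iff] at he ⊢
    rw [Lm_coeff]
    have h1 : g.coeff e = v (gS.coeff e) := by rw [← hgS, Lm_coeff]
    have h2 : g.coeff e ≠ 0 := by
      rw [h1]
      intro h
      exact he (hv (by rw [h, map_zero]))
    have h3 : g.coeff e ∈ s := hgs e (Finsupp.mem_support_iff.2 h2)
    have h4 := hπ (g.coeff e) (hS _ h3) h3 h2
    have h5 : (⟨g.coeff e, hS _ h3⟩ : S) = gS.coeff e := Subtype.ext h1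
    rw [h5] at h4
    exact h4
  · intro h
    rw [hgS1 h, map_one, map_one]
  · intro j
    have h1 := er_supp_eq (algebraMap A ℂ) hvA QA hQAm (Lm r (π : S →+* A) gS)
      (fun i => Lm r (π : S →+* A) (bS i)) j
    rw [hQA] at h1
    rw [h1]
    have h2 := er_supp (π : S →+* A) QS hQS gS bS j
    rw [hQSπ] at h2
    refine h2.trans ?_
    have h3 := er_supp_eq v hv QS hQS gS bS j
    rw [hQSv, hgS] at h3
    simp only [hbS] at h3
    rw [← h3]

end Pool.Agent.H434.GM
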