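import Mathlib
import Pool.Agent.H434.N7

/-!
The covering condition over subfields.
-/

set_option autoImplicit false
set_option linter.unusedSectionVars false

open Finset Filter Module Polynomial

namespace Pool.Agent.H434.GM

variable {r : ℕ}

theorem prod_cast {X : Type} [CommMonoid X] {n m : ℕ} (h : n = m) (f : Fin m → X) :
    ∏ i : Fin n, f (Fin.cast h i) = ∏ i, f i := by
  subst h
  rfl

theorem covG_desc {J : Type} (Q : J → (Lau ℂ r)[X]) (hQ : ∀ j, (Q j).Monic) (C D : ℝ)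
    (h : CovG C D Q) : ∃ T0 : Finset ℂ,
      ((∀ j a e, IsAlgebraic ℚ (((Q j).coeff a).coeff e)) → ∀ x ∈ T0, IsAlgebraic ℚ x) ∧
      ∀ (M : Type) [Field M] (ψ : M →+* ℂ) (J' : Type) (f : J → J') (Q2 : J' → (Lau M r)[X]),
        (∀ j, (Q2 (f j)).Monic) → (∀ j, (Q2 (f j)).map (Lm r ψ) = Q j) →
        (∀ x ∈ T0, x ∈ ψ.range) → CovG C D Q2 := by
  classical
  obtain ⟨μ, T, hTg, hT⟩ := h
  have hch : ∀ s : T, ∃ (g' : Lau ℂ r) (b' : Fin (Q s.1.1).natDegree → Lau ℂ r),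
      ((∀ j a e, IsAlgebraic ℚ (((Q j).coeff a).coeff e)) →
        (∀ e, IsAlgebraic ℚ (g'.coeff e)) ∧ ∀ i e, IsAlgebraic ℚ ((b' i).coeff e)) ∧
      g'.coeff.support = s.1.2.1.coeff.support ∧
      ∀ j, ((er (Q s.1.1) g' b').coeff j).coeff.support ⊆
        ((er (Q s.1.1) s.1.2.1 s.1.2.2).coeff j).coeff.support := by
    intro s
    by_cases halg : ∀ j a e, IsAlgebraic ℚ (((Q j).coeff a).coeff e)
    · obtain ⟨g', b', h1, h2, h3, -, h5⟩ := desc_C (Q s.1.1) (hQ _) (fun j e => halg _ j e)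
        s.1.2.1 s.1.2.2
      exact ⟨g', b', fun _ => ⟨h1, h2⟩, h3, h5⟩
    · exact ⟨s.1.2.1, s.1.2.2, fun h => absurd h halg, rfl, fun j => Finset.Subset.refl _⟩
  choose g' b' hal hg' hb' using hch
  let T0 : Finset ℂ := Finset.univ.biUnion fun s : T =>
    ((g' s).coeff.support.image fun e => (g' s).coeff e) ∪
      Finset.univ.biUnion fun i => (b' s i).coeff.support.image fun e => (b' s i).coeff e
  refine ⟨T0, ?_, ?_⟩
  · intro halg x hx
    obtain ⟨s, -, hx⟩ := Finset.mem_biUnion.1 hx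
    obtain ⟨h1, h2⟩ := hal s halg
    rcases Finset.mem_union.1 hx with hx | hx
    · obtain ⟨e, -, rfl⟩ := Finset.mem_image.1 hx
      exact h1 e
    · obtain ⟨i, -, hx⟩ := Finset.mem_biUnion.1 hx
      obtain ⟨e, -, rfl⟩ := Finset.mem_image.1 hx
      exact h2 i e
  · intro M _ ψ J' f Q2 hQ2m hQ2 hM
    have hg2 : ∀ s : T, ∃ g2 : Lau M r, Lm r ψ g2 = g' s := fun s =>
      Lm_lift ψ (g' s) fun e he => hM _ (Finset.mem_biUnion.2 ⟨s, Finset.mem_univ _,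
        Finset.mem_union_left _ (Finset.mem_image.2 ⟨e, he, rfl⟩)⟩)
    have hb2 : ∀ (s : T) (i : Fin (Q s.1.1).natDegree), ∃ b2 : Lau M r, Lm r ψ b2 = b' s i :=
      fun s i => Lm_lift ψ (b' s i) fun e he => hM _ (Finset.mem_biUnion.2 ⟨s, Finset.mem_univ _,
        Finset.mem_union_right _ (Finset.mem_biUnion.2 ⟨i, Finset.mem_univ _,
          Finset.mem_image.2 ⟨e, he, rfl⟩⟩)⟩)
    choose g2 hg2 using hg2
    choose b2 hb2 using hb2
    have hdeg : ∀ j, (Q2 (f j)).natDegree = (Q j).natDegree := by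
      intro j
      rw [← hQ2 j, natDegree_map_eq_of_injective (Lm_inj ψ ψ.injective)]
    have hsg : ∀ s : T, (g2 s).coeff.support = s.1.2.1.coeff.support := by
      intro s
      rw [← hg' s, ← hg2 s, Lm_supp_eq ψ ψ.injective]
    refine ⟨μ, (Finset.univ : Finset T).image fun s =>
      ⟨f s.1.1, g2 s, fun i => b2 s (Fin.cast (hdeg _) i)⟩, ?_, ?_⟩
    · intro y hy
      obtain ⟨s, -, rfl⟩ := Finset.mem_image.1 hy
      intro h0
      have h1 := supp_ne (hTg s.1 s.2)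
      rw [← hsg s] at h1
      simp only at h0
      rw [h0] at h1
      simp at h1
    · intro l
      rcases hT l with h1 | ⟨s, hs, h1⟩
      · exact Or.inl h1
      · right
        refine ⟨_, Finset.mem_image.2 ⟨⟨s, hs⟩, Finset.mem_univ _, rfl⟩, ?_⟩
        intro j e he
        have h2 : e ∈ ((er (Q2 (f s.1)) (g2 ⟨s, hs⟩) (fun i => b2 ⟨s, hs⟩
            (Fin.cast (hdeg s.1) i))).coeff j).coeff.support := he
        rw [← er_supp_eq ψ ψ.injective _ (hQ2m s.1), hQ2, hg2] at h2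
        simp only [hb2] at h2
        have h3 : er (Q s.1) (g' ⟨s, hs⟩) (fun i => b' ⟨s, hs⟩ (Fin.cast (hdeg s.1) i)) =
            er (Q s.1) (g' ⟨s, hs⟩) (b' ⟨s, hs⟩) := by
          unfold er
          congr 1
          exact prod_cast (hdeg s.1) (fun i => X - Polynomial.C (b' ⟨s, hs⟩ i))
        rw [h3] at h2
        obtain ⟨s', hs', h4⟩ := h1 j e (hb' ⟨s, hs⟩ j h2)
        refine ⟨s', ?_, ?_⟩
        · show s' ∈ (g2 ⟨s, hs⟩).coeff.support
          rw [hsg]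
          exact hs'
        · show dot e l ≤ (((Q2 (f s.1)).natDegree : ℝ) - j) * dot s' l - _
          rw [hdeg]
          exact h4

theorem isProd_desc (Q : (Lau ℂ r)[X]) (hQ : Q.Monic) (h : IsProd Q) : ∃ T0 : Finset ℂ,
      ((∀ a e, IsAlgebraic ℚ ((Q.coeff a).coeff e)) → ∀ x ∈ T0, IsAlgebraic ℚ x) ∧
      ∀ (M : Type) [Field M] (ψ : M →+* ℂ) (Q2 : (Lau M r)[X]), Q2.Monic →
        Q2.map (Lm r ψ) = Q → (∀ x ∈ T0, x ∈ ψ.range) → IsProd Q2 := by
  classical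
  obtain ⟨b, hb⟩ := h
  have her : er Q 1 b = 0 := by
    unfold er
    have h1 : Q.scaleRoots 1 = Q := by
      ext j
      rw [coeff_scaleRoots, one_pow, mul_one]
    rw [h1, ← hb, sub_self]
  have hch : ∃ b' : Fin Q.natDegree → Lau ℂ r, ((∀ a e, IsAlgebraic ℚ ((Q.coeff a).coeff e)) →
      ∀ i e, IsAlgebraic ℚ ((b' i).coeff e)) ∧ er Q 1 b' = 0 := by
    by_cases halg : ∀ a e, IsAlgebraic ℚ ((Q.coeff a).coeff e)
    · obtain ⟨g', b', h1, h2, h3, h4, h5⟩ := desc_C Q hQ halg 1 b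
      refine ⟨b', fun _ => h2, ?_⟩
      rw [h4 rfl] at h5
      ext j
      have h6 := h5 j
      rw [her, coeff_zero] at h6
      have h7 : ((er Q 1 b').coeff j).coeff.support = ∅ := by
        rw [← Finset.subset_empty]
        refine h6.trans ?_
        intro e he
        simp at he
      rw [coeff_zero]
      have h8 : (er Q 1 b').coeff j = AddMonoidAlgebra.ofCoeff ((er Q 1 b').coeff j).coeff := rfl
      rw [h8, Finsupp.support_eq_empty.1 h7]
      rfl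
    · exact ⟨b, fun h => absurd h halg, her⟩
  obtain ⟨b', hal, her'⟩ := hch
  refine ⟨Finset.univ.biUnion fun i => (b' i).coeff.support.image fun e => (b' i).coeff e, ?_, ?_⟩
  · intro halg x hx
    obtain ⟨i, -, hx⟩ := Finset.mem_biUnion.1 hx
    obtain ⟨e, -, rfl⟩ := Finset.mem_image.1 hx
    exact hal halg i e
  · intro M _ ψ Q2 hQ2m hQ2 hM
    have hb2 : ∀ i : Fin Q.natDegree, ∃ b2 : Lau M r, Lm r ψ b2 = b' i := fun i =>
      Lm_lift ψ (b' i) fun e he => hM _ (Finset.mem_biUnion.2 ⟨i, Finset.mem_univ _,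
        Finset.mem_image.2 ⟨e, he, rfl⟩⟩)
    choose b2 hb2 using hb2
    have hdeg : Q2.natDegree = Q.natDegree := by
      rw [← hQ2, natDegree_map_eq_of_injective (Lm_inj ψ ψ.injective)]
    refine ⟨fun i => b2 (Fin.cast hdeg i), ?_⟩
    have h1 : er Q2 1 (fun i => b2 (Fin.cast hdeg i)) = 0 := by
      apply Polynomial.map_injective (Lm r ψ) (Lm_inj ψ ψ.injective)
      rw [er_map ψ Q2 hQ2m, hQ2, Polynomial.map_zero, map_one]
      simp only [hb2]
      have h3 : er Q 1 (fun i => b' (Fin.cast hdeg i)) = er Q 1 b' := by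
        unfold er
        congr 1
        exact prod_cast hdeg (fun i => X - Polynomial.C (b' i))
      rw [h3, her']
    unfold er at h1
    have h2 : Q2.scaleRoots 1 = Q2 := by
      ext j
      rw [coeff_scaleRoots, one_pow, mul_one]
    rw [h2] at h1
    exact sub_eq_zero.1 h1

theorem noRoot_desc {M : Type} [Field M] (ψ : M →+* ℂ) (Q : (Lau ℂ r)[X]) (Q2 : (Lau M r)[X])
    (hQ2m : Q2.Monic) (hQ2 : Q2.map (Lm r ψ) = Q) (h : NoRoot Q) : NoRoot Q2 := by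
  intro p q hq h0
  refine h (Lm r ψ p) (Lm r ψ q) (fun h1 => hq (Lm_inj ψ ψ.injective (by rw [h1, map_zero]))) ?_
  rw [← hQ2, ← map_scaleRoots _ _ _ (by
    rw [hQ2m.leadingCoeff, map_one]
    exact one_ne_zero), Polynomial.eval_map, Polynomial.eval₂_hom, h0, map_zero]

/-- the condition on the translates -/
def TameC {J : Type} (Q : J → (Lau ℂ r)[X]) : Prop :=
  ∀ s : Set J, s.Nonempty → (∀ j, NoRoot (Q j) → j ∈ s) → (∀ j ∈ s, ¬ IsProd (Q j)) → HalfSp Q s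

theorem exists_bd {k : Type} [Field k] {J : Type} [Fintype J] (Q : J → (Lau k r)[X]) :
    ∃ C1 : ℝ, 0 ≤ C1 ∧ ∀ j a, ∀ e ∈ ((Q j).coeff a).coeff.support, ∀ i, |(e i : ℝ)| ≤ C1 := by
  classical
  obtain ⟨m, hm⟩ := exists_bx (Finset.univ.biUnion fun j : J =>
    (Finset.range ((Q j).natDegree + 1)).biUnion fun a => ((Q j).coeff a).coeff.support)
  refine ⟨m, Nat.cast_nonneg _, fun j a e he i => ?_⟩
  have ha : a < (Q j).natDegree + 1 := by
    by_contra hcon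
    rw [coeff_eq_zero_of_natDegree_lt (by omega)] at he
    simp at he
  have h1 := mem_bx.1 (hm (Finset.mem_biUnion.2 ⟨j, Finset.mem_univ _, Finset.mem_biUnion.2
    ⟨a, Finset.mem_range.2 ha, he⟩⟩)) i
  rw [abs_le]
  exact ⟨by exact_mod_cast h1.1, by exact_mod_cast h1.2⟩

theorem tame_desc {J : Type} [Fintype J] (Q : J → (Lau ℂ r)[X]) (hQ : ∀ j, (Q j).Monic)
    (h : TameC Q) : ∃ T0 : Finset ℂ,
      ((∀ j a e, IsAlgebraic ℚ (((Q j).coeff a).coeff e)) → ∀ x ∈ T0, IsAlgebraic ℚ x) ∧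
      ∀ (M : Type) [Field M] (ψ : M →+* ℂ) (Q2 : J → (Lau M r)[X]),
        (∀ j, (Q2 j).Monic) → (∀ j, (Q2 j).map (Lm r ψ) = Q j) →
        (∀ x ∈ T0, x ∈ ψ.range) → TameQ Q2 := by
  classical
  obtain ⟨C1, hC1, hE⟩ := exists_bd Q
  let D2 : ℝ := ∑ j, ((Q j).natDegree : ℝ)
  have hD2 : ∀ j, ((Q j).natDegree : ℝ) ≤ D2 := fun j =>
    Finset.single_le_sum (f := fun j => ((Q j).natDegree : ℝ)) (fun _ _ => Nat.cast_nonneg _)
      (Finset.mem_univ j)
  have hD0 : 0 ≤ D2 := Finset.sum_nonneg fun _ _ => Nat.cast_nonneg _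
  have hC : (0 : ℝ) ≤ (1 + 2 ^ r) * Fintype.card J * C1 := by positivity
  have hQ2 : ∀ (M : Type) [Field M] (ψ : M →+* ℂ) (Q2 : J → (Lau M r)[X]),
      (∀ j, (Q2 j).map (Lm r ψ) = Q j) →
      (∀ j a, ∀ e ∈ ((Q2 j).coeff a).coeff.support, ∀ i, |(e i : ℝ)| ≤ C1) ∧
      ∀ j, ((Q2 j).natDegree : ℝ) ≤ D2 := by
    intro M _ ψ Q2 hQ2
    refine ⟨fun j a e he => hE j a e ?_, fun j => ?_⟩
    · rw [← hQ2, coeff_map, Lm_supp_eq ψ ψ.injective]
      exact he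
    · have h1 := hD2 j
      rw [← hQ2 j, natDegree_map_eq_of_injective (Lm_inj ψ ψ.injective)] at h1
      exact h1
  have hs : ∀ s : Set J, ∃ T0 : Finset ℂ,
      ((∀ j a e, IsAlgebraic ℚ (((Q j).coeff a).coeff e)) → ∀ x ∈ T0, IsAlgebraic ℚ x) ∧
      (s.Nonempty → (∀ j, NoRoot (Q j) → j ∈ s) → (∀ j ∈ s, ¬ IsProd (Q j)) →
        ∀ (M : Type) [Field M] (ψ : M →+* ℂ) (Q2 : J → (Lau M r)[X]),
        (∀ j, (Q2 j).Monic) → (∀ j, (Q2 j).map (Lm r ψ) = Q j) →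
        (∀ x ∈ T0, x ∈ ψ.range) →
        CovG ((1 + 2 ^ r) * Fintype.card J * C1) D2 (fun j : s => Q2 j)) := by
    intro s
    by_cases hc : s.Nonempty ∧ (∀ j, NoRoot (Q j) → j ∈ s) ∧ ∀ j ∈ s, ¬ IsProd (Q j)
    · have h1 := covG_of_half Q s (h s hc.1 hc.2.1 hc.2.2) _ D2 hC hD0
      obtain ⟨T0, hT0, hT⟩ := covG_desc (fun j : s => Q j) (fun j => hQ _) _ _ h1
      refine ⟨T0, fun halg => hT0 fun j => halg _, fun _ _ _ M _ ψ Q2 hm hQQ hx => ?_⟩
      exact hT M ψ s (fun j => j) (fun j : s => Q2 j) (fun j => hm _) (fun j => hQQ _) hx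
    · refine ⟨∅, fun _ x hx => absurd hx (Finset.notMem_empty _), fun h1 h2 h3 => ?_⟩
      exact absurd ⟨h1, h2, h3⟩ hc
  have hp : ∀ j, ∃ T0 : Finset ℂ,
      ((∀ j a e, IsAlgebraic ℚ (((Q j).coeff a).coeff e)) → ∀ x ∈ T0, IsAlgebraic ℚ x) ∧
      (IsProd (Q j) → ∀ (M : Type) [Field M] (ψ : M →+* ℂ) (Q2 : (Lau M r)[X]), Q2.Monic →
        Q2.map (Lm r ψ) = Q j → (∀ x ∈ T0, x ∈ ψ.range) → IsProd Q2) := by
    intro j
    by_cases h1 : IsProd (Q j)
    · obtain ⟨T0, hT0, hT⟩ := isProd_desc (Q j) (hQ j) h1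
      exact ⟨T0, fun halg => hT0 (halg j), fun _ => hT⟩
    · exact ⟨∅, fun _ x hx => absurd hx (Finset.notMem_empty _), fun h => absurd h h1⟩
  choose T1 hT1a hT1 using hs
  choose T2 hT2a hT2 using hp
  refine ⟨Finset.univ.biUnion T1 ∪ Finset.univ.biUnion T2, fun halg x hx => ?_,
    fun M _ ψ Q2 hm hQQ hx => ?_⟩
  · rcases Finset.mem_union.1 hx with hx | hx
    · obtain ⟨j, -, hj⟩ := Finset.mem_biUnion.1 hx
      exact hT1a j halg x hj
    · obtain ⟨j, -, hj⟩ := Finset.mem_biUnion.1 hx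
      exact hT2a j halg x hj
  · obtain ⟨e1, e2⟩ := hQ2 M ψ Q2 hQQ
    refine ⟨C1, D2, hC1, e1, e2, fun s hs1 hs2 hs3 => ?_⟩
    refine hT1 s hs1 (fun j hj => hs2 j (noRoot_desc ψ (Q j) (Q2 j) (hm j) (hQQ j) hj))
      (fun j hj h1 => hs3 j hj (hT2 j h1 M ψ (Q2 j) (hm j) (hQQ j) fun x hxj => hx x ?_))
      M ψ Q2 hm hQQ fun x hxs => hx x ?_
    · exact Finset.mem_union_right _ (Finset.mem_biUnion.2 ⟨j, Finset.mem_univ _, hxj⟩)
    · exact Finset.mem_union_left _ (Finset.mem_biUnion.2 ⟨s, Finset.mem_univ _, hxs⟩)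

end Pool.Agent.H434.GM
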