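import Mathlib
import Pool.Agent.H434.N8
import Pool.Agent.H434.An2

/-!
The analytic half for covers of tori of general type.
-/

set_option autoImplicit false
set_option linter.unusedSectionVars false

open Finset Filter Metric

namespace Pool.Agent.H434.GM

open Pool.Agent.H434
open Pool.Agent.N754.LT
open NumberField IsDedekindDomain
open Pool.Agent.W235.RM Pool.Agent.H159R3.Exp Pool.Agent.H159R3.NV

/-- the condition for all translates of subtori -/
def TameAll {q n : ℕ} (M : ℕ) (P : Fin q → Polynomial (MvPolynomial (Fin n) ℂ)) : Prop :=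
  ∀ r : ℕ, 1 ≤ r → r ≤ n → ∀ (a : Fin n → Fin r → ℤ) (c : Fin n → ℂ),
    (∀ j, Pi.single j 1 ∈ Submodule.span ℤ (Set.range a)) → (∀ i, c i ≠ 0) →
    TameC fun j => pullQ M a c (P j)

/-- the polynomials over a ring -/
noncomputable def Pm {A B : Type} [CommRing A] [CommRing B] (τ : A →+* B) {n : ℕ}
    (P : Polynomial (MvPolynomial (Fin n) A)) : Polynomial (MvPolynomial (Fin n) B) :=
  P.map (MvPolynomial.map τ)

theorem Pm_eval {A B R : Type} [CommRing A] [CommRing B] [CommRing R] [Algebra B R] (τ : A →+* B)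
    {n : ℕ} (P : Polynomial (MvPolynomial (Fin n) A)) (y : Fin n → R) (x : R) :
    (Pm τ P).eval₂ (MvPolynomial.aeval y : MvPolynomial (Fin n) B →ₐ[B] R).toRingHom x =
      P.eval₂ (MvPolynomial.eval₂Hom ((algebraMap B R).comp τ) y) x := by
  unfold Pm
  rw [Polynomial.eval₂_map]
  congr 1
  apply RingHom.ext
  intro p
  show MvPolynomial.aeval y (MvPolynomial.map τ p) = _
  rw [MvPolynomial.aeval_def, MvPolynomial.eval₂_map]
  rfl

theorem const_of_integral {k B : Type} [Field k] [IsAlgClosed k] [CommRing B] [IsDomain B]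
    [Algebra k B] (x : B) (P : Polynomial k) (hP : P.Monic)
    (h : P.eval₂ (algebraMap k B) x = 0) : ∃ c : k, x = algebraMap k B c := by
  have hx : x ∈ integralClosure k B := ⟨P, hP, h⟩
  have h1 := (IsAlgClosed.algebraMap_bijective_of_isIntegral (k := k)
    (K := integralClosure k B)).2 ⟨x, hx⟩
  obtain ⟨c, hc⟩ := h1
  exact ⟨c, (congrArg Subtype.val hc).symm⟩

theorem entire_covQ {K : Type} [Field K] [NumberField K] (σ : K →+* ℂ) {ι κ : Type}
    [Finite ι] {N n q : ℕ} (F : ι → MvPolynomial (Fin N) (𝓞 K))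
    (G : κ → MvPolynomial (Fin N) (𝓞 K))
    (U : Fin n → Fin N) (J : Fin q → Fin N) (P : Fin q → Polynomial (MvPolynomial (Fin n) (𝓞 K)))
    (hP : ∀ j, (P j).Monic)
    (hU : ∀ z : Fin N → ℂ, (∀ l, MvPolynomial.eval₂ (σ.comp (algebraMap (𝓞 K) K)) z (F l) = 0) →
      ∀ i, z (U i) ≠ 0)
    (hJ : ∀ z : Fin N → ℂ, (∀ l, MvPolynomial.eval₂ (σ.comp (algebraMap (𝓞 K) K)) z (F l) = 0) →
      ∀ j, (P j).eval₂ (MvPolynomial.eval₂Hom (σ.comp (algebraMap (𝓞 K) K)) fun i => z (U i))
        (z (J j)) = 0)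
    (e : ℕ) (he : 1 ≤ e)
    (hT : TameAll e fun j => Pm (σ.comp (algebraMap (𝓞 K) K)) (P j))
    (hal : Alone σ F G (Finset.univ.image U ∪ Finset.univ.image J))
    (h : GmCurvesIn σ F G) : EntireCurvesIn σ F G := by
  classical
  intro g hg hF hnc z1 l
  by_contra hG
  let τ : 𝓞 K →+* ℂ := σ.comp (algebraMap (𝓞 K) K)
  have hgj : ∀ j, Differentiable ℂ (fun z => g z j) := fun j => (differentiable_pi.1 hg) j
  let y : Fin N → Ent := fun j => ⟨fun z => g z j, hgj j⟩
  let FC : ι → MvPolynomial (Fin N) ℂ := fun i => MvPolynomial.map τ (F i)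
  have hev' : ∀ {s : ℕ} (u : Fin s → Ent) (P : MvPolynomial (Fin s) ℂ) (z : ℂ),
      ((MvPolynomial.aeval u P : Ent) : ℂ → ℂ) z =
        MvPolynomial.eval (fun i => (u i : ℂ → ℂ) z) P := by
    intro s u P z
    let ev : Ent →ₐ[ℂ] ℂ := (Pi.evalAlgHom ℂ (fun _ : ℂ => ℂ) z).comp Ent.val
    have h1 : ev (MvPolynomial.aeval u P) = MvPolynomial.aeval (fun j => ev (u j)) P := by
      have h3 : (ev.comp (MvPolynomial.aeval u)) = MvPolynomial.aeval (fun j => ev (u j)) := by
        ext i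
        simp
      exact DFunLike.congr_fun h3 P
    have h2 : MvPolynomial.aeval (fun j => ev (u j)) P =
        MvPolynomial.eval (fun i => (u i : ℂ → ℂ) z) P := by
      rw [ae_eval]
      rfl
    rw [← h2, ← h1]
    rfl
  have hev : ∀ (P : MvPolynomial (Fin N) ℂ) (z : ℂ),
      ((MvPolynomial.aeval y P : Ent) : ℂ → ℂ) z = MvPolynomial.eval (g z) P :=
    fun P z => hev' y P z
  have hFC : ∀ i, MvPolynomial.aeval y (FC i) = 0 := by
    intro i
    apply Subtype.ext
    funext z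
    rw [hev]
    simp only [FC]
    rw [MvPolynomial.eval_map]
    exact hF z i
  have hJy : ∀ j, (Pm τ (P j)).eval₂ (MvPolynomial.aeval fun i => y (U i) :
      MvPolynomial (Fin n) ℂ →ₐ[ℂ] Ent).toRingHom (y (J j)) = 0 := by
    intro j
    apply Subtype.ext
    funext z
    let ev : Ent →+* ℂ := ((Pi.evalAlgHom ℂ (fun _ : ℂ => ℂ) z).comp Ent.val).toRingHom
    have h1 : ev ((Pm τ (P j)).eval₂ (MvPolynomial.aeval fun i => y (U i) :
      MvPolynomial (Fin n) ℂ →ₐ[ℂ] Ent).toRingHom (y (J j))) = 0 := by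
      rw [Pm_eval, Polynomial.hom_eval₂]
      have h2 := hJ (g z) (fun l => hF z l) j
      have h3 : ev.comp (MvPolynomial.eval₂Hom ((algebraMap ℂ Ent).comp τ) fun i => y (U i)) =
          MvPolynomial.eval₂Hom τ fun i => g z (U i) := by
        apply MvPolynomial.ringHom_ext
        · intro c
          rw [RingHom.comp_apply, MvPolynomial.eval₂Hom_C, MvPolynomial.eval₂Hom_C]
          rfl
        · intro i
          rw [RingHom.comp_apply, MvPolynomial.eval₂Hom_X', MvPolynomial.eval₂Hom_X']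
          rfl
      rw [h3]
      exact h2
    exact h1
  have hyU : ∀ i, ∃ u : Entˣ, (u : Ent) = y (U i) := by
    intro i
    have h0 : ∀ z, g z (U i) ≠ 0 := fun z => hU (g z) (fun l => hF z l) i
    let v : Ent := ⟨fun z => (g z (U i))⁻¹, (hgj _).inv h0⟩
    have h1 : y (U i) * v = 1 := by
      apply Subtype.ext
      funext z
      exact mul_inv_cancel₀ (h0 z)
    exact ⟨⟨y (U i), v, h1, by rw [mul_comm]; exact h1⟩, rfl⟩
  have hync : ∃ i, ∀ c : ℂ, y i ≠ algebraMap ℂ Ent c := by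
    by_contra hcon
    push Not at hcon
    obtain ⟨z, w, hzw⟩ := hnc
    apply hzw
    funext j
    obtain ⟨c, hc⟩ := hcon j
    have h1 : ∀ z, g z j = c := fun z => by
      have h2 := congrArg (fun g : Ent => (g : ℂ → ℂ) z) hc
      exact h2
    rw [h1, h1]
  have hGc : ∀ᶠ z in nhdsWithin z1 {z1}ᶜ, MvPolynomial.eval₂ τ (g z) (G l) ≠ 0 := by
    have h1 : Differentiable ℂ (fun z => MvPolynomial.eval₂ τ (g z) (G l)) := by
      have h2 : (fun z => MvPolynomial.eval₂ τ (g z) (G l)) =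
          ((MvPolynomial.aeval y (MvPolynomial.map τ (G l)) : Ent) : ℂ → ℂ) := by
        funext z
        rw [hev, MvPolynomial.eval_map]
      rw [h2]
      exact (MvPolynomial.aeval y (MvPolynomial.map τ (G l)) : Ent).2
    exact ev_ne h1 hG z1
  let 𝒰 : Ultrafilter ℂ := Ultrafilter.of (nhdsWithin z1 ({z1}ᶜ : Set ℂ))
  have h𝒰 : (𝒰 : Filter ℂ) ≤ nhdsWithin z1 ({z1}ᶜ : Set ℂ) := Ultrafilter.of_le _
  let θ : Ent →+* GC ℂ 𝒰 := (gc 𝒰).comp Ent.val.toRingHom
  have hθ : Function.Injective θ := by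
    rw [injective_iff_map_eq_zero]
    intro x hx
    by_contra hx0
    have h1 : ∀ᶠ z in (𝒰 : Filter ℂ), (x : ℂ → ℂ) z = 0 := (gc_zero 𝒰 _).1 hx
    have h2 : ∀ᶠ z in (𝒰 : Filter ℂ), (x : ℂ → ℂ) z ≠ 0 := h𝒰 ((rpN z1).rep_ne x hx0)
    obtain ⟨z, h3, h4⟩ := (h1.and h2).exists
    exact h4 h3
  -- roots of the units
  choose u hu using hyU
  choose v hv using fun i => unit_root e he (u i)
  have hPm : ∀ j, (Pm τ (P j)).Monic := fun j => (hP j).map _
  -- the alternatives
  have halt : (∃ z : Fin N → GC ℂ 𝒰,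
      (∀ l, MvPolynomial.eval₂ (θ.comp (algebraMap ℂ Ent)) z (FC l) = 0) ∧
      (∀ i ∈ Finset.univ.image U ∪ Finset.univ.image J, z i = θ (y i)) ∧
      z ≠ fun j => θ (y j)) ∨
      ∀ᶠ t in (rpN z1).G, CurveAt (rpN z1) FC y t := by
    rcases exists_datU geoN U e y v (fun _ => trivial) (fun i => by rw [hv, hu]) with
      hcon | ⟨d, -⟩
    · left
      exact const_altQ geoN (fun x P hP h => const_of_integral x P hP h) U J
        (fun j => Pm τ (P j)) hPm y FC hFC hJy hcon hync θ hθ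
    · obtain ⟨T0, -, hT0⟩ := tame_desc (fun j => pullQ e d.a d.c (Pm τ (P j)))
        (fun j => (hPm j).map _) (hT d.r d.hr d.rank_le d.a d.c d.hspan d.hc)
      refine coset_altQ geoN (rpN z1) U J he (fun j => Pm τ (P j)) hPm y (fun _ => trivial)
        FC hFC d hJy ?_ θ hθ
      refine hT0 ℂ (RingHom.id ℂ) _ (fun j => (hPm j).map _) (fun j => ?_)
        (fun x _ => ⟨x, rfl⟩)
      have h1 : Lm d.r (RingHom.id ℂ) = RingHom.id _ := by
        apply RingHom.ext
        intro p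
        apply AddMonoidAlgebra.ext
        ext e
        rw [Lm_coeff]
        rfl
      rw [h1, Polynomial.map_id]
  rcases halt with hsec | hcurve
  · have hsec2 := gc_second 𝒰 (RingHom.id ℂ) (Finset.univ.image U ∪ Finset.univ.image J) FC g hsec
    obtain ⟨z, ⟨z', hz1, hz2, hz3⟩, hz4⟩ := (hsec2.and (h𝒰 hGc)).exists
    apply hz3
    refine hal (g z) z' (fun l => hF z l) (fun l => ?_) hz2 ⟨l, hz4⟩
    have h1 := hz1 l
    simp only [FC] at h1
    rw [MvPolynomial.eval₂_map, RingHom.id_comp] at h1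
    exact h1
  · have hcurve' : ∀ᶠ z : ℂ in nhdsWithin z1 ({z1}ᶜ : Set ℂ),
        CurveAt (rpN z1) FC y (show (rpN z1).T from z) := hcurve
    obtain ⟨z, ⟨v, hv1, hv2, hv3, j0, hj0⟩, hz⟩ := (hcurve'.and hGc).exists
    have h1 := h v hv1 (fun i t ht => by
      have h2 := hv2 i t ht
      simp only [FC] at h2
      rw [MvPolynomial.eval_map] at h2
      exact h2) ⟨2, 1, two_ne_zero, one_ne_zero, fun h2 => hj0 (congrFun h2 j0)⟩ l 1 one_ne_zero
    rw [hv3] at h1
    exact hz h1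

end Pool.Agent.H434.GM
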