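import Mathlib
import Pool.Graph.R_seed8.Helper272.Arn.J5652

/-!
Root functions of several variables on convex open sets.
-/

set_option autoImplicit false
set_option linter.unusedSectionVars false
open Polynomial Set Filter Topology Metric

namespace Pool.Agent.H434.AJ

open AR.J5652 (Qf rf_eval rf_bound rf_root_near rf_Qf rf_Qf_diag rf_sep_ne rf_sep_ne_zero)

variable {r : ℕ}

/-- the total space of the root covering -/
abbrev TS (H : Set (Fin r → ℂ)) (p : (Fin r → ℂ) → ℂ[X]) := {q : H × ℂ // (p (q.1 : Fin r → ℂ)).eval q.2 = 0}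

def prj (H : Set (Fin r → ℂ)) (p : (Fin r → ℂ) → ℂ[X]) : TS H p → H := fun e => e.1.1

section
variable {H : Set (Fin r → ℂ)} {p : (Fin r → ℂ) → ℂ[X]} {d : ℕ}

theorem prj_cont : Continuous (prj H p) := continuous_fst.comp continuous_subtype_val

theorem rf_cont_eval (hp : ∀ i, Continuous fun h : H => (p h).coeff i)
    (hdeg : ∀ h ∈ H, (p h).natDegree = d) :
    Continuous fun q : H × ℂ => (p (q.1 : Fin r → ℂ)).eval q.2 := by
  have h1 : (fun q : H × ℂ => (p (q.1 : Fin r → ℂ)).eval q.2)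
      = fun q : H × ℂ => ∑ i ∈ Finset.range (d + 1), (p (q.1 : Fin r → ℂ)).coeff i * q.2 ^ i := by
    funext q
    exact rf_eval _ d (hdeg _ q.1.2) _
  rw [h1]
  refine continuous_finsetSum _ fun i _ => ?_
  exact ((hp i).comp continuous_fst).mul (continuous_snd.pow i)

theorem rf_cont_Qf (hp : ∀ i, Continuous fun h : H => (p h).coeff i) :
    Continuous fun q : H × ℂ × ℂ => Qf (p (q.1 : Fin r → ℂ)).coeff d q.2.1 q.2.2 := by
  unfold Qf
  refine continuous_finsetSum _ fun i _ => ?_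
  refine ((hp i).comp continuous_fst).mul ?_
  refine continuous_finsetSum _ fun k _ => ?_
  exact ((continuous_fst.comp continuous_snd).pow k).mul
    ((continuous_snd.comp continuous_snd).pow (i - 1 - k))

theorem rf_closedMap (hHo : IsOpen H) (hp : ∀ i, Continuous fun h : H => (p h).coeff i)
    (hdeg : ∀ h ∈ H, (p h).natDegree = d) (hne : ∀ h ∈ H, p h ≠ 0) : IsClosedMap (prj H p) := by
  have : LocallyCompactSpace H := hHo.locallyCompactSpace
  apply IsProperMap.isClosedMap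
  rw [isProperMap_iff_isCompact_preimage]
  refine ⟨prj_cont, ?_⟩
  intro K hK
  have hRcont : Continuous (fun h : H => 1 + ∑ i ∈ Finset.range d,
      ‖(p h).coeff i‖ / ‖(p h).coeff d‖) := by
    refine continuous_const.add (continuous_finsetSum _ fun i _ => ?_)
    refine (hp i).norm.div (hp d).norm ?_
    intro h
    rw [norm_ne_zero_iff]
    have h1 := leadingCoeff_ne_zero.2 (hne _ h.2)
    rwa [leadingCoeff, hdeg _ h.2] at h1
  obtain ⟨M, hM⟩ := hK.bddAbove_image hRcont.continuousOn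
  have hcl : IsClosedEmbedding (Subtype.val : TS H p → H × ℂ) :=
    (isClosed_singleton.preimage (rf_cont_eval hp hdeg)).isClosedEmbedding_subtypeVal
  have h1 : prj H p ⁻¹' K = Subtype.val ⁻¹' (K ×ˢ closedBall (0:ℂ) M) := by
    ext e
    simp only [mem_preimage, mem_prod, mem_closedBall_zero_iff]
    constructor
    · intro he
      refine ⟨he, ?_⟩
      refine (rf_bound _ d (hdeg _ e.1.1.2) (hne _ e.1.1.2) _ e.2).trans ?_
      exact hM ⟨e.1.1, he, rfl⟩
    · intro he
      exact he.1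
  rw [h1]
  exact hcl.isCompact_preimage (hK.prod (isCompact_closedBall _ _))

theorem rf_openMap (hp : ∀ i, Continuous fun h : H => (p h).coeff i)
    (hdeg : ∀ h ∈ H, (p h).natDegree = d) (hne : ∀ h ∈ H, p h ≠ 0) : IsOpenMap (prj H p) := by
  rw [isOpenMap_iff_nhds_le]
  rintro ⟨⟨h0, w0⟩, he⟩ V hV
  rw [Filter.mem_map, mem_nhds_induced] at hV
  obtain ⟨W, hW, hWV⟩ := hV
  rw [nhds_prod_eq, Filter.mem_prod_iff] at hW
  obtain ⟨U1, hU1, U2, hU2, hUW⟩ := hW
  obtain ⟨ε, hε, hball⟩ := Metric.mem_nhds_iff.1 hU2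
  have he : (p (h0 : Fin r → ℂ)).eval w0 = 0 := he
  -- the polynomial is small at w0 near h0
  have hc1 : Continuous (fun h : H => ‖(p (h : Fin r → ℂ)).eval w0‖) :=
    ((rf_cont_eval hp hdeg).comp (continuous_id.prodMk continuous_const)).norm
  have hc2 : Continuous (fun h : H => ‖(p (h : Fin r → ℂ)).coeff d‖ * ε ^ d) :=
    (hp d).norm.mul continuous_const
  have hlt : ‖(p (h0 : Fin r → ℂ)).eval w0‖ < ‖(p (h0 : Fin r → ℂ)).coeff d‖ * ε ^ d := by
    rw [he, norm_zero]
    have h1 := leadingCoeff_ne_zero.2 (hne _ h0.2)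
    rw [leadingCoeff, hdeg _ h0.2] at h1
    have := norm_pos_iff.2 h1
    positivity
  have hev : ∀ᶠ h : H in 𝓝 h0, ‖(p (h : Fin r → ℂ)).eval w0‖ < ‖(p (h : Fin r → ℂ)).coeff d‖ * ε ^ d :=
    hc1.continuousAt.eventually_lt hc2.continuousAt hlt
  show V ∈ 𝓝 h0
  filter_upwards [hev, hU1] with h h1 h2
  obtain ⟨w, hw1, hw2⟩ := rf_root_near (p h) w0 ε hε (by
    rw [leadingCoeff, hdeg _ h.2]; exact h1)
  have hmem : (⟨(h, w), hw1⟩ : TS H p) ∈ prj H p ⁻¹' V := by
    apply hWV
    show (h, w) ∈ W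
    apply hUW
    refine ⟨h2, hball ?_⟩
    show w ∈ ball w0 ε
    rw [mem_ball, dist_eq_norm]; exact hw2
  exact hmem

theorem rf_locHomeo (hp : ∀ i, Continuous fun h : H => (p h).coeff i)
    (hdeg : ∀ h ∈ H, (p h).natDegree = d) (hsep : ∀ h ∈ H, (p h).Separable) :
    IsLocalHomeomorph (prj H p) := by
  have hne : ∀ h ∈ H, p h ≠ 0 := fun h hh => rf_sep_ne_zero _ (hsep h hh)
  rw [isLocalHomeomorph_iff_isOpenEmbedding_restrict]
  rintro e₀
  -- local injectivity
  have hQ : Continuous (fun q : TS H p × TS H p =>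
      Qf (p (q.1.1.1 : Fin r → ℂ)).coeff d q.1.1.2 q.2.1.2) := by
    have h1 : Continuous (fun q : TS H p × TS H p => (q.1.1.1, q.1.1.2, q.2.1.2)) := by
      fun_prop
    exact (rf_cont_Qf (d := d) hp).comp h1
  have hQ0 : Qf (p (e₀.1.1 : Fin r → ℂ)).coeff d e₀.1.2 e₀.1.2 ≠ 0 := by
    rw [rf_Qf_diag _ d (hdeg _ e₀.1.1.2)]
    exact rf_sep_ne _ (hsep _ e₀.1.1.2) _ e₀.2
  have hev : ∀ᶠ q : TS H p × TS H p in 𝓝 (e₀, e₀),
      Qf (p (q.1.1.1 : Fin r → ℂ)).coeff d q.1.1.2 q.2.1.2 ≠ 0 :=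
    hQ.continuousAt.eventually_ne hQ0
  rw [nhds_prod_eq] at hev
  obtain ⟨U1, hU1, U2, hU2, hUW⟩ := Filter.mem_prod_iff.1 hev
  obtain ⟨U, hUsub, hUo, heU⟩ := _root_.mem_nhds_iff.1 (Filter.inter_mem hU1 hU2)
  refine ⟨U, hUo.mem_nhds heU, ?_⟩
  apply IsOpenEmbedding.of_continuous_injective_isOpenMap
  · exact prj_cont.comp continuous_subtype_val
  · rintro ⟨⟨⟨h, w⟩, hw⟩, h1⟩ ⟨⟨⟨h', w'⟩, hw'⟩, h1'⟩ heq
    have heq' : h = h' := heq
    subst heq'
    have hq : Qf (p (h : Fin r → ℂ)).coeff d w w' ≠ 0 := by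
      have : ((⟨(h, w), hw⟩ : TS H p), (⟨(h, w'), hw'⟩ : TS H p)) ∈ U1 ×ˢ U2 :=
        ⟨(hUsub h1).1, (hUsub h1').2⟩
      exact hUW this
    have h2 := rf_Qf (p h) d (hdeg _ h.2) w w'
    have hw : (p (h : Fin r → ℂ)).eval w = 0 := hw
    have hw' : (p (h : Fin r → ℂ)).eval w' = 0 := hw'
    rw [hw, hw', sub_self] at h2
    have h3 : w - w' = 0 := by
      rcases mul_eq_zero.1 h2.symm with h | h
      · exact h
      · exact absurd h hq
    have h4 : w = w' := sub_eq_zero.1 h3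
    subst h4
    rfl
  · exact (rf_openMap hp hdeg hne).domRestrict hUo

theorem rf_covering (hHo : IsOpen H) (hp : ∀ i, Continuous fun h : H => (p h).coeff i)
    (hdeg : ∀ h ∈ H, (p h).natDegree = d) (hsep : ∀ h ∈ H, (p h).Separable) :
    IsCoveringMap (prj H p) := by
  have hne : ∀ h ∈ H, p h ≠ 0 := fun h hh => rf_sep_ne_zero _ (hsep h hh)
  rw [isCoveringMap_iff_isCoveringMapOn_univ]
  apply (rf_closedMap hHo hp hdeg hne).isCoveringMapOn_of_isLocalHomeomorphOn
  · intro h _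
    have hfin : {w | (p (h : Fin r → ℂ)).IsRoot w}.Finite := Polynomial.finite_setOfPred_isRoot (hne _ h.2)
    refine Set.Finite.of_injOn (f := fun e : TS H p => e.1.2) (t := {w | (p (h : Fin r → ℂ)).IsRoot w}) ?_ ?_ hfin
    · intro e he
      have he : e.1.1 = h := he
      have := e.2
      rw [he] at this
      exact this
    · rintro ⟨⟨a, b⟩, hab⟩ he ⟨⟨a', b'⟩, hab'⟩ he' hh
      have he : a = h := he
      have he' : a' = h := he'
      have hh : b = b' := hh
      subst he; subst he'; subst hh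
      rfl
  · exact (rf_locHomeo hp hdeg hsep).isLocalHomeomorphOn.mono (subset_univ _)

end

/-- continuous root functions on a convex open set -/
theorem root_functions {H : Set (Fin r → ℂ)} (hHo : IsOpen H) (hHc : Convex ℝ H) (d : ℕ)
    (p : (Fin r → ℂ) → ℂ[X]) (hp : ∀ i, ContinuousOn (fun h => (p h).coeff i) H)
    (hdeg : ∀ h ∈ H, (p h).natDegree = d) (hsep : ∀ h ∈ H, (p h).Separable) :
    ∃ α : Fin d → (Fin r → ℂ) → ℂ, (∀ j, ContinuousOn (α j) H) ∧
      (∀ h ∈ H, Function.Injective fun j => α j h) ∧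
      (∀ h ∈ H, ∀ w, (p h).eval w = 0 ↔ ∃ j, w = α j h) := by
  classical
  rcases H.eq_empty_or_nonempty with hHe | hHne
  · subst hHe
    exact ⟨fun j _ => 0, fun j => continuousOn_empty _, fun h hh => absurd hh (notMem_empty h),
      fun h hh => absurd hh (notMem_empty h)⟩
  have hne : ∀ h ∈ H, p h ≠ 0 := fun h hh => rf_sep_ne_zero _ (hsep h hh)
  have hpc : ∀ i, Continuous fun h : H => (p h).coeff i := fun i =>
    continuousOn_iff_continuous_domRestrict.1 (hp i)
  have cov : IsCoveringMap (prj H p) := rf_covering hHo hpc hdeg hsep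
  have : ContractibleSpace H := hHc.contractibleSpace hHne
  have : LocallyPathConnectedSpace H := hHo.locallyPathConnectedSpace
  have : PreconnectedSpace H := Subtype.preconnectedSpace hHc.isPreconnected
  obtain ⟨hs, hhs⟩ := hHne
  -- roots at the base point
  have hroots : ∀ h ∈ H, (p h).roots.toFinset.card = d := by
    intro h hh
    rw [Multiset.toFinset_card_of_nodup (nodup_roots (hsep h hh)),
      ← (IsAlgClosed.splits (p h)).natDegree_eq_card_roots, hdeg h hh]
  have hmem : ∀ h ∈ H, ∀ w, w ∈ (p h).roots.toFinset ↔ (p h).eval w = 0 := by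
    intro h hh w
    rw [Multiset.mem_toFinset, mem_roots (hne h hh)]; rfl
  let ee : Fin d ≃ (p hs).roots.toFinset := (Finset.equivFinOfCardEq (hroots hs hhs)).symm
  have hee : ∀ j, (p hs).eval (ee j : ℂ) = 0 := fun j => (hmem hs hhs _).1 (ee j).2
  have hex : ∀ j : Fin d, ∃ F : C(H, TS H p), F ⟨hs, hhs⟩ = ⟨(⟨hs, hhs⟩, (ee j : ℂ)), hee j⟩ ∧
      prj H p ∘ F = (ContinuousMap.id H) := by
    intro j
    obtain ⟨F, hF, -⟩ := cov.existsUnique_continuousMap_lifts (ContinuousMap.id H) ⟨hs, hhs⟩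
      ⟨(⟨hs, hhs⟩, (ee j : ℂ)), hee j⟩ rfl
    exact ⟨F, hF⟩
  choose F hF1 hF2 using hex
  have hF3 : ∀ j (h : H), (F j h).1.1 = h := fun j h => congrFun (hF2 j) h
  let α : Fin d → (Fin r → ℂ) → ℂ := fun j h => if hh : h ∈ H then (F j ⟨h, hh⟩).1.2 else 0
  have hα : ∀ j (h : H), α j h = (F j h).1.2 := by
    intro j h
    show (if hh : (h : Fin r → ℂ) ∈ H then (F j ⟨h, hh⟩).1.2 else 0) = _
    rw [dif_pos h.2]
  have hαroot : ∀ j, ∀ h ∈ H, (p h).eval (α j h) = 0 := by
    intro j h hh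
    have h1 := (F j ⟨h, hh⟩).2
    rw [hF3] at h1
    rw [hα j ⟨h, hh⟩]
    exact h1
  have hαinj : ∀ h ∈ H, Function.Injective fun j => α j h := by
    intro h hh i j hij
    have hij : α i h = α j h := hij
    have h1 : F i ⟨h, hh⟩ = F j ⟨h, hh⟩ := by
      apply Subtype.ext
      apply Prod.ext
      · rw [hF3, hF3]
      · rw [← hα i ⟨h, hh⟩, ← hα j ⟨h, hh⟩]; exact hij
    have h2 : (F i : H → TS H p) = F j :=
      cov.eq_of_comp_eq (F i).continuous (F j).continuous ((hF2 i).trans (hF2 j).symm) ⟨h, hh⟩ h1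
    have h3 : F i ⟨hs, hhs⟩ = F j ⟨hs, hhs⟩ := congrFun h2 _
    rw [hF1, hF1] at h3
    have h4 : (ee i : ℂ) = ee j := congrArg (fun e : TS H p => e.1.2) h3
    exact ee.injective (Subtype.ext h4)
  have hαcont : ∀ j, ContinuousOn (α j) H := by
    intro j
    rw [continuousOn_iff_continuous_domRestrict]
    have h1 : Set.domRestrict H (α j) = fun h : H => (F j h).1.2 := by
      funext h; exact hα j h
    rw [h1]
    exact continuous_snd.comp (continuous_subtype_val.comp (F j).continuous)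
  refine ⟨α, hαcont, hαinj, ?_⟩
  intro h hh w
  constructor
  · intro hw
    have himg : Finset.univ.image (fun j => α j h) = (p h).roots.toFinset := by
      apply Finset.eq_of_subset_of_card_le
      · intro x hx
        obtain ⟨j, -, rfl⟩ := Finset.mem_image.1 hx
        exact (hmem h hh _).2 (hαroot j h hh)
      · rw [hroots h hh, Finset.card_image_of_injective _ (hαinj h hh)]
        simp
    have : w ∈ Finset.univ.image (fun j => α j h) := by
      rw [himg]; exact (hmem h hh w).2 hw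
    obtain ⟨j, -, hj⟩ := Finset.mem_image.1 this
    exact ⟨j, hj.symm⟩
  · rintro ⟨j, rfl⟩
    exact hαroot j h hh

/-- a continuous root is one of the root functions -/
theorem root_unique {T : Set (Fin r → ℂ)} (hT : IsPreconnected T) (hne : T.Nonempty) (d : ℕ)
    (p : (Fin r → ℂ) → ℂ[X]) (α : Fin d → (Fin r → ℂ) → ℂ) (hα : ∀ j, ContinuousOn (α j) T)
    (hinj : ∀ h ∈ T, Function.Injective fun j => α j h)
    (hroot : ∀ h ∈ T, ∀ w, (p h).eval w = 0 ↔ ∃ j, w = α j h) (β : (Fin r → ℂ) → ℂ)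
    (hβ : ContinuousOn β T) (hβr : ∀ h ∈ T, (p h).eval (β h) = 0) :
    ∃ j, ∀ h ∈ T, β h = α j h := by
  classical
  have : PreconnectedSpace T := Subtype.preconnectedSpace hT
  have hβ' : Continuous (fun x : T => β x) := continuousOn_iff_continuous_domRestrict.1 hβ
  have hα' : ∀ j, Continuous (fun x : T => α j x) := fun j =>
    continuousOn_iff_continuous_domRestrict.1 (hα j)
  have hcl : ∀ j, IsClosed {x : T | β x = α j x} := fun j => isClosed_eq hβ' (hα' j)
  have hop : ∀ j, IsOpen {x : T | β x = α j x} := by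
    intro j
    have h1 : {x : T | β x = α j x}ᶜ = ⋃ i ∈ (Finset.univ.erase j : Finset (Fin d)),
        {x : T | β x = α i x} := by
      ext x
      simp only [mem_compl_iff, mem_ofPred_eq, mem_iUnion, Finset.mem_erase, Finset.mem_univ,
        and_true, exists_prop]
      constructor
      · intro hx
        obtain ⟨i, hi⟩ := (hroot x x.2 _).1 (hβr x x.2)
        refine ⟨i, ?_, hi⟩
        rintro rfl
        exact hx hi
      · rintro ⟨i, hij, hi⟩ hx
        apply hij
        exact hinj x x.2 (hi.symm.trans hx)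
    rw [← isClosed_compl_iff, h1]
    exact Set.Finite.isClosed_biUnion (Finset.finite_toSet _) fun i _ => hcl i
  obtain ⟨t0, ht0⟩ := hne
  obtain ⟨j, hj⟩ := (hroot t0 ht0 _).1 (hβr t0 ht0)
  have huniv : {x : T | β x = α j x} = univ :=
    IsClopen.eq_univ ⟨hcl j, hop j⟩ ⟨⟨t0, ht0⟩, hj⟩
  refine ⟨j, fun h hh => ?_⟩
  have : (⟨h, hh⟩ : T) ∈ {x : T | β x = α j x} := by rw [huniv]; trivial
  exact this

end Pool.Agent.H434.AJ

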