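import Mathlib
import Pool.Agent.H434.N5
import Pool.Graph.R_pool_sql_team_seeded_b3bd081e.H734R3.Fib.Picard

/-!
Expansions of periodic functions of several variables in an integral direction.
-/

set_option autoImplicit false
set_option linter.unusedSectionVars false

open Metric Set Filter Topology Complex

namespace Pool.Agent.H434.AJ

open Pool.Agent.H434.GM (sz)

variable {r : ℕ}

theorem sz_add_le (x y : Fin r → ℝ) : sz (fun i => x i + y i) ≤ sz x + sz y := by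
  unfold sz
  rw [← Finset.sum_add_distrib]
  exact Finset.sum_le_sum fun i _ => abs_add_le _ _

theorem sz_mul (c : ℝ) (x : Fin r → ℝ) : sz (fun i => c * x i) = |c| * sz x := by
  unfold sz
  rw [Finset.mul_sum]
  exact Finset.sum_congr rfl fun i _ => abs_mul _ _

theorem sz_nn (x : Fin r → ℝ) : 0 ≤ sz x := Finset.sum_nonneg fun _ _ => abs_nonneg _

/-- the real parts -/
def rv (w : Fin r → ℂ) : Fin r → ℝ := fun i => (w i).re

/-- a periodic function on a tube domain which contains the rays with direction `L` -/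
structure ED (r : ℕ) where
  Ω : Set (Fin r → ℝ)
  L : Fin r → ℤ
  hL : ∀ x ∈ Ω, ∀ τ : ℝ, 0 ≤ τ → (fun i => x i + τ * L i) ∈ Ω
  T : ℝ
  hT0 : 0 ≤ T
  hT : ∀ (x : Fin r → ℝ) (τ : ℝ), T * (1 + sz x) ≤ τ → (fun i => x i + τ * L i) ∈ Ω
  β : (Fin r → ℂ) → ℂ
  hβ : ∀ w v : Fin r → ℂ, DifferentiableOn ℂ (fun ζ : ℂ => β (fun i => w i + ζ * v i))
    {ζ | rv (fun i => w i + ζ * v i) ∈ Ω}
  hper : ∀ (w : Fin r → ℂ) (m : Fin r → ℤ), β (fun i => w i + 2 * Real.pi * I * m i) = β w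
  C : ℝ
  κ : ℝ
  hC : 0 ≤ C
  hκ : 0 ≤ κ
  hgr : ∀ w : Fin r → ℂ, rv w ∈ Ω → ‖β w‖ ≤ C * Real.exp (κ * sz (rv w))
  K0 : ℕ
  hK0 : κ * sz (fun i => (L i : ℝ)) ≤ K0

namespace ED

variable (D : ED r)

/-- the function of `u = exp(-τ)` on the line with direction `L` -/
noncomputable def Hf (w : Fin r → ℂ) (u : ℂ) : ℂ :=
  u ^ D.K0 * D.β (fun i => w i - log u * D.L i)

noncomputable def Hh (w : Fin r → ℂ) : ℂ → ℂ :=
  Function.update (D.Hf w) 0 (limUnder (𝓝[≠] 0) (D.Hf w))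

/-- the bound -/
noncomputable def Bd (w : Fin r → ℂ) (θ : ℝ) : ℝ :=
  D.C * Real.exp (D.κ * sz (rv w) + |θ| * (D.K0 + D.κ * sz (fun i => (D.L i : ℝ))))

theorem Bd_nonneg (w : Fin r → ℂ) (θ : ℝ) : 0 ≤ D.Bd w θ := mul_nonneg D.hC (Real.exp_pos _).le

theorem mem_of (w : Fin r → ℂ) (θ : ℝ) (h : (fun i => (w i).re - θ * D.L i) ∈ D.Ω) (τ : ℂ)
    (hτ : τ.re ≤ θ) : rv (fun i => w i - τ * D.L i) ∈ D.Ω := by
  have h1 := D.hL _ h (θ - τ.re) (by linarith)
  have h2 : rv (fun i => w i - τ * D.L i) = fun i => ((w i).re - θ * D.L i) +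
      (θ - τ.re) * D.L i := by
    funext i
    show (w i - τ * D.L i).re = _
    rw [sub_re, mul_re, intCast_re, intCast_im]
    ring
  rw [h2]
  exact h1

theorem norm_Hf (w : Fin r → ℂ) (θ : ℝ) (h : (fun i => (w i).re - θ * D.L i) ∈ D.Ω) (u : ℂ)
    (hu : u ≠ 0) (huθ : ‖u‖ ≤ Real.exp θ) : ‖D.Hf w u‖ ≤ D.Bd w θ := by
  have hu0 : 0 < ‖u‖ := norm_pos_iff.2 hu
  have hs : Real.log ‖u‖ ≤ θ := by
    rw [Real.log_le_iff_le_exp hu0]
    exact huθ
  have hmem := D.mem_of w θ h (log u) (by rw [log_re]; exact hs)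
  have h1 := D.hgr _ hmem
  have h2 : sz (rv fun i => w i - log u * D.L i) ≤
      sz (rv w) + |Real.log ‖u‖| * sz (fun i => (D.L i : ℝ)) := by
    have h3 : (rv fun i => w i - log u * D.L i) = fun i => rv w i +
        (-Real.log ‖u‖) * (D.L i : ℝ) := by
      funext i
      show (w i - log u * D.L i).re = (w i).re + _
      rw [sub_re, mul_re, intCast_re, intCast_im, log_re]
      ring
    rw [h3]
    refine (sz_add_le (rv w) (fun i => (-Real.log ‖u‖) * (D.L i : ℝ))).trans ?_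
    rw [sz_mul, abs_neg]
  have hL0 := sz_nn (fun i => (D.L i : ℝ))
  unfold Hf Bd
  rw [norm_mul, norm_pow]
  have h4 : ‖u‖ ^ D.K0 = Real.exp (D.K0 * Real.log ‖u‖) := by
    rw [mul_comm, Real.exp_mul, Real.exp_log hu0, Real.rpow_natCast]
  rw [h4]
  calc Real.exp (D.K0 * Real.log ‖u‖) * ‖D.β fun i => w i - log u * D.L i‖
      ≤ Real.exp (D.K0 * Real.log ‖u‖) * (D.C * Real.exp (D.κ * (sz (rv w) +
        |Real.log ‖u‖| * sz (fun i => (D.L i : ℝ))))) := by
        refine mul_le_mul_of_nonneg_left (h1.trans ?_) (Real.exp_pos _).le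
        refine mul_le_mul_of_nonneg_left (Real.exp_le_exp.2 ?_) D.hC
        exact mul_le_mul_of_nonneg_left h2 D.hκ
    _ = D.C * Real.exp (D.K0 * Real.log ‖u‖ + D.κ * (sz (rv w) +
        |Real.log ‖u‖| * sz (fun i => (D.L i : ℝ)))) := by
        rw [Real.exp_add]
        ring
    _ ≤ _ := by
        refine mul_le_mul_of_nonneg_left (Real.exp_le_exp.2 ?_) D.hC
        have hk := D.hK0
        have hκ := D.hκ
        have hK : (0 : ℝ) ≤ D.K0 := Nat.cast_nonneg _
        have hprod : 0 ≤ D.κ * sz (fun i => (D.L i : ℝ)) := mul_nonneg hκ hL0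
        rcases le_or_gt (Real.log ‖u‖) 0 with h5 | h5
        · rw [abs_of_nonpos h5]
          have h6 : 0 ≤ |θ| * (D.K0 + D.κ * sz (fun i => (D.L i : ℝ))) :=
            mul_nonneg (abs_nonneg _) (by linarith)
          nlinarith
        · rw [abs_of_pos h5]
          have h6 : Real.log ‖u‖ ≤ |θ| := hs.trans (le_abs_self _)
          have h7 := mul_le_mul_of_nonneg_right h6 (by linarith :
            0 ≤ D.K0 + D.κ * sz (fun i => (D.L i : ℝ)))
          nlinarith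

theorem Hf_diff (w : Fin r → ℂ) (θ : ℝ) (h : (fun i => (w i).re - θ * D.L i) ∈ D.Ω) :
    DifferentiableOn ℂ (D.Hf w) (ball 0 (Real.exp θ) \ {0}) := by
  have hG : DifferentiableOn ℂ (fun τ : ℂ => D.β (fun i => w i - τ * D.L i)) {τ | τ.re < θ} := by
    have h1 := D.hβ w (fun i => -(D.L i : ℂ))
    have h2 : (fun τ : ℂ => D.β (fun i => w i - τ * D.L i)) =
        fun ζ : ℂ => D.β (fun i => w i + ζ * -(D.L i : ℂ)) := by
      funext τ
      congr 1
      funext i
      ring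
    rw [h2]
    refine h1.mono fun τ hτ => ?_
    have h3 := D.mem_of w θ h τ (le_of_lt hτ)
    show rv (fun i => w i + τ * -(D.L i : ℂ)) ∈ D.Ω
    have h4 : (fun i => w i + τ * -(D.L i : ℂ)) = fun i => w i - τ * D.L i := by
      funext i
      ring
    rw [h4]
    exact h3
  obtain ⟨F, hF1, hF2⟩ := Pool.Agent.H734R3.Fib.descend θ 1 one_pos _ hG (by
    intro τ _
    have h1 := D.hper (fun i => w i - τ * D.L i) (fun i => -D.L i)
    rw [← h1]
    congr 1
    funext i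
    push_cast
    ring)
  rw [Nat.cast_one, div_one] at hF1
  have hp : DifferentiableOn ℂ (fun u : ℂ => u ^ D.K0) (ball 0 (Real.exp θ) \ {0}) := by fun_prop
  refine (hp.mul hF1).congr fun u hu => ?_
  have hu0 : u ≠ 0 := hu.2
  have hur : ‖u‖ < Real.exp θ := by simpa using hu.1
  have h1 := hF2 (log u) (by
    rw [log_re, Real.log_lt_iff_lt_exp (norm_pos_iff.2 hu0)]
    exact hur)
  rw [Nat.cast_one, div_one, exp_log hu0] at h1
  show u ^ D.K0 * _ = u ^ D.K0 * F u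
  rw [h1]

theorem Hh_diff (w : Fin r → ℂ) (θ : ℝ) (h : (fun i => (w i).re - θ * D.L i) ∈ D.Ω) :
    DifferentiableOn ℂ (D.Hh w) (ball 0 (Real.exp θ)) := by
  refine Complex.differentiableOn_update_limUnder_of_bddAbove
    (ball_mem_nhds (0:ℂ) (Real.exp_pos θ)) (D.Hf_diff w θ h) ?_
  refine ⟨D.Bd w θ, ?_⟩
  rintro _ ⟨u, hu, rfl⟩
  have hu0 : u ≠ 0 := hu.2
  have hur : ‖u‖ < Real.exp θ := by simpa using hu.1
  exact D.norm_Hf w θ h u hu0 hur.le

theorem Hh_of_ne (w : Fin r → ℂ) {u : ℂ} (hu : u ≠ 0) : D.Hh w u = D.Hf w u :=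
  Function.update_of_ne hu _ _

/-- the coefficients of the expansion -/
noncomputable def a (k : ℕ) (w : Fin r → ℂ) : ℂ :=
  ((k.factorial : ℂ))⁻¹ * iteratedDeriv k (D.Hh w) 0

theorem norm_a (w : Fin r → ℂ) (θ : ℝ) (h : (fun i => (w i).re - θ * D.L i) ∈ D.Ω) (k : ℕ) :
    ‖D.a k w‖ ≤ D.Bd w θ * Real.exp (1 - θ) ^ k := by
  have hR : 0 < Real.exp (θ - 1) := Real.exp_pos _
  have hRR : Real.exp (θ - 1) < Real.exp θ := Real.exp_lt_exp.2 (by linarith)
  have h1 : DiffContOnCl ℂ (D.Hh w) (ball 0 (Real.exp (θ - 1))) := by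
    apply DifferentiableOn.diffContOnCl
    rw [closure_ball _ hR.ne']
    exact (D.Hh_diff w θ h).mono (closedBall_subset_ball hRR)
  have h2 := Complex.norm_iteratedDeriv_le_of_forall_mem_sphere_norm_le (C := D.Bd w θ) k hR h1
    (fun z hz => by
      have hz1 : ‖z‖ = Real.exp (θ - 1) := by simpa using hz
      have hz0 : z ≠ 0 := by
        intro h0
        rw [h0, norm_zero] at hz1
        exact hR.ne hz1
      rw [D.Hh_of_ne w hz0]
      exact D.norm_Hf w θ h z hz0 (hz1.le.trans hRR.le))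
  unfold a
  rw [norm_mul, norm_inv, norm_natCast]
  have h3 : (0 : ℝ) < k.factorial := by exact_mod_cast Nat.factorial_pos k
  rw [inv_mul_le_iff₀ h3]
  refine h2.trans (le_of_eq ?_)
  have h4 : Real.exp (1 - θ) = (Real.exp (θ - 1))⁻¹ := by
    rw [← Real.exp_neg]
    congr 1
    ring
  rw [h4, inv_pow]
  field_simp

theorem tail (w : Fin r → ℂ) (θ : ℝ) (h : (fun i => (w i).re - θ * D.L i) ∈ D.Ω) (u : ℂ)
    (hu : ‖u‖ ≤ Real.exp (θ - 2)) (K : ℕ) :
    ‖D.Hh w u - ∑ k ∈ Finset.range K, D.a k w * u ^ k‖ ≤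
      2 * D.Bd w θ * (‖u‖ * Real.exp (1 - θ)) ^ K := by
  have hub : u ∈ ball (0 : ℂ) (Real.exp θ) := by
    rw [mem_ball_zero_iff]
    exact hu.trans_lt (Real.exp_lt_exp.2 (by linarith))
  have h1 := Complex.hasSum_taylorSeries_on_ball (D.Hh_diff w θ h) hub
  have h2 : HasSum (fun k => D.a k w * u ^ k) (D.Hh w u) := by
    refine h1.congr_fun ?_ |> fun h => h
    intro k
    simp only [smul_eq_mul, sub_zero, a]
    ring
  have h3 := (hasSum_nat_add_iff' K).2 h2
  set q : ℝ := ‖u‖ * Real.exp (1 - θ) with hq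
  have hq0 : 0 ≤ q := mul_nonneg (norm_nonneg _) (Real.exp_pos _).le
  have hq1 : q ≤ Real.exp (-1) := by
    have h4 := mul_le_mul_of_nonneg_right hu (Real.exp_pos (1 - θ)).le
    rw [← Real.exp_add] at h4
    refine h4.trans (le_of_eq ?_)
    congr 1
    ring
  have hq2 : q ≤ 1 / 2 := by
    refine hq1.trans ?_
    rw [Real.exp_neg, ← one_div]
    have h5 : (2 : ℝ) ≤ Real.exp 1 := by
      have := Real.add_one_le_exp (1 : ℝ)
      linarith
    exact one_div_le_one_div_of_le (by norm_num) h5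
  have hg : HasSum (fun k => D.Bd w θ * q ^ K * q ^ k) (D.Bd w θ * q ^ K * (1 - q)⁻¹) :=
    (hasSum_geometric_of_lt_one hq0 (by linarith)).mul_left _
  rw [← h3.tsum_eq]
  refine (tsum_of_norm_bounded hg fun k => ?_).trans ?_
  · rw [norm_mul, norm_pow]
    have h4 := mul_le_mul_of_nonneg_right (D.norm_a w θ h (k + K))
      (pow_nonneg (norm_nonneg u) (k + K))
    refine h4.trans (le_of_eq ?_)
    rw [hq]
    ring
  · have h5 : (1 - q)⁻¹ ≤ 2 := by
      rw [inv_le_comm₀ (by linarith) (by norm_num)]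
      linarith
    have h6 : 0 ≤ D.Bd w θ * q ^ K := mul_nonneg (D.Bd_nonneg _ _) (pow_nonneg hq0 _)
    have h7 := mul_le_mul_of_nonneg_left h5 h6
    linarith

end ED

end Pool.Agent.H434.AJ
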