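import Mathlib
import Pool.Agent.H434.O2

/-!
The coefficients of the expansion are entire periodic functions of exponential growth.
-/

set_option autoImplicit false
set_option linter.unusedSectionVars false

open Metric Set Filter Topology Complex

namespace Pool.Agent.H434.AJ

open Pool.Agent.H434.GM (sz)

variable {r : ℕ}

/-- entire periodic functions of exponential growth -/
structure Gd (r : ℕ) (f : (Fin r → ℂ) → ℂ) : Prop where
  diff : ∀ w v : Fin r → ℂ, Differentiable ℂ (fun ζ : ℂ => f (fun i => w i + ζ * v i))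
  per : ∀ (w : Fin r → ℂ) (m : Fin r → ℤ), f (fun i => w i + 2 * Real.pi * I * m i) = f w
  gr : ∃ C κ : ℝ, 0 ≤ C ∧ 0 ≤ κ ∧ ∀ w, ‖f w‖ ≤ C * Real.exp (κ * sz (rv w))

namespace ED

variable (D : ED r)

theorem a_per (k : ℕ) (w : Fin r → ℂ) (m : Fin r → ℤ) :
    D.a k (fun i => w i + 2 * Real.pi * I * m i) = D.a k w := by
  have h1 : D.Hf (fun i => w i + 2 * Real.pi * I * m i) = D.Hf w := by
    funext u
    unfold Hf
    congr 1
    rw [← D.hper (fun i => w i - log u * D.L i) m]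
    congr 1
    funext i
    ring
  unfold a Hh
  rw [h1]

theorem far (w : Fin r → ℂ) (S : ℝ) (hS : sz (rv w) ≤ S) (θ : ℝ) (hθ : θ ≤ -(D.T * (1 + S))) :
    (fun i => (w i).re - θ * D.L i) ∈ D.Ω := by
  have h1 := D.hT (rv w) (-θ) (by
    have := mul_le_mul_of_nonneg_left hS D.hT0
    linarith)
  have h2 : (fun i => (w i).re - θ * D.L i) = fun i => rv w i + -θ * D.L i := by
    funext i
    show (w i).re - _ = (w i).re + _
    ring
  rw [h2]
  exact h1

theorem a_gr (k : ℕ) : ∃ C κ : ℝ, 0 ≤ C ∧ 0 ≤ κ ∧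
    ∀ w, ‖D.a k w‖ ≤ C * Real.exp (κ * sz (rv w)) := by
  set A : ℝ := D.K0 + D.κ * sz (fun i => (D.L i : ℝ)) with hA
  have hA0 : 0 ≤ A := add_nonneg (Nat.cast_nonneg _) (mul_nonneg D.hκ (sz_nn _))
  have hT0 := D.hT0
  refine ⟨D.C * Real.exp (D.T * A + k * (1 + D.T)), D.κ + D.T * A + k * D.T,
    mul_nonneg D.hC (Real.exp_pos _).le, ?_, fun w => ?_⟩
  · have := D.hκ
    positivity
  · have h1 := D.norm_a w (-(D.T * (1 + sz (rv w)))) (D.far w _ le_rfl _ le_rfl) k
    refine h1.trans (le_of_eq ?_)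
    unfold Bd
    rw [← hA, ← Real.exp_nat_mul, mul_assoc, ← Real.exp_add, mul_assoc, ← Real.exp_add]
    congr 2
    rw [abs_neg, abs_of_nonneg (mul_nonneg D.hT0 (by linarith [sz_nn (rv w)]))]
    ring

theorem sz_line (w v : Fin r → ℂ) (ρ : ℝ) (ζ : ℂ) (hζ : ‖ζ‖ ≤ ρ) :
    sz (rv fun i => w i + ζ * v i) ≤ sz (rv w) + ρ * ∑ i, ‖v i‖ := by
  unfold sz
  rw [Finset.mul_sum, ← Finset.sum_add_distrib]
  refine Finset.sum_le_sum fun i _ => ?_
  show |(w i + ζ * v i).re| ≤ |(w i).re| + _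
  rw [add_re]
  refine (abs_add_le _ _).trans ?_
  have h1 : |(ζ * v i).re| ≤ ρ * ‖v i‖ := by
    refine (abs_re_le_norm _).trans ?_
    rw [norm_mul]
    exact mul_le_mul_of_nonneg_right hζ (norm_nonneg _)
  linarith

theorem a_diff (k : ℕ) : ∀ w v : Fin r → ℂ,
    Differentiable ℂ (fun ζ : ℂ => D.a k (fun i => w i + ζ * v i)) := by
  induction k using Nat.strong_induction_on with
  | _ k ih =>
  intro w v ζ0
  set ρ : ℝ := ‖ζ0‖ + 1 with hρ
  have hρ0 : 0 < ρ := by positivity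
  let ln : ℂ → Fin r → ℂ := fun ζ i => w i + ζ * v i
  set S : ℝ := sz (rv w) + ρ * ∑ i, ‖v i‖ with hS
  have hS1 : ∀ ζ ∈ ball (0 : ℂ) ρ, sz (rv (ln ζ)) ≤ S := by
    intro ζ hζ
    exact sz_line w v ρ ζ (by simpa using (mem_ball_zero_iff.1 hζ).le)
  set θ : ℝ := -(D.T * (1 + S)) with hθ
  have hfar : ∀ ζ ∈ ball (0 : ℂ) ρ, (fun i => (ln ζ i).re - θ * D.L i) ∈ D.Ω := fun ζ hζ =>
    D.far (ln ζ) S (hS1 ζ hζ) θ le_rfl
  let u : ℕ → ℂ := fun n => exp (-(n : ℂ))
  have hu0 : ∀ n, u n ≠ 0 := fun n => exp_ne_zero _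
  have hun : ∀ n, ‖u n‖ = Real.exp (-(n : ℝ)) := by
    intro n
    simp only [u]
    rw [norm_exp, neg_re, natCast_re]
  let φ : ℕ → ℂ → ℂ := fun n ζ =>
    (D.Hh (ln ζ) (u n) - ∑ i ∈ Finset.range k, D.a i (ln ζ) * u n ^ i) / u n ^ k
  have hdiff : ∀ᶠ n : ℕ in atTop, DifferentiableOn ℂ (φ n) (ball 0 ρ) := by
    filter_upwards [eventually_ge_atTop ⌈D.T * (1 + S)⌉₊] with n hn
    have hn1 : D.T * (1 + S) ≤ n := Nat.ceil_le.1 hn
    refine DifferentiableOn.div_const (DifferentiableOn.sub ?_ ?_) _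
    · have h1 : (fun ζ => D.Hh (ln ζ) (u n)) = fun ζ => u n ^ D.K0 *
          D.β (fun i => (w i + n * D.L i) + ζ * v i) := by
        funext ζ
        rw [D.Hh_of_ne _ (hu0 n)]
        unfold Hf
        congr 2
        funext i
        have h2 : log (u n) = -(n : ℂ) := by
          simp only [u]
          rw [log_exp]
          · simp [Real.pi_pos]
          · simp [Real.pi_pos.le]
        rw [h2]
        simp only [ln]
        ring
      rw [h1]
      refine DifferentiableOn.const_mul ?_ _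
      refine (D.hβ (fun i => w i + n * D.L i) v).mono fun ζ hζ => ?_
      have h3 := D.hT (rv (ln ζ)) n (by
        have := mul_le_mul_of_nonneg_left (hS1 ζ hζ) D.hT0
        linarith)
      have h4 : rv (fun i => (w i + n * D.L i) + ζ * v i) = fun i => rv (ln ζ) i + n * D.L i := by
        funext i
        show ((w i + n * D.L i) + ζ * v i).re = (w i + ζ * v i).re + _
        simp only [add_re, mul_re, natCast_re, intCast_re, natCast_im, intCast_im]
        ring
      show rv (fun i => (w i + n * D.L i) + ζ * v i) ∈ D.Ω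
      rw [h4]
      exact h3
    · refine DifferentiableOn.fun_sum fun i hi => ?_
      refine DifferentiableOn.mul_const ?_ _
      exact (ih i (Finset.mem_range.1 hi) w v).differentiableOn
  have hlim : TendstoUniformlyOn φ (fun ζ => D.a k (ln ζ)) atTop (ball 0 ρ) := by
    rw [Metric.tendstoUniformlyOn_iff]
    intro ε hε
    set A : ℝ := D.K0 + D.κ * sz (fun i => (D.L i : ℝ)) with hA
    have hA0 : 0 ≤ A := add_nonneg (Nat.cast_nonneg _) (mul_nonneg D.hκ (sz_nn _))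
    let B : ℝ := D.C * Real.exp (D.κ * S + |θ| * A)
    have hB : ∀ ζ ∈ ball (0 : ℂ) ρ, D.Bd (ln ζ) θ ≤ B := by
      intro ζ hζ
      unfold Bd
      rw [← hA]
      refine mul_le_mul_of_nonneg_left (Real.exp_le_exp.2 ?_) D.hC
      have := mul_le_mul_of_nonneg_left (hS1 ζ hζ) D.hκ
      linarith
    have hB0 : 0 ≤ B := mul_nonneg D.hC (Real.exp_pos _).le
    have ht : Tendsto (fun n : ℕ => 2 * B * Real.exp (1 - θ) ^ (k + 1) * Real.exp (-(n : ℝ)))
        atTop (𝓝 (2 * B * Real.exp (1 - θ) ^ (k + 1) * 0)) := by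
      refine Tendsto.const_mul _ ?_
      exact Real.tendsto_exp_neg_atTop_nhds_zero.comp tendsto_natCast_atTop_atTop
    rw [mul_zero] at ht
    filter_upwards [ht.eventually (gt_mem_nhds hε), eventually_ge_atTop ⌈2 - θ⌉₊] with n h1 h2 ζ hζ
    have h2' : 2 - θ ≤ n := Nat.ceil_le.1 h2
    have h3 := D.tail (ln ζ) θ (hfar ζ hζ) (u n) (by
      rw [hun]
      exact Real.exp_le_exp.2 (by linarith)) (k + 1)
    rw [dist_eq_norm, ← norm_neg, neg_sub]
    have h4 : φ n ζ - D.a k (ln ζ) = (D.Hh (ln ζ) (u n) -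
        ∑ i ∈ Finset.range (k + 1), D.a i (ln ζ) * u n ^ i) / u n ^ k := by
      simp only [φ]
      rw [Finset.sum_range_succ]
      have := pow_ne_zero k (hu0 n)
      field_simp
      ring
    rw [h4, norm_div, norm_pow, div_lt_iff₀ (pow_pos (norm_pos_iff.2 (hu0 n)) k)]
    refine h3.trans_lt ?_
    have h5 : 0 < ‖u n‖ ^ k := pow_pos (norm_pos_iff.2 (hu0 n)) k
    have h6 : 2 * D.Bd (ln ζ) θ * (‖u n‖ * Real.exp (1 - θ)) ^ (k + 1) ≤
        (2 * B * Real.exp (1 - θ) ^ (k + 1) * Real.exp (-(n : ℝ))) * ‖u n‖ ^ k := by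
      rw [← hun, mul_pow, pow_succ ‖u n‖ k]
      have h7 : 0 ≤ ‖u n‖ ^ k * ‖u n‖ * Real.exp (1 - θ) ^ (k + 1) := by positivity
      have h8 := mul_le_mul_of_nonneg_right (hB ζ hζ) h7
      nlinarith
    exact h6.trans_lt (mul_lt_mul_of_pos_right h1 h5)
  have h1 := hlim.tendstoLocallyUniformlyOn.differentiableOn hdiff isOpen_ball
  exact (h1 ζ0 (by
    rw [mem_ball_zero_iff]
    linarith)).differentiableAt (isOpen_ball.mem_nhds (by
      rw [mem_ball_zero_iff]
      linarith))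

theorem a_good (k : ℕ) : Gd r (D.a k) := ⟨D.a_diff k, D.a_per k, D.a_gr k⟩

end ED

end Pool.Agent.H434.AJ
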