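import Mathlib
import Pool.Agent.H434.O3

/-!
Entire periodic functions of exponential growth are Laurent polynomials in the exponentials.
-/

set_option autoImplicit false
set_option linter.unusedSectionVars false

open Metric Set Filter Topology Complex

namespace Pool.Agent.H434.AJ

open Pool.Agent.H434.GM (sz)

/-- coefficients of the interpolation -/
noncomputable def cof (N j m : ℕ) : ℂ :=
  (Lagrange.basis (Finset.range (2 * N + 1)) (fun m : ℕ => exp (m : ℂ)) m).coeff j *
    exp (m : ℂ) ^ N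

theorem ev1 (g : ℂ → ℂ) (hg : Differentiable ℂ g) (hper : ∀ z, g (z + 2 * Real.pi * I) = g z)
    (N : ℕ) (C : ℝ) (hC : 0 ≤ C) (hgr : ∀ z, ‖g z‖ ≤ C * Real.exp (N * |z.re|)) (z : ℂ) :
    g z * exp z ^ N = ∑ j ∈ Finset.range (2 * N + 1),
      (∑ m ∈ Finset.range (2 * N + 1), cof N j m * g m) * exp z ^ j := by
  classical
  let P : ℂ → ℂ := fun u => u ^ N * g (log u)
  have hdesc : ∀ c₀ : ℝ, ∃ F : ℂ → ℂ, DifferentiableOn ℂ F (ball 0 (Real.exp c₀) \ {0}) ∧
      ∀ w : ℂ, w.re < c₀ → F (exp w) = g w := by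
    intro c₀
    obtain ⟨F, h1, h2⟩ := Pool.Agent.H734R3.Fib.descend c₀ 1 one_pos g hg.differentiableOn
      (fun w _ => by
        rw [Nat.cast_one, mul_one]
        exact hper w)
    refine ⟨F, ?_, fun w hw => ?_⟩
    · rw [Nat.cast_one, div_one] at h1
      exact h1
    · have h3 := h2 w hw
      rw [Nat.cast_one, div_one] at h3
      exact h3
  have hlogexp : ∀ w : ℂ, g (log (exp w)) = g w := by
    intro w
    obtain ⟨F, -, h2⟩ := hdesc (w.re + 1)
    rw [← h2 w (by linarith), ← h2 (log (exp w)) (by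
      rw [log_re, norm_exp, Real.log_exp]
      linarith), exp_log (exp_ne_zero w)]
  have hPd : ∀ c₀ : ℝ, DifferentiableOn ℂ P (ball 0 (Real.exp c₀) \ {0}) := by
    intro c₀
    obtain ⟨F, h1, h2⟩ := hdesc c₀
    have hp : DifferentiableOn ℂ (fun u : ℂ => u ^ N) (ball 0 (Real.exp c₀) \ {0}) := by fun_prop
    refine (hp.mul h1).congr fun u hu => ?_
    have hu0 : u ≠ 0 := hu.2
    have hur : ‖u‖ < Real.exp c₀ := by simpa using hu.1
    have h3 := h2 (log u) (by
      rw [log_re, Real.log_lt_iff_lt_exp (norm_pos_iff.2 hu0)]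
      exact hur)
    rw [exp_log hu0] at h3
    show u ^ N * g (log u) = u ^ N * F u
    rw [h3]
  have hPb : ∀ (R : ℝ) (u : ℂ), 1 ≤ R → u ≠ 0 → ‖u‖ ≤ R → ‖P u‖ ≤ C * R ^ (2 * N) := by
    intro R u hR hu huR
    have hu0 : 0 < ‖u‖ := norm_pos_iff.2 hu
    have h1 := hgr (log u)
    rw [log_re] at h1
    show ‖u ^ N * g (log u)‖ ≤ _
    rw [norm_mul, norm_pow]
    have h4 : ‖u‖ ^ N = Real.exp (N * Real.log ‖u‖) := by
      rw [mul_comm, Real.exp_mul, Real.exp_log hu0, Real.rpow_natCast]
    have h5 : ‖u‖ ^ N * ‖g (log u)‖ ≤ C * Real.exp (N * Real.log ‖u‖ + N * |Real.log ‖u‖|) := by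
      rw [h4, Real.exp_add]
      have := mul_le_mul_of_nonneg_left h1 (Real.exp_pos (N * Real.log ‖u‖)).le
      linarith
    refine h5.trans (mul_le_mul_of_nonneg_left ?_ hC)
    have hR0 : 0 < R := by linarith
    have h6 : R ^ (2 * N) = Real.exp ((2 * N : ℕ) * Real.log R) := by
      rw [mul_comm ((2 * N : ℕ) : ℝ), Real.exp_mul, Real.exp_log hR0, Real.rpow_natCast]
    rw [h6, Real.exp_le_exp]
    have hlR : 0 ≤ Real.log R := Real.log_nonneg hR
    have hN : (0 : ℝ) ≤ N := Nat.cast_nonneg _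
    push_cast
    rcases le_or_gt (Real.log ‖u‖) 0 with h7 | h7
    · rw [abs_of_nonpos h7]
      have : 0 ≤ (N : ℝ) * Real.log R := mul_nonneg hN hlR
      nlinarith
    · rw [abs_of_pos h7]
      have h8 : Real.log ‖u‖ ≤ Real.log R := Real.log_le_log hu0 huR
      have := mul_le_mul_of_nonneg_left h8 hN
      nlinarith
  let Q : ℂ → ℂ := Function.update P 0 (limUnder (𝓝[≠] 0) P)
  have hQP : ∀ u, u ≠ 0 → Q u = P u := fun u hu => Function.update_of_ne hu _ _
  have hQd : ∀ c₀ : ℝ, DifferentiableOn ℂ Q (ball 0 (Real.exp c₀)) := by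
    intro c₀
    refine Complex.differentiableOn_update_limUnder_of_bddAbove
      (ball_mem_nhds (0:ℂ) (Real.exp_pos c₀)) (hPd c₀) ?_
    refine ⟨C * (max 1 (Real.exp c₀)) ^ (2 * N), ?_⟩
    rintro _ ⟨u, hu, rfl⟩
    have hur : ‖u‖ < Real.exp c₀ := by simpa using hu.1
    exact hPb _ u (le_max_left _ _) hu.2 (hur.le.trans (le_max_right _ _))
  have hQdiff : Differentiable ℂ Q := by
    intro u
    have h1 : u ∈ ball (0 : ℂ) (Real.exp (‖u‖)) := by
      rw [mem_ball_zero_iff]
      have := Real.add_one_le_exp ‖u‖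
      linarith
    exact (hQd ‖u‖ u h1).differentiableAt (isOpen_ball.mem_nhds h1)
  have hder : ∀ n, 2 * N < n → iteratedDeriv n Q 0 = 0 := by
    intro n hn
    have h1 : ∀ R : ℝ, 1 ≤ R → ‖iteratedDeriv n Q 0‖ ≤ n.factorial * C * R⁻¹ := by
      intro R hR
      have hR0 : 0 < R := by linarith
      have h2 := Complex.norm_iteratedDeriv_le_of_forall_mem_sphere_norm_le
        (C := C * R ^ (2 * N)) n hR0 hQdiff.diffContOnCl (c := 0) (fun z hz => by
          have hz1 : ‖z‖ = R := by simpa using hz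
          have hz0 : z ≠ 0 := by
            intro h0
            rw [h0, norm_zero] at hz1
            linarith
          rw [hQP z hz0]
          exact hPb R z hR hz0 hz1.le)
      refine h2.trans ?_
      have h3 : R ^ n = R ^ (2 * N) * R ^ (n - 2 * N) := by
        rw [← pow_add]
        congr 1
        omega
      have h4 : R ≤ R ^ (n - 2 * N) := le_self_pow₀ hR (by omega)
      have h5 : n.factorial * (C * R ^ (2 * N)) / R ^ n =
          n.factorial * C * (R ^ (n - 2 * N))⁻¹ := by
        rw [h3]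
        have := pow_pos hR0 (2 * N)
        have := pow_pos hR0 (n - 2 * N)
        field_simp
      rw [h5]
      refine mul_le_mul_of_nonneg_left ?_ (by positivity)
      exact inv_anti₀ hR0 h4
    have h2 : Tendsto (fun R : ℝ => n.factorial * C * R⁻¹) atTop (𝓝 (n.factorial * C * 0)) :=
      tendsto_inv_atTop_zero.const_mul _
    rw [mul_zero] at h2
    have h3 : ‖iteratedDeriv n Q 0‖ ≤ 0 :=
      ge_of_tendsto h2 (by
        filter_upwards [eventually_ge_atTop (1 : ℝ)] with R hR
        exact h1 R hR)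
    exact norm_le_zero_iff.1 h3
  let p : Polynomial ℂ := ∑ n ∈ Finset.range (2 * N + 1),
    Polynomial.monomial n (((n.factorial : ℂ))⁻¹ * iteratedDeriv n Q 0)
  have hQp : ∀ u, Q u = p.eval u := by
    intro u
    have h1 : u ∈ ball (0 : ℂ) (‖u‖ + 1) := by
      rw [mem_ball_zero_iff]
      linarith
    have h2 := Complex.hasSum_taylorSeries_on_ball (hQdiff.differentiableOn (s := ball 0 (‖u‖ + 1)))
      h1
    have h3 : HasSum (fun n : ℕ => ((n.factorial : ℂ))⁻¹ • (u - 0) ^ n • iteratedDeriv n Q 0)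
        (∑ n ∈ Finset.range (2 * N + 1),
          ((n.factorial : ℂ))⁻¹ • (u - 0) ^ n • iteratedDeriv n Q 0) := by
      apply hasSum_sum_of_ne_finset_zero
      intro n hn
      rw [hder n (by
        rw [Finset.mem_range] at hn
        omega), smul_zero, smul_zero]
    rw [h2.unique h3, Polynomial.eval_finsetSum]
    refine Finset.sum_congr rfl fun n _ => ?_
    rw [Polynomial.eval_monomial, sub_zero, smul_eq_mul, smul_eq_mul]
    ring
  have hdeg : p.degree < (Finset.range (2 * N + 1)).card := by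
    rw [Finset.card_range]
    refine lt_of_le_of_lt (Polynomial.degree_sum_le _ _) ?_
    rw [Finset.sup_lt_iff (by exact_mod_cast WithBot.bot_lt_coe _)]
    intro n hn
    refine lt_of_le_of_lt (Polynomial.degree_monomial_le _ _) ?_
    exact_mod_cast Finset.mem_range.1 hn
  have hinj : Set.InjOn (fun m : ℕ => exp (m : ℂ)) (Finset.range (2 * N + 1)) := by
    intro a _ b _ hab
    have h1 : ‖exp (a : ℂ)‖ = ‖exp (b : ℂ)‖ := congrArg norm hab
    rw [norm_exp, norm_exp, natCast_re, natCast_re, Real.exp_eq_exp] at h1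
    exact_mod_cast h1
  have hlag := Lagrange.eq_interpolate hinj hdeg
  have hval : ∀ m : ℕ, p.eval (exp (m : ℂ)) = exp (m : ℂ) ^ N * g m := by
    intro m
    rw [← hQp, hQP _ (exp_ne_zero _)]
    show exp (m : ℂ) ^ N * g (log (exp (m : ℂ))) = _
    rw [hlogexp]
  have hcoef : ∀ j, p.coeff j = ∑ m ∈ Finset.range (2 * N + 1), cof N j m * g m := by
    intro j
    conv_lhs => rw [hlag]
    rw [Lagrange.interpolate_apply, Polynomial.finsetSum_coeff]
    refine Finset.sum_congr rfl fun m _ => ?_
    rw [Polynomial.coeff_C_mul, hval]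
    unfold cof
    ring
  have h1 : p.eval (exp z) = exp z ^ N * g z := by
    rw [← hQp, hQP _ (exp_ne_zero _)]
    show exp z ^ N * g (log (exp z)) = _
    rw [hlogexp]
  rw [mul_comm, ← h1, Polynomial.eval_eq_sum_range' (n := 2 * N + 1) (by
    rw [Finset.card_range] at hdeg
    rcases eq_or_ne p 0 with h0 | h0
    · rw [h0, Polynomial.natDegree_zero]
      omega
    · exact (Polynomial.natDegree_lt_iff_degree_lt h0).2 hdeg)]
  exact Finset.sum_congr rfl fun j _ => by rw [hcoef]

open Pool.Agent.H434.GM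

theorem evL_apply' {k B : Type} [Field k] [CommRing B] [Algebra k B] {r : ℕ} (u : Fin r → Bˣ)
    (p : Lau k r) : evL k u p =
      ∑ e ∈ p.coeff.support, algebraMap k B (p.coeff e) * ((mz u e : Bˣ) : B) := by
  rw [evL_apply]
  exact Finset.sum_coe_sort p.coeff.support
    (fun e => algebraMap k B (p.coeff e) * ((mz u e : Bˣ) : B))

/-- the exponentials as units -/
noncomputable def ue {r : ℕ} (w : Fin r → ℂ) (i : Fin r) : ℂˣ :=
  Units.mk0 (exp (w i)) (exp_ne_zero _)

theorem mz_ue {r : ℕ} (w : Fin r → ℂ) (e : Fin r → ℤ) :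
    ((mz (ue w) e : ℂˣ) : ℂ) = ∏ i, exp (w i) ^ e i := by
  unfold mz ue
  rw [Units.coe_prod]
  exact Finset.prod_congr rfl fun i _ => by rw [Units.val_zpow_eq_zpow_val, Units.val_mk0]

theorem gd_sum {r : ℕ} {ι : Type} (s : Finset ι) (c : ι → ℂ) (f : ι → (Fin r → ℂ) → ℂ)
    (h : ∀ i ∈ s, Gd r (f i)) : Gd r (fun w => ∑ i ∈ s, c i * f i w) := by
  classical
  refine ⟨fun w v => ?_, fun w m => ?_, ?_⟩
  · refine Differentiable.fun_sum fun i hi => ?_
    exact ((h i hi).diff w v).const_mul _
  · exact Finset.sum_congr rfl fun i hi => by rw [(h i hi).per]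
  · induction s using Finset.induction_on with
    | empty => exact ⟨0, 0, le_rfl, le_rfl, fun w => by simp⟩
    | insert a s ha ih =>
      obtain ⟨C1, κ1, h1, h2, h3⟩ := ih fun i hi => h i (Finset.mem_insert_of_mem hi)
      obtain ⟨C2, κ2, h4, h5, h6⟩ := (h a (Finset.mem_insert_self _ _)).gr
      refine ⟨C1 + ‖c a‖ * C2, κ1 + κ2, by positivity, by positivity, fun w => ?_⟩
      rw [Finset.sum_insert ha]
      have hs := sz_nn (rv w)
      have e1 : Real.exp (κ1 * sz (rv w)) ≤ Real.exp ((κ1 + κ2) * sz (rv w)) := by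
        apply Real.exp_le_exp.2
        nlinarith
      have e2 : Real.exp (κ2 * sz (rv w)) ≤ Real.exp ((κ1 + κ2) * sz (rv w)) := by
        apply Real.exp_le_exp.2
        nlinarith
      have e3 := (h3 w).trans (mul_le_mul_of_nonneg_left e1 h1)
      have e4 := (h6 w).trans (mul_le_mul_of_nonneg_left e2 h4)
      have e5 := mul_le_mul_of_nonneg_left e4 (norm_nonneg (c a))
      refine (norm_add_le _ _).trans ?_
      rw [norm_mul]
      linarith

theorem gd_lau : ∀ (r : ℕ) (f : (Fin r → ℂ) → ℂ), Gd r f →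
    ∃ p : Lau ℂ r, ∀ w, f w = evL ℂ (ue w) p := by
  classical
  intro r
  induction r with
  | zero =>
    intro f _
    refine ⟨AddMonoidAlgebra.single 0 (f 0), fun w => ?_⟩
    rw [evL_single, mz_zero, Units.val_one, mul_one, Subsingleton.elim w 0]
    rfl
  | succ r ih =>
    intro f hf
    obtain ⟨C, κ, hC, hκ, hgr⟩ := hf.gr
    let N : ℕ := ⌈κ⌉₊
    have hN : κ ≤ N := Nat.le_ceil _
    let cs : ℂ → (Fin r → ℂ) → Fin (r + 1) → ℂ := fun z w => Fin.cons z w
    have hcs : ∀ (z a ζ : ℂ) (w v : Fin r → ℂ), (fun i => cs z w i + ζ * cs a v i) =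
        cs (z + ζ * a) (fun i => w i + ζ * v i) := by
      intro z a ζ w v
      funext i
      refine Fin.cases ?_ (fun i => ?_) i
      · simp [cs]
      · simp [cs]
    have hsz : ∀ (z : ℂ) (w : Fin r → ℂ), sz (rv (cs z w)) = |z.re| + sz (rv w) := by
      intro z w
      unfold sz
      rw [Fin.sum_univ_succ]
      rfl
    -- the first variable
    have h1 : ∀ (w : Fin r → ℂ) (z : ℂ), f (cs z w) * exp z ^ N =
        ∑ j ∈ Finset.range (2 * N + 1),
          (∑ m ∈ Finset.range (2 * N + 1), cof N j m * f (cs m w)) * exp z ^ j := by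
      intro w z
      refine ev1 (fun z => f (cs z w)) ?_ ?_ N (C * Real.exp (κ * sz (rv w)))
        (mul_nonneg hC (Real.exp_pos _).le) ?_ z
      · have h2 := hf.diff (cs 0 w) (cs 1 0)
        have h3 : (fun ζ : ℂ => f (fun i => cs 0 w i + ζ * cs 1 0 i)) = fun z => f (cs z w) := by
          funext ζ
          rw [hcs]
          congr 2
          · ring
          · funext i
            simp
        rw [h3] at h2
        exact h2
      · intro z
        have h2 := hf.per (cs z w) (Fin.cons 1 0)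
        rw [← h2]
        congr 1
        funext i
        refine Fin.cases ?_ (fun i => ?_) i
        · simp [cs]
        · simp [cs]
      · intro z
        refine (hgr _).trans ?_
        rw [hsz, mul_assoc, ← Real.exp_add]
        refine mul_le_mul_of_nonneg_left (Real.exp_le_exp.2 ?_) hC
        have := mul_le_mul_of_nonneg_right hN (abs_nonneg z.re)
        linarith
    have h2 : ∀ j : ℕ, Gd r (fun w => ∑ m ∈ Finset.range (2 * N + 1),
        cof N j m * f (cs m w)) := by
      intro j
      refine gd_sum _ _ _ fun m _ => ⟨fun w v => ?_, fun w e => ?_, ?_⟩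
      · have h3 := hf.diff (cs m w) (cs 0 v)
        have h4 : (fun ζ : ℂ => f (fun i => cs m w i + ζ * cs 0 v i)) =
            fun ζ => f (cs m fun i => w i + ζ * v i) := by
          funext ζ
          rw [hcs, mul_zero, add_zero]
        rw [h4] at h3
        exact h3
      · have h3 := hf.per (cs m w) (Fin.cons 0 e)
        rw [← h3]
        congr 1
        funext i
        refine Fin.cases ?_ (fun i => ?_) i
        · simp [cs]
        · simp [cs]
      · refine ⟨C * Real.exp (κ * m), κ, mul_nonneg hC (Real.exp_pos _).le, hκ, fun w => ?_⟩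
        refine (hgr _).trans (le_of_eq ?_)
        rw [hsz, mul_assoc, ← Real.exp_add]
        congr 2
        rw [natCast_re, Nat.abs_cast]
        ring
    choose p hp using fun j => ih _ (h2 j)
    refine ⟨∑ j ∈ Finset.range (2 * N + 1), ∑ e ∈ (p j).coeff.support,
      AddMonoidAlgebra.single (Fin.cons ((j : ℤ) - N) e) ((p j).coeff e), fun w => ?_⟩
    have h3 : w = cs (w 0) (fun i => w i.succ) := by
      funext i
      refine Fin.cases ?_ (fun i => ?_) i
      · simp [cs]
      · simp [cs]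
    have h4 := h1 (fun i => w i.succ) (w 0)
    rw [← h3] at h4
    have h5 : f w = (∑ j ∈ Finset.range (2 * N + 1),
        evL ℂ (ue fun i => w i.succ) (p j) * exp (w 0) ^ j) * (exp (w 0) ^ N)⁻¹ := by
      have h6 := pow_ne_zero N (exp_ne_zero (w 0))
      rw [← div_eq_mul_inv, eq_div_iff h6, h4]
      exact Finset.sum_congr rfl fun j _ => by rw [hp]
    rw [h5, map_sum, Finset.sum_mul]
    refine Finset.sum_congr rfl fun j _ => ?_
    rw [map_sum, evL_apply' (ue fun i => w i.succ), Finset.sum_mul, Finset.sum_mul]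
    refine Finset.sum_congr rfl fun e _ => ?_
    rw [evL_single, mz_ue, mz_ue, Fin.prod_univ_succ]
    simp only [Fin.cons_zero, Fin.cons_succ]
    rw [zpow_sub₀ (exp_ne_zero _), zpow_natCast, zpow_natCast]
    ring

end Pool.Agent.H434.AJ
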