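import Mathlib
import Pool.Agent.H434.O4
import Pool.Agent.H434.O1

/-!
Values of Laurent polynomials at exponentials; separation of exponents; perturbation of products.
-/

set_option autoImplicit false
set_option linter.unusedSectionVars false

open Metric Set Filter Topology Complex

namespace Pool.Agent.H434.AJ

open Pool.Agent.H434.GM

variable {r : ℕ}

theorem mz_exp (w : Fin r → ℂ) (e : Fin r → ℤ) :
    ((mz (ue w) e : ℂˣ) : ℂ) = exp (∑ i, (e i : ℂ) * w i) := by
  rw [mz_ue, exp_sum]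
  exact Finset.prod_congr rfl fun i _ => by rw [exp_int_mul]

theorem norm_mz (w : Fin r → ℂ) (e : Fin r → ℤ) :
    ‖((mz (ue w) e : ℂˣ) : ℂ)‖ = Real.exp (dot e (rv w)) := by
  rw [mz_exp, norm_exp]
  congr 1
  rw [re_sum]
  unfold dot
  refine Finset.sum_congr rfl fun i _ => ?_
  rw [mul_re, intCast_re, intCast_im, zero_mul, sub_zero]
  rfl

/-- values at exponentials -/
noncomputable def ev (w : Fin r → ℂ) : Lau ℂ r →+* ℂ := (evL ℂ (ue w) : Lau ℂ r →ₐ[ℂ] ℂ)

theorem ev_apply (w : Fin r → ℂ) (p : Lau ℂ r) :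
    ev w p = ∑ e ∈ p.coeff.support, p.coeff e * ((mz (ue w) e : ℂˣ) : ℂ) := by
  show evL ℂ (ue w) p = _
  rw [evL_apply']
  rfl

theorem ev_exp (w : Fin r → ℂ) (p : Lau ℂ r) :
    ev w p = ∑ e ∈ p.coeff.support, p.coeff e * exp (∑ i, (e i : ℂ) * w i) := by
  rw [ev_apply]
  exact Finset.sum_congr rfl fun e _ => by rw [mz_exp]

theorem ev_cont (p : Lau ℂ r) : Continuous fun w : Fin r → ℂ => ev w p := by
  have h1 : (fun w : Fin r → ℂ => ev w p) =
      fun w => ∑ e ∈ p.coeff.support, p.coeff e * exp (∑ i, (e i : ℂ) * w i) :=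
    funext fun w => ev_exp w p
  rw [h1]
  fun_prop

theorem ev_diff (p : Lau ℂ r) (w v : Fin r → ℂ) :
    Differentiable ℂ fun ζ : ℂ => ev (fun i => w i + ζ * v i) p := by
  have h1 : (fun ζ : ℂ => ev (fun i => w i + ζ * v i) p) =
      fun ζ => ∑ e ∈ p.coeff.support, p.coeff e * exp (∑ i, (e i : ℂ) * (w i + ζ * v i)) :=
    funext fun ζ => ev_exp _ p
  rw [h1]
  fun_prop

theorem ue_per (w : Fin r → ℂ) (m : Fin r → ℤ) :
    ue (fun i => w i + 2 * Real.pi * I * m i) = ue w := by
  funext i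
  apply Units.ext
  show exp (w i + 2 * Real.pi * I * m i) = exp (w i)
  rw [show w i + 2 * Real.pi * I * m i = w i + m i * (2 * Real.pi * I) by ring,
    exp_periodic.int_mul (m i) (w i)]

theorem ev_per (w : Fin r → ℂ) (m : Fin r → ℤ) :
    ev (fun i => w i + 2 * Real.pi * I * m i) = ev w := by
  unfold ev
  rw [ue_per]

theorem dot_le (e : Fin r → ℤ) (E : ℝ) (hE : ∀ i, |(e i : ℝ)| ≤ E) (x : Fin r → ℝ) :
    |dot e x| ≤ E * sz x := abs_dot_le e x E hE

theorem norm_ev (p : Lau ℂ r) : ∃ C κ : ℝ, 0 ≤ C ∧ 0 ≤ κ ∧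
    ∀ w, ‖ev w p‖ ≤ C * Real.exp (κ * sz (rv w)) := by
  classical
  let E : ℝ := ∑ e ∈ p.coeff.support, ∑ i, |(e i : ℝ)|
  have hE : ∀ e ∈ p.coeff.support, ∀ i, |(e i : ℝ)| ≤ E := by
    intro e he i
    refine (Finset.single_le_sum (f := fun i => |(e i : ℝ)|) (fun _ _ => abs_nonneg _)
      (Finset.mem_univ i)).trans ?_
    exact Finset.single_le_sum (f := fun e : Fin r → ℤ => ∑ i, |(e i : ℝ)|)
      (fun _ _ => Finset.sum_nonneg fun _ _ => abs_nonneg _) he
  have hE0 : 0 ≤ E := Finset.sum_nonneg fun _ _ => Finset.sum_nonneg fun _ _ => abs_nonneg _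
  refine ⟨∑ e ∈ p.coeff.support, ‖p.coeff e‖, E, Finset.sum_nonneg fun _ _ => norm_nonneg _, hE0,
    fun w => ?_⟩
  rw [ev_apply, Finset.sum_mul]
  refine (norm_sum_le _ _).trans (Finset.sum_le_sum fun e he => ?_)
  rw [norm_mul, norm_mz]
  refine mul_le_mul_of_nonneg_left (Real.exp_le_exp.2 ?_) (norm_nonneg _)
  exact (le_abs_self _).trans (dot_le e E (hE e he) _)

/-- separation of finitely many exponents -/
theorem exists_sep (S : Finset (Fin r → ℤ)) : ∃ y : Fin r → ℂ, rv y = 0 ∧
    Set.InjOn (fun e : Fin r → ℤ => ((mz (ue y) e : ℂˣ) : ℂ)) S := by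
  classical
  -- a vector with different scalar products
  have h1 : ∃ y0 : Fin r → ℝ, ∀ e ∈ S, ∀ e' ∈ S, e ≠ e' → dot e y0 ≠ dot e' y0 := by
    let f : (Fin r → ℤ) × (Fin r → ℤ) → MvPolynomial (Fin r) ℝ := fun p =>
      ∑ i, MvPolynomial.C ((p.1 i : ℝ) - p.2 i) * MvPolynomial.X i
    have hf : ∀ p : (Fin r → ℤ) × (Fin r → ℤ), p.1 ≠ p.2 → f p ≠ 0 := by
      intro p hp h0
      apply hp
      funext i
      have h2 := congrArg (MvPolynomial.eval (Pi.single i (1 : ℝ))) h0
      simp only [f] at h2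
      rw [map_sum, Finset.sum_eq_single i] at h2
      · simp only [map_mul, MvPolynomial.eval_C, MvPolynomial.eval_X, Pi.single_eq_same, mul_one,
          map_zero] at h2
        have h3 : (p.1 i : ℝ) = p.2 i := by linarith
        exact_mod_cast h3
      · intro j _ hj
        simp [Pi.single_eq_of_ne hj]
      · intro h
        exact absurd (Finset.mem_univ _) h
    let P : MvPolynomial (Fin r) ℝ := ∏ p ∈ (S ×ˢ S).filter (fun p => p.1 ≠ p.2), f p
    have hP : P ≠ 0 := Finset.prod_ne_zero_iff.2 fun p hp => hf p (Finset.mem_filter.1 hp).2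
    have h2 : ∃ y0, MvPolynomial.eval y0 P ≠ 0 := by
      by_contra hcon
      push Not at hcon
      exact hP (MvPolynomial.funext fun y => by rw [hcon y, map_zero])
    obtain ⟨y0, hy0⟩ := h2
    refine ⟨y0, fun e he e' he' hne h3 => ?_⟩
    rw [map_prod, Finset.prod_ne_zero_iff] at hy0
    apply hy0 (e, e') (Finset.mem_filter.2 ⟨Finset.mk_mem_product he he', hne⟩)
    have h7 : MvPolynomial.eval y0 (f (e, e')) = ∑ i, ((e i : ℝ) - e' i) * y0 i := by
      simp only [f]
      rw [map_sum]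
      refine Finset.sum_congr rfl fun i _ => ?_
      rw [map_mul, MvPolynomial.eval_C, MvPolynomial.eval_X]
    rw [h7]
    unfold dot at h3
    have h4 : ∑ i, ((e i : ℝ) - e' i) * y0 i = ∑ i, (e i : ℝ) * y0 i - ∑ i, (e' i : ℝ) * y0 i := by
      rw [← Finset.sum_sub_distrib]
      exact Finset.sum_congr rfl fun i _ => by ring
    rw [h4, h3, sub_self]
  obtain ⟨y0, hy0⟩ := h1
  let B : ℝ := 1 + ∑ e ∈ S, |dot e y0|
  have hB0 : 0 < B := by
    have : 0 ≤ ∑ e ∈ S, |dot e y0| := Finset.sum_nonneg fun _ _ => abs_nonneg _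
    simp only [B]
    linarith
  have hB : ∀ e ∈ S, |dot e y0| < B := by
    intro e he
    have h2 : |dot e y0| ≤ ∑ e ∈ S, |dot e y0| :=
      Finset.single_le_sum (f := fun e => |dot e y0|) (fun _ _ => abs_nonneg _) he
    simp only [B]
    linarith
  refine ⟨fun i => ((y0 i / B : ℝ) : ℂ) * I, ?_, ?_⟩
  · funext i
    show (((y0 i / B : ℝ) : ℂ) * I).re = 0
    simp
  · intro e he e' he' hee
    by_contra hne
    have h2 : ∀ e : Fin r → ℤ, ((mz (ue fun i => ((y0 i / B : ℝ) : ℂ) * I) e : ℂˣ) : ℂ) =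
        exp (((dot e y0 / B : ℝ) : ℂ) * I) := by
      intro e
      rw [mz_exp]
      congr 1
      unfold dot
      rw [Finset.sum_div]
      push_cast
      rw [Finset.sum_mul]
      exact Finset.sum_congr rfl fun i _ => by ring
    have h3 : exp (((dot e y0 / B : ℝ) : ℂ) * I) = exp (((dot e' y0 / B : ℝ) : ℂ) * I) := by
      rw [← h2, ← h2]
      exact hee
    have h4 : ∀ e ∈ S, log (exp (((dot e y0 / B : ℝ) : ℂ) * I)) = ((dot e y0 / B : ℝ) : ℂ) * I := by
      intro e he
      have h5 : |dot e y0 / B| < 1 := by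
        rw [abs_div, abs_of_pos hB0, div_lt_one hB0]
        exact hB e he
      have h6 := abs_lt.1 h5
      have hpi := Real.pi_gt_three
      rw [log_exp]
      · simp
        linarith
      · simp
        linarith
    have h5 := congrArg log h3
    rw [h4 e he, h4 e' he'] at h5
    have h6 := congrArg Complex.im h5
    simp at h6
    apply hy0 e he e' he' hne
    field_simp at h6
    exact h6

/-- the exponents of a Laurent polynomial which is small -/
theorem supp_le (p : Lau ℂ r) (l : Fin r → ℝ) (A C R0 : ℝ)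
    (h : ∀ (R : ℝ) (w : Fin r → ℂ), R0 ≤ R → (rv w = fun i => R * l i) →
      ‖ev w p‖ ≤ C * Real.exp (-(A * R))) :
    ∀ e ∈ p.coeff.support, dot e l ≤ -A := by
  classical
  intro e0 he0
  obtain ⟨y, hy, hinj⟩ := exists_sep p.coeff.support
  let z : (Fin r → ℤ) → ℂ := fun e => ((mz (ue y) e : ℂˣ) : ℂ)
  let B : Polynomial ℂ := Lagrange.basis p.coeff.support z e0
  have key : ∀ w : Fin r → ℂ, ∑ k ∈ Finset.range (B.natDegree + 1), B.coeff k *
      ev (fun i => w i + k * y i) p = p.coeff e0 * ((mz (ue w) e0 : ℂˣ) : ℂ) := by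
    intro w
    have h1 : ∀ k : ℕ, ev (fun i => w i + k * y i) p =
        ∑ e ∈ p.coeff.support, p.coeff e * ((mz (ue w) e : ℂˣ) : ℂ) * z e ^ k := by
      intro k
      rw [ev_apply]
      refine Finset.sum_congr rfl fun e _ => ?_
      rw [mul_assoc]
      congr 1
      simp only [z]
      rw [mz_exp, mz_exp, mz_exp, ← exp_nat_mul, ← exp_add]
      congr 1
      rw [Finset.mul_sum, ← Finset.sum_add_distrib]
      exact Finset.sum_congr rfl fun i _ => by ring
    have h2 : ∑ k ∈ Finset.range (B.natDegree + 1), B.coeff k * ev (fun i => w i + k * y i) p =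
        ∑ e ∈ p.coeff.support, p.coeff e * ((mz (ue w) e : ℂˣ) : ℂ) * B.eval (z e) := by
      simp only [h1]
      simp only [Finset.mul_sum]
      rw [Finset.sum_comm]
      refine Finset.sum_congr rfl fun e _ => ?_
      rw [Polynomial.eval_eq_sum_range, Finset.mul_sum]
      exact Finset.sum_congr rfl fun k _ => by ring
    rw [h2, Finset.sum_eq_single e0]
    · rw [Lagrange.eval_basis_self hinj he0, mul_one]
    · intro e he hne
      rw [Lagrange.eval_basis_of_ne hne.symm he, mul_zero]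
    · intro h
      exact absurd he0 h
  by_contra hcon
  push Not at hcon
  have hc : 0 < ‖p.coeff e0‖ := norm_pos_iff.2 (Finsupp.mem_support_iff.1 he0)
  have hb : ∀ R : ℝ, R0 ≤ R → ‖p.coeff e0‖ * Real.exp ((dot e0 l + A) * R) ≤
      (∑ k ∈ Finset.range (B.natDegree + 1), ‖B.coeff k‖) * C := by
    intro R hR
    let w : Fin r → ℂ := fun i => ((R * l i : ℝ) : ℂ)
    have hw : rv w = fun i => R * l i := by
      funext i
      show (((R * l i : ℝ) : ℂ)).re = _
      rw [ofReal_re]
    have h1 := congrArg norm (key w)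
    rw [norm_mul, norm_mz, hw] at h1
    have h2 : dot e0 (fun i => R * l i) = R * dot e0 l := by
      unfold dot
      rw [Finset.mul_sum]
      exact Finset.sum_congr rfl fun i _ => by ring
    rw [h2] at h1
    have h3 : ‖p.coeff e0‖ * Real.exp (R * dot e0 l) ≤
        (∑ k ∈ Finset.range (B.natDegree + 1), ‖B.coeff k‖) * (C * Real.exp (-(A * R))) := by
      rw [← h1, Finset.sum_mul]
      refine (norm_sum_le _ _).trans (Finset.sum_le_sum fun k _ => ?_)
      rw [norm_mul]
      refine mul_le_mul_of_nonneg_left (h R _ hR ?_) (norm_nonneg _)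
      funext i
      show (w i + k * y i).re = _
      have h4 : (y i).re = 0 := congrFun hy i
      rw [add_re, mul_re, natCast_re, natCast_im, h4, mul_zero, zero_mul, sub_zero, add_zero]
      exact congrFun hw i
    have h4 : Real.exp ((dot e0 l + A) * R) = Real.exp (R * dot e0 l) * Real.exp (A * R) := by
      rw [← Real.exp_add]
      congr 1
      ring
    rw [h4, ← mul_assoc]
    have h5 := mul_le_mul_of_nonneg_right h3 (Real.exp_pos (A * R)).le
    refine h5.trans (le_of_eq ?_)
    rw [mul_assoc, mul_assoc, ← Real.exp_add, neg_add_cancel, Real.exp_zero, mul_one]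
  have ht : Tendsto (fun R : ℝ => ‖p.coeff e0‖ * Real.exp ((dot e0 l + A) * R)) atTop atTop := by
    refine Tendsto.const_mul_atTop hc (Real.tendsto_exp_atTop.comp ?_)
    exact tendsto_id.const_mul_atTop (by linarith)
  obtain ⟨R, h1, h2⟩ := ((ht.eventually_gt_atTop _).and (eventually_ge_atTop R0)).exists
  exact absurd (hb R h2) (not_le.2 h1)

/-- perturbation of a product of linear factors -/
theorem prod_pert {ι : Type} (s : Finset ι) (x y : ι → ℂ) (B δ : ℝ) (hB : 1 ≤ B) (hδ : 0 ≤ δ)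
    (hx : ∀ j ∈ s, 1 + ‖x j‖ ≤ B) (hy : ∀ j ∈ s, 1 + ‖y j‖ ≤ B)
    (hxy : ∀ j ∈ s, ‖x j - y j‖ ≤ δ) (i : ℕ) :
    ‖(∏ j ∈ s, (Polynomial.X - Polynomial.C (x j)) : Polynomial ℂ).coeff i‖ ≤ B ^ s.card ∧
    ‖(∏ j ∈ s, (Polynomial.X - Polynomial.C (y j)) : Polynomial ℂ).coeff i‖ ≤ B ^ s.card ∧
    ‖((∏ j ∈ s, (Polynomial.X - Polynomial.C (x j))) -
      ∏ j ∈ s, (Polynomial.X - Polynomial.C (y j)) : Polynomial ℂ).coeff i‖ ≤
        s.card * δ * B ^ s.card := by
  classical
  have hmul : ∀ (P : Polynomial ℂ) (c : ℂ) (M : ℝ), (∀ i, ‖P.coeff i‖ ≤ M) → ∀ i,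
      ‖((Polynomial.X - Polynomial.C c) * P).coeff i‖ ≤ (1 + ‖c‖) * M := by
    intro P c M hM i
    have hM0 : 0 ≤ M := (norm_nonneg _).trans (hM 0)
    rw [sub_mul, Polynomial.coeff_sub, Polynomial.coeff_C_mul]
    have h2 : ‖(Polynomial.X * P).coeff i‖ ≤ M := by
      cases i with
      | zero =>
        rw [Polynomial.coeff_X_mul_zero, norm_zero]
        exact hM0
      | succ i =>
        rw [Polynomial.coeff_X_mul]
        exact hM i
    refine (norm_sub_le _ _).trans ?_
    rw [norm_mul]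
    have h3 := mul_le_mul_of_nonneg_left (hM i) (norm_nonneg c)
    linarith
  induction s using Finset.induction_on generalizing i with
  | empty =>
    simp only [Finset.prod_empty, Finset.card_empty, pow_zero, sub_self, Polynomial.coeff_zero,
      norm_zero, Nat.cast_zero, zero_mul, le_refl, and_true]
    have h1 : ‖(1 : Polynomial ℂ).coeff i‖ ≤ 1 := by
      rw [Polynomial.coeff_one]
      split_ifs
      · simp
      · simp
    exact ⟨h1, h1⟩
  | insert a s ha ih =>
    have ih' := fun i => ih (fun j hj => hx j (Finset.mem_insert_of_mem hj))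
      (fun j hj => hy j (Finset.mem_insert_of_mem hj))
      (fun j hj => hxy j (Finset.mem_insert_of_mem hj)) i
    have hxa := hx a (Finset.mem_insert_self _ _)
    have hya := hy a (Finset.mem_insert_self _ _)
    have hda := hxy a (Finset.mem_insert_self _ _)
    have hB0 : 0 ≤ B := by linarith
    have hBs : 0 ≤ B ^ s.card := pow_nonneg hB0 _
    rw [Finset.prod_insert ha, Finset.prod_insert ha, Finset.card_insert_of_notMem ha]
    refine ⟨?_, ?_, ?_⟩
    · refine (hmul _ (x a) _ (fun i => (ih' i).1) i).trans ?_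
      rw [pow_succ, mul_comm (B ^ s.card)]
      exact mul_le_mul_of_nonneg_right hxa hBs
    · refine (hmul _ (y a) _ (fun i => (ih' i).2.1) i).trans ?_
      rw [pow_succ, mul_comm (B ^ s.card)]
      exact mul_le_mul_of_nonneg_right hya hBs
    · have h1 : (Polynomial.X - Polynomial.C (x a)) * ∏ j ∈ s, (Polynomial.X - Polynomial.C (x j)) -
          (Polynomial.X - Polynomial.C (y a)) * ∏ j ∈ s, (Polynomial.X - Polynomial.C (y j)) =
          (Polynomial.X - Polynomial.C (x a)) * ((∏ j ∈ s, (Polynomial.X - Polynomial.C (x j))) -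
            ∏ j ∈ s, (Polynomial.X - Polynomial.C (y j))) -
          Polynomial.C (x a - y a) * ∏ j ∈ s, (Polynomial.X - Polynomial.C (y j)) := by
        rw [Polynomial.C_sub]
        ring
      rw [h1, Polynomial.coeff_sub, Polynomial.coeff_C_mul]
      refine (norm_sub_le _ _).trans ?_
      have h2 := hmul _ (x a) _ (fun i => (ih' i).2.2) i
      have h3 : ‖(x a - y a) * (∏ j ∈ s, (Polynomial.X - Polynomial.C (y j)) :
          Polynomial ℂ).coeff i‖ ≤ δ * B ^ s.card := by
        rw [norm_mul]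
        exact mul_le_mul hda (ih' i).2.1 (norm_nonneg _) hδ
      have h4 : (1 + ‖x a‖) * (s.card * δ * B ^ s.card) ≤ B * (s.card * δ * B ^ s.card) :=
        mul_le_mul_of_nonneg_right hxa (by positivity)
      have h5 : δ * B ^ s.card ≤ B * (δ * B ^ s.card) :=
        le_mul_of_one_le_left (mul_nonneg hδ hBs) hB
      push_cast
      rw [pow_succ]
      nlinarith

end Pool.Agent.H434.AJ
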