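import Mathlib
import Pool.Agent.H434.O5

/-!
Roots of polynomials over the Laurent polynomials on tube domains.
-/

set_option autoImplicit false
set_option linter.unusedSectionVars false

open Metric Set Filter Topology Complex

namespace Pool.Agent.H434.AJ

open Pool.Agent.H434.GM

variable {r : ℕ}

/-- the domain in which one term of `δ` is large -/
def Dom (δ : Lau ℂ r) (e0 : Fin r → ℤ) (c : ℝ) : Set (Fin r → ℝ) :=
  {x | ∀ e ∈ δ.coeff.support, e ≠ e0 → c < dot e0 x - dot e x}

theorem dot_smul' (e : Fin r → ℤ) (c : ℝ) (x : Fin r → ℝ) :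
    dot e (fun i => c * x i) = c * dot e x := by
  unfold dot
  rw [Finset.mul_sum]
  exact Finset.sum_congr rfl fun i _ => by ring

theorem dot_add' (e : Fin r → ℤ) (x y : Fin r → ℝ) :
    dot e (fun i => x i + y i) = dot e x + dot e y := by
  unfold dot
  rw [← Finset.sum_add_distrib]
  exact Finset.sum_congr rfl fun i _ => by ring

theorem nonvan (δ : Lau ℂ r) (e0 : Fin r → ℤ) (he0 : e0 ∈ δ.coeff.support) :
    ∃ c : ℝ, 0 ≤ c ∧ ∀ w : Fin r → ℂ, rv w ∈ Dom δ e0 c → ev w δ ≠ 0 := by
  classical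
  have hd : 0 < ‖δ.coeff e0‖ := norm_pos_iff.2 (Finsupp.mem_support_iff.1 he0)
  set S : ℝ := ∑ e ∈ δ.coeff.support, ‖δ.coeff e‖ with hS
  have hS0 : 0 ≤ S := Finset.sum_nonneg fun _ _ => norm_nonneg _
  refine ⟨S / ‖δ.coeff e0‖, div_nonneg hS0 hd.le, fun w hw h0 => ?_⟩
  set c : ℝ := S / ‖δ.coeff e0‖ with hc
  rw [ev_apply, ← Finset.add_sum_erase _ _ he0] at h0
  have h1 := congrArg norm (eq_neg_of_add_eq_zero_left h0)
  rw [norm_neg, norm_mul, norm_mz] at h1
  have h2 : ‖∑ e ∈ δ.coeff.support.erase e0, δ.coeff e * ((mz (ue w) e : ℂˣ) : ℂ)‖ ≤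
      S * (Real.exp (dot e0 (rv w)) * Real.exp (-c)) := by
    refine (norm_sum_le _ _).trans ?_
    rw [hS, Finset.sum_mul]
    refine (Finset.sum_le_sum fun e he => ?_).trans (Finset.sum_le_sum_of_subset_of_nonneg
      (Finset.erase_subset _ _) fun e _ _ => by positivity)
    rw [norm_mul, norm_mz, ← Real.exp_add]
    refine mul_le_mul_of_nonneg_left (Real.exp_le_exp.2 ?_) (norm_nonneg _)
    have h3 := hw e (Finset.mem_of_mem_erase he) (Finset.ne_of_mem_erase he)
    linarith
  rw [← h1] at h2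
  have h3 : S * Real.exp (-c) < ‖δ.coeff e0‖ := by
    rw [Real.exp_neg, ← div_eq_mul_inv, div_lt_iff₀ (Real.exp_pos _)]
    have h4 : S = c * ‖δ.coeff e0‖ := by
      rw [hc]
      field_simp
    have h5 := Real.add_one_le_exp c
    rw [h4]
    nlinarith
  have h4 := Real.exp_pos (dot e0 (rv w))
  nlinarith

theorem exists_L (δ : Lau ℂ r) (e0 : Fin r → ℤ) (l : Fin r → ℝ)
    (hl : ∀ e ∈ δ.coeff.support, e ≠ e0 → dot e l < dot e0 l) :
    ∃ L : Fin r → ℤ, ∀ e ∈ δ.coeff.support, e ≠ e0 →
      1 ≤ dot e0 (fun i => (L i : ℝ)) - dot e (fun i => (L i : ℝ)) := by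
  classical
  let E : ℝ := ∑ e ∈ δ.coeff.support, ∑ i, |((e0 - e) i : ℝ)|
  have hE : ∀ e ∈ δ.coeff.support, ∀ i, |(((e0 - e) i : ℤ) : ℝ)| ≤ E := by
    intro e he i
    have h1 : |(((e0 - e) i : ℤ) : ℝ)| ≤ ∑ i, |(((e0 - e) i : ℤ) : ℝ)| :=
      Finset.single_le_sum (f := fun i => |(((e0 - e) i : ℤ) : ℝ)|) (fun _ _ => abs_nonneg _)
        (Finset.mem_univ i)
    refine h1.trans ?_
    exact Finset.single_le_sum (f := fun e : Fin r → ℤ => ∑ i, |(((e0 - e) i : ℤ) : ℝ)|)
      (fun _ _ => Finset.sum_nonneg fun _ _ => abs_nonneg _) he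
  have hE0 : 0 ≤ E := Finset.sum_nonneg fun _ _ => Finset.sum_nonneg fun _ _ => abs_nonneg _
  have hsub : ∀ (e : Fin r → ℤ) (x : Fin r → ℝ), dot (e0 - e) x = dot e0 x - dot e x := by
    intro e x
    unfold dot
    rw [← Finset.sum_sub_distrib]
    refine Finset.sum_congr rfl fun i _ => ?_
    rw [Pi.sub_apply]
    push_cast
    ring
  -- the gap
  have hgap : ∃ γ : ℝ, 0 < γ ∧ ∀ e ∈ δ.coeff.support, e ≠ e0 → γ ≤ dot e0 l - dot e l := by
    rcases (δ.coeff.support.erase e0).eq_empty_or_nonempty with h | h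
    · refine ⟨1, one_pos, fun e he hne => ?_⟩
      have h1 : e ∈ δ.coeff.support.erase e0 := Finset.mem_erase.2 ⟨hne, he⟩
      rw [h] at h1
      exact absurd h1 (Finset.notMem_empty _)
    · obtain ⟨e1, he1, hmin⟩ := Finset.exists_min_image (δ.coeff.support.erase e0)
        (fun e => dot e0 l - dot e l) h
      refine ⟨dot e0 l - dot e1 l, ?_, fun e he hne => hmin e (Finset.mem_erase.2 ⟨hne, he⟩)⟩
      have h1 := hl e1 (Finset.mem_of_mem_erase he1) (Finset.ne_of_mem_erase he1)
      linarith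
  obtain ⟨γ, hγ, hγ2⟩ := hgap
  obtain ⟨n, hn⟩ := exists_nat_ge ((1 + E * r) / γ)
  rw [div_le_iff₀ hγ] at hn
  refine ⟨fun i => ⌊n * l i⌋, fun e he hne => ?_⟩
  rw [← hsub]
  have h1 : |dot (e0 - e) (fun i => (n * l i - (⌊n * l i⌋ : ℝ)))| ≤ E * r := by
    refine (dot_le _ E (hE e he) _).trans (mul_le_mul_of_nonneg_left ?_ hE0)
    unfold sz
    have h2 : ∀ i ∈ (Finset.univ : Finset (Fin r)), |(n * l i - (⌊n * l i⌋ : ℝ))| ≤ 1 := by
      intro i _
      have h3 := Int.floor_le (n * l i)
      have h4 := Int.lt_floor_add_one (n * l i)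
      rw [abs_le]
      constructor <;> linarith
    have h3 := Finset.sum_le_card_nsmul _ _ _ h2
    rw [Finset.card_univ, Fintype.card_fin, nsmul_eq_mul, mul_one] at h3
    exact h3
  have h2 : dot (e0 - e) (fun i => (n * l i - (⌊n * l i⌋ : ℝ))) =
      n * dot (e0 - e) l - dot (e0 - e) (fun i => (⌊n * l i⌋ : ℝ)) := by
    unfold dot
    rw [Finset.mul_sum, ← Finset.sum_sub_distrib]
    exact Finset.sum_congr rfl fun i _ => by ring
  rw [h2] at h1
  have h3 := (abs_le.1 h1).2
  have h4 := hγ2 e he hne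
  rw [← hsub] at h4
  have h5 : (n : ℝ) * γ ≤ n * dot (e0 - e) l := mul_le_mul_of_nonneg_left h4 (Nat.cast_nonneg _)
  linarith

/-- the polynomial at the exponentials -/
noncomputable def Qe (Q : Polynomial (Lau ℂ r)) (w : Fin r → ℂ) : Polynomial ℂ := Q.map (ev w)

theorem Qe_per (Q : Polynomial (Lau ℂ r)) (w : Fin r → ℂ) (m : Fin r → ℤ) :
    Qe Q (fun i => w i + 2 * Real.pi * I * m i) = Qe Q w := by
  unfold Qe
  rw [ev_per]

theorem Qe_sep (Q : Polynomial (Lau ℂ r)) (δ : Lau ℂ r) (a b : Polynomial (Lau ℂ r))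
    (hab : a * Q + b * Polynomial.derivative Q = Polynomial.C δ) (w : Fin r → ℂ)
    (hw : ev w δ ≠ 0) : (Qe Q w).Separable := by
  have h1 := congrArg (Polynomial.map (ev w)) hab
  rw [Polynomial.map_add, Polynomial.map_mul, Polynomial.map_mul, Polynomial.map_C,
    ← Polynomial.derivative_map] at h1
  refine ⟨Polynomial.C (ev w δ)⁻¹ * a.map (ev w), Polynomial.C (ev w δ)⁻¹ * b.map (ev w), ?_⟩
  unfold Qe
  rw [mul_assoc, mul_assoc, ← mul_add, h1, ← Polynomial.C_mul, inv_mul_cancel₀ hw, Polynomial.C_1]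

/-- the roots of the polynomial are given by functions on the tube domain which are periodic after
multiplication of the coordinates with `M` -/
theorem exists_roots (Q : Polynomial (Lau ℂ r)) (hQ : Q.Monic) (δ : Lau ℂ r)
    (a b : Polynomial (Lau ℂ r)) (hab : a * Q + b * Polynomial.derivative Q = Polynomial.C δ)
    (e0 : Fin r → ℤ) (c : ℝ) (hc : ∀ w : Fin r → ℂ, rv w ∈ Dom δ e0 c → ev w δ ≠ 0)
    (hne : (Dom δ e0 c).Nonempty) (M : ℕ) (hM : Q.natDegree.factorial ∣ M) :
    ∃ α : Fin Q.natDegree → (Fin r → ℂ) → ℂ,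
      (∀ j, ContinuousOn (α j) {w | rv w ∈ Dom δ e0 c}) ∧
      (∀ w, rv w ∈ Dom δ e0 c → Qe Q w = ∏ j, (Polynomial.X - Polynomial.C (α j w))) ∧
      ∀ j w (m : Fin r → ℤ), rv w ∈ Dom δ e0 c →
        α j (fun i => w i + 2 * Real.pi * I * (M * m i)) = α j w := by
  classical
  set W : Set (Fin r → ℂ) := {w | rv w ∈ Dom δ e0 c} with hW
  have hrv : ∀ i : Fin r, Continuous fun w : Fin r → ℂ => rv w i := by
    intro i
    show Continuous fun w : Fin r → ℂ => (w i).re
    fun_prop
  have hdotc : ∀ e : Fin r → ℤ, Continuous fun w : Fin r → ℂ => dot e (rv w) := by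
    intro e
    unfold dot
    exact continuous_finsetSum _ fun i _ => continuous_const.mul (hrv i)
  have hWo : IsOpen W := by
    have h1 : W = ⋂ e ∈ δ.coeff.support.erase e0,
        {w : Fin r → ℂ | c < dot e0 (rv w) - dot e (rv w)} := by
      ext w
      simp only [mem_iInter]
      constructor
      · intro h e he
        exact h e (Finset.mem_of_mem_erase he) (Finset.ne_of_mem_erase he)
      · intro h e he hne
        exact h e (Finset.mem_erase.2 ⟨hne, he⟩)
    rw [h1]
    exact isOpen_biInter_finset fun e _ => isOpen_lt continuous_const ((hdotc e0).sub (hdotc e))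
  have hWc : Convex ℝ W := by
    intro x hx y hy s t hs ht hst e he hne
    have h1 := hx e he hne
    have h2 := hy e he hne
    have h3 : ∀ e : Fin r → ℤ, dot e (rv (s • x + t • y)) = s * dot e (rv x) + t * dot e (rv y) := by
      intro e
      unfold dot
      rw [Finset.mul_sum, Finset.mul_sum, ← Finset.sum_add_distrib]
      refine Finset.sum_congr rfl fun i _ => ?_
      have h4 : rv (s • x + t • y) i = s * rv x i + t * rv y i := by
        show ((s • x + t • y) i).re = s * (x i).re + t * (y i).re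
        simp [Pi.add_apply, Pi.smul_apply]
      rw [h4]
      ring
    rw [h3, h3]
    rcases eq_or_lt_of_le hs with h0 | h0
    · have : t = 1 := by linarith
      rw [← h0, this]
      linarith
    · have e1 : s * c < s * (dot e0 (rv x) - dot e (rv x)) := mul_lt_mul_of_pos_left h1 h0
      have e2 : t * c ≤ t * (dot e0 (rv y) - dot e (rv y)) := mul_le_mul_of_nonneg_left h2.le ht
      have e3 : s * c + t * c = c := by rw [← add_mul, hst, one_mul]
      linarith
  have hWn : W.Nonempty := by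
    obtain ⟨x, hx⟩ := hne
    refine ⟨fun i => (x i : ℂ), ?_⟩
    show rv (fun i => (x i : ℂ)) ∈ Dom δ e0 c
    have h1 : rv (fun i => (x i : ℂ)) = x := by
      funext i
      exact ofReal_re _
    rw [h1]
    exact hx
  have hmon : ∀ w, (Qe Q w).Monic := fun w => hQ.map _
  have hdeg : ∀ w, (Qe Q w).natDegree = Q.natDegree := fun w => hQ.natDegree_map _
  have hsep : ∀ w ∈ W, (Qe Q w).Separable := fun w hw => Qe_sep Q δ a b hab w (hc w hw)
  obtain ⟨α, hα1, hα2, hα3⟩ := root_functions hWo hWc Q.natDegree (Qe Q)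
    (fun i => by
      have h1 : (fun w => (Qe Q w).coeff i) = fun w => ev w (Q.coeff i) := by
        funext w
        unfold Qe
        rw [Polynomial.coeff_map]
      rw [h1]
      exact (ev_cont _).continuousOn)
    (fun w _ => hdeg w) hsep
  have hshift : ∀ (m : Fin r → ℤ) (w : Fin r → ℂ),
      rv (fun i => w i + 2 * Real.pi * I * m i) = rv w := by
    intro m w
    funext i
    show (w i + 2 * Real.pi * I * m i).re = (w i).re
    simp
  refine ⟨α, hα1, ?_, ?_⟩
  · intro w hw
    have h1 : ∏ j, (Polynomial.X - Polynomial.C (α j w)) ∣ Qe Q w := by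
      refine Finset.prod_dvd_of_coprime ?_ fun j _ => ?_
      · intro i _ j _ hij
        exact Polynomial.pairwise_coprime_X_sub_C (hα2 w hw) hij
      · rw [Polynomial.dvd_iff_isRoot]
        exact (hα3 w hw _).2 ⟨j, rfl⟩
    refine (Polynomial.eq_of_monic_of_dvd_of_natDegree_le (Polynomial.monic_prod_of_monic _ _
      fun j _ => Polynomial.monic_X_sub_C _) (hmon w) h1 ?_)
    rw [hdeg, Polynomial.natDegree_prod_of_monic _ _ fun j _ => Polynomial.monic_X_sub_C _]
    simp
  · intro j w m hw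
    -- the monodromy
    have hmn : ∀ j, ∃ k, ∀ w ∈ W, α j (fun i => w i + 2 * Real.pi * I * m i) = α k w := by
      intro j
      refine root_unique hWc.isPreconnected hWn Q.natDegree (Qe Q) α hα1 hα2 hα3
        (fun w => α j (fun i => w i + 2 * Real.pi * I * m i)) ?_ ?_
      · refine (hα1 j).comp (by fun_prop) ?_
        intro w hw
        show rv (fun i => w i + 2 * Real.pi * I * m i) ∈ Dom δ e0 c
        rw [hshift]
        exact hw
      · intro w hw
        have h1 := (hα3 (fun i => w i + 2 * Real.pi * I * m i) (by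
          show rv (fun i => w i + 2 * Real.pi * I * m i) ∈ Dom δ e0 c
          rw [hshift]
          exact hw) (α j (fun i => w i + 2 * Real.pi * I * m i))).2 ⟨j, rfl⟩
        rw [Qe_per] at h1
        exact h1
    choose σ hσ using hmn
    have hσinj : Function.Injective σ := by
      intro i j hij
      obtain ⟨w, hw⟩ := hWn
      have h1 := hσ i w hw
      have h2 := hσ j w hw
      rw [hij, ← h2] at h1
      exact hα2 _ (by
        show rv (fun i => w i + 2 * Real.pi * I * m i) ∈ Dom δ e0 c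
        rw [hshift]
        exact hw) h1
    let s : Equiv.Perm (Fin Q.natDegree) :=
      Equiv.ofBijective σ (Finite.injective_iff_bijective.mp hσinj)
    have hiter : ∀ n : ℕ, ∀ j, ∀ w ∈ W,
        α j (fun i => w i + 2 * Real.pi * I * (n * m i)) = α ((s ^ n) j) w := by
      intro n
      induction n with
      | zero => intro j w hw; simp
      | succ n ih =>
        intro j w hw
        have h1 : (fun i => w i + 2 * Real.pi * I * ((n + 1 : ℕ) * m i)) =
            fun i => (w i + 2 * Real.pi * I * (n * m i)) + 2 * Real.pi * I * m i := by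
          funext i
          push_cast
          ring
        have h2 : (fun i => w i + 2 * Real.pi * I * (n * m i)) ∈ W := by
          show rv (fun i => w i + 2 * Real.pi * I * (n * m i)) ∈ Dom δ e0 c
          have h3 := hshift (fun i => n * m i) w
          push_cast at h3
          rw [h3]
          exact hw
        rw [h1, hσ j _ h2, ih (σ j) w hw, pow_succ, Equiv.Perm.mul_apply]
        rfl
    have h1 := hiter M j w hw
    have h2 : s ^ M = 1 := by
      obtain ⟨k, hk⟩ := hM
      have h3 : Fintype.card (Equiv.Perm (Fin Q.natDegree)) = Q.natDegree.factorial := by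
        rw [Fintype.card_perm, Fintype.card_fin]
      rw [hk, pow_mul, ← h3, pow_card_eq_one, one_pow]
    rw [h2] at h1
    exact h1

end Pool.Agent.H434.AJ
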