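import Mathlib
import Pool.Agent.H434.O6
import Pool.Agent.H434.N8

/-!
A polynomial over the Laurent polynomials splits near the directions in which an element of the ideal
generated by the polynomial and its derivative has a monomial as leading form.
-/

set_option autoImplicit false
set_option linter.unusedSectionVars false

open Metric Set Filter Topology Complex

namespace Pool.Agent.H434.AJ

open Pool.Agent.H434.GM

variable {r : ℕ}

/-- multiplication of the exponents -/
def pwH (r M : ℕ) : (Fin r → ℤ) →+ (Fin r → ℤ) where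
  toFun := fun e i => M * e i
  map_zero' := by
    funext i
    simp
  map_add' := fun a b => by
    funext i
    simp [mul_add]

noncomputable def pw (r M : ℕ) : Lau ℂ r →+* Lau ℂ r := AddMonoidAlgebra.mapDomainRingHom ℂ (pwH r M)

theorem pw_single (M : ℕ) (e : Fin r → ℤ) (c : ℂ) :
    pw r M (AddMonoidAlgebra.single e c) = AddMonoidAlgebra.single (fun i => M * e i) c := by
  show AddMonoidAlgebra.mapDomain (pwH r M) (AddMonoidAlgebra.single e c) = _
  rw [AddMonoidAlgebra.mapDomain_single]
  rfl

theorem ev_pw (M : ℕ) (w : Fin r → ℂ) (p : Lau ℂ r) :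
    ev w (pw r M p) = ev (fun i => M * w i) p := by
  have h1 : (evL ℂ (ue w)).comp (AddMonoidAlgebra.mapDomainAlgHom ℂ ℂ (pwH r M)) =
      evL ℂ (ue fun i => M * w i) := by
    apply AddMonoidAlgebra.algHom_ext
    · intro e
      have h2 : (AddMonoidAlgebra.mapDomainAlgHom ℂ ℂ (pwH r M))
          (AddMonoidAlgebra.single e 1) = AddMonoidAlgebra.single (fun i => M * e i) 1 :=
        pw_single M e 1
      rw [AlgHom.comp_apply, h2, evL_single, evL_single, mz_exp, mz_exp]
      congr 2
      refine Finset.sum_congr rfl fun i _ => ?_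
      push_cast
      ring
    · exact Subsingleton.elim _ _
  exact DFunLike.congr_fun h1 p

theorem rv_mul (M : ℕ) (w : Fin r → ℂ) :
    rv (fun i => (M : ℂ) * w i) = fun i => (M : ℝ) * rv w i := by
  funext i
  show ((M : ℂ) * w i).re = M * (w i).re
  rw [mul_re, natCast_re, natCast_im, zero_mul, sub_zero]

theorem exists_ED (Q : Polynomial (Lau ℂ r)) (hQ : Q.Monic) (δ : Lau ℂ r) (e0 : Fin r → ℤ)
    (c : ℝ) (hc0 : 0 ≤ c) (L : Fin r → ℤ) (hL : ∀ e ∈ δ.coeff.support, e ≠ e0 →
      1 ≤ dot e0 (fun i => (L i : ℝ)) - dot e (fun i => (L i : ℝ))) (M : ℕ) (hM : 1 ≤ M)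
    (a b : Polynomial (Lau ℂ r)) (hab : a * Q + b * Polynomial.derivative Q = Polynomial.C δ)
    (hc : ∀ w : Fin r → ℂ, rv w ∈ Dom δ e0 c → ev w δ ≠ 0)
    (α : Fin Q.natDegree → (Fin r → ℂ) → ℂ)
    (h1 : ∀ j, ContinuousOn (α j) {w | rv w ∈ Dom δ e0 c})
    (h2 : ∀ w, rv w ∈ Dom δ e0 c → Qe Q w = ∏ j, (Polynomial.X - Polynomial.C (α j w)))
    (h3 : ∀ j w (m : Fin r → ℤ), rv w ∈ Dom δ e0 c →
        α j (fun i => w i + 2 * Real.pi * I * (M * m i)) = α j w) (j : Fin Q.natDegree) :
    ∃ D : ED r, D.Ω = {x | (fun i => (M : ℝ) * x i) ∈ Dom δ e0 c} ∧ D.L = L ∧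
      ∀ w, rv w ∈ D.Ω → D.β w = α j (fun i => M * w i) := by
  classical
  set Ω : Set (Fin r → ℝ) := {x | (fun i => (M : ℝ) * x i) ∈ Dom δ e0 c} with hΩ
  have hM0 : (1 : ℝ) ≤ M := by exact_mod_cast hM
  have hmem : ∀ x, x ∈ Ω ↔ ∀ e ∈ δ.coeff.support, e ≠ e0 → c < M * (dot e0 x - dot e x) := by
    intro x
    constructor
    · intro h e he hne
      have h4 := h e he hne
      rw [dot_smul', dot_smul'] at h4
      linarith
    · intro h e he hne
      rw [dot_smul', dot_smul']
      have := h e he hne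
      linarith
  let β : (Fin r → ℂ) → ℂ := fun w => if rv w ∈ Ω then α j (fun i => M * w i) else 0
  have hβ : ∀ w, rv w ∈ Ω → β w = α j (fun i => M * w i) := fun w hw => if_pos hw
  have hdom : ∀ w : Fin r → ℂ, rv w ∈ Ω → rv (fun i => (M : ℂ) * w i) ∈ Dom δ e0 c := by
    intro w hw
    rw [rv_mul]
    exact hw
  have hroot : ∀ w : Fin r → ℂ, rv w ∈ Ω → (Qe Q fun i => M * w i).eval (β w) = 0 := by
    intro w hw
    rw [hβ w hw, h2 _ (hdom w hw), Polynomial.eval_prod]
    exact Finset.prod_eq_zero (Finset.mem_univ j) (by simp)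
  have hmon : ∀ w, (Qe Q w).Monic := fun w => hQ.map _
  have hdeg : ∀ w, (Qe Q w).natDegree = Q.natDegree := fun w => hQ.natDegree_map _
  let E : ℝ := ∑ e ∈ δ.coeff.support, ∑ i, |(((e0 - e) i : ℤ) : ℝ)|
  have hE : ∀ e ∈ δ.coeff.support, ∀ i, |(((e0 - e) i : ℤ) : ℝ)| ≤ E := by
    intro e he i
    have h1 : |(((e0 - e) i : ℤ) : ℝ)| ≤ ∑ i, |(((e0 - e) i : ℤ) : ℝ)| :=
      Finset.single_le_sum (f := fun i => |(((e0 - e) i : ℤ) : ℝ)|) (fun _ _ => abs_nonneg _)
        (Finset.mem_univ i)
    refine h1.trans ?_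
    exact Finset.single_le_sum (f := fun e : Fin r → ℤ => ∑ i, |(((e0 - e) i : ℤ) : ℝ)|)
      (fun _ _ => Finset.sum_nonneg fun _ _ => abs_nonneg _) he
  have hE0 : 0 ≤ E := Finset.sum_nonneg fun _ _ => Finset.sum_nonneg fun _ _ => abs_nonneg _
  have hsub : ∀ (e : Fin r → ℤ) (x : Fin r → ℝ), dot (e0 - e) x = dot e0 x - dot e x := by
    intro e x
    unfold dot
    rw [← Finset.sum_sub_distrib]
    refine Finset.sum_congr rfl fun i _ => ?_
    rw [Pi.sub_apply]
    push_cast
    ring
  have hray : ∀ (e : Fin r → ℤ) (x : Fin r → ℝ) (τ : ℝ), dot e (fun i => x i + τ * L i) =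
      dot e x + τ * dot e (fun i => (L i : ℝ)) := by
    intro e x τ
    rw [dot_add', dot_smul']
  -- the growth
  choose Cc κc hCc hκc hgc using fun i : Fin Q.natDegree => norm_ev (Q.coeff i)
  let C : ℝ := 1 + ∑ i, Cc i
  let κ : ℝ := M * ∑ i, κc i
  have hsum0 : 0 ≤ ∑ i, Cc i := Finset.sum_nonneg fun i _ => hCc i
  have hsum1 : 0 ≤ ∑ i, κc i := Finset.sum_nonneg fun i _ => hκc i
  have hC : 0 ≤ C := by simp only [C]; linarith
  have hκ : 0 ≤ κ := mul_nonneg (by linarith) hsum1
  refine ⟨{ Ω := Ω
            L := L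
            hL := ?_
            T := E + c + 1
            hT0 := by linarith
            hT := ?_
            β := β
            hβ := ?_
            hper := ?_
            C := C
            κ := κ
            hC := hC
            hκ := hκ
            hgr := ?_
            K0 := ⌈κ * sz (fun i => (L i : ℝ))⌉₊
            hK0 := Nat.le_ceil _ }, rfl, rfl, hβ⟩
  · intro x hx τ hτ
    rw [hmem] at hx ⊢
    intro e he hne
    have h4 := hx e he hne
    have h5 := hL e he hne
    rw [hray, hray]
    have h6 : 0 ≤ τ * (dot e0 (fun i => (L i : ℝ)) - dot e (fun i => (L i : ℝ))) :=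
      mul_nonneg hτ (by linarith)
    nlinarith
  · intro x τ hτ
    rw [hmem]
    intro e he hne
    have h5 := hL e he hne
    rw [hray, hray]
    have h6 := dot_le (e0 - e) E (hE e he) x
    rw [hsub] at h6
    have h7 := (abs_le.1 h6).1
    have hs := sz_nn x
    have h8 : 0 ≤ τ := le_trans (by positivity) hτ
    have h9 : τ ≤ τ * (dot e0 (fun i => (L i : ℝ)) - dot e (fun i => (L i : ℝ))) :=
      le_mul_of_one_le_right h8 h5
    have h10 : c < (dot e0 x + τ * dot e0 fun i => (L i : ℝ)) -
        (dot e x + τ * dot e fun i => (L i : ℝ)) := by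
      have h11 : (E + c + 1) * (1 + sz x) = E + c + 1 + E * sz x + (c + 1) * sz x := by ring
      have h12 : 0 ≤ (c + 1) * sz x := mul_nonneg (by linarith) hs
      linarith
    have h13 : 0 ≤ (dot e0 x + τ * dot e0 fun i => (L i : ℝ)) -
        (dot e x + τ * dot e fun i => (L i : ℝ)) := by linarith
    have h14 := le_mul_of_one_le_left h13 hM0
    linarith
  · intro w v
    set H : Set ℂ := {ζ | rv (fun i => w i + ζ * v i) ∈ Ω} with hH
    have hHo : IsOpen H := by
      have h4 : H = ⋂ e ∈ δ.coeff.support.erase e0, {ζ : ℂ | c < M *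
          (dot e0 (rv fun i => w i + ζ * v i) - dot e (rv fun i => w i + ζ * v i))} := by
        ext ζ
        simp only [mem_iInter]
        constructor
        · intro h e he
          exact (hmem _).1 h e (Finset.mem_of_mem_erase he) (Finset.ne_of_mem_erase he)
        · intro h
          show rv (fun i => w i + ζ * v i) ∈ Ω
          rw [hmem]
          intro e he hne
          exact h e (Finset.mem_erase.2 ⟨hne, he⟩)
      rw [h4]
      have h5 : ∀ e : Fin r → ℤ, Continuous fun ζ : ℂ => dot e (rv fun i => w i + ζ * v i) := by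
        intro e
        unfold dot
        refine continuous_finsetSum _ fun i _ => continuous_const.mul ?_
        show Continuous fun ζ : ℂ => (w i + ζ * v i).re
        fun_prop
      exact isOpen_biInter_finset fun e _ => isOpen_lt continuous_const
        (continuous_const.mul ((h5 e0).sub (h5 e)))
    have hlin : ∀ ζ : ℂ, (fun i => (M : ℂ) * (w i + ζ * v i)) =
        fun i => (M * w i) + ζ * (M * v i) := by
      intro ζ
      funext i
      ring
    refine AR.J5652.rf_diff hHo Q.natDegree (fun ζ => Qe Q fun i => M * (w i + ζ * v i))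
      (fun i => ?_) (fun ζ _ => hdeg _) (fun ζ hζ => ?_) _ ?_ (fun ζ hζ => hroot _ hζ)
    · have h4 : (fun ζ : ℂ => (Qe Q fun i => M * (w i + ζ * v i)).coeff i) =
          fun ζ => ev (fun i => (M * w i) + ζ * (M * v i)) (Q.coeff i) := by
        funext ζ
        unfold Qe
        rw [Polynomial.coeff_map, hlin]
      rw [h4]
      exact (ev_diff _ _ _).differentiableOn
    · exact Qe_sep Q δ a b hab _ (hc _ (hdom _ hζ))
    · have h4 : ContinuousOn (fun ζ : ℂ => α j (fun i => M * (w i + ζ * v i))) H := by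
        refine (h1 j).comp (by fun_prop) fun ζ hζ => ?_
        exact hdom _ hζ
      exact h4.congr fun ζ hζ => hβ _ hζ
  · intro w m
    have h4 : rv (fun i => w i + 2 * Real.pi * I * m i) = rv w := by
      funext i
      show (w i + 2 * Real.pi * I * m i).re = (w i).re
      simp
    simp only [β]
    rw [h4]
    split_ifs with h5
    · have h6 := h3 j (fun i => M * w i) m (hdom w h5)
      rw [← h6]
      congr 1
      funext i
      ring
    · rfl
  · intro w hw
    have h4 := AR.J5652.rf_bound (Qe Q fun i => M * w i) Q.natDegree (hdeg _) (hmon _).ne_zero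
      (β w) (hroot w hw)
    refine h4.trans ?_
    have h5 : (Qe Q fun i => M * w i).coeff Q.natDegree = 1 := by
      rw [← hdeg fun i => M * w i]
      exact hmon _
    rw [h5, norm_one]
    simp only [div_one]
    rw [Finset.sum_range]
    have hs := sz_nn (rv w)
    have he1 : 1 ≤ Real.exp (κ * sz (rv w)) := Real.one_le_exp (mul_nonneg hκ hs)
    have h6 : ∀ i : Fin Q.natDegree, ‖(Qe Q fun i => M * w i).coeff i‖ ≤
        Cc i * Real.exp (κ * sz (rv w)) := by
      intro i
      have h7 := hgc i (fun i => M * w i)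
      unfold Qe
      rw [Polynomial.coeff_map]
      refine h7.trans (mul_le_mul_of_nonneg_left (Real.exp_le_exp.2 ?_) (hCc i))
      rw [rv_mul, sz_mul, abs_of_nonneg (by linarith : (0 : ℝ) ≤ M)]
      have h8 : κc i ≤ ∑ i, κc i :=
        Finset.single_le_sum (f := κc) (fun i _ => hκc i) (Finset.mem_univ i)
      have h9 := mul_le_mul_of_nonneg_right h8 (mul_nonneg (by linarith : (0 : ℝ) ≤ M) hs)
      simp only [κ]
      linarith
    have h7 := Finset.sum_le_sum fun i (_ : i ∈ (Finset.univ : Finset (Fin Q.natDegree))) => h6 i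
    rw [← Finset.sum_mul] at h7
    simp only [C]
    linarith

end Pool.Agent.H434.AJ
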