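import Mathlib
import Pool.Agent.H434.O7

/-!
The splitting criterion.
-/

set_option autoImplicit false
set_option linter.unusedSectionVars false

open Metric Set Filter Topology Complex

namespace Pool.Agent.H434.AJ

open Pool.Agent.H434.GM

variable {r : ℕ}

/-- the leading form in the direction `l` is a monomial, for some element of the ideal generated by
the polynomial and its derivative -/
def MonoD (Q : Polynomial (Lau ℂ r)) (l : Fin r → ℝ) : Prop :=
  ∃ (δ : Lau ℂ r) (a b : Polynomial (Lau ℂ r)),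
    a * Q + b * Polynomial.derivative Q = Polynomial.C δ ∧
    ∃ e0 ∈ δ.coeff.support, ∀ e ∈ δ.coeff.support, e ≠ e0 → dot e l < dot e0 l

theorem ED.approx (D : ED r) (K : ℕ) : ∃ p : Lau ℂ r, ∀ (w : Fin r → ℂ) (θ : ℝ), 2 ≤ θ →
    (fun i => (w i).re - θ * D.L i) ∈ D.Ω →
    ‖D.β w - ev w p‖ ≤ 2 * D.Bd w θ * Real.exp (1 - θ) ^ K := by
  classical
  choose p hp using fun k => gd_lau r (D.a k) (D.a_good k)
  refine ⟨∑ k ∈ Finset.range K, p k, fun w θ hθ hw => ?_⟩
  have h1 := D.tail w θ hw 1 (by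
    rw [norm_one]
    exact Real.one_le_exp (by linarith)) K
  rw [D.Hh_of_ne w one_ne_zero, norm_one, one_mul] at h1
  have h2 : D.Hf w 1 = D.β w := by
    unfold ED.Hf
    rw [one_pow, one_mul, log_one]
    congr 1
    funext i
    ring
  have h3 : ev w (∑ k ∈ Finset.range K, p k) = ∑ k ∈ Finset.range K, D.a k w * 1 ^ k := by
    rw [map_sum]
    refine Finset.sum_congr rfl fun k _ => ?_
    rw [one_pow, mul_one, hp]
    rfl
  rw [h2, ← h3] at h1
  exact h1

theorem mono_core (Q : Polynomial (Lau ℂ r)) (hQ : Q.Monic) (l : Fin r → ℝ)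
    (h : MonoD Q l) (M : ℕ) (hM : 1 ≤ M) (hdM : Q.natDegree.factorial ∣ M) :
    ∃ ε : ℝ, 0 < ε ∧ ∀ A : ℝ, ∃ p : Fin Q.natDegree → Lau ℂ r,
      ∀ l' : Fin r → ℝ, (∀ i, |l' i - l i| ≤ ε) → ∀ i,
        ∀ e ∈ ((Q.map (pw r M) - ∏ j, (Polynomial.X - Polynomial.C (p j))).coeff i).coeff.support,
          dot e l' ≤ -A := by
  classical
  obtain ⟨δ, a, b, hab, e0, he0, hl⟩ := h
  obtain ⟨c, hc0, hc⟩ := nonvan δ e0 he0
  obtain ⟨L, hL⟩ := exists_L δ e0 l hl
  have hM0 : (1 : ℝ) ≤ M := by exact_mod_cast hM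
  have hsub : ∀ (e : Fin r → ℤ) (x : Fin r → ℝ), dot (e0 - e) x = dot e0 x - dot e x := by
    intro e x
    unfold dot
    rw [← Finset.sum_sub_distrib]
    refine Finset.sum_congr rfl fun i _ => ?_
    rw [Pi.sub_apply]
    push_cast
    ring
  have hne : (Dom δ e0 c).Nonempty := by
    refine ⟨fun i => (c + 1) * L i, fun e he hn => ?_⟩
    rw [dot_smul', dot_smul', ← mul_sub]
    have h1 := hL e he hn
    have h2 : (c + 1) * 1 ≤ (c + 1) * (dot e0 (fun i => (L i : ℝ)) -
        dot e (fun i => (L i : ℝ))) := mul_le_mul_of_nonneg_left h1 (by linarith)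
    linarith
  obtain ⟨α, h1, h2, h3⟩ := exists_roots Q hQ δ a b hab e0 c hc hne M hdM
  choose D hDΩ hDL hDβ using fun j => exists_ED Q hQ δ e0 c hc0 L hL M hM a b hab hc α h1 h2 h3 j
  -- constants
  let E : ℝ := ∑ e ∈ δ.coeff.support, ∑ i, |(((e0 - e) i : ℤ) : ℝ)|
  have hE : ∀ e ∈ δ.coeff.support, ∀ i, |(((e0 - e) i : ℤ) : ℝ)| ≤ E := by
    intro e he i
    have h1 : |(((e0 - e) i : ℤ) : ℝ)| ≤ ∑ i, |(((e0 - e) i : ℤ) : ℝ)| :=
      Finset.single_le_sum (f := fun i => |(((e0 - e) i : ℤ) : ℝ)|) (fun _ _ => abs_nonneg _)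
        (Finset.mem_univ i)
    refine h1.trans ?_
    exact Finset.single_le_sum (f := fun e : Fin r → ℤ => ∑ i, |(((e0 - e) i : ℤ) : ℝ)|)
      (fun _ _ => Finset.sum_nonneg fun _ _ => abs_nonneg _) he
  have hE0 : 0 ≤ E := Finset.sum_nonneg fun _ _ => Finset.sum_nonneg fun _ _ => abs_nonneg _
  have hgap : ∃ γ : ℝ, 0 < γ ∧ ∀ e ∈ δ.coeff.support, e ≠ e0 → γ ≤ dot e0 l - dot e l := by
    rcases (δ.coeff.support.erase e0).eq_empty_or_nonempty with h | h
    · refine ⟨1, one_pos, fun e he hne => ?_⟩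
      have h1 : e ∈ δ.coeff.support.erase e0 := Finset.mem_erase.2 ⟨hne, he⟩
      rw [h] at h1
      exact absurd h1 (Finset.notMem_empty _)
    · obtain ⟨e1, he1, hmin⟩ := Finset.exists_min_image (δ.coeff.support.erase e0)
        (fun e => dot e0 l - dot e l) h
      refine ⟨dot e0 l - dot e1 l, ?_, fun e he hne => hmin e (Finset.mem_erase.2 ⟨hne, he⟩)⟩
      have h1 := hl e1 (Finset.mem_of_mem_erase he1) (Finset.ne_of_mem_erase he1)
      linarith
  obtain ⟨γ, hγ, hγ2⟩ := hgap
  let Λ : ℝ := E * sz (fun i => (L i : ℝ))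
  have hΛ0 : 0 ≤ Λ := mul_nonneg hE0 (sz_nn _)
  let θ : ℝ := γ / (4 * (Λ + 1))
  have hθ : 0 < θ := by positivity
  let ε : ℝ := γ / (4 * (E * r + 1))
  have hε : 0 < ε := by positivity
  have hr0 : (0 : ℝ) ≤ r := Nat.cast_nonneg _
  have hθΛ : θ * Λ ≤ γ / 4 := by
    have h4 : θ * (4 * (Λ + 1)) = γ := by
      simp only [θ]
      field_simp
    nlinarith
  have hεE : E * (r * ε) ≤ γ / 4 := by
    have h4 : ε * (4 * (E * r + 1)) = γ := by
      simp only [ε]
      field_simp
    nlinarith
  -- the direction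
  have hdir : ∀ l' : Fin r → ℝ, (∀ i, |l' i - l i| ≤ ε) → ∀ e ∈ δ.coeff.support, e ≠ e0 →
      γ / 2 ≤ dot e0 (fun i => l' i - θ * L i) - dot e (fun i => l' i - θ * L i) := by
    intro l' hl' e he hn
    rw [← hsub]
    have h4 : dot (e0 - e) (fun i => l' i - θ * L i) = dot (e0 - e) l +
        dot (e0 - e) (fun i => l' i - l i) - θ * dot (e0 - e) (fun i => (L i : ℝ)) := by
      unfold dot
      rw [Finset.mul_sum, ← Finset.sum_add_distrib, ← Finset.sum_sub_distrib]
      exact Finset.sum_congr rfl fun i _ => by ring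
    have h5 := dot_le (e0 - e) E (hE e he) (fun i => l' i - l i)
    have h6 : sz (fun i => l' i - l i) ≤ r * ε := by
      unfold sz
      have h7 := Finset.sum_le_card_nsmul (Finset.univ : Finset (Fin r)) (fun i => |l' i - l i|) ε
        fun i _ => hl' i
      rw [Finset.card_univ, Fintype.card_fin, nsmul_eq_mul] at h7
      exact h7
    have h7 := (abs_le.1 (h5.trans (mul_le_mul_of_nonneg_left h6 hE0))).1
    have h8 := dot_le (e0 - e) E (hE e he) (fun i => (L i : ℝ))
    have h9 := (abs_le.1 h8).2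
    have h10 := mul_le_mul_of_nonneg_left h9 hθ.le
    have h11 := hγ2 e he hn
    rw [← hsub] at h11
    have h12 : θ * (E * sz fun i => (L i : ℝ)) = θ * Λ := rfl
    rw [h4]
    linarith
  refine ⟨ε, hε, fun A => ?_⟩
  let Sl : ℝ := sz l + r * ε
  have hSl : 0 ≤ Sl := add_nonneg (sz_nn _) (mul_nonneg hr0 hε.le)
  let Aj : Fin Q.natDegree → ℝ := fun j => (D j).K0 + (D j).κ * sz (fun i => ((D j).L i : ℝ))
  have hAj : ∀ j, 0 ≤ Aj j := fun j => add_nonneg (Nat.cast_nonneg _)
    (mul_nonneg (D j).hκ (sz_nn _))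
  let P : ℝ := ∑ j, ((D j).κ * Sl + θ * Aj j)
  have hPj : ∀ j, 0 ≤ (D j).κ * Sl + θ * Aj j := fun j =>
    add_nonneg (mul_nonneg (D j).hκ hSl) (mul_nonneg hθ.le (hAj j))
  have hP0 : 0 ≤ P := Finset.sum_nonneg fun j _ => hPj j
  have hPle : ∀ j, (D j).κ * Sl + θ * Aj j ≤ P := fun j =>
    Finset.single_le_sum (f := fun j => (D j).κ * Sl + θ * Aj j) (fun j _ => hPj j)
      (Finset.mem_univ j)
  let Cs : ℝ := ∑ j, (D j).C
  have hCs0 : 0 ≤ Cs := Finset.sum_nonneg fun j _ => (D j).hC
  have hCle : ∀ j, (D j).C ≤ Cs := fun j =>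
    Finset.single_le_sum (f := fun j => (D j).C) (fun j _ => (D j).hC) (Finset.mem_univ j)
  let d : ℕ := Q.natDegree
  obtain ⟨K, hK⟩ := exists_nat_ge ((|A| + (d + 1) * P) / θ)
  rw [div_le_iff₀ hθ] at hK
  choose p hp using fun j => (D j).approx K
  let G : ℝ := 2 * Cs * Real.exp K
  have hG0 : 0 ≤ G := by positivity
  let R0 : ℝ := 2 * (c + 1) / γ + 2 / θ + 1
  have hR0 : 0 ≤ R0 := by positivity
  have key : ∀ (l' : Fin r → ℝ), (∀ i, |l' i - l i| ≤ ε) → ∀ (i : ℕ) (R : ℝ) (w : Fin r → ℂ),
      R0 ≤ R → (rv w = fun i => R * l' i) →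
      ‖ev w ((Q.map (pw r M) - ∏ j, (Polynomial.X - Polynomial.C (p j))).coeff i)‖ ≤
        (d * G * (1 + Cs + G) ^ d) * Real.exp (-(A * R)) := by
    intro l' hl' i R w hR hw
    have hR00 : 0 ≤ R := hR0.trans hR
    have hR1 : 2 * (c + 1) / γ ≤ R := by
      have : 0 < 2 / θ := by positivity
      simp only [R0] at hR
      linarith
    have hR2 : 2 / θ ≤ R := by
      have : 0 ≤ 2 * (c + 1) / γ := by positivity
      simp only [R0] at hR
      linarith
    rw [div_le_iff₀ hγ] at hR1
    rw [div_le_iff₀ hθ] at hR2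
    have hfar : ∀ j, (fun i => (w i).re - (θ * R) * (D j).L i) ∈ (D j).Ω := by
      intro j
      rw [hDΩ, hDL]
      intro e he hn
      have h4 : (fun i => (w i).re - (θ * R) * L i) = fun i => R * (l' i - θ * L i) := by
        funext i
        have h5 : (w i).re = R * l' i := congrFun hw i
        rw [h5]
        ring
      have h6 : (fun i => (M : ℝ) * (fun i => (w i).re - (θ * R) * L i) i) =
          fun i => (M * R) * (l' i - θ * L i) := by
        funext i
        have h5 : (w i).re = R * l' i := congrFun hw i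
        simp only
        rw [h5]
        ring
      rw [h6, dot_smul', dot_smul', ← mul_sub]
      have h7 := hdir l' hl' e he hn
      have h8 : R * (γ / 2) ≤ R * (dot e0 (fun i => l' i - θ * L i) -
          dot e (fun i => l' i - θ * L i)) := mul_le_mul_of_nonneg_left h7 hR00
      have h9 : 0 ≤ R * (dot e0 (fun i => l' i - θ * L i) -
          dot e (fun i => l' i - θ * L i)) := le_trans (by positivity) h8
      have h10 := le_mul_of_one_le_left h9 hM0
      rw [mul_assoc]
      linarith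
    have hmem : ∀ j, rv w ∈ (D j).Ω := by
      intro j
      have h4 := (D j).mem_of w (θ * R) (hfar j) 0 (by
        rw [zero_re]
        positivity)
      have h5 : (fun i => w i - 0 * ((D j).L i : ℂ)) = w := by
        funext i
        ring
      rw [h5] at h4
      exact h4
    have hsz : sz (rv w) ≤ R * Sl := by
      rw [hw, sz_mul, abs_of_nonneg hR00]
      refine mul_le_mul_of_nonneg_left ?_ hR00
      have h4 : l' = fun i => l i + (l' i - l i) := by
        funext i
        ring
      rw [h4]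
      refine (sz_add_le _ _).trans ?_
      have h7 := Finset.sum_le_card_nsmul (Finset.univ : Finset (Fin r)) (fun i => |l' i - l i|) ε
        fun i _ => hl' i
      rw [Finset.card_univ, Fintype.card_fin, nsmul_eq_mul] at h7
      have h8 : sz (fun i => l' i - l i) ≤ r * ε := h7
      simp only [Sl]
      linarith
    have herr : ∀ j, ‖(D j).β w - ev w (p j)‖ ≤ G * Real.exp (R * (P - θ * K)) := by
      intro j
      refine (hp j w (θ * R) (by linarith) (hfar j)).trans ?_
      unfold ED.Bd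
      rw [abs_of_nonneg (by positivity), ← Real.exp_nat_mul]
      have h4 : (D j).κ * sz (rv w) + θ * R * Aj j ≤ R * P := by
        have h5 := mul_le_mul_of_nonneg_left hsz (D j).hκ
        have h6 := mul_le_mul_of_nonneg_left (hPle j) hR00
        nlinarith
      have h7 : 2 * ((D j).C * Real.exp ((D j).κ * sz (rv w) + θ * R *
          ((D j).K0 + (D j).κ * sz (fun i => ((D j).L i : ℝ))))) ≤
          2 * (Cs * Real.exp (R * P)) := by
        refine mul_le_mul_of_nonneg_left ?_ (by norm_num)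
        refine mul_le_mul (hCle j) (Real.exp_le_exp.2 h4) (Real.exp_pos _).le hCs0
      have h8 := mul_le_mul_of_nonneg_right h7 (Real.exp_pos (K * (1 - θ * R))).le
      refine h8.trans (le_of_eq ?_)
      simp only [G]
      rw [show 2 * Cs * Real.exp K * Real.exp (R * (P - θ * K)) =
        2 * (Cs * (Real.exp K * Real.exp (R * (P - θ * K)))) by ring,
        show 2 * (Cs * Real.exp (R * P)) * Real.exp (K * (1 - θ * R)) =
        2 * (Cs * (Real.exp (R * P) * Real.exp (K * (1 - θ * R)))) by ring, ← Real.exp_add,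
        ← Real.exp_add]
      congr 3
      ring
    have hθK : P ≤ θ * K := by
      have h4 : 0 ≤ (d : ℝ) * P := mul_nonneg (Nat.cast_nonneg _) hP0
      have := abs_nonneg A
      nlinarith
    have herr1 : G * Real.exp (R * (P - θ * K)) ≤ G * Real.exp (R * P) := by
      refine mul_le_mul_of_nonneg_left (Real.exp_le_exp.2 ?_) hG0
      refine mul_le_mul_of_nonneg_left ?_ hR00
      have : 0 ≤ θ * K := mul_nonneg hθ.le (Nat.cast_nonneg _)
      linarith
    have hexpP : 1 ≤ Real.exp (R * P) := Real.one_le_exp (mul_nonneg hR00 hP0)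
    have hβn : ∀ j, ‖(D j).β w‖ ≤ Cs * Real.exp (R * P) := by
      intro j
      refine ((D j).hgr w (hmem j)).trans ?_
      refine mul_le_mul (hCle j) (Real.exp_le_exp.2 ?_) (Real.exp_pos _).le hCs0
      have h5 := mul_le_mul_of_nonneg_left hsz (D j).hκ
      have h6 := mul_le_mul_of_nonneg_left (hPle j) hR00
      have h7 : 0 ≤ R * (θ * Aj j) := mul_nonneg hR00 (mul_nonneg hθ.le (hAj j))
      nlinarith
    let B : ℝ := (1 + Cs + G) * Real.exp (R * P)
    have hB1 : 1 ≤ B := by
      simp only [B]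
      nlinarith
    obtain ⟨-, -, h6⟩ := prod_pert (Finset.univ : Finset (Fin Q.natDegree))
      (fun j => (D j).β w) (fun j => ev w (p j)) B (G * Real.exp (R * (P - θ * K))) hB1
      (mul_nonneg hG0 (Real.exp_pos _).le) (fun j _ => by
        have h4 := hβn j
        have h5 : 0 ≤ G * Real.exp (R * P) := by positivity
        simp only [B]
        nlinarith) (fun j _ => by
        have h4 := hβn j
        have h5 := herr j
        have h6 : ‖ev w (p j)‖ ≤ ‖(D j).β w‖ + ‖(D j).β w - ev w (p j)‖ := by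
          have h7 : ev w (p j) = (D j).β w - ((D j).β w - ev w (p j)) := by ring
          conv_lhs => rw [h7]
          exact norm_sub_le _ _
        simp only [B]
        nlinarith) (fun j _ => herr j) i
    have hmap : ev w ((Q.map (pw r M) - ∏ j, (Polynomial.X - Polynomial.C (p j))).coeff i) =
        ((∏ j, (Polynomial.X - Polynomial.C ((D j).β w))) -
          ∏ j, (Polynomial.X - Polynomial.C (ev w (p j))) : Polynomial ℂ).coeff i := by
      rw [← Polynomial.coeff_map]
      congr 1
      rw [Polynomial.map_sub, Polynomial.map_prod, Polynomial.map_map]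
      congr 1
      · have h7 : (ev w).comp (pw r M) = ev (fun i => M * w i) := by
          apply RingHom.ext
          intro q
          exact ev_pw M w q
        rw [h7]
        rcases isEmpty_or_nonempty (Fin Q.natDegree) with hem | ⟨⟨j0⟩⟩
        · have h8 : Q = 1 := by
            rw [← hQ.natDegree_eq_zero]
            by_contra h9
            exact hem.false ⟨0, Nat.pos_of_ne_zero h9⟩
          have h9 : ∏ j, (Polynomial.X - Polynomial.C ((D j).β w)) = (1 : Polynomial ℂ) :=
            Finset.prod_of_isEmpty _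
          rw [h9, h8, Polynomial.map_one]
        · have h8 : rv (fun i => (M : ℂ) * w i) ∈ Dom δ e0 c := by
            rw [rv_mul]
            have h9 := hmem j0
            rw [hDΩ] at h9
            exact h9
          have h10 := h2 _ h8
          unfold Qe at h10
          rw [h10]
          refine Finset.prod_congr rfl fun j _ => ?_
          rw [hDβ j w (hmem j)]
      · refine Finset.prod_congr rfl fun j _ => ?_
        rw [Polynomial.map_sub, Polynomial.map_X, Polynomial.map_C]
    rw [hmap]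
    refine h6.trans ?_
    rw [Finset.card_univ, Fintype.card_fin]
    simp only [B]
    rw [mul_pow, ← Real.exp_nat_mul]
    have h7 : (Q.natDegree : ℝ) * (G * Real.exp (R * (P - θ * K))) *
        ((1 + Cs + G) ^ Q.natDegree * Real.exp (Q.natDegree * (R * P))) =
        (d * G * (1 + Cs + G) ^ d) * Real.exp (R * (P - θ * K) + Q.natDegree * (R * P)) := by
      rw [Real.exp_add]
      ring
    rw [h7]
    refine mul_le_mul_of_nonneg_left (Real.exp_le_exp.2 ?_) (by positivity)
    have h8 : A ≤ |A| := le_abs_self A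
    have h9 : (d : ℝ) = Q.natDegree := rfl
    rw [← h9]
    have h10 : R * (P - θ * K) + d * (R * P) = R * ((d + 1) * P - θ * K) := by ring
    rw [h10]
    have h11 : (d + 1) * P - θ * K ≤ -A := by linarith
    have h12 := mul_le_mul_of_nonneg_left h11 hR00
    linarith
  exact ⟨p, fun l' hl' i e he =>
    supp_le _ l' A _ R0 (fun R w hR hw => key l' hl' i R w hR hw) e he⟩

theorem close_one (Q : Polynomial (Lau ℂ r)) (d : ℕ) (hdeg : Q.natDegree = d)
    (p : Fin d → Lau ℂ r) (A : ℝ) (l : Fin r → ℝ)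
    (h : ∀ i, ∀ e ∈ ((Q - ∏ j, (Polynomial.X - Polynomial.C (p j))).coeff i).coeff.support,
      dot e l ≤ -A) : CloseG Q 1 (fun i => p (Fin.cast hdeg i)) A l := by
  intro i e he
  have h4 : Q.scaleRoots 1 = Q := by
    ext j
    rw [Polynomial.coeff_scaleRoots, one_pow, mul_one]
  rw [h4, prod_cast hdeg (fun i => Polynomial.X - Polynomial.C (p i))] at he
  refine ⟨0, ?_, ?_⟩
  · rw [Finsupp.mem_support_iff]
    have h6 : (1 : Lau ℂ r) = AddMonoidAlgebra.single 0 1 := rfl
    rw [h6, AddMonoidAlgebra.coeff_single, Finsupp.single_eq_same]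
    exact one_ne_zero
  · have h6 : dot (0 : Fin r → ℤ) l = 0 := by
      unfold dot
      simp
    rw [h6, mul_zero, zero_sub]
    exact h i e he

theorem splits_of_mono (Q : Polynomial (Lau ℂ r)) (hQ : Q.Monic) (l : Fin r → ℝ)
    (h : MonoD Q l) (M : ℕ) (hM : 1 ≤ M) (hdM : Q.natDegree.factorial ∣ M) :
    SplitsNear (Q.map (pw r M)) l := by
  obtain ⟨ε, hε, h1⟩ := mono_core Q hQ l h M hM hdM
  have hdeg : (Q.map (pw r M)).natDegree = Q.natDegree := hQ.natDegree_map _
  refine ⟨ε, hε, fun A => ?_⟩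
  obtain ⟨p, hp⟩ := h1 A
  exact ⟨1, fun i => p (Fin.cast hdeg i), one_ne_zero, fun l' hl' =>
    close_one _ _ hdeg p A l' (hp l' hl')⟩

end Pool.Agent.H434.AJ
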