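import Mathlib
import Pool.Agent.H434.O8

/-!
Polynomials over the Laurent polynomials in one variable split near all directions.
-/

set_option autoImplicit false
set_option linter.unusedSectionVars false

open Polynomial

namespace Pool.Agent.H434.AJ

open Pool.Agent.H434.GM

variable {r : ℕ}

theorem exists_delta {R : Type} [CommRing R] [IsDomain R] (P P' : R[X])
    (h : IsCoprime (P.map (algebraMap R (FractionRing R))) (P'.map (algebraMap R (FractionRing R)))) :
    ∃ (δ : R) (a b : R[X]), δ ≠ 0 ∧ a * P + b * P' = C δ := by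
  classical
  obtain ⟨u, v, huv⟩ := h
  obtain ⟨x, hx, hU⟩ := IsLocalization.integerNormalization_spec (nonZeroDivisors R) u
  obtain ⟨y, hy, hV⟩ := IsLocalization.integerNormalization_spec (nonZeroDivisors R) v
  set U := IsLocalization.integerNormalization (nonZeroDivisors R) u with hU'
  set V := IsLocalization.integerNormalization (nonZeroDivisors R) v with hV'
  refine ⟨x * y, C y * U, C x * V, mul_ne_zero (nonZeroDivisors.ne_zero hx)
    (nonZeroDivisors.ne_zero hy), ?_⟩
  apply Polynomial.map_injective (algebraMap R (FractionRing R)) (IsFractionRing.injective R _)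
  rw [Polynomial.map_add, Polynomial.map_mul, Polynomial.map_mul, Polynomial.map_mul,
    Polynomial.map_mul, Polynomial.map_C, Polynomial.map_C, Polynomial.map_C, hU, hV,
    Algebra.smul_def, Algebra.smul_def, map_mul]
  have h1 : ∀ z : R, (algebraMap R (FractionRing R)[X]) z = C (algebraMap R (FractionRing R) z) :=
    fun z => rfl
  rw [h1, h1, C_mul]
  linear_combination (C (algebraMap R (FractionRing R) x) * C (algebraMap R (FractionRing R) y)) *
    huv

theorem exists_pert (Q : (Lau ℂ r)[X]) (hQ : Q.Monic) (hd : Q.natDegree ≠ 0) (e : Fin r → ℤ) :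
    ∃ (c : ℂ) (δ : Lau ℂ r) (a b : (Lau ℂ r)[X]), δ ≠ 0 ∧
      a * (Q + C (AddMonoidAlgebra.single e c)) +
        b * derivative (Q + C (AddMonoidAlgebra.single e c)) = C δ := by
  classical
  let K := FractionRing (Lau ℂ r)
  let Kb := AlgebraicClosure K
  let φ : Lau ℂ r →+* K := algebraMap _ _
  let ψ : Lau ℂ r →+* Kb := (algebraMap K Kb).comp φ
  have hφ : Function.Injective φ := IsFractionRing.injective _ _
  have hψ : Function.Injective ψ := (algebraMap K Kb).injective.comp hφ
  have hchar : CharZero (Lau ℂ r) := by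
    have h1 : Function.Injective (algebraMap ℂ (Lau ℂ r)) := (algebraMap ℂ (Lau ℂ r)).injective
    exact charZero_of_injective_algebraMap h1
  have hcharb : CharZero Kb := charZero_of_injective_ringHom hψ
  have hQd : (derivative Q).map ψ ≠ 0 := by
    rw [← derivative_map]
    intro h0
    have h1 := derivative_eq_zero.1 h0
    rw [hQ.natDegree_map] at h1
    exact hd h1
  let Z : Finset Kb := ((derivative Q).map ψ).roots.toFinset
  let bad : Set ℂ := (fun c : ℂ => ψ (AddMonoidAlgebra.single e c)) ⁻¹'
    ((Z.image fun ξ => -(Q.map ψ).eval ξ : Finset Kb) : Set Kb)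
  have hinj : Function.Injective fun c : ℂ => ψ (AddMonoidAlgebra.single e c) := by
    intro c c' h
    have h1 : (AddMonoidAlgebra.single e c : Lau ℂ r) = AddMonoidAlgebra.single e c' := hψ h
    have h2 := congrArg (fun p : Lau ℂ r => p.coeff e) h1
    simpa [AddMonoidAlgebra.coeff_single] using h2
  have hfin : bad.Finite := Set.Finite.preimage hinj.injOn (Finset.finite_toSet _)
  obtain ⟨c, hc⟩ := hfin.infinite_compl.nonempty
  refine ⟨c, ?_⟩
  have hcop : IsCoprime ((Q + C (AddMonoidAlgebra.single e c)).map φ)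
      ((derivative (Q + C (AddMonoidAlgebra.single e c))).map φ) := by
    rw [isCoprime_iff_aeval_ne_zero_of_isAlgClosed K Kb]
    intro ξ
    by_contra hcon
    push Not at hcon
    obtain ⟨h1, h2⟩ := hcon
    rw [aeval_def, eval₂_map] at h1 h2
    have h3 : (derivative Q).eval₂ ψ ξ = 0 := by
      rw [derivative_add, derivative_C, add_zero] at h2
      exact h2
    have h4 : Q.eval₂ ψ ξ + ψ (AddMonoidAlgebra.single e c) = 0 := by
      rw [eval₂_add, eval₂_C] at h1
      exact h1
    apply hc
    show ψ (AddMonoidAlgebra.single e c) ∈ ((Z.image fun ξ => -(Q.map ψ).eval ξ : Finset Kb) : Set Kb)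
    rw [Finset.mem_coe, Finset.mem_image]
    refine ⟨ξ, ?_, ?_⟩
    · rw [Multiset.mem_toFinset, mem_roots hQd, IsRoot, eval_map]
      exact h3
    · rw [eval_map]
      linear_combination -h4
  obtain ⟨δ, a, b, h1, h2⟩ := exists_delta _ _ hcop
  exact ⟨δ, a, b, h1, h2⟩

/-- in one variable all polynomials split near all directions -/
theorem splits_one (Q : (Lau ℂ 1)[X]) (hQ : Q.Monic) (l : Fin 1 → ℝ) (hl : l ≠ 0) (M : ℕ)
    (hM : 1 ≤ M) (hdM : Q.natDegree.factorial ∣ M) : SplitsNear (Q.map (pw 1 M)) l := by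
  classical
  have hl0 : l 0 ≠ 0 := fun h => hl (funext fun i => by
    rw [Subsingleton.elim i 0, h]
    rfl)
  by_cases hd : Q.natDegree = 0
  · have h1 : Q = 1 := by
      rw [← hQ.natDegree_eq_zero]
      exact hd
    refine splits_of_mono Q hQ l ⟨1, 1, 0, by rw [h1]; simp, 0, ?_, ?_⟩ M hM hdM
    · rw [Finsupp.mem_support_iff]
      have h6 : (1 : Lau ℂ 1) = AddMonoidAlgebra.single 0 1 := rfl
      rw [h6, AddMonoidAlgebra.coeff_single, Finsupp.single_eq_same]
      exact one_ne_zero
    · intro e he hne
      exfalso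
      have h6 : (1 : Lau ℂ 1) = AddMonoidAlgebra.single 0 1 := rfl
      rw [h6, AddMonoidAlgebra.coeff_single] at he
      exact hne (Finset.mem_singleton.1 (Finsupp.support_single_subset he))
  -- approximations in the direction `l`
  have happ : ∀ A : ℝ, ∃ p : Fin Q.natDegree → Lau ℂ 1,
      ∀ i, ∀ e ∈ ((Q.map (pw 1 M) - ∏ j, (X - C (p j))).coeff i).coeff.support, dot e l ≤ -A := by
    intro A
    obtain ⟨B, hB⟩ := exists_nat_ge (A / |l 0|)
    rw [div_le_iff₀ (abs_pos.2 hl0)] at hB
    let e0 : Fin 1 → ℤ := fun _ => if 0 < l 0 then -(B : ℤ) else B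
    have he0 : dot e0 l = -(B * |l 0|) := by
      unfold dot
      rw [Fin.sum_univ_one]
      simp only [e0]
      split_ifs with h
      · rw [abs_of_pos h]
        push_cast
        ring
      · rw [abs_of_nonpos (not_lt.1 h)]
        push_cast
        ring
    obtain ⟨c, δ, a, b, hδ, hab⟩ := exists_pert Q hQ hd e0
    set Qc : (Lau ℂ 1)[X] := Q + C (AddMonoidAlgebra.single e0 c) with hQc
    have hlt : (C (AddMonoidAlgebra.single e0 c) : (Lau ℂ 1)[X]).degree < Q.degree := by
      refine lt_of_le_of_lt degree_C_le ?_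
      exact natDegree_pos_iff_degree_pos.1 (Nat.pos_of_ne_zero hd)
    have hQcm : Qc.Monic := hQ.add_of_left hlt
    have hQcd : Qc.natDegree = Q.natDegree := natDegree_add_eq_left_of_degree_lt hlt
    have hmono : MonoD Qc l := by
      refine ⟨δ, a, b, hab, ?_⟩
      have hne : δ.coeff.support.Nonempty := supp_ne hδ
      obtain ⟨e1, he1, hmax⟩ := Finset.exists_max_image δ.coeff.support (fun e => dot e l) hne
      refine ⟨e1, he1, fun e he hne => lt_of_le_of_ne (hmax e he) fun h => hne ?_⟩
      unfold dot at h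
      rw [Fin.sum_univ_one, Fin.sum_univ_one] at h
      have h1 := mul_right_cancel₀ hl0 h
      funext i
      rw [Subsingleton.elim i 0]
      exact_mod_cast h1
    obtain ⟨ε, hε, h1⟩ := mono_core Qc hQcm l hmono M hM (by rw [hQcd]; exact hdM)
    obtain ⟨p, hp⟩ := h1 A
    refine ⟨fun j => p (Fin.cast hQcd.symm j), fun i e he => ?_⟩
    rw [prod_cast hQcd.symm (fun j => X - C (p j))] at he
    have h2 : Q.map (pw 1 M) - ∏ j, (X - C (p j)) = (Qc.map (pw 1 M) - ∏ j, (X - C (p j))) -
        C (AddMonoidAlgebra.single (fun i => M * e0 i) c) := by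
      have h5 : Qc.map (pw 1 M) = Q.map (pw 1 M) +
          C (AddMonoidAlgebra.single (fun i => M * e0 i) c) := by
        rw [hQc, Polynomial.map_add, Polynomial.map_C, pw_single]
      rw [h5]
      ring
    rw [h2, coeff_sub] at he
    have h3 : e ∈ ((Qc.map (pw 1 M) - ∏ j, (X - C (p j))).coeff i).coeff.support ∨
        e ∈ ((C (AddMonoidAlgebra.single (fun i => M * e0 i) c) :
          (Lau ℂ 1)[X]).coeff i).coeff.support := by
      by_contra hcon
      push Not at hcon
      rw [Finsupp.notMem_support_iff, Finsupp.notMem_support_iff] at hcon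
      rw [Finsupp.mem_support_iff] at he
      apply he
      have h4 : ∀ p q : Lau ℂ 1, (p - q).coeff e = p.coeff e - q.coeff e := fun _ _ => rfl
      rw [h4, hcon.1, hcon.2, sub_zero]
    rcases h3 with h3 | h3
    · exact hp l (fun i => by rw [sub_self, abs_zero]; exact hε.le) i e h3
    · rw [coeff_C] at h3
      split_ifs at h3 with hi
      · rw [AddMonoidAlgebra.coeff_single] at h3
        have h4 := Finset.mem_singleton.1 (Finsupp.support_single_subset h3)
        rw [h4]
        have h5 : dot (fun i => (M : ℤ) * e0 i) l = M * dot e0 l := by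
          unfold dot
          rw [Finset.mul_sum]
          refine Finset.sum_congr rfl fun i _ => ?_
          push_cast
          ring
        rw [h5, he0]
        have hM0 : (1 : ℝ) ≤ M := by exact_mod_cast hM
        have h6 : 0 ≤ B * |l 0| := mul_nonneg (Nat.cast_nonneg _) (abs_nonneg _)
        have h7 := le_mul_of_one_le_left h6 hM0
        linarith
      · simp at h3
  have hdeg : (Q.map (pw 1 M)).natDegree = Q.natDegree := hQ.natDegree_map _
  refine ⟨|l 0| / 2, by positivity, fun A => ?_⟩
  obtain ⟨p, hp⟩ := happ (2 * |A|)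
  refine ⟨1, fun i => p (Fin.cast hdeg i), one_ne_zero, fun l' hl' => ?_⟩
  -- the direction is a multiple of `l`
  have h1 := hl' 0
  set s : ℝ := l' 0 / l 0 with hs
  have hl's : l' = s • l := by
    funext i
    rw [Subsingleton.elim i 0, Pi.smul_apply, smul_eq_mul, hs, div_mul_cancel₀ _ hl0]
  have hs2 : 1 / 2 ≤ s := by
    have h2 : |s - 1| ≤ 1 / 2 := by
      have h3 : s - 1 = (l' 0 - l 0) / l 0 := by
        rw [hs]
        field_simp
      rw [h3, abs_div, div_le_iff₀ (abs_pos.2 hl0)]
      linarith
    have := (abs_le.1 h2).1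
    linarith
  have h2 := (close_one _ _ hdeg p (2 * |A|) l hp).smul s (by linarith)
  rw [hl's]
  intro i e he
  obtain ⟨s', hs', h3⟩ := h2 i e he
  refine ⟨s', hs', h3.trans ?_⟩
  have h4 : A ≤ 2 * |A| * s := by
    have h5 := le_abs_self A
    have h6 := abs_nonneg A
    nlinarith
  linarith

end Pool.Agent.H434.AJ
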