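import Mathlib
import Pool.Agent.H434.N10
import Pool.Agent.H434.N11
import Pool.Agent.H434.I3

/-!
The arithmetic half for covers of tori of general type, with conditions only for the translates of
subtori which contain the image of a point outside of the closed subset.
-/

set_option autoImplicit false
set_option linter.unusedSectionVars false

open Finset MvPolynomial Filter

namespace Pool.Agent.H434.GM

open Pool.Agent.H434
open Pool.Agent.N754.LT
open NumberField IsDedekindDomain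
open Pool.Agent.Y742.SF Pool.Agent.Y742.AR
open Pool.Agent.W235.RM Pool.Agent.H159R3.Exp

theorem rep_units {M : Type} [Field M] [NumberField M] [IsGalois ℚ M] (𝒰 : Ultrafilter ℕ) {r : ℕ}
    (w : Fin r → (BA M 𝒰)ˣ) (c : M) (b : Fin r → ℤ) (y : BA M 𝒰)
    (hy : y = algebraMap M (BA M 𝒰) c * ((∏ j, w j ^ b j : (BA M 𝒰)ˣ) : BA M 𝒰)) :
    ∀ᶠ t in (𝒰 : Filter ℕ), rep (K := M) (𝒰 := 𝒰) y t =
      c * ∏ j, rep (K := M) (𝒰 := 𝒰) (w j : BA M 𝒰) t ^ b j := by
  classical
  have h1 : ∀ T : Finset (Fin r), ∀ᶠ t in (𝒰 : Filter ℕ),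
      rep (K := M) (𝒰 := 𝒰) ((∏ j ∈ T, w j ^ b j : (BA M 𝒰)ˣ) : BA M 𝒰) t =
        ∏ j ∈ T, rep (K := M) (𝒰 := 𝒰) (w j : BA M 𝒰) t ^ b j := by
    intro T
    induction T using Finset.induction_on with
    | empty =>
      filter_upwards [Pool.Agent.Y742.AR.rep_one (K := M) (𝒰 := 𝒰)] with t h
      rw [Finset.prod_empty, Finset.prod_empty]
      exact h
    | insert i T hi ih =>
      filter_upwards [ih, rep_unit_zpow 𝒰 (w i) (b i), Pool.Agent.Y742.AR.rep_mul (K := M)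
        (𝒰 := 𝒰) ((w i ^ b i : (BA M 𝒰)ˣ) : BA M 𝒰)
        ((∏ j ∈ T, w j ^ b j : (BA M 𝒰)ˣ) : BA M 𝒰)] with t g1 g2 g3
      rw [Finset.prod_insert hi, Finset.prod_insert hi, ← g1, ← g2, Units.val_mul]
      exact g3
  filter_upwards [h1 Finset.univ, Pool.Agent.Y742.AR.rep_mul (K := M) (𝒰 := 𝒰)
    (algebraMap M (BA M 𝒰) c) ((∏ j, w j ^ b j : (BA M 𝒰)ˣ) : BA M 𝒰),
    Pool.Agent.Y742.AR.rep_cg (K := M) (𝒰 := 𝒰) c] with t g1 g3 g4
  have g5 : rep (K := M) (𝒰 := 𝒰) (algebraMap M (BA M 𝒰) c) t = c := g4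
  rw [hy, ← g1]
  refine Eq.trans g3 ?_
  rw [g5]

theorem integral_covX {K : Type} [Field K] [NumberField K] (σ : K →+* ℂ) {ι κ : Type}
    [Finite ι] {N n q : ℕ} (F : ι → MvPolynomial (Fin N) (𝓞 K))
    (G : κ → MvPolynomial (Fin N) (𝓞 K))
    (U : Fin n → Fin N) (J : Fin q → Fin N) (P : Fin q → Polynomial (MvPolynomial (Fin n) (𝓞 K)))
    (hP : ∀ j, (P j).Monic)
    (hU : ∀ z : Fin N → ℂ, (∀ l, eval₂ (σ.comp (algebraMap (𝓞 K) K)) z (F l) = 0) →
      ∀ i, z (U i) ≠ 0)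
    (hJ : ∀ z : Fin N → ℂ, (∀ l, eval₂ (σ.comp (algebraMap (𝓞 K) K)) z (F l) = 0) →
      ∀ j, (P j).eval₂ (eval₂Hom (σ.comp (algebraMap (𝓞 K) K)) fun i => z (U i)) (z (J j)) = 0)
    (e : ℕ) (he : 1 ≤ e)
    (hT : TameOn (XV σ F G U) e fun j => Pm (σ.comp (algebraMap (𝓞 K) K)) (P j))
    (hal : Alone σ F G (Finset.univ.image U ∪ Finset.univ.image J)) (h0 : ¬ HasLaurent F G) :
    FinitelyManyIntegral F G := by
  classical
  by_contra h
  unfold FinitelyManyIntegral at h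
  push Not at h
  obtain ⟨L, hL1, hL2, hL3, S, hS, hinf⟩ := h
  -- embeddings
  let : Algebra K ℂ := σ.toAlgebra
  have : Algebra.IsAlgebraic K L := by
    have h1 : Algebra.IsAlgebraic ℚ L := inferInstance
    exact Algebra.IsAlgebraic.tower_top (K := ℚ) K
  let φ0 : L →ₐ[K] ℂ := IsAlgClosed.lift
  let φ : L →+* ℂ := φ0
  have hφ : φ.comp (algebraMap K L) = σ := by
    ext c
    exact φ0.commutes _
  -- the units
  obtain ⟨S', hS', hSS', hunits⟩ := unit_points σ F (Finset.univ.image U) (by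
    intro z hz i hi
    obtain ⟨l, -, rfl⟩ := Finset.mem_image.1 hi
    exact hU z hz l) L S hS
  obtain ⟨T1, hT1a, hT1⟩ := sunit_roots φ S' hS' e he
  obtain ⟨M1, hM1a, hM1b, hM1c, hgal1, hi1, ψ1, hψ1, hT1r⟩ := exists_field φ T1 hT1a
  obtain ⟨S1, hS1, hSS1⟩ := ext_int L M1 S' hS'
  obtain ⟨D1, hD1⟩ := exists_PD hi1 S1 hS1
  have hTInt : ∀ x ∈ S'.integer L, D1.TInt (algebraMap L M1 x) := by
    intro x hx w hw
    refine (mem_integer_iff S1 _).1 (hSS1 x hx) w fun hwS => ?_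
    obtain ⟨v, hv⟩ := hD1 w hwS
    exact hw v hv
  -- the points
  let 𝒰 : Ultrafilter ℕ := Filter.hyperfilter ℕ
  have hinf2 : (intPoints F L S \ intPoints G L S).Infinite := hinf
  let en := hinf2.natEmbedding
  let xs : ℕ → Fin N → L := fun t => (en t).1
  have hxs : ∀ t, xs t ∈ intPoints F L S \ intPoints G L S := fun t => (en t).2
  have hxs' : ∀ t j, xs t j ∈ S'.integer L := by
    intro t j
    rw [mem_integer_iff]
    intro v hv
    exact (mem_integer_iff S _).1 ((hxs t).1.1 j) v fun h => hv (hSS' h)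
  have hroot : ∀ (i : Fin n) (t : ℕ), ∃ v : M1, v ^ e = algebraMap L M1 (xs t (U i)) ∧ v ≠ 0 ∧
      D1.TInt v ∧ D1.TInt v⁻¹ := by
    intro i t
    obtain ⟨u, hu, hux⟩ := hunits (xs t) (hxs t).1 (U i)
      (Finset.mem_image_of_mem _ (Finset.mem_univ _))
    obtain ⟨v, hv⟩ := hT1 M1 ψ1 hψ1 hT1r u hu
    have hu0 : algebraMap L M1 (u : L) ≠ 0 := (map_ne_zero _).2 (Units.ne_zero u)
    have hv0 : v ≠ 0 := by
      intro h0
      rw [h0, zero_pow (by omega)] at hv
      exact hu0 hv.symm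
    have huinv : (u : L)⁻¹ ∈ S'.integer L := by
      rw [mem_integer_iff]
      intro w hw
      rw [fv_le_one_iff, map_inv₀]
      have h1 : w.valuation L (u : L) = 1 := hu w hw
      rw [h1, inv_one]
    refine ⟨v, by rw [hv, hux], hv0, fun w hw => ?_, fun w hw => ?_⟩
    · have h1 : fv w (v ^ e) ≤ 1 := by
        rw [hv]
        have h2 : (u : L) ∈ S'.integer L := by
          rw [hux]
          exact hxs' t _
        exact hTInt _ h2 w hw
      rw [fv_pow] at h1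
      exact (pow_le_one_iff_of_nonneg (fv_nonneg _ _) (by omega)).1 h1
    · have h1 : fv w (v⁻¹ ^ e) ≤ 1 := by
        rw [inv_pow, hv, ← map_inv₀]
        exact hTInt _ huinv w hw
      rw [fv_pow] at h1
      exact (pow_le_one_iff_of_nonneg (fv_nonneg _ _) (by omega)).1 h1
  choose v hv hv0 hvT hvT' using hroot
  let τ1 : K →+* M1 := (algebraMap L M1).comp (algebraMap K L)
  have hτ1 : ψ1.comp τ1 = σ := by
    rw [← hφ, ← hψ1]
    rfl
  let y1 : Fin N → BA M1 𝒰 := ys 𝒰 xs M1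
  have hy1I : ∀ j, y1 j ∈ TIR D1 𝒰 := by
    intro j
    rw [mem_TIR]
    refine ⟨1, one_ne_zero, ?_⟩
    filter_upwards [rep_ys (M := M1) 𝒰 xs j] with t ht
    rw [ht]
    have h1 : ((1 : 𝓞 M1) : M1) = 1 := rfl
    rw [h1, one_mul]
    exact hTInt _ (hxs' t j)
  have hv1 : ∀ i, ∀ᶠ t in (𝒰 : Filter ℕ),
      rep (K := M1) (𝒰 := 𝒰) (gm 𝒰 (fun t => v i t) : GK M1 𝒰) t = v i t := fun i =>
    rep_gm (K := M1) (𝒰 := 𝒰) (fun t => v i t)
  have hv2 : ∀ i, ∀ᶠ t in (𝒰 : Filter ℕ),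
      rep (K := M1) (𝒰 := 𝒰) (gm 𝒰 (fun t => (v i t)⁻¹) : GK M1 𝒰) t = (v i t)⁻¹ := fun i =>
    rep_gm (K := M1) (𝒰 := 𝒰) (fun t => (v i t)⁻¹)
  have hvmul : ∀ i, (gm 𝒰 (fun t => v i t) : GK M1 𝒰) * gm 𝒰 (fun t => (v i t)⁻¹) = 1 := by
    intro i
    rw [← map_mul, ← map_one (gm (K := M1) 𝒰)]
    congr 1
    funext t
    exact mul_inv_cancel₀ (hv0 i t)
  let vu : Fin n → (BA M1 𝒰)ˣ := fun i =>
    { val := (gm 𝒰 (fun t => v i t) : GK M1 𝒰)
      inv := (gm 𝒰 (fun t => (v i t)⁻¹) : GK M1 𝒰)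
      val_inv := hvmul i
      inv_val := by
        have h1 := hvmul i
        rw [mul_comm] at h1
        exact h1 }
  have hvuW : ∀ i, vu i ∈ WA D1 𝒰 := by
    intro i
    rw [mem_WA, mem_TIR, mem_TIR]
    refine ⟨⟨1, one_ne_zero, ?_⟩, ⟨1, one_ne_zero, ?_⟩⟩
    · filter_upwards [hv1 i] with t ht
      have h1 : ((1 : 𝓞 M1) : M1) = 1 := rfl
      have h2 : rep (K := M1) (𝒰 := 𝒰) ((vu i : (BA M1 𝒰)ˣ) : BA M1 𝒰) t = v i t := ht
      rw [h1, one_mul, h2]
      exact hvT i t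
    · filter_upwards [hv2 i] with t ht
      have h1 : ((1 : 𝓞 M1) : M1) = 1 := rfl
      have h2 : rep (K := M1) (𝒰 := 𝒰) (((vu i)⁻¹ : (BA M1 𝒰)ˣ) : BA M1 𝒰) t = (v i t)⁻¹ := ht
      rw [h1, one_mul, h2]
      exact hvT' i t
  have hvue : ∀ i, ((vu i : (BA M1 𝒰)ˣ) : BA M1 𝒰) ^ e = y1 (U i) := by
    intro i
    show (gm 𝒰 (fun t => v i t) : GK M1 𝒰) ^ e = gm 𝒰 (fun t => algebraMap L M1 (xs t (U i)))
    rw [← map_pow]
    congr 1
    funext t
    exact hv i t
  have hFz : ∀ {M : Type} [Field M] [NumberField M] [Algebra L M] [IsGalois ℚ M] (l : ι),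
      aeval (ys 𝒰 xs M) (fm ((algebraMap L M).comp (algebraMap K L)) (F l)) = 0 :=
    fun l => aeval_ys 𝒰 xs (F l) fun t => (hxs t).1.2 l
  -- the equations of the roots hold on the points
  have hJz : ∀ {M : Type} [Field M] [NumberField M] [Algebra L M] [IsGalois ℚ M] (j : Fin q),
      (Pm ((((algebraMap L M).comp (algebraMap K L))).comp (algebraMap (𝓞 K) K)) (P j)).eval₂
        (MvPolynomial.aeval fun i => ys 𝒰 xs M (U i) :
          MvPolynomial (Fin n) M →ₐ[M] BA M 𝒰).toRingHom (ys 𝒰 xs M (J j)) = 0 := by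
    intro M _ _ _ _ j
    have h1 : ∀ t, (P j).eval₂ (eval₂Hom ((algebraMap K L).comp (algebraMap (𝓞 K) K))
        fun i => xs t (U i)) (xs t (J j)) = 0 := by
      intro t
      have h2 := hJ (fun i => φ (xs t i)) (fun l => by
        have h3 := congrArg φ ((hxs t).1.2 l)
        rw [map_zero, MvPolynomial.hom_eval₂, ← RingHom.comp_assoc, hφ] at h3
        exact h3) j
      apply φ.injective
      rw [map_zero, Polynomial.hom_eval₂]
      have h3 : φ.comp (eval₂Hom ((algebraMap K L).comp (algebraMap (𝓞 K) K))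
          fun i => xs t (U i)) = eval₂Hom (σ.comp (algebraMap (𝓞 K) K))
          fun i => φ (xs t (U i)) := by
        apply MvPolynomial.ringHom_ext
        · intro c
          rw [RingHom.comp_apply, eval₂Hom_C, eval₂Hom_C, ← hφ]
          rfl
        · intro i
          rw [RingHom.comp_apply, eval₂Hom_X', eval₂Hom_X']
      rw [h3]
      exact h2
    rw [Pm_eval]
    let ρg : (ℕ → M) →+* GK M 𝒰 := gm 𝒰
    let xt : Fin N → ℕ → M := fun i t => algebraMap L M (xs t i)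
    let cst : M →+* (ℕ → M) := Pi.constRingHom ℕ M
    let τ' : 𝓞 K →+* M := ((algebraMap L M).comp (algebraMap K L)).comp (algebraMap (𝓞 K) K)
    have h4 : (P j).eval₂ (eval₂Hom ((algebraMap M (BA M 𝒰)).comp τ')
        fun i => ys 𝒰 xs M (U i)) (ys 𝒰 xs M (J j)) =
        ρg ((P j).eval₂ (eval₂Hom (cst.comp τ') fun i => xt (U i)) (xt (J j))) := by
      rw [Polynomial.hom_eval₂]
      have h5 : ρg.comp (eval₂Hom (cst.comp τ') fun i => xt (U i)) =
          eval₂Hom ((algebraMap M (BA M 𝒰)).comp τ') fun i => ys 𝒰 xs M (U i) := by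
        apply MvPolynomial.ringHom_ext
        · intro c
          rw [RingHom.comp_apply, eval₂Hom_C]
          exact (eval₂Hom_C ((algebraMap M (BA M 𝒰)).comp τ') (fun i => ys 𝒰 xs M (U i)) c).symm
        · intro i
          rw [RingHom.comp_apply, eval₂Hom_X']
          exact (eval₂Hom_X' ((algebraMap M (BA M 𝒰)).comp τ') (fun i => ys 𝒰 xs M (U i)) i).symm
      rw [h5]
      rfl
    rw [h4]
    have h6 : (P j).eval₂ (eval₂Hom (cst.comp τ') fun i => xt (U i)) (xt (J j)) = 0 := by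
      funext t
      let evt : (ℕ → M) →+* M := Pi.evalRingHom (fun _ => M) t
      have h7 : evt ((P j).eval₂ (eval₂Hom (cst.comp τ') fun i => xt (U i)) (xt (J j))) = 0 := by
        have h8 := congrArg (algebraMap L M) (h1 t)
        rw [map_zero, Polynomial.hom_eval₂] at h8
        rw [Polynomial.hom_eval₂]
        have h9 : evt.comp (eval₂Hom (cst.comp τ') fun i => xt (U i)) =
            (algebraMap L M).comp (eval₂Hom ((algebraMap K L).comp (algebraMap (𝓞 K) K))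
              fun i => xs t (U i)) := by
          apply MvPolynomial.ringHom_ext
          · intro c
            rw [RingHom.comp_apply, RingHom.comp_apply, eval₂Hom_C, eval₂Hom_C]
            rfl
          · intro i
            rw [RingHom.comp_apply, RingHom.comp_apply, eval₂Hom_X', eval₂Hom_X']
            rfl
        rw [h9]
        exact h8
      exact h7
    rw [h6]
    exact map_zero ρg
  have hnc : ∃ i, ∀ c : M1, y1 i ≠ algebraMap M1 (BA M1 𝒰) c := by
    by_contra hcon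
    push Not at hcon
    choose c hc using hcon
    have h1 : ∀ᶠ t in (𝒰 : Filter ℕ), ∀ j, algebraMap L M1 (xs t j) = c j := by
      refine (Filter.eventually_all).2 fun j => ?_
      have h2 : ∀ᶠ t in (𝒰 : Filter ℕ), rep (K := M1) (𝒰 := 𝒰) (y1 j) t = c j := by
        rw [hc j]
        exact Pool.Agent.Y742.AR.rep_cg (K := M1) (𝒰 := 𝒰) (c j)
      filter_upwards [h2, rep_ys (M := M1) 𝒰 xs j] with t g1 g2
      rw [← g2, ← g1]
    have h2 : {t : ℕ | ∀ j, algebraMap L M1 (xs t j) = c j}.Subsingleton := by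
      intro t ht t' ht'
      apply en.injective
      apply Subtype.ext
      funext j
      apply (algebraMap L M1).injective
      exact (ht j).trans (ht' j).symm
    exact Filter.notMem_hyperfilter_of_finite h2.finite h1
  have hfin : ∀ {M : Type} [Field M] [NumberField M] [Algebra L M] (ψ : M →+* ℂ)
      (hψ : ψ.comp ((algebraMap L M).comp (algebraMap K L)) = σ),
      ((∃ z : Fin N → GC ℕ 𝒰,
        (∀ l, eval₂ ((thA 𝒰 ψ).comp (algebraMap M (BA M 𝒰))) z
          (fm ((algebraMap L M).comp (algebraMap K L)) (F l)) = 0) ∧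
        (∀ i ∈ Finset.univ.image U ∪ Finset.univ.image J, z i = thA 𝒰 ψ (ys 𝒰 xs M i)) ∧
        z ≠ fun j => thA 𝒰 ψ (ys 𝒰 xs M j)) ∨
      ∀ᶠ t in (𝒰 : Filter ℕ), CurveAt (rpA M 𝒰)
        (fun l => fm ((algebraMap L M).comp (algebraMap K L)) (F l)) (ys 𝒰 xs M) t) → False := by
    intro M _ _ _ ψ hψ halt
    exact arith_finish σ F G (Finset.univ.image U ∪ Finset.univ.image J) hal h0 S 𝒰 xs hxs ψ hψ
      halt
  have hclA : ∀ {M : Type} [Field M] [NumberField M] (x : BA M 𝒰) (P : Polynomial M),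
      P.Monic → P.eval₂ (algebraMap M (BA M 𝒰)) x = 0 → ∃ c : M, x = algebraMap M (BA M 𝒰) c := by
    intro M _ _ x P hP h
    let f : ℕ → M := rep (K := M) (𝒰 := 𝒰) x
    let cst : M →+* (ℕ → M) := Pi.constRingHom ℕ M
    have hx : (gm 𝒰 f : GK M 𝒰) = x := gm_rep (K := M) (𝒰 := 𝒰) x
    have h1 : (gm 𝒰 (P.eval₂ cst f) : GK M 𝒰) = 0 := by
      rw [Polynomial.hom_eval₂, hx]
      exact h
    have h2 : ∀ t, (P.eval₂ cst f) t = P.eval (f t) := by
      intro t
      have h3 : (Pi.evalRingHom (fun _ => M) t) (P.eval₂ cst f) = P.eval (f t) := by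
        rw [Polynomial.hom_eval₂]
        exact Polynomial.eval₂_id
      exact h3
    have h3 : ∀ᶠ t in (𝒰 : Filter ℕ), P.eval (f t) = 0 := by
      rw [← map_zero (gm (K := M) 𝒰), gm_eq] at h1
      filter_upwards [h1] with t ht
      rw [← h2, ht]
      rfl
    have h4 : ∀ᶠ t in (𝒰 : Filter ℕ), f t ∈ (P.roots.toFinset : Set M) := by
      filter_upwards [h3] with t ht
      rw [Finset.mem_coe, Multiset.mem_toFinset, Polynomial.mem_roots hP.ne_zero]
      exact ht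
    obtain ⟨c, -, hc⟩ := const_of_finite (K := M) (𝒰 := 𝒰) f _ (Finset.finite_toSet _) h4
    exact ⟨c, by rw [← hx, hc]; rfl⟩
  rcases exists_datU (geoA D1 𝒰) U e y1 vu hvuW hvue with hcon | ⟨d, -⟩
  · -- constant units
    refine hfin ψ1 hτ1 (Or.inl ?_)
    exact const_altQ (geoA D1 𝒰) hclA U J
      (fun j => Pm (τ1.comp (algebraMap (𝓞 K) K)) (P j)) (fun j => (hP j).map _) y1
      (fun l => fm τ1 (F l)) hFz hJz hcon hnc (thA 𝒰 ψ1) (thA 𝒰 ψ1).injective
  · have halg1 : ∀ x : M1, IsAlgebraic ℚ (ψ1 x) := by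
      intro x
      have h1 : IsIntegral ℚ x := Algebra.IsIntegral.isIntegral _
      exact (h1.map (ψ1.toRatAlgHom : M1 →ₐ[ℚ] ℂ)).isAlgebraic
    let τK : 𝓞 K →+* ℂ := σ.comp (algebraMap (𝓞 K) K)
    have hhit : ∃ x ∈ XV σ F G U, ∃ t : Fin d.r → ℂ, (∀ j, t j ≠ 0) ∧
        ∀ i, x i = ψ1 (d.c i) * ∏ j, t j ^ d.a i j := by
      have g1 : ∀ᶠ t in (𝒰 : Filter ℕ), ∀ i, algebraMap L M1 (xs t (U i)) =
          d.c i * ∏ j, rep (K := M1) (𝒰 := 𝒰) (d.w j : BA M1 𝒰) t ^ ((e : ℤ) * d.a i j) := by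
        refine (Filter.eventually_all).2 fun i => ?_
        filter_upwards [rep_units 𝒰 d.w (d.c i) (fun j => (e : ℤ) * d.a i j) (y1 (U i)) (d.hU i),
          rep_ys (M := M1) 𝒰 xs (U i)] with t h1 h2
        rw [← h1, ← h2]
      have g2 : ∀ᶠ t in (𝒰 : Filter ℕ), ∀ j,
          rep (K := M1) (𝒰 := 𝒰) (d.w j : BA M1 𝒰) t ≠ 0 :=
        (Filter.eventually_all).2 fun j => Pool.Agent.Y742.AR.rep_ne (K := M1) (𝒰 := 𝒰) _
          (Units.ne_zero _)
      obtain ⟨t, g3, g4⟩ := (g1.and g2).exists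
      have hz1 : ∀ {P : MvPolynomial (Fin N) (𝓞 K)},
          eval₂ (σ.comp (algebraMap (𝓞 K) K)) (fun i => φ (xs t i)) P =
            φ (eval₂ ((algebraMap K L).comp (algebraMap (𝓞 K) K)) (xs t) P) := by
        intro P
        rw [MvPolynomial.hom_eval₂, ← RingHom.comp_assoc, hφ]
      refine ⟨fun i => φ (xs t (U i)), ⟨fun i => φ (xs t i), fun l => ?_, ?_, fun i => rfl⟩,
        fun j => ψ1 (rep (K := M1) (𝒰 := 𝒰) (d.w j : BA M1 𝒰) t ^ e),
        fun j => (map_ne_zero ψ1).2 (pow_ne_zero _ (g4 j)), fun i => ?_⟩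
      · rw [hz1, (hxs t).1.2 l, map_zero]
      · by_contra hcon
        push Not at hcon
        apply (hxs t).2
        refine ⟨(hxs t).1.1, fun l => ?_⟩
        have h1 := hcon l
        rw [hz1] at h1
        exact (map_eq_zero φ).1 h1
      · show φ (xs t (U i)) = ψ1 (d.c i) *
          ∏ j, ψ1 (rep (K := M1) (𝒰 := 𝒰) (d.w j : BA M1 𝒰) t ^ e) ^ d.a i j
        rw [← hψ1]
        show ψ1 (algebraMap L M1 (xs t (U i))) = _
        rw [g3 i, map_mul, map_prod]
        congr 1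
        refine Finset.prod_congr rfl fun j _ => ?_
        rw [zpow_mul, zpow_natCast, map_zpow₀]
    have hpull : ∀ {M : Type} [Field M] (ψ : M →+* ℂ) (τ : 𝓞 K →+* M), ψ.comp τ = τK →
        ∀ (c : Fin n → M) (j : Fin q), (pullQ e d.a c (Pm τ (P j))).map (Lm d.r ψ) =
          pullQ e d.a (fun i => ψ (c i)) (Pm τK (P j)) := by
      intro M _ ψ τ hψτ c j
      unfold pullQ Pm
      rw [Polynomial.map_map, Polynomial.map_map, Polynomial.map_map]
      congr 1
      apply MvPolynomial.ringHom_ext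
      · intro x
        apply AddMonoidAlgebra.ext
        ext b
        simp only [RingHom.comp_apply, MvPolynomial.map_C, AlgHom.toRingHom_eq_coe,
          RingHom.coe_coe, MvPolynomial.algHom_C]
        rw [Lm_coeff, ← hψτ]
        simp only [RingHom.comp_apply]
        have h1 : ∀ {B : Type} [Field B] (x : B), (algebraMap B (Lau B d.r) x).coeff b =
            if 0 = b then x else 0 := by
          intro B _ x
          have h2 : algebraMap B (Lau B d.r) x = AddMonoidAlgebra.single 0 x := by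
            simp [AddMonoidAlgebra.algebraMap_def]
          rw [h2, AddMonoidAlgebra.coeff_single, Finsupp.single_apply]
        rw [h1, h1]
        split_ifs
        · rfl
        · exact map_zero _
      · intro i
        simp only [RingHom.comp_apply, MvPolynomial.map_X, AlgHom.toRingHom_eq_coe,
          RingHom.coe_coe, MvPolynomial.aeval_X]
        exact AddMonoidAlgebra.mapRingHom_single _ _ _
    have hmon : ∀ j, (pullQ e d.a (fun i => ψ1 (d.c i)) (Pm τK (P j))).Monic := fun j =>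
      ((hP j).map _).map _
    obtain ⟨T2, hT2a, hT2⟩ := tame_desc
      (fun j => pullQ e d.a (fun i => ψ1 (d.c i)) (Pm τK (P j))) hmon
      (hT d.r d.hr d.rank_le d.a (fun i => ψ1 (d.c i)) d.hspan
        (fun i => (map_ne_zero ψ1).2 (d.hc i)) hhit)
    have hψτ1 : ψ1.comp (τ1.comp (algebraMap (𝓞 K) K)) = τK := by
      rw [← RingHom.comp_assoc, hτ1]
    obtain ⟨M2, hM2a, hM2b, hM2c, hgal2, hi2, ψ2, hψ2, hT2r⟩ := exists_field ψ1 T2 (hT2a (by
      intro j a b
      rw [← hpull ψ1 _ hψτ1 d.c j, Polynomial.coeff_map, Lm_coeff]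
      exact halg1 _))
    let τ2 : M1 →+* M2 := algebraMap M1 M2
    let : Algebra L M2 := (τ2.comp (algebraMap L M1)).toAlgebra
    obtain ⟨D2, hD2⟩ := exists_PD2 M1 M2 hi2 D1
    let d2 := d.bc (τ := τ2) (fun u hu => WA_bc D1 D2 hD2 u hu) (unitA D2 𝒰)
    have hy2 : (fun i => bc τ2 𝒰 (y1 i)) = ys 𝒰 xs M2 := by
      funext i
      show (gm 𝒰 (fun t => τ2 (rep (K := M1) (𝒰 := 𝒰) (y1 i) t)) : GK M2 𝒰) =
        gm 𝒰 (fun t => algebraMap L M2 (xs t i))
      rw [gm_eq]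
      filter_upwards [rep_ys (M := M1) 𝒰 xs i] with t ht
      have h1 : rep (K := M1) (𝒰 := 𝒰) (y1 i) t = algebraMap L M1 (xs t i) := ht
      rw [h1]
      rfl
    have hy2I : ∀ i, bc τ2 𝒰 (y1 i) ∈ (geoA D2 𝒰).I := fun i => TIR_bc D1 D2 hD2 _ (hy1I i)
    have hτ2 : ψ2.comp ((algebraMap L M2).comp (algebraMap K L)) = σ := by
      rw [← hτ1, ← hψ2]
      rfl
    have hfm2 : ∀ {N : ℕ} (P : MvPolynomial (Fin N) (𝓞 K)), MvPolynomial.map τ2 (fm τ1 P) =
        fm ((algebraMap L M2).comp (algebraMap K L)) P := fun P => by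
      rw [map_fm]
      rfl
    let τM2 : 𝓞 K →+* M2 := ((algebraMap L M2).comp (algebraMap K L)).comp (algebraMap (𝓞 K) K)
    have hψτ2 : ψ2.comp τM2 = τK := by
      simp only [τM2, τK]
      rw [← RingHom.comp_assoc, hτ2]
    have hJ2 : ∀ j, (Pm τM2 (P j)).eval₂ (MvPolynomial.aeval fun i => bc τ2 𝒰 (y1 (U i)) :
        MvPolynomial (Fin n) M2 →ₐ[M2] BA M2 𝒰).toRingHom (bc τ2 𝒰 (y1 (J j))) = 0 := by
      intro j
      have h1 := hJz (M := M2) j
      rw [← hy2] at h1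
      exact h1
    have hF2 : ∀ l, aeval (fun i => bc τ2 𝒰 (y1 i)) (MvPolynomial.map τ2 (fm τ1 (F l))) = 0 := by
      intro l
      have h1 := hFz (M := M2) l
      rw [← hy2] at h1
      rw [hfm2]
      exact h1
    apply hfin ψ2 hτ2
    rw [← hy2]
    have hFM : (fun l => fm ((algebraMap L M2).comp (algebraMap K L)) (F l)) =
        fun l => MvPolynomial.map τ2 (fm τ1 (F l)) := funext fun l => (hfm2 (F l)).symm
    have hFM' : ∀ l, fm ((algebraMap L M2).comp (algebraMap K L)) (F l) =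
        MvPolynomial.map τ2 (fm τ1 (F l)) := fun l => (hfm2 (F l)).symm
    rw [hFM]
    simp only [hFM']
    refine coset_altQ (geoA D2 𝒰) (rpA M2 𝒰) U J he (fun j => Pm τM2 (P j))
      (fun j => (hP j).map _) (fun i => bc τ2 𝒰 (y1 i)) hy2I
      (fun l => MvPolynomial.map τ2 (fm τ1 (F l))) hF2 d2 hJ2 ?_ (thA 𝒰 ψ2) (thA 𝒰 ψ2).injective
    refine hT2 M2 ψ2 _ (fun j => ((hP j).map _).map _) (fun j => ?_) hT2r
    have h1 := hpull ψ2 τM2 hψτ2 (fun i => τ2 (d.c i)) j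
    have h2 : (fun i => ψ2 (τ2 (d.c i))) = fun i => ψ1 (d.c i) := by
      funext i
      rw [← hψ2]
      rfl
    rw [h2] at h1
    exact h1

end Pool.Agent.H434.GM
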