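import Mathlib
import Pool.Agent.H434.O9

/-!
The splitting criterion for products.
-/

set_option autoImplicit false
set_option linter.unusedSectionVars false

open Polynomial

namespace Pool.Agent.H434.AJ

open Pool.Agent.H434.GM

variable {r : ℕ}

/-- the exponents of the coefficients are bounded in the direction `l` -/
def EB (l : Fin r → ℝ) (Q : (Lau ℂ r)[X]) (C : ℝ) : Prop :=
  ∀ i, ∀ e ∈ (Q.coeff i).coeff.support, dot e l ≤ C

theorem EB.mono {l : Fin r → ℝ} {Q : (Lau ℂ r)[X]} {C D : ℝ} (h : EB l Q C) (hCD : C ≤ D) :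
    EB l Q D := fun i e he => (h i e he).trans hCD

theorem EB.add {l : Fin r → ℝ} {Q R : (Lau ℂ r)[X]} {C : ℝ} (h1 : EB l Q C) (h2 : EB l R C) :
    EB l (Q + R) C := by
  classical
  intro i e he
  have h3 : e ∈ (Q.coeff i).coeff.support ∨ e ∈ (R.coeff i).coeff.support := by
    by_contra hcon
    push Not at hcon
    rw [Finsupp.notMem_support_iff, Finsupp.notMem_support_iff] at hcon
    rw [Finsupp.mem_support_iff, coeff_add] at he
    apply he
    have h4 : ∀ p q : Lau ℂ r, (p + q).coeff e = p.coeff e + q.coeff e := fun _ _ => rfl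
    rw [h4, hcon.1, hcon.2, add_zero]
  rcases h3 with h3 | h3
  · exact h1 i e h3
  · exact h2 i e h3

theorem EB.sub {l : Fin r → ℝ} {Q R : (Lau ℂ r)[X]} {C : ℝ} (h1 : EB l Q C) (h2 : EB l R C) :
    EB l (Q - R) C := by
  classical
  intro i e he
  have h3 : e ∈ (Q.coeff i).coeff.support ∨ e ∈ (R.coeff i).coeff.support := by
    by_contra hcon
    push Not at hcon
    rw [Finsupp.notMem_support_iff, Finsupp.notMem_support_iff] at hcon
    rw [Finsupp.mem_support_iff, coeff_sub] at he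
    apply he
    have h4 : ∀ p q : Lau ℂ r, (p - q).coeff e = p.coeff e - q.coeff e := fun _ _ => rfl
    rw [h4, hcon.1, hcon.2, sub_zero]
  rcases h3 with h3 | h3
  · exact h1 i e h3
  · exact h2 i e h3

theorem lau_mul_supp {p q : Lau ℂ r} {e : Fin r → ℤ} (he : e ∈ (p * q).coeff.support) :
    ∃ a ∈ p.coeff.support, ∃ b ∈ q.coeff.support, a + b = e := by
  classical
  by_contra hcon
  push Not at hcon
  rw [Finsupp.mem_support_iff] at he
  apply he
  rw [AddMonoidAlgebra.coeff_mul]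
  unfold Finsupp.sum
  refine Finset.sum_eq_zero fun a ha => Finset.sum_eq_zero fun b hb => ?_
  show (if a + b = e then p.coeff a * q.coeff b else 0) = 0
  rw [if_neg (hcon a ha b hb)]

theorem lau_sum_supp {ι : Type} (s : Finset ι) (f : ι → Lau ℂ r) {e : Fin r → ℤ}
    (he : e ∈ (∑ i ∈ s, f i).coeff.support) : ∃ i ∈ s, e ∈ (f i).coeff.support := by
  classical
  induction s using Finset.induction_on with
  | empty =>
    exfalso
    rw [Finset.sum_empty] at he
    rw [Finsupp.mem_support_iff] at he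
    exact he rfl
  | insert i s hi ih =>
    rw [Finset.sum_insert hi] at he
    by_cases h : e ∈ (f i).coeff.support
    · exact ⟨i, Finset.mem_insert_self _ _, h⟩
    · have h2 : e ∈ (∑ i ∈ s, f i).coeff.support := by
        rw [Finsupp.notMem_support_iff] at h
        rw [Finsupp.mem_support_iff] at he ⊢
        intro h3
        apply he
        have h4 : ∀ p q : Lau ℂ r, (p + q).coeff e = p.coeff e + q.coeff e := fun _ _ => rfl
        rw [h4, h, h3, add_zero]
      obtain ⟨j, hj, h3⟩ := ih h2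
      exact ⟨j, Finset.mem_insert_of_mem hj, h3⟩

theorem EB.mul {l : Fin r → ℝ} {Q R : (Lau ℂ r)[X]} {C D : ℝ} (h1 : EB l Q C) (h2 : EB l R D) :
    EB l (Q * R) (C + D) := by
  classical
  intro i e he
  rw [Polynomial.coeff_mul] at he
  obtain ⟨⟨a, b⟩, -, h3⟩ := lau_sum_supp _ _ he
  obtain ⟨x, hx, y, hy, rfl⟩ := lau_mul_supp h3
  rw [dot_add]
  exact add_le_add (h1 a x hx) (h2 b y hy)

theorem exists_EB (Q : (Lau ℂ r)[X]) (l : Fin r → ℝ) (ε : ℝ) : ∃ C : ℝ, 0 ≤ C ∧
    ∀ l' : Fin r → ℝ, (∀ i, |l' i - l i| ≤ ε) → EB l' Q C := by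
  classical
  let T : Finset (Fin r → ℤ) := Q.support.biUnion fun i => (Q.coeff i).coeff.support
  let f : (Fin r → ℤ) → ℝ := fun e => ∑ i, |(e i : ℝ)| * (|l i| + |ε|)
  have hf : ∀ e, 0 ≤ f e := fun e => Finset.sum_nonneg fun i _ =>
    mul_nonneg (abs_nonneg _) (add_nonneg (abs_nonneg _) (abs_nonneg _))
  refine ⟨∑ e ∈ T, f e, Finset.sum_nonneg fun e _ => hf e, fun l' hl' i e he => ?_⟩
  have hi : i ∈ Q.support := by
    rw [Polynomial.mem_support_iff]
    intro h0
    rw [h0] at he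
    rw [Finsupp.mem_support_iff] at he
    exact he rfl
  have heT : e ∈ T := Finset.mem_biUnion.2 ⟨i, hi, he⟩
  have h1 : f e ≤ ∑ e ∈ T, f e := Finset.single_le_sum (fun e _ => hf e) heT
  refine le_trans ?_ h1
  unfold dot
  refine Finset.sum_le_sum fun j _ => ?_
  have h2 : |l' j| ≤ |l j| + |ε| := by
    have h3 : l' j = l j + (l' j - l j) := by ring
    rw [h3]
    exact (abs_add_le _ _).trans (add_le_add le_rfl ((hl' j).trans (le_abs_self _)))
  calc (e j : ℝ) * l' j ≤ |(e j : ℝ) * l' j| := le_abs_self _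
    _ = |(e j : ℝ)| * |l' j| := abs_mul _ _
    _ ≤ _ := mul_le_mul_of_nonneg_left h2 (abs_nonneg _)

/-- `Q` has approximate linear factorisations near `l` over the Laurent polynomials -/
def Apx (Q : (Lau ℂ r)[X]) (l : Fin r → ℝ) : Prop :=
  ∃ ε : ℝ, 0 < ε ∧ ∀ A : ℝ, ∃ (I : Type) (_ : Fintype I) (p : I → Lau ℂ r),
    Fintype.card I = Q.natDegree ∧ ∀ l' : Fin r → ℝ, (∀ i, |l' i - l i| ≤ ε) →
      EB l' (Q - ∏ i, (X - C (p i))) (-A)

theorem Apx.one (l : Fin r → ℝ) : Apx (1 : (Lau ℂ r)[X]) l := by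
  refine ⟨1, one_pos, fun A => ⟨Fin 0, inferInstance, fun i => i.elim0, ?_, fun l' _ i e he => ?_⟩⟩
  · rw [Fintype.card_fin, natDegree_one]
  · exfalso
    rw [Finset.univ_eq_empty, Finset.prod_empty, sub_self, coeff_zero] at he
    rw [Finsupp.mem_support_iff] at he
    exact he rfl

theorem Apx.mul {Q R : (Lau ℂ r)[X]} {l : Fin r → ℝ} (hQ : Q.Monic) (hR : R.Monic)
    (h1 : Apx Q l) (h2 : Apx R l) : Apx (Q * R) l := by
  classical
  obtain ⟨ε1, hε1, h1⟩ := h1
  obtain ⟨ε2, hε2, h2⟩ := h2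
  obtain ⟨C1, hC1, hb1⟩ := exists_EB Q l (min ε1 ε2)
  obtain ⟨C2, hC2, hb2⟩ := exists_EB R l (min ε1 ε2)
  refine ⟨min ε1 ε2, lt_min hε1 hε2, fun A => ?_⟩
  obtain ⟨I, hI, p, hIc, hp⟩ := h1 (max (A + C2) 0)
  obtain ⟨J, hJ, s, hJc, hs⟩ := h2 (A + C1)
  refine ⟨I ⊕ J, inferInstance, Sum.elim p s, ?_, fun l' hl' => ?_⟩
  · rw [Fintype.card_sum, hIc, hJc, hQ.natDegree_mul hR]
  · rw [Fintype.prod_sum_type]
    simp only [Sum.elim_inl, Sum.elim_inr]
    set P : (Lau ℂ r)[X] := ∏ i, (X - C (p i)) with hP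
    set S : (Lau ℂ r)[X] := ∏ i, (X - C (s i)) with hS
    have e1 : EB l' (Q - P) (-max (A + C2) 0) :=
      hp l' fun i => (hl' i).trans (min_le_left _ _)
    have e2 : EB l' (R - S) (-(A + C1)) := hs l' fun i => (hl' i).trans (min_le_right _ _)
    have e3 : EB l' P C1 := by
      have h3 : P = Q - (Q - P) := by ring
      rw [h3]
      refine (hb1 l' hl').sub (e1.mono ?_)
      have := le_max_right (A + C2) 0
      linarith
    have h3 : Q * R - P * S = (Q - P) * R + P * (R - S) := by ring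
    rw [h3]
    refine EB.add ((e1.mul (hb2 l' hl')).mono ?_) ((e3.mul e2).mono ?_)
    · have := le_max_left (A + C2) 0
      linarith
    · linarith

theorem Apx.prod {ι : Type} (s : Finset ι) (R : ι → (Lau ℂ r)[X]) (l : Fin r → ℝ)
    (hR : ∀ i, (R i).Monic) (h : ∀ i, Apx (R i) l) : Apx (∏ i ∈ s, R i) l := by
  classical
  induction s using Finset.induction_on with
  | empty => rw [Finset.prod_empty]; exact Apx.one l
  | insert i s hi ih =>
    rw [Finset.prod_insert hi]
    exact (h i).mul (hR i) (monic_prod_of_monic _ _ fun j _ => hR j) ih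

theorem Apx.splits {Q : (Lau ℂ r)[X]} {l : Fin r → ℝ} (h : Apx Q l) : SplitsNear Q l := by
  classical
  obtain ⟨ε, hε, h⟩ := h
  refine ⟨ε, hε, fun A => ?_⟩
  obtain ⟨I, hI, p, hIc, hp⟩ := h A
  let eq := Fintype.equivFinOfCardEq hIc
  have h1 : ∏ i, (X - C (p i)) = ∏ j, (X - C (p (eq.symm j))) :=
    (Equiv.prod_comp eq.symm fun i => (X - C (p i) : (Lau ℂ r)[X])).symm
  refine ⟨1, fun j => p (eq.symm j), one_ne_zero, fun l' hl' => ?_⟩
  refine close_one Q Q.natDegree rfl (fun j => p (eq.symm j)) A l' ?_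
  rw [← h1]
  exact hp l' hl'

theorem apx_of_mono (Q : (Lau ℂ r)[X]) (hQ : Q.Monic) (l : Fin r → ℝ)
    (h : MonoD Q l) (M : ℕ) (hM : 1 ≤ M) (hdM : Q.natDegree.factorial ∣ M) :
    Apx (Q.map (pw r M)) l := by
  obtain ⟨ε, hε, h1⟩ := mono_core Q hQ l h M hM hdM
  refine ⟨ε, hε, fun A => ?_⟩
  obtain ⟨p, hp⟩ := h1 A
  exact ⟨Fin Q.natDegree, inferInstance, p, by rw [Fintype.card_fin, hQ.natDegree_map], hp⟩

/-- a product of monic polynomials for which the leading forms of some elements of the ideals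
generated by the factors and their derivatives are monomials -/
def MonoP (Q : (Lau ℂ r)[X]) (l : Fin r → ℝ) : Prop :=
  ∃ (k : ℕ) (R : Fin k → (Lau ℂ r)[X]), Q = ∏ i, R i ∧ ∀ i, (R i).Monic ∧ MonoD (R i) l

theorem splits_of_monoP (Q : (Lau ℂ r)[X]) (l : Fin r → ℝ)
    (h : MonoP Q l) (M : ℕ) (hM : 1 ≤ M) (hdM : Q.natDegree.factorial ∣ M) :
    SplitsNear (Q.map (pw r M)) l := by
  classical
  obtain ⟨k, R, hR, h⟩ := h
  have h1 : Q.map (pw r M) = ∏ i, (R i).map (pw r M) := by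
    rw [hR, Polynomial.map_prod]
  rw [h1]
  refine (Apx.prod Finset.univ (fun i => (R i).map (pw r M)) l (fun i => (h i).1.map _)
    fun i => ?_).splits
  refine apx_of_mono (R i) (h i).1 l (h i).2 M hM (dvd_trans ?_ hdM)
  refine Nat.factorial_dvd_factorial ?_
  rw [hR, natDegree_prod_of_monic _ _ fun i _ => (h i).1]
  exact Finset.single_le_sum (f := fun i => (R i).natDegree) (fun _ _ => Nat.zero_le _)
    (Finset.mem_univ i)

/-- the polynomial splits near `l` after the substitution of the powers, or is of small degree and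
its discriminant is a monomial near `l` -/
def GoodAt {n : ℕ} (M : ℕ) (a : Fin n → Fin r → ℤ) (c : Fin n → ℂ)
    (P : (MvPolynomial (Fin n) ℂ)[X]) (l : Fin r → ℝ) : Prop :=
  SplitsNear (pullQ M a c P) l ∨
    P.natDegree.factorial ∣ M ∧ (r = 1 ∨ MonoP (pullQ 1 a c P) l)

theorem pullQ_pw {n : ℕ} (M : ℕ) (a : Fin n → Fin r → ℤ) (c : Fin n → ℂ)
    (P : (MvPolynomial (Fin n) ℂ)[X]) : (pullQ 1 a c P).map (pw r M) = pullQ M a c P := by
  unfold pullQ
  rw [Polynomial.map_map]
  congr 1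
  apply MvPolynomial.ringHom_ext
  · intro x
    simp only [RingHom.comp_apply, AlgHom.toRingHom_eq_coe, RingHom.coe_coe,
      MvPolynomial.algHom_C]
    have h2 : algebraMap ℂ (Lau ℂ r) x = AddMonoidAlgebra.single 0 x := by
      simp
    rw [h2, pw_single]
    congr 1
  · intro i
    simp only [RingHom.comp_apply, AlgHom.toRingHom_eq_coe, RingHom.coe_coe,
      MvPolynomial.aeval_X]
    rw [pw_single]
    congr 1
    funext j
    simp

theorem GoodAt.splits {n : ℕ} {M : ℕ} (hM : 1 ≤ M) {a : Fin n → Fin r → ℤ} {c : Fin n → ℂ}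
    {P : (MvPolynomial (Fin n) ℂ)[X]} (hP : P.Monic) {l : Fin r → ℝ} (hl : l ≠ 0)
    (h : GoodAt M a c P l) : SplitsNear (pullQ M a c P) l := by
  rcases h with h | ⟨hdM, h⟩
  · exact h
  · have hPm : (pullQ 1 a c P).Monic := hP.map _
    have hPd : (pullQ 1 a c P).natDegree = P.natDegree := hP.natDegree_map _
    rw [← pullQ_pw]
    rcases h with h | h
    · subst h
      exact splits_one _ hPm l hl M hM (by rw [hPd]; exact hdM)
    · exact splits_of_monoP _ l h M hM (by rw [hPd]; exact hdM)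

end Pool.Agent.H434.AJ
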