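import Mathlib
import Pool.Agent.H434.N12
import Pool.Agent.H434.O10

/-!
The conditions for the translates of subtori in terms of the discriminants.
-/

set_option autoImplicit false
set_option linter.unusedSectionVars false

namespace Pool.Agent.H434.AJ

open Pool.Agent.H434.GM

theorem tameOn_of {q n : ℕ} (X : Set (Fin n → ℂ)) (M : ℕ) (hM : 1 ≤ M)
    (P : Fin q → Polynomial (MvPolynomial (Fin n) ℂ)) (hP : ∀ j, (P j).Monic)
    (h : ∀ r : ℕ, 1 ≤ r → r ≤ n → ∀ (a : Fin n → Fin r → ℤ) (c : Fin n → ℂ),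
      (∀ j, Pi.single j 1 ∈ Submodule.span ℤ (Set.range a)) → (∀ i, c i ≠ 0) →
      (∃ x ∈ X, ∃ t : Fin r → ℂ, (∀ j, t j ≠ 0) ∧ ∀ i, x i = c i * ∏ j, t j ^ a i j) →
      ∀ s : Set (Fin q), s.Nonempty → (∀ j, NoRoot (pullQ M a c (P j)) → j ∈ s) →
        (∀ j ∈ s, ¬ IsProd (pullQ M a c (P j))) →
        ∃ μ : Fin r → ℝ, ∀ l : Fin r → ℝ, l ≠ 0 → 0 ≤ ∑ i, μ i * l i →
          ∃ j ∈ s, GoodAt M a c (P j) l) :
    TameOn X M P := by
  intro r hr hrn a c ha hc hX s hs h1 h2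
  obtain ⟨μ, hμ⟩ := h r hr hrn a c ha hc hX s hs h1 h2
  refine ⟨μ, fun l hl hl2 => ?_⟩
  obtain ⟨j, hj, hg⟩ := hμ l hl hl2
  exact ⟨j, hj, hg.splits hM (hP j) hl⟩

end Pool.Agent.H434.AJ
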