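import Mathlib
import Pool.Agent.H434.N12
import Pool.Agent.H434.I1

/-!
The size of the approximations at single places.
-/

set_option autoImplicit false
set_option linter.unusedSectionVars false

open Finset Filter Module Polynomial

namespace Pool.Agent.H434.GM

open Pool.Agent.H434
open Pool.Agent.N754.LT
open NumberField IsDedekindDomain
open Pool.Agent.Y742.SF Pool.Agent.Y742.AR
open Pool.Agent.W235.RM Pool.Agent.H159R3.Exp

section dc

variable {k : Type} [Field k] {r : ℕ} {R : Type} [CommRing R] [IsDomain R] [Algebra k R]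
  (D : Dc k R)

theorem pt_neg [CharZero k] (u : Fin r → Rˣ)
    (hu : AlgebraicIndependent k (fun i => (u i : R)))
    (Q : (Lau k r)[X]) (hQ : Q.Monic) (w : R) (hw : evQ k u w Q = 0)
    (hirr : ∀ p q : Lau k r, evL k u p * w = evL k u q → p = 0)
    (C1 : ℝ) (hC1 : 0 ≤ C1)
    (hE : ∀ a, ∀ e ∈ (Q.coeff a).coeff.support, ∀ i, |(e i : ℝ)| ≤ C1)
    (g : Lau k r) (hg : g ≠ 0) (b : Fin Q.natDegree → Lau k r) (A : D.Ω → ℝ)
    (hA : ∀ ω, A ω ≤ 0 ∨ CloseG Q g b (A ω) (lgv D u ω)) :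
    D.Neg (fun ω => A ω / Q.natDegree - (1 + 2 ^ r) * C1 * sz (lgv D u ω)) := by
  classical
  let K : Finset (Lau k r × Lau k r) :=
    insert (1, 0) (Finset.univ.image fun i => (g, b i))
  have hK0 : ((1 : Lau k r), (0 : Lau k r)) ∈ K := Finset.mem_insert_self _ _
  have hKT : ∀ i, (g, b i) ∈ K := fun i => Finset.mem_insert_of_mem
    (Finset.mem_image_of_mem _ (Finset.mem_univ i))
  have hKg : ∀ p ∈ K, p.1 ≠ 0 := by
    intro p hp
    rcases Finset.mem_insert.1 hp with rfl | hp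
    · exact one_ne_zero
    · obtain ⟨i, -, rfl⟩ := Finset.mem_image.1 hp
      exact hg
  have hmin : ∀ (ω : D.Ω), ∃ p : K, ∀ p' ∈ K,
      D.lg (evL k u p.1.1 * w - evL k u p.1.2) ω - mxL p.1.1 (lgv D u ω) ≤
        D.lg (evL k u p'.1 * w - evL k u p'.2) ω - mxL p'.1 (lgv D u ω) := by
    intro ω
    obtain ⟨p, hp, h⟩ := Finset.exists_min_image K
      (fun p => D.lg (evL k u p.1 * w - evL k u p.2) ω - mxL p.1 (lgv D u ω)) ⟨_, hK0⟩
    exact ⟨⟨p, hp⟩, h⟩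
  choose c hc using hmin
  obtain ⟨C0, hC0, hroot⟩ := root_le D u w Q hQ hw C1 hC1 hE
  have h1 : D.Neg (fun ω => mxL (c ω).1.1 (lgv D u ω) -
      D.lg (evL k u (c ω).1.1 * w - evL k u (c ω).1.2) ω -
        2 ^ r * (C0 + C1 * sz (lgv D u ω))) :=
    smt_gam D u hu w hirr (fun p : K => p.1.1) (fun p : K => p.1.2)
      (fun p => hKg _ p.2) c C0 C1 hC0 hC1 hroot
  obtain ⟨C3, hC3, happ⟩ := approx_gam D u hu w Q hQ hw hirr g hg b
  let E : ℝ := (1 + 2 ^ r) * C0 + C3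
  refine D.neg_mono _ _ ?_ (D.neg_add _ _ (D.neg_const E) h1)
  filter_upwards [hroot, happ] with ω g1 g2
  set l := lgv D u ω with hl
  have hs0 := sz_nonneg l
  have h2r : (0 : ℝ) ≤ 2 ^ r := by positivity
  have hb0 : -((1 + 2 ^ r) * (C0 + C1 * sz l)) ≤ mxL (c ω).1.1 l -
      D.lg (evL k u (c ω).1.1 * w - evL k u (c ω).1.2) ω - 2 ^ r * (C0 + C1 * sz l) := by
    have h4 := hc ω _ hK0
    simp only at h4
    rw [map_zero, sub_zero, map_one, one_mul, mxL_one, sub_zero] at h4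
    linarith
  rcases hA ω with h | h
  · have h5 : A ω / Q.natDegree ≤ 0 := div_nonpos_of_nonpos_of_nonneg h (Nat.cast_nonneg _)
    simp only [E]
    nlinarith
  · have ht0 : 0 ≤ C0 + C1 * sz l := add_nonneg hC0 (mul_nonneg hC1 hs0)
    obtain ⟨i, hi⟩ := g2 _ _ ht0 g1 h
    have h4 := hc ω _ (hKT i)
    simp only [E]
    simp only at h4
    nlinarith

end dc

theorem dirQ {M : Type} [Field M] [NumberField M] [IsGalois ℚ M] (D : PD M) (𝒰 : Ultrafilter ℕ)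
    {r : ℕ} (hr : 1 ≤ r) (w : Fin r → (BA M 𝒰)ˣ) (hwW : ∀ j, w j ∈ WA D 𝒰)
    (hw : AlgebraicIndependent M (fun j => (w j : BA M 𝒰)))
    (Q : (Lau M r)[X]) (hQ : Q.Monic) (z : BA M 𝒰) (hzI : z ∈ TIR D 𝒰)
    (hz : evQ M w z Q = 0)
    (hirr : ∀ p q : Lau M r, evL M w p * z = evL M w q → p = 0)
    (C1 : ℝ) (hC1 : 0 ≤ C1)
    (hE : ∀ a, ∀ e ∈ (Q.coeff a).coeff.support, ∀ i, |(e i : ℝ)| ≤ C1)
    (g : Lau M r) (hg : g ≠ 0) (b : Fin Q.natDegree → Lau M r)
    (A : ((M ≃ₐ[ℚ] M) ⊕ Fin D.s) → ℕ → ℝ)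
    (hA : ∀ v t, A v t ≤ 0 ∨ CloseG Q g b (A v t) (lv D 𝒰 w v t)) (ε : ℝ) (hε : 0 < ε) :
    ∀ᶠ t in (𝒰 : Filter ℕ), ∑ v, A v t ≤ Q.natDegree *
      (((1 + 2 ^ r) * C1 + ε) * ∑ v, sz (lv D 𝒰 w v t) + ε) := by
  classical
  have hd : 1 ≤ Q.natDegree := by
    by_contra hcon
    have h0 : Q.natDegree = 0 := by omega
    have h1 : Q = 1 := by
      rw [← hQ.natDegree_eq_zero]
      exact h0
    rw [h1] at hz
    unfold evQ at hz
    rw [eval₂_one] at hz
    exact one_ne_zero hz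
  -- the scale
  let rp : BA M 𝒰 → ℕ → M := fun x => rep (K := M) (𝒰 := 𝒰) x
  let s : (((M ≃ₐ[ℚ] M) ⊕ Fin D.s) → ℕ → ℝ) := fun v t =>
    ∑ j, |Real.log (D.av v (rp (w j : BA M 𝒰) t))| + max (Real.log (D.av v (rp z t))) 0
  have hs0 : ∀ v t, 0 ≤ s v t := fun v t => add_nonneg
    (Finset.sum_nonneg fun _ _ => abs_nonneg _) (le_max_right _ _)
  let N : ℕ → ℝ := fun t => 1 + ∑ v, s v t
  have hN : ∀ t, 1 ≤ N t := fun t => by
    have : 0 ≤ ∑ v, s v t := Finset.sum_nonneg fun _ _ => hs0 _ _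
    simp only [N]
    linarith
  have hsN : ∀ v t, s v t ≤ N t := by
    intro v t
    have h1 : s v t ≤ ∑ v, s v t :=
      Finset.single_le_sum (f := fun v => s v t) (fun _ _ => hs0 _ _) (Finset.mem_univ v)
    simp only [N]
    linarith
  have hwN : ∀ v t j, |Real.log (D.av v (rp (w j : BA M 𝒰) t))| ≤ N t := by
    intro v t j
    refine le_trans ?_ (hsN v t)
    have h1 : |Real.log (D.av v (rp (w j : BA M 𝒰) t))| ≤
        ∑ j, |Real.log (D.av v (rp (w j : BA M 𝒰) t))| :=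
      Finset.single_le_sum (f := fun j => |Real.log (D.av v (rp (w j : BA M 𝒰) t))|)
        (fun _ _ => abs_nonneg _) (Finset.mem_univ j)
    have h2 : 0 ≤ max (Real.log (D.av v (rp z t))) 0 := le_max_right _ _
    simp only [s]
    linarith
  have hyN : ∀ v t, Real.log (D.av v (rp z t)) ≤ N t := by
    intro v t
    refine le_trans ?_ (hsN v t)
    have h2 : 0 ≤ ∑ j, |Real.log (D.av v (rp (w j : BA M 𝒰) t))| :=
      Finset.sum_nonneg fun _ _ => abs_nonneg _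
    have h3 := le_max_left (Real.log (D.av v (rp z t))) 0
    simp only [s]
    linarith
  have hnc : ∀ j, ∀ c : M, (w j : BA M 𝒰) ≠ algebraMap M (BA M 𝒰) c := fun j c =>
    nonconst_of_algInd _ hw j c
  have hNt : Tendsto N (𝒰 : Filter ℕ) atTop := by
    refine tendsto_of_unbdd N ?_
    rintro ⟨C, hC⟩
    let j0 : Fin r := ⟨0, hr⟩
    obtain ⟨c, hc⟩ := const_of_bdd (D := D) (𝒰 := 𝒰) (w j0 : BA M 𝒰) (hwW j0).1
      (Real.exp C) (by
        filter_upwards [hC, Pool.Agent.Y742.AR.rep_ne (K := M) (𝒰 := 𝒰) (w j0 : BA M 𝒰)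
          (Units.ne_zero _)] with t h1 h2 v
        rw [← Real.log_le_iff_le_exp (D.av_pos v _ h2)]
        exact ((le_abs_self _).trans (hwN v t j0)).trans h1)
    exact hnc j0 c hc
  -- the elements of the ring
  have hwB : ∀ j, Bd D N 𝒰 (rp (w j : BA M 𝒰)) := by
    intro j
    refine ⟨1, zero_le_one, ?_⟩
    filter_upwards [Pool.Agent.Y742.AR.rep_ne (K := M) (𝒰 := 𝒰) (w j : BA M 𝒰)
      (Units.ne_zero _)] with t h2 v
    rw [one_mul, ← Real.log_le_iff_le_exp (D.av_pos v _ h2)]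
    exact (le_abs_self _).trans (hwN v t j)
  have hwB' : ∀ j, Bd D N 𝒰 (rp ((w j)⁻¹ : (BA M 𝒰)ˣ)) := by
    intro j
    refine ⟨1, zero_le_one, ?_⟩
    rw [Units.val_inv_eq_inv_val]
    filter_upwards [Pool.Agent.Y742.AR.rep_ne (K := M) (𝒰 := 𝒰) (w j : BA M 𝒰)
      (Units.ne_zero _), Pool.Agent.Y742.AR.rep_inv (K := M) (𝒰 := 𝒰) (w j : BA M 𝒰)
      (Units.ne_zero _)] with t h2 h3 v
    have h4 : rp ((w j : BA M 𝒰)⁻¹) t = (rp (w j : BA M 𝒰) t)⁻¹ := h3
    rw [h4, one_mul, ← Real.log_le_iff_le_exp (D.av_pos v _ (inv_ne_zero h2)), av_inv _ _ h2]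
    exact (neg_le_abs _).trans (hwN v t j)
  have hyB : Bd D N 𝒰 (rp z) := by
    refine ⟨1, zero_le_one, Filter.Eventually.of_forall fun t v => ?_⟩
    rw [one_mul]
    by_cases h0 : rp z t = 0
    · rw [h0, D.av_zero]
      exact (Real.exp_pos _).le
    · rw [← Real.log_le_iff_le_exp (D.av_pos v _ h0)]
      exact hyN v t
  let wR : Fin r → (RA D 𝒰 N hN)ˣ := fun j =>
    { val := mkR (w j : BA M 𝒰) (hwW j).1 (hwB j)
      inv := mkR ((w j)⁻¹ : (BA M 𝒰)ˣ) (hwW j).2 (hwB' j)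
      val_inv := by
        apply vl_inj
        rw [vl_mul, vl_mkR, vl_mkR, vl_one]
        exact Units.mul_inv (w j)
      inv_val := by
        apply vl_inj
        rw [vl_mul, vl_mkR, vl_mkR, vl_one]
        exact Units.inv_mul (w j) }
  let yR : RA D 𝒰 N hN := mkR z hzI hyB
  let Dc1 : Dc M (RA D 𝒰 N hN) := DcA hNt
  let ψ := incA D 𝒰 N hN
  have hψ : Function.Injective ψ := incA_inj D 𝒰 N hN
  have hwR : ∀ j, ψ (wR j : RA D 𝒰 N hN) = w j := fun j => rfl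
  have hyR : ψ yR = z := rfl
  have hlv : ∀ v t, lgv Dc1 wR (v, t) = lv D 𝒰 w v t := fun v t => rfl
  have hψP : ∀ (P : MvPolynomial (Fin r) M),
      ψ (MvPolynomial.aeval (fun j => (wR j : RA D 𝒰 N hN)) P) =
      MvPolynomial.aeval (fun j => (w j : BA M 𝒰)) P := by
    intro P
    have h3 : (ψ.comp (MvPolynomial.aeval fun j => (wR j : RA D 𝒰 N hN))) =
        MvPolynomial.aeval (fun j => (w j : BA M 𝒰)) := by
      ext i
      simp [hwR]
    exact DFunLike.congr_fun h3 P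
  have hwRAI : AlgebraicIndependent M (fun j => (wR j : RA D 𝒰 N hN)) := by
    have h1 : Function.Injective (MvPolynomial.aeval (R := M) fun j => (w j : BA M 𝒰)) := hw
    have h2 : Function.Injective (MvPolynomial.aeval (R := M)
      fun j => (wR j : RA D 𝒰 N hN)) := fun P Q h => h1 (by rw [← hψP, ← hψP, h])
    exact h2
  have hψL : ∀ P : Lau M r, ψ (evL M wR P) = evL M w P := hom_evL ψ wR w hwR
  have hzR : evQ M wR yR Q = 0 := by
    apply hψ
    rw [hom_evQ ψ wR w hwR, hyR, hz, map_zero]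
  have hirrR : ∀ p q : Lau M r, evL M wR p * yR = evL M wR q → p = 0 := by
    intro p q h
    apply hirr p q
    rw [← hψL, ← hψL, ← h, map_mul, hyR]
  -- the size of the root
  obtain ⟨C0, hC0, hroot⟩ := root_le Dc1 wR yR Q hQ hzR C1 hC1 hE
  have hroot' : ∀ᶠ t in (𝒰 : Filter ℕ), ∀ v,
      max (Real.log (D.av v (rp z t))) 0 ≤ C0 + C1 * sz (lv D 𝒰 w v t) := by
    filter_upwards [evA.1 hroot] with t ht v
    refine max_le (ht v) ?_
    exact add_nonneg hC0 (mul_nonneg hC1 (sz_nonneg _))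
  let V : ℝ := Fintype.card ((M ≃ₐ[ℚ] M) ⊕ Fin D.s)
  have hV : 0 ≤ V := Nat.cast_nonneg _
  let C' : ℝ := 1 + V * C0 + C1
  have hC' : 1 ≤ C' := by
    have := mul_nonneg hV hC0
    simp only [C']
    linarith
  have hNS : ∀ᶠ t in (𝒰 : Filter ℕ), N t ≤ C' + C' * ∑ v, sz (lv D 𝒰 w v t) := by
    filter_upwards [hroot'] with t ht
    have g1 : ∀ v, s v t ≤ C0 + (1 + C1) * sz (lv D 𝒰 w v t) := by
      intro v
      have g2 := ht v
      have g3 : s v t = sz (lv D 𝒰 w v t) + max (Real.log (D.av v (rp z t))) 0 := rfl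
      rw [g3]
      linarith
    have g4 : ∑ v, s v t ≤ V * C0 + (1 + C1) * ∑ v, sz (lv D 𝒰 w v t) := by
      refine (Finset.sum_le_sum fun v _ => g1 v).trans ?_
      rw [Finset.sum_add_distrib, ← Finset.mul_sum, Finset.sum_const, nsmul_eq_mul,
        Finset.card_univ]
    have g5 : 0 ≤ ∑ v, sz (lv D 𝒰 w v t) := Finset.sum_nonneg fun _ _ => sz_nonneg _
    have g6 : N t = 1 + ∑ v, s v t := rfl
    rw [g6]
    have g7 : 0 ≤ V * C0 := mul_nonneg hV hC0
    simp only [C']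
    nlinarith
  have hneg := pt_neg Dc1 wR hwRAI Q hQ yR hzR hirrR C1 hC1 hE g hg b (fun ω => A ω.1 ω.2)
    (fun ω => hA ω.1 ω.2)
  have hneg2 := hneg (ε / C') (by positivity)
  filter_upwards [hneg2, hNS] with t h1 h2
  have h3 : ∑ v, (A v t / Q.natDegree - (1 + 2 ^ r) * C1 * sz (lv D 𝒰 w v t)) ≤
      ε / C' * N t := h1
  have hC'0 : 0 < C' := by linarith
  have h4 : ε / C' * N t ≤ ε + ε * ∑ v, sz (lv D 𝒰 w v t) := by
    have h5 := mul_le_mul_of_nonneg_left h2 (show 0 ≤ ε / C' by positivity)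
    have h6 : ε / C' * (C' + C' * ∑ v, sz (lv D 𝒰 w v t)) =
        ε + ε * ∑ v, sz (lv D 𝒰 w v t) := by
      field_simp
    linarith
  rw [Finset.sum_sub_distrib, ← Finset.sum_div, ← Finset.mul_sum] at h3
  have hdR : (0 : ℝ) < Q.natDegree := by exact_mod_cast hd
  have h7 : (∑ v, A v t) / Q.natDegree ≤
      ((1 + 2 ^ r) * C1 + ε) * ∑ v, sz (lv D 𝒰 w v t) + ε := by linarith
  rw [div_le_iff₀ hdR] at h7
  linarith

end Pool.Agent.H434.GM
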