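import Mathlib
import Pool.Agent.H434.P1
import Pool.Agent.H434.I4

/-!
The weights of the places of a Galois extension above the places of a number field.
-/

set_option autoImplicit false
set_option linter.unusedSectionVars false
set_option linter.deprecated false

open Finset Filter Module

namespace Pool.Agent.H434.GM

open Pool.Agent.H434
open Pool.Agent.N754.LT
open NumberField IsDedekindDomain
open Pool.Agent.Y742.SF Pool.Agent.Y742.AR
open Pool.Agent.W235.RM Pool.Agent.H159R3.Exp

variable {L : Type} [Field L] [NumberField L] {M : Type} [Field M] [NumberField M] [Algebra L M]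

/-- the weight of a prime above a prime -/
noncomputable def wt (w : HeightOneSpectrum (𝓞 L)) (W : Ideal (𝓞 M)) : ℕ :=
  w.asIdeal.ramificationIdx' W * w.asIdeal.inertiaDeg' W

theorem wt_pos (w : HeightOneSpectrum (𝓞 L)) (W : HeightOneSpectrum (𝓞 M))
    (hW : W.asIdeal.LiesOver w.asIdeal) : 0 < wt w W.asIdeal ∧
    ∀ x : L, Real.log (fv W (algebraMap L M x)) = wt w W.asIdeal * Real.log (fv w x) := by
  have h1 := fun x : L => HeightOneSpectrum.valuation_liesOver (K := L) M w W x
  set n := w.asIdeal.ramificationIdx' W.asIdeal with hn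
  have hn0 : n ≠ 0 := Ideal.IsDedekindDomain.ramificationIdx'_ne_zero_of_liesOver W.asIdeal w.ne_bot
  have hw := log_norm_pos w
  have hWp := log_norm_pos W
  have h2 : Ideal.absNorm W.asIdeal = Ideal.absNorm w.asIdeal ^ w.asIdeal.inertiaDeg' W.asIdeal :=
    Ideal.absNorm_eq_pow_inertiaDeg'_of_liesOver W.asIdeal w.asIdeal w.isPrime w.ne_bot
  have h3 : Real.log (Ideal.absNorm W.asIdeal) =
      w.asIdeal.inertiaDeg' W.asIdeal * Real.log (Ideal.absNorm w.asIdeal) := by
    rw [h2]
    push_cast
    rw [Real.log_pow]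
  have hf0 : w.asIdeal.inertiaDeg' W.asIdeal ≠ 0 := by
    intro h0
    rw [h3, h0] at hWp
    simp at hWp
  refine ⟨Nat.pos_of_ne_zero (Nat.mul_ne_zero hn0 hf0), fun x => ?_⟩
  rw [log_fv, log_fv, ← h1]
  by_cases hx : x = 0
  · rw [hx, map_zero, zero_pow hn0]
    have : zex 0 = 0 := by
      unfold zex
      rw [dif_pos rfl]
    rw [this]
    simp
  · rw [zex_pow _, h3]
    unfold wt
    push_cast
    ring

open Classical in
theorem finite_weights [IsGalois ℚ M] (w : HeightOneSpectrum (𝓞 L)) (D : PD M)
    (hD : ∀ W : HeightOneSpectrum (𝓞 M), W.asIdeal.LiesOver w.asIdeal → ∃ k, D.P k = W) :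
    ∑ k ∈ Finset.univ.filter (fun k : Fin D.s => HeightOneSpectrum.under (𝓞 L) (D.P k) = w),
      wt w (D.P k).asIdeal = Module.finrank L M := by
  classical
  rw [← Ideal.sum_ramification_inertia (𝓞 M) L M w.ne_bot]
  refine Finset.sum_bij (fun k _ => (D.P k).asIdeal) ?_ ?_ ?_ ?_
  · intro k hk
    rw [IsDedekindDomain.mem_primesOverFinset_iff w.ne_bot]
    have h1 := (Finset.mem_filter.1 hk).2
    refine ⟨(D.P k).isPrime, ⟨?_⟩⟩
    rw [← h1]
    rfl
  · intro k _ k' _ h
    exact D.hP (HeightOneSpectrum.ext h)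
  · intro W hW
    rw [IsDedekindDomain.mem_primesOverFinset_iff w.ne_bot] at hW
    have hW0 : W ≠ ⊥ := by
      intro h0
      have h1 := hW.2.over
      rw [h0] at h1
      apply w.ne_bot
      rw [h1, Ideal.under_def, Ideal.comap_bot_of_injective _
        (FaithfulSMul.algebraMap_injective (𝓞 L) (𝓞 M))]
    obtain ⟨k, hk⟩ := hD ⟨W, hW.1, hW0⟩ hW.2
    refine ⟨k, Finset.mem_filter.2 ⟨Finset.mem_univ _, ?_⟩, by rw [hk]⟩
    apply HeightOneSpectrum.ext
    rw [hk]
    exact hW.2.over.symm
  · intro k _
    rfl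

/-- the place below an automorphism -/
noncomputable def binf [IsGalois ℚ M] (D : PD M) (g : M ≃ₐ[ℚ] M) : InfinitePlace L :=
  InfinitePlace.mk ((D.ψ.comp (g : M →+* M)).comp (algebraMap L M))

theorem binf_av [IsGalois ℚ M] (D : PD M) (g : M ≃ₐ[ℚ] M) (x : L) :
    D.av (Sum.inl g) (algebraMap L M x) = binf (L := L) D g x := by
  unfold binf
  rw [InfinitePlace.apply]
  rfl

open Classical in
theorem infinite_count [IsGalois ℚ M] (v : InfinitePlace L) (D : PD M) :
    Module.finrank L M ≤ (Finset.univ.filter fun g : M ≃ₐ[ℚ] M => binf (L := L) D g = v).card := by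
  classical
  obtain ⟨g0, hg0⟩ := exists_inf D v
  have : IsGalois L M := IsGalois.tower_top_of_isGalois ℚ L M
  rw [← IsGalois.card_aut_eq_finrank L M, Nat.card_eq_fintype_card, ← Finset.card_univ]
  refine Finset.card_le_card_of_injOn (fun h : M ≃ₐ[L] M => (h.restrictScalars ℚ).trans g0)
    (fun h _ => ?_) (fun h _ h' _ hh => ?_)
  · rw [Finset.mem_coe, Finset.mem_filter]
    refine ⟨Finset.mem_univ _, ?_⟩
    apply DFunLike.ext
    intro x
    rw [← binf_av, ← hg0 x]
    show ‖D.ψ (g0 (h (algebraMap L M x)))‖ = ‖D.ψ (g0 (algebraMap L M x))‖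
    rw [h.commutes]
  · ext x
    have h1 : g0 (h x) = g0 (h' x) := DFunLike.congr_fun hh x
    exact g0.injective h1

open Classical in
/-- the weights of the places above the places of `L` -/
theorem places [IsGalois ℚ M] (S : Finset (HeightOneSpectrum (𝓞 L))) (D : PD M)
    (hD : ∀ W : HeightOneSpectrum (𝓞 M), (∃ w ∈ S, W.asIdeal.LiesOver w.asIdeal) →
      ∃ k, D.P k = W) :
    ∃ (π : ((M ≃ₐ[ℚ] M) ⊕ Fin D.s) → Option (InfinitePlace L ⊕ S))
      (c : ((M ≃ₐ[ℚ] M) ⊕ Fin D.s) → ℝ), (∀ p, 0 < c p) ∧
      (∀ p v, π p = some v → ∀ x : L, Real.log (D.av p (algebraMap L M x)) = c p * lam S v x) ∧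
      (∀ p, π p = none → ∃ w ∉ S, ∀ x : L,
        Real.log (D.av p (algebraMap L M x)) = c p * Real.log (fv w x)) ∧
      (∀ v, ∑ p ∈ Finset.univ.filter (fun p => π p = some v), c p ≤
        Module.finrank ℚ L * Module.finrank L M) ∧
      ∀ v, (1 / 2 : ℝ) * Module.finrank L M ≤
        ∑ p ∈ Finset.univ.filter (fun p => π p = some v), c p := by
  classical
  let π : ((M ≃ₐ[ℚ] M) ⊕ Fin D.s) → Option (InfinitePlace L ⊕ S) := fun p => match p with
    | Sum.inl g => some (Sum.inl (binf D g))
    | Sum.inr k => if h : HeightOneSpectrum.under (𝓞 L) (D.P k) ∈ S then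
        some (Sum.inr ⟨_, h⟩) else none
  let c : ((M ≃ₐ[ℚ] M) ⊕ Fin D.s) → ℝ := fun p => match p with
    | Sum.inl g => 1 / (binf (L := L) D g).mult
    | Sum.inr k => wt (HeightOneSpectrum.under (𝓞 L) (D.P k)) (D.P k).asIdeal
  have hL1 : (1 : ℝ) ≤ Module.finrank ℚ L := by
    have h1 : 0 < Module.finrank ℚ L := Module.finrank_pos
    exact_mod_cast h1
  have hmult : ∀ v : InfinitePlace L, (1 : ℝ) ≤ v.mult ∧ (v.mult : ℝ) ≤ 2 := by
    intro v
    have h1 : 1 ≤ v.mult := InfinitePlace.mult_pos
    have h2 : v.mult ≤ 2 := by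
      unfold InfinitePlace.mult
      split_ifs <;> omega
    exact ⟨by exact_mod_cast h1, by exact_mod_cast h2⟩
  have hover : ∀ k : Fin D.s, (D.P k).asIdeal.LiesOver
      (HeightOneSpectrum.under (𝓞 L) (D.P k)).asIdeal := fun k => ⟨rfl⟩
  have hinl : ∀ v : InfinitePlace L, Finset.univ.filter (fun p => π p = some (Sum.inl v)) =
      (Finset.univ.filter fun g : M ≃ₐ[ℚ] M => binf (L := L) D g = v).map
        Function.Embedding.inl := by
    intro v
    ext p
    rw [Finset.mem_filter, Finset.mem_map]
    constructor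
    · rintro ⟨-, h⟩
      rcases p with g | k
      · refine ⟨g, Finset.mem_filter.2 ⟨Finset.mem_univ _, ?_⟩, rfl⟩
        have h1 : (some (Sum.inl (binf D g)) : Option (InfinitePlace L ⊕ S)) =
          some (Sum.inl v) := h
        simpa using h1
      · exfalso
        have h1 : (if h : HeightOneSpectrum.under (𝓞 L) (D.P k) ∈ S then
          (some (Sum.inr ⟨_, h⟩) : Option (InfinitePlace L ⊕ S)) else none) =
            some (Sum.inl v) := h
        split_ifs at h1
        simp at h1
    · rintro ⟨g, hg, rfl⟩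
      refine ⟨Finset.mem_univ _, ?_⟩
      show (some (Sum.inl (binf D g)) : Option (InfinitePlace L ⊕ S)) = some (Sum.inl v)
      rw [(Finset.mem_filter.1 hg).2]
  have hinr : ∀ w : S, Finset.univ.filter (fun p => π p = some (Sum.inr w)) =
      (Finset.univ.filter fun k : Fin D.s => HeightOneSpectrum.under (𝓞 L) (D.P k) = w.1).map
        Function.Embedding.inr := by
    intro w
    ext p
    rw [Finset.mem_filter, Finset.mem_map]
    constructor
    · rintro ⟨-, h⟩
      rcases p with g | k
      · exfalso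
        have h1 : (some (Sum.inl (binf D g)) : Option (InfinitePlace L ⊕ S)) =
          some (Sum.inr w) := h
        simp at h1
      · refine ⟨k, Finset.mem_filter.2 ⟨Finset.mem_univ _, ?_⟩, rfl⟩
        have h1 : (if h : HeightOneSpectrum.under (𝓞 L) (D.P k) ∈ S then
          (some (Sum.inr ⟨_, h⟩) : Option (InfinitePlace L ⊕ S)) else none) =
            some (Sum.inr w) := h
        split_ifs at h1 with h2
        have h3 := Sum.inr_injective (Option.some_injective _ h1)
        rw [← h3]
    · rintro ⟨k, hk, rfl⟩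
      refine ⟨Finset.mem_univ _, ?_⟩
      have h1 := (Finset.mem_filter.1 hk).2
      have h2 : HeightOneSpectrum.under (𝓞 L) (D.P k) ∈ S := by
        rw [h1]
        exact w.2
      show (if h : HeightOneSpectrum.under (𝓞 L) (D.P k) ∈ S then
          (some (Sum.inr ⟨_, h⟩) : Option (InfinitePlace L ⊕ S)) else none) = some (Sum.inr w)
      rw [dif_pos h2]
      congr 2
      exact Subtype.ext h1
  have hfin : ∀ w : S, ∑ p ∈ Finset.univ.filter (fun p => π p = some (Sum.inr w)), c p =
      Module.finrank L M := by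
    intro w
    rw [hinr, Finset.sum_map]
    have h1 := finite_weights w.1 D (fun W hW => hD W ⟨w.1, w.2, hW⟩)
    rw [← h1]
    push_cast
    refine Finset.sum_congr rfl fun k hk => ?_
    show ((wt (HeightOneSpectrum.under (𝓞 L) (D.P k)) (D.P k).asIdeal : ℕ) : ℝ) = _
    rw [(Finset.mem_filter.1 hk).2]
  refine ⟨π, c, ?_, ?_, ?_, ?_, ?_⟩
  · rintro (g | k)
    · have h1 := (hmult (binf (L := L) D g)).1
      show (0 : ℝ) < 1 / (binf (L := L) D g).mult
      positivity
    · have h1 := (wt_pos _ (D.P k) (hover k)).1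
      show (0 : ℝ) < (wt _ _ : ℕ)
      exact_mod_cast h1
  · rintro (g | k) v h x
    · have h1 : (some (Sum.inl (binf D g)) : Option (InfinitePlace L ⊕ S)) = some v := h
      have h2 := Option.some_injective _ h1
      rw [← h2, binf_av]
      show _ = 1 / ((binf (L := L) D g).mult : ℝ) *
        (((binf (L := L) D g).mult : ℝ) * Real.log (binf (L := L) D g x))
      have h3 := (hmult (binf (L := L) D g)).1
      field_simp
    · have h1 : (if h : HeightOneSpectrum.under (𝓞 L) (D.P k) ∈ S then
          (some (Sum.inr ⟨_, h⟩) : Option (InfinitePlace L ⊕ S)) else none) = some v := h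
      split_ifs at h1 with h2
      have h3 := Option.some_injective _ h1
      rw [← h3]
      exact (wt_pos _ (D.P k) (hover k)).2 x
  · rintro (g | k) h
    · exfalso
      have h1 : (some (Sum.inl (binf D g)) : Option (InfinitePlace L ⊕ S)) = none := h
      simp at h1
    · have h1 : (if h : HeightOneSpectrum.under (𝓞 L) (D.P k) ∈ S then
          (some (Sum.inr ⟨_, h⟩) : Option (InfinitePlace L ⊕ S)) else none) = none := h
      split_ifs at h1 with h2
      exact ⟨_, h2, fun x => (wt_pos _ (D.P k) (hover k)).2 x⟩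
  · rintro (v | w)
    · rw [hinl, Finset.sum_map]
      have h1 : ∀ g ∈ (Finset.univ.filter fun g : M ≃ₐ[ℚ] M => binf (L := L) D g = v),
          c (Function.Embedding.inl g) ≤ 1 := by
        intro g _
        have h2 := (hmult (binf (L := L) D g)).1
        show 1 / ((binf (L := L) D g).mult : ℝ) ≤ 1
        rw [div_le_one (by linarith)]
        exact h2
      refine (Finset.sum_le_card_nsmul _ _ _ h1).trans ?_
      rw [nsmul_eq_mul, mul_one]
      have h2 : (Finset.univ.filter fun g : M ≃ₐ[ℚ] M => binf (L := L) D g = v).card ≤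
          Module.finrank ℚ L * Module.finrank L M := by
        refine (Finset.card_filter_le _ _).trans ?_
        rw [Module.finrank_mul_finrank ℚ L M, ← IsGalois.card_aut_eq_finrank ℚ M,
          Nat.card_eq_fintype_card, Finset.card_univ]
      exact_mod_cast h2
    · rw [hfin]
      exact le_mul_of_one_le_left (Nat.cast_nonneg _) hL1
  · rintro (v | w)
    · rw [hinl, Finset.sum_map]
      have h1 : ∀ g ∈ (Finset.univ.filter fun g : M ≃ₐ[ℚ] M => binf (L := L) D g = v),
          (1 / 2 : ℝ) ≤ c (Function.Embedding.inl g) := by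
        intro g _
        have h2 := hmult (binf (L := L) D g)
        show (1 / 2 : ℝ) ≤ 1 / ((binf (L := L) D g).mult : ℝ)
        exact one_div_le_one_div_of_le (by linarith) h2.2
      refine le_trans ?_ (Finset.card_nsmul_le_sum _ _ _ h1)
      rw [nsmul_eq_mul, mul_comm]
      have h2 := infinite_count v D
      have h3 : (Module.finrank L M : ℝ) ≤
        (Finset.univ.filter fun g : M ≃ₐ[ℚ] M => binf (L := L) D g = v).card := by
        exact_mod_cast h2
      linarith
    · rw [hfin]
      have : (0 : ℝ) ≤ Module.finrank L M := Nat.cast_nonneg _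
      linarith

end Pool.Agent.H434.GM
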