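import Mathlib
import Pool.Agent.H434.P2

/-!
Descent of approximations; the limits of the directions.
-/

set_option autoImplicit false
set_option linter.unusedSectionVars false

open Finset Filter Module Polynomial

namespace Pool.Agent.H434.GM

open Pool.Agent.H434
open Pool.Agent.N754.LT
open NumberField IsDedekindDomain
open Pool.Agent.Y742.SF Pool.Agent.Y742.AR
open Pool.Agent.W235.RM Pool.Agent.H159R3.Exp

theorem split_desc {r : ℕ} (Q : (Lau ℂ r)[X]) (hQ : Q.Monic)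
    (halg : ∀ a e, IsAlgebraic ℚ ((Q.coeff a).coeff e)) (g : Lau ℂ r) (hg : g ≠ 0)
    (b : Fin Q.natDegree → Lau ℂ r) :
    ∃ T0 : Finset ℂ, (∀ x ∈ T0, IsAlgebraic ℚ x) ∧
      ∀ (M : Type) [Field M] (ψ : M →+* ℂ) (Q2 : (Lau M r)[X]), Q2.Monic →
        Q2.map (Lm r ψ) = Q → (∀ x ∈ T0, x ∈ ψ.range) →
        ∃ (g2 : Lau M r) (b2 : Fin Q2.natDegree → Lau M r), g2 ≠ 0 ∧
          ∀ (A : ℝ) (l : Fin r → ℝ), CloseG Q g b A l → CloseG Q2 g2 b2 A l := by
  classical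
  obtain ⟨g', b', h1, h2, hg', -, hb'⟩ := desc_C Q hQ halg g b
  let T0 : Finset ℂ := (g'.coeff.support.image fun e => g'.coeff e) ∪
      Finset.univ.biUnion fun i => (b' i).coeff.support.image fun e => (b' i).coeff e
  refine ⟨T0, ?_, ?_⟩
  · intro x hx
    rcases Finset.mem_union.1 hx with hx | hx
    · obtain ⟨e, -, rfl⟩ := Finset.mem_image.1 hx
      exact h1 e
    · obtain ⟨i, -, hx⟩ := Finset.mem_biUnion.1 hx
      obtain ⟨e, -, rfl⟩ := Finset.mem_image.1 hx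
      exact h2 i e
  · intro M _ ψ Q2 hQ2m hQ2 hM
    obtain ⟨g2, hg2⟩ : ∃ g2 : Lau M r, Lm r ψ g2 = g' :=
      Lm_lift ψ g' fun e he => hM _ (Finset.mem_union_left _ (Finset.mem_image.2 ⟨e, he, rfl⟩))
    have hb2 : ∀ (i : Fin Q.natDegree), ∃ b2 : Lau M r, Lm r ψ b2 = b' i :=
      fun i => Lm_lift ψ (b' i) fun e he => hM _
        (Finset.mem_union_right _ (Finset.mem_biUnion.2 ⟨i, Finset.mem_univ _,
          Finset.mem_image.2 ⟨e, he, rfl⟩⟩))
    choose b2 hb2 using hb2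
    have hdeg : Q2.natDegree = Q.natDegree := by
      rw [← hQ2, natDegree_map_eq_of_injective (Lm_inj ψ ψ.injective)]
    have hsg : g2.coeff.support = g.coeff.support := by
      rw [← hg', ← hg2, Lm_supp_eq ψ ψ.injective]
    refine ⟨g2, fun i => b2 (Fin.cast hdeg i), ?_, fun A l h3 => ?_⟩
    · intro h0
      have h1 := supp_ne hg
      rw [← hsg] at h1
      rw [h0] at h1
      simp at h1
    · intro j e he
      have h2 : e ∈ ((er Q2 g2 (fun i => b2 (Fin.cast hdeg i))).coeff j).coeff.support := he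
      rw [← er_supp_eq ψ ψ.injective _ hQ2m, hQ2, hg2] at h2
      simp only [hb2] at h2
      have h4 : er Q g' (fun i => b' (Fin.cast hdeg i)) = er Q g' b' := by
        unfold er
        congr 1
        exact prod_cast hdeg (fun i => X - Polynomial.C (b' i))
      rw [h4] at h2
      obtain ⟨s', hs', h5⟩ := h3 j e (hb' j h2)
      refine ⟨s', ?_, ?_⟩
      · rw [hsg]
        exact hs'
      · rw [hdeg]
        exact h5

theorem dir_lim (𝒰 : Ultrafilter ℕ) {V : Type} [Fintype V] {n r : ℕ} (a : Fin n → Fin r → ℤ)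
    (b : Fin r → Fin n → ℤ) (hb : ∀ (u : Fin r → ℝ) (j : Fin r),
      u j = ∑ i, (b j i : ℝ) * ∑ j', (a i j' : ℝ) * u j')
    (Λ : V → ℕ → Fin n → ℝ) (N : ℕ → ℝ) (hN1 : ∀ t, 1 ≤ N t)
    (hNt : Tendsto N (𝒰 : Filter ℕ) atTop) (hΛ : ∀ v t i, |Λ v t i| ≤ N t)
    (h1 : ∀ v, ∃ C : ℝ, ∀ᶠ t in (𝒰 : Filter ℕ), ∃ u : Fin r → ℝ,
      ∀ i, |Λ v t i - ∑ j, (a i j : ℝ) * u j| ≤ C)
    (C3 : ℝ) (hsum : ∀ t i, |∑ v, Λ v t i| ≤ C3) :
    ∃ l : V → Fin r → ℝ, (∑ v, l v = 0) ∧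
      (∀ v i, Tendsto (fun t => (N t)⁻¹ * Λ v t i) (𝒰 : Filter ℕ)
        (nhds (∑ j, (a i j : ℝ) * l v j))) ∧
      (∀ v j, Tendsto (fun t => (N t)⁻¹ * ∑ i, (b j i : ℝ) * Λ v t i) (𝒰 : Filter ℕ)
        (nhds (l v j))) := by
  classical
  have hNpos : ∀ t, 0 < N t := fun t => lt_of_lt_of_le one_pos (hN1 t)
  have hinv : Tendsto (fun t => (N t)⁻¹) (𝒰 : Filter ℕ) (nhds 0) := tendsto_inv_atTop_zero.comp hNt
  have h2 : ∀ v i, ∃ x : ℝ, Tendsto (fun t => (N t)⁻¹ * Λ v t i) (𝒰 : Filter ℕ) (nhds x) := by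
    intro v i
    refine ulim 𝒰 _ fun t => ?_
    rw [abs_mul, abs_of_pos (inv_pos.2 (hNpos t)), inv_mul_le_iff₀ (hNpos t), mul_one]
    exact hΛ v t i
  choose x hx using h2
  have h3 : ∀ v j, Tendsto (fun t => (N t)⁻¹ * ∑ i, (b j i : ℝ) * Λ v t i) (𝒰 : Filter ℕ)
      (nhds (∑ i, (b j i : ℝ) * x v i)) := by
    intro v j
    have h4 : Tendsto (fun t => ∑ i, (b j i : ℝ) * ((N t)⁻¹ * Λ v t i)) (𝒰 : Filter ℕ)
        (nhds (∑ i, (b j i : ℝ) * x v i)) :=
      tendsto_finsetSum _ fun i _ => (hx v i).const_mul _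
    refine h4.congr fun t => ?_
    rw [Finset.mul_sum]
    exact Finset.sum_congr rfl fun i _ => by ring
  have h4 : ∀ v i, ∑ j, (a i j : ℝ) * ∑ i', (b j i' : ℝ) * x v i' = x v i := by
    intro v i
    have h5 : Tendsto (fun t => (N t)⁻¹ * Λ v t i -
        ∑ j, (a i j : ℝ) * ((N t)⁻¹ * ∑ i', (b j i' : ℝ) * Λ v t i')) (𝒰 : Filter ℕ)
        (nhds (x v i - ∑ j, (a i j : ℝ) * ∑ i', (b j i' : ℝ) * x v i')) :=
      (hx v i).sub (tendsto_finsetSum _ fun j _ => (h3 v j).const_mul _)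
    have h6 : Tendsto (fun t => (N t)⁻¹ * Λ v t i -
        ∑ j, (a i j : ℝ) * ((N t)⁻¹ * ∑ i', (b j i' : ℝ) * Λ v t i')) (𝒰 : Filter ℕ)
        (nhds 0) := by
      obtain ⟨C, hC⟩ := h1 v
      let C' : ℝ := |C| + ∑ j, |(a i j : ℝ)| * ∑ i', |(b j i' : ℝ)| * |C|
      have h7 : Tendsto (fun t => (N t)⁻¹ * C') (𝒰 : Filter ℕ) (nhds 0) := by
        have := hinv.mul_const C'
        rwa [zero_mul] at this
      refine squeeze_zero_norm' ?_ h7
      filter_upwards [hC] with t ht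
      obtain ⟨u, hu⟩ := ht
      have h8 : (N t)⁻¹ * Λ v t i -
          ∑ j, (a i j : ℝ) * ((N t)⁻¹ * ∑ i', (b j i' : ℝ) * Λ v t i') =
          (N t)⁻¹ * ((Λ v t i - ∑ j, (a i j : ℝ) * u j) -
            ∑ j, (a i j : ℝ) * ∑ i', (b j i' : ℝ) *
              (Λ v t i' - ∑ j', (a i' j' : ℝ) * u j')) := by
        have h9 : ∀ j, ∑ i', (b j i' : ℝ) * (Λ v t i' - ∑ j', (a i' j' : ℝ) * u j') =
            ∑ i', (b j i' : ℝ) * Λ v t i' - u j := by
          intro j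
          rw [hb u j, ← Finset.sum_sub_distrib]
          exact Finset.sum_congr rfl fun i' _ => by ring
        simp only [h9]
        rw [mul_sub, mul_sub]
        have h10 : ∑ j, (a i j : ℝ) * (∑ i', (b j i' : ℝ) * Λ v t i' - u j) =
            ∑ j, (a i j : ℝ) * ∑ i', (b j i' : ℝ) * Λ v t i' - ∑ j, (a i j : ℝ) * u j := by
          rw [← Finset.sum_sub_distrib]
          exact Finset.sum_congr rfl fun j _ => by ring
        rw [h10, mul_sub]
        have h11 : ∑ j, (a i j : ℝ) * ((N t)⁻¹ * ∑ i', (b j i' : ℝ) * Λ v t i') =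
            (N t)⁻¹ * ∑ j, (a i j : ℝ) * ∑ i', (b j i' : ℝ) * Λ v t i' := by
          rw [Finset.mul_sum]
          exact Finset.sum_congr rfl fun j _ => by ring
        rw [h11]
        ring
      rw [h8, Real.norm_eq_abs, abs_mul, abs_of_pos (inv_pos.2 (hNpos t))]
      refine mul_le_mul_of_nonneg_left ?_ (inv_pos.2 (hNpos t)).le
      refine (abs_sub _ _).trans (add_le_add ((hu i).trans (le_abs_self _)) ?_)
      refine (Finset.abs_sum_le_sum_abs _ _).trans (Finset.sum_le_sum fun j _ => ?_)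
      rw [abs_mul]
      refine mul_le_mul_of_nonneg_left ?_ (abs_nonneg _)
      refine (Finset.abs_sum_le_sum_abs _ _).trans (Finset.sum_le_sum fun i' _ => ?_)
      rw [abs_mul]
      exact mul_le_mul_of_nonneg_left ((hu i').trans (le_abs_self _)) (abs_nonneg _)
    have h7 := tendsto_nhds_unique h5 h6
    linarith
  refine ⟨fun v j => ∑ i, (b j i : ℝ) * x v i, ?_, fun v i => ?_, h3⟩
  · have h5 : ∀ i, ∑ v, x v i = 0 := by
      intro i
      have h6 : Tendsto (fun t => ∑ v, (N t)⁻¹ * Λ v t i) (𝒰 : Filter ℕ) (nhds (∑ v, x v i)) :=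
        tendsto_finsetSum _ fun v _ => hx v i
      have h7 : Tendsto (fun t => ∑ v, (N t)⁻¹ * Λ v t i) (𝒰 : Filter ℕ) (nhds 0) := by
        have h8 : Tendsto (fun t => (N t)⁻¹ * |C3|) (𝒰 : Filter ℕ) (nhds 0) := by
          have := hinv.mul_const |C3|
          rwa [zero_mul] at this
        refine squeeze_zero_norm' (Filter.Eventually.of_forall fun t => ?_) h8
        rw [← Finset.mul_sum, Real.norm_eq_abs, abs_mul, abs_of_pos (inv_pos.2 (hNpos t))]
        exact mul_le_mul_of_nonneg_left ((hsum t i).trans (le_abs_self _)) (inv_pos.2 (hNpos t)).le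
      exact tendsto_nhds_unique h6 h7
    funext j
    rw [Finset.sum_apply, Finset.sum_comm]
    show ∑ i, ∑ v, (b j i : ℝ) * x v i = 0
    refine Finset.sum_eq_zero fun i _ => ?_
    rw [← Finset.mul_sum, h5, mul_zero]
  · rw [h4]
    exact hx v i

end Pool.Agent.H434.GM
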