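import Mathlib
import Pool.Agent.H434.P3

/-!
A direction at one place in which a polynomial splits contradicts the subspace theorem.
-/

set_option autoImplicit false
set_option linter.unusedSectionVars false

open Finset Filter Module Polynomial

namespace Pool.Agent.H434.GM

open Pool.Agent.H434
open Pool.Agent.N754.LT
open NumberField IsDedekindDomain
open Pool.Agent.Y742.SF Pool.Agent.Y742.AR
open Pool.Agent.W235.RM Pool.Agent.H159R3.Exp

theorem place_contra {L : Type} [Field L] [NumberField L] {M : Type} [Field M] [NumberField M]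
    [Algebra L M] [IsGalois ℚ M] (S : Finset (HeightOneSpectrum (𝓞 L))) (D : PD M)
    (hD : ∀ W : HeightOneSpectrum (𝓞 M), (∃ w ∈ S, W.asIdeal.LiesOver w.asIdeal) →
      ∃ k, D.P k = W) (𝒰 : Ultrafilter ℕ) {r n : ℕ} (hr : 1 ≤ r) {e : ℕ} (he : 1 ≤ e)
    (a : Fin n → Fin r → ℤ) (b : Fin r → Fin n → ℤ)
    (hb : ∀ (u : Fin r → ℝ) (j : Fin r),
      u j = ∑ i, (b j i : ℝ) * ∑ j', (a i j' : ℝ) * u j')
    (w : Fin r → (BA M 𝒰)ˣ) (hwW : ∀ j, w j ∈ WA D 𝒰)
    (hw : AlgebraicIndependent M (fun j => (w j : BA M 𝒰)))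
    (γ : ((M ≃ₐ[ℚ] M) ⊕ Fin D.s) → Fin n → ℝ) (xu : ℕ → Fin n → L)
    (hxu : ∀ᶠ t in (𝒰 : Filter ℕ), ∀ p i, Real.log (D.av p (algebraMap L M (xu t i))) =
      γ p i + ∑ j, (((e : ℤ) * a i j : ℤ) : ℝ) * lv D 𝒰 w p t j)
    (C0 : ℝ) (hb0 : ∀ t i, ∀ w' ∉ S, |Real.log (fv w' (xu t i))| ≤ C0)
    (N : ℕ → ℝ) (hN1 : ∀ t, 1 ≤ N t) (hNt : Tendsto N (𝒰 : Filter ℕ) atTop)
    (l : InfinitePlace L ⊕ S → Fin r → ℝ)
    (hl : ∀ v j, Tendsto (fun t => (N t)⁻¹ * ∑ i, (b j i : ℝ) * lam S v (xu t i))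
      (𝒰 : Filter ℕ) (nhds (l v j)))
    (Q : (Lau M r)[X]) (hQ : Q.Monic) (z : BA M 𝒰) (hzI : z ∈ TIR D 𝒰)
    (hz : evQ M w z Q = 0)
    (hirr : ∀ p q : Lau M r, evL M w p * z = evL M w q → p = 0)
    (C1 : ℝ) (hC1 : 0 ≤ C1)
    (hE : ∀ a, ∀ e ∈ (Q.coeff a).coeff.support, ∀ i, |(e i : ℝ)| ≤ C1)
    (v0 : InfinitePlace L ⊕ S) (ε0 : ℝ) (hε0 : 0 < ε0) (A0 : ℝ) (g : Lau M r) (hg : g ≠ 0)
    (bb : Fin Q.natDegree → Lau M r)
    (hcl : ∀ l' : Fin r → ℝ, (∀ i, |l' i - l v0 i| ≤ ε0) → CloseG Q g bb A0 l')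
    (hA0 : 2 * Q.natDegree * (((1 + 2 ^ r) * C1 + 1) *
      (Module.finrank ℚ L * ∑ v, sz (l v) + 1) + 1) < A0) : False := by
  classical
  obtain ⟨π, c, hc, hπ1, hπ2, hup, hlow⟩ := places S D hD
  have hNpos : ∀ t, 0 < N t := fun t => lt_of_lt_of_le one_pos (hN1 t)
  have hinv : Tendsto (fun t => (N t)⁻¹) (𝒰 : Filter ℕ) (nhds 0) := tendsto_inv_atTop_zero.comp hNt
  have heR : (0 : ℝ) < e := by exact_mod_cast (by omega : 0 < e)
  have heR1 : (1 : ℝ) ≤ e := by exact_mod_cast he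
  let ν : ℝ := ((Module.finrank L M : ℕ) : ℝ)
  have hν : 1 ≤ ν := by
    have h1 : 0 < Module.finrank L M := Module.finrank_pos
    have h2 : 1 ≤ Module.finrank L M := h1
    show (1 : ℝ) ≤ ((Module.finrank L M : ℕ) : ℝ)
    exact_mod_cast h2
  let lp : ((M ≃ₐ[ℚ] M) ⊕ Fin D.s) → Fin r → ℝ := fun p => (π p).elim 0 l
  -- the limits of the directions
  have hlim : ∀ p j, Tendsto (fun t => (N t)⁻¹ * (e * lv D 𝒰 w p t j)) (𝒰 : Filter ℕ)
      (nhds (c p * lp p j)) := by
    intro p j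
    have h1 : ∀ᶠ t in (𝒰 : Filter ℕ), (N t)⁻¹ * (e * lv D 𝒰 w p t j) =
        (N t)⁻¹ * ∑ i, (b j i : ℝ) * Real.log (D.av p (algebraMap L M (xu t i))) -
          (N t)⁻¹ * ∑ i, (b j i : ℝ) * γ p i := by
      filter_upwards [hxu] with t ht
      have h2 : (e : ℝ) * lv D 𝒰 w p t j = ∑ i, (b j i : ℝ) * ∑ j', (a i j' : ℝ) *
          ((e : ℝ) * lv D 𝒰 w p t j') := hb (fun j' => (e : ℝ) * lv D 𝒰 w p t j') j
      rw [h2, ← mul_sub, ← Finset.sum_sub_distrib]
      congr 1
      refine Finset.sum_congr rfl fun i _ => ?_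
      rw [ht p i, ← mul_sub, add_sub_cancel_left]
      congr 1
      refine Finset.sum_congr rfl fun j' _ => ?_
      push_cast
      ring
    have h2 : Tendsto (fun t => (N t)⁻¹ * ∑ i, (b j i : ℝ) * γ p i) (𝒰 : Filter ℕ) (nhds 0) := by
      have := hinv.mul_const (∑ i, (b j i : ℝ) * γ p i)
      rwa [zero_mul] at this
    have h3 : Tendsto (fun t => (N t)⁻¹ * ∑ i, (b j i : ℝ) *
        Real.log (D.av p (algebraMap L M (xu t i)))) (𝒰 : Filter ℕ) (nhds (c p * lp p j)) := by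
      rcases hp : π p with _ | v
      · obtain ⟨w', hw', hlog⟩ := hπ2 p hp
        have h4 : c p * lp p j = 0 := by
          simp only [lp]
          rw [hp]
          simp
        rw [h4]
        let B : ℝ := ∑ i, |(b j i : ℝ)| * (c p * C0)
        have h5 : Tendsto (fun t => (N t)⁻¹ * B) (𝒰 : Filter ℕ) (nhds 0) := by
          have := hinv.mul_const B
          rwa [zero_mul] at this
        refine squeeze_zero_norm' (Filter.Eventually.of_forall fun t => ?_) h5
        rw [Real.norm_eq_abs, abs_mul, abs_of_pos (inv_pos.2 (hNpos t))]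
        refine mul_le_mul_of_nonneg_left ?_ (inv_pos.2 (hNpos t)).le
        refine (Finset.abs_sum_le_sum_abs _ _).trans (Finset.sum_le_sum fun i _ => ?_)
        rw [abs_mul]
        refine mul_le_mul_of_nonneg_left ?_ (abs_nonneg _)
        rw [hlog, abs_mul, abs_of_pos (hc p)]
        exact mul_le_mul_of_nonneg_left (hb0 t i w' hw') (hc p).le
      · have h4 : lp p j = l v j := by
          simp only [lp]
          rw [hp]
          rfl
        rw [h4]
        refine ((hl v j).const_mul (c p)).congr fun t => ?_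
        rw [mul_left_comm, Finset.mul_sum]
        congr 1
        refine Finset.sum_congr rfl fun i _ => ?_
        rw [hπ1 p v hp]
        ring
    have h4 := h3.sub h2
    rw [sub_zero] at h4
    exact h4.congr' (h1.mono fun t ht => ht.symm)
  -- the size
  have hsz : Tendsto (fun t => (N t)⁻¹ * (e * ∑ p, sz (lv D 𝒰 w p t))) (𝒰 : Filter ℕ)
      (nhds (∑ p, c p * sz (lp p))) := by
    have h1 : Tendsto (fun t => ∑ p, ∑ j, |(N t)⁻¹ * (e * lv D 𝒰 w p t j)|) (𝒰 : Filter ℕ)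
        (nhds (∑ p, ∑ j, |c p * lp p j|)) :=
      tendsto_finsetSum _ fun p _ => tendsto_finsetSum _ fun j _ => (hlim p j).abs
    have h2 : ∑ p, ∑ j, |c p * lp p j| = ∑ p, c p * sz (lp p) := by
      refine Finset.sum_congr rfl fun p _ => ?_
      unfold sz
      rw [Finset.mul_sum]
      refine Finset.sum_congr rfl fun j _ => ?_
      rw [abs_mul, abs_of_pos (hc p)]
    rw [h2] at h1
    refine h1.congr fun t => ?_
    rw [Finset.mul_sum, Finset.mul_sum]
    refine Finset.sum_congr rfl fun p _ => ?_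
    unfold sz
    rw [Finset.mul_sum, Finset.mul_sum]
    refine Finset.sum_congr rfl fun j _ => ?_
    rw [abs_mul, abs_mul, abs_of_pos (inv_pos.2 (hNpos t)), abs_of_pos heR]
  have hY : ∑ p, c p * sz (lp p) ≤ Module.finrank ℚ L * ν * ∑ v, sz (l v) := by
    have h1 : ∀ p, c p * sz (lp p) = ∑ v, if π p = some v then c p * sz (l v) else 0 := by
      intro p
      rcases hp : π p with _ | v
      · have h2 : sz (lp p) = 0 := by
          simp only [lp]
          rw [hp]
          unfold sz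
          simp
        rw [h2, mul_zero]
        simp
      · rw [Finset.sum_eq_single v]
        · rw [if_pos rfl]
          simp only [lp]
          rw [hp]
          rfl
        · intro v' _ hv'
          rw [if_neg]
          intro h
          exact hv' (Option.some_injective _ h).symm
        · intro h
          exact absurd (Finset.mem_univ _) h
    simp only [h1]
    rw [Finset.sum_comm, Finset.mul_sum]
    refine Finset.sum_le_sum fun v _ => ?_
    rw [← Finset.sum_filter, ← Finset.sum_mul]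
    exact mul_le_mul_of_nonneg_right (hup v) (sz_nonneg _)
  -- the approximations
  let A : ((M ≃ₐ[ℚ] M) ⊕ Fin D.s) → ℕ → ℝ := fun p t =>
    if π p = some v0 ∧ ∀ i, |(c p * N t / e)⁻¹ * lv D 𝒰 w p t i - l v0 i| ≤ ε0 then
      A0 * (c p * N t / e) else 0
  have hκ : ∀ p t, 0 < c p * N t / e := fun p t => div_pos (mul_pos (hc p) (hNpos t)) heR
  have hA : ∀ p t, A p t ≤ 0 ∨ CloseG Q g bb (A p t) (lv D 𝒰 w p t) := by
    intro p t
    by_cases h : π p = some v0 ∧ ∀ i, |(c p * N t / e)⁻¹ * lv D 𝒰 w p t i - l v0 i| ≤ ε0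
    · right
      have h1 : A p t = A0 * (c p * N t / e) := if_pos h
      rw [h1]
      have h2 := (hcl ((c p * N t / e)⁻¹ • lv D 𝒰 w p t) (fun i => h.2 i)).smul
        (c p * N t / e) (hκ p t).le
      rw [smul_smul, mul_inv_cancel₀ (hκ p t).ne', one_smul] at h2
      exact h2
    · left
      have h1 : A p t = 0 := if_neg h
      exact h1.le
  have hdir := dirQ D 𝒰 hr w hwW hw Q hQ z hzI hz hirr C1 hC1 hE g hg bb A hA 1 one_pos
  have hgood : ∀ᶠ t in (𝒰 : Filter ℕ), ∀ p, π p = some v0 →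
      ∀ i, |(c p * N t / e)⁻¹ * lv D 𝒰 w p t i - l v0 i| ≤ ε0 := by
    refine (Filter.eventually_all).2 fun p => ?_
    by_cases hp : π p = some v0
    · have h1 : ∀ i, ∀ᶠ t in (𝒰 : Filter ℕ),
          |(c p * N t / e)⁻¹ * lv D 𝒰 w p t i - l v0 i| ≤ ε0 := by
        intro i
        have h2 := (hlim p i).const_mul (c p)⁻¹
        have h3 : (c p)⁻¹ * (c p * lp p i) = l v0 i := by
          rw [← mul_assoc, inv_mul_cancel₀ (hc p).ne', one_mul]
          simp only [lp]
          rw [hp]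
          rfl
        rw [h3] at h2
        filter_upwards [(Metric.tendsto_nhds.1 h2) ε0 hε0] with t ht
        rw [Real.dist_eq] at ht
        have h4 : (c p * N t / e)⁻¹ * lv D 𝒰 w p t i =
            (c p)⁻¹ * ((N t)⁻¹ * (e * lv D 𝒰 w p t i)) := by
          have := (hc p).ne'
          have := (hNpos t).ne'
          have := heR.ne'
          field_simp
        rw [h4]
        exact ht.le
      filter_upwards [(Filter.eventually_all).2 h1] with t ht _
      exact ht
    · exact Filter.Eventually.of_forall fun t h => absurd h hp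
  have hsz2 : ∀ᶠ t in (𝒰 : Filter ℕ), (N t)⁻¹ * (e * ∑ p, sz (lv D 𝒰 w p t)) <
      Module.finrank ℚ L * ν * ∑ v, sz (l v) + 1 :=
    (tendsto_order.1 hsz).2 _ (by linarith)
  obtain ⟨t, ⟨⟨h1, h2⟩, h3⟩, h4⟩ :=
    (((hdir.and hgood).and hsz2).and (hNt.eventually_ge_atTop (e : ℝ))).exists
  set T : ℝ := N t / e with hT
  have hT1 : 1 ≤ T := by
    rw [hT, one_le_div heR]
    exact h4
  have hT0 : 0 < T := by linarith
  have h5 : ∑ p, sz (lv D 𝒰 w p t) ≤ T * (Module.finrank ℚ L * ν * ∑ v, sz (l v) + 1) := by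
    have h6 : ∑ p, sz (lv D 𝒰 w p t) =
        T * ((N t)⁻¹ * (e * ∑ p, sz (lv D 𝒰 w p t))) := by
      rw [hT]
      have := (hNpos t).ne'
      have := heR.ne'
      field_simp
    rw [h6]
    exact mul_le_mul_of_nonneg_left h3.le hT0.le
  have h6 : A0 * T * (1 / 2 * ν) ≤ ∑ p, A p t := by
    have hA00 : 0 ≤ A0 := by
      have h7 : 0 ≤ ∑ v, sz (l v) := Finset.sum_nonneg fun _ _ => sz_nonneg _
      have h8 : 0 ≤ 2 * (Q.natDegree : ℝ) * (((1 + 2 ^ r) * C1 + 1) *
        (Module.finrank ℚ L * ∑ v, sz (l v) + 1) + 1) := by positivity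
      linarith
    have h7 : ∑ p ∈ Finset.univ.filter (fun p => π p = some v0), A0 * T * c p ≤
        ∑ p, A p t := by
      rw [Finset.sum_filter]
      refine Finset.sum_le_sum fun p _ => ?_
      by_cases hp : π p = some v0
      · rw [if_pos hp]
        have h8 : A p t = A0 * (c p * N t / e) := if_pos ⟨hp, h2 p hp⟩
        rw [h8, hT]
        exact le_of_eq (by ring)
      · rw [if_neg hp]
        have h8 : A p t = 0 := if_neg (fun h => hp h.1)
        rw [h8]
    refine le_trans ?_ h7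
    rw [← Finset.mul_sum]
    exact mul_le_mul_of_nonneg_left (hlow v0) (mul_nonneg hA00 hT0.le)
  set F : ℝ := ((Module.finrank ℚ L : ℕ) : ℝ) with hF
  set Y : ℝ := ∑ v, sz (l v) with hYd
  have hF0 : 0 ≤ F := Nat.cast_nonneg _
  have hY0 : 0 ≤ Y := Finset.sum_nonneg fun _ _ => sz_nonneg _
  set d : ℝ := ((Q.natDegree : ℕ) : ℝ) with hd
  have hd0 : 0 ≤ d := Nat.cast_nonneg _
  set k : ℝ := (1 + 2 ^ r) * C1 + 1 with hk
  have hk0 : 0 ≤ k := by positivity
  have h7 : A0 * T * (1 / 2 * ν) ≤ d * (k * (T * (F * ν * Y + 1)) + 1) := by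
    refine h6.trans (h1.trans ?_)
    refine mul_le_mul_of_nonneg_left ?_ hd0
    have := mul_le_mul_of_nonneg_left h5 hk0
    linarith
  have h8 : d * (k * (T * (F * ν * Y + 1)) + 1) ≤ T * ν * (d * (k * (F * Y + 1) + 1)) := by
    have e1 : F * ν * Y + 1 ≤ ν * (F * Y + 1) := by nlinarith
    have e2 : (1 : ℝ) ≤ T * ν := by nlinarith
    have e3 : k * (T * (F * ν * Y + 1)) ≤ T * ν * (k * (F * Y + 1)) := by
      have := mul_le_mul_of_nonneg_left e1 (mul_nonneg hk0 hT0.le)
      calc k * (T * (F * ν * Y + 1)) = k * T * (F * ν * Y + 1) := by ring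
        _ ≤ k * T * (ν * (F * Y + 1)) := this
        _ = T * ν * (k * (F * Y + 1)) := by ring
    calc d * (k * (T * (F * ν * Y + 1)) + 1) ≤ d * (T * ν * (k * (F * Y + 1)) + T * ν) :=
          mul_le_mul_of_nonneg_left (add_le_add e3 e2) hd0
      _ = T * ν * (d * (k * (F * Y + 1) + 1)) := by ring
  have h9 : T * ν * (A0 / 2) ≤ T * ν * (d * (k * (F * Y + 1) + 1)) := by
    calc T * ν * (A0 / 2) = A0 * T * (1 / 2 * ν) := by ring
      _ ≤ _ := h7.trans h8
  have h10 := le_of_mul_le_mul_left h9 (by positivity)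
  linarith

end Pool.Agent.H434.GM
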