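import Mathlib
import Pool.Agent.H434.P4

/-!
The directions of infinite sequences of integral points of covers of tori of general type.
-/

set_option autoImplicit false
set_option linter.unusedSectionVars false
set_option linter.deprecated false

open Finset MvPolynomial Filter

namespace Pool.Agent.H434.GM

open Pool.Agent.H434
open Pool.Agent.N754.LT
open NumberField IsDedekindDomain
open Pool.Agent.Y742.SF Pool.Agent.Y742.AR
open Pool.Agent.W235.RM Pool.Agent.H159R3.Exp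
open scoped Polynomial

theorem above_finite {L : Type} [Field L] [NumberField L] {M : Type} [Field M] [NumberField M]
    [Algebra L M] (S : Finset (HeightOneSpectrum (𝓞 L))) :
    {W : HeightOneSpectrum (𝓞 M) | ∃ w ∈ S, W.asIdeal.LiesOver w.asIdeal}.Finite := by
  classical
  have h1 : {W : HeightOneSpectrum (𝓞 M) | ∃ w ∈ S, W.asIdeal.LiesOver w.asIdeal} ⊆
      (fun W : HeightOneSpectrum (𝓞 M) => W.asIdeal) ⁻¹'
        ↑(S.biUnion fun w => IsDedekindDomain.primesOverFinset w.asIdeal (𝓞 M)) := by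
    rintro W ⟨w, hw, hW⟩
    rw [Set.mem_preimage, Finset.mem_coe, Finset.mem_biUnion]
    exact ⟨w, hw, (IsDedekindDomain.mem_primesOverFinset_iff w.ne_bot _).2 ⟨W.isPrime, hW⟩⟩
  refine Set.Finite.subset (Set.Finite.preimage ?_ (Finset.finite_toSet _)) h1
  intro W _ W' _ h
  exact HeightOneSpectrum.ext h

theorem noRoot_notin {k B : Type} [Field k] [CharZero k] [CommRing B] [IsDomain B] [Algebra k B] {r : ℕ}
    (w : Fin r → Bˣ) (hw : AlgebraicIndependent k (fun j => (w j : B))) (z : B) (Q : (Lau k r)[X])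
    (hz : evQ k w z Q = 0) (hj : NoRoot Q) : z ∉ RatSub (fun j => (w j : B)) hw := by
  intro hjs
  obtain ⟨a, b, hb, hab⟩ := hjs
  have hinj : Function.Injective (MvPolynomial.aeval (R := k) fun i => (w i : B)) := hw
  obtain ⟨a', ha'⟩ := exists_lau w a
  obtain ⟨b', hb'⟩ := exists_lau w b
  refine hj a' b' ?_ ?_
  · intro h
    apply hb
    apply hinj
    rw [map_zero, hb', h, map_zero]
  · apply evL_inj w hw
    have h1 : evL k w b' * z = evL k w a' := by
      rw [← ha', ← hb', hab]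
    rw [← evQ_eval, ← h1, evQ_scale w z Q b' hz, map_zero]

theorem key_dirQ {K : Type} [Field K] [NumberField K] (σ : K →+* ℂ) {ι κ : Type}
    [Finite ι] {N n q : ℕ} (F : ι → MvPolynomial (Fin N) (𝓞 K))
    (G : κ → MvPolynomial (Fin N) (𝓞 K))
    (U : Fin n → Fin N) (J : Fin q → Fin N) (P : Fin q → Polynomial (MvPolynomial (Fin n) (𝓞 K)))
    (hP : ∀ j, (P j).Monic)
    (hU : ∀ z : Fin N → ℂ, (∀ l, eval₂ (σ.comp (algebraMap (𝓞 K) K)) z (F l) = 0) →
      ∀ i, z (U i) ≠ 0)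
    (hJ : ∀ z : Fin N → ℂ, (∀ l, eval₂ (σ.comp (algebraMap (𝓞 K) K)) z (F l) = 0) →
      ∀ j, (P j).eval₂ (eval₂Hom (σ.comp (algebraMap (𝓞 K) K)) fun i => z (U i)) (z (J j)) = 0)
    (e : ℕ) (he : 1 ≤ e)
    (hal : Alone σ F G (Finset.univ.image U ∪ Finset.univ.image J)) (h0 : ¬ HasLaurent F G)
    (L : Type) [hL1 : Field L] [hL2 : NumberField L] [hL3 : Algebra K L]
    (S : Finset (HeightOneSpectrum (𝓞 L)))
    (xs : ℕ → Fin N → L) (hinj : Function.Injective xs)
    (hxs : ∀ t, xs t ∈ intPoints F L (S : Set (HeightOneSpectrum (𝓞 L))) \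
      intPoints G L (S : Set (HeightOneSpectrum (𝓞 L)))) :
    ∃ (r : ℕ) (a : Fin n → Fin r → ℤ) (c : Fin n → ℂ) (s : Set (Fin q))
      (l : InfinitePlace L ⊕ S → Fin r → ℝ), 1 ≤ r ∧ r ≤ n ∧
      (∀ j, Pi.single j 1 ∈ Submodule.span ℤ (Set.range a)) ∧ (∀ i, c i ≠ 0) ∧
      (∃ x ∈ XV σ F G U, ∃ t : Fin r → ℂ, (∀ j, t j ≠ 0) ∧
        ∀ i, x i = c i * ∏ j, t j ^ a i j) ∧
      s.Nonempty ∧
      (∀ j, NoRoot (pullQ e a c (Pm (σ.comp (algebraMap (𝓞 K) K)) (P j))) → j ∈ s) ∧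
      (∀ j ∈ s, ¬ IsProd (pullQ e a c (Pm (σ.comp (algebraMap (𝓞 K) K)) (P j)))) ∧
      (∀ v, l v ≠ 0 → ∀ j ∈ s,
        ¬ SplitsNear (pullQ e a c (Pm (σ.comp (algebraMap (𝓞 K) K)) (P j))) (l v)) ∧
      ∑ v, l v = 0 ∧
      Tendsto (fun t => 1 + ∑ v, ∑ i, |lam S v (xs t (U i))|)
        (Filter.hyperfilter ℕ : Filter ℕ) atTop ∧
      ∀ ε : ℝ, 0 < ε → ∀ᶠ t in (Filter.hyperfilter ℕ : Filter ℕ), ∀ v i,
        |lam S v (xs t (U i)) - (1 + ∑ v, ∑ i, |lam S v (xs t (U i))|) *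
          ∑ j, (a i j : ℝ) * l v j| ≤ ε * (1 + ∑ v, ∑ i, |lam S v (xs t (U i))|) := by
  classical
  have hS : (S : Set (HeightOneSpectrum (𝓞 L))).Finite := S.finite_toSet
  -- embeddings
  let : Algebra K ℂ := σ.toAlgebra
  have : Algebra.IsAlgebraic K L := by
    have h1 : Algebra.IsAlgebraic ℚ L := inferInstance
    exact Algebra.IsAlgebraic.tower_top (K := ℚ) K
  let φ0 : L →ₐ[K] ℂ := IsAlgClosed.lift
  let φ : L →+* ℂ := φ0
  have hφ : φ.comp (algebraMap K L) = σ := by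
    ext c
    exact φ0.commutes _
  -- the units
  have hU' : ∀ z : Fin N → ℂ, (∀ l, eval₂ (σ.comp (algebraMap (𝓞 K) K)) z (F l) = 0) →
      ∀ i ∈ Finset.univ.image U, z i ≠ 0 := by
    intro z hz i hi
    obtain ⟨l, -, rfl⟩ := Finset.mem_image.1 hi
    exact hU z hz l
  obtain ⟨S', hS', hSS', hunits⟩ := unit_points σ F (Finset.univ.image U) hU' L S hS
  obtain ⟨S'', C0, hS'', hSS'', hC0, hbound⟩ := unit_bound σ F (Finset.univ.image U) hU' L S hS
  obtain ⟨T1, hT1a, hT1⟩ := sunit_roots φ S' hS' e he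
  obtain ⟨M1, hM1a, hM1b, hM1c, hgal1, hi1, ψ1, hψ1, hT1r⟩ := exists_field φ T1 hT1a
  obtain ⟨S1, hS1, hSS1⟩ := ext_int L M1 S' hS'
  obtain ⟨D1, hD1⟩ := exists_PD hi1 (S1 ∪ {W | ∃ w ∈ S, W.asIdeal.LiesOver w.asIdeal})
    (hS1.union (above_finite S))
  have hTInt : ∀ x ∈ S'.integer L, D1.TInt (algebraMap L M1 x) := by
    intro x hx w hw
    refine (mem_integer_iff S1 _).1 (hSS1 x hx) w fun hwS => ?_
    obtain ⟨v, hv⟩ := hD1 w (Set.mem_union_left _ hwS)
    exact hw v hv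
  have hD1' : ∀ W : HeightOneSpectrum (𝓞 M1), (∃ w ∈ S, W.asIdeal.LiesOver w.asIdeal) →
      ∃ k, D1.P k = W := by
    intro W hW
    obtain ⟨k, hk⟩ := hD1 W (Set.mem_union_right _ hW)
    exact ⟨k, hk.symm⟩
  -- the points
  let 𝒰 : Ultrafilter ℕ := Filter.hyperfilter ℕ
  have hxs' : ∀ t j, xs t j ∈ S'.integer L := by
    intro t j
    rw [mem_integer_iff]
    intro v hv
    exact (mem_integer_iff _ _).1 ((hxs t).1.1 j) v fun h => hv (hSS' h)
  have hroot : ∀ (i : Fin n) (t : ℕ), ∃ v : M1, v ^ e = algebraMap L M1 (xs t (U i)) ∧ v ≠ 0 ∧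
      D1.TInt v ∧ D1.TInt v⁻¹ := by
    intro i t
    obtain ⟨u, hu, hux⟩ := hunits (xs t) (hxs t).1 (U i)
      (Finset.mem_image_of_mem _ (Finset.mem_univ _))
    obtain ⟨v, hv⟩ := hT1 M1 ψ1 hψ1 hT1r u hu
    have hu0 : algebraMap L M1 (u : L) ≠ 0 := (map_ne_zero _).2 (Units.ne_zero u)
    have hv0 : v ≠ 0 := by
      intro h0
      rw [h0, zero_pow (by omega)] at hv
      exact hu0 hv.symm
    have huinv : (u : L)⁻¹ ∈ S'.integer L := by
      rw [mem_integer_iff]
      intro w hw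
      rw [fv_le_one_iff, map_inv₀]
      have h1 : w.valuation L (u : L) = 1 := hu w hw
      rw [h1, inv_one]
    refine ⟨v, by rw [hv, hux], hv0, fun w hw => ?_, fun w hw => ?_⟩
    · have h1 : fv w (v ^ e) ≤ 1 := by
        rw [hv]
        have h2 : (u : L) ∈ S'.integer L := by
          rw [hux]
          exact hxs' t _
        exact hTInt _ h2 w hw
      rw [fv_pow] at h1
      exact (pow_le_one_iff_of_nonneg (fv_nonneg _ _) (by omega)).1 h1
    · have h1 : fv w (v⁻¹ ^ e) ≤ 1 := by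
        rw [inv_pow, hv, ← map_inv₀]
        exact hTInt _ huinv w hw
      rw [fv_pow] at h1
      exact (pow_le_one_iff_of_nonneg (fv_nonneg _ _) (by omega)).1 h1
  choose v hv hv0 hvT hvT' using hroot
  let τ1 : K →+* M1 := (algebraMap L M1).comp (algebraMap K L)
  have hτ1 : ψ1.comp τ1 = σ := by
    rw [← hφ, ← hψ1]
    rfl
  let y1 : Fin N → BA M1 𝒰 := ys 𝒰 xs M1
  have hy1I : ∀ j, y1 j ∈ TIR D1 𝒰 := by
    intro j
    rw [mem_TIR]
    refine ⟨1, one_ne_zero, ?_⟩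
    filter_upwards [rep_ys (M := M1) 𝒰 xs j] with t ht
    rw [ht]
    have h1 : ((1 : 𝓞 M1) : M1) = 1 := rfl
    rw [h1, one_mul]
    exact hTInt _ (hxs' t j)
  have hv1 : ∀ i, ∀ᶠ t in (𝒰 : Filter ℕ),
      rep (K := M1) (𝒰 := 𝒰) (gm 𝒰 (fun t => v i t) : GK M1 𝒰) t = v i t := fun i =>
    rep_gm (K := M1) (𝒰 := 𝒰) (fun t => v i t)
  have hv2 : ∀ i, ∀ᶠ t in (𝒰 : Filter ℕ),
      rep (K := M1) (𝒰 := 𝒰) (gm 𝒰 (fun t => (v i t)⁻¹) : GK M1 𝒰) t = (v i t)⁻¹ := fun i =>
    rep_gm (K := M1) (𝒰 := 𝒰) (fun t => (v i t)⁻¹)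
  have hvmul : ∀ i, (gm 𝒰 (fun t => v i t) : GK M1 𝒰) * gm 𝒰 (fun t => (v i t)⁻¹) = 1 := by
    intro i
    rw [← map_mul, ← map_one (gm (K := M1) 𝒰)]
    congr 1
    funext t
    exact mul_inv_cancel₀ (hv0 i t)
  let vu : Fin n → (BA M1 𝒰)ˣ := fun i =>
    { val := (gm 𝒰 (fun t => v i t) : GK M1 𝒰)
      inv := (gm 𝒰 (fun t => (v i t)⁻¹) : GK M1 𝒰)
      val_inv := hvmul i
      inv_val := by
        have h1 := hvmul i
        rw [mul_comm] at h1
        exact h1 }
  have hvuW : ∀ i, vu i ∈ WA D1 𝒰 := by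
    intro i
    rw [mem_WA, mem_TIR, mem_TIR]
    refine ⟨⟨1, one_ne_zero, ?_⟩, ⟨1, one_ne_zero, ?_⟩⟩
    · filter_upwards [hv1 i] with t ht
      have h1 : ((1 : 𝓞 M1) : M1) = 1 := rfl
      have h2 : rep (K := M1) (𝒰 := 𝒰) ((vu i : (BA M1 𝒰)ˣ) : BA M1 𝒰) t = v i t := ht
      rw [h1, one_mul, h2]
      exact hvT i t
    · filter_upwards [hv2 i] with t ht
      have h1 : ((1 : 𝓞 M1) : M1) = 1 := rfl
      have h2 : rep (K := M1) (𝒰 := 𝒰) (((vu i)⁻¹ : (BA M1 𝒰)ˣ) : BA M1 𝒰) t = (v i t)⁻¹ := ht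
      rw [h1, one_mul, h2]
      exact hvT' i t
  have hvue : ∀ i, ((vu i : (BA M1 𝒰)ˣ) : BA M1 𝒰) ^ e = y1 (U i) := by
    intro i
    show (gm 𝒰 (fun t => v i t) : GK M1 𝒰) ^ e = gm 𝒰 (fun t => algebraMap L M1 (xs t (U i)))
    rw [← map_pow]
    congr 1
    funext t
    exact hv i t
  have hFz : ∀ {M : Type} [Field M] [NumberField M] [Algebra L M] [IsGalois ℚ M] (l : ι),
      aeval (ys 𝒰 xs M) (fm ((algebraMap L M).comp (algebraMap K L)) (F l)) = 0 :=
    fun l => aeval_ys 𝒰 xs (F l) fun t => (hxs t).1.2 l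
  -- the equations of the roots hold on the points
  have hJz : ∀ {M : Type} [Field M] [NumberField M] [Algebra L M] [IsGalois ℚ M] (j : Fin q),
      (Pm ((((algebraMap L M).comp (algebraMap K L))).comp (algebraMap (𝓞 K) K)) (P j)).eval₂
        (MvPolynomial.aeval fun i => ys 𝒰 xs M (U i) :
          MvPolynomial (Fin n) M →ₐ[M] BA M 𝒰).toRingHom (ys 𝒰 xs M (J j)) = 0 := by
    intro M _ _ _ _ j
    have h1 : ∀ t, (P j).eval₂ (eval₂Hom ((algebraMap K L).comp (algebraMap (𝓞 K) K))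
        fun i => xs t (U i)) (xs t (J j)) = 0 := by
      intro t
      have h2 := hJ (fun i => φ (xs t i)) (fun l => by
        have h3 := congrArg φ ((hxs t).1.2 l)
        rw [map_zero, MvPolynomial.hom_eval₂, ← RingHom.comp_assoc, hφ] at h3
        exact h3) j
      apply φ.injective
      rw [map_zero, Polynomial.hom_eval₂]
      have h3 : φ.comp (eval₂Hom ((algebraMap K L).comp (algebraMap (𝓞 K) K))
          fun i => xs t (U i)) = eval₂Hom (σ.comp (algebraMap (𝓞 K) K))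
          fun i => φ (xs t (U i)) := by
        apply MvPolynomial.ringHom_ext
        · intro c
          rw [RingHom.comp_apply, eval₂Hom_C, eval₂Hom_C, ← hφ]
          rfl
        · intro i
          rw [RingHom.comp_apply, eval₂Hom_X', eval₂Hom_X']
      rw [h3]
      exact h2
    rw [Pm_eval]
    let ρg : (ℕ → M) →+* GK M 𝒰 := gm 𝒰
    let xt : Fin N → ℕ → M := fun i t => algebraMap L M (xs t i)
    let cst : M →+* (ℕ → M) := Pi.constRingHom ℕ M
    let τ' : 𝓞 K →+* M := ((algebraMap L M).comp (algebraMap K L)).comp (algebraMap (𝓞 K) K)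
    have h4 : (P j).eval₂ (eval₂Hom ((algebraMap M (BA M 𝒰)).comp τ')
        fun i => ys 𝒰 xs M (U i)) (ys 𝒰 xs M (J j)) =
        ρg ((P j).eval₂ (eval₂Hom (cst.comp τ') fun i => xt (U i)) (xt (J j))) := by
      rw [Polynomial.hom_eval₂]
      have h5 : ρg.comp (eval₂Hom (cst.comp τ') fun i => xt (U i)) =
          eval₂Hom ((algebraMap M (BA M 𝒰)).comp τ') fun i => ys 𝒰 xs M (U i) := by
        apply MvPolynomial.ringHom_ext
        · intro c
          rw [RingHom.comp_apply, eval₂Hom_C]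
          exact (eval₂Hom_C ((algebraMap M (BA M 𝒰)).comp τ') (fun i => ys 𝒰 xs M (U i)) c).symm
        · intro i
          rw [RingHom.comp_apply, eval₂Hom_X']
          exact (eval₂Hom_X' ((algebraMap M (BA M 𝒰)).comp τ') (fun i => ys 𝒰 xs M (U i)) i).symm
      rw [h5]
      rfl
    rw [h4]
    have h6 : (P j).eval₂ (eval₂Hom (cst.comp τ') fun i => xt (U i)) (xt (J j)) = 0 := by
      funext t
      let evt : (ℕ → M) →+* M := Pi.evalRingHom (fun _ => M) t
      have h7 : evt ((P j).eval₂ (eval₂Hom (cst.comp τ') fun i => xt (U i)) (xt (J j))) = 0 := by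
        have h8 := congrArg (algebraMap L M) (h1 t)
        rw [map_zero, Polynomial.hom_eval₂] at h8
        rw [Polynomial.hom_eval₂]
        have h9 : evt.comp (eval₂Hom (cst.comp τ') fun i => xt (U i)) =
            (algebraMap L M).comp (eval₂Hom ((algebraMap K L).comp (algebraMap (𝓞 K) K))
              fun i => xs t (U i)) := by
          apply MvPolynomial.ringHom_ext
          · intro c
            rw [RingHom.comp_apply, RingHom.comp_apply, eval₂Hom_C, eval₂Hom_C]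
            rfl
          · intro i
            rw [RingHom.comp_apply, RingHom.comp_apply, eval₂Hom_X', eval₂Hom_X']
            rfl
        rw [h9]
        exact h8
      exact h7
    rw [h6]
    exact map_zero ρg
  have hnc : ∃ i, ∀ c : M1, y1 i ≠ algebraMap M1 (BA M1 𝒰) c := by
    by_contra hcon
    push Not at hcon
    choose c hc using hcon
    have h1 : ∀ᶠ t in (𝒰 : Filter ℕ), ∀ j, algebraMap L M1 (xs t j) = c j := by
      refine (Filter.eventually_all).2 fun j => ?_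
      have h2 : ∀ᶠ t in (𝒰 : Filter ℕ), rep (K := M1) (𝒰 := 𝒰) (y1 j) t = c j := by
        rw [hc j]
        exact Pool.Agent.Y742.AR.rep_cg (K := M1) (𝒰 := 𝒰) (c j)
      filter_upwards [h2, rep_ys (M := M1) 𝒰 xs j] with t g1 g2
      rw [← g2, ← g1]
    have h2 : {t : ℕ | ∀ j, algebraMap L M1 (xs t j) = c j}.Subsingleton := by
      intro t ht t' ht'
      apply hinj
      funext j
      apply (algebraMap L M1).injective
      exact (ht j).trans (ht' j).symm
    exact Filter.notMem_hyperfilter_of_finite h2.finite h1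
  have hfin : ∀ {M : Type} [Field M] [NumberField M] [Algebra L M] (ψ : M →+* ℂ)
      (hψ : ψ.comp ((algebraMap L M).comp (algebraMap K L)) = σ),
      ((∃ z : Fin N → GC ℕ 𝒰,
        (∀ l, eval₂ ((thA 𝒰 ψ).comp (algebraMap M (BA M 𝒰))) z
          (fm ((algebraMap L M).comp (algebraMap K L)) (F l)) = 0) ∧
        (∀ i ∈ Finset.univ.image U ∪ Finset.univ.image J, z i = thA 𝒰 ψ (ys 𝒰 xs M i)) ∧
        z ≠ fun j => thA 𝒰 ψ (ys 𝒰 xs M j)) ∨
      ∀ᶠ t in (𝒰 : Filter ℕ), CurveAt (rpA M 𝒰)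
        (fun l => fm ((algebraMap L M).comp (algebraMap K L)) (F l)) (ys 𝒰 xs M) t) → False := by
    intro M _ _ _ ψ hψ halt
    exact arith_finish σ F G (Finset.univ.image U ∪ Finset.univ.image J) hal h0
      (S : Set (HeightOneSpectrum (𝓞 L))) 𝒰 xs hxs ψ hψ halt
  have hclA : ∀ {M : Type} [Field M] [NumberField M] (x : BA M 𝒰) (P : Polynomial M),
      P.Monic → P.eval₂ (algebraMap M (BA M 𝒰)) x = 0 → ∃ c : M, x = algebraMap M (BA M 𝒰) c := by
    intro M _ _ x P hP h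
    let f : ℕ → M := rep (K := M) (𝒰 := 𝒰) x
    let cst : M →+* (ℕ → M) := Pi.constRingHom ℕ M
    have hx : (gm 𝒰 f : GK M 𝒰) = x := gm_rep (K := M) (𝒰 := 𝒰) x
    have h1 : (gm 𝒰 (P.eval₂ cst f) : GK M 𝒰) = 0 := by
      rw [Polynomial.hom_eval₂, hx]
      exact h
    have h2 : ∀ t, (P.eval₂ cst f) t = P.eval (f t) := by
      intro t
      have h3 : (Pi.evalRingHom (fun _ => M) t) (P.eval₂ cst f) = P.eval (f t) := by
        rw [Polynomial.hom_eval₂]
        exact Polynomial.eval₂_id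
      exact h3
    have h3 : ∀ᶠ t in (𝒰 : Filter ℕ), P.eval (f t) = 0 := by
      rw [← map_zero (gm (K := M) 𝒰), gm_eq] at h1
      filter_upwards [h1] with t ht
      rw [← h2, ht]
      rfl
    have h4 : ∀ᶠ t in (𝒰 : Filter ℕ), f t ∈ (P.roots.toFinset : Set M) := by
      filter_upwards [h3] with t ht
      rw [Finset.mem_coe, Multiset.mem_toFinset, Polynomial.mem_roots hP.ne_zero]
      exact ht
    obtain ⟨c, -, hc⟩ := const_of_finite (K := M) (𝒰 := 𝒰) f _ (Finset.finite_toSet _) h4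
    exact ⟨c, by rw [← hx, hc]; rfl⟩
  rcases exists_datU (geoA D1 𝒰) U e y1 vu hvuW hvue with hcon | ⟨d, -⟩
  · -- constant units
    exfalso
    refine hfin ψ1 hτ1 (Or.inl ?_)
    exact const_altQ (geoA D1 𝒰) hclA U J
      (fun j => Pm (τ1.comp (algebraMap (𝓞 K) K)) (P j)) (fun j => (hP j).map _) y1
      (fun l => fm τ1 (F l)) hFz hJz hcon hnc (thA 𝒰 ψ1) (thA 𝒰 ψ1).injective
  · have halg1 : ∀ x : M1, IsAlgebraic ℚ (ψ1 x) := by
      intro x
      have h1 : IsIntegral ℚ x := Algebra.IsIntegral.isIntegral _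
      exact (h1.map (ψ1.toRatAlgHom : M1 →ₐ[ℚ] ℂ)).isAlgebraic
    let τK : 𝓞 K →+* ℂ := σ.comp (algebraMap (𝓞 K) K)
    have hhit : ∃ x ∈ XV σ F G U, ∃ t : Fin d.r → ℂ, (∀ j, t j ≠ 0) ∧
        ∀ i, x i = ψ1 (d.c i) * ∏ j, t j ^ d.a i j := by
      have g1 : ∀ᶠ t in (𝒰 : Filter ℕ), ∀ i, algebraMap L M1 (xs t (U i)) =
          d.c i * ∏ j, rep (K := M1) (𝒰 := 𝒰) (d.w j : BA M1 𝒰) t ^ ((e : ℤ) * d.a i j) := by
        refine (Filter.eventually_all).2 fun i => ?_
        filter_upwards [rep_units 𝒰 d.w (d.c i) (fun j => (e : ℤ) * d.a i j) (y1 (U i)) (d.hU i),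
          rep_ys (M := M1) 𝒰 xs (U i)] with t h1 h2
        rw [← h1, ← h2]
      have g2 : ∀ᶠ t in (𝒰 : Filter ℕ), ∀ j,
          rep (K := M1) (𝒰 := 𝒰) (d.w j : BA M1 𝒰) t ≠ 0 :=
        (Filter.eventually_all).2 fun j => Pool.Agent.Y742.AR.rep_ne (K := M1) (𝒰 := 𝒰) _
          (Units.ne_zero _)
      obtain ⟨t, g3, g4⟩ := (g1.and g2).exists
      have hz1 : ∀ {P : MvPolynomial (Fin N) (𝓞 K)},
          eval₂ (σ.comp (algebraMap (𝓞 K) K)) (fun i => φ (xs t i)) P =
            φ (eval₂ ((algebraMap K L).comp (algebraMap (𝓞 K) K)) (xs t) P) := by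
        intro P
        rw [MvPolynomial.hom_eval₂, ← RingHom.comp_assoc, hφ]
      refine ⟨fun i => φ (xs t (U i)), ⟨fun i => φ (xs t i), fun l => ?_, ?_, fun i => rfl⟩,
        fun j => ψ1 (rep (K := M1) (𝒰 := 𝒰) (d.w j : BA M1 𝒰) t ^ e),
        fun j => (map_ne_zero ψ1).2 (pow_ne_zero _ (g4 j)), fun i => ?_⟩
      · rw [hz1, (hxs t).1.2 l, map_zero]
      · by_contra hcon
        push Not at hcon
        apply (hxs t).2
        refine ⟨(hxs t).1.1, fun l => ?_⟩
        have h1 := hcon l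
        rw [hz1] at h1
        exact (map_eq_zero φ).1 h1
      · show φ (xs t (U i)) = ψ1 (d.c i) *
          ∏ j, ψ1 (rep (K := M1) (𝒰 := 𝒰) (d.w j : BA M1 𝒰) t ^ e) ^ d.a i j
        rw [← hψ1]
        show ψ1 (algebraMap L M1 (xs t (U i))) = _
        rw [g3 i, map_mul, map_prod]
        congr 1
        refine Finset.prod_congr rfl fun j _ => ?_
        rw [zpow_mul, zpow_natCast, map_zpow₀]
    have hpull : ∀ {M : Type} [Field M] (ψ : M →+* ℂ) (τ : 𝓞 K →+* M), ψ.comp τ = τK →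
        ∀ (c : Fin n → M) (j : Fin q), (pullQ e d.a c (Pm τ (P j))).map (Lm d.r ψ) =
          pullQ e d.a (fun i => ψ (c i)) (Pm τK (P j)) := by
      intro M _ ψ τ hψτ c j
      unfold pullQ Pm
      rw [Polynomial.map_map, Polynomial.map_map, Polynomial.map_map]
      congr 1
      apply MvPolynomial.ringHom_ext
      · intro x
        apply AddMonoidAlgebra.ext
        ext b
        simp only [RingHom.comp_apply, MvPolynomial.map_C, AlgHom.toRingHom_eq_coe,
          RingHom.coe_coe, MvPolynomial.algHom_C]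
        rw [Lm_coeff, ← hψτ]
        simp only [RingHom.comp_apply]
        have h1 : ∀ {B : Type} [Field B] (x : B), (algebraMap B (Lau B d.r) x).coeff b =
            if 0 = b then x else 0 := by
          intro B _ x
          have h2 : algebraMap B (Lau B d.r) x = AddMonoidAlgebra.single 0 x := by
            simp [AddMonoidAlgebra.algebraMap_def]
          rw [h2, AddMonoidAlgebra.coeff_single, Finsupp.single_apply]
        rw [h1, h1]
        split_ifs
        · rfl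
        · exact map_zero _
      · intro i
        simp only [RingHom.comp_apply, MvPolynomial.map_X, AlgHom.toRingHom_eq_coe,
          RingHom.coe_coe, MvPolynomial.aeval_X]
        exact AddMonoidAlgebra.mapRingHom_single _ _ _
    have hmon : ∀ j, (pullQ e d.a (fun i => ψ1 (d.c i)) (Pm τK (P j))).Monic := fun j =>
      ((hP j).map _).map _
    let Qc : Fin q → (Lau ℂ d.r)[X] := fun j => pullQ e d.a (fun i => ψ1 (d.c i)) (Pm τK (P j))
    have hψτ1 : ψ1.comp (τ1.comp (algebraMap (𝓞 K) K)) = τK := by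
      rw [← RingHom.comp_assoc, hτ1]
    have halgQ : ∀ j a b, IsAlgebraic ℚ (((Qc j).coeff a).coeff b) := by
      intro j a b
      simp only [Qc]
      rw [← hpull ψ1 _ hψτ1 d.c j, Polynomial.coeff_map, Lm_coeff]
      exact halg1 _
    have hQcm : ∀ j, (Qc j).Monic := hmon
    -- the logarithms
    obtain ⟨b, hb⟩ := span_coef d.a d.hspan
    obtain ⟨π1, c1, hc1, hπ11, hπ12, -, hlow1⟩ := places S D1 hD1'
    let Λ : (InfinitePlace L ⊕ S) → ℕ → Fin n → ℝ := fun v t i => lam S v (xs t (U i))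
    let Nn : ℕ → ℝ := fun t => 1 + ∑ v, ∑ i, |Λ v t i|
    have hN1 : ∀ t, 1 ≤ Nn t := fun t => by
      have h1 : 0 ≤ ∑ v, ∑ i, |Λ v t i| := Finset.sum_nonneg fun _ _ =>
        Finset.sum_nonneg fun _ _ => abs_nonneg _
      simp only [Nn]
      linarith
    have hΛN : ∀ v t i, |Λ v t i| ≤ Nn t := by
      intro v t i
      have g7 : |Λ v t i| ≤ ∑ i, |Λ v t i| :=
        Finset.single_le_sum (f := fun i => |Λ v t i|) (fun _ _ => abs_nonneg _)
          (Finset.mem_univ i)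
      have g8 : ∑ i, |Λ v t i| ≤ ∑ v, ∑ i, |Λ v t i| :=
        Finset.single_le_sum (f := fun v => ∑ i, |Λ v t i|)
          (fun _ _ => Finset.sum_nonneg fun _ _ => abs_nonneg _) (Finset.mem_univ v)
      simp only [Nn]
      linarith
    have hUmem : ∀ i, U i ∈ Finset.univ.image U := fun i =>
      Finset.mem_image_of_mem _ (Finset.mem_univ _)
    have hb0 : ∀ t i, ∀ w' ∉ S, |Real.log (fv w' (xs t (U i)))| ≤ C0 := by
      intro t i w' hw'
      exact (hbound (xs t) (hxs t).1 (U i) (hUmem i)).2.2 w' (by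
        rw [Finset.mem_coe]
        exact hw')
    let γ1 : ((M1 ≃ₐ[ℚ] M1) ⊕ Fin D1.s) → Fin n → ℝ := fun p i => Real.log (D1.av p (d.c i))
    have hA1 : ∀ᶠ t in (𝒰 : Filter ℕ), ∀ p i,
        Real.log (D1.av p (algebraMap L M1 (xs t (U i)))) = γ1 p i +
          ∑ j, (((e : ℤ) * d.a i j : ℤ) : ℝ) * lv D1 𝒰 d.w p t j := by
      have h1 : ∀ᶠ t in (𝒰 : Filter ℕ), ∀ i, ∀ p,
          Real.log (D1.av p (algebraMap L M1 (xs t (U i)))) = γ1 p i +
          ∑ j, (((e : ℤ) * d.a i j : ℤ) : ℝ) * lv D1 𝒰 d.w p t j := by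
        refine (Filter.eventually_all).2 fun i => ?_
        have h2 := log_units D1 𝒰 d.w (d.c i) (d.hc i)
          (fun j => (e : ℤ) * d.a i j) (y1 (U i)) (d.hU i)
        filter_upwards [h2, rep_ys (M := M1) 𝒰 xs (U i)] with t g1 g2 p
        have g3 := g1 p
        have g4 : rep (K := M1) (𝒰 := 𝒰) (y1 (U i)) t = algebraMap L M1 (xs t (U i)) := g2
        rw [g4] at g3
        exact g3
      filter_upwards [h1] with t ht p i
      exact ht i p
    have hlogb : ∀ p t i, |Real.log (D1.av p (algebraMap L M1 (xs t (U i))))| ≤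
        c1 p * (Nn t + C0) := by
      intro p t i
      rcases hp : π1 p with _ | v
      · obtain ⟨w', hw', hlog⟩ := hπ12 p hp
        rw [hlog, abs_mul, abs_of_pos (hc1 p)]
        refine mul_le_mul_of_nonneg_left ?_ (hc1 p).le
        have := hb0 t i w' hw'
        have := hN1 t
        linarith
      · rw [hπ11 p v hp, abs_mul, abs_of_pos (hc1 p)]
        refine mul_le_mul_of_nonneg_left ?_ (hc1 p).le
        have h1 : |lam S v (xs t (U i))| ≤ Nn t := hΛN v t i
        linarith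
    have heR1 : (1 : ℝ) ≤ e := by exact_mod_cast he
    have hNt : Tendsto Nn (𝒰 : Filter ℕ) atTop := by
      refine tendsto_of_unbdd Nn ?_
      rintro ⟨C, hC⟩
      let j0 : Fin d.r := ⟨0, d.hr⟩
      let B : ℝ := ∑ p, ∑ i, |(b j0 i : ℝ)| * (c1 p * (|C| + C0) + |γ1 p i|)
      have hBp : ∀ p, ∑ i, |(b j0 i : ℝ)| * (c1 p * (|C| + C0) + |γ1 p i|) ≤ B := fun p =>
        Finset.single_le_sum (f := fun p => ∑ i, |(b j0 i : ℝ)| *
          (c1 p * (|C| + C0) + |γ1 p i|)) (fun p _ => Finset.sum_nonneg fun i _ =>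
            mul_nonneg (abs_nonneg _) (add_nonneg (mul_nonneg (hc1 p).le
              (add_nonneg (abs_nonneg _) hC0)) (abs_nonneg _))) (Finset.mem_univ p)
      obtain ⟨c, hc⟩ := const_of_bdd (D := D1) (𝒰 := 𝒰) (d.w j0 : BA M1 𝒰) (d.hwW j0).1
        (Real.exp B) (by
          filter_upwards [hC, hA1, Pool.Agent.Y742.AR.rep_ne (K := M1) (𝒰 := 𝒰)
            (d.w j0 : BA M1 𝒰) (Units.ne_zero _)] with t h1 h3 h2 p
          rw [← Real.log_le_iff_le_exp (D1.av_pos p _ h2)]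
          have h4 : (e : ℝ) * lv D1 𝒰 d.w p t j0 = ∑ i, (b j0 i : ℝ) *
              (Real.log (D1.av p (algebraMap L M1 (xs t (U i)))) - γ1 p i) := by
            have h5 : (e : ℝ) * lv D1 𝒰 d.w p t j0 = ∑ i, (b j0 i : ℝ) *
              ∑ j', (d.a i j' : ℝ) * ((e : ℝ) * lv D1 𝒰 d.w p t j') :=
                hb (fun j' => (e : ℝ) * lv D1 𝒰 d.w p t j') j0
            rw [h5]
            refine Finset.sum_congr rfl fun i _ => ?_
            rw [h3 p i, add_sub_cancel_left]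
            congr 1
            refine Finset.sum_congr rfl fun j' _ => ?_
            push_cast
            ring
          have h5 : |(e : ℝ) * lv D1 𝒰 d.w p t j0| ≤ B := by
            rw [h4]
            refine (Finset.abs_sum_le_sum_abs _ _).trans (le_trans ?_ (hBp p))
            refine Finset.sum_le_sum fun i _ => ?_
            rw [abs_mul]
            refine mul_le_mul_of_nonneg_left ?_ (abs_nonneg _)
            refine (abs_sub _ _).trans (add_le_add ?_ le_rfl)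
            refine (hlogb p t i).trans (mul_le_mul_of_nonneg_left ?_ (hc1 p).le)
            exact add_le_add (h1.trans (le_abs_self _)) le_rfl
          have h6 : Real.log (D1.av p (rep (K := M1) (𝒰 := 𝒰) (d.w j0 : BA M1 𝒰) t)) =
            lv D1 𝒰 d.w p t j0 := rfl
          rw [h6]
          rw [abs_mul, abs_of_nonneg (by linarith : (0 : ℝ) ≤ e)] at h5
          have h7 := le_mul_of_one_le_left (abs_nonneg (lv D1 𝒰 d.w p t j0)) heR1
          have h8 := le_abs_self (lv D1 𝒰 d.w p t j0)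
          linarith)
      exact nonconst_of_algInd _ d.hw j0 c hc
    have hcol : ∀ v, ∃ C : ℝ, ∀ᶠ t in (𝒰 : Filter ℕ), ∃ u : Fin d.r → ℝ,
        ∀ i, |Λ v t i - ∑ j, (d.a i j : ℝ) * u j| ≤ C := by
      intro v
      have h1 : ∃ p, π1 p = some v := by
        by_contra hcon
        push Not at hcon
        have h2 := hlow1 v
        rw [Finset.filter_false_of_mem (fun p _ => hcon p), Finset.sum_empty] at h2
        have h3 : 0 < Module.finrank L M1 := Module.finrank_pos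
        have h4 : (0 : ℝ) < Module.finrank L M1 := by exact_mod_cast h3
        linarith
      obtain ⟨p, hp⟩ := h1
      refine ⟨∑ i, (c1 p)⁻¹ * |γ1 p i|, ?_⟩
      filter_upwards [hA1] with t ht
      refine ⟨fun j => (c1 p)⁻¹ * (e * lv D1 𝒰 d.w p t j), fun i => ?_⟩
      have h2 : Λ v t i - ∑ j, (d.a i j : ℝ) * ((c1 p)⁻¹ * (e * lv D1 𝒰 d.w p t j)) =
          (c1 p)⁻¹ * γ1 p i := by
        have h3 := ht p i
        rw [hπ11 p v hp] at h3
        have h4 : Λ v t i = (c1 p)⁻¹ * (c1 p * lam S v (xs t (U i))) := by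
          rw [← mul_assoc, inv_mul_cancel₀ (hc1 p).ne', one_mul]
        rw [h4, h3, mul_add, Finset.mul_sum]
        have h5 : ∑ j, (c1 p)⁻¹ * ((((e : ℤ) * d.a i j : ℤ) : ℝ) * lv D1 𝒰 d.w p t j) =
            ∑ j, (d.a i j : ℝ) * ((c1 p)⁻¹ * (e * lv D1 𝒰 d.w p t j)) := by
          refine Finset.sum_congr rfl fun j _ => ?_
          push_cast
          ring
        rw [h5]
        ring
      rw [h2, abs_mul, abs_of_pos (inv_pos.2 (hc1 p))]
      exact Finset.single_le_sum (f := fun i => (c1 p)⁻¹ * |γ1 p i|)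
        (fun i _ => mul_nonneg (inv_pos.2 (hc1 p)).le (abs_nonneg _)) (Finset.mem_univ i)
    have hsum : ∀ t i, |∑ v, Λ v t i| ≤ (hS''.toFinset \ S).card * C0 := by
      intro t i
      obtain ⟨hx0, hx1, hx2⟩ := hbound (xs t) (hxs t).1 (U i) (hUmem i)
      have hsub : S ⊆ hS''.toFinset := by
        intro w hw
        rw [Set.Finite.mem_toFinset]
        exact hSS'' (Finset.mem_coe.2 hw)
      have h1 := sum_log (xs t (U i)) hx0 hS''.toFinset (fun w hw => hx1 w (by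
        rw [Set.Finite.mem_toFinset] at hw
        exact hw))
      rw [← Finset.sum_sdiff hsub] at h1
      have h2 : ∑ v, Λ v t i = ∑ v : InfinitePlace L, v.mult * Real.log (v (xs t (U i))) +
          ∑ w ∈ S, Real.log (fv w (xs t (U i))) := by
        rw [Fintype.sum_sum_type]
        congr 1
        exact Finset.sum_coe_sort S (fun w => Real.log (fv w (xs t (U i))))
      have h3 : ∑ v, Λ v t i = -∑ w ∈ hS''.toFinset \ S, Real.log (fv w (xs t (U i))) := by
        rw [h2]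
        linarith
      rw [h3, abs_neg]
      refine (Finset.abs_sum_le_sum_abs _ _).trans ?_
      rw [← nsmul_eq_mul]
      refine Finset.sum_le_card_nsmul _ _ _ fun w hw => ?_
      exact hx2 w (fun h => (Finset.mem_sdiff.1 hw).2 (Finset.mem_coe.1 h))
    obtain ⟨l, hl0, hlΛ, hlb⟩ := dir_lim 𝒰 d.a b hb Λ Nn hN1 hNt hΛN hcol _ hsum
    have hconv : ∀ ε : ℝ, 0 < ε → ∀ᶠ t in (𝒰 : Filter ℕ), ∀ v i,
        |Λ v t i - Nn t * ∑ j, (d.a i j : ℝ) * l v j| ≤ ε * Nn t := by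
      intro ε hε
      refine (Filter.eventually_all).2 fun v => (Filter.eventually_all).2 fun i => ?_
      have h2 := (Metric.tendsto_nhds.1 (hlΛ v i)) ε hε
      filter_upwards [h2] with t ht
      have hNp : 0 < Nn t := lt_of_lt_of_le one_pos (hN1 t)
      rw [Real.dist_eq] at ht
      have h3 : Λ v t i - Nn t * ∑ j, (d.a i j : ℝ) * l v j =
          Nn t * ((Nn t)⁻¹ * Λ v t i - ∑ j, (d.a i j : ℝ) * l v j) := by
        rw [mul_sub, ← mul_assoc, mul_inv_cancel₀ hNp.ne', one_mul]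
      rw [h3, abs_mul, abs_of_pos hNp, mul_comm]
      exact mul_le_mul_of_nonneg_right ht.le hNp.le
    by_contra hno
    have hgood : ∀ s : Set (Fin q), s.Nonempty → (∀ j, NoRoot (Qc j) → j ∈ s) →
        (∀ j ∈ s, ¬ IsProd (Qc j)) → ∃ v, l v ≠ 0 ∧ ∃ j ∈ s, SplitsNear (Qc j) (l v) := by
      intro s hs1 hs2 hs3
      by_contra hcon
      push Not at hcon
      exact hno ⟨d.r, d.a, fun i => ψ1 (d.c i), s, l, d.hr, d.rank_le, d.hspan,
        fun i => (map_ne_zero ψ1).2 (d.hc i), hhit, hs1, hs2, hs3, fun v hv j hj =>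
          hcon v hv j hj, hl0, hNt, hconv⟩
    obtain ⟨C1, hC1, hE⟩ := exists_bd Qc
    let Bj : Fin q → ℝ := fun j => 2 * (Qc j).natDegree * (((1 + 2 ^ d.r) * C1 + 1) *
      (Module.finrank ℚ L * ∑ v, sz (l v) + 1) + 1)
    have hszl : 0 ≤ ∑ v, sz (l v) := Finset.sum_nonneg fun _ _ => sz_nonneg _
    have hBj : ∀ j, 0 ≤ Bj j := fun j => by
      simp only [Bj]
      positivity
    let A0 : ℝ := 1 + ∑ j, Bj j
    have hA0 : ∀ j, Bj j < A0 := by
      intro j
      have h1 : Bj j ≤ ∑ j, Bj j :=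
        Finset.single_le_sum (f := Bj) (fun j _ => hBj j) (Finset.mem_univ j)
      simp only [A0]
      linarith
    have hch : ∀ v j, ∃ (ε : ℝ) (T0 : Finset ℂ), 0 < ε ∧ (∀ x ∈ T0, IsAlgebraic ℚ x) ∧
        (SplitsNear (Qc j) (l v) → ∀ (M : Type) [Field M] (ψ : M →+* ℂ)
          (Q2 : (Lau M d.r)[X]), Q2.Monic → Q2.map (Lm d.r ψ) = Qc j →
          (∀ x ∈ T0, x ∈ ψ.range) →
          ∃ (g2 : Lau M d.r) (b2 : Fin Q2.natDegree → Lau M d.r), g2 ≠ 0 ∧
            ∀ l' : Fin d.r → ℝ, (∀ i, |l' i - l v i| ≤ ε) → CloseG Q2 g2 b2 A0 l') := by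
      intro v j
      by_cases hsp : SplitsNear (Qc j) (l v)
      · obtain ⟨ε, hε, h1⟩ := hsp
        obtain ⟨g, bb, hg, h2⟩ := h1 A0
        obtain ⟨T0, hT0, h3⟩ := split_desc (Qc j) (hQcm j) (halgQ j) g hg bb
        refine ⟨ε, T0, hε, hT0, fun _ M _ ψ Q2 hm hQQ hx => ?_⟩
        obtain ⟨g2, b2, hg2, h4⟩ := h3 M ψ Q2 hm hQQ hx
        exact ⟨g2, b2, hg2, fun l' hl' => h4 _ _ (h2 l' hl')⟩
      · exact ⟨1, ∅, one_pos, fun x hx => absurd hx (Finset.notMem_empty _),
          fun h => absurd h hsp⟩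
    choose εs Ts hεs hTsa hTs using hch
    have hp : ∀ j, ∃ T0 : Finset ℂ, (∀ x ∈ T0, IsAlgebraic ℚ x) ∧
        (IsProd (Qc j) → ∀ (M : Type) [Field M] (ψ : M →+* ℂ) (Q2 : (Lau M d.r)[X]), Q2.Monic →
          Q2.map (Lm d.r ψ) = Qc j → (∀ x ∈ T0, x ∈ ψ.range) → IsProd Q2) := by
      intro j
      by_cases h1 : IsProd (Qc j)
      · obtain ⟨T0, hT0, hT⟩ := isProd_desc (Qc j) (hQcm j) h1
        exact ⟨T0, hT0 (halgQ j), fun _ => hT⟩
      · exact ⟨∅, fun x hx => absurd hx (Finset.notMem_empty _), fun h => absurd h h1⟩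
    choose Tp hTpa hTp using hp
    let T2 : Finset ℂ := (Finset.univ.biUnion fun v => Finset.univ.biUnion fun j => Ts v j) ∪
      Finset.univ.biUnion Tp
    have hT2a : ∀ x ∈ T2, IsAlgebraic ℚ x := by
      intro x hx
      rcases Finset.mem_union.1 hx with hx | hx
      · obtain ⟨v, -, hx⟩ := Finset.mem_biUnion.1 hx
        obtain ⟨j, -, hx⟩ := Finset.mem_biUnion.1 hx
        exact hTsa v j x hx
      · obtain ⟨j, -, hx⟩ := Finset.mem_biUnion.1 hx
        exact hTpa j x hx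
    obtain ⟨M2, hM2a, hM2b, hM2c, hgal2, hi2, ψ2, hψ2, hT2r⟩ := exists_field ψ1 T2 hT2a
    let τ2 : M1 →+* M2 := algebraMap M1 M2
    let : Algebra L M2 := (τ2.comp (algebraMap L M1)).toAlgebra
    obtain ⟨S2, hS2, hSS2⟩ := ext_int M1 M2 (Set.range D1.P) (Set.finite_range _)
    obtain ⟨D2, hD2''⟩ := exists_PD hi2 (S2 ∪ {W | ∃ w ∈ S, W.asIdeal.LiesOver w.asIdeal})
      (hS2.union (above_finite S))
    have hD2 : ∀ x : M1, D1.TInt x → D2.TInt (algebraMap M1 M2 x) := by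
      intro x hx w hw
      have h1 : x ∈ (Set.range D1.P).integer M1 := by
        rw [mem_integer_iff]
        intro v hv
        exact hx v fun w hw => hv ⟨w, hw.symm⟩
      refine (mem_integer_iff S2 _).1 (hSS2 x h1) w fun hwS => ?_
      obtain ⟨v, hv⟩ := hD2'' w (Set.mem_union_left _ hwS)
      exact hw v hv
    have hD2' : ∀ W : HeightOneSpectrum (𝓞 M2), (∃ w ∈ S, W.asIdeal.LiesOver w.asIdeal) →
        ∃ k, D2.P k = W := by
      intro W hW
      obtain ⟨k, hk⟩ := hD2'' W (Set.mem_union_right _ hW)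
      exact ⟨k, hk.symm⟩
    let d2 := d.bc (τ := τ2) (fun u hu => WA_bc D1 D2 hD2 u hu) (unitA D2 𝒰)
    have hy2 : (fun i => bc τ2 𝒰 (y1 i)) = ys 𝒰 xs M2 := by
      funext i
      show (gm 𝒰 (fun t => τ2 (rep (K := M1) (𝒰 := 𝒰) (y1 i) t)) : GK M2 𝒰) =
        gm 𝒰 (fun t => algebraMap L M2 (xs t i))
      rw [gm_eq]
      filter_upwards [rep_ys (M := M1) 𝒰 xs i] with t ht
      have h1 : rep (K := M1) (𝒰 := 𝒰) (y1 i) t = algebraMap L M1 (xs t i) := ht
      rw [h1]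
      rfl
    have hy2I : ∀ i, bc τ2 𝒰 (y1 i) ∈ (geoA D2 𝒰).I := fun i => TIR_bc D1 D2 hD2 _ (hy1I i)
    have hτ2 : ψ2.comp ((algebraMap L M2).comp (algebraMap K L)) = σ := by
      rw [← hτ1, ← hψ2]
      rfl
    have hfm2 : ∀ {N : ℕ} (P : MvPolynomial (Fin N) (𝓞 K)), MvPolynomial.map τ2 (fm τ1 P) =
        fm ((algebraMap L M2).comp (algebraMap K L)) P := fun P => by
      rw [map_fm]
      rfl
    let τM2 : 𝓞 K →+* M2 := ((algebraMap L M2).comp (algebraMap K L)).comp (algebraMap (𝓞 K) K)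
    have hψτ2 : ψ2.comp τM2 = τK := by
      simp only [τM2, τK]
      rw [← RingHom.comp_assoc, hτ2]
    have hJ2 : ∀ j, (Pm τM2 (P j)).eval₂ (MvPolynomial.aeval fun i => bc τ2 𝒰 (y1 (U i)) :
        MvPolynomial (Fin n) M2 →ₐ[M2] BA M2 𝒰).toRingHom (bc τ2 𝒰 (y1 (J j))) = 0 := by
      intro j
      have h1 := hJz (M := M2) j
      rw [← hy2] at h1
      exact h1
    have hF2 : ∀ l, aeval (fun i => bc τ2 𝒰 (y1 i)) (MvPolynomial.map τ2 (fm τ1 (F l))) = 0 := by
      intro l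
      have h1 := hFz (M := M2) l
      rw [← hy2] at h1
      rw [hfm2]
      exact h1
    have hFM : (fun l => fm ((algebraMap L M2).comp (algebraMap K L)) (F l)) =
        fun l => MvPolynomial.map τ2 (fm τ1 (F l)) := funext fun l => (hfm2 (F l)).symm
    have hFM' : ∀ l, fm ((algebraMap L M2).comp (algebraMap K L)) (F l) =
        MvPolynomial.map τ2 (fm τ1 (F l)) := fun l => (hfm2 (F l)).symm
    let Q2 : Fin q → (Lau M2 d.r)[X] := fun j =>
      pullQ e d.a (fun i => τ2 (d.c i)) (Pm τM2 (P j))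
    have hQ2m : ∀ j, (Q2 j).Monic := fun j => ((hP j).map _).map _
    have hQ2c : ∀ j, (Q2 j).map (Lm d.r ψ2) = Qc j := by
      intro j
      have h1 := hpull ψ2 τM2 hψτ2 (fun i => τ2 (d.c i)) j
      have h2 : (fun i => ψ2 (τ2 (d.c i))) = fun i => ψ1 (d.c i) := by
        funext i
        rw [← hψ2]
        rfl
      rw [h2] at h1
      exact h1
    let z : Fin q → BA M2 𝒰 := fun j => bc τ2 𝒰 (y1 (J j))
    have hroot2 : ∀ j, evQ M2 d2.w (z j) (Q2 j) = 0 := by
      intro j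
      have h1 := evQ_pull e d2.a d2.c (Pm τM2 (P j)) d2.w
        (fun i => bc τ2 𝒰 (y1 (U i))) d2.hU (z j)
      have h2 : evQ M2 d2.w (z j) (Q2 j) =
          evQ M2 d2.w (z j) (pullQ e d2.a d2.c (Pm τM2 (P j))) := rfl
      rw [h2, h1]
      exact hJ2 j
    have hinj2 : Function.Injective (MvPolynomial.aeval (R := M2)
      fun i => (d2.w i : BA M2 𝒰)) := d2.hw
    let s : Set (Fin q) := {j | z j ∉ RatSub (fun j => (d2.w j : BA M2 𝒰)) d2.hw}
    have hs2 : ∀ j, NoRoot (Q2 j) → j ∈ s := by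
      intro j hj hjs
      exact noRoot_notin (r := d.r) d2.w d2.hw (z j) (Q2 j) (hroot2 j) hj hjs
    have hs3 : ∀ j ∈ s, ¬ IsProd (Q2 j) := by
      intro j hj h1
      obtain ⟨p, hp⟩ := h1.root d2.w (z j) (hroot2 j)
      apply hj
      rw [hp]
      exact evL_mem_RatSub d2.w d2.hw p
    by_cases hsn : s.Nonempty
    · obtain ⟨v0, hv0, j, hj, hsp⟩ := hgood s hsn
        (fun j hj => hs2 j (noRoot_desc ψ2 (Qc j) (Q2 j) (hQ2m j) (hQ2c j) hj))
        (fun j hj h1 => hs3 j hj (hTp j h1 M2 ψ2 (Q2 j) (hQ2m j) (hQ2c j) fun x hx =>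
          hT2r x (Finset.mem_union_right _ (Finset.mem_biUnion.2 ⟨j, Finset.mem_univ _, hx⟩))))
      obtain ⟨g2, b2, hg2, hcl⟩ := hTs v0 j hsp M2 ψ2 (Q2 j) (hQ2m j) (hQ2c j) fun x hx =>
        hT2r x (Finset.mem_union_left _ (Finset.mem_biUnion.2 ⟨v0, Finset.mem_univ _,
          Finset.mem_biUnion.2 ⟨j, Finset.mem_univ _, hx⟩⟩))
      have hirr : ∀ p q : Lau M2 d.r, evL M2 d2.w p * z j = evL M2 d2.w q → p = 0 := by
        intro p q hpq
        by_contra hp
        exact hj (mem_RatSub_of d2.w d2.hw (z j) p q hp hpq)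
      have hdeg : (Q2 j).natDegree = (Qc j).natDegree := by
        rw [← hQ2c j, Polynomial.natDegree_map_eq_of_injective (Lm_inj ψ2 ψ2.injective)]
      have hE2 : ∀ a, ∀ e ∈ ((Q2 j).coeff a).coeff.support, ∀ i, |(e i : ℝ)| ≤ C1 := by
        intro a e he
        refine hE j a e ?_
        rw [← hQ2c, Polynomial.coeff_map, Lm_supp_eq ψ2 ψ2.injective]
        exact he
      have hxu : ∀ᶠ t in (𝒰 : Filter ℕ), ∀ p i,
          Real.log (D2.av p (algebraMap L M2 (xs t (U i)))) =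
          Real.log (D2.av p (τ2 (d.c i))) +
            ∑ j, (((e : ℤ) * d.a i j : ℤ) : ℝ) * lv D2 𝒰 d2.w p t j := by
        have h1 : ∀ᶠ t in (𝒰 : Filter ℕ), ∀ i, ∀ p,
            Real.log (D2.av p (algebraMap L M2 (xs t (U i)))) =
            Real.log (D2.av p (τ2 (d.c i))) +
            ∑ j, (((e : ℤ) * d.a i j : ℤ) : ℝ) * lv D2 𝒰 d2.w p t j := by
          refine (Filter.eventually_all).2 fun i => ?_
          have h2 := log_units D2 𝒰 d2.w (τ2 (d.c i)) ((map_ne_zero τ2).2 (d.hc i))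
            (fun j => (e : ℤ) * d.a i j) (bc τ2 𝒰 (y1 (U i))) (d2.hU i)
          have h3 : bc τ2 𝒰 (y1 (U i)) = ys 𝒰 xs M2 (U i) := congrFun hy2 (U i)
          filter_upwards [h2, rep_ys (M := M2) 𝒰 xs (U i)] with t g1 g2 p
          have g3 := g1 p
          rw [h3, g2] at g3
          exact g3
        filter_upwards [h1] with t ht p i
        exact ht i p
      refine place_contra S D2 hD2' 𝒰 d.hr he d.a b hb d2.w d2.hwW d2.hw
        (fun p i => Real.log (D2.av p (τ2 (d.c i)))) (fun t i => xs t (U i)) hxu C0 hb0 Nn hN1 hNt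
        l hlb (Q2 j) (hQ2m j) (z j) (hy2I _) (hroot2 j) hirr C1 hC1 hE2 v0 (εs v0 j) (hεs v0 j)
        A0 g2 hg2 b2 hcl ?_
      rw [hdeg]
      exact hA0 j
    · apply hfin ψ2 hτ2
      rw [← hy2]
      rw [hFM]
      simp only [hFM']
      refine alt_curve (geoA D2 𝒰) (rpA M2 𝒰) he d2 hy2I
        (fun l => MvPolynomial.map τ2 (fm τ1 (F l))) hF2
        (Finset.univ.image U ∪ Finset.univ.image J) ?_ (thA 𝒰 ψ2) (thA 𝒰 ψ2).injective
      intro i hi
      rcases Finset.mem_union.1 hi with h | h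
      · obtain ⟨l, -, rfl⟩ := Finset.mem_image.1 h
        exact U_mem_RatSub d2 l
      · obtain ⟨l, -, rfl⟩ := Finset.mem_image.1 h
        by_contra hcon
        exact hsn ⟨l, hcon⟩

end Pool.Agent.H434.GM
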