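import Mathlib
import Pool.Agent.H434.I3
import Pool.Agent.H434.O10

/-!
Explicit classes of covers: conditions on the Newton polytopes of the discriminants.
-/

set_option autoImplicit false
set_option linter.unusedSectionVars false

open Polynomial

namespace Pool.Agent.H434.AJ

open Pool.Agent.H434.GM

variable {n r : ℕ}

/-- the leading form of the polynomial in the direction `u` is a monomial -/
def LeadM (δ : MvPolynomial (Fin n) ℂ) (u : Fin n → ℝ) : Prop :=
  ∃ b0 ∈ δ.support, ∀ b ∈ δ.support, b ≠ b0 →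
    ∑ i, (b i : ℝ) * u i < ∑ i, (b0 i : ℝ) * u i

/-- some element of the ideal generated by the polynomial and its derivative has a monomial as
leading form in the direction `u` -/
def DiscM (P : (MvPolynomial (Fin n) ℂ)[X]) (u : Fin n → ℝ) : Prop :=
  ∃ (δ : MvPolynomial (Fin n) ℂ) (A B : (MvPolynomial (Fin n) ℂ)[X]),
    A * P + B * derivative P = C δ ∧ LeadM δ u

/-- the substitution -/
noncomputable def sb (M : ℕ) (a : Fin n → Fin r → ℤ) (c : Fin n → ℂ) :
    MvPolynomial (Fin n) ℂ →ₐ[ℂ] Lau ℂ r :=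
  MvPolynomial.aeval fun i => AddMonoidAlgebra.single (fun j => (M : ℤ) * a i j) (c i)

/-- the exponent after the substitution -/
def sbe (M : ℕ) (a : Fin n → Fin r → ℤ) (b : Fin n →₀ ℕ) : Fin r → ℤ :=
  ∑ i, b i • (fun j => (M : ℤ) * a i j)

theorem prod_single {I : Type} (s : Finset I) (g : I → Fin r → ℤ) (x : I → ℂ) :
    ∏ i ∈ s, (AddMonoidAlgebra.single (g i) (x i) : Lau ℂ r) =
      AddMonoidAlgebra.single (∑ i ∈ s, g i) (∏ i ∈ s, x i) := by
  classical
  induction s using Finset.induction_on with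
  | empty => rfl
  | insert i s hi ih =>
    rw [Finset.prod_insert hi, ih, AddMonoidAlgebra.single_mul_single, Finset.sum_insert hi,
      Finset.prod_insert hi]

theorem sb_monomial (M : ℕ) (a : Fin n → Fin r → ℤ) (c : Fin n → ℂ) (b : Fin n →₀ ℕ) (x : ℂ) :
    sb M a c (MvPolynomial.monomial b x) =
      AddMonoidAlgebra.single (sbe M a b) (x * ∏ i, c i ^ b i) := by
  unfold sb
  rw [MvPolynomial.aeval_monomial, Finsupp.prod_fintype _ _ (fun i => pow_zero _)]
  have h1 : ∏ i, (AddMonoidAlgebra.single (fun j => (M : ℤ) * a i j) (c i) : Lau ℂ r) ^ b i =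
      ∏ i, AddMonoidAlgebra.single (b i • fun j => (M : ℤ) * a i j) (c i ^ b i) :=
    Finset.prod_congr rfl fun i _ => AddMonoidAlgebra.single_pow _ _ _
  have h2 : algebraMap ℂ (Lau ℂ r) x = AddMonoidAlgebra.single 0 x := by
    simp
  rw [h1, prod_single, h2, AddMonoidAlgebra.single_mul_single, zero_add]
  rfl

theorem sb_coeff (M : ℕ) (a : Fin n → Fin r → ℤ) (c : Fin n → ℂ) (δ : MvPolynomial (Fin n) ℂ)
    (e : Fin r → ℤ) : (sb M a c δ).coeff e =
      ∑ b ∈ δ.support, open Classical in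
        if sbe M a b = e then (MvPolynomial.coeff b δ * ∏ i, c i ^ b i) else 0 := by
  classical
  have h1 : sb M a c δ = ∑ b ∈ δ.support,
      AddMonoidAlgebra.single (sbe M a b) (MvPolynomial.coeff b δ * ∏ i, c i ^ b i) := by
    conv_lhs => rw [δ.as_sum]
    rw [map_sum]
    exact Finset.sum_congr rfl fun b _ => sb_monomial M a c b _
  rw [h1, AddMonoidAlgebra.coeff_sum, Finsupp.finsetSum_apply]
  refine Finset.sum_congr rfl fun b _ => ?_
  rw [AddMonoidAlgebra.coeff_single, Finsupp.single_apply]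

theorem dot_sbe (a : Fin n → Fin r → ℤ) (b : Fin n →₀ ℕ) (l : Fin r → ℝ) :
    dot (sbe 1 a b) l = ∑ i, (b i : ℝ) * ∑ j, (a i j : ℝ) * l j := by
  have h1 : ∀ j, sbe 1 a b j = ∑ i, (b i : ℤ) * a i j := by
    intro j
    unfold sbe
    rw [Finset.sum_apply]
    refine Finset.sum_congr rfl fun i _ => ?_
    show b i • (((1 : ℕ) : ℤ) * a i j) = _
    rw [nsmul_eq_mul, Nat.cast_one, one_mul]
  unfold dot
  simp only [h1]
  push_cast
  simp only [Finset.sum_mul, Finset.mul_sum]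
  rw [Finset.sum_comm]
  exact Finset.sum_congr rfl fun i _ => Finset.sum_congr rfl fun j _ => by ring

theorem lead_sb (a : Fin n → Fin r → ℤ) (c : Fin n → ℂ) (hc : ∀ i, c i ≠ 0) (l : Fin r → ℝ)
    (δ : MvPolynomial (Fin n) ℂ) (h : LeadM δ fun i => ∑ j, (a i j : ℝ) * l j) :
    ∃ e0 ∈ (sb 1 a c δ).coeff.support, ∀ e ∈ (sb 1 a c δ).coeff.support, e ≠ e0 →
      dot e l < dot e0 l := by
  classical
  obtain ⟨b0, hb0, hb⟩ := h
  refine ⟨sbe 1 a b0, ?_, ?_⟩
  · rw [Finsupp.mem_support_iff, sb_coeff, Finset.sum_eq_single b0]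
    · rw [if_pos rfl]
      exact mul_ne_zero (MvPolynomial.mem_support_iff.1 hb0)
        (Finset.prod_ne_zero_iff.2 fun i _ => pow_ne_zero _ (hc i))
    · intro b hbs hne
      rw [if_neg]
      intro h1
      have h2 := hb b hbs hne
      rw [← dot_sbe, ← dot_sbe, h1] at h2
      exact lt_irrefl _ h2
    · intro h1
      exact absurd hb0 h1
  · intro e he hne
    have h1 : ∃ b ∈ δ.support, sbe 1 a b = e := by
      by_contra hcon
      push Not at hcon
      rw [Finsupp.mem_support_iff, sb_coeff] at he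
      apply he
      exact Finset.sum_eq_zero fun b hbs => if_neg (hcon b hbs)
    obtain ⟨b, hbs, rfl⟩ := h1
    rw [dot_sbe, dot_sbe]
    exact hb b hbs fun h => hne (by rw [h])

theorem monoD_of (P : (MvPolynomial (Fin n) ℂ)[X]) (a : Fin n → Fin r → ℤ) (c : Fin n → ℂ)
    (hc : ∀ i, c i ≠ 0) (l : Fin r → ℝ) (h : DiscM P fun i => ∑ j, (a i j : ℝ) * l j) :
    MonoD (pullQ 1 a c P) l := by
  obtain ⟨δ, A, B, h1, h2⟩ := h
  refine ⟨sb 1 a c δ, A.map (sb 1 a c).toRingHom, B.map (sb 1 a c).toRingHom, ?_,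
    lead_sb a c hc l δ h2⟩
  have h3 := congrArg (Polynomial.map (sb 1 a c).toRingHom) h1
  rw [Polynomial.map_add, Polynomial.map_mul, Polynomial.map_mul, ← Polynomial.derivative_map,
    Polynomial.map_C] at h3
  exact h3

theorem MonoP.of (Q : (Lau ℂ r)[X]) (hQ : Q.Monic) (l : Fin r → ℝ) (h : MonoD Q l) :
    MonoP Q l :=
  ⟨1, fun _ => Q, by simp, fun _ => ⟨hQ, h⟩⟩

theorem push_ne (a : Fin n → Fin r → ℤ) (ha : ∀ j, Pi.single j 1 ∈ Submodule.span ℤ (Set.range a))
    (l : Fin r → ℝ) (hl : l ≠ 0) : (fun i => ∑ j, (a i j : ℝ) * l j) ≠ 0 := by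
  intro h
  apply hl
  obtain ⟨b, hb⟩ := span_coef a ha
  funext j
  rw [hb l j]
  refine Finset.sum_eq_zero fun i _ => ?_
  rw [congrFun h i]
  exact mul_zero _

section tw

variable {n : ℕ}

/-- the twisted change of the exponents -/
noncomputable def tw (T : (Fin n → ℤ) →+ (Fin n → ℤ)) (γ : Fin n → ℂ) (hγ : ∀ i, γ i ≠ 0) :
    Lau ℂ n →ₐ[ℂ] Lau ℂ n :=
  AddMonoidAlgebra.lift ℂ (Lau ℂ n) (Fin n → ℤ)
    { toFun := fun e => AddMonoidAlgebra.single (T e.toAdd) (∏ k, γ k ^ (-(T e.toAdd k)))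
      map_one' := by
        show AddMonoidAlgebra.single (T 0) (∏ k, γ k ^ (-(T 0 k))) = 1
        rw [map_zero]
        simp only [Pi.zero_apply, neg_zero, zpow_zero, Finset.prod_const_one]
        rfl
      map_mul' := fun a b => by
        show AddMonoidAlgebra.single (T (a.toAdd + b.toAdd))
          (∏ k, γ k ^ (-(T (a.toAdd + b.toAdd) k))) = _
        rw [AddMonoidAlgebra.single_mul_single, map_add, ← Finset.prod_mul_distrib]
        congr 1
        refine Finset.prod_congr rfl fun k _ => ?_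
        rw [Pi.add_apply, neg_add, zpow_add₀ (hγ k)] }

theorem tw_single (T : (Fin n → ℤ) →+ (Fin n → ℤ)) (γ : Fin n → ℂ) (hγ : ∀ i, γ i ≠ 0)
    (e : Fin n → ℤ) (x : ℂ) : tw T γ hγ (AddMonoidAlgebra.single e x) =
      AddMonoidAlgebra.single (T e) (x * ∏ k, γ k ^ (-(T e k))) := by
  unfold tw
  rw [AddMonoidAlgebra.lift_single]
  show x • AddMonoidAlgebra.single (T e) (∏ k, γ k ^ (-(T e k))) = _
  rw [AddMonoidAlgebra.smul_single, smul_eq_mul]

theorem tw_inj (T : (Fin n → ℤ) →+ (Fin n → ℤ)) (hT : Function.Injective T) (γ : Fin n → ℂ)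
    (hγ : ∀ i, γ i ≠ 0) (p : Lau ℂ n) (hp : p ≠ 0) : tw T γ hγ p ≠ 0 := by
  classical
  obtain ⟨e0, he0⟩ := supp_ne hp
  intro h0
  have h1 : p = ∑ e ∈ p.coeff.support, AddMonoidAlgebra.single e (p.coeff e) := by
    have h2 : p = AddMonoidAlgebra.ofCoeff p.coeff := rfl
    apply AddMonoidAlgebra.ext
    refine Finsupp.ext fun e => ?_
    rw [AddMonoidAlgebra.coeff_sum, Finsupp.finsetSum_apply, Finset.sum_eq_single e]
    · rw [AddMonoidAlgebra.coeff_single, Finsupp.single_eq_same]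
    · intro b _ hb
      rw [AddMonoidAlgebra.coeff_single, Finsupp.single_apply, if_neg hb]
    · intro he
      rw [AddMonoidAlgebra.coeff_single, Finsupp.single_eq_same]
      exact Finsupp.notMem_support_iff.1 he
  have h2 : (tw T γ hγ p).coeff (T e0) = p.coeff e0 * ∏ k, γ k ^ (-(T e0 k)) := by
    conv_lhs => rw [h1]
    rw [map_sum, AddMonoidAlgebra.coeff_sum, Finsupp.finsetSum_apply, Finset.sum_eq_single e0]
    · rw [tw_single, AddMonoidAlgebra.coeff_single, Finsupp.single_eq_same]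
    · intro b _ hb
      rw [tw_single, AddMonoidAlgebra.coeff_single, Finsupp.single_apply,
        if_neg fun h => hb (hT h)]
    · intro he
      exact absurd he0 he
  rw [h0] at h2
  have h3 : p.coeff e0 * ∏ k, γ k ^ (-(T e0 k)) ≠ 0 :=
    mul_ne_zero (Finsupp.mem_support_iff.1 he0)
      (Finset.prod_ne_zero_iff.2 fun k _ => zpow_ne_zero _ (hγ k))
  exact h3 h2.symm

theorem noRoot_pull (M : ℕ) (hM : 1 ≤ M) (a : Fin n → Fin n → ℤ)
    (ha : ∀ j, Pi.single j 1 ∈ Submodule.span ℤ (Set.range a)) (c : Fin n → ℂ)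
    (hc : ∀ i, c i ≠ 0) (P : (MvPolynomial (Fin n) ℂ)[X]) (hP : P.Monic)
    (h : NoRoot (pullQ M (fun i => Pi.single i 1) (fun _ => 1) P)) :
    NoRoot (pullQ M a c P) := by
  classical
  have h1 : ∀ j, ∃ b : Fin n → ℤ, ∑ i, b i • a i = Pi.single j 1 := fun j =>
    (Submodule.mem_span_range_iff_exists_fun ℤ).1 (ha j)
  choose b hb using h1
  let A : Matrix (Fin n) (Fin n) ℤ := Matrix.of a
  let B : Matrix (Fin n) (Fin n) ℤ := Matrix.of b
  have hBA : B * A = 1 := by
    ext j k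
    rw [Matrix.mul_apply]
    have h2 := congrFun (hb j) k
    rw [Finset.sum_apply] at h2
    have h3 : ∀ i, (b j i • a i) k = B j i * A i k := fun i => rfl
    simp only [h3] at h2
    rw [h2, Matrix.one_apply, Pi.single_apply]
    by_cases hjk : k = j
    · rw [if_pos hjk, if_pos hjk.symm]
    · rw [if_neg hjk, if_neg fun h => hjk h.symm]
  have hAB : A * B = 1 := mul_eq_one_comm.1 hBA
  let T : (Fin n → ℤ) →+ (Fin n → ℤ) := (Matrix.vecMulLinear B).toAddMonoidHom
  have hT : ∀ e, T e = Matrix.vecMul e B := fun e => rfl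
  have hTinj : Function.Injective T := by
    intro e e' h2
    have h3 := congrArg (fun v => Matrix.vecMul v A) h2
    simp only [hT] at h3
    rw [Matrix.vecMul_vecMul, Matrix.vecMul_vecMul, hBA, Matrix.vecMul_one,
      Matrix.vecMul_one] at h3
    exact h3
  have hTa : ∀ i, T (a i) = Pi.single i 1 := by
    intro i
    rw [hT]
    funext k
    have h2 := congrFun (congrFun hAB i) k
    rw [Matrix.mul_apply, Matrix.one_apply] at h2
    show ∑ j, a i j * b j k = _
    rw [Pi.single_apply]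
    have h3 : ∑ j, a i j * b j k = ∑ j, A i j * B j k := rfl
    rw [h3, h2]
    by_cases hik : i = k
    · rw [if_pos hik, if_pos hik.symm]
    · rw [if_neg hik, if_neg fun h => hik h.symm]
  have hγ0 : ∀ i, ∃ γ : ℂ, γ ^ M = c i := fun i => IsAlgClosed.exists_pow_nat_eq _ hM
  choose γ hγ using hγ0
  have hγ1 : ∀ i, γ i ≠ 0 := by
    intro i h0
    apply hc i
    rw [← hγ i, h0, zero_pow (by omega)]
  have hmap : (pullQ M a c P).map (tw T γ hγ1).toRingHom =
      pullQ M (fun i => Pi.single i 1) (fun _ => 1) P := by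
    unfold pullQ
    rw [Polynomial.map_map]
    congr 1
    apply MvPolynomial.ringHom_ext
    · intro x
      simp only [RingHom.comp_apply, AlgHom.toRingHom_eq_coe, RingHom.coe_coe,
        MvPolynomial.algHom_C, AlgHom.commutes]
    · intro i
      simp only [RingHom.comp_apply, AlgHom.toRingHom_eq_coe, RingHom.coe_coe,
        MvPolynomial.aeval_X]
      rw [tw_single]
      have h2 : (fun j => (M : ℤ) * a i j) = (M : ℤ) • a i := by
        funext j
        rfl
      have h3 : T (fun j => (M : ℤ) * a i j) = fun j => (M : ℤ) * (Pi.single i 1 : Fin n → ℤ) j := by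
        rw [h2, map_zsmul, hTa]
        rfl
      rw [h3]
      congr 1
      rw [Finset.prod_eq_single i]
      · show c i * γ i ^ (-((M : ℤ) * (Pi.single i 1 : Fin n → ℤ) i)) = 1
        rw [Pi.single_eq_same, mul_one, zpow_neg, zpow_natCast, hγ]
        exact mul_inv_cancel₀ (hc i)
      · intro k _ hk
        show γ k ^ (-((M : ℤ) * (Pi.single i 1 : Fin n → ℤ) k)) = 1
        rw [Pi.single_eq_of_ne hk, mul_zero, neg_zero, zpow_zero]
      · intro h4
        exact absurd (Finset.mem_univ _) h4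
  intro p q hq h0
  refine h (tw T γ hγ1 p) (tw T γ hγ1 q) (tw_inj T hTinj γ hγ1 q hq) ?_
  have hm : (pullQ M a c P).Monic := hP.map _
  rw [← hmap]
  have h2 : ((pullQ M a c P).map (tw T γ hγ1).toRingHom).scaleRoots (tw T γ hγ1 q) =
      ((pullQ M a c P).scaleRoots q).map (tw T γ hγ1).toRingHom :=
    (map_scaleRoots _ _ _ (by
      rw [hm.leadingCoeff, map_one]
      exact one_ne_zero)).symm
  rw [h2, Polynomial.eval_map]
  have h3 : Polynomial.eval₂ (tw T γ hγ1).toRingHom ((tw T γ hγ1).toRingHom p)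
      ((pullQ M a c P).scaleRoots q) = 0 := by
    rw [Polynomial.eval₂_hom, h0, map_zero]
  exact h3

end tw

/-- **Covers which are ramified in different directions.** -/
theorem tame_of_sep {q n : ℕ} (X : Set (Fin n → ℂ))
    (P : Fin q → Polynomial (MvPolynomial (Fin n) ℂ)) (hP : ∀ j, (P j).Monic)
    (h1 : ∀ j, ∀ N : ℕ, 1 ≤ N → NoRoot (pullQ N (fun i => Pi.single i 1) (fun _ => 1) (P j)))
    (h2 : ∀ r : ℕ, 2 ≤ r → r < n → ∀ (a : Fin n → Fin r → ℤ) (c : Fin n → ℂ),
      (∀ j, Pi.single j 1 ∈ Submodule.span ℤ (Set.range a)) → (∀ i, c i ≠ 0) →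
      (∃ x ∈ X, ∃ t : Fin r → ℂ, (∀ j, t j ≠ 0) ∧ ∀ i, x i = c i * ∏ j, t j ^ a i j) →
      ∀ j, ∀ N : ℕ, 1 ≤ N → NoRoot (pullQ N a c (P j)))
    (h3 : ∀ u : Fin n → ℝ, u ≠ 0 → ∃ j, DiscM (P j) u) :
    ∃ M : ℕ, 1 ≤ M ∧ ∀ r : ℕ, 1 ≤ r → r ≤ n → ∀ (a : Fin n → Fin r → ℤ) (c : Fin n → ℂ),
      (∀ j, Pi.single j 1 ∈ Submodule.span ℤ (Set.range a)) → (∀ i, c i ≠ 0) →
      (∃ x ∈ X, ∃ t : Fin r → ℂ, (∀ j, t j ≠ 0) ∧ ∀ i, x i = c i * ∏ j, t j ^ a i j) →
      ∀ s : Set (Fin q), s.Nonempty → (∀ j, NoRoot (pullQ M a c (P j)) → j ∈ s) →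
        (∀ j ∈ s, ¬ IsProd (pullQ M a c (P j))) →
        ∃ μ : Fin r → ℝ, ∀ l : Fin r → ℝ, l ≠ 0 → 0 ≤ ∑ i, μ i * l i →
          ∃ j ∈ s, GoodAt M a c (P j) l := by
  classical
  let M : ℕ := ∏ j, (P j).natDegree.factorial
  have hM : 1 ≤ M := Finset.one_le_prod' fun j _ => Nat.factorial_pos _
  have hdM : ∀ j, (P j).natDegree.factorial ∣ M := fun j =>
    Finset.dvd_prod_of_mem (fun j => (P j).natDegree.factorial) (Finset.mem_univ j)
  refine ⟨M, hM, ?_⟩
  intro r hr hrn a c ha hc hX s hs hns _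
  refine ⟨0, fun l hl _ => ?_⟩
  by_cases hr1 : r = 1
  · obtain ⟨j, hj⟩ := hs
    exact ⟨j, hj, Or.inr ⟨hdM j, Or.inl hr1⟩⟩
  · have hall : ∀ j, j ∈ s := by
      intro j
      apply hns
      rcases Nat.lt_or_eq_of_le hrn with h | h
      · exact h2 r (by omega) h a c ha hc hX j M hM
      · subst h
        exact noRoot_pull M hM a ha c hc (P j) (hP j) (h1 j M hM)
    obtain ⟨j, hj⟩ := h3 _ (push_ne a ha l hl)
    exact ⟨j, hall j, Or.inr ⟨hdM j, Or.inr (MonoP.of _ ((hP j).map _) l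
      (monoD_of (P j) a c hc l hj))⟩⟩

end Pool.Agent.H434.AJ
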