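import Mathlib
import Pool.Agent.H434.Root
import Pool.Agent.H434.P6

/-!
The polynomial `Z ^ m - F` splits near the directions in which the leading form of `F` is an `m`-th
power.
-/

set_option autoImplicit false
set_option linter.unusedSectionVars false

open Polynomial

namespace Pool.Agent.H434.AJ

open Pool.Agent.H434.GM

variable {r : ℕ}

/-- the exponents are bounded in the direction `l` -/
def LB (l : Fin r → ℝ) (p : Lau ℂ r) (C : ℝ) : Prop := ∀ e ∈ p.coeff.support, dot e l ≤ C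

theorem LB.mono {l : Fin r → ℝ} {p : Lau ℂ r} {C D : ℝ} (h : LB l p C) (hCD : C ≤ D) :
    LB l p D := fun e he => (h e he).trans hCD

theorem LB.mul {l : Fin r → ℝ} {p q : Lau ℂ r} {C D : ℝ} (h1 : LB l p C) (h2 : LB l q D) :
    LB l (p * q) (C + D) := by
  intro e he
  obtain ⟨x, hx, y, hy, rfl⟩ := lau_mul_supp he
  rw [dot_add]
  exact add_le_add (h1 x hx) (h2 y hy)

theorem LB.one (l : Fin r → ℝ) : LB l (1 : Lau ℂ r) 0 := by
  intro e he
  have h6 : (1 : Lau ℂ r) = AddMonoidAlgebra.single 0 1 := rfl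
  rw [h6, Finsupp.mem_support_iff, AddMonoidAlgebra.coeff_single, Finsupp.single_apply] at he
  by_cases h0 : (0 : Fin r → ℤ) = e
  · rw [← h0]
    unfold dot
    simp
  · rw [if_neg h0] at he
    exact absurd rfl he

theorem LB.pow {l : Fin r → ℝ} {p : Lau ℂ r} {C : ℝ} (h : LB l p C) (n : ℕ) :
    LB l (p ^ n) (n * C) := by
  induction n with
  | zero =>
    rw [pow_zero, Nat.cast_zero, zero_mul]
    exact LB.one l
  | succ n ih =>
    rw [pow_succ]
    refine (ih.mul h).mono (le_of_eq ?_)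
    push_cast
    ring

theorem LB.sum {I : Type} (s : Finset I) (f : I → Lau ℂ r) {l : Fin r → ℝ} {C : ℝ}
    (h : ∀ i ∈ s, LB l (f i) C) : LB l (∑ i ∈ s, f i) C := by
  intro e he
  obtain ⟨i, hi, h1⟩ := lau_sum_supp s f he
  exact h i hi e h1

theorem LB.const {l : Fin r → ℝ} {p : Lau ℂ r} {C : ℝ} (h : LB l p C) (x : ℂ) :
    LB l (algebraMap ℂ (Lau ℂ r) x * p) C := by
  have h2 : algebraMap ℂ (Lau ℂ r) x = AddMonoidAlgebra.single 0 x := by
    simp
  have h3 : LB l (algebraMap ℂ (Lau ℂ r) x) 0 := by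
    intro e he
    rw [h2, Finsupp.mem_support_iff, AddMonoidAlgebra.coeff_single, Finsupp.single_apply] at he
    by_cases h0 : (0 : Fin r → ℤ) = e
    · rw [← h0]
      unfold dot
      simp
    · rw [if_neg h0] at he
      exact absurd rfl he
  refine (h3.mul h).mono ?_
  linarith

/-- the top exponent of a product -/
theorem top_mul {p q : Lau ℂ r} {a b : Fin r → ℤ} (l : Fin r → ℝ)
    (ha : ∀ e ∈ p.coeff.support, key l e ≤ key l a) (hb : ∀ e ∈ q.coeff.support, key l e ≤ key l b) :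
    (p * q).coeff (a + b) = p.coeff a * q.coeff b ∧
      ∀ e ∈ (p * q).coeff.support, key l e ≤ key l (a + b) := by
  classical
  constructor
  · rw [AddMonoidAlgebra.coeff_mul]
    unfold Finsupp.sum
    have h1 : ∀ x ∈ p.coeff.support, ∀ y ∈ q.coeff.support, x + y = a + b → x = a ∧ y = b := by
      intro x hx y hy hxy
      have h2 := ha x hx
      have h3 := hb y hy
      have h4 : key l x + key l y = key l a + key l b := by
        rw [← key_add, ← key_add, hxy]
      have h5 : key l x = key l a := by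
        by_contra hne
        have h6 : key l x < key l a := lt_of_le_of_ne h2 hne
        have h7 : key l x + key l y < key l a + key l b := add_lt_add_of_lt_of_le h6 h3
        rw [h4] at h7
        exact lt_irrefl _ h7
      have h8 := key_inj l h5
      refine ⟨h8, ?_⟩
      rw [h8] at hxy
      exact add_left_cancel hxy
    rw [Finset.sum_eq_single a]
    · show ∑ y ∈ q.coeff.support, (if a + y = a + b then p.coeff a * q.coeff y else 0) = _
      rw [Finset.sum_eq_single b]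
      · show (if a + b = a + b then p.coeff a * q.coeff b else 0) = _
        rw [if_pos rfl]
      · intro y hy hyb
        show (if a + y = a + b then p.coeff a * q.coeff y else 0) = 0
        rw [if_neg fun h => hyb (add_left_cancel h)]
      · intro hbq
        show (if a + b = a + b then p.coeff a * q.coeff b else 0) = 0
        rw [Finsupp.notMem_support_iff.1 hbq, mul_zero, ite_self]
    · intro x hx hxa
      refine Finset.sum_eq_zero fun y hy => ?_
      show (if x + y = a + b then p.coeff x * q.coeff y else 0) = 0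
      rw [if_neg fun h => hxa (h1 x hx y hy h).1]
    · intro hap
      refine Finset.sum_eq_zero fun y hy => ?_
      show (if a + y = a + b then p.coeff a * q.coeff y else 0) = 0
      rw [Finsupp.notMem_support_iff.1 hap, zero_mul, ite_self]
  · intro e he
    obtain ⟨x, hx, y, hy, rfl⟩ := lau_mul_supp he
    rw [key_add, key_add]
    exact add_le_add (ha x hx) (hb y hy)

theorem exists_top (G : Lau ℂ r) (hG : G ≠ 0) (l : Fin r → ℝ) : ∃ a ∈ G.coeff.support,
    (∀ e ∈ G.coeff.support, dot e l ≤ dot a l) ∧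
    ∀ K : ℕ, K • a ∈ (G ^ K).coeff.support := by
  classical
  obtain ⟨a, ha, hmax⟩ := Finset.exists_max_image G.coeff.support (key l) (supp_ne hG)
  refine ⟨a, ha, fun e he => key_fst (hmax e he), ?_⟩
  have h1 : ∀ K : ℕ, (G ^ K).coeff (K • a) = (G.coeff a) ^ K ∧
      ∀ e ∈ (G ^ K).coeff.support, key l e ≤ key l (K • a) := by
    intro K
    induction K with
    | zero =>
      have h6 : (G ^ 0 : Lau ℂ r) = AddMonoidAlgebra.single 0 1 := by
        rw [pow_zero]
        rfl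
      rw [h6, zero_smul, pow_zero]
      refine ⟨by rw [AddMonoidAlgebra.coeff_single, Finsupp.single_eq_same], fun e he => ?_⟩
      rw [Finsupp.mem_support_iff, AddMonoidAlgebra.coeff_single, Finsupp.single_apply] at he
      by_cases h0 : (0 : Fin r → ℤ) = e
      · rw [← h0]
      · rw [if_neg h0] at he
        exact absurd rfl he
    | succ K ih =>
      have h2 := top_mul l ih.2 hmax
      rw [pow_succ, succ_nsmul, pow_succ]
      rw [ih.1] at h2
      exact h2
  intro K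
  rw [Finsupp.mem_support_iff, (h1 K).1]
  exact pow_ne_zero _ (Finsupp.mem_support_iff.1 ha)

theorem dot_nsmul (K : ℕ) (a : Fin r → ℤ) (l : Fin r → ℝ) : dot (K • a) l = K * dot a l := by
  unfold dot
  rw [Finset.mul_sum]
  refine Finset.sum_congr rfl fun i _ => ?_
  rw [Pi.smul_apply, nsmul_eq_mul]
  push_cast
  ring

/-- the exponents near a direction -/
theorem exists_lip (S : Finset (Fin r → ℤ)) : ∃ C : ℝ, 0 ≤ C ∧ ∀ (l l' : Fin r → ℝ) (ε : ℝ),
    (∀ i, |l' i - l i| ≤ ε) → ∀ e ∈ S, |dot e l' - dot e l| ≤ C * ε := by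
  classical
  refine ⟨∑ e ∈ S, ∑ i, |(e i : ℝ)|, Finset.sum_nonneg fun _ _ => Finset.sum_nonneg fun _ _ =>
    abs_nonneg _, fun l l' ε h e he => ?_⟩
  have h1 : dot e l' - dot e l = ∑ i, (e i : ℝ) * (l' i - l i) := by
    unfold dot
    rw [← Finset.sum_sub_distrib]
    exact Finset.sum_congr rfl fun i _ => by ring
  rw [h1]
  have h2 : ∑ i, |(e i : ℝ)| ≤ ∑ e ∈ S, ∑ i, |(e i : ℝ)| :=
    Finset.single_le_sum (f := fun e : Fin r → ℤ => ∑ i, |(e i : ℝ)|)
      (fun _ _ => Finset.sum_nonneg fun _ _ => abs_nonneg _) he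
  by_cases hr : Nonempty (Fin r)
  · obtain ⟨i0⟩ := hr
    have hε : 0 ≤ ε := (abs_nonneg _).trans (h i0)
    refine le_trans ?_ (mul_le_mul_of_nonneg_right h2 hε)
    rw [Finset.sum_mul]
    refine (Finset.abs_sum_le_sum_abs _ _).trans (Finset.sum_le_sum fun i _ => ?_)
    rw [abs_mul]
    exact mul_le_mul_of_nonneg_left (h i) (abs_nonneg _)
  · have h3 : IsEmpty (Fin r) := not_nonempty_iff.1 hr
    have h4 : ∀ e : Fin r → ℤ, ∑ i, |(e i : ℝ)| = 0 := fun e => by simp
    have h5 : ∑ i, (e i : ℝ) * (l' i - l i) = 0 := by simp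
    rw [h5, abs_zero]
    simp only [h4, Finset.sum_const_zero, zero_mul, le_refl]

/-- `F` is close to the `m`-th power of a Laurent polynomial in the direction `l` -/
def PowD (m : ℕ) (F : Lau ℂ r) (l : Fin r → ℝ) : Prop :=
  ∃ G : Lau ℂ r, G ≠ 0 ∧ ∀ e ∈ (F - G ^ m).coeff.support, ∃ s ∈ G.coeff.support,
    dot e l < m * dot s l

/-- the algebraic identity -/
theorem kummer_alg (m : ℕ) (hm : 2 ≤ m) (F G : Lau ℂ r) (hG : G ≠ 0) (N : ℕ) (hN : 1 ≤ N) :
    ∃ (B : Lau ℂ r) (S : ℂ[X]), (G ^ (m * N)) ^ m * F - B ^ m =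
      G ^ m * ((F - G ^ m) ^ (N + 1) * hz (m * N - (N + 1)) S (F - G ^ m) (G ^ m)) := by
  obtain ⟨P, S, hP1, -, hPS⟩ := exists_root_poly (k := ℂ) m (by omega) N
  have hid := root_identity hm hN P S hP1 hPS (A := Lau ℂ r) (F - G ^ m) (G ^ m)
    (pow_ne_zero _ hG)
  have hmN : N + 1 ≤ m * N := by nlinarith
  refine ⟨G * hz N P (F - G ^ m) (G ^ m), S, ?_⟩
  have hF : G ^ m + (F - G ^ m) = F := by ring
  have h1 : (G ^ (m * N)) ^ m = G ^ m * (G ^ m) ^ (m * N - 1) := by
    rw [← pow_succ', show m * N - 1 + 1 = m * N by omega, ← pow_mul, ← pow_mul, mul_comm]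
  rw [hF] at hid
  rw [h1, mul_assoc, hid, mul_pow]
  ring

/-- the linear factors -/
theorem kummer_close (m : ℕ) (hm : 2 ≤ m) (F g B E : Lau ℂ r) (h : g ^ m * F - B ^ m = E) :
    ∃ b : Fin ((X : (Lau ℂ r)[X]) ^ m - C F).natDegree → Lau ℂ r, ∀ (A : ℝ) (l : Fin r → ℝ),
      (∀ e ∈ E.coeff.support, ∃ s ∈ g.coeff.support, dot e l ≤ m * dot s l - A) →
      CloseG ((X : (Lau ℂ r)[X]) ^ m - C F) g b A l := by
  classical
  let ζ : ℂ := Complex.exp (2 * Real.pi * Complex.I / m)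
  have hζ : IsPrimitiveRoot ζ m := Complex.isPrimitiveRoot_exp m (by omega)
  have hζ' : IsPrimitiveRoot (algebraMap ℂ (Lau ℂ r) ζ) m :=
    hζ.map_of_injective (algebraMap ℂ (Lau ℂ r)).injective
  have hprod : (X : (Lau ℂ r)[X]) ^ m - C (B ^ m) =
      ∏ i ∈ Finset.range m, (X - C ((algebraMap ℂ (Lau ℂ r) ζ) ^ i * B)) :=
    X_pow_sub_C_eq_prod hζ' (by omega) rfl
  have hdeg : ((X : (Lau ℂ r)[X]) ^ m - C F).natDegree = m := natDegree_X_pow_sub_C
  have hsc : ((X : (Lau ℂ r)[X]) ^ m - C F).scaleRoots g = X ^ m - C (g ^ m * F) := by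
    ext1 i
    rw [coeff_scaleRoots, hdeg, coeff_sub, coeff_sub, coeff_X_pow, coeff_C, coeff_C]
    by_cases h0 : i = 0
    · subst h0
      rw [if_neg (by omega), if_pos rfl, if_pos rfl, Nat.sub_zero]
      ring
    · rw [if_neg h0, if_neg h0]
      by_cases h1 : i = m
      · subst h1
        rw [if_pos rfl, Nat.sub_self, pow_zero]
        ring
      · rw [if_neg h1]
        ring
  refine ⟨fun i => (algebraMap ℂ (Lau ℂ r) ζ) ^ (Fin.cast hdeg i : ℕ) * B, fun A l hE j e he => ?_⟩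
  have h1 : ∏ i : Fin ((X : (Lau ℂ r)[X]) ^ m - C F).natDegree,
      (X - C ((algebraMap ℂ (Lau ℂ r) ζ) ^ (Fin.cast hdeg i : ℕ) * B)) =
      (X : (Lau ℂ r)[X]) ^ m - C (B ^ m) := by
    rw [hprod, ← Fin.prod_univ_eq_prod_range
      (fun i => (X - C ((algebraMap ℂ (Lau ℂ r) ζ) ^ i * B) : (Lau ℂ r)[X])) m]
    exact prod_cast hdeg
      (fun i => X - C ((algebraMap ℂ (Lau ℂ r) ζ) ^ (i : ℕ) * B))
  rw [h1, hsc] at he
  have h2 : (X ^ m - C (g ^ m * F) - (X ^ m - C (B ^ m)) : (Lau ℂ r)[X]) = C (-E) := by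
    rw [← h, map_neg, map_sub]
    ring
  rw [h2, coeff_C] at he
  by_cases hj : j = 0
  · rw [if_pos hj] at he
    have h5 : e ∈ E.coeff.support := by
      rw [Finsupp.mem_support_iff] at he ⊢
      intro h3
      apply he
      have h4 : ∀ p : Lau ℂ r, (-p).coeff e = -(p.coeff e) := fun _ => rfl
      rw [h4, h3, neg_zero]
    obtain ⟨s, hs, h6⟩ := hE e h5
    refine ⟨s, hs, ?_⟩
    rw [hdeg, hj, Nat.cast_zero, sub_zero]
    exact h6
  · rw [if_neg hj] at he
    exact absurd rfl (Finsupp.mem_support_iff.1 he)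

/-- the bound for the error -/
theorem kummer_bound (m : ℕ) (R G : Lau ℂ r) (l : Fin r → ℝ) (γ δ : ℝ) (hδ : 0 ≤ δ)
    (b1 : LB l R (m * γ - δ)) (b2 : LB l G γ) (N : ℕ) (hmN : N + 1 ≤ m * N) (S : ℂ[X]) :
    LB l (G ^ m * (R ^ (N + 1) * hz (m * N - (N + 1)) S R (G ^ m)))
      (m * (m * N * γ) + m * γ - (N + 1) * δ) := by
  have c1 : LB l (hz (m * N - (N + 1)) S R (G ^ m)) ((m * N - (N + 1) : ℕ) * (m * γ)) := by
    unfold hz
    refine LB.sum _ _ fun i hi => ?_
    have hi' : i ≤ m * N - (N + 1) := by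
      have := Finset.mem_range.1 hi
      omega
    refine (((b1.pow i).mul ((b2.pow m).pow (m * N - (N + 1) - i))).const _).mono ?_
    rw [Nat.cast_sub hi']
    have h1 : 0 ≤ (i : ℝ) * δ := by positivity
    linarith
  refine ((b2.pow m).mul ((b1.pow (N + 1)).mul c1)).mono ?_
  rw [Nat.cast_sub hmN]
  push_cast
  linarith

theorem splits_kummer (m : ℕ) (hm : 2 ≤ m) (F : Lau ℂ r) (l : Fin r → ℝ) (h : PowD m F l) :
    SplitsNear ((X : (Lau ℂ r)[X]) ^ m - C F) l := by
  classical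
  obtain ⟨G, hG, h⟩ := h
  obtain ⟨a0, ha0, ha0max, -⟩ := exists_top G hG l
  have hm0 : (0 : ℝ) ≤ m := Nat.cast_nonneg m
  -- the gap
  obtain ⟨δ, hδ, hgap⟩ : ∃ δ : ℝ, 0 < δ ∧ ∀ e ∈ (F - G ^ m).coeff.support,
      dot e l + δ ≤ m * dot a0 l := by
    by_cases hne : (F - G ^ m).coeff.support.Nonempty
    · obtain ⟨e0, he0, hmax⟩ := Finset.exists_max_image (F - G ^ m).coeff.support
        (fun e => dot e l) hne
      obtain ⟨s, hs, hlt⟩ := h e0 he0
      have h1 : (m : ℝ) * dot s l ≤ m * dot a0 l := mul_le_mul_of_nonneg_left (ha0max s hs) hm0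
      refine ⟨m * dot a0 l - dot e0 l, by linarith, fun e he => ?_⟩
      have h2 := hmax e he
      linarith
    · exact ⟨1, one_pos, fun e he => absurd ⟨e, he⟩ hne⟩
  obtain ⟨Cr, hC, hlip⟩ := exists_lip ((F - G ^ m).coeff.support ∪ G.coeff.support)
  obtain ⟨ε, hε, hεδ⟩ : ∃ ε : ℝ, 0 < ε ∧ (m + 1) * (Cr * ε) ≤ δ / 2 := by
    have hden : 0 < 2 * ((m + 1) * Cr + 1) := by positivity
    refine ⟨δ / (2 * ((m + 1) * Cr + 1)), div_pos hδ hden, ?_⟩
    have h1 : (m + 1) * (Cr * (δ / (2 * ((m + 1) * Cr + 1)))) =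
        (δ / 2) * (((m + 1) * Cr) / ((m + 1) * Cr + 1)) := by
      field_simp
    rw [h1]
    have h2 : ((m + 1) * Cr) / ((m + 1) * Cr + 1) ≤ 1 := by
      rw [div_le_one (by positivity)]
      linarith
    have h3 := mul_le_mul_of_nonneg_left h2 (by positivity : (0 : ℝ) ≤ δ / 2)
    linarith
  refine ⟨ε, hε, fun A => ?_⟩
  obtain ⟨N', hN'⟩ := exists_nat_ge ((|A| + m * (|dot a0 l| + Cr * ε)) / (δ / 2))
  have hN1 : 1 ≤ N' + 1 := Nat.le_add_left 1 N'
  obtain ⟨B, S, hBS⟩ := kummer_alg m hm F G hG (N' + 1) hN1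
  obtain ⟨b, hb⟩ := kummer_close m hm F (G ^ (m * (N' + 1))) B _ hBS
  refine ⟨G ^ (m * (N' + 1)), b, pow_ne_zero _ hG, fun l' hl' => ?_⟩
  obtain ⟨a, ha, hamax, hapow⟩ := exists_top G hG l'
  -- bounds near `l`
  have b1 : LB l' (F - G ^ m) (m * dot a l' - δ / 2) := by
    intro e he
    have h1 := hlip l l' ε hl' e (Finset.mem_union_left _ he)
    have h2 := hlip l l' ε hl' a0 (Finset.mem_union_right _ ha0)
    have h3 := hgap e he
    have h4 := hamax a0 ha0
    rw [abs_le] at h1 h2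
    have h5 : (m : ℝ) * dot a0 l' ≤ m * dot a l' := mul_le_mul_of_nonneg_left h4 hm0
    have h6 : (m : ℝ) * dot a0 l ≤ m * (dot a0 l' + Cr * ε) :=
      mul_le_mul_of_nonneg_left (by linarith) hm0
    have h7 : (m + 1) * (Cr * ε) = m * (Cr * ε) + Cr * ε := by ring
    have h8 : (m : ℝ) * (dot a0 l' + Cr * ε) = m * dot a0 l' + m * (Cr * ε) := by ring
    linarith [h1.2]
  have b3 : dot a l' ≤ |dot a0 l| + Cr * ε := by
    have h1 := hlip l l' ε hl' a (Finset.mem_union_right _ ha)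
    have h2 := ha0max a ha
    rw [abs_le] at h1
    have h3 := le_abs_self (dot a0 l)
    linarith [h1.2]
  have hmN : N' + 1 + 1 ≤ m * (N' + 1) := by nlinarith
  have b4 := kummer_bound m (F - G ^ m) G l' (dot a l') (δ / 2) (by positivity) b1
    (fun e he => hamax e he) (N' + 1) hmN S
  refine hb A l' fun e he => ⟨(m * (N' + 1)) • a, hapow _, (b4 e he).trans ?_⟩
  rw [dot_nsmul]
  have h2 : (|A| + m * (|dot a0 l| + Cr * ε)) ≤ (N' : ℝ) * (δ / 2) := by
    rwa [div_le_iff₀ (by positivity)] at hN'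
  have h4 : (m : ℝ) * dot a l' ≤ m * (|dot a0 l| + Cr * ε) := mul_le_mul_of_nonneg_left b3 hm0
  have h5 := le_abs_self A
  push_cast
  linarith

end Pool.Agent.H434.AJ
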