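import Mathlib
import Pool.Agent.H434.P7

/-!
Explicit classes of covers: leading forms of discriminants and leading forms which are powers.
-/

set_option autoImplicit false
set_option linter.unusedSectionVars false

open Polynomial

namespace Pool.Agent.H434.AJ

open Pool.Agent.H434.GM

variable {n r : ℕ}

/-- the polynomial is `Z ^ m - f`, and the leading form of `f` in the direction `u` is a monomial times
an `m`-th power -/
def PowM (P : (MvPolynomial (Fin n) ℂ)[X]) (u : Fin n → ℝ) : Prop :=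
  ∃ (m : ℕ) (f g : MvPolynomial (Fin n) ℂ) (κ : Fin n →₀ ℕ), 2 ≤ m ∧ P = X ^ m - C f ∧ g ≠ 0 ∧
    ∀ b ∈ (f - MvPolynomial.monomial κ 1 * g ^ m).support, ∃ s ∈ g.support,
      ∑ i, (b i : ℝ) * u i < ∑ i, (κ i : ℝ) * u i + m * ∑ i, (s i : ℝ) * u i

theorem exists_T (a : Fin n → Fin n → ℤ)
    (ha : ∀ j, Pi.single j 1 ∈ Submodule.span ℤ (Set.range a)) :
    ∃ T : (Fin n → ℤ) →+ (Fin n → ℤ), ∀ i, T (a i) = Pi.single i 1 := by
  classical
  have h1 : ∀ j, ∃ b : Fin n → ℤ, ∑ i, b i • a i = Pi.single j 1 := fun j =>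
    (Submodule.mem_span_range_iff_exists_fun ℤ).1 (ha j)
  choose b hb using h1
  let A : Matrix (Fin n) (Fin n) ℤ := Matrix.of a
  let B : Matrix (Fin n) (Fin n) ℤ := Matrix.of b
  have hBA : B * A = 1 := by
    ext j k
    rw [Matrix.mul_apply]
    have h2 := congrFun (hb j) k
    rw [Finset.sum_apply] at h2
    have h3 : ∀ i, (b j i • a i) k = B j i * A i k := fun i => rfl
    simp only [h3] at h2
    rw [h2, Matrix.one_apply, Pi.single_apply]
    by_cases hjk : k = j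
    · rw [if_pos hjk, if_pos hjk.symm]
    · rw [if_neg hjk, if_neg fun h => hjk h.symm]
  have hAB : A * B = 1 := mul_eq_one_comm.1 hBA
  let T : (Fin n → ℤ) →+ (Fin n → ℤ) := (Matrix.vecMulLinear B).toAddMonoidHom
  have hT : ∀ e, T e = Matrix.vecMul e B := fun e => rfl
  refine ⟨T, fun i => ?_⟩
  rw [hT]
  funext k
  have h2 := congrFun (congrFun hAB i) k
  rw [Matrix.mul_apply, Matrix.one_apply] at h2
  show ∑ j, a i j * b j k = _
  rw [Pi.single_apply]
  have h3 : ∑ j, a i j * b j k = ∑ j, A i j * B j k := rfl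
  rw [h3, h2]
  by_cases hik : i = k
  · rw [if_pos hik, if_pos hik.symm]
  · rw [if_neg hik, if_neg fun h => hik h.symm]

theorem sbe_inj (M : ℕ) (hM : 1 ≤ M) (a : Fin n → Fin n → ℤ)
    (ha : ∀ j, Pi.single j 1 ∈ Submodule.span ℤ (Set.range a)) (b b' : Fin n →₀ ℕ)
    (h : sbe M a b = sbe M a b') : b = b' := by
  classical
  obtain ⟨T, hT⟩ := exists_T a ha
  have h1 : ∀ b : Fin n →₀ ℕ, T (sbe M a b) = fun i => (M : ℤ) * (b i : ℤ) := by
    intro b
    unfold sbe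
    rw [map_sum]
    have h2 : ∀ i, T (b i • fun j => (M : ℤ) * a i j) = (b i : ℤ) • ((M : ℤ) • Pi.single i 1) := by
      intro i
      have h3 : (fun j => (M : ℤ) * a i j) = (M : ℤ) • a i := by
        funext j
        rfl
      rw [h3, map_nsmul, map_zsmul, hT]
      simp only [natCast_zsmul]
    funext k
    rw [Finset.sum_apply, Finset.sum_eq_single k]
    · rw [h2, Pi.smul_apply, Pi.smul_apply, Pi.single_eq_same, smul_eq_mul, smul_eq_mul]
      ring
    · intro i _ hik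
      rw [h2, Pi.smul_apply, Pi.smul_apply, Pi.single_eq_of_ne hik.symm, smul_zero, smul_zero]
    · intro hk
      exact absurd (Finset.mem_univ _) hk
  have h2 := congrArg T h
  rw [h1, h1] at h2
  refine Finsupp.ext fun i => ?_
  have h3 := congrFun h2 i
  have h4 : (M : ℤ) ≠ 0 := by
    have : (1 : ℤ) ≤ M := by exact_mod_cast hM
    omega
  exact_mod_cast mul_left_cancel₀ h4 h3

theorem dot_sbe' (M : ℕ) (a : Fin n → Fin r → ℤ) (b : Fin n →₀ ℕ) (l : Fin r → ℝ) :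
    dot (sbe M a b) l = M * ∑ i, (b i : ℝ) * ∑ j, (a i j : ℝ) * l j := by
  have h1 : ∀ j, sbe M a b j = ∑ i, (b i : ℤ) * (M * a i j) := by
    intro j
    unfold sbe
    rw [Finset.sum_apply]
    refine Finset.sum_congr rfl fun i _ => ?_
    show b i • ((M : ℤ) * a i j) = _
    rw [nsmul_eq_mul]
  unfold dot
  simp only [h1]
  push_cast
  simp only [Finset.sum_mul, Finset.mul_sum]
  rw [Finset.sum_comm]
  exact Finset.sum_congr rfl fun i _ => Finset.sum_congr rfl fun j _ => by ring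

theorem dot_zsmul (K : ℤ) (a : Fin r → ℤ) (l : Fin r → ℝ) : dot (K • a) l = K * dot a l := by
  unfold dot
  rw [Finset.mul_sum]
  refine Finset.sum_congr rfl fun i _ => ?_
  rw [Pi.smul_apply, smul_eq_mul]
  push_cast
  ring

theorem powD_of (M : ℕ) (hM : 1 ≤ M) (a : Fin n → Fin n → ℤ)
    (ha : ∀ j, Pi.single j 1 ∈ Submodule.span ℤ (Set.range a)) (c : Fin n → ℂ)
    (hc : ∀ i, c i ≠ 0) (l : Fin n → ℝ) (m : ℕ) (hm : 2 ≤ m) (hmM : m ∣ M)
    (f g : MvPolynomial (Fin n) ℂ) (κ : Fin n →₀ ℕ) (hg : g ≠ 0)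
    (h : ∀ b ∈ (f - MvPolynomial.monomial κ 1 * g ^ m).support, ∃ s ∈ g.support,
      ∑ i, (b i : ℝ) * ∑ j, (a i j : ℝ) * l j <
        ∑ i, (κ i : ℝ) * ∑ j, (a i j : ℝ) * l j +
          m * ∑ i, (s i : ℝ) * ∑ j, (a i j : ℝ) * l j) : PowD m (sb M a c f) l := by
  classical
  obtain ⟨N, hN⟩ := hmM
  obtain ⟨γ, hγ⟩ := IsAlgClosed.exists_pow_nat_eq (∏ i, c i ^ κ i) (show 0 < m by omega)
  have hγ0 : γ ≠ 0 := by
    intro h0
    rw [h0, zero_pow (by omega)] at hγ
    exact (Finset.prod_ne_zero_iff.2 fun i _ => pow_ne_zero _ (hc i)) hγ.symm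
  let e0 : Fin n → ℤ := sbe N a κ
  let G : Lau ℂ n := AddMonoidAlgebra.single e0 γ * sb M a c g
  have hGm : G ^ m = sb M a c (MvPolynomial.monomial κ 1 * g ^ m) := by
    show (AddMonoidAlgebra.single e0 γ * sb M a c g) ^ m = _
    rw [mul_pow, map_mul, map_pow, sb_monomial, one_mul, AddMonoidAlgebra.single_pow, hγ]
    congr 2
    show m • sbe N a κ = sbe M a κ
    unfold sbe
    rw [Finset.smul_sum]
    refine Finset.sum_congr rfl fun i _ => ?_
    funext j
    show m • (κ i • ((N : ℤ) * a i j)) = κ i • ((M : ℤ) * a i j)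
    rw [hN]
    simp only [nsmul_eq_mul]
    push_cast
    ring
  have hco : ∀ s ∈ g.support, (sb M a c g).coeff (sbe M a s) =
      MvPolynomial.coeff s g * ∏ i, c i ^ s i := by
    intro s hs
    rw [sb_coeff, Finset.sum_eq_single s]
    · rw [if_pos rfl]
    · intro b _ hbs
      rw [if_neg fun h => hbs (sbe_inj M hM a ha b s h)]
    · intro h1
      exact absurd hs h1
  have hGs : ∀ s ∈ g.support, e0 + sbe M a s ∈ G.coeff.support := by
    intro s hs
    rw [Finsupp.mem_support_iff]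
    have h1 : G.coeff (e0 + sbe M a s) = γ * (sb M a c g).coeff (sbe M a s) := by
      show (AddMonoidAlgebra.single e0 γ * sb M a c g).coeff (e0 + sbe M a s) = _
      rw [AddMonoidAlgebra.coeff_mul, AddMonoidAlgebra.coeff_single,
        Finsupp.sum_single_index (by simp)]
      unfold Finsupp.sum
      show ∑ y ∈ (sb M a c g).coeff.support,
        (if e0 + y = e0 + sbe M a s then γ * (sb M a c g).coeff y else 0) = _
      rw [Finset.sum_eq_single (sbe M a s)]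
      · rw [if_pos rfl]
      · intro y _ hy
        rw [if_neg fun h => hy (add_left_cancel h)]
      · intro hy
        rw [Finsupp.notMem_support_iff.1 hy, mul_zero, ite_self]
    rw [h1, hco s hs]
    exact mul_ne_zero hγ0 (mul_ne_zero (MvPolynomial.mem_support_iff.1 hs)
      (Finset.prod_ne_zero_iff.2 fun i _ => pow_ne_zero _ (hc i)))
  refine ⟨G, ?_, ?_⟩
  · obtain ⟨s, hs⟩ := MvPolynomial.support_nonempty.2 hg
    intro h0
    have h1 := hGs s hs
    rw [h0, Finsupp.mem_support_iff] at h1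
    exact h1 rfl
  · intro e he
    rw [hGm, ← map_sub] at he
    have h1 : ∃ b ∈ (f - MvPolynomial.monomial κ 1 * g ^ m).support, sbe M a b = e := by
      by_contra hcon
      push Not at hcon
      rw [Finsupp.mem_support_iff, sb_coeff] at he
      apply he
      exact Finset.sum_eq_zero fun b hbs => if_neg (hcon b hbs)
    obtain ⟨b, hb, rfl⟩ := h1
    obtain ⟨s, hs, hlt⟩ := h b hb
    refine ⟨e0 + sbe M a s, hGs s hs, ?_⟩
    rw [dot_add, dot_sbe' M a b, dot_sbe' M a s, show dot e0 l = _ from dot_sbe' N a κ l]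
    have h2 : (M : ℝ) = m * N := by
      rw [hN]
      push_cast
      ring
    have h3 : (0 : ℝ) < M := by
      exact_mod_cast (lt_of_lt_of_le Nat.one_pos hM)
    have h4 := mul_lt_mul_of_pos_left hlt h3
    rw [h2] at h4 ⊢
    nlinarith

theorem goodAt_pow (M : ℕ) (hM : 1 ≤ M) (a : Fin n → Fin n → ℤ)
    (ha : ∀ j, Pi.single j 1 ∈ Submodule.span ℤ (Set.range a)) (c : Fin n → ℂ)
    (hc : ∀ i, c i ≠ 0) (l : Fin n → ℝ) (P : (MvPolynomial (Fin n) ℂ)[X])
    (hdM : P.natDegree.factorial ∣ M) (h : PowM P fun i => ∑ j, (a i j : ℝ) * l j) :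
    SplitsNear (pullQ M a c P) l := by
  obtain ⟨m, f, g, κ, hm, rfl, hg, h⟩ := h
  have hdeg : ((X : (MvPolynomial (Fin n) ℂ)[X]) ^ m - C f).natDegree = m :=
    natDegree_X_pow_sub_C
  have hmM : m ∣ M := by
    rw [hdeg] at hdM
    exact (Nat.dvd_factorial (by omega) le_rfl).trans hdM
  have h1 : pullQ M a c ((X : (MvPolynomial (Fin n) ℂ)[X]) ^ m - C f) =
      X ^ m - C (sb M a c f) := by
    unfold pullQ sb
    rw [Polynomial.map_sub, Polynomial.map_pow, Polynomial.map_X, Polynomial.map_C]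
    rfl
  rw [h1]
  exact splits_kummer m hm _ l (powD_of M hM a ha c hc l m hm hmM f g κ hg h)

/-- the condition for one direction -/
def LeadC (P : (MvPolynomial (Fin n) ℂ)[X]) (u : Fin n → ℝ) : Prop :=
  DiscM P u ∨ n ≤ 2 ∧ PowM P u

theorem goodAt_lead (M : ℕ) (hM : 1 ≤ M) (hr : 1 ≤ r) (hrn : r ≤ n) (a : Fin n → Fin r → ℤ)
    (ha : ∀ j, Pi.single j 1 ∈ Submodule.span ℤ (Set.range a)) (c : Fin n → ℂ)
    (hc : ∀ i, c i ≠ 0) (l : Fin r → ℝ) (P : (MvPolynomial (Fin n) ℂ)[X]) (hP : P.Monic)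
    (hdM : P.natDegree.factorial ∣ M) (h : LeadC P fun i => ∑ j, (a i j : ℝ) * l j) :
    GoodAt M a c P l := by
  by_cases hr1 : r = 1
  · exact Or.inr ⟨hdM, Or.inl hr1⟩
  · rcases h with h | ⟨hn, h⟩
    · exact Or.inr ⟨hdM, Or.inr (MonoP.of _ (hP.map _) l (monoD_of P a c hc l h))⟩
    · have h2 : r = n := by omega
      subst h2
      exact Or.inl (goodAt_pow M hM a ha c hc l P hdM h)

/-- **Covers which are ramified in different directions.** -/
theorem tame_of_sep' {q n : ℕ} (X : Set (Fin n → ℂ))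
    (P : Fin q → Polynomial (MvPolynomial (Fin n) ℂ)) (hP : ∀ j, (P j).Monic)
    (h1 : ∀ j, ∀ N : ℕ, 1 ≤ N → NoRoot (pullQ N (fun i => Pi.single i 1) (fun _ => 1) (P j)))
    (h2 : ∀ r : ℕ, 2 ≤ r → r < n → ∀ (a : Fin n → Fin r → ℤ) (c : Fin n → ℂ),
      (∀ j, Pi.single j 1 ∈ Submodule.span ℤ (Set.range a)) → (∀ i, c i ≠ 0) →
      (∃ x ∈ X, ∃ t : Fin r → ℂ, (∀ j, t j ≠ 0) ∧ ∀ i, x i = c i * ∏ j, t j ^ a i j) →
      ∀ j, ∀ N : ℕ, 1 ≤ N → NoRoot (pullQ N a c (P j)))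
    (h3 : ∃ μ : Fin n → ℝ, ∀ u : Fin n → ℝ, u ≠ 0 → 0 ≤ ∑ i, μ i * u i → ∃ j, LeadC (P j) u) :
    ∃ M : ℕ, 1 ≤ M ∧ ∀ r : ℕ, 1 ≤ r → r ≤ n → ∀ (a : Fin n → Fin r → ℤ) (c : Fin n → ℂ),
      (∀ j, Pi.single j 1 ∈ Submodule.span ℤ (Set.range a)) → (∀ i, c i ≠ 0) →
      (∃ x ∈ X, ∃ t : Fin r → ℂ, (∀ j, t j ≠ 0) ∧ ∀ i, x i = c i * ∏ j, t j ^ a i j) →
      ∀ s : Set (Fin q), s.Nonempty → (∀ j, NoRoot (pullQ M a c (P j)) → j ∈ s) →
        (∀ j ∈ s, ¬ IsProd (pullQ M a c (P j))) →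
        ∃ μ : Fin r → ℝ, ∀ l : Fin r → ℝ, l ≠ 0 → 0 ≤ ∑ i, μ i * l i →
          ∃ j ∈ s, GoodAt M a c (P j) l := by
  classical
  let M : ℕ := ∏ j, (P j).natDegree.factorial
  have hM : 1 ≤ M := Finset.one_le_prod' fun j _ => Nat.factorial_pos _
  have hdM : ∀ j, (P j).natDegree.factorial ∣ M := fun j =>
    Finset.dvd_prod_of_mem (fun j => (P j).natDegree.factorial) (Finset.mem_univ j)
  obtain ⟨μ, hμ⟩ := h3
  refine ⟨M, hM, ?_⟩
  intro r hr hrn a c ha hc hX s hs hns _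
  refine ⟨fun j => ∑ i, μ i * a i j, fun l hl hl2 => ?_⟩
  by_cases hr1 : r = 1
  · obtain ⟨j, hj⟩ := hs
    exact ⟨j, hj, Or.inr ⟨hdM j, Or.inl hr1⟩⟩
  · have hall : ∀ j, j ∈ s := by
      intro j
      apply hns
      rcases Nat.lt_or_eq_of_le hrn with h | h
      · exact h2 r (by omega) h a c ha hc hX j M hM
      · subst h
        exact noRoot_pull M hM a ha c hc (P j) (hP j) (h1 j M hM)
    obtain ⟨j, hj⟩ := hμ _ (push_ne a ha l hl) (by
      refine hl2.trans (le_of_eq ?_)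
      simp only [Finset.sum_mul, Finset.mul_sum]
      rw [Finset.sum_comm]
      exact Finset.sum_congr rfl fun i _ => Finset.sum_congr rfl fun j _ => by ring)
    exact ⟨j, hall j, goodAt_lead M hM hr hrn a ha c hc l (P j) (hP j) (hdM j) hj⟩

end Pool.Agent.H434.AJ
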