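import Mathlib
import Pool.Agent.H434.P8

/-!
Explicit classes of covers: conditions for the sets of the indices of the ramified covers.
-/

set_option autoImplicit false
set_option linter.unusedSectionVars false

open Polynomial

namespace Pool.Agent.H434.AJ

open Pool.Agent.H434.GM

/-- no roots after taking powers, also on the translates of proper subtori -/
def NoRts {n : ℕ} (X : Set (Fin n → ℂ)) (P : Polynomial (MvPolynomial (Fin n) ℂ)) : Prop :=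
  (∀ N : ℕ, 1 ≤ N → NoRoot (pullQ N (fun i => Pi.single i 1) (fun _ => 1) P)) ∧
  ∀ r : ℕ, 2 ≤ r → r < n → ∀ (a : Fin n → Fin r → ℤ) (c : Fin n → ℂ),
    (∀ j, Pi.single j 1 ∈ Submodule.span ℤ (Set.range a)) → (∀ i, c i ≠ 0) →
    (∃ x ∈ X, ∃ t : Fin r → ℂ, (∀ j, t j ≠ 0) ∧ ∀ i, x i = c i * ∏ j, t j ^ a i j) →
    ∀ N : ℕ, 1 ≤ N → NoRoot (pullQ N a c P)

/-- **Covers which are ramified in different directions.** -/
theorem tame_of_sets {q n : ℕ} (X : Set (Fin n → ℂ))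
    (P : Fin q → Polynomial (MvPolynomial (Fin n) ℂ)) (hP : ∀ j, (P j).Monic)
    (h : ∀ s : Set (Fin q), s.Nonempty → (∀ j, NoRts X (P j) → j ∈ s) →
      ∃ μ : Fin n → ℝ, ∀ u : Fin n → ℝ, u ≠ 0 → 0 ≤ ∑ i, μ i * u i →
        ∃ j ∈ s, LeadC (P j) u) :
    ∃ M : ℕ, 1 ≤ M ∧ ∀ r : ℕ, 1 ≤ r → r ≤ n → ∀ (a : Fin n → Fin r → ℤ) (c : Fin n → ℂ),
      (∀ j, Pi.single j 1 ∈ Submodule.span ℤ (Set.range a)) → (∀ i, c i ≠ 0) →
      (∃ x ∈ X, ∃ t : Fin r → ℂ, (∀ j, t j ≠ 0) ∧ ∀ i, x i = c i * ∏ j, t j ^ a i j) →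
      ∀ s : Set (Fin q), s.Nonempty → (∀ j, NoRoot (pullQ M a c (P j)) → j ∈ s) →
        (∀ j ∈ s, ¬ IsProd (pullQ M a c (P j))) →
        ∃ μ : Fin r → ℝ, ∀ l : Fin r → ℝ, l ≠ 0 → 0 ≤ ∑ i, μ i * l i →
          ∃ j ∈ s, GoodAt M a c (P j) l := by
  classical
  let M : ℕ := ∏ j, (P j).natDegree.factorial
  have hM : 1 ≤ M := Finset.one_le_prod' fun j _ => Nat.factorial_pos _
  have hdM : ∀ j, (P j).natDegree.factorial ∣ M := fun j =>
    Finset.dvd_prod_of_mem (fun j => (P j).natDegree.factorial) (Finset.mem_univ j)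
  refine ⟨M, hM, ?_⟩
  intro r hr hrn a c ha hc hX s hs hns _
  by_cases hr1 : r = 1
  · obtain ⟨j, hj⟩ := hs
    exact ⟨0, fun l hl hl2 => ⟨j, hj, Or.inr ⟨hdM j, Or.inl hr1⟩⟩⟩
  · obtain ⟨μ, hμ⟩ := h s hs fun j hj => hns j (by
      rcases Nat.lt_or_eq_of_le hrn with h | h
      · exact hj.2 r (by omega) h a c ha hc hX M hM
      · subst h
        exact noRoot_pull M hM a ha c hc (P j) (hP j) (hj.1 M hM))
    refine ⟨fun j => ∑ i, μ i * a i j, fun l hl hl2 => ?_⟩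
    obtain ⟨j, hjs, hj⟩ := hμ _ (push_ne a ha l hl) (by
      refine hl2.trans (le_of_eq ?_)
      simp only [Finset.sum_mul, Finset.mul_sum]
      rw [Finset.sum_comm]
      exact Finset.sum_congr rfl fun i _ => Finset.sum_congr rfl fun j _ => by ring)
    exact ⟨j, hjs, goodAt_lead M hM hr hrn a ha c hc l (P j) (hP j) (hdM j) hj⟩

end Pool.Agent.H434.AJ
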